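import Pool.Agent.Lib.MP_a54f13_nt.Av.SpecA
import Pool.Agent.Lib.MP_a54f13_nt.IntLap

/-!
The functions `f_k`: weights, smoothness, eigenvalue equation.
-/

set_option autoImplicit false

namespace Pool.Agent.A54.Av

open MeasureTheory Filter Topology Set
open scoped ContDiff ComplexConjugate UpperHalfPlane MatrixGroups ENNReal
open Pool.Agent.A54.Half (H0)

namespace WfM

noncomputable section

variable {a b g : ℂ → ℂ} {z : ℂ}

lemma oH : IsOpen H0 := Half.isOpen_H0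

lemma cdx (hg : ContDiffOn ℝ ∞ g H0) (v : ℂ) : ContDiffOn ℝ ∞ (fun z => fderiv ℝ g z v) H0 :=
  (hg.fderiv_of_isOpen oH (by simp)).clm_apply contDiffOn_const

lemma cd_dz (hg : ContDiffOn ℝ ∞ g H0) : ContDiffOn ℝ ∞ (dz g) H0 :=
  (cdx hg 1).sub (contDiffOn_const.mul (cdx hg Complex.I))

lemma cd_dzb (hg : ContDiffOn ℝ ∞ g H0) : ContDiffOn ℝ ∞ (dzb g) H0 :=
  (cdx hg 1).add (contDiffOn_const.mul (cdx hg Complex.I))

lemma cd_im : ContDiffOn ℝ ∞ (fun z : ℂ => (z.im : ℂ)) H0 :=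
  (Complex.ofRealCLM.contDiff.comp Complex.imCLM.contDiff).contDiffOn

lemma dAt (hg : ContDiffOn ℝ ∞ g H0) (hz : z ∈ H0) : DifferentiableAt ℝ g z :=
  (hg.contDiffAt (oH.mem_nhds hz)).differentiableAt (by simp)

lemma cd_RR (k : ℕ) (hg : ContDiffOn ℝ ∞ g H0) : ContDiffOn ℝ ∞ (RR k g) H0 :=
  ((contDiffOn_const.mul cd_im).mul (cd_dz hg)).add (contDiffOn_const.mul hg)

lemma cd_LL (k : ℕ) (hg : ContDiffOn ℝ ∞ g H0) : ContDiffOn ℝ ∞ (LL k g) H0 :=
  ((contDiffOn_const.mul cd_im).mul (cd_dzb hg)).neg.sub (contDiffOn_const.mul hg)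

lemma dz_mul' (ha : DifferentiableAt ℝ a z) (hb : DifferentiableAt ℝ b z) :
    dz (fun w => a w * b w) z = dz a z * b z + a z * dz b z := by
  unfold dz
  rw [fderiv_fun_mul ha hb]
  simp only [add_apply, smul_apply, smul_eq_mul]
  ring

lemma dzb_mul' (ha : DifferentiableAt ℝ a z) (hb : DifferentiableAt ℝ b z) :
    dzb (fun w => a w * b w) z = dzb a z * b z + a z * dzb b z := by
  unfold dzb
  rw [fderiv_fun_mul ha hb]
  simp only [add_apply, smul_apply, smul_eq_mul]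
  ring

lemma dz_add' (ha : DifferentiableAt ℝ a z) (hb : DifferentiableAt ℝ b z) :
    dz (fun w => a w + b w) z = dz a z + dz b z := by
  unfold dz
  rw [fderiv_fun_add ha hb]
  simp only [add_apply]
  ring

lemma dzb_add' (ha : DifferentiableAt ℝ a z) (hb : DifferentiableAt ℝ b z) :
    dzb (fun w => a w + b w) z = dzb a z + dzb b z := by
  unfold dzb
  rw [fderiv_fun_add ha hb]
  simp only [add_apply]
  ring

lemma dz_cmul (c : ℂ) (ha : DifferentiableAt ℝ a z) :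
    dz (fun w => c * a w) z = c * dz a z := by
  rw [dz_mul' (differentiableAt_const c) ha, dz_const]; ring

lemma dzb_cmul (c : ℂ) (ha : DifferentiableAt ℝ a z) :
    dzb (fun w => c * a w) z = c * dzb a z := by
  rw [dzb_mul' (differentiableAt_const c) ha, dzb_const]; ring

lemma fderiv_im (v : ℂ) : fderiv ℝ (fun w : ℂ => (w.im : ℂ)) z v = (v.im : ℂ) := by
  have h : HasFDerivAt (fun w : ℂ => (w.im : ℂ)) (Complex.ofRealCLM.comp Complex.imCLM) z :=
    (Complex.ofRealCLM.comp Complex.imCLM).hasFDerivAt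
  rw [h.fderiv]
  simp

lemma dz_im : dz (fun w : ℂ => (w.im : ℂ)) z = -Complex.I := by
  unfold dz
  rw [fderiv_im, fderiv_im]
  simp

lemma dzb_im : dzb (fun w : ℂ => (w.im : ℂ)) z = Complex.I := by
  unfold dzb
  rw [fderiv_im, fderiv_im]
  simp

lemma ff_comm (hg : ContDiffOn ℝ ∞ g H0) (hz : z ∈ H0) (u v : ℂ) :
    fderiv ℝ (fun w => fderiv ℝ g w u) z v = fderiv ℝ (fun w => fderiv ℝ g w v) z u := by
  have hgz : ContDiffAt ℝ ∞ g z := hg.contDiffAt (oH.mem_nhds hz)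
  have hd : DifferentiableAt ℝ (fderiv ℝ g) z :=
    (hgz.fderiv_right (m := ∞) (by simp)).differentiableAt (by simp)
  rw [fderiv_clm_apply hd (differentiableAt_const u), fderiv_clm_apply hd (differentiableAt_const v)]
  simp only [fderiv_fun_const, Pi.zero_apply, ContinuousLinearMap.comp_zero, zero_add,
    ContinuousLinearMap.flip_apply]
  have hs : IsSymmSndFDerivAt ℝ g z :=
    hgz.isSymmSndFDerivAt (by
      rw [minSmoothness_of_isRCLikeNormedField]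
      exact WithTop.coe_le_coe.mpr (le_top : (2 : ℕ∞) ≤ ⊤))
  exact hs v u

lemma comm' (hg : ContDiffOn ℝ ∞ g H0) (hz : z ∈ H0) : dz (dzb g) z = dzb (dz g) z := by
  have h1 := dAt (cdx hg 1) hz
  have hI := dAt (cdx hg Complex.I) hz
  have e1 : dz (dzb g) z = dz (fun w => fderiv ℝ g w 1) z +
      Complex.I * dz (fun w => fderiv ℝ g w Complex.I) z := by
    unfold dzb
    rw [dz_add' h1 (hI.const_mul _), dz_cmul _ hI]
  have e2 : dzb (dz g) z = dzb (fun w => fderiv ℝ g w 1) z +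
      (-Complex.I) * dzb (fun w => fderiv ℝ g w Complex.I) z := by
    have e : dz g = fun w => fderiv ℝ g w 1 + (-Complex.I) * fderiv ℝ g w Complex.I := by
      funext w
      unfold dz
      ring
    rw [e, dzb_add' h1 (hI.const_mul _), dzb_cmul _ hI]
  rw [e1, e2]
  unfold dz dzb
  rw [ff_comm hg hz 1 Complex.I]
  ring_nf

/-- `L_{j+1} R_j = y² Δ - j i y (∂ + ∂̄) - j (j + 1)` -/
lemma LR (j : ℕ) (hg : ContDiffOn ℝ ∞ g H0) (hz : z ∈ H0) :
    LL (j + 1) (RR j g) z = (z.im : ℂ) ^ 2 * dzb (dz g) z -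
      (j : ℂ) * Complex.I * (z.im : ℂ) * (dz g z + dzb g z) - (j : ℂ) * (j + 1) * g z := by
  have h0 := dAt hg hz
  have h1 := dAt (cd_dz hg) hz
  have h2 := dAt cd_im hz
  have e : dzb (RR j g) z = -dz g z + Complex.I * z.im * dzb (dz g) z + j * dzb g z := by
    have h3 : DifferentiableAt ℝ (fun w : ℂ => Complex.I * (w.im : ℂ)) z := h2.const_mul _
    have h4 : DifferentiableAt ℝ (fun w : ℂ => Complex.I * (w.im : ℂ) * dz g w) z := h3.mul h1
    have h5 : DifferentiableAt ℝ (fun w : ℂ => (j : ℂ) * g w) z := h0.const_mul _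
    unfold RR
    rw [dzb_add' h4 h5, dzb_mul' h3 h1, dzb_cmul _ h2, dzb_cmul _ h0, dzb_im]
    linear_combination (dz g z) * Complex.I_mul_I
  unfold LL
  rw [e]
  unfold RR
  push_cast
  linear_combination (-(z.im : ℂ) ^ 2 * dzb (dz g) z) * Complex.I_mul_I

/-- `R_{j-1} L_j = y² Δ - j i y (∂ + ∂̄) - j (j - 1)` -/
lemma RL (j : ℕ) (hg : ContDiffOn ℝ ∞ g H0) (hz : z ∈ H0) :
    RR j (LL (j + 1) g) z = (z.im : ℂ) ^ 2 * dzb (dz g) z -
      ((j : ℂ) + 1) * Complex.I * (z.im : ℂ) * (dz g z + dzb g z) -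
      ((j : ℂ) + 1) * j * g z := by
  have h0 := dAt hg hz
  have h1 := dAt (cd_dzb hg) hz
  have h2 := dAt cd_im hz
  have e : dz (LL (j + 1) g) z = -dzb g z - Complex.I * z.im * dzb (dz g) z -
      ((j : ℂ) + 1) * dz g z := by
    have e0 : LL (j + 1) g = fun w => ((-Complex.I) * (w.im : ℂ)) * dzb g w +
        (-((j : ℂ) + 1)) * g w := by
      funext w
      unfold LL
      push_cast
      ring
    have h3 : DifferentiableAt ℝ (fun w : ℂ => (-Complex.I) * (w.im : ℂ)) z := h2.const_mul _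
    have h4 : DifferentiableAt ℝ (fun w : ℂ => (-Complex.I) * (w.im : ℂ) * dzb g w) z :=
      h3.mul h1
    have h5 : DifferentiableAt ℝ (fun w : ℂ => (-((j : ℂ) + 1)) * g w) z := h0.const_mul _
    rw [e0, dz_add' h4 h5, dz_mul' h3 h1, dz_cmul _ h2, dz_cmul _ h0, dz_im, comm' hg hz]
    linear_combination (dzb g z) * Complex.I_mul_I
  unfold RR
  rw [e]
  unfold LL
  push_cast
  linear_combination (-(z.im : ℂ) ^ 2 * dzb (dz g) z) * Complex.I_mul_I

lemma key (j : ℕ) (hg : ContDiffOn ℝ ∞ g H0) (hz : z ∈ H0) :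
    LL (j + 2) (RR (j + 1) g) z = RR j (LL (j + 1) g) z - 2 * ((j : ℂ) + 1) * g z := by
  have h1 := LR (j + 1) hg hz
  rw [h1, RL j hg hz]
  push_cast
  ring

lemma RR_congr (k : ℕ) (h : ∀ w ∈ H0, a w = b w) (hz : z ∈ H0) : RR k a z = RR k b z := by
  unfold RR
  rw [dz_congr oH h hz, h z hz]

lemma RR_cmul (k : ℕ) (c : ℂ) (ha : DifferentiableAt ℝ a z) :
    RR k (fun w => c * a w) z = c * RR k a z := by
  unfold RR
  rw [dz_cmul c ha]
  ring

lemma smooth_fk {f : ℍ → ℝ} (hf : ContDiffOn ℝ ∞ (ext f) H0) (k : ℕ) :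
    ContDiffOn ℝ ∞ (fk f k) H0 := by
  induction k with
  | zero => exact Complex.ofRealCLM.contDiff.comp_contDiffOn hf
  | succ k ih => exact cd_RR k ih

lemma ext_T {f : ℍ → ℝ} {t : ℝ} (hf : IsHeckeMaass f t) {τ : ℂ} (hτ : τ ∈ H0) :
    ext f (τ + 1) = ext f τ := by
  have h1 : τ + 1 ∈ H0 := by
    have h0 : 0 < τ.im := hτ
    show 0 < (τ + 1).im
    simpa using h0
  set w : ℍ := ⟨τ, hτ⟩ with hw
  have e1 : ext f τ = f w := Half.ext_coe f w
  have e2 : ext f (τ + 1) = f ⟨τ + 1, h1⟩ := Half.ext_coe f ⟨τ + 1, h1⟩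
  rw [e1, e2, ← hf.invariant ModularGroup.T w]
  congr 1
  ext
  rw [UpperHalfPlane.modular_T_smul]
  show τ + 1 = _
  rw [UpperHalfPlane.coe_vadd]
  simp [hw, add_comm]

lemma ext_S {f : ℍ → ℝ} {t : ℝ} (hf : IsHeckeMaass f t) {τ : ℂ} (hτ : τ ∈ H0) :
    ext f (-τ⁻¹) = ext f τ := by
  set w : ℍ := ⟨τ, hτ⟩ with hw
  have h1 : -τ⁻¹ ∈ H0 := by
    have := (ModularGroup.S • w).im_pos
    rw [UpperHalfPlane.modular_S_smul] at this
    have e : ((UpperHalfPlane.mk (-(w : ℂ))⁻¹ w.im_inv_neg_coe_pos : ℍ) : ℂ) = (-τ)⁻¹ := rfl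
    have e3 : 0 < ((-τ)⁻¹).im := this
    rw [inv_neg] at e3
    exact e3
  have e1 : ext f τ = f w := Half.ext_coe f w
  have e2 : ext f (-τ⁻¹) = f ⟨-τ⁻¹, h1⟩ := Half.ext_coe f ⟨-τ⁻¹, h1⟩
  rw [e1, e2, ← hf.invariant ModularGroup.S w]
  congr 1
  rw [UpperHalfPlane.modular_S_smul]
  ext
  show -τ⁻¹ = (-(w : ℂ))⁻¹
  rw [inv_neg]

lemma wt0 {f : ℍ → ℝ} {t : ℝ} (hf : IsHeckeMaass f t) (hb : ∃ C : ℝ, ∀ z ∈ H0, ‖fk f 0 z‖ ≤ C) :
    Wt 0 (fk f 0) where
  smooth := (smooth_fk hf.smooth 0).of_le (by simp)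
  T := fun τ hτ => by
    show (ext f (τ + 1) : ℂ) = (ext f τ : ℂ)
    rw [ext_T hf hτ]
  S := fun τ hτ => by
    show (ext f (-τ⁻¹) : ℂ) = _ * (ext f τ : ℂ)
    rw [ext_S hf hτ, pow_zero, one_mul]
  bdd := by
    obtain ⟨C, hC⟩ := hb
    exact ⟨C, fun τ hτ _ => hC τ hτ⟩

lemma wtk (hWR : StmtWR) (hDer : StmtDer) {f : ℍ → ℝ} {t : ℝ} (hf : IsHeckeMaass f t) (k : ℕ) :
    Wt k (fk f k) := by
  induction k with
  | zero => exact wt0 hf (hDer f t hf 0)
  | succ k ih =>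
    refine hWR k (fk f k) ih ?_ ?_
    · exact (smooth_fk hf.smooth (k + 1)).of_le (by simp)
    · obtain ⟨C, hC⟩ := hDer f t hf (k + 1)
      exact ⟨C, fun τ hτ _ => hC τ hτ⟩

lemma eig {f : ℍ → ℝ} {t : ℝ} (hf : IsHeckeMaass f t) (k : ℕ) : ∀ z ∈ H0,
    LL (k + 1) (fk f (k + 1)) z = -((mu k t : ℝ) : ℂ) * fk f k z := by
  induction k with
  | zero =>
    intro z hz
    have h1 := LR 0 (smooth_fk hf.smooth 0) hz
    have h2 : LL (0 + 1) (fk f (0 + 1)) z = (z.im : ℂ) ^ 2 * dzb (dz (fk f 0)) z := by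
      show LL (0 + 1) (RR 0 (fk f 0)) z = _
      rw [h1]
      push_cast
      ring
    have h3 := stmtLap H0 (ext f) oH hf.smooth z hz
    have h4 := hf.eigen ⟨z, hz⟩
    have h5 : f ⟨z, hz⟩ = ext f z := (Half.ext_coe f ⟨z, hz⟩).symm
    rw [h5] at h4
    have h6 : -(z.im) ^ 2 * Laplacian.laplacian (ext f) z = (1 / 4 + t ^ 2) * ext f z := h4
    have h7 : dzb (dz (fk f 0)) z = ((Laplacian.laplacian (ext f) z : ℝ) : ℂ) := h3.symm
    have h8 : fk f 0 z = (ext f z : ℂ) := rfl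
    rw [h2, h7, h8]
    have h9 : (z.im) ^ 2 * Laplacian.laplacian (ext f) z = -(mu 0 t) * ext f z := by
      unfold mu
      push_cast
      linarith
    exact_mod_cast h9
  | succ k ih =>
    intro z hz
    have hs := smooth_fk hf.smooth (k + 1)
    have h1 := key k hs hz
    have h2 : LL (k + 1 + 1) (fk f (k + 1 + 1)) z =
        RR k (LL (k + 1) (fk f (k + 1))) z - 2 * ((k : ℂ) + 1) * fk f (k + 1) z := h1
    rw [h2, RR_congr k ih hz, RR_cmul k _ (dAt (smooth_fk hf.smooth k) hz)]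
    have h3 : RR k (fk f k) z = fk f (k + 1) z := rfl
    rw [h3]
    unfold mu
    push_cast
    ring

end

end WfM

theorem stmtWf (hWR : StmtWR) (hDer : StmtDer) : StmtWf := fun _ _ hf k =>
  ⟨WfM.wtk hWR hDer hf k, WfM.smooth_fk hf.smooth k, WfM.eig hf k⟩

end Pool.Agent.A54.Av
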