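import Pool.Agent.Lib.MP_a54f13_nt.Av.Defs

/-!
# Package `Av`, part A: theta kernel, Maass forms, Bessel inequality

GOAL of the package (helper3): for almost all Hecke–Maass forms of level one the fourth moment is
Gaussian: for every `ψ ∈ TestX`, `ε > 0` and all large `T`, all but `ε T²` of the forms with
`T < t ≤ 2 T` satisfy `|(∫ ψ) (∫ ψ f⁴) - 3 (∫ ψ f²)²| ≤ ε`.

GOAL of part A: `StmtSI` (a Bessel inequality for the Siegel theta series, which pairs with `f` to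
`f(z)²`), and `StmtGI` (its geometric side).

Notation in the doc comments: `γ = (a, b; c, d)` an integral matrix, `n = det γ`, `V = V_γ`,
`τ = x + i y`, `P = a w + b`, `Q = c w + d`. Library: `ext f` is `f` as a function on `ℂ`
(`Half.ext_coe`), `fdo` is `ModularGroup.fdo = {|z| > 1, |re z| < 1/2}`, `∫ z : ℍ` is with respect to
`dx dy / y²` (`IntLap.int_gen`, `Spec.StmtInt`), `Calc.lean` has the rules for `dz`, `dzb` (for functions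
smooth on the plane; on `H0` use `fderiv` directly or multiply by a cutoff function),
`Pl/U1.lean`: `U1M.ae_two` (for almost every `w` exactly two `γ ∈ SL(2, ℤ)` have `γ w ∈ fdo`), `smooth_smul`.

Every module: file `Pool/Agent/Lib/MP_a54f13_nt/Av/<Name>.lean`, importing
`Pool.Agent.Lib.MP_a54f13_nt.Av.SpecA` and what is named in the task, private names in
`namespace Pool.Agent.A54.Av.<Name>M`, final theorem `Pool.Agent.A54.Av.stmt<Name>`; the other Props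
used are hypotheses of the theorem.
-/

set_option autoImplicit false

namespace Pool.Agent.A54.Av

open MeasureTheory Filter Topology Set
open scoped ContDiff ComplexConjugate UpperHalfPlane MatrixGroups ENNReal
open Pool.Agent.A54.Half (H0 qq ff hh)

noncomputable section

/-! ### The quadratic form -/

/-- **QF** Proof. `|P - z Q|² - |P - z̄ Q|² = -4 im z im(P Q̄)` and `im(P Q̄) = n im w`; this is (3), and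
(2) follows. Adding, `2 (n + 2 V) = 2 (V + (n + V)) = (|P - x Q|² + y² |Q|²) / (y v)` with
`z = x + i y`, `w = u + i v`. This is `‖g_z⁻¹ γ g_w‖²` (sum of the squares of the entries) where
`g_w = v^{-1/2} (v, u; 0, 1)`: `|P - x Q|² = ((a - x c) u + b - x d)² + (a - x c)² v²`,
`|Q|² = (c u + d)² + c² v²`. (4): `γ = g_z (g_z⁻¹ γ g_w) g_w⁻¹`, the norm is submultiplicative and
`‖g_z‖² = (|z|² + 1) / y = ‖g_z⁻¹‖²` (determinant one). (5): `P - z Q` for `w = z` is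
`-(c z² - (a - d) z - b)`. (6): `P - z̄ Q` for `w = z` is `-(c |z|² - (a - d) x - b) + i (a + d) y`. -/
def StmtQF : Prop := ∀ (γ : Mat) (z w : ℂ), z ∈ H0 → w ∈ H0 →
  0 ≤ VV γ z w ∧ 0 ≤ ((γ.det : ℤ) : ℝ) + VV γ z w ∧
  ((γ.det : ℤ) : ℝ) + VV γ z w = ‖((γ 0 0 : ℤ) : ℂ) * w + ((γ 0 1 : ℤ) : ℂ) -
    conj z * (((γ 1 0 : ℤ) : ℂ) * w + ((γ 1 1 : ℤ) : ℂ))‖ ^ 2 / (4 * z.im * w.im) ∧
  msq γ ≤ 2 * (((γ.det : ℤ) : ℝ) + 2 * VV γ z w) * ((‖z‖ ^ 2 + 1) / z.im) *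
    ((‖w‖ ^ 2 + 1) / w.im) ∧
  Vd γ z = ‖((γ 1 0 : ℤ) : ℂ) * z ^ 2 - (((γ 0 0 : ℤ) : ℂ) - ((γ 1 1 : ℤ) : ℂ)) * z -
    ((γ 0 1 : ℤ) : ℂ)‖ ^ 2 / (4 * z.im ^ 2) ∧
  ((γ.det : ℤ) : ℝ) + Vd γ z = bet γ z ^ 2 + (((γ 0 0 : ℤ) : ℝ) + ((γ 1 1 : ℤ) : ℝ)) ^ 2 / 4

/-- **Gau** Gaussian sums over the matrices. Proof. `∑_{n ∈ ℤ} e^{-t n²} ≤ 1 + 2 ∑_{n ≥ 1} e^{-t n}`
is finite for `t > 0` and at most `C t^{-1/2}` for `t ≤ 1` (`1 + 2 ∫_0^∞ e^{-t x²} dx = 1 + √(π / t)`);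
the sum over matrices is the fourth power (equivalence of `Mat` with `ℤ⁴`, `Summable.mul_of_nonneg`, or
`tsum` over products). For `γ ≠ 0` and `t ≥ t0`, `e^{-t |γ|²} ≤ e^{-t/2} e^{-t0 |γ|² / 2}`. -/
def StmtGau : Prop :=
  (∀ t : ℝ, 0 < t → Summable fun γ : Mat => Real.exp (-(t * msq γ))) ∧
  (∃ C : ℝ, ∀ t : ℝ, 0 < t → t ≤ 1 → ∑' γ : Mat, Real.exp (-(t * msq γ)) ≤ C * (t ^ 2)⁻¹) ∧
  (∀ t0 : ℝ, 0 < t0 → ∃ C : ℝ, ∀ t : ℝ, t0 ≤ t →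
    ∑' γ : Mat, (open Classical in if γ = 0 then (0 : ℝ) else Real.exp (-(t * msq γ))) ≤
      C * Real.exp (-(t / 2)))

/-- **ThS** size of the theta series (uses `QF`, `Gau`). Proof. `|e(n τ)| = e^{-2 π n y}`, which gives
the formula for `‖kk‖`. On a compact set `(|z|² + 1) / im z` is bounded, so by `QF` (4)
`n + 2 V ≥ c0 |γ|²`, `‖kk γ τ z w‖ ≤ y e^{-2 π c0 y |γ|²}`; the term of `γ = 0` is `y`; apply `Gau` with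
`t = 2 π c0 y`. Last statement: for `im ≥ 1/2`, `|re| ≤ 1/2`, `(|w|² + 1) / im w ≤ 8 im w`, so by `QF` (4)
`n + 2 V_γ(w, τ) ≥ c |γ|² / (im w im τ)` and `Gau` (2) (or (1), if `t > 1`) with
`t = 2 π im z c / (im w im τ)`. -/
def StmtThS : Prop :=
  (∀ (γ : Mat) (τ z w : ℂ), τ ∈ H0 → z ∈ H0 → w ∈ H0 →
    ‖kk γ τ z w‖ = τ.im * Real.exp (-(2 * Real.pi * τ.im * (((γ.det : ℤ) : ℝ) + 2 * VV γ z w)))) ∧
  (∀ K : Set ℂ, IsCompact K → K ⊆ H0 → ∀ Y0 : ℝ, 0 < Y0 → ∃ C c : ℝ, 0 ≤ C ∧ 0 < c ∧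
    ∀ τ : ℂ, Y0 ≤ τ.im → ∀ z ∈ K, ∀ w ∈ K, (Summable fun γ : Mat => ‖kk γ τ z w‖) ∧
      ∑' γ : Mat, ‖kk γ τ z w‖ ≤ C * τ.im ∧ ‖Th τ z w - (τ.im : ℂ)‖ ≤ C * Real.exp (-(c * τ.im))) ∧
  (∀ z ∈ H0, ∃ C : ℝ, 0 ≤ C ∧ ∀ w τ : ℂ, 1 / 2 ≤ w.im → 1 / 2 ≤ τ.im → |w.re| ≤ 1 / 2 →
    |τ.re| ≤ 1 / 2 → (Summable fun γ : Mat => ‖kk γ z w τ‖) ∧
      ∑' γ : Mat, ‖kk γ z w τ‖ ≤ C * (w.im * τ.im) ^ 2)

/-- **Tri** triality. Proof. Write `τ = τ₁ + i τ₂` etc. By `QF` the exponent of the term of `γ` in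
`Th τ z w` is `2 π i (ad - bc) τ₁ - π (τ₂ / (z₂ w₂)) [((a w₁ + b) - z₁ (c w₁ + d))² + w₂² (a - z₁ c)² +
z₂² (c w₁ + d)² + z₂² w₂² c²]`. For fixed `a, c, d` sum over `b` by Poisson,
`∑_b e^{-π A (b + β)²} e^{-2 π i b ξ} = A^{-1/2} ∑_m e^{-π (m + ξ)² / A + 2 π i (m + ξ) β}` with
`A = τ₂ / (z₂ w₂)`, `ξ = c τ₁`, `β = a w₁ - z₁ (c w₁ + d)`; then for fixed `c, d, m` sum over `a` in the
same way with `B = τ₂ w₂ / z₂`, `β = - z₁ c`, `ξ = -(d τ₁ + (m + c τ₁) w₁)` and dual variable `l`. With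
`(a', b', c', d') = (-d, l, c, m)` the result is the term of `Th z w τ`: `τ₂ (A B)^{-1/2} = z₂`;
`π (m + c τ₁)² / A = π (z₂ / (w₂ τ₂)) w₂² (c' τ₁ + d')²`, `π A z₂² w₂² c² = π (z₂/(w₂ τ₂)) w₂² τ₂² c'²`,
`π A z₂² (c w₁ + d)² = π (z₂/(w₂ τ₂)) τ₂² (a' - w₁ c')²`, `π (l + ξ)² / B = π (z₂/(w₂ τ₂))
((a' τ₁ + b') - w₁ (c' τ₁ + d'))²`, and the phase is `-2 π i z₁ [c (l + ξ) + (m + c τ₁)(c w₁ + d)] =
-2 π i z₁ (c l + m d) = 2 π i z₁ (a' d' - b' c')`. All sums converge absolutely (Gaussians: exchange of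
summations by `Summable.tsum_comm` or `tsum_prod`; `Mat ≃ ℤ × ℤ × ℤ × ℤ`). Poisson: Mathlib
`Complex.tsum_exp_neg_quadratic` (or `Real.tsum_exp_neg_quadratic`). -/
def StmtTri : Prop := ∀ τ z w : ℂ, τ ∈ H0 → z ∈ H0 → w ∈ H0 → Th τ z w = Th z w τ

/-- **ThI** invariance and symmetry (uses `Tri`). Proof. `V_γ(w, τ + 1) = V_{γ T}(w, τ)`,
`V_γ(w, -1/τ) = V_{γ S}(w, τ)` with `T = (1, 1; 0, 1)`, `S = (0, -1; 1, 0)` (`|a (-1/τ) + b - w (c (-1/τ) + d)|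
= |τ|⁻¹ |b τ - a - w (d τ - c)|`, `im(-1/τ) = im τ / |τ|²`), and `γ ↦ γ T`, `γ ↦ γ S` are bijections of `Mat`
which preserve the determinant. So `Th z w τ` is invariant in `τ`; now use `Tri`. (3): with the adjugate
`γ' = (d, -b; -c, a)`: `|a w + b - z (c w + d)| = |d z - b - w (-c z + a)|`, so `V_γ(z, w) = V_{γ'}(w, z)`. -/
def StmtThI : Prop := ∀ τ z w : ℂ, τ ∈ H0 → z ∈ H0 → w ∈ H0 →
  Th (τ + 1) z w = Th τ z w ∧ Th (-τ⁻¹) z w = Th τ z w ∧ Th τ z w = Th τ w z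

/-! ### The modular surface -/

/-- **UL** unfolding. Proof. By `U1M.ae_two` for almost every `w ∈ ℍ` exactly two `γ` satisfy
`γ w ∈ fdo`. `∫_{fdo} ∑_γ G(γ z) = ∑_γ ∫_ℍ 1_{fdo}(z) G(γ z) = ∑_γ ∫_ℍ 1_{fdo}(γ⁻¹ w) G(w) =
∫_ℍ #{γ : γ w ∈ fdo} G = 2 ∫_ℍ G` (`lintegral_tsum`, invariance of the measure, `SL(2, ℤ)` is countable).
The second statement: apply the first to `‖G‖ₑ` (for a measurable representative), then the same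
computation with `integral_tsum` / `integral_iUnion`-type lemmas, or write `G` as a combination of four
nonnegative functions. -/
def StmtUL : Prop :=
  (∀ G : ℍ → ℝ≥0∞, Measurable G →
    ∫⁻ z in ModularGroup.fdo, ∑' γ : SL(2, ℤ), G (γ • z) = 2 * ∫⁻ z, G z) ∧
  (∀ G : ℍ → ℂ, Integrable G → (∀ᵐ z : ℍ, Summable fun γ : SL(2, ℤ) => ‖G (γ • z)‖) ∧
    IntegrableOn (fun z => ∑' γ : SL(2, ℤ), G (γ • z)) ModularGroup.fdo ∧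
    ∫ z in ModularGroup.fdo, ∑' γ : SL(2, ℤ), G (γ • z) = 2 * ∫ z, G z)

/-- **IBP** integration by parts on the modular surface. Proof. `i y (∂_x - i ∂_y) V - V` divided by `y²`
is `i ∂_x (V / y) + ∂_y (V / y)`. Integrate over `{|x| < 1/2, √(1 - x²) < y < Y}`. The second term gives
`∫_{-1/2}^{1/2} [V(x + i Y) / Y - V(x + i y(x)) / y(x)] dx`, `y(x) = √(1 - x²)`. The first term: for
`y ≥ 1` the integral over `x` vanishes (`V(τ + 1) = V(τ)`); for `√3/2 < y < 1` it is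
`i (V(-s + i y) - V(s + i y)) / y` with `s = √(1 - y²)`; the substitution `y = y(x)`, `dy = -(x / y) dx`
turns `i ∫_{√3/2}^1 ... dy` into `- i ∫_{-1/2}^{1/2} V(x + i y(x)) x / y(x)² dx`. The sum of the arc terms
is `- ∫ V(τ) (y + i x) / y² dx = - i ∫ V(τ) τ̄ / y² dx` (`τ = x + i y(x)`, `|τ| = 1`). For `|τ| = 1`,
`-1/τ = -τ̄`, so `V(-τ̄) = V(τ) τ̄ / τ = V(τ) τ̄²`, and `V(-τ̄) conj(-τ̄) = - V(τ) τ̄`: the
integrand is odd in `x`. Finally `Y → ∞`. The integrand is bounded, the volume of `fdo` is finite. -/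
def StmtIBP : Prop := ∀ V : ℂ → ℂ, ContDiffOn ℝ 1 V H0 → (∀ τ ∈ H0, V (τ + 1) = V τ) →
  (∀ τ ∈ H0, V (-τ⁻¹) = conj τ / τ * V τ) →
  (∃ C : ℝ, ∀ τ ∈ H0, 1 / 2 ≤ τ.im → ‖V τ‖ ≤ C ∧ ‖(τ.im : ℂ) * dz V τ‖ ≤ C) →
  ∫ z in ModularGroup.fdo, (Complex.I * (z.im : ℂ) * dz V z - V z) = 0

/-- **IB2** (uses `IBP`). Proof. Apply `IBP` to `V = conj(G) H`: `conj(τ/τ̄)^{k+1} (τ/τ̄)^k = τ̄/τ`,
`dz(conj G) = conj(dzb G)`, so `i y dz V - V = (i y dz(conj G) - (k+1) conj G) H + conj(G) (i y dz H + k H) =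
conj(LL G) H + conj(G) RR H`; in particular `y dz V` is bounded. -/
def StmtIB2 : Prop := ∀ (k : ℕ) (G H : ℂ → ℂ), Wt (k + 1) G → Wt k H →
  (∃ C : ℝ, ∀ τ ∈ H0, 1 / 2 ≤ τ.im → ‖RR k H τ‖ ≤ C ∧ ‖LL (k + 1) G τ‖ ≤ C) →
  ∫ z in ModularGroup.fdo, (conj (LL (k + 1) G z) * H z + conj (G z) * RR k H z) = 0

/-- **WR** raising the weight. Proof. Let `σ = -1/τ`. `H(σ(τ)) = (τ/τ̄)^k H(τ)`; `σ` is holomorphic with
`σ' = τ⁻²`, so applying `∂ = dz/2` (chain rule): `(∂H)(σ) τ⁻² = (τ/τ̄)^k (k H / τ + ∂H)`. With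
`im σ = y / |τ|²`: `(R_k H)(σ) = (τ/τ̄)^k {(τ/τ̄) [2 i y k H / τ + 2 i y ∂H] + k H} =
(τ/τ̄)^{k+1} {2 i y ∂H + k H (2 i y + τ̄) / τ} = (τ/τ̄)^{k+1} (R_k H)(τ)`. -/
def StmtWR : Prop := ∀ (k : ℕ) (H : ℂ → ℂ), Wt k H → ContDiffOn ℝ 1 (RR k H) H0 →
  (∃ C : ℝ, ∀ τ ∈ H0, 1 / 2 ≤ τ.im → ‖RR k H τ‖ ≤ C) → Wt (k + 1) (RR k H)

/-- **WL** lowering the weight. Proof. As `WR`: `∂̄(G ∘ σ) = (∂̄G)(σ) τ̄⁻²`, so `(∂̄G)(σ) =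
τ̄² (τ/τ̄)^{k+1} (-(k+1) G / τ̄ + ∂̄G)`, and `(L_{k+1} G)(σ) = (τ/τ̄)^{k+1} {(τ̄/τ) [2 i y (k+1) G / τ̄ -
2 i y ∂̄G] - (k+1) G} = (τ/τ̄)^k {-2 i y ∂̄G + (k+1) G (2 i y - τ) / τ̄} = (τ/τ̄)^k (L_{k+1} G)(τ)`
(here `∂̄ = dzb/2`, `τ - 2 i y = τ̄`). -/
def StmtWL : Prop := ∀ (k : ℕ) (G : ℂ → ℂ), Wt (k + 1) G → ContDiffOn ℝ 1 (LL (k + 1) G) H0 →
  (∃ C : ℝ, ∀ τ ∈ H0, 1 / 2 ≤ τ.im → ‖LL (k + 1) G τ‖ ≤ C) → Wt k (LL (k + 1) G)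

/-! ### Maass forms -/

/-- **Dec** decay in the cusp. Proof. `F = ext f`, `λ = 1/4 + t²`, `E(y) = ∫_0^1 F(x + i y)² dx`. As
`F_xx + F_yy = -(λ/y²) F` (the library's `eigen` and `Spec`/`IntLap`), `E'' = 2 ∫ (F_y² + F_x² - (λ/y²) F²)`
(integration by parts in `x`, period one) and `∫_0^1 F dx = 0` gives `F(x)² ≤ (∫|F_x|)² ≤ ∫ F_x²`, so
`E'' ≥ (2 - 2 λ/y²) E ≥ E` for `y ≥ Y0 = √(2 λ) + 1`. `∫_{Y0}^∞ E dy/y² < ∞` (`normalised` and `π/3 ≠ 0`: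
`f²` is integrable on `fdo`). `E` is convex on `[Y0, ∞)`; `E'(y1) > 0` would give linear growth and a
divergent integral; so `E' ≤ 0`. `E'' ≥ E`, `E' ≤ 0`: `E'² - E²` is nonincreasing. `E` tends to a limit
which is `0` (otherwise `E'' ≥ E` makes `E'` unbounded), `E' ↑ 0`, hence `E'² ≥ E²`, `-E' ≥ E`,
`E ≤ C e^{-y}`. The function `F_x` satisfies the same equation, has period one and mean zero, and
`∫_{Y0}^∞ ∫ F_x² ≤ ∫ (E''/2 + λ E / y²) < ∞`; so also `∫_0^1 F_x² dx ≤ C e^{-y}`, and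
`|F(x + i y)| ≤ ∫_0^1 |F_x| ≤ C e^{-y/2}` for `y ≥ Y0`. For `1/2 ≤ y ≤ Y0` use compactness and the period.
Every point of `ℍ` is equivalent to one in `fd` (`ModularGroup.exists_smul_mem_fd`), where `im ≥ √3/2`. -/
def StmtDec : Prop := ∀ (f : ℍ → ℝ) (t : ℝ), IsHeckeMaass f t → ∃ C c : ℝ, 0 < c ∧
  (∀ z : ℍ, 1 / 2 ≤ z.im → |f z| ≤ C * Real.exp (-(c * z.im))) ∧ ∀ z : ℍ, |f z| ≤ C

/-- **KBf** Bessel functions. Proof. (1), (2): differentiation under the integral sign. (3): let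
`K'' = ∫ cosh² u e^{-X cosh u} cos(t u) du` be the derivative of `KB1`; `(d/du)² e^{-X cosh u} =
(X² sinh² u - X cosh u) e^{-X cosh u}`, and two integrations by parts (boundary terms vanish: `sinh 0 = 0`,
`sin 0 = 0`) give `X² (K'' - K) + X K' = -t² K`. (4): `cosh u ≥ 1 + u²/2`,
`∫_0^∞ e^{-X u²/2} du = √(π / (2 X))`. (5): `e^u / 2 ≤ cosh u ≤ e^u`, `∫_1^∞ e^{-X v / 2} dv`. (6): substitute
`u = v / √X`; `X (cosh(v/√X) - 1) → v²/2` and is `≥ v²/2`: dominated convergence. -/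
def StmtKBf : Prop := ∀ t : ℝ,
  (∀ X : ℝ, 0 < X → HasDerivAt (KB t) (KB1 t X) X) ∧
  (∀ X : ℝ, 0 < X → HasDerivAt (KB1 t) (((X ^ 2 - t ^ 2) * KB t X - X * KB1 t X) / X ^ 2) X) ∧
  (∀ X : ℝ, 0 < X → |KB t X| ≤ √(Real.pi / (2 * X)) * Real.exp (-X)) ∧
  (∀ X : ℝ, 0 < X → |KB1 t X| ≤ 2 / X * Real.exp (-(X / 2))) ∧
  Tendsto (fun X => √X * Real.exp X * KB t X) atTop (𝓝 (√(Real.pi / 2)))

/-- **Sel** the point pair invariant `e^{-X cosh d}`; `cosh d(z, w) = C(z, w) = 1 + |z - w|² / (2 im z im w)`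
(uses `KBf`; `UpperHalfPlane.cosh_dist`). Proof. For `h ∈ C_c^∞(ℝ)` and fixed `w` the function
`h(C(z, w))` is smooth with compact support in `ℍ` and `y² Δ h(C) = (C² - 1) h''(C) + 2 C h'(C)`
(`y² |∇C|² = C² - 1`, `y² ΔC = 2 C`), so Green's formula gives
`-λ ∫ f h(C) dμ = ∫ f ((C² - 1) h'' + 2 C h') dμ`. Apply it to `h(v) = e^{-X v} χ(v / R)`, `R → ∞`
(`f` is bounded, `∫ g(C) dμ = 2 π ∫_1^∞ g(v) dv`, so dominated convergence): with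
`I(X) = ∫ f e^{-X C} dμ`, `I' = -∫ f C e^{-X C}`, `I'' = ∫ f C² e^{-X C}`:
`X² I'' + 2 X I' + (λ - X²) I = 0`. So `J = X I` satisfies `J'' = (1 - λ/X²) J`, and so does
`𝒦 = √X K_{it}(X)` (`KBf`). The Wronskian `J 𝒦' - J' 𝒦` is constant and tends to `0` at infinity (all
four functions do: `|J|, |J'| ≤ C (1 + X) e^{-X}`). As `𝒦 > 0` for large `X`, `J = κ 𝒦` there, and then on
`(0, ∞)` (a solution of the linear equation vanishing near infinity vanishes). Finally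
`J e^X = X ∫ f e^{-X (C - 1)} dμ → 2 π f(w)` (continuity of `f`, concentration) and `𝒦 e^X → √(π/2)`, so
`κ = 2 √(2π) f(w)`. -/
def StmtSel : Prop := ∀ (f : ℍ → ℝ) (t : ℝ), ContDiffOn ℝ ∞ (ext f) H0 → (∃ C : ℝ, ∀ z, |f z| ≤ C) →
  (∀ z : ℍ, -z.im ^ 2 * Laplacian.laplacian (ext f) (z : ℂ) = (1 / 4 + t ^ 2) * f z) →
  ∀ X : ℝ, 0 < X → ∀ w : ℍ,
    (Integrable fun z : ℍ => Real.exp (-(X * Real.cosh (dist z w)))) ∧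
    ∫ z : ℍ, f z * Real.exp (-(X * Real.cosh (dist z w))) =
      2 * √(2 * Real.pi) * KB t X / √X * f w

/-- **Der** the functions `f_k` are bounded (uses `Dec`, `KBf`, `Sel`). Proof. Choose `X > 0` with
`KB t X ≠ 0` (`KBf`) and `κ` with `f(w) = κ ∫ f(z) e^{-X C(z,w)} dμ(z)`. By induction on `k`, for `w ∈ H0`,
`f_k(w) = κ ∫ f(z) (-X B(z, w))^k e^{-X C(z,w)} dμ(z)`, `B = R_0 C = -(z̄ - w̄)(z - w̄) / (2 z₂ w₂)` (operators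
in the variable `w`): `R_1 B = 0` (the numerator is antiholomorphic in `w`, `∂_w (1/w₂) = i / (2 w₂²)`) and
`R_k(B^k e^{-X C}) = B^k R_0(e^{-X C}) = -X B^{k+1} e^{-X C}`. Differentiation under the integral sign: for
`w` near `w0`, `C(z, w) ≥ c C(z, w0)` and the derivatives of `B^k e^{-X C}` are bounded by
`M (1 + C(z,w0))^M e^{-c X C(z,w0)}`, which is integrable. `|B| = sinh d ≤ C`, and
`∫ C^k e^{-X C} dμ(z) = 2 π ∫_1^∞ v^k e^{-X v} dv` is independent of `w`. -/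
def StmtDer : Prop := ∀ (f : ℍ → ℝ) (t : ℝ), IsHeckeMaass f t → ∀ k : ℕ, ∃ C : ℝ, ∀ z ∈ H0,
  ‖fk f k z‖ ≤ C

/-- **Wf** the functions `f_k` (uses `WR`, `Der`). Proof. Smoothness is clear. Weight: `f_0 = ext f` is
invariant under `T` and `S`; then `WR` and `Der`. (3) by induction: `L_1 R_0 f = y² Δ f = -μ_0 f` (`dzb y = i`,
`dzb dz = Δ`), and `L_{k+1} R_k H = R_{k-1} L_k H - 2 k H` for `k ≥ 1`, so
`L_{k+1} f_{k+1} = R_{k-1}(-μ_{k-1} f_{k-1}) - 2 k f_k = -(μ_{k-1} + 2 k) f_k = -μ_k f_k`. -/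
def StmtWf : Prop := ∀ (f : ℍ → ℝ) (t : ℝ), IsHeckeMaass f t → ∀ k : ℕ,
  Wt k (fk f k) ∧ ContDiffOn ℝ ∞ (fk f k) H0 ∧
  ∀ z ∈ H0, LL (k + 1) (fk f (k + 1)) z = -((mu k t : ℝ) : ℂ) * fk f k z

/-- **Nk** norms and orthogonality of the `f_k` (uses `IB2`, `Wf`, `Der`). Proof. `IB2` with
`G = g_{k+1}`, `H = f_k`: `conj(LL g_{k+1}) = -μ_k(t') conj(g_k)`, so
`∫ conj(g_{k+1}) f_{k+1} = μ_k(t') ∫ conj(g_k) f_k`; induction. -/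
def StmtNk : Prop := ∀ (f g : ℍ → ℝ) (t t' : ℝ), IsHeckeMaass f t → IsHeckeMaass g t' → ∀ k : ℕ,
  ∫ z in ModularGroup.fdo, fk f k z * conj (fk g k z) =
    (((∏ j ∈ Finset.range k, mu j t') * ∫ z in ModularGroup.fdo, f z * g z : ℝ) : ℂ)

/-- **Z0** the mean value of a form is zero (uses `IBP`, `Wf`). Proof. Take the complex conjugate of
`IB2` with `k = 0`, `G = f_1`, `H = 1` (which is `Wt 0`, `RR 0 1 = 0`): `∫ conj(L_1 f_1) = 0`, and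
`L_1 f_1 = -μ_0 f`, `μ_0 > 0`. -/
def StmtZ0 : Prop := ∀ (f : ℍ → ℝ) (t : ℝ), IsHeckeMaass f t →
  ∫ z in ModularGroup.fdo, f z = 0

/-- **Fo1** Fourier expansion. Proof. `x ↦ ext f (x + i y)` is smooth of period one; `an f n y` are its
Fourier coefficients (`fourierCoeff`, `hasSum_fourier_series_of_summable`; they decay like `n⁻²`). `f` real gives
(2). The parity gives (3). (4) is the cuspidality. (5): Hecke: the `n`-th coefficient of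
`x ↦ F(((m/d) z + b)/d)` is, after summation over `b mod d`, `d a_{n'}(m y / d²)` if `n = n' m / d²` with `d ∣ n'`,
and zero otherwise; for `n = 1` this forces `d = m`, `n' = m`, so `m a_m(y / m) = c a_1(y)`. -/
def StmtFo1 : Prop := ∀ (f : ℍ → ℝ) (t : ℝ), IsHeckeMaass f t →
  (∀ z ∈ H0, HasSum (fun n : ℤ => an f n z.im * ee ((n : ℂ) * z.re)) (ext f z : ℂ)) ∧
  (∀ (n : ℤ) (y : ℝ), an f (-n) y = conj (an f n y)) ∧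
  (∀ (ε : ℝ), IsPar f ε → ∀ (n : ℤ) (y : ℝ), 0 < y → an f (-n) y = ε * an f n y) ∧
  (∀ y : ℝ, 0 < y → an f 0 y = 0) ∧
  ∀ (m : ℕ) (c : ℝ), 1 ≤ m → IsHk f m c → ∀ y : ℝ, 0 < y →
    an f m y = ((c / m : ℝ) : ℂ) * an f 1 (m * y)

/-- **Rho** the first coefficient (uses `Dec`, `KBf`, `Fo1`). Proof. `a = an f 1` satisfies
`a'' = (4 π² - λ/y²) a` (differentiate under the integral, `F_yy = -F_xx - (λ/y²) F`, integrate by parts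
twice in `x`), and so does `k(y) = √y K_{it}(2 π y)`. `a` and `k` are bounded near infinity and `a → 0`,
`k → 0` (`Dec`, `KBf`); then also `a', k' → 0` (bounded second derivative which tends to zero: e.g.
`a'(y) = a(y+1) - a(y) - ∫_y^{y+1} (y+1-s) a''(s) ds`), so the Wronskian vanishes and, as `k > 0` for large `y`,
`a = ρ k` for large `y` and then for all `y > 0` (uniqueness for the linear equation). If `ρ = 0`, then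
`an f n = 0` for all `n ≥ 1` (`hecke` and `Fo1` (5)), hence for all `n`, so `f = 0`, contradiction to
`normalised`. -/
def StmtRho : Prop := ∀ (f : ℍ → ℝ) (t : ℝ), IsHeckeMaass f t → ∃ ρ : ℂ, IsRho f t ρ

/-! ### The pairing of the theta series with a form -/

/-- **Pr** matrices of rank one (uses `UL`, `ThS`, `Dec`, `ThI` for the summability). Proof. For
`δ = (0, p; 0, q)` with `(p, q) ≠ 0` and `A ∈ SL(2, ℤ)`, `kk (δ A) z w τ = kk δ z w (A τ)`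
(`V_{δ A}(w, τ) = V_δ(w, A τ)`, `det` both zero). Every matrix of rank one is `δ A`; `δ A = δ' A'` iff
`(δ', A') = (± δ, ± T^j A)`. For every `τ ∈ ℍ` and `A` there is exactly one `j` with
`re(T^j A τ) ∈ [0, 1)`. So `∑_{rank 1} kk γ z w τ = (1/2) ∑_{A ∈ SL(2, ℤ)} G0(A τ)`,
`G0(τ) = 1_{[0,1)}(re τ) ∑_{δ} kk δ z w τ`, and `V_δ(w, τ) = |p - w q|² / (4 im τ im w)` depends on `im τ` only.
By `UL` for `G = G0 f` the integral is `∫_ℍ G0 f dμ = ∫_0^∞ (...)(y) ∫_0^1 f(x + i y) dx dy/y² = 0`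
(`cuspidal`). Integrability of `G0 f` on `ℍ`: from the first part of `UL`, since
`∫_{fdo} ∑_γ ‖kk γ z w τ‖ |f(τ)| dμ < ∞` by `ThS` (3) and `Dec` (for general `z, w ∈ ℍ`; if `w` is not in the
region of `ThS` (3), use `ThS` (2) and `Tri`: `∑_γ ‖kk γ z w τ‖ = Th (i z₂) w τ = Th τ (i z₂) w`). -/
def StmtPr : Prop := ∀ (f : ℍ → ℝ) (t : ℝ), IsHeckeMaass f t → ∀ z w : ℍ,
  ∫ τ in ModularGroup.fdo, (∑' γ : Mat, open Classical in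
    if γ.det = 0 ∧ γ ≠ 0 then kk γ z w τ else 0) * (f τ : ℂ) = 0

/-- **Abs** absolute convergence (uses `ThS`, `Tri`, `Dec`). Proof. `‖kk γ z w τ‖ = kk γ (i z₂) w τ`, so by
`Tri` the sum is `Th (i z₂) w τ = Th w τ (i z₂) = Th τ (i z₂) w ≤ C im τ` for `im τ ≥ 1/2` by `ThS` (2) with
`K = {i z₂, w}`; and `f` decays exponentially; the volume of `fdo` is finite. Measurability: countable
sums of continuous functions. -/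
def StmtAbs : Prop := ∀ (f : ℍ → ℝ) (t : ℝ), IsHeckeMaass f t → ∀ z w : ℍ,
  (∀ τ : ℍ, Summable fun γ : Mat => ‖kk γ z w τ‖) ∧
  IntegrableOn (fun τ : ℍ => (∑' γ : Mat, ‖kk γ z w τ‖) * |f τ|) ModularGroup.fdo

/-- **Pp** matrices of determinant `m ≥ 1` (uses `UL`, `Abs`, `Sel`, `Dec`). Proof. Every `γ` of
determinant `m` is uniquely `δ A` with `A ∈ SL(2, ℤ)`, `δ = (d', -b'; 0, a')`, `a' d' = m`, `0 ≤ b' < d'`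
(Hermite normal form for columns). `kk (δ A) z w τ = kk δ z w (A τ)`, and by `QF`
`kk δ z w τ = z₂ e(m z₁) exp(-2 π m z₂ cosh d(δ τ, w))`, `δ τ = (d' τ - b') / a'`, since
`|P - w Q|² / (4 τ₂ w₂) = m |δ τ - w|² / (4 im(δ τ) w₂)`. By `UL` (with `f(A τ) = f(τ)`) the integral is
`∑_δ 2 ∫_ℍ kk δ z w τ f(τ) dμ(τ)`; substitute `σ = δ τ`, `τ = (a' σ + b') / d'` (the measure is invariant under
`τ ↦ r τ + s`): `= 2 z₂ e(m z₁) ∫_ℍ exp(-2 π m z₂ cosh d(σ, w)) ∑_{a' d' = m, b'} f((a' σ + b') / d') dμ(σ)`,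
the sum is `c f(σ)`, and `Sel` with `X = 2 π m z₂` gives
`2 z₂ e(m z₁) c 2 √(2π) K(X) / √X f(w) = 4 c √(z₂ / m) K_{it}(2 π m z₂) e(m z₁) f(w)`. -/
def StmtPp : Prop := ∀ (f : ℍ → ℝ) (t : ℝ), IsHeckeMaass f t → ∀ (m : ℕ) (c : ℝ), 1 ≤ m →
  IsHk f m c → ∀ z w : ℍ,
  ∫ τ in ModularGroup.fdo, (∑' γ : Mat, open Classical in
    if γ.det = m then kk γ z w τ else 0) * (f τ : ℂ) =
      ((4 * c * √(z.im / m) * KB t (2 * Real.pi * m * z.im) * f w : ℝ) : ℂ) *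
        ee ((m : ℂ) * (z.re : ℂ))

/-- **Pn** matrices of determinant `-m` (uses `Pp`). Proof. Let `τ* = -τ̄`. If `det γ = -m` and
`γ' = γ J`, `J = diag(-1, 1)`, then `det γ' = m` and by `QF` (3)
`V_γ(w, τ) - m = |P - w̄ Q|² / (4 ..) = V_{γ'}(w, τ*)` (take complex conjugates), so
`kk γ z w τ = e(-2 m z₁) kk γ' z w τ*`. So the sum over determinant `-m` at `τ` is `e(-2 m z₁)` times the sum
over determinant `m` at `τ*`. `τ ↦ τ*` preserves `fdo` and the measure, and `f(τ*) = ε f(τ)`. -/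
def StmtPn : Prop := ∀ (f : ℍ → ℝ) (t : ℝ), IsHeckeMaass f t → ∀ (m : ℕ) (c ε : ℝ), 1 ≤ m →
  IsHk f m c → IsPar f ε → ∀ z w : ℍ,
  ∫ τ in ModularGroup.fdo, (∑' γ : Mat, open Classical in
    if γ.det = -(m : ℤ) then kk γ z w τ else 0) * (f τ : ℂ) =
      ((ε * (4 * c * √(z.im / m) * KB t (2 * Real.pi * m * z.im) * f w) : ℝ) : ℂ) *
        ee (-((m : ℂ) * (z.re : ℂ)))

/-- **Pa** the pairing (uses `Pr`, `Pp`, `Pn`, `Z0`, `Abs`, `Fo1`). Proof. Split the sum over `γ` according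
to `det γ ∈ ℤ` (absolute convergence `Abs`; `integral_tsum` / `hasSum_integral_of_summable_integral_norm`). `γ = 0`
contributes `z₂ ∫ f = 0` (`Z0`), rank one `0` (`Pr`). With `a_m(y) = (c/m) a_1(m y) =
ρ c √(y / m) K_{it}(2 π m y)` (`Fo1` (5), `IsRho`) the term of `m` is `(4/ρ) a_m(z₂) e(m z₁) f(w)` and the term
of `-m` is `(4/ρ) ε a_m(z₂) e(-m z₁) f(w) = (4/ρ) a_{-m}(z₂) e(-m z₁) f(w)`. Sum with `Fo1` (1). -/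
def StmtPa : Prop := ∀ (f : ℍ → ℝ) (t ε : ℝ) (ρ : ℂ), IsHeckeMaass f t → IsPar f ε → IsRho f t ρ →
  ∀ z w : ℍ, ∫ τ in ModularGroup.fdo, Th z w τ * (f τ : ℂ) =
    4 / ρ * ((f z * f w : ℝ) : ℂ)

/-- **Orth** orthogonality, multiplicity one (uses `Pa`, `Rho`, `ThI`, `ThS`, `Dec`). Proof. Fix `z`. By `ThI`
`Th z w τ = Th z τ w`. Integrate `Th z w τ f(τ) g(w)` over `fdo × fdo` (absolutely convergent by `ThS` (3) and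
`Dec`): `(4/ρ) f(z) ∫ f g = (4/ρ') g(z) ∫ f g`. If `∫ f g ≠ 0`, then `g = (ρ'/ρ) f`; both are real and
normalised, so `g = ± f` (choose `z` with `f z ≠ 0`: `ρ'/ρ` is real, with square one). -/
def StmtOrth : Prop := ∀ (f g : ℍ → ℝ) (t t' : ℝ), IsHeckeMaass f t → IsHeckeMaass g t' →
  (∃ ε, IsPar f ε) → (∃ ε, IsPar g ε) → (∫ z in ModularGroup.fdo, f z * g z) ≠ 0 →
  (∀ z, g z = f z) ∨ ∀ z, g z = -f z

/-! ### Laguerre functions -/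

/-- **Lg1** recurrences. Proof. For `H(τ) = e(n τ) φ(y)`: `i y dz H = e(n τ) (y φ' - 4 π n y φ)` and
`- i y dzb H = e(n τ) y φ'(y)` (`e(n τ)` is holomorphic). For `c_k`, `φ = y e^{-4 π y V} L_k(X)`,
`X = 4 π y (n + V)`: `R_k c_k = y e(n τ) e^{-4 π y V} [(k + 1 - X) L_k + X L_k']` and
`(k + 1) L_{k+1} = (k + 1 - X) L_k + X L_k'` (coefficients). For `d_k` the same computation with
`φ = (k+1) y e^{-4 π y V} [(4 π y V - 1) L_{k+1} + L_k]`; write `W = 4 π y V`: one needs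
`(k + 2) {(W - 1) L_{k+2} + L_{k+1}} = (k + 1 - X) {(W - 1) L_{k+1} + L_k} + W L_{k+1} +
(W - 1) X L_{k+1}' + X L_k'` (after dividing by `k + 1`; use the recurrence for `k + 1` and for `k`).
`L_1 c_1 = - i y dzb c_1 - c_1`. -/
def StmtLg1 : Prop := ∀ (k : ℕ) (n V : ℝ),
  ContDiffOn ℝ ∞ (ck k n V) H0 ∧ ContDiffOn ℝ ∞ (dk k n V) H0 ∧
  (∀ z ∈ H0, RR k (ck k n V) z = ((k : ℂ) + 1) * ck (k + 1) n V z) ∧
  (∀ z ∈ H0, RR k (dk k n V) z = ((k : ℂ) + 1) * dk (k + 1) n V z) ∧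
  ∀ z ∈ H0, LL 1 (ck 1 n V) z = -dk 0 n V z

/-- **Lg2** bounds. Proof. `|c_k| = y e^{-2 π n y - 4 π y V} |L_k(X)| = y e^{-X/2} e^{-2 π y V} |L_k(X)|`,
`X = 4 π y (n + V) ≥ 0`, `|L_k(X)| ≤ C e^{X/4}`, and `X/4 + 2 π y V ≥ π y (n + 2 V)`. For `d_k` also
`(1 + 4 π y V) e^{-π y V}` is bounded. Derivatives: `Lg1` gives `i y dz c_k = (k+1) c_{k+1} - k c_k`, and
`dz + dzb = 2 ∂_x`, `∂_x c_k = 2 π i n c_k`, `y |n| ≤ y (n + V) + y V`, absorbed by a part of the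
exponential; `‖fderiv‖ ≤ ‖dz‖ + ‖dzb‖`. -/
def StmtLg2 : Prop := ∀ k : ℕ, ∃ C : ℝ, ∀ (n V : ℝ), 0 ≤ V → 0 ≤ n + V → ∀ z ∈ H0,
  ‖ck k n V z‖ ≤ C * (z.im * Real.exp (-(Real.pi * z.im * (n + 2 * V)))) ∧
  ‖dk k n V z‖ ≤ C * (z.im * Real.exp (-(Real.pi * z.im * (n + 2 * V)))) ∧
  ‖fderiv ℝ (ck k n V) z‖ ≤ C * Real.exp (-(Real.pi / 2 * z.im * (n + 2 * V))) ∧
  ‖fderiv ℝ (dk k n V) z‖ ≤ C * Real.exp (-(Real.pi / 2 * z.im * (n + 2 * V)))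

/-- **Lg3** generating function and its coefficients. Proof. `∑ L_k(X) s^k = (1-s)⁻¹ e^{-X s/(1-s)}`
(expand `∑_j (-X)^j s^j / (j! (1-s)^{j+1})`, `∑_k C(k,j) s^k = s^j / (1-s)^{j+1}`; absolutely convergent); differentiate:
`∑ (k+1) L_{k+1} s^k = e^{..} [(1-s)⁻² - X (1-s)⁻³]`, `∑ (k+1) L_k s^k = e^{..} [(1-s)⁻² - s X (1-s)⁻³]`.
With `W = 4 π y V`, `u = y e^{-2 π n y - W}`: `∑ d_k(i y) s^k = u e^{-X s/(1-s)} (1-s)⁻¹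
[W/(1-s) + X/(1-s) - W X/(1-s)²]` and `u e^{-X s/(1-s)} = y exp(-2 π n y (1+s)/(1-s) - W/(1-s))`. The
coefficient formula: the power series converges uniformly on `|s| = q`. -/
def StmtLg3 : Prop := ∀ (n V y : ℝ), 0 < y →
  (∀ s : ℂ, ‖s‖ < 1 → HasSum (fun k : ℕ => dk k n V ((y : ℂ) * Complex.I) * s ^ k) (mm s y n V)) ∧
  ∀ q : ℝ, 0 < q → q < 1 → ∀ k : ℕ,
    dk k n V ((y : ℂ) * Complex.I) * (q : ℂ) ^ k = ((2 * Real.pi : ℝ) : ℂ)⁻¹ *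
      ∫ θ in Ioc (-Real.pi) Real.pi, mm (qs q θ) y n V * Complex.exp (-((k : ℂ) * θ * Complex.I))

/-- **Ps** the series `Ph`, `Pt` (uses `QF`, `Gau`, `Lg1`, `Lg2`). Proof. On `tsupport g` (compact)
`n + 2 V ≥ c0 |γ|²` by `QF` (4), so by `Lg2` the term of `γ` and its derivative in `τ` are bounded, for
`im τ ≥ Y0`, by `C y e^{-π c0 y |γ|²}` and `C e^{-(π/2) c0 y |γ|²}` (differentiate under the integral sign),
which is summable, locally uniformly in `τ ∈ H0` (`Gau`); so the sum is `C¹` and can be differentiated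
termwise (`contDiff_tsum`-type lemmas, `hasFDerivAt_tsum_of_isPreconnected`, on `{im > Y0}`), and (3)–(5) follow
from `Lg1`. The term of `γ = 0` is a constant in `z` (`V = 0`) times `∫ g = 0`; so by `Gau` (3) for
`im τ ≥ 1/2` the sum is bounded by `C y e^{-c y}`, which is bounded. -/
def StmtPs : Prop := ∀ g : ℂ → ℝ, TestG g → ∀ k : ℕ,
  (∀ τ ∈ H0, Summable fun γ : Mat => ∫ z, |g z| * ‖ck k ((γ.det : ℤ) : ℝ) (Vd γ z) τ‖) ∧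
  (∀ τ ∈ H0, Summable fun γ : Mat => ∫ z, |g z| * ‖dk k ((γ.det : ℤ) : ℝ) (Vd γ z) τ‖) ∧
  ContDiffOn ℝ 1 (Ph k g) H0 ∧ ContDiffOn ℝ 1 (Pt k g) H0 ∧
  (∀ τ ∈ H0, RR k (Ph k g) τ = ((k : ℂ) + 1) * Ph (k + 1) g τ) ∧
  (∀ τ ∈ H0, RR k (Pt k g) τ = ((k : ℂ) + 1) * Pt (k + 1) g τ) ∧
  (∀ τ ∈ H0, LL 1 (Ph 1 g) τ = -Pt 0 g τ) ∧
  ∃ C : ℝ, ∀ τ ∈ H0, 1 / 2 ≤ τ.im → ‖Ph k g τ‖ ≤ C ∧ ‖Pt k g τ‖ ≤ C

/-- **Pw** weights of `Ph`, `Pt` (uses `Ps`, `ThI`, `ThS`, `WR`, `WL`). Proof. `Ph 0 g τ = ∫ g(z) Th(τ; z, z) dz`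
(`L_0 = 1`; exchange by `Ps` (1)), so `Wt 0 (Ph 0 g)` by `ThI`. `Ph (k+1) g = RR k (Ph k g) / (k+1)` on `H0`,
so `WR` gives `Wt k (Ph k g)` for all `k` (a constant multiple of a `Wt` is a `Wt`; `Wt` depends only on the
values on `H0`). `Pt 0 g = - LL 1 (Ph 1 g)`, so `WL` gives `Wt 0 (Pt 0 g)`, and then `WR`. -/
def StmtPw : Prop := ∀ g : ℂ → ℝ, TestG g → ∀ k : ℕ, Wt k (Ph k g) ∧ Wt k (Pt k g) ∧
  ∀ τ ∈ H0, Ph 0 g τ = ∫ z, (g z : ℂ) * Th τ z z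

/-- **Pf** pairing of `Ph 0 g` with a form (uses `Pa`, `Pw`, `ThS`, `Tri`, `Dec`). Proof. Fubini:
`∫_{fdo} ∫ |g(z)| |Th(τ; z, z)| |f(τ)| dz dμ(τ) < ∞` by `ThS` (2) (`Th τ z z` is at most `C im τ` on the compact
support of `g`) and `Dec`. `Th τ z z = Th z z τ` by `Tri`, and `Pa` with `w = z`. -/
def StmtPf : Prop := ∀ (f : ℍ → ℝ) (t ε : ℝ) (ρ : ℂ), IsHeckeMaass f t → IsPar f ε → IsRho f t ρ →
  ∀ g : ℂ → ℝ, TestG g → ∫ τ in ModularGroup.fdo, Ph 0 g τ * (f τ : ℂ) =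
    4 / ρ * ((∫ z, g z * ext f z ^ 2 : ℝ) : ℂ)

/-- **Pk1** pairing of `Pt k g` with `f_k` (uses `Pf`, `Ps`, `Pw`, `IB2`, `Wf`). Proof. `IB2` with
`G = f_{k+1}`, `H = Pt k g`: `∫ conj(f_{k+1}) (k+1) Pt (k+1) g = μ_k ∫ conj(f_k) Pt k g`. So by induction
`∫ Pt k g conj(f_k) = (∏_{j<k} μ_j / k!) ∫ Pt 0 g f`. `IB2` (conjugated) with `G = Ph 1 g`, `H = f_0`:
`∫ (LL 1 (Ph 1 g)) f = - ∫ Ph 1 g conj(f_1)`, i.e. `∫ Pt 0 g f = ∫ Ph 1 g conj(f_1)`, and `IB2` with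
`G = f_1`, `H = Ph 0 g`, `RR 0 (Ph 0 g) = Ph 1 g`: `= μ_0 ∫ Ph 0 g f`, `μ_0 = 1/4 + t²`. Then `Pf`. -/
def StmtPk1 : Prop := ∀ (f : ℍ → ℝ) (t ε : ℝ) (ρ : ℂ), IsHeckeMaass f t → IsPar f ε → IsRho f t ρ →
  ∀ g : ℂ → ℝ, TestG g → ∀ k : ℕ, ∫ τ in ModularGroup.fdo, Pt k g τ * conj (fk f k τ) =
    (((∏ j ∈ Finset.range k, mu j t) / (k.factorial : ℝ) * (1 / 4 + t ^ 2) *
      ∫ z, g z * ext f z ^ 2 : ℝ) : ℂ) * (4 / ρ)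

/-- **SI** Bessel's inequality (uses `Nk`, `Pk1`, `Ps`, `Der`, `Wf`). Proof. The functions `u_i = (F i)_k` are
bounded and pairwise orthogonal on `fdo` with `∫ |u_i|² = (∏_{j<k} μ_j(t_i)) π/3 > 0` (`Nk`, `normalised`), `P = Pt k g` is
bounded on `fdo`; `0 ≤ ∫ |P - ∑ α_i u_i|²` with `α_i = ∫ P conj(u_i) / ∫ |u_i|²` gives
`∑ |∫ P conj(u_i)|² / ∫ |u_i|² ≤ ∫ |P|²`, and `|∫ P conj u_i|² / ∫|u_i|² =
(∏ μ_j) (k!)⁻² λ² 16 |ρ|⁻² (∫ g f²)² (3/π)`. -/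
def StmtSI : Prop := ∀ (ι : Type) [Fintype ι] (F : ι → ℍ → ℝ) (t : ι → ℝ) (ρ : ι → ℂ),
  Fam ι F t ρ → ∀ g : ℂ → ℝ, TestG g → ∀ k : ℕ,
    ∑ i, 48 / Real.pi * (1 / 4 + t i ^ 2) ^ 2 / ‖ρ i‖ ^ 2 * Pk k (t i) *
      (∫ z, g z * ext (F i) z ^ 2) ^ 2 ≤ ∫ τ in ModularGroup.fdo, ‖Pt k g τ‖ ^ 2

/-- **GI** the geometric side (uses `Ps`, `Lg2`, `Lg3`, `QF`, `Gau`). Proof. `fdo` is contained in
`{|x| < 1/2, y > √3/2}`, so `∫_{fdo} |Pt k g|² ≤ ∫_{y > √3/2} ∫_{-1/2}^{1/2} |Pt k g(x + i y)|² dx dy/y²`.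
`d_k(x + i y) = e(n x) d_k(i y)`, so `Pt k g (x + i y) = ∑_n e(n x) D_{k,n}(y)`,
`D_{k,n}(y) = ∑_{det γ = n} ∫ g d_k(i y; n, V_γ)`, absolutely convergent, and Parseval (in `x`) gives
`∑_n |D_{k,n}(y)|²`. Fix `n, y`. For `0 < q < 1` by `Lg3`
`D_{k,n}(y) q^k = (1/2π) ∫ MM(q e^{iθ}, y, n) e^{-i k θ} dθ`: exchange of the sum over `γ` with `det γ = n`, of the
integral over `z` and of `∫ dθ`, as `|mm(s, y, n, V)| ≤ C (1 + V)² e^{-c V}` uniformly on `|s| = q` for fixed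
`n, y` (`Re(1/(1-s)) ≥ 1/2`) and `V ≥ (c0 |γ|² - n) / 2`. Bessel's inequality on the circle:
`∑_{k<N} q^{2k} |D_{k,n}|² ≤ (1/2π) ∫ |MM|² dθ ≤ ∫ |MM|² dθ`. Sum over `n`, integrate over `y`
(`lintegral`, everything nonnegative and measurable: `MM` is continuous in `(θ, y)`). -/
def StmtGI : Prop := ∀ g : ℂ → ℝ, TestG g → ∀ q : ℝ, 0 < q → q < 1 → ∀ N : ℕ,
  ∑ k ∈ Finset.range N, ENNReal.ofReal (q ^ (2 * k)) *
    ∫⁻ τ in ModularGroup.fdo, ‖Pt k g τ‖ₑ ^ 2 ≤ GR q g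

/-! ### Weights -/

/-- **Pkl** lower bound for the sum of the `P_k`. Proof. `P_k(t) = (C(2k,k)/4^k)² ∏_{j<k} (1 + t²/(j+1/2)²)`
(`∏_{j<k} (j + 1/2) / k! = C(2k,k)/4^k`), `(C(2k,k)/4^k)² ≥ 1/(4k)` (`Nat.four_pow_le_two_mul_self_mul_centralBinom`-type
bound: `4^k ≤ 2 √k C(2k,k)`), and `cosh(π t) = ∏_{j≥0} (1 + t²/(j+1/2)²)` (Euler's product for `sin` at `i t` and `2 i t`,
`cosh(π t) = sinh(2 π t) / (2 sinh(π t))`). `∏_{j≥k} (1 + t²/(j+1/2)²) ≤ exp(t² ∑_{j≥k} (j+1/2)⁻²) ≤ exp(t²/k)`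
(`(j+1/2)⁻² ≤ 1/j - 1/(j+1)`). So `P_k(t) ≥ cosh(π t) e^{-t²/k} / (4 k)`. For `T² ≤ k ≤ 2 T²`:
`e^{-t²/k} ≥ e^{-1}`, `(1 - T⁻²)^k ≥ e^{-4}` (`1 - x ≥ e^{-2x}` for `x ≤ 1/2`, `T ≥ 2`); there are at least
`T²/2` such `k < N`. -/
def StmtPkl : Prop := ∃ c : ℝ, 0 < c ∧ ∀ (T t : ℝ) (N : ℕ), 2 ≤ T → 0 < t → t ≤ T →
  2 * T ^ 2 + 1 ≤ N →
    c * Real.cosh (Real.pi * t) ≤ ∑ k ∈ Finset.range N, (1 - (T ^ 2)⁻¹) ^ k * Pk k t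

/-- **Bet** the second moment. Proof. `∫_0^∞ x K_{it}(x)² dx =
(1/4) ∫∫_{ℝ²} cos(tu) cos(tv) (cosh u + cosh v)⁻² du dv` (`K = (1/2) ∫_ℝ`, Tonelli/Fubini,
`∫ x e^{-x s} dx = s⁻²`). Put `u = p + q`, `v = p - q`: `cosh u + cosh v = 2 cosh p cosh q`,
`cos tu cos tv = (cos 2tp + cos 2tq)/2`, `du dv = 2 dp dq`: `= (1/4) ∫_ℝ cos(2tp) sech² p dp` (`∫ sech² = 2`). With
`x = e^{2p}/(1 + e^{2p})`, `sech² p dp = 2 dx`: `∫ e^{2itp} sech² p dp = 2 B(1 + it, 1 - it) =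
2 Γ(1+it) Γ(1-it) / Γ(2) = 2 π t / sinh(π t)` (`Complex.Gamma_mul_Gamma_eq_betaIntegral`,
`Complex.Gamma_mul_Gamma_one_sub`, `Γ(1+it) = it Γ(it)`). -/
def StmtBet : Prop := ∀ t : ℝ, 0 < t →
  IntegrableOn (fun x : ℝ => x * KB t x ^ 2) (Ioi 0) ∧
  ∫ x in Ioi (0 : ℝ), x * KB t x ^ 2 = Real.pi * t / (2 * Real.sinh (Real.pi * t))

/-- **En** the oscillating range (uses `KBf`, `Bet`). Proof. Let `e(X) = (X K')² + (t² - X²) K²`,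
`e0 = π t / sinh(π t)`. `e' = -2 X K²` (from the equation) and `e(∞) = 0`, so `e(X) = 2 ∫_X^∞ x K² ≤ e0` and
`e(X) → e0` as `X → 0`. For `0 < X ≤ 6 π` and `t ≥ 100`: `t² - X² ≥ t²/2`, so `K² ≤ 2 e0/t²`,
`(X K')² ≤ e0`: (1), (2). Lower bound: `e' ≥ -(2X/(t²-X²)) e`, so
`e(4π) ≥ e0 exp(-∫_0^{4π} 2X/(t²-X²) dX) ≥ e0/2`. `(K · X K')' = ((X K')² - (t²-X²) K²)/X`, so
`∫_{2π}^{4π} (t² - X²) K² dX/X ≥ (1/2) ∫_{2π}^{4π} e dX/X - 2 e0/t ≥ (log 2 / 4) e0 - 2 e0/t`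
(`|K X K'| ≤ 2 e0/t`), hence `∫_{2π}^{4π} K² dX/X ≥ e0/(8 t²)` and `∫_{2π}^{4π} X K² dX ≥ 4π² e0/(8 t²)`. -/
def StmtEn : Prop := ∀ t : ℝ, 100 ≤ t →
  (∀ X : ℝ, 0 < X → X ≤ 6 * Real.pi →
    KB t X ^ 2 ≤ 2 / t ^ 2 * (Real.pi * t / Real.sinh (Real.pi * t)) ∧
    (X * KB1 t X) ^ 2 ≤ Real.pi * t / Real.sinh (Real.pi * t)) ∧
  4 * Real.pi ^ 2 / (8 * t ^ 2) * (Real.pi * t / Real.sinh (Real.pi * t)) ≤
    ∫ X in (2 * Real.pi)..(4 * Real.pi), X * KB t X ^ 2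

/-- **RS** the sum of `|ρ|² / cosh(π t)` (uses `En`, `KBf`, `Dec`). Proof. Let `w = 1/(6T)`, `y0 ∈ [1, 2]`,
`P(z) = 1_{[y0, y0+w]}(y) e(x) y²` on `fdo`. `∫_{fdo} f(z) conj(P(z)) dμ = ∫_{y0}^{y0+w} a_1(y) dy` (for `y > 1`, `fdo` is
the strip `|x| < 1/2`). Bessel's inequality for the orthogonal forms (`‖f‖² = π/3`):
`∑ (3/π) |∫_{y0}^{y0+w} a_1^f|² ≤ ∫ |P|² dμ = ∫_{y0}^{y0+w} y² dy ≤ 9 w`. Integrate over `y0 ∈ [1,2]`. With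
`b(y) = √y K(2πy)`, `a_1 = ρ b`, `e0 = π t/sinh(π t)`: `|b'| ≤ 2 √e0` on `[1, 3]` (`En`), so
`|∫_{y0}^{y0+w} b|² ≥ (1/2) w² b(y0)² - w⁴ e0` and `∫_1^2 b² = (1/4π²) ∫_{2π}^{4π} X K² dX ≥ e0/(8t²)`, so
`∫_1^2 |∫ b|² dy0 ≥ w² e0 (1/(16 t²) - w²) ≥ w² e0/(32 t²)` (`t ≤ T`). Hence
`∑ |ρ|² e0/t² ≤ 96 π/w = 576 π T`, and `e0/t² ≥ π/(t cosh(π t)) ≥ π/(T cosh(π t))`. -/
def StmtRS : Prop := ∀ (ι : Type) [Fintype ι] (F : ι → ℍ → ℝ) (t : ι → ℝ) (ρ : ι → ℂ) (T : ℝ),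
  Fam ι F t ρ → 200 ≤ T → (∀ i, T / 2 < t i ∧ t i ≤ T) →
    ∑ i, (wf (t i) (ρ i))⁻¹ ≤ 576 * T ^ 2

/-- **Av1** spectral and geometric side together (uses `SI`, `GI`, `Pkl`). Proof. Multiply `SI` by
`q^{2k} = (1 - T⁻²)^k`, `q = qT T`, and sum over `k < N`, `N ≥ 2 T² + 1`; the right side is at most
`GR q g` by `GI` (`∫⁻ ‖·‖ₑ² = ofReal ∫ ‖·‖²`, bounded on `fdo`); `∑_k q^{2k} P_k(t_i) ≥ c cosh(π t_i)` by `Pkl`,
`(1/4 + t²)² ≥ T⁴/16`. -/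
def StmtAv1 : Prop := ∃ C : ℝ, 0 ≤ C ∧ ∀ (ι : Type) [Fintype ι] (F : ι → ℍ → ℝ) (t : ι → ℝ)
  (ρ : ι → ℂ) (T : ℝ), Fam ι F t ρ → 2 ≤ T → (∀ i, T / 2 < t i ∧ t i ≤ T) → ∀ g : ℂ → ℝ, TestG g →
    ENNReal.ofReal (∑ i, wf (t i) (ρ i) * (∫ z, g z * ext (F i) z ^ 2) ^ 2) ≤
      ENNReal.ofReal (C / T ^ 4) * GR (qT T) g

end

end Pool.Agent.A54.Av
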