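import Pool.Agent.Lib.MP_a54f13_nt.Av.SpecA

/-!
Fourier expansion of a form and the action of the Hecke operators on the coefficients.
-/

set_option autoImplicit false

namespace Pool.Agent.A54.Av

open MeasureTheory Filter Topology Set
open scoped ContDiff ComplexConjugate UpperHalfPlane MatrixGroups ENNReal
open Pool.Agent.A54.Half (H0 qq ff hh)

noncomputable section

namespace Fo1M

lemma ee_add (x y : ℂ) : ee (x + y) = ee x * ee y := by
  unfold ee
  rw [← Complex.exp_add]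
  ring_nf

lemma ee_int (n : ℤ) : ee (n : ℂ) = 1 := by
  unfold ee
  have : 2 * (Real.pi : ℂ) * Complex.I * (n : ℂ) = (n : ℂ) * (2 * (Real.pi : ℂ) * Complex.I) := by
    ring
  rw [this]
  exact Complex.exp_int_mul_two_pi_mul_I n

lemma norm_ee (x : ℝ) : ‖ee (x : ℂ)‖ = 1 := by
  unfold ee
  have : 2 * (Real.pi : ℂ) * Complex.I * (x : ℂ) = ((2 * Real.pi * x : ℝ) : ℂ) * Complex.I := by
    push_cast; ring
  rw [this]
  exact Complex.norm_exp_ofReal_mul_I _

lemma cont_ee : Continuous ee := by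
  unfold ee
  fun_prop

/-- coefficient of a function of one variable -/
def cf (G : ℝ → ℂ) (n : ℤ) : ℂ := ∫ x in (0 : ℝ)..1, G x * ee (-((n : ℂ) * x))

lemma hasDerivAt_ee (n : ℤ) (x : ℝ) :
    HasDerivAt (fun x : ℝ => ee (-((n : ℂ) * x)))
      (-(2 * (Real.pi : ℂ) * Complex.I * n) * ee (-((n : ℂ) * x))) x := by
  have h1 : HasDerivAt (fun x : ℝ => (x : ℂ)) 1 x := Complex.ofRealCLM.hasDerivAt
  have h2 := (((h1.const_mul (n : ℂ)).fun_neg).const_mul (2 * (Real.pi : ℂ) * Complex.I)).cexp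
  unfold ee
  refine h2.congr_deriv ?_
  ring

lemma cf_deriv {G G' : ℝ → ℂ} (hG : ∀ x, HasDerivAt G (G' x) x) (hc : Continuous G')
    (hp : G 1 = G 0) {n : ℤ} (hn : n ≠ 0) :
    cf G n = (2 * (Real.pi : ℂ) * Complex.I * n)⁻¹ * cf G' n := by
  have hn' : (2 * (Real.pi : ℂ) * Complex.I * n) ≠ 0 := by
    have : (n : ℂ) ≠ 0 := by exact_mod_cast hn
    have h2 : (Real.pi : ℂ) ≠ 0 := by exact_mod_cast Real.pi_ne_zero
    simp [this, h2]
  have hu : ∀ x ∈ uIcc (0 : ℝ) 1, HasDerivAt G (G' x) x := fun x _ => hG x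
  have hv : ∀ x ∈ uIcc (0 : ℝ) 1, HasDerivAt
      (fun x : ℝ => -(2 * (Real.pi : ℂ) * Complex.I * n)⁻¹ * ee (-((n : ℂ) * x)))
      (ee (-((n : ℂ) * x))) x := by
    intro x _
    have := (hasDerivAt_ee n x).const_mul (-(2 * (Real.pi : ℂ) * Complex.I * n)⁻¹)
    refine this.congr_deriv ?_
    field_simp
  have hce : Continuous fun x : ℝ => ee (-((n : ℂ) * x)) := by
    unfold ee; fun_prop
  have hib := intervalIntegral.integral_mul_deriv_eq_deriv_mul hu hv
    (hc.intervalIntegrable 0 1) (hce.intervalIntegrable 0 1)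
  unfold cf
  rw [hib]
  have e1 : ee (-((n : ℂ) * ((1 : ℝ) : ℂ))) = 1 := by
    have := ee_int (-n)
    push_cast at this ⊢
    simpa using this
  have e0 : ee (-((n : ℂ) * ((0 : ℝ) : ℂ))) = 1 := by
    unfold ee; simp
  rw [e1, e0, hp]
  have : (fun x : ℝ => G' x * (-(2 * (Real.pi : ℂ) * Complex.I * n)⁻¹ * ee (-((n : ℂ) * x)))) =
      fun x : ℝ => -(2 * (Real.pi : ℂ) * Complex.I * n)⁻¹ * (G' x * ee (-((n : ℂ) * x))) := by
    funext x; ring
  rw [this, intervalIntegral.integral_const_mul]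
  ring

lemma cf_bound {G : ℝ → ℂ} {C : ℝ} (hC : ∀ x ∈ Icc (0 : ℝ) 1, ‖G x‖ ≤ C) (n : ℤ) :
    ‖cf G n‖ ≤ C := by
  unfold cf
  have := intervalIntegral.norm_integral_le_of_norm_le_const (a := (0 : ℝ)) (b := 1)
    (f := fun x : ℝ => G x * ee (-((n : ℂ) * x))) (C := C) ?_
  · simpa using this
  · intro x hx
    rw [uIoc_of_le zero_le_one] at hx
    have h1 : ‖ee (-((n : ℂ) * x))‖ = 1 := by
      have := norm_ee (-((n : ℝ) * x))
      push_cast at this
      exact this
    rw [norm_mul, h1, mul_one]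
    exact hC x ⟨hx.1.le, hx.2⟩

lemma per_deriv {G : ℝ → ℂ} (hG : ∀ x, G (x + 1) = G x) (x : ℝ) : deriv G (x + 1) = deriv G x := by
  have : deriv (fun x => G (x + 1)) x = deriv G (x + 1) := by
    rw [deriv_comp_add_const]
  rw [← this]
  congr 1
  funext x
  exact hG x

lemma hasSum_cf {G : ℝ → ℂ} (hG : ContDiff ℝ 2 G) (hp : ∀ x, G (x + 1) = G x) (x : ℝ) :
    HasSum (fun n : ℤ => cf G n * ee ((n : ℂ) * x)) (G x) := by
  have hper : Function.Periodic G 1 := hp
  have : Fact ((0 : ℝ) < 1) := ⟨one_pos⟩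
  let F : C(UnitAddCircle, ℂ) := ⟨hper.lift, continuous_coinduced_dom.mpr hG.continuous⟩
  have hF : ∀ x : ℝ, F (x : UnitAddCircle) = G x := fun x => rfl
  have hcoef : ∀ n : ℤ, fourierCoeff F n = cf G n := by
    intro n
    rw [fourierCoeff_eq_intervalIntegral _ n 0]
    unfold cf
    simp only [div_one, one_smul, zero_add]
    refine intervalIntegral.integral_congr fun x _ => ?_
    simp only [smul_eq_mul]
    rw [hF, fourier_coe_apply, mul_comm]
    congr 1
    unfold ee
    congr 1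
    push_cast
    ring
  have hG1 : ContDiff ℝ 1 (deriv G) := by
    have : ContDiff ℝ (1 + 1) G := by
      have h2 : (1 : WithTop ℕ∞) + 1 = 2 := by norm_num
      rw [h2]; exact hG
    exact (contDiff_succ_iff_deriv.1 this).2.2
  have hd1 : ∀ x, HasDerivAt G (deriv G x) x := fun x =>
    (hG.differentiable (by norm_num) x).hasDerivAt
  have hd2 : ∀ x, HasDerivAt (deriv G) (deriv (deriv G) x) x := fun x =>
    (hG1.differentiable (by norm_num) x).hasDerivAt
  have hc2 : Continuous (deriv (deriv G)) := by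
    have : ContDiff ℝ (0 + 1) (deriv G) := by rw [zero_add]; exact hG1
    exact (contDiff_succ_iff_deriv.1 this).2.2.continuous
  have hp1 : ∀ x, deriv G (x + 1) = deriv G x := per_deriv hp
  obtain ⟨C, hC⟩ := isCompact_Icc.exists_bound_of_continuousOn (s := Icc (0 : ℝ) 1)
    hc2.continuousOn
  have hC0 : 0 ≤ C := le_trans (norm_nonneg _) (hC 0 ⟨le_rfl, zero_le_one⟩)
  have hsum : Summable (fourierCoeff F) := by
    have hs : Summable fun n : ℤ => C * (1 / |(n : ℝ)| ^ 2) := by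
      refine Summable.mul_left _ ?_
      have := (Real.summable_one_div_int_pow (p := 2)).2 (by norm_num)
      refine this.congr fun n => ?_
      rw [sq_abs]
    refine Summable.of_norm_bounded_eventually hs ?_
    have hfin : ({0} : Set ℤ).Finite := Set.finite_singleton 0
    refine (hfin.subset ?_)
    intro n hn
    by_contra hn0
    apply hn
    have hn0 : n ≠ 0 := hn0
    change ‖fourierCoeff (⇑F) n‖ ≤ C * (1 / |(n : ℝ)| ^ 2)
    rw [hcoef n, cf_deriv hd1 hG1.continuous (by simpa using hp 0) hn0,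
      cf_deriv hd2 hc2 (by simpa using hp1 0) hn0, norm_mul, norm_mul, norm_inv]
    have hnn : ‖2 * (Real.pi : ℂ) * Complex.I * n‖ = 2 * Real.pi * |(n : ℝ)| := by
      simp [abs_of_pos Real.pi_pos]
    rw [hnn]
    have hb := cf_bound hC n
    have hnpos : 0 < |(n : ℝ)| := by
      have : (n : ℝ) ≠ 0 := by exact_mod_cast hn0
      exact abs_pos.2 this
    have hle : (2 * Real.pi * |(n : ℝ)|)⁻¹ ≤ |(n : ℝ)|⁻¹ := by
      apply inv_anti₀ hnpos
      have := Real.pi_gt_three
      nlinarith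
    have h0 : 0 ≤ (2 * Real.pi * |(n : ℝ)|)⁻¹ := by positivity
    calc (2 * Real.pi * |(n : ℝ)|)⁻¹ * ((2 * Real.pi * |(n : ℝ)|)⁻¹ * ‖cf (deriv (deriv G)) n‖)
        ≤ |(n : ℝ)|⁻¹ * (|(n : ℝ)|⁻¹ * C) := by gcongr
      _ = C * (1 / |(n : ℝ)| ^ 2) := by
        field_simp
  have := has_pointwise_sum_fourier_series_of_summable hsum (x : UnitAddCircle)
  rw [hF] at this
  have he : (fun n : ℤ => cf G n * ee ((n : ℂ) * x)) =
      fun n : ℤ => fourierCoeff (⇑F) n • fourier n (x : UnitAddCircle) := by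
    funext n
    rw [hcoef n, smul_eq_mul, fourier_coe_apply]
    congr 1
    unfold ee
    congr 1
    push_cast
    ring
  rw [he]
  exact this

lemma cf_shift {G : ℝ → ℂ} (hp : ∀ x, G (x + 1) = G x) (n : ℤ) (a : ℝ) :
    ∫ x in a..a + 1, G x * ee (-((n : ℂ) * x)) = cf G n := by
  have hper : Function.Periodic (fun x : ℝ => G x * ee (-((n : ℂ) * x))) 1 := by
    intro x
    simp only
    rw [hp x]
    congr 1
    have : (-((n : ℂ) * ((x + 1 : ℝ) : ℂ))) = -((n : ℂ) * x) + ((-n : ℤ) : ℂ) := by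
      push_cast; ring
    rw [this, ee_add, ee_int, mul_one]
  have := hper.intervalIntegral_add_eq a 0
  rw [zero_add] at this
  exact this

/-- the sum over a complete residue system in the case `a = 1` -/
lemma hecke_one {G : ℝ → ℂ} (hc : Continuous G) {d : ℕ} (hd : 0 < d) :
    ∑ b ∈ Finset.range d, ∫ x in (0 : ℝ)..1, G ((x + b) / d) * ee (-(x : ℂ)) =
      (d : ℂ) * cf G d := by
  have hd' : (d : ℝ) ≠ 0 := by positivity
  have hdC : (d : ℂ) ≠ 0 := by exact_mod_cast hd'
  have hcont : Continuous fun x : ℝ => G (x / d) * ee (-(x : ℂ)) := by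
    have := cont_ee
    fun_prop
  have h1 : ∀ b : ℕ, ∫ x in (0 : ℝ)..1, G ((x + b) / d) * ee (-(x : ℂ)) =
      ∫ x in (b : ℝ)..((b + 1 : ℕ) : ℝ), G (x / d) * ee (-(x : ℂ)) := by
    intro b
    have := intervalIntegral.integral_comp_add_right (a := (0 : ℝ)) (b := 1)
      (fun x : ℝ => G (x / d) * ee (-(x : ℂ))) (b : ℝ)
    rw [zero_add, add_comm (1 : ℝ) (b : ℝ)] at this
    push_cast
    rw [← this]
    refine intervalIntegral.integral_congr fun x _ => ?_
    congr 1
    have : (-(((x + b : ℝ)) : ℂ)) = -(x : ℂ) + ((-(b : ℤ) : ℤ) : ℂ) := by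
      push_cast; ring
    rw [this, ee_add, ee_int, mul_one]
  have h2 : ∑ b ∈ Finset.range d, ∫ x in (0 : ℝ)..1, G ((x + b) / d) * ee (-(x : ℂ)) =
      ∫ x in (0 : ℝ)..(d : ℝ), G (x / d) * ee (-(x : ℂ)) := by
    rw [Finset.sum_congr rfl fun b _ => h1 b]
    have := intervalIntegral.sum_integral_adjacent_intervals (a := fun k : ℕ => (k : ℝ)) (n := d)
      (μ := volume) (f := fun x : ℝ => G (x / d) * ee (-(x : ℂ)))
      (fun k _ => hcont.intervalIntegrable _ _)
    rw [this]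
    simp
  rw [h2]
  have h3 := intervalIntegral.integral_comp_mul_left (a := (0 : ℝ)) (b := 1)
    (fun x : ℝ => G (x / d) * ee (-(x : ℂ))) hd'
  rw [mul_zero, mul_one] at h3
  have h4 : ∫ x in (0 : ℝ)..(d : ℝ), G (x / d) * ee (-(x : ℂ)) =
      (d : ℂ) * ∫ x in (0 : ℝ)..1, G ((d : ℝ) * x / d) * ee (-(((d : ℝ) * x : ℝ) : ℂ)) := by
    rw [h3, Complex.real_smul]
    push_cast
    rw [← mul_assoc, mul_inv_cancel₀ hdC, one_mul]
  rw [h4]
  congr 1
  unfold cf
  refine intervalIntegral.integral_congr fun x _ => ?_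
  rw [mul_div_cancel_left₀ _ hd']
  push_cast
  rfl

lemma hecke_two {G : ℝ → ℂ} (hc : Continuous G) (hp : ∀ x, G (x + 1) = G x) {d a : ℕ}
    (hd : 0 < d) (ha : 2 ≤ a) :
    ∑ b ∈ Finset.range d, ∫ x in (0 : ℝ)..1, G ((a * x + b) / d) * ee (-(x : ℂ)) = 0 := by
  have hd' : (d : ℝ) ≠ 0 := by positivity
  have ha' : (a : ℝ) ≠ 0 := by positivity
  have haC : (a : ℂ) ≠ 0 := by exact_mod_cast ha'
  have hcont : ∀ b : ℕ, Continuous fun x : ℝ => G ((a * x + b) / d) * ee (-(x : ℂ)) := by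
    intro b
    have := cont_ee
    fun_prop
  rw [← intervalIntegral.integral_finsetSum fun b _ => (hcont b).intervalIntegrable _ _]
  set H : ℝ → ℂ := fun x => ∑ b ∈ Finset.range d, G ((a * x + b) / d) with hH
  have hHs : ∀ x, H (x + 1 / a) = H x := by
    intro x
    simp only [hH]
    have e1 : ∀ b : ℕ, G ((a * (x + 1 / a) + b) / d) = G ((a * x + ((b + 1 : ℕ) : ℝ)) / d) := by
      intro b
      congr 1
      push_cast
      field_simp
      ring
    rw [Finset.sum_congr rfl fun b _ => e1 b]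
    have e2 := Finset.sum_range_succ' (fun b : ℕ => G ((a * x + (b : ℝ)) / d)) d
    have e3 := Finset.sum_range_succ (fun b : ℕ => G ((a * x + (b : ℝ)) / d)) d
    rw [e3] at e2
    have e4 : G ((a * x + (d : ℝ)) / d) = G ((a * x + ((0 : ℕ) : ℝ)) / d) := by
      rw [← hp ((a * x + ((0 : ℕ) : ℝ)) / d)]
      congr 1
      push_cast
      field_simp
      ring
    rw [e4] at e2
    exact (add_right_cancel e2).symm
  have hHp : ∀ x, H (x + 1) = H x := by
    have : ∀ k : ℕ, ∀ x, H (x + k * (1 / a)) = H x := by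
      intro k
      induction k with
      | zero => intro x; simp
      | succ k ih =>
        intro x
        have : x + ((k + 1 : ℕ) : ℝ) * (1 / a) = (x + k * (1 / a)) + 1 / a := by push_cast; ring
        rw [this, hHs, ih]
    intro x
    have h := this a x
    have e : (a : ℝ) * (1 / a) = 1 := by field_simp
    rw [e] at h
    exact h
  have hint : (fun x : ℝ => ∑ b ∈ Finset.range d, G ((a * x + b) / d) * ee (-(x : ℂ))) =
      fun x : ℝ => H x * ee (-(((1 : ℤ) : ℂ) * x)) := by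
    funext x
    rw [← Finset.sum_mul]
    simp [hH]
  rw [hint]
  have h1 : ∫ x in (0 : ℝ)..1, H x * ee (-(((1 : ℤ) : ℂ) * x)) =
      ee (-(1 / (a : ℂ))) * ∫ x in (0 : ℝ)..1, H x * ee (-(((1 : ℤ) : ℂ) * x)) := by
    have s1 := cf_shift hHp 1 (1 / a)
    have s2 := intervalIntegral.integral_comp_add_right (a := (0 : ℝ)) (b := 1)
      (fun x : ℝ => H x * ee (-(((1 : ℤ) : ℂ) * x))) (1 / a : ℝ)
    rw [zero_add, add_comm (1 : ℝ) (1 / a : ℝ), s1] at s2
    change cf H 1 = _
    rw [← s2, ← intervalIntegral.integral_const_mul]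
    refine intervalIntegral.integral_congr fun x _ => ?_
    rw [hHs]
    have : (-(((1 : ℤ) : ℂ) * ((x + 1 / a : ℝ) : ℂ))) =
        -(1 / (a : ℂ)) + -(((1 : ℤ) : ℂ) * x) := by push_cast; ring
    rw [this, ee_add]
    ring
  have h2 : ee (-(1 / (a : ℂ))) ≠ 1 := by
    intro h
    unfold ee at h
    rw [Complex.exp_eq_one_iff] at h
    obtain ⟨n, hn⟩ := h
    have hpi : (Real.pi : ℂ) ≠ 0 := by exact_mod_cast Real.pi_ne_zero
    have h3 : -(1 / (a : ℂ)) = (n : ℂ) := by
      have hne : (2 * (Real.pi : ℂ) * Complex.I) ≠ 0 := by simp [hpi]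
      apply mul_left_cancel₀ hne
      rw [hn]; ring
    have h4 : (-1 : ℂ) = (n : ℂ) * a := by
      rw [← h3]; field_simp
    have h5 : (-1 : ℤ) = n * (a : ℤ) := by exact_mod_cast h4
    have h6 : (a : ℤ) ∣ 1 := by
      rw [← Int.dvd_neg]
      exact ⟨n, by linarith [mul_comm n (a : ℤ)]⟩
    have h7 := Int.le_of_dvd one_pos h6
    omega
  have h3 : (1 - ee (-(1 / (a : ℂ)))) * ∫ x in (0 : ℝ)..1, H x * ee (-(((1 : ℤ) : ℂ) * x)) = 0 := by
    rw [sub_mul, one_mul, ← h1, sub_self]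
  rcases mul_eq_zero.1 h3 with h | h
  · exact absurd (sub_eq_zero.1 h).symm h2
  · exact h

/-- the form on a horizontal line -/
def Fl (f : ℍ → ℝ) (y x : ℝ) : ℂ := (ext f ⟨x, y⟩ : ℂ)

lemma an_eq (f : ℍ → ℝ) (n : ℤ) (y : ℝ) : an f n y = cf (Fl f y) n := rfl

lemma Fl_smooth {f : ℍ → ℝ} {t : ℝ} (hf : IsHeckeMaass f t) {y : ℝ} (hy : 0 < y) :
    ContDiff ℝ 2 (Fl f y) := by
  have h1 : ContDiff ℝ 2 (fun x : ℝ => (⟨x, y⟩ : ℂ)) := by
    have : (fun x : ℝ => (⟨x, y⟩ : ℂ)) = fun x : ℝ => (x : ℂ) + (y : ℂ) * Complex.I := by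
      funext x
      apply Complex.ext <;> simp
    rw [this]
    exact (Complex.ofRealCLM.contDiff.of_le le_top).add contDiff_const
  have h2 : ContDiffOn ℝ 2 (ext f) {z : ℂ | 0 < z.im} := hf.smooth.of_le ENat.LEInfty.out
  have h3 : ContDiff ℝ 2 (fun x : ℝ => ext f ⟨x, y⟩) := by
    rw [← contDiffOn_univ]
    exact h2.comp h1.contDiffOn (fun x _ => hy)
  exact Complex.ofRealCLM.contDiff.comp h3

lemma Fl_per {f : ℍ → ℝ} {t : ℝ} (hf : IsHeckeMaass f t) {y : ℝ} (hy : 0 < y) (x : ℝ) :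
    Fl f y (x + 1) = Fl f y x := by
  unfold Fl
  congr 1
  let w : ℍ := ⟨⟨x, y⟩, hy⟩
  have h1 : ext f ⟨x, y⟩ = f w := Half.ext_coe f w
  have h2 : (⟨x + 1, y⟩ : ℂ) = ((ModularGroup.T • w : ℍ) : ℂ) := by
    rw [UpperHalfPlane.modular_T_smul]
    apply Complex.ext
    · simp [w, add_comm]
    · simp [w]
  rw [h2, Half.ext_coe, hf.invariant, h1]

end Fo1M

open Fo1M in
theorem stmtFo1 : StmtFo1 := by
  intro f t hf
  refine ⟨?_, ?_, ?_, ?_, ?_⟩
  · intro z hz
    have := hasSum_cf (Fl_smooth hf (y := z.im) hz) (Fl_per hf hz) z.re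
    exact this
  · intro n y
    unfold an
    rw [intervalIntegral.integral_of_le zero_le_one, intervalIntegral.integral_of_le zero_le_one,
      ← integral_conj]
    refine integral_congr_ae (Eventually.of_forall fun x => ?_)
    simp only [map_mul, Complex.conj_ofReal]
    congr 1
    unfold ee
    rw [← Complex.exp_conj]
    congr 1
    simp only [map_mul, map_neg, Complex.conj_ofReal, Complex.conj_I, map_ofNat, map_intCast]
    push_cast
    ring
  · intro ε hε n y hy
    have hp := Fl_per hf hy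
    have h0 : ∀ x : ℝ, Fl f y (-x) = (ε : ℂ) * Fl f y x := by
      intro x
      unfold Fl
      have h1 := hε.2 ⟨x, y⟩ hy
      have h2 : -conj (⟨x, y⟩ : ℂ) = ⟨-x, y⟩ := by
        apply Complex.ext <;> simp
      rw [h2] at h1
      rw [h1]
      push_cast
      ring
    rw [an_eq, an_eq, ← cf_shift hp n (-1)]
    rw [← intervalIntegral.integral_const_mul]
    have h3 := intervalIntegral.integral_comp_neg (a := (-1 : ℝ)) (b := -1 + 1)
      (fun x : ℝ => Fl f y x * ee (-(((-n : ℤ) : ℂ) * x)))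
    have h4 : -(-1 + 1 : ℝ) = 0 := by norm_num
    have h5 : -(-1 : ℝ) = 1 := by norm_num
    rw [h4, h5] at h3
    change ∫ x in (0 : ℝ)..1, Fl f y x * ee (-(((-n : ℤ) : ℂ) * x)) = _
    rw [← h3]
    refine intervalIntegral.integral_congr fun x _ => ?_
    change Fl f y (-x) * ee (-(((-n : ℤ) : ℂ) * ((-x : ℝ) : ℂ))) =
      (ε : ℂ) * (Fl f y x * ee (-((n : ℂ) * x)))
    rw [h0 x]
    have : (-(((-n : ℤ) : ℂ) * ((-x : ℝ) : ℂ))) = -((n : ℂ) * x) := by push_cast; ring
    rw [this]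
    ring
  · intro y hy
    unfold an
    have h1 : (fun x : ℝ => (ext f ⟨x, y⟩ : ℂ) * ee (-(((0 : ℤ) : ℂ) * x))) =
        fun x : ℝ => ((ext f ⟨x, y⟩ : ℝ) : ℂ) := by
      funext x
      unfold ee
      simp
    rw [h1, intervalIntegral.integral_ofReal, hf.cuspidal y hy]
    simp
  · intro m c hm hk y hy
    have hm0 : 0 < m := hm
    have hmR : (0 : ℝ) < m := by exact_mod_cast hm0
    have hmC : (m : ℂ) ≠ 0 := by
      have : (m : ℝ) ≠ 0 := hmR.ne'
      exact_mod_cast this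
    set Y : ℝ := m * y with hY
    have hYp : 0 < Y := by positivity
    have hid : ∀ x : ℝ, ∑ d ∈ m.divisors, ∑ b ∈ Finset.range d,
        Fl f (((m / d : ℕ) : ℝ) * Y / d) ((((m / d : ℕ) : ℝ) * x + b) / d) = (c : ℂ) * Fl f Y x := by
      intro x
      let w : ℍ := ⟨⟨x, Y⟩, hYp⟩
      have h1 := hk w
      have h2 : f w = ext f ⟨x, Y⟩ := (Half.ext_coe f w).symm
      unfold Fl
      rw [h2] at h1
      have h3 : ∀ d b : ℕ, ((((m / d : ℕ) : ℂ) * (w : ℂ) + b) / d) =
          ⟨(((m / d : ℕ) : ℝ) * x + b) / d, ((m / d : ℕ) : ℝ) * Y / d⟩ := by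
        intro d b
        have hw : (w : ℂ) = ⟨x, Y⟩ := rfl
        rw [hw]
        have e : (d : ℂ) = ((d : ℝ) : ℂ) := by push_cast; rfl
        rw [e]
        apply Complex.ext
        · rw [Complex.div_ofReal_re]
          simp
        · rw [Complex.div_ofReal_im]
          simp
      rw [← Complex.ofReal_mul, ← h1]
      push_cast
      refine Finset.sum_congr rfl fun d _ => Finset.sum_congr rfl fun b _ => ?_
      rw [h3 d b]
    have hdpos : ∀ d ∈ m.divisors, 0 < d ∧ 0 < m / d := by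
      intro d hd
      have h1 := Nat.pos_of_mem_divisors hd
      have h2 := Nat.dvd_of_mem_divisors hd
      exact ⟨h1, Nat.div_pos (Nat.le_of_dvd hm0 h2) h1⟩
    have hYd : ∀ d ∈ m.divisors, 0 < ((m / d : ℕ) : ℝ) * Y / d := by
      intro d hd
      obtain ⟨h1, h2⟩ := hdpos d hd
      have h1' : (0 : ℝ) < d := by exact_mod_cast h1
      have h2' : (0 : ℝ) < ((m / d : ℕ) : ℝ) := by exact_mod_cast h2
      positivity
    have hcont : ∀ d ∈ m.divisors, ∀ b : ℕ, Continuous fun x : ℝ =>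
        Fl f (((m / d : ℕ) : ℝ) * Y / d) ((((m / d : ℕ) : ℝ) * x + b) / d) * ee (-(x : ℂ)) := by
      intro d hd b
      have h1 := (Fl_smooth hf (hYd d hd)).continuous
      have := cont_ee
      fun_prop
    have hI : (c : ℂ) * an f 1 Y = ∑ d ∈ m.divisors, ∑ b ∈ Finset.range d, ∫ x in (0 : ℝ)..1,
        Fl f (((m / d : ℕ) : ℝ) * Y / d) ((((m / d : ℕ) : ℝ) * x + b) / d) * ee (-(x : ℂ)) := by
      rw [an_eq]
      unfold cf
      rw [← intervalIntegral.integral_const_mul]
      have h1 : (fun x : ℝ => (c : ℂ) * (Fl f Y x * ee (-(((1 : ℤ) : ℂ) * x)))) = fun x : ℝ =>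
          ∑ d ∈ m.divisors, ∑ b ∈ Finset.range d,
          Fl f (((m / d : ℕ) : ℝ) * Y / d) ((((m / d : ℕ) : ℝ) * x + b) / d) * ee (-(x : ℂ)) := by
        funext x
        rw [← mul_assoc, ← hid x, Finset.sum_mul]
        refine Finset.sum_congr rfl fun d _ => ?_
        rw [Finset.sum_mul]
        simp
      rw [h1, intervalIntegral.integral_finsetSum]
      · refine Finset.sum_congr rfl fun d hd => ?_
        rw [intervalIntegral.integral_finsetSum]
        intro b _
        exact (hcont d hd b).intervalIntegrable _ _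
      · intro d hd
        exact (continuous_finsetSum _ fun b _ => hcont d hd b).intervalIntegrable _ _
    have hone : ∑ d ∈ m.divisors, ∑ b ∈ Finset.range d, ∫ x in (0 : ℝ)..1,
        Fl f (((m / d : ℕ) : ℝ) * Y / d) ((((m / d : ℕ) : ℝ) * x + b) / d) * ee (-(x : ℂ)) =
        (m : ℂ) * an f m y := by
      rw [Finset.sum_eq_single m]
      · have h1 : m / m = 1 := Nat.div_self hm0
        have h2 : ((m / m : ℕ) : ℝ) * Y / m = y := by
          rw [h1, hY]; field_simp; simp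
        rw [h2, h1, an_eq]
        have := hecke_one (Fl_smooth hf hy).continuous hm0
        rw [← this]
        refine Finset.sum_congr rfl fun b _ => ?_
        refine intervalIntegral.integral_congr fun x _ => ?_
        simp
      · intro d hd hdm
        obtain ⟨h1, h2⟩ := hdpos d hd
        have h3 : 2 ≤ m / d := by
          by_contra hlt
          have h4 : m / d = 1 := by omega
          have h5 := Nat.div_mul_cancel (Nat.dvd_of_mem_divisors hd)
          rw [h4, one_mul] at h5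
          exact hdm h5
        exact hecke_two (Fl_smooth hf (hYd d hd)).continuous (Fl_per hf (hYd d hd)) h1 h3
      · intro h
        exact absurd (Nat.mem_divisors_self m hm0.ne') h
    rw [hone] at hI
    have : an f m y = (m : ℂ)⁻¹ * ((c : ℂ) * an f 1 Y) := by
      rw [hI, ← mul_assoc, inv_mul_cancel₀ hmC, one_mul]
    rw [this]
    push_cast
    ring

end

end Pool.Agent.A54.Av
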