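import Pool.Agent.Lib.MP_a54f13_nt.Av.SpecF
import Pool.Agent.Lib.MP_a54f13_nt.X
import Pool.Agent.Lib.MP_a54f13_nt.IntLap
import Pool.Agent.Lib.MP_a54f13_nt.Ineq
import Pool.Agent.Lib.MP_a54f13_nt.Half

/-!
# Module `Fd`: sequences
-/

set_option autoImplicit false

namespace Pool.Agent.A54.Av

open MeasureTheory Filter Topology Set
open scoped ContDiff ComplexConjugate UpperHalfPlane MatrixGroups ENNReal
open Pool.Agent.A54.Half (H0 qq ff hh)

noncomputable section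

namespace FdM

open Pool.Agent.A54.X (measurableSet_fdo fdo_inter_sub continuous_of_ext integrableOn_fdo)
open Pool.Agent.A54.Half (isOpen_H0)

/-- a normalised test function -/
lemma exists_phi0 : ∃ φ0 : ℂ → ℝ, TestR H0 φ0 ∧ (∀ z, 0 ≤ φ0 z) ∧ ∫ z, φ0 z = 1 := by
  let b : ContDiffBump (0 : ℂ) := ⟨1 / 4, 1 / 2, by norm_num, by norm_num⟩
  have hsub : Metric.closedBall Complex.I b.rOut ⊆ H0 := by
    intro z hz
    rw [mem_closedBall_iff_norm] at hz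
    have h1 := Complex.abs_im_le_norm (z - Complex.I)
    rw [Complex.sub_im, Complex.I_im] at h1
    have h2 : b.rOut = 1 / 2 := rfl
    rw [h2] at hz
    have h3 := (abs_le.mp (h1.trans hz)).1
    show 0 < z.im
    linarith
  refine ⟨fun s => b.normed volume (Complex.I - s), Ineq.testR_bump hsub,
    fun z => b.nonneg_normed _, ?_⟩
  rw [integral_sub_left_eq_self (fun s => b.normed volume s) volume Complex.I]
  exact b.integral_normed

/-- the square of a form is integrable -/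
lemma sq_int {f : ℍ → ℝ} {t : ℝ} (hf : IsHeckeMaass f t) :
    IntegrableOn (fun z => f z ^ 2) ModularGroup.fdo := by
  by_contra h
  have h1 := hf.normalised
  rw [integral_undef h] at h1
  have := Real.pi_pos
  linarith

lemma form_cont {f : ℍ → ℝ} {t : ℝ} (hf : IsHeckeMaass f t) : Continuous f :=
  continuous_of_ext hf.smooth

/-- bounds for test functions on the modular surface -/
lemma testX_bdd {ψ : ℍ → ℝ} (hψ : TestX ψ) : ∃ B : ℝ, 0 ≤ B ∧ ∀ z ∈ ModularGroup.fdo, |ψ z| ≤ B := by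
  obtain ⟨Y, hY⟩ := hψ.cusp
  obtain ⟨B₀, hB₀⟩ := (ModularGroup.isCompact_truncatedFundamentalDomain Y).exists_bound_of_continuousOn
    (continuous_of_ext hψ.smooth).continuousOn
  refine ⟨max B₀ 0, le_max_right _ _, fun z hz => ?_⟩
  by_cases h : Y < z.im
  · rw [hY z (ModularGroup.fdo_subset_fd hz) h, abs_zero]
    exact le_max_right _ _
  · have h1 := hB₀ z (fdo_inter_sub Y ⟨hz, not_lt.mp h⟩)
    rw [Real.norm_eq_abs] at h1
    exact h1.trans (le_max_left _ _)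

/-- a test function times the square of a form is a test function -/
lemma test_sq {φ : ℂ → ℝ} (hφ : TestR H0 φ) {f : ℍ → ℝ} {t : ℝ} (hf : IsHeckeMaass f t) :
    TestR H0 (fun z => φ z * ext f z ^ 2) :=
  Half.testR_mul isOpen_H0 hφ hφ.sub (hf.smooth.pow 2)

/-- the integrals against a test function are bounded -/
lemma bdd (hU1 : Pl.StmtU1) {φ : ℂ → ℝ} (hφ : TestR H0 φ) :
    ∃ B : ℝ, ∀ (f : ℍ → ℝ) (t : ℝ), IsHeckeMaass f t → |∫ z, φ z * ext f z ^ 2| ≤ B := by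
  have hφ' : TestR H0 (fun z => φ z * z.im ^ 2) :=
    Half.testR_mul isOpen_H0 hφ hφ.sub ((Complex.imCLM.contDiff.pow 2).contDiffOn)
  obtain ⟨ψ, hψ, hid⟩ := hU1 _ hφ'
  obtain ⟨B, hB, hψB⟩ := testX_bdd hψ
  refine ⟨B * (Real.pi / 3), fun f t hf => ?_⟩
  have hfc : Continuous f := form_cont hf
  have e1 : ∫ z : ℍ, φ z * z.im ^ 2 * f z ^ 2 = ∫ z, φ z * ext f z ^ 2 := by
    have h0 : ∀ z : ℂ, z.im ≤ 0 → φ z * z.im ^ 2 * ext f z ^ 2 = 0 := by
      intro z hz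
      rw [hφ.eq_zero (fun h => (not_lt.mpr hz) h)]
      ring
    have h1 := stmtInt.1 _ h0
    have h2 : ∫ z : ℍ, φ z * z.im ^ 2 * f z ^ 2 =
        ∫ z : ℍ, (fun w : ℂ => φ w * w.im ^ 2 * ext f w ^ 2) z := by
      refine integral_congr_ae (Eventually.of_forall fun z => ?_)
      simp only [X.ext_coe]
      rfl
    rw [h2, h1]
    refine integral_congr_ae (Eventually.of_forall fun z => ?_)
    simp only
    by_cases hz : 0 < z.im
    · field_simp
    · rw [hφ.eq_zero (fun h => hz h)]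
      simp
  have e2 := hid (fun z => f z ^ 2) (hfc.pow 2) (fun γ z => by rw [hf.invariant])
  have e3 : ∫ z : ℍ, φ z * z.im ^ 2 * f z ^ 2 = ∫ z in ModularGroup.fdo, ψ z * f z ^ 2 := e2
  rw [← e1, e3]
  refine abs_integral_le_integral_abs.trans ?_
  rw [← hf.normalised, ← integral_const_mul]
  have hψc : Continuous ψ := continuous_of_ext hψ.smooth
  obtain ⟨Y, hY⟩ := hψ.cusp
  have hi : IntegrableOn (fun z => ψ z * f z ^ 2) ModularGroup.fdo :=
    integrableOn_fdo (hψc.mul (hfc.pow 2)) (Y := Y) (fun z hz h => by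
      rw [hY z (ModularGroup.fdo_subset_fd hz) h, zero_mul])
  refine setIntegral_mono_on hi.abs ((sq_int hf).const_mul B) measurableSet_fdo fun z hz => ?_
  rw [abs_mul, abs_of_nonneg (sq_nonneg (f z))]
  exact mul_le_mul_of_nonneg_right (hψB z hz) (sq_nonneg _)

/-- the integrals over compact sets are bounded -/
lemma bddK (hU1 : Pl.StmtU1) {K : Set ℂ} (hK : IsCompact K) (hKH : K ⊆ H0) :
    ∃ B : ℝ, ∀ (f : ℍ → ℝ) (t : ℝ), IsHeckeMaass f t → ∫ z in K, ext f z ^ 2 ≤ B := by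
  obtain ⟨ζ, hζ, hζ1, hζK⟩ := exists_cutoff hK isOpen_H0 hKH
  obtain ⟨B, hB⟩ := bdd hU1 hζ
  refine ⟨B, fun f t hf => ?_⟩
  have hT := test_sq hζ hf
  have hi : Integrable fun z => ζ z * ext f z ^ 2 :=
    hT.smooth.continuous.integrable_of_hasCompactSupport hT.cpt
  have h0 : ∀ z, 0 ≤ ζ z * ext f z ^ 2 := fun z => mul_nonneg (hζ1 z).1 (sq_nonneg _)
  calc ∫ z in K, ext f z ^ 2 = ∫ z in K, ζ z * ext f z ^ 2 := by
        refine setIntegral_congr_fun hK.measurableSet fun z hz => ?_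
        show ext f z ^ 2 = ζ z * ext f z ^ 2
        rw [hζK.self_of_nhdsSet z hz, one_mul]
    _ ≤ ∫ z, ζ z * ext f z ^ 2 := setIntegral_le_integral hi (Eventually.of_forall h0)
    _ ≤ |∫ z, ζ z * ext f z ^ 2| := le_abs_self _
    _ ≤ B := hB f t hf

/-- choice of a subsequence -/
lemma core (hFc : StmtFc) (hFa : StmtFa1) (hU1 : Pl.StmtU1) {η : ℂ → ℝ} (hη : Bump η)
    {f : ℕ → ℍ → ℝ} {t T : ℕ → ℝ} (hf : ∀ i, IsHeckeMaass (f i) (t i))
    (hT : Tendsto T atTop atTop) (hTt : ∀ i, T i / 2 < t i ∧ t i ≤ T i)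
    (hX : ∀ K : Set ℂ, IsCompact K → K ⊆ H0 → ∀ ε : ℝ, 0 < ε → ∃ R : ℝ, 0 < R ∧ ∀ᶠ i in atTop,
      XX2 η (R / T i) K (f i) ≤ ε) :
    ∃ (c : ℝ) (ms : ℕ → ℕ), 0 ≤ c ∧ StrictMono ms ∧ ∀ φ : ℂ → ℝ, TestR H0 φ →
      Tendsto (fun i => ∫ z : ℍ, φ z * f (ms i) z ^ 2) atTop (𝓝 (c * ∫ z : ℍ, φ z)) ∧
      Tendsto (fun i => ∫ z : ℍ, φ z * f (ms i) z ^ 4) atTop (𝓝 (3 * c ^ 2 * ∫ z : ℍ, φ z)) := by
  obtain ⟨φ0, hφ0, h0, h1⟩ := exists_phi0
  obtain ⟨B, hB⟩ := bdd hU1 hφ0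
  have hmem : ∀ i, ∫ z, φ0 z * ext (f i) z ^ 2 ∈ Icc (0 : ℝ) B := fun i =>
    ⟨integral_nonneg fun z => mul_nonneg (h0 z) (sq_nonneg _),
      (le_abs_self _).trans (hB (f i) (t i) (hf i))⟩
  obtain ⟨c, hc, ms, hms, hlim⟩ := isCompact_Icc.tendsto_subseq hmem
  refine ⟨c, ms, hc.1, hms, ?_⟩
  have hmt := hms.tendsto_atTop
  have hX' : ∀ φ : ℂ → ℝ, TestR H0 φ → (∀ z, 0 ≤ φ z) → ∀ ε : ℝ, 0 < ε → ∃ R : ℝ, 0 < R ∧
      ∀ᶠ i in atTop, ∫ z, φ z *
        (Sm' η (R / T (ms i)) (fun w => ext (f (ms i)) w ^ 2) z - c) ^ 2 ≤ ε := by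
    refine hFa η hη (fun i w => ext (f (ms i)) w ^ 2) (fun i => T (ms i)) ?_ ?_ (hT.comp hmt) ?_ ?_
      φ0 c hφ0 h0 h1 hlim
    · intro i
      exact ((hf (ms i)).smooth.continuousOn).pow 2
    · intro i z
      exact sq_nonneg _
    · intro K hK hKH
      obtain ⟨B', hB'⟩ := bddK hU1 hK hKH
      exact ⟨B', fun i => hB' (f (ms i)) (t (ms i)) (hf (ms i))⟩
    · intro K hK hKH ε hε
      obtain ⟨R, hR, hR2⟩ := hX K hK hKH ε hε
      exact ⟨R, hR, hmt.eventually hR2⟩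
  exact hFc η hη (fun i => f (ms i)) (fun i => t (ms i)) (fun i => T (ms i)) c
    (fun i => hf (ms i)) (hT.comp hmt) (fun i => hTt (ms i)) hc.1 hX'

end FdM

open FdM in
theorem stmtFd (hFc : StmtFc) (hFa : StmtFa1) (hU1 : Pl.StmtU1) (hU2 : Pl.StmtU2) : StmtFd := by
  intro η hη f t T hf hT hTt hX ψ hψ
  refine tendsto_of_subseq_tendsto fun ns hns => ?_
  obtain ⟨c, ms, hc, -, hms⟩ := core hFc hFa hU1 hη (f := fun i => f (ns i)) (t := fun i => t (ns i))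
    (T := fun i => T (ns i)) (fun i => hf (ns i)) (hT.comp hns) (fun i => hTt (ns i))
    (fun K hK hKH ε hε => by
      obtain ⟨R, hR, hR2⟩ := hX K hK hKH ε hε
      exact ⟨R, hR, hns.eventually hR2⟩)
  refine ⟨ms, ?_⟩
  have hfc : ∀ i, Continuous (f i) := fun i => form_cont (hf i)
  have h2 := hU2 (fun i z => f (ns (ms i)) z ^ 2) c (fun i => (hfc _).pow 2)
    (fun i z => sq_nonneg _) (fun φ hφ => (hms φ hφ).1) ψ hψ
  have h4 := hU2 (fun i z => f (ns (ms i)) z ^ 4) (3 * c ^ 2) (fun i => (hfc _).pow 4)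
    (fun i z => by positivity) (fun φ hφ => (hms φ hφ).2) ψ hψ
  have h5 := (h4.const_mul (∫ z in ModularGroup.fdo, ψ z)).sub ((h2.pow 2).const_mul 3)
  refine (h5.congr fun i => rfl).trans_eq ?_
  congr 1
  ring

end

end Pool.Agent.A54.Av
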