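import Pool.Agent.Lib.MP_a54f13_nt.Av.SpecN
import Pool.Agent.Lib.MP_a54f13_nt.Av.Fd
import Pool.Agent.Lib.MP_a54f13_nt.Pl.U2

/-!
# Module `Fd2`: sequences without escape of mass
-/

set_option autoImplicit false

namespace Pool.Agent.A54.Av

open MeasureTheory Filter Topology Set
open scoped ContDiff ComplexConjugate UpperHalfPlane MatrixGroups ENNReal
open Pool.Agent.A54.Half (H0 qq ff hh)

noncomputable section

namespace Fd2M

open Pool.Agent.A54.X (measurableSet_fdo fdo_inter_sub continuous_of_ext integrableOn_fdo O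
  isOpen_O O_sub mem_fdo_iff)

/-- integrals of functions with support in the fundamental domain -/
lemma int_fdo {χ : ℂ → ℝ} (hχ : TestR O χ) (g : ℍ → ℝ) :
    ∫ z : ℍ, χ z * g z = ∫ z in ModularGroup.fdo, χ z * g z := by
  rw [← integral_indicator measurableSet_fdo]
  refine integral_congr_ae (Eventually.of_forall fun z => ?_)
  simp only
  by_cases hz : z ∈ ModularGroup.fdo
  · rw [indicator_of_mem hz]
  · rw [indicator_of_notMem hz, hχ.eq_zero (fun h => hz ((mem_fdo_iff z).mpr h)), zero_mul]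

lemma testH {χ : ℂ → ℝ} (hχ : TestR O χ) : TestR H0 χ := ⟨hχ.smooth, hχ.cpt, hχ.sub.trans O_sub⟩

lemma vol_real (hVol : StmtVol) : (volume ModularGroup.fdo).toReal = Real.pi / 3 := by
  have h : volume ModularGroup.fdo = ENNReal.ofReal (Real.pi / 3) := hVol
  rw [h, ENNReal.toReal_ofReal (by positivity)]

lemma int_one (hVol : StmtVol) : IntegrableOn (fun _ : ℍ => (1 : ℝ)) ModularGroup.fdo := by
  have h : volume ModularGroup.fdo = ENNReal.ofReal (Real.pi / 3) := hVol
  exact integrableOn_const (by rw [h]; exact ENNReal.ofReal_ne_top)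

lemma integral_one (hVol : StmtVol) : ∫ _z in ModularGroup.fdo, (1 : ℝ) = Real.pi / 3 := by
  rw [setIntegral_const, smul_eq_mul, mul_one, Measure.real, vol_real hVol]

/-- a cutoff function is at most one -/
lemma cut_le (hVol : StmtVol) {χ : ℂ → ℝ} (hχ : TestR O χ) (hχ1 : ∀ z, 0 ≤ χ z ∧ χ z ≤ 1) :
    ∫ z : ℍ, χ z ≤ Real.pi / 3 := by
  have h1 := int_fdo hχ (fun _ => 1)
  simp only [mul_one] at h1
  rw [h1, ← integral_one hVol]
  have hi : Integrable fun z : ℍ => χ z := by
    have := Pl.U2M.integrable_test (testH hχ) (G := fun _ => (1 : ℝ)) continuous_const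
    simpa using this
  exact setIntegral_mono_on hi.integrableOn (int_one hVol) measurableSet_fdo
    fun z _ => (hχ1 z).2

/-- the constant is one -/
lemma c_one (hVol : StmtVol) {f : ℕ → ℍ → ℝ} {t : ℕ → ℝ} (hf : ∀ i, IsHeckeMaass (f i) (t i))
    {c : ℝ} (hc : 0 ≤ c) (h : ∀ φ : ℂ → ℝ, TestR H0 φ →
      Tendsto (fun i => ∫ z : ℍ, φ z * f i z ^ 2) atTop (𝓝 (c * ∫ z : ℍ, φ z)))
    (hY : ∀ κ : ℝ, 0 < κ → ∃ Y : ℝ, ∀ᶠ i in atTop,
      ∫ z in ModularGroup.fdo ∩ {z : ℍ | Y < z.im}, f i z ^ 2 ≤ κ) : c = 1 := by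
  have hpi := Real.pi_pos
  have hsq : ∀ i, IntegrableOn (fun z => f i z ^ 2) ModularGroup.fdo := fun i => FdM.sq_int (hf i)
  have hcont : ∀ i, Continuous (f i) := fun i => FdM.form_cont (hf i)
  have hle : ∀ κ : ℝ, 0 < κ → c * (Real.pi / 3 - κ) ≤ Real.pi / 3 := by
    intro κ hκ
    obtain ⟨K, hK, hKO, hKi⟩ := X.exists_compact (fun _ => (1 : ℝ)) (int_one hVol) hκ
    obtain ⟨χ, hχ, hχ1, hχK⟩ := exists_cutoff hK isOpen_O hKO
    have h1 := X.cut_error hK hχ1 (fun z hz => hχK.self_of_nhdsSet z hz) hχ.smooth.continuous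
      (int_one hVol) (fun _ => zero_le_one)
    have hi : Integrable fun z : ℍ => χ z := by
      have := Pl.U2M.integrable_test (testH hχ) (G := fun _ => (1 : ℝ)) continuous_const
      simpa using this
    have h2 : ∫ z in ModularGroup.fdo, (1 - χ z) * 1 = Real.pi / 3 - ∫ z : ℍ, χ z := by
      simp only [mul_one]
      rw [integral_sub (int_one hVol) hi.integrableOn, integral_one hVol]
      have h3 := int_fdo hχ (fun _ => 1)
      simp only [mul_one] at h3
      rw [h3]
    rw [h2] at h1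
    have h4 : Real.pi / 3 - κ ≤ ∫ z : ℍ, χ z := by linarith
    have h5 : c * ∫ z : ℍ, χ z ≤ Real.pi / 3 := by
      refine le_of_tendsto (h χ (testH hχ)) (Eventually.of_forall fun i => ?_)
      rw [int_fdo hχ (fun z => f i z ^ 2), ← (hf i).normalised]
      have hi2 := Pl.U2M.integrable_test (testH hχ) ((hcont i).pow 2)
      refine setIntegral_mono_on hi2.integrableOn (hsq i) measurableSet_fdo fun z _ => ?_
      exact mul_le_of_le_one_left (sq_nonneg _) (hχ1 z).2
    exact (mul_le_mul_of_nonneg_left h4 hc).trans h5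
  have hge : ∀ κ : ℝ, 0 < κ → Real.pi / 3 - κ ≤ c * (Real.pi / 3 + κ) := by
    intro κ hκ
    obtain ⟨Y, hY⟩ := hY κ hκ
    obtain ⟨χ, ζ, hχ, hχ1, hζ, hζ1, hζT, hint⟩ := Pl.U2M.cutoffs Y hκ
    have hi1 : Integrable fun z : ℍ => ζ z := by
      have := Pl.U2M.integrable_test hζ (G := fun _ => (1 : ℝ)) continuous_const
      simpa using this
    have hi2 : Integrable fun z : ℍ => χ z := by
      have := Pl.U2M.integrable_test (testH hχ) (G := fun _ => (1 : ℝ)) continuous_const
      simpa using this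
    have hi3 : Integrable fun z : ℍ => ζ z * (1 - χ z) :=
      Pl.U2M.integrable_test hζ (G := fun z => 1 - χ z)
        (continuous_const.sub (hχ.smooth.continuous.comp UpperHalfPlane.continuous_coe))
    have h1 : ∫ z : ℍ, ζ z ≤ Real.pi / 3 + κ := by
      calc ∫ z : ℍ, ζ z ≤ ∫ z : ℍ, (χ z + ζ z * (1 - χ z)) := by
            refine integral_mono hi1 (hi2.add hi3) fun z => ?_
            show ζ z ≤ χ z + ζ z * (1 - χ z)
            have h2 := hχ1 z
            have h3 := hζ1 z
            nlinarith [mul_nonneg h2.1 (sub_nonneg.2 h3.2)]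
        _ = (∫ z : ℍ, χ z) + ∫ z : ℍ, ζ z * (1 - χ z) := integral_add hi2 hi3
        _ ≤ Real.pi / 3 + κ := add_le_add (cut_le hVol hχ hχ1) hint
    have h2 : Real.pi / 3 - κ ≤ c * ∫ z : ℍ, ζ z := by
      refine ge_of_tendsto (h ζ hζ) ?_
      filter_upwards [hY] with i hi
      have hmY : MeasurableSet {z : ℍ | Y < z.im} :=
        measurableSet_lt measurable_const UpperHalfPlane.continuous_im.measurable
      have h3 := integral_inter_add_sdiff (μ := volume) (s := ModularGroup.fdo) hmY (hsq i)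
      rw [(hf i).normalised] at h3
      have hi4 : Integrable fun z : ℍ => ζ z * f i z ^ 2 :=
        Pl.U2M.integrable_test hζ ((hcont i).pow 2)
      have h4 : ∫ z in ModularGroup.fdo \ {z : ℍ | Y < z.im}, f i z ^ 2 ≤
          ∫ z : ℍ, ζ z * f i z ^ 2 := by
        calc ∫ z in ModularGroup.fdo \ {z : ℍ | Y < z.im}, f i z ^ 2 =
            ∫ z in ModularGroup.fdo \ {z : ℍ | Y < z.im}, ζ z * f i z ^ 2 := by
              refine setIntegral_congr_fun (measurableSet_fdo.diff hmY) fun z hz => ?_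
              show f i z ^ 2 = ζ z * f i z ^ 2
              have h5 : z.im ≤ Y := not_lt.mp hz.2
              rw [hζT z (fdo_inter_sub Y ⟨hz.1, h5⟩), one_mul]
          _ ≤ _ := setIntegral_le_integral hi4
              (Eventually.of_forall fun z => mul_nonneg (hζ1 z).1 (sq_nonneg _))
      linarith
    exact h2.trans (mul_le_mul_of_nonneg_left h1 hc)
  apply le_antisymm
  · by_contra hlt
    have hlt' : 1 < c := not_le.mp hlt
    have h1 := hle ((c - 1) * Real.pi / (6 * c)) (by
      have h2 : 0 < c - 1 := by linarith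
      have h3 : 0 < c := by linarith
      positivity)
    have h3 : 0 < c := by linarith
    have h4 : c * (Real.pi / 3 - (c - 1) * Real.pi / (6 * c)) =
        Real.pi / 3 + (c - 1) * Real.pi / 6 := by
      field_simp
      ring
    rw [h4] at h1
    have h5 : 0 < (c - 1) * Real.pi / 6 := by
      have h2 : 0 < c - 1 := by linarith
      positivity
    linarith
  · by_contra hlt
    have hlt' : c < 1 := not_le.mp hlt
    have h2 : 0 < 1 - c := by linarith
    have h1 := hge ((1 - c) * Real.pi / 12) (by positivity)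
    nlinarith [mul_pos h2 hpi]

end Fd2M

open Fd2M in
theorem stmtFd2 (hFc : StmtFc) (hFa : StmtFa1) (hVol : StmtVol) (hU1 : Pl.StmtU1)
    (hU2 : Pl.StmtU2) : StmtFd2 := by
  intro η hη f t T hf hT hTt hX hY ψ hψ
  have key : ∀ ns : ℕ → ℕ, Tendsto ns atTop atTop → ∃ ms : ℕ → ℕ,
      Tendsto (fun i => ∫ z in ModularGroup.fdo, ψ z * f (ns (ms i)) z ^ 2) atTop
        (𝓝 (∫ z in ModularGroup.fdo, ψ z)) ∧
      Tendsto (fun i => ∫ z in ModularGroup.fdo, ψ z * f (ns (ms i)) z ^ 4) atTop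
        (𝓝 (3 * ∫ z in ModularGroup.fdo, ψ z)) := by
    intro ns hns
    obtain ⟨c, ms, hc, hmono, hms⟩ := FdM.core hFc hFa hU1 hη (f := fun i => f (ns i))
      (t := fun i => t (ns i)) (T := fun i => T (ns i)) (fun i => hf (ns i)) (hT.comp hns)
      (fun i => hTt (ns i)) (fun K hK hKH ε hε => by
        obtain ⟨R, hR, hR2⟩ := hX K hK hKH ε hε
        exact ⟨R, hR, hns.eventually hR2⟩)
    have hc1 : c = 1 := by
      refine c_one hVol (f := fun i => f (ns (ms i))) (t := fun i => t (ns (ms i)))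
        (fun i => hf _) hc (fun φ hφ => (hms φ hφ).1) fun κ hκ => ?_
      obtain ⟨Y, hY'⟩ := hY κ hκ
      exact ⟨Y, (hns.comp hmono.tendsto_atTop).eventually hY'⟩
    subst hc1
    have hfc : ∀ i, Continuous (f i) := fun i => FdM.form_cont (hf i)
    have h2 := hU2 (fun i z => f (ns (ms i)) z ^ 2) 1 (fun i => (hfc _).pow 2)
      (fun i z => sq_nonneg _) (fun φ hφ => (hms φ hφ).1) ψ hψ
    have h4 := hU2 (fun i z => f (ns (ms i)) z ^ 4) (3 * 1 ^ 2) (fun i => (hfc _).pow 4)
      (fun i z => by positivity) (fun φ hφ => (hms φ hφ).2) ψ hψ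
    rw [one_mul] at h2
    rw [one_pow, mul_one] at h4
    exact ⟨ms, h2, h4⟩
  constructor
  · refine tendsto_of_subseq_tendsto fun ns hns => ?_
    obtain ⟨ms, h2, -⟩ := key ns hns
    exact ⟨ms, h2⟩
  · refine tendsto_of_subseq_tendsto fun ns hns => ?_
    obtain ⟨ms, -, h4⟩ := key ns hns
    exact ⟨ms, h4⟩

end

end Pool.Agent.A54.Av
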