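import Pool.Agent.Lib.MP_a54f13_nt.Av.SpecN
import Pool.Agent.Lib.MP_a54f13_nt.Dyn.Vol

/-!
# Module `Vol`: the volume of the fundamental domain
-/

set_option autoImplicit false

namespace Pool.Agent.A54.Av

open MeasureTheory Filter Topology Set
open scoped ContDiff ComplexConjugate UpperHalfPlane MatrixGroups ENNReal

noncomputable section

namespace VolM

/-- the fundamental domain in real coordinates -/
def D : Set (ℝ × ℝ) := {p | |p.1| < 1 / 2 ∧ √(1 - p.1 ^ 2) < p.2}

lemma isOpen_D : IsOpen D := by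
  apply (isOpen_lt (continuous_abs.comp continuous_fst) continuous_const).inter
  exact isOpen_lt (by fun_prop) continuous_snd

lemma image_fdo : ((↑) '' ModularGroup.fdo : Set ℂ) = Complex.measurableEquivRealProd ⁻¹' D := by
  ext w
  constructor
  · rintro ⟨z, ⟨h1, h2⟩, rfl⟩
    refine ⟨h2, ?_⟩
    have h1' : 1 < Complex.normSq (z : ℂ) := h1
    rw [Complex.normSq_apply] at h1'
    show √(1 - (z : ℂ).re ^ 2) < (z : ℂ).im
    have hz : 0 < (z : ℂ).im := z.im_pos
    rw [Real.sqrt_lt' hz]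
    nlinarith
  · rintro ⟨h1, h2⟩
    have h1 : |w.re| < 1 / 2 := h1
    have h2 : √(1 - w.re ^ 2) < w.im := h2
    have hw : 0 < w.im := (Real.sqrt_nonneg _).trans_lt h2
    refine ⟨⟨w, hw⟩, ⟨?_, h1⟩, rfl⟩
    rw [Real.sqrt_lt' hw] at h2
    show 1 < Complex.normSq w
    rw [Complex.normSq_apply]
    nlinarith

lemma int_Ioi {c : ℝ} (hc : 0 < c) :
    ∫⁻ y in Ioi c, ENNReal.ofReal (1 / y ^ 2) = ENNReal.ofReal (1 / c) := by
  have hderiv : ∀ x ∈ Ici c, HasDerivAt (fun y : ℝ => -(y⁻¹)) (1 / x ^ 2) x := by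
    intro x hx
    have hx0 : x ≠ 0 := (hc.trans_le hx).ne'
    have h1 : HasDerivAt (fun y : ℝ => -(y⁻¹)) (-(-(x ^ 2)⁻¹)) x := (hasDerivAt_inv hx0).fun_neg
    rw [one_div]
    rwa [neg_neg] at h1
  have hlim : Tendsto (fun y : ℝ => -(y⁻¹)) atTop (𝓝 0) := by
    have h := tendsto_inv_atTop_zero (𝕜 := ℝ)
    simpa using h.neg
  have hpos : ∀ x ∈ Ioi c, (0 : ℝ) ≤ 1 / x ^ 2 := fun x _ => by positivity
  have hint := integrableOn_Ioi_deriv_of_nonneg' hderiv hpos hlim
  have hval := integral_Ioi_of_hasDerivAt_of_nonneg' hderiv hpos hlim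
  rw [← ofReal_integral_eq_lintegral_ofReal hint
    (ae_of_all _ fun y => by positivity), hval]
  congr 1
  rw [one_div]
  ring

lemma int_arc : ∫⁻ x in Ioo (-(1 / 2) : ℝ) (1 / 2), ENNReal.ofReal (1 / √(1 - x ^ 2)) =
    ENNReal.ofReal (Real.pi / 3) := by
  have hcont : ContinuousOn (fun x : ℝ => 1 / √(1 - x ^ 2)) (Icc (-(1 / 2)) (1 / 2)) := by
    apply ContinuousOn.div continuousOn_const (by fun_prop)
    intro x hx
    have h1 : 0 < 1 - x ^ 2 := by nlinarith [hx.1, hx.2]
    exact (Real.sqrt_pos.mpr h1).ne'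
  have hint : IntegrableOn (fun x : ℝ => 1 / √(1 - x ^ 2)) (Ioo (-(1 / 2)) (1 / 2)) :=
    hcont.integrableOn_Icc.mono_set Ioo_subset_Icc_self
  rw [← ofReal_integral_eq_lintegral_ofReal hint (ae_of_all _ fun y => by positivity)]
  congr 1
  rw [← integral_Ioc_eq_integral_Ioo, ← intervalIntegral.integral_of_le (by norm_num)]
  have hderiv : ∀ x ∈ uIcc (-(1 / 2) : ℝ) (1 / 2), HasDerivAt Real.arcsin (1 / √(1 - x ^ 2)) x := by
    intro x hx
    rw [uIcc_of_le (by norm_num)] at hx
    exact Real.hasDerivAt_arcsin (by linarith [hx.1]) (by linarith [hx.2])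
  rw [intervalIntegral.integral_eq_sub_of_hasDerivAt hderiv]
  · rw [Real.arcsin_neg]
    have h1 : Real.arcsin (1 / 2) = Real.pi / 6 := by
      rw [← Real.sin_pi_div_six, Real.arcsin_sin]
      · have := Real.pi_pos
        linarith
      · have := Real.pi_pos
        linarith
    rw [h1]
    ring
  · rw [intervalIntegrable_iff_integrableOn_Ioc_of_le (by norm_num)]
    exact hcont.integrableOn_Icc.mono_set Ioc_subset_Icc_self

end VolM

open VolM in
theorem stmtVol : StmtVol := by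
  show volume ModularGroup.fdo = ENNReal.ofReal (Real.pi / 3)
  rw [UpperHalfPlane.volume_eq_lintegral, image_fdo]
  simp_rw [Dyn.VolM.weight_eq]
  have hpre := Complex.volume_preserving_equiv_real_prod
  have key := hpre.setLIntegral_comp_preimage_emb
    Complex.measurableEquivRealProd.measurableEmbedding
    (fun p : ℝ × ℝ => ENNReal.ofReal (1 / p.2 ^ 2)) D
  have e1 : (∫⁻ z : ℂ in Complex.measurableEquivRealProd ⁻¹' D, ENNReal.ofReal (1 / z.im ^ 2)) =
      ∫⁻ p in D, ENNReal.ofReal (1 / p.2 ^ 2) := key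
  rw [e1, ← lintegral_indicator isOpen_D.measurableSet, Measure.volume_eq_prod,
    lintegral_prod _ ((Measurable.indicator (by fun_prop) isOpen_D.measurableSet).aemeasurable)]
  rw [← int_arc, ← lintegral_indicator measurableSet_Ioo]
  refine lintegral_congr fun x => ?_
  by_cases hx : x ∈ Ioo (-(1 / 2) : ℝ) (1 / 2)
  · rw [indicator_of_mem hx]
    have h1 : 0 < 1 - x ^ 2 := by nlinarith [hx.1, hx.2]
    rw [← int_Ioi (Real.sqrt_pos.mpr h1), ← lintegral_indicator measurableSet_Ioi]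
    refine lintegral_congr fun y => ?_
    by_cases hy : y ∈ Ioi √(1 - x ^ 2)
    · rw [indicator_of_mem hy, indicator_of_mem]
      exact ⟨abs_lt.mpr ⟨hx.1, hx.2⟩, hy⟩
    · rw [indicator_of_notMem hy, indicator_of_notMem]
      exact fun h => hy h.2
  · rw [indicator_of_notMem hx]
    have h1 : ∀ y : ℝ, D.indicator (fun p : ℝ × ℝ => ENNReal.ofReal (1 / p.2 ^ 2)) (x, y) = 0 := by
      intro y
      rw [indicator_of_notMem]
      exact fun h => hx (abs_lt.mp h.1)
    simp_rw [h1]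
    exact lintegral_zero

end

end Pool.Agent.A54.Av
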