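import Pool.Agent.Lib.MP_a54f13_nt.Av.SI

/-!
# Package `Av`, module `Abs`: absolute convergence
-/

set_option autoImplicit false

namespace Pool.Agent.A54.Av.AbsM

open MeasureTheory Filter Topology Set
open scoped ContDiff ComplexConjugate UpperHalfPlane MatrixGroups ENNReal
open Pool.Agent.A54.Half (H0 qq ff hh)

noncomputable section

lemma kk_I (hThS : StmtThS) (γ : Mat) (z w τ : ℍ) :
    kk γ (((z.im : ℝ) : ℂ) * Complex.I) w τ = ((‖kk γ z w τ‖ : ℝ) : ℂ) := by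
  rw [hThS.1 γ z w τ z.im_pos w.im_pos τ.im_pos]
  unfold kk ee
  have h1 : (((z.im : ℝ) : ℂ) * Complex.I).im = z.im := by simp
  have h3 : (z : ℂ).im = z.im := rfl
  rw [h1, h3]
  have h2 : 2 * (Real.pi : ℂ) * Complex.I *
      (((γ.det : ℤ) : ℂ) * (((z.im : ℝ) : ℂ) * Complex.I)) =
      ((-(2 * Real.pi * z.im * ((γ.det : ℤ) : ℝ)) : ℝ) : ℂ) := by
    generalize γ.det = n
    push_cast
    linear_combination (2 * (Real.pi : ℂ) * (z.im : ℂ) * (n : ℂ)) * Complex.I_sq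
  rw [h2, ← Complex.ofReal_exp, ← Complex.ofReal_mul, ← Complex.ofReal_mul, mul_assoc,
    ← Real.exp_add]
  congr 3
  unfold VV
  ring

lemma cont {f : ℍ → ℝ} {t : ℝ} (hf : IsHeckeMaass f t) : Continuous f := by
  have h3 : Continuous (fun z : ℍ => ext f (z : ℂ)) :=
    hf.smooth.continuousOn.comp_continuous UpperHalfPlane.continuous_coe (fun z => z.im_pos)
  simpa only [Half.ext_coe] using h3

lemma cont_kk (γ : Mat) (z w : ℍ) : Continuous fun τ : ℍ => kk γ z w τ := by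
  unfold kk VV
  have h : ∀ τ : ℍ, 4 * (w : ℂ).im * (τ : ℂ).im ≠ 0 := fun τ => by
    have h1 : 0 < (w : ℂ).im := w.im_pos
    have h2 : 0 < (τ : ℂ).im := τ.im_pos
    positivity
  have hc : Continuous fun τ : ℍ => (τ : ℂ) := UpperHalfPlane.continuous_coe
  have hi : Continuous fun τ : ℍ => (τ : ℂ).im := Complex.continuous_im.comp hc
  refine continuous_const.mul (Complex.continuous_ofReal.comp (Real.continuous_exp.comp ?_))
  refine (continuous_const.mul (Continuous.div ?_ ?_ h)).neg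
  · fun_prop
  · exact continuous_const.mul hi

lemma summ (hThS : StmtThS) (z w τ : ℍ) : Summable fun γ : Mat => ‖kk γ z w τ‖ := by
  have hK : IsCompact ({(w : ℂ), (τ : ℂ)} : Set ℂ) := (Set.toFinite _).isCompact
  have hKs : ({(w : ℂ), (τ : ℂ)} : Set ℂ) ⊆ H0 := by
    intro x hx
    rcases hx with rfl | hx
    · exact w.im_pos
    · rw [mem_singleton_iff] at hx
      rw [hx]
      exact τ.im_pos
  obtain ⟨C, c, hC, hc, h⟩ := hThS.2.1 _ hK hKs z.im z.im_pos
  exact (h z le_rfl w (by simp) τ (by simp)).1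

lemma meas (z w : ℍ) : Measurable fun τ : ℍ => ∑' γ : Mat, ‖kk γ z w τ‖ := by
  have h1 : (fun τ : ℍ => ∑' γ : Mat, ‖kk γ z w τ‖) =
      fun τ : ℍ => (∑' γ : Mat, ‖kk γ z w τ‖ₑ).toReal := by
    funext τ
    rw [ENNReal.tsum_toReal_eq (fun γ => enorm_ne_top)]
    refine tsum_congr fun γ => ?_
    rw [toReal_enorm]
  rw [h1]
  have : Countable Mat := inferInstanceAs (Countable (Fin 2 → Fin 2 → ℤ))
  refine Measurable.ennreal_toReal (Measurable.tsum fun γ => ?_)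
  exact (cont_kk γ z w).measurable.enorm

lemma th_eq (hThS : StmtThS) (z w τ : ℍ) :
    ((∑' γ : Mat, ‖kk γ z w τ‖ : ℝ) : ℂ) = Th (((z.im : ℝ) : ℂ) * Complex.I) w τ := by
  unfold Th
  rw [Complex.ofReal_tsum]
  exact tsum_congr fun γ => (kk_I hThS γ z w τ).symm

lemma bound (hThS : StmtThS) (hTri : StmtTri) (hThI : StmtThI) (z w : ℍ) :
    ∃ C : ℝ, 0 ≤ C ∧ ∀ τ : ℍ, 1 / 2 ≤ τ.im → ∑' γ : Mat, ‖kk γ z w τ‖ ≤ C * τ.im := by
  set iz : ℂ := ((z.im : ℝ) : ℂ) * Complex.I with hiz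
  have hizH : iz ∈ H0 := by
    have : iz.im = z.im := by simp [hiz]
    change 0 < iz.im
    rw [this]
    exact z.im_pos
  have hK : IsCompact ({iz, (w : ℂ)} : Set ℂ) := (Set.toFinite _).isCompact
  have hKs : ({iz, (w : ℂ)} : Set ℂ) ⊆ H0 := by
    intro x hx
    rcases hx with rfl | hx
    · exact hizH
    · rw [mem_singleton_iff] at hx
      rw [hx]
      exact w.im_pos
  obtain ⟨C, c, hC, hc, h⟩ := hThS.2.1 _ hK hKs (1 / 2) (by norm_num)
  refine ⟨C, hC, fun τ hτ => ?_⟩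
  obtain ⟨h1, h2, -⟩ := h τ hτ w (by simp) iz (by simp)
  have e0 : ((∑' γ : Mat, ‖kk γ z w τ‖ : ℝ) : ℂ) = Th τ w iz := by
    rw [th_eq hThS z w τ, (hThI iz w τ hizH w.im_pos τ.im_pos).2.2,
      (hTri iz τ w hizH τ.im_pos w.im_pos), (hThI τ w iz τ.im_pos w.im_pos hizH).2.2]
  have e1 : ‖((∑' γ : Mat, ‖kk γ z w τ‖ : ℝ) : ℂ)‖ ≤ C * (τ : ℂ).im := by
    rw [e0]
    exact (norm_tsum_le_tsum_norm h1).trans h2
  rw [Complex.norm_real] at e1
  exact (le_abs_self _).trans e1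

end

end Pool.Agent.A54.Av.AbsM

namespace Pool.Agent.A54.Av

open MeasureTheory Filter Topology Set
open scoped ContDiff ComplexConjugate UpperHalfPlane MatrixGroups ENNReal
open Pool.Agent.A54.Half (H0 qq ff hh)

noncomputable section

/-- **Abs** absolute convergence -/
theorem stmtAbs (hThS : StmtThS) (hTri : StmtTri) (hThI : StmtThI) (hDec : StmtDec) : StmtAbs := by
  intro f t hf z w
  refine ⟨fun τ => AbsM.summ hThS z w τ, ?_⟩
  obtain ⟨C, hC, hb⟩ := AbsM.bound hThS hTri hThI z w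
  obtain ⟨D, c, hc, hd, -⟩ := hDec f t hf
  have hmeas : Measurable fun τ : ℍ => (∑' γ : Mat, ‖kk γ z w τ‖) * |f τ| :=
    (AbsM.meas z w).mul (AbsM.cont hf).abs.measurable
  have him : ∀ τ ∈ ModularGroup.fdo, 1 / 2 ≤ τ.im := by
    intro τ hτ
    have h2 := ModularGroup.three_lt_four_mul_im_sq_of_mem_fdo hτ
    have := τ.im_pos
    nlinarith
  have hD : 0 ≤ D := by
    have h1 := hd UpperHalfPlane.I (by rw [UpperHalfPlane.I_im]; norm_num)
    have h2 : 0 ≤ D * Real.exp (-(c * UpperHalfPlane.I.im)) := (abs_nonneg _).trans h1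
    exact nonneg_of_mul_nonneg_left h2 (Real.exp_pos _)
  refine IntegrableOn.of_bound SIM.vol_fdo hmeas.aestronglyMeasurable (C * D / c) ?_
  rw [ae_restrict_iff' GIM.isOpen_fdo.measurableSet]
  refine Eventually.of_forall fun τ hτ => ?_
  have h1 := him τ hτ
  have h0 : 0 ≤ ∑' γ : Mat, ‖kk γ z w τ‖ := tsum_nonneg fun _ => norm_nonneg _
  rw [Real.norm_eq_abs, abs_mul, abs_abs, abs_of_nonneg h0]
  have h3 : c * τ.im * Real.exp (-(c * τ.im)) ≤ 1 := by
    have h4 : c * τ.im ≤ Real.exp (c * τ.im) := by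
      have := Real.add_one_le_exp (c * τ.im)
      linarith
    rw [Real.exp_neg, ← div_eq_mul_inv, div_le_one (Real.exp_pos _)]
    exact h4
  calc (∑' γ : Mat, ‖kk γ z w τ‖) * |f τ| ≤ (C * τ.im) * (D * Real.exp (-(c * τ.im))) :=
        mul_le_mul (hb τ h1) (hd τ h1) (abs_nonneg _) (mul_nonneg hC τ.im_pos.le)
    _ = C * D / c * (c * τ.im * Real.exp (-(c * τ.im))) := by field_simp
    _ ≤ C * D / c * 1 := mul_le_mul_of_nonneg_left h3 (by positivity)
    _ = C * D / c := mul_one _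

end

end Pool.Agent.A54.Av
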