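import Pool.Agent.Lib.MP_a54f13_nt.Av.SpecB

/-!
# Package `Av`, module `Ar`: the area lemma
-/

set_option autoImplicit false

namespace Pool.Agent.A54.Av.ArM

open MeasureTheory Filter Topology Set
open scoped ContDiff ComplexConjugate UpperHalfPlane MatrixGroups ENNReal
open Pool.Agent.A54.Half (H0 qq ff hh)

/-- the slices -/
lemma slice (m0 A c q r x : ℝ) (hm : 0 < m0) (_hA : 0 ≤ A) (hc : 1 ≤ |c|) (_hr : 0 ≤ r) :
    volume {y : ℝ | m0 ≤ y ∧ |q - c * (x ^ 2 + y ^ 2)| ≤ A * r} ≤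
      ENNReal.ofReal (A * r / (m0 * |c|)) := by
  have hc0 : 0 < |c| := by linarith
  refine (Real.volume_le_diam _).trans (Metric.ediam_le ?_)
  rintro y1 ⟨h1, h1'⟩ y2 ⟨h2, h2'⟩
  rw [edist_dist, Real.dist_eq]
  apply ENNReal.ofReal_le_ofReal
  rw [le_div_iff₀ (by positivity)]
  have h3 : |c * (y1 ^ 2 - y2 ^ 2)| ≤ 2 * (A * r) := by
    have h4 : c * (y1 ^ 2 - y2 ^ 2) =
        (q - c * (x ^ 2 + y2 ^ 2)) - (q - c * (x ^ 2 + y1 ^ 2)) := by ring
    rw [h4]
    calc |(q - c * (x ^ 2 + y2 ^ 2)) - (q - c * (x ^ 2 + y1 ^ 2))|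
        ≤ |q - c * (x ^ 2 + y2 ^ 2)| + |q - c * (x ^ 2 + y1 ^ 2)| := abs_sub _ _
      _ ≤ 2 * (A * r) := by linarith
  have h5 : |c * (y1 ^ 2 - y2 ^ 2)| = |c| * (|y1 - y2| * (y1 + y2)) := by
    rw [abs_mul, show y1 ^ 2 - y2 ^ 2 = (y1 - y2) * (y1 + y2) by ring, abs_mul,
      abs_of_pos (show 0 < y1 + y2 by linarith)]
  rw [h5] at h3
  have h6 : |y1 - y2| * (2 * m0) ≤ |y1 - y2| * (y1 + y2) :=
    mul_le_mul_of_nonneg_left (by linarith) (abs_nonneg _)
  have h7 := mul_le_mul_of_nonneg_left h6 hc0.le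
  nlinarith [h7, h3]

end Pool.Agent.A54.Av.ArM

namespace Pool.Agent.A54.Av

open MeasureTheory Filter Topology Set
open scoped ContDiff ComplexConjugate UpperHalfPlane MatrixGroups ENNReal
open Pool.Agent.A54.Half (H0 qq ff hh)

/-- **Ar** the area lemma -/
theorem stmtAr : StmtAr := by
  intro K hK hKH A hA
  rcases K.eq_empty_or_nonempty with rfl | hne
  · refine ⟨0, le_rfl, fun c p q r _ _ => ?_⟩
    simp
  obtain ⟨z0, hz0, hmin⟩ := hK.exists_isMinOn hne Complex.continuous_im.continuousOn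
  have hm0 : 0 < z0.im := hKH hz0
  have hmin' : ∀ z ∈ K, z0.im ≤ z.im := fun z hz => hmin hz
  refine ⟨2 * A / z0.im, by positivity, fun c p q r hc hr => ?_⟩
  have hc0 : 0 < |c| := by linarith
  have hcne : c ≠ 0 := fun h => by simp [h] at hc0
  set S : Set (ℝ × ℝ) := {w | |p - 2 * c * w.1| ≤ 2 * r ∧
    (z0.im ≤ w.2 ∧ |q - c * (w.1 ^ 2 + w.2 ^ 2)| ≤ A * r)} with hS
  have hSm : MeasurableSet S := by
    have e1 : IsClosed {w : ℝ × ℝ | |p - 2 * c * w.1| ≤ 2 * r} :=
      isClosed_le (by fun_prop) (by fun_prop)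
    have e2 : IsClosed {w : ℝ × ℝ | z0.im ≤ w.2} := isClosed_le (by fun_prop) (by fun_prop)
    have e3 : IsClosed {w : ℝ × ℝ | |q - c * (w.1 ^ 2 + w.2 ^ 2)| ≤ A * r} :=
      isClosed_le (by fun_prop) (by fun_prop)
    exact (e1.inter (e2.inter e3)).measurableSet
  have h1 : volume {z : ℂ | z ∈ K ∧ |p - 2 * c * z.re| ≤ 2 * r ∧ |q - c * ‖z‖ ^ 2| ≤ A * r} ≤
      volume (Complex.measurableEquivRealProd ⁻¹' S) := by
    apply measure_mono
    rintro z ⟨hzK, hz1, hz2⟩
    refine ⟨?_, ?_, ?_⟩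
    · exact hz1
    · exact hmin' z hzK
    · have h3 : ‖z‖ ^ 2 = z.re ^ 2 + z.im ^ 2 := by
        rw [← Complex.normSq_eq_norm_sq, Complex.normSq_apply]; ring
      rw [h3] at hz2
      exact hz2
  have h2 : volume (Complex.measurableEquivRealProd ⁻¹' S) = volume S :=
    Complex.volume_preserving_equiv_real_prod.measure_preimage hSm.nullMeasurableSet
  have h3 : volume S = ∫⁻ x : ℝ, volume (Prod.mk x ⁻¹' S) := by
    rw [Measure.volume_eq_prod, Measure.prod_apply hSm]
  have h4 : ∀ x : ℝ, volume (Prod.mk x ⁻¹' S) ≤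
      (Icc (p / (2 * c) - r / |c|) (p / (2 * c) + r / |c|)).indicator
        (fun _ => ENNReal.ofReal (A * r / (z0.im * |c|))) x := by
    intro x
    by_cases hx : |p - 2 * c * x| ≤ 2 * r
    · have hx' : x ∈ Icc (p / (2 * c) - r / |c|) (p / (2 * c) + r / |c|) := by
        have h5 : |p / (2 * c) - x| ≤ r / |c| := by
          rw [le_div_iff₀ hc0, ← abs_mul]
          have h6 : (p / (2 * c) - x) * c = (p - 2 * c * x) / 2 := by
            field_simp
          rw [h6, abs_div, abs_of_pos (show (0 : ℝ) < 2 by norm_num)]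
          linarith
        rw [abs_le] at h5
        constructor <;> linarith [h5.1, h5.2]
      rw [indicator_of_mem hx']
      refine (measure_mono ?_).trans (ArM.slice z0.im A c q r x hm0 hA hc hr)
      intro y hy
      exact hy.2
    · have h5 : Prod.mk x ⁻¹' S = ∅ := by
        ext y
        constructor
        · intro hy
          exact (hx hy.1).elim
        · intro hy
          exact hy.elim
      rw [h5, measure_empty]
      exact bot_le
  have h5 : ∫⁻ x : ℝ, volume (Prod.mk x ⁻¹' S) ≤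
      ENNReal.ofReal (A * r / (z0.im * |c|)) * ENNReal.ofReal (2 * r / |c|) := by
    refine (lintegral_mono h4).trans ?_
    rw [lintegral_indicator measurableSet_Icc, lintegral_const, Measure.restrict_apply_univ,
      Real.volume_Icc]
    apply le_of_eq
    congr 2
    ring
  refine h1.trans ?_
  rw [h2, h3]
  refine h5.trans ?_
  rw [← ENNReal.ofReal_mul (by positivity)]
  apply ENNReal.ofReal_le_ofReal
  apply le_of_eq
  have h6 : c ^ 2 = |c| * |c| := by rw [← sq, sq_abs]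
  rw [h6]
  field_simp

end Pool.Agent.A54.Av
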