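import Pool.Agent.Lib.MP_a54f13_nt.Av.SpecA

/-!
# Module Av1: spectral and geometric side together
-/

set_option autoImplicit false

namespace Pool.Agent.A54.Av

open MeasureTheory Filter Topology Set
open scoped ContDiff ComplexConjugate UpperHalfPlane MatrixGroups ENNReal
open Pool.Agent.A54.Half (H0 qq ff hh)

noncomputable section

namespace Av1M

lemma ofReal_int_le {α : Type*} [MeasurableSpace α] (μ : Measure α) (f : α → ℂ) :
    ENNReal.ofReal (∫ x, ‖f x‖ ^ 2 ∂μ) ≤ ∫⁻ x, ‖f x‖ₑ ^ 2 ∂μ := by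
  by_cases h : Integrable (fun x => ‖f x‖ ^ 2) μ
  · rw [ofReal_integral_eq_lintegral_ofReal h (Eventually.of_forall fun x => by positivity)]
    refine le_of_eq (lintegral_congr fun x => ?_)
    rw [ENNReal.ofReal_pow (norm_nonneg _), ofReal_norm]
  · rw [integral_undef h]
    simp

end Av1M

open Av1M in
theorem stmtAv1 (h1 : StmtSI) (h2 : StmtGI) (h3 : StmtPkl) : StmtAv1 := by
  obtain ⟨c, hc, hP⟩ := h3
  refine ⟨Real.pi / (3 * c), by positivity, ?_⟩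
  intro ι _ F t ρ T hF hT ht g hg
  have hT0 : 0 < T := by linarith
  set q := qT T with hq
  have hT2 : (T ^ 2)⁻¹ ≤ 1 / 4 := by
    rw [inv_le_comm₀ (by positivity) (by norm_num)]
    nlinarith
  have hT3 : 0 < (T ^ 2)⁻¹ := by positivity
  have hq0 : 0 < q := by
    rw [hq]
    unfold qT
    exact Real.sqrt_pos.2 (by linarith)
  have hq2 : q ^ 2 = 1 - (T ^ 2)⁻¹ := by
    rw [hq]
    unfold qT
    exact Real.sq_sqrt (by linarith)
  have hq1 : q < 1 := by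
    have : q ^ 2 < 1 ^ 2 := by
      rw [hq2]
      linarith
    exact lt_of_pow_lt_pow_left₀ 2 zero_le_one this
  set N : ℕ := ⌈2 * T ^ 2 + 1⌉₊ with hN
  have hNle : 2 * T ^ 2 + 1 ≤ N := Nat.le_ceil _
  have hG := h2 g hg q hq0 hq1 N
  set X : ι → ℝ := fun i => ∫ z, g z * ext (F i) z ^ 2 with hX
  have hS : ∀ k : ℕ, ∑ i, 48 / Real.pi * (1 / 4 + t i ^ 2) ^ 2 / ‖ρ i‖ ^ 2 * Pk k (t i) *
      X i ^ 2 ≤ ∫ τ in ModularGroup.fdo, ‖Pt k g τ‖ ^ 2 := fun k => h1 ι F t ρ hF g hg k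
  have hsum : ENNReal.ofReal (∑ k ∈ Finset.range N, q ^ (2 * k) *
      ∑ i, 48 / Real.pi * (1 / 4 + t i ^ 2) ^ 2 / ‖ρ i‖ ^ 2 * Pk k (t i) * X i ^ 2) ≤
      GR q g := by
    refine le_trans ?_ hG
    have e : ENNReal.ofReal (∑ k ∈ Finset.range N, q ^ (2 * k) *
        ∫ τ in ModularGroup.fdo, ‖Pt k g τ‖ ^ 2) ≤
        ∑ k ∈ Finset.range N, ENNReal.ofReal (q ^ (2 * k)) *
          ∫⁻ τ in ModularGroup.fdo, ‖Pt k g τ‖ₑ ^ 2 := by
      rw [ENNReal.ofReal_sum_of_nonneg]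
      · refine Finset.sum_le_sum fun k _ => ?_
        rw [ENNReal.ofReal_mul (by positivity)]
        exact mul_le_mul' le_rfl (ofReal_int_le _ _)
      · intro k _
        have : 0 ≤ ∫ τ in ModularGroup.fdo, ‖Pt k g τ‖ ^ 2 :=
          integral_nonneg fun τ => by positivity
        positivity
    refine le_trans (ENNReal.ofReal_le_ofReal ?_) e
    refine Finset.sum_le_sum fun k _ => ?_
    exact mul_le_mul_of_nonneg_left (hS k) (by positivity)
  have hlow : 3 * c * T ^ 4 / Real.pi * ∑ i, wf (t i) (ρ i) * X i ^ 2 ≤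
      ∑ k ∈ Finset.range N, q ^ (2 * k) *
      ∑ i, 48 / Real.pi * (1 / 4 + t i ^ 2) ^ 2 / ‖ρ i‖ ^ 2 * Pk k (t i) * X i ^ 2 := by
    have e1 : ∑ k ∈ Finset.range N, q ^ (2 * k) *
      ∑ i, 48 / Real.pi * (1 / 4 + t i ^ 2) ^ 2 / ‖ρ i‖ ^ 2 * Pk k (t i) * X i ^ 2 =
      ∑ i, 48 / Real.pi * (1 / 4 + t i ^ 2) ^ 2 / ‖ρ i‖ ^ 2 * X i ^ 2 *
        ∑ k ∈ Finset.range N, (1 - (T ^ 2)⁻¹) ^ k * Pk k (t i) := by
      simp_rw [Finset.mul_sum]
      rw [Finset.sum_comm]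
      refine Finset.sum_congr rfl fun i _ => Finset.sum_congr rfl fun k _ => ?_
      rw [pow_mul, hq2]
      ring
    rw [e1, Finset.mul_sum]
    refine Finset.sum_le_sum fun i _ => ?_
    obtain ⟨ht1, ht2⟩ := ht i
    have hti : 0 < t i := by linarith
    have hp := hP T (t i) N hT hti ht2 hNle
    have hcosh : 0 < Real.cosh (Real.pi * t i) := Real.cosh_pos _
    have ht4 : T ^ 4 / 16 ≤ (1 / 4 + t i ^ 2) ^ 2 := by
      have a1 : T ^ 2 / 4 ≤ t i ^ 2 := by nlinarith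
      have a2 : 0 ≤ T ^ 2 / 4 := by positivity
      nlinarith
    have hρ : 0 ≤ (‖ρ i‖ ^ 2)⁻¹ := by positivity
    unfold wf
    calc 3 * c * T ^ 4 / Real.pi * (Real.cosh (Real.pi * t i) / ‖ρ i‖ ^ 2 * X i ^ 2)
        = (48 / Real.pi * (T ^ 4 / 16) * (‖ρ i‖ ^ 2)⁻¹ * X i ^ 2) *
          (c * Real.cosh (Real.pi * t i)) := by
          rw [div_eq_mul_inv (Real.cosh _)]
          ring
      _ ≤ (48 / Real.pi * (1 / 4 + t i ^ 2) ^ 2 * (‖ρ i‖ ^ 2)⁻¹ * X i ^ 2) *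
          (c * Real.cosh (Real.pi * t i)) := by
          refine mul_le_mul_of_nonneg_right ?_ (by positivity)
          refine mul_le_mul_of_nonneg_right ?_ (by positivity)
          refine mul_le_mul_of_nonneg_right ?_ hρ
          exact mul_le_mul_of_nonneg_left ht4 (by positivity)
      _ ≤ (48 / Real.pi * (1 / 4 + t i ^ 2) ^ 2 * (‖ρ i‖ ^ 2)⁻¹ * X i ^ 2) *
          ∑ k ∈ Finset.range N, (1 - (T ^ 2)⁻¹) ^ k * Pk k (t i) :=
          mul_le_mul_of_nonneg_left hp (by positivity)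
      _ = _ := by rw [div_eq_mul_inv (48 / Real.pi * (1 / 4 + t i ^ 2) ^ 2)]
  have hfin : ENNReal.ofReal (3 * c * T ^ 4 / Real.pi * ∑ i, wf (t i) (ρ i) * X i ^ 2) ≤
      GR q g := (ENNReal.ofReal_le_ofReal hlow).trans hsum
  have e2 : (∑ i, wf (t i) (ρ i) * X i ^ 2) = Real.pi / (3 * c) / T ^ 4 *
      (3 * c * T ^ 4 / Real.pi * ∑ i, wf (t i) (ρ i) * X i ^ 2) := by
    have := Real.pi_pos
    field_simp
  rw [e2, ENNReal.ofReal_mul (by positivity)]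
  exact mul_le_mul' le_rfl hfin

end

end Pool.Agent.A54.Av
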