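import Pool.Agent.Lib.MP_a54f13_nt.Av.SpecB

/-!
# Module Sm3: smoothing by Green's formula
-/

set_option autoImplicit false

namespace Pool.Agent.A54.Av

open MeasureTheory Filter Topology Set
open scoped ContDiff ComplexConjugate UpperHalfPlane MatrixGroups ENNReal
open Pool.Agent.A54.Half (H0 qq ff hh)

noncomputable section

namespace Sm3M

variable {γ : Mat} {z : ℂ}

lemma isOpen_H0' : IsOpen H0 := Pool.Agent.A54.Half.isOpen_H0

lemma Vd_nonneg (γ : Mat) (z : ℂ) : 0 ≤ Vd γ z := by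
  unfold Vd VV
  refine div_nonneg (by positivity) ?_
  have : 4 * z.im * z.im = 4 * z.im ^ 2 := by ring
  rw [this]
  positivity

lemma contDiff_im : ContDiff ℝ ∞ (fun z : ℂ => z.im) := Complex.imCLM.contDiff

lemma contDiff_re : ContDiff ℝ ∞ (fun z : ℂ => z.re) := Complex.reCLM.contDiff

lemma contDiffAt_Vd (hz : z ∈ H0) : ContDiffAt ℝ ∞ (Vd γ) z := by
  have hz' : (0 : ℝ) < z.im := hz
  have h1 : ContDiff ℝ ∞ (fun z : ℂ => ((γ 0 0 : ℤ) : ℂ) * z + ((γ 0 1 : ℤ) : ℂ) -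
    z * (((γ 1 0 : ℤ) : ℂ) * z + ((γ 1 1 : ℤ) : ℂ))) := by fun_prop
  have h2 : ContDiff ℝ ∞ (fun z : ℂ => 4 * z.im * z.im) :=
    (contDiff_const.mul contDiff_im).mul contDiff_im
  have h3 : 4 * z.im * z.im ≠ 0 := by positivity
  exact (h1.norm_sq ℝ).contDiffAt.div h2.contDiffAt h3

lemma contDiffAt_bet (hz : z ∈ H0) : ContDiffAt ℝ ∞ (bet γ) z := by
  have hz' : (0 : ℝ) < z.im := hz
  have h1 : ContDiff ℝ ∞ (fun z : ℂ => ((γ 1 0 : ℤ) : ℝ) * ‖z‖ ^ 2 -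
    (((γ 0 0 : ℤ) : ℝ) - ((γ 1 1 : ℤ) : ℝ)) * z.re - ((γ 0 1 : ℤ) : ℝ)) :=
    ((contDiff_const.mul (contDiff_id.norm_sq ℝ)).sub (contDiff_const.mul contDiff_re)).sub
      contDiff_const
  have h2 : ContDiff ℝ ∞ (fun z : ℂ => 2 * z.im) := contDiff_const.mul contDiff_im
  have h3 : 2 * z.im ≠ 0 := by positivity
  exact h1.contDiffAt.div h2.contDiffAt h3

lemma contDiffAt_Aa (hz : z ∈ H0) (hb : bet γ z ≠ 0) : ContDiffAt ℝ ∞ (Aa γ) z := by
  have h1 : ContDiffAt ℝ ∞ (fun z : ℂ => z.im ^ 2 * (((γ.det : ℤ) : ℝ) + Vd γ z)) z :=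
    (contDiff_im.pow 2).contDiffAt.mul (contDiffAt_const.add (contDiffAt_Vd hz))
  have h2 : ContDiffAt ℝ ∞ (fun z : ℂ => 4 * bet γ z ^ 2) z :=
    contDiffAt_const.mul ((contDiffAt_bet hz).pow 2)
  have h3 : 4 * bet γ z ^ 2 ≠ 0 := mul_ne_zero (by norm_num) (pow_ne_zero 2 hb)
  exact h1.div h2 h3

/-- the last factor of the second term -/
def Ga (γ : Mat) (z : ℂ) : ℝ :=
  Vd γ z * ((((γ.det : ℤ) : ℝ) + Vd γ z) / (2 * bet γ z ^ 2) - 1)

lemma contDiffAt_Ga (hz : z ∈ H0) (hb : bet γ z ≠ 0) : ContDiffAt ℝ ∞ (Ga γ) z := by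
  have h1 : ContDiffAt ℝ ∞ (fun z : ℂ => (((γ.det : ℤ) : ℝ) + Vd γ z)) z :=
    contDiffAt_const.add (contDiffAt_Vd hz)
  have h2 : ContDiffAt ℝ ∞ (fun z : ℂ => 2 * bet γ z ^ 2) z :=
    contDiffAt_const.mul ((contDiffAt_bet hz).pow 2)
  have h3 : 2 * bet γ z ^ 2 ≠ 0 := mul_ne_zero (by norm_num) (pow_ne_zero 2 hb)
  exact (contDiffAt_Vd hz).mul ((h1.div h2 h3).sub contDiffAt_const)

/-- the set where everything is smooth -/
def U0 (γ : Mat) : Set ℂ := {z | z ∈ H0 ∧ bet γ z ≠ 0}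

lemma isOpen_U0 (γ : Mat) : IsOpen (U0 γ) := by
  rw [isOpen_iff_eventually]
  rintro z ⟨hz, hb⟩
  have h1 : ∀ᶠ w in 𝓝 z, w ∈ H0 := isOpen_H0'.mem_nhds hz
  have h2 : ∀ᶠ w in 𝓝 z, bet γ w ≠ 0 :=
    (contDiffAt_bet (γ := γ) hz).continuousAt.eventually_ne hb
  filter_upwards [h1, h2] with w hw1 hw2
  exact ⟨hw1, hw2⟩

lemma cut {U : Set ℂ} {χ : ℂ → ℝ} (hχ : TestR U χ) {f : ℂ → ℂ}
    (hf : ∀ z ∈ U, ContDiffAt ℝ ∞ f z) : ContDiff ℝ ∞ (fun z => (χ z : ℂ) * f z) := by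
  rw [contDiff_iff_contDiffAt]
  intro z
  by_cases hz : z ∈ U
  · exact ((contDiff_ofReal hχ.smooth).contDiffAt).mul (hf z hz)
  · have hz' : z ∉ tsupport χ := fun h => hz (hχ.sub h)
    have h0 : (fun z => (χ z : ℂ) * f z) =ᶠ[𝓝 z] fun _ => 0 := by
      filter_upwards [(isClosed_tsupport χ).isOpen_compl.mem_nhds hz'] with w hw
      rw [image_eq_zero_of_notMem_tsupport hw]
      simp
    exact contDiffAt_const.congr_of_eventuallyEq h0

lemma contDiffAt_ofReal {f : ℂ → ℝ} (hf : ContDiffAt ℝ ∞ f z) :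
    ContDiffAt ℝ ∞ (fun z => (f z : ℂ)) z :=
  Complex.ofRealCLM.contDiff.contDiffAt.comp z hf

lemma norm_fderiv_ofReal {f : ℂ → ℝ} (hf : DifferentiableAt ℝ f z) :
    ‖fderiv ℝ (fun z => (f z : ℂ)) z‖ ≤ ‖fderiv ℝ f z‖ := by
  have h : HasFDerivAt (fun z => (f z : ℂ)) (Complex.ofRealCLM.comp (fderiv ℝ f z)) z :=
    Complex.ofRealCLM.hasFDerivAt.comp z hf.hasFDerivAt
  rw [h.fderiv]
  refine (ContinuousLinearMap.opNorm_comp_le _ _).trans ?_
  rw [Complex.ofRealCLM_norm, one_mul]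

lemma dz_congr' {a b : ℂ → ℂ} (h : a =ᶠ[𝓝 z] b) : dz a z = dz b z := by
  unfold dz
  rw [h.fderiv_eq]

lemma dzb_congr' {a b : ℂ → ℂ} (h : a =ᶠ[𝓝 z] b) : dzb a z = dzb b z := by
  unfold dzb
  rw [h.fderiv_eq]

lemma dzb_dz_congr {a b : ℂ → ℂ} (h : a =ᶠ[𝓝 z] b) : dzb (dz a) z = dzb (dz b) z := by
  refine dzb_congr' ?_
  filter_upwards [eventually_eventually_nhds.2 h] with w hw
  exact dz_congr' hw

/-! ### Scaling -/

lemma fderiv_scale {g : ℂ → ℂ} (hg : ContDiff ℝ ∞ g) (r : ℝ) (z0 z v : ℂ) :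
    fderiv ℝ (fun w => g ((r : ℂ)⁻¹ * (w - z0))) z v =
      (r : ℂ)⁻¹ * fderiv ℝ g ((r : ℂ)⁻¹ * (z - z0)) v := by
  have h1 : HasFDerivAt (fun w : ℂ => (r : ℂ)⁻¹ * (w - z0))
      ((r⁻¹ : ℝ) • ContinuousLinearMap.id ℝ ℂ) z := by
    have h2 : HasFDerivAt (fun w : ℂ => (r⁻¹ : ℝ) • (w - z0))
      ((r⁻¹ : ℝ) • ContinuousLinearMap.id ℝ ℂ) z :=
      ((hasFDerivAt_id z).sub_const z0).const_smul (r⁻¹ : ℝ)
    refine h2.congr_of_eventuallyEq (Eventually.of_forall fun w => ?_)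
    simp
  have h3 := ((diffAt (z := (r : ℂ)⁻¹ * (z - z0)) hg).hasFDerivAt).comp z h1
  have h4 : HasFDerivAt (fun w => g ((r : ℂ)⁻¹ * (w - z0)))
    ((fderiv ℝ g ((r : ℂ)⁻¹ * (z - z0))).comp ((r⁻¹ : ℝ) • ContinuousLinearMap.id ℝ ℂ)) z := h3
  rw [h4.fderiv]
  simp

lemma dz_scale {g : ℂ → ℂ} (hg : ContDiff ℝ ∞ g) (r : ℝ) (z0 z : ℂ) :
    dz (fun w => g ((r : ℂ)⁻¹ * (w - z0))) z = (r : ℂ)⁻¹ * dz g ((r : ℂ)⁻¹ * (z - z0)) := by
  unfold dz
  rw [fderiv_scale hg, fderiv_scale hg]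
  ring

lemma dzb_scale {g : ℂ → ℂ} (hg : ContDiff ℝ ∞ g) (r : ℝ) (z0 z : ℂ) :
    dzb (fun w => g ((r : ℂ)⁻¹ * (w - z0))) z = (r : ℂ)⁻¹ * dzb g ((r : ℂ)⁻¹ * (z - z0)) := by
  unfold dzb
  rw [fderiv_scale hg, fderiv_scale hg]
  ring

lemma contDiff_scale {g : ℂ → ℂ} (hg : ContDiff ℝ ∞ g) (r : ℝ) (z0 : ℂ) :
    ContDiff ℝ ∞ (fun w => g ((r : ℂ)⁻¹ * (w - z0))) := by
  refine hg.comp ?_
  fun_prop

section es

variable {η : ℂ → ℝ}

lemma bump_cpt (hη : Bump η) : HasCompactSupport η :=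
  (isCompact_closedBall (0 : ℂ) 1).of_isClosed_subset (isClosed_tsupport _) hη.sub

lemma es_eq (r : ℝ) (z0 w : ℂ) :
    (es η r z0 w : ℂ) = (r : ℂ)⁻¹ ^ 2 * (fun z => (η z : ℂ)) ((r : ℂ)⁻¹ * (w - z0)) := by
  unfold es
  push_cast
  ring

lemma es_fun (r : ℝ) (z0 : ℂ) : (fun w => (es η r z0 w : ℂ)) =
    fun w => (r : ℂ)⁻¹ ^ 2 * (fun z => (η z : ℂ)) ((r : ℂ)⁻¹ * (w - z0)) :=
  funext fun w => es_eq r z0 w

lemma contDiff_es (hη : Bump η) (r : ℝ) (z0 : ℂ) : ContDiff ℝ ∞ (fun w => (es η r z0 w : ℂ)) := by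
  rw [es_fun]
  exact contDiff_const.mul (contDiff_scale (contDiff_ofReal hη.smooth) r z0)

lemma es_zero (hη : Bump η) {r : ℝ} (hr : 0 < r) {z0 w : ℂ} (hw : w ∉ Metric.closedBall z0 r) :
    es η r z0 w = 0 := by
  unfold es
  have h : (r : ℂ)⁻¹ * (w - z0) ∉ tsupport η := by
    intro h
    have h1 := hη.sub h
    rw [mem_closedBall_zero_iff, norm_mul, norm_inv, Complex.norm_real,
      Real.norm_of_nonneg hr.le] at h1
    apply hw
    rw [mem_closedBall_iff_norm]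
    rw [inv_mul_le_iff₀ hr] at h1
    linarith
  rw [image_eq_zero_of_notMem_tsupport h, mul_zero]

/-- bounds for the bump function -/
lemma bump_bounds (hη : Bump η) : ∃ B : ℝ, 0 ≤ B ∧ ∀ (r : ℝ), 0 < r → r ≤ 1 → ∀ z0 w : ℂ,
    ‖(es η r z0 w : ℂ)‖ ≤ B * (r ^ 2)⁻¹ ∧
    ‖(es η r z0 w : ℂ)‖ ≤ B * ((r ^ 2)⁻¹ * (r ^ 2)⁻¹) ∧
    ‖dz (fun w => (es η r z0 w : ℂ)) w‖ ≤ B * ((r ^ 2)⁻¹ * (r ^ 2)⁻¹) ∧
    ‖dzb (fun w => (es η r z0 w : ℂ)) w‖ ≤ B * ((r ^ 2)⁻¹ * (r ^ 2)⁻¹) ∧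
    ‖dz (dzb (fun w => (es η r z0 w : ℂ))) w‖ ≤ B * ((r ^ 2)⁻¹ * (r ^ 2)⁻¹) := by
  have hs := contDiff_ofReal hη.smooth
  have hc : HasCompactSupport (fun z => (η z : ℂ)) :=
    (bump_cpt hη).comp_left (g := fun x : ℝ => (x : ℂ)) (by simp)
  obtain ⟨B1, h1⟩ := hs.continuous.bounded_above_of_compact_support hc
  obtain ⟨B2, h2⟩ := (contDiff_dz hs).continuous.bounded_above_of_compact_support
    (hasCompactSupport_dz hc)
  obtain ⟨B3, h3⟩ := (contDiff_dzb hs).continuous.bounded_above_of_compact_support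
    (hasCompactSupport_dzb hc)
  obtain ⟨B4, h4⟩ := (contDiff_dz (contDiff_dzb hs)).continuous.bounded_above_of_compact_support
    (hasCompactSupport_dz (hasCompactSupport_dzb hc))
  have p1 : 0 ≤ B1 := (norm_nonneg _).trans (h1 0)
  have p2 : 0 ≤ B2 := (norm_nonneg _).trans (h2 0)
  have p3 : 0 ≤ B3 := (norm_nonneg _).trans (h3 0)
  have p4 : 0 ≤ B4 := (norm_nonneg _).trans (h4 0)
  refine ⟨B1 + B2 + B3 + B4, by positivity, fun r hr hr1 z0 w => ?_⟩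
  have hri : 1 ≤ r⁻¹ := (one_le_inv₀ hr).2 hr1
  have hri0 : 0 < r⁻¹ := by positivity
  have hnr : ‖(r : ℂ)⁻¹‖ = r⁻¹ := by
    rw [norm_inv, Complex.norm_real, Real.norm_of_nonneg hr.le]
  have e2 : (r ^ 2)⁻¹ = r⁻¹ ^ 2 := by rw [inv_pow]
  have q2 : (1 : ℝ) ≤ r⁻¹ ^ 2 := one_le_pow₀ hri
  have q24 : r⁻¹ ^ 2 ≤ r⁻¹ ^ 2 * r⁻¹ ^ 2 := by nlinarith
  have q34 : r⁻¹ ^ 3 ≤ r⁻¹ ^ 2 * r⁻¹ ^ 2 := by
    have : r⁻¹ ^ 2 * r⁻¹ ^ 2 = r⁻¹ ^ 3 * r⁻¹ := by ring
    rw [this]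
    exact le_mul_of_one_le_right (by positivity) hri
  have hA : ‖(es η r z0 w : ℂ)‖ ≤ B1 * r⁻¹ ^ 2 := by
    rw [es_eq, norm_mul, norm_pow, hnr, mul_comm]
    exact mul_le_mul_of_nonneg_right (h1 _) (by positivity)
  have hd1 : dz (fun w => (es η r z0 w : ℂ)) w =
      (r : ℂ)⁻¹ ^ 3 * dz (fun z => (η z : ℂ)) ((r : ℂ)⁻¹ * (w - z0)) := by
    rw [es_fun, dz_const_mul _ (contDiff_scale hs r z0), dz_scale hs]
    ring
  have hd2 : ∀ w, dzb (fun w => (es η r z0 w : ℂ)) w =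
      (r : ℂ)⁻¹ ^ 3 * dzb (fun z => (η z : ℂ)) ((r : ℂ)⁻¹ * (w - z0)) := by
    intro w
    rw [es_fun, dzb_const_mul _ (contDiff_scale hs r z0), dzb_scale hs]
    ring
  have hd3 : dz (dzb (fun w => (es η r z0 w : ℂ))) w =
      (r : ℂ)⁻¹ ^ 4 * dz (dzb (fun z => (η z : ℂ))) ((r : ℂ)⁻¹ * (w - z0)) := by
    rw [funext hd2, dz_const_mul _ (contDiff_scale (contDiff_dzb hs) r z0),
      dz_scale (contDiff_dzb hs)]
    ring
  rw [e2]
  refine ⟨?_, ?_, ?_, ?_, ?_⟩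
  · refine hA.trans ?_
    exact mul_le_mul_of_nonneg_right (by linarith) (by positivity)
  · refine hA.trans ?_
    exact mul_le_mul (by linarith) q24 (by positivity) (by positivity)
  · rw [hd1, norm_mul, norm_pow, hnr, mul_comm]
    exact mul_le_mul ((h2 _).trans (by linarith)) q34 (by positivity) (by positivity)
  · rw [hd2, norm_mul, norm_pow, hnr, mul_comm]
    exact mul_le_mul ((h3 _).trans (by linarith)) q34 (by positivity) (by positivity)
  · rw [hd3, norm_mul, norm_pow, hnr, mul_comm]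
    refine mul_le_mul ((h4 _).trans (by linarith)) (le_of_eq (by ring)) (by positivity)
      (by positivity)

end es

lemma exp_bound {k V : ℝ} (hk : 0 < k) (hV : 0 ≤ V) :
    V * Real.exp (-(k * V)) ≤ k⁻¹ * Real.exp (-(k / 2 * V)) := by
  have h1 : k * V ≤ Real.exp (k / 2 * V) := by
    have h2 : k / 4 * V + 1 ≤ Real.exp (k / 4 * V) := Real.add_one_le_exp _
    have h3 : 0 ≤ k / 4 * V := by positivity
    have h4 : Real.exp (k / 2 * V) = Real.exp (k / 4 * V) ^ 2 := by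
      rw [← Real.exp_nat_mul]
      congr 1
      push_cast
      ring
    rw [h4]
    nlinarith [sq_nonneg (k / 4 * V - 1)]
  have h5 : Real.exp (-(k * V)) = Real.exp (-(k / 2 * V)) * Real.exp (-(k / 2 * V)) := by
    rw [← Real.exp_add]
    congr 1
    ring
  have h6 : Real.exp (k / 2 * V) * Real.exp (-(k / 2 * V)) = 1 := by
    rw [← Real.exp_add]
    simp
  have h7 : 0 < Real.exp (-(k / 2 * V)) := Real.exp_pos _
  have h8 : k * V * Real.exp (-(k / 2 * V)) ≤ 1 := by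
    rw [← h6]
    exact mul_le_mul_of_nonneg_right h1 h7.le
  rw [h5]
  have h9 : V * Real.exp (-(k / 2 * V)) ≤ k⁻¹ := by
    rw [← one_div, le_div_iff₀ hk]
    linarith
  calc V * (Real.exp (-(k / 2 * V)) * Real.exp (-(k / 2 * V)))
      = (V * Real.exp (-(k / 2 * V))) * Real.exp (-(k / 2 * V)) := by ring
    _ ≤ _ := mul_le_mul_of_nonneg_right h9 h7.le

end Sm3M

open Sm3M in
theorem stmtSm3 (h1 : StmtSm1) (h2 : StmtSm2) : StmtSm3 := by
  intro η hη K hK hKH ε hε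
  obtain ⟨B, hB0, hB⟩ := bump_bounds hη
  -- the neighbourhood of `K`
  obtain ⟨δ, hδ, hδH⟩ := hK.exists_cthickening_subset_open isOpen_H0' hKH
  obtain ⟨C2, hC20, hC2⟩ := h2 (Metric.cthickening δ K) hK.cthickening hδH ε hε
  refine ⟨10 * B * C2 + B * (C2 / 2 + 1), min δ 1, by positivity, lt_min hδ one_pos, ?_⟩
  intro z0 hz0 r hr hr0 γ hdet hε2 hVs κ hκ
  have hrδ : r ≤ δ := hr0.trans (min_le_left _ _)
  have hr1 : r ≤ 1 := hr0.trans (min_le_right _ _)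
  have hball : Metric.closedBall z0 r ⊆ Metric.cthickening δ K :=
    (Metric.closedBall_subset_closedBall hrδ).trans (Metric.closedBall_subset_cthickening hz0 δ)
  have hballH : Metric.closedBall z0 r ⊆ H0 := hball.trans hδH
  have hS : ∀ z ∈ Metric.closedBall z0 r, bet γ z ≠ 0 ∧
      ((γ.det : ℤ) : ℝ) + Vd γ z ≤ C2 * bet γ z ^ 2 ∧ |Aa γ z| ≤ C2 ∧
      ContDiffAt ℝ ∞ (Aa γ) z ∧ ‖fderiv ℝ (Aa γ) z‖ ≤ C2 ∧
      ‖dzb (dz (fun w => (Aa γ w : ℂ))) z‖ ≤ C2 := fun z hz =>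
    hC2 z (hball hz) γ hdet hε2 (hVs z hz)
  have hballU : Metric.closedBall z0 r ⊆ U0 γ := fun z hz => ⟨hballH hz, (hS z hz).1⟩
  obtain ⟨χ, hχ, -, hχ1⟩ := exists_cutoff (isCompact_closedBall z0 r) (isOpen_U0 γ) hballU
  have hχn : ∀ z ∈ Metric.closedBall z0 r, ∀ᶠ w in 𝓝 z, χ w = 1 := fun z hz =>
    eventually_nhdsSet_iff_forall.1 hχ1 z hz
  -- the functions
  set e : ℂ → ℂ := fun w => (es η r z0 w : ℂ) with he
  set A : ℂ → ℂ := fun w => (χ w : ℂ) * (Aa γ w : ℂ) with hA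
  set G : ℂ → ℂ := fun w => (χ w : ℂ) * (Ga γ w : ℂ) with hG
  set u0 : ℂ → ℂ := fun w => Complex.exp (-(κ * (Vd γ w : ℝ))) with hu0
  set u : ℂ → ℂ := fun w => (χ w : ℂ) * u0 w with hu
  have se : ContDiff ℝ ∞ e := contDiff_es hη r z0
  have sA : ContDiff ℝ ∞ A := cut hχ fun z hz => contDiffAt_ofReal (contDiffAt_Aa hz.1 hz.2)
  have sG : ContDiff ℝ ∞ G := cut hχ fun z hz => contDiffAt_ofReal (contDiffAt_Ga hz.1 hz.2)
  have su : ContDiff ℝ ∞ u := cut hχ fun z hz =>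
    (contDiffAt_const.mul (contDiffAt_ofReal (contDiffAt_Vd hz.1))).neg.cexp
  have e0 : ∀ w, w ∉ Metric.closedBall z0 r → e w = 0 := fun w hw => by
    simp only [he]
    rw [es_zero hη hr hw]
    simp
  have tse : tsupport e ⊆ Metric.closedBall z0 r := by
    refine closure_minimal ?_ Metric.isClosed_closedBall
    intro w hw
    by_contra h
    exact hw (e0 w h)
  have ce : HasCompactSupport e :=
    (isCompact_closedBall z0 r).of_isClosed_subset (isClosed_tsupport _) tse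
  have hAn : ∀ z ∈ Metric.closedBall z0 r, A =ᶠ[𝓝 z] fun w => (Aa γ w : ℂ) := fun z hz => by
    filter_upwards [hχn z hz] with w hw
    simp [hA, hw]
  have hun : ∀ z ∈ Metric.closedBall z0 r, u =ᶠ[𝓝 z] u0 := fun z hz => by
    filter_upwards [hχn z hz] with w hw
    simp [hu, hw]
  have sw : ContDiff ℝ ∞ (fun z => e z * A z) := se.mul sA
  have cw : HasCompactSupport (fun z => e z * A z) := ce.mul_right
  -- the formula for the integrand
  have hF : ∀ z, e z * DD κ ((γ.det : ℤ) : ℝ) (Vd γ z) =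
      -((e z * A z) * dzb (dz u) z) - κ * (e z * G z * u z) := by
    intro z
    by_cases hz : z ∈ Metric.closedBall z0 r
    · rw [h1 γ κ z (hballH hz) (hS z hz).1, dzb_dz_congr (hun z hz)]
      have a1 : A z = (Aa γ z : ℂ) := (hAn z hz).self_of_nhds
      have a2 : u z = u0 z := (hun z hz).self_of_nhds
      have a3 : G z = (Ga γ z : ℂ) := by
        simp only [hG]
        rw [(hχn z hz).self_of_nhds]
        simp
      rw [a1, a2, a3]
      simp only [hu0, Ga]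
      ring
    · rw [e0 z hz]
      ring
  have i1 : Integrable (fun z => (e z * A z) * dzb (dz u) z) :=
    integrable_of_cpt (sw.continuous.mul (contDiff_dzb (contDiff_dz su)).continuous) cw.mul_right
  have i2 : Integrable (fun z => e z * G z * u z) :=
    integrable_of_cpt ((se.continuous.mul sG.continuous).mul su.continuous)
      (ce.mul_right (f' := G)).mul_right
  have hint : ∫ z, e z * DD κ ((γ.det : ℤ) : ℝ) (Vd γ z) =
      -(∫ z, dz (dzb (fun z => e z * A z)) z * u z) - κ * ∫ z, e z * G z * u z := by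
    simp_rw [hF]
    have i1' : Integrable (fun z => -((e z * A z) * dzb (dz u) z)) := i1.neg
    rw [integral_sub i1' (i2.const_mul κ), integral_neg, integral_const_mul,
      integral_mul_dzb sw (contDiff_dz su) (Or.inl cw),
      integral_mul_dz (contDiff_dzb sw) su (Or.inl (hasCompactSupport_dzb cw))]
    ring
  -- the function on the right
  have hVc : ContinuousOn (fun z => Real.exp (-(κ.re / 2 * Vd γ z))) (Metric.closedBall z0 r) := by
    intro z hz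
    have := (contDiffAt_Vd (γ := γ) (hballH hz)).continuousAt
    exact (ContinuousAt.rexp ((continuousAt_const.mul this).neg)).continuousWithinAt
  have hJi : IntegrableOn (fun z => Real.exp (-(κ.re / 2 * Vd γ z))) (Metric.closedBall z0 r) :=
    hVc.integrableOn_compact (isCompact_closedBall z0 r)
  set J : ℝ := ∫ z in Metric.closedBall z0 r, Real.exp (-(κ.re / 2 * Vd γ z)) with hJ
  have key : ∀ (f : ℂ → ℂ) (M : ℝ), (∀ z, z ∉ Metric.closedBall z0 r → f z = 0) →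
      (∀ z ∈ Metric.closedBall z0 r, ‖f z‖ ≤ M * Real.exp (-(κ.re / 2 * Vd γ z))) →
      ‖∫ z, f z‖ ≤ M * J := by
    intro f M hf0 hf
    have hi : Integrable ((Metric.closedBall z0 r).indicator
        (fun z => M * Real.exp (-(κ.re / 2 * Vd γ z)))) :=
      (integrable_indicator_iff Metric.isClosed_closedBall.measurableSet).2 (hJi.const_mul M)
    refine (norm_integral_le_of_norm_le hi (Eventually.of_forall fun z => ?_)).trans ?_
    · by_cases hz : z ∈ Metric.closedBall z0 r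
      · rw [indicator_of_mem hz]
        exact hf z hz
      · rw [indicator_of_notMem hz, hf0 z hz, norm_zero]
    · rw [integral_indicator Metric.isClosed_closedBall.measurableSet, integral_const_mul]
  have hu1 : ∀ z ∈ Metric.closedBall z0 r, ‖u z‖ = Real.exp (-(κ.re * Vd γ z)) := fun z hz => by
    rw [(hun z hz).self_of_nhds]
    simp only [hu0]
    rw [Complex.norm_exp]
    simp
  have hu2 : ∀ z ∈ Metric.closedBall z0 r, ‖u z‖ ≤ Real.exp (-(κ.re / 2 * Vd γ z)) := fun z hz => by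
    rw [hu1 z hz]
    refine Real.exp_le_exp.2 ?_
    nlinarith [Vd_nonneg γ z]
  have hr2 : 0 < (r ^ 2)⁻¹ := by positivity
  -- first term
  have t1 : ‖∫ z, dz (dzb (fun z => e z * A z)) z * u z‖ ≤
      (10 * B * C2 * ((r ^ 2)⁻¹ * (r ^ 2)⁻¹)) * J := by
    refine key _ _ (fun z hz => ?_) fun z hz => ?_
    · rw [dz_eq_zero_of_notMem, zero_mul]
      intro h
      have h' := tsupport_dzb h
      exact hz (tse (tsupport_mul_subset_left h'))
    · rw [norm_mul]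
      refine mul_le_mul ?_ (hu2 z hz) (norm_nonneg _) (by positivity)
      obtain ⟨b1, b2, b3, b4, b5⟩ := hB r hr hr1 z0 z
      obtain ⟨-, -, s3, s4, s5, s6⟩ := hS z hz
      have hexp : dz (dzb (fun z => e z * A z)) z = dz (dzb e) z * A z + dzb e z * dz A z +
          (dz e z * dzb A z + e z * dz (dzb A) z) := by
        have : dzb (fun z => e z * A z) = fun z => dzb e z * A z + e z * dzb A z :=
          funext fun z => dzb_mul se sA
        rw [this, dz_add ((contDiff_dzb se).mul sA) (se.mul (contDiff_dzb sA)),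
          dz_mul (contDiff_dzb se) sA, dz_mul se (contDiff_dzb sA)]
      have c1 : ‖A z‖ ≤ C2 := by
        rw [(hAn z hz).self_of_nhds, Complex.norm_real]
        exact s3
      have cd : DifferentiableAt ℝ (Aa γ) z := s4.differentiableAt (by simp)
      have cf : ‖fderiv ℝ A z‖ ≤ C2 := by
        rw [(hAn z hz).fderiv_eq]
        exact (norm_fderiv_ofReal cd).trans s5
      have c2 : ‖dz A z‖ ≤ 2 * C2 := norm_dz_le.trans (by linarith)
      have c3 : ‖dzb A z‖ ≤ 2 * C2 := norm_dzb_le.trans (by linarith)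
      have c4 : ‖dz (dzb A) z‖ ≤ C2 := by
        rw [dz_dzb_comm sA, dzb_dz_congr (hAn z hz)]
        exact s6
      set R : ℝ := (r ^ 2)⁻¹ * (r ^ 2)⁻¹ with hR
      have hR0 : 0 ≤ R := by positivity
      have m1 : ‖dz (dzb e) z * A z‖ ≤ B * R * C2 := by
        rw [norm_mul]
        exact mul_le_mul b5 c1 (norm_nonneg _) (by positivity)
      have m2 : ‖dzb e z * dz A z‖ ≤ B * R * (2 * C2) := by
        rw [norm_mul]
        exact mul_le_mul b4 c2 (norm_nonneg _) (by positivity)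
      have m3 : ‖dz e z * dzb A z‖ ≤ B * R * (2 * C2) := by
        rw [norm_mul]
        exact mul_le_mul b3 c3 (norm_nonneg _) (by positivity)
      have m4 : ‖e z * dz (dzb A) z‖ ≤ B * R * C2 := by
        rw [norm_mul]
        exact mul_le_mul b2 c4 (norm_nonneg _) (by positivity)
      rw [hexp]
      refine (norm_add_le _ _).trans ?_
      have n1 := norm_add_le (dz (dzb e) z * A z) (dzb e z * dz A z)
      have n2 := norm_add_le (dz e z * dzb A z) (e z * dz (dzb A) z)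
      have hp : 0 ≤ B * R * C2 := by positivity
      nlinarith
  -- second term
  have t2 : ‖∫ z, e z * G z * u z‖ ≤ (B * (C2 / 2 + 1) * (r ^ 2)⁻¹ * κ.re⁻¹) * J := by
    refine key _ _ (fun z hz => ?_) fun z hz => ?_
    · rw [e0 z hz]
      ring
    · obtain ⟨b1, b2, b3, b4, b5⟩ := hB r hr hr1 z0 z
      obtain ⟨s1, s2, -, -, -, -⟩ := hS z hz
      have hV := Vd_nonneg γ z
      have hn : (1 : ℝ) ≤ ((γ.det : ℤ) : ℝ) := by exact_mod_cast hdet
      have hG1 : ‖G z‖ ≤ Vd γ z * (C2 / 2 + 1) := by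
        have a3 : G z = (Ga γ z : ℂ) := by
          simp only [hG]
          rw [(hχn z hz).self_of_nhds]
          simp
        rw [a3, Complex.norm_real, Real.norm_eq_abs]
        unfold Ga
        rw [abs_mul, abs_of_nonneg hV]
        refine mul_le_mul_of_nonneg_left ?_ hV
        have hb2 : 0 < bet γ z ^ 2 := by positivity
        have hq1 : (((γ.det : ℤ) : ℝ) + Vd γ z) / (2 * bet γ z ^ 2) ≤ C2 / 2 := by
          rw [div_le_iff₀ (by positivity)]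
          nlinarith
        have hq2 : 0 ≤ (((γ.det : ℤ) : ℝ) + Vd γ z) / (2 * bet γ z ^ 2) := by positivity
        rw [abs_le]
        constructor <;> linarith
      rw [norm_mul, norm_mul, hu1 z hz]
      have hx := exp_bound hκ hV
      have hpos : 0 ≤ Real.exp (-(κ.re * Vd γ z)) := (Real.exp_pos _).le
      calc ‖e z‖ * ‖G z‖ * Real.exp (-(κ.re * Vd γ z))
          ≤ (B * (r ^ 2)⁻¹) * (Vd γ z * (C2 / 2 + 1)) * Real.exp (-(κ.re * Vd γ z)) := by
            refine mul_le_mul_of_nonneg_right ?_ hpos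
            exact mul_le_mul b1 hG1 (norm_nonneg _) (by positivity)
        _ = (B * (C2 / 2 + 1) * (r ^ 2)⁻¹) * (Vd γ z * Real.exp (-(κ.re * Vd γ z))) := by ring
        _ ≤ (B * (C2 / 2 + 1) * (r ^ 2)⁻¹) * (κ.re⁻¹ * Real.exp (-(κ.re / 2 * Vd γ z))) :=
            mul_le_mul_of_nonneg_left hx (by positivity)
        _ = _ := by ring
  have hJ0 : 0 ≤ J := by
    refine setIntegral_nonneg Metric.isClosed_closedBall.measurableSet fun z _ => ?_
    exact (Real.exp_pos _).le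
  have hlast : ‖∫ z, e z * DD κ ((γ.det : ℤ) : ℝ) (Vd γ z)‖ ≤
      (10 * B * C2 * ((r ^ 2)⁻¹ * (r ^ 2)⁻¹)) * J +
        ‖κ‖ * ((B * (C2 / 2 + 1) * (r ^ 2)⁻¹ * κ.re⁻¹) * J) := by
    rw [hint]
    refine (norm_sub_le _ _).trans ?_
    rw [norm_neg, norm_mul]
    exact add_le_add t1 (mul_le_mul_of_nonneg_left t2 (norm_nonneg _))
  refine hlast.trans ?_
  have hk0 : 0 ≤ ‖κ‖ / κ.re := by positivity
  have x1 : 0 ≤ 10 * B * C2 := by positivity
  have x2 : 0 ≤ B * (C2 / 2 + 1) := by positivity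
  have y1 : 0 ≤ (r ^ 2)⁻¹ * J := by positivity
  have id1 : (10 * B * C2 * ((r ^ 2)⁻¹ * (r ^ 2)⁻¹)) * J +
        ‖κ‖ * ((B * (C2 / 2 + 1) * (r ^ 2)⁻¹ * κ.re⁻¹) * J) =
      (10 * B * C2 * (r ^ 2)⁻¹ + B * (C2 / 2 + 1) * (‖κ‖ / κ.re)) * ((r ^ 2)⁻¹ * J) := by
    rw [div_eq_mul_inv]
    ring
  rw [id1]
  refine mul_le_mul_of_nonneg_right ?_ y1
  nlinarith [mul_nonneg x1 hk0, mul_nonneg x2 hr2.le]

end

end Pool.Agent.A54.Av
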