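import Pool.Agent.Lib.MP_a54f13_nt.Av.SpecB
import Pool.Agent.Lib.MP_a54f13_nt.Av.Sm3

/-!
# Module Avg: averages are bounded in mean square
-/

set_option autoImplicit false

namespace Pool.Agent.A54.Av

open MeasureTheory Filter Topology Set
open scoped ContDiff ComplexConjugate UpperHalfPlane MatrixGroups ENNReal
open Pool.Agent.A54.Half (H0 qq ff hh)

noncomputable section

namespace AvgM

lemma sq_lintegral_le {k F : ℂ → ℝ≥0∞} (hk : Measurable k) (hF : Measurable F) :
    (∫⁻ z, k z * F z) ^ 2 ≤ (∫⁻ z, k z) * ∫⁻ z, k z * F z ^ 2 := by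
  have h := ENNReal.lintegral_mul_le_Lp_mul_Lq (volume : Measure ℂ)
    (Real.HolderConjugate.two_two) (f := fun z => k z ^ (1 / 2 : ℝ))
    (g := fun z => k z ^ (1 / 2 : ℝ) * F z) (hk.pow_const _).aemeasurable
    ((hk.pow_const _).mul hF).aemeasurable
  have e0 : ∀ x : ℝ≥0∞, x ^ (1 / 2 : ℝ) * x ^ (1 / 2 : ℝ) = x := by
    intro x
    rw [← ENNReal.rpow_add_of_nonneg _ _ (by norm_num) (by norm_num)]
    norm_num
  have e1 : ∀ z, ((fun z => k z ^ (1 / 2 : ℝ)) * fun z => k z ^ (1 / 2 : ℝ) * F z) z =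
      k z * F z := by
    intro z
    simp only [Pi.mul_apply]
    rw [← mul_assoc, e0]
  have e2 : ∀ z, (k z ^ (1 / 2 : ℝ)) ^ (2 : ℝ) = k z := by
    intro z
    rw [← ENNReal.rpow_mul]
    norm_num
  have e3 : ∀ z, (k z ^ (1 / 2 : ℝ) * F z) ^ (2 : ℝ) = k z * F z ^ 2 := by
    intro z
    rw [ENNReal.mul_rpow_of_nonneg _ _ (by norm_num), e2]
    norm_cast
  simp only [e2, e3] at h
  have h' : ∫⁻ z, k z * F z ≤ (∫⁻ z, k z) ^ (1 / 2 : ℝ) * (∫⁻ z, k z * F z ^ 2) ^ (1 / 2 : ℝ) := by
    refine le_trans (le_of_eq ?_) h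
    exact lintegral_congr fun z => (e1 z).symm
  calc (∫⁻ z, k z * F z) ^ 2
      ≤ ((∫⁻ z, k z) ^ (1 / 2 : ℝ) * (∫⁻ z, k z * F z ^ 2) ^ (1 / 2 : ℝ)) ^ 2 := by gcongr
    _ = _ := by
      rw [mul_pow, pow_two, e0, pow_two, e0]

lemma gen {k : ℂ → ℂ → ℝ≥0∞} (hk : Measurable (Function.uncurry k)) (A : ℝ≥0∞)
    (h1 : ∀ z0, ∫⁻ z, k z0 z ≤ A) (h2 : ∀ z, ∫⁻ z0, k z0 z ≤ A) {K K' : Set ℂ}
    (hK : MeasurableSet K) (hK' : MeasurableSet K') (hs : ∀ z0 ∈ K, ∀ z, z ∉ K' → k z0 z = 0)
    {F : ℂ → ℝ≥0∞} (hF : Measurable F) :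
    ∫⁻ z0 in K, (∫⁻ z, k z0 z * F z) ^ 2 ≤ A * (A * ∫⁻ z in K', F z ^ 2) := by
  have hk1 : ∀ z0, Measurable (k z0) := fun z0 => hk.comp measurable_prodMk_left
  have hk2 : ∀ z, Measurable (fun z0 => k z0 z) := fun z => hk.comp measurable_prodMk_right
  set G : ℂ → ℝ≥0∞ := K'.indicator (fun z => F z ^ 2) with hG
  have hGm : Measurable G := (hF.pow_const 2).indicator hK'
  calc ∫⁻ z0 in K, (∫⁻ z, k z0 z * F z) ^ 2
      ≤ ∫⁻ z0 in K, A * ∫⁻ z, k z0 z * G z := by
        refine setLIntegral_mono' hK fun z0 hz0 => ?_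
        refine (sq_lintegral_le (hk1 z0) hF).trans ?_
        refine mul_le_mul' (h1 z0) (le_of_eq ?_)
        refine lintegral_congr fun z => ?_
        by_cases hz : z ∈ K'
        · simp [hG, hz]
        · rw [hs z0 hz0 z hz]
          simp
    _ ≤ ∫⁻ z0, A * ∫⁻ z, k z0 z * G z := setLIntegral_le_lintegral _ _
    _ = A * ∫⁻ z0, ∫⁻ z, k z0 z * G z := by
        refine lintegral_const_mul _ ?_
        exact (hk.mul (hGm.comp measurable_snd)).lintegral_prod_right
    _ = A * ∫⁻ z, ∫⁻ z0, k z0 z * G z := by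
        congr 1
        refine lintegral_lintegral_swap ?_
        exact (hk.mul (hGm.comp measurable_snd)).aemeasurable
    _ ≤ A * ∫⁻ z, A * G z := by
        gcongr with z
        rw [lintegral_mul_const _ (hk2 z)]
        exact mul_le_mul' (h2 z) le_rfl
    _ = A * (A * ∫⁻ z in K', F z ^ 2) := by
        rw [lintegral_const_mul _ hGm, hG, lintegral_indicator hK']

variable {η : ℂ → ℝ}

lemma continuous_es (hη : Bump η) (r : ℝ) : Continuous (fun p : ℂ × ℂ => es η r p.1 p.2) := by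
  unfold es
  refine continuous_const.mul (hη.smooth.continuous.comp ?_)
  fun_prop

lemma es_nonneg (hη : Bump η) {r : ℝ} (z0 z : ℂ) : 0 ≤ es η r z0 z :=
  mul_nonneg (by positivity) (hη.nonneg _)

/-- the scaled bump function has integral one -/
lemma lint_scale (hη : Bump η) {r : ℝ} (hr : 0 < r) :
    ∫⁻ z : ℂ, ENNReal.ofReal ((r ^ 2)⁻¹ * η ((r : ℂ)⁻¹ * z)) = 1 := by
  have hc : HasCompactSupport η := Sm3M.bump_cpt hη
  have hi : Integrable η := hη.smooth.continuous.integrable_of_hasCompactSupport hc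
  have e1 : ∀ z : ℂ, η ((r : ℂ)⁻¹ * z) = η (r⁻¹ • z) := by
    intro z
    congr 1
    rw [Complex.real_smul]
    push_cast
    ring
  have hi2 : Integrable (fun z : ℂ => (r ^ 2)⁻¹ * η ((r : ℂ)⁻¹ * z)) := by
    simp_rw [e1]
    exact ((integrable_comp_smul_iff volume η (inv_ne_zero hr.ne')).2 hi).const_mul _
  rw [← ofReal_integral_eq_lintegral_ofReal hi2
    (Eventually.of_forall fun z => mul_nonneg (by positivity) (hη.nonneg _)),
    integral_const_mul]
  simp_rw [e1]
  rw [Measure.integral_comp_smul, Complex.finrank_real_complex, hη.one]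
  have : (r ^ 2)⁻¹ * r ^ 2 = 1 := inv_mul_cancel₀ (by positivity)
  simp [this]

end AvgM

open AvgM in
theorem stmtAvg : StmtAvg := by
  intro η hη K K' hK hK' r hr hKK F hF
  constructor
  · have h1 : ∀ z0 : ℂ, ∫⁻ z, ENNReal.ofReal (es η r z0 z) ≤ 1 := by
      intro z0
      have := lintegral_sub_right_eq_self (μ := (volume : Measure ℂ))
        (fun z : ℂ => ENNReal.ofReal ((r ^ 2)⁻¹ * η ((r : ℂ)⁻¹ * z))) z0
      unfold es
      rw [this, lint_scale hη hr]
    have h2 : ∀ z : ℂ, ∫⁻ z0, ENNReal.ofReal (es η r z0 z) ≤ 1 := by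
      intro z
      have := lintegral_sub_left_eq_self (μ := (volume : Measure ℂ))
        (fun z : ℂ => ENNReal.ofReal ((r ^ 2)⁻¹ * η ((r : ℂ)⁻¹ * z))) z
      unfold es
      rw [this, lint_scale hη hr]
    have := gen (k := fun z0 z => ENNReal.ofReal (es η r z0 z))
      ((continuous_es hη r).measurable.ennreal_ofReal) 1 h1 h2 hK.measurableSet hK'
      (fun z0 hz0 z hz => by
        rw [Sm3M.es_zero hη hr (fun h => hz (hKK z0 hz0 h))]
        simp) hF
    simpa using this
  · set k : ℂ → ℂ → ℝ≥0∞ := fun z0 z => ENNReal.ofReal (r ^ 2)⁻¹ *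
      ({p : ℂ × ℂ | dist p.2 p.1 ≤ r}.indicator (fun _ => 1) (z0, z)) with hkd
    have hset : MeasurableSet {p : ℂ × ℂ | dist p.2 p.1 ≤ r} :=
      (isClosed_le (by fun_prop) continuous_const).measurableSet
    have hkm : Measurable (Function.uncurry k) :=
      (measurable_const.indicator hset).const_mul _
    have hvol : ∀ z0 : ℂ, ENNReal.ofReal (r ^ 2)⁻¹ * volume (Metric.closedBall z0 r) ≤
        ENNReal.ofReal Real.pi := by
      intro z0
      rw [Complex.volume_closedBall]
      have e : (NNReal.pi : ℝ≥0∞) = ENNReal.ofReal Real.pi := by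
        rw [← NNReal.coe_real_pi, ENNReal.ofReal_coe_nnreal]
      rw [e, ← mul_assoc, ← ENNReal.ofReal_pow hr.le, ← ENNReal.ofReal_mul (by positivity),
        inv_mul_cancel₀ (by positivity), ENNReal.ofReal_one, one_mul]
    have h1 : ∀ z0 : ℂ, ∫⁻ z, k z0 z ≤ ENNReal.ofReal Real.pi := by
      intro z0
      refine le_trans (le_of_eq ?_) (hvol z0)
      rw [← lintegral_indicator_one Metric.isClosed_closedBall.measurableSet,
        ← lintegral_const_mul _ (measurable_one.indicator Metric.isClosed_closedBall.measurableSet)]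
      refine lintegral_congr fun z => ?_
      by_cases hz : dist z z0 ≤ r
      · simp [hkd, hz]
      · simp [hkd, hz]
    have h2 : ∀ z : ℂ, ∫⁻ z0, k z0 z ≤ ENNReal.ofReal Real.pi := by
      intro z
      refine le_trans (le_of_eq ?_) (hvol z)
      rw [← lintegral_indicator_one Metric.isClosed_closedBall.measurableSet,
        ← lintegral_const_mul _ (measurable_one.indicator Metric.isClosed_closedBall.measurableSet)]
      refine lintegral_congr fun z0 => ?_
      by_cases hz : dist z z0 ≤ r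
      · simp [hkd, hz, dist_comm z0 z]
      · simp [hkd, hz, dist_comm z0 z]
    have hg := gen hkm (ENNReal.ofReal Real.pi) h1 h2 hK.measurableSet hK'
      (fun z0 hz0 z hz => by
        have : ¬ dist z z0 ≤ r := fun h => hz (hKK z0 hz0 (Metric.mem_closedBall.2 h))
        simp [hkd, this]) hF
    refine le_trans (le_of_eq ?_) (hg.trans ?_)
    · refine lintegral_congr fun z0 => ?_
      congr 1
      rw [← lintegral_indicator Metric.isClosed_closedBall.measurableSet,
        ← lintegral_const_mul _ (hF.indicator Metric.isClosed_closedBall.measurableSet)]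
      refine lintegral_congr fun z => ?_
      by_cases hz : dist z z0 ≤ r
      · simp [hkd, hz]
      · simp [hkd, hz]
    · rw [← mul_assoc, ← ENNReal.ofReal_mul Real.pi_pos.le]
      refine mul_le_mul' ?_ le_rfl
      have : Real.pi * Real.pi ≤ 10 := by
        have := Real.pi_lt_d2
        have := Real.pi_pos
        nlinarith
      calc ENNReal.ofReal (Real.pi * Real.pi) ≤ ENNReal.ofReal 10 := ENNReal.ofReal_le_ofReal this
        _ = 10 := by norm_num

end

end Pool.Agent.A54.Av
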