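import Pool.Agent.Lib.MP_a54f13_nt.Av.SpecC

/-!
# Module Ca: the differences with `p1 = p2`
-/

set_option autoImplicit false

namespace Pool.Agent.A54.Av.CaM

open Pool.Agent.A54.Av

noncomputable section

/-- counting by fibres, constant bound -/
theorem card_le_mul {α β : Type*} [DecidableEq α] [DecidableEq β] (S : Finset α) (f : α → β)
    (k : ℝ) (h : ∀ b ∈ S.image f, ((S.filter (fun x => f x = b)).card : ℝ) ≤ k) :
    (S.card : ℝ) ≤ k * ((S.image f).card : ℝ) := by
  rw [Finset.card_eq_sum_card_image f S]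
  push_cast
  refine (Finset.sum_le_sum h).trans ?_
  rw [Finset.sum_const, nsmul_eq_mul]
  linarith

/-- the image of a pair of maps -/
theorem card_pair {α β γ : Type*} [DecidableEq β] [DecidableEq γ] (S : Finset α)
    (f : α → β) (g : α → γ) :
    ((S.image (fun x => (f x, g x))).card : ℝ) ≤ ((S.image f).card : ℝ) * (S.image g).card := by
  have h : S.image (fun x => (f x, g x)) ⊆ (S.image f) ×ˢ (S.image g) := by
    intro y hy
    obtain ⟨x, hx, rfl⟩ := Finset.mem_image.mp hy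
    exact Finset.mem_product.mpr ⟨Finset.mem_image_of_mem _ hx, Finset.mem_image_of_mem _ hx⟩
  have h2 := Finset.card_le_card h
  rw [Finset.card_product] at h2
  exact_mod_cast h2

/-- the number of `q` -/
theorem qcount (H ρ : ℕ) (c1 c2 : ℤ) (hH : 1 ≤ H) (hρ : 1 ≤ ρ) (hc1 : (H : ℤ) ≤ c1)
    (_hc2 : (H : ℤ) ≤ c2) (hne : c1 < c2) (Q : Finset (ℤ × ℤ))
    (h1 : ∀ q ∈ Q, ∀ r ∈ Q, (q.1 - r.1) * c1 = (q.2 - r.2) * c2)
    (h2 : ∀ q ∈ Q, |q.1 * c2 - q.2 * c1| ≤ 2 * ρ * H) : (Q.card : ℝ) ≤ 3 * ρ := by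
  have hρr : (1 : ℝ) ≤ ρ := by exact_mod_cast hρ
  have hH0 : (1 : ℤ) ≤ H := by exact_mod_cast hH
  rcases Q.eq_empty_or_nonempty with rfl | ⟨q0, hq0⟩
  · simp only [Finset.card_empty, Nat.cast_zero]; positivity
  have hpos : 0 < Int.gcd c1 c2 := Int.gcd_pos_of_ne_zero_left _ (by omega)
  obtain ⟨a, b, hab, ha, hb⟩ := Int.exists_gcd_one hpos
  set g : ℕ := Int.gcd c1 c2 with hg
  have hg1 : (1 : ℤ) ≤ g := by exact_mod_cast hpos
  have hcop : IsCoprime a b := Int.isCoprime_iff_gcd_eq_one.mpr hab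
  have ha0 : 0 < a := by
    by_contra hcon
    push Not at hcon
    have : a * g ≤ 0 := mul_nonpos_of_nonpos_of_nonneg hcon (by linarith)
    omega
  have hb0 : 0 < b := by
    by_contra hcon
    push Not at hcon
    have : b * g ≤ 0 := mul_nonpos_of_nonpos_of_nonneg hcon (by linarith)
    omega
  have hba : a < b := by
    by_contra hcon
    push Not at hcon
    have : b * g ≤ a * g := mul_le_mul_of_nonneg_right hcon (by linarith)
    omega
  -- differences
  have hw : ∀ q ∈ Q, ∀ r ∈ Q, ∃ t : ℤ, q.1 - r.1 = b * t ∧ q.2 - r.2 = a * t ∧ |t| ≤ 2 * ρ := by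
    intro q hq r hr
    have e1 := h1 q hq r hr
    rw [ha, hb] at e1
    have e2 : (q.1 - r.1) * a = (q.2 - r.2) * b := by
      have : ((q.1 - r.1) * a - (q.2 - r.2) * b) * g = 0 := by linear_combination e1
      rcases mul_eq_zero.mp this with h | h
      · linarith
      · omega
    have hdvd : b ∣ (q.1 - r.1) := by
      have : b ∣ (q.1 - r.1) * a := ⟨q.2 - r.2, by linarith⟩
      exact hcop.symm.dvd_of_dvd_mul_right this
    obtain ⟨t, ht⟩ := hdvd
    have ht2 : q.2 - r.2 = a * t := by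
      rw [ht] at e2
      have : b * (q.2 - r.2 - a * t) = 0 := by linear_combination (-1 : ℤ) * e2
      rcases mul_eq_zero.mp this with h | h
      · omega
      · linarith
    refine ⟨t, ht, ht2, ?_⟩
    have e3 : (q.1 - r.1) * c2 - (q.2 - r.2) * c1 = t * (b - a) * (c1 + c2) := by
      rw [ht, ht2, ha, hb]; ring
    have e4 : |(q.1 - r.1) * c2 - (q.2 - r.2) * c1| ≤ 4 * ρ * H := by
      have i1 := abs_le.mp (h2 q hq)
      have i2 := abs_le.mp (h2 r hr)
      rw [abs_le]
      constructor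
      · linarith [i1.1, i2.2]
      · linarith [i1.2, i2.1]
    rw [e3, abs_mul, abs_mul, abs_of_pos (by linarith : 0 < b - a),
      abs_of_pos (by linarith : 0 < c1 + c2)] at e4
    have e5 : |t| * 1 * (2 * H) ≤ |t| * (b - a) * (c1 + c2) := by
      have : 0 ≤ |t| := abs_nonneg t
      have h11 : |t| * 1 ≤ |t| * (b - a) := mul_le_mul_of_nonneg_left (by linarith) this
      exact mul_le_mul h11 (by linarith) (by linarith) (mul_nonneg this (by linarith))
    have e6 : |t| * (2 * H) ≤ (2 * ρ) * (2 * H) := by linarith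
    exact le_of_mul_le_mul_right e6 (by linarith)
  -- the parameter
  have hinj : Set.InjOn (fun q : ℤ × ℤ => (q.1 - q0.1) / b) (Q : Set (ℤ × ℤ)) := by
    intro q hq r hr hqr
    obtain ⟨t, ht, ht', _⟩ := hw q hq q0 hq0
    obtain ⟨s, hs, hs', _⟩ := hw r hr q0 hq0
    have e : (q.1 - q0.1) / b = (r.1 - q0.1) / b := hqr
    rw [ht, hs, Int.mul_ediv_cancel_left _ hb0.ne', Int.mul_ediv_cancel_left _ hb0.ne'] at e
    subst e
    exact Prod.ext (by linarith) (by linarith)
  have hcard := Finset.card_image_of_injOn hinj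
  rw [← hcard]
  refine (card_int_le _ (2 * ρ) (by positivity) ?_).trans (by linarith)
  intro x hx y hy
  obtain ⟨q, hq, rfl⟩ := Finset.mem_image.mp hx
  obtain ⟨r, hr, rfl⟩ := Finset.mem_image.mp hy
  obtain ⟨t, ht, ht', _⟩ := hw q hq q0 hq0
  obtain ⟨s, hs, hs', _⟩ := hw r hr q0 hq0
  obtain ⟨k, hk, hk', hk2⟩ := hw q hq r hr
  have e : t - s = k := by
    have : b * (t - s - k) = 0 := by linear_combination hs - ht + hk
    rcases mul_eq_zero.mp this with h | h
    · omega
    · linarith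
  change ((|(q.1 - q0.1) / b - (r.1 - q0.1) / b| : ℤ) : ℝ) ≤ _
  rw [ht, hs, Int.mul_ediv_cancel_left _ hb0.ne', Int.mul_ediv_cancel_left _ hb0.ne', e]
  exact_mod_cast hk2

end

end Pool.Agent.A54.Av.CaM

namespace Pool.Agent.A54.Av

open Pool.Agent.A54.Av.CaM

/-- **Ca** -/
theorem stmtCa : StmtCa := by
  refine ⟨3 * 5 * 21, 4, by norm_num, ?_⟩
  intro H η δ E ρ hP S hS
  have hρ : (1 : ℝ) ≤ ρ := by exact_mod_cast hP.rho
  have hH1 : 1 ≤ H := le_trans hP.eta hP.etaH
  have hH : (1 : ℝ) ≤ H := by exact_mod_cast hH1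
  have hη : (1 : ℝ) ≤ η := by exact_mod_cast hP.eta
  have hηH : (η : ℝ) ≤ H := by exact_mod_cast hP.etaH
  have hηδ : (η : ℝ) ≤ δ := by exact_mod_cast hP.del
  have hHE : (H : ℝ) ≤ E := by exact_mod_cast hP.EH
  have hηz : (1 : ℤ) ≤ η := by exact_mod_cast hP.eta
  have hfib : (S.card : ℝ) ≤ (3 * ρ) *
      ((S.image (fun x => (x.p1, (x.c1, (x.c2 - x.c1, (x.d2, x.d1 - x.d2)))))).card : ℝ) := by
    refine card_le_mul S _ _ fun y hy => ?_
    set F := S.filter (fun x => (x.p1, (x.c1, (x.c2 - x.c1, (x.d2, x.d1 - x.d2)))) = y) with hF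
    have hFS : ∀ x ∈ F, x ∈ S ∧ x.p1 = y.1 ∧ x.c1 = y.2.1 ∧ x.c2 - x.c1 = y.2.2.1 ∧
        x.d2 = y.2.2.2.1 ∧ x.d1 - x.d2 = y.2.2.2.2 := by
      intro x hx
      obtain ⟨hx1, hx2⟩ := Finset.mem_filter.mp hx
      rw [← hx2]
      exact ⟨hx1, rfl, rfl, rfl, rfl, rfl⟩
    rcases F.eq_empty_or_nonempty with hemp | ⟨x0, hx0⟩
    · rw [hemp]; simp only [Finset.card_empty, Nat.cast_zero]; positivity
    have hinj : Set.InjOn (fun x : O8 => (x.q1, x.q2)) (F : Set O8) := by
      intro x hx z hz hxz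
      obtain ⟨a0, a1, a2, a3, a4, a5⟩ := hFS x hx
      obtain ⟨b0, b1, b2, b3, b4, b5⟩ := hFS z hz
      have hx2 := (hS x a0).2
      have hz2 := (hS z b0).2
      have e1 := (Prod.ext_iff.mp hxz).1
      have e2 := (Prod.ext_iff.mp hxz).2
      simp only at e1 e2
      cases x
      cases z
      simp only at *
      simp only [O8.mk.injEq]
      refine ⟨?_, ?_, ?_, ?_, ?_, ?_, e1, e2⟩ <;> omega
    rw [← Finset.card_image_of_injOn hinj]
    obtain ⟨k0, k1, k2, k3, k4, k5⟩ := hFS x0 hx0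
    have hb0 := (hS x0 k0).1
    refine qcount H ρ x0.c1 x0.c2 hH1 hP.rho hb0.cc.l1 hb0.cc.l2 ?_ _ ?_ ?_
    · have := hb0.cc.hl
      omega
    · intro q hq r hr
      obtain ⟨x, hx, rfl⟩ := Finset.mem_image.mp hq
      obtain ⟨z, hz, rfl⟩ := Finset.mem_image.mp hr
      obtain ⟨a0, a1, a2, a3, a4, a5⟩ := hFS x hx
      obtain ⟨b0, b1, b2, b3, b4, b5⟩ := hFS z hz
      have hx1 := (hS x a0)
      have hz1 := (hS z b0)
      have ex := hx1.1.eq
      have ez := hz1.1.eq
      have f1 : x.c1 = x0.c1 := by omega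
      have f2 : x.c2 = x0.c2 := by omega
      have f3 : z.c1 = x0.c1 := by omega
      have f4 : z.c2 = x0.c2 := by omega
      have f5 : x.p1 = z.p1 := by omega
      have f6 : x.p2 = z.p2 := by have := hx1.2; have := hz1.2; omega
      have f7 : x.d1 = z.d1 := by omega
      have f8 : x.d2 = z.d2 := by omega
      rw [f1, f2, f5, f6, f7, f8] at ex
      rw [f3, f4] at ez
      change (x.q1 - z.q1) * x0.c1 = (x.q2 - z.q2) * x0.c2
      linear_combination ex - ez
    · intro q hq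
      obtain ⟨x, hx, rfl⟩ := Finset.mem_image.mp hq
      obtain ⟨a0, a1, a2, a3, a4, a5⟩ := hFS x hx
      have f1 : x.c1 = x0.c1 := by omega
      have f2 : x.c2 = x0.c2 := by omega
      have := (hS x a0).1.qc
      rw [f1, f2] at this
      exact this
  -- the values
  have n1 : ((S.image (fun x => x.p1)).card : ℝ) ≤ 5 * ρ * H / η := by
    refine (card_int_le' _ (2 * ρ * H / η) (by positivity) ?_).trans ?_
    · intro p hp
      obtain ⟨x, hx, rfl⟩ := Finset.mem_image.mp hp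
      obtain ⟨hb, he⟩ := hS x hx
      have h1 := hb.pc
      rw [← he, show x.p1 * x.c2 - x.p1 * x.c1 = x.p1 * (x.c2 - x.c1) by ring, abs_mul,
        abs_of_nonneg (by linarith [hb.cc.hl] : 0 ≤ x.c2 - x.c1)] at h1
      have h2 : |x.p1| * η ≤ 2 * ρ * H :=
        (mul_le_mul_of_nonneg_left hb.cc.hl (abs_nonneg _)).trans h1
      rw [le_div_iff₀ (by linarith)]
      exact_mod_cast h2
    · have h1 : 1 ≤ (ρ : ℝ) * H / η := by
        rw [le_div_iff₀ (by linarith)]
        nlinarith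
      have h2 : 2 * (ρ : ℝ) * H / η = 2 * (ρ * H / η) := by ring
      have h3 : 5 * (ρ : ℝ) * H / η = 5 * (ρ * H / η) := by ring
      rw [h2, h3]
      linarith
  have n2 : ((S.image (fun x => x.c1)).card : ℝ) ≤ H := by
    refine (card_int_le _ (H - 1) (by linarith) ?_).trans (by linarith)
    intro p hp q hq
    obtain ⟨x, hx, rfl⟩ := Finset.mem_image.mp hp
    obtain ⟨z, hz, rfl⟩ := Finset.mem_image.mp hq
    have a1 := (hS x hx).1.cc.l1
    have a2 := (hS x hx).1.cc.u1
    have a3 := (hS z hz).1.cc.l1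
    have a4 := (hS z hz).1.cc.u1
    have : |x.c1 - z.c1| ≤ (H : ℤ) - 1 := by rw [abs_le]; constructor <;> omega
    exact_mod_cast this
  have n3 : ((S.image (fun x => x.c2 - x.c1)).card : ℝ) ≤ η := by
    refine (card_int_le _ (η - 1) (by linarith) ?_).trans (by linarith)
    intro p hp q hq
    obtain ⟨x, hx, rfl⟩ := Finset.mem_image.mp hp
    obtain ⟨z, hz, rfl⟩ := Finset.mem_image.mp hq
    have a1 := (hS x hx).1.cc.hl
    have a2 := (hS x hx).1.cc.hu
    have a3 := (hS z hz).1.cc.hl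
    have a4 := (hS z hz).1.cc.hu
    have : |(x.c2 - x.c1) - (z.c2 - z.c1)| ≤ (η : ℤ) - 1 := by rw [abs_le]; constructor <;> omega
    exact_mod_cast this
  have n4 : ((S.image (fun x => x.d2)).card : ℝ) ≤ 3 * ρ * E := by
    refine (card_int_le' _ (ρ * E) (by positivity) ?_).trans (by nlinarith)
    intro p hp
    obtain ⟨x, hx, rfl⟩ := Finset.mem_image.mp hp
    exact_mod_cast (hS x hx).1.d2
  have n5 : ((S.image (fun x => x.d1 - x.d2)).card : ℝ) ≤ 7 * ρ * δ := by
    refine (card_int_le' _ (3 * ρ * δ) (by positivity) ?_).trans (by nlinarith)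
    intro p hp
    obtain ⟨x, hx, rfl⟩ := Finset.mem_image.mp hp
    exact_mod_cast (hS x hx).1.dd
  have m4 := card_pair S (fun x => x.d2) (fun x => x.d1 - x.d2)
  have m3 := card_pair S (fun x => x.c2 - x.c1) (fun x => (x.d2, x.d1 - x.d2))
  have m2 := card_pair S (fun x => x.c1) (fun x => (x.c2 - x.c1, (x.d2, x.d1 - x.d2)))
  have m1 := card_pair S (fun x => x.p1) (fun x => (x.c1, (x.c2 - x.c1, (x.d2, x.d1 - x.d2))))
  calc (S.card : ℝ) ≤ (3 * ρ) *
      ((S.image (fun x => (x.p1, (x.c1, (x.c2 - x.c1, (x.d2, x.d1 - x.d2)))))).card : ℝ) := hfib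
    _ ≤ (3 * ρ) * ((5 * ρ * H / η) * (H * (η * ((3 * ρ * E) * (7 * ρ * δ))))) := by
        refine mul_le_mul_of_nonneg_left ?_ (by positivity)
        refine m1.trans (mul_le_mul n1 ?_ (by positivity) (by positivity))
        refine m2.trans (mul_le_mul n2 ?_ (by positivity) (by positivity))
        refine m3.trans (mul_le_mul n3 ?_ (by positivity) (by positivity))
        exact m4.trans (mul_le_mul n4 n5 (by positivity) (by positivity))
    _ = _ := by
        field_simp
        ring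

end Pool.Agent.A54.Av
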