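import Pool.Agent.Lib.MP_a54f13_nt.Av.SpecC

/-!
# Package Av, module Cb: the differences with small `p1`
-/

set_option autoImplicit false

namespace Pool.Agent.A54.Av

namespace CbM

theorem step {S : Finset O8} (f : O8 → ℤ) {N F : ℝ} (hF : 0 ≤ F)
    (himg : ((S.image f).card : ℝ) ≤ N)
    (hfib : ∀ y ∈ S, ((S.filter (fun x => f x = f y)).card : ℝ) ≤ F) :
    (S.card : ℝ) ≤ N * F := by
  have h1 := Finset.card_eq_sum_card_image f S
  have h2 : (S.card : ℝ) = ∑ b ∈ S.image f, ((S.filter (fun x => f x = b)).card : ℝ) := by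
    exact_mod_cast h1
  rw [h2]
  calc _ ≤ ∑ b ∈ S.image f, F := by
        refine Finset.sum_le_sum fun b hb => ?_
        obtain ⟨y, hy, rfl⟩ := Finset.mem_image.1 hb
        exact hfib y hy
    _ = (S.image f).card * F := by simp
    _ ≤ N * F := mul_le_mul_of_nonneg_right himg hF

theorem img {S : Finset O8} (f : O8 → ℤ) {L : ℝ} (hL : 0 ≤ L)
    (h : ∀ x ∈ S, ∀ y ∈ S, |(f x : ℝ) - f y| ≤ L) : ((S.image f).card : ℝ) ≤ L + 1 := by
  refine card_int_le _ L hL fun u hu v hv => ?_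
  obtain ⟨x, hx, rfl⟩ := Finset.mem_image.1 hu
  obtain ⟨y, hy, rfl⟩ := Finset.mem_image.1 hv
  have := h x hx y hy
  push_cast
  exact this

/-- the class -/
structure K (H η δ E ρ : ℕ) (x : O8) : Prop where
  blk : Blk H η δ E ρ x
  ne : x.p1 ≠ x.p2
  sm : |x.p1| * η < 4 * ρ * H

section

variable {H η δ E ρ : ℕ} {S : Finset O8}

theorem lam_ge (hP : Pm H η δ E ρ) : 1 ≤ lam H η δ E := by
  have h1 := hP.eta
  have h2 := hP.etaH
  have h4 := hP.EH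
  have hH : (0 : ℝ) < H := by exact_mod_cast (by omega : 0 < H)
  have h5 : (1 : ℝ) ≤ (E : ℝ) / H := by
    rw [le_div_iff₀ hH, one_mul]
    exact_mod_cast h4
  have h6 : (0 : ℝ) ≤ (δ : ℝ) / η := by positivity
  unfold lam
  linarith

theorem ub {x : O8} (hP : Pm H η δ E ρ) (h : K H η δ E ρ x) :
    |(x.p2 : ℝ) - x.p1| ≤ 10 * ρ := by
  have hη : (1 : ℝ) ≤ η := by exact_mod_cast hP.eta
  have hH : (0 : ℝ) < H := by
    have h1 := hP.eta
    have h2 := hP.etaH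
    exact_mod_cast (by omega : 0 < H)
  have c1 : (H : ℝ) ≤ x.c1 := by exact_mod_cast h.blk.cc.l1
  have hl : (η : ℝ) ≤ (x.c2 : ℝ) - x.c1 := by exact_mod_cast h.blk.cc.hl
  have hu : (x.c2 : ℝ) - x.c1 ≤ 2 * η := by exact_mod_cast h.blk.cc.hu.le
  have hp : |(x.p1 : ℝ)| * η ≤ 4 * ρ * H := by exact_mod_cast h.sm.le
  have hpc : |(x.p1 : ℝ) * x.c2 - x.p2 * x.c1| ≤ 2 * ρ * H := by exact_mod_cast h.blk.pc
  have e : ((x.p2 : ℝ) - x.p1) * x.c1 = x.p1 * (x.c2 - x.c1) - (x.p1 * x.c2 - x.p2 * x.c1) := by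
    ring
  have h1 : |((x.p2 : ℝ) - x.p1) * x.c1| ≤ 10 * ρ * H := by
    rw [e]
    refine (abs_sub _ _).trans ?_
    rw [abs_mul, abs_of_nonneg (by linarith : (0 : ℝ) ≤ (x.c2 : ℝ) - x.c1)]
    have := mul_le_mul_of_nonneg_left hu (abs_nonneg (x.p1 : ℝ))
    linarith
  rw [abs_mul, abs_of_pos (lt_of_lt_of_le hH c1)] at h1
  have h2 : |(x.p2 : ℝ) - x.p1| * H ≤ 10 * ρ * H :=
    (mul_le_mul_of_nonneg_left c1 (abs_nonneg _)).trans h1
  exact le_of_mul_le_mul_right h2 hH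

theorem qb {x : O8} (hP : Pm H η δ E ρ) (h : K H η δ E ρ x) :
    |(x.q1 : ℝ)| ≤ 14 * ρ ^ 2 * H * lam H η δ E / η := by
  have hη : (1 : ℝ) ≤ η := by exact_mod_cast hP.eta
  have hη0 : (0 : ℝ) < η := by linarith
  have hρ : (1 : ℝ) ≤ ρ := by exact_mod_cast hP.rho
  have hH : (0 : ℝ) < H := by
    have h1 := hP.eta
    have h2 := hP.etaH
    exact_mod_cast (by omega : 0 < H)
  have hlam := lam_ge hP
  have c1 : (H : ℝ) ≤ x.c1 := by exact_mod_cast h.blk.cc.l1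
  have c2 : (H : ℝ) ≤ x.c2 := by exact_mod_cast h.blk.cc.l2
  have hl : (η : ℝ) ≤ (x.c2 : ℝ) - x.c1 := by exact_mod_cast h.blk.cc.hl
  have hp : |(x.p1 : ℝ)| * η ≤ 4 * ρ * H := by exact_mod_cast h.sm.le
  have hqc : |(x.q1 : ℝ) * x.c2 - x.q2 * x.c1| ≤ 2 * ρ * H := by exact_mod_cast h.blk.qc
  have hd : |(x.d1 : ℝ) - x.d2| ≤ 3 * ρ * δ := by exact_mod_cast h.blk.dd
  have hd2 : |(x.d2 : ℝ)| ≤ ρ * E := by exact_mod_cast h.blk.d2
  have heq : (x.p1 : ℝ) * x.d1 - x.p2 * x.d2 + x.q1 * x.c1 - x.q2 * x.c2 = 0 := by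
    exact_mod_cast h.blk.eq
  have hub := ub hP h
  have hp' : |(x.p1 : ℝ)| ≤ 4 * ρ * H / η := by rwa [le_div_iff₀ hη0]
  -- the bracket of q and c
  have hb : |(x.q1 : ℝ) * x.c1 - x.q2 * x.c2| ≤ 12 * ρ ^ 2 * H * lam H η δ E := by
    have e : (x.q1 : ℝ) * x.c1 - x.q2 * x.c2 =
        (x.p2 - x.p1) * x.d2 - x.p1 * (x.d1 - x.d2) := by linarith
    rw [e]
    refine (abs_sub _ _).trans ?_
    rw [abs_mul, abs_mul]
    have k1 : |(x.p2 : ℝ) - x.p1| * |(x.d2 : ℝ)| ≤ 10 * ρ * (ρ * E) :=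
      mul_le_mul hub hd2 (abs_nonneg _) (by positivity)
    have k2 : |(x.p1 : ℝ)| * |(x.d1 : ℝ) - x.d2| ≤ 4 * ρ * H / η * (3 * ρ * δ) :=
      mul_le_mul hp' hd (abs_nonneg _) (by positivity)
    have k3 : 12 * (ρ : ℝ) ^ 2 * H * lam H η δ E =
        12 * ρ ^ 2 * E + 4 * ρ * H / η * (3 * ρ * δ) := by
      unfold lam
      field_simp
      ring
    rw [k3]
    have k4 : (0 : ℝ) ≤ ρ ^ 2 * E := by positivity
    nlinarith
  have e2 : (x.q1 : ℝ) * (x.c2 - x.c1) * (x.c1 + x.c2) =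
      x.c2 * (x.q1 * x.c2 - x.q2 * x.c1) - x.c1 * (x.q1 * x.c1 - x.q2 * x.c2) := by ring
  have h3 : |(x.q1 : ℝ)| * ((x.c2 : ℝ) - x.c1) * (x.c1 + x.c2) ≤
      (14 * ρ ^ 2 * H * lam H η δ E) * (x.c1 + x.c2) := by
    have e3 : |(x.q1 : ℝ)| * ((x.c2 : ℝ) - x.c1) * (x.c1 + x.c2) =
        |(x.q1 : ℝ) * (x.c2 - x.c1) * (x.c1 + x.c2)| := by
      rw [abs_mul, abs_mul, abs_of_nonneg (by linarith : (0 : ℝ) ≤ (x.c2 : ℝ) - x.c1),
        abs_of_nonneg (by linarith : (0 : ℝ) ≤ (x.c1 : ℝ) + x.c2)]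
    rw [e3, e2]
    refine (abs_sub _ _).trans ?_
    rw [abs_mul, abs_mul, abs_of_nonneg (by linarith : (0 : ℝ) ≤ (x.c2 : ℝ)),
      abs_of_nonneg (by linarith : (0 : ℝ) ≤ (x.c1 : ℝ))]
    have hX : (2 : ℝ) * ρ * H ≤ 2 * ρ ^ 2 * H * lam H η δ E := by
      have t0 : (ρ : ℝ) ≤ ρ ^ 2 := by nlinarith
      have t1 : (ρ : ℝ) * H ≤ ρ ^ 2 * H := mul_le_mul_of_nonneg_right t0 hH.le
      have t2 : (ρ : ℝ) ^ 2 * H ≤ ρ ^ 2 * H * lam H η δ E := by
        have : (0 : ℝ) ≤ ρ ^ 2 * H := by positivity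
        nlinarith
      nlinarith
    have hpos : (0 : ℝ) ≤ ρ ^ 2 * H * lam H η δ E := by positivity
    have k1 : (x.c2 : ℝ) * |(x.q1 : ℝ) * x.c2 - x.q2 * x.c1| ≤
        x.c2 * (14 * ρ ^ 2 * H * lam H η δ E) :=
      mul_le_mul_of_nonneg_left (by linarith) (by linarith)
    have k2 : (x.c1 : ℝ) * |(x.q1 : ℝ) * x.c1 - x.q2 * x.c2| ≤
        x.c1 * (12 * ρ ^ 2 * H * lam H η δ E) :=
      mul_le_mul_of_nonneg_left hb (by linarith)
    have k3 : (x.c1 : ℝ) * (12 * ρ ^ 2 * H * lam H η δ E) ≤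
        x.c1 * (14 * ρ ^ 2 * H * lam H η δ E) :=
      mul_le_mul_of_nonneg_left (by linarith) (by linarith)
    linarith
  have h4 : |(x.q1 : ℝ)| * ((x.c2 : ℝ) - x.c1) ≤ 14 * ρ ^ 2 * H * lam H η δ E :=
    le_of_mul_le_mul_right h3 (by linarith)
  rw [le_div_iff₀ hη0]
  exact (mul_le_mul_of_nonneg_left hl (abs_nonneg _)).trans h4

theorem L7 (hP : Pm H η δ E ρ) {c1 c2 p1 p2 q1 q2 : ℤ}
    (h : ∀ x ∈ S, K H η δ E ρ x ∧ x.p1 = p1 ∧ x.p2 = p2 ∧ x.c1 = c1 ∧ x.c2 = c2 ∧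
      x.q1 = q1 ∧ x.q2 = q2) : (S.card : ℝ) ≤ 7 * ρ * δ := by
  have hρ : (1 : ℝ) ≤ ρ := by exact_mod_cast hP.rho
  have hδ : (1 : ℝ) ≤ δ := by exact_mod_cast hP.eta.trans hP.del
  have hρδ : (1 : ℝ) ≤ ρ * δ := one_le_mul_of_one_le_of_one_le hρ hδ
  have key : (S.card : ℝ) ≤ 7 * ρ * δ * 1 := by
    refine step (fun x => x.d1 - x.d2) (by norm_num) ?_ ?_
    · refine (img (L := 6 * ρ * δ) _ (by positivity) ?_).trans (by linarith)
      intro x hx y hy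
      have h1 : |(x.d1 : ℝ) - x.d2| ≤ 3 * ρ * δ := by exact_mod_cast (h x hx).1.blk.dd
      have h2 : |(y.d1 : ℝ) - y.d2| ≤ 3 * ρ * δ := by exact_mod_cast (h y hy).1.blk.dd
      push_cast
      refine (abs_sub _ _).trans ?_
      linarith
    · intro z hz
      have hone : (S.filter (fun x => x.d1 - x.d2 = z.d1 - z.d2)).card ≤ 1 := by
        rw [Finset.card_le_one]
        intro x hx y hy
        rw [Finset.mem_filter] at hx hy
        obtain ⟨kx, a1, a2, a3, a4, a5, a6⟩ := h x hx.1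
        obtain ⟨ky, b1, b2, b3, b4, b5, b6⟩ := h y hy.1
        have e1 := kx.blk.eq
        have e2 := ky.blk.eq
        have hne := kx.ne
        rw [a1, a2] at hne
        rw [a1, a2, a3, a4, a5, a6] at e1
        rw [b1, b2, b3, b4, b5, b6] at e2
        have hd : x.d1 - x.d2 = y.d1 - y.d2 := hx.2.trans hy.2.symm
        have h3 : (p1 - p2) * (x.d2 - y.d2) = 0 := by
          have t : x.d1 = y.d1 - y.d2 + x.d2 := by linarith
          rw [t] at e1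
          linarith
        have h4 : x.d2 = y.d2 := by
          rcases mul_eq_zero.1 h3 with h5 | h5
          · exact absurd (by linarith) hne
          · linarith
        have h5 : x.d1 = y.d1 := by linarith
        obtain ⟨x1, x2, x3, x4, x5, x6, x7, x8⟩ := x
        obtain ⟨y1, y2, y3, y4, y5, y6, y7, y8⟩ := y
        simp only [O8.mk.injEq]
        simp only at a1 a2 a3 a4 a5 a6 b1 b2 b3 b4 b5 b6 h4 h5
        refine ⟨?_, ?_, ?_, ?_, ?_, ?_, ?_, ?_⟩ <;> linarith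
      exact_mod_cast hone
  linarith

theorem L6 (hP : Pm H η δ E ρ) {c1 c2 p1 p2 q1 : ℤ}
    (h : ∀ x ∈ S, K H η δ E ρ x ∧ x.p1 = p1 ∧ x.p2 = p2 ∧ x.c1 = c1 ∧ x.c2 = c2 ∧
      x.q1 = q1) : (S.card : ℝ) ≤ 5 * ρ * (7 * ρ * δ) := by
  have hρ : (1 : ℝ) ≤ ρ := by exact_mod_cast hP.rho
  refine step (fun x => x.q2) (by positivity) ?_ ?_
  · refine (img (L := 4 * ρ) _ (by positivity) ?_).trans (by linarith)
    intro x hx y hy
    obtain ⟨f1, -, -, e1, e2, e3⟩ := h x hx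
    obtain ⟨f2, -, -, e1', e2', e3'⟩ := h y hy
    have hq1 := f1.blk.qc
    have hq2 := f2.blk.qc
    have hc := f1.blk.cc.l1
    rw [e1, e2, e3] at hq1
    rw [e1', e2', e3'] at hq2
    rw [e1] at hc
    have hH : (0 : ℝ) < H := by
      have := hP.eta
      have := hP.etaH
      exact_mod_cast (by omega : 0 < H)
    have hc' : (H : ℝ) ≤ c1 := by exact_mod_cast hc
    have hq1' : |(q1 : ℝ) * c2 - x.q2 * c1| ≤ 2 * ρ * H := by exact_mod_cast hq1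
    have hq2' : |(q1 : ℝ) * c2 - y.q2 * c1| ≤ 2 * ρ * H := by exact_mod_cast hq2
    have h3 : |((x.q2 : ℝ) - y.q2) * c1| ≤ 4 * ρ * H := by
      have e : ((x.q2 : ℝ) - y.q2) * c1 = (q1 * c2 - y.q2 * c1) - (q1 * c2 - x.q2 * c1) := by ring
      rw [e]
      refine (abs_sub _ _).trans ?_
      linarith
    rw [abs_mul, abs_of_pos (lt_of_lt_of_le hH hc')] at h3
    have h4 : |(x.q2 : ℝ) - y.q2| * H ≤ 4 * ρ * H :=
      (mul_le_mul_of_nonneg_left hc' (abs_nonneg _)).trans h3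
    exact le_of_mul_le_mul_right h4 hH
  · intro y hy
    refine L7 hP (p1 := p1) (p2 := p2) (c1 := c1) (c2 := c2) (q1 := q1) (q2 := y.q2) ?_
    intro x hx
    rw [Finset.mem_filter] at hx
    obtain ⟨f1, e1, e2, e3, e4, e5⟩ := h x hx.1
    exact ⟨f1, e1, e2, e3, e4, e5, hx.2⟩

theorem L5 (hP : Pm H η δ E ρ) {c1 c2 p1 p2 : ℤ}
    (h : ∀ x ∈ S, K H η δ E ρ x ∧ x.p1 = p1 ∧ x.p2 = p2 ∧ x.c1 = c1 ∧ x.c2 = c2) :
    (S.card : ℝ) ≤ 29 * ρ ^ 2 * H * lam H η δ E / η * (5 * ρ * (7 * ρ * δ)) := by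
  have hρ : (1 : ℝ) ≤ ρ := by exact_mod_cast hP.rho
  have hη : (1 : ℝ) ≤ η := by exact_mod_cast hP.eta
  have hηH : (η : ℝ) ≤ H := by exact_mod_cast hP.etaH
  have hη0 : (0 : ℝ) < η := by linarith
  have hlam := lam_ge hP
  have hone : (1 : ℝ) ≤ ρ ^ 2 * H * lam H η δ E / η := by
    rw [le_div_iff₀ hη0, one_mul]
    have t0 : (1 : ℝ) ≤ ρ ^ 2 := one_le_pow₀ hρ
    have t1 : (H : ℝ) ≤ ρ ^ 2 * H := by nlinarith
    have t2 : (0 : ℝ) ≤ ρ ^ 2 * H := by positivity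
    nlinarith
  refine step (fun x => x.q1) (by positivity) ?_ ?_
  · refine (img (L := 2 * (14 * ρ ^ 2 * H * lam H η δ E / η)) _ (by positivity) ?_).trans ?_
    · intro x hx y hy
      have h1 := qb hP (h x hx).1
      have h2 := qb hP (h y hy).1
      refine (abs_sub _ _).trans ?_
      linarith
    · have e1 : 29 * ρ ^ 2 * H * lam H η δ E / η =
          2 * (14 * ρ ^ 2 * H * lam H η δ E / η) + ρ ^ 2 * H * lam H η δ E / η := by ring
      rw [e1]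
      linarith
  · intro y hy
    refine L6 hP (p1 := p1) (p2 := p2) (c1 := c1) (c2 := c2) (q1 := y.q1) ?_
    intro x hx
    rw [Finset.mem_filter] at hx
    obtain ⟨f1, e1, e2, e3, e4⟩ := h x hx.1
    exact ⟨f1, e1, e2, e3, e4, hx.2⟩

theorem L4 (hP : Pm H η δ E ρ) {c1 p1 p2 : ℤ}
    (h : ∀ x ∈ S, K H η δ E ρ x ∧ x.p1 = p1 ∧ x.p2 = p2 ∧ x.c1 = c1) :
    (S.card : ℝ) ≤ η * (29 * ρ ^ 2 * H * lam H η δ E / η * (5 * ρ * (7 * ρ * δ))) := by
  have hη : (1 : ℝ) ≤ η := by exact_mod_cast hP.eta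
  have hlam := lam_ge hP
  refine step (fun x => x.c2) (by positivity) ?_ ?_
  · refine (img (L := (η : ℝ) - 1) _ (by linarith) ?_).trans (by linarith)
    intro x hx y hy
    obtain ⟨f1, -, -, e1⟩ := h x hx
    obtain ⟨f2, -, -, e2⟩ := h y hy
    have a1 := f1.blk.cc.hl
    have a2 := f1.blk.cc.hu
    have b1 := f2.blk.cc.hl
    have b2 := f2.blk.cc.hu
    rw [e1] at a1 a2
    rw [e2] at b1 b2
    have h3 : |x.c2 - y.c2| ≤ (η : ℤ) - 1 := by
      rw [abs_le]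
      constructor <;> linarith
    exact_mod_cast h3
  · intro y hy
    refine L5 hP (p1 := p1) (p2 := p2) (c1 := c1) (c2 := y.c2) ?_
    intro x hx
    rw [Finset.mem_filter] at hx
    obtain ⟨f1, e1, e2, e3⟩ := h x hx.1
    exact ⟨f1, e1, e2, e3, hx.2⟩

theorem L3 (hP : Pm H η δ E ρ) {p1 p2 : ℤ}
    (h : ∀ x ∈ S, K H η δ E ρ x ∧ x.p1 = p1 ∧ x.p2 = p2) :
    (S.card : ℝ) ≤ H * (η * (29 * ρ ^ 2 * H * lam H η δ E / η * (5 * ρ * (7 * ρ * δ)))) := by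
  have hH : (1 : ℝ) ≤ H := by exact_mod_cast hP.eta.trans hP.etaH
  have hlam := lam_ge hP
  refine step (fun x => x.c1) (by positivity) ?_ ?_
  · refine (img (L := (H : ℝ) - 1) _ (by linarith) ?_).trans (by linarith)
    intro x hx y hy
    have f1 := (h x hx).1
    have f2 := (h y hy).1
    have a1 := f1.blk.cc.l1
    have a2 := f1.blk.cc.u1
    have b1 := f2.blk.cc.l1
    have b2 := f2.blk.cc.u1
    have h3 : |x.c1 - y.c1| ≤ (H : ℤ) - 1 := by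
      rw [abs_le]
      constructor <;> linarith
    exact_mod_cast h3
  · intro y hy
    refine L4 hP (p1 := p1) (p2 := p2) (c1 := y.c1) ?_
    intro x hx
    rw [Finset.mem_filter] at hx
    obtain ⟨f1, e1, e2⟩ := h x hx.1
    exact ⟨f1, e1, e2, hx.2⟩

theorem L2 (hP : Pm H η δ E ρ) {p1 : ℤ}
    (h : ∀ x ∈ S, K H η δ E ρ x ∧ x.p1 = p1) :
    (S.card : ℝ) ≤ 21 * ρ *
      (H * (η * (29 * ρ ^ 2 * H * lam H η δ E / η * (5 * ρ * (7 * ρ * δ))))) := by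
  have hρ : (1 : ℝ) ≤ ρ := by exact_mod_cast hP.rho
  have hlam := lam_ge hP
  refine step (fun x => x.p2) (by positivity) ?_ ?_
  · refine (img (L := 20 * ρ) _ (by positivity) ?_).trans (by linarith)
    intro x hx y hy
    have f1 := ub hP (h x hx).1
    have f2 := ub hP (h y hy).1
    rw [(h x hx).2] at f1
    rw [(h y hy).2] at f2
    have e : (x.p2 : ℝ) - y.p2 = (x.p2 - p1) - (y.p2 - p1) := by ring
    rw [e]
    refine (abs_sub _ _).trans ?_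
    linarith
  · intro y hy
    refine L3 hP (p1 := p1) (p2 := y.p2) ?_
    intro x hx
    rw [Finset.mem_filter] at hx
    obtain ⟨f1, e1⟩ := h x hx.1
    exact ⟨f1, e1, hx.2⟩

theorem L1 (hP : Pm H η δ E ρ) (h : ∀ x ∈ S, K H η δ E ρ x) :
    (S.card : ℝ) ≤ 9 * ρ * H / η * (21 * ρ *
      (H * (η * (29 * ρ ^ 2 * H * lam H η δ E / η * (5 * ρ * (7 * ρ * δ)))))) := by
  have hρ : (1 : ℝ) ≤ ρ := by exact_mod_cast hP.rho
  have hη : (1 : ℝ) ≤ η := by exact_mod_cast hP.eta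
  have hηH : (η : ℝ) ≤ H := by exact_mod_cast hP.etaH
  have hη0 : (0 : ℝ) < η := by linarith
  have hlam := lam_ge hP
  have hone : (1 : ℝ) ≤ ρ * H / η := by
    rw [le_div_iff₀ hη0, one_mul]
    nlinarith
  refine step (fun x => x.p1) (by positivity) ?_ ?_
  · refine (img (L := 2 * (4 * ρ * H / η)) _ (by positivity) ?_).trans ?_
    · intro x hx y hy
      have h1 : |(x.p1 : ℝ)| * η ≤ 4 * ρ * H := by exact_mod_cast (h x hx).sm.le
      have h2 : |(y.p1 : ℝ)| * η ≤ 4 * ρ * H := by exact_mod_cast (h y hy).sm.le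
      rw [← le_div_iff₀ hη0] at h1 h2
      refine (abs_sub _ _).trans ?_
      linarith
    · have e1 : 9 * ρ * H / (η : ℝ) = 2 * (4 * ρ * H / η) + ρ * H / η := by ring
      rw [e1]
      linarith
  · intro y hy
    refine L2 hP (p1 := y.p1) ?_
    intro x hx
    rw [Finset.mem_filter] at hx
    exact ⟨h x hx.1, hx.2⟩

end

end CbM

open CbM in
theorem stmtCb : StmtCb := by
  refine ⟨191835, 6, by norm_num, ?_⟩
  intro H η δ E ρ hP S hS
  have h1 := L1 hP (S := S) (fun x hx => ⟨(hS x hx).1, (hS x hx).2.1, (hS x hx).2.2⟩)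
  refine h1.trans (le_of_eq ?_)
  have hη : (η : ℝ) ≠ 0 := by
    have := hP.eta
    exact_mod_cast (by omega : η ≠ 0)
  field_simp
  ring

end Pool.Agent.A54.Av
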