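import Pool.Agent.Lib.MP_a54f13_nt.Av.SpecC

/-!
# `Cd`: the number of `d` for given `c, p, q` in the main class
-/

set_option autoImplicit false

namespace Pool.Agent.A54.Av

namespace CdM

/-- two solutions `(w1, w2)` of `a w1 = b w2` with coprime `a, b` -/
theorem dvd_of (a b w1 w2 : ℤ) (hab : IsCoprime a b) (ha : a ≠ 0) (h : a * w1 = b * w2) :
    ∃ t : ℤ, w2 = a * t ∧ w1 = b * t := by
  have h1 : a ∣ b * w2 := ⟨w1, h.symm⟩
  obtain ⟨t, ht⟩ := hab.dvd_of_dvd_mul_left h1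
  refine ⟨t, ht, ?_⟩
  rw [ht] at h
  have : a * w1 = a * (b * t) := by rw [h]; ring
  exact mul_left_cancel₀ ha this

theorem ext8 (x y : O8) (h : x.c1 = y.c1 ∧ x.c2 = y.c2 ∧ x.p1 = y.p1 ∧ x.p2 = y.p2 ∧ x.q1 = y.q1 ∧
    x.q2 = y.q2) (h1 : x.d1 = y.d1) (h2 : x.d2 = y.d2) : x = y := by
  cases x; cases y
  simp_all

end CdM

open CdM in
theorem stmtCd (hCf : StmtCf) : StmtCd := by
  intro H η δ E ρ g hP hg S hS hSS x hx
  obtain ⟨a, b, hp1, hp2, hab, ha0, hne, _, hga, hl, _, _, _, _⟩ := hCf H η δ E ρ g x hP hg (hS x hx)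
  have hgpos : (0 : ℤ) < g := by exact_mod_cast hg
  -- differences
  have hdiff : ∀ y ∈ S, ∀ z ∈ S, ∃ t : ℤ, y.d2 - z.d2 = a * t ∧ y.d1 - z.d1 = b * t := by
    intro y hy z hz
    have ey := (hS y hy).blk.eq
    have ez := (hS z hz).blk.eq
    obtain ⟨e1, e2, e3, e4, e5, e6⟩ := hSS y hy x hx
    obtain ⟨f1, f2, f3, f4, f5, f6⟩ := hSS z hz x hx
    refine dvd_of a b _ _ hab ha0 ?_
    rw [e1, e2, e3, e4, e5, e6, hp1, hp2] at ey
    rw [f1, f2, f3, f4, f5, f6, hp1, hp2] at ez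
    have : (g : ℤ) * (a * (y.d1 - z.d1)) = g * (b * (y.d2 - z.d2)) := by linear_combination ey - ez
    exact mul_left_cancel₀ hgpos.ne' this
  let f : O8 → ℤ := fun y => (y.d2 - x.d2) / a
  have hf : ∀ y ∈ S, ∀ z ∈ S, a * (f y - f z) = y.d2 - z.d2 ∧ b * (f y - f z) = y.d1 - z.d1 := by
    intro y hy z hz
    obtain ⟨t, h1, h2⟩ := hdiff y hy x hx
    obtain ⟨s, h3, h4⟩ := hdiff z hz x hx
    have hfy : f y = t := by
      show (y.d2 - x.d2) / a = t
      rw [h1, Int.mul_ediv_cancel_left _ ha0]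
    have hfz : f z = s := by
      show (z.d2 - x.d2) / a = s
      rw [h3, Int.mul_ediv_cancel_left _ ha0]
    rw [hfy, hfz]
    constructor
    · linear_combination h3 - h1
    · linear_combination h4 - h2
  have hinj : Set.InjOn f (S : Set O8) := by
    intro y hy z hz hfe
    obtain ⟨h1, h2⟩ := hf y hy z hz
    rw [hfe, sub_self, mul_zero] at h1 h2
    obtain ⟨e1, e2, e3, e4, e5, e6⟩ := hSS y hy z hz
    exact ext8 y z ⟨e1, e2, e3, e4, e5, e6⟩ (by linarith) (by linarith)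
  have hcard : (S.image f).card = S.card := Finset.card_image_of_injOn hinj
  -- real quantities
  have haR : (0 : ℝ) < |(a : ℝ)| := abs_pos.mpr (by exact_mod_cast ha0)
  have hbaR : (0 : ℝ) < |((b - a : ℤ) : ℝ)| :=
    abs_pos.mpr (by exact_mod_cast sub_ne_zero.mpr (Ne.symm hne))
  have hgR : (1 : ℝ) ≤ g := by exact_mod_cast hg
  have hρR : (1 : ℝ) ≤ ρ := by exact_mod_cast hP.rho
  have hHR : (0 : ℝ) ≤ H := Nat.cast_nonneg H
  have hgaR : (g : ℝ) * |(a : ℝ)| ≤ 2 * ρ * H := by exact_mod_cast hga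
  have hlR : |(a : ℝ)| * η ≤ 4 * H * |((b - a : ℤ) : ℝ)| := by exact_mod_cast hl
  have key : ∀ y ∈ S, ∀ z ∈ S, |((f y - f z : ℤ) : ℝ)| * |(a : ℝ)| ≤ 200 * ρ * H := by
    intro y hy z hz
    obtain ⟨h1, h2⟩ := hf y hy z hz
    rcases hP.alt with hd | hE
    · have h3 : |(b - a) * (f y - f z)| ≤ 6 * ρ * η := by
        have e : (b - a) * (f y - f z) = (y.d1 - y.d2) - (z.d1 - z.d2) := by
          linear_combination h2 - h1
        rw [e]
        have h4 := (hS y hy).blk.dd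
        have h5 := (hS z hz).blk.dd
        rw [hd] at h4 h5
        calc |(y.d1 - y.d2) - (z.d1 - z.d2)| ≤ |y.d1 - y.d2| + |z.d1 - z.d2| := abs_sub _ _
          _ ≤ 6 * ρ * η := by linarith
      have h4 : |((b - a : ℤ) : ℝ)| * |((f y - f z : ℤ) : ℝ)| ≤ 6 * ρ * η := by
        rw [← abs_mul]
        exact_mod_cast h3
      -- |t| |a| η ≤ |t| 4 H |b - a| ≤ 24 ρ H η
      have hη : (0 : ℝ) < η := by exact_mod_cast hP.eta
      have h5 : |((f y - f z : ℤ) : ℝ)| * |(a : ℝ)| * η ≤ 24 * ρ * H * η := by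
        calc |((f y - f z : ℤ) : ℝ)| * |(a : ℝ)| * η = |((f y - f z : ℤ) : ℝ)| * (|(a : ℝ)| * η) := by
              ring
          _ ≤ |((f y - f z : ℤ) : ℝ)| * (4 * H * |((b - a : ℤ) : ℝ)|) :=
              mul_le_mul_of_nonneg_left hlR (abs_nonneg _)
          _ = 4 * H * (|((b - a : ℤ) : ℝ)| * |((f y - f z : ℤ) : ℝ)|) := by ring
          _ ≤ 4 * H * (6 * ρ * η) := mul_le_mul_of_nonneg_left h4 (by positivity)
          _ = 24 * ρ * H * η := by ring
      have h6 : |((f y - f z : ℤ) : ℝ)| * |(a : ℝ)| ≤ 24 * ρ * H := le_of_mul_le_mul_right h5 hη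
      have h7 : (0 : ℝ) ≤ ρ * H := by positivity
      linarith
    · have h3 : |a * (f y - f z)| ≤ 2 * ρ * E := by
        rw [h1]
        have h4 := (hS y hy).blk.d2
        have h5 := (hS z hz).blk.d2
        calc |y.d2 - z.d2| ≤ |y.d2| + |z.d2| := abs_sub _ _
          _ ≤ 2 * ρ * E := by linarith
      have h4 : |(a : ℝ)| * |((f y - f z : ℤ) : ℝ)| ≤ 2 * ρ * E := by
        rw [← abs_mul]
        exact_mod_cast h3
      have h5 : (E : ℝ) ≤ 100 * H := by exact_mod_cast hE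
      calc |((f y - f z : ℤ) : ℝ)| * |(a : ℝ)| = |(a : ℝ)| * |((f y - f z : ℤ) : ℝ)| := mul_comm _ _
        _ ≤ 2 * ρ * E := h4
        _ ≤ 2 * ρ * (100 * H) := mul_le_mul_of_nonneg_left h5 (by positivity)
        _ = 200 * ρ * H := by ring
  have h1 : ((S.image f).card : ℝ) ≤ 200 * ρ * H / |(a : ℝ)| + 1 := by
    refine card_int_le _ _ (by positivity) ?_
    intro u hu v hv
    obtain ⟨y, hy, rfl⟩ := Finset.mem_image.mp hu
    obtain ⟨z, hz, rfl⟩ := Finset.mem_image.mp hv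
    rw [le_div_iff₀ haR]
    have := key y hy z hz
    rw [Int.cast_abs]
    exact this
  rw [hcard] at h1
  have hp1R : |(x.p1 : ℝ)| = g * |(a : ℝ)| := by
    rw [hp1]
    push_cast
    rw [abs_mul, abs_of_nonneg (by positivity : (0 : ℝ) ≤ (g : ℝ))]
  rw [hp1R, le_div_iff₀ (by positivity)]
  have h2 : |(a : ℝ)| ≤ 2 * ρ * H := by
    calc |(a : ℝ)| = 1 * |(a : ℝ)| := (one_mul _).symm
      _ ≤ g * |(a : ℝ)| := mul_le_mul_of_nonneg_right hgR (abs_nonneg _)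
      _ ≤ 2 * ρ * H := hgaR
  calc (S.card : ℝ) * (g * |(a : ℝ)|) ≤ (200 * ρ * H / |(a : ℝ)| + 1) * (g * |(a : ℝ)|) :=
        mul_le_mul_of_nonneg_right h1 (by positivity)
    _ = g * (200 * ρ * H + |(a : ℝ)|) := by field_simp
    _ ≤ g * (200 * ρ * H + 2 * ρ * H) := by gcongr
    _ = 202 * ρ * H * g := by ring

end Pool.Agent.A54.Av
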