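import Pool.Agent.Lib.MP_a54f13_nt.Av.SpecC

/-!
# Package `Av`: consequences of `BlkG`
-/

set_option autoImplicit false

namespace Pool.Agent.A54.Av

namespace CfM

/-- the inequalities between `a`, `u = b - a`, `c1` and `h` -/
lemma ineqs {g a b c1 c2 h ρ H η : ℤ} (hg : 1 ≤ g) (hh : h = c2 - c1) (hη : 1 ≤ η)
    (hl : η ≤ h) (hpc : |g * a * c2 - g * b * c1| ≤ 2 * ρ * H)
    (hbig : 4 * ρ * H ≤ |g * a| * η) (hc : 1 ≤ c1) :
    |a| * h ≤ 2 * (|b - a| * c1) ∧ 2 * (|b - a| * c1) ≤ 3 * (|a| * h) := by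
  have hh0 : 0 ≤ h := by linarith
  have h1 : g * (b - a) * c1 = g * a * h - (g * a * c2 - g * b * c1) := by
    rw [hh]; ring
  have h2 : |g * (b - a) * c1| = g * (|b - a| * c1) := by
    rw [abs_mul, abs_mul, abs_of_nonneg (by linarith : (0 : ℤ) ≤ g),
      abs_of_nonneg (by linarith : (0 : ℤ) ≤ c1)]
    ring
  have h3 : |g * a * h| = g * (|a| * h) := by
    rw [abs_mul, abs_mul, abs_of_nonneg (by linarith : (0 : ℤ) ≤ g), abs_of_nonneg hh0]
    ring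
  have h4 : |g * a| = g * |a| := by
    rw [abs_mul, abs_of_nonneg (by linarith : (0 : ℤ) ≤ g)]
  have h5 : |g * a * h| - |g * a * c2 - g * b * c1| ≤ |g * (b - a) * c1| := by
    rw [h1]; exact abs_sub_abs_le_abs_sub _ _
  have h6 : |g * (b - a) * c1| ≤ |g * a * h| + |g * a * c2 - g * b * c1| := by
    rw [h1]; exact abs_sub _ _
  have h7 : |g * a| * η ≤ |g * a| * h := mul_le_mul_of_nonneg_left hl (abs_nonneg _)
  rw [h4] at h7 hbig
  rw [h2, h3] at h5 h6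
  have h8 : g * |a| * h = g * (|a| * h) := by ring
  rw [h8] at h7
  have hg0 : 0 < g := by linarith
  constructor
  · have h9 : g * (|a| * h) ≤ g * (2 * (|b - a| * c1)) := by linarith
    exact le_of_mul_le_mul_left h9 hg0
  · have h9 : g * (2 * (|b - a| * c1)) ≤ g * (3 * (|a| * h)) := by linarith
    exact le_of_mul_le_mul_left h9 hg0

/-- the bound for `q1`, integral part -/
lemma q_bound {g a b c1 c2 h q1 q2 d1 d2 ρ H E δ : ℤ} (hg : 1 ≤ g) (hh : h = c2 - c1)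
    (hc1 : 1 ≤ c1) (hc2 : 1 ≤ c2) (h1 : 0 ≤ h)
    (heq : g * a * d1 - g * b * d2 + q1 * c1 - q2 * c2 = 0)
    (hqc : |q1 * c2 - q2 * c1| ≤ 2 * ρ * H) (hd2 : |d2| ≤ ρ * E) (hdd : |d1 - d2| ≤ 3 * ρ * δ) :
    |q1| * h ≤ 2 * ρ * H + g * (|a| * (3 * ρ * δ) + |b - a| * (ρ * E)) := by
  have e1 : q1 * c1 - q2 * c2 = -(g * (a * (d1 - d2) - (b - a) * d2)) := by linarith
  have e2 : |q1 * c1 - q2 * c2| ≤ g * (|a| * (3 * ρ * δ) + |b - a| * (ρ * E)) := by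
    rw [e1, abs_neg, abs_mul, abs_of_nonneg (by linarith : (0 : ℤ) ≤ g)]
    apply mul_le_mul_of_nonneg_left _ (by linarith)
    refine (abs_sub _ _).trans ?_
    rw [abs_mul, abs_mul]
    exact add_le_add (mul_le_mul_of_nonneg_left hdd (abs_nonneg _))
      (mul_le_mul_of_nonneg_left hd2 (abs_nonneg _))
  have e3 : q1 * (h * (c1 + c2)) = c2 * (q1 * c2 - q2 * c1) - c1 * (q1 * c1 - q2 * c2) := by
    rw [hh]; ring
  have e4 : |q1| * h * (c1 + c2) ≤ c2 * |q1 * c2 - q2 * c1| + c1 * |q1 * c1 - q2 * c2| := by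
    have e5 : |q1| * h * (c1 + c2) = |q1 * (h * (c1 + c2))| := by
      rw [abs_mul, abs_of_nonneg (mul_nonneg h1 (by linarith) : (0 : ℤ) ≤ h * (c1 + c2))]
      ring
    rw [e5, e3]
    refine (abs_sub _ _).trans ?_
    rw [abs_mul, abs_mul, abs_of_nonneg (by linarith : (0 : ℤ) ≤ c1),
      abs_of_nonneg (by linarith : (0 : ℤ) ≤ c2)]
  have e6 : c2 * |q1 * c2 - q2 * c1| + c1 * |q1 * c1 - q2 * c2| ≤
      (2 * ρ * H + g * (|a| * (3 * ρ * δ) + |b - a| * (ρ * E))) * (c1 + c2) := by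
    have f1 := mul_le_mul_of_nonneg_left hqc (by linarith : (0 : ℤ) ≤ c2)
    have f2 := mul_le_mul_of_nonneg_left e2 (by linarith : (0 : ℤ) ≤ c1)
    have f3 : 0 ≤ 2 * ρ * H := (abs_nonneg _).trans hqc
    have f4 : 0 ≤ g * (|a| * (3 * ρ * δ) + |b - a| * (ρ * E)) := (abs_nonneg _).trans e2
    have f5 := mul_nonneg (by linarith : (0 : ℤ) ≤ c1) f3
    have f6 := mul_nonneg (by linarith : (0 : ℤ) ≤ c2) f4
    nlinarith
  exact le_of_mul_le_mul_right (e4.trans e6) (by linarith)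

end CfM

open CfM

theorem stmtCf : StmtCf := by
  intro H η δ E ρ g x hP hg hx
  obtain ⟨hρ, hη, hηH, hδ, hE, -⟩ := hP
  obtain ⟨⟨⟨hcl1, hcu1, hcl2, hcu2, hhl, hhu⟩, hd1, hd2, hdd, hp1, hp2, hq1, hq2, hpc, hqc, heq⟩,
    hne, hbig, hgcd⟩ := hx
  have hρ' : (1 : ℤ) ≤ ρ := by exact_mod_cast hρ
  have hη' : (1 : ℤ) ≤ η := by exact_mod_cast hη
  have hηH' : (η : ℤ) ≤ H := by exact_mod_cast hηH
  have hg' : (1 : ℤ) ≤ g := by exact_mod_cast hg
  have hH' : (1 : ℤ) ≤ H := hη'.trans hηH'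
  obtain ⟨a, b, hab, hpa, hpb⟩ := Int.exists_gcd_one (m := x.p1) (n := x.p2) (by omega)
  rw [hgcd] at hpa hpb
  have hpa' : x.p1 = g * a := by rw [hpa]; ring
  have hpb' : x.p2 = g * b := by rw [hpb]; ring
  have ha0 : a ≠ 0 := by
    rintro rfl
    rw [hpa', mul_zero, abs_zero, zero_mul] at hbig
    have : (1 : ℤ) * 1 ≤ ρ * H := mul_le_mul hρ' hH' (by norm_num) (by linarith)
    linarith
  have hneab : a ≠ b := by
    rintro rfl
    exact hne (hpa'.trans hpb'.symm)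
  have hpc' : |(g : ℤ) * a * x.c2 - g * b * x.c1| ≤ 2 * ρ * H := by
    rw [← hpa', ← hpb']; exact hpc
  have hc1 : 1 ≤ x.c1 := hH'.trans hcl1
  have hc2 : 1 ≤ x.c2 := hH'.trans hcl2
  have hbig' : 4 * (ρ : ℤ) * H ≤ |(g : ℤ) * a| * η := by rw [← hpa']; exact hbig
  obtain ⟨i1, i2⟩ := ineqs hg' (rfl : x.c2 - x.c1 = x.c2 - x.c1) hη' hhl hpc' hbig' hc1
  have hA : 0 ≤ |a| := abs_nonneg a
  have hU : 0 ≤ |b - a| := abs_nonneg _
  have hA1 : 1 ≤ |a| := Int.one_le_abs ha0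
  have hgA : |(g : ℤ) * a| = g * |a| := by
    rw [abs_mul, abs_of_nonneg (by linarith : (0 : ℤ) ≤ g)]
  have r4 : |b - a| * H ≤ 3 * |a| * η := by
    have f1 := mul_le_mul_of_nonneg_left hcl1 hU
    have f2 := mul_le_mul_of_nonneg_left hhu.le hA
    linarith
  refine ⟨a, b, hpa', hpb', Int.isCoprime_iff_gcd_eq_one.2 hab, ha0, hneab, ?_, ?_, ?_, r4, ?_, ?_,
    ?_⟩
  · intro hsum
    have hb : b = -a := by linarith
    have hU2 : |b - a| = 2 * |a| := by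
      rw [hb, show -a - a = -(2 * a) by ring, abs_neg, abs_mul]
      norm_num
    rw [hU2] at i2
    have f1 : x.c2 - x.c1 < x.c1 := by linarith
    have f2 : |a| * (x.c2 - x.c1) ≤ |a| * x.c1 := mul_le_mul_of_nonneg_left f1.le hA
    have f3 : 1 * 1 ≤ |a| * x.c1 := mul_le_mul hA1 hc1 (by norm_num) hA
    have f4 : 2 * (2 * |a| * x.c1) = 4 * (|a| * x.c1) := by ring
    rw [f4] at i2
    linarith
  · rw [← hgA, ← hpa']
    exact hp1
  · have f1 := mul_le_mul_of_nonneg_left hhl hA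
    have f2 := mul_le_mul_of_nonneg_left hcu1.le hU
    linarith
  · have f1 : |a * x.c2 - b * x.c1| * g = |(g : ℤ) * a * x.c2 - g * b * x.c1| := by
      rw [show (g : ℤ) * a * x.c2 - g * b * x.c1 = (a * x.c2 - b * x.c1) * g by ring, abs_mul,
        abs_of_nonneg (by linarith : (0 : ℤ) ≤ g)]
    rw [f1]
    exact hpc'
  · -- the bound for `q1`
    have heq' : (g : ℤ) * a * x.d1 - g * b * x.d2 + x.q1 * x.c1 - x.q2 * x.c2 = 0 := by
      rw [← hpa', ← hpb']; exact heq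
    have j1 := q_bound (ρ := ρ) (H := H) (E := E) (δ := δ) hg'
      (rfl : x.c2 - x.c1 = x.c2 - x.c1) hc1 hc2 (by linarith) heq' hqc hd2 hdd
    have j2 : |x.q1| * η ≤ |x.q1| * (x.c2 - x.c1) := mul_le_mul_of_nonneg_left hhl (abs_nonneg _)
    have j3 : |x.q1| * η ≤ 2 * ρ * H + g * (|a| * (3 * ρ * δ) + |b - a| * (ρ * E)) := j2.trans j1
    have j3' : ((|x.q1| : ℤ) : ℝ) * η ≤ 2 * ρ * H +
        g * (((|a| : ℤ) : ℝ) * (3 * ρ * δ) + ((|b - a| : ℤ) : ℝ) * (ρ * E)) := by exact_mod_cast j3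
    have r4' : ((|b - a| : ℤ) : ℝ) * H ≤ 3 * ((|a| : ℤ) : ℝ) * η := by exact_mod_cast r4
    have big' : 4 * (ρ : ℝ) * H ≤ g * ((|a| : ℤ) : ℝ) * η := by
      rw [hgA] at hbig'
      exact_mod_cast hbig'
    have hAr : |(a : ℝ)| = ((|a| : ℤ) : ℝ) := by push_cast; rfl
    rw [hAr]
    obtain ⟨A, hAd⟩ : ∃ A : ℝ, A = ((|a| : ℤ) : ℝ) := ⟨_, rfl⟩
    obtain ⟨U, hUd⟩ : ∃ U : ℝ, U = ((|b - a| : ℤ) : ℝ) := ⟨_, rfl⟩
    obtain ⟨Q, hQd⟩ : ∃ Q : ℝ, Q = ((|x.q1| : ℤ) : ℝ) := ⟨_, rfl⟩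
    rw [← hAd, ← hUd, ← hQd] at j3'
    rw [← hAd, ← hUd] at r4'
    rw [← hAd] at big' ⊢
    rw [← hQd]
    have hA0 : 0 ≤ A := by rw [hAd]; exact_mod_cast hA
    have hHr : (0 : ℝ) < H := by
      have : (1 : ℝ) ≤ H := by exact_mod_cast hH'
      linarith
    have hηr : (0 : ℝ) < η := by
      have : (1 : ℝ) ≤ η := by exact_mod_cast hη'
      linarith
    have hgr : (0 : ℝ) < g := by
      have : (1 : ℝ) ≤ g := by exact_mod_cast hg'
      linarith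
    have hρr : (1 : ℝ) ≤ ρ := by exact_mod_cast hρ'
    have hEr : (H : ℝ) ≤ E := by exact_mod_cast hE
    have hδr : (η : ℝ) ≤ δ := by exact_mod_cast hδ
    have hlam : lam H η δ E * η = (E : ℝ) / H * η + δ := by
      unfold lam
      field_simp
    have hU : U ≤ 3 * A * η / H := by
      rw [le_div_iff₀ hHr]
      exact r4'
    have hEH : 1 ≤ (E : ℝ) / H := by
      rw [le_div_iff₀ hHr]
      linarith
    -- `Q η ≤ 4 ρ g A (E / H η + δ)`
    have k1 : U * (ρ * E) ≤ 3 * ρ * A * ((E : ℝ) / H * η) := by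
      have := mul_le_mul_of_nonneg_right hU (by positivity : (0 : ℝ) ≤ ρ * E)
      calc U * (ρ * E) ≤ 3 * A * η / H * (ρ * E) := this
        _ = 3 * ρ * A * ((E : ℝ) / H * η) := by field_simp
    have k2 : 2 * (ρ : ℝ) * H ≤ ρ * g * A * ((E : ℝ) / H * η) := by
      have m0 : 0 ≤ (g : ℝ) * A * η := by positivity
      have m1 : (g : ℝ) * A * η ≤ ρ * g * A * ((E : ℝ) / H * η) := by
        have m2 : (1 : ℝ) * 1 ≤ ρ * ((E : ℝ) / H) :=
          mul_le_mul hρr hEH (by norm_num) (by linarith)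
        have m3 := mul_le_mul_of_nonneg_right m2 m0
        calc (g : ℝ) * A * η = 1 * 1 * (g * A * η) := by ring
          _ ≤ ρ * ((E : ℝ) / H) * (g * A * η) := m3
          _ = ρ * g * A * ((E : ℝ) / H * η) := by ring
      linarith
    have k3 : Q * η ≤ 4 * ρ * g * A * ((E : ℝ) / H * η + δ) := by
      have m1 := mul_le_mul_of_nonneg_left k1 hgr.le
      have m2 : 0 ≤ (ρ : ℝ) * g * A * δ := by positivity
      calc Q * η ≤ 2 * ρ * H + g * (A * (3 * ρ * δ) + U * (ρ * E)) := j3'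
        _ = 2 * ρ * H + (3 * (ρ * g * A * δ) + g * (U * (ρ * E))) := by ring
        _ ≤ ρ * g * A * ((E : ℝ) / H * η) + (3 * (ρ * g * A * δ) +
            g * (3 * ρ * A * ((E : ℝ) / H * η))) := by linarith
        _ = 4 * (ρ * g * A * ((E : ℝ) / H * η)) + 3 * (ρ * g * A * δ) := by ring
        _ ≤ 4 * (ρ * g * A * ((E : ℝ) / H * η)) + 4 * (ρ * g * A * δ) := by linarith
        _ = 4 * ρ * g * A * ((E : ℝ) / H * η + δ) := by ring
    rw [← hlam, ← mul_assoc] at k3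
    exact le_of_mul_le_mul_right k3 hηr
  · refine ⟨-(a * x.d1 - b * x.d2), ?_⟩
    have heq' : (g : ℤ) * a * x.d1 - g * b * x.d2 + x.q1 * x.c1 - x.q2 * x.c2 = 0 := by
      rw [← hpa', ← hpb']; exact heq
    linarith

end Pool.Agent.A54.Av
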