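import Pool.Agent.Lib.MP_a54f13_nt.Av.SpecC

/-!
# Package Av, module Cg: crude bound for the main class
-/

set_option autoImplicit false

namespace Pool.Agent.A54.Av

namespace CgM

theorem step {S : Finset O8} (f : O8 → ℤ) {N F : ℝ} (hF : 0 ≤ F)
    (himg : ((S.image f).card : ℝ) ≤ N)
    (hfib : ∀ y ∈ S, ((S.filter (fun x => f x = f y)).card : ℝ) ≤ F) :
    (S.card : ℝ) ≤ N * F := by
  have h1 := Finset.card_eq_sum_card_image f S
  have h2 : (S.card : ℝ) = ∑ b ∈ S.image f, ((S.filter (fun x => f x = b)).card : ℝ) := by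
    exact_mod_cast h1
  rw [h2]
  calc _ ≤ ∑ b ∈ S.image f, F := by
        refine Finset.sum_le_sum fun b hb => ?_
        obtain ⟨y, hy, rfl⟩ := Finset.mem_image.1 hb
        exact hfib y hy
    _ = (S.image f).card * F := by simp
    _ ≤ N * F := mul_le_mul_of_nonneg_right himg hF

theorem img {S : Finset O8} (f : O8 → ℤ) {L : ℝ} (hL : 0 ≤ L)
    (h : ∀ x ∈ S, ∀ y ∈ S, |(f x : ℝ) - f y| ≤ L) : ((S.image f).card : ℝ) ≤ L + 1 := by
  refine card_int_le _ L hL fun u hu v hv => ?_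
  obtain ⟨x, hx, rfl⟩ := Finset.mem_image.1 hu
  obtain ⟨y, hy, rfl⟩ := Finset.mem_image.1 hv
  have := h x hx y hy
  push_cast
  exact this

/-- facts -/
structure Fc (H η δ E ρ g : ℕ) (a b : ℤ) (x : O8) : Prop where
  e1 : x.p1 = g * a
  e2 : x.p2 = g * b
  blk : BlkG H η δ E ρ g x
  a0 : a ≠ 0
  ab : a ≠ b
  ga : (g : ℤ) * |a| ≤ 2 * ρ * H
  ub : |b - a| * H ≤ 3 * |a| * η
  cb : |a * x.c2 - b * x.c1| * g ≤ 2 * ρ * H
  qb : ((|x.q1| : ℤ) : ℝ) ≤ 4 * ρ * g * |(a : ℝ)| * lam H η δ E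

theorem fc (hCf : StmtCf) {H η δ E ρ g : ℕ} {x : O8} (hP : Pm H η δ E ρ) (hg : 1 ≤ g)
    (hx : BlkG H η δ E ρ g x) : Fc H η δ E ρ g (x.p1 / g) (x.p2 / g) x := by
  obtain ⟨a, b, h1, h2, _, h4, h5, _, h7, _, h9, h10, h11, _⟩ := hCf H η δ E ρ g x hP hg hx
  have hg0 : (g : ℤ) ≠ 0 := by exact_mod_cast (by omega : g ≠ 0)
  have e1 : x.p1 / g = a := by rw [h1]; exact Int.mul_ediv_cancel_left _ hg0
  have e2 : x.p2 / g = b := by rw [h2]; exact Int.mul_ediv_cancel_left _ hg0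
  rw [e1, e2]
  exact ⟨h1, h2, hx, h4, h5, h7, h9, h10, h11⟩

section

variable {H η δ E ρ g : ℕ} {a b : ℤ} {S : Finset O8}

theorem lam_pos (hP : Pm H η δ E ρ) : 1 ≤ lam H η δ E := by
  have h1 := hP.eta
  have h2 := hP.etaH
  have h4 := hP.EH
  have hH : (0 : ℝ) < H := by exact_mod_cast (by omega : 0 < H)
  have hη : (0 : ℝ) < η := by exact_mod_cast h1
  have h5 : (1 : ℝ) ≤ (E : ℝ) / H := by
    rw [le_div_iff₀ hH, one_mul]
    exact_mod_cast h4
  have h6 : (0 : ℝ) ≤ (δ : ℝ) / η := by positivity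
  unfold lam
  linarith

theorem L6 (hCd : StmtCd) (hP : Pm H η δ E ρ) (hg : 1 ≤ g) {c1 c2 q1 q2 : ℤ}
    (h : ∀ x ∈ S, Fc H η δ E ρ g a b x ∧ x.c1 = c1 ∧ x.c2 = c2 ∧ x.q1 = q1 ∧ x.q2 = q2) :
    (S.card : ℝ) ≤ 202 * ρ * H / |(a : ℝ)| := by
  rcases S.eq_empty_or_nonempty with rfl | ⟨x, hx⟩
  · simp only [Finset.card_empty, Nat.cast_zero]
    positivity
  · have h1 := hCd H η δ E ρ g hP hg S (fun x hx => (h x hx).1.blk) (by
      intro x hx y hy
      obtain ⟨f1, e1, e2, e3, e4⟩ := h x hx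
      obtain ⟨f2, e1', e2', e3', e4'⟩ := h y hy
      exact ⟨e1.trans e1'.symm, e2.trans e2'.symm, f1.e1.trans f2.e1.symm, f1.e2.trans f2.e2.symm,
        e3.trans e3'.symm, e4.trans e4'.symm⟩) x hx
    refine h1.trans (le_of_eq ?_)
    have hf := (h x hx).1
    have hg0 : (g : ℝ) ≠ 0 := by exact_mod_cast (by omega : g ≠ 0)
    have ha : |(a : ℝ)| ≠ 0 := by
      rw [abs_ne_zero]
      exact_mod_cast hf.a0
    rw [hf.e1]
    push_cast
    rw [abs_mul, Nat.abs_cast]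
    field_simp

theorem L5 (hCd : StmtCd) (hP : Pm H η δ E ρ) (hg : 1 ≤ g) {c1 c2 q1 : ℤ}
    (h : ∀ x ∈ S, Fc H η δ E ρ g a b x ∧ x.c1 = c1 ∧ x.c2 = c2 ∧ x.q1 = q1) :
    (S.card : ℝ) ≤ 5 * ρ * (202 * ρ * H / |(a : ℝ)|) := by
  have hρ : (1 : ℝ) ≤ ρ := by exact_mod_cast hP.rho
  refine step (fun x => x.q2) (by positivity) ?_ ?_
  · refine (img (L := 4 * ρ) _ (by positivity) ?_).trans (by linarith)
    intro x hx y hy
    obtain ⟨f1, e1, e2, e3⟩ := h x hx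
    obtain ⟨f2, e1', e2', e3'⟩ := h y hy
    have hq1 := f1.blk.blk.qc
    have hq2 := f2.blk.blk.qc
    have hc := f1.blk.blk.cc.l1
    rw [e1, e2, e3] at hq1
    rw [e1', e2', e3'] at hq2
    rw [e1] at hc
    have hH : (0 : ℝ) < H := by
      have := hP.eta
      have := hP.etaH
      exact_mod_cast (by omega : 0 < H)
    have hc' : (H : ℝ) ≤ c1 := by exact_mod_cast hc
    have hq1' : |(q1 : ℝ) * c2 - x.q2 * c1| ≤ 2 * ρ * H := by exact_mod_cast hq1
    have hq2' : |(q1 : ℝ) * c2 - y.q2 * c1| ≤ 2 * ρ * H := by exact_mod_cast hq2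
    have h3 : |((x.q2 : ℝ) - y.q2) * c1| ≤ 4 * ρ * H := by
      have e : ((x.q2 : ℝ) - y.q2) * c1 = (q1 * c2 - y.q2 * c1) - (q1 * c2 - x.q2 * c1) := by ring
      rw [e]
      refine (abs_sub _ _).trans ?_
      linarith
    rw [abs_mul, abs_of_pos (lt_of_lt_of_le hH hc')] at h3
    have h4 : |(x.q2 : ℝ) - y.q2| * H ≤ 4 * ρ * H :=
      (mul_le_mul_of_nonneg_left hc' (abs_nonneg _)).trans h3
    exact le_of_mul_le_mul_right h4 hH
  · intro y hy
    refine L6 hCd hP hg (b := b) (c1 := c1) (c2 := c2) (q1 := q1) (q2 := y.q2) ?_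
    intro x hx
    rw [Finset.mem_filter] at hx
    obtain ⟨f1, e1, e2, e3⟩ := h x hx.1
    exact ⟨f1, e1, e2, e3, hx.2⟩

theorem L4 (hCd : StmtCd) (hP : Pm H η δ E ρ) (hg : 1 ≤ g) (ha : a ≠ 0) {c1 c2 : ℤ}
    (h : ∀ x ∈ S, Fc H η δ E ρ g a b x ∧ x.c1 = c1 ∧ x.c2 = c2) :
    (S.card : ℝ) ≤ 9 * ρ * g * |(a : ℝ)| * lam H η δ E *
      (5 * ρ * (202 * ρ * H / |(a : ℝ)|)) := by
  have hρ : (1 : ℝ) ≤ ρ := by exact_mod_cast hP.rho
  have hg1 : (1 : ℝ) ≤ g := by exact_mod_cast hg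
  have ha1 : (1 : ℝ) ≤ |(a : ℝ)| := by
    have : (1 : ℤ) ≤ |a| := Int.one_le_abs ha
    exact_mod_cast this
  have hl := lam_pos hP
  have hX : (1 : ℝ) ≤ ρ * g * |(a : ℝ)| * lam H η δ E := by
    have h1 : (1 : ℝ) ≤ ρ * g := one_le_mul_of_one_le_of_one_le hρ hg1
    have h2 : (1 : ℝ) ≤ ρ * g * |(a : ℝ)| := one_le_mul_of_one_le_of_one_le h1 ha1
    exact one_le_mul_of_one_le_of_one_le h2 hl
  refine step (fun x => x.q1) (by positivity) ?_ ?_
  · refine (img (L := 8 * ρ * g * |(a : ℝ)| * lam H η δ E) _ (by nlinarith) ?_).trans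
      (by nlinarith)
    intro x hx y hy
    have h1 := (h x hx).1.qb
    have h2 := (h y hy).1.qb
    push_cast at h1 h2
    refine (abs_sub _ _).trans ?_
    linarith
  · intro y hy
    refine L5 hCd hP hg (b := b) (c1 := c1) (c2 := c2) (q1 := y.q1) ?_
    intro x hx
    rw [Finset.mem_filter] at hx
    obtain ⟨f1, e1, e2⟩ := h x hx.1
    exact ⟨f1, e1, e2, hx.2⟩

theorem L3 (hCd : StmtCd) (hP : Pm H η δ E ρ) (hg : 1 ≤ g) (ha : a ≠ 0)
    (hga : (g : ℤ) * |a| ≤ 2 * ρ * H) {c1 : ℤ}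
    (h : ∀ x ∈ S, Fc H η δ E ρ g a b x ∧ x.c1 = c1) :
    (S.card : ℝ) ≤ 6 * ρ * H / (g * |(a : ℝ)|) * (9 * ρ * g * |(a : ℝ)| * lam H η δ E *
      (5 * ρ * (202 * ρ * H / |(a : ℝ)|))) := by
  have hg1 : (1 : ℝ) ≤ g := by exact_mod_cast hg
  have ha1 : (1 : ℝ) ≤ |(a : ℝ)| := by
    have : (1 : ℤ) ≤ |a| := Int.one_le_abs ha
    exact_mod_cast this
  have hl := lam_pos hP
  have hga' : (g : ℝ) * |(a : ℝ)| ≤ 2 * ρ * H := by exact_mod_cast hga
  have hgp : (0 : ℝ) < g * |(a : ℝ)| := by positivity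
  refine step (fun x => x.c2) (by positivity) ?_ ?_
  · refine (img (L := 4 * ρ * H / (g * |(a : ℝ)|)) _ (by positivity) ?_).trans ?_
    · intro x hx y hy
      obtain ⟨f1, e1⟩ := h x hx
      obtain ⟨f2, e1'⟩ := h y hy
      have h1 := f1.cb
      have h2 := f2.cb
      rw [e1] at h1
      rw [e1'] at h2
      have h1' : |(a : ℝ) * x.c2 - b * c1| * g ≤ 2 * ρ * H := by exact_mod_cast h1
      have h2' : |(a : ℝ) * y.c2 - b * c1| * g ≤ 2 * ρ * H := by exact_mod_cast h2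
      rw [le_div_iff₀ hgp]
      have e : |(x.c2 : ℝ) - y.c2| * (g * |(a : ℝ)|) =
          |((a : ℝ) * x.c2 - b * c1) - (a * y.c2 - b * c1)| * g := by
        have e' : ((a : ℝ) * x.c2 - b * c1) - (a * y.c2 - b * c1) = a * (x.c2 - y.c2) := by ring
        rw [e', abs_mul]
        ring
      rw [e]
      have h3 := abs_sub ((a : ℝ) * x.c2 - b * c1) (a * y.c2 - b * c1)
      nlinarith
    · have : 1 ≤ 2 * ρ * H / (g * |(a : ℝ)|) := by
        rw [le_div_iff₀ hgp, one_mul]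
        exact hga'
      have e : 6 * ρ * H / (g * |(a : ℝ)|) = 4 * ρ * H / (g * |(a : ℝ)|) +
          2 * ρ * H / (g * |(a : ℝ)|) := by
        rw [← add_div]
        congr 1
        ring
      rw [e]
      linarith
  · intro y hy
    refine L4 hCd hP hg ha (b := b) (c1 := c1) (c2 := y.c2) ?_
    intro x hx
    rw [Finset.mem_filter] at hx
    obtain ⟨f1, e1⟩ := h x hx.1
    exact ⟨f1, e1, hx.2⟩

theorem L2 (hCd : StmtCd) (hP : Pm H η δ E ρ) (hg : 1 ≤ g) (ha : a ≠ 0)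
    (hga : (g : ℤ) * |a| ≤ 2 * ρ * H)
    (h : ∀ x ∈ S, Fc H η δ E ρ g a b x) :
    (S.card : ℝ) ≤ H * (6 * ρ * H / (g * |(a : ℝ)|) * (9 * ρ * g * |(a : ℝ)| * lam H η δ E *
      (5 * ρ * (202 * ρ * H / |(a : ℝ)|)))) := by
  have hl := lam_pos hP
  have hH1 : 1 ≤ H := hP.eta.trans hP.etaH
  have hH : (1 : ℝ) ≤ H := by exact_mod_cast hH1
  refine step (fun x => x.c1) (by positivity) ?_ ?_
  · refine (img (L := (H : ℝ) - 1) _ (by linarith) ?_).trans (by linarith)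
    intro x hx y hy
    have h1 := (h x hx).blk.blk.cc
    have h2 := (h y hy).blk.blk.cc
    have a1 := h1.l1
    have a2 := h1.u1
    have b1 := h2.l1
    have b2 := h2.u1
    have h3 : |x.c1 - y.c1| ≤ (H : ℤ) - 1 := by
      rw [abs_le]
      constructor <;> linarith
    exact_mod_cast h3
  · intro y hy
    refine L3 hCd hP hg ha hga (b := b) (c1 := y.c1) ?_
    intro x hx
    rw [Finset.mem_filter] at hx
    exact ⟨h x hx.1, hx.2⟩

theorem L1 (hCf : StmtCf) (hCd : StmtCd) (hP : Pm H η δ E ρ) (hg : 1 ≤ g)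
    (h : ∀ x ∈ S, BlkG H η δ E ρ g x ∧ x.p1 / g = a) :
    (S.card : ℝ) ≤ 490860 * ρ ^ 4 * (η * H ^ 2 * lam H η δ E) := by
  have hl := lam_pos hP
  have hH1 : 1 ≤ H := hP.eta.trans hP.etaH
  have hH : (1 : ℝ) ≤ H := by exact_mod_cast hH1
  rcases S.eq_empty_or_nonempty with rfl | ⟨z, hz⟩
  · simp only [Finset.card_empty, Nat.cast_zero]
    positivity
  have fz := fc hCf hP hg (h z hz).1
  rw [(h z hz).2] at fz
  have ha := fz.a0
  have hga := fz.ga
  have ha1 : (1 : ℝ) ≤ |(a : ℝ)| := by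
    have : (1 : ℤ) ≤ |a| := Int.one_le_abs ha
    exact_mod_cast this
  have hg1 : (1 : ℝ) ≤ g := by exact_mod_cast hg
  have key : (S.card : ℝ) ≤ (9 * |(a : ℝ)| * η / H) *
      (H * (6 * ρ * H / (g * |(a : ℝ)|) * (9 * ρ * g * |(a : ℝ)| * lam H η δ E *
      (5 * ρ * (202 * ρ * H / |(a : ℝ)|))))) := by
    refine step (fun x => x.p2 / g) (by positivity) ?_ ?_
    · have hub : ∀ x ∈ S, |((x.p2 / (g : ℤ) : ℤ) : ℝ) - a| ≤ 3 * |(a : ℝ)| * η / H := by
        intro x hx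
        have fx := fc hCf hP hg (h x hx).1
        rw [(h x hx).2] at fx
        have h1 := fx.ub
        rw [le_div_iff₀ (by linarith)]
        exact_mod_cast h1
      have hone : 1 ≤ 3 * |(a : ℝ)| * η / H := by
        refine le_trans ?_ (hub z hz)
        have h1 : z.p2 / (g : ℤ) - a ≠ 0 := fun hh => fz.ab (by linarith)
        have h2 : (1 : ℤ) ≤ |z.p2 / (g : ℤ) - a| := Int.one_le_abs h1
        exact_mod_cast h2
      refine (img (L := 2 * (3 * |(a : ℝ)| * η / H)) _ (by positivity) ?_).trans ?_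
      · intro x hx y hy
        have h1 := hub x hx
        have h2 := hub y hy
        have e : ((x.p2 / (g : ℤ) : ℤ) : ℝ) - ((y.p2 / (g : ℤ) : ℤ) : ℝ) =
            (((x.p2 / (g : ℤ) : ℤ) : ℝ) - a) - (((y.p2 / (g : ℤ) : ℤ) : ℝ) - a) := by ring
        rw [e]
        refine (abs_sub _ _).trans ?_
        linarith
      · have e : 9 * |(a : ℝ)| * η / H = 3 * (3 * |(a : ℝ)| * η / H) := by ring
        rw [e]
        linarith
    · intro y hy
      refine L2 hCd hP hg ha hga (b := y.p2 / g) ?_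
      intro x hx
      rw [Finset.mem_filter] at hx
      have fx := fc hCf hP hg (h x hx.1).1
      rw [(h x hx.1).2, hx.2] at fx
      exact fx
  refine key.trans (le_of_eq ?_)
  have e1 : |(a : ℝ)| ≠ 0 := by positivity
  have e2 : (g : ℝ) ≠ 0 := by positivity
  have e3 : (H : ℝ) ≠ 0 := by positivity
  field_simp
  ring

end

end CgM

open CgM in
theorem stmtCg (hCf : StmtCf) (hCd : StmtCd) : StmtCg := by
  refine ⟨2945160, 5, by norm_num, ?_⟩
  intro H η δ E ρ g hP hg S hS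
  have hl := lam_pos hP
  have hH1 : 1 ≤ H := hP.eta.trans hP.etaH
  have hH : (1 : ℝ) ≤ H := by exact_mod_cast hH1
  have hg1 : (1 : ℝ) ≤ g := by exact_mod_cast hg
  rcases S.eq_empty_or_nonempty with rfl | ⟨z, hz⟩
  · simp only [Finset.card_empty, Nat.cast_zero]
    positivity
  have key : (S.card : ℝ) ≤ (6 * ρ * H / g) *
      (490860 * ρ ^ 4 * (η * H ^ 2 * lam H η δ E)) := by
    refine step (fun x => x.p1 / g) (by positivity) ?_ ?_
    · have hub : ∀ x ∈ S, |((x.p1 / (g : ℤ) : ℤ) : ℝ)| ≤ 2 * ρ * H / g := by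
        intro x hx
        have fx := fc hCf hP hg (hS x hx)
        have h1 := fx.ga
        rw [le_div_iff₀ (by linarith), mul_comm]
        exact_mod_cast h1
      have hone : 1 ≤ 2 * ρ * H / (g : ℝ) := by
        refine le_trans ?_ (hub z hz)
        have h2 : (1 : ℤ) ≤ |z.p1 / (g : ℤ)| := Int.one_le_abs (fc hCf hP hg (hS z hz)).a0
        exact_mod_cast h2
      refine (img (L := 2 * (2 * ρ * H / g)) _ (by positivity) ?_).trans ?_
      · intro x hx y hy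
        have h1 := hub x hx
        have h2 := hub y hy
        refine (abs_sub _ _).trans ?_
        linarith
      · have e : 6 * ρ * H / (g : ℝ) = 3 * (2 * ρ * H / g) := by ring
        rw [e]
        linarith
    · intro y hy
      refine L1 hCf hCd hP hg (a := y.p1 / g) ?_
      intro x hx
      rw [Finset.mem_filter] at hx
      exact ⟨hS x hx.1, hx.2⟩
  refine key.trans (le_of_eq ?_)
  have e2 : (g : ℝ) ≠ 0 := by positivity
  field_simp
  ring

end Pool.Agent.A54.Av
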