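import Pool.Agent.Lib.MP_a54f13_nt.Av.SpecC

/-!
# Package `Av`: module `Cr1`, the number of `q`, using the divisibility
-/

set_option autoImplicit false

namespace Pool.Agent.A54.Av

noncomputable section

namespace Cr1M

/-- the parameter of a vector proportional to `(a, b)` -/
lemma exists_par {a b c1 c2 w1 w2 : ℤ} {g : ℕ} (hg : 1 ≤ g) (hab : IsCoprime a b) (ha : a ≠ 0)
    (hw : a * w2 = b * w1) (hd : (g : ℤ) ∣ w1 * c1 - w2 * c2) :
    ∃ j : ℤ, w1 = a * ((g / Int.gcd g (a * c1 - b * c2) : ℕ) : ℤ) * j ∧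
      w2 = b * ((g / Int.gcd g (a * c1 - b * c2) : ℕ) : ℤ) * j := by
  have h1 : a ∣ w1 := by
    have : a ∣ b * w1 := ⟨w2, hw.symm⟩
    exact hab.dvd_of_dvd_mul_left this
  obtain ⟨k, hk⟩ := h1
  have h2 : w2 = b * k := by
    apply mul_left_cancel₀ ha
    rw [hw, hk]
    ring
  obtain ⟨X, hX⟩ : ∃ X : ℤ, X = a * c1 - b * c2 := ⟨_, rfl⟩
  have h3 : (g : ℤ) ∣ X * k := by
    rw [hX]
    have : w1 * c1 - w2 * c2 = (a * c1 - b * c2) * k := by
      rw [hk, h2]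
      ring
    rwa [this] at hd
  rw [← hX]
  have h4 : ((g / Int.gcd g X : ℕ) : ℤ) ∣ k := by
    have hG : 0 < Int.gcd g X := by
      rcases Nat.eq_zero_or_pos (Int.gcd g X) with h | h
      · have := (Int.gcd_eq_zero_iff.1 h).1
        have : g = 0 := by exact_mod_cast this
        omega
      · exact h
    have h5 := Int.dvd_of_dvd_mul_right_of_gcd_one
      (a := (g : ℤ) / (Int.gcd g X : ℤ)) (b := X / (Int.gcd g X : ℤ)) (c := k) ?_ ?_
    · rwa [Int.natCast_div]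
    · have e1 : (g : ℤ) = (Int.gcd g X : ℤ) * ((g : ℤ) / (Int.gcd g X : ℤ)) :=
        (Int.mul_ediv_cancel' (Int.gcd_dvd_left _ _)).symm
      have e2 : X = (Int.gcd g X : ℤ) * (X / (Int.gcd g X : ℤ)) :=
        (Int.mul_ediv_cancel' (Int.gcd_dvd_right _ _)).symm
      obtain ⟨y, hy⟩ := h3
      refine ⟨y, ?_⟩
      have hG' : ((Int.gcd g X : ℕ) : ℤ) ≠ 0 := by
        have : Int.gcd g X ≠ 0 := by omega
        exact_mod_cast this
      apply mul_left_cancel₀ hG'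
      rw [← mul_assoc, ← mul_assoc, ← e2, ← e1]
      exact hy
    · exact Int.gcd_ediv_gcd_ediv_gcd hG
  obtain ⟨j, hj⟩ := h4
  refine ⟨j, ?_, ?_⟩
  · rw [hk, hj]
    ring
  · rw [h2, hj]
    ring

/-- the size of a fibre -/
lemma fibre {g : ℕ} {a b c1 c2 : ℤ} {Z : ℝ} (hg : 1 ≤ g) (hZ : 0 ≤ Z) (hab : IsCoprime a b)
    (ha : a ≠ 0) (F : Finset (ℤ × ℤ)) (hF : ∀ q ∈ F, ((|q.1| : ℤ) : ℝ) ≤ Z ∧
    (g : ℤ) ∣ q.1 * c1 - q.2 * c2)
    (hf : ∀ q ∈ F, ∀ q' ∈ F, a * q.2 - b * q.1 = a * q'.2 - b * q'.1) :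
    (F.card : ℝ) ≤ (1 + 2 * Z / (|(a : ℝ)| * g)) * (Int.gcd g (a * c1 - b * c2) : ℝ) := by
  have hgR : (1 : ℝ) ≤ g := by exact_mod_cast hg
  have haR : 0 < |(a : ℝ)| := abs_pos.2 (by exact_mod_cast ha)
  obtain ⟨G, hG⟩ : ∃ G : ℕ, G = Int.gcd g (a * c1 - b * c2) := ⟨_, rfl⟩
  have hGpos : 0 < G := by
    rw [hG]
    rcases Nat.eq_zero_or_pos (Int.gcd g (a * c1 - b * c2)) with h | h
    · have := (Int.gcd_eq_zero_iff.1 h).1
      have : g = 0 := by exact_mod_cast this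
      omega
    · exact h
  have hGR : (1 : ℝ) ≤ G := by exact_mod_cast hGpos
  have hGg : G ∣ g := by
    rw [hG]
    have := Int.gcd_dvd_left (g : ℤ) (a * c1 - b * c2)
    exact Int.natCast_dvd_natCast.1 this
  rw [← hG]
  rcases F.eq_empty_or_nonempty with rfl | ⟨q0, hq0⟩
  · rw [Finset.card_empty]
    push_cast
    positivity
  have hex : ∀ q : ℤ × ℤ, ∃ j : ℤ, q ∈ F → q.1 - q0.1 = a * ((g / G : ℕ) : ℤ) * j ∧
      q.2 - q0.2 = b * ((g / G : ℕ) : ℤ) * j := by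
    intro q
    by_cases hq : q ∈ F
    · have h1 : a * (q.2 - q0.2) = b * (q.1 - q0.1) := by
        have := hf q hq q0 hq0
        linarith
      have h2 : (g : ℤ) ∣ (q.1 - q0.1) * c1 - (q.2 - q0.2) * c2 := by
        have e : (q.1 - q0.1) * c1 - (q.2 - q0.2) * c2 =
            (q.1 * c1 - q.2 * c2) - (q0.1 * c1 - q0.2 * c2) := by ring
        rw [e]
        exact dvd_sub (hF q hq).2 (hF q0 hq0).2
      obtain ⟨j, hj1, hj2⟩ := exists_par hg hab ha h1 h2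
      rw [← hG] at hj1 hj2
      exact ⟨j, fun _ => ⟨hj1, hj2⟩⟩
    · exact ⟨0, fun h => absurd h hq⟩
  choose j hj using hex
  have hinj : Set.InjOn j (F : Set (ℤ × ℤ)) := by
    intro q hq q' hq' hqq
    have h1 := hj q hq
    have h2 := hj q' hq'
    rw [hqq] at h1
    apply Prod.ext
    · linarith [h1.1, h2.1]
    · linarith [h1.2, h2.2]
  have hm : (G : ℝ) * ((g / G : ℕ) : ℝ) = g := by
    exact_mod_cast Nat.mul_div_cancel' hGg
  have hmpos : (0 : ℝ) < ((g / G : ℕ) : ℝ) := by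
    have : 0 < g / G := Nat.div_pos (Nat.le_of_dvd (by omega) hGg) hGpos
    exact_mod_cast this
  have hL : 0 ≤ 2 * Z * G / (|(a : ℝ)| * g) := by positivity
  have hcard := card_int_le (F.image j) (2 * Z * G / (|(a : ℝ)| * g)) hL ?_
  · rw [Finset.card_image_of_injOn hinj] at hcard
    have e : (1 + 2 * Z / (|(a : ℝ)| * g)) * (G : ℝ) = 2 * Z * G / (|(a : ℝ)| * g) + G := by
      ring
    rw [e]
    linarith
  · intro x hx y hy
    obtain ⟨q, hq, rfl⟩ := Finset.mem_image.1 hx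
    obtain ⟨q', hq', rfl⟩ := Finset.mem_image.1 hy
    have h1 := (hj q hq).1
    have h2 := (hj q' hq').1
    have h3 : q.1 - q'.1 = a * ((g / G : ℕ) : ℤ) * (j q - j q') := by linarith
    have h4 : |(q.1 : ℝ) - q'.1| = |(a : ℝ)| * ((g / G : ℕ) : ℝ) * |((j q - j q' : ℤ) : ℝ)| := by
      have h5 : (q.1 : ℝ) - q'.1 = (a : ℝ) * ((g / G : ℕ) : ℝ) * ((j q - j q' : ℤ) : ℝ) := by
        clear hj h1 h2 hm hmpos
        generalize (g / G : ℕ) = m at h3 ⊢
        exact_mod_cast h3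
      rw [h5, abs_mul, abs_mul, abs_of_pos hmpos]
    have h6 : |(q.1 : ℝ) - q'.1| ≤ 2 * Z := by
      have h7 := (hF q hq).1
      have h8 := (hF q' hq').1
      push_cast at h7 h8
      have h9 := abs_sub (q.1 : ℝ) (q'.1 : ℝ)
      linarith
    rw [h4] at h6
    push_cast
    push_cast at h6
    rw [le_div_iff₀ (by positivity)]
    have h10 : |(a : ℝ)| * ((g / G : ℕ) : ℝ) * |(j q : ℝ) - (j q' : ℝ)| * G ≤ 2 * Z * G :=
      mul_le_mul_of_nonneg_right h6 (by positivity)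
    calc |(j q : ℝ) - (j q' : ℝ)| * (|(a : ℝ)| * g) =
        |(a : ℝ)| * ((g / G : ℕ) : ℝ) * |(j q : ℝ) - (j q' : ℝ)| * G := by
          rw [← hm]
          ring
      _ ≤ 2 * Z * G := h10

end Cr1M

open Cr1M in
theorem stmtCr1 : StmtCr1 := by
  intro H ρ g a b c1 c2 Z hH hρ hg hZ hab ha hc1 he Q hQ
  have hgR : (1 : ℝ) ≤ g := by exact_mod_cast hg
  have hρR : (1 : ℝ) ≤ ρ := by exact_mod_cast hρ
  have hHR : (1 : ℝ) ≤ H := by exact_mod_cast hH
  have haR : 1 ≤ |(a : ℝ)| := by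
    have : (1 : ℤ) ≤ |a| := Int.one_le_abs ha
    exact_mod_cast this
  have hc1R : (H : ℝ) ≤ c1 := by exact_mod_cast hc1
  have heR : |(a : ℝ) * c2 - b * c1| * g ≤ 2 * ρ * H := by exact_mod_cast he
  have him : ((Q.image (fun q => a * q.2 - b * q.1)).card : ℝ) ≤
      5 * ρ * (Z / g + |(a : ℝ)|) := by
    have h1 := card_int_le' (Q.image (fun q => a * q.2 - b * q.1))
      (2 * ρ * (Z / g + |(a : ℝ)|)) (by positivity) ?_
    · have h2 : 1 ≤ ρ * (Z / g + |(a : ℝ)|) := by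
        have h3 : 1 ≤ Z / g + |(a : ℝ)| := by
          have : 0 ≤ Z / g := by positivity
          linarith
        nlinarith
      linarith
    · intro x hx
      obtain ⟨q, hq, rfl⟩ := Finset.mem_image.1 hx
      obtain ⟨h1, h2, -⟩ := hQ q hq
      push_cast at h1 ⊢
      have h2R : |(q.1 : ℝ) * c2 - q.2 * c1| ≤ 2 * ρ * H := by exact_mod_cast h2
      have hid : ((a : ℝ) * q.2 - b * q.1) * c1 =
          q.1 * (a * c2 - b * c1) - a * (q.1 * c2 - q.2 * c1) := by ring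
      have h3 : |(a : ℝ) * q.2 - b * q.1| * c1 ≤
          |(q.1 : ℝ)| * |(a : ℝ) * c2 - b * c1| + |(a : ℝ)| * |(q.1 : ℝ) * c2 - q.2 * c1| := by
        have h4 : |(a : ℝ) * q.2 - b * q.1| * c1 = |((a : ℝ) * q.2 - b * q.1) * c1| := by
          rw [abs_mul, abs_of_nonneg (by linarith : (0 : ℝ) ≤ c1)]
        rw [h4, hid, ← abs_mul, ← abs_mul]
        exact abs_sub _ _
      have h5 : |(a : ℝ) * c2 - b * c1| ≤ 2 * ρ * H / g := by
        rw [le_div_iff₀ (by linarith)]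
        exact heR
      have h6 : |(q.1 : ℝ)| * |(a : ℝ) * c2 - b * c1| ≤ Z * (2 * ρ * H / g) :=
        mul_le_mul h1 h5 (abs_nonneg _) hZ
      have h7 : |(a : ℝ)| * |(q.1 : ℝ) * c2 - q.2 * c1| ≤ |(a : ℝ)| * (2 * ρ * H) :=
        mul_le_mul_of_nonneg_left h2R (abs_nonneg _)
      have h8 : |(a : ℝ) * q.2 - b * q.1| * H ≤ |(a : ℝ) * q.2 - b * q.1| * c1 :=
        mul_le_mul_of_nonneg_left hc1R (abs_nonneg _)
      have h9 : |(a : ℝ) * q.2 - b * q.1| * H ≤ (2 * ρ * (Z / g + |(a : ℝ)|)) * H := by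
        have e : (2 * ρ * (Z / g + |(a : ℝ)|)) * H =
            Z * (2 * ρ * H / g) + |(a : ℝ)| * (2 * ρ * H) := by
          ring
        rw [e]
        linarith
      exact le_of_mul_le_mul_right h9 (by linarith)
  have hfib : ∀ x ∈ Q.image (fun q => a * q.2 - b * q.1),
      ((Q.filter (fun q => a * q.2 - b * q.1 = x)).card : ℝ) ≤
        (1 + 2 * Z / (|(a : ℝ)| * g)) * (Int.gcd g (a * c1 - b * c2) : ℝ) := by
    intro x _
    refine fibre hg hZ hab ha _ ?_ ?_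
    · intro q hq
      obtain ⟨hq1, -⟩ := Finset.mem_filter.1 hq
      exact ⟨(hQ q hq1).1, (hQ q hq1).2.2⟩
    · intro q hq q' hq'
      rw [(Finset.mem_filter.1 hq).2, (Finset.mem_filter.1 hq').2]
  have hsum : (Q.card : ℝ) = ∑ x ∈ Q.image (fun q => a * q.2 - b * q.1),
      ((Q.filter (fun q => a * q.2 - b * q.1 = x)).card : ℝ) := by
    rw [Finset.card_eq_sum_card_image (fun q : ℤ × ℤ => a * q.2 - b * q.1) Q]
    push_cast
    rfl
  rw [hsum]
  have hb0 : 0 ≤ (1 + 2 * Z / (|(a : ℝ)| * g)) * (Int.gcd g (a * c1 - b * c2) : ℝ) := by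
    positivity
  calc ∑ x ∈ Q.image (fun q => a * q.2 - b * q.1),
      ((Q.filter (fun q => a * q.2 - b * q.1 = x)).card : ℝ)
      ≤ ∑ _x ∈ Q.image (fun q => a * q.2 - b * q.1),
        (1 + 2 * Z / (|(a : ℝ)| * g)) * (Int.gcd g (a * c1 - b * c2) : ℝ) :=
        Finset.sum_le_sum hfib
    _ = ((Q.image (fun q => a * q.2 - b * q.1)).card : ℝ) *
        ((1 + 2 * Z / (|(a : ℝ)| * g)) * (Int.gcd g (a * c1 - b * c2) : ℝ)) := by
        rw [Finset.sum_const, nsmul_eq_mul]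
    _ ≤ (5 * ρ * (Z / g + |(a : ℝ)|)) *
        ((1 + 2 * Z / (|(a : ℝ)| * g)) * (Int.gcd g (a * c1 - b * c2) : ℝ)) :=
        mul_le_mul_of_nonneg_right him hb0
    _ = 5 * ρ * (Z / g + |(a : ℝ)|) * (1 + 2 * Z / (|(a : ℝ)| * g)) *
      (Int.gcd g (a * c1 - b * c2) : ℝ) := by ring

end

end Pool.Agent.A54.Av
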