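import Pool.Agent.Lib.MP_a54f13_nt.Av.SpecC

/-!
# The sum of the gcds over the lower left entries (module `Cr2`)
-/

set_option autoImplicit false

namespace Pool.Agent.A54.Av.Cr2M

noncomputable section

/-- one divisor: the difference of two solutions -/
private theorem step (G G' K : ℕ) (a b e : ℤ) (hG : G = G' * K) (hG' : 0 < G')
    (hgcd : Int.gcd G (a ^ 2 - b ^ 2) = G') (hab : IsCoprime a b) (ha : a ≠ 0)
    (c d : ℤ × ℤ) (hc : a * c.2 - b * c.1 = e) (hd : a * d.2 - b * d.1 = e)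
    (hc' : (G : ℤ) ∣ a * c.1 - b * c.2) (hd' : (G : ℤ) ∣ a * d.1 - b * d.2) :
    a * (K : ℤ) ∣ c.1 - d.1 := by
  have h1 : a * (c.2 - d.2) = b * (c.1 - d.1) := by linarith
  have h2 : a ∣ c.1 - d.1 := hab.dvd_of_dvd_mul_left ⟨c.2 - d.2, h1.symm⟩
  obtain ⟨j, hj⟩ := h2
  have h3 : c.2 - d.2 = b * j := by
    apply mul_left_cancel₀ ha
    rw [h1, hj]
    ring
  have h4 : (G : ℤ) ∣ j * (a ^ 2 - b ^ 2) := by
    have h5 := dvd_sub hc' hd'
    have h6 : a * c.1 - b * c.2 - (a * d.1 - b * d.2) = j * (a ^ 2 - b ^ 2) := by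
      have h7 : a * c.1 - b * c.2 - (a * d.1 - b * d.2) =
          a * (c.1 - d.1) - b * (c.2 - d.2) := by ring
      rw [h7, hj, h3]
      ring
    rwa [h6] at h5
  have h8 : (G : ℤ) ∣ j * G' := by
    have h9 := Int.gcd_eq_gcd_ab (G : ℤ) (a ^ 2 - b ^ 2)
    rw [hgcd] at h9
    rw [h9, mul_add, ← mul_assoc, ← mul_assoc]
    exact dvd_add ((dvd_mul_left _ _).mul_right _) (h4.mul_right _)
  have h10 : (K : ℤ) ∣ j := by
    rw [hG] at h8
    push_cast at h8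
    rw [mul_comm j] at h8
    exact (mul_dvd_mul_iff_left (by exact_mod_cast hG'.ne')).1 h8
  rw [hj]
  exact mul_dvd_mul_left a h10

/-- the count for one divisor -/
private theorem cnt1 (H ρ g G : ℕ) (a b e : ℤ) (hρ : 1 ≤ ρ) (hg : 1 ≤ g) (hGg : G ∣ g)
    (hab : IsCoprime a b) (ha : a ≠ 0) (hga : (g : ℤ) * |a| ≤ 2 * ρ * H)
    (S : Finset (ℤ × ℤ)) (hS : ∀ c ∈ S, (H : ℤ) ≤ c.1 ∧ c.1 < 2 * H ∧ a * c.2 - b * c.1 = e ∧
      (G : ℤ) ∣ a * c.1 - b * c.2) :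
    (G : ℝ) * S.card ≤ 3 * ρ * H * (Int.gcd g (a ^ 2 - b ^ 2) : ℝ) / |(a : ℝ)| := by
  classical
  have hapos : 0 < |(a : ℝ)| := abs_pos.2 (by exact_mod_cast ha)
  rcases S.eq_empty_or_nonempty with rfl | ⟨c0, hc0⟩
  · rw [Finset.card_empty, Nat.cast_zero, mul_zero]
    positivity
  have hGpos : 0 < G := Nat.pos_of_dvd_of_pos hGg hg
  set G' := Int.gcd G (a ^ 2 - b ^ 2) with hG'
  have hG'pos : 0 < G' := Int.gcd_pos_of_ne_zero_left _ (by exact_mod_cast hGpos.ne')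
  have hG'G : G' ∣ G := by
    have := Int.gcd_dvd_left (G : ℤ) (a ^ 2 - b ^ 2)
    exact_mod_cast this
  obtain ⟨K, hK⟩ := hG'G
  have hKpos : 0 < K := Nat.pos_of_ne_zero fun h => by
    rw [h, mul_zero] at hK
    exact hGpos.ne' hK
  have haK : a * (K : ℤ) ≠ 0 := mul_ne_zero ha (by exact_mod_cast hKpos.ne')
  have hstep : ∀ c ∈ S, c.1 - c0.1 = a * (K : ℤ) * ((c.1 - c0.1) / (a * (K : ℤ))) := fun c hc =>
    (Int.mul_ediv_cancel' (step G G' K a b e hK hG'pos hG'.symm hab ha c c0 (hS c hc).2.2.1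
      (hS c0 hc0).2.2.1 (hS c hc).2.2.2 (hS c0 hc0).2.2.2)).symm
  have hinj : Set.InjOn (fun c : ℤ × ℤ => (c.1 - c0.1) / (a * (K : ℤ))) S := by
    intro c hc d hd hcd
    have h1 := hstep c hc
    have h2 := hstep d hd
    have hcd' : (c.1 - c0.1) / (a * (K : ℤ)) = (d.1 - c0.1) / (a * (K : ℤ)) := hcd
    have h3 : c.1 = d.1 := by
      rw [hcd'] at h1
      linarith
    have h4 : c.2 = d.2 := by
      have h5 := (hS c hc).2.2.1
      have h6 := (hS d hd).2.2.1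
      apply mul_left_cancel₀ ha
      rw [h3] at h5
      linarith
    exact Prod.ext h3 h4
  have hcard : ((S.image (fun c : ℤ × ℤ => (c.1 - c0.1) / (a * (K : ℤ)))).card : ℝ) ≤
      (H : ℝ) / (|(a : ℝ)| * K) + 1 := by
    refine card_int_le _ _ (by positivity) ?_
    intro x hx y hy
    obtain ⟨c, hc, rfl⟩ := Finset.mem_image.1 hx
    obtain ⟨d, hd, rfl⟩ := Finset.mem_image.1 hy
    have h1 := hstep c hc
    have h2 := hstep d hd
    have h3 : a * (K : ℤ) * ((c.1 - c0.1) / (a * (K : ℤ)) - (d.1 - c0.1) / (a * (K : ℤ))) =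
        c.1 - d.1 := by
      rw [mul_sub, ← h1, ← h2]
      ring
    have h4 : |c.1 - d.1| ≤ (H : ℤ) := by
      rw [abs_le]
      have h5 := hS c hc
      have h6 := hS d hd
      constructor <;> linarith [h5.1, h5.2.1, h6.1, h6.2.1]
    rw [← h3, abs_mul, abs_mul] at h4
    have h5 : ((|a| * |(K : ℤ)| *
        |(c.1 - c0.1) / (a * (K : ℤ)) - (d.1 - c0.1) / (a * (K : ℤ))| : ℤ) : ℝ) ≤ ((H : ℤ) : ℝ) := by
      exact_mod_cast h4
    rw [le_div_iff₀ (by positivity)]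
    rw [Nat.abs_cast] at h5
    rw [Int.cast_mul, Int.cast_mul, Int.cast_natCast, Int.cast_natCast] at h5
    have h6 : ((|a| : ℤ) : ℝ) = |(a : ℝ)| := by push_cast; rfl
    rw [h6] at h5
    linarith
  rw [Finset.card_image_of_injOn hinj] at hcard
  have hgcd : (G' : ℝ) ≤ (Int.gcd g (a ^ 2 - b ^ 2) : ℝ) := by
    have h1 : G' ∣ Int.gcd g (a ^ 2 - b ^ 2) := by
      apply Int.dvd_gcd
      · have h2 : (G : ℤ) ∣ (g : ℤ) := by exact_mod_cast hGg
        exact (Int.gcd_dvd_left (G : ℤ) (a ^ 2 - b ^ 2)).trans h2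
      · exact Int.gcd_dvd_right (G : ℤ) (a ^ 2 - b ^ 2)
    have h3 : 0 < Int.gcd g (a ^ 2 - b ^ 2) :=
      Int.gcd_pos_of_ne_zero_left _ (by exact_mod_cast (show g ≠ 0 by omega))
    exact_mod_cast Nat.le_of_dvd h3 h1
  have hGle : (G : ℝ) * |(a : ℝ)| ≤ 2 * ρ * H := by
    have h1 : (G : ℝ) ≤ g := by exact_mod_cast Nat.le_of_dvd hg hGg
    have h2 : ((g : ℤ) * |a| : ℤ) ≤ (2 * ρ * H : ℤ) := hga
    have h3 : (g : ℝ) * |(a : ℝ)| ≤ 2 * ρ * H := by exact_mod_cast h2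
    exact (mul_le_mul_of_nonneg_right h1 hapos.le).trans h3
  have hKr : (0 : ℝ) < K := by exact_mod_cast hKpos
  have hGr : (G : ℝ) = G' * K := by exact_mod_cast hK
  have hG'r : (1 : ℝ) ≤ G' := by exact_mod_cast hG'pos
  have hρr : (1 : ℝ) ≤ ρ := by exact_mod_cast hρ
  have hHr : (0 : ℝ) ≤ H := by positivity
  rw [le_div_iff₀ hapos]
  have e1 : (G : ℝ) * ((H : ℝ) / (|(a : ℝ)| * K) + 1) * |(a : ℝ)| = G' * H + G * |(a : ℝ)| := by
    rw [hGr]
    field_simp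
  have e2 : (G : ℝ) * S.card * |(a : ℝ)| ≤ G' * H + G * |(a : ℝ)| := by
    rw [← e1]
    have h0 : (0 : ℝ) ≤ G := by positivity
    exact mul_le_mul_of_nonneg_right (mul_le_mul_of_nonneg_left hcard h0) hapos.le
  have e3 : (G : ℝ) * |(a : ℝ)| ≤ 2 * ρ * H * G' := by
    refine hGle.trans ?_
    have : (0 : ℝ) ≤ 2 * ρ * H := by positivity
    nlinarith
  have e4 : (G' : ℝ) * H ≤ ρ * H * G' := by
    have : (0 : ℝ) ≤ H * G' := by positivity
    nlinarith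
  have e5 : 3 * (ρ : ℝ) * H * G' ≤ 3 * ρ * H * (Int.gcd g (a ^ 2 - b ^ 2) : ℝ) :=
    mul_le_mul_of_nonneg_left hgcd (by positivity)
  linarith

/-- for fixed `e` -/
private theorem cnt2 (H ρ g : ℕ) (a b e : ℤ) (hρ : 1 ≤ ρ) (hg : 1 ≤ g)
    (hab : IsCoprime a b) (ha : a ≠ 0) (hga : (g : ℤ) * |a| ≤ 2 * ρ * H)
    (S : Finset (ℤ × ℤ)) (hS : ∀ c ∈ S, (H : ℤ) ≤ c.1 ∧ c.1 < 2 * H ∧ a * c.2 - b * c.1 = e) :
    ∑ c ∈ S, (Int.gcd g (a * c.1 - b * c.2) : ℝ) ≤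
      g.divisors.card * (3 * ρ * H * (Int.gcd g (a ^ 2 - b ^ 2) : ℝ) / |(a : ℝ)|) := by
  classical
  have h1 : ∀ c ∈ S, (Int.gcd g (a * c.1 - b * c.2) : ℝ) ≤
      ∑ G ∈ g.divisors, if (G : ℤ) ∣ a * c.1 - b * c.2 then (G : ℝ) else 0 := by
    intro c _
    have hmem : Int.gcd g (a * c.1 - b * c.2) ∈ g.divisors := by
      rw [Nat.mem_divisors]
      refine ⟨?_, by omega⟩
      have := Int.gcd_dvd_left (g : ℤ) (a * c.1 - b * c.2)
      exact_mod_cast this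
    have h2 := Finset.single_le_sum
      (f := fun G : ℕ => if (G : ℤ) ∣ a * c.1 - b * c.2 then (G : ℝ) else 0)
      (fun G _ => by split_ifs <;> positivity) hmem
    rw [if_pos (Int.gcd_dvd_right (g : ℤ) (a * c.1 - b * c.2))] at h2
    exact h2
  refine (Finset.sum_le_sum h1).trans ?_
  rw [Finset.sum_comm, ← nsmul_eq_mul]
  refine Finset.sum_le_card_nsmul _ _ _ fun G hG => ?_
  rw [← Finset.sum_filter, Finset.sum_const, nsmul_eq_mul, mul_comm]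
  refine cnt1 H ρ g G a b e hρ hg (Nat.dvd_of_mem_divisors hG) hab ha hga _ fun c hc => ?_
  rw [Finset.mem_filter] at hc
  obtain ⟨h3, h4, h5⟩ := hS c hc.1
  exact ⟨h3, h4, h5, hc.2⟩

end

end Pool.Agent.A54.Av.Cr2M

namespace Pool.Agent.A54.Av

open Cr2M in
theorem stmtCr2 : StmtCr2 := by
  classical
  intro H ρ g a b hH hρ hg hab ha hga A hA
  have hapos : 0 < |(a : ℝ)| := abs_pos.2 (by exact_mod_cast ha)
  have hgpos : (0 : ℝ) < g := by exact_mod_cast hg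
  have hb : (1 : ℝ) ≤ 2 * ρ * H / g := by
    rw [le_div_iff₀ hgpos, one_mul]
    have h1 : (1 : ℤ) ≤ |a| := Int.one_le_abs ha
    have h2 : (g : ℤ) ≤ 2 * ρ * H := by nlinarith
    exact_mod_cast h2
  have hcard : ((A.image (fun c : ℤ × ℤ => a * c.2 - b * c.1)).card : ℝ) ≤
      6 * ρ * H / g := by
    have h1 := card_int_le' (A.image (fun c : ℤ × ℤ => a * c.2 - b * c.1)) (2 * ρ * H / g)
      (by positivity) (fun x hx => by
        obtain ⟨c, hc, rfl⟩ := Finset.mem_image.1 hx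
        rw [le_div_iff₀ hgpos]
        have h2 := (hA c hc).2.2
        exact_mod_cast h2)
    have h3 : 6 * (ρ : ℝ) * H / g = 3 * (2 * ρ * H / g) := by ring
    rw [h3]
    linarith
  rw [← Finset.sum_fiberwise_of_maps_to
    (g := fun c : ℤ × ℤ => a * c.2 - b * c.1)
    (t := A.image (fun c : ℤ × ℤ => a * c.2 - b * c.1))
    (fun c hc => Finset.mem_image_of_mem _ hc)]
  have h4 : ∀ e ∈ A.image (fun c : ℤ × ℤ => a * c.2 - b * c.1),
      ∑ c ∈ A with (fun c : ℤ × ℤ => a * c.2 - b * c.1) c = e,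
        (Int.gcd g (a * c.1 - b * c.2) : ℝ) ≤
      g.divisors.card * (3 * ρ * H * (Int.gcd g (a ^ 2 - b ^ 2) : ℝ) / |(a : ℝ)|) := by
    intro e _
    refine cnt2 H ρ g a b e hρ hg hab ha hga _ fun c hc => ?_
    rw [Finset.mem_filter] at hc
    obtain ⟨h5, h6, -⟩ := hA c hc.1
    exact ⟨h5, h6, hc.2⟩
  refine (Finset.sum_le_sum h4).trans ?_
  rw [Finset.sum_const, nsmul_eq_mul]
  have h7 : (0 : ℝ) ≤
      g.divisors.card * (3 * ρ * H * (Int.gcd g (a ^ 2 - b ^ 2) : ℝ) / |(a : ℝ)|) := by positivity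
  refine (mul_le_mul_of_nonneg_right hcard h7).trans (le_of_eq ?_)
  field_simp
  ring

end Pool.Agent.A54.Av
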