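import Pool.Agent.Lib.MP_a54f13_nt.Av.SpecC

/-!
# Package `Av`, module `Cr3`: the sum of the gcds over `(a, b)`
-/

set_option autoImplicit false

namespace Pool.Agent.A54.Av

noncomputable section

namespace Cr3M

lemma card_nz (S : Finset ℤ) (M : ℕ) (h : ∀ k ∈ S, k ≠ 0 ∧ |k| ≤ M) : S.card ≤ 2 * M := by
  have h1 : S ⊆ (Finset.Icc (-(M : ℤ)) M).erase 0 := by
    intro k hk
    obtain ⟨h0, h2⟩ := h k hk
    exact Finset.mem_erase.2 ⟨h0, Finset.mem_Icc.2 (abs_le.1 h2)⟩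
  have h2 := Finset.card_le_card h1
  rw [Finset.card_erase_of_mem (Finset.mem_Icc.2 ⟨by omega, by omega⟩), Int.card_Icc] at h2
  omega

lemma card_dvd (S : Finset ℤ) (G : ℕ) (hG : 1 ≤ G) (U : ℝ) (hU : 0 ≤ U)
    (h : ∀ u ∈ S, u ≠ 0 ∧ (G : ℤ) ∣ u ∧ |(u : ℝ)| ≤ U) : (G : ℝ) * S.card ≤ 2 * U := by
  have hG0 : (G : ℤ) ≠ 0 := by omega
  have hGr : (0 : ℝ) < G := by exact_mod_cast hG
  have hinj : Set.InjOn (fun u : ℤ => u / G) (S : Set ℤ) := by
    intro x hx y hy hxy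
    obtain ⟨a, ha⟩ := (h x hx).2.1
    obtain ⟨b, hb⟩ := (h y hy).2.1
    simp only at hxy
    rw [ha, hb, Int.mul_ediv_cancel_left _ hG0, Int.mul_ediv_cancel_left _ hG0] at hxy
    rw [ha, hb, hxy]
  have hcard := Finset.card_image_of_injOn hinj
  have h1 := card_nz (S.image fun u => u / (G : ℤ)) ⌊U / G⌋₊ (by
    intro k hk
    obtain ⟨u, hu, rfl⟩ := Finset.mem_image.1 hk
    obtain ⟨h0, ⟨a, ha⟩, h2⟩ := h u hu
    rw [ha, Int.mul_ediv_cancel_left _ hG0]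
    constructor
    · rintro rfl
      exact h0 (by rw [ha, mul_zero])
    · rw [Int.abs_eq_natAbs]
      have h3 : a.natAbs ≤ ⌊U / G⌋₊ := by
        apply Nat.le_floor
        rw [le_div_iff₀ hGr]
        have h4 : (u : ℝ) = G * a := by rw [ha]; push_cast; ring
        rw [h4, abs_mul, abs_of_pos hGr] at h2
        have h5 : ((a.natAbs : ℕ) : ℝ) = |(a : ℝ)| := by
          rw [← Int.cast_abs, Int.abs_eq_natAbs]; simp
        rw [h5]
        linarith
      exact_mod_cast h3)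
  rw [hcard] at h1
  have h2 : (S.card : ℝ) ≤ 2 * (⌊U / G⌋₊ : ℝ) := by exact_mod_cast h1
  have h3 : ((⌊U / G⌋₊ : ℕ) : ℝ) ≤ U / G := Nat.floor_le (by positivity)
  have h4 : (S.card : ℝ) ≤ 2 * (U / G) := by linarith
  calc (G : ℝ) * S.card ≤ G * (2 * (U / G)) := by gcongr
    _ = 2 * U := by field_simp

lemma sum_gcd (g : ℕ) (hg : 1 ≤ g) (S : Finset ℤ) (U : ℝ) (hU : 0 ≤ U)
    (h : ∀ u ∈ S, u ≠ 0 ∧ |(u : ℝ)| ≤ U) :
    ∑ u ∈ S, (Int.gcd g u : ℝ) ≤ 2 * U * g.divisors.card := by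
  classical
  have h1 : ∀ u ∈ S, (Int.gcd g u : ℝ) ≤
      ∑ G ∈ g.divisors, if (G : ℤ) ∣ u then (G : ℝ) else 0 := by
    intro u hu
    have h2 : Int.gcd g u ∈ g.divisors := by
      refine Nat.mem_divisors.2 ⟨?_, by omega⟩
      have : ((Int.gcd g u : ℕ) : ℤ) ∣ (g : ℤ) := Int.gcd_dvd_left _ _
      exact_mod_cast this
    have h3 := Finset.single_le_sum (f := fun G : ℕ => if (G : ℤ) ∣ u then (G : ℝ) else 0)
      (fun G _ => by split_ifs <;> positivity) h2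
    have h4 : ((Int.gcd g u : ℕ) : ℤ) ∣ u := Int.gcd_dvd_right _ _
    simp only [h4, if_true] at h3
    exact h3
  calc ∑ u ∈ S, (Int.gcd g u : ℝ)
      ≤ ∑ u ∈ S, ∑ G ∈ g.divisors, (if (G : ℤ) ∣ u then (G : ℝ) else 0) :=
        Finset.sum_le_sum h1
    _ = ∑ G ∈ g.divisors, ∑ u ∈ S, (if (G : ℤ) ∣ u then (G : ℝ) else 0) := Finset.sum_comm
    _ ≤ ∑ G ∈ g.divisors, 2 * U := by
        apply Finset.sum_le_sum
        intro G hG
        rw [← Finset.sum_filter, Finset.sum_const, nsmul_eq_mul, mul_comm]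
        apply card_dvd _ G (Nat.pos_of_mem_divisors hG) U hU
        intro u hu
        obtain ⟨h5, h6⟩ := Finset.mem_filter.1 hu
        exact ⟨(h u h5).1, h6, (h u h5).2⟩
    _ = 2 * U * g.divisors.card := by
        rw [Finset.sum_const, nsmul_eq_mul, mul_comm]

end Cr3M

open Cr3M in
theorem stmtCr3 : StmtCr3 := by
  classical
  intro g N U hg hN hU hUN P hP
  -- the two projections
  let A : Finset ℤ := P.image fun p => p.2 - p.1
  let B : Finset ℤ := P.image fun p => p.1 + p.2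
  have hA := sum_gcd g hg A U hU (by
    intro u hu
    obtain ⟨p, hp, rfl⟩ := Finset.mem_image.1 hu
    obtain ⟨-, h2, -, h4⟩ := hP p hp
    exact ⟨fun h => h2 (by omega), h4⟩)
  have hB := sum_gcd g hg B (5 * N) (by linarith) (by
    intro v hv
    obtain ⟨p, hp, rfl⟩ := Finset.mem_image.1 hv
    obtain ⟨h1, -, h3, h4⟩ := hP p hp
    refine ⟨h3, ?_⟩
    push_cast at h4 ⊢
    have h5 := abs_le.1 h1
    have h6 := abs_le.1 h4
    rw [abs_le]
    constructor <;> linarith [h5.1, h5.2, h6.1, h6.2])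
  have hinj : Set.InjOn (fun p : ℤ × ℤ => (p.2 - p.1, p.1 + p.2)) (P : Set (ℤ × ℤ)) := by
    intro p _ q _ hpq
    simp only [Prod.mk.injEq] at hpq
    obtain ⟨h1, h2⟩ := hpq
    apply Prod.ext <;> omega
  have h1 : ∀ p ∈ P, (Int.gcd g (p.1 ^ 2 - p.2 ^ 2) : ℝ) ≤
      (Int.gcd g (p.2 - p.1) : ℝ) * (Int.gcd g (p.1 + p.2) : ℝ) := by
    intro p hp
    have h2 : (p.1 ^ 2 - p.2 ^ 2 : ℤ) = -((p.2 - p.1) * (p.1 + p.2)) := by ring
    have h3 : Int.gcd g (p.1 ^ 2 - p.2 ^ 2) ≤ Int.gcd g (p.2 - p.1) * Int.gcd g (p.1 + p.2) := by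
      rw [h2, Int.gcd_neg]
      unfold Int.gcd
      rw [Int.natAbs_mul]
      apply Nat.le_of_dvd
      · apply Nat.mul_pos <;>
        · apply Nat.gcd_pos_of_pos_left
          simp only [Int.natAbs_natCast]
          omega
      · exact Nat.gcd_mul_right_dvd_mul_gcd _ _ _
    exact_mod_cast h3
  calc ∑ p ∈ P, (Int.gcd g (p.1 ^ 2 - p.2 ^ 2) : ℝ)
      ≤ ∑ p ∈ P, (Int.gcd g (p.2 - p.1) : ℝ) * (Int.gcd g (p.1 + p.2) : ℝ) :=
        Finset.sum_le_sum h1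
    _ = ∑ r ∈ P.image (fun p : ℤ × ℤ => (p.2 - p.1, p.1 + p.2)),
          (Int.gcd g r.1 : ℝ) * (Int.gcd g r.2 : ℝ) := by
        rw [Finset.sum_image hinj]
    _ ≤ ∑ r ∈ A ×ˢ B, (Int.gcd g r.1 : ℝ) * (Int.gcd g r.2 : ℝ) := by
        apply Finset.sum_le_sum_of_subset_of_nonneg
        · intro r hr
          obtain ⟨p, hp, rfl⟩ := Finset.mem_image.1 hr
          exact Finset.mem_product.2 ⟨Finset.mem_image_of_mem _ hp, Finset.mem_image_of_mem _ hp⟩
        · intro r _ _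
          positivity
    _ = (∑ u ∈ A, (Int.gcd g u : ℝ)) * ∑ v ∈ B, (Int.gcd g v : ℝ) := by
        rw [Finset.sum_product, Finset.sum_mul_sum]
    _ ≤ (2 * U * g.divisors.card) * (2 * (5 * N) * g.divisors.card) := by
        apply mul_le_mul hA hB
        · exact Finset.sum_nonneg fun v _ => by positivity
        · positivity
    _ = 20 * U * N * (g.divisors.card : ℝ) ^ 2 := by ring

end

end Pool.Agent.A54.Av
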