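import Pool.Agent.Lib.MP_a54f13_nt.Av.SpecC
import Pool.Agent.Lib.MP_640417_ag.All.Divisor

/-!
# Package `Av`, module Cs: the main class, sum over the gcd
-/

set_option autoImplicit false

namespace Pool.Agent.A54.Av.CsM

/-- the bound for one value of the gcd -/
lemma one_g (Y l D : ℝ) (hY : 0 ≤ Y) (hl : 0 ≤ l) (hD : 0 ≤ D) (g : ℕ) (hg : 1 ≤ g) (N t : ℝ)
    (hN : 0 ≤ N) (ht0 : 0 ≤ t) (ht : t ≤ D * (g : ℝ) ^ (1 / 4 : ℝ)) (h1 : N ≤ Y / g)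
    (h2 : N ≤ Y * l * t ^ 3 / (g : ℝ) ^ 2) :
    N ≤ Y * √l * √(D ^ 3) * (g : ℝ) ^ (-(9 / 8) : ℝ) := by
  have hg0 : (0 : ℝ) < g := by exact_mod_cast hg
  have h3 : N ^ 2 ≤ (Y * √l * √(D ^ 3) * (g : ℝ) ^ (-(9 / 8) : ℝ)) ^ 2 := by
    have h4 : N ^ 2 ≤ Y / g * (Y * l * t ^ 3 / (g : ℝ) ^ 2) := by
      rw [pow_two]
      exact mul_le_mul h1 h2 hN (by positivity)
    have h5 : t ^ 3 ≤ D ^ 3 * (g : ℝ) ^ (3 / 4 : ℝ) := by
      calc t ^ 3 ≤ (D * (g : ℝ) ^ (1 / 4 : ℝ)) ^ 3 := pow_le_pow_left₀ ht0 ht 3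
        _ = D ^ 3 * (g : ℝ) ^ (3 / 4 : ℝ) := by
          rw [mul_pow, ← Real.rpow_natCast ((g : ℝ) ^ (1 / 4 : ℝ)), ← Real.rpow_mul hg0.le]
          norm_num
    have h6 : (Y * √l * √(D ^ 3) * (g : ℝ) ^ (-(9 / 8) : ℝ)) ^ 2 =
        Y ^ 2 * l * D ^ 3 * (g : ℝ) ^ (-(9 / 4) : ℝ) := by
      rw [mul_pow, mul_pow, mul_pow, Real.sq_sqrt hl, Real.sq_sqrt (by positivity),
        ← Real.rpow_natCast ((g : ℝ) ^ (-(9 / 8) : ℝ)), ← Real.rpow_mul hg0.le]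
      norm_num
    have h7 : (g : ℝ) ^ (-(9 / 4) : ℝ) = (g : ℝ) ^ (3 / 4 : ℝ) / (g : ℝ) ^ 3 := by
      rw [← Real.rpow_natCast (g : ℝ) 3, ← Real.rpow_sub hg0]
      norm_num
    rw [h6, h7]
    refine le_trans h4 ?_
    have h8 : Y / g * (Y * l * t ^ 3 / (g : ℝ) ^ 2) = Y ^ 2 * l * t ^ 3 / (g : ℝ) ^ 3 := by
      field_simp
    rw [h8]
    have h9 : Y ^ 2 * l * D ^ 3 * ((g : ℝ) ^ (3 / 4 : ℝ) / (g : ℝ) ^ 3) =
        Y ^ 2 * l * (D ^ 3 * (g : ℝ) ^ (3 / 4 : ℝ)) / (g : ℝ) ^ 3 := by ring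
    rw [h9]
    gcongr
  exact (pow_le_pow_iff_left₀ hN (by positivity) (by norm_num)).1 h3

end Pool.Agent.A54.Av.CsM

namespace Pool.Agent.A54.Av

theorem stmtCs (hCg : StmtCg) (hCr : StmtCr) : StmtCs := by
  classical
  obtain ⟨C1, M1, hC1, hg1⟩ := hCg
  obtain ⟨C2, M2, hC2, hr1⟩ := hCr
  obtain ⟨D, hD0, hD⟩ := Pool.Agent.Lib.MP_640417_ag.All.divisor_bound (1 / 4) (by norm_num)
  set C := max C1 C2 with hC
  set M := max M1 M2 with hM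
  have hC0 : 0 ≤ C := le_trans hC1 (le_max_left _ _)
  have hsum : Summable fun g : ℕ => (g : ℝ) ^ (-(9 / 8) : ℝ) :=
    Real.summable_nat_rpow.2 (by norm_num)
  set Z : ℝ := ∑' g : ℕ, (g : ℝ) ^ (-(9 / 8) : ℝ) with hZ
  have hZ0 : 0 ≤ Z := tsum_nonneg fun g => by positivity
  refine ⟨C * √(D ^ 3) * Z, M, by positivity, ?_⟩
  intro H η δ E ρ hPm S hS
  have hρ : (1 : ℝ) ≤ ρ := by exact_mod_cast hPm.rho
  have hl : 0 ≤ lam H η δ E := by unfold lam; positivity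
  set l := lam H η δ E with hldef
  set X : ℝ := (η : ℝ) * H ^ 3 * l with hX
  have hX0 : 0 ≤ X := by positivity
  set Y : ℝ := C * (ρ : ℝ) ^ M * X with hY
  have hY0 : 0 ≤ Y := by positivity
  have hcard : (S.card : ℝ) = ∑ g ∈ S.image (fun x : O8 => Int.gcd x.p1 x.p2),
      ((S.filter (fun x => Int.gcd x.p1 x.p2 = g)).card : ℝ) := by
    rw [Finset.card_eq_sum_card_image (fun x : O8 => Int.gcd x.p1 x.p2) S]
    push_cast
    rfl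
  rw [hcard]
  have hone : ∀ g ∈ S.image (fun x : O8 => Int.gcd x.p1 x.p2),
      ((S.filter (fun x => Int.gcd x.p1 x.p2 = g)).card : ℝ) ≤
        Y * √l * √(D ^ 3) * (g : ℝ) ^ (-(9 / 8) : ℝ) := by
    intro g hg
    obtain ⟨x0, hx0, hgx⟩ := Finset.mem_image.1 hg
    have hg1' : 1 ≤ g := by
      rw [Nat.one_le_iff_ne_zero]
      intro h0
      rw [← hgx] at h0
      have h2 := Int.gcd_eq_zero_iff.1 h0
      exact (hS x0 hx0).2.1 (by rw [h2.1, h2.2])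
    have hg0 : (0 : ℝ) < g := by exact_mod_cast hg1'
    have hS' : ∀ x ∈ S.filter (fun x => Int.gcd x.p1 x.p2 = g), BlkG H η δ E ρ g x := by
      intro x hx
      obtain ⟨hxS, hxg⟩ := Finset.mem_filter.1 hx
      obtain ⟨b1, b2, b3⟩ := hS x hxS
      exact ⟨b1, b2, b3, hxg⟩
    have a1 := hg1 H η δ E ρ g hPm hg1' _ hS'
    have a2 := hr1 H η δ E ρ g hPm hg1' _ hS'
    refine CsM.one_g Y l D hY0 hl hD0.le g hg1' _ (g.divisors.card : ℝ) (Nat.cast_nonneg _)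
      (Nat.cast_nonneg _) (hD g hg1') ?_ ?_
    · refine le_trans a1 ?_
      rw [hY, hX]
      have e1 : C1 * (ρ : ℝ) ^ M1 ≤ C * (ρ : ℝ) ^ M :=
        mul_le_mul (le_max_left _ _) (pow_le_pow_right₀ hρ (le_max_left _ _)) (by positivity) hC0
      gcongr
    · refine le_trans a2 ?_
      have e1 : C2 * (ρ : ℝ) ^ M2 ≤ C * (ρ : ℝ) ^ M :=
        mul_le_mul (le_max_right _ _) (pow_le_pow_right₀ hρ (le_max_right _ _)) (by positivity) hC0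
      have e2 : Y * l * (g.divisors.card : ℝ) ^ 3 / (g : ℝ) ^ 2 =
          C * (ρ : ℝ) ^ M * ((η : ℝ) * H ^ 3 * l ^ 2) * (g.divisors.card : ℝ) ^ 3 / (g : ℝ) ^ 2 := by
        rw [hY, hX]; ring
      rw [e2]
      gcongr
  refine le_trans (Finset.sum_le_sum hone) ?_
  rw [← Finset.mul_sum]
  have h3 : ∑ g ∈ S.image (fun x : O8 => Int.gcd x.p1 x.p2), (g : ℝ) ^ (-(9 / 8) : ℝ) ≤ Z :=
    hsum.sum_le_tsum _ fun g _ => by positivity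
  calc Y * √l * √(D ^ 3) * ∑ g ∈ S.image (fun x : O8 => Int.gcd x.p1 x.p2), (g : ℝ) ^ (-(9 / 8) : ℝ)
      ≤ Y * √l * √(D ^ 3) * Z := by gcongr
    _ = C * √(D ^ 3) * Z * (ρ : ℝ) ^ M * (X * √l) := by rw [hY]; ring

end Pool.Agent.A54.Av
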