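import Pool.Agent.Lib.MP_a54f13_nt.Av.SpecA

/-!
# Package `Av`: decay of Maass forms in the cusp
-/

set_option autoImplicit false

namespace Pool.Agent.A54.Av.DecM

open MeasureTheory Filter Topology Set
open scoped ContDiff ComplexConjugate UpperHalfPlane MatrixGroups ENNReal
open Pool.Agent.A54.Half (H0 isOpen_H0)

noncomputable section

/-- `∂/∂x` -/
def dX (G : ℂ → ℝ) (z : ℂ) : ℝ := fderiv ℝ G z 1

/-- `∂/∂y` -/
def dY (G : ℂ → ℝ) (z : ℂ) : ℝ := fderiv ℝ G z Complex.I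

/-- smooth on the half-plane -/
abbrev Sm (G : ℂ → ℝ) : Prop := ContDiffOn ℝ ∞ G H0

lemma mk_mem {x y : ℝ} (hy : 0 < y) : (⟨x, y⟩ : ℂ) ∈ H0 := hy

lemma Sm.dX {G : ℂ → ℝ} (h : Sm G) : Sm (dX G) :=
  (h.fderiv_of_isOpen (m := ∞) isOpen_H0 (by simp)).clm_apply contDiffOn_const

lemma Sm.dY {G : ℂ → ℝ} (h : Sm G) : Sm (dY G) :=
  (h.fderiv_of_isOpen (m := ∞) isOpen_H0 (by simp)).clm_apply contDiffOn_const

lemma Sm.at {G : ℂ → ℝ} (h : Sm G) {z : ℂ} (hz : z ∈ H0) : ContDiffAt ℝ ∞ G z :=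
  h.contDiffAt (isOpen_H0.mem_nhds hz)

lemma Sm.diff {G : ℂ → ℝ} (h : Sm G) {z : ℂ} (hz : z ∈ H0) : DifferentiableAt ℝ G z :=
  (h.at hz).differentiableAt (by simp)

lemma mk_eq (x y : ℝ) : (⟨x, y⟩ : ℂ) = (x : ℂ) + (y : ℂ) * Complex.I := by
  apply Complex.ext <;> simp

lemma hasX {G : ℂ → ℝ} (h : Sm G) (x : ℝ) {y : ℝ} (hy : 0 < y) :
    HasDerivAt (fun x : ℝ => G ⟨x, y⟩) (dX G ⟨x, y⟩) x := by
  have h1 : HasDerivAt (fun x : ℝ => (⟨x, y⟩ : ℂ)) 1 x := by
    have h2 : (fun x : ℝ => (⟨x, y⟩ : ℂ)) = fun x : ℝ => (x : ℂ) + (y : ℂ) * Complex.I := by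
      funext x; exact mk_eq x y
    rw [h2]
    exact (Complex.ofRealCLM.hasDerivAt).add_const _
  exact (h.diff (mk_mem hy)).hasFDerivAt.comp_hasDerivAt x h1

lemma hasY {G : ℂ → ℝ} (h : Sm G) (x : ℝ) {y : ℝ} (hy : 0 < y) :
    HasDerivAt (fun y : ℝ => G ⟨x, y⟩) (dY G ⟨x, y⟩) y := by
  have h1 : HasDerivAt (fun y : ℝ => (⟨x, y⟩ : ℂ)) Complex.I y := by
    have h2 : (fun y : ℝ => (⟨x, y⟩ : ℂ)) = fun y : ℝ => (x : ℂ) + (y : ℂ) * Complex.I := by
      funext y; exact mk_eq x y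
    rw [h2]
    have h3 : HasDerivAt (fun y : ℝ => (y : ℂ) * Complex.I) (1 * Complex.I) y :=
      (Complex.ofRealCLM.hasDerivAt).mul_const _
    rw [one_mul] at h3
    exact h3.const_add _
  exact (h.diff (mk_mem hy)).hasFDerivAt.comp_hasDerivAt y h1

lemma cont_mk : Continuous fun p : ℝ × ℝ => (⟨p.1, p.2⟩ : ℂ) := by
  have : (fun p : ℝ × ℝ => (⟨p.1, p.2⟩ : ℂ)) = fun p => (p.1 : ℂ) + (p.2 : ℂ) * Complex.I := by
    funext p; exact mk_eq _ _
  rw [this]; fun_prop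

lemma cont_x {φ : ℂ → ℝ} (hφ : ContinuousOn φ H0) {y : ℝ} (hy : 0 < y) :
    Continuous fun x : ℝ => φ ⟨x, y⟩ := by
  rw [continuous_iff_continuousAt]
  intro x
  have h1 : ContinuousAt φ ⟨x, y⟩ := hφ.continuousAt (isOpen_H0.mem_nhds (mk_mem hy))
  have h2 : ContinuousAt (fun x : ℝ => (⟨x, y⟩ : ℂ)) x :=
    (cont_mk.comp (continuous_id.prodMk continuous_const)).continuousAt
  exact ContinuousAt.comp (g := φ) h1 h2

/-- differentiation under the integral sign -/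
lemma der_int {φ φ' : ℂ → ℝ} (hφ : ContinuousOn φ H0) (hφ' : ContinuousOn φ' H0)
    (hd : ∀ x y : ℝ, 0 < y → HasDerivAt (fun y => φ ⟨x, y⟩) (φ' ⟨x, y⟩) y) {y : ℝ} (hy : 0 < y) :
    HasDerivAt (fun y => ∫ x in (0 : ℝ)..1, φ ⟨x, y⟩) (∫ x in (0 : ℝ)..1, φ' ⟨x, y⟩) y := by
  have hK : IsCompact ((fun p : ℝ × ℝ => (⟨p.1, p.2⟩ : ℂ)) '' (Icc 0 1 ×ˢ Icc (y / 2) (2 * y))) :=
    (isCompact_Icc.prod isCompact_Icc).image cont_mk
  have hKH : (fun p : ℝ × ℝ => (⟨p.1, p.2⟩ : ℂ)) '' (Icc 0 1 ×ˢ Icc (y / 2) (2 * y)) ⊆ H0 := by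
    rintro z ⟨p, hp, rfl⟩
    have h1 := hp.2.1
    exact mk_mem (by linarith)
  obtain ⟨B, hB⟩ := hK.exists_bound_of_continuousOn (hφ'.mono hKH)
  have hs : Ioo (y / 2) (2 * y) ∈ 𝓝 y := Ioo_mem_nhds (by linarith) (by linarith)
  refine (intervalIntegral.hasDerivAt_integral_of_dominated_loc_of_deriv_le
    (F := fun y x => φ ⟨x, y⟩) (F' := fun y x => φ' ⟨x, y⟩) (bound := fun _ => B) hs ?_ ?_ ?_ ?_ ?_
    ?_).2
  · filter_upwards [hs] with v hv
    exact (cont_x hφ (by linarith [hv.1] : (0 : ℝ) < v)).aestronglyMeasurable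
  · exact (cont_x hφ hy).intervalIntegrable _ _
  · exact (cont_x hφ' hy).aestronglyMeasurable
  · refine Eventually.of_forall fun x hx v hv => ?_
    rw [uIoc_of_le zero_le_one] at hx
    exact hB _ ⟨(x, v), ⟨⟨hx.1.le, hx.2⟩, hv.1.le, hv.2.le⟩, rfl⟩
  · exact intervalIntegrable_const
  · exact Eventually.of_forall fun x _ v hv => hd x v (by linarith [hv.1])

/-! ### Second derivatives -/

lemma fd2 {G : ℂ → ℝ} (h : Sm G) {z : ℂ} (hz : z ∈ H0) (v u : ℂ) :
    fderiv ℝ (fun w => fderiv ℝ G w v) z u = fderiv ℝ (fderiv ℝ G) z u v := by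
  have hd2 : DifferentiableAt ℝ (fderiv ℝ G) z :=
    ((h.at hz).fderiv_right (m := ∞) (by simp)).differentiableAt (by simp)
  have h1 : HasFDerivAt (fun w => fderiv ℝ G w v)
      ((ContinuousLinearMap.apply ℝ ℝ v).comp (fderiv ℝ (fderiv ℝ G) z)) z :=
    (ContinuousLinearMap.apply ℝ ℝ v).hasFDerivAt.comp z hd2.hasFDerivAt
  rw [h1.fderiv]
  rfl

lemma comm {G : ℂ → ℝ} (h : Sm G) {z : ℂ} (hz : z ∈ H0) : dX (dY G) z = dY (dX G) z := by
  have hd2 : DifferentiableAt ℝ (fderiv ℝ G) z :=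
    ((h.at hz).fderiv_right (m := ∞) (by simp)).differentiableAt (by simp)
  have hd : ∀ᶠ w in 𝓝 z, DifferentiableAt ℝ G w :=
    (isOpen_H0.mem_nhds hz |> eventually_of_mem) fun w hw => h.diff hw
  have hsymm : fderiv ℝ (fderiv ℝ G) z 1 Complex.I = fderiv ℝ (fderiv ℝ G) z Complex.I 1 := by
    refine second_derivative_symmetric_of_eventually (f := G) (f' := fderiv ℝ G) ?_
      hd2.hasFDerivAt 1 Complex.I
    exact hd.mono fun w hw => hw.hasFDerivAt
  unfold DecM.dX DecM.dY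
  rw [fd2 h hz, fd2 h hz, hsymm]

lemma lap_eq {G : ℂ → ℝ} (h : Sm G) {z : ℂ} (hz : z ∈ H0) :
    Laplacian.laplacian G z = dX (dX G) z + dY (dY G) z := by
  rw [InnerProductSpace.laplacian_eq_iteratedFDeriv_complexPlane]
  unfold DecM.dX DecM.dY
  rw [fd2 h hz, fd2 h hz]
  simp only [iteratedFDeriv_two_apply, Matrix.cons_val_zero, Matrix.cons_val_one]

lemma congrX {G G' : ℂ → ℝ} (h : ∀ z ∈ H0, G z = G' z) {z : ℂ} (hz : z ∈ H0) :
    dX G z = dX G' z := by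
  unfold DecM.dX
  rw [Filter.EventuallyEq.fderiv_eq (eventually_of_mem (isOpen_H0.mem_nhds hz) h)]

lemma congrY {G G' : ℂ → ℝ} (h : ∀ z ∈ H0, G z = G' z) {z : ℂ} (hz : z ∈ H0) :
    dY G z = dY G' z := by
  unfold DecM.dY
  rw [Filter.EventuallyEq.fderiv_eq (eventually_of_mem (isOpen_H0.mem_nhds hz) h)]

lemma uniqX {G : ℂ → ℝ} (h : Sm G) {x y g : ℝ} (hy : 0 < y)
    (hg : HasDerivAt (fun x : ℝ => G ⟨x, y⟩) g x) : dX G ⟨x, y⟩ = g :=
  (hasX h x hy).unique hg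

/-- the class of functions to which `f` and `∂f/∂x` belong -/
structure Cls (lam : ℝ) (G : ℂ → ℝ) : Prop where
  sm : Sm G
  per : ∀ z ∈ H0, G (z + 1) = G z
  eq : ∀ z ∈ H0, dX (dX G) z + dY (dY G) z = -(lam / z.im ^ 2) * G z
  mean : ∀ y : ℝ, 0 < y → ∫ x in (0 : ℝ)..1, G ⟨x, y⟩ = 0

lemma Cls.per1 {lam : ℝ} {G : ℂ → ℝ} (h : Cls lam G) {y : ℝ} (hy : 0 < y) :
    G ⟨1, y⟩ = G ⟨0, y⟩ := by
  have h1 := h.per ⟨0, y⟩ (mk_mem hy)
  have h2 : (⟨0, y⟩ : ℂ) + 1 = ⟨1, y⟩ := by apply Complex.ext <;> simp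
  rwa [h2] at h1

lemma Cls.dX {lam : ℝ} {G : ℂ → ℝ} (h : Cls lam G) : Cls lam (dX G) := by
  refine ⟨h.sm.dX, ?_, ?_, ?_⟩
  · intro z hz
    have h1 : DecM.dX (fun w => G (w + 1)) z = DecM.dX G z := congrX h.per hz
    unfold DecM.dX at h1 ⊢
    rw [← h1, fderiv_comp_add_right]
  · intro z hz
    have e1 : DecM.dY (DecM.dY (DecM.dX G)) z = DecM.dX (DecM.dY (DecM.dY G)) z := by
      rw [comm h.sm.dY hz]
      exact congrY (fun w hw => (comm h.sm hw).symm) hz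
    rw [e1]
    have hs : Sm (fun w => DecM.dX (DecM.dX G) w + DecM.dY (DecM.dY G) w) :=
      h.sm.dX.dX.add h.sm.dY.dY
    have e2 : DecM.dX (DecM.dX (DecM.dX G)) z + DecM.dX (DecM.dY (DecM.dY G)) z =
        DecM.dX (fun w => DecM.dX (DecM.dX G) w + DecM.dY (DecM.dY G) w) z := by
      have h3 := fderiv_fun_add (h.sm.dX.dX.diff hz) (h.sm.dY.dY.diff hz)
      show _ = fderiv ℝ (fun w => DecM.dX (DecM.dX G) w + DecM.dY (DecM.dY G) w) z 1
      rw [h3]
      rfl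
    rw [e2]
    obtain ⟨x, y⟩ := z
    have hy : 0 < y := hz
    apply uniqX hs hy
    have h2 : (fun x : ℝ => DecM.dX (DecM.dX G) ⟨x, y⟩ + DecM.dY (DecM.dY G) ⟨x, y⟩) =
        fun x : ℝ => -(lam / y ^ 2) * G ⟨x, y⟩ := by
      funext x'
      exact h.eq _ (mk_mem hy)
    rw [h2]
    exact (hasX h.sm x hy).const_mul _
  · intro y hy
    rw [intervalIntegral.integral_eq_sub_of_hasDerivAt (fun x _ => hasX h.sm x hy)
      ((cont_x h.sm.dX.continuousOn hy).intervalIntegrable _ _), h.per1 hy, sub_self]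

/-! ### Energies -/

/-- the energy -/
def En (G : ℂ → ℝ) (y : ℝ) : ℝ := ∫ x in (0 : ℝ)..1, G ⟨x, y⟩ ^ 2

/-- its derivative -/
def En1 (G : ℂ → ℝ) (y : ℝ) : ℝ := ∫ x in (0 : ℝ)..1, 2 * (G ⟨x, y⟩ * dY G ⟨x, y⟩)

/-- the second derivative -/
def En2 (G : ℂ → ℝ) (y : ℝ) : ℝ :=
  ∫ x in (0 : ℝ)..1, 2 * (dY G ⟨x, y⟩ * dY G ⟨x, y⟩ + G ⟨x, y⟩ * dY (dY G) ⟨x, y⟩)

lemma hasEn {G : ℂ → ℝ} (h : Sm G) {y : ℝ} (hy : 0 < y) : HasDerivAt (En G) (En1 G y) y := by
  refine der_int (φ := fun z => G z ^ 2) (φ' := fun z => 2 * (G z * dY G z)) ?_ ?_ ?_ hy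
  · exact h.continuousOn.pow 2
  · exact (h.continuousOn.mul h.dY.continuousOn).const_mul 2
  · intro x y hy
    have h1 := (hasY h x hy).mul (hasY h x hy)
    have h2 : (fun y : ℝ => G ⟨x, y⟩ ^ 2) = fun y : ℝ => G ⟨x, y⟩ * G ⟨x, y⟩ := by
      funext y; ring
    show HasDerivAt (fun y : ℝ => G ⟨x, y⟩ ^ 2) (2 * (G ⟨x, y⟩ * dY G ⟨x, y⟩)) y
    rw [h2, show 2 * (G ⟨x, y⟩ * dY G ⟨x, y⟩) =
      dY G ⟨x, y⟩ * G ⟨x, y⟩ + G ⟨x, y⟩ * dY G ⟨x, y⟩ by ring]
    exact h1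

lemma hasEn1 {G : ℂ → ℝ} (h : Sm G) {y : ℝ} (hy : 0 < y) : HasDerivAt (En1 G) (En2 G y) y := by
  refine der_int (φ := fun z => 2 * (G z * dY G z))
    (φ' := fun z => 2 * (dY G z * dY G z + G z * dY (dY G) z)) ?_ ?_ ?_ hy
  · exact (h.continuousOn.mul h.dY.continuousOn).const_mul 2
  · exact ((h.dY.continuousOn.mul h.dY.continuousOn).add
      (h.continuousOn.mul h.dY.dY.continuousOn)).const_mul 2
  · intro x y hy
    exact ((hasY h x hy).mul (hasY h.dY x hy)).const_mul 2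

lemma En_nonneg (G : ℂ → ℝ) (y : ℝ) : 0 ≤ En G y :=
  intervalIntegral.integral_nonneg zero_le_one fun x _ => sq_nonneg _

/-- integration by parts in `x` -/
lemma ibp {lam : ℝ} {G : ℂ → ℝ} (h : Cls lam G) {y : ℝ} (hy : 0 < y) :
    ∫ x in (0 : ℝ)..1, (dX G ⟨x, y⟩ * dX G ⟨x, y⟩ + G ⟨x, y⟩ * dX (dX G) ⟨x, y⟩) = 0 := by
  have hc : Continuous fun x : ℝ => dX G ⟨x, y⟩ * dX G ⟨x, y⟩ + G ⟨x, y⟩ * dX (dX G) ⟨x, y⟩ :=
    ((cont_x h.sm.dX.continuousOn hy).mul (cont_x h.sm.dX.continuousOn hy)).add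
      ((cont_x h.sm.continuousOn hy).mul (cont_x h.sm.dX.dX.continuousOn hy))
  rw [intervalIntegral.integral_eq_sub_of_hasDerivAt
    (f := fun x : ℝ => G ⟨x, y⟩ * dX G ⟨x, y⟩)
    (fun x _ => (hasX h.sm x hy).mul (hasX h.sm.dX x hy)) (hc.intervalIntegrable _ _)]
  rw [h.per1 hy, h.dX.per1 hy, sub_self]

lemma En2_ge {lam : ℝ} {G : ℂ → ℝ} (h : Cls lam G) {y : ℝ} (hy : 0 < y) :
    2 * En (dX G) y - 2 * (lam / y ^ 2) * En G y ≤ En2 G y := by
  have hG := cont_x h.sm.continuousOn hy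
  have hX := cont_x h.sm.dX.continuousOn hy
  have hY := cont_x h.sm.dY.continuousOn hy
  have hXX := cont_x h.sm.dX.dX.continuousOn hy
  have hYY := cont_x h.sm.dY.dY.continuousOn hy
  have e1 : En2 G y = (2 * ∫ x in (0 : ℝ)..1, dY G ⟨x, y⟩ * dY G ⟨x, y⟩) +
      2 * En (dX G) y - 2 * (lam / y ^ 2) * En G y := by
    have e2 : ∀ x : ℝ, 2 * (dY G ⟨x, y⟩ * dY G ⟨x, y⟩ + G ⟨x, y⟩ * dY (dY G) ⟨x, y⟩) =
        2 * (dY G ⟨x, y⟩ * dY G ⟨x, y⟩) + 2 * dX G ⟨x, y⟩ ^ 2 -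
          2 * (lam / y ^ 2) * G ⟨x, y⟩ ^ 2 - 2 * (dX G ⟨x, y⟩ * dX G ⟨x, y⟩ +
            G ⟨x, y⟩ * dX (dX G) ⟨x, y⟩) := by
      intro x
      have h1 := h.eq ⟨x, y⟩ (mk_mem hy)
      have h2 : dY (dY G) ⟨x, y⟩ = -(lam / y ^ 2) * G ⟨x, y⟩ - dX (dX G) ⟨x, y⟩ := by
        linarith
      rw [h2]; ring
    have c1 : Continuous fun x : ℝ => 2 * (dY G ⟨x, y⟩ * dY G ⟨x, y⟩) :=
      continuous_const.mul (hY.mul hY)
    have c2 : Continuous fun x : ℝ => 2 * dX G ⟨x, y⟩ ^ 2 := continuous_const.mul (hX.pow 2)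
    have c3 : Continuous fun x : ℝ => 2 * (lam / y ^ 2) * G ⟨x, y⟩ ^ 2 :=
      continuous_const.mul (hG.pow 2)
    have c4 : Continuous fun x : ℝ => 2 * (dX G ⟨x, y⟩ * dX G ⟨x, y⟩ +
        G ⟨x, y⟩ * dX (dX G) ⟨x, y⟩) := continuous_const.mul ((hX.mul hX).add (hG.mul hXX))
    have c12 : Continuous fun x : ℝ => 2 * (dY G ⟨x, y⟩ * dY G ⟨x, y⟩) +
        2 * dX G ⟨x, y⟩ ^ 2 := c1.add c2
    have c123 : Continuous fun x : ℝ => 2 * (dY G ⟨x, y⟩ * dY G ⟨x, y⟩) +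
        2 * dX G ⟨x, y⟩ ^ 2 - 2 * (lam / y ^ 2) * G ⟨x, y⟩ ^ 2 := c12.sub c3
    unfold En2 En
    rw [intervalIntegral.integral_congr (fun x _ => e2 x)]
    rw [intervalIntegral.integral_sub (c123.intervalIntegrable _ _) (c4.intervalIntegrable _ _),
      intervalIntegral.integral_sub (c12.intervalIntegrable _ _) (c3.intervalIntegrable _ _),
      intervalIntegral.integral_add (c1.intervalIntegrable _ _) (c2.intervalIntegrable _ _),
      intervalIntegral.integral_const_mul, intervalIntegral.integral_const_mul,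
      intervalIntegral.integral_const_mul, intervalIntegral.integral_const_mul, ibp h hy, mul_zero,
      sub_zero]
  rw [e1]
  have h3 : 0 ≤ ∫ x in (0 : ℝ)..1, dY G ⟨x, y⟩ * dY G ⟨x, y⟩ :=
    intervalIntegral.integral_nonneg zero_le_one fun _ _ => mul_self_nonneg _
  linarith

/-- the sup norm is bounded by the energy of the derivative -/
lemma sup_le {lam : ℝ} {G : ℂ → ℝ} (h : Cls lam G) {y : ℝ} (hy : 0 < y) {x : ℝ}
    (hx : x ∈ Icc (0 : ℝ) 1) : G ⟨x, y⟩ ^ 2 ≤ En (dX G) y := by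
  have hG := cont_x h.sm.continuousOn hy
  have hX := cont_x h.sm.dX.continuousOn hy
  -- a zero
  obtain ⟨x0, hx0, h0⟩ : ∃ x0 ∈ Ioo (0 : ℝ) 1, G ⟨x0, y⟩ = 0 := by
    refine exists_hasDerivAt_eq_zero (f := fun u => ∫ x in (0 : ℝ)..u, G ⟨x, y⟩)
      (f' := fun u => G ⟨u, y⟩) zero_lt_one ?_ ?_ ?_
    · exact (intervalIntegral.continuous_primitive (fun a b => hG.intervalIntegrable a b)
        0).continuousOn
    · show ∫ x in (0 : ℝ)..0, G ⟨x, y⟩ = ∫ x in (0 : ℝ)..1, G ⟨x, y⟩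
      rw [intervalIntegral.integral_same, h.mean y hy]
    · intro u _
      exact intervalIntegral.integral_hasDerivAt_right (hG.intervalIntegrable _ _)
        hG.aestronglyMeasurable.stronglyMeasurableAtFilter hG.continuousAt
  have key : ∀ a b : ℝ, 0 ≤ a → a ≤ b → b ≤ 1 → (G ⟨b, y⟩ - G ⟨a, y⟩) ^ 2 ≤ En (dX G) y := by
    intro a b ha hab hb
    obtain ⟨I, hI⟩ : ∃ I, I = G ⟨b, y⟩ - G ⟨a, y⟩ := ⟨_, rfl⟩
    have h1 : ∫ x in a..b, dX G ⟨x, y⟩ = I := by
      rw [hI]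
      exact intervalIntegral.integral_eq_sub_of_hasDerivAt (fun x _ => hasX h.sm x hy)
        (hX.intervalIntegrable _ _)
    have h2 : 0 ≤ ∫ x in a..b, (dX G ⟨x, y⟩ - I) ^ 2 :=
      intervalIntegral.integral_nonneg hab fun _ _ => sq_nonneg _
    have h3 : ∫ x in a..b, (dX G ⟨x, y⟩ - I) ^ 2 =
        (∫ x in a..b, dX G ⟨x, y⟩ ^ 2) - 2 * I * (∫ x in a..b, dX G ⟨x, y⟩) + I ^ 2 * (b - a) := by
      have e1 : ∀ x : ℝ, (dX G ⟨x, y⟩ - I) ^ 2 =
          dX G ⟨x, y⟩ ^ 2 - 2 * I * dX G ⟨x, y⟩ + I ^ 2 := fun x => by ring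
      rw [intervalIntegral.integral_congr (fun x _ => e1 x), intervalIntegral.integral_add,
        intervalIntegral.integral_sub, intervalIntegral.integral_const_mul,
        intervalIntegral.integral_const, smul_eq_mul, mul_comm (b - a)]
      all_goals apply Continuous.intervalIntegrable; fun_prop
    have h4 : ∫ x in a..b, dX G ⟨x, y⟩ ^ 2 ≤ En (dX G) y := by
      unfold En
      apply intervalIntegral.integral_mono_interval ha hab hb
      · exact Eventually.of_forall fun _ => sq_nonneg _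
      · exact (hX.pow 2).intervalIntegrable _ _
    rw [← hI]
    rw [h3, h1] at h2
    nlinarith [sq_nonneg I]
  rcases le_total x0 x with h1 | h1
  · have := key x0 x hx0.1.le h1 hx.2
    rwa [h0, sub_zero] at this
  · have := key x x0 hx.1 h1 hx0.2.le
    rwa [h0, zero_sub, neg_sq] at this

lemma En_le {lam : ℝ} {G : ℂ → ℝ} (h : Cls lam G) {y : ℝ} (hy : 0 < y) :
    En G y ≤ En (dX G) y := by
  have hG := cont_x h.sm.continuousOn hy
  have h1 : En G y ≤ ∫ _x in (0 : ℝ)..1, En (dX G) y := by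
    unfold En
    apply intervalIntegral.integral_mono_on zero_le_one ((hG.pow 2).intervalIntegrable _ _)
      (intervalIntegrable_const)
    intro x hx
    exact sup_le h hy hx
  rwa [intervalIntegral.integral_const, sub_zero, one_smul] at h1

/-! ### A dichotomy for `u'' ≥ u` -/

lemma dich {u u1 u2 : ℝ → ℝ} {Y : ℝ} (h1 : ∀ y, Y ≤ y → HasDerivAt u (u1 y) y)
    (h2 : ∀ y, Y ≤ y → HasDerivAt u1 (u2 y) y) (h3 : ∀ y, Y ≤ y → u y ≤ u2 y) :
    (∀ y, Y ≤ y → u y * Real.exp y ≤ u Y * Real.exp Y) ∨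
      ∃ c Y' : ℝ, 0 < c ∧ Y ≤ Y' ∧ ∀ y, Y' ≤ y → c * Real.exp y ≤ u y := by
  -- `w = u' + u`, `w e^{-y}` is nondecreasing
  have hw : ∀ y, Y ≤ y → HasDerivAt (fun y => (u1 y + u y) * Real.exp (-y))
      ((u2 y - u y) * Real.exp (-y)) y := by
    intro y hy
    have e1 : HasDerivAt (fun y => Real.exp (-y)) (-Real.exp (-y)) y := by
      have := (hasDerivAt_neg y).exp
      simpa using this
    exact (((h2 y hy).fun_add (h1 y hy)).fun_mul e1).congr_deriv (by ring)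
  have hwm : MonotoneOn (fun y => (u1 y + u y) * Real.exp (-y)) (Ici Y) := by
    apply monotoneOn_of_deriv_nonneg (convex_Ici Y)
    · exact fun y hy => (hw y hy).continuousAt.continuousWithinAt
    · exact fun y hy => (hw y (interior_subset hy)).differentiableAt.differentiableWithinAt
    · intro y hy
      rw [(hw y (interior_subset hy)).deriv]
      exact mul_nonneg (by linarith [h3 y (interior_subset hy)]) (Real.exp_pos _).le
  have hv : ∀ y, Y ≤ y → HasDerivAt (fun y => u y * Real.exp y) ((u1 y + u y) * Real.exp y) y := by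
    intro y hy
    exact ((h1 y hy).fun_mul (Real.hasDerivAt_exp y)).congr_deriv (by ring)
  by_cases hpos : ∃ y1, Y ≤ y1 ∧ 0 < u1 y1 + u y1
  · right
    obtain ⟨y1, hy1, hw1⟩ := hpos
    obtain ⟨a, ha⟩ : ∃ a, a = (u1 y1 + u y1) * Real.exp (-y1) := ⟨_, rfl⟩
    have ha0 : 0 < a := by rw [ha]; exact mul_pos hw1 (Real.exp_pos _)
    have hlow : ∀ y, y1 ≤ y → a * Real.exp y ≤ u1 y + u y := by
      intro y hy
      have := hwm (show y1 ∈ Ici Y from hy1) (show y ∈ Ici Y from hy1.trans hy) hy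
      simp only at this
      rw [← ha] at this
      have h4 := mul_le_mul_of_nonneg_right this (Real.exp_pos y).le
      rw [mul_assoc (u1 y + u y), ← Real.exp_add, neg_add_cancel, Real.exp_zero, mul_one] at h4
      exact h4
    -- `u e^y - a e^{2y} / 2` is nondecreasing
    have hz : ∀ y, y1 ≤ y → HasDerivAt (fun y => u y * Real.exp y - a / 2 * Real.exp (2 * y))
        ((u1 y + u y) * Real.exp y - a * Real.exp (2 * y)) y := by
      intro y hy
      have e1 : HasDerivAt (fun y : ℝ => Real.exp (2 * y)) (Real.exp (2 * y) * 2) y := by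
        have := ((hasDerivAt_id y).const_mul 2).exp
        simpa using this
      exact ((hv y (hy1.trans hy)).fun_sub (e1.const_mul (a / 2))).congr_deriv (by ring)
    have hzm : MonotoneOn (fun y => u y * Real.exp y - a / 2 * Real.exp (2 * y)) (Ici y1) := by
      apply monotoneOn_of_deriv_nonneg (convex_Ici y1)
      · exact fun y hy => (hz y hy).continuousAt.continuousWithinAt
      · exact fun y hy => (hz y (interior_subset hy)).differentiableAt.differentiableWithinAt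
      · intro y hy
        rw [(hz y (interior_subset hy)).deriv]
        have h4 := mul_le_mul_of_nonneg_right (hlow y (interior_subset hy)) (Real.exp_pos y).le
        have h5 : Real.exp (2 * y) = Real.exp y * Real.exp y := by
          rw [← Real.exp_add]; ring_nf
        rw [h5]
        linarith
    obtain ⟨b, hb⟩ : ∃ b, b = u y1 * Real.exp y1 - a / 2 * Real.exp (2 * y1) := ⟨_, rfl⟩
    -- for large `y`, `a / 4 * exp (2 y) ≥ |b|`
    obtain ⟨y2, hy2⟩ : ∃ y2 : ℝ, ∀ y, y2 ≤ y → -b ≤ a / 4 * Real.exp (2 * y) := by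
      refine ⟨|b| * 4 / a, fun y hy => ?_⟩
      have h4 : 2 * y + 1 ≤ Real.exp (2 * y) := Real.add_one_le_exp _
      have h5 : |b| * 4 / a * a = |b| * 4 := by field_simp
      have h6 : |b| * 4 ≤ y * a := by nlinarith
      have h7 := neg_abs_le b
      have h8 : 0 ≤ |b| * 4 / a := by positivity
      have h9 : y ≤ Real.exp (2 * y) := by linarith
      nlinarith
    refine ⟨a / 4, max y1 y2, by positivity, hy1.trans (le_max_left _ _), fun y hy => ?_⟩
    have hy1' : y1 ≤ y := (le_max_left _ _).trans hy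
    have h4 := hzm (self_mem_Ici) (show y ∈ Ici y1 from hy1') hy1'
    simp only at h4
    rw [← hb] at h4
    have h5 := hy2 y ((le_max_right _ _).trans hy)
    have h6 : a / 4 * Real.exp (2 * y) ≤ u y * Real.exp y := by linarith
    have h7 : Real.exp (2 * y) = Real.exp y * Real.exp y := by
      rw [← Real.exp_add]; ring_nf
    rw [h7, ← mul_assoc] at h6
    exact le_of_mul_le_mul_right h6 (Real.exp_pos y)
  · left
    push Not at hpos
    have hvm : AntitoneOn (fun y => u y * Real.exp y) (Ici Y) := by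
      apply antitoneOn_of_deriv_nonpos (convex_Ici Y)
      · exact fun y hy => (hv y hy).continuousAt.continuousWithinAt
      · exact fun y hy => (hv y (interior_subset hy)).differentiableAt.differentiableWithinAt
      · intro y hy
        rw [(hv y (interior_subset hy)).deriv]
        exact mul_nonpos_of_nonpos_of_nonneg (hpos y (interior_subset hy)) (Real.exp_pos _).le
    intro y hy
    exact hvm (self_mem_Ici) hy hy

/-- a bounded function cannot have `u'' ≥ 1` -/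
lemma no_growth {u u1 u2 : ℝ → ℝ} {Y B : ℝ} (h1 : ∀ y, Y ≤ y → HasDerivAt u (u1 y) y)
    (h2 : ∀ y, Y ≤ y → HasDerivAt u1 (u2 y) y) (h3 : ∀ y, Y ≤ y → 1 ≤ u2 y)
    (hB : ∀ y, Y ≤ y → u y ≤ B) : False := by
  have hm1 : MonotoneOn (fun y => u1 y - y) (Ici Y) := by
    have hd : ∀ y, Y ≤ y → HasDerivAt (fun y => u1 y - y) (u2 y - 1) y := fun y hy =>
      (h2 y hy).sub (hasDerivAt_id y)
    apply monotoneOn_of_deriv_nonneg (convex_Ici Y)
    · exact fun y hy => (hd y hy).continuousAt.continuousWithinAt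
    · exact fun y hy => (hd y (interior_subset hy)).differentiableAt.differentiableWithinAt
    · intro y hy
      rw [(hd y (interior_subset hy)).deriv]
      linarith [h3 y (interior_subset hy)]
  obtain ⟨Z, hZ⟩ : ∃ Z, Z = max Y (Y + 1 - u1 Y) := ⟨_, rfl⟩
  have hYZ : Y ≤ Z := hZ ▸ le_max_left _ _
  have hZ2 : Y + 1 - u1 Y ≤ Z := hZ ▸ le_max_right _ _
  have h4 : ∀ y, Z ≤ y → 1 ≤ u1 y := by
    intro y hy
    have := hm1 (self_mem_Ici) (show y ∈ Ici Y from hYZ.trans hy) (hYZ.trans hy)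
    simp only at this
    linarith
  have hm2 : MonotoneOn (fun y => u y - y) (Ici Z) := by
    have hd : ∀ y, Z ≤ y → HasDerivAt (fun y => u y - y) (u1 y - 1) y := fun y hy =>
      (h1 y (hYZ.trans hy)).sub (hasDerivAt_id y)
    apply monotoneOn_of_deriv_nonneg (convex_Ici Z)
    · exact fun y hy => (hd y hy).continuousAt.continuousWithinAt
    · exact fun y hy => (hd y (interior_subset hy)).differentiableAt.differentiableWithinAt
    · intro y hy
      rw [(hd y (interior_subset hy)).deriv]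
      linarith [h4 y (interior_subset hy)]
  obtain ⟨X, hX⟩ : ∃ X, X = max Z (B + 1 - u Z + Z) := ⟨_, rfl⟩
  have hX1 : Z ≤ X := hX ▸ le_max_left _ _
  have hX2 : B + 1 - u Z + Z ≤ X := hX ▸ le_max_right _ _
  have h5 := hm2 (self_mem_Ici) (show X ∈ Ici Z from hX1) hX1
  simp only at h5
  have h6 := hB X (hYZ.trans hX1)
  linarith

/-! ### Maass forms -/

lemma ext_per {f : ℍ → ℝ} {t : ℝ} (hf : IsHeckeMaass f t) {z : ℂ} (hz : z ∈ H0) :
    ext f (z + 1) = ext f z := by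
  have h1 := hf.invariant ModularGroup.T ⟨z, hz⟩
  rw [UpperHalfPlane.modular_T_smul] at h1
  have h2 : (((1 : ℝ) +ᵥ (⟨z, hz⟩ : ℍ) : ℍ) : ℂ) = z + 1 := by
    rw [UpperHalfPlane.coe_vadd]
    push_cast
    rw [add_comm]
  rw [← h2, Half.ext_coe, h1]
  exact (Half.ext_coe f ⟨z, hz⟩).symm

lemma cls {f : ℍ → ℝ} {t : ℝ} (hf : IsHeckeMaass f t) : Cls (1 / 4 + t ^ 2) (ext f) := by
  refine ⟨hf.smooth, fun z hz => ext_per hf hz, fun z hz => ?_, hf.cuspidal⟩
  have h1 := hf.eigen ⟨z, hz⟩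
  have h2 : ((⟨z, hz⟩ : ℍ) : ℂ) = z := rfl
  have h3 : (⟨z, hz⟩ : ℍ).im = z.im := rfl
  have h4 : f ⟨z, hz⟩ = ext f z := (Half.ext_coe f ⟨z, hz⟩).symm
  rw [h2, h3, h4, lap_eq hf.smooth hz] at h1
  have hy : z.im ≠ 0 := ne_of_gt hz
  field_simp
  linarith

lemma periodic {lam : ℝ} {G : ℂ → ℝ} (h : Cls lam G) {y : ℝ} (hy : 0 < y) :
    Function.Periodic (fun x : ℝ => G ⟨x, y⟩) 1 := by
  intro x
  have h1 := h.per ⟨x, y⟩ (mk_mem hy)
  have h2 : (⟨x, y⟩ : ℂ) + 1 = ⟨x + 1, y⟩ := by apply Complex.ext <;> simp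
  rwa [h2] at h1

/-- the strip in the fundamental domain -/
def St : Set ℂ := {w | 1 < w.im ∧ |w.re| < 1 / 2}

lemma meas_St : MeasurableSet St :=
  (isOpen_lt continuous_const Complex.continuous_im).measurableSet.inter
    (isOpen_lt (Complex.continuous_re.abs) continuous_const).measurableSet

lemma range_coe_eq : Set.range UpperHalfPlane.coe = H0 := by
  ext z
  constructor
  · rintro ⟨w, rfl⟩
    exact w.im_pos
  · intro hz
    exact ⟨⟨z, hz⟩, rfl⟩

lemma int_strip {f : ℍ → ℝ} {t : ℝ} (hf : IsHeckeMaass f t) :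
    Integrable (fun w : ℂ => (1 / w.im ^ 2 : ℝ) • St.indicator (fun w => ext f w ^ 2) w) := by
  have h0 : IntegrableOn (fun z : ℍ => f z ^ 2) ModularGroup.fdo := by
    by_contra hcon
    have h1 := hf.normalised
    rw [integral_undef hcon] at h1
    have := Real.pi_pos
    linarith
  have hsub : UpperHalfPlane.coe ⁻¹' St ⊆ ModularGroup.fdo := by
    intro z hz
    obtain ⟨h1, h2⟩ := hz
    refine ⟨?_, h2⟩
    rw [Complex.normSq_apply]
    nlinarith [mul_self_nonneg (z : ℂ).re]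
  have hms : MeasurableSet (UpperHalfPlane.coe ⁻¹' St) :=
    UpperHalfPlane.measurableEmbedding_coe.measurable meas_St
  have h1 : Integrable (fun z : ℍ => St.indicator (fun w => ext f w ^ 2) (z : ℂ)) := by
    have h2 := (h0.mono_set hsub)
    rw [← integrable_indicator_iff hms] at h2
    refine h2.congr (Eventually.of_forall fun z => ?_)
    show (UpperHalfPlane.coe ⁻¹' St).indicator (fun z : ℍ => f z ^ 2) z =
      St.indicator (fun w => ext f w ^ 2) (z : ℂ)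
    by_cases hz : (z : ℂ) ∈ St
    · rw [indicator_of_mem (show z ∈ UpperHalfPlane.coe ⁻¹' St from hz), indicator_of_mem hz,
        Half.ext_coe]
    · rw [indicator_of_notMem (show z ∉ UpperHalfPlane.coe ⁻¹' St from hz), indicator_of_notMem hz]
  have hmeas : Measurable (fun z : ℍ => (1 / NNReal.mk z.im z.im_pos.le : NNReal) ^ 2) := by
    have h1 : Measurable (fun z : ℍ => NNReal.mk z.im z.im_pos.le) :=
      (UpperHalfPlane.continuous_im.subtype_mk _).measurable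
    exact (h1.const_div 1).pow_const 2
  rw [UpperHalfPlane.volume_def, integrable_withDensity_iff_integrable_smul hmeas] at h1
  have h2 : ∀ z : ℍ, ((1 / NNReal.mk z.im z.im_pos.le : NNReal) ^ 2) •
      St.indicator (fun w => ext f w ^ 2) (z : ℂ)
      = (fun w : ℂ => (1 / w.im ^ 2 : ℝ) • St.indicator (fun w => ext f w ^ 2) w) (z : ℂ) := by
    intro z
    rw [NNReal.smul_def]
    congr 1
    push_cast
    simp
  simp_rw [h2] at h1
  have h3 := (UpperHalfPlane.measurableEmbedding_coe.integrable_map_iff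
    (g := fun w : ℂ => (1 / w.im ^ 2 : ℝ) • St.indicator (fun w => ext f w ^ 2) w)).2 h1
  rw [UpperHalfPlane.measurableEmbedding_coe.map_comap, range_coe_eq] at h3
  refine (integrableOn_iff_integrable_of_support_subset ?_).1 h3
  intro w hw
  rw [Function.mem_support] at hw
  by_contra hcon
  apply hw
  have : w ∉ St := fun h => hcon (lt_trans zero_lt_one h.1)
  rw [indicator_of_notMem this, smul_zero]

lemma growth_false {f : ℍ → ℝ} {t : ℝ} (hf : IsHeckeMaass f t) {c Y : ℝ} (hc : 0 < c)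
    (hg : ∀ y, Y ≤ y → c * Real.exp y ≤ En (ext f) y) : False := by
  have h1 := int_strip hf
  have h2 := (Complex.volume_preserving_equiv_real_prod.symm).integrable_comp_emb
    (Complex.measurableEquivRealProd.symm.measurableEmbedding)
    (g := fun w : ℂ => (1 / w.im ^ 2 : ℝ) • St.indicator (fun w => ext f w ^ 2) w)
  have h3 := (h2.2 h1)
  have h4 : Integrable (fun y : ℝ => ∫ x : ℝ, ((fun w : ℂ => (1 / w.im ^ 2 : ℝ) •
      St.indicator (fun w => ext f w ^ 2) w) ∘ Complex.measurableEquivRealProd.symm) (x, y)) :=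
    h3.integral_prod_right
  have h5 : ∀ y : ℝ, 1 < y → ∫ x : ℝ, ((fun w : ℂ => (1 / w.im ^ 2 : ℝ) •
      St.indicator (fun w => ext f w ^ 2) w) ∘ Complex.measurableEquivRealProd.symm) (x, y) =
      En (ext f) y / y ^ 2 := by
    intro y hy
    have e1 : ∀ x : ℝ, ((fun w : ℂ => (1 / w.im ^ 2 : ℝ) •
        St.indicator (fun w => ext f w ^ 2) w) ∘ Complex.measurableEquivRealProd.symm) (x, y) =
        (Ioo (-(1 / 2) : ℝ) (1 / 2)).indicator (fun x : ℝ => (1 / y ^ 2) * ext f ⟨x, y⟩ ^ 2) x := by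
      intro x
      have e2 : Complex.measurableEquivRealProd.symm (x, y) = (⟨x, y⟩ : ℂ) := rfl
      simp only [Function.comp_apply, e2]
      by_cases hx : x ∈ Ioo (-(1 / 2) : ℝ) (1 / 2)
      · rw [indicator_of_mem hx, indicator_of_mem (show (⟨x, y⟩ : ℂ) ∈ St from
          ⟨hy, abs_lt.2 ⟨hx.1, hx.2⟩⟩), smul_eq_mul]
      · rw [indicator_of_notMem hx, indicator_of_notMem (fun h : (⟨x, y⟩ : ℂ) ∈ St =>
          hx ⟨(abs_lt.1 h.2).1, (abs_lt.1 h.2).2⟩), smul_zero]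
    simp_rw [e1]
    rw [integral_indicator measurableSet_Ioo, ← integral_Ioc_eq_integral_Ioo,
      ← intervalIntegral.integral_of_le (by norm_num), intervalIntegral.integral_const_mul]
    have hper : Function.Periodic (fun x : ℝ => ext f ⟨x, y⟩ ^ 2) 1 := by
      intro x
      have := periodic (cls hf) (lt_trans zero_lt_one hy) x
      simp only at this ⊢
      rw [this]
    have e3 := hper.intervalIntegral_add_eq (-(1 / 2)) 0
    rw [show -(1 / 2) + 1 = (1 / 2 : ℝ) by norm_num, zero_add] at e3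
    rw [e3]
    unfold En
    ring
  obtain ⟨Z, hZ⟩ : ∃ Z, Z = max Y 2 := ⟨_, rfl⟩
  have hZY : Y ≤ Z := hZ ▸ le_max_left _ _
  have hZ2 : 2 ≤ Z := hZ ▸ le_max_right _ _
  have h6 := h4.measure_norm_ge_lt_top (half_pos hc)
  have h7 : Ici Z ⊆ {y : ℝ | c / 2 ≤ ‖∫ x : ℝ, ((fun w : ℂ => (1 / w.im ^ 2 : ℝ) •
      St.indicator (fun w => ext f w ^ 2) w) ∘ Complex.measurableEquivRealProd.symm) (x, y)‖} := by
    intro y hy
    have hy' : Z ≤ y := hy
    rw [mem_setOf_eq, h5 y (by linarith)]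
    have h8 := hg y (hZY.trans hy')
    have h9 : 1 + y + y ^ 2 / 2 ≤ Real.exp y := Real.quadratic_le_exp_of_nonneg (by linarith)
    have h10 : c / 2 ≤ En (ext f) y / y ^ 2 := by
      rw [le_div_iff₀ (pow_pos (by linarith) 2)]
      nlinarith
    exact h10.trans (le_abs_self _)
  have h8 := measure_mono (μ := volume) h7
  rw [Real.volume_Ici, top_le_iff] at h8
  exact absurd h8 h6.ne

/-- exponential decay of the energy of `∂f/∂x` -/
lemma decay {f : ℍ → ℝ} {t : ℝ} (hf : IsHeckeMaass f t) : ∃ Y B : ℝ, 1 ≤ Y ∧ 0 ≤ B ∧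
    ∀ y, Y ≤ y → En (dX (ext f)) y ≤ B * Real.exp (-y) := by
  obtain ⟨lam, hlam⟩ : ∃ lam, lam = 1 / 4 + t ^ 2 := ⟨_, rfl⟩
  have hc := cls hf
  rw [← hlam] at hc
  have hlam0 : 0 ≤ lam := by rw [hlam]; positivity
  obtain ⟨Y, hY⟩ : ∃ Y, Y = 2 * lam + 1 := ⟨_, rfl⟩
  have hY1 : 1 ≤ Y := by linarith
  have hhalf : ∀ y, Y ≤ y → lam / y ^ 2 ≤ 1 / 2 := by
    intro y hy
    have hy1 : 1 ≤ y := hY1.trans hy
    rw [div_le_iff₀ (pow_pos (by linarith) 2)]
    nlinarith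
  have hen2 : ∀ G : ℂ → ℝ, Cls lam G → ∀ y, Y ≤ y →
      2 * En (dX G) y - En G y ≤ En2 G y := by
    intro G hG y hy
    have h1 := En2_ge hG (show 0 < y by linarith)
    have h2 := mul_le_mul_of_nonneg_right (hhalf y hy) (En_nonneg G y)
    linarith
  have hge : ∀ G : ℂ → ℝ, Cls lam G → ∀ y, Y ≤ y → En G y ≤ En2 G y := by
    intro G hG y hy
    have h1 := hen2 G hG y hy
    have h2 := En_le hG (show 0 < y by linarith)
    linarith
  -- decay of the energy of `f`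
  have hF : ∀ y, Y ≤ y → En (ext f) y * Real.exp y ≤ En (ext f) Y * Real.exp Y := by
    rcases dich (u := En (ext f)) (u1 := En1 (ext f)) (u2 := En2 (ext f)) (Y := Y)
      (fun y hy => hasEn hc.sm (by linarith)) (fun y hy => hasEn1 hc.sm (by linarith))
      (hge _ hc) with h | ⟨c, Y', hc0, -, hg⟩
    · exact h
    · exact absurd (growth_false hf hc0 hg) id
  obtain ⟨B1, hB1⟩ : ∃ B1, B1 = En (ext f) Y * Real.exp Y := ⟨_, rfl⟩
  have hbd : ∀ y, Y ≤ y → En (ext f) y ≤ B1 := by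
    intro y hy
    have h1 := hF y hy
    rw [← hB1] at h1
    have h2 : 1 ≤ Real.exp y := Real.one_le_exp (by linarith)
    have h3 := En_nonneg (ext f) y
    nlinarith
  rcases dich (u := En (dX (ext f))) (u1 := En1 (dX (ext f))) (u2 := En2 (dX (ext f))) (Y := Y)
      (fun y hy => hasEn hc.dX.sm (by linarith)) (fun y hy => hasEn1 hc.dX.sm (by linarith))
      (hge _ hc.dX) with h | ⟨c, Y', hc0, hYY', hg⟩
  · refine ⟨Y, En (dX (ext f)) Y * Real.exp Y, hY1,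
      mul_nonneg (En_nonneg _ _) (Real.exp_pos _).le, fun y hy => ?_⟩
    have h1 := mul_le_mul_of_nonneg_right (h y hy) (Real.exp_pos (-y)).le
    rw [mul_assoc, ← Real.exp_add, add_neg_cancel, Real.exp_zero, mul_one] at h1
    exact h1
  · exfalso
    obtain ⟨Z, hZ⟩ : ∃ Z, Z = max Y' ((B1 + 1) / (2 * c)) := ⟨_, rfl⟩
    have hZ1 : Y' ≤ Z := hZ ▸ le_max_left _ _
    have hZ2 : (B1 + 1) / (2 * c) ≤ Z := hZ ▸ le_max_right _ _
    refine no_growth (u := En (ext f)) (u1 := En1 (ext f)) (u2 := En2 (ext f)) (Y := Z) (B := B1)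
      (fun y hy => hasEn hc.sm (by linarith)) (fun y hy => hasEn1 hc.sm (by linarith)) ?_
      (fun y hy => hbd y (by linarith))
    intro y hy
    have h1 := hen2 _ hc y (by linarith)
    have h2 := hg y (by linarith)
    have h3 := hbd y (by linarith)
    have h4 : y + 1 ≤ Real.exp y := Real.add_one_le_exp _
    have h5 : B1 + 1 ≤ 2 * c * y := by
      rw [div_le_iff₀ (by positivity)] at hZ2
      nlinarith
    nlinarith

lemma point {lam : ℝ} {G : ℂ → ℝ} (h : Cls lam G) {z : ℂ} (hz : z ∈ H0) :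
    ∃ x ∈ Ico (0 : ℝ) 1, G z = G ⟨x, z.im⟩ := by
  obtain ⟨x, hx, he⟩ := (periodic h (show 0 < z.im from hz)).exists_mem_Ico₀ zero_lt_one z.re
  exact ⟨x, hx, he⟩

end

end Pool.Agent.A54.Av.DecM

namespace Pool.Agent.A54.Av

open MeasureTheory Filter Topology Set
open scoped ContDiff ComplexConjugate UpperHalfPlane MatrixGroups ENNReal
open Pool.Agent.A54.Half (H0 isOpen_H0)
open DecM

theorem stmtDec : StmtDec := by
  intro f t hf
  have hc := cls hf
  obtain ⟨Y, B, hY, hB, hdec⟩ := decay hf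
  -- the compact part
  have hK : IsCompact ((fun p : ℝ × ℝ => (⟨p.1, p.2⟩ : ℂ)) '' (Icc 0 1 ×ˢ Icc (1 / 2) Y)) :=
    (isCompact_Icc.prod isCompact_Icc).image cont_mk
  have hKH : (fun p : ℝ × ℝ => (⟨p.1, p.2⟩ : ℂ)) '' (Icc 0 1 ×ˢ Icc (1 / 2) Y) ⊆ H0 := by
    rintro z ⟨p, hp, rfl⟩
    have h1 := hp.2.1
    exact mk_mem (by linarith)
  obtain ⟨M, hM⟩ := hK.exists_bound_of_continuousOn (hc.sm.continuousOn.mono hKH)
  obtain ⟨M', hM'⟩ : ∃ M', M' = max M 0 := ⟨_, rfl⟩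
  have hM1 : M ≤ M' := hM' ▸ le_max_left _ _
  have hM0 : 0 ≤ M' := hM' ▸ le_max_right _ _
  have hC0 : 0 ≤ √B + M' * Real.exp (Y / 2) :=
    add_nonneg (Real.sqrt_nonneg _) (mul_nonneg hM0 (Real.exp_pos _).le)
  have hmain : ∀ z : ℍ, 1 / 2 ≤ z.im →
      |f z| ≤ (√B + M' * Real.exp (Y / 2)) * Real.exp (-(1 / 2 * z.im)) := by
    intro z hz
    obtain ⟨x, hx, he⟩ := point hc (show (z : ℂ) ∈ H0 from z.im_pos)
    rw [Half.ext_coe] at he
    have him : (z : ℂ).im = z.im := rfl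
    rw [him] at he
    rw [he]
    have hE := Real.exp_pos (-(1 / 2 * z.im))
    rcases le_total Y z.im with h1 | h1
    · have h2 := sup_le hc z.im_pos ⟨hx.1, hx.2.le⟩
      have h3 := hdec z.im h1
      have h4 : (√B * Real.exp (-(1 / 2 * z.im))) ^ 2 = B * Real.exp (-z.im) := by
        rw [mul_pow, Real.sq_sqrt hB, ← Real.exp_nat_mul]
        congr 2
        push_cast
        ring
      have h5 : |ext f ⟨x, z.im⟩| ≤ √B * Real.exp (-(1 / 2 * z.im)) := by
        apply abs_le_of_sq_le_sq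
        · rw [h4]
          exact h2.trans h3
        · exact mul_nonneg (Real.sqrt_nonneg _) hE.le
      refine h5.trans (mul_le_mul_of_nonneg_right ?_ hE.le)
      have := mul_nonneg hM0 (Real.exp_pos (Y / 2)).le
      linarith
    · have h2 : |ext f ⟨x, z.im⟩| ≤ M :=
        hM _ ⟨(x, z.im), ⟨⟨hx.1, hx.2.le⟩, hz, h1⟩, rfl⟩
      have h3 : 1 ≤ Real.exp (Y / 2) * Real.exp (-(1 / 2 * z.im)) := by
        rw [← Real.exp_add]
        exact Real.one_le_exp (by linarith)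
      have h4 : M' ≤ M' * Real.exp (Y / 2) * Real.exp (-(1 / 2 * z.im)) := by
        rw [mul_assoc]
        nlinarith
      have h5 := mul_nonneg (Real.sqrt_nonneg B) hE.le
      rw [add_mul]
      linarith
  refine ⟨√B + M' * Real.exp (Y / 2), 1 / 2, by norm_num, hmain, fun z => ?_⟩
  obtain ⟨γ, hγ⟩ := ModularGroup.exists_smul_mem_fd z
  have h1 := ModularGroup.three_le_four_mul_im_sq_of_mem_fd hγ
  have h2 : 1 / 2 ≤ (γ • z).im := by
    have := (γ • z).im_pos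
    nlinarith
  have h3 := hmain (γ • z) h2
  rw [hf.invariant γ z] at h3
  refine h3.trans ?_
  have h4 : Real.exp (-(1 / 2 * (γ • z).im)) ≤ 1 := by
    rw [Real.exp_le_one_iff]
    linarith
  nlinarith

end Pool.Agent.A54.Av
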