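import Pool.Agent.Lib.MP_a54f13_nt.Av.SpecB

/-!
# Package `Av`, module `Dl`: the size of `δ = |1 - s|`
-/

set_option autoImplicit false

namespace Pool.Agent.A54.Av.DlM

open MeasureTheory Filter Topology Set

noncomputable section

lemma qT_sq {T : ℝ} (hT : 2 ≤ T) : qT T ^ 2 = 1 - (T ^ 2)⁻¹ := by
  unfold qT
  rw [Real.sq_sqrt]
  have h : (T ^ 2)⁻¹ ≤ 1 := inv_le_one_of_one_le₀ (by nlinarith)
  linarith

lemma qT_bounds {T : ℝ} (hT : 2 ≤ T) : 4 / 5 ≤ qT T ∧ qT T ≤ 1 - (T ^ 2)⁻¹ / 2 := by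
  have h0 : 0 ≤ qT T := Real.sqrt_nonneg _
  have h1 := qT_sq hT
  have h2 : (T ^ 2)⁻¹ ≤ 1 / 4 := by
    rw [inv_le_comm₀ (by positivity) (by norm_num)]
    norm_num
    nlinarith
  have h3 : 0 < (T ^ 2)⁻¹ := by positivity
  have h4 : qT T ≤ 1 := by nlinarith
  constructor
  · nlinarith
  · nlinarith [mul_nonneg h3.le h3.le, sq_nonneg (1 - qT T)]

lemma norm_qs {q θ : ℝ} (hq : 0 ≤ q) : ‖qs q θ‖ = q := by
  unfold qs
  rw [norm_mul, Complex.norm_exp_ofReal_mul_I, mul_one, Complex.norm_real, Real.norm_of_nonneg hq]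

lemma sq_dl {q θ : ℝ} : ‖1 - qs q θ‖ ^ 2 = (1 - q) ^ 2 + 4 * q * Real.sin (θ / 2) ^ 2 := by
  unfold qs
  rw [Complex.exp_mul_I, Complex.sq_norm, Complex.normSq_apply]
  simp only [Complex.sub_re, Complex.sub_im, Complex.one_re, Complex.one_im, Complex.mul_re,
    Complex.mul_im, Complex.add_re, Complex.add_im, Complex.ofReal_re, Complex.ofReal_im,
    Complex.I_re, Complex.I_im, Complex.cos_ofReal_re, Complex.sin_ofReal_re,
    Complex.cos_ofReal_im, Complex.sin_ofReal_im]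
  have h1 : Real.cos θ = 1 - 2 * Real.sin (θ / 2) ^ 2 := by
    have := Real.cos_two_mul' (θ / 2)
    have h2 := Real.sin_sq_add_cos_sq (θ / 2)
    rw [show 2 * (θ / 2) = θ by ring] at this
    rw [this]; linarith
  have h2 := Real.sin_sq_add_cos_sq θ
  linear_combination (q ^ 2) * h2 - 2 * q * h1

lemma dl_lower {T θ : ℝ} (hT : 2 ≤ T) : 1 / (2 * T ^ 2) ≤ dl T θ := by
  have h := qT_bounds hT
  have h0 : 0 ≤ qT T := by linarith [h.1]
  have h1 : ‖(1 : ℂ)‖ - ‖qs (qT T) θ‖ ≤ ‖1 - qs (qT T) θ‖ := norm_sub_norm_le _ _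
  rw [norm_one, norm_qs h0] at h1
  unfold dl
  refine le_trans ?_ h1
  have h2 : 1 / (2 * T ^ 2) = (T ^ 2)⁻¹ / 2 := by field_simp
  rw [h2]; linarith [h.2]

lemma dl_theta {T θ : ℝ} (hT : 2 ≤ T) (hθ : |θ| ≤ Real.pi) : |θ| / 4 ≤ dl T θ := by
  have h := qT_bounds hT
  unfold dl
  refine abs_le_of_sq_le_sq' ?_ (norm_nonneg _) |>.2
  rw [sq_dl]
  have h1 : |θ| / Real.pi ≤ |Real.sin (θ / 2)| := by
    have h2 := Real.mul_le_sin (x := |θ| / 2) (by positivity) (by linarith)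
    have h3 : Real.sin (|θ| / 2) ≤ |Real.sin (θ / 2)| := by
      rcases abs_cases θ with ⟨h4, _⟩ | ⟨h4, _⟩
      · rw [h4]; exact le_abs_self _
      · rw [h4, neg_div, Real.sin_neg]; exact neg_le_abs _
    refine le_trans (le_of_eq ?_) (h2.trans h3)
    field_simp
  have h5 : (|θ| / Real.pi) ^ 2 ≤ Real.sin (θ / 2) ^ 2 := by
    rw [← sq_abs (Real.sin (θ / 2))]
    exact pow_le_pow_left₀ (by positivity) h1 2
  have hpi : Real.pi < 4 := Real.pi_lt_four
  have hpi0 := Real.pi_pos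
  have h6 : (|θ| / 4) ^ 2 ≤ (|θ| / Real.pi) ^ 2 := by
    apply pow_le_pow_left₀ (by positivity)
    exact div_le_div_of_nonneg_left (abs_nonneg _) hpi0 hpi.le
  have h7 : 0 ≤ Real.sin (θ / 2) ^ 2 := sq_nonneg _
  nlinarith [h.1, sq_nonneg (1 - qT T)]

lemma dl_upper {T θ : ℝ} (hT : 2 ≤ T) : dl T θ ≤ 2 := by
  have h := qT_bounds hT
  have h0 : 0 ≤ qT T := by linarith [h.1]
  unfold dl
  refine (norm_sub_le _ _).trans ?_
  rw [norm_one, norm_qs h0]
  have : 0 < (T ^ 2)⁻¹ := by positivity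
  linarith [h.2]

/-- the majorant -/
def mj (a θ : ℝ) : ℝ := (a + |θ|) ^ (-(3 / 2 : ℝ))

lemma cont_mj {a : ℝ} (ha : 0 < a) : Continuous (mj a) := by
  unfold mj
  refine Continuous.rpow_const (by fun_prop) fun θ => Or.inl ?_
  have := abs_nonneg θ
  positivity

lemma int_half {a : ℝ} (ha : 0 < a) :
    ∫ θ in (0 : ℝ)..Real.pi, mj a θ ≤ 2 * a ^ (-(1 / 2 : ℝ)) := by
  have h1 : ∫ θ in (0 : ℝ)..Real.pi, mj a θ =
      ∫ θ in (0 : ℝ)..Real.pi, (a + θ) ^ (-(3 / 2 : ℝ)) := by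
    refine intervalIntegral.integral_congr fun θ hθ => ?_
    rw [uIcc_of_le Real.pi_pos.le] at hθ
    simp only [mj, abs_of_nonneg hθ.1]
  have h2 : ∫ θ in (0 : ℝ)..Real.pi, (a + θ) ^ (-(3 / 2 : ℝ)) =
      (-2 * (a + Real.pi) ^ (-(1 / 2 : ℝ))) - (-2 * (a + 0) ^ (-(1 / 2 : ℝ))) := by
    refine intervalIntegral.integral_eq_sub_of_hasDerivAt
      (f := fun θ => -2 * (a + θ) ^ (-(1 / 2 : ℝ))) (fun θ hθ => ?_) ?_
    · rw [uIcc_of_le Real.pi_pos.le] at hθ
      have hp : 0 < a + θ := by linarith [hθ.1]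
      have h3 : HasDerivAt (fun θ : ℝ => a + θ) 1 θ := (hasDerivAt_id θ).const_add a
      have h4 := (h3.rpow_const (p := -(1 / 2 : ℝ)) (Or.inl hp.ne')).const_mul (-2)
      refine h4.congr_deriv ?_
      rw [show (-(1 / 2 : ℝ)) - 1 = -(3 / 2) by norm_num]
      ring
    · refine ContinuousOn.intervalIntegrable fun θ hθ => ?_
      rw [uIcc_of_le Real.pi_pos.le] at hθ
      have hp : 0 < a + θ := by linarith [hθ.1]
      exact ((continuous_const.add continuous_id).continuousAt.rpow_const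
        (Or.inl hp.ne')).continuousWithinAt
  rw [h1, h2, add_zero]
  have h5 : 0 ≤ (a + Real.pi) ^ (-(1 / 2 : ℝ)) := by
    have := Real.pi_pos
    positivity
  linarith

lemma int_full {a : ℝ} (ha : 0 < a) :
    ∫⁻ θ in Ioc (-Real.pi) Real.pi, ENNReal.ofReal (mj a θ) ≤
      ENNReal.ofReal (4 * a ^ (-(1 / 2 : ℝ))) := by
  have hc := cont_mj ha
  have hpi := Real.pi_pos
  rw [← ofReal_integral_eq_lintegral_ofReal]
  · refine ENNReal.ofReal_le_ofReal ?_
    rw [← intervalIntegral.integral_of_le (by linarith),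
      ← intervalIntegral.integral_add_adjacent_intervals (b := 0)
        (hc.intervalIntegrable _ _) (hc.intervalIntegrable _ _)]
    have h1 : ∫ θ in (-Real.pi)..0, mj a θ = ∫ θ in (0 : ℝ)..Real.pi, mj a θ := by
      have h2 := intervalIntegral.integral_comp_neg (a := (0 : ℝ)) (b := Real.pi) (f := mj a)
      rw [neg_zero] at h2
      rw [← h2]
      refine intervalIntegral.integral_congr fun θ _ => ?_
      simp only [mj, abs_neg]
    rw [h1]
    linarith [int_half ha]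
  · exact hc.integrableOn_Ioc
  · refine Eventually.of_forall fun θ => ?_
    unfold mj
    have := abs_nonneg θ
    positivity

end

end Pool.Agent.A54.Av.DlM

namespace Pool.Agent.A54.Av

open MeasureTheory Filter Topology Set
open DlM

theorem stmtDl : StmtDl := by
  refine ⟨fun T θ hT hθ => ⟨dl_lower hT, dl_theta hT hθ, dl_upper hT⟩, 256, by norm_num,
    fun T hT => ?_⟩
  set a : ℝ := (T ^ 2)⁻¹ with ha
  have hT0 : 0 < T := by linarith
  have ha0 : 0 < a := by positivity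
  have h1 : ∀ θ ∈ Ioc (-Real.pi) Real.pi,
      ENNReal.ofReal (dl T θ ^ (-(3 / 2 : ℝ))) ≤ ENNReal.ofReal 64 * ENNReal.ofReal (mj a θ) := by
    intro θ hθ
    have hθ' : |θ| ≤ Real.pi := abs_le.mpr ⟨hθ.1.le, hθ.2⟩
    rw [← ENNReal.ofReal_mul (by norm_num)]
    refine ENNReal.ofReal_le_ofReal ?_
    have h2 := dl_lower (θ := θ) hT
    have h3 := dl_theta hT hθ'
    have h4 : 1 / (2 * T ^ 2) = a / 2 := by rw [ha]; field_simp
    rw [h4] at h2
    have h5 : 0 < a + |θ| := by have := abs_nonneg θ; positivity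
    have h6 : (a + |θ|) / 8 ≤ dl T θ := by linarith
    refine (Real.rpow_le_rpow_of_nonpos (by positivity) h6 (by norm_num)).trans ?_
    rw [Real.div_rpow h5.le (by norm_num)]
    unfold mj
    rw [div_le_iff₀ (by positivity)]
    have h7 : (1 : ℝ) ≤ 64 * 8 ^ (-(3 / 2 : ℝ)) := by
      have h8 : (8 : ℝ) ^ (-(2 : ℝ)) ≤ 8 ^ (-(3 / 2 : ℝ)) :=
        Real.rpow_le_rpow_of_exponent_le (by norm_num) (by norm_num)
      have h9 : (8 : ℝ) ^ (-(2 : ℝ)) = 1 / 64 := by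
        rw [Real.rpow_neg (by norm_num)]
        norm_num
      rw [h9] at h8
      linarith
    have h10 : 0 ≤ (a + |θ|) ^ (-(3 / 2 : ℝ)) := by positivity
    calc (a + |θ|) ^ (-(3 / 2 : ℝ)) = (a + |θ|) ^ (-(3 / 2 : ℝ)) * 1 := (mul_one _).symm
      _ ≤ (a + |θ|) ^ (-(3 / 2 : ℝ)) * (64 * 8 ^ (-(3 / 2 : ℝ))) :=
          mul_le_mul_of_nonneg_left h7 h10
      _ = 64 * (a + |θ|) ^ (-(3 / 2 : ℝ)) * 8 ^ (-(3 / 2 : ℝ)) := by ring
  refine (setLIntegral_mono' measurableSet_Ioc h1).trans ?_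
  rw [lintegral_const_mul _ (by
    exact ENNReal.measurable_ofReal.comp (cont_mj ha0).measurable)]
  refine (mul_le_mul_right (int_full ha0) _).trans ?_
  rw [← ENNReal.ofReal_mul (by norm_num)]
  refine ENNReal.ofReal_le_ofReal ?_
  have h2 : a ^ (-(1 / 2 : ℝ)) = T := by
    rw [ha, ← Real.rpow_neg_one, ← Real.rpow_natCast, ← Real.rpow_mul hT0.le,
      ← Real.rpow_mul hT0.le]
    norm_num
  rw [h2]
  linarith

end Pool.Agent.A54.Av
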