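import Pool.Agent.Lib.MP_a54f13_nt.Av.SpecA

/-!
# Bessel function, oscillating range
-/

set_option autoImplicit false

namespace Pool.Agent.A54.Av

open MeasureTheory Filter Topology Set
open scoped ContDiff ComplexConjugate UpperHalfPlane MatrixGroups ENNReal
open Pool.Agent.A54.Half (H0 qq ff hh)

noncomputable section

namespace EnM

/-- the energy -/
def en (t X : ℝ) : ℝ := (X * KB1 t X) ^ 2 + (t ^ 2 - X ^ 2) * KB t X ^ 2

lemma dv (hKBf : StmtKBf) (t : ℝ) {X : ℝ} (hX : 0 < X) :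
    HasDerivAt (fun X => X * KB1 t X) ((X ^ 2 - t ^ 2) * KB t X / X) X := by
  have h1 := (hasDerivAt_id' X).fun_mul ((hKBf t).2.1 X hX)
  refine h1.congr_deriv ?_
  field_simp
  ring

lemma de (hKBf : StmtKBf) (t : ℝ) {X : ℝ} (hX : 0 < X) :
    HasDerivAt (en t) (-(2 * (X * KB t X ^ 2))) X := by
  have h1 := (dv hKBf t hX).fun_pow 2
  have h2 := ((hKBf t).1 X hX).fun_pow 2
  have h3 : HasDerivAt (fun X : ℝ => t ^ 2 - X ^ 2) (-(2 * X)) X := by
    have := ((hasDerivAt_id' X).fun_pow 2).const_sub (t ^ 2)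
    refine this.congr_deriv ?_
    simp
  have h4 := h1.fun_add (h3.fun_mul h2)
  refine h4.congr_deriv ?_
  field_simp
  ring

lemma lim (hKBf : StmtKBf) (t : ℝ) : Tendsto (en t) atTop (𝓝 0) := by
  have hp := Real.pi_pos
  have hp4 := Real.pi_le_four
  have t0 := Real.tendsto_pow_mul_exp_neg_atTop_nhds_zero 0
  have t2 := Real.tendsto_pow_mul_exp_neg_atTop_nhds_zero 2
  have hb : Tendsto (fun X : ℝ => (4 + 2 * t ^ 2) * (X ^ 0 * Real.exp (-X)) +
      2 * (X ^ 2 * Real.exp (-X))) atTop (𝓝 0) := by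
    have := (t0.const_mul (4 + 2 * t ^ 2)).add (t2.const_mul 2)
    simpa using this
  refine squeeze_zero_norm' ?_ hb
  filter_upwards [eventually_ge_atTop 1] with X hX1
  have hX : 0 < X := by linarith
  obtain ⟨-, -, b1, b2, -⟩ := hKBf t
  have c1 := b1 X hX
  have c2 := b2 X hX
  have d1 : KB t X ^ 2 ≤ 2 * Real.exp (-X) := by
    have : KB t X ^ 2 ≤ (√(Real.pi / (2 * X)) * Real.exp (-X)) ^ 2 := by
      rw [← sq_abs]
      exact pow_le_pow_left₀ (abs_nonneg _) c1 2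
    refine this.trans ?_
    rw [mul_pow, Real.sq_sqrt (by positivity), ← Real.exp_nat_mul]
    have e1 : Real.pi / (2 * X) ≤ 2 := by
      rw [div_le_iff₀ (by positivity)]
      nlinarith
    have e2 : Real.exp (((2 : ℕ) : ℝ) * -X) ≤ Real.exp (-X) := by
      refine Real.exp_le_exp.2 ?_
      push_cast
      linarith
    exact mul_le_mul e1 e2 (Real.exp_pos _).le (by norm_num)
  have d2 : (X * KB1 t X) ^ 2 ≤ 4 * Real.exp (-X) := by
    have h1 : |X * KB1 t X| ≤ 2 * Real.exp (-(X / 2)) := by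
      rw [abs_mul, abs_of_pos hX]
      have := mul_le_mul_of_nonneg_left c2 hX.le
      refine this.trans (le_of_eq ?_)
      field_simp
    have : (X * KB1 t X) ^ 2 ≤ (2 * Real.exp (-(X / 2))) ^ 2 := by
      rw [← sq_abs]
      exact pow_le_pow_left₀ (abs_nonneg _) h1 2
    refine this.trans (le_of_eq ?_)
    rw [mul_pow, ← Real.exp_nat_mul]
    congr 2
    · norm_num
    · push_cast; ring
  have d3 : |t ^ 2 - X ^ 2| ≤ t ^ 2 + X ^ 2 := by
    rw [abs_le]
    constructor <;> nlinarith [sq_nonneg t, sq_nonneg X]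
  have d4 : |t ^ 2 - X ^ 2| * KB t X ^ 2 ≤ (t ^ 2 + X ^ 2) * (2 * Real.exp (-X)) :=
    mul_le_mul d3 d1 (sq_nonneg _) (by positivity)
  unfold en
  rw [Real.norm_eq_abs]
  refine (abs_add_le _ _).trans ?_
  rw [abs_of_nonneg (sq_nonneg (X * KB1 t X)), abs_mul, abs_of_nonneg (sq_nonneg (KB t X))]
  rw [pow_zero]
  linarith

lemma en_eq (hKBf : StmtKBf) {t : ℝ} (hi : IntegrableOn (fun x : ℝ => x * KB t x ^ 2) (Ioi 0))
    {X : ℝ} (hX : 0 < X) : en t X = 2 * ∫ x in Ioi X, x * KB t x ^ 2 := by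
  have hi2 : IntegrableOn (fun x : ℝ => -(2 * (x * KB t x ^ 2))) (Ioi X) :=
    ((hi.mono_set (Ioi_subset_Ioi hX.le)).const_mul 2).neg
  have h1 := integral_Ioi_of_hasDerivAt_of_tendsto
    (f := en t) (f' := fun x : ℝ => -(2 * (x * KB t x ^ 2))) (m := 0) (a := X)
    (de hKBf t hX).continuousAt.continuousWithinAt (fun x hx => de hKBf t (hX.trans hx)) hi2
    (lim hKBf t)
  rw [integral_neg, integral_const_mul] at h1
  linarith

end EnM

open EnM in
/-- **En** -/
theorem stmtEn (hKBf : StmtKBf) (hBet : StmtBet) : StmtEn := by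
  intro t ht
  have hp := Real.pi_pos
  have hp1 := Real.pi_gt_three
  have hp2 := Real.pi_lt_d2
  have ht0 : 0 < t := by linarith
  obtain ⟨hi, hv⟩ := hBet t ht0
  set E : ℝ := Real.pi * t / Real.sinh (Real.pi * t) with hE
  have hE0 : 0 < E := div_pos (by positivity) (Real.sinh_pos_iff.2 (by positivity))
  have hv' : 2 * ∫ x in Ioi (0 : ℝ), x * KB t x ^ 2 = E := by
    rw [hv, hE]; field_simp
  have t2 : 10000 ≤ t ^ 2 := by nlinarith
  have nn : ∀ x ∈ Ioi (0 : ℝ), 0 ≤ x * KB t x ^ 2 := fun x hx => mul_nonneg (le_of_lt hx) (sq_nonneg _)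
  have up : ∀ X : ℝ, 0 < X → en t X ≤ E := by
    intro X hX
    rw [en_eq hKBf hi hX, ← hv']
    refine mul_le_mul_of_nonneg_left ?_ (by norm_num)
    refine setIntegral_mono_set hi ?_ (Ioi_subset_Ioi hX.le).eventuallyLE
    exact (ae_restrict_iff' measurableSet_Ioi).2 (Eventually.of_forall nn)
  have b1 : ∀ X : ℝ, 0 < X → X ≤ 6 * Real.pi → KB t X ^ 2 ≤ 2 / t ^ 2 * E ∧
      (X * KB1 t X) ^ 2 ≤ E := by
    intro X hX hX6
    have h1 := up X hX
    have hX2 : X ^ 2 ≤ t ^ 2 / 2 := by nlinarith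
    unfold en at h1
    have h2 : t ^ 2 / 2 * KB t X ^ 2 ≤ (t ^ 2 - X ^ 2) * KB t X ^ 2 :=
      mul_le_mul_of_nonneg_right (by linarith) (sq_nonneg _)
    have h3 := sq_nonneg (X * KB1 t X)
    have h4 := sq_nonneg (KB t X)
    refine ⟨?_, ?_⟩
    · rw [div_mul_eq_mul_div, le_div_iff₀ (by positivity)]
      nlinarith
    · have : 0 ≤ t ^ 2 / 2 * KB t X ^ 2 := by positivity
      linarith
  refine ⟨b1, ?_⟩
  have low : ∀ X : ℝ, 0 < X → X ≤ 4 * Real.pi → E / 2 ≤ en t X := by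
    intro X hX hX4
    have h1 : ∫ x in Ioc 0 X, x * KB t x ^ 2 ≤ ∫ x in Ioc 0 X, X * (2 / t ^ 2 * E) := by
      refine setIntegral_mono_on (hi.mono_set Ioc_subset_Ioi_self) ?_ measurableSet_Ioc ?_
      · exact integrableOn_const (by simp)
      · intro x hx
        exact mul_le_mul hx.2 (b1 x hx.1 (by linarith [hx.2])).1 (sq_nonneg _) hX.le
    rw [setIntegral_const, smul_eq_mul] at h1
    have h2 : ∫ x in Ioi (0 : ℝ), x * KB t x ^ 2 = (∫ x in Ioc 0 X, x * KB t x ^ 2) +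
        ∫ x in Ioi X, x * KB t x ^ 2 := by
      rw [← setIntegral_union Ioc_disjoint_Ioi_same measurableSet_Ioi
        (hi.mono_set Ioc_subset_Ioi_self) (hi.mono_set (Ioi_subset_Ioi hX.le)),
        Ioc_union_Ioi_eq_Ioi hX.le]
    rw [en_eq hKBf hi hX]
    have h3 : (volume.real (Ioc 0 X)) = X := by simp [hX.le]
    rw [h3] at h1
    have h4 : X * (X * (2 / t ^ 2 * E)) ≤ E / 4 := by
      have : X * (X * (2 / t ^ 2 * E)) = (2 * X ^ 2 / t ^ 2) * E := by ring
      rw [this]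
      have h5 : 2 * X ^ 2 / t ^ 2 ≤ 1 / 4 := by
        rw [div_le_iff₀ (by positivity)]
        nlinarith
      nlinarith
    linarith
  have uv : ∀ X : ℝ, 0 < X → X ≤ 4 * Real.pi → |KB t X * (X * KB1 t X)| ≤ E / 100 := by
    intro X hX hX4
    obtain ⟨h1, -⟩ := b1 X hX (by linarith)
    have h2 := up X hX
    unfold en at h2
    have h3 : X ^ 2 * KB t X ^ 2 ≤ E / 10 := by
      have h5 : X ^ 2 * (2 / t ^ 2) ≤ 1 / 10 := by
        rw [mul_div_assoc', div_le_iff₀ (by positivity)]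
        nlinarith
      calc X ^ 2 * KB t X ^ 2 ≤ X ^ 2 * (2 / t ^ 2 * E) := mul_le_mul_of_nonneg_left h1 (sq_nonneg _)
        _ = X ^ 2 * (2 / t ^ 2) * E := by ring
        _ ≤ 1 / 10 * E := mul_le_mul_of_nonneg_right h5 hE0.le
        _ = E / 10 := by ring
    have h6 : |t * (KB t X * (X * KB1 t X))| ≤ E := by
      rw [abs_le]
      constructor
      · nlinarith [sq_nonneg (t * KB t X + X * KB1 t X)]
      · nlinarith [sq_nonneg (t * KB t X - X * KB1 t X)]
    rw [abs_mul, abs_of_pos ht0] at h6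
    have h7 := abs_nonneg (KB t X * (X * KB1 t X))
    nlinarith
  have contK : ContinuousOn (KB t) (Icc (2 * Real.pi) (4 * Real.pi)) := fun X hX =>
    ((hKBf t).1 X (by linarith [hX.1])).continuousAt.continuousWithinAt
  have contv : ContinuousOn (fun X => X * KB1 t X) (Icc (2 * Real.pi) (4 * Real.pi)) := fun X hX =>
    (dv hKBf t (by linarith [hX.1])).continuousAt.continuousWithinAt
  have hle : 2 * Real.pi ≤ 4 * Real.pi := by linarith
  have dH : ∀ X : ℝ, 0 < X → HasDerivAt (fun X => X ^ 2 * (KB t X * (X * KB1 t X)))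
      (2 * X * (KB t X * (X * KB1 t X)) +
        X * ((X * KB1 t X) ^ 2 - (t ^ 2 - X ^ 2) * KB t X ^ 2)) X := by
    intro X hX
    have h1 := ((hKBf t).1 X hX).fun_mul (dv hKBf t hX)
    have h2 := ((hasDerivAt_id' X).fun_pow 2).fun_mul h1
    refine h2.congr_deriv ?_
    field_simp
    ring
  have cH : ContinuousOn (fun X => 2 * X * (KB t X * (X * KB1 t X)) +
        X * ((X * KB1 t X) ^ 2 - (t ^ 2 - X ^ 2) * KB t X ^ 2)) (Icc (2 * Real.pi) (4 * Real.pi)) := by
    refine ContinuousOn.add ?_ ?_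
    · exact (by fun_prop : ContinuousOn (fun X : ℝ => 2 * X) _).mul (contK.mul contv)
    · exact continuousOn_id.mul ((contv.pow 2).sub
        ((by fun_prop : ContinuousOn (fun X : ℝ => t ^ 2 - X ^ 2) _).mul (contK.pow 2)))
  have iH : IntervalIntegrable (fun X => 2 * X * (KB t X * (X * KB1 t X)) +
        X * ((X * KB1 t X) ^ 2 - (t ^ 2 - X ^ 2) * KB t X ^ 2)) volume (2 * Real.pi) (4 * Real.pi) := by
    apply ContinuousOn.intervalIntegrable
    rwa [uIcc_of_le hle]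
  have h1 := intervalIntegral.integral_eq_sub_of_hasDerivAt
    (a := 2 * Real.pi) (b := 4 * Real.pi)
    (f := fun X => X ^ 2 * (KB t X * (X * KB1 t X)))
    (f' := fun X => 2 * X * (KB t X * (X * KB1 t X)) +
        X * ((X * KB1 t X) ^ 2 - (t ^ 2 - X ^ 2) * KB t X ^ 2))
    (fun X hX => by
      rw [uIcc_of_le hle] at hX
      exact dH X (by linarith [hX.1])) iH
  have iK : IntervalIntegrable (fun X => X * KB t X ^ 2) volume (2 * Real.pi) (4 * Real.pi) := by
    apply ContinuousOn.intervalIntegrable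
    rw [uIcc_of_le hle]
    exact continuousOn_id.mul (contK.pow 2)
  have iX : IntervalIntegrable (fun X : ℝ => 12 / 25 * E * X) volume (2 * Real.pi) (4 * Real.pi) :=
    (by fun_prop : Continuous (fun X : ℝ => 12 / 25 * E * X)).intervalIntegrable _ _
  have h2 : ∫ X in (2 * Real.pi)..(4 * Real.pi), (12 / 25 * E * X -
      (2 * X * (KB t X * (X * KB1 t X)) +
        X * ((X * KB1 t X) ^ 2 - (t ^ 2 - X ^ 2) * KB t X ^ 2))) ≤
      ∫ X in (2 * Real.pi)..(4 * Real.pi), 2 * t ^ 2 * (X * KB t X ^ 2) := by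
    refine intervalIntegral.integral_mono_on hle (iX.sub iH) (iK.const_mul _) ?_
    intro X hX
    have hX0 : 0 < X := by linarith [hX.1]
    have k1 := low X hX0 hX.2
    have k2 := abs_le.1 (uv X hX0 hX.2)
    unfold en at k1
    have k3 : 0 ≤ X ^ 2 * KB t X ^ 2 := by positivity
    have k4 : 0 ≤ X * (2 * (X ^ 2 * KB t X ^ 2) + ((X * KB1 t X) ^ 2 + (t ^ 2 - X ^ 2) * KB t X ^ 2) +
        2 * (KB t X * (X * KB1 t X)) - 12 / 25 * E) := by
      refine mul_nonneg hX0.le ?_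
      linarith [k2.1]
    nlinarith
  rw [intervalIntegral.integral_sub iX iH, h1, intervalIntegral.integral_const_mul,
    intervalIntegral.integral_const_mul, integral_id] at h2
  have a1 := abs_le.1 (uv (4 * Real.pi) (by positivity) le_rfl)
  have a2 := abs_le.1 (uv (2 * Real.pi) (by positivity) (by linarith))
  have p2 : 0 < Real.pi ^ 2 := by positivity
  have a3 : (4 * Real.pi) ^ 2 * (KB t (4 * Real.pi) * (4 * Real.pi * KB1 t (4 * Real.pi))) ≤
      (4 * Real.pi) ^ 2 * (E / 100) := mul_le_mul_of_nonneg_left a1.2 (by positivity)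
  have a4 : (2 * Real.pi) ^ 2 * (-(E / 100)) ≤
      (2 * Real.pi) ^ 2 * (KB t (2 * Real.pi) * (2 * Real.pi * KB1 t (2 * Real.pi))) :=
    mul_le_mul_of_nonneg_left a2.1 (by positivity)
  have a5 : Real.pi ^ 2 * E ≤ 2 * t ^ 2 * ∫ X in (2 * Real.pi)..(4 * Real.pi), X * KB t X ^ 2 := by
    refine le_trans ?_ h2
    have : 0 < Real.pi ^ 2 * E := by positivity
    nlinarith
  have a6 : 4 * Real.pi ^ 2 / (8 * t ^ 2) * E = Real.pi ^ 2 * E / (2 * t ^ 2) := by
    field_simp
    ring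
  rw [a6, div_le_iff₀ (by positivity)]
  linarith

end

end Pool.Agent.A54.Av
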