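import Pool.Agent.Lib.MP_a54f13_nt.Av.SpecE

/-!
# Module ExI of the package `Av`
-/

set_option autoImplicit false

namespace Pool.Agent.A54.Av.ExIM

open MeasureTheory Filter Topology Set
open scoped UpperHalfPlane NNReal ENNReal

noncomputable section

lemma range_coe_eq : Set.range UpperHalfPlane.coe = {z : ℂ | 0 < z.im} := by
  ext z
  constructor
  · rintro ⟨w, rfl⟩
    exact w.im_pos
  · intro hz
    exact ⟨⟨z, hz⟩, rfl⟩

lemma lint_gen (G : ℂ → ℝ≥0∞) (hG : Measurable G) :
    ∫⁻ z : ℍ, G z = ∫⁻ z in {z : ℂ | 0 < z.im}, ENNReal.ofReal (1 / z.im ^ 2) * G z := by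
  have hmeas : Measurable (fun z : ℍ => (((1 / NNReal.mk z.im z.im_pos.le : ℝ≥0) ^ 2 : ℝ≥0) :
      ℝ≥0∞)) := by
    have h1 : Measurable (fun z : ℍ => NNReal.mk z.im z.im_pos.le) :=
      (UpperHalfPlane.continuous_im.subtype_mk _).measurable
    exact ((h1.const_div 1).pow_const 2).coe_nnreal_ennreal
  have e := lintegral_withDensity_eq_lintegral_mul (volume.comap UpperHalfPlane.coe) hmeas
    (g := fun z : ℍ => G (z : ℂ)) (hG.comp UpperHalfPlane.measurable_coe)
  rw [UpperHalfPlane.volume_def]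
  refine e.trans ?_
  have h2 : ∀ z : ℍ, ((fun z : ℍ => (((1 / NNReal.mk z.im z.im_pos.le : ℝ≥0) ^ 2 : ℝ≥0) :
      ℝ≥0∞)) * fun z : ℍ => G (z : ℂ)) z
      = (fun w : ℂ => ENNReal.ofReal (1 / w.im ^ 2) * G w) (z : ℂ) := by
    intro z
    rw [Pi.mul_apply]
    congr 1
    rw [← ENNReal.ofReal_coe_nnreal]
    congr 1
    push_cast
    simp
  rw [lintegral_congr h2, ← UpperHalfPlane.measurableEmbedding_coe.lintegral_map
      (fun w : ℂ => ENNReal.ofReal (1 / w.im ^ 2) * G w),
    UpperHalfPlane.measurableEmbedding_coe.map_comap, range_coe_eq]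

lemma to_prod (F : ℂ → ℝ≥0∞) (hF : Measurable F) :
    ∫⁻ z in {z : ℂ | 0 < z.im}, F z = ∫⁻ y in Ioi (0 : ℝ), ∫⁻ x : ℝ, F ⟨x, y⟩ := by
  have hs : MeasurableSet {z : ℂ | 0 < z.im} :=
    measurableSet_lt measurable_const Complex.measurable_im
  rw [← lintegral_indicator hs, ← lintegral_indicator measurableSet_Ioi]
  have hm : Measurable ({z : ℂ | 0 < z.im}.indicator F) := hF.indicator hs
  have h1 := Complex.volume_preserving_equiv_real_prod.symm.lintegral_comp hm
  have h3 := lintegral_prod_symm' (μ := (volume : Measure ℝ)) (ν := (volume : Measure ℝ))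
    (fun p : ℝ × ℝ => {z : ℂ | 0 < z.im}.indicator F (Complex.measurableEquivRealProd.symm p))
    (hm.comp Complex.measurableEquivRealProd.symm.measurable)
  rw [← h1, Measure.volume_eq_prod]
  refine h3.trans ?_
  refine lintegral_congr fun y => ?_
  by_cases hy : 0 < y
  · rw [Set.indicator_of_mem (by exact hy)]
    refine lintegral_congr fun x => ?_
    exact Set.indicator_of_mem (s := {z : ℂ | 0 < z.im}) (a := (⟨x, y⟩ : ℂ)) hy F
  · rw [Set.indicator_of_notMem (by exact hy)]
    have : ∀ x : ℝ, {z : ℂ | 0 < z.im}.indicator F (Complex.measurableEquivRealProd.symm (x, y)) =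
        0 := fun x => Set.indicator_of_notMem (s := {z : ℂ | 0 < z.im}) (a := (⟨x, y⟩ : ℂ)) hy F
    rw [lintegral_congr this, lintegral_zero]

lemma gauss_lint (b c : ℝ) (hb : 0 < b) :
    ∫⁻ x : ℝ, ENNReal.ofReal (Real.exp (-b * (x - c) ^ 2)) = ENNReal.ofReal √(Real.pi / b) := by
  rw [← integral_gaussian b, ← integral_sub_right_eq_self (fun x : ℝ => Real.exp (-b * x ^ 2)) c]
  rw [ofReal_integral_eq_lintegral_ofReal]
  · exact (integrable_exp_neg_mul_sq hb).comp_sub_right c
  · exact Eventually.of_forall fun x => (Real.exp_pos _).le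

/-- substitution `y = v e^s` -/
lemma subst_exp (v : ℝ) (hv : 0 < v) (g : ℝ → ℝ≥0∞) :
    ∫⁻ y in Ioi (0 : ℝ), g y = ∫⁻ s : ℝ, ENNReal.ofReal (v * Real.exp s) * g (v * Real.exp s) := by
  have h := lintegral_image_eq_lintegral_abs_deriv_mul (s := univ)
    (f := fun s => v * Real.exp s) (f' := fun s => v * Real.exp s) MeasurableSet.univ
    (fun x _ => ((Real.hasDerivAt_exp x).const_mul v).hasDerivWithinAt)
    (fun x _ y _ hxy => Real.exp_injective (mul_left_cancel₀ hv.ne' hxy)) g
  have him : (fun s => v * Real.exp s) '' univ = Ioi (0 : ℝ) := by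
    ext y
    simp only [image_univ, mem_range, mem_Ioi]
    constructor
    · rintro ⟨s, rfl⟩; positivity
    · intro hy
      refine ⟨Real.log (y / v), ?_⟩
      rw [Real.exp_log (by positivity)]
      field_simp
  rw [him, Measure.restrict_univ] at h
  rw [h]
  refine lintegral_congr fun s => ?_
  rw [abs_of_pos (by positivity)]

/-- substitution `u = sinh (s / 2)` -/
lemma subst_sinh (g : ℝ → ℝ≥0∞) :
    ∫⁻ s : ℝ, ENNReal.ofReal (Real.cosh (s / 2) / 2) * g (Real.sinh (s / 2)) = ∫⁻ u, g u := by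
  have h := lintegral_image_eq_lintegral_abs_deriv_mul (s := univ)
    (f := fun s => Real.sinh (s / 2)) (f' := fun s => Real.cosh (s / 2) / 2) MeasurableSet.univ
    (fun x _ => by
      have h1 : HasDerivAt (fun s : ℝ => s / 2) (1 / 2) x := (hasDerivAt_id x).div_const 2
      have h2 := (Real.hasDerivAt_sinh (x / 2)).comp x h1
      have h3 : Real.cosh (x / 2) * (1 / 2) = Real.cosh (x / 2) / 2 := by ring
      rw [h3] at h2
      exact h2.hasDerivWithinAt)
    (fun x _ y _ hxy => by
      have := Real.sinh_injective hxy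
      linarith) g
  have him : (fun s : ℝ => Real.sinh (s / 2)) '' univ = univ := by
    rw [image_univ]
    ext y
    simp only [mem_range, mem_univ, iff_true]
    obtain ⟨x, hx⟩ := Real.sinh_surjective y
    exact ⟨2 * x, by rw [← hx]; congr 1; ring⟩
  rw [him, Measure.restrict_univ] at h
  rw [h]
  refine lintegral_congr fun s => ?_
  rw [abs_of_pos (by have := Real.cosh_pos (s / 2); positivity)]

/-- symmetrisation -/
lemma symm_lint (g : ℝ → ℝ) (hg : ∀ s, 0 ≤ g s) (hgm : Measurable g) (he : ∀ s, g (-s) = g s) :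
    ∫⁻ s : ℝ, ENNReal.ofReal (Real.exp (-(s / 2)) * g s) =
      ∫⁻ s : ℝ, ENNReal.ofReal (Real.cosh (s / 2) * g s) := by
  have h1 : ∫⁻ s : ℝ, ENNReal.ofReal (Real.exp (s / 2) * g s) =
      ∫⁻ s : ℝ, ENNReal.ofReal (Real.exp (-(s / 2)) * g s) := by
    have hmm : Measurable fun s : ℝ => ENNReal.ofReal (Real.exp (s / 2) * g s) := by fun_prop
    rw [← (Measure.measurePreserving_neg (volume : Measure ℝ)).lintegral_comp hmm]
    refine lintegral_congr fun s => ?_
    rw [he, neg_div]
  have h2 : ∫⁻ s : ℝ, ENNReal.ofReal (Real.cosh (s / 2) * g s) =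
      (2 : ℝ≥0∞)⁻¹ * ((∫⁻ s : ℝ, ENNReal.ofReal (Real.exp (s / 2) * g s)) +
        ∫⁻ s : ℝ, ENNReal.ofReal (Real.exp (-(s / 2)) * g s)) := by
    rw [← lintegral_add_left (by fun_prop), ← lintegral_const_mul _ (by fun_prop)]
    refine lintegral_congr fun s => ?_
    rw [← ENNReal.ofReal_add (mul_nonneg (Real.exp_pos _).le (hg s))
      (mul_nonneg (Real.exp_pos _).le (hg s))]
    have : (2 : ℝ≥0∞)⁻¹ = ENNReal.ofReal (2⁻¹) := by
      rw [ENNReal.ofReal_inv_of_pos (by norm_num), ENNReal.ofReal_ofNat]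
    rw [this, ← ENNReal.ofReal_mul (by norm_num), Real.cosh_eq]
    congr 1
    ring
  rw [h2, h1, ← two_mul, ← mul_assoc, ENNReal.inv_mul_cancel (by norm_num) (by norm_num), one_mul]

/-- the density -/
def F (X u v : ℝ) (z : ℂ) : ℝ :=
  Real.exp (-(X * (1 + ((z.re - u) ^ 2 + (z.im - v) ^ 2) / (2 * z.im * v))))

lemma meas_F (X u v : ℝ) : Measurable (F X u v) := by
  unfold F
  have h1 := Complex.measurable_re
  have h2 := Complex.measurable_im
  fun_prop

lemma inner (X u v y : ℝ) (hX : 0 < X) (hv : 0 < v) (hy : 0 < y) :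
    ∫⁻ x : ℝ, ENNReal.ofReal (F X u v ⟨x, y⟩) =
      ENNReal.ofReal (Real.exp (-X) * Real.exp (-(X * (y - v) ^ 2 / (2 * y * v))) *
        √(2 * Real.pi * y * v / X)) := by
  have h : ∀ x : ℝ, ENNReal.ofReal (F X u v ⟨x, y⟩) =
      ENNReal.ofReal (Real.exp (-X) * Real.exp (-(X * (y - v) ^ 2 / (2 * y * v)))) *
        ENNReal.ofReal (Real.exp (-(X / (2 * y * v)) * (x - u) ^ 2)) := by
    intro x
    have e : F X u v ⟨x, y⟩ = Real.exp (-(X * (1 + ((x - u) ^ 2 + (y - v) ^ 2) / (2 * y * v)))) :=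
      rfl
    rw [e, ← ENNReal.ofReal_mul (by positivity), ← Real.exp_add, ← Real.exp_add]
    congr 2
    field_simp
    ring
  rw [lintegral_congr h, lintegral_const_mul _ (by fun_prop), gauss_lint _ _ (by positivity),
    ← ENNReal.ofReal_mul (by positivity)]
  congr 3
  field_simp

theorem main (X u v : ℝ) (hX : 0 < X) (hv : 0 < v) :
    ∫⁻ z in {z : ℂ | 0 < z.im}, ENNReal.ofReal (1 / z.im ^ 2) * ENNReal.ofReal (F X u v z) =
      ENNReal.ofReal (2 * Real.pi * Real.exp (-X) / X) := by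
  have hm : Measurable fun z : ℂ => ENNReal.ofReal (1 / z.im ^ 2) * ENNReal.ofReal (F X u v z) :=
    ((measurable_const.div (Complex.measurable_im.pow_const 2)).ennreal_ofReal).mul
      (meas_F X u v).ennreal_ofReal
  rw [to_prod _ hm]
  have h1 : ∀ y ∈ Ioi (0 : ℝ), ∫⁻ x : ℝ, ENNReal.ofReal (1 / (⟨x, y⟩ : ℂ).im ^ 2) *
      ENNReal.ofReal (F X u v ⟨x, y⟩) = ENNReal.ofReal (1 / y ^ 2 * (Real.exp (-X) *
        Real.exp (-(X * (y - v) ^ 2 / (2 * y * v))) * √(2 * Real.pi * y * v / X))) := by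
    intro y hy
    have hy' : 0 < y := hy
    simp only
    rw [lintegral_const_mul, inner X u v y hX hv hy', ← ENNReal.ofReal_mul (by positivity)]
    exact ((meas_F X u v).comp (by
      exact Complex.measurableEquivRealProd.symm.measurable.comp
        (measurable_id.prodMk measurable_const))).ennreal_ofReal
  rw [setLIntegral_congr_fun measurableSet_Ioi h1, subst_exp v hv]
  have h2 : ∀ s : ℝ, ENNReal.ofReal (v * Real.exp s) *
      ENNReal.ofReal (1 / (v * Real.exp s) ^ 2 * (Real.exp (-X) *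
        Real.exp (-(X * (v * Real.exp s - v) ^ 2 / (2 * (v * Real.exp s) * v))) *
          √(2 * Real.pi * (v * Real.exp s) * v / X))) =
      ENNReal.ofReal (Real.exp (-X) * √(2 * Real.pi / X)) *
        ENNReal.ofReal (Real.exp (-(s / 2)) * Real.exp (-(2 * X) * Real.sinh (s / 2) ^ 2)) := by
    intro s
    rw [← ENNReal.ofReal_mul (by positivity), ← ENNReal.ofReal_mul (by positivity)]
    congr 1
    have e1 : √(2 * Real.pi * (v * Real.exp s) * v / X) =
        v * Real.exp (s / 2) * √(2 * Real.pi / X) := by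
      have : 2 * Real.pi * (v * Real.exp s) * v / X =
          (v * Real.exp (s / 2)) ^ 2 * (2 * Real.pi / X) := by
        have : Real.exp s = Real.exp (s / 2) ^ 2 := by
          rw [← Real.exp_nat_mul]; congr 1; push_cast; ring
        rw [this]; ring
      rw [this, Real.sqrt_mul (sq_nonneg _), Real.sqrt_sq (by positivity)]
    have e2 : -(X * (v * Real.exp s - v) ^ 2 / (2 * (v * Real.exp s) * v)) =
        -(2 * X) * Real.sinh (s / 2) ^ 2 := by
      have h3 : Real.sinh (s / 2) ^ 2 = (Real.exp s + Real.exp (-s) - 2) / 4 := by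
        rw [Real.sinh_eq, div_pow, sub_sq, ← Real.exp_nat_mul, ← Real.exp_nat_mul, mul_assoc,
          ← Real.exp_add]
        have a1 : ((2 : ℕ) : ℝ) * (s / 2) = s := by push_cast; ring
        have a2 : ((2 : ℕ) : ℝ) * -(s / 2) = -s := by push_cast; ring
        have a3 : s / 2 + -(s / 2) = 0 := by ring
        rw [a1, a2, a3, Real.exp_zero]
        ring
      rw [h3, Real.exp_neg]
      have := Real.exp_pos s
      field_simp
      ring
    rw [e1, e2]
    have e3 : Real.exp s = Real.exp (s / 2) * Real.exp (s / 2) := by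
      rw [← Real.exp_add]; congr 1; ring
    rw [e3, Real.exp_neg (s / 2)]
    have := Real.exp_pos (s / 2)
    field_simp
  rw [lintegral_congr h2, lintegral_const_mul _ (by fun_prop), symm_lint]
  rotate_left
  · intro s; positivity
  · fun_prop
  · intro s; rw [neg_div, Real.sinh_neg, neg_sq]
  have h4 : ∫⁻ s : ℝ, ENNReal.ofReal (Real.cosh (s / 2) *
      Real.exp (-(2 * X) * Real.sinh (s / 2) ^ 2)) =
      2 * ∫⁻ u : ℝ, ENNReal.ofReal (Real.exp (-(2 * X) * u ^ 2)) := by
    rw [← subst_sinh (fun u => ENNReal.ofReal (Real.exp (-(2 * X) * u ^ 2))),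
      ← lintegral_const_mul _ (by fun_prop)]
    refine lintegral_congr fun s => ?_
    have : (2 : ℝ≥0∞) = ENNReal.ofReal 2 := by rw [ENNReal.ofReal_ofNat]
    rw [this, ← ENNReal.ofReal_mul (by have := Real.cosh_pos (s / 2); positivity),
      ← ENNReal.ofReal_mul (by norm_num)]
    congr 1
    ring
  have h5 := gauss_lint (2 * X) 0 (by positivity)
  simp only [sub_zero] at h5
  rw [h4, h5]
  have : (2 : ℝ≥0∞) = ENNReal.ofReal 2 := by rw [ENNReal.ofReal_ofNat]
  rw [this, ← ENNReal.ofReal_mul (by norm_num), ← ENNReal.ofReal_mul (by positivity)]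
  congr 1
  have e4 : 2 * √(Real.pi / (2 * X)) = √(2 * Real.pi / X) := by
    have : 2 * Real.pi / X = 2 ^ 2 * (Real.pi / (2 * X)) := by field_simp
    rw [this, Real.sqrt_mul (by norm_num), Real.sqrt_sq (by norm_num)]
  rw [e4, mul_assoc, Real.mul_self_sqrt (by positivity)]
  ring

lemma F_eq (X : ℝ) (z w : ℍ) :
    Real.exp (-(X * Real.cosh (dist z w))) = F X w.re w.im (z : ℂ) := by
  unfold F
  rw [UpperHalfPlane.cosh_dist, Complex.dist_eq, ← Complex.normSq_eq_norm_sq,
    Complex.normSq_apply]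
  congr 4
  simp only [Complex.sub_re, Complex.sub_im, UpperHalfPlane.coe_re, UpperHalfPlane.coe_im]
  ring

theorem lint_exp (X : ℝ) (w : ℍ) (hX : 0 < X) :
    ∫⁻ z : ℍ, ENNReal.ofReal (Real.exp (-(X * Real.cosh (dist z w)))) =
      ENNReal.ofReal (2 * Real.pi * Real.exp (-X) / X) := by
  rw [← main X w.re w.im hX w.im_pos, ← lint_gen _ (meas_F X w.re w.im).ennreal_ofReal]
  exact lintegral_congr fun z => by rw [F_eq]

lemma cont_exp (X : ℝ) (w : ℍ) :
    Continuous fun z : ℍ => Real.exp (-(X * Real.cosh (dist z w))) := by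
  fun_prop

theorem integ_exp (X : ℝ) (w : ℍ) (hX : 0 < X) :
    Integrable fun z : ℍ => Real.exp (-(X * Real.cosh (dist z w))) := by
  refine ⟨(cont_exp X w).aestronglyMeasurable, ?_⟩
  rw [hasFiniteIntegral_iff_ofReal (Eventually.of_forall fun z => (Real.exp_pos _).le),
    lint_exp X w hX]
  exact ENNReal.ofReal_lt_top

end

end Pool.Agent.A54.Av.ExIM

namespace Pool.Agent.A54.Av

open MeasureTheory Filter Topology Set
open scoped UpperHalfPlane
open ExIM

theorem stmtExI : StmtExI := by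
  intro X w hX
  constructor
  · intro k
    have hd := (integ_exp (X / 2) w (by positivity)).const_mul ((2 / X) ^ k * (k.factorial : ℝ))
    refine hd.mono' ?_ ?_
    · exact Continuous.aestronglyMeasurable (by fun_prop)
    · refine Eventually.of_forall fun z => ?_
      set c := Real.cosh (dist z w) with hc
      have hc0 : 0 < c := Real.cosh_pos _
      have h1 := Real.pow_div_factorial_le_exp (x := X / 2 * c) (by positivity) k
      rw [div_le_iff₀ (by positivity)] at h1
      rw [Real.norm_of_nonneg (by positivity)]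
      have h2 : c ^ k = (2 / X) ^ k * (X / 2 * c) ^ k := by
        rw [← mul_pow]; congr 1; field_simp
      have h3 : Real.exp (-(X * c)) = Real.exp (-(X / 2 * c)) * Real.exp (-(X / 2 * c)) := by
        rw [← Real.exp_add]; congr 1; ring
      rw [h2, h3]
      calc (2 / X) ^ k * (X / 2 * c) ^ k * (Real.exp (-(X / 2 * c)) * Real.exp (-(X / 2 * c)))
          ≤ (2 / X) ^ k * (Real.exp (X / 2 * c) * (k.factorial : ℝ)) *
            (Real.exp (-(X / 2 * c)) * Real.exp (-(X / 2 * c))) := by gcongr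
        _ = (2 / X) ^ k * (k.factorial : ℝ) * Real.exp (-(X / 2 * c)) := by
            have : Real.exp (X / 2 * c) * Real.exp (-(X / 2 * c)) = 1 := by
              rw [← Real.exp_add]; simp
            calc _ = (2 / X) ^ k * (k.factorial : ℝ) * Real.exp (-(X / 2 * c)) *
                (Real.exp (X / 2 * c) * Real.exp (-(X / 2 * c))) := by ring
              _ = _ := by rw [this, mul_one]
  · rw [integral_eq_lintegral_of_nonneg_ae (Eventually.of_forall fun z => (Real.exp_pos _).le)
      (cont_exp X w).aestronglyMeasurable, lint_exp X w hX, ENNReal.toReal_ofReal (by positivity)]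

end Pool.Agent.A54.Av
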