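import Pool.Agent.Lib.MP_a54f13_nt.Av.SpecF

/-!
# `F1`: the average over the forms
-/

set_option autoImplicit false

namespace Pool.Agent.A54.Av

open MeasureTheory Filter Topology Set
open scoped ContDiff ComplexConjugate UpperHalfPlane MatrixGroups ENNReal
open Pool.Agent.A54.Half (H0 qq ff hh)

noncomputable section

namespace F1M

lemma es_eq (η : ℂ → ℝ) (r : ℝ) (z0 z : ℂ) :
    es η r z0 z = (r ^ 2)⁻¹ * η (r⁻¹ • (z - z0)) := by
  unfold es
  rw [Complex.real_smul, Complex.ofReal_inv]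

lemma es_cont {η : ℂ → ℝ} (hη : Bump η) (r : ℝ) (z0 : ℂ) : Continuous (es η r z0) := by
  have h := hη.smooth.continuous
  unfold es
  fun_prop

lemma es_tsupport {η : ℂ → ℝ} (hη : Bump η) {r : ℝ} (hr : 0 < r) (z0 : ℂ) :
    tsupport (es η r z0) ⊆ Metric.closedBall z0 r := by
  refine closure_minimal ?_ Metric.isClosed_closedBall
  intro z hz
  have h1 : η (r⁻¹ • (z - z0)) ≠ 0 := by
    intro h0
    apply hz
    rw [es_eq, h0, mul_zero]
  have h2 : r⁻¹ • (z - z0) ∈ Metric.closedBall (0 : ℂ) 1 := hη.sub (subset_tsupport _ h1)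
  rw [mem_closedBall_zero_iff, norm_smul, norm_inv, Real.norm_eq_abs, abs_of_pos hr] at h2
  rw [Metric.mem_closedBall, dist_eq_norm]
  rw [inv_mul_le_iff₀ hr, mul_one] at h2
  exact h2

lemma es_compact {η : ℂ → ℝ} (hη : Bump η) {r : ℝ} (hr : 0 < r) (z0 : ℂ) :
    HasCompactSupport (es η r z0) :=
  (isCompact_closedBall z0 r).of_isClosed_subset (isClosed_tsupport _) (es_tsupport hη hr z0)

lemma es_int {η : ℂ → ℝ} (hη : Bump η) {r : ℝ} (hr : 0 < r) (z0 : ℂ) :
    ∫ z, es η r z0 z = 1 := by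
  simp_rw [es_eq]
  rw [integral_const_mul, integral_sub_right_eq_self (fun z : ℂ => η (r⁻¹ • z)) z0,
    Measure.integral_comp_smul, hη.one, Complex.finrank_real_complex]
  rw [abs_of_nonneg (by positivity)]
  simp only [smul_eq_mul, mul_one]
  field_simp

lemma es_integrable {η : ℂ → ℝ} (hη : Bump η) {r : ℝ} (hr : 0 < r) (z0 : ℂ) :
    Integrable (es η r z0) :=
  (es_cont hη r z0).integrable_of_hasCompactSupport (es_compact hη hr z0)

lemma es_mul_integrable {η : ℂ → ℝ} (hη : Bump η) {r : ℝ} (hr : 0 < r) {z0 : ℂ}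
    (hz : Metric.closedBall z0 r ⊆ H0) {F : ℂ → ℝ} (hF : ContinuousOn F H0) :
    Integrable (fun z => es η r z0 z * F z) := by
  have h1 : IntegrableOn (fun z => es η r z0 z * F z) (Metric.closedBall z0 r) :=
    (((es_cont hη r z0).continuousOn).mul (hF.mono hz)).integrableOn_compact
      (isCompact_closedBall z0 r)
  refine (integrableOn_iff_integrable_of_support_subset ?_).mp h1
  intro z hz'
  refine es_tsupport hη hr z0 (subset_tsupport _ ?_)
  intro h0
  apply hz'
  show es η r z0 z * F z = 0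
  rw [h0, zero_mul]

/-- the double integral without measurability -/
lemma double (K : Set ℂ) (hK : volume K ≠ ⊤) (A : ℝ≥0∞) (hA : A ≠ ⊤) (G : ℂ → ℝ≥0∞)
    (f : ℂ → ℂ → ℝ≥0∞) (hm : MeasurableSet K)
    (h : ∀ z ∈ K, ∀ z' ∈ K, f z z' ≤ A * (2 * (G z + G z'))) :
    ∫⁻ z in K, ∫⁻ z' in K, f z z' ≤ 4 * A * volume K * ∫⁻ z in K, G z := by
  have h1 : ∀ z ∈ K, ∫⁻ z' in K, f z z' ≤ A * 2 * (volume K * G z + ∫⁻ z in K, G z) := by
    intro z hz
    calc ∫⁻ z' in K, f z z' ≤ ∫⁻ z' in K, A * 2 * (G z + G z') := by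
          refine setLIntegral_mono' hm fun z' hz' => ?_
          rw [mul_assoc]
          exact h z hz z' hz'
      _ = A * 2 * ∫⁻ z' in K, (G z + G z') :=
          lintegral_const_mul' _ _ (ENNReal.mul_ne_top hA (by simp))
      _ = A * 2 * (volume K * G z + ∫⁻ z in K, G z) := by
          rw [lintegral_add_left measurable_const, setLIntegral_const, mul_comm (G z)]
  calc ∫⁻ z in K, ∫⁻ z' in K, f z z' ≤ ∫⁻ z in K, A * 2 * (volume K * G z + ∫⁻ z in K, G z) :=
        setLIntegral_mono' hm h1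
    _ = A * 2 * ∫⁻ z in K, (volume K * G z + ∫⁻ z in K, G z) :=
        lintegral_const_mul' _ _ (ENNReal.mul_ne_top hA (by simp))
    _ = A * 2 * (volume K * (∫⁻ z in K, G z) + (∫⁻ z in K, G z) * volume K) := by
        rw [lintegral_add_right _ measurable_const, setLIntegral_const,
          lintegral_const_mul' _ _ hK]
    _ = 4 * A * volume K * ∫⁻ z in K, G z := by ring

end F1M

open F1M in
theorem stmtF1 (hAv : StmtAv1) (hGN : StmtGN) (hBP : StmtBP) : StmtF1 := by
  intro η hη K hK hKH ε hε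
  obtain ⟨C, hC, hAv⟩ := hAv
  have hKv : volume K ≠ ⊤ := hK.measure_lt_top.ne
  set v : ℝ := (volume K).toReal with hv
  have hv0 : 0 ≤ v := ENNReal.toReal_nonneg
  set ε' : ℝ := ε / (4 * (C + 1) * (v + 1)) with hε'
  have hε'0 : 0 < ε' := by positivity
  obtain ⟨R0, hR0, hB⟩ := hBP η hη K hK hKH ε' hε'0
  -- the discs
  have hopen : IsOpen H0 := isOpen_lt continuous_const Complex.continuous_im
  obtain ⟨r1, hr1, hr1K⟩ := hK.exists_cthickening_subset_open hopen hKH
  refine ⟨R0, hR0, fun R hR => ?_⟩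
  obtain ⟨T0, hT0, hBT⟩ := hB R hR
  have hRpos : 0 < R := by linarith
  refine ⟨max T0 (R / r1), le_max_of_le_left hT0, fun T hT ι _ F t ρ hFam ht => ?_⟩
  have hT1 : T0 ≤ T := (le_max_left _ _).trans hT
  have hT2 : R / r1 ≤ T := (le_max_right _ _).trans hT
  have hTpos : 0 < T := by linarith
  have hTge : 2 ≤ T := hT0.trans hT1
  set r : ℝ := R / T with hr
  have hr0 : 0 < r := by positivity
  have hrr1 : r ≤ r1 := by
    rw [hr, div_le_iff₀ hTpos]
    rw [div_le_iff₀ hr1] at hT2
    linarith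
  have hball : ∀ z ∈ K, Metric.closedBall z r ⊆ H0 := by
    intro z hz
    exact (Metric.closedBall_subset_closedBall hrr1).trans
      ((Metric.closedBall_subset_cthickening hz r1).trans hr1K)
  have hq0 : 0 < qT T := by
    unfold qT
    refine Real.sqrt_pos.mpr ?_
    have : (T ^ 2)⁻¹ ≤ 4⁻¹ := by
      refine inv_anti₀ (by norm_num) ?_
      nlinarith
    linarith [show (4 : ℝ)⁻¹ < 1 by norm_num]
  have hq1 : qT T < 1 := by
    unfold qT
    rw [Real.sqrt_lt' one_pos]
    have : 0 < (T ^ 2)⁻¹ := by positivity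
    linarith
  have hmain : ∀ z ∈ K, ∀ z' ∈ K, ENNReal.ofReal (∑ i, wf (t i) (ρ i) *
      (Sm' η r (fun w => ext (F i) w ^ 2) z - Sm' η r (fun w => ext (F i) w ^ 2) z') ^ 2) ≤
      ENNReal.ofReal (C / T ^ 4) * (2 * (RN (qT T) (es η r z) + RN (qT T) (es η r z'))) := by
    intro z hz z' hz'
    have hg : TestG (fun w => es η r z w - es η r z' w) := by
      refine ⟨(es_cont hη r z).sub (es_cont hη r z'), ?_, ?_, ?_⟩
      · exact (es_compact hη hr0 z).sub (es_compact hη hr0 z')
      · refine (tsupport_sub _ _).trans ?_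
        exact union_subset ((es_tsupport hη hr0 z).trans (hball z hz))
          ((es_tsupport hη hr0 z').trans (hball z' hz'))
      · rw [integral_sub (es_integrable hη hr0 z) (es_integrable hη hr0 z'), es_int hη hr0,
          es_int hη hr0, sub_self]
    have h1 := hAv ι F t ρ T hFam hTge ht _ hg
    have h2 := hGN (qT T) (es η r z) (es η r z') hq0 hq1 (es_cont hη r z) (es_cont hη r z')
      (es_compact hη hr0 z) (es_compact hη hr0 z') ((es_tsupport hη hr0 z).trans (hball z hz))
      ((es_tsupport hη hr0 z').trans (hball z' hz')) (by rw [es_int hη hr0, es_int hη hr0])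
    have h3 : ∀ i, ∫ w, (es η r z w - es η r z' w) * ext (F i) w ^ 2 =
        Sm' η r (fun w => ext (F i) w ^ 2) z - Sm' η r (fun w => ext (F i) w ^ 2) z' := by
      intro i
      have hc : ContinuousOn (fun w => ext (F i) w ^ 2) H0 :=
        ((hFam.form i).smooth.continuousOn).pow 2
      unfold Sm'
      rw [← integral_sub (es_mul_integrable hη hr0 (hball z hz) hc)
        (es_mul_integrable hη hr0 (hball z' hz') hc)]
      congr 1
      ext w
      ring
    simp_rw [h3] at h1
    exact h1.trans (mul_le_mul_right h2 _)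
  calc ∫⁻ z in K, ∫⁻ z' in K, ENNReal.ofReal (∑ i, wf (t i) (ρ i) *
        (Sm' η r (fun w => ext (F i) w ^ 2) z - Sm' η r (fun w => ext (F i) w ^ 2) z') ^ 2)
      ≤ 4 * ENNReal.ofReal (C / T ^ 4) * volume K * ∫⁻ z in K, RN (qT T) (es η r z) :=
        double K hKv _ ENNReal.ofReal_ne_top _ _ hK.measurableSet hmain
    _ ≤ 4 * ENNReal.ofReal (C / T ^ 4) * volume K * ENNReal.ofReal (ε' * T ^ 6) :=
        mul_le_mul_right (hBT T hT1) _
    _ = ENNReal.ofReal (4 * (C / T ^ 4) * v * (ε' * T ^ 6)) := by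
        have h4 : (4 : ℝ≥0∞) = ENNReal.ofReal 4 := by simp
        have h5 : volume K = ENNReal.ofReal v := (ENNReal.ofReal_toReal hKv).symm
        rw [h4, h5, ← ENNReal.ofReal_mul (by norm_num), ← ENNReal.ofReal_mul (by positivity),
          ← ENNReal.ofReal_mul (by positivity)]
    _ ≤ ENNReal.ofReal (ε * T ^ 2) := by
        refine ENNReal.ofReal_le_ofReal ?_
        have e1 : 4 * (C / T ^ 4) * v * (ε' * T ^ 6) = (4 * C * v * ε') * T ^ 2 := by
          field_simp
        rw [e1]
        refine mul_le_mul_of_nonneg_right ?_ (by positivity)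
        have e2 : ε = 4 * (C + 1) * (v + 1) * ε' := by
          rw [hε']
          field_simp
        rw [e2]
        refine mul_le_mul_of_nonneg_right ?_ hε'0.le
        nlinarith [mul_nonneg hC hv0]

end

end Pool.Agent.A54.Av
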