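import Pool.Agent.Lib.MP_a54f13_nt.Av.SpecF

/-!
# Package `Av`, module `F2`: most forms are good
-/

set_option autoImplicit false

namespace Pool.Agent.A54.Av.F2M

open MeasureTheory Filter Topology Set
open scoped ContDiff ComplexConjugate UpperHalfPlane MatrixGroups ENNReal
open Pool.Agent.A54.Half (H0 qq ff hh)

noncomputable section

lemma ofReal_int_le {α : Type} [MeasurableSpace α] (μ : Measure α) (f : α → ℝ)
    (hf : ∀ x, 0 ≤ f x) : ENNReal.ofReal (∫ x, f x ∂μ) ≤ ∫⁻ x, ENNReal.ofReal (f x) ∂μ := by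
  have h := enorm_integral_le_lintegral_enorm (μ := μ) f
  have h1 : 0 ≤ ∫ x, f x ∂μ := integral_nonneg hf
  rw [Real.enorm_eq_ofReal h1] at h
  refine h.trans (le_of_eq ?_)
  congr 1
  funext x
  exact Real.enorm_eq_ofReal (hf x)

lemma sum_lint_le {α ι : Type} [MeasurableSpace α] (μ : Measure α) (s : Finset ι)
    (f : ι → α → ℝ≥0∞) : ∑ i ∈ s, ∫⁻ x, f i x ∂μ ≤ ∫⁻ x, ∑ i ∈ s, f i x ∂μ := by
  classical
  induction s using Finset.induction_on with
  | empty => simp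
  | insert a s ha ih =>
    rw [Finset.sum_insert ha]
    simp_rw [Finset.sum_insert ha]
    exact (add_le_add le_rfl ih).trans (le_lintegral_add _ _)

end

end Pool.Agent.A54.Av.F2M

namespace Pool.Agent.A54.Av

open MeasureTheory Filter Topology Set
open scoped ContDiff ComplexConjugate UpperHalfPlane MatrixGroups ENNReal
open Pool.Agent.A54.Half (H0 qq ff hh)
open F2M

theorem stmtF2 (hF1 : StmtF1) (hRS : StmtRS) : StmtF2 := by
  intro η hη K hK hK' ε ε' hε hε'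
  have hε1 : 0 < ε ^ 2 * ε' / 576 := by positivity
  obtain ⟨R0, hR0, h1⟩ := hF1 η hη K hK hK' _ hε1
  refine ⟨R0, hR0, fun R hR => ?_⟩
  obtain ⟨T0, hT0, h2⟩ := h1 R hR
  refine ⟨max T0 200, hT0.trans (le_max_left _ _), fun T hT => ?_⟩
  intro ι _ F t ρ hF ht hX
  have hTT0 : T0 ≤ T := (le_max_left _ _).trans hT
  have hT200 : 200 ≤ T := (le_max_right _ _).trans hT
  have h3 := h2 T hTT0 ι F t ρ hF ht
  have h4 := hRS ι F t ρ T hF hT200 ht
  have hw : ∀ i, 0 < wf (t i) (ρ i) := by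
    intro i
    unfold wf
    have : ρ i ≠ 0 := (hF.rho i).1
    have h5 := Real.cosh_pos (Real.pi * t i)
    positivity
  set S : ι → ℂ → ℝ := fun i => Sm' η (R / T) (fun w => ext (F i) w ^ 2) with hS
  have h5 : ENNReal.ofReal (∑ i, wf (t i) (ρ i) * XX2 η (R / T) K (F i)) ≤
      ENNReal.ofReal (ε ^ 2 * ε' / 576 * T ^ 2) := by
    refine le_trans ?_ h3
    have h60 : ∀ i ∈ Finset.univ, 0 ≤ wf (t i) (ρ i) * XX2 η (R / T) K (F i) := fun i _ =>
      mul_nonneg (hw i).le (hε'.le.trans (hX i).le)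
    rw [ENNReal.ofReal_sum_of_nonneg h60]
    have h6 : ∀ i, ENNReal.ofReal (wf (t i) (ρ i) * XX2 η (R / T) K (F i)) ≤
        ∫⁻ z in K, ∫⁻ z' in K, ENNReal.ofReal (wf (t i) (ρ i) * (S i z - S i z') ^ 2) := by
      intro i
      have h7 : wf (t i) (ρ i) * XX2 η (R / T) K (F i) =
          ∫ z in K, ∫ z' in K, wf (t i) (ρ i) * (S i z - S i z') ^ 2 := by
        unfold XX2
        rw [← integral_const_mul]
        congr 1
        funext z
        rw [← integral_const_mul]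
      rw [h7]
      refine (ofReal_int_le _ _ fun z => integral_nonneg fun z' =>
        mul_nonneg (hw i).le (sq_nonneg _)).trans ?_
      refine lintegral_mono fun z => ?_
      exact ofReal_int_le _ _ fun z' => mul_nonneg (hw i).le (sq_nonneg _)
    refine (Finset.sum_le_sum fun i _ => h6 i).trans ?_
    refine (sum_lint_le _ _ _).trans ?_
    refine lintegral_mono fun z => ?_
    refine (sum_lint_le _ _ _).trans ?_
    refine lintegral_mono fun z' => ?_
    simp only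
    rw [ENNReal.ofReal_sum_of_nonneg (fun i _ => mul_nonneg (hw i).le (sq_nonneg _))]
  have h6 : ∑ i, wf (t i) (ρ i) * XX2 η (R / T) K (F i) ≤ ε ^ 2 * ε' / 576 * T ^ 2 :=
    (ENNReal.ofReal_le_ofReal_iff (by positivity)).mp h5
  have h7 : ε' * ∑ i, wf (t i) (ρ i) ≤ ε ^ 2 * ε' / 576 * T ^ 2 := by
    refine le_trans ?_ h6
    rw [Finset.mul_sum]
    refine Finset.sum_le_sum fun i _ => ?_
    rw [mul_comm]
    exact mul_le_mul_of_nonneg_left (hX i).le (hw i).le
  have h8 : ∑ i, wf (t i) (ρ i) ≤ ε ^ 2 / 576 * T ^ 2 := by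
    have : ε' * ∑ i, wf (t i) (ρ i) ≤ ε' * (ε ^ 2 / 576 * T ^ 2) := by
      refine h7.trans (le_of_eq ?_); ring
    exact le_of_mul_le_mul_left this hε'
  have h9 : (∑ _i : ι, (1 : ℝ)) ^ 2 ≤ (∑ i, wf (t i) (ρ i)) * ∑ i, (wf (t i) (ρ i))⁻¹ := by
    refine Finset.sum_sq_le_sum_mul_sum_of_sq_le_mul _ (fun i _ => (hw i).le)
      (fun i _ => inv_nonneg.mpr (hw i).le) fun i _ => ?_
    rw [mul_inv_cancel₀ (hw i).ne', one_pow]
  have h10 : (∑ _i : ι, (1 : ℝ)) = (Fintype.card ι : ℝ) := by simp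
  rw [h10] at h9
  have h11 : (Fintype.card ι : ℝ) ^ 2 ≤ (ε * T ^ 2) ^ 2 := by
    refine h9.trans ?_
    calc (∑ i, wf (t i) (ρ i)) * ∑ i, (wf (t i) (ρ i))⁻¹ ≤ (ε ^ 2 / 576 * T ^ 2) * (576 * T ^ 2) :=
          mul_le_mul h8 h4 (Finset.sum_nonneg fun i _ => inv_nonneg.mpr (hw i).le) (by positivity)
      _ = (ε * T ^ 2) ^ 2 := by ring
  exact le_of_sq_le_sq h11 (by positivity)

end Pool.Agent.A54.Av
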