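import Pool.Agent.Lib.MP_a54f13_nt.Av.SpecF

/-!
# Package `Av`, module `Fa1`: the mean value
-/

set_option autoImplicit false

namespace Pool.Agent.A54.Av

open MeasureTheory Filter Topology Set
open scoped ContDiff ComplexConjugate UpperHalfPlane MatrixGroups ENNReal
open Pool.Agent.A54.Half (H0 qq ff hh)

noncomputable section

namespace Fa1M

private lemma bump_zero {η : ℂ → ℝ} (hη : Bump η) {z : ℂ} (hz : 1 < ‖z‖) : η z = 0 := by
  by_contra h
  have h1 : z ∈ tsupport η := subset_tsupport _ h
  have h2 := hη.sub h1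
  rw [mem_closedBall_zero_iff] at h2
  linarith

/-- moves a point up to `im z ≥ b` -/
private def up (b : ℝ) (z : ℂ) : ℂ := ⟨z.re, max z.im b⟩

private lemma up_cont (b : ℝ) : Continuous (up b) := by
  have : up b = fun z => ((z.re : ℂ) + ((max z.im b : ℝ) : ℂ) * Complex.I) := by
    funext z
    apply Complex.ext <;> simp [up]
  rw [this]
  fun_prop

private lemma up_eq {b : ℝ} {z : ℂ} (h : b ≤ z.im) : up b z = z := by
  apply Complex.ext
  · rfl
  · exact max_eq_left h

private lemma Fup_cont {F : ℂ → ℝ} (hF : ContinuousOn F H0) {b : ℝ} (hb : 0 < b) :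
    Continuous fun z => F (up b z) := by
  apply hF.comp_continuous (up_cont b)
  intro z
  change 0 < max z.im b
  exact lt_max_of_lt_right hb

/-- the scaled bump -/
private def Er (η : ℂ → ℝ) (r : ℝ) (u : ℂ) : ℝ := (r ^ 2)⁻¹ * η ((r : ℂ)⁻¹ * u)

private lemma Er_zero {η : ℂ → ℝ} (hη : Bump η) {r : ℝ} (hr : 0 < r) {u : ℂ} (hu : r < ‖u‖) :
    Er η r u = 0 := by
  unfold Er
  rw [bump_zero hη, mul_zero]
  rw [norm_mul, norm_inv, Complex.norm_real, Real.norm_eq_abs, abs_of_pos hr,
    inv_mul_eq_div, lt_div_iff₀ hr]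
  linarith

private lemma Er_nonneg {η : ℂ → ℝ} (hη : Bump η) (r : ℝ) (u : ℂ) : 0 ≤ Er η r u :=
  mul_nonneg (by positivity) (hη.nonneg _)

private lemma Er_cont {η : ℂ → ℝ} (hη : Bump η) (r : ℝ) : Continuous (Er η r) := by
  have h3 : Continuous η := hη.smooth.continuous
  exact continuous_const.mul (h3.comp (continuous_const.mul continuous_id))

private lemma Er_supp {η : ℂ → ℝ} (hη : Bump η) {r : ℝ} (hr : 0 < r) {u : ℂ}
    (hu : u ∉ Metric.closedBall (0 : ℂ) r) : Er η r u = 0 := by
  apply Er_zero hη hr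
  rw [mem_closedBall_zero_iff, not_le] at hu
  exact hu

private lemma Er_cpt {η : ℂ → ℝ} (hη : Bump η) {r : ℝ} (hr : 0 < r) :
    HasCompactSupport (Er η r) :=
  HasCompactSupport.intro (isCompact_closedBall (0 : ℂ) r) fun _ hu => Er_supp hη hr hu

private lemma Er_int {η : ℂ → ℝ} (hη : Bump η) {r : ℝ} (hr : 0 < r) : ∫ u, Er η r u = 1 := by
  unfold Er
  rw [integral_const_mul]
  have h := MeasureTheory.Measure.integral_comp_inv_smul (volume : Measure ℂ) η r
  rw [Complex.finrank_real_complex, abs_of_pos (by positivity), hη.one, smul_eq_mul, mul_one] at h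
  have h2 : ∫ a, η ((r : ℂ)⁻¹ * a) = ∫ x, η (r⁻¹ • x) := by
    congr 1
    funext x
    rw [Complex.real_smul, Complex.ofReal_inv]
  rw [h2, h]
  exact inv_mul_cancel₀ (by positivity)

private lemma Sm_eq {η : ℂ → ℝ} (hη : Bump η) {F : ℂ → ℝ} {b r : ℝ} (hr : 0 < r) (hrb : r ≤ b)
    {z0 : ℂ} (hz : 2 * b ≤ z0.im) :
    Sm' η r F z0 = ∫ u, Er η r u * F (up b (z0 + u)) := by
  unfold Sm'
  rw [← integral_add_left_eq_self (μ := (volume : Measure ℂ)) (fun z => es η r z0 z * F z) z0]
  congr 1
  funext u
  have h0 : es η r z0 (z0 + u) = Er η r u := by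
    unfold es Er
    rw [add_sub_cancel_left]
  rw [h0]
  by_cases hu : u ∈ Metric.closedBall (0 : ℂ) r
  · rw [mem_closedBall_zero_iff] at hu
    have h1 : |u.im| ≤ r := (Complex.abs_im_le_norm u).trans hu
    rw [abs_le] at h1
    rw [up_eq]
    rw [Complex.add_im]
    linarith [h1.1]
  · rw [Er_supp hη hr hu]
    simp

private lemma Sm_cont {η : ℂ → ℝ} (hη : Bump η) {F : ℂ → ℝ} (hF : ContinuousOn F H0) {b r : ℝ}
    (hr : 0 < r) (hrb : r ≤ b) : ContinuousOn (Sm' η r F) {z : ℂ | 2 * b ≤ z.im} := by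
  have hb : 0 < b := hr.trans_le hrb
  have h1 : Continuous fun z => F (up b z) := Fup_cont hF hb
  have h2 : Continuous fun z0 : ℂ => ∫ u in Metric.closedBall (0 : ℂ) r,
      Er η r u * F (up b (z0 + u)) := by
    apply continuous_parametric_integral_of_continuous
    · have h4 : Continuous fun p : ℂ × ℂ => F (up b (p.1 + p.2)) :=
        h1.comp (continuous_fst.add continuous_snd)
      exact ((Er_cont hη r).comp continuous_snd).mul h4
    · exact isCompact_closedBall _ _
  apply h2.continuousOn.congr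
  intro z hz
  rw [Sm_eq hη hr hrb hz]
  symm
  apply setIntegral_eq_integral_of_forall_compl_eq_zero
  intro u hu
  rw [Er_supp hη hr hu, zero_mul]

/-- the mean value of the smooth mean -/
private lemma mean_close {η : ℂ → ℝ} (hη : Bump η) {F : ℂ → ℝ} (hF : ContinuousOn F H0)
    (hF0 : ∀ z, 0 ≤ F z) {b r : ℝ} (hr : 0 < r) (hrb : r ≤ b) {φ0 : ℂ → ℝ} (hφ : TestR H0 φ0)
    {L : NNReal} (hL : LipschitzWith L φ0) (hK : ∀ z ∈ tsupport φ0, 3 * b ≤ z.im) {B : ℝ}
    (hB : ∫ z in Metric.cthickening b (tsupport φ0), F z ≤ B) :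
    |(∫ z, φ0 z * Sm' η r F z) - ∫ z, φ0 z * F z| ≤ L * r * B := by
  have hb : 0 < b := hr.trans_le hrb
  have hG : Continuous fun z => F (up b z) := Fup_cont hF hb
  set G : ℂ → ℝ := fun z => F (up b z) with hGdef
  have hφc : Continuous φ0 := hφ.smooth.continuous
  have hE := Er_cont hη r
  have hKc : IsCompact (Metric.cthickening b (tsupport φ0)) := hφ.cpt.isCompact.cthickening
  have hKim : ∀ z ∈ Metric.cthickening b (tsupport φ0), b ≤ z.im := by
    intro z hz
    rw [hφ.cpt.isCompact.cthickening_eq_biUnion_closedBall hb.le] at hz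
    simp only [mem_iUnion] at hz
    obtain ⟨w, hw, hzw⟩ := hz
    rw [mem_closedBall_iff_norm] at hzw
    have h1 : |(z - w).im| ≤ b := (Complex.abs_im_le_norm _).trans hzw
    rw [abs_le, Complex.sub_im] at h1
    linarith [h1.1, hK w hw]
  have hGF : ∀ z ∈ Metric.cthickening b (tsupport φ0), G z = F z := by
    intro z hz
    simp only [hGdef]
    rw [up_eq (hKim z hz)]
  have hsubK : tsupport φ0 ⊆ Metric.cthickening b (tsupport φ0) :=
    Metric.self_subset_cthickening _
  -- rewrite with `G`
  have e1 : ∫ z, φ0 z * F z = ∫ z, φ0 z * G z := by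
    congr 1
    funext z
    by_cases hz : z ∈ tsupport φ0
    · rw [hGF z (hsubK hz)]
    · rw [image_eq_zero_of_notMem_tsupport hz]
      simp
  have hEint : Integrable (Er η r) := hE.integrable_of_hasCompactSupport (Er_cpt hη hr)
  have e2 : ∫ z, φ0 z * Sm' η r F z = ∫ z, φ0 z * ∫ u, Er η r u * G (z + u) := by
    congr 1
    funext z
    by_cases hz : z ∈ tsupport φ0
    · rw [Sm_eq hη hr hrb (by linarith [hK z hz])]
    · rw [image_eq_zero_of_notMem_tsupport hz]
      simp
  have hφint : Integrable (fun z => φ0 z * G z) :=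
    (hφc.mul hG).integrable_of_hasCompactSupport hφ.cpt.mul_right
  have hEG : ∀ z, Integrable (fun u => Er η r u * G (z + u)) := by
    intro z
    apply Continuous.integrable_of_hasCompactSupport
    · exact hE.mul (hG.comp (continuous_const.add continuous_id))
    · exact (Er_cpt hη hr).mul_right
  have hinner : ∀ z, (∫ u, Er η r u * G (z + u)) - G z =
      ∫ u, Er η r u * (G (z + u) - G z) := by
    intro z
    have h1 : ∫ u, Er η r u * G z = G z := by
      rw [integral_mul_const, Er_int hη hr, one_mul]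
    calc (∫ u, Er η r u * G (z + u)) - G z
        = (∫ u, Er η r u * G (z + u)) - ∫ u, Er η r u * G z := by rw [h1]
      _ = ∫ u, (Er η r u * G (z + u) - Er η r u * G z) :=
        (integral_sub (hEG z) (hEint.mul_const _)).symm
      _ = _ := by
        congr 1
        funext u
        ring
  have hScont : Continuous fun z => ∫ u, Er η r u * G (z + u) := by
    have h2 : Continuous fun z0 : ℂ => ∫ u in Metric.closedBall (0 : ℂ) r,
        Er η r u * G (z0 + u) := by
      apply continuous_parametric_integral_of_continuous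
      · exact (hE.comp continuous_snd).mul (hG.comp (continuous_fst.add continuous_snd))
      · exact isCompact_closedBall _ _
    have h3 : (fun z => ∫ u, Er η r u * G (z + u)) = fun z0 : ℂ =>
        ∫ u in Metric.closedBall (0 : ℂ) r, Er η r u * G (z0 + u) := by
      funext z
      symm
      apply setIntegral_eq_integral_of_forall_compl_eq_zero
      intro u hu
      rw [Er_supp hη hr hu, zero_mul]
    rw [h3]
    exact h2
  have hφSint : Integrable (fun z => φ0 z * ∫ u, Er η r u * G (z + u)) :=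
    (hφc.mul hScont).integrable_of_hasCompactSupport hφ.cpt.mul_right
  have e3 : (∫ z, φ0 z * Sm' η r F z) - ∫ z, φ0 z * F z =
      ∫ z, ∫ u, φ0 z * (Er η r u * (G (z + u) - G z)) := by
    rw [e1, e2, ← integral_sub hφSint hφint]
    congr 1
    funext z
    rw [← mul_sub, hinner z, integral_const_mul]
  have e4 : ∫ z, ∫ u, φ0 z * (Er η r u * (G (z + u) - G z)) =
      ∫ u, ∫ z, φ0 z * (Er η r u * (G (z + u) - G z)) := by
    apply integral_integral_swap_of_hasCompactSupport
    · have h4 : Continuous fun p : ℂ × ℂ => G (p.1 + p.2) :=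
        hG.comp (continuous_fst.add continuous_snd)
      have h5 : Continuous fun p : ℂ × ℂ => G p.1 := hG.comp continuous_fst
      exact (hφc.comp continuous_fst).mul ((hE.comp continuous_snd).mul (h4.sub h5))
    · apply HasCompactSupport.intro (hφ.cpt.isCompact.prod (isCompact_closedBall (0 : ℂ) r))
      rintro ⟨z, u⟩ hp
      rw [mem_prod, not_and_or] at hp
      change φ0 z * (Er η r u * (G (z + u) - G z)) = 0
      rcases hp with hp | hp
      · rw [image_eq_zero_of_notMem_tsupport hp, zero_mul]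
      · rw [Er_supp hη hr hp]
        ring
  have hdiff : ∀ u ∈ Metric.closedBall (0 : ℂ) r, |∫ z, φ0 z * (G (z + u) - G z)| ≤
      L * r * B := by
    intro u hu
    rw [mem_closedBall_zero_iff] at hu
    have i1 : Integrable fun z => φ0 z * G (z + u) :=
      (hφc.mul (hG.comp (continuous_id.add continuous_const))).integrable_of_hasCompactSupport
        hφ.cpt.mul_right
    have i2 : Integrable fun z => φ0 (z - u) * G z := by
      have := i1.comp_sub_right u
      simpa using this
    have h1 : ∫ z, φ0 z * (G (z + u) - G z) = ∫ z, (φ0 (z - u) - φ0 z) * G z := by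
      calc ∫ z, φ0 z * (G (z + u) - G z) = ∫ z, (φ0 z * G (z + u) - φ0 z * G z) := by
            congr 1
            funext z
            ring
        _ = (∫ z, φ0 z * G (z + u)) - ∫ z, φ0 z * G z := integral_sub i1 hφint
        _ = (∫ z, φ0 (z - u) * G z) - ∫ z, φ0 z * G z := by
            congr 1
            rw [← integral_sub_right_eq_self (fun z => φ0 z * G (z + u)) u]
            congr 1
            funext z
            rw [sub_add_cancel]
        _ = ∫ z, (φ0 (z - u) * G z - φ0 z * G z) := (integral_sub i2 hφint).symm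
        _ = _ := by
            congr 1
            funext z
            ring
    have h2 : ∫ z, (φ0 (z - u) - φ0 z) * G z =
        ∫ z in Metric.cthickening b (tsupport φ0), (φ0 (z - u) - φ0 z) * G z := by
      symm
      apply setIntegral_eq_integral_of_forall_compl_eq_zero
      intro z hz
      have h3 : z ∉ tsupport φ0 := fun h => hz (hsubK h)
      have h4 : z - u ∉ tsupport φ0 := by
        intro h
        apply hz
        apply Metric.mem_cthickening_of_dist_le z (z - u) _ _ h
        rw [dist_eq_norm]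
        rw [sub_sub_cancel]
        exact hu.trans hrb
      rw [image_eq_zero_of_notMem_tsupport h3, image_eq_zero_of_notMem_tsupport h4]
      ring
    have hGint : IntegrableOn G (Metric.cthickening b (tsupport φ0)) :=
      hG.continuousOn.integrableOn_compact hKc
    rw [h1, h2]
    calc |∫ z in Metric.cthickening b (tsupport φ0), (φ0 (z - u) - φ0 z) * G z|
        ≤ ∫ z in Metric.cthickening b (tsupport φ0), (L * r) * G z := by
          rw [← Real.norm_eq_abs]
          apply norm_integral_le_of_norm_le (hGint.const_mul _)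
          apply ae_of_all
          intro z
          rw [norm_mul, Real.norm_eq_abs (G z), abs_of_nonneg (hF0 _)]
          apply mul_le_mul_of_nonneg_right _ (hF0 _)
          have h5 := hL.dist_le_mul (z - u) z
          rw [dist_eq_norm, dist_eq_norm] at h5
          refine h5.trans ?_
          apply mul_le_mul_of_nonneg_left _ L.coe_nonneg
          rw [sub_sub_cancel_left, norm_neg]
          exact hu
      _ = (L * r) * ∫ z in Metric.cthickening b (tsupport φ0), F z := by
          rw [integral_const_mul]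
          congr 1
          exact setIntegral_congr_fun hKc.measurableSet hGF
      _ ≤ (L * r) * B := mul_le_mul_of_nonneg_left hB (by positivity)
  rw [e3, e4]
  have hB0 : 0 ≤ L * r * B := (abs_nonneg _).trans (hdiff 0 (by simp [hr.le]))
  calc |∫ u, ∫ z, φ0 z * (Er η r u * (G (z + u) - G z))|
      ≤ ∫ u, Er η r u * (L * r * B) := by
        rw [← Real.norm_eq_abs]
        apply norm_integral_le_of_norm_le (hEint.mul_const _)
        apply ae_of_all
        intro u
        have h1 : ∫ z, φ0 z * (Er η r u * (G (z + u) - G z)) =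
            Er η r u * ∫ z, φ0 z * (G (z + u) - G z) := by
          rw [← integral_const_mul]
          congr 1
          funext z
          ring
        rw [h1, norm_mul, Real.norm_eq_abs, abs_of_nonneg (Er_nonneg hη r u), Real.norm_eq_abs]
        by_cases hu : u ∈ Metric.closedBall (0 : ℂ) r
        · exact mul_le_mul_of_nonneg_left (hdiff u hu) (Er_nonneg hη r u)
        · rw [Er_supp hη hr hu]
          simp
    _ = L * r * B := by
        rw [integral_mul_const, Er_int hη hr, one_mul]

/-- the mean square deviation from the mean value -/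
private lemma dev {S : ℂ → ℝ} {K : Set ℂ} (hK : IsCompact K) (hS : ContinuousOn S K)
    {φ φ0 : ℂ → ℝ} (hφ : Continuous φ) (hφ0 : Continuous φ0) (h1 : tsupport φ ⊆ K)
    (h2 : tsupport φ0 ⊆ K) (p : ∀ z, 0 ≤ φ z) (p0 : ∀ z, 0 ≤ φ0 z) (hint : ∫ z, φ0 z = 1)
    {A A0 : ℝ} (hA : ∀ z, φ z ≤ A) (hA0 : ∀ z, φ0 z ≤ A0) :
    ∫ z, φ z * (S z - ∫ w, φ0 w * S w) ^ 2 ≤
      A * A0 * ∫ z in K, ∫ z' in K, (S z - S z') ^ 2 := by
  have hA00 : 0 ≤ A0 := (p0 0).trans (hA0 0)
  have hAp : 0 ≤ A := (p 0).trans (hA 0)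
  set s : ℝ := ∫ w, φ0 w * S w with hs
  have out : ∀ {ψ : ℂ → ℝ}, tsupport ψ ⊆ K → ∀ g : ℂ → ℝ, ∫ z, ψ z * g z =
      ∫ z in K, ψ z * g z := by
    intro ψ hψ g
    symm
    apply setIntegral_eq_integral_of_forall_compl_eq_zero
    intro z hz
    rw [image_eq_zero_of_notMem_tsupport (fun h => hz (hψ h)), zero_mul]
  have hI : ∀ {g : ℂ → ℝ}, ContinuousOn g K → IntegrableOn g K := fun h =>
    h.integrableOn_compact hK
  have c0 : ContinuousOn φ0 K := hφ0.continuousOn
  have cφ : ContinuousOn φ K := hφ.continuousOn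
  have hone : ∫ z in K, φ0 z = 1 := by
    have := out h2 (fun _ => 1)
    simp only [mul_one] at this
    rw [← this, hint]
  have hsK : ∫ z in K, φ0 z * S z = s := (out h2 S).symm
  -- the second moment
  have hexp : ∀ a : ℝ, ∫ z in K, φ0 z * (a - S z) ^ 2 =
      a ^ 2 - 2 * a * s + ∫ z in K, φ0 z * S z ^ 2 := by
    intro a
    have i1 : IntegrableOn (fun z => a ^ 2 * φ0 z) K := hI (continuousOn_const.mul c0)
    have i2 : IntegrableOn (fun z => 2 * a * (φ0 z * S z)) K :=
      hI (continuousOn_const.mul (c0.mul hS))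
    have i3 : IntegrableOn (fun z => φ0 z * S z ^ 2) K := hI (c0.mul (hS.pow 2))
    have i4 : IntegrableOn (fun z => a ^ 2 * φ0 z - 2 * a * (φ0 z * S z)) K := i1.sub i2
    calc ∫ z in K, φ0 z * (a - S z) ^ 2
        = ∫ z in K, ((a ^ 2 * φ0 z - 2 * a * (φ0 z * S z)) + φ0 z * S z ^ 2) := by
          congr 1
          funext z
          ring
      _ = (∫ z in K, (a ^ 2 * φ0 z - 2 * a * (φ0 z * S z))) + ∫ z in K, φ0 z * S z ^ 2 :=
          integral_add i4 i3
      _ = ((∫ z in K, a ^ 2 * φ0 z) - ∫ z in K, 2 * a * (φ0 z * S z)) +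
          ∫ z in K, φ0 z * S z ^ 2 := by
          rw [integral_sub i1 i2]
      _ = a ^ 2 - 2 * a * s + ∫ z in K, φ0 z * S z ^ 2 := by
          rw [integral_const_mul, integral_const_mul, hone, hsK]
          ring
  have hsq : s ^ 2 ≤ ∫ z in K, φ0 z * S z ^ 2 := by
    have h3 : 0 ≤ ∫ z in K, φ0 z * (s - S z) ^ 2 :=
      integral_nonneg fun z => mul_nonneg (p0 z) (sq_nonneg _)
    rw [hexp s] at h3
    nlinarith
  have hinner : ∀ z ∈ K, (S z - s) ^ 2 ≤ A0 * ∫ z' in K, (S z - S z') ^ 2 := by
    intro z _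
    calc (S z - s) ^ 2 ≤ ∫ z' in K, φ0 z' * (S z - S z') ^ 2 := by
          rw [hexp (S z)]
          nlinarith
      _ ≤ ∫ z' in K, A0 * (S z - S z') ^ 2 := by
          apply integral_mono
          · exact hI (c0.mul ((continuousOn_const.sub hS).pow 2))
          · exact hI (continuousOn_const.mul ((continuousOn_const.sub hS).pow 2))
          · intro z'
            exact mul_le_mul_of_nonneg_right (hA0 z') (sq_nonneg _)
      _ = A0 * ∫ z' in K, (S z - S z') ^ 2 := integral_const_mul _ _
  have hdc : ContinuousOn (fun z => ∫ z' in K, (S z - S z') ^ 2) K := by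
    have key : ∀ z, ∫ z' in K, (S z - S z') ^ 2 =
        S z ^ 2 * volume.real K - 2 * S z * (∫ z' in K, S z') + ∫ z' in K, S z' ^ 2 := by
      intro z
      have i1 : IntegrableOn (fun _ : ℂ => S z ^ 2) K := hI continuousOn_const
      have i2 : IntegrableOn (fun z' => 2 * S z * S z') K := hI (continuousOn_const.mul hS)
      have i3 : IntegrableOn (fun z' => S z' ^ 2) K := hI (hS.pow 2)
      have i4 : IntegrableOn (fun z' => S z ^ 2 - 2 * S z * S z') K := i1.sub i2
      calc ∫ z' in K, (S z - S z') ^ 2 = ∫ z' in K, ((S z ^ 2 - 2 * S z * S z') + S z' ^ 2) := by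
            congr 1
            funext z'
            ring
        _ = (∫ z' in K, (S z ^ 2 - 2 * S z * S z')) + ∫ z' in K, S z' ^ 2 := integral_add i4 i3
        _ = ((∫ _z' in K, S z ^ 2) - ∫ z' in K, 2 * S z * S z') + ∫ z' in K, S z' ^ 2 := by
            rw [integral_sub i1 i2]
        _ = _ := by
            rw [integral_const_mul, setIntegral_const, smul_eq_mul]
            ring
    simp only [key]
    exact (((hS.pow 2).mul continuousOn_const).sub
      ((continuousOn_const.mul hS).mul continuousOn_const)).add continuousOn_const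
  calc ∫ z, φ z * (S z - s) ^ 2 = ∫ z in K, φ z * (S z - s) ^ 2 := out h1 _
    _ ≤ ∫ z in K, A * A0 * ∫ z' in K, (S z - S z') ^ 2 := by
        apply setIntegral_mono_on _ _ hK.measurableSet
        · intro z hz
          have h4 := hinner z hz
          calc φ z * (S z - s) ^ 2 ≤ A * (A0 * ∫ z' in K, (S z - S z') ^ 2) :=
                mul_le_mul (hA z) h4 (sq_nonneg _) hAp
            _ = A * A0 * ∫ z' in K, (S z - S z') ^ 2 := by ring
        · exact hI (cφ.mul ((hS.sub continuousOn_const).pow 2))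
        · exact hI (continuousOn_const.mul hdc)
    _ = A * A0 * ∫ z in K, ∫ z' in K, (S z - S z') ^ 2 := integral_const_mul _ _

private lemma bdd {φ : ℂ → ℝ} (hφ : TestR H0 φ) : ∃ A : ℝ, ∀ z, φ z ≤ A := by
  obtain ⟨A, hA⟩ := hφ.cpt.exists_bound_of_continuous hφ.smooth.continuous
  refine ⟨A, fun z => ?_⟩
  have := hA z
  rw [Real.norm_eq_abs] at this
  exact (le_abs_self _).trans this

end Fa1M

open Fa1M in
/-- **Fa1** the mean value -/
theorem stmtFa1 : StmtFa1 := by
  intro η hη F T hF hF0 hT hB hX φ0 c hφ0 p0 hint hlim φ hφ p ε hε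
  obtain ⟨A, hA⟩ := bdd hφ
  obtain ⟨A0, hA0⟩ := bdd hφ0
  have hAp : 0 ≤ A := (p 0).trans (hA 0)
  have hA0p : 0 ≤ A0 := (p0 0).trans (hA0 0)
  set K : Set ℂ := tsupport φ ∪ tsupport φ0 with hKdef
  have hK : IsCompact K := hφ.cpt.isCompact.union hφ0.cpt.isCompact
  have hKH : K ⊆ H0 := union_subset hφ.sub hφ0.sub
  obtain ⟨b, hb, hKb⟩ : ∃ b : ℝ, 0 < b ∧ ∀ z ∈ K, 3 * b ≤ z.im := by
    rcases K.eq_empty_or_nonempty with h | h
    · exact ⟨1, one_pos, by simp [h]⟩
    · obtain ⟨z0, hz0, hmin⟩ := hK.exists_isMinOn h Complex.continuous_im.continuousOn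
      have h1 : 0 < z0.im := hKH hz0
      refine ⟨z0.im / 3, by positivity, fun z hz => ?_⟩
      have h2 : z0.im ≤ z.im := hmin hz
      linarith
  obtain ⟨L, hL⟩ := ContDiff.lipschitzWith_of_hasCompactSupport hφ0.cpt hφ0.smooth
    (by simp)
  have hK'c : IsCompact (Metric.cthickening b (tsupport φ0)) := hφ0.cpt.isCompact.cthickening
  have hK'H : Metric.cthickening b (tsupport φ0) ⊆ H0 := by
    intro z hz
    rw [hφ0.cpt.isCompact.cthickening_eq_biUnion_closedBall hb.le] at hz
    simp only [mem_iUnion] at hz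
    obtain ⟨w, hw, hzw⟩ := hz
    rw [mem_closedBall_iff_norm] at hzw
    have h1 : |(z - w).im| ≤ b := (Complex.abs_im_le_norm _).trans hzw
    rw [abs_le, Complex.sub_im] at h1
    have h2 := hKb w (Or.inr hw)
    change 0 < z.im
    linarith [h1.1]
  obtain ⟨B, hB⟩ := hB _ hK'c hK'H
  set ε' : ℝ := ε / (4 * (A * A0 + 1)) with hε'
  have hε'0 : 0 < ε' := by positivity
  obtain ⟨R, hR, hev⟩ := hX K hK hKH ε' hε'0
  refine ⟨R, hR, ?_⟩
  have hr0 : Tendsto (fun i => R / T i) atTop (𝓝 0) := by
    have := hT.inv_tendsto_atTop.const_mul R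
    rw [mul_zero] at this
    exact this
  have hTpos : ∀ᶠ i in atTop, 0 < T i := hT.eventually_gt_atTop 0
  have hrb : ∀ᶠ i in atTop, R / T i ≤ b := (hr0.eventually_lt_const hb).mono fun _ h => h.le
  -- the mean values converge
  have hs : Tendsto (fun i => ∫ z, φ0 z * Sm' η (R / T i) (F i) z) atTop (𝓝 c) := by
    have h1 : Tendsto (fun i => (∫ z, φ0 z * Sm' η (R / T i) (F i) z) - ∫ z, φ0 z * F i z)
        atTop (𝓝 0) := by
      have h2 : Tendsto (fun i => (L : ℝ) * (R / T i) * B) atTop (𝓝 0) := by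
        have := (hr0.const_mul (L : ℝ)).mul_const B
        simpa using this
      apply squeeze_zero_norm' _ h2
      filter_upwards [hTpos, hrb] with i h3 h4
      rw [Real.norm_eq_abs]
      exact mean_close hη (hF i) (hF0 i) (by positivity) h4 hφ0 hL
        (fun z hz => hKb z (Or.inr hz)) (hB i)
    have h5 := h1.add hlim
    simpa using h5
  have hsc : ∀ᶠ i in atTop, 2 * ((∫ z, φ0 z * Sm' η (R / T i) (F i) z) - c) ^ 2 *
      (∫ z, φ z) ≤ ε / 2 := by
    have h1 : Tendsto (fun i => 2 * ((∫ z, φ0 z * Sm' η (R / T i) (F i) z) - c) ^ 2 *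
        (∫ z, φ z)) atTop (𝓝 0) := by
      have := (((hs.sub_const c).pow 2).const_mul 2).mul_const (∫ z, φ z)
      simpa using this
    exact (h1.eventually_lt_const (by positivity)).mono fun _ h => h.le
  filter_upwards [hev, hTpos, hrb, hsc] with i h1 h2 h3 h4
  have hr : 0 < R / T i := by positivity
  have hS : ContinuousOn (Sm' η (R / T i) (F i)) K :=
    (Sm_cont hη (hF i) hr h3).mono fun z hz => by
      have := hKb z hz
      change 2 * b ≤ z.im
      linarith
  have hd := dev hK hS hφ.smooth.continuous hφ0.smooth.continuous subset_union_left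
    subset_union_right p p0 hint hA hA0
  set S : ℂ → ℝ := Sm' η (R / T i) (F i) with hSdef
  set s : ℝ := ∫ w, φ0 w * S w with hsdef
  have hout : ∀ g : ℂ → ℝ, ∫ z, φ z * g z = ∫ z in K, φ z * g z := by
    intro g
    symm
    apply setIntegral_eq_integral_of_forall_compl_eq_zero
    intro z hz
    rw [image_eq_zero_of_notMem_tsupport (fun h => hz (Or.inl h)), zero_mul]
  have cφ : ContinuousOn φ K := hφ.smooth.continuous.continuousOn
  have i1 : IntegrableOn (fun z => φ z * (S z - c) ^ 2) K :=
    (cφ.mul ((hS.sub continuousOn_const).pow 2)).integrableOn_compact hK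
  have i2 : IntegrableOn (fun z => 2 * (φ z * (S z - s) ^ 2)) K :=
    (continuousOn_const.mul (cφ.mul ((hS.sub continuousOn_const).pow 2))).integrableOn_compact hK
  have i3 : IntegrableOn (fun z => 2 * (s - c) ^ 2 * (φ z * 1)) K :=
    (continuousOn_const.mul (cφ.mul continuousOn_const)).integrableOn_compact hK
  calc ∫ z, φ z * (S z - c) ^ 2 = ∫ z in K, φ z * (S z - c) ^ 2 := hout _
    _ ≤ ∫ z in K, (2 * (φ z * (S z - s) ^ 2) + 2 * (s - c) ^ 2 * (φ z * 1)) := by
        apply integral_mono i1 (i2.add i3)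
        intro z
        have h5 : (S z - c) ^ 2 ≤ 2 * (S z - s) ^ 2 + 2 * (s - c) ^ 2 := by
          nlinarith [sq_nonneg ((S z - s) - (s - c))]
        have h6 := mul_le_mul_of_nonneg_left h5 (p z)
        change φ z * (S z - c) ^ 2 ≤ 2 * (φ z * (S z - s) ^ 2) + 2 * (s - c) ^ 2 * (φ z * 1)
        linarith
    _ = 2 * (∫ z in K, φ z * (S z - s) ^ 2) + 2 * (s - c) ^ 2 * ∫ z in K, φ z * 1 := by
        rw [integral_add i2 i3, integral_const_mul, integral_const_mul]
    _ = 2 * (∫ z, φ z * (S z - s) ^ 2) + 2 * (s - c) ^ 2 * ∫ z, φ z := by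
        rw [← hout (fun z => (S z - s) ^ 2), ← hout (fun _ => 1)]
        simp only [mul_one]
    _ ≤ 2 * (A * A0 * ε') + ε / 2 := by
        have h7 : A * A0 * ∫ z in K, ∫ z' in K, (S z - S z') ^ 2 ≤ A * A0 * ε' :=
          mul_le_mul_of_nonneg_left h1 (by positivity)
        linarith
    _ ≤ ε := by
        have h8 : A * A0 * ε' ≤ ε / 4 := by
          rw [hε', mul_div_assoc', div_le_div_iff₀ (by positivity) (by norm_num)]
          nlinarith
        linarith

end

end Pool.Agent.A54.Av
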