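import Pool.Agent.Lib.MP_a54f13_nt.Av.SpecB

set_option autoImplicit false

namespace Pool.Agent.A54.Av.FarM

open MeasureTheory Filter Topology Set
open scoped ContDiff ComplexConjugate UpperHalfPlane MatrixGroups ENNReal
open Pool.Agent.A54.Half (H0 qq ff hh)

noncomputable section

/-- the quadratic polynomial -/
def NN (γ : Mat) (z : ℂ) : ℂ :=
  ((γ 1 0 : ℤ) : ℂ) * z ^ 2 - (((γ 0 0 : ℤ) : ℂ) - ((γ 1 1 : ℤ) : ℂ)) * z - ((γ 0 1 : ℤ) : ℂ)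

/-- `√V` -/
def SS (γ : Mat) (z : ℂ) : ℝ := ‖NN γ z‖ / (2 * z.im)

/-- `√msq` -/
def GG (γ : Mat) : ℝ := √(msq γ)

lemma msq_nonneg (γ : Mat) : 0 ≤ msq γ := by
  unfold msq; positivity

lemma GG_sq (γ : Mat) : GG γ ^ 2 = msq γ := Real.sq_sqrt (msq_nonneg γ)

lemma GG_nonneg (γ : Mat) : 0 ≤ GG γ := Real.sqrt_nonneg _

lemma le_GG (γ : Mat) (x : ℝ) (h : x ^ 2 ≤ msq γ) : |x| ≤ GG γ :=
  Real.abs_le_sqrt h

lemma ent (γ : Mat) (i j : Fin 2) : ((γ i j : ℤ) : ℝ) ^ 2 ≤ msq γ := by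
  have h1 := sq_nonneg ((γ 0 0 : ℤ) : ℝ)
  have h2 := sq_nonneg ((γ 0 1 : ℤ) : ℝ)
  have h3 := sq_nonneg ((γ 1 0 : ℤ) : ℝ)
  have h4 := sq_nonneg ((γ 1 1 : ℤ) : ℝ)
  unfold msq
  fin_cases i <;> fin_cases j <;> simp only [Fin.zero_eta, Fin.mk_one, Fin.isValue] <;> linarith

lemma bij (γ : Mat) (i j : Fin 2) : ‖((γ i j : ℤ) : ℂ)‖ ≤ GG γ := by
  rw [Complex.norm_intCast]
  exact le_GG γ _ (ent γ i j)

lemma b00 (γ : Mat) : ‖((γ 0 0 : ℤ) : ℂ)‖ ≤ GG γ := bij γ 0 0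

lemma b01 (γ : Mat) : ‖((γ 0 1 : ℤ) : ℂ)‖ ≤ GG γ := bij γ 0 1

lemma b10 (γ : Mat) : ‖((γ 1 0 : ℤ) : ℂ)‖ ≤ GG γ := bij γ 1 0

lemma b11 (γ : Mat) : ‖((γ 1 1 : ℤ) : ℂ)‖ ≤ GG γ := bij γ 1 1

lemma bd (γ : Mat) : ‖((γ 0 0 : ℤ) : ℂ) - ((γ 1 1 : ℤ) : ℂ)‖ ≤ 2 * GG γ := by
  have := norm_sub_le ((γ 0 0 : ℤ) : ℂ) ((γ 1 1 : ℤ) : ℂ)
  linarith [b00 γ, b11 γ]

/-- the Lipschitz bound -/
lemma lip (m M : ℝ) (hm : 0 < m) (hM : 0 ≤ M) (γ : Mat) (z w : ℂ) (hz : ‖z‖ ≤ M) (hw : ‖w‖ ≤ M)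
    (hzi : m ≤ z.im) (hwi : m ≤ w.im) :
    SS γ z ≤ SS γ w + GG γ * ((M + 1) / m + (M + 1) ^ 2 / (2 * m ^ 2)) * ‖z - w‖ := by
  have hG := GG_nonneg γ
  have hzi0 : 0 < z.im := by linarith
  have hwi0 : 0 < w.im := by linarith
  have h1 : ‖NN γ z - NN γ w‖ ≤ GG γ * (2 * (M + 1)) * ‖z - w‖ := by
    have : NN γ z - NN γ w = (((γ 1 0 : ℤ) : ℂ) * (z + w) -
        (((γ 0 0 : ℤ) : ℂ) - ((γ 1 1 : ℤ) : ℂ))) * (z - w) := by
      unfold NN; ring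
    rw [this, norm_mul]
    refine mul_le_mul_of_nonneg_right ?_ (norm_nonneg _)
    calc ‖((γ 1 0 : ℤ) : ℂ) * (z + w) - (((γ 0 0 : ℤ) : ℂ) - ((γ 1 1 : ℤ) : ℂ))‖
        ≤ ‖((γ 1 0 : ℤ) : ℂ) * (z + w)‖ + ‖((γ 0 0 : ℤ) : ℂ) - ((γ 1 1 : ℤ) : ℂ)‖ :=
          norm_sub_le _ _
      _ ≤ GG γ * (M + M) + 2 * GG γ := by
          refine add_le_add ?_ (bd γ)
          rw [norm_mul]
          have h3 : ‖z + w‖ ≤ M + M := (norm_add_le _ _).trans (add_le_add hz hw)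
          exact mul_le_mul (b10 γ) h3 (norm_nonneg _) hG
      _ = GG γ * (2 * (M + 1)) := by ring
  have h2 : ‖NN γ w‖ ≤ GG γ * (M + 1) ^ 2 := by
    unfold NN
    calc ‖((γ 1 0 : ℤ) : ℂ) * w ^ 2 - (((γ 0 0 : ℤ) : ℂ) - ((γ 1 1 : ℤ) : ℂ)) * w -
          ((γ 0 1 : ℤ) : ℂ)‖
        ≤ ‖((γ 1 0 : ℤ) : ℂ) * w ^ 2‖ + ‖(((γ 0 0 : ℤ) : ℂ) - ((γ 1 1 : ℤ) : ℂ)) * w‖ +
          ‖((γ 0 1 : ℤ) : ℂ)‖ := (norm_sub_le _ _).trans (by
            gcongr; exact norm_sub_le _ _)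
      _ ≤ GG γ * M ^ 2 + 2 * GG γ * M + GG γ := by
          rw [norm_mul, norm_mul, norm_pow]
          refine add_le_add (add_le_add ?_ ?_) (b01 γ)
          · exact mul_le_mul (b10 γ) (pow_le_pow_left₀ (norm_nonneg _) hw 2) (by positivity) hG
          · exact mul_le_mul (bd γ) hw (norm_nonneg _) (by positivity)
      _ = GG γ * (M + 1) ^ 2 := by ring
  have h3 : |z.im - w.im| ≤ ‖z - w‖ := by
    have := Complex.abs_im_le_norm (z - w)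
    simpa using this
  have h4 : 1 / (2 * z.im) ≤ 1 / (2 * w.im) + ‖z - w‖ / (2 * m ^ 2) := by
    have e : 1 / (2 * z.im) - 1 / (2 * w.im) = (w.im - z.im) / (2 * (z.im * w.im)) := by
      field_simp
    have h5 : w.im - z.im ≤ ‖z - w‖ := by
      have := (abs_le.1 h3).1
      linarith
    have h6 : (w.im - z.im) / (2 * (z.im * w.im)) ≤ ‖z - w‖ / (2 * m ^ 2) := by
      calc (w.im - z.im) / (2 * (z.im * w.im)) ≤ ‖z - w‖ / (2 * (z.im * w.im)) := by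
            gcongr
        _ ≤ ‖z - w‖ / (2 * m ^ 2) := by
            refine div_le_div_of_nonneg_left (norm_nonneg _) (by positivity) ?_
            nlinarith [mul_le_mul hzi hwi hm.le hzi0.le]
    linarith
  have h7 : ‖NN γ z‖ ≤ ‖NN γ w‖ + GG γ * (2 * (M + 1)) * ‖z - w‖ := by
    have := norm_sub_norm_le (NN γ z) (NN γ w)
    linarith
  unfold SS
  calc ‖NN γ z‖ / (2 * z.im) ≤ (‖NN γ w‖ + GG γ * (2 * (M + 1)) * ‖z - w‖) / (2 * z.im) := by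
        gcongr
    _ = ‖NN γ w‖ * (1 / (2 * z.im)) + GG γ * (2 * (M + 1)) * ‖z - w‖ / (2 * z.im) := by ring
    _ ≤ ‖NN γ w‖ * (1 / (2 * w.im) + ‖z - w‖ / (2 * m ^ 2)) +
        GG γ * (2 * (M + 1)) * ‖z - w‖ / (2 * m) := by
        gcongr
    _ = ‖NN γ w‖ / (2 * w.im) + ‖NN γ w‖ * (‖z - w‖ / (2 * m ^ 2)) +
        GG γ * (2 * (M + 1)) * ‖z - w‖ / (2 * m) := by ring
    _ ≤ ‖NN γ w‖ / (2 * w.im) + GG γ * (M + 1) ^ 2 * (‖z - w‖ / (2 * m ^ 2)) +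
        GG γ * (2 * (M + 1)) * ‖z - w‖ / (2 * m) := by
        gcongr
    _ = ‖NN γ w‖ / (2 * w.im) +
        GG γ * ((M + 1) / m + (M + 1) ^ 2 / (2 * m ^ 2)) * ‖z - w‖ := by
        field_simp
        ring

/-- bounds on a compact set -/
lemma cpt (K : Set ℂ) (hK : IsCompact K) (hKH : K ⊆ H0) :
    ∃ m M : ℝ, 0 < m ∧ 0 ≤ M ∧ ∀ z ∈ K, m ≤ z.im ∧ ‖z‖ ≤ M := by
  rcases K.eq_empty_or_nonempty with h | h
  · exact ⟨1, 0, one_pos, le_refl _, by simp [h]⟩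
  · obtain ⟨z1, hz1, h1⟩ := hK.exists_isMinOn h Complex.continuous_im.continuousOn
    obtain ⟨M, hM⟩ := hK.isBounded.exists_norm_le
    refine ⟨z1.im, M, hKH hz1, ?_, fun z hz => ⟨h1 hz, hM z hz⟩⟩
    exact (norm_nonneg _).trans (hM z1 hz1)

end

end Pool.Agent.A54.Av.FarM

namespace Pool.Agent.A54.Av

open MeasureTheory Filter Topology Set
open scoped ContDiff ComplexConjugate UpperHalfPlane MatrixGroups ENNReal
open Pool.Agent.A54.Half (H0 qq ff hh)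
open FarM

theorem stmtFar (hQF : StmtQF) : StmtFar := by
  intro K hK hKH ε hε
  obtain ⟨m0, M0, hm0, hM0, hb⟩ := cpt K hK hKH
  -- bounds on the discs
  set m : ℝ := m0 / 2 with hm
  set M : ℝ := M0 + 1 with hM
  have hmp : 0 < m := by positivity
  have hMp : 0 ≤ M := by positivity
  set D : ℝ := (M ^ 2 + 1) / m with hD
  have hDp : 0 < D := by positivity
  set C1 : ℝ := 2 * (16 / (ε ^ 2 * m ^ 2) + 2) * D ^ 2 with hC1
  have hC1p : 0 < C1 := by positivity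
  set L : ℝ := (M + 1) / m + (M + 1) ^ 2 / (2 * m ^ 2) with hL
  have hLp : 0 < L := by positivity
  have hsC : 0 < √C1 := Real.sqrt_pos.2 hC1p
  refine ⟨1 / (4 * C1), min (min 1 m) (1 / (4 * L * √C1)), by positivity, by positivity, ?_⟩
  intro z0 hz0 r hr hr0 γ hdet hc hex z hz
  obtain ⟨z1, hz1, hV1⟩ := hex
  have hr1 : r ≤ 1 := hr0.trans ((min_le_left _ _).trans (min_le_left _ _))
  have hrm : r ≤ m := hr0.trans ((min_le_left _ _).trans (min_le_right _ _))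
  have hrL : r ≤ 1 / (4 * L * √C1) := hr0.trans (min_le_right _ _)
  obtain ⟨hb1, hb2⟩ := hb z0 hz0
  have disc : ∀ w ∈ Metric.closedBall z0 r, m ≤ w.im ∧ ‖w‖ ≤ M := by
    intro w hw
    rw [Metric.mem_closedBall, dist_eq_norm] at hw
    constructor
    · have h1 := Complex.abs_im_le_norm (w - z0)
      have h2 : |w.im - z0.im| ≤ r := by simpa using h1.trans hw
      have := (abs_le.1 h2).1
      linarith
    · have : ‖w‖ ≤ ‖w - z0‖ + ‖z0‖ := by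
        have := norm_add_le (w - z0) z0
        simpa using this
      linarith
  obtain ⟨hzi, hzn⟩ := disc z hz
  obtain ⟨hwi, hwn⟩ := disc z1 hz1
  have hzi0 : 0 < z.im := by linarith
  have hwi0 : 0 < z1.im := by linarith
  have hzH : z ∈ H0 := hzi0
  have hwH : z1 ∈ H0 := hwi0
  have sq : ∀ w : ℂ, w ∈ H0 → Vd γ w = SS γ w ^ 2 := by
    intro w hw
    rw [(hQF γ w w hw hw).2.2.2.2.1]
    unfold SS NN
    rw [div_pow]
    congr 1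
    ring
  have hms : msq γ ≤ C1 * Vd γ z1 := by
    have h4 := (hQF γ z1 z1 hwH hwH).2.2.2.1
    change msq γ ≤ 2 * (((γ.det : ℤ) : ℝ) + 2 * Vd γ z1) * ((‖z1‖ ^ 2 + 1) / z1.im) *
      ((‖z1‖ ^ 2 + 1) / z1.im) at h4
    have hVn : 0 ≤ Vd γ z1 := by rw [sq z1 hwH]; positivity
    have hd1 : (1 : ℝ) ≤ ((γ.det : ℤ) : ℝ) := by exact_mod_cast hdet
    have h5 : (‖z1‖ ^ 2 + 1) / z1.im ≤ D := by
      rw [hD]
      gcongr
    have h6 : ((γ.det : ℤ) : ℝ) ≤ 16 / (ε ^ 2 * m ^ 2) * Vd γ z1 := by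
      have h7 : ((γ 1 0 : ℤ) : ℝ) ^ 2 * m ^ 2 ≤ 16 * Vd γ z1 := by
        have : ((γ 1 0 : ℤ) : ℝ) ^ 2 * m ^ 2 ≤ ((γ 1 0 : ℤ) : ℝ) ^ 2 * z1.im ^ 2 := by
          gcongr
        nlinarith
      rw [div_mul_eq_mul_div, le_div_iff₀ (by positivity)]
      calc ((γ.det : ℤ) : ℝ) * (ε ^ 2 * m ^ 2) = (ε ^ 2 * ((γ.det : ℤ) : ℝ)) * m ^ 2 := by ring
        _ ≤ ((γ 1 0 : ℤ) : ℝ) ^ 2 * m ^ 2 := by gcongr
        _ ≤ 16 * Vd γ z1 := h7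
    have h8 : 0 ≤ (‖z1‖ ^ 2 + 1) / z1.im := by positivity
    calc msq γ ≤ 2 * (((γ.det : ℤ) : ℝ) + 2 * Vd γ z1) * ((‖z1‖ ^ 2 + 1) / z1.im) *
          ((‖z1‖ ^ 2 + 1) / z1.im) := h4
      _ ≤ 2 * (((γ.det : ℤ) : ℝ) + 2 * Vd γ z1) * D * D := by
          gcongr
      _ ≤ 2 * (16 / (ε ^ 2 * m ^ 2) * Vd γ z1 + 2 * Vd γ z1) * D * D := by
          gcongr
      _ = C1 * Vd γ z1 := by rw [hC1]; ring
  have hG := GG_nonneg γ
  have hS1 : 0 ≤ SS γ z1 := by unfold SS; positivity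
  have hSz : 0 ≤ SS γ z := by unfold SS; positivity
  have h9 : GG γ ≤ √C1 * SS γ z1 := by
    have : GG γ = √(msq γ) := rfl
    rw [this]
    refine Real.sqrt_le_iff.2 ⟨by positivity, ?_⟩
    rw [mul_pow, Real.sq_sqrt hC1p.le, ← sq z1 hwH]
    exact hms
  have hlip := lip m M hmp hMp γ z1 z hwn hzn hwi hzi
  rw [← hL] at hlip
  have hdist : ‖z1 - z‖ ≤ 2 * r := by
    rw [Metric.mem_closedBall, dist_eq_norm] at hz hz1
    have : z1 - z = (z1 - z0) - (z - z0) := by ring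
    rw [this]
    have := norm_sub_le (z1 - z0) (z - z0)
    linarith
  have h10 : L * ‖z1 - z‖ * √C1 ≤ 1 / 2 := by
    have h11 : L * ‖z1 - z‖ * √C1 ≤ L * (2 * r) * √C1 := by gcongr
    have h12 : L * (2 * r) * √C1 ≤ L * (2 * (1 / (4 * L * √C1))) * √C1 := by gcongr
    have h13 : L * (2 * (1 / (4 * L * √C1))) * √C1 = 1 / 2 := by
      field_simp
      norm_num
    linarith
  have h14 : GG γ ≤ 2 * √C1 * SS γ z := by
    have h15 : √C1 * SS γ z1 ≤ √C1 * SS γ z + GG γ * (L * ‖z1 - z‖ * √C1) := by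
      calc √C1 * SS γ z1 ≤ √C1 * (SS γ z + GG γ * L * ‖z1 - z‖) := by gcongr
        _ = _ := by ring
    have h16 : GG γ * (L * ‖z1 - z‖ * √C1) ≤ GG γ * (1 / 2) := by gcongr
    linarith
  rw [sq z hzH, ← GG_sq, div_mul_eq_mul_div, one_mul, div_le_iff₀ (by positivity)]
  calc GG γ ^ 2 ≤ (2 * √C1 * SS γ z) ^ 2 := by gcongr
    _ = SS γ z ^ 2 * (4 * C1) := by
        rw [mul_pow, mul_pow, Real.sq_sqrt hC1p.le]
        ring

end Pool.Agent.A54.Av
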