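import Pool.Agent.Lib.MP_a54f13_nt.Av.SpecF

/-!
# Module Fc: mean squares of smooth means at the Planck scale imply the fourth moment
-/

set_option autoImplicit false

namespace Pool.Agent.A54.Av.FcM

open MeasureTheory Filter Topology Set
open scoped ContDiff ComplexConjugate UpperHalfPlane MatrixGroups
open Pool.Agent.A54.Half (H0 qq ff hh)
open Pool.Agent.A54.Pl (Ed lin)

noncomputable section

private theorem hh_lower {t : ℝ} (ht : 1 ≤ t) : 2 / 3 * t⁻¹ ≤ hh t := by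
  unfold hh
  have h0 : 0 < t := by linarith
  have h1 : 0 < 1 / 4 + t ^ 2 := by positivity
  have h2 : √(1 / 4 + t ^ 2) ≤ 3 / 2 * t := by
    apply Real.sqrt_le_iff.mpr
    constructor
    · linarith
    · nlinarith
  have h3 : 2 / 3 * t⁻¹ = (3 / 2 * t)⁻¹ := by
    rw [mul_inv]
    norm_num
  rw [h3]
  exact inv_anti₀ (Real.sqrt_pos.mpr h1) h2

private theorem hh_upper {t : ℝ} (ht : 1 ≤ t) : hh t ≤ t⁻¹ := by
  unfold hh
  have h0 : 0 < t := by linarith
  refine inv_anti₀ h0 ?_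
  apply Real.le_sqrt_of_sq_le
  linarith

/-- small discs with centre in the support of a test function -/
private theorem discs {V : Set ℂ} (hV : IsOpen V) {φ : ℂ → ℝ} (hφ : TestR V φ) :
    ∃ r1 : ℝ, 0 < r1 ∧ ∀ r : ℝ, 0 < r → r ≤ r1 → ∀ z ∈ tsupport φ,
      ∀ u ∈ Metric.ball (0 : ℂ) 1, lin r u z ∈ V := by
  obtain ⟨δ, hδ, hsub⟩ := hφ.cpt.isCompact.exists_cthickening_subset_open hV hφ.sub
  obtain ⟨m, hm⟩ := hφ.cpt.isCompact.exists_bound_of_continuousOn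
    (Complex.continuous_im.continuousOn (s := tsupport φ))
  have hm1 : 0 < |m| + 1 := by positivity
  refine ⟨δ / (|m| + 1), by positivity, fun r hr hr1 z hz u hu => ?_⟩
  apply hsub
  refine Metric.mem_cthickening_of_dist_le _ z _ _ hz ?_
  rw [dist_eq_norm, Pl.norm_lin_sub, abs_of_pos hr]
  have h1 : |z.im| ≤ |m| + 1 := by
    have h := hm z hz
    rw [Real.norm_eq_abs] at h
    have h' := le_abs_self m
    linarith
  have h2 : ‖u‖ ≤ 1 := by
    rw [mem_ball_zero_iff] at hu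
    exact hu.le
  have h3 : r * (|m| + 1) ≤ δ := (le_div_iff₀ hm1).mp hr1
  calc r * |z.im| * ‖u‖ ≤ r * (|m| + 1) * 1 :=
        mul_le_mul (mul_le_mul_of_nonneg_left h1 hr.le) h2 (norm_nonneg _) (by positivity)
    _ ≤ δ := by rw [mul_one]; exact h3

/-- the hypothesis: mean squares of smooth means -/
private def Hyp (η : ℂ → ℝ) (f : ℕ → ℍ → ℝ) (T : ℕ → ℝ) (c : ℝ) : Prop :=
  ∀ φ : ℂ → ℝ, TestR H0 φ → (∀ z, 0 ≤ φ z) → ∀ ε : ℝ, 0 < ε → ∃ R : ℝ, 0 < R ∧
    ∀ᶠ i in atTop, ∫ z, φ z * (Sm' η (R / T i) (fun w => ext (f i) w ^ 2) z - c) ^ 2 ≤ ε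

/-- the mean square of the mass in discs of radius `A R / T` -/
private theorem bound (hSD : StmtSDi) {η : ℂ → ℝ} (hη : Bump η) {χ : ℂ → ℝ} {V : Set ℂ}
    (hV : IsOpen V) (hVH : V ⊆ H0) (h1 : ∀ z ∈ V, χ z = 1) {f : ℕ → ℍ → ℝ} {t T : ℕ → ℝ} {c : ℝ}
    (hf : ∀ i, IsHeckeMaass (f i) (t i)) (hT : Tendsto T atTop atTop)
    (hTt : ∀ i, T i / 2 < t i ∧ t i ≤ T i) (hc : 0 ≤ c) (hC : Hyp η f T c) (N : ℕ) {φ : ℂ → ℝ}
    (hφ : TestR V φ) (h0 : ∀ z, 0 ≤ φ z) {ε : ℝ} (hε : 0 < ε) :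
    ∃ B : ℝ, 0 < B ∧ ∀ᶠ i in atTop, 0 < B / T (i + N) ∧
      B / 2 * hh (t (i + N)) ≤ B / T (i + N) ∧ B / T (i + N) ≤ 4 * (B / 2) * hh (t (i + N)) ∧
      ∫ z, φ z * (Ed (B / T (i + N)) (fun w => ff χ (f (i + N)) w ^ 2) z - c) ^ 2 ≤ ε := by
  obtain ⟨ζ, C, r0, A0, hζ, hζ0, hC0, hr0, hA0, hG⟩ :=
    hSD η hη φ ⟨hφ.smooth, hφ.cpt, hφ.sub.trans hVH⟩ h0
  obtain ⟨r1, hr1, hd⟩ := discs hV hφ
  have hε' : 0 < ε / (2 * C + 1) := by positivity
  obtain ⟨R, hR, hev⟩ := hC ζ hζ hζ0 _ hε'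
  set A : ℝ := A0 + 2 * C * c ^ 2 / ε with hA
  have hAA0 : A0 ≤ A := by
    have : 0 ≤ 2 * C * c ^ 2 / ε := by positivity
    linarith
  have hA1 : 1 ≤ A := hA0.trans hAA0
  have hApos : 0 < A := by linarith
  have hA2 : 2 * C * c ^ 2 / ε ≤ A := by linarith
  have hAc : C * c ^ 2 * (A⁻¹) ^ 2 ≤ ε / 2 := by
    rw [div_le_iff₀ hε] at hA2
    have e1 : C * c ^ 2 ≤ ε / 2 * A ^ 2 := by
      have : A ≤ A ^ 2 := by nlinarith
      nlinarith
    rw [inv_pow, ← div_eq_mul_inv, div_le_iff₀ (by positivity)]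
    exact e1
  refine ⟨A * R, by positivity, ?_⟩
  have hshift : Tendsto (fun i => i + N) atTop atTop := tendsto_add_atTop_nat N
  have hlim : Tendsto (fun i => A * R / T i) atTop (𝓝 0) := by
    have := hT.inv_tendsto_atTop.const_mul (A * R)
    rw [mul_zero] at this
    exact this
  have hsmall : ∀ δ : ℝ, 0 < δ → ∀ᶠ i in atTop, A * R / T i ≤ δ := fun δ hδ =>
    (hlim.eventually_lt_const hδ).mono fun _ h => h.le
  have hall : ∀ᶠ j in atTop, 0 < A * R / T j ∧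
      A * R / 2 * hh (t j) ≤ A * R / T j ∧ A * R / T j ≤ 4 * (A * R / 2) * hh (t j) ∧
      ∫ z, φ z * (Ed (A * R / T j) (fun w => ff χ (f j) w ^ 2) z - c) ^ 2 ≤ ε := by
    filter_upwards [hev, hT.eventually_ge_atTop 2, hsmall r0 hr0, hsmall r1 hr1]
      with j e1 e2 e3 e4
    have hTj : 0 < T j := by linarith
    have hpos : 0 < A * R / T j := by positivity
    have htj : 1 ≤ t j := by have := (hTt j).1; linarith
    have htj0 : 0 < t j := by linarith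
    refine ⟨hpos, ?_, ?_, ?_⟩
    · have a1 : hh (t j) ≤ 2 * (T j)⁻¹ := by
        refine (hh_upper htj).trans ?_
        have a2 : T j / 2 ≤ t j := (hTt j).1.le
        calc (t j)⁻¹ ≤ (T j / 2)⁻¹ := inv_anti₀ (by positivity) a2
          _ = 2 * (T j)⁻¹ := by rw [inv_div]; ring
      calc A * R / 2 * hh (t j) ≤ A * R / 2 * (2 * (T j)⁻¹) :=
            mul_le_mul_of_nonneg_left a1 (by positivity)
        _ = A * R / T j := by ring
    · have a1 : 2 / 3 * (T j)⁻¹ ≤ hh (t j) := by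
        refine le_trans ?_ (hh_lower htj)
        exact mul_le_mul_of_nonneg_left (inv_anti₀ htj0 (hTt j).2) (by norm_num)
      have a2 : 0 ≤ A * R * (T j)⁻¹ := by positivity
      calc A * R / T j = A * R * (T j)⁻¹ := by ring
        _ ≤ 4 * (A * R / 2) * (2 / 3 * (T j)⁻¹) := by nlinarith
        _ ≤ 4 * (A * R / 2) * hh (t j) := mul_le_mul_of_nonneg_left a1 (by positivity)
    · have hr' : 0 < R / T j := by positivity
      have hA0r : A0 * (R / T j) ≤ A * R / T j := by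
        calc A0 * (R / T j) ≤ A * (R / T j) := mul_le_mul_of_nonneg_right hAA0 hr'.le
          _ = A * R / T j := by ring
      have e7 := hG (fun w => ext (f j) w ^ 2) ((hf j).smooth.continuousOn.pow 2)
        (fun w => sq_nonneg _) c (A * R / T j) (R / T j) hc hr' hA0r e3
      have e8 : ∫ z, φ z * (Ed (A * R / T j) (fun w => ff χ (f j) w ^ 2) z - c) ^ 2 =
          ∫ z, φ z * (Ed (A * R / T j) (fun w => ext (f j) w ^ 2) z - c) ^ 2 := by
        refine integral_congr_ae (Filter.Eventually.of_forall fun z => ?_)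
        by_cases hz : z ∈ tsupport φ
        · have e9 : Ed (A * R / T j) (fun w => ff χ (f j) w ^ 2) z =
              Ed (A * R / T j) (fun w => ext (f j) w ^ 2) z := by
            refine Pl.Ed_congr fun u hu => ?_
            have hu' := hd _ hpos e4 z hz u hu
            simp only [ff, h1 _ hu', one_mul]
          simp only [e9]
        · have : φ z = 0 := image_eq_zero_of_notMem_tsupport hz
          simp only [this, zero_mul]
      rw [e8]
      refine e7.trans ?_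
      have e10 : C * (∫ z, ζ z * (Sm' η (R / T j) (fun w => ext (f j) w ^ 2) z - c) ^ 2) ≤
          C * (ε / (2 * C + 1)) := mul_le_mul_of_nonneg_left e1 hC0
      have e11 : C * (ε / (2 * C + 1)) ≤ ε / 2 := by
        rw [mul_div_assoc', div_le_div_iff₀ (by positivity) (by norm_num)]
        nlinarith
      have e12 : R / T j / (A * R / T j) = A⁻¹ := by
        field_simp
      rw [e12]
      linarith
  exact hshift.eventually hall

/-- a sequence which is eventually bounded is bounded -/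
private theorem bdd_of_ev {a : ℕ → ℝ} {B : ℝ} (h : ∀ᶠ i in atTop, a i ≤ B) :
    ∃ C : ℝ, ∀ i, a i ≤ C := by
  obtain ⟨i0, hi0⟩ := eventually_atTop.mp h
  refine ⟨|B| + ∑ i ∈ Finset.range i0, |a i|, fun i => ?_⟩
  by_cases hi : i0 ≤ i
  · have h1 := hi0 i hi
    have h2 : 0 ≤ ∑ i ∈ Finset.range i0, |a i| := Finset.sum_nonneg fun _ _ => abs_nonneg _
    have h3 := le_abs_self B
    linarith
  · have h1 : |a i| ≤ ∑ i ∈ Finset.range i0, |a i| :=
      Finset.single_le_sum (f := fun i => |a i|) (fun _ _ => abs_nonneg _)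
        (Finset.mem_range.mpr (not_le.mp hi))
    have h2 := le_abs_self (a i)
    have h3 := abs_nonneg B
    linarith

/-- fourth powers are locally bounded -/
private theorem l4bdd (hSD : StmtSDi) (hT3 : Pl.StmtT3) {η : ℂ → ℝ} (hη : Bump η) {χ : ℂ → ℝ}
    {V : Set ℂ} (hV : IsOpen V) (hVH : V ⊆ H0) (h1 : ∀ z ∈ V, χ z = 1) {f : ℕ → ℍ → ℝ}
    {t T : ℕ → ℝ} {c : ℝ} (hf : ∀ i, IsHeckeMaass (f i) (t i)) (hT : Tendsto T atTop atTop)
    (hTt : ∀ i, T i / 2 < t i ∧ t i ≤ T i) (hc : 0 ≤ c) (hC : Hyp η f T c) (N : ℕ)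
    (hS : Seq V (qq χ) (fun i => hh (t (i + N))) (fun i => ff χ (f (i + N)))) :
    L4Bdd V (fun i => ff χ (f (i + N))) := by
  intro ζ hζ
  obtain ⟨φ, hφ, hφ0, hTT0⟩ := hT3 V (qq χ) hVH hS.pot ζ hζ
  obtain ⟨B, hB, hev⟩ := bound hSD hη hV hVH h1 hf hT hTt hc hC N hφ hφ0 one_pos
  obtain ⟨C, h0, hC0, hh0, hTT⟩ := hTT0 (B / 2) (by positivity)
  have hsm : ∀ᶠ i in atTop, hh (t (i + N)) ≤ h0 :=
    (hS.lim.eventually_lt_const hh0).mono fun _ h => h.le
  apply bdd_of_ev (B := C * (2 * 1 + 2 * c ^ 2 * ∫ z, φ z))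
  filter_upwards [hev, hsm] with i hi hi2
  obtain ⟨e2, a1, a2, e4⟩ := hi
  have a3 := hTT _ _ _ (hS.sol i) hi2 a1 a2
  refine a3.trans (mul_le_mul_of_nonneg_left ?_ hC0)
  -- the mean square
  set ρ := B / T (i + N) with hρ
  set E : ℂ → ℝ := Ed ρ (fun w => ff χ (f (i + N)) w ^ 2) with hE
  have hEc : Continuous E := Pl.continuous_Ed ((hS.sol i).smooth.continuous.pow 2) ρ
  have i1 : Integrable fun z => φ z * (E z - c) ^ 2 :=
    (hφ.smooth.continuous.mul ((hEc.sub continuous_const).pow 2)).integrable_of_hasCompactSupport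
      hφ.cpt.mul_right
  have i2 : Integrable fun z => φ z * E z ^ 2 :=
    (hφ.smooth.continuous.mul (hEc.pow 2)).integrable_of_hasCompactSupport hφ.cpt.mul_right
  have i3 : Integrable φ := hφ.smooth.continuous.integrable_of_hasCompactSupport hφ.cpt
  calc ∫ z, φ z * E z ^ 2 ≤ ∫ z, (2 * (φ z * (E z - c) ^ 2) + 2 * c ^ 2 * φ z) := by
        refine integral_mono i2 ((i1.const_mul 2).add (i3.const_mul (2 * c ^ 2))) fun z => ?_
        have : 0 ≤ φ z * (E z - 2 * c) ^ 2 := mul_nonneg (hφ0 z) (sq_nonneg _)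
        simp only
        nlinarith
    _ = 2 * (∫ z, φ z * (E z - c) ^ 2) + 2 * c ^ 2 * ∫ z, φ z := by
        rw [integral_add (i1.const_mul 2) (i3.const_mul (2 * c ^ 2)), integral_const_mul,
          integral_const_mul]
    _ ≤ 2 * 1 + 2 * c ^ 2 * ∫ z, φ z := by linarith

theorem main (hI : StmtInt) (hL : StmtLap) (hNA : Dyn.StmtNAf) (hSD : StmtSDi) (hT2c : StmtT2c)
    (hT3 : Pl.StmtT3) : StmtFc := by
  intro η hη f t T c hf hT hTt hc hC φ hφ
  have hC' : Hyp η f T c := hC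
  have ht : Tendsto t atTop atTop := by
    refine tendsto_atTop_mono (fun i => (hTt i).1.le) ?_
    exact hT.atTop_div_const (by norm_num)
  obtain ⟨χ, V, hχ, h01, hV, hVH, h1, hsub⟩ := Half.setup hφ
  have hφV : TestR V φ := ⟨hφ.smooth, hφ.cpt, hsub⟩
  obtain ⟨N, hN⟩ := Half.exists_N ht
  have hS := Half2.seq hL hχ h01 hV hVH h1 hf ht hN
  have hb : L4Bdd V (fun i => ff χ (f (i + N))) :=
    l4bdd hSD hT3 hη hV hVH h1 hf hT hTt hc hC' N hS
  have hna := Dyn.Half3M.naloc hNA ⟨hf, ht⟩ hχ hVH h1 N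
  have hyp : ∀ φ : ℂ → ℝ, TestR V φ → (∀ z, 0 ≤ φ z) → ∀ ε : ℝ, 0 < ε → ∃ (R : ℝ) (ρ : ℕ → ℝ),
      ∀ᶠ i in atTop, 0 < ρ i ∧ ρ i ≤ R * hh (t (i + N)) ∧
        ∫ z, φ z * (Ed (ρ i) (fun w => ff χ (f (i + N)) w ^ 2) z - c) ^ 2 ≤ ε := by
    intro φ' hφ' h0' ε hε
    obtain ⟨B, hB, hev⟩ := bound hSD hη hV hVH h1 hf hT hTt hc hC' N hφ' h0' hε
    refine ⟨4 * (B / 2), fun i => B / T (i + N), ?_⟩
    filter_upwards [hev] with i hi
    obtain ⟨e1, e2, e3, e4⟩ := hi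
    exact ⟨e1, e3, e4⟩
  obtain ⟨hA2, hA4⟩ := hT2c V _ _ _ c hVH hc hS hb hna hyp
  have hw := Half.testR_weight hVH hφV
  constructor
  · rw [← tendsto_add_atTop_iff_nat N, Half.int_eq_one hI hVH hφV]
    refine (hA2 _ hw).congr fun i => ?_
    rw [Half.int_eq hI hVH h1 hφV]
  · rw [← tendsto_add_atTop_iff_nat N, Half.int_eq_one hI hVH hφV]
    refine (hA4 _ hw).congr fun i => ?_
    rw [Half.int_eq hI hVH h1 hφV]

end

end Pool.Agent.A54.Av.FcM

namespace Pool.Agent.A54.Av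

theorem stmtFc (hI : StmtInt) (hL : StmtLap) (hNA : Dyn.StmtNAf) (hSD : StmtSDi)
    (hT2c : StmtT2c) (hT3 : Pl.StmtT3) : StmtFc :=
  FcM.main hI hL hNA hSD hT2c hT3

end Pool.Agent.A54.Av
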