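import Pool.Agent.Lib.MP_a54f13_nt.Av.SpecN

/-!
# Package `Av`, module `Fin2`: the cases `n = 2` and `n = 4` for almost all forms
-/

set_option autoImplicit false

namespace Pool.Agent.A54.Av.Fin2M

open MeasureTheory Filter Topology Set
open scoped ContDiff ComplexConjugate UpperHalfPlane MatrixGroups ENNReal
open Pool.Agent.A54.Half (H0 qq ff hh)

noncomputable section

lemma exists_bump : ∃ η : ℂ → ℝ, Bump η := by
  let b : ContDiffBump (0 : ℂ) := ⟨1 / 2, 1, by norm_num, by norm_num⟩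
  refine ⟨b.normed volume, b.contDiff_normed, ?_, fun z => b.nonneg_normed z, b.integral_normed⟩
  rw [b.tsupport_normed_eq]

/-- choice of one element from each pair -/
lemma exists_half {α : Type*} [DecidableEq α] (σ : α → α) (hσ : ∀ a, σ (σ a) = a) :
    ∀ (n : ℕ) (S : Finset α), S.card ≤ n → ∃ S' ⊆ S, S.card ≤ 2 * S'.card ∧
      ∀ a ∈ S', ∀ b ∈ S', b = σ a → b = a := by
  intro n
  induction n with
  | zero =>
    intro S hS
    exact ⟨∅, Finset.empty_subset _, by simpa using hS, by simp⟩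
  | succ n ih =>
    intro S hS
    rcases S.eq_empty_or_nonempty with rfl | ⟨a, ha⟩
    · exact ⟨∅, Finset.empty_subset _, by simp, by simp⟩
    · have h1 : ((S.erase a).erase (σ a)).card ≤ n := by
        have h2 := Finset.card_erase_lt_of_mem ha
        have h3 := Finset.card_erase_le (s := S.erase a) (a := σ a)
        omega
      obtain ⟨T, hT1, hT2, hT3⟩ := ih _ h1
      have hTa : ∀ x ∈ T, x ≠ σ a ∧ x ≠ a ∧ x ∈ S := by
        intro x hx
        have h2 := hT1 hx
        simp only [Finset.mem_erase] at h2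
        exact ⟨h2.1, h2.2.1, h2.2.2⟩
      refine ⟨insert a T, ?_, ?_, ?_⟩
      · intro x hx
        rcases Finset.mem_insert.1 hx with rfl | hx
        · exact ha
        · exact (hTa x hx).2.2
      · rw [Finset.card_insert_of_notMem fun h => (hTa a h).2.1 rfl]
        have h2 := Finset.pred_card_le_card_erase (s := S) (a := a)
        have h3 := Finset.pred_card_le_card_erase (s := S.erase a) (a := σ a)
        omega
      · intro x hx y hy hxy
        rcases Finset.mem_insert.1 hx with h4 | h4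
        · rcases Finset.mem_insert.1 hy with h5 | h5
          · rw [h4, h5]
          · exact absurd (by rw [hxy, h4]) (hTa y h5).1
        · rcases Finset.mem_insert.1 hy with h5 | h5
          · exact absurd (by rw [← h5, hxy, hσ]) (hTa x h4).1
          · exact hT3 x h4 y h5 hxy

/-- choice of an element which satisfies all conditions -/
lemma pick {α : Type*} [DecidableEq α] (S : Finset α) (J : ℕ) (P Q : ℕ → α → Prop) (e : ℕ → ℝ)
    (hP : ∀ j < J, ∀ A ⊆ S, (∀ a ∈ A, ¬P j a) → (A.card : ℝ) ≤ e j)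
    (hQ : ∀ j < J, ∀ A ⊆ S, (∀ a ∈ A, ¬Q j a) → (A.card : ℝ) ≤ e j)
    (h : ∑ j ∈ Finset.range J, 2 * e j < (S.card : ℝ)) : ∃ a ∈ S, ∀ j < J, P j a ∧ Q j a := by
  classical
  by_contra hc
  push Not at hc
  have h1 : S ⊆ (Finset.range J).biUnion fun j =>
      S.filter (fun a => ¬P j a) ∪ S.filter (fun a => ¬Q j a) := by
    intro a ha
    obtain ⟨j, hj, h2⟩ := hc a ha
    simp only [Finset.mem_biUnion, Finset.mem_range, Finset.mem_union, Finset.mem_filter]
    by_cases h3 : P j a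
    · exact ⟨j, hj, Or.inr ⟨ha, h2 h3⟩⟩
    · exact ⟨j, hj, Or.inl ⟨ha, h3⟩⟩
  have h2 : (S.card : ℝ) ≤ ∑ j ∈ Finset.range J, 2 * e j := by
    have h3 := (Finset.card_le_card h1).trans Finset.card_biUnion_le
    have h4 : (S.card : ℝ) ≤ ∑ j ∈ Finset.range J, ((S.filter (fun a => ¬P j a) ∪
        S.filter (fun a => ¬Q j a)).card : ℝ) := by exact_mod_cast h3
    refine h4.trans (Finset.sum_le_sum fun j hj => ?_)
    have h5 := Finset.card_union_le (S.filter (fun a => ¬P j a)) (S.filter (fun a => ¬Q j a))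
    have h6 : ((S.filter (fun a => ¬P j a) ∪ S.filter (fun a => ¬Q j a)).card : ℝ) ≤
        ((S.filter (fun a => ¬P j a)).card : ℝ) + ((S.filter (fun a => ¬Q j a)).card : ℝ) := by
      exact_mod_cast h5
    have h7 := hP j (Finset.mem_range.1 hj) (S.filter (fun a => ¬P j a)) (Finset.filter_subset _ _)
      fun a ha => (Finset.mem_filter.1 ha).2
    have h8 := hQ j (Finset.mem_range.1 hj) (S.filter (fun a => ¬Q j a)) (Finset.filter_subset _ _)
      fun a ha => (Finset.mem_filter.1 ha).2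
    linarith
  linarith

/-! ### Monotonicity of `XX2` -/

lemma es_continuous {η : ℂ → ℝ} (hη : Bump η) (r : ℝ) :
    Continuous fun p : ℂ × ℂ => es η r p.1 p.2 := by
  have h1 := hη.smooth.continuous
  unfold es
  fun_prop

lemma es_zero {η : ℂ → ℝ} (hη : Bump η) {r : ℝ} (hr : 0 < r) {z0 z : ℂ}
    (h : z ∉ Metric.closedBall z0 r) : es η r z0 z = 0 := by
  have h1 : (r : ℂ)⁻¹ * (z - z0) ∉ tsupport η := by
    intro h2
    have h3 := hη.sub h2
    rw [mem_closedBall_zero_iff, norm_mul, norm_inv, Complex.norm_real, Real.norm_of_nonneg hr.le,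
      inv_mul_le_iff₀ hr, mul_one] at h3
    exact h (by rw [Metric.mem_closedBall, dist_eq_norm]; exact h3)
  unfold es
  rw [image_eq_zero_of_notMem_tsupport h1, mul_zero]

lemma sm_continuousOn {η : ℂ → ℝ} (hη : Bump η) {F : ℂ → ℝ} (hF : ContinuousOn F H0) {K : Set ℂ}
    (hK : IsCompact K) {r : ℝ} (hr : 0 < r) (hKr : Metric.cthickening r K ⊆ H0) :
    ContinuousOn (Sm' η r F) K := by
  have hH : IsOpen H0 := isOpen_lt continuous_const Complex.continuous_im
  obtain ⟨ζ, hζ, -, hone⟩ := exists_cutoff (hK.cthickening (r := r)) hH hKr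
  have hone' : ∀ z ∈ Metric.cthickening r K, ζ z = 1 := fun z hz => subset_of_mem_nhdsSet hone hz
  have hG : Continuous fun z => ζ z * F z := by
    rw [continuous_iff_continuousAt]
    intro z
    by_cases hz : z ∈ tsupport ζ
    · exact hζ.smooth.continuous.continuousAt.mul (hF.continuousAt (hH.mem_nhds (hζ.sub hz)))
    · have h1 : (fun w => ζ w * F w) =ᶠ[𝓝 z] fun _ => 0 := by
        have h2 := notMem_tsupport_iff_eventuallyEq.1 hz
        filter_upwards [h2] with w hw
        rw [hw]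
        simp
      exact continuousAt_const.congr h1.symm
  have h1 : ContinuousOn (fun z0 => ∫ z, es η r z0 z * (ζ z * F z)) K := by
    refine continuousOn_integral_of_compact_support (k := tsupport ζ) hζ.cpt ?_ ?_
    · exact ((es_continuous hη r).mul (hG.comp continuous_snd)).continuousOn
    · intro p x _ hx
      rw [image_eq_zero_of_notMem_tsupport hx]
      ring
  refine h1.congr fun z0 hz0 => ?_
  unfold Sm'
  refine integral_congr_ae (Eventually.of_forall fun z => ?_)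
  by_cases hz : z ∈ Metric.closedBall z0 r
  · have h2 : z ∈ Metric.cthickening r K :=
      Metric.closedBall_subset_cthickening hz0 r hz
    simp only [hone' z h2, one_mul]
  · simp only [es_zero hη hr hz, zero_mul]

lemma int_sq {S : ℂ → ℝ} {L M : Set ℂ} (hL : IsCompact L) (hM : IsCompact M)
    (hSL : ContinuousOn S L) (hSM : ContinuousOn S M) :
    IntegrableOn (fun z => ∫ z' in L, (S z - S z') ^ 2) M := by
  have h1 : ContinuousOn (fun z => S z ^ 2 * (∫ _z' in L, (1 : ℝ)) - 2 * S z * (∫ z' in L, S z') +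
      ∫ z' in L, S z' ^ 2) M :=
    (((hSM.pow 2).mul continuousOn_const).sub ((continuousOn_const.mul hSM).mul
      continuousOn_const)).add continuousOn_const
  refine (h1.integrableOn_compact hM).congr (Eventually.of_forall fun z => ?_)
  have i1 : IntegrableOn (fun _ : ℂ => (1 : ℝ)) L := continuousOn_const.integrableOn_compact hL
  have i2 : IntegrableOn S L := hSL.integrableOn_compact hL
  have i3 : IntegrableOn (fun z => S z ^ 2) L := (hSL.pow 2).integrableOn_compact hL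
  simp only
  rw [← integral_const_mul, ← integral_const_mul, ← integral_sub (i1.const_mul _) (i2.const_mul _),
    ← integral_add (f := fun w => S z ^ 2 * 1 - 2 * S z * S w)
      ((i1.const_mul _).sub (i2.const_mul _)) i3]
  refine integral_congr_ae (Eventually.of_forall fun w => ?_)
  simp only
  ring

lemma xx2_mono {η : ℂ → ℝ} (hη : Bump η) {f : ℍ → ℝ} (hf : ContinuousOn (ext f) H0) {K K' : Set ℂ}
    (hK : IsCompact K) (hK' : IsCompact K') (hKK : K ⊆ K') {r : ℝ} (hr : 0 < r)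
    (hKr : Metric.cthickening r K' ⊆ H0) : XX2 η r K f ≤ XX2 η r K' f := by
  have hS' : ContinuousOn (Sm' η r fun w => ext f w ^ 2) K' :=
    sm_continuousOn hη (hf.pow 2) hK' hr hKr
  have hS : ContinuousOn (Sm' η r fun w => ext f w ^ 2) K := hS'.mono hKK
  unfold XX2
  refine le_trans (setIntegral_mono_on (int_sq hK hK hS hS) (int_sq hK' hK hS' hS)
    hK.measurableSet fun z hz => ?_) ?_
  · refine setIntegral_mono_set ?_ (Eventually.of_forall fun _ => sq_nonneg _)
      (LE.le.eventuallyLE hKK)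
    exact ((continuousOn_const.sub hS').pow 2).integrableOn_compact hK'
  · exact setIntegral_mono_set (int_sq hK' hK' hS' hS')
      (Eventually.of_forall fun _ => integral_nonneg fun _ => sq_nonneg _)
      (LE.le.eventuallyLE hKK)

/-! ### Families -/

lemma fam_of (hOrth : StmtOrth) (hRho : StmtRho) (hPar : StmtPar) {A : Finset (ℍ → ℝ)}
    {tt : (ℍ → ℝ) → ℝ} (h1 : ∀ f ∈ A, IsHeckeMaass f (tt f))
    (h2 : ∀ f ∈ A, ∀ g ∈ A, g = -f → g = f) :
    ∃ ρ : {f // f ∈ A} → ℂ, Fam {f // f ∈ A} (fun i => i.1) (fun i => tt i.1) ρ := by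
  have h3 : ∀ i : {f // f ∈ A}, ∃ ρ : ℂ, IsRho i.1 (tt i.1) ρ := fun i => hRho _ _ (h1 i.1 i.2)
  choose ρ hρ using h3
  refine ⟨ρ, fun i => h1 i.1 i.2, hρ, fun i => hPar _ _ (h1 i.1 i.2), fun i j hij => ?_⟩
  by_contra hne
  apply hij
  rcases hOrth i.1 j.1 (tt i.1) (tt j.1) (h1 i.1 i.2) (h1 j.1 j.2) (hPar _ _ (h1 i.1 i.2))
    (hPar _ _ (h1 j.1 j.2)) hne with h4 | h4
  · exact Subtype.ext (funext fun z => (h4 z).symm)
  · exact Subtype.ext (h2 i.1 i.2 j.1 j.2 (funext fun z => h4 z)).symm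

end

end Pool.Agent.A54.Av.Fin2M

namespace Pool.Agent.A54.Av

open MeasureTheory Filter Topology Set
open scoped ContDiff ComplexConjugate UpperHalfPlane MatrixGroups ENNReal
open Pool.Agent.A54.Half (H0 qq ff hh)
open Fin2M

/-- **Fin2** conclusion for the cases `n = 2` and `n = 4` -/
theorem stmtFin2 (hF2 : StmtF2) (h3 : StmtN3) (hFd : StmtFd2) (hOrth : StmtOrth)
    (hRho : StmtRho) (hPar : StmtPar) : StmtMain2 := by
  classical
  intro ψ hψ ε hε
  by_contra hcon
  push Not at hcon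
  obtain ⟨η, hη⟩ := exists_bump
  obtain ⟨K, hKdef⟩ : ∃ K : ℕ → Set ℂ, ∀ j, K j = Metric.closedBall (0 : ℂ) ((j : ℝ) + 1) ∩
      {z : ℂ | 1 / ((j : ℝ) + 1) ≤ z.im} := ⟨_, fun _ => rfl⟩
  have hKc : ∀ j, IsCompact (K j) := by
    intro j
    rw [hKdef]
    exact (isCompact_closedBall _ _).inter_right
      (isClosed_le continuous_const Complex.continuous_im)
  have hKs : ∀ j, K j ⊆ H0 := by
    intro j z hz
    rw [hKdef] at hz
    have h1 : (0 : ℝ) < 1 / ((j : ℝ) + 1) := by positivity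
    exact h1.trans_le hz.2
  obtain ⟨e, he⟩ : ∃ e : ℕ → ℝ, ∀ j, e j = ε / 16 * (1 / 2) ^ (j + 1) := ⟨_, fun _ => rfl⟩
  have he0 : ∀ j, 0 < e j := fun j => by rw [he]; positivity
  have hj0 : ∀ j : ℕ, (0 : ℝ) < 1 / ((j : ℝ) + 1) := fun j => by positivity
  have hes : ∀ J : ℕ, ∑ j ∈ Finset.range J, e j ≤ ε / 16 := by
    intro J
    have h1 : ∑ j ∈ Finset.range J, e j = ε / 16 * (1 - (1 / 2) ^ J) := by
      induction J with
      | zero => simp
      | succ J ih => rw [Finset.sum_range_succ, ih, he]; ring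
    rw [h1]
    have h2 : (0 : ℝ) ≤ (1 / 2) ^ J := by positivity
    nlinarith
  choose R hR1 hR2 using fun j => hF2 η hη (K j) (hKc j) (hKs j) (e j) (1 / ((j : ℝ) + 1)) (he0 j)
    (hj0 j)
  choose T0 hT0 hT0' using fun j => hR2 j (R j) le_rfl
  obtain ⟨C, hC, hN⟩ := h3
  obtain ⟨Y, hY⟩ : ∃ Y : ℕ → ℝ, ∀ j, Y j = max 1 (((j : ℝ) + 1) * C / e j) := ⟨_, fun _ => rfl⟩
  have hY1 : ∀ j, 1 ≤ Y j := fun j => by rw [hY]; exact le_max_left _ _
  have hY2 : ∀ j : ℕ, ((j : ℝ) + 1) * C ≤ e j * Y j := by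
    intro j
    have h1 : ((j : ℝ) + 1) * C / e j ≤ Y j := by rw [hY]; exact le_max_right _ _
    rw [div_le_iff₀ (he0 j)] at h1
    linarith
  have key : ∀ J : ℕ, ∃ (T t : ℝ) (f : ℍ → ℝ), (J : ℝ) ≤ T ∧ 0 < T ∧ IsHeckeMaass f t ∧
      T / 2 < t ∧ t ≤ T ∧
      (ε < |(∫ z in ModularGroup.fdo, ψ z * f z ^ 2) - ∫ z in ModularGroup.fdo, ψ z| ∨
        ε < |(∫ z in ModularGroup.fdo, ψ z * f z ^ 4) - 3 * ∫ z in ModularGroup.fdo, ψ z|) ∧
      ∀ j < J, XX2 η (R j / T) (K j) f ≤ 1 / ((j : ℝ) + 1) ∧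
        ∫ z in ModularGroup.fdo ∩ {z : ℍ | Y j < z.im}, f z ^ 2 ≤ 1 / ((j : ℝ) + 1) := by
    intro J
    obtain ⟨T, hT, S, hS, hcard⟩ := hcon ((J : ℝ) + 3 + ∑ j ∈ Finset.range J, (|T0 j| + Y j))
    have hsum : ∀ j < J, |T0 j| + Y j ≤ ∑ j ∈ Finset.range J, (|T0 j| + Y j) := by
      intro j hj
      exact Finset.single_le_sum (f := fun j => |T0 j| + Y j)
        (fun i _ => add_nonneg (abs_nonneg _) (zero_le_one.trans (hY1 i))) (Finset.mem_range.2 hj)
    have hsum0 : 0 ≤ ∑ j ∈ Finset.range J, (|T0 j| + Y j) :=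
      Finset.sum_nonneg fun i _ => add_nonneg (abs_nonneg _) (zero_le_one.trans (hY1 i))
    have hJ0 : (0 : ℝ) ≤ J := Nat.cast_nonneg J
    have hT3 : 3 ≤ T := by linarith
    have hTJ : (J : ℝ) ≤ T := by linarith
    have hTj : ∀ j < J, T0 j ≤ 2 * T ∧ Y j ≤ 2 * T := by
      intro j hj
      have h1 := hsum j hj
      have h2 := le_abs_self (T0 j)
      have h3 := hY1 j
      have h4 := abs_nonneg (T0 j)
      constructor <;> linarith
    obtain ⟨S', hS'S, hS'c, hS'p⟩ := exists_half (fun f : ℍ → ℝ => -f) (fun f => neg_neg f) S.card S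
      le_rfl
    have ht : ∀ f : ℍ → ℝ, ∃ t : ℝ, f ∈ S' → IsHeckeMaass f t ∧ T < t ∧ t ≤ 2 * T := by
      intro f
      by_cases hf : f ∈ S'
      · obtain ⟨t, ht⟩ := (hS f (hS'S hf)).1
        exact ⟨t, fun _ => ht⟩
      · exact ⟨0, fun h => absurd h hf⟩
    choose tt htt using ht
    have hfam : ∀ A ⊆ S', ∃ ρ : {f // f ∈ A} → ℂ,
        Fam {f // f ∈ A} (fun i => i.1) (fun i => tt i.1) ρ := fun A hA =>
      fam_of hOrth hRho hPar (fun f hf => (htt f (hA hf)).1)
        fun f hf g hg => hS'p f (hA hf) g (hA hg)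
    have hpick : ∃ f ∈ S', ∀ j < J, XX2 η (R j / (2 * T)) (K j) f ≤ 1 / ((j : ℝ) + 1) ∧
        ∫ z in ModularGroup.fdo ∩ {z : ℍ | Y j < z.im}, f z ^ 2 ≤ 1 / ((j : ℝ) + 1) := by
      refine pick S' J (fun j f => XX2 η (R j / (2 * T)) (K j) f ≤ 1 / ((j : ℝ) + 1))
        (fun j f => ∫ z in ModularGroup.fdo ∩ {z : ℍ | Y j < z.im}, f z ^ 2 ≤ 1 / ((j : ℝ) + 1))
        (fun j => e j * (2 * T) ^ 2) ?_ ?_ ?_
      · intro j hj A hA hAP
        obtain ⟨ρ, hρ⟩ := hfam A hA
        have h1 := hT0' j (2 * T) (hTj j hj).1 {f // f ∈ A} (fun i => i.1) (fun i => tt i.1) ρ hρ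
          (fun i => by
            have h2 := htt i.1 (hA i.2)
            exact ⟨by linarith [h2.2.1], h2.2.2⟩) (fun i => not_le.1 (hAP i.1 i.2))
        simpa using h1
      · intro j hj A hA hAP
        obtain ⟨ρ, hρ⟩ := hfam A hA
        have h1 := hN {f // f ∈ A} (fun i => i.1) (fun i => tt i.1) (2 * T) (by linarith)
          ⟨hρ.form, fun i => (htt i.1 (hA i.2)).2.2, hρ.orth⟩ (Y j) (hY1 j) (hTj j hj).2
        have h2 : (A.card : ℝ) * (1 / ((j : ℝ) + 1)) ≤ C * (2 * T) ^ 2 / Y j := by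
          refine le_trans ?_ h1
          have h4 : ∑ _i : {f // f ∈ A}, (1 / ((j : ℝ) + 1)) = (A.card : ℝ) * (1 / ((j : ℝ) + 1)) := by
            simp
          rw [← h4]
          exact Finset.sum_le_sum fun i _ => (not_le.1 (hAP i.1 i.2)).le
        have hYp : 0 < Y j := zero_lt_one.trans_le (hY1 j)
        have hjp : (0 : ℝ) < (j : ℝ) + 1 := by positivity
        rw [mul_one_div, div_le_div_iff₀ hjp hYp] at h2
        have h5 : (A.card : ℝ) * Y j ≤ e j * (2 * T) ^ 2 * Y j := by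
          calc (A.card : ℝ) * Y j ≤ C * (2 * T) ^ 2 * ((j : ℝ) + 1) := h2
            _ = ((j : ℝ) + 1) * C * (2 * T) ^ 2 := by ring
            _ ≤ e j * Y j * (2 * T) ^ 2 := mul_le_mul_of_nonneg_right (hY2 j) (sq_nonneg _)
            _ = e j * (2 * T) ^ 2 * Y j := by ring
        exact le_of_mul_le_mul_right h5 hYp
      · have h1 : ∑ j ∈ Finset.range J, 2 * (e j * (2 * T) ^ 2) =
            8 * T ^ 2 * ∑ j ∈ Finset.range J, e j := by
          rw [Finset.mul_sum]
          exact Finset.sum_congr rfl fun j _ => by ring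
        rw [h1]
        have h2 : (S.card : ℝ) ≤ 2 * (S'.card : ℝ) := by exact_mod_cast hS'c
        have h3 : 8 * T ^ 2 * ∑ j ∈ Finset.range J, e j ≤ 8 * T ^ 2 * (ε / 16) := by
          gcongr
          exact hes J
        linarith
    obtain ⟨f, hf, hfJ⟩ := hpick
    have h1 := htt f hf
    exact ⟨2 * T, tt f, f, by linarith, by linarith, h1.1, by linarith [h1.2.1], h1.2.2,
      (hS f (hS'S hf)).2, hfJ⟩
  choose T t f hTJ hT0p hform htl htu hbad hgood using key
  have hTt : Tendsto T atTop atTop := tendsto_atTop_mono hTJ tendsto_natCast_atTop_atTop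
  have hlim := hFd η hη f t T hform hTt (fun i => ⟨htl i, htu i⟩) ?_ ?_ ψ hψ
  · have h1 := (Metric.tendsto_nhds.1 hlim.1 ε hε)
    have h2 := (Metric.tendsto_nhds.1 hlim.2 ε hε)
    obtain ⟨i, h3, h4⟩ := (h1.and h2).exists
    rw [Real.dist_eq] at h3 h4
    rcases hbad i with h5 | h5
    · exact absurd h5 (not_lt.2 h3.le)
    · exact absurd h5 (not_lt.2 h4.le)
  · intro L hL hLs δ hδ
    -- choose `j` with `L ⊆ K j`, `1 / (j + 1) ≤ δ`
    obtain ⟨j, hLj, hjδ⟩ : ∃ j : ℕ, L ⊆ K j ∧ 1 / ((j : ℝ) + 1) ≤ δ := by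
      obtain ⟨B, hB⟩ := hL.isBounded.exists_norm_le
      obtain ⟨m, hm, hmL⟩ : ∃ m : ℝ, 0 < m ∧ ∀ z ∈ L, m ≤ z.im := by
        rcases L.eq_empty_or_nonempty with rfl | hne
        · exact ⟨1, one_pos, by simp⟩
        · obtain ⟨z0, hz0, hz0'⟩ := hL.exists_isMinOn hne Complex.continuous_im.continuousOn
          exact ⟨z0.im, hLs hz0, fun z hz => hz0' hz⟩
      obtain ⟨j, hj⟩ := exists_nat_ge (max B (max (1 / m) (1 / δ)))
      have h1 : B ≤ j := (le_max_left _ _).trans hj
      have h2 : 1 / m ≤ j := ((le_max_left _ _).trans (le_max_right _ _)).trans hj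
      have h3 : 1 / δ ≤ j := ((le_max_right _ _).trans (le_max_right _ _)).trans hj
      refine ⟨j, fun z hz => ?_, ?_⟩
      · rw [hKdef]
        refine ⟨by rw [mem_closedBall_zero_iff]; linarith [hB z hz], ?_⟩
        refine le_trans ?_ (hmL z hz)
        rw [div_le_iff₀ (by positivity)]
        rw [div_le_iff₀ hm] at h2
        nlinarith
      · rw [div_le_iff₀ (by positivity)]
        rw [div_le_iff₀ hδ] at h3
        nlinarith
    refine ⟨R j, zero_lt_one.trans_le (hR1 j), ?_⟩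
    have hH : IsOpen H0 := isOpen_lt continuous_const Complex.continuous_im
    obtain ⟨r0, hr0, hr0'⟩ := (hKc j).exists_cthickening_subset_open hH (hKs j)
    have h1 : Tendsto (fun i => R j / T i) atTop (𝓝 0) := hTt.const_div_atTop _
    filter_upwards [h1.eventually (gt_mem_nhds hr0), eventually_gt_atTop j] with i hi hij
    refine le_trans (xx2_mono hη (hform i).smooth.continuousOn hL (hKc j) hLj
      (div_pos (zero_lt_one.trans_le (hR1 j)) (hT0p i))
      ((Metric.cthickening_mono hi.le _).trans hr0')) ?_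
    exact ((hgood i j hij).1).trans hjδ
  · intro κ hκ
    obtain ⟨j, hj⟩ := exists_nat_ge (1 / κ)
    refine ⟨Y j, ?_⟩
    filter_upwards [eventually_gt_atTop j] with i hij
    refine ((hgood i j hij).2).trans ?_
    rw [div_le_iff₀ (by positivity)]
    rw [div_le_iff₀ hκ] at hj
    nlinarith

end Pool.Agent.A54.Av
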