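import Mathlib

/-!
The first four moments of the Gaussian distribution.
-/

set_option autoImplicit false

namespace Pool.Agent.A54.Av

open MeasureTheory Filter Topology Set

noncomputable section

/-- `C_n`, the `n`-th moment of a standard real Gaussian -/
def Cgau (n : ℕ) : ℝ := 1 / √(2 * Real.pi) * ∫ x : ℝ, x ^ n * Real.exp (-x ^ 2 / 2)

namespace GmM

lemma odd {n : ℕ} (hn : Odd n) : Cgau n = 0 := by
  have h := integral_neg_eq_self (fun x : ℝ => x ^ n * Real.exp (-x ^ 2 / 2)) volume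
  have h2 : ∫ x : ℝ, (-x) ^ n * Real.exp (-(-x) ^ 2 / 2) =
      -∫ x : ℝ, x ^ n * Real.exp (-x ^ 2 / 2) := by
    rw [← integral_neg]
    apply integral_congr_ae
    refine Eventually.of_forall fun x => ?_
    simp only [hn.neg_pow, neg_sq, neg_mul]
  rw [h2] at h
  unfold Cgau
  have h3 : ∫ x : ℝ, x ^ n * Real.exp (-x ^ 2 / 2) = 0 := by linarith
  rw [h3, mul_zero]

lemma even {n : ℕ} (hn : Even n) :
    Cgau n = 1 / √(2 * Real.pi) *
      ((1 / 2 : ℝ) ^ (-((n : ℝ) + 1) / 2) * Real.Gamma (((n : ℝ) + 1) / 2)) := by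
  unfold Cgau
  congr 1
  have h1 : ∫ x : ℝ, x ^ n * Real.exp (-x ^ 2 / 2) =
      ∫ x : ℝ, (fun y : ℝ => y ^ n * Real.exp (-y ^ 2 / 2)) |x| := by
    apply integral_congr_ae
    refine Eventually.of_forall fun x => ?_
    simp only [sq_abs, hn.pow_abs]
  rw [h1, integral_comp_abs (f := fun y : ℝ => y ^ n * Real.exp (-y ^ 2 / 2))]
  have h2 := integral_rpow_mul_exp_neg_mul_rpow (p := 2) (q := n) (b := 1 / 2) two_pos
    (by have := Nat.cast_nonneg (α := ℝ) n; linarith) (by norm_num)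
  have h3 : ∫ x in Ioi (0 : ℝ), x ^ n * Real.exp (-x ^ 2 / 2) =
      ∫ x in Ioi (0 : ℝ), x ^ (n : ℝ) * Real.exp (-(1 / 2) * x ^ (2 : ℝ)) := by
    apply setIntegral_congr_fun measurableSet_Ioi
    intro x _
    simp only
    rw [Real.rpow_natCast, Real.rpow_two]
    congr 2
    ring
  rw [h3, h2]
  ring

lemma two : Cgau 2 = 1 := by
  rw [even ⟨1, rfl⟩]
  have h1 : Real.Gamma ((((2 : ℕ) : ℝ) + 1) / 2) = √Real.pi / 2 := by
    have e : (((2 : ℕ) : ℝ) + 1) / 2 = 1 / 2 + 1 := by norm_num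
    rw [e, Real.Gamma_add_one (by norm_num), Real.Gamma_one_half_eq]
    ring
  have h2 : (1 / 2 : ℝ) ^ (-(((2 : ℕ) : ℝ) + 1) / 2) = 2 * √2 := by
    have e : -(((2 : ℕ) : ℝ) + 1) / 2 = -(1 + 1 / 2) := by norm_num
    rw [e, Real.rpow_neg (by norm_num), Real.rpow_add (by norm_num), Real.rpow_one,
      ← Real.sqrt_eq_rpow, one_div, Real.sqrt_inv]
    field_simp
  rw [h1, h2, Real.sqrt_mul (by norm_num)]
  have := Real.sqrt_pos.mpr Real.pi_pos
  field_simp

lemma four : Cgau 4 = 3 := by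
  rw [even ⟨2, rfl⟩]
  have h1 : Real.Gamma ((((4 : ℕ) : ℝ) + 1) / 2) = 3 * √Real.pi / 4 := by
    have e : (((4 : ℕ) : ℝ) + 1) / 2 = (1 / 2 + 1) + 1 := by norm_num
    rw [e, Real.Gamma_add_one (by norm_num), Real.Gamma_add_one (by norm_num),
      Real.Gamma_one_half_eq]
    ring
  have h2 : (1 / 2 : ℝ) ^ (-(((4 : ℕ) : ℝ) + 1) / 2) = 4 * √2 := by
    have e : -(((4 : ℕ) : ℝ) + 1) / 2 = -(2 + 1 / 2) := by norm_num
    rw [e, Real.rpow_neg (by norm_num), Real.rpow_add (by norm_num), Real.rpow_two,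
      ← Real.sqrt_eq_rpow, one_div, Real.sqrt_inv]
    field_simp
    norm_num
  rw [h1, h2, Real.sqrt_mul (by norm_num)]
  have := Real.sqrt_pos.mpr Real.pi_pos
  field_simp

end GmM

end

end Pool.Agent.A54.Av
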