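import Pool.Agent.Lib.MP_a54f13_nt.Dyn.Main

/-!
The first moment, for all forms.
-/

set_option autoImplicit false

namespace Pool.Agent.A54.Av

open MeasureTheory Filter Topology Set
open scoped ContDiff ComplexConjugate UpperHalfPlane MatrixGroups ENNReal
open Pool.Agent.A54.Half (H0 qq ff hh)

noncomputable section

namespace OneM

/-- the first moment on the half-plane -/
lemma half {f : ℕ → ℍ → ℝ} {t : ℕ → ℝ} (hf : ∀ i, IsHeckeMaass (f i) (t i))
    (ht : Tendsto t atTop atTop) {φ : ℂ → ℝ} (hφ : TestR H0 φ) :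
    Tendsto (fun i => ∫ z : ℍ, φ z * f i z) atTop (𝓝 0) := by
  obtain ⟨χ, V, hχ, h01, hV, hVH, h1, hsub⟩ := Half.setup hφ
  have hφV : TestR V φ := ⟨hφ.smooth, hφ.cpt, hsub⟩
  obtain ⟨N, hN⟩ := Half.exists_N ht
  -- the cutoff `ζ` on `V`
  obtain ⟨ζ, hζ, hζ01, hζ1⟩ := exists_cutoff hφ.cpt.isCompact hV hsub
  have hζ1' : ∀ z ∈ tsupport φ, ζ z = 1 := fun z hz => hζ1.self_of_nhdsSet z hz
  obtain ⟨C, hC⟩ := Dyn.pLB.2.2 χ V hχ hV hVH h1 f t hf ζ hζ
  set Φ : ℂ → ℂ := fun z => (φ z : ℂ) with hΦ
  have hΦt : Test V Φ := hφV.toTest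
  set D : ℂ → ℂ := dz (dzb Φ) with hD
  have hDt : Test V D := hΦt.dzb.dz
  have hDsub : tsupport D ⊆ tsupport φ := by
    refine tsupport_dz.trans (tsupport_dzb.trans ?_)
    exact tsupport_comp_subset (g := fun x : ℝ => (x : ℂ)) (by simp) φ
  set B : ℝ := ∫ z, ‖D z‖ ^ 2 with hB
  have hDint : Integrable fun z => ‖D z‖ ^ 2 := by
    apply (hDt.smooth.continuous.norm.pow 2).integrable_of_hasCompactSupport
    exact (hDt.cpt.norm).comp_left (g := fun x : ℝ => x ^ 2) (by simp)
  -- the key estimate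
  have key : ∀ i, N ≤ i → |∫ z : ℍ, φ z * f i z| ≤ hh (t i) ^ 2 * (B + C) := by
    intro i hi
    have hs := Half.sol stmtLap hχ hV hVH h1 (hf i) (hN i hi)
    set F : ℂ → ℝ := ff χ (f i) with hF
    have hFs : ContDiff ℝ ∞ F := Half.ff_smooth hχ (hf i).smooth
    set FC : ℂ → ℂ := fun z => (F z : ℂ) with hFC
    have hFCs : ContDiff ℝ ∞ FC := contDiff_ofReal hFs
    have e1 : ∫ z : ℍ, φ z * f i z = ∫ z : ℂ, (φ z * (z.im)⁻¹ ^ 2) * F z := by
      have := Half.int_eq stmtInt hVH h1 hφV (f i) 1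
      simpa only [pow_one] using this
    have e2 : ((∫ z : ℂ, (φ z * (z.im)⁻¹ ^ 2) * F z : ℝ) : ℂ) =
        -((hh (t i) : ℂ) ^ 2 * ∫ z, D z * FC z) := by
      rw [← integral_complex_ofReal]
      have e3 : ∀ z : ℂ, (((φ z * (z.im)⁻¹ ^ 2) * F z : ℝ) : ℂ) =
          -((hh (t i) : ℂ) ^ 2 * (Φ z * dzb (dz FC) z)) := by
        intro z
        by_cases hz : z ∈ V
        · have h4 := hs.eq z hz
          have h5 : gg (hh (t i)) F 1 = fun w => (hh (t i) : ℂ) * dz FC w := rfl
          rw [h5, dzb_const_mul _ (contDiff_dz hFCs)] at h4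
          have h6 : qq χ z = (z.im)⁻¹ ^ 2 := by
            unfold qq
            rw [h1 z hz]
            ring
          rw [h6] at h4
          push_cast at h4 ⊢
          have h7 : (hh (t i) : ℂ) ^ 2 * (Φ z * dzb (dz FC) z) =
              Φ z * ((hh (t i) : ℂ) * ((hh (t i) : ℂ) * dzb (dz FC) z)) := by ring
          rw [h7, h4]
          simp only [hΦ]
          ring
        · have h8 : φ z = 0 := hφV.eq_zero hz
          simp [hΦ, h8]
      rw [integral_congr_ae (Eventually.of_forall e3), integral_neg, integral_const_mul]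
      congr 2
      rw [integral_mul_dzb hΦt.smooth (contDiff_dz hFCs) (Or.inl hΦt.cpt)]
      rw [integral_mul_dz hΦt.dzb.smooth hFCs (Or.inl hΦt.dzb.cpt)]
      rw [neg_neg]
    have e4 : |∫ z : ℍ, φ z * f i z| = ‖((∫ z : ℂ, (φ z * (z.im)⁻¹ ^ 2) * F z : ℝ) : ℂ)‖ := by
      rw [e1, Complex.norm_real, Real.norm_eq_abs]
    rw [e4, e2, norm_neg, norm_mul]
    have hpos : 0 ≤ hh (t i) := (Half.hh_pos _).le
    rw [norm_pow, Complex.norm_real, Real.norm_eq_abs, abs_of_nonneg hpos]
    apply mul_le_mul_of_nonneg_left _ (by positivity)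
    have hζint : Integrable fun z => ζ z ^ 2 * F z ^ 2 := by
      have hc : Continuous fun z => ζ z ^ 2 * F z ^ 2 :=
        (hζ.smooth.continuous.pow 2).mul (hFs.continuous.pow 2)
      apply hc.integrable_of_hasCompactSupport
      exact (hζ.cpt.comp_left (g := fun x : ℝ => x ^ 2) (by simp)).mul_right
    calc ‖∫ z, D z * FC z‖ ≤ ∫ z, ‖D z * FC z‖ := norm_integral_le_integral_norm _
      _ ≤ ∫ z, (‖D z‖ ^ 2 + ζ z ^ 2 * F z ^ 2) := by
          apply integral_mono_of_nonneg (Eventually.of_forall fun z => norm_nonneg _)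
            (hDint.add hζint)
          refine Eventually.of_forall fun z => ?_
          show ‖D z * FC z‖ ≤ ‖D z‖ ^ 2 + ζ z ^ 2 * F z ^ 2
          rw [norm_mul]
          by_cases hz : z ∈ tsupport φ
          · rw [hζ1' z hz, one_pow, one_mul]
            have h9 : ‖FC z‖ = |F z| := by
              rw [hFC, Complex.norm_real, Real.norm_eq_abs]
            rw [h9, ← sq_abs (F z)]
            nlinarith [sq_nonneg (‖D z‖ - |F z|), norm_nonneg (D z), abs_nonneg (F z),
              mul_nonneg (norm_nonneg (D z)) (abs_nonneg (F z))]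
          · have h10 : D z = 0 := image_eq_zero_of_notMem_tsupport fun h => hz (hDsub h)
            rw [h10, norm_zero, zero_mul]
            positivity
      _ = B + ∫ z, ζ z ^ 2 * F z ^ 2 := integral_add hDint hζint
      _ ≤ B + C := by
          have := hC i
          linarith
  have hlim : Tendsto (fun i => hh (t i) ^ 2 * (B + C)) atTop (𝓝 0) := by
    have := ((Half.hh_lim ht).pow 2).mul_const (B + C)
    simpa using this
  rw [tendsto_zero_iff_abs_tendsto_zero]
  refine squeeze_zero' (Eventually.of_forall fun i => abs_nonneg _) ?_ hlim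
  exact eventually_atTop.mpr ⟨N, key⟩

end OneM

/-- the case `n = 1` of the conjecture -/
theorem first_moment {f : ℕ → ℍ → ℝ} {t : ℕ → ℝ} (hf : ∀ i, IsHeckeMaass (f i) (t i))
    (ht : Tendsto t atTop atTop) (ψ : ℍ → ℝ) (hψ : TestX ψ) :
    Tendsto (fun i => ∫ z in ModularGroup.fdo, ψ z * f i z) atTop (𝓝 0) := by
  obtain ⟨Y, hY⟩ := hψ.cusp
  have hψc : Continuous ψ := X.continuous_of_ext hψ.smooth
  have hψi : IntegrableOn (fun z => |ψ z|) ModularGroup.fdo :=
    X.integrableOn_fdo hψc.abs (fun z hz h => by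
      rw [hY z (ModularGroup.fdo_subset_fd hz) h, abs_zero])
  obtain ⟨M, hM⟩ := (ModularGroup.isCompact_truncatedFundamentalDomain Y).exists_bound_of_continuousOn
    hψc.continuousOn
  have hfc : ∀ i, Continuous (f i) := fun i => X.continuous_of_ext (hf i).smooth
  set M' : ℝ := max M 0 with hM'
  have hM0 : 0 ≤ M' := le_max_right _ _
  have hψM : ∀ z ∈ ModularGroup.fdo, |ψ z| ≤ M' := by
    intro z hz
    by_cases h : Y < z.im
    · rw [hY z (ModularGroup.fdo_subset_fd hz) h, abs_zero]; exact hM0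
    · exact (hM z (X.fdo_inter_sub Y ⟨hz, not_lt.mp h⟩)).trans (le_max_left _ _)
  have h2i : ∀ i, IntegrableOn (fun z => |ψ z| * f i z ^ 2) ModularGroup.fdo := fun i =>
    X.integrableOn_fdo (hψc.abs.mul ((hfc i).pow 2)) (fun z hz h => by
      rw [hY z (ModularGroup.fdo_subset_fd hz) h, abs_zero, zero_mul])
  have hfi : ∀ i, IntegrableOn (fun z => f i z ^ 2) ModularGroup.fdo := by
    intro i
    by_contra hno
    have h3 := (hf i).normalised
    rw [integral_undef hno] at h3
    have := Real.pi_pos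
    linarith
  have h2 : ∀ i, ∫ z in ModularGroup.fdo, |ψ z| * f i z ^ 2 ≤ M' * (Real.pi / 3) := by
    intro i
    rw [← (hf i).normalised, ← integral_const_mul]
    apply setIntegral_mono_on (h2i i) ((hfi i).const_mul M') X.measurableSet_fdo
    intro z hz
    exact mul_le_mul_of_nonneg_right (hψM z hz) (sq_nonneg _)
  rw [Metric.tendsto_nhds]
  intro ε hε
  set B : ℝ := M' * (Real.pi / 3) + 1 with hB
  have hB0 : 0 < B := by
    have := Real.pi_pos
    positivity
  set δ : ℝ := ε / 4 / B with hδ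
  have hδ0 : 0 < δ := by positivity
  obtain ⟨K, hK, hKO, hKi⟩ := X.exists_compact (fun z => |ψ z|) hψi (ε := ε / 4 * δ) (by positivity)
  obtain ⟨χ, hχ, hχ1, hχK⟩ := exists_cutoff hK X.isOpen_O hKO
  have hχK' : ∀ z ∈ K, χ z = 1 := fun z hz => hχK.self_of_nhdsSet z hz
  have hχc : Continuous (fun z : ℍ => χ z) := hχ.smooth.continuous.comp UpperHalfPlane.continuous_coe
  have hφ := X.testR_cut hψ.smooth hχ
  have hmain := OneM.half hf ht hφ
  rw [Metric.tendsto_nhds] at hmain
  have herr : ∫ z in ModularGroup.fdo, (1 - χ z) * |ψ z| ≤ ε / 4 * δ :=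
    (X.cut_error hK hχ1 hχK' hχ.smooth.continuous hψi (fun z => abs_nonneg _)).trans hKi.le
  filter_upwards [hmain (ε / 4) (by positivity)] with i hi
  rw [Real.dist_eq, sub_zero] at hi ⊢
  rw [X.integral_cut hχ ψ (fun z => f i z)] at hi
  have i1 : IntegrableOn (fun z : ℍ => χ z * ψ z * f i z) ModularGroup.fdo :=
    X.integrableOn_fdo ((hχc.mul hψc).mul (hfc i)) (fun z hz h => by
      rw [hY z (ModularGroup.fdo_subset_fd hz) h]; ring)
  have i2 : IntegrableOn (fun z : ℍ => (1 - χ z) * ψ z * f i z) ModularGroup.fdo :=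
    X.integrableOn_fdo (((continuous_const.sub hχc).mul hψc).mul (hfc i)) (fun z hz h => by
      rw [hY z (ModularGroup.fdo_subset_fd hz) h]; ring)
  have hsplit : ∫ z in ModularGroup.fdo, ψ z * f i z =
      (∫ z in ModularGroup.fdo, χ z * ψ z * f i z) +
        ∫ z in ModularGroup.fdo, (1 - χ z) * ψ z * f i z := by
    rw [← integral_add i1 i2]
    congr 1
    funext z; ring
  have i4 : IntegrableOn (fun z : ℍ => (1 - χ z) * |ψ z|) ModularGroup.fdo :=
    X.integrableOn_fdo ((continuous_const.sub hχc).mul hψc.abs) (fun z hz h => by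
      rw [hY z (ModularGroup.fdo_subset_fd hz) h]; simp)
  have i3 : IntegrableOn (fun z : ℍ => δ * (|ψ z| * f i z ^ 2) + 1 / δ * ((1 - χ z) * |ψ z|))
      ModularGroup.fdo := ((h2i i).const_mul δ).add (i4.const_mul _)
  have hsmall : |∫ z in ModularGroup.fdo, (1 - χ z) * ψ z * f i z| ≤ ε / 2 := by
    calc |∫ z in ModularGroup.fdo, (1 - χ z) * ψ z * f i z|
        ≤ ∫ z in ModularGroup.fdo, |(1 - χ z) * ψ z * f i z| := abs_integral_le_integral_abs
      _ ≤ ∫ z in ModularGroup.fdo, (δ * (|ψ z| * f i z ^ 2) + 1 / δ * ((1 - χ z) * |ψ z|)) := by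
          apply integral_mono i2.abs i3
          intro z
          simp only
          have c1 : 0 ≤ 1 - χ z := by linarith [(hχ1 z).2]
          have c2 : 1 - χ z ≤ 1 := by linarith [(hχ1 z).1]
          have c3 : |f i z| ≤ δ * f i z ^ 2 + 1 / δ := by
            rw [← sq_abs (f i z)]
            have hx := abs_nonneg (f i z)
            have h5 : 0 < 1 / δ := by positivity
            rcases le_total (|f i z|) (1 / δ) with h | h
            · have : 0 ≤ δ * |f i z| ^ 2 := by positivity
              linarith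
            · have h6 : 1 ≤ δ * |f i z| := by
                have := mul_le_mul_of_nonneg_left h hδ0.le
                rwa [mul_one_div_cancel hδ0.ne'] at this
              have : |f i z| * 1 ≤ |f i z| * (δ * |f i z|) := mul_le_mul_of_nonneg_left h6 hx
              nlinarith
          have c4 : |(1 - χ z) * ψ z * f i z| = (1 - χ z) * |ψ z| * |f i z| := by
            rw [abs_mul, abs_mul, abs_of_nonneg c1]
          rw [c4]
          have c5 : 0 ≤ |ψ z| := abs_nonneg _
          have c7 : 0 ≤ (1 - χ z) * |ψ z| := mul_nonneg c1 c5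
          calc (1 - χ z) * |ψ z| * |f i z|
              ≤ (1 - χ z) * |ψ z| * (δ * f i z ^ 2 + 1 / δ) := mul_le_mul_of_nonneg_left c3 c7
            _ = (1 - χ z) * (δ * (|ψ z| * f i z ^ 2)) + 1 / δ * ((1 - χ z) * |ψ z|) := by ring
            _ ≤ 1 * (δ * (|ψ z| * f i z ^ 2)) + 1 / δ * ((1 - χ z) * |ψ z|) := by
                have : 0 ≤ δ * (|ψ z| * f i z ^ 2) := by positivity
                have := mul_le_mul_of_nonneg_right c2 this
                linarith
            _ = _ := by ring
      _ = δ * (∫ z in ModularGroup.fdo, |ψ z| * f i z ^ 2) +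
            1 / δ * ∫ z in ModularGroup.fdo, (1 - χ z) * |ψ z| := by
          rw [integral_add ((h2i i).const_mul δ) (i4.const_mul _), integral_const_mul,
            integral_const_mul]
      _ ≤ δ * B + 1 / δ * (ε / 4 * δ) := by
          have d0 : ∫ z in ModularGroup.fdo, |ψ z| * f i z ^ 2 ≤ B := by
            have := h2 i
            linarith
          have d1 : δ * (∫ z in ModularGroup.fdo, |ψ z| * f i z ^ 2) ≤ δ * B :=
            mul_le_mul_of_nonneg_left d0 hδ0.le
          have d2 : 1 / δ * (∫ z in ModularGroup.fdo, (1 - χ z) * |ψ z|) ≤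
            1 / δ * (ε / 4 * δ) := mul_le_mul_of_nonneg_left herr (by positivity)
          linarith
      _ = ε / 2 := by
          have e1 : δ * B = ε / 4 := by rw [hδ]; field_simp
          have e2 : 1 / δ * (ε / 4 * δ) = ε / 4 := by field_simp
          rw [e1, e2]; ring
  rw [hsplit]
  calc _ ≤ |∫ z in ModularGroup.fdo, χ z * ψ z * f i z| +
        |∫ z in ModularGroup.fdo, (1 - χ z) * ψ z * f i z| := abs_add_le _ _
    _ < ε := by linarith

end

end Pool.Agent.A54.Av
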