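import Pool.Agent.Lib.MP_a54f13_nt.Av.SpecN
import Pool.Agent.Lib.MP_a54f13_nt.Dyn.Main
import Pool.Agent.Lib.MP_a54f13_nt.Pl.U1
import Pool.Agent.Lib.MP_a54f13_nt.Av.One
import Pool.Agent.Lib.MP_a54f13_nt.Av.Gm

/-!
The first four moments for almost all forms, from the second and fourth moments for almost all
forms.
-/

set_option autoImplicit false

namespace Pool.Agent.A54.Av

open MeasureTheory Filter Topology Set
open scoped ContDiff ComplexConjugate UpperHalfPlane MatrixGroups ENNReal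
open Pool.Agent.A54.Half (H0 qq ff hh)

noncomputable section

/-- the exceptional forms for `n = 3` -/
def BadC (ψ : ℍ → ℝ) (ε T : ℝ) (f : ℍ → ℝ) : Prop :=
  (∃ t : ℝ, IsHeckeMaass f t ∧ T < t ∧ t ≤ 2 * T) ∧
  ε < |∫ z in ModularGroup.fdo, ψ z * f z ^ 3|

namespace Fin3M

/-- a test function on `X` which controls the integrals over a compact set -/
lemma control (K : Set ℍ) (hK : IsCompact K) : ∃ ψ : ℍ → ℝ, TestX ψ ∧
    ∀ (f : ℍ → ℝ) (t : ℝ), IsHeckeMaass f t →
      ∫ z in K, f z ^ 4 ≤ ∫ z in ModularGroup.fdo, ψ z * f z ^ 4 := by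
  have hK' : IsCompact (UpperHalfPlane.coe '' K) := hK.image UpperHalfPlane.continuous_coe
  have hKs : UpperHalfPlane.coe '' K ⊆ H0 := by
    rintro _ ⟨z, _, rfl⟩
    exact z.im_pos
  obtain ⟨φ, hφ, hφ01, hφ1⟩ := exists_cutoff hK'
    (isOpen_lt continuous_const Complex.continuous_im) hKs
  obtain ⟨ψ, hψ, hid⟩ := Pl.stmtU1 φ hφ
  refine ⟨ψ, hψ, fun f t hf => ?_⟩
  have hfc : Continuous f := X.continuous_of_ext hf.smooth
  rw [← hid (fun z => f z ^ 4) (hfc.pow 4) (fun γ z => by rw [hf.invariant])]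
  have hint : Integrable fun w : ℍ => φ w * f w ^ 4 := by
    have hc : Continuous fun w : ℍ => φ w * f w ^ 4 :=
      (hφ.smooth.continuous.comp UpperHalfPlane.continuous_coe).mul (hfc.pow 4)
    apply hc.integrable_of_hasCompactSupport
    apply HasCompactSupport.intro (Half2.isCompact_pre hφ.cpt.isCompact hφ.sub)
    intro z hz
    rw [image_eq_zero_of_notMem_tsupport (fun h => hz h), zero_mul]
  have h0 : ∀ z : ℍ, 0 ≤ f z ^ 4 := fun z => Even.pow_nonneg ⟨2, rfl⟩ _
  calc ∫ z in K, f z ^ 4 = ∫ z in K, φ z * f z ^ 4 := by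
        apply setIntegral_congr_fun hK.measurableSet
        intro z hz
        have : φ (z : ℂ) = 1 := hφ1.self_of_nhdsSet _ ⟨z, hz, rfl⟩
        simp [this]
    _ ≤ ∫ z : ℍ, φ z * f z ^ 4 := by
        apply setIntegral_le_integral hint
        exact Eventually.of_forall fun z => mul_nonneg (hφ01 _).1 (h0 z)

/-- the third moment for almost all forms -/
lemma cube (h2 : StmtMain2) : ∀ ψ : ℍ → ℝ, TestX ψ → ∀ ε : ℝ, 0 < ε → ∃ T0 : ℝ, ∀ T : ℝ,
    T0 ≤ T → ∀ S : Finset (ℍ → ℝ), (∀ f ∈ S, BadC ψ ε T f) → (S.card : ℝ) ≤ ε * T ^ 2 := by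
  classical
  intro ψ hψ ε hε
  by_contra hcon
  push Not at hcon
  -- the bad sets
  choose T hT S hS hcard using fun m : ℕ => hcon ((m : ℝ) + 1)
  have hTlim : Tendsto T atTop atTop := by
    apply tendsto_atTop_mono hT
    exact tendsto_atTop_add_const_right _ _ tendsto_natCast_atTop_atTop
  have hTpos : ∀ m, 0 < T m := fun m => lt_of_lt_of_le (by positivity) (hT m)
  -- a compact exhaustion
  obtain ⟨Ks⟩ : Nonempty (CompactExhaustion ℍ) := ⟨default⟩
  choose ψj hψj hctl using fun j : ℕ => control (Ks j) (Ks.isCompact j)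
  -- the parameters
  set εj : ℕ → ℝ := fun j => min 1 (ε / 2 * (1 / 2) ^ (j + 1)) with hεj
  have hεjpos : ∀ j, 0 < εj j := fun j => lt_min one_pos (by positivity)
  choose T0 hT0 using fun j : ℕ => h2 (ψj j) (hψj j) (εj j) (hεjpos j)
  -- the conditions at stage m
  set A : ℕ → Finset ℕ := fun m => (Finset.range m).filter fun j => T0 j ≤ T m with hA
  have hex : ∀ m, ∃ f ∈ S m, ∀ j ∈ A m, ¬ Bad2 (ψj j) (εj j) (T m) f := by
    intro m
    by_contra hno
    push Not at hno
    have hsub : S m ⊆ (A m).biUnion fun j => (S m).filter fun f => Bad2 (ψj j) (εj j) (T m) f := by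
      intro f hf
      obtain ⟨j, hj, hb⟩ := hno f hf
      exact Finset.mem_biUnion.mpr ⟨j, hj, Finset.mem_filter.mpr ⟨hf, hb⟩⟩
    have h1 : ((S m).card : ℝ) ≤ ∑ j ∈ A m, εj j * T m ^ 2 := by
      have h3 : (S m).card ≤ ∑ j ∈ A m, ((S m).filter fun f => Bad2 (ψj j) (εj j) (T m) f).card :=
        (Finset.card_le_card hsub).trans Finset.card_biUnion_le
      have h4 : ((S m).card : ℝ) ≤
          ∑ j ∈ A m, (((S m).filter fun f => Bad2 (ψj j) (εj j) (T m) f).card : ℝ) := by
        exact_mod_cast h3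
      refine h4.trans (Finset.sum_le_sum fun j hj => ?_)
      exact hT0 j (T m) (Finset.mem_filter.mp hj).2 _ fun f hf => (Finset.mem_filter.mp hf).2
    have h5 : ∑ j ∈ A m, εj j * T m ^ 2 ≤ ε * T m ^ 2 := by
      rw [← Finset.sum_mul]
      apply mul_le_mul_of_nonneg_right _ (sq_nonneg _)
      calc ∑ j ∈ A m, εj j ≤ ∑ j ∈ Finset.range m, εj j :=
            Finset.sum_le_sum_of_subset_of_nonneg (Finset.filter_subset _ _)
              fun j _ _ => (hεjpos j).le
        _ ≤ ∑ j ∈ Finset.range m, ε / 2 * (1 / 2) ^ j := by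
            refine Finset.sum_le_sum fun j _ => (min_le_right _ _).trans ?_
            apply mul_le_mul_of_nonneg_left _ (by positivity)
            exact pow_le_pow_of_le_one (by norm_num) (by norm_num) (Nat.le_succ j)
        _ = ε / 2 * ∑ j ∈ Finset.range m, (1 / 2 : ℝ) ^ j := by rw [Finset.mul_sum]
        _ ≤ ε / 2 * 2 := by
            apply mul_le_mul_of_nonneg_left _ (by positivity)
            exact sum_geometric_two_le m
        _ = ε := by ring
    linarith [hcard m]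
  choose f hfS hf using hex
  -- the spectral parameters
  choose t ht using fun m : ℕ => (hS m (f m) (hfS m)).1
  have htlim : Tendsto t atTop atTop := tendsto_atTop_mono (fun m => (ht m).2.1.le) hTlim
  have hbad : ∀ m, ε < |∫ z in ModularGroup.fdo, ψ z * f m z ^ 3| := fun m =>
    (hS m (f m) (hfS m)).2
  -- local bounds for the fourth moments
  have hB : ∀ K : Set ℍ, IsCompact K → ∃ C : ℝ, ∀ m, ∫ z in K, f m z ^ 4 ≤ C := by
    intro K hK
    obtain ⟨j, hj⟩ := Ks.exists_superset_of_isCompact hK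
    have hev : ∀ᶠ m in atTop, ∫ z in K, f m z ^ 4 ≤
        3 * (∫ z in ModularGroup.fdo, ψj j z) + 1 := by
      filter_upwards [eventually_gt_atTop j, hTlim.eventually_ge_atTop (T0 j)] with m hm hm2
      have hjA : j ∈ A m := Finset.mem_filter.mpr ⟨Finset.mem_range.mpr hm, hm2⟩
      have hnb := hf m j hjA
      have hfc : Continuous (f m) := X.continuous_of_ext (ht m).1.smooth
      have h3 : |(∫ z in ModularGroup.fdo, ψj j z * f m z ^ 4) -
          3 * ∫ z in ModularGroup.fdo, ψj j z| ≤ εj j := by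
        by_contra hlt
        exact hnb ⟨⟨t m, ht m⟩, Or.inr (not_le.mp hlt)⟩
      have h4 := (abs_le.mp h3).2
      have h5 : εj j ≤ 1 := min_le_left _ _
      have h6 := hctl j (f m) (t m) (ht m).1
      have h7 : ∫ z in K, f m z ^ 4 ≤ ∫ z in Ks j, f m z ^ 4 := by
        apply setIntegral_mono_set
        · exact ((hfc.pow 4).continuousOn.integrableOn_compact (Ks.isCompact j))
        · exact Eventually.of_forall fun z => Even.pow_nonneg ⟨2, rfl⟩ _
        · exact LE.le.eventuallyLE hj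
      linarith
    obtain ⟨M, hM⟩ := eventually_atTop.mp hev
    refine ⟨max (3 * (∫ z in ModularGroup.fdo, ψj j z) + 1)
      (∑ m ∈ Finset.range M, |∫ z in K, f m z ^ 4|), fun m => ?_⟩
    rcases le_or_gt M m with h | h
    · exact (hM m h).trans (le_max_left _ _)
    · refine le_trans ?_ (le_max_right _ _)
      refine (le_abs_self _).trans ?_
      exact Finset.single_le_sum (f := fun m => |∫ z in K, f m z ^ 4|)
        (fun i _ => abs_nonneg _) (Finset.mem_range.mpr h)
  have hlim := Dyn.finalCube (fun m => (ht m).1) htlim hB ψ hψ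
  have hlim2 := hlim.abs
  rw [abs_zero] at hlim2
  have := ge_of_tendsto hlim2 (Eventually.of_forall fun m => (hbad m).le)
  linarith

end Fin3M

/-- the first moment, uniformly -/
lemma Fin3M.one : ∀ ψ : ℍ → ℝ, TestX ψ → ∀ ε : ℝ, 0 < ε → ∃ T0 : ℝ, ∀ T : ℝ, T0 ≤ T →
    ∀ (f : ℍ → ℝ) (t : ℝ), IsHeckeMaass f t → T < t →
      |∫ z in ModularGroup.fdo, ψ z * f z| ≤ ε := by
  intro ψ hψ ε hε
  by_contra hcon
  push Not at hcon
  choose T hT f t hf hTt hbad using fun m : ℕ => hcon (m : ℝ)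
  have htlim : Tendsto t atTop atTop :=
    tendsto_atTop_mono (fun m => ((hT m).trans_lt (hTt m)).le) tendsto_natCast_atTop_atTop
  have hlim := (first_moment hf htlim ψ hψ).abs
  rw [abs_zero] at hlim
  have := ge_of_tendsto hlim (Eventually.of_forall fun m => (hbad m).le)
  linarith

/-- the first four moments for almost all forms -/
theorem stmtFin3 (h2 : StmtMain2) : ∀ ψ : ℍ → ℝ, TestX ψ → ∀ ε : ℝ, 0 < ε → ∃ T0 : ℝ, ∀ T : ℝ,
    T0 ≤ T → ∀ S : Finset (ℍ → ℝ),
      (∀ f ∈ S, (∃ t : ℝ, IsHeckeMaass f t ∧ T < t ∧ t ≤ 2 * T) ∧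
        ∃ n : ℕ, 1 ≤ n ∧ n ≤ 4 ∧ ε < |(∫ z in ModularGroup.fdo, ψ z * f z ^ n) -
          1 / √(2 * Real.pi) * (∫ x : ℝ, x ^ n * Real.exp (-x ^ 2 / 2)) *
            ∫ z in ModularGroup.fdo, ψ z|) →
      (S.card : ℝ) ≤ ε * T ^ 2 := by
  classical
  intro ψ hψ ε hε
  obtain ⟨T1, hT1⟩ := h2 ψ hψ (ε / 2) (by positivity)
  obtain ⟨T2, hT2⟩ := Fin3M.cube h2 ψ hψ (ε / 2) (by positivity)
  obtain ⟨T3, hT3⟩ := Fin3M.one ψ hψ ε hε
  refine ⟨max (max T1 T2) T3, fun T hT S hS => ?_⟩
  have hT12 : max T1 T2 ≤ T := (le_max_left _ _).trans hT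
  have h3 := hT1 T ((le_max_left _ _).trans hT12) (S.filter fun f => Bad2 ψ (ε / 2) T f)
    fun f hf => (Finset.mem_filter.mp hf).2
  have h4 := hT2 T ((le_max_right _ _).trans hT12) (S.filter fun f => BadC ψ (ε / 2) T f)
    fun f hf => (Finset.mem_filter.mp hf).2
  have hsub : S ⊆ (S.filter fun f => Bad2 ψ (ε / 2) T f) ∪ S.filter fun f => BadC ψ (ε / 2) T f := by
    intro f hf
    obtain ⟨ht, n, hn1, hn4, h⟩ := hS f hf
    have hC : 1 / √(2 * Real.pi) * (∫ x : ℝ, x ^ n * Real.exp (-x ^ 2 / 2)) = Cgau n := rfl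
    rw [hC] at h
    rw [Finset.mem_union, Finset.mem_filter, Finset.mem_filter]
    interval_cases n
    · exfalso
      obtain ⟨t, htf, ht1, -⟩ := ht
      have h5 := hT3 T ((le_max_right _ _).trans hT) f t htf ht1
      rw [GmM.odd (n := 1) ⟨0, rfl⟩] at h
      simp only [pow_one, zero_mul, sub_zero] at h
      linarith
    · rw [GmM.two, one_mul] at h
      exact Or.inl ⟨hf, ht, Or.inl (by linarith)⟩
    · rw [GmM.odd (n := 3) ⟨1, rfl⟩, zero_mul, sub_zero] at h
      exact Or.inr ⟨hf, ht, by linarith⟩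
    · rw [GmM.four] at h
      exact Or.inl ⟨hf, ht, Or.inr (by linarith)⟩
  have h5 : (S.card : ℝ) ≤ ((S.filter fun f => Bad2 ψ (ε / 2) T f).card : ℝ) +
      ((S.filter fun f => BadC ψ (ε / 2) T f).card : ℝ) := by
    exact_mod_cast (Finset.card_le_card hsub).trans (Finset.card_union_le _ _)
  linarith

end

end Pool.Agent.A54.Av
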