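import Pool.Agent.Lib.MP_a54f13_nt.Av.SpecB

/-!
# Package `Av`, module `G1`: crude bound for the geometric side
-/

set_option autoImplicit false

namespace Pool.Agent.A54.Av

open MeasureTheory Filter Topology Set
open scoped ContDiff ComplexConjugate UpperHalfPlane MatrixGroups ENNReal
open Pool.Agent.A54.Half (H0 qq ff hh)

noncomputable section

namespace G1M

instance instCountableMat : Countable Mat :=
  inferInstanceAs (Countable (Fin 2 → Fin 2 → ℤ))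

lemma meas_Vd (γ : Mat) : Measurable (Vd γ) := by
  unfold Vd VV
  fun_prop

lemma meas_WW (y1 y : ℝ) (γ : Mat) : Measurable (WW y1 y γ) := by
  unfold WW
  have h := meas_Vd γ
  refine ENNReal.measurable_ofReal.comp ?_
  fun_prop

lemma meas_sW (P : Mat → Prop) (y1 y : ℝ) : Measurable (sW P y1 y) := by
  unfold sW
  refine Measurable.tsum fun γ => ?_
  split_ifs
  · exact meas_WW y1 y γ
  · exact measurable_const

lemma cont_es {η : ℂ → ℝ} (hη : Continuous η) (r : ℝ) :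
    Continuous (fun p : ℂ × ℂ => es η r p.1 p.2) := by
  unfold es
  fun_prop

lemma meas_avg {η : ℂ → ℝ} (hη : Continuous η) (r : ℝ) {F : ℂ → ℝ≥0∞} (hF : Measurable F) :
    Measurable (fun z0 => ∫⁻ z, ENNReal.ofReal (es η r z0 z) * F z) := by
  have h : Measurable (fun p : ℂ × ℂ => ENNReal.ofReal (es η r p.1 p.2) * F p.2) :=
    ((cont_es hη r).measurable.ennreal_ofReal).mul (hF.comp measurable_snd)
  exact h.lintegral_prod_right'

/-- the support of `es` -/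
lemma es_supp {η : ℂ → ℝ} (hη : Bump η) {r : ℝ} (hr : 0 < r) {z0 z : ℂ}
    (h : es η r z0 z ≠ 0) : z ∈ Metric.closedBall z0 r := by
  have h1 : η ((r : ℂ)⁻¹ * (z - z0)) ≠ 0 := by
    intro h0
    apply h
    unfold es
    rw [h0, mul_zero]
  have h2 : (r : ℂ)⁻¹ * (z - z0) ∈ Metric.closedBall (0 : ℂ) 1 :=
    hη.sub (subset_tsupport _ h1)
  rw [mem_closedBall_zero_iff, norm_mul, norm_inv, Complex.norm_real, Real.norm_eq_abs,
    abs_of_pos hr] at h2
  rw [mem_closedBall_iff_norm]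
  have h3 : r * (r⁻¹ * ‖z - z0‖) ≤ r * 1 := mul_le_mul_of_nonneg_left h2 hr.le
  rwa [← mul_assoc, mul_inv_cancel₀ hr.ne', one_mul, mul_one] at h3

/-- one term -/
lemma term_le {η : ℂ → ℝ} (hη : Bump η) {r : ℝ} (hr : 0 < r) {z0 : ℂ}
    (hz0 : Metric.closedBall z0 r ⊆ H0) {B : ℝ} (hB : 0 ≤ B) {s : ℂ} {y y1 : ℝ} (γ : Mat)
    (hm : ∀ z ∈ H0, ‖mm s y ((γ.det : ℤ) : ℝ) (Vd γ z)‖ ≤
      B * Real.exp (-(Real.pi * (y1 * (((γ.det : ℤ) : ℝ) + Vd γ z) + y * Vd γ z)))) :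
    ‖∫ z, ((es η r z0 z : ℝ) : ℂ) * mm s y ((γ.det : ℤ) : ℝ) (Vd γ z)‖ₑ ≤
      ENNReal.ofReal B * ∫⁻ z, ENNReal.ofReal (es η r z0 z) * WW y1 y γ z := by
  have hηc : Continuous η := hη.smooth.continuous
  have hmeas : Measurable (fun z => ENNReal.ofReal (es η r z0 z) * WW y1 y γ z) := by
    have h1 : Continuous (fun z => es η r z0 z) :=
      (cont_es hηc r).comp (continuous_const.prodMk continuous_id)
    exact h1.measurable.ennreal_ofReal.mul (meas_WW y1 y γ)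
  rw [← lintegral_const_mul _ hmeas]
  refine (enorm_integral_le_lintegral_enorm _).trans (lintegral_mono fun z => ?_)
  by_cases h : es η r z0 z = 0
  · simp [h]
  · have hz : z ∈ H0 := hz0 (es_supp hη hr h)
    have hpos : 0 ≤ es η r z0 z := by
      unfold es
      exact mul_nonneg (by positivity) (hη.nonneg _)
    have h1 := hm z hz
    unfold WW
    rw [← ENNReal.ofReal_mul hpos, ← ENNReal.ofReal_mul hB, ← ofReal_norm]
    apply ENNReal.ofReal_le_ofReal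
    rw [norm_mul, Complex.norm_real, Real.norm_eq_abs, abs_of_nonneg hpos]
    calc es η r z0 z * ‖mm s y ((γ.det : ℤ) : ℝ) (Vd γ z)‖
        ≤ es η r z0 z * (B * Real.exp (-(Real.pi * (y1 * (((γ.det : ℤ) : ℝ) + Vd γ z) +
            y * Vd γ z)))) := mul_le_mul_of_nonneg_left h1 hpos
      _ = B * (es η r z0 z * Real.exp (-(Real.pi * (y1 * (((γ.det : ℤ) : ℝ) + Vd γ z) +
            y * Vd γ z)))) := by ring

/-- the sum over the matrices -/
lemma MN_le {η : ℂ → ℝ} (hη : Bump η) {r : ℝ} (hr : 0 < r) {z0 : ℂ}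
    (hz0 : Metric.closedBall z0 r ⊆ H0) {B : ℝ} (hB : 0 ≤ B) {s : ℂ} {y y1 : ℝ} (n : ℤ)
    (hm : ∀ (γ : Mat), ∀ z ∈ H0, ‖mm s y ((γ.det : ℤ) : ℝ) (Vd γ z)‖ ≤
      B * Real.exp (-(Real.pi * (y1 * (((γ.det : ℤ) : ℝ) + Vd γ z) + y * Vd γ z)))) :
    ‖MN (es η r z0) s y n‖ₑ ≤ ENNReal.ofReal B *
      ∫⁻ z, ENNReal.ofReal (es η r z0 z) * sW (fun γ => γ.det = n ∧ NonSc γ) y1 y z := by
  classical
  have hηc : Continuous η := hη.smooth.continuous
  have hec : Measurable (fun z => ENNReal.ofReal (es η r z0 z)) := by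
    have h1 : Continuous (fun z => es η r z0 z) :=
      (cont_es hηc r).comp (continuous_const.prodMk continuous_id)
    exact h1.measurable.ennreal_ofReal
  have e1 : ∫⁻ z, ENNReal.ofReal (es η r z0 z) * sW (fun γ => γ.det = n ∧ NonSc γ) y1 y z =
      ∑' γ : Mat, ∫⁻ z, ENNReal.ofReal (es η r z0 z) *
        (if γ.det = n ∧ NonSc γ then WW y1 y γ z else 0) := by
    rw [← lintegral_tsum]
    · refine lintegral_congr fun z => ?_
      unfold sW
      rw [← ENNReal.tsum_mul_left]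
      refine tsum_congr fun γ => ?_
      congr 1
      split_ifs <;> rfl
    · intro γ
      refine (hec.mul ?_).aemeasurable
      split_ifs
      · exact meas_WW y1 y γ
      · exact measurable_const
  rw [e1, ← ENNReal.tsum_mul_left]
  unfold MN
  refine enorm_tsum_le_tsum_enorm.trans (ENNReal.tsum_le_tsum fun γ => ?_)
  by_cases h : γ.det = n ∧ NonSc γ
  · rw [if_pos h]
    have e2 : ∀ z, (if γ.det = n ∧ NonSc γ then WW y1 y γ z else 0) = WW y1 y γ z :=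
      fun z => if_pos h
    simp only [e2]
    have h3 := term_le hη hr hz0 hB (s := s) (y := y) (y1 := y1) γ (hm γ)
    rw [h.1] at h3
    exact h3
  · rw [if_neg h]
    simp

lemma aux1 (P : ℕ → Prop) (w : ℝ≥0∞) (m : ℕ) (h : ∀ n, P n → n = m) :
    ∑' n, (open Classical in if P n then w else 0) ≤ w := by
  classical
  have h1 : ∀ n : ℕ, n ≠ m → (open Classical in if P n then w else 0) = 0 := by
    intro n hn
    rw [if_neg]
    intro h2
    exact hn (h n h2)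
  rw [tsum_eq_single _ h1]
  split_ifs
  · exact le_rfl
  · exact zero_le

lemma aux2 (P : ℕ → Prop) (w : ℝ≥0∞) (h : ∀ n, ¬ P n) :
    ∑' n, (open Classical in if P n then w else 0) ≤ 0 := by
  classical
  have h1 : ∀ n : ℕ, (open Classical in if P n then w else 0) = 0 := by
    intro n
    rw [if_neg (h n)]
  simp only [h1, tsum_zero, le_refl]

/-- the matrices of determinant `≤ 0` -/
lemma neg_le (y1 y : ℝ) (z : ℂ) :
    ∑' n : ℕ, sW (fun γ => γ.det = -(n : ℤ) ∧ NonSc γ) y1 y z ≤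
      sW (fun γ => γ.det ≤ 0 ∧ NonSc γ) y1 y z := by
  unfold sW
  rw [ENNReal.tsum_comm]
  refine ENNReal.tsum_le_tsum fun γ => ?_
  by_cases h : γ.det ≤ 0 ∧ NonSc γ
  · rw [if_pos h]
    exact aux1 (fun n : ℕ => γ.det = -(n : ℤ) ∧ NonSc γ) _ (γ.det).natAbs
      (fun n h2 => by omega)
  · rw [if_neg h]
    exact aux2 (fun n : ℕ => γ.det = -(n : ℤ) ∧ NonSc γ) _
      (fun n h2 => h ⟨by omega, h2.2⟩)

lemma tsum_sq_le (a : ℕ → ℝ≥0∞) : ∑' n, a n ^ 2 ≤ (∑' n, a n) ^ 2 := by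
  calc ∑' n, a n ^ 2 ≤ ∑' n, a n * ∑' m, a m := by
        refine ENNReal.tsum_le_tsum fun n => ?_
        rw [sq]
        exact mul_le_mul_right (ENNReal.le_tsum n) _
    _ = (∑' n, a n) ^ 2 := by rw [ENNReal.tsum_mul_right, sq]

lemma tsum_int_split (f : ℤ → ℝ≥0∞) :
    ∑' n : ℤ, f n = ∑' n : ℕ, f ((n : ℤ) + 1) + ∑' n : ℕ, f (-(n : ℤ)) := by
  have h1 : ∑' n : ℤ, f n = ∑' n : ℤ, f (-n) := ((Equiv.neg ℤ).tsum_eq f).symm
  rw [h1, tsum_of_nat_of_neg_add_one (f := fun n : ℤ => f (-n)) ENNReal.summable ENNReal.summable,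
    add_comm]
  congr 1

end G1M

open G1M in
theorem stmtG1 (hMb : StmtMb) (hW1 : StmtW1) (hW3 : StmtW3) (hAvg : StmtAvg) (hDl : StmtDl)
    (hQF : StmtQF) : StmtG1 := by
  classical
  intro η hη K hK hKH
  have hηc : Continuous η := hη.smooth.continuous
  obtain ⟨r1, hr1, hsub⟩ := hK.exists_cthickening_subset_open Half.isOpen_H0 hKH
  have hK'c : IsCompact (Metric.cthickening r1 K) := hK.cthickening
  obtain ⟨Cm, hCm, hMb⟩ := hMb
  obtain ⟨C1, hC1, hW1⟩ := hW1 _ hK'c hsub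
  obtain ⟨C3, hC3, hW3⟩ := hW3 _ hK'c hsub
  refine ⟨Cm ^ 2 * (C1 + C3), r1, by positivity, hr1, ?_⟩
  intro T r y θ hT hr hrr hy hθ
  have hT0 : 0 < T := by linarith
  have hy0 : 0 < y := by linarith
  have hδ : 0 < dl T θ := lt_of_lt_of_le (by positivity) (hDl.1 T θ hT hθ).1
  set y1 : ℝ := yo T θ y with hy1def
  have hy1 : 0 < y1 := by
    rw [hy1def]
    unfold yo
    positivity
  set B : ℝ := Cm * T ^ 2 * (y / dl T θ) with hBdef
  have hB : 0 ≤ B := by positivity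
  have hm : ∀ (γ : Mat), ∀ z ∈ H0, ‖mm (qs (qT T) θ) y ((γ.det : ℤ) : ℝ) (Vd γ z)‖ ≤
      B * Real.exp (-(Real.pi * (y1 * (((γ.det : ℤ) : ℝ) + Vd γ z) + y * Vd γ z))) := by
    intro γ z hz
    have h := hQF γ z z hz hz
    exact hMb T θ y _ _ hT hθ hy0 h.1 h.2.1
  have hball : ∀ z0 ∈ K, Metric.closedBall z0 r ⊆ Metric.cthickening r1 K := by
    intro z0 hz0
    exact (Metric.closedBall_subset_cthickening hz0 r).trans (Metric.cthickening_mono hrr K)
  -- the functions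
  let Fp : ℕ → ℂ → ℝ≥0∞ := fun n => sW (fun γ => γ.det = (n : ℤ) + 1 ∧ NonSc γ) y1 y
  let Fm : ℂ → ℝ≥0∞ := sW (fun γ => γ.det ≤ 0 ∧ NonSc γ) y1 y
  have hFp : ∀ n, Measurable (Fp n) := fun n => meas_sW _ _ _
  have hFm : Measurable Fm := meas_sW _ _ _
  let Ap : ℕ → ℂ → ℝ≥0∞ := fun n z0 => ∫⁻ z, ENNReal.ofReal (es η r z0 z) * Fp n z
  let Am : ℂ → ℝ≥0∞ := fun z0 => ∫⁻ z, ENNReal.ofReal (es η r z0 z) * Fm z
  have hAp : ∀ n, Measurable (Ap n) := fun n => meas_avg hηc r (hFp n)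
  have hAm : Measurable Am := meas_avg hηc r hFm
  -- pointwise
  have hpt : ∀ z0 ∈ K, ∑' n : ℤ, ‖MN (es η r z0) (qs (qT T) θ) y n‖ₑ ^ 2 ≤
      ENNReal.ofReal B ^ 2 * (∑' n : ℕ, Ap n z0 ^ 2 + Am z0 ^ 2) := by
    intro z0 hz0
    have hz0' : Metric.closedBall z0 r ⊆ H0 := (hball z0 hz0).trans hsub
    have hMN := fun n : ℤ => MN_le hη hr hz0' hB (s := qs (qT T) θ) (y := y) (y1 := y1) n hm
    rw [tsum_int_split, mul_add]
    refine add_le_add ?_ ?_
    · rw [← ENNReal.tsum_mul_left]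
      refine ENNReal.tsum_le_tsum fun n => ?_
      rw [← mul_pow]
      exact pow_le_pow_left₀ zero_le (hMN ((n : ℤ) + 1)) 2
    · calc ∑' n : ℕ, ‖MN (es η r z0) (qs (qT T) θ) y (-(n : ℤ))‖ₑ ^ 2
          ≤ ∑' n : ℕ, (ENNReal.ofReal B * ∫⁻ z, ENNReal.ofReal (es η r z0 z) *
              sW (fun γ => γ.det = -(n : ℤ) ∧ NonSc γ) y1 y z) ^ 2 :=
            ENNReal.tsum_le_tsum fun n => pow_le_pow_left₀ zero_le (hMN (-(n : ℤ))) 2
        _ ≤ (∑' n : ℕ, ENNReal.ofReal B * ∫⁻ z, ENNReal.ofReal (es η r z0 z) *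
              sW (fun γ => γ.det = -(n : ℤ) ∧ NonSc γ) y1 y z) ^ 2 := tsum_sq_le _
        _ ≤ (ENNReal.ofReal B * Am z0) ^ 2 := by
            refine pow_le_pow_left₀ zero_le ?_ 2
            rw [ENNReal.tsum_mul_left]
            refine mul_le_mul_right ?_ _
            have h1 : Continuous (fun z => es η r z0 z) :=
              (cont_es hηc r).comp (continuous_const.prodMk continuous_id)
            have h2 : ∀ n : ℕ, AEMeasurable (fun z => ENNReal.ofReal (es η r z0 z) *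
                sW (fun γ => γ.det = -(n : ℤ) ∧ NonSc γ) y1 y z) volume := fun n =>
              (h1.measurable.ennreal_ofReal.mul (meas_sW _ _ _)).aemeasurable
            rw [← lintegral_tsum h2]
            refine lintegral_mono fun z => ?_
            rw [ENNReal.tsum_mul_left]
            exact mul_le_mul_right (neg_le y1 y z) _
        _ = ENNReal.ofReal B ^ 2 * Am z0 ^ 2 := by rw [mul_pow]
  -- the integral
  have hKm : MeasurableSet (Metric.cthickening r1 K) := hK'c.measurableSet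
  have hI1 : ∫⁻ z0 in K, ∑' n : ℕ, Ap n z0 ^ 2 ≤ ENNReal.ofReal (C1 / (y * y1)) := by
    rw [lintegral_tsum (fun n => ((hAp n).pow_const 2).aemeasurable)]
    calc ∑' n : ℕ, ∫⁻ z0 in K, Ap n z0 ^ 2
        ≤ ∑' n : ℕ, ∫⁻ z in Metric.cthickening r1 K, Fp n z ^ 2 :=
          ENNReal.tsum_le_tsum fun n =>
            (hAvg η hη K _ hK hKm r hr hball (Fp n) (hFp n)).1
      _ = ∫⁻ z in Metric.cthickening r1 K, ∑' n : ℕ, Fp n z ^ 2 :=
          (lintegral_tsum (fun n => ((hFp n).pow_const 2).aemeasurable)).symm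
      _ ≤ ENNReal.ofReal (C1 / (y * y1)) := (hW1 y1 y hy1 hy).1
  have hI2 : ∫⁻ z0 in K, Am z0 ^ 2 ≤ ENNReal.ofReal (C3 / y * y1 ^ (-(1 / 4 : ℝ))) :=
    ((hAvg η hη K _ hK hKm r hr hball Fm hFm).1).trans (hW3 y1 y hy1 hy)
  calc ∫⁻ z0 in K, ∑' n : ℤ, ‖MN (es η r z0) (qs (qT T) θ) y n‖ₑ ^ 2
      ≤ ∫⁻ z0 in K, ENNReal.ofReal B ^ 2 * (∑' n : ℕ, Ap n z0 ^ 2 + Am z0 ^ 2) :=
        setLIntegral_mono' hK.measurableSet hpt
    _ = ENNReal.ofReal B ^ 2 *
          ((∫⁻ z0 in K, ∑' n : ℕ, Ap n z0 ^ 2) + ∫⁻ z0 in K, Am z0 ^ 2) := by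
        have hm1 : Measurable (fun z0 => ∑' n : ℕ, Ap n z0 ^ 2) :=
          Measurable.tsum fun n => (hAp n).pow_const 2
        have hm2 : Measurable (fun z0 => ∑' n : ℕ, Ap n z0 ^ 2 + Am z0 ^ 2) :=
          hm1.add (hAm.pow_const 2)
        rw [lintegral_const_mul _ hm2, lintegral_add_left hm1]
    _ ≤ ENNReal.ofReal B ^ 2 * (ENNReal.ofReal (C1 / (y * y1)) +
          ENNReal.ofReal (C3 / y * y1 ^ (-(1 / 4 : ℝ)))) :=
        mul_le_mul_right (add_le_add hI1 hI2) _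
    _ = ENNReal.ofReal (B ^ 2 * (C1 / (y * y1) + C3 / y * y1 ^ (-(1 / 4 : ℝ)))) := by
        rw [← ENNReal.ofReal_add (by positivity) (by positivity), ← ENNReal.ofReal_pow hB,
          ← ENNReal.ofReal_mul (by positivity)]
    _ ≤ ENNReal.ofReal (Cm ^ 2 * (C1 + C3) * T ^ 6 * (1 + y1 ^ (3 / 4 : ℝ))) := by
        apply ENNReal.ofReal_le_ofReal
        have hB2 : B ^ 2 = Cm ^ 2 * T ^ 6 * (y * y1) := by
          rw [hBdef, hy1def]
          unfold yo
          field_simp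
        have hp : y1 * y1 ^ (-(1 / 4 : ℝ)) = y1 ^ (3 / 4 : ℝ) := by
          conv_lhs => rw [← Real.rpow_one y1]
          rw [← Real.rpow_mul hy1.le, ← Real.rpow_add hy1]
          norm_num
        have e : B ^ 2 * (C1 / (y * y1) + C3 / y * y1 ^ (-(1 / 4 : ℝ))) =
            Cm ^ 2 * T ^ 6 * (C1 + C3 * y1 ^ (3 / 4 : ℝ)) := by
          rw [hB2, ← hp]
          field_simp
        rw [e]
        have h34 : 0 ≤ y1 ^ (3 / 4 : ℝ) := Real.rpow_nonneg hy1.le _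
        have : Cm ^ 2 * (C1 + C3) * T ^ 6 * (1 + y1 ^ (3 / 4 : ℝ)) -
            Cm ^ 2 * T ^ 6 * (C1 + C3 * y1 ^ (3 / 4 : ℝ)) =
            Cm ^ 2 * T ^ 6 * (C3 + C1 * y1 ^ (3 / 4 : ℝ)) := by ring
        have h2 : 0 ≤ Cm ^ 2 * T ^ 6 * (C3 + C1 * y1 ^ (3 / 4 : ℝ)) := by positivity
        linarith

end

end Pool.Agent.A54.Av
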