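import Pool.Agent.Lib.MP_a54f13_nt.Av.SpecB

/-!
# Package `Av`, module `G2`: the refined bound
-/

set_option autoImplicit false

namespace Pool.Agent.A54.Av.G2M

open MeasureTheory Filter Topology Set
open scoped ContDiff ComplexConjugate UpperHalfPlane MatrixGroups ENNReal
open Pool.Agent.A54.Half (H0)

noncomputable section

/-! ### measurability -/

instance countMat : Countable Mat := inferInstanceAs (Countable (Fin 2 → Fin 2 → ℤ))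

lemma meas_Vd (γ : Mat) : Measurable (Vd γ) := by
  unfold Vd VV
  fun_prop

lemma meas_WW (y1 y : ℝ) (γ : Mat) : Measurable (WW y1 y γ) := by
  unfold WW
  have := meas_Vd γ
  fun_prop

/-- indicator notation -/
def ind (P : Prop) (x : ℝ≥0∞) : ℝ≥0∞ := open Classical in if P then x else 0

lemma ind_pos {P : Prop} (h : P) (x : ℝ≥0∞) : ind P x = x := by simp [ind, h]
lemma ind_neg {P : Prop} (h : ¬ P) (x : ℝ≥0∞) : ind P x = 0 := by simp [ind, h]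

lemma sW_eq (P : Mat → Prop) (y1 y : ℝ) (z : ℂ) : sW P y1 y z = ∑' γ : Mat, ind (P γ) (WW y1 y γ z) := by
  unfold sW ind
  rfl

lemma meas_ind (P : Mat → Prop) (y1 y : ℝ) (γ : Mat) :
    Measurable fun z => ind (P γ) (WW y1 y γ z) := by
  by_cases h : P γ
  · simp only [ind_pos h]; exact meas_WW y1 y γ
  · simp only [ind_neg h]; exact measurable_const

lemma meas_sW (P : Mat → Prop) (y1 y : ℝ) : Measurable (sW P y1 y) := by
  have h : sW P y1 y = fun z => ∑' γ : Mat, ind (P γ) (WW y1 y γ z) := by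
    funext z; exact sW_eq P y1 y z
  rw [h]
  exact Measurable.tsum fun γ => meas_ind P y1 y γ

lemma es_cont (η : ℂ → ℝ) (hη : Bump η) (r : ℝ) :
    Continuous fun p : ℂ × ℂ => es η r p.1 p.2 := by
  have h1 : Continuous η := hη.smooth.continuous
  unfold es
  fun_prop

lemma es_nonneg (η : ℂ → ℝ) (hη : Bump η) (r : ℝ) (z0 z : ℂ) : 0 ≤ es η r z0 z := by
  unfold es
  exact mul_nonneg (inv_nonneg.2 (sq_nonneg r)) (hη.nonneg _)

lemma es_supp (η : ℂ → ℝ) (hη : Bump η) {r : ℝ} (hr : 0 < r) (z0 z : ℂ)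
    (h : es η r z0 z ≠ 0) : z ∈ Metric.closedBall z0 r := by
  unfold es at h
  have h1 : η ((r : ℂ)⁻¹ * (z - z0)) ≠ 0 := fun h0 => h (by rw [h0, mul_zero])
  have h2 : (r : ℂ)⁻¹ * (z - z0) ∈ Metric.closedBall (0 : ℂ) 1 :=
    hη.sub (subset_tsupport _ h1)
  rw [mem_closedBall_zero_iff, norm_mul, norm_inv, Complex.norm_real, Real.norm_eq_abs,
    abs_of_pos hr] at h2
  rw [Metric.mem_closedBall, dist_eq_norm]
  rw [inv_mul_le_iff₀ hr] at h2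
  linarith

/-! ### sums -/

lemma sq_add_le (a b : ℝ≥0∞) : (a + b) ^ 2 ≤ 4 * (a ^ 2 + b ^ 2) := by
  rcases le_total a b with h | h
  · calc (a + b) ^ 2 ≤ (b + b) ^ 2 := by gcongr
      _ = 4 * b ^ 2 := by ring
      _ ≤ 4 * (a ^ 2 + b ^ 2) := by gcongr; exact le_add_self
  · calc (a + b) ^ 2 ≤ (a + a) ^ 2 := by gcongr
      _ = 4 * a ^ 2 := by ring
      _ ≤ 4 * (a ^ 2 + b ^ 2) := by gcongr; exact le_self_add

lemma tsum_int (f : ℤ → ℝ≥0∞) :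
    ∑' n, f n = ∑' m : ℕ, f (m + 1) + ∑' m : ℕ, f (-(m : ℤ)) := by
  rw [← (Equiv.addRight (1 : ℤ)).tsum_eq f]
  rw [tsum_of_nat_of_neg_add_one ENNReal.summable ENNReal.summable]
  congr 1
  refine tsum_congr fun m => ?_
  congr 1
  simp

lemma sum_sq_le (a : ℕ → ℝ≥0∞) : ∑' m, a m ^ 2 ≤ (∑' m, a m) ^ 2 := by
  calc ∑' m, a m ^ 2 ≤ ∑' m, a m * ∑' k, a k := by
        refine ENNReal.tsum_le_tsum fun m => ?_
        rw [sq]
        gcongr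
        exact ENNReal.le_tsum m
    _ = (∑' m, a m) ^ 2 := by rw [ENNReal.tsum_mul_right, sq]

lemma sum_det_le (h : ℕ → ℤ) (hinj : Function.Injective h) (P Q : Mat → Prop)
    (hPQ : ∀ γ m, γ.det = h m → P γ → Q γ) (x : Mat → ℝ≥0∞) :
    ∑' m, ∑' γ : Mat, ind (γ.det = h m ∧ P γ) (x γ) ≤ ∑' γ : Mat, ind (Q γ) (x γ) := by
  rw [ENNReal.tsum_comm]
  refine ENNReal.tsum_le_tsum fun γ => ?_
  by_cases hx : ∃ m, γ.det = h m ∧ P γ
  · obtain ⟨m, hm, hP⟩ := hx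
    rw [tsum_eq_single m]
    · rw [ind_pos ⟨hm, hP⟩, ind_pos (hPQ γ m hm hP)]
    · intro k hk
      refine ind_neg ?_ _
      rintro ⟨h1, -⟩
      exact hk (hinj (h1.symm.trans hm))
  · push Not at hx
    have h0 : ∀ m, ind (γ.det = h m ∧ P γ) (x γ) = 0 := fun m =>
      ind_neg (fun h1 => hx m h1.1 h1.2) _
    simp only [h0, tsum_zero]
    exact zero_le

/-! ### the numbers `s`, `δ` -/

lemma norm_qs_sq {T : ℝ} (hT : 2 ≤ T) (θ : ℝ) : ‖qs (qT T) θ‖ ^ 2 = 1 - (T ^ 2)⁻¹ := by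
  have h1 : (T ^ 2)⁻¹ ≤ 1 := inv_le_one_of_one_le₀ (by nlinarith)
  unfold qs qT
  rw [norm_mul, Complex.norm_exp_ofReal_mul_I, mul_one, Complex.norm_real, Real.norm_eq_abs,
    sq_abs, Real.sq_sqrt (by linarith)]

lemma re_one_sub {T : ℝ} (hT : 2 ≤ T) (θ : ℝ) :
    (1 - qs (qT T) θ).re = (dl T θ ^ 2 + (T ^ 2)⁻¹) / 2 := by
  have h1 := norm_qs_sq hT θ
  unfold dl
  rw [← Complex.normSq_eq_norm_sq] at h1 ⊢
  rw [Complex.normSq_apply] at h1 ⊢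
  simp only [Complex.sub_re, Complex.sub_im, Complex.one_re, Complex.one_im]
  nlinarith

lemma re_inv {T : ℝ} (hT : 2 ≤ T) (θ : ℝ) (hδ : 0 < dl T θ) :
    ((1 - qs (qT T) θ)⁻¹).re = 1 / 2 + 1 / (2 * (T ^ 2 * dl T θ ^ 2)) := by
  rw [Complex.inv_re, re_one_sub hT, Complex.normSq_eq_norm_sq]
  change (dl T θ ^ 2 + (T ^ 2)⁻¹) / 2 / dl T θ ^ 2 = _
  have : T ≠ 0 := by linarith
  field_simp

lemma mm_eq (s : ℂ) (hs : 1 - s ≠ 0) (y n V : ℝ) :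
    mm s y n V = ((y : ℂ) * (1 - s)⁻¹ *
      Complex.exp (-(2 * (Real.pi : ℂ) * n * y * (1 + s) / (1 - s)))) *
        DD (4 * (Real.pi : ℂ) * y * (1 - s)⁻¹) n V := by
  unfold mm DD
  rw [sub_eq_add_neg (-(2 * (Real.pi : ℂ) * n * y * (1 + s) / (1 - s))), Complex.exp_add]
  have e1 : -(4 * (Real.pi : ℂ) * y * V / (1 - s)) = -(4 * (Real.pi : ℂ) * y * (1 - s)⁻¹ * V) := by
    rw [div_eq_mul_inv]; ring
  rw [e1]
  have e2 : 4 * (Real.pi : ℂ) * y * (2 * V + n) / (1 - s) -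
      (4 * (Real.pi : ℂ) * y) ^ 2 * V * (n + V) / (1 - s) ^ 2 =
      4 * (Real.pi : ℂ) * y * (1 - s)⁻¹ * (2 * V + n) -
        (4 * (Real.pi : ℂ) * y * (1 - s)⁻¹) ^ 2 * V * (n + V) := by
    field_simp
  rw [e2]
  ring

lemma norm_fac {T : ℝ} (hT : 2 ≤ T) (θ : ℝ) (hδ : 0 < dl T θ) {y : ℝ} (hy : 0 < y) (n : ℝ) :
    ‖((y : ℂ) * (1 - qs (qT T) θ)⁻¹ *
      Complex.exp (-(2 * (Real.pi : ℂ) * n * y * (1 + qs (qT T) θ) / (1 - qs (qT T) θ))))‖ =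
      y / dl T θ * Real.exp (-(2 * Real.pi * n * yo T θ y)) := by
  have hs : 1 - qs (qT T) θ ≠ 0 := by
    intro h0
    unfold dl at hδ
    rw [h0, norm_zero] at hδ
    exact lt_irrefl _ hδ
  rw [norm_mul, norm_mul, norm_inv, Complex.norm_real, Real.norm_eq_abs, abs_of_pos hy,
    Complex.norm_exp]
  congr 1
  congr 1
  have e1 : -(2 * (Real.pi : ℂ) * n * y * (1 + qs (qT T) θ) / (1 - qs (qT T) θ)) =
      ((-(2 * Real.pi * n * y) : ℝ) : ℂ) * (2 * (1 - qs (qT T) θ)⁻¹ - 1) := by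
    push_cast
    field_simp
    ring
  rw [e1, Complex.re_ofReal_mul, Complex.sub_re, Complex.one_re]
  have e2 : (2 * (1 - qs (qT T) θ)⁻¹).re = 2 * ((1 - qs (qT T) θ)⁻¹).re := by
    simp
  rw [e2, re_inv hT θ hδ]
  unfold yo
  have : T ≠ 0 := by linarith
  field_simp
  ring

/-! ### the bound for one matrix -/

/-- first bound: by averages of `WW` -/
lemma term_le {CM : ℝ} (hCM : 0 ≤ CM)
    (hMb : ∀ (T θ y n V : ℝ), 2 ≤ T → |θ| ≤ Real.pi → 0 < y → 0 ≤ V →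
      0 ≤ n + V → ‖mm (qs (qT T) θ) y n V‖ ≤ CM * T ^ 2 * (y / dl T θ) *
        Real.exp (-(Real.pi * (yo T θ y * (n + V) + y * V))))
    (hQF : StmtQF) (η : ℂ → ℝ) (hη : Bump η) {T θ y r : ℝ} (hT : 2 ≤ T) (hθ : |θ| ≤ Real.pi)
    (hy : 0 < y) (hr : 0 < r) (z0 : ℂ) (hz0 : Metric.closedBall z0 r ⊆ H0) (γ : Mat) (n : ℤ)
    (hn : γ.det = n) (U : ℂ → ℝ≥0∞)
    (hU : ∀ z ∈ Metric.closedBall z0 r, WW (yo T θ y) y γ z ≤ U z) :
    ‖∫ z, (es η r z0 z : ℂ) * mm (qs (qT T) θ) y n (Vd γ z)‖ₑ ≤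
      ENNReal.ofReal (CM * T ^ 2 * (y / dl T θ)) *
        ∫⁻ z, ENNReal.ofReal (es η r z0 z) * U z := by
  have hδ : 0 ≤ dl T θ := norm_nonneg _
  have hc : 0 ≤ CM * T ^ 2 * (y / dl T θ) := by positivity
  refine (enorm_integral_le_lintegral_enorm _).trans ?_
  rw [← lintegral_const_mul' _ _ ENNReal.ofReal_ne_top]
  refine lintegral_mono fun z => ?_
  have he := es_nonneg η hη r z0 z
  by_cases h0 : es η r z0 z = 0
  · simp [h0]
  · have hz := es_supp η hη hr z0 z h0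
    have hzH := hz0 hz
    obtain ⟨hV, hnV, -⟩ := hQF γ z z hzH hzH
    subst hn
    have h1 := hMb T θ y ((γ.det : ℤ) : ℝ) (Vd γ z) hT hθ hy hV hnV
    calc ‖(es η r z0 z : ℂ) * mm (qs (qT T) θ) y ((γ.det : ℤ) : ℝ) (Vd γ z)‖ₑ
        = ENNReal.ofReal (es η r z0 z) *
            ENNReal.ofReal ‖mm (qs (qT T) θ) y ((γ.det : ℤ) : ℝ) (Vd γ z)‖ := by
          rw [← ofReal_norm, norm_mul, Complex.norm_real, Real.norm_eq_abs, abs_of_nonneg he,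
            ENNReal.ofReal_mul he]
      _ ≤ ENNReal.ofReal (es η r z0 z) * (ENNReal.ofReal (CM * T ^ 2 * (y / dl T θ)) *
            WW (yo T θ y) y γ z) := by
          gcongr
          unfold WW
          rw [← ENNReal.ofReal_mul hc]
          exact ENNReal.ofReal_le_ofReal h1
      _ ≤ ENNReal.ofReal (es η r z0 z) * (ENNReal.ofReal (CM * T ^ 2 * (y / dl T θ)) * U z) := by
          gcongr
          exact hU z hz
      _ = ENNReal.ofReal (CM * T ^ 2 * (y / dl T θ)) * (ENNReal.ofReal (es η r z0 z) * U z) := by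
          ring

/-- second bound: by smoothing -/
lemma term_le_sm {CS : ℝ} (hCS : 0 ≤ CS) (η : ℂ → ℝ) {T θ y r δ0 : ℝ}
    (hT : 2 ≤ T) (hy : 0 < y) (hδ0 : 0 < δ0) (hδ : δ0 ≤ dl T θ) (z0 : ℂ)
    (γ : Mat) (n : ℤ) (hn : γ.det = n) (hn1 : 1 ≤ n)
    (hSm : ∀ κ : ℂ, 0 < κ.re →
      ‖∫ z, (es η r z0 z : ℂ) * DD κ ((γ.det : ℤ) : ℝ) (Vd γ z)‖ ≤
        CS * ((r ^ 2)⁻¹ + ‖κ‖ / κ.re) * ((r ^ 2)⁻¹ *
          ∫ z in Metric.closedBall z0 r, Real.exp (-(κ.re / 2 * Vd γ z)))) :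
    ‖∫ z, (es η r z0 z : ℂ) * mm (qs (qT T) θ) y n (Vd γ z)‖ₑ ≤
      ENNReal.ofReal (CS * (y / dl T θ) * ((r ^ 2)⁻¹ + 2 / δ0)) *
        (ENNReal.ofReal (r ^ 2)⁻¹ * ∫⁻ z in Metric.closedBall z0 r, WW (yo T θ y) y γ z) := by
  have hδp : 0 < dl T θ := lt_of_lt_of_le hδ0 hδ
  have hs : 1 - qs (qT T) θ ≠ 0 := by
    intro h0
    unfold dl at hδp
    rw [h0, norm_zero] at hδp
    exact lt_irrefl _ hδp
  subst hn
  set s := qs (qT T) θ with hsdef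
  set κ : ℂ := 4 * (Real.pi : ℂ) * y * (1 - s)⁻¹ with hκ
  have hyo : 0 < yo T θ y := by unfold yo; positivity
  have hκr : κ = ((4 * Real.pi * y : ℝ) : ℂ) * (1 - s)⁻¹ := by rw [hκ]; push_cast; ring
  have hκre : κ.re = 2 * Real.pi * (y + yo T θ y) := by
    rw [hκr, Complex.re_ofReal_mul, re_inv hT θ hδp]
    unfold yo
    have : T ≠ 0 := by linarith
    field_simp
    ring
  have hκpos : 0 < κ.re := by rw [hκre]; positivity
  have hκn : ‖κ‖ = 4 * Real.pi * y / dl T θ := by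
    rw [hκr, norm_mul, Complex.norm_real, norm_inv, Real.norm_eq_abs,
      abs_of_pos (by positivity : 0 < 4 * Real.pi * y)]
    rfl
  have hratio : ‖κ‖ / κ.re ≤ 2 / δ0 := by
    rw [hκn, hκre, div_div, div_le_div_iff₀ (by positivity) hδ0]
    have h1 : y * δ0 ≤ (y + yo T θ y) * dl T θ := by
      apply mul_le_mul _ hδ hδ0.le (by positivity)
      linarith
    nlinarith [Real.pi_pos]
  have h1 := hSm κ hκpos
  have e1 : (fun z => (es η r z0 z : ℂ) * mm s y ((γ.det : ℤ) : ℝ) (Vd γ z)) =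
      fun z => ((y : ℂ) * (1 - s)⁻¹ *
        Complex.exp (-(2 * (Real.pi : ℂ) * (((γ.det : ℤ) : ℝ) : ℂ) * y * (1 + s) / (1 - s)))) *
        ((es η r z0 z : ℂ) * DD κ ((γ.det : ℤ) : ℝ) (Vd γ z)) := by
    funext z
    rw [mm_eq s hs]
    ring
  rw [e1, integral_const_mul, ← ofReal_norm, norm_mul, norm_fac hT θ hδp hy]
  have hint : (∫ z in Metric.closedBall z0 r, Real.exp (-(κ.re / 2 * Vd γ z))) =
      (∫⁻ z in Metric.closedBall z0 r, ENNReal.ofReal (Real.exp (-(κ.re / 2 * Vd γ z)))).toReal := by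
    apply integral_eq_lintegral_of_nonneg_ae
    · exact Eventually.of_forall fun z => (Real.exp_pos _).le
    · have := meas_Vd γ
      apply Measurable.aestronglyMeasurable
      fun_prop
  set I := ∫⁻ z in Metric.closedBall z0 r, ENNReal.ofReal (Real.exp (-(κ.re / 2 * Vd γ z))) with hI
  have hr2 : 0 ≤ (r ^ 2)⁻¹ := inv_nonneg.2 (sq_nonneg r)
  have hnp : (0 : ℝ) ≤ ((γ.det : ℤ) : ℝ) := by
    have : (0 : ℤ) ≤ γ.det := by omega
    exact_mod_cast this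
  have hE : ENNReal.ofReal (Real.exp (-(2 * Real.pi * ((γ.det : ℤ) : ℝ) * yo T θ y))) * I ≤
      ∫⁻ z in Metric.closedBall z0 r, WW (yo T θ y) y γ z := by
    rw [hI, ← lintegral_const_mul' _ _ ENNReal.ofReal_ne_top]
    refine lintegral_mono fun z => ?_
    unfold WW
    rw [← ENNReal.ofReal_mul (Real.exp_pos _).le, ← Real.exp_add]
    apply ENNReal.ofReal_le_ofReal
    apply Real.exp_le_exp.2
    rw [hκre]
    have : 0 ≤ Real.pi * ((γ.det : ℤ) : ℝ) * yo T θ y := by positivity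
    nlinarith
  calc ENNReal.ofReal (y / dl T θ * Real.exp (-(2 * Real.pi * ((γ.det : ℤ) : ℝ) * yo T θ y)) *
        ‖∫ z, (es η r z0 z : ℂ) * DD κ ((γ.det : ℤ) : ℝ) (Vd γ z)‖)
      ≤ ENNReal.ofReal (y / dl T θ * Real.exp (-(2 * Real.pi * ((γ.det : ℤ) : ℝ) * yo T θ y)) *
        (CS * ((r ^ 2)⁻¹ + 2 / δ0) * ((r ^ 2)⁻¹ * I.toReal))) := by
        apply ENNReal.ofReal_le_ofReal
        apply mul_le_mul_of_nonneg_left _ (by positivity)
        refine h1.trans ?_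
        rw [hint]
        apply mul_le_mul_of_nonneg_right _ (by positivity)
        gcongr
    _ = ENNReal.ofReal (CS * (y / dl T θ) * ((r ^ 2)⁻¹ + 2 / δ0)) *
        (ENNReal.ofReal (r ^ 2)⁻¹ *
          (ENNReal.ofReal (Real.exp (-(2 * Real.pi * ((γ.det : ℤ) : ℝ) * yo T θ y))) *
            ENNReal.ofReal I.toReal)) := by
        rw [← ENNReal.ofReal_mul (Real.exp_pos _).le, ← ENNReal.ofReal_mul hr2,
          ← ENNReal.ofReal_mul (by positivity)]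
        congr 1
        ring
    _ ≤ ENNReal.ofReal (CS * (y / dl T θ) * ((r ^ 2)⁻¹ + 2 / δ0)) *
        (ENNReal.ofReal (r ^ 2)⁻¹ *
          (ENNReal.ofReal (Real.exp (-(2 * Real.pi * ((γ.det : ℤ) : ℝ) * yo T θ y))) * I)) := by
        gcongr
        exact ENNReal.ofReal_toReal_le
    _ ≤ _ := by gcongr

/-! ### averages -/

lemma meas_av (η : ℂ → ℝ) (hη : Bump η) (r : ℝ) (F : ℂ → ℝ≥0∞) (hF : Measurable F) :
    Measurable fun z0 => ∫⁻ z, ENNReal.ofReal (es η r z0 z) * F z := by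
  have h1 : Measurable fun p : ℂ × ℂ => ENNReal.ofReal (es η r p.1 p.2) * F p.2 :=
    (ENNReal.measurable_ofReal.comp (es_cont η hη r).measurable).mul (hF.comp measurable_snd)
  exact h1.lintegral_prod_right'

lemma meas_ball (r : ℝ) (F : ℂ → ℝ≥0∞) (hF : Measurable F) :
    Measurable fun z0 => ∫⁻ z in Metric.closedBall z0 r, F z := by
  have hset : MeasurableSet {p : ℂ × ℂ | dist p.2 p.1 ≤ r} :=
    (isClosed_le (continuous_snd.dist continuous_fst) continuous_const).measurableSet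
  have h1 : Measurable ({p : ℂ × ℂ | dist p.2 p.1 ≤ r}.indicator fun p : ℂ × ℂ => F p.2) :=
    (hF.comp measurable_snd).indicator hset
  have h2 : (fun z0 => ∫⁻ z in Metric.closedBall z0 r, F z) = fun z0 =>
      ∫⁻ z, {p : ℂ × ℂ | dist p.2 p.1 ≤ r}.indicator (fun p : ℂ × ℂ => F p.2) (z0, z) := by
    funext z0
    rw [← lintegral_indicator Metric.isClosed_closedBall.measurableSet]
    rfl
  rw [h2]
  exact h1.lintegral_prod_right'

lemma pull (μ : Measure ℂ) (w : ℂ → ℝ≥0∞) (hw : Measurable w) (H : Mat → ℂ → ℝ≥0∞)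
    (hH : ∀ γ, Measurable (H γ)) (c : ℝ≥0∞) :
    ∑' γ, c * ∫⁻ z, w z * H γ z ∂μ = c * ∫⁻ z, w z * ∑' γ, H γ z ∂μ := by
  have h := lintegral_tsum (μ := μ) (f := fun (γ : Mat) z => w z * H γ z)
    (fun γ => (hw.mul (hH γ)).aemeasurable)
  rw [ENNReal.tsum_mul_left, ← h]
  simp_rw [ENNReal.tsum_mul_left]

/-- bound of `MN` by the sum of the bounds -/
lemma MN_le (g : ℂ → ℝ) (s : ℂ) (y : ℝ) (n : ℤ) :
    ‖MN g s y n‖ₑ ≤
      ∑' γ : Mat, ind (γ.det = n ∧ NonSc γ) ‖∫ z, (g z : ℂ) * mm s y n (Vd γ z)‖ₑ := by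
  unfold MN
  refine enorm_tsum_le_tsum_enorm.trans (ENNReal.tsum_le_tsum fun γ => ?_)
  by_cases h : γ.det = n ∧ NonSc γ
  · rw [ind_pos h, if_pos h]
  · rw [ind_neg h, if_neg h, enorm_zero]

/-! ### the final computation -/

lemma final_real {CM C1 C3 CS vv gg ε Y δ0 R T y δ u r : ℝ} (hC1 : 0 ≤ C1)
    (hC3 : 0 ≤ C3) (hvv : 0 ≤ vv) (hT : 2 ≤ T) (hR : 1 ≤ R)
    (hy : 1 / 2 ≤ y) (hyY : y ≤ Y) (hδ0 : 0 < δ0) (hδ : δ0 ≤ δ) (hu : u = y / (T ^ 2 * δ ^ 2))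
    (hr : r = R / T) (hTY : √Y / δ0 ≤ T) :
    4 * ((CM * T ^ 2 * (y / δ)) ^ 2 * (4 * (C1 / y * (1 / √u + √ε / u) + vv * gg ^ 2)) +
      (CS * (y / δ) * ((r ^ 2)⁻¹ + 2 / δ0)) ^ 2 * (10 * (C1 / (y * u)))) +
      (CM * T ^ 2 * (y / δ)) ^ 2 * (C3 / y * u ^ (-(1 / 4 : ℝ))) ≤
    T ^ 6 * (16 * CM ^ 2 * C1 * √ε + (16 * CM ^ 2 * C1 * (√Y / δ0) +
      16 * CM ^ 2 * vv * gg ^ 2 * Y * (√Y / δ0) + 80 * CS ^ 2 * C1 * (1 + 4 / δ0 ^ 2) +
      CM ^ 2 * C3 * (√Y / δ0)) * ((R ^ 4)⁻¹ + (√T)⁻¹)) := by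
  have hT0 : 0 < T := by linarith
  have hδp : 0 < δ := by linarith
  have hy0 : 0 < y := by linarith
  have hY0 : 0 < Y := by linarith
  have hR0 : 0 < R := by linarith
  have hup : 0 < u := by rw [hu]; positivity
  have hyd : (y / δ) ^ 2 = y * u * T ^ 2 := by rw [hu]; field_simp
  set v := √u with hv
  have hvp : 0 < v := Real.sqrt_pos.2 hup
  have hvu : v ^ 2 = u := Real.sq_sqrt hup.le
  -- bound for v
  have hsT : 0 < √T := Real.sqrt_pos.2 hT0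
  have hsT2 : √T ^ 2 = T := Real.sq_sqrt hT0.le
  have hsT1 : 1 ≤ √T := Real.one_le_sqrt.2 (by linarith)
  have hsY : 0 ≤ √Y := Real.sqrt_nonneg Y
  have hsY2 : √Y ^ 2 = Y := Real.sq_sqrt hY0.le
  have hv1 : v ≤ √Y / (T * δ0) := by
    rw [hv]
    apply Real.sqrt_le_iff.2
    refine ⟨by positivity, ?_⟩
    rw [hu, div_pow, hsY2, mul_pow]
    gcongr
  have hv2 : v ≤ √Y / δ0 * (√T)⁻¹ := by
    refine hv1.trans ?_
    rw [← div_div, div_right_comm, div_eq_mul_inv (√Y / δ0)]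
    gcongr
    rw [← hsT2, Real.sqrt_sq hsT.le]
    nlinarith
  have hv3 : v ≤ 1 := by
    refine hv1.trans ?_
    rw [div_le_one (by positivity)]
    rwa [div_le_iff₀ hδ0] at hTY
  have huv : u ≤ v := by rw [← hvu]; nlinarith
  have hu1 : u ≤ 1 := huv.trans hv3
  set w := (√T)⁻¹ with hw
  have hwp : 0 < w := inv_pos.2 hsT
  have hw1 : w ≤ 1 := inv_le_one_of_one_le₀ hsT1
  have hRi : 0 < (R ^ 4)⁻¹ := by positivity
  -- term 1
  have t1 : 4 * ((CM * T ^ 2 * (y / δ)) ^ 2 * (4 * (C1 / y * (1 / v + √ε / u)))) =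
      16 * CM ^ 2 * C1 * T ^ 6 * (v + √ε) := by
    rw [mul_pow, hyd, ← hvu]
    field_simp
    ring
  have t2 : 4 * ((CM * T ^ 2 * (y / δ)) ^ 2 * (4 * (vv * gg ^ 2))) ≤
      16 * CM ^ 2 * vv * gg ^ 2 * Y * T ^ 6 * v := by
    rw [mul_pow, hyd]
    have h1 : y * u ≤ Y * v := by
      apply mul_le_mul hyY huv hup.le hY0.le
    calc 4 * ((CM * T ^ 2) ^ 2 * (y * u * T ^ 2) * (4 * (vv * gg ^ 2)))
        = 16 * CM ^ 2 * vv * gg ^ 2 * T ^ 6 * (y * u) := by ring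
      _ ≤ 16 * CM ^ 2 * vv * gg ^ 2 * T ^ 6 * (Y * v) := by gcongr
      _ = _ := by ring
  have t3 : 4 * ((CS * (y / δ) * ((r ^ 2)⁻¹ + 2 / δ0)) ^ 2 * (10 * (C1 / (y * u)))) ≤
      80 * CS ^ 2 * C1 * T ^ 6 * ((R ^ 4)⁻¹ + 4 / δ0 ^ 2 * w) := by
    have h1 : 4 * ((CS * (y / δ) * ((r ^ 2)⁻¹ + 2 / δ0)) ^ 2 * (10 * (C1 / (y * u)))) =
        40 * CS ^ 2 * C1 * (T ^ 2 * ((r ^ 2)⁻¹ + 2 / δ0) ^ 2) := by
      rw [mul_pow, mul_pow, hyd]
      field_simp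
      ring
    have h2 : T ^ 2 * ((r ^ 2)⁻¹ + 2 / δ0) ^ 2 = T ^ 6 * ((R ^ 2)⁻¹ + 2 / (δ0 * T ^ 2)) ^ 2 := by
      rw [hr]
      field_simp
    have h3 : ((R ^ 2)⁻¹ + 2 / (δ0 * T ^ 2)) ^ 2 ≤ 2 * ((R ^ 4)⁻¹ + 4 / δ0 ^ 2 * w) := by
      have h4 : ((R ^ 2)⁻¹) ^ 2 = (R ^ 4)⁻¹ := by rw [← inv_pow]; ring
      have h5 : (2 / (δ0 * T ^ 2)) ^ 2 ≤ 4 / δ0 ^ 2 * w := by
        have h6 : (2 / (δ0 * T ^ 2)) ^ 2 = 4 / δ0 ^ 2 * (T ^ 4)⁻¹ := by
          field_simp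
          norm_num
        rw [h6]
        gcongr
        rw [hw]
        apply inv_anti₀ hsT
        have q1 : √T ≤ T := by nlinarith
        have q2 : T ≤ T ^ 4 := le_self_pow₀ (by linarith) (by norm_num)
        linarith
      nlinarith [sq_nonneg ((R ^ 2)⁻¹ - 2 / (δ0 * T ^ 2))]
    rw [h1, h2]
    calc 40 * CS ^ 2 * C1 * (T ^ 6 * ((R ^ 2)⁻¹ + 2 / (δ0 * T ^ 2)) ^ 2)
        ≤ 40 * CS ^ 2 * C1 * (T ^ 6 * (2 * ((R ^ 4)⁻¹ + 4 / δ0 ^ 2 * w))) := by gcongr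
      _ = _ := by ring
  have t4 : (CM * T ^ 2 * (y / δ)) ^ 2 * (C3 / y * u ^ (-(1 / 4 : ℝ))) ≤
      CM ^ 2 * C3 * T ^ 6 * v := by
    have h1 : u * u ^ (-(1 / 4 : ℝ)) ≤ v := by
      have : u * u ^ (-(1 / 4 : ℝ)) = u ^ (3 / 4 : ℝ) := by
        conv_lhs => rw [← Real.rpow_one u]
        rw [← Real.rpow_mul hup.le, ← Real.rpow_add hup]
        norm_num
      rw [this, hv, Real.sqrt_eq_rpow]
      exact Real.rpow_le_rpow_of_exponent_ge hup hu1 (by norm_num)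
    rw [mul_pow, hyd]
    calc (CM * T ^ 2) ^ 2 * (y * u * T ^ 2) * (C3 / y * u ^ (-(1 / 4 : ℝ)))
        = CM ^ 2 * C3 * T ^ 6 * (u * u ^ (-(1 / 4 : ℝ))) := by field_simp
      _ ≤ _ := by gcongr
  have hsum : 4 * ((CM * T ^ 2 * (y / δ)) ^ 2 * (4 * (C1 / y * (1 / v + √ε / u) + vv * gg ^ 2)) +
      (CS * (y / δ) * ((r ^ 2)⁻¹ + 2 / δ0)) ^ 2 * (10 * (C1 / (y * u)))) +
      (CM * T ^ 2 * (y / δ)) ^ 2 * (C3 / y * u ^ (-(1 / 4 : ℝ))) =
      4 * ((CM * T ^ 2 * (y / δ)) ^ 2 * (4 * (C1 / y * (1 / v + √ε / u)))) +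
      4 * ((CM * T ^ 2 * (y / δ)) ^ 2 * (4 * (vv * gg ^ 2))) +
      4 * ((CS * (y / δ) * ((r ^ 2)⁻¹ + 2 / δ0)) ^ 2 * (10 * (C1 / (y * u)))) +
      (CM * T ^ 2 * (y / δ)) ^ 2 * (C3 / y * u ^ (-(1 / 4 : ℝ))) := by ring
  rw [hsum, t1]
  have k1 : CM ^ 2 * C1 * T ^ 6 * v ≤ CM ^ 2 * C1 * T ^ 6 * (√Y / δ0 * w) := by gcongr
  have k2 : CM ^ 2 * vv * gg ^ 2 * Y * T ^ 6 * v ≤
      CM ^ 2 * vv * gg ^ 2 * Y * T ^ 6 * (√Y / δ0 * w) := by gcongr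
  have k4 : CM ^ 2 * C3 * T ^ 6 * v ≤ CM ^ 2 * C3 * T ^ 6 * (√Y / δ0 * w) := by gcongr
  have m1 : 0 ≤ CM ^ 2 * C1 * T ^ 6 * (√Y / δ0) * (R ^ 4)⁻¹ := by positivity
  have m2 : 0 ≤ CM ^ 2 * vv * gg ^ 2 * Y * T ^ 6 * (√Y / δ0) * (R ^ 4)⁻¹ := by positivity
  have m3 : 0 ≤ CS ^ 2 * C1 * T ^ 6 * (4 / δ0 ^ 2 * (R ^ 4)⁻¹ + w) := by positivity
  have m4 : 0 ≤ CM ^ 2 * C3 * T ^ 6 * (√Y / δ0) * (R ^ 4)⁻¹ := by positivity
  linarith [t2, t3, t4, k1, k2, k4, m1, m2, m3, m4]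

/-- the Gaussian weight -/
def gG (c : ℝ) (γ : Mat) : ℝ≥0∞ := ENNReal.ofReal (Real.exp (-(Real.pi / 2 * c * msq γ)))

/-- `n ≤ 0` -/
def PA (γ : Mat) : Prop := γ.det ≤ 0 ∧ NonSc γ
/-- `n = m + 1`, small `c` -/
def PB (ε : ℝ) (m : ℕ) (γ : Mat) : Prop := γ.det = (m : ℤ) + 1 ∧ NonSc γ ∧
  ((γ 1 0 : ℤ) : ℝ) ^ 2 ≤ ε ^ 2 * ((γ.det : ℤ) : ℝ)
/-- `n = m + 1` -/
def PC (m : ℕ) (γ : Mat) : Prop := γ.det = (m : ℤ) + 1 ∧ NonSc γ

/-- sum over a fixed positive determinant -/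
lemma pos_le {c1 cC cF ε y1 y r : ℝ} (η : ℂ → ℝ) (hη : Bump η) (z0 : ℂ) (m : ℕ)
    (X : Mat → ℝ≥0∞)
    (hX : ∀ γ : Mat, PC m γ → X γ ≤
      ENNReal.ofReal c1 * (∫⁻ z, ENNReal.ofReal (es η r z0 z) *
        (ind (PB ε m γ) (WW y1 y γ z) + gG cF γ)) +
      ENNReal.ofReal cC * (ENNReal.ofReal (r ^ 2)⁻¹ *
        ∫⁻ z in Metric.closedBall z0 r, WW y1 y γ z)) :
    ∑' γ : Mat, ind (PC m γ) (X γ) ≤
      ENNReal.ofReal c1 * (∫⁻ z, ENNReal.ofReal (es η r z0 z) *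
        (sW (PB ε m) y1 y z + ∑' γ : Mat, ind (PC m γ) (gG cF γ))) +
      ENNReal.ofReal cC * (ENNReal.ofReal (r ^ 2)⁻¹ *
        ∫⁻ z in Metric.closedBall z0 r, sW (PC m) y1 y z) := by
  have hes : Measurable fun z => ENNReal.ofReal (es η r z0 z) :=
    ENNReal.measurable_ofReal.comp ((es_cont η hη r).measurable.comp measurable_prodMk_left)
  have h1 : ∀ z, sW (PB ε m) y1 y z + ∑' γ : Mat, ind (PC m γ) (gG cF γ) =
      ∑' γ : Mat, (ind (PB ε m γ) (WW y1 y γ z) + ind (PC m γ) (gG cF γ)) := fun z => by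
    rw [sW_eq, ENNReal.tsum_add]
  have h2 : ∀ z, sW (PC m) y1 y z = ∑' γ : Mat, ind (PC m γ) (WW y1 y γ z) := fun z =>
    sW_eq _ _ _ _
  simp_rw [h1, h2]
  rw [← pull volume (fun z => ENNReal.ofReal (es η r z0 z)) hes
    (fun γ z => ind (PB ε m γ) (WW y1 y γ z) + ind (PC m γ) (gG cF γ))
    (fun γ => (meas_ind (PB ε m) y1 y γ).add measurable_const)]
  have h3 : ENNReal.ofReal cC * (ENNReal.ofReal (r ^ 2)⁻¹ *
      ∫⁻ z in Metric.closedBall z0 r, ∑' γ : Mat, ind (PC m γ) (WW y1 y γ z)) =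
      ∑' γ : Mat, ENNReal.ofReal cC * ENNReal.ofReal (r ^ 2)⁻¹ *
        ∫⁻ z in Metric.closedBall z0 r, (1 : ℝ≥0∞) * ind (PC m γ) (WW y1 y γ z) := by
    rw [pull (volume.restrict (Metric.closedBall z0 r)) (fun _ => 1) measurable_const
      (fun γ z => ind (PC m γ) (WW y1 y γ z)) (fun γ => meas_ind (PC m) y1 y γ)]
    simp only [one_mul]
    rw [mul_assoc]
  rw [h3, ← ENNReal.tsum_add]
  refine ENNReal.tsum_le_tsum fun γ => ?_
  by_cases h : PC m γ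
  · simp only [ind_pos h, one_mul]
    rw [mul_assoc]
    exact hX γ h
  · rw [ind_neg h]
    exact zero_le

/-- sum over all nonpositive determinants -/
lemma neg_le {c1 y1 y r : ℝ} (η : ℂ → ℝ) (hη : Bump η) (z0 : ℂ)
    (X : Mat → ℝ≥0∞)
    (hX : ∀ γ : Mat, PA γ → X γ ≤
      ENNReal.ofReal c1 * (∫⁻ z, ENNReal.ofReal (es η r z0 z) * WW y1 y γ z)) :
    ∑' γ : Mat, ind (PA γ) (X γ) ≤
      ENNReal.ofReal c1 * (∫⁻ z, ENNReal.ofReal (es η r z0 z) * sW PA y1 y z) := by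
  have hes : Measurable fun z => ENNReal.ofReal (es η r z0 z) :=
    ENNReal.measurable_ofReal.comp ((es_cont η hη r).measurable.comp measurable_prodMk_left)
  simp_rw [sW_eq]
  rw [← pull volume (fun z => ENNReal.ofReal (es η r z0 z)) hes
    (fun γ z => ind (PA γ) (WW y1 y γ z)) (fun γ => meas_ind PA y1 y γ)]
  refine ENNReal.tsum_le_tsum fun γ => ?_
  by_cases h : PA γ
  · simp only [ind_pos h]
    exact hX γ h
  · rw [ind_neg h]
    exact zero_le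

/-- the pointwise bound of the whole sum over `n` -/
lemma point_le {c1 cC cF ε y1 y r : ℝ} (η : ℂ → ℝ) (hη : Bump η) (z0 : ℂ) (s : ℂ)
    (hpos : ∀ (m : ℕ) (γ : Mat), PC m γ →
      ‖∫ z, (es η r z0 z : ℂ) * mm s y ((m : ℤ) + 1 : ℤ) (Vd γ z)‖ₑ ≤
      ENNReal.ofReal c1 * (∫⁻ z, ENNReal.ofReal (es η r z0 z) *
        (ind (PB ε m γ) (WW y1 y γ z) + gG cF γ)) +
      ENNReal.ofReal cC * (ENNReal.ofReal (r ^ 2)⁻¹ *
        ∫⁻ z in Metric.closedBall z0 r, WW y1 y γ z))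
    (hneg : ∀ γ : Mat, PA γ →
      ‖∫ z, (es η r z0 z : ℂ) * mm s y ((γ.det : ℤ) : ℝ) (Vd γ z)‖ₑ ≤
      ENNReal.ofReal c1 * (∫⁻ z, ENNReal.ofReal (es η r z0 z) * WW y1 y γ z)) :
    ∑' n : ℤ, ‖MN (es η r z0) s y n‖ₑ ^ 2 ≤
      (∑' m : ℕ, 4 * ((ENNReal.ofReal c1 * (∫⁻ z, ENNReal.ofReal (es η r z0 z) *
        (sW (PB ε m) y1 y z + ∑' γ : Mat, ind (PC m γ) (gG cF γ)))) ^ 2 +
      (ENNReal.ofReal cC * (ENNReal.ofReal (r ^ 2)⁻¹ *
        ∫⁻ z in Metric.closedBall z0 r, sW (PC m) y1 y z)) ^ 2)) +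
      (ENNReal.ofReal c1 * (∫⁻ z, ENNReal.ofReal (es η r z0 z) * sW PA y1 y z)) ^ 2 := by
  rw [tsum_int]
  refine add_le_add (ENNReal.tsum_le_tsum fun m => ?_) ?_
  · refine le_trans ?_ (sq_add_le _ _)
    gcongr
    refine (MN_le _ _ _ _).trans ?_
    exact pos_le η hη z0 m _ (hpos m)
  · refine (sum_sq_le _).trans ?_
    gcongr
    calc ∑' m : ℕ, ‖MN (es η r z0) s y (-(m : ℤ))‖ₑ
        ≤ ∑' m : ℕ, ∑' γ : Mat, ind (γ.det = -(m : ℤ) ∧ NonSc γ)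
            ‖∫ z, (es η r z0 z : ℂ) * mm s y ((γ.det : ℤ) : ℝ) (Vd γ z)‖ₑ := by
          refine ENNReal.tsum_le_tsum fun m => (MN_le _ _ _ _).trans ?_
          refine ENNReal.tsum_le_tsum fun γ => ?_
          by_cases h : γ.det = -(m : ℤ) ∧ NonSc γ
          · rw [ind_pos h, ind_pos h, h.1]
          · rw [ind_neg h, ind_neg h]
      _ ≤ ∑' γ : Mat, ind (PA γ)
            ‖∫ z, (es η r z0 z : ℂ) * mm s y ((γ.det : ℤ) : ℝ) (Vd γ z)‖ₑ := by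
          apply sum_det_le (fun m => -(m : ℤ)) (fun a b h => by simpa using h)
          intro γ m h1 h2
          exact ⟨by rw [h1]; simp, h2⟩
      _ ≤ _ := neg_le η hη z0 _ hneg

/-- integration of the pointwise bound -/
lemma integ {c1 cC ε y1 y r C1 C3 vv gg cF : ℝ} (hc1 : 0 ≤ c1) (hcC : 0 ≤ cC) (hε : 0 < ε)
    (hε1 : ε ≤ 1) (hy1 : 0 < y1) (hy : 1 / 2 ≤ y) (hr : 0 < r) (hC1 : 0 ≤ C1) (hC3 : 0 ≤ C3)
    (hvv : 0 ≤ vv) (hgg : 0 ≤ gg)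
    (η : ℂ → ℝ) (hη : Bump η) (K K' : Set ℂ) (hK : IsCompact K) (hK' : MeasurableSet K')
    (hsub : ∀ z ∈ K, Metric.closedBall z r ⊆ K') (hvol : volume K' = ENNReal.ofReal vv)
    (hG : ∑' γ : Mat, gG cF γ ≤ ENNReal.ofReal gg)
    (hAvg : StmtAvg)
    (hW1 : (∫⁻ z in K', ∑' n : ℕ, sW (fun γ => γ.det = (n : ℤ) + 1 ∧ NonSc γ) y1 y z ^ 2 ≤
        ENNReal.ofReal (C1 / (y * y1))) ∧
      ∀ ε : ℝ, 0 < ε → ε ≤ 1 →
      ∫⁻ z in K', ∑' n : ℕ, sW (fun γ => γ.det = (n : ℤ) + 1 ∧ NonSc γ ∧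
        ((γ 1 0 : ℤ) : ℝ) ^ 2 ≤ ε ^ 2 * ((γ.det : ℤ) : ℝ)) y1 y z ^ 2 ≤
          ENNReal.ofReal (C1 / y * (1 / √y1 + √ε / y1)))
    (hW3 : ∫⁻ z in K', sW (fun γ => γ.det ≤ 0 ∧ NonSc γ) y1 y z ^ 2 ≤
        ENNReal.ofReal (C3 / y * y1 ^ (-(1 / 4 : ℝ)))) :
    ∫⁻ z0 in K, ((∑' m : ℕ, 4 * ((ENNReal.ofReal c1 * (∫⁻ z, ENNReal.ofReal (es η r z0 z) *
        (sW (PB ε m) y1 y z + ∑' γ : Mat, ind (PC m γ) (gG cF γ)))) ^ 2 +
      (ENNReal.ofReal cC * (ENNReal.ofReal (r ^ 2)⁻¹ *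
        ∫⁻ z in Metric.closedBall z0 r, sW (PC m) y1 y z)) ^ 2)) +
      (ENNReal.ofReal c1 * (∫⁻ z, ENNReal.ofReal (es η r z0 z) * sW PA y1 y z)) ^ 2) ≤
    ENNReal.ofReal (4 * (c1 ^ 2 * (4 * (C1 / y * (1 / √y1 + √ε / y1) + vv * gg ^ 2)) +
      cC ^ 2 * (10 * (C1 / (y * y1)))) + c1 ^ 2 * (C3 / y * y1 ^ (-(1 / 4 : ℝ)))) := by
  have hy0 : 0 < y := by linarith
  set G : ℕ → ℝ≥0∞ := fun m => ∑' γ : Mat, ind (PC m γ) (gG cF γ) with hGdef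
  have hFX : ∀ m, Measurable fun z => sW (PB ε m) y1 y z + G m := fun m =>
    (meas_sW (PB ε m) y1 y).add measurable_const
  have mX : ∀ m, Measurable fun z0 => ENNReal.ofReal c1 *
      (∫⁻ z, ENNReal.ofReal (es η r z0 z) * (sW (PB ε m) y1 y z + G m)) := fun m =>
    (meas_av η hη r _ (hFX m)).const_mul _
  have mY : ∀ m, Measurable fun z0 => ENNReal.ofReal cC * (ENNReal.ofReal (r ^ 2)⁻¹ *
      ∫⁻ z in Metric.closedBall z0 r, sW (PC m) y1 y z) := fun m =>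
    ((meas_ball r _ (meas_sW (PC m) y1 y)).const_mul _).const_mul _
  have mA : Measurable fun z0 => ENNReal.ofReal c1 *
      (∫⁻ z, ENNReal.ofReal (es η r z0 z) * sW PA y1 y z) :=
    (meas_av η hη r _ (meas_sW PA y1 y)).const_mul _
  have mX2 : ∀ m, Measurable fun z0 => (ENNReal.ofReal c1 *
      (∫⁻ z, ENNReal.ofReal (es η r z0 z) * (sW (PB ε m) y1 y z + G m))) ^ 2 := fun m =>
    (mX m).pow_const 2
  have mY2 : ∀ m, Measurable fun z0 => (ENNReal.ofReal cC * (ENNReal.ofReal (r ^ 2)⁻¹ *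
      ∫⁻ z in Metric.closedBall z0 r, sW (PC m) y1 y z)) ^ 2 := fun m => (mY m).pow_const 2
  have mA2 : Measurable fun z0 => (ENNReal.ofReal c1 *
      (∫⁻ z, ENNReal.ofReal (es η r z0 z) * sW PA y1 y z)) ^ 2 := mA.pow_const 2
  -- the averages
  have aX : ∀ m, ∫⁻ z0 in K, (ENNReal.ofReal c1 *
      (∫⁻ z, ENNReal.ofReal (es η r z0 z) * (sW (PB ε m) y1 y z + G m))) ^ 2 ≤
      ENNReal.ofReal (c1 ^ 2) * (4 * ((∫⁻ z in K', sW (PB ε m) y1 y z ^ 2) +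
        G m ^ 2 * ENNReal.ofReal vv)) := by
    intro m
    simp_rw [mul_pow]
    rw [lintegral_const_mul _ ((meas_av η hη r _ (hFX m)).pow_const 2), ENNReal.ofReal_pow hc1]
    gcongr
    refine (hAvg η hη K K' hK hK' r hr hsub _ (hFX m)).1.trans ?_
    calc ∫⁻ z in K', (sW (PB ε m) y1 y z + G m) ^ 2
        ≤ ∫⁻ z in K', 4 * (sW (PB ε m) y1 y z ^ 2 + G m ^ 2) :=
          lintegral_mono fun z => sq_add_le _ _
      _ = _ := by
          have q1 : Measurable fun z => sW (PB ε m) y1 y z ^ 2 :=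
            (meas_sW (PB ε m) y1 y).pow_const 2
          have q2 : Measurable fun z => sW (PB ε m) y1 y z ^ 2 + G m ^ 2 :=
            q1.add measurable_const
          rw [lintegral_const_mul _ q2, lintegral_add_left q1, lintegral_const,
            Measure.restrict_apply_univ, hvol]
  have aY : ∀ m, ∫⁻ z0 in K, (ENNReal.ofReal cC * (ENNReal.ofReal (r ^ 2)⁻¹ *
      ∫⁻ z in Metric.closedBall z0 r, sW (PC m) y1 y z)) ^ 2 ≤
      ENNReal.ofReal (cC ^ 2) * (10 * ∫⁻ z in K', sW (PC m) y1 y z ^ 2) := by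
    intro m
    have e1 : ∀ z0, (ENNReal.ofReal cC * (ENNReal.ofReal (r ^ 2)⁻¹ *
      ∫⁻ z in Metric.closedBall z0 r, sW (PC m) y1 y z)) ^ 2 = ENNReal.ofReal cC ^ 2 *
      (ENNReal.ofReal (r ^ 2)⁻¹ *
        ∫⁻ z in Metric.closedBall z0 r, sW (PC m) y1 y z) ^ 2 := fun z0 => mul_pow _ _ 2
    simp_rw [e1]
    rw [lintegral_const_mul _ (((meas_ball r _ (meas_sW (PC m) y1 y)).const_mul _).pow_const 2),
      ENNReal.ofReal_pow hcC]
    gcongr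
    exact (hAvg η hη K K' hK hK' r hr hsub _ (meas_sW (PC m) y1 y)).2
  have aA : ∫⁻ z0 in K, (ENNReal.ofReal c1 *
      (∫⁻ z, ENNReal.ofReal (es η r z0 z) * sW PA y1 y z)) ^ 2 ≤
      ENNReal.ofReal (c1 ^ 2) * ∫⁻ z in K', sW PA y1 y z ^ 2 := by
    simp_rw [mul_pow]
    rw [lintegral_const_mul _ ((meas_av η hη r _ (meas_sW PA y1 y)).pow_const 2),
      ENNReal.ofReal_pow hc1]
    exact mul_le_mul' le_rfl (hAvg η hη K K' hK hK' r hr hsub _ (meas_sW PA y1 y)).1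
  -- sums of the constants
  have sG : ∑' m, G m ^ 2 ≤ ENNReal.ofReal (gg ^ 2) := by
    refine (sum_sq_le G).trans ?_
    rw [ENNReal.ofReal_pow hgg]
    gcongr
    refine le_trans ?_ hG
    rw [hGdef]
    refine (sum_det_le (fun m : ℕ => (m : ℤ) + 1) (fun a b h => by simpa using h) NonSc
      (fun _ => True) (fun _ _ _ _ => trivial) (gG cF)).trans ?_
    refine ENNReal.tsum_le_tsum fun γ => ?_
    rw [ind_pos trivial]
  have sB : ∑' m, ∫⁻ z in K', sW (PB ε m) y1 y z ^ 2 ≤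
      ENNReal.ofReal (C1 / y * (1 / √y1 + √ε / y1)) := by
    rw [← lintegral_tsum fun m => ((meas_sW (PB ε m) y1 y).pow_const 2).aemeasurable]
    exact hW1.2 ε hε hε1
  have sC : ∑' m, ∫⁻ z in K', sW (PC m) y1 y z ^ 2 ≤ ENNReal.ofReal (C1 / (y * y1)) := by
    rw [← lintegral_tsum fun m => ((meas_sW (PC m) y1 y).pow_const 2).aemeasurable]
    exact hW1.1
  have mXY : ∀ m, Measurable fun z0 => (ENNReal.ofReal c1 *
      (∫⁻ z, ENNReal.ofReal (es η r z0 z) * (sW (PB ε m) y1 y z + G m))) ^ 2 +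
      (ENNReal.ofReal cC * (ENNReal.ofReal (r ^ 2)⁻¹ *
      ∫⁻ z in Metric.closedBall z0 r, sW (PC m) y1 y z)) ^ 2 := fun m => (mX2 m).add (mY2 m)
  change ∫⁻ z0 in K, ((∑' m : ℕ, 4 * ((ENNReal.ofReal c1 *
      (∫⁻ z, ENNReal.ofReal (es η r z0 z) * (sW (PB ε m) y1 y z + G m))) ^ 2 +
      (ENNReal.ofReal cC * (ENNReal.ofReal (r ^ 2)⁻¹ *
        ∫⁻ z in Metric.closedBall z0 r, sW (PC m) y1 y z)) ^ 2)) +
      (ENNReal.ofReal c1 * (∫⁻ z, ENNReal.ofReal (es η r z0 z) * sW PA y1 y z)) ^ 2) ≤ _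
  rw [lintegral_add_right _ mA2, lintegral_tsum fun m => ((mXY m).const_mul 4).aemeasurable]
  have hb1 : 0 ≤ C1 / y * (1 / √y1 + √ε / y1) := by positivity
  have hb2 : 0 ≤ C1 / (y * y1) := by positivity
  have hb3 : 0 ≤ C3 / y * y1 ^ (-(1 / 4 : ℝ)) := by positivity
  calc (∑' m : ℕ, ∫⁻ z0 in K, 4 * ((ENNReal.ofReal c1 * (∫⁻ z, ENNReal.ofReal (es η r z0 z) *
        (sW (PB ε m) y1 y z + G m))) ^ 2 +
      (ENNReal.ofReal cC * (ENNReal.ofReal (r ^ 2)⁻¹ *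
        ∫⁻ z in Metric.closedBall z0 r, sW (PC m) y1 y z)) ^ 2)) +
      ∫⁻ z0 in K, (ENNReal.ofReal c1 *
        (∫⁻ z, ENNReal.ofReal (es η r z0 z) * sW PA y1 y z)) ^ 2
      ≤ (∑' m : ℕ, 4 * (ENNReal.ofReal (c1 ^ 2) * (4 * ((∫⁻ z in K', sW (PB ε m) y1 y z ^ 2) +
        G m ^ 2 * ENNReal.ofReal vv)) +
        ENNReal.ofReal (cC ^ 2) * (10 * ∫⁻ z in K', sW (PC m) y1 y z ^ 2))) +
        ENNReal.ofReal (c1 ^ 2) * ∫⁻ z in K', sW PA y1 y z ^ 2 := by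
        refine add_le_add (ENNReal.tsum_le_tsum fun m => ?_) aA
        rw [lintegral_const_mul _ (mXY m), lintegral_add_left (mX2 m)]
        gcongr
        · exact aX m
        · exact aY m
    _ = 4 * (ENNReal.ofReal (c1 ^ 2) * (4 * ((∑' m : ℕ, ∫⁻ z in K', sW (PB ε m) y1 y z ^ 2) +
        (∑' m, G m ^ 2) * ENNReal.ofReal vv)) +
        ENNReal.ofReal (cC ^ 2) * (10 * ∑' m : ℕ, ∫⁻ z in K', sW (PC m) y1 y z ^ 2)) +
        ENNReal.ofReal (c1 ^ 2) * ∫⁻ z in K', sW PA y1 y z ^ 2 := by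
        rw [ENNReal.tsum_mul_left, ENNReal.tsum_add, ENNReal.tsum_mul_left, ENNReal.tsum_mul_left,
          ENNReal.tsum_add, ENNReal.tsum_mul_right, ENNReal.tsum_mul_left, ENNReal.tsum_mul_left]
    _ ≤ 4 * (ENNReal.ofReal (c1 ^ 2) * (4 * (ENNReal.ofReal (C1 / y * (1 / √y1 + √ε / y1)) +
        ENNReal.ofReal (gg ^ 2) * ENNReal.ofReal vv)) +
        ENNReal.ofReal (cC ^ 2) * (10 * ENNReal.ofReal (C1 / (y * y1)))) +
        ENNReal.ofReal (c1 ^ 2) * ENNReal.ofReal (C3 / y * y1 ^ (-(1 / 4 : ℝ))) := by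
        gcongr
        exact hW3
    _ = _ := by
        have e4 : (4 : ℝ≥0∞) = ENNReal.ofReal 4 := by simp
        have e10 : (10 : ℝ≥0∞) = ENNReal.ofReal 10 := by simp
        rw [e4, e10, ← ENNReal.ofReal_mul (sq_nonneg gg), ← ENNReal.ofReal_add hb1 (by positivity),
          ← ENNReal.ofReal_mul (by norm_num), ← ENNReal.ofReal_mul (sq_nonneg c1),
          ← ENNReal.ofReal_mul (by norm_num), ← ENNReal.ofReal_mul (sq_nonneg cC),
          ← ENNReal.ofReal_add (by positivity) (by positivity), ← ENNReal.ofReal_mul (by norm_num),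
          ← ENNReal.ofReal_mul (sq_nonneg c1), ← ENNReal.ofReal_add (by positivity) (by positivity)]
        congr 1
        ring

end

end Pool.Agent.A54.Av.G2M

namespace Pool.Agent.A54.Av

open MeasureTheory Filter Topology Set G2M
open scoped ContDiff ComplexConjugate UpperHalfPlane MatrixGroups ENNReal
open Pool.Agent.A54.Half (H0)

theorem stmtG2 (hMb : StmtMb) (hW1 : StmtW1) (hW3 : StmtW3) (hAvg : StmtAvg) (_hDl : StmtDl)
    (hSm : StmtSm3) (hFar : StmtFar) (hQF : StmtQF) (hGau : StmtGau) : StmtG2 := by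
  intro η hη K hK hKH
  obtain ⟨ρ0, hρ0, hthick⟩ :=
    hK.exists_cthickening_subset_open Pool.Agent.A54.Half.isOpen_H0 hKH
  set K' := Metric.cthickening ρ0 K with hK'def
  have hK'c : IsCompact K' := hK.cthickening
  have hK'm : MeasurableSet K' := hK'c.measurableSet
  obtain ⟨CM, hCM0, hMb'⟩ := hMb
  obtain ⟨C1, hC1, hW1'⟩ := hW1 K' hK'c hthick
  obtain ⟨C3, hC3, hW3'⟩ := hW3 K' hK'c hthick
  refine ⟨16 * CM ^ 2 * C1, by positivity, ?_⟩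
  intro ε Y δ0 hε hε1 hY hδ0
  obtain ⟨CS, rS, hCS, hrS, hSm'⟩ := hSm η hη K hK hKH ε hε
  obtain ⟨cF, rF, hcF, hrF, hFar'⟩ := hFar K hK hKH ε hε
  obtain ⟨hsum, -, -⟩ := hGau
  have hsum' := hsum (Real.pi / 2 * cF) (by positivity)
  set gg := ∑' γ : Mat, Real.exp (-(Real.pi / 2 * cF * msq γ)) with hgg
  have hgg0 : 0 ≤ gg := tsum_nonneg fun γ => (Real.exp_pos _).le
  have hG : ∑' γ : Mat, gG cF γ ≤ ENNReal.ofReal gg := by
    rw [hgg, ENNReal.ofReal_tsum_of_nonneg (fun γ => (Real.exp_pos _).le) hsum']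
    rfl
  set vv := (volume K').toReal with hvv
  have hvol : volume K' = ENNReal.ofReal vv := (ENNReal.ofReal_toReal hK'c.measure_lt_top.ne).symm
  have hvv0 : 0 ≤ vv := ENNReal.toReal_nonneg
  refine ⟨16 * CM ^ 2 * C1 * (√Y / δ0) +
      16 * CM ^ 2 * vv * gg ^ 2 * Y * (√Y / δ0) + 80 * CS ^ 2 * C1 * (1 + 4 / δ0 ^ 2) +
      CM ^ 2 * C3 * (√Y / δ0), by positivity, ?_⟩
  intro R hR
  set ρ := min ρ0 (min rS rF) with hρ
  have hρp : 0 < ρ := lt_min hρ0 (lt_min hrS hrF)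
  refine ⟨max 2 (max (√Y / δ0) (R / ρ)), le_max_left _ _, ?_⟩
  intro T hT y θ hy hyY hθ hδ
  have hT2 : 2 ≤ T := (le_max_left _ _).trans hT
  have hTY : √Y / δ0 ≤ T := (le_max_left _ _).trans ((le_max_right _ _).trans hT)
  have hTR : R / ρ ≤ T := (le_max_right _ _).trans ((le_max_right _ _).trans hT)
  have hT0 : 0 < T := by linarith
  have hy0 : 0 < y := by linarith
  have hR0 : 0 < R := by linarith
  have hr0 : 0 < R / T := by positivity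
  have hrρ : R / T ≤ ρ := by
    rw [div_le_iff₀ hT0]
    rw [div_le_iff₀ hρp] at hTR
    linarith
  have hδp : 0 < dl T θ := lt_of_lt_of_le hδ0 hδ
  have hyo : 0 < yo T θ y := by unfold yo; positivity
  have hr1 : R / T ≤ ρ0 := hrρ.trans (min_le_left _ _)
  have hr2 : R / T ≤ rS := hrρ.trans ((min_le_right _ _).trans (min_le_left _ _))
  have hr3 : R / T ≤ rF := hrρ.trans ((min_le_right _ _).trans (min_le_right _ _))
  have hsub : ∀ z ∈ K, Metric.closedBall z (R / T) ⊆ K' := fun z hz =>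
    (Metric.closedBall_subset_closedBall hr1).trans (Metric.closedBall_subset_cthickening hz ρ0)
  have hc1 : 0 ≤ CM * T ^ 2 * (y / dl T θ) := by positivity
  have hcC : 0 ≤ CS * (y / dl T θ) * (((R / T) ^ 2)⁻¹ + 2 / δ0) := by positivity
  have hpt : ∀ z0 ∈ K, ∑' n : ℤ, ‖MN (es η (R / T) z0) (qs (qT T) θ) y n‖ₑ ^ 2 ≤
      (∑' m : ℕ, 4 * ((ENNReal.ofReal (CM * T ^ 2 * (y / dl T θ)) *
        (∫⁻ z, ENNReal.ofReal (es η (R / T) z0 z) *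
        (sW (PB ε m) (yo T θ y) y z + ∑' γ : Mat, ind (PC m γ) (gG cF γ)))) ^ 2 +
      (ENNReal.ofReal (CS * (y / dl T θ) * (((R / T) ^ 2)⁻¹ + 2 / δ0)) *
        (ENNReal.ofReal ((R / T) ^ 2)⁻¹ *
        ∫⁻ z in Metric.closedBall z0 (R / T), sW (PC m) (yo T θ y) y z)) ^ 2)) +
      (ENNReal.ofReal (CM * T ^ 2 * (y / dl T θ)) *
        (∫⁻ z, ENNReal.ofReal (es η (R / T) z0 z) * sW PA (yo T θ y) y z)) ^ 2 := by
    intro z0 hz0
    have hball : Metric.closedBall z0 (R / T) ⊆ H0 := (hsub z0 hz0).trans hthick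
    apply point_le η hη z0
    · intro m γ hγ
      have hdet : γ.det = (m : ℤ) + 1 := hγ.1
      have hdet1 : 1 ≤ γ.det := by omega
      by_cases hB : ((γ 1 0 : ℤ) : ℝ) ^ 2 ≤ ε ^ 2 * ((γ.det : ℤ) : ℝ)
      · have hPB : PB ε m γ := ⟨hγ.1, hγ.2, hB⟩
        refine le_trans ?_ le_self_add
        apply term_le hCM0 hMb' hQF η hη hT2 hθ hy0 hr0 z0 hball γ _ hdet
        intro z _
        rw [ind_pos hPB]
        exact le_self_add
      · push Not at hB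
        by_cases hN : ∀ z ∈ Metric.closedBall z0 (R / T),
            Vd γ z ≤ (((γ 1 0 : ℤ) : ℝ) * z.im / 4) ^ 2
        · refine le_trans ?_ le_add_self
          exact term_le_sm hCS η hT2 hy0 hδ0 hδ z0 γ _ hdet (by omega)
            (hSm' z0 hz0 (R / T) hr0 hr2 γ hdet1 hB.le hN)
        · push Not at hN
          refine le_trans ?_ le_self_add
          apply term_le hCM0 hMb' hQF η hη hT2 hθ hy0 hr0 z0 hball γ _ hdet
          intro z hz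
          have hV := hFar' z0 hz0 (R / T) hr0 hr3 γ hdet1 hB.le hN z hz
          obtain ⟨hV0, hnV, -⟩ := hQF γ z z (hball hz) (hball hz)
          refine le_trans ?_ le_add_self
          unfold WW gG
          apply ENNReal.ofReal_le_ofReal
          apply Real.exp_le_exp.2
          have h1 : 0 ≤ yo T θ y * (((γ.det : ℤ) : ℝ) + Vd γ z) := mul_nonneg hyo.le hnV
          have h2 : 1 / 2 * (cF * msq γ) ≤ y * Vd γ z :=
            mul_le_mul hy hV (mul_nonneg hcF.le (by unfold msq; positivity)) hy0.le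
          nlinarith [Real.pi_pos]
    · intro γ hγ
      apply term_le hCM0 hMb' hQF η hη hT2 hθ hy0 hr0 z0 hball γ _ rfl
      intro z _
      exact le_rfl
  calc ∫⁻ z0 in K, ∑' n : ℤ, ‖MN (es η (R / T) z0) (qs (qT T) θ) y n‖ₑ ^ 2
      ≤ _ := setLIntegral_mono' hK.measurableSet hpt
    _ ≤ _ := integ hc1 hcC hε hε1 hyo hy hr0 hC1 hC3 hvv0 hgg0 η hη K K' hK hK'm hsub hvol hG hAvg
        (hW1' (yo T θ y) y hyo hy) (hW3' (yo T θ y) y hyo hy)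
    _ ≤ _ := by
        apply ENNReal.ofReal_le_ofReal
        exact final_real hC1 hC3 hvv0 hT2 hR hy hyY hδ0 hδ rfl rfl hTY

end Pool.Agent.A54.Av
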