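import Pool.Agent.Lib.MP_a54f13_nt.Av.SpecA

/-!
# Package `Av`, module GI: the geometric side

Two Parseval inequalities: in `x` (by Fatou's lemma, from finite trigonometric polynomials) and on
the circle of radius `q` (Bessel's inequality). No measurability of the inner integrals is needed,
because the lower integral is superadditive.
-/

set_option autoImplicit false

namespace Pool.Agent.A54.Av.GIM

open MeasureTheory Filter Topology Set
open scoped ContDiff ComplexConjugate UpperHalfPlane MatrixGroups ENNReal NNReal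
open Pool.Agent.A54.Half (H0 qq ff hh)

noncomputable section

/-- the exponentials of period `2 L` -/
def E (L : ℝ) (k : ℤ) (x : ℝ) : ℂ := Complex.exp ((k : ℂ) * ((Real.pi / L * x : ℝ) : ℂ) * Complex.I)

lemma E_cont (L : ℝ) (k : ℤ) : Continuous (E L k) := by
  unfold E; fun_prop

lemma E_mul_conj (L : ℝ) (n m : ℤ) (x : ℝ) : E L n x * conj (E L m x) = E L (n - m) x := by
  unfold E
  rw [← Complex.exp_conj, ← Complex.exp_add]
  congr 1
  simp only [map_mul, Complex.conj_ofReal, Complex.conj_I]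
  have : conj ((m : ℤ) : ℂ) = ((m : ℤ) : ℂ) := map_intCast (starRingEnd ℂ) m
  rw [this]
  push_cast
  ring

lemma int_E (L : ℝ) (hL : 0 < L) (k : ℤ) :
    ∫ x in (-L)..L, E L k x = if k = 0 then ((2 * L : ℝ) : ℂ) else 0 := by
  unfold E
  split_ifs with hk
  · subst hk
    simp
    ring
  · have hpi : (Real.pi : ℝ) ≠ 0 := Real.pi_ne_zero
    set c : ℂ := (k : ℂ) * ((Real.pi / L : ℝ) : ℂ) * Complex.I with hc
    have hc0 : c ≠ 0 := by
      rw [hc]
      refine mul_ne_zero (mul_ne_zero ?_ ?_) Complex.I_ne_zero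
      · exact_mod_cast hk
      · exact_mod_cast (div_ne_zero hpi hL.ne')
    have h1 : ∀ x : ℝ, Complex.exp ((k : ℂ) * ((Real.pi / L * x : ℝ) : ℂ) * Complex.I) =
        Complex.exp (c * x) := by
      intro x; rw [hc]; congr 1; push_cast; ring
    simp_rw [h1]
    rw [integral_exp_mul_complex hc0]
    have h2 : c * (L : ℂ) = c * ((-L : ℝ) : ℂ) + (k : ℂ) * (2 * Real.pi * Complex.I) := by
      rw [hc]; push_cast
      have : (L : ℂ) ≠ 0 := by exact_mod_cast hL.ne'
      field_simp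
      ring
    rw [h2, Complex.exp_add, Complex.exp_int_mul_two_pi_mul_I, mul_one, sub_self, zero_div]

/-- a trigonometric polynomial -/
def TP (L : ℝ) (s : Finset ℤ) (a : ℤ → ℂ) (x : ℝ) : ℂ := ∑ n ∈ s, a n * E L n x

lemma TP_cont (L : ℝ) (s : Finset ℤ) (a : ℤ → ℂ) : Continuous (TP L s a) := by
  unfold TP
  exact continuous_finsetSum _ fun n _ => continuous_const.mul (E_cont L n)

lemma int_mul_conj_TP (L : ℝ) (s : Finset ℤ) (a : ℤ → ℂ) (F : ℝ → ℂ) (hF : Continuous F) :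
    ∫ x in (-L)..L, F x * conj (TP L s a x) =
      ∑ n ∈ s, conj (a n) * ∫ x in (-L)..L, F x * conj (E L n x) := by
  have h1 : ∀ x, F x * conj (TP L s a x) = ∑ n ∈ s, conj (a n) * (F x * conj (E L n x)) := by
    intro x
    unfold TP
    rw [map_sum, Finset.mul_sum]
    refine Finset.sum_congr rfl fun n _ => ?_
    rw [map_mul]; ring
  simp_rw [h1]
  rw [intervalIntegral.integral_finsetSum]
  · refine Finset.sum_congr rfl fun n _ => ?_
    rw [intervalIntegral.integral_const_mul]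
  · intro n _
    apply Continuous.intervalIntegrable
    have := E_cont L n
    fun_prop

lemma int_TP_conj_E (L : ℝ) (hL : 0 < L) (s : Finset ℤ) (a : ℤ → ℂ) (m : ℤ) (hm : m ∈ s) :
    ∫ x in (-L)..L, TP L s a x * conj (E L m x) = ((2 * L : ℝ) : ℂ) * a m := by
  have h1 : ∀ x, TP L s a x * conj (E L m x) = ∑ n ∈ s, a n * E L (n - m) x := by
    intro x
    unfold TP
    rw [Finset.sum_mul]
    refine Finset.sum_congr rfl fun n _ => ?_
    rw [mul_assoc, E_mul_conj]
  simp_rw [h1]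
  rw [intervalIntegral.integral_finsetSum]
  · have h2 : ∀ n ∈ s, ∫ x in (-L)..L, a n * E L (n - m) x =
        if n = m then ((2 * L : ℝ) : ℂ) * a m else 0 := by
      intro n _
      rw [intervalIntegral.integral_const_mul, int_E L hL]
      by_cases h : n = m
      · subst h; simp; ring
      · have : n - m ≠ 0 := sub_ne_zero.2 h
        simp [h, this]
    rw [Finset.sum_congr rfl h2]
    simp [hm]
  · intro n _
    apply Continuous.intervalIntegrable
    have := E_cont L (n - m)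
    fun_prop

lemma norm_sq_cast (w : ℂ) : ((‖w‖ ^ 2 : ℝ) : ℂ) = w * conj w := by
  rw [Complex.mul_conj, Complex.normSq_eq_norm_sq]

lemma int_TP_sq (L : ℝ) (hL : 0 < L) (s : Finset ℤ) (a : ℤ → ℂ) :
    ∫ x in (-L)..L, ‖TP L s a x‖ ^ 2 = 2 * L * ∑ n ∈ s, ‖a n‖ ^ 2 := by
  have h : ((∫ x in (-L)..L, ‖TP L s a x‖ ^ 2 : ℝ) : ℂ) = ((2 * L * ∑ n ∈ s, ‖a n‖ ^ 2 : ℝ) : ℂ) := by
    rw [← intervalIntegral.integral_ofReal]
    simp_rw [norm_sq_cast]
    rw [int_mul_conj_TP L s a _ (TP_cont L s a)]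
    rw [Finset.sum_congr rfl fun n hn => by rw [int_TP_conj_E L hL s a n hn]]
    push_cast
    rw [Finset.mul_sum]
    refine Finset.sum_congr rfl fun n _ => ?_
    have := norm_sq_cast (a n)
    push_cast at this
    rw [this]; ring
  exact_mod_cast h

lemma bessel (L : ℝ) (hL : 0 < L) (s : Finset ℤ) (F : ℝ → ℂ) (hF : Continuous F) (c : ℤ → ℂ)
    (hc : ∀ n ∈ s, ∫ x in (-L)..L, F x * conj (E L n x) = ((2 * L : ℝ) : ℂ) * c n) :
    2 * L * ∑ n ∈ s, ‖c n‖ ^ 2 ≤ ∫ x in (-L)..L, ‖F x‖ ^ 2 := by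
  have h0 : 0 ≤ ∫ x in (-L)..L, ‖F x - TP L s c x‖ ^ 2 :=
    intervalIntegral.integral_nonneg (by linarith) fun x _ => by positivity
  have hTP := TP_cont L s c
  have h1 : ∀ x, ‖F x - TP L s c x‖ ^ 2 =
      ‖F x‖ ^ 2 - 2 * (F x * conj (TP L s c x)).re + ‖TP L s c x‖ ^ 2 := by
    intro x
    rw [← Complex.normSq_eq_norm_sq, ← Complex.normSq_eq_norm_sq, ← Complex.normSq_eq_norm_sq,
      Complex.normSq_sub]
    ring
  have hcc : Continuous fun x => F x * conj (TP L s c x) :=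
    hF.mul (Complex.continuous_conj.comp hTP)
  have h2 : ∫ x in (-L)..L, (F x * conj (TP L s c x)).re = 2 * L * ∑ n ∈ s, ‖c n‖ ^ 2 := by
    have h3 := int_mul_conj_TP L s c F hF
    have h4 : ∫ x in (-L)..L, (F x * conj (TP L s c x)).re =
        (∫ x in (-L)..L, F x * conj (TP L s c x)).re := by
      have := (Complex.reCLM).intervalIntegral_comp_comm
        (hcc.intervalIntegrable (μ := volume) (-L) L)
      simpa using this
    rw [h4, h3, Finset.sum_congr rfl fun n hn => by rw [hc n hn]]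
    have h5 : ∑ n ∈ s, conj (c n) * (((2 * L : ℝ) : ℂ) * c n) =
        ((2 * L * ∑ n ∈ s, ‖c n‖ ^ 2 : ℝ) : ℂ) := by
      push_cast
      rw [Finset.mul_sum]
      refine Finset.sum_congr rfl fun n _ => ?_
      have := norm_sq_cast (c n)
      push_cast at this
      rw [this]; ring
    rw [h5, Complex.ofReal_re]
  simp_rw [h1] at h0
  rw [intervalIntegral.integral_add, intervalIntegral.integral_sub,
    intervalIntegral.integral_const_mul, h2, int_TP_sq L hL] at h0
  · linarith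
  · exact (hF.norm.pow 2).intervalIntegrable _ _
  · exact (continuous_const.mul (Complex.continuous_re.comp hcc)).intervalIntegrable _ _
  · exact ((hF.norm.pow 2).sub
      (continuous_const.mul (Complex.continuous_re.comp hcc))).intervalIntegrable _ _
  · exact (hTP.norm.pow 2).intervalIntegrable _ _

lemma lint_sq (L : ℝ) (hL : 0 < L) (F : ℝ → ℂ) (hF : Continuous F) :
    ∫⁻ x in Ioc (-L) L, ‖F x‖ₑ ^ 2 = ENNReal.ofReal (∫ x in (-L)..L, ‖F x‖ ^ 2) := by
  rw [intervalIntegral.integral_of_le (by linarith), ofReal_integral_eq_lintegral_ofReal]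
  · refine lintegral_congr fun x => ?_
    rw [ENNReal.ofReal_pow (norm_nonneg _), ofReal_norm]
  · exact ((hF.norm.pow 2).integrableOn_Icc (a := -L) (b := L)).mono_set Ioc_subset_Icc_self
  · exact Eventually.of_forall fun x => by positivity

lemma fatou (L : ℝ) (hL : 0 < L) (a : ℤ → ℂ) (P : ℝ → ℂ)
    (hP : ∀ x, HasSum (fun n => a n * E L n x) (P x)) :
    ∫⁻ x in Ioc (-L) L, ‖P x‖ₑ ^ 2 ≤ ENNReal.ofReal (2 * L) * ∑' n, ‖a n‖ₑ ^ 2 := by
  have h1 : ∀ x, Tendsto (fun M : ℕ => ‖TP L (Finset.Icc (-(M : ℤ)) M) a x‖ₑ ^ 2) atTop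
      (𝓝 (‖P x‖ₑ ^ 2)) := by
    intro x
    have h2 : Tendsto (fun M : ℕ => TP L (Finset.Icc (-(M : ℤ)) M) a x) atTop (𝓝 (P x)) :=
      (hP x).comp Finset.tendsto_Icc_neg
    exact ENNReal.Tendsto.pow h2.enorm
  calc ∫⁻ x in Ioc (-L) L, ‖P x‖ₑ ^ 2
      = ∫⁻ x in Ioc (-L) L, liminf (fun M : ℕ => ‖TP L (Finset.Icc (-(M : ℤ)) M) a x‖ₑ ^ 2) atTop := by
        refine lintegral_congr fun x => ?_
        exact (h1 x).liminf_eq.symm
    _ ≤ liminf (fun M : ℕ => ∫⁻ x in Ioc (-L) L, ‖TP L (Finset.Icc (-(M : ℤ)) M) a x‖ₑ ^ 2) atTop := by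
        apply lintegral_liminf_le
        intro M
        exact ((TP_cont L _ a).enorm.measurable).pow_const 2
    _ ≤ ENNReal.ofReal (2 * L) * ∑' n, ‖a n‖ₑ ^ 2 := by
        refine liminf_le_of_frequently_le' (Frequently.of_forall fun M => ?_)
        rw [lint_sq L hL _ (TP_cont L _ a), int_TP_sq L hL, ENNReal.ofReal_mul (by linarith)]
        gcongr
        rw [ENNReal.ofReal_sum_of_nonneg fun n _ => by positivity]
        refine le_trans (le_of_eq ?_) (ENNReal.sum_le_tsum (Finset.Icc (-(M : ℤ)) M))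
        refine Finset.sum_congr rfl fun n _ => ?_
        rw [ENNReal.ofReal_pow (norm_nonneg _), ofReal_norm]


lemma range_coe_eq : Set.range UpperHalfPlane.coe = {z : ℂ | 0 < z.im} := by
  ext z
  constructor
  · rintro ⟨w, rfl⟩
    exact w.im_pos
  · intro hz
    exact ⟨⟨z, hz⟩, rfl⟩

lemma lint_gen (G : ℂ → ℝ≥0∞) (hG : Measurable G) :
    ∫⁻ z : ℍ, G z = ∫⁻ z in {z : ℂ | 0 < z.im}, ENNReal.ofReal ((z.im ^ 2)⁻¹) * G z := by
  have hmeas : Measurable (fun z : ℍ => (1 / NNReal.mk z.im z.im_pos.le : ℝ≥0) ^ 2) := by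
    have h1 : Measurable (fun z : ℍ => NNReal.mk z.im z.im_pos.le) :=
      (UpperHalfPlane.continuous_im.subtype_mk _).measurable
    exact (h1.const_div 1).pow_const 2
  rw [UpperHalfPlane.volume_def, lintegral_withDensity_eq_lintegral_mul _ (by
    exact measurable_coe_nnreal_ennreal.comp hmeas) (by
    exact hG.comp UpperHalfPlane.measurableEmbedding_coe.measurable)]
  have h2 : ∀ z : ℍ, ((fun z : ℍ => (((1 / NNReal.mk z.im z.im_pos.le : ℝ≥0) ^ 2 : ℝ≥0) : ℝ≥0∞)) *
      (fun z : ℍ => G z)) z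
      = (fun w : ℂ => ENNReal.ofReal ((w.im ^ 2)⁻¹) * G w) (z : ℂ) := by
    intro z
    simp only [Pi.mul_apply]
    congr 1
    rw [ENNReal.ofReal, ENNReal.coe_inj]
    apply NNReal.eq
    rw [Real.coe_toNNReal _ (by positivity)]
    push_cast
    simp
  simp_rw [h2]
  rw [← UpperHalfPlane.measurableEmbedding_coe.lintegral_map
      (fun w : ℂ => ENNReal.ofReal ((w.im ^ 2)⁻¹) * G w),
    UpperHalfPlane.measurableEmbedding_coe.map_comap, range_coe_eq]

lemma isOpen_fdo : IsOpen ModularGroup.fdo := by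
  have : ModularGroup.fdo = {z : ℍ | 1 < Complex.normSq (z : ℂ)} ∩ {z : ℍ | |z.re| < (1 : ℝ) / 2} := rfl
  rw [this]
  apply IsOpen.inter
  · exact isOpen_lt continuous_const (Complex.continuous_normSq.comp UpperHalfPlane.continuous_coe)
  · exact isOpen_lt (continuous_abs.comp UpperHalfPlane.continuous_re) continuous_const

lemma lint_fdo (F : ℂ → ℝ≥0∞) (hF : Measurable F) :
    ∫⁻ τ in ModularGroup.fdo, F (τ : ℂ) ≤ ∫⁻ y in Ioi (√3 / 2), ENNReal.ofReal ((y ^ 2)⁻¹) *
      ∫⁻ x in Ioc (-(1 / 2) : ℝ) (1 / 2), F ⟨x, y⟩ := by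
  have hmf : MeasurableSet ModularGroup.fdo := isOpen_fdo.measurableSet
  set S : Set ℂ := {z : ℂ | z.re ∈ Ioc (-(1 / 2) : ℝ) (1 / 2) ∧ z.im ∈ Ioi (√3 / 2)} with hS
  have hSm : MeasurableSet S :=
    (Complex.measurable_re measurableSet_Ioc).inter (Complex.measurable_im measurableSet_Ioi)
  have hG : Measurable (S.indicator F) := hF.indicator hSm
  calc ∫⁻ τ in ModularGroup.fdo, F (τ : ℂ)
      = ∫⁻ τ : ℍ, ModularGroup.fdo.indicator (fun τ : ℍ => F (τ : ℂ)) τ :=
        (lintegral_indicator hmf _).symm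
    _ ≤ ∫⁻ τ : ℍ, S.indicator F (τ : ℂ) := by
        refine lintegral_mono fun τ => ?_
        by_cases hτ : τ ∈ ModularGroup.fdo
        · have h1 : (τ : ℂ) ∈ S := by
            have h2 := ModularGroup.three_lt_four_mul_im_sq_of_mem_fdo hτ
            have h3 : |τ.re| < (1 : ℝ) / 2 := hτ.2
            rw [abs_lt] at h3
            refine ⟨⟨?_, ?_⟩, ?_⟩
            · exact h3.1
            · exact h3.2.le
            · change √3 / 2 < τ.im
              have h4 : √3 < 2 * τ.im := by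
                rw [Real.sqrt_lt' (by have := τ.im_pos; linarith)]
                nlinarith
              linarith
          rw [indicator_of_mem hτ, indicator_of_mem h1]
        · rw [indicator_of_notMem hτ]; exact zero_le
    _ = ∫⁻ z in {z : ℂ | 0 < z.im}, ENNReal.ofReal ((z.im ^ 2)⁻¹) * S.indicator F z :=
        lint_gen _ hG
    _ ≤ ∫⁻ z : ℂ, ENNReal.ofReal ((z.im ^ 2)⁻¹) * S.indicator F z := setLIntegral_le_lintegral _ _
    _ = ∫⁻ p : ℝ × ℝ, ENNReal.ofReal ((p.2 ^ 2)⁻¹) * S.indicator F ⟨p.1, p.2⟩ := by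
        have h := Complex.volume_preserving_equiv_real_prod.symm.lintegral_comp
          (f := fun z : ℂ => ENNReal.ofReal ((z.im ^ 2)⁻¹) * S.indicator F z) (by
            refine Measurable.mul ?_ hG
            exact ENNReal.measurable_ofReal.comp ((Complex.measurable_im.pow_const 2).inv))
        rw [← h]
        rfl
    _ = ∫⁻ y, ∫⁻ x, ENNReal.ofReal ((y ^ 2)⁻¹) * S.indicator F ⟨x, y⟩ := by
        rw [Measure.volume_eq_prod, lintegral_prod_symm']
        have h1 : Measurable fun p : ℝ × ℝ => (⟨p.1, p.2⟩ : ℂ) :=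
          Complex.measurableEquivRealProd.symm.measurable
        refine Measurable.mul ?_ (hG.comp h1)
        exact ENNReal.measurable_ofReal.comp ((measurable_snd.pow_const 2).inv)
    _ = ∫⁻ y in Ioi (√3 / 2), ENNReal.ofReal ((y ^ 2)⁻¹) *
      ∫⁻ x in Ioc (-(1 / 2) : ℝ) (1 / 2), F ⟨x, y⟩ := by
        rw [← lintegral_indicator measurableSet_Ioi]
        refine lintegral_congr fun y => ?_
        by_cases hy : y ∈ Ioi (√3 / 2)
        · rw [indicator_of_mem hy, lintegral_const_mul']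
          · congr 1
            rw [← lintegral_indicator measurableSet_Ioc]
            refine lintegral_congr fun x => ?_
            by_cases hx : x ∈ Ioc (-(1 / 2) : ℝ) (1 / 2)
            · have h1 : (⟨x, y⟩ : ℂ) ∈ S := ⟨hx, hy⟩
              rw [indicator_of_mem hx, indicator_of_mem h1]
            · have h1 : (⟨x, y⟩ : ℂ) ∉ S := fun h => hx h.1
              rw [indicator_of_notMem hx, indicator_of_notMem h1]
          · exact ENNReal.ofReal_ne_top
        · rw [indicator_of_notMem hy]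
          have h1 : ∀ x : ℝ, (⟨x, y⟩ : ℂ) ∉ S := fun x h => hy h.2
          simp [indicator_of_notMem (h1 _)]


lemma qs_norm (q θ : ℝ) (hq : 0 < q) : ‖qs q θ‖ = q := by
  unfold qs
  rw [norm_mul, Complex.norm_exp_ofReal_mul_I, mul_one, Complex.norm_real, Real.norm_eq_abs,
    abs_of_pos hq]

lemma qs_cont (q : ℝ) : Continuous (qs q) := by
  unfold qs; fun_prop

lemma one_sub_norm (s : ℂ) : 1 - ‖s‖ ≤ ‖1 - s‖ := by
  have := norm_sub_norm_le (1 : ℂ) s
  rwa [norm_one] at this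

lemma re_inv (s : ℂ) (hs : ‖s‖ < 1) : 1 / 2 ≤ ((1 - s)⁻¹).re := by
  have hns : 0 < Complex.normSq (1 - s) := by
    rw [Complex.normSq_pos]
    intro h
    have : s = 1 := by linear_combination -h
    rw [this, norm_one] at hs
    exact lt_irrefl _ hs
  rw [Complex.inv_re, le_div_iff₀ hns]
  have h1 : s.re ^ 2 + s.im ^ 2 < 1 := by
    have h2 : Complex.normSq s < 1 := by
      rw [Complex.normSq_eq_norm_sq]
      have := norm_nonneg s
      nlinarith
    rw [Complex.normSq_apply] at h2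
    nlinarith
  rw [Complex.normSq_apply]
  simp only [Complex.sub_re, Complex.sub_im, Complex.one_re, Complex.one_im]
  nlinarith

lemma mm_bound (q y n : ℝ) (hq : 0 < q) (hq1 : q < 1) (hy : 0 < y) : ∃ A : ℝ, 0 ≤ A ∧
    ∀ θ V : ℝ, 0 ≤ V → ‖mm (qs q θ) y n V‖ ≤ A * Real.exp (-(Real.pi * y * V)) := by
  have hpi := Real.pi_pos
  have h1q : 0 < 1 - q := by linarith
  -- polynomial bound
  set D : ℝ := (1 - q)⁻¹ with hD
  have hD0 : 0 < D := inv_pos.2 h1q
  obtain ⟨B, hB0, hB⟩ : ∃ B : ℝ, 0 ≤ B ∧ ∀ V : ℝ, 0 ≤ V →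
      (4 * Real.pi * y * (2 * V + |n|) * D + (4 * Real.pi * y) ^ 2 * V * (|n| + V) * D ^ 2) *
        Real.exp (-(Real.pi * y * V)) ≤ B := by
    -- (1 + V)^2 exp(-c V) is bounded
    set c : ℝ := Real.pi * y with hc
    have hc0 : 0 < c := mul_pos hpi hy
    have e1 : ∀ V : ℝ, 0 ≤ V → V * Real.exp (-(c * V)) ≤ 1 / c := by
      intro V hV
      have h := Real.add_one_le_exp (c * V)
      rw [Real.exp_neg, ← div_eq_mul_inv, div_le_div_iff₀ (Real.exp_pos _) hc0]
      nlinarith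
    have e2 : ∀ V : ℝ, 0 ≤ V → V ^ 2 * Real.exp (-(c * V)) ≤ 4 / c ^ 2 := by
      intro V hV
      have h := Real.add_one_le_exp (c * V / 2)
      have h2 : Real.exp (c * V) = Real.exp (c * V / 2) ^ 2 := by
        rw [← Real.exp_nat_mul]; congr 1; push_cast; ring
      have h3 : (c * V / 2) ^ 2 ≤ Real.exp (c * V / 2) ^ 2 := by
        apply pow_le_pow_left₀ (by positivity); linarith
      rw [Real.exp_neg, ← div_eq_mul_inv, div_le_div_iff₀ (Real.exp_pos _) (by positivity), h2]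
      nlinarith
    have e0 : ∀ V : ℝ, 0 ≤ V → Real.exp (-(c * V)) ≤ 1 := by
      intro V hV
      rw [Real.exp_le_one_iff]
      have := mul_nonneg hc0.le hV
      linarith
    refine ⟨4 * Real.pi * y * D * (2 * (1 / c)) + 4 * Real.pi * y * D * |n| +
      (4 * Real.pi * y) ^ 2 * D ^ 2 * |n| * (1 / c) + (4 * Real.pi * y) ^ 2 * D ^ 2 * (4 / c ^ 2),
      by positivity, ?_⟩
    intro V hV
    have k1 := mul_le_mul_of_nonneg_left (e1 V hV) (show 0 ≤ 4 * Real.pi * y * D * 2 by positivity)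
    have k2 := mul_le_mul_of_nonneg_left (e0 V hV) (show 0 ≤ 4 * Real.pi * y * D * |n| by positivity)
    have k3 := mul_le_mul_of_nonneg_left (e1 V hV)
      (show 0 ≤ (4 * Real.pi * y) ^ 2 * D ^ 2 * |n| by positivity)
    have k4 := mul_le_mul_of_nonneg_left (e2 V hV)
      (show 0 ≤ (4 * Real.pi * y) ^ 2 * D ^ 2 by positivity)
    calc _ = 4 * Real.pi * y * D * 2 * (V * Real.exp (-(c * V))) +
        4 * Real.pi * y * D * |n| * Real.exp (-(c * V)) +
        (4 * Real.pi * y) ^ 2 * D ^ 2 * |n| * (V * Real.exp (-(c * V))) +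
        (4 * Real.pi * y) ^ 2 * D ^ 2 * (V ^ 2 * Real.exp (-(c * V))) := by ring
      _ ≤ _ := by linarith
  refine ⟨y * D * Real.exp (2 * Real.pi * |n| * y * (2 * D)) * B, by positivity, ?_⟩
  intro θ V hV
  set s := qs q θ with hs
  have hsn : ‖s‖ = q := qs_norm q θ hq
  have hs1 : ‖s‖ < 1 := by rw [hsn]; exact hq1
  have hn1 : 1 - q ≤ ‖1 - s‖ := by rw [← hsn]; exact one_sub_norm s
  have hinv : ‖(1 - s)⁻¹‖ ≤ D := by
    rw [norm_inv, hD]
    exact inv_anti₀ h1q hn1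
  have hre := re_inv s hs1
  unfold mm
  rw [norm_mul, norm_mul, norm_mul, Complex.norm_real, Real.norm_eq_abs, abs_of_pos hy,
    Complex.norm_exp]
  -- the exponent
  have hexp : (-(2 * (Real.pi : ℂ) * n * y * (1 + s) / (1 - s)) -
      4 * (Real.pi : ℂ) * y * V / (1 - s)).re ≤
      2 * Real.pi * |n| * y * (2 * D) + (-(Real.pi * y * V) + -(Real.pi * y * V)) := by
    have g1 : (-(2 * (Real.pi : ℂ) * n * y * (1 + s) / (1 - s))).re ≤
        2 * Real.pi * |n| * y * (2 * D) := by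
      refine le_trans (Complex.re_le_norm _) ?_
      rw [norm_neg, div_eq_mul_inv, norm_mul, norm_mul, norm_mul, norm_mul, norm_mul,
        Complex.norm_real, Complex.norm_real, Complex.norm_real, Real.norm_eq_abs,
        Real.norm_eq_abs, Real.norm_eq_abs, abs_of_pos hpi, abs_of_pos hy, Complex.norm_two]
      have g2 : ‖1 + s‖ ≤ 2 := by
        refine le_trans (norm_add_le _ _) ?_
        rw [norm_one]; linarith
      rw [mul_assoc (2 * Real.pi * |n| * y)]
      gcongr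
    have g3 : (4 * (Real.pi : ℂ) * y * V / (1 - s)).re = 4 * Real.pi * y * V * ((1 - s)⁻¹).re := by
      rw [div_eq_mul_inv]
      have : (4 * (Real.pi : ℂ) * y * V) = ((4 * Real.pi * y * V : ℝ) : ℂ) := by push_cast; ring
      rw [this, Complex.re_ofReal_mul]
    rw [Complex.sub_re, g3]
    have g4 : 4 * Real.pi * y * V * (1 / 2) ≤ 4 * Real.pi * y * V * ((1 - s)⁻¹).re :=
      mul_le_mul_of_nonneg_left hre (by positivity)
    linarith
  have hpoly : ‖4 * (Real.pi : ℂ) * y * (2 * V + n) / (1 - s) -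
        (4 * (Real.pi : ℂ) * y) ^ 2 * V * (n + V) / (1 - s) ^ 2‖ ≤
      4 * Real.pi * y * (2 * V + |n|) * D + (4 * Real.pi * y) ^ 2 * V * (|n| + V) * D ^ 2 := by
    refine le_trans (norm_sub_le _ _) ?_
    have a1 : ‖4 * (Real.pi : ℂ) * y * (2 * V + n) / (1 - s)‖ ≤
        4 * Real.pi * y * (2 * V + |n|) * D := by
      have : 4 * (Real.pi : ℂ) * y * (2 * V + n) / (1 - s) =
          ((4 * Real.pi * y * (2 * V + n) : ℝ) : ℂ) * (1 - s)⁻¹ := by push_cast; ring
      rw [this, norm_mul, Complex.norm_real, Real.norm_eq_abs, abs_mul,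
        abs_of_nonneg (show (0 : ℝ) ≤ 4 * Real.pi * y by positivity)]
      have : |2 * V + n| ≤ 2 * V + |n| := by
        refine le_trans (abs_add_le _ _) ?_
        rw [abs_of_nonneg (show (0 : ℝ) ≤ 2 * V by positivity)]
      gcongr
    have a2 : ‖(4 * (Real.pi : ℂ) * y) ^ 2 * V * (n + V) / (1 - s) ^ 2‖ ≤
        (4 * Real.pi * y) ^ 2 * V * (|n| + V) * D ^ 2 := by
      have : (4 * (Real.pi : ℂ) * y) ^ 2 * V * (n + V) / (1 - s) ^ 2 =
          (((4 * Real.pi * y) ^ 2 * V * (n + V) : ℝ) : ℂ) * ((1 - s)⁻¹) ^ 2 := by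
        rw [div_eq_mul_inv, ← inv_pow]; push_cast; ring
      rw [this, norm_mul, norm_pow, Complex.norm_real, Real.norm_eq_abs, abs_mul,
        abs_of_nonneg (show (0 : ℝ) ≤ (4 * Real.pi * y) ^ 2 * V by positivity)]
      have : |n + V| ≤ |n| + V := by
        refine le_trans (abs_add_le _ _) ?_
        rw [abs_of_nonneg hV]
      gcongr
    exact add_le_add a1 a2
  calc y * ‖(1 - s)⁻¹‖ * Real.exp _ * ‖_‖
      ≤ y * D * Real.exp (2 * Real.pi * |n| * y * (2 * D) +
        (-(Real.pi * y * V) + -(Real.pi * y * V))) *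
        (4 * Real.pi * y * (2 * V + |n|) * D + (4 * Real.pi * y) ^ 2 * V * (|n| + V) * D ^ 2) := by
        gcongr
    _ = y * D * Real.exp (2 * Real.pi * |n| * y * (2 * D)) *
        ((4 * Real.pi * y * (2 * V + |n|) * D + (4 * Real.pi * y) ^ 2 * V * (|n| + V) * D ^ 2) *
        Real.exp (-(Real.pi * y * V))) * Real.exp (-(Real.pi * y * V)) := by
        rw [Real.exp_add, Real.exp_add]; ring
    _ ≤ _ := by
        have := hB V hV
        gcongr


lemma countable_Mat : Countable Mat := inferInstanceAs (Countable (Fin 2 → Fin 2 → ℤ))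

lemma supp_bound (hQF : StmtQF) (g : ℂ → ℝ) (hg : TestG g) : ∃ c0 : ℝ, 0 < c0 ∧
    ∀ z ∈ tsupport g, ∀ γ : Mat, 0 ≤ Vd γ z ∧ c0 * msq γ ≤ ((γ.det : ℤ) : ℝ) + 2 * Vd γ z := by
  have hK : IsCompact (tsupport g) := hg.cpt
  have hcont : ContinuousOn (fun z : ℂ => (‖z‖ ^ 2 + 1) / z.im) (tsupport g) := by
    apply ContinuousOn.div
    · exact (((continuous_norm.pow 2).add continuous_const)).continuousOn
    · exact Complex.continuous_im.continuousOn
    · intro z hz
      exact (ne_of_gt (hg.sub hz))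
  obtain ⟨B, hB⟩ := hK.exists_bound_of_continuousOn hcont
  set B' := max B 1 with hB'
  have hB'0 : 0 < B' := lt_of_lt_of_le one_pos (le_max_right _ _)
  refine ⟨1 / (2 * B' ^ 2), by positivity, ?_⟩
  intro z hz γ
  have hz0 : z ∈ H0 := hg.sub hz
  have hzim : 0 < z.im := hz0
  obtain ⟨h1, h2, -, h4, -, -⟩ := hQF γ z z hz0 hz0
  change 0 ≤ Vd γ z at h1
  refine ⟨h1, ?_⟩
  have h2' : 0 ≤ ((γ.det : ℤ) : ℝ) + Vd γ z := h2
  have h4' : msq γ ≤ 2 * (((γ.det : ℤ) : ℝ) + 2 * Vd γ z) * ((‖z‖ ^ 2 + 1) / z.im) *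
    ((‖z‖ ^ 2 + 1) / z.im) := h4
  have hb : (‖z‖ ^ 2 + 1) / z.im ≤ B' := by
    refine le_trans (le_trans (le_abs_self _) ?_) (le_max_left B 1)
    have := hB z hz
    rwa [Real.norm_eq_abs] at this
  have hb0 : 0 ≤ (‖z‖ ^ 2 + 1) / z.im := by positivity
  have hn : 0 ≤ ((γ.det : ℤ) : ℝ) + 2 * Vd γ z := by linarith
  have h5 : msq γ ≤ 2 * (((γ.det : ℤ) : ℝ) + 2 * Vd γ z) * B' * B' := by
    refine le_trans h4' ?_
    gcongr
  rw [div_mul_eq_mul_div, one_mul, div_le_iff₀ (by positivity)]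
  nlinarith

lemma Vd_meas (γ : Mat) : Measurable (Vd γ) := by
  unfold Vd VV
  fun_prop

lemma mm_meas (y n : ℝ) : Measurable (fun p : ℂ × ℝ => mm p.1 y n p.2) := by
  unfold mm
  fun_prop

lemma one_sub_ne (q θ : ℝ) (hq : 0 < q) (hq1 : q < 1) : 1 - qs q θ ≠ 0 := by
  intro h
  have h1 := one_sub_norm (qs q θ)
  rw [h, norm_zero, qs_norm q θ hq] at h1
  linarith

lemma mm_cont (q y n V : ℝ) (hq : 0 < q) (hq1 : q < 1) :
    Continuous (fun θ : ℝ => mm (qs q θ) y n V) := by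
  have h1 := qs_cont q
  have h2 : ∀ θ, 1 - qs q θ ≠ 0 := fun θ => one_sub_ne q θ hq hq1
  have h3 : ∀ θ, (1 - qs q θ) ^ 2 ≠ 0 := fun θ => pow_ne_zero 2 (h2 θ)
  unfold mm
  fun_prop (disch := assumption)

/-- the term of `γ` -/
def Tg (g : ℂ → ℝ) (q y : ℝ) (n : ℤ) (γ : Mat) (θ : ℝ) : ℂ :=
  ∫ z, (g z : ℂ) * mm (qs q θ) y n (Vd γ z)

lemma g_int (g : ℂ → ℝ) (hg : TestG g) : Integrable fun z => |g z| :=
  (hg.cont.integrable_of_hasCompactSupport hg.cpt).abs

/-- all the bounds -/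
lemma term_bound (hQF : StmtQF) (hGau : StmtGau) (g : ℂ → ℝ) (hg : TestG g) (q y : ℝ) (n : ℤ)
    (hq : 0 < q) (hq1 : q < 1) (hy : 0 < y) : ∃ U : Mat → ℝ, (∀ γ, 0 ≤ U γ) ∧ Summable U ∧
    ∀ γ : Mat, γ.det = n → ∀ θ z, ‖(g z : ℂ) * mm (qs q θ) y n (Vd γ z)‖ ≤ |g z| * U γ := by
  obtain ⟨c0, hc0, hsupp⟩ := supp_bound hQF g hg
  obtain ⟨A, hA0, hA⟩ := mm_bound q y n hq hq1 hy
  have hpi := Real.pi_pos
  refine ⟨fun γ => A * Real.exp (Real.pi * y * n / 2) *
    Real.exp (-((Real.pi * y * c0 / 2) * msq γ)), fun γ => by positivity, ?_, ?_⟩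
  · exact (hGau.1 (Real.pi * y * c0 / 2) (by positivity)).mul_left _
  · intro γ hγ θ z
    rw [norm_mul, Complex.norm_real, Real.norm_eq_abs]
    by_cases hz : z ∈ tsupport g
    · obtain ⟨hV, hms⟩ := hsupp z hz γ
      refine mul_le_mul_of_nonneg_left ?_ (abs_nonneg _)
      refine le_trans (hA θ _ hV) ?_
      change A * Real.exp (-(Real.pi * y * Vd γ z)) ≤ A * Real.exp (Real.pi * y * n / 2) *
        Real.exp (-((Real.pi * y * c0 / 2) * msq γ))
      rw [mul_assoc A, ← Real.exp_add]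
      refine mul_le_mul_of_nonneg_left ?_ hA0
      rw [Real.exp_le_exp]
      rw [hγ] at hms
      have hpy : 0 < Real.pi * y := mul_pos hpi hy
      have := mul_le_mul_of_nonneg_left hms hpy.le
      nlinarith
    · have : g z = 0 := image_eq_zero_of_notMem_tsupport hz
      simp [this]

lemma Tg_cont (hQF : StmtQF) (hGau : StmtGau) (g : ℂ → ℝ) (hg : TestG g) (q y : ℝ) (n : ℤ)
    (hq : 0 < q) (hq1 : q < 1) (hy : 0 < y) (γ : Mat) (hγ : γ.det = n) :
    Continuous (Tg g q y n γ) := by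
  obtain ⟨U, hU0, -, hU⟩ := term_bound hQF hGau g hg q y n hq hq1 hy
  unfold Tg
  refine continuous_of_dominated (bound := fun z => |g z| * U γ) ?_ ?_ ?_ ?_
  · intro θ
    apply Measurable.aestronglyMeasurable
    have h3 : Measurable fun z => (qs q θ, Vd γ z) := measurable_const.prodMk (Vd_meas γ)
    have h2 : Measurable fun z => mm (qs q θ) y n (Vd γ z) :=
      Measurable.comp (g := fun p : ℂ × ℝ => mm p.1 y n p.2) (f := fun z => (qs q θ, Vd γ z))
        (mm_meas y n) h3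
    exact (Complex.measurable_ofReal.comp hg.cont.measurable).mul h2
  · intro θ
    exact Eventually.of_forall fun z => hU γ hγ θ z
  · exact (g_int g hg).mul_const _
  · exact Eventually.of_forall fun z => continuous_const.mul (mm_cont q y n _ hq hq1)

lemma Tg_bound (g : ℂ → ℝ) (hg : TestG g) (q y : ℝ) (n : ℤ) (U : Mat → ℝ)
    (hU : ∀ γ : Mat, γ.det = n → ∀ θ z, ‖(g z : ℂ) * mm (qs q θ) y n (Vd γ z)‖ ≤ |g z| * U γ)
    (γ : Mat) (hγ : γ.det = n) (θ : ℝ) : ‖Tg g q y n γ θ‖ ≤ (∫ z, |g z|) * U γ := by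
  unfold Tg
  rw [← integral_mul_const]
  exact norm_integral_le_of_norm_le ((g_int g hg).mul_const _)
    (Eventually.of_forall fun z => hU γ hγ θ z)

/-- the coefficient -/
def DG (k : ℕ) (g : ℂ → ℝ) (y : ℝ) (n : ℤ) : ℂ :=
  ∑' γ : Mat, open Classical in
    if γ.det = n then ∫ z, (g z : ℂ) * dk k n (Vd γ z) ((y : ℂ) * Complex.I) else 0

lemma MM_cont (hQF : StmtQF) (hGau : StmtGau) (g : ℂ → ℝ) (hg : TestG g) (q y : ℝ) (n : ℤ)
    (hq : 0 < q) (hq1 : q < 1) (hy : 0 < y) : Continuous (fun θ => MM g (qs q θ) y n) := by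
  obtain ⟨U, hU0, hUs, hU⟩ := term_bound hQF hGau g hg q y n hq hq1 hy
  unfold MM
  refine continuous_tsum (u := fun γ => (∫ z, |g z|) * U γ) ?_ (hUs.mul_left _) ?_
  · intro γ
    by_cases hγ : γ.det = n
    · simp only [hγ, if_true]
      exact Tg_cont hQF hGau g hg q y n hq hq1 hy γ hγ
    · simp only [hγ, if_false]
      exact continuous_const
  · intro γ θ
    by_cases hγ : γ.det = n
    · simp only [hγ, if_true]
      exact Tg_bound g hg q y n U hU γ hγ θ
    · simp only [hγ, if_false, norm_zero]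
      exact mul_nonneg (integral_nonneg fun z => abs_nonneg _) (hU0 γ)

lemma term_coeff (hLg3 : StmtLg3) (hQF : StmtQF) (hGau : StmtGau) (g : ℂ → ℝ) (hg : TestG g)
    (q y : ℝ) (n : ℤ) (hq : 0 < q) (hq1 : q < 1) (hy : 0 < y) (γ : Mat) (hγ : γ.det = n) (k : ℕ) :
    ∫ θ in Ioc (-Real.pi) Real.pi, Tg g q y n γ θ * Complex.exp (-((k : ℂ) * θ * Complex.I)) =
      ((2 * Real.pi : ℝ) : ℂ) * (q : ℂ) ^ k *
        ∫ z, (g z : ℂ) * dk k n (Vd γ z) ((y : ℂ) * Complex.I) := by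
  obtain ⟨U, hU0, -, hU⟩ := term_bound hQF hGau g hg q y n hq hq1 hy
  have hexpn : ∀ θ : ℝ, ‖Complex.exp (-((k : ℂ) * θ * Complex.I))‖ = 1 := by
    intro θ
    rw [Complex.norm_exp]
    simp
  have h1 : ∀ θ : ℝ, Tg g q y n γ θ * Complex.exp (-((k : ℂ) * θ * Complex.I)) =
      ∫ z, (g z : ℂ) * mm (qs q θ) y n (Vd γ z) * Complex.exp (-((k : ℂ) * θ * Complex.I)) := by
    intro θ
    unfold Tg
    rw [← integral_mul_const]
  simp_rw [h1]
  rw [integral_integral_swap]
  · have h2 : ∀ z : ℂ, ∫ θ in Ioc (-Real.pi) Real.pi,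
        (g z : ℂ) * mm (qs q θ) y n (Vd γ z) * Complex.exp (-((k : ℂ) * θ * Complex.I)) =
        ((2 * Real.pi : ℝ) : ℂ) * (q : ℂ) ^ k *
          ((g z : ℂ) * dk k n (Vd γ z) ((y : ℂ) * Complex.I)) := by
      intro z
      have h3 := (hLg3 n (Vd γ z) y hy).2 q hq hq1 k
      have h4 : ∀ θ : ℝ, (g z : ℂ) * mm (qs q θ) y n (Vd γ z) *
          Complex.exp (-((k : ℂ) * θ * Complex.I)) = (g z : ℂ) * (mm (qs q θ) y n (Vd γ z) *
          Complex.exp (-((k : ℂ) * θ * Complex.I))) := fun θ => by ring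
      simp_rw [h4]
      rw [integral_const_mul]
      have hpi : ((2 * Real.pi : ℝ) : ℂ) ≠ 0 := by
        exact_mod_cast (by positivity : (2 * Real.pi : ℝ) ≠ 0)
      rw [inv_mul_eq_div, eq_div_iff hpi] at h3
      rw [← h3]
      ring
    simp_rw [h2]
    rw [integral_const_mul]
  · refine Integrable.mono' (g := fun p : ℝ × ℂ => U γ * |g p.2|) ?_ ?_ ?_
    · exact (integrable_const (U γ)).mul_prod (g_int g hg)
    · apply Measurable.aestronglyMeasurable
      have h3 := Vd_meas γ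
      have h4 := (qs_cont q).measurable
      have h3' : Measurable fun p : ℝ × ℂ => (qs q p.1, Vd γ p.2) :=
        (h4.comp measurable_fst).prodMk (h3.comp measurable_snd)
      have h2 : Measurable fun p : ℝ × ℂ => mm (qs q p.1) y n (Vd γ p.2) :=
        Measurable.comp (g := fun p : ℂ × ℝ => mm p.1 y n p.2)
          (f := fun p : ℝ × ℂ => (qs q p.1, Vd γ p.2)) (mm_meas y n) h3'
      have h5 : Measurable fun p : ℝ × ℂ => (g p.2 : ℂ) :=
        Complex.measurable_ofReal.comp (hg.cont.measurable.comp measurable_snd)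
      have h6 : Continuous fun θ : ℝ => Complex.exp (-((k : ℂ) * θ * Complex.I)) := by fun_prop
      exact (h5.mul h2).mul (h6.measurable.comp measurable_fst)
    · refine Eventually.of_forall fun p => ?_
      simp only [Function.uncurry]
      rw [norm_mul, hexpn, mul_one, mul_comm (U γ)]
      exact hU γ hγ p.1 p.2

lemma coeff (hLg3 : StmtLg3) (hQF : StmtQF) (hGau : StmtGau) (g : ℂ → ℝ) (hg : TestG g)
    (q y : ℝ) (n : ℤ) (hq : 0 < q) (hq1 : q < 1) (hy : 0 < y) (k : ℕ) :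
    ∫ θ in Ioc (-Real.pi) Real.pi, MM g (qs q θ) y n * Complex.exp (-((k : ℂ) * θ * Complex.I)) =
      ((2 * Real.pi : ℝ) : ℂ) * ((q : ℂ) ^ k * DG k g y n) := by
  obtain ⟨U, hU0, hUs, hU⟩ := term_bound hQF hGau g hg q y n hq hq1 hy
  have hexpn : ∀ θ : ℝ, ‖Complex.exp (-((k : ℂ) * θ * Complex.I))‖ = 1 := by
    intro θ
    rw [Complex.norm_exp]
    simp
  have : Countable Mat := countable_Mat
  unfold MM DG
  have h1 : ∀ θ : ℝ, (∑' γ : Mat, open Classical in
      if γ.det = n then ∫ z, (g z : ℂ) * mm (qs q θ) y n (Vd γ z) else 0) *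
        Complex.exp (-((k : ℂ) * θ * Complex.I)) = ∑' γ : Mat, (open Classical in
      if γ.det = n then Tg g q y n γ θ * Complex.exp (-((k : ℂ) * θ * Complex.I)) else 0) := by
    intro θ
    rw [← tsum_mul_right]
    refine tsum_congr fun γ => ?_
    by_cases hγ : γ.det = n
    · simp only [hγ, if_true]; rfl
    · simp only [hγ, if_false, zero_mul]
  simp_rw [h1]
  rw [← integral_tsum_of_summable_integral_norm]
  · rw [← mul_assoc, ← tsum_mul_left]
    refine tsum_congr fun γ => ?_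
    by_cases hγ : γ.det = n
    · simp only [hγ, if_true]
      exact term_coeff hLg3 hQF hGau g hg q y n hq hq1 hy γ hγ k
    · simp only [hγ, if_false, mul_zero, integral_zero]
  · intro γ
    by_cases hγ : γ.det = n
    · simp only [hγ, if_true]
      have hc := Tg_cont hQF hGau g hg q y n hq hq1 hy γ hγ
      have hc2 : Continuous fun θ : ℝ => Tg g q y n γ θ *
          Complex.exp (-((k : ℂ) * θ * Complex.I)) := by fun_prop
      exact (hc2.integrableOn_Icc (a := -Real.pi) (b := Real.pi)).mono_set Ioc_subset_Icc_self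
    · simp only [hγ, if_false]
      exact integrable_zero _ _ _
  · refine Summable.of_nonneg_of_le (f := fun γ => (∫ z, |g z|) * U γ * (2 * Real.pi)) ?_ ?_
      ((hUs.mul_left _).mul_right _)
    · intro γ
      exact integral_nonneg fun _ => norm_nonneg _
    · intro γ
      have hg0 : 0 ≤ ∫ z, |g z| := integral_nonneg fun z => abs_nonneg _
      have h3 : ∀ θ : ℝ, ‖(open Classical in if γ.det = n then Tg g q y n γ θ *
          Complex.exp (-((k : ℂ) * θ * Complex.I)) else 0)‖ ≤ (∫ z, |g z|) * U γ := by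
        intro θ
        by_cases hγ : γ.det = n
        · simp only [hγ, if_true]
          rw [norm_mul, hexpn, mul_one]
          exact Tg_bound g hg q y n U hU γ hγ θ
        · simp only [hγ, if_false, norm_zero]
          exact mul_nonneg hg0 (hU0 γ)
      have hpi := Real.pi_pos
      calc _ ≤ ∫ θ in Ioc (-Real.pi) Real.pi, (∫ z, |g z|) * U γ := by
            refine integral_mono_of_nonneg (Eventually.of_forall fun _ => norm_nonneg _) ?_
              (Eventually.of_forall h3)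
            exact integrable_const _
        _ = _ := by
            rw [setIntegral_const]
            simp only [smul_eq_mul, measureReal_def, Real.volume_Ioc]
            rw [ENNReal.toReal_ofReal (by linarith)]
            ring


lemma dk_shift (k : ℕ) (n : ℤ) (V x y : ℝ) :
    dk k n V (⟨x, y⟩ : ℂ) = dk k n V ((y : ℂ) * Complex.I) * E (1 / 2) n x := by
  have h1 : ((y : ℂ) * Complex.I).im = y := by simp
  have h2 : (⟨x, y⟩ : ℂ) = (x : ℂ) + (y : ℂ) * Complex.I := Complex.mk_eq_add_mul_I x y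
  have h3 : (⟨x, y⟩ : ℂ).im = y := rfl
  unfold dk
  rw [h1, h3]
  have h4 : ee (((n : ℝ) : ℂ) * (⟨x, y⟩ : ℂ)) = ee (((n : ℝ) : ℂ) * ((y : ℂ) * Complex.I)) *
      E (1 / 2) n x := by
    unfold ee E
    rw [← Complex.exp_add]
    congr 1
    rw [h2]
    push_cast
    ring
  rw [h4]
  ring

lemma hasSum_Pt (hPs : StmtPs) (g : ℂ → ℝ) (hg : TestG g) (k : ℕ) (x y : ℝ) (hy : 0 < y) :
    HasSum (fun n : ℤ => DG k g y n * E (1 / 2) n x) (Pt k g (⟨x, y⟩ : ℂ)) := by
  have hτ : (⟨x, y⟩ : ℂ) ∈ H0 := hy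
  have hs := (hPs g hg k).2.1 _ hτ
  have hb : Summable fun γ : Mat => ∫ z, (g z : ℂ) * dk k ((γ.det : ℤ) : ℝ) (Vd γ z) (⟨x, y⟩ : ℂ) := by
    refine Summable.of_norm_bounded hs fun γ => ?_
    refine le_trans (norm_integral_le_integral_norm _) (le_of_eq ?_)
    refine integral_congr_ae (Eventually.of_forall fun z => ?_)
    simp only [norm_mul, Complex.norm_real, Real.norm_eq_abs]
  have h1 : HasSum (fun γ : Mat => ∫ z, (g z : ℂ) * dk k ((γ.det : ℤ) : ℝ) (Vd γ z) (⟨x, y⟩ : ℂ))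
      (Pt k g (⟨x, y⟩ : ℂ)) := hb.hasSum
  have h2 := h1.tsum_fiberwise (fun γ : Mat => γ.det)
  suffices h3 : (fun n : ℤ => DG k g y n * E (1 / 2) n x) = fun n : ℤ =>
      ∑' b : ((fun γ : Mat => γ.det) ⁻¹' {n}), ∫ z, (g z : ℂ) *
        dk k (((b : Mat).det : ℤ) : ℝ) (Vd (b : Mat) z) (⟨x, y⟩ : ℂ) by
    rw [h3]; exact h2
  funext n
  unfold DG
  rw [← tsum_mul_right]
  rw [tsum_subtype ((fun γ : Mat => γ.det) ⁻¹' {n})
    (fun γ : Mat => ∫ z, (g z : ℂ) * dk k ((γ.det : ℤ) : ℝ) (Vd γ z) (⟨x, y⟩ : ℂ))]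
  refine tsum_congr fun γ => ?_
  by_cases hγ : γ.det = n
  · have hmem : γ ∈ (fun γ : Mat => γ.det) ⁻¹' {n} := hγ
    rw [indicator_of_mem hmem]
    simp only [hγ, if_true]
    rw [← integral_mul_const]
    refine integral_congr_ae (Eventually.of_forall fun z => ?_)
    simp only
    rw [dk_shift k n (Vd γ z) x y, mul_assoc]
  · have hmem : γ ∉ (fun γ : Mat => γ.det) ⁻¹' {n} := hγ
    rw [indicator_of_notMem hmem]
    simp only [hγ, if_false, zero_mul]

lemma pars_x (hPs : StmtPs) (g : ℂ → ℝ) (hg : TestG g) (k : ℕ) (y : ℝ) (hy : 0 < y) :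
    ∫⁻ x in Ioc (-(1 / 2) : ℝ) (1 / 2), ‖Pt k g (⟨x, y⟩ : ℂ)‖ₑ ^ 2 ≤ ∑' n : ℤ, ‖DG k g y n‖ₑ ^ 2 := by
  have h := fatou (1 / 2) (by norm_num) (fun n => DG k g y n) (fun x => Pt k g (⟨x, y⟩ : ℂ))
    (fun x => hasSum_Pt hPs g hg k x y hy)
  refine le_trans h (le_of_eq ?_)
  norm_num

lemma pars_θ (hLg3 : StmtLg3) (hQF : StmtQF) (hGau : StmtGau) (g : ℂ → ℝ) (hg : TestG g)
    (q y : ℝ) (n : ℤ) (hq : 0 < q) (hq1 : q < 1) (hy : 0 < y) (N : ℕ) :
    ∑ k ∈ Finset.range N, ENNReal.ofReal (q ^ (2 * k)) * ‖DG k g y n‖ₑ ^ 2 ≤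
      ∫⁻ θ in Ioc (-Real.pi) Real.pi, ‖MM g (qs q θ) y n‖ₑ ^ 2 := by
  have hpi := Real.pi_pos
  have hpi2 := Real.two_le_pi
  have hF := MM_cont hQF hGau g hg q y n hq hq1 hy
  set F : ℝ → ℂ := fun θ => MM g (qs q θ) y n with hFd
  set c : ℤ → ℂ := fun m => (q : ℂ) ^ m.toNat * DG m.toNat g y n with hcd
  set s : Finset ℤ := (Finset.range N).map Nat.castEmbedding with hs
  have hc : ∀ m ∈ s, ∫ x in (-Real.pi)..Real.pi, F x * conj (E Real.pi m x) =
      ((2 * Real.pi : ℝ) : ℂ) * c m := by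
    intro m hm
    obtain ⟨k, -, rfl⟩ := Finset.mem_map.1 hm
    rw [intervalIntegral.integral_of_le (by linarith)]
    have h1 := coeff hLg3 hQF hGau g hg q y n hq hq1 hy k
    have h2 : ∀ θ : ℝ, conj (E Real.pi (Nat.castEmbedding k) θ) =
        Complex.exp (-((k : ℂ) * θ * Complex.I)) := by
      intro θ
      unfold E
      rw [← Complex.exp_conj]
      congr 1
      have h3 : Real.pi / Real.pi * θ = θ := by rw [div_self hpi.ne', one_mul]
      rw [h3]
      simp only [map_mul, Complex.conj_ofReal, Complex.conj_I, Nat.castEmbedding_apply,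
        Int.cast_natCast, Complex.conj_natCast]
      ring
    simp_rw [h2]
    rw [h1]
    simp [hcd]
  have hb := bessel Real.pi hpi s F hF c hc
  have hsum0 : 0 ≤ ∑ n ∈ s, ‖c n‖ ^ 2 := Finset.sum_nonneg fun _ _ => by positivity
  have hb2 : ∑ n ∈ s, ‖c n‖ ^ 2 ≤ ∫ x in (-Real.pi)..Real.pi, ‖F x‖ ^ 2 := by nlinarith
  rw [lint_sq Real.pi hpi F hF]
  refine le_trans (le_of_eq ?_) (ENNReal.ofReal_le_ofReal hb2)
  rw [ENNReal.ofReal_sum_of_nonneg fun _ _ => by positivity, hs, Finset.sum_map]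
  refine Finset.sum_congr rfl fun k _ => ?_
  simp only [hcd, Nat.castEmbedding_apply, Int.toNat_natCast, norm_mul, norm_pow,
    Complex.norm_real, Real.norm_eq_abs, abs_of_pos hq, mul_pow]
  rw [ENNReal.ofReal_mul (by positivity), ENNReal.ofReal_pow (norm_nonneg _), ofReal_norm,
    ← pow_mul, mul_comm k 2]

lemma sum_lint_le {α : Type*} [MeasurableSpace α] (μ : Measure α) {ι : Type*} (s : Finset ι)
    (f : ι → α → ℝ≥0∞) : ∑ i ∈ s, ∫⁻ a, f i a ∂μ ≤ ∫⁻ a, ∑ i ∈ s, f i a ∂μ := by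
  classical
  induction s using Finset.induction_on with
  | empty => simp
  | insert i s hi ih =>
    rw [Finset.sum_insert hi]
    refine le_trans (add_le_add le_rfl ih) (le_trans (le_lintegral_add _ _) ?_)
    refine lintegral_mono fun a => ?_
    rw [Finset.sum_insert hi]

lemma tsum_lint_le {α : Type*} [MeasurableSpace α] (μ : Measure α) {ι : Type*}
    (f : ι → α → ℝ≥0∞) : ∑' i, ∫⁻ a, f i a ∂μ ≤ ∫⁻ a, ∑' i, f i a ∂μ := by
  rw [ENNReal.tsum_eq_iSup_sum]
  refine iSup_le fun s => ?_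
  refine le_trans (sum_lint_le μ s f) ?_
  exact lintegral_mono fun a => ENNReal.sum_le_tsum s

end

end Pool.Agent.A54.Av.GIM

namespace Pool.Agent.A54.Av

open MeasureTheory Filter Topology Set
open scoped ContDiff ComplexConjugate UpperHalfPlane MatrixGroups ENNReal NNReal
open Pool.Agent.A54.Half (H0 qq ff hh)

theorem stmtGI (hPs : StmtPs) (_h1 : StmtLg1) (_h2 : StmtLg2) (h3 : StmtLg3) (hQF : StmtQF)
    (hGau : StmtGau) : StmtGI := by
  intro g hg q hq hq1 N
  have hy0 : ∀ y ∈ Ioi (√3 / 2), (0 : ℝ) < y := fun y hy =>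
    lt_trans (by positivity) (mem_Ioi.1 hy)
  -- step 1: the strip
  have s1 : ∀ k : ℕ, ∫⁻ τ in ModularGroup.fdo, ‖Pt k g τ‖ₑ ^ 2 ≤
      ∫⁻ y in Ioi (√3 / 2), ENNReal.ofReal ((y ^ 2)⁻¹) * ∑' n : ℤ, ‖GIM.DG k g y n‖ₑ ^ 2 := by
    intro k
    set F : ℂ → ℝ≥0∞ := H0.indicator (fun z => ‖Pt k g z‖ₑ ^ 2) with hF
    have hFm : Measurable F := by
      have hH0 : MeasurableSet H0 := Pool.Agent.A54.Half.isOpen_H0.measurableSet
      have hc : ContinuousOn (Pt k g) H0 := ((hPs g hg k).2.2.2.1).continuousOn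
      have hc2 : ContinuousOn (fun z => ‖Pt k g z‖ₑ ^ 2) H0 := by
        intro z hz
        exact (ENNReal.continuous_pow 2).continuousAt.comp_continuousWithinAt (hc z hz).enorm
      classical
      rw [hF, ← piecewise_eq_indicator]
      exact hc2.measurable_piecewise continuousOn_const hH0
    have e1 : ∫⁻ τ in ModularGroup.fdo, ‖Pt k g τ‖ₑ ^ 2 = ∫⁻ τ in ModularGroup.fdo, F (τ : ℂ) := by
      refine lintegral_congr fun τ => ?_
      have : (τ : ℂ) ∈ H0 := τ.im_pos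
      rw [hF, indicator_of_mem this]
    rw [e1]
    refine le_trans (GIM.lint_fdo F hFm) ?_
    refine setLIntegral_mono' measurableSet_Ioi fun y hy => ?_
    refine mul_le_mul' le_rfl ?_
    refine le_trans (le_of_eq ?_) (GIM.pars_x hPs g hg k y (hy0 y hy))
    refine lintegral_congr fun x => ?_
    have : (⟨x, y⟩ : ℂ) ∈ H0 := hy0 y hy
    rw [hF, indicator_of_mem this]
  -- step 2: sum over k
  calc ∑ k ∈ Finset.range N, ENNReal.ofReal (q ^ (2 * k)) *
        ∫⁻ τ in ModularGroup.fdo, ‖Pt k g τ‖ₑ ^ 2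
      ≤ ∑ k ∈ Finset.range N, ∫⁻ y in Ioi (√3 / 2), ENNReal.ofReal (q ^ (2 * k)) *
        (ENNReal.ofReal ((y ^ 2)⁻¹) * ∑' n : ℤ, ‖GIM.DG k g y n‖ₑ ^ 2) := by
        refine Finset.sum_le_sum fun k _ => ?_
        refine le_trans (mul_le_mul' le_rfl (s1 k)) ?_
        exact lintegral_const_mul_le _ _
    _ ≤ ∫⁻ y in Ioi (√3 / 2), ∑ k ∈ Finset.range N, ENNReal.ofReal (q ^ (2 * k)) *
        (ENNReal.ofReal ((y ^ 2)⁻¹) * ∑' n : ℤ, ‖GIM.DG k g y n‖ₑ ^ 2) :=
        GIM.sum_lint_le _ _ _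
    _ ≤ GR q g := by
        unfold GR
        refine setLIntegral_mono' measurableSet_Ioi fun y hy => ?_
        have hy' := hy0 y hy
        calc ∑ k ∈ Finset.range N, ENNReal.ofReal (q ^ (2 * k)) *
              (ENNReal.ofReal ((y ^ 2)⁻¹) * ∑' n : ℤ, ‖GIM.DG k g y n‖ₑ ^ 2)
            = ∑' n : ℤ, (∑ k ∈ Finset.range N, ENNReal.ofReal (q ^ (2 * k)) *
              ‖GIM.DG k g y n‖ₑ ^ 2) * ENNReal.ofReal ((y ^ 2)⁻¹) := by
              rw [ENNReal.tsum_mul_right, Summable.tsum_finsetSum (fun _ _ => ENNReal.summable),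
                Finset.sum_mul]
              refine Finset.sum_congr rfl fun k _ => ?_
              rw [ENNReal.tsum_mul_left]
              ring
          _ ≤ ∑' n : ℤ, ∫⁻ θ in Ioc (-Real.pi) Real.pi, ‖MM g (qs q θ) y n‖ₑ ^ 2 *
                ENNReal.ofReal ((y ^ 2)⁻¹) := by
              refine ENNReal.tsum_le_tsum fun n => ?_
              rw [lintegral_mul_const' _ _ ENNReal.ofReal_ne_top]
              exact mul_le_mul' (GIM.pars_θ h3 hQF hGau g hg q y n hq hq1 hy' N) le_rfl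
          _ ≤ _ := GIM.tsum_lint_le _ _

end Pool.Agent.A54.Av
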