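import Pool.Agent.Lib.MP_a54f13_nt.Av.SpecF

/-!
Removing the scalar matrices from the geometric side.
-/

set_option autoImplicit false

namespace Pool.Agent.A54.Av

open MeasureTheory Filter Topology Set
open scoped ContDiff ComplexConjugate UpperHalfPlane MatrixGroups ENNReal
open Pool.Agent.A54.Half (H0 qq ff hh)

noncomputable section

namespace GNM

lemma re_half {s : ℂ} (hs : ‖s‖ < 1) : 1 / 2 ≤ ((1 - s)⁻¹).re := by
  have h1 : s ≠ 1 := by
    rintro rfl
    simp at hs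
  have h2 : (1 - s) ≠ 0 := sub_ne_zero.mpr (Ne.symm h1)
  have h3 : 0 < Complex.normSq (1 - s) := Complex.normSq_pos.mpr h2
  rw [Complex.inv_re, div_le_div_iff₀ (by norm_num) h3]
  have h4 : s.re ^ 2 + s.im ^ 2 < 1 := by
    have : ‖s‖ ^ 2 < 1 := by nlinarith [norm_nonneg s]
    rw [← Complex.normSq_eq_norm_sq, Complex.normSq_apply] at this
    nlinarith
  rw [Complex.normSq_apply]
  simp
  nlinarith

lemma poly_exp {c V : ℝ} (hc : 0 < c) (hV : 0 ≤ V) :
    (1 + V) ^ 2 ≤ (1 + 2 / c + 2 / c ^ 2) * Real.exp (c * V) := by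
  have h1 := Real.quadratic_le_exp_of_nonneg (mul_nonneg hc.le hV)
  have h2 : 0 ≤ c * V := mul_nonneg hc.le hV
  have e1 : 1 ≤ Real.exp (c * V) := by nlinarith
  have e2 : 2 * V ≤ 2 / c * Real.exp (c * V) := by
    have : c * V ≤ Real.exp (c * V) := by nlinarith
    calc 2 * V = 2 / c * (c * V) := by field_simp
      _ ≤ _ := by gcongr
  have e3 : V ^ 2 ≤ 2 / c ^ 2 * Real.exp (c * V) := by
    have : (c * V) ^ 2 / 2 ≤ Real.exp (c * V) := by nlinarith
    calc V ^ 2 = 2 / c ^ 2 * ((c * V) ^ 2 / 2) := by field_simp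
      _ ≤ _ := by gcongr
  nlinarith

/-- size of `mm` -/
lemma mm_le {s : ℂ} (hs : ‖s‖ < 1) {y : ℝ} (hy : 0 < y) (n : ℝ) :
    ∃ C : ℝ, 0 ≤ C ∧ ∀ V : ℝ, 0 ≤ V → ‖mm s y n V‖ ≤ C * Real.exp (-(Real.pi * y * V)) := by
  set D : ℝ := ‖(1 - s)⁻¹‖ with hD
  set E0 : ℝ := (-(2 * (Real.pi : ℂ) * n * y * (1 + s) / (1 - s))).re with hE0
  set A : ℝ := 4 * Real.pi * y * (2 + |n|) * D + (4 * Real.pi * y) ^ 2 * (|n| + 1) * D ^ 2 with hA
  have hD0 : 0 ≤ D := norm_nonneg _
  have hpi := Real.pi_pos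
  have hA0 : 0 ≤ A := by positivity
  have hc : 0 < Real.pi * y := by positivity
  set B : ℝ := 1 + 2 / (Real.pi * y) + 2 / (Real.pi * y) ^ 2 with hB
  have hB0 : 0 ≤ B := by positivity
  refine ⟨y * D * Real.exp E0 * A * B, by positivity, fun V hV => ?_⟩
  have h1 : ‖Complex.exp (-(2 * (Real.pi : ℂ) * n * y * (1 + s) / (1 - s)) -
      4 * (Real.pi : ℂ) * y * V / (1 - s))‖ ≤ Real.exp E0 * Real.exp (-(2 * (Real.pi * y * V))) := by
    rw [Complex.norm_exp, ← Real.exp_add, Complex.sub_re, ← hE0]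
    apply Real.exp_le_exp.mpr
    have e1 : (4 * (Real.pi : ℂ) * y * V / (1 - s)).re = 4 * Real.pi * y * V * ((1 - s)⁻¹).re := by
      rw [div_eq_mul_inv]
      have : (4 * (Real.pi : ℂ) * y * V) = ((4 * Real.pi * y * V : ℝ) : ℂ) := by push_cast; ring
      rw [this, Complex.re_ofReal_mul]
    rw [e1]
    have e2 := re_half hs
    have e3 : 0 ≤ 4 * Real.pi * y * V := by positivity
    nlinarith
  have h2 : ‖4 * (Real.pi : ℂ) * y * (2 * V + n) / (1 - s) -
      (4 * (Real.pi : ℂ) * y) ^ 2 * V * (n + V) / (1 - s) ^ 2‖ ≤ A * (1 + V) ^ 2 := by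
    refine (norm_sub_le _ _).trans ?_
    have e1 : ‖4 * (Real.pi : ℂ) * y * (2 * V + n) / (1 - s)‖ =
        4 * Real.pi * y * |2 * V + n| * D := by
      rw [div_eq_mul_inv, norm_mul, ← hD]
      congr 1
      have : (4 * (Real.pi : ℂ) * y * (2 * V + n)) = ((4 * Real.pi * y * (2 * V + n) : ℝ) : ℂ) := by
        push_cast
        ring
      rw [this, Complex.norm_real, Real.norm_eq_abs, abs_mul, abs_of_nonneg (by positivity)]
    have e2 : ‖(4 * (Real.pi : ℂ) * y) ^ 2 * V * (n + V) / (1 - s) ^ 2‖ =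
        (4 * Real.pi * y) ^ 2 * V * |n + V| * D ^ 2 := by
      rw [div_eq_mul_inv, norm_mul, ← inv_pow, norm_pow, ← hD]
      congr 1
      have : ((4 * (Real.pi : ℂ) * y) ^ 2 * V * (n + V)) =
          (((4 * Real.pi * y) ^ 2 * V * (n + V) : ℝ) : ℂ) := by
        push_cast
        ring
      rw [this, Complex.norm_real, Real.norm_eq_abs, abs_mul, abs_of_nonneg (by positivity)]
    rw [e1, e2]
    have e3 : |2 * V + n| ≤ (2 + |n|) * (1 + V) ^ 2 := by
      refine (abs_add_le _ _).trans ?_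
      rw [abs_of_nonneg (by positivity : 0 ≤ 2 * V)]
      have := abs_nonneg n
      nlinarith [mul_nonneg this hV, mul_nonneg this (sq_nonneg V), sq_nonneg V]
    have e4 : V * |n + V| ≤ (|n| + 1) * (1 + V) ^ 2 := by
      have e5 : |n + V| ≤ |n| + V := (abs_add_le _ _).trans (by rw [abs_of_nonneg hV])
      have := abs_nonneg n
      calc V * |n + V| ≤ V * (|n| + V) := by gcongr
        _ ≤ _ := by nlinarith [mul_nonneg this hV, mul_nonneg this (sq_nonneg V), sq_nonneg V]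
    calc 4 * Real.pi * y * |2 * V + n| * D + (4 * Real.pi * y) ^ 2 * V * |n + V| * D ^ 2
        = 4 * Real.pi * y * |2 * V + n| * D + (4 * Real.pi * y) ^ 2 * (V * |n + V|) * D ^ 2 := by
          ring
      _ ≤ 4 * Real.pi * y * ((2 + |n|) * (1 + V) ^ 2) * D +
          (4 * Real.pi * y) ^ 2 * ((|n| + 1) * (1 + V) ^ 2) * D ^ 2 := by gcongr
      _ = A * (1 + V) ^ 2 := by rw [hA]; ring
  have h3 : ‖(y : ℂ) * (1 - s)⁻¹‖ = y * D := by
    rw [norm_mul, Complex.norm_real, Real.norm_eq_abs, abs_of_pos hy]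
  unfold mm
  rw [norm_mul, norm_mul, h3]
  have h4 := poly_exp hc hV
  calc y * D * ‖Complex.exp (-(2 * (Real.pi : ℂ) * n * y * (1 + s) / (1 - s)) -
      4 * (Real.pi : ℂ) * y * V / (1 - s))‖ * ‖4 * (Real.pi : ℂ) * y * (2 * V + n) / (1 - s) -
      (4 * (Real.pi : ℂ) * y) ^ 2 * V * (n + V) / (1 - s) ^ 2‖
      ≤ y * D * (Real.exp E0 * Real.exp (-(2 * (Real.pi * y * V)))) * (A * (1 + V) ^ 2) := by
        gcongr
    _ ≤ y * D * (Real.exp E0 * Real.exp (-(2 * (Real.pi * y * V)))) *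
        (A * (B * Real.exp (Real.pi * y * V))) := by gcongr
    _ = y * D * Real.exp E0 * A * B *
        (Real.exp (-(2 * (Real.pi * y * V))) * Real.exp (Real.pi * y * V)) := by ring
    _ = y * D * Real.exp E0 * A * B * Real.exp (-(Real.pi * y * V)) := by
        rw [← Real.exp_add]
        congr 2
        ring

lemma bound_M {φ : ℂ → ℝ} (hc : HasCompactSupport φ) (hs : tsupport φ ⊆ H0) :
    ∃ M : ℝ, 0 < M ∧ ∀ z ∈ tsupport φ, (‖z‖ ^ 2 + 1) / z.im ≤ M := by
  have h1 : ContinuousOn (fun z : ℂ => (‖z‖ ^ 2 + 1) / z.im) (tsupport φ) := by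
    apply ContinuousOn.div
    · fun_prop
    · exact Complex.continuous_im.continuousOn
    · intro z hz
      exact ne_of_gt (hs hz)
  obtain ⟨M, hM⟩ := hc.isCompact.exists_bound_of_continuousOn h1
  refine ⟨max M 1, lt_of_lt_of_le one_pos (le_max_right _ _), fun z hz => ?_⟩
  exact ((le_abs_self _).trans (hM z hz)).trans (le_max_left _ _)

lemma cont_Vd (γ : Mat) : ContinuousOn (Vd γ) H0 := by
  unfold Vd VV
  apply ContinuousOn.div
  · fun_prop
  · fun_prop
  · intro z hz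
    have : 0 < z.im := hz
    positivity

lemma integrable_term {φ : ℂ → ℝ} (hφ : Continuous φ) (hc : HasCompactSupport φ)
    (hs : tsupport φ ⊆ H0) (s : ℂ) (y n : ℝ) (γ : Mat) :
    Integrable (fun z : ℂ => (φ z : ℂ) * mm s y n (Vd γ z)) := by
  have h1 : ContinuousOn (fun z : ℂ => (φ z : ℂ) * mm s y n (Vd γ z)) (tsupport φ) := by
    have h2 : ContinuousOn (fun z : ℂ => ((Vd γ z : ℝ) : ℂ)) (tsupport φ) :=
      Complex.continuous_ofReal.comp_continuousOn ((cont_Vd γ).mono hs)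
    have h3 : ContinuousOn (fun z : ℂ => mm s y n (Vd γ z)) (tsupport φ) := by
      unfold mm
      fun_prop
    exact (Complex.continuous_ofReal.comp hφ).continuousOn.mul h3
  have h4 := h1.integrableOn_compact hc.isCompact (μ := volume)
  refine h4.integrable_of_forall_notMem_eq_zero fun z hz => ?_
  rw [image_eq_zero_of_notMem_tsupport hz]
  simp

lemma summ (hQF : StmtQF) (hGau : StmtGau) {φ : ℂ → ℝ} (hφ : Continuous φ)
    (hc : HasCompactSupport φ) (hs : tsupport φ ⊆ H0) {s : ℂ} (hs1 : ‖s‖ < 1) {y : ℝ} (hy : 0 < y)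
    (n : ℤ) : Summable (fun γ : Mat => open Classical in
      if γ.det = n ∧ NonSc γ then ∫ z, (φ z : ℂ) * mm s y n (Vd γ z) else 0) := by
  classical
  obtain ⟨M, hM0, hM⟩ := bound_M hc hs
  obtain ⟨C, hC0, hC⟩ := mm_le hs1 hy n
  have hpi := Real.pi_pos
  set c0 : ℝ := Real.pi * y / (4 * M ^ 2) with hc0
  have hc0p : 0 < c0 := by positivity
  have hsum := hGau.1 c0 hc0p
  set I : ℝ := ∫ z, ‖φ z‖ with hI
  have hφi : Integrable (fun z => ‖φ z‖) := (hφ.integrable_of_hasCompactSupport hc).norm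
  refine Summable.of_norm_bounded (g := fun γ : Mat =>
    I * (C * Real.exp (Real.pi * y * n / 2)) * Real.exp (-(c0 * msq γ))) (hsum.mul_left _) ?_
  intro γ
  by_cases h : γ.det = n ∧ NonSc γ
  · rw [if_pos h]
    have hb : ∀ z : ℂ, ‖(φ z : ℂ) * mm s y n (Vd γ z)‖ ≤
        ‖φ z‖ * ((C * Real.exp (Real.pi * y * n / 2)) * Real.exp (-(c0 * msq γ))) := by
      intro z
      rw [norm_mul, Complex.norm_real]
      by_cases hz : z ∈ tsupport φ
      · have hz0 : z ∈ H0 := hs hz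
        obtain ⟨q1, q2, -, q4, -⟩ := hQF γ z z hz0 hz0
        have hz1 : 0 < z.im := hz0
        have hR0 : 0 ≤ (‖z‖ ^ 2 + 1) / z.im := by positivity
        have hR := hM z hz
        rw [h.1] at q2 q4
        have h5 : msq γ ≤ 2 * ((n : ℝ) + 2 * Vd γ z) * M ^ 2 := by
          have e0 : 0 ≤ 2 * ((n : ℝ) + 2 * VV γ z z) := by linarith
          calc msq γ ≤ 2 * ((n : ℝ) + 2 * VV γ z z) * ((‖z‖ ^ 2 + 1) / z.im) *
              ((‖z‖ ^ 2 + 1) / z.im) := q4
            _ ≤ 2 * ((n : ℝ) + 2 * VV γ z z) * M * M := by gcongr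
            _ = 2 * ((n : ℝ) + 2 * Vd γ z) * M ^ 2 := by
              unfold Vd
              ring
        refine mul_le_mul_of_nonneg_left ((hC _ q1).trans ?_) (norm_nonneg _)
        rw [mul_assoc C, ← Real.exp_add]
        refine mul_le_mul_of_nonneg_left (Real.exp_le_exp.mpr ?_) hC0
        have h6 : c0 * msq γ ≤ c0 * (2 * ((n : ℝ) + 2 * Vd γ z) * M ^ 2) := by gcongr
        have h7 : c0 * (2 * ((n : ℝ) + 2 * Vd γ z) * M ^ 2) =
            Real.pi * y / 2 * ((n : ℝ) + 2 * Vd γ z) := by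
          rw [hc0]
          field_simp
          ring
        rw [h7] at h6
        have h8 : Vd γ z = VV γ z z := rfl
        rw [h8] at h6
        linarith
      · rw [image_eq_zero_of_notMem_tsupport hz, norm_zero, zero_mul, zero_mul]
    refine (norm_integral_le_of_norm_le (hφi.mul_const _) (Eventually.of_forall hb)).trans
      (le_of_eq ?_)
    rw [integral_mul_const, ← hI]
    ring
  · rw [if_neg h, norm_zero]
    have : 0 ≤ I := integral_nonneg fun _ => norm_nonneg _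
    positivity

lemma Vd_sc {γ : Mat} (h : ¬NonSc γ) (z : ℂ) : Vd γ z = 0 := by
  unfold NonSc at h
  push Not at h
  obtain ⟨h1, h2, h3⟩ := h
  unfold Vd VV
  rw [h1, h2, h3]
  have : ((γ 1 1 : ℤ) : ℂ) * z + ((0 : ℤ) : ℂ) - z * (((0 : ℤ) : ℂ) * z + ((γ 1 1 : ℤ) : ℂ)) = 0 := by
    push_cast
    ring
  rw [this]
  simp

lemma MM_eq (hQF : StmtQF) (hGau : StmtGau) {φ φ' : ℂ → ℝ} (hφ : Continuous φ)
    (hφ' : Continuous φ') (hc : HasCompactSupport φ) (hc' : HasCompactSupport φ')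
    (hs : tsupport φ ⊆ H0) (hs' : tsupport φ' ⊆ H0) (hint : ∫ z, φ z = ∫ z, φ' z)
    {s : ℂ} (hs1 : ‖s‖ < 1) {y : ℝ} (hy : 0 < y) (n : ℤ) :
    MM (fun z => φ z - φ' z) s y n = MN φ s y n - MN φ' s y n := by
  classical
  have h1 := summ hQF hGau hφ hc hs hs1 hy n
  have h2 := summ hQF hGau hφ' hc' hs' hs1 hy n
  unfold MM MN
  rw [← h1.tsum_sub h2]
  refine tsum_congr fun γ => ?_
  by_cases hd : γ.det = n
  · have e1 : ∫ z, ((φ z - φ' z : ℝ) : ℂ) * mm s y n (Vd γ z) =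
        (∫ z, (φ z : ℂ) * mm s y n (Vd γ z)) - ∫ z, (φ' z : ℂ) * mm s y n (Vd γ z) := by
      rw [← integral_sub (integrable_term hφ hc hs s y n γ) (integrable_term hφ' hc' hs' s y n γ)]
      refine integral_congr_ae (Eventually.of_forall fun z => ?_)
      simp only
      push_cast
      ring
    by_cases hN : NonSc γ
    · rw [if_pos hd, if_pos ⟨hd, hN⟩, if_pos ⟨hd, hN⟩, e1]
    · rw [if_pos hd, if_neg (fun h => hN h.2), if_neg (fun h => hN h.2), sub_zero]
      simp_rw [Vd_sc hN]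
      rw [integral_mul_const]
      have e2 : ∫ z, ((φ z - φ' z : ℝ) : ℂ) = 0 := by
        rw [integral_complex_ofReal, integral_sub (hφ.integrable_of_hasCompactSupport hc)
          (hφ'.integrable_of_hasCompactSupport hc'), hint]
        simp
      rw [e2, zero_mul]
  · rw [if_neg hd, if_neg (fun h => hd h.1), if_neg (fun h => hd h.1), sub_zero]

lemma meas_Vd (γ : Mat) : Measurable (Vd γ) := by
  unfold Vd VV
  fun_prop

instance cntMat : Countable Mat := inferInstanceAs (Countable (Fin 2 → Fin 2 → ℤ))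

lemma meas_MN (q : ℝ) {φ : ℂ → ℝ} (hφ : Continuous φ) (n : ℤ) :
    Measurable (fun p : ℝ × ℝ => MN φ (qs q p.2) p.1 n) := by
  classical
  unfold MN
  refine Measurable.tsum fun γ => ?_
  by_cases h : γ.det = n ∧ NonSc γ
  · simp only [if_pos h]
    have h1 : Measurable (Function.uncurry (fun (p : ℝ × ℝ) (z : ℂ) =>
        (φ z : ℂ) * mm (qs q p.2) p.1 n (Vd γ z))) := by
      have hV := meas_Vd γ
      have hm := hφ.measurable
      unfold mm qs Function.uncurry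
      fun_prop
    exact h1.stronglyMeasurable.integral_prod_right.measurable
  · simp only [if_neg h]
    exact measurable_const

lemma sub_sq (a b : ℂ) : ‖a - b‖ₑ ^ 2 ≤ 2 * (‖a‖ₑ ^ 2 + ‖b‖ₑ ^ 2) := by
  rw [← ofReal_norm, ← ofReal_norm, ← ofReal_norm, ← ENNReal.ofReal_pow (norm_nonneg _),
    ← ENNReal.ofReal_pow (norm_nonneg _), ← ENNReal.ofReal_pow (norm_nonneg _),
    ← ENNReal.ofReal_add (by positivity) (by positivity),
    show (2 : ℝ≥0∞) = ENNReal.ofReal 2 by simp, ← ENNReal.ofReal_mul (by norm_num)]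
  apply ENNReal.ofReal_le_ofReal
  have h1 := norm_sub_le a b
  nlinarith [norm_nonneg (a - b), norm_nonneg a, norm_nonneg b, sq_nonneg (‖a‖ - ‖b‖)]

lemma lin_add {A B : ℝ → ℝ → ℝ≥0∞} (hAm : Measurable (Function.uncurry A)) :
    ∫⁻ y in Ioi (√3 / 2), ∫⁻ θ in Ioc (-Real.pi) Real.pi, 2 * (A y θ + B y θ) =
      2 * ((∫⁻ y in Ioi (√3 / 2), ∫⁻ θ in Ioc (-Real.pi) Real.pi, A y θ) +
          ∫⁻ y in Ioi (√3 / 2), ∫⁻ θ in Ioc (-Real.pi) Real.pi, B y θ) := by
  have h2 : Measurable (fun y => ∫⁻ θ in Ioc (-Real.pi) Real.pi, A y θ) := hAm.lintegral_prod_right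
  have h3 : ∀ y : ℝ, ∫⁻ θ in Ioc (-Real.pi) Real.pi, 2 * (A y θ + B y θ) =
      2 * ((∫⁻ θ in Ioc (-Real.pi) Real.pi, A y θ) + ∫⁻ θ in Ioc (-Real.pi) Real.pi, B y θ) := by
    intro y
    have hAy : Measurable (A y) := hAm.comp measurable_prodMk_left
    rw [lintegral_const_mul' _ _ (by norm_num), lintegral_add_left hAy]
  simp_rw [h3]
  rw [lintegral_const_mul' _ _ (by norm_num), lintegral_add_left h2]

end GNM

/-- **GN** removing the scalar matrices -/
theorem stmtGN (hQF : StmtQF) (hGau : StmtGau) : StmtGN := by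
  intro q φ φ' hq0 hq1 hφ hφ' hc hc' hs hs' hint
  set A : ℝ → ℝ → ℝ≥0∞ := fun y θ => ∑' n : ℤ, ‖MN φ (qs q θ) y n‖ₑ ^ 2 *
    ENNReal.ofReal (y ^ 2)⁻¹ with hA
  set B : ℝ → ℝ → ℝ≥0∞ := fun y θ => ∑' n : ℤ, ‖MN φ' (qs q θ) y n‖ₑ ^ 2 *
    ENNReal.ofReal (y ^ 2)⁻¹ with hB
  have hAm : Measurable (Function.uncurry A) := by
    rw [hA]
    unfold Function.uncurry
    refine Measurable.tsum fun n => ?_
    have := GNM.meas_MN q hφ n
    fun_prop
  have hnorm : ∀ θ : ℝ, ‖qs q θ‖ < 1 := by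
    intro θ
    unfold qs
    rw [norm_mul, Complex.norm_exp_ofReal_mul_I, mul_one, Complex.norm_real, Real.norm_eq_abs,
      abs_of_pos hq0]
    exact hq1
  have h1 : ∀ y ∈ Ioi (√3 / 2), ∀ θ : ℝ,
      (∑' n : ℤ, ‖MM (fun z => φ z - φ' z) (qs q θ) y n‖ₑ ^ 2 * ENNReal.ofReal (y ^ 2)⁻¹) ≤
        2 * (A y θ + B y θ) := by
    intro y hy θ
    have hy0 : 0 < y := by
      have : (0 : ℝ) < √3 / 2 := by positivity
      exact this.trans hy
    rw [hA, hB, ← ENNReal.tsum_add, ← ENNReal.tsum_mul_left]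
    refine ENNReal.tsum_le_tsum fun n => ?_
    rw [GNM.MM_eq hQF hGau hφ hφ' hc hc' hs hs' hint (hnorm θ) hy0 n, ← add_mul, ← mul_assoc]
    gcongr
    exact GNM.sub_sq _ _
  unfold GR RN
  refine (setLIntegral_mono' measurableSet_Ioi fun y hy =>
    lintegral_mono fun θ => h1 y hy θ).trans (le_of_eq ?_)
  exact GNM.lin_add hAm

end

end Pool.Agent.A54.Av
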