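import Pool.Agent.Lib.MP_a54f13_nt.Av.SpecA

/-!
# Module Gau: Gaussian sums over the integral matrices
-/

set_option autoImplicit false

namespace Pool.Agent.A54.Av.GauM

open MeasureTheory Filter Topology Set Pool.Agent.A54.Av

noncomputable section

/-- one variable -/
def g1 (t : ℝ) (n : ℤ) : ℝ := Real.exp (-(t * (n : ℝ) ^ 2))

lemma g1_nonneg (t : ℝ) : 0 ≤ g1 t := fun _ => (Real.exp_pos _).le

lemma summable_g1 {t : ℝ} (ht : 0 < t) : Summable (g1 t) := by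
  have h := summable_pow_mul_jacobiTheta₂_term_bound 0 (T := t / Real.pi) (by positivity) 0
  refine h.congr fun n => ?_
  unfold g1
  rw [pow_zero, one_mul]
  congr 1
  have := Real.pi_ne_zero
  field_simp
  ring

/-- two variables -/
def g2 (t : ℝ) (p : ℤ × ℤ) : ℝ := g1 t p.1 * g1 t p.2

lemma g2_nonneg (t : ℝ) : 0 ≤ g2 t := fun _ => mul_nonneg (g1_nonneg t _) (g1_nonneg t _)

lemma summable_g2 {t : ℝ} (ht : 0 < t) : Summable (g2 t) :=
  (summable_g1 ht).mul_of_nonneg (summable_g1 ht) (g1_nonneg t) (g1_nonneg t)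

lemma tsum_g2 {t : ℝ} (ht : 0 < t) : ∑' p, g2 t p = (∑' n, g1 t n) ^ 2 := by
  rw [sq, (summable_g1 ht).tsum_mul_tsum (summable_g1 ht) (summable_g2 ht)]
  rfl

/-- four variables -/
def g4 (t : ℝ) (p : (ℤ × ℤ) × (ℤ × ℤ)) : ℝ := g2 t p.1 * g2 t p.2

lemma summable_g4 {t : ℝ} (ht : 0 < t) : Summable (g4 t) :=
  (summable_g2 ht).mul_of_nonneg (summable_g2 ht) (g2_nonneg t) (g2_nonneg t)

lemma tsum_g4 {t : ℝ} (ht : 0 < t) : ∑' p, g4 t p = (∑' n, g1 t n) ^ 4 := by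
  have h : ∑' p, g4 t p = (∑' p, g2 t p) * ∑' p, g2 t p := by
    rw [(summable_g2 ht).tsum_mul_tsum (summable_g2 ht) (summable_g4 ht)]
    rfl
  rw [h, tsum_g2 ht]
  ring

/-- the entries -/
def eqv : Mat ≃ (ℤ × ℤ) × (ℤ × ℤ) where
  toFun γ := ((γ 0 0, γ 0 1), (γ 1 0, γ 1 1))
  invFun p := !![p.1.1, p.1.2; p.2.1, p.2.2]
  left_inv γ := by
    ext i j
    fin_cases i <;> fin_cases j <;> rfl
  right_inv p := by
    rcases p with ⟨⟨a, b⟩, ⟨c, d⟩⟩
    rfl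

lemma g4_eqv (t : ℝ) (γ : Mat) : g4 t (eqv γ) = Real.exp (-(t * msq γ)) := by
  unfold g4 g2 g1 msq eqv
  simp only [Equiv.coe_fn_mk]
  rw [← Real.exp_add, ← Real.exp_add, ← Real.exp_add]
  congr 1
  ring

lemma summable_mat {t : ℝ} (ht : 0 < t) : Summable fun γ : Mat => Real.exp (-(t * msq γ)) := by
  have h := (eqv.summable_iff (f := g4 t)).mpr (summable_g4 ht)
  exact h.congr fun γ => g4_eqv t γ

lemma tsum_mat {t : ℝ} (ht : 0 < t) :
    ∑' γ : Mat, Real.exp (-(t * msq γ)) = (∑' n, g1 t n) ^ 4 := by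
  rw [← tsum_g4 ht, ← eqv.tsum_eq (g4 t)]
  exact tsum_congr fun γ => (g4_eqv t γ).symm

lemma tsum_g1_le {t : ℝ} (ht : 0 < t) (ht1 : t ≤ 1) :
    ∑' n, g1 t n ≤ √(Real.pi / t) * ∑' n, g1 1 n := by
  have hpi := Real.pi_pos
  have h := Real.tsum_exp_neg_mul_int_sq (a := t / Real.pi) (by positivity)
  have e1 : ∀ n : ℤ, Real.exp (-Real.pi * (t / Real.pi) * (n : ℝ) ^ 2) = g1 t n := by
    intro n
    unfold g1
    congr 1
    field_simp
  have e2 : ∀ n : ℤ, Real.exp (-Real.pi / (t / Real.pi) * (n : ℝ) ^ 2) =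
      g1 (Real.pi ^ 2 / t) n := by
    intro n
    unfold g1
    congr 1
    field_simp
  simp only [e1, e2] at h
  rw [h]
  have e3 : 1 / (t / Real.pi) ^ (1 / 2 : ℝ) = √(Real.pi / t) := by
    rw [← Real.sqrt_eq_rpow, one_div, ← Real.sqrt_inv, inv_div]
  rw [e3]
  apply mul_le_mul_of_nonneg_left _ (Real.sqrt_nonneg _)
  refine (summable_g1 (by positivity)).tsum_le_tsum (fun n => ?_) (summable_g1 one_pos)
  unfold g1
  apply Real.exp_le_exp.mpr
  have h1 : 1 ≤ Real.pi ^ 2 / t := by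
    rw [le_div_iff₀ ht]
    have := Real.pi_gt_three
    nlinarith
  have h2 := mul_le_mul_of_nonneg_right h1 (sq_nonneg (n : ℝ))
  linarith

lemma one_le_msq {γ : Mat} (h : γ ≠ 0) : 1 ≤ msq γ := by
  have h1 : γ 0 0 ≠ 0 ∨ γ 0 1 ≠ 0 ∨ γ 1 0 ≠ 0 ∨ γ 1 1 ≠ 0 := by
    by_contra hn
    push Not at hn
    apply h
    ext i j
    fin_cases i <;> fin_cases j
    · exact hn.1
    · exact hn.2.1
    · exact hn.2.2.1
    · exact hn.2.2.2
  have h2 : ∀ a : ℤ, a ≠ 0 → (1 : ℝ) ≤ (a : ℝ) ^ 2 := by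
    intro a ha
    have : (1 : ℤ) ≤ a ^ 2 := by
      have := Int.one_le_abs ha
      rw [← sq_abs]
      nlinarith
    exact_mod_cast this
  unfold msq
  have s0 := sq_nonneg ((γ 0 0 : ℤ) : ℝ)
  have s1 := sq_nonneg ((γ 0 1 : ℤ) : ℝ)
  have s2 := sq_nonneg ((γ 1 0 : ℤ) : ℝ)
  have s3 := sq_nonneg ((γ 1 1 : ℤ) : ℝ)
  rcases h1 with h1 | h1 | h1 | h1
  · linarith [h2 _ h1]
  · linarith [h2 _ h1]
  · linarith [h2 _ h1]
  · linarith [h2 _ h1]

end

end Pool.Agent.A54.Av.GauM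

namespace Pool.Agent.A54.Av

theorem stmtGau : StmtGau := by
  refine ⟨fun t ht => GauM.summable_mat ht, ?_, ?_⟩
  · refine ⟨Real.pi ^ 2 * (∑' n, GauM.g1 1 n) ^ 4, fun t ht ht1 => ?_⟩
    rw [GauM.tsum_mat ht]
    have h0 : 0 ≤ ∑' n, GauM.g1 t n := tsum_nonneg (GauM.g1_nonneg t)
    have hpi := Real.pi_pos
    have h2 : √(Real.pi / t) ^ 4 = Real.pi ^ 2 * (t ^ 2)⁻¹ := by
      have : √(Real.pi / t) ^ 4 = (√(Real.pi / t) ^ 2) ^ 2 := by ring
      rw [this, Real.sq_sqrt (by positivity)]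
      field_simp
    calc (∑' n, GauM.g1 t n) ^ 4 ≤ (√(Real.pi / t) * ∑' n, GauM.g1 1 n) ^ 4 := by
          gcongr
          exact GauM.tsum_g1_le ht ht1
      _ = √(Real.pi / t) ^ 4 * (∑' n, GauM.g1 1 n) ^ 4 := by ring
      _ = _ := by
          rw [h2]
          ring
  · intro t0 ht0
    classical
    refine ⟨∑' γ : Mat, Real.exp (-(t0 / 2 * msq γ)), fun t ht => ?_⟩
    rw [← tsum_mul_right]
    have hs : Summable fun γ : Mat => Real.exp (-(t0 / 2 * msq γ)) * Real.exp (-(t / 2)) :=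
      (GauM.summable_mat (by positivity)).mul_right _
    have hle : ∀ γ : Mat, (open Classical in if γ = 0 then (0 : ℝ) else
        Real.exp (-(t * msq γ))) ≤ Real.exp (-(t0 / 2 * msq γ)) * Real.exp (-(t / 2)) := by
      intro γ
      split_ifs with h
      · positivity
      · rw [← Real.exp_add]
        apply Real.exp_le_exp.mpr
        have h1 := GauM.one_le_msq h
        nlinarith
    refine Summable.tsum_le_tsum hle ?_ hs
    refine Summable.of_nonneg_of_le (fun γ => ?_) hle hs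
    split_ifs
    · exact le_rfl
    · exact (Real.exp_pos _).le

end Pool.Agent.A54.Av
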