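import Pool.Agent.Lib.MP_a54f13_nt.Av.SpecB

/-!
# Package `Av`: geometry of `V ≤ r²`
-/

set_option autoImplicit false

namespace Pool.Agent.A54.Av

open MeasureTheory Filter Topology Set
open scoped ContDiff ComplexConjugate UpperHalfPlane MatrixGroups ENNReal
open Pool.Agent.A54.Half (H0 qq ff hh)

noncomputable section

namespace GeM

lemma bounds (K : Set ℂ) (hK : IsCompact K) (hKH : K ⊆ H0) :
    ∃ m y0 : ℝ, 1 ≤ m ∧ 0 < y0 ∧ ∀ z ∈ K, ‖z‖ ≤ m ∧ y0 ≤ z.im := by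
  rcases K.eq_empty_or_nonempty with rfl | hne
  · exact ⟨1, 1, le_rfl, one_pos, fun z hz => absurd hz (Set.notMem_empty z)⟩
  obtain ⟨z0, hz0, hmin⟩ := hK.exists_isMinOn hne Complex.continuous_im.continuousOn
  obtain ⟨z1, hz1, hmax⟩ := hK.exists_isMaxOn hne continuous_norm.continuousOn
  refine ⟨max 1 ‖z1‖, z0.im, le_max_left _ _, hKH hz0, fun z hz => ⟨?_, hmin hz⟩⟩
  exact (hmax hz).trans (le_max_right _ _)

end GeM

theorem stmtGe (hQF : StmtQF) : StmtGe := by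
  intro K hK hKH
  obtain ⟨m, y0, hm, hy0, hb⟩ := GeM.bounds K hK hKH
  refine ⟨4 * m + 2 * ((m ^ 2 + 1) / y0) ^ 2, ?_, ?_⟩
  · have : 0 ≤ 2 * ((m ^ 2 + 1) / y0) ^ 2 := by positivity
    linarith
  intro z hz γ r hr hV
  obtain ⟨hzm, hzy⟩ := hb z hz
  have hy : 0 < z.im := hKH hz
  obtain ⟨q1, q2, -, q4, q5, q6⟩ := hQF γ z z (hKH hz) (hKH hz)
  have hx : |z.re| ≤ m := (Complex.abs_re_le_norm z).trans hzm
  have hyn : z.im ≤ m := ((le_abs_self _).trans (Complex.abs_im_le_norm z)).trans hzm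
  have hnn : ‖z‖ ^ 2 = z.re ^ 2 + z.im ^ 2 := by
    rw [← Complex.normSq_eq_norm_sq, Complex.normSq_apply]
    ring
  set N : ℂ := ((γ 1 0 : ℤ) : ℂ) * z ^ 2 - (((γ 0 0 : ℤ) : ℂ) - ((γ 1 1 : ℤ) : ℂ)) * z -
    ((γ 0 1 : ℤ) : ℂ) with hN
  have hNr : N.re = (γ 1 0 : ℝ) * (z.re ^ 2 - z.im ^ 2) - ((γ 0 0 : ℝ) - (γ 1 1 : ℝ)) * z.re -
      (γ 0 1 : ℝ) := by
    rw [hN, pow_two]
    simp only [Complex.sub_re, Complex.mul_re, Complex.sub_im, Complex.mul_im,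
      Complex.intCast_re, Complex.intCast_im]
    ring
  have hNi : N.im = 2 * (γ 1 0 : ℝ) * z.re * z.im - ((γ 0 0 : ℝ) - (γ 1 1 : ℝ)) * z.im := by
    rw [hN, pow_two]
    simp only [Complex.sub_re, Complex.mul_re, Complex.sub_im, Complex.mul_im,
      Complex.intCast_re, Complex.intCast_im]
    ring
  have hNn : ‖N‖ ≤ 2 * z.im * r := by
    rw [q5, div_le_iff₀ (by positivity)] at hV
    have h1 : ‖N‖ ^ 2 ≤ (2 * z.im * r) ^ 2 := by nlinarith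
    exact (pow_le_pow_iff_left₀ (norm_nonneg _) (by positivity) two_ne_zero).1 h1
  have g1 : |((γ 0 0 - γ 1 1 : ℤ) : ℝ) - 2 * ((γ 1 0 : ℤ) : ℝ) * z.re| ≤ 2 * r := by
    have h1 : |N.im| ≤ 2 * z.im * r := (Complex.abs_im_le_norm N).trans hNn
    have h2 : N.im = -((((γ 0 0 - γ 1 1 : ℤ) : ℝ) - 2 * ((γ 1 0 : ℤ) : ℝ) * z.re) * z.im) := by
      rw [hNi]
      push_cast
      ring
    rw [h2, abs_neg, abs_mul, abs_of_pos hy] at h1
    exact le_of_mul_le_mul_right (by linarith) hy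
  refine ⟨g1, ?_, ?_, ?_⟩
  · have h1 : |N.re| ≤ 2 * z.im * r := (Complex.abs_re_le_norm N).trans hNn
    have h2 : -((γ 0 1 : ℤ) : ℝ) - ((γ 1 0 : ℤ) : ℝ) * ‖z‖ ^ 2 = N.re +
        (((γ 0 0 - γ 1 1 : ℤ) : ℝ) - 2 * ((γ 1 0 : ℤ) : ℝ) * z.re) * z.re := by
      rw [hNr, hnn]
      push_cast
      ring
    rw [h2]
    have h3 : |(((γ 0 0 - γ 1 1 : ℤ) : ℝ) - 2 * ((γ 1 0 : ℤ) : ℝ) * z.re) * z.re| ≤
        2 * r * m := by
      rw [abs_mul]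
      exact mul_le_mul g1 hx (abs_nonneg _) (by positivity)
    have h4 : 2 * z.im * r ≤ 2 * m * r := by gcongr
    have h5 : 0 ≤ 2 * ((m ^ 2 + 1) / y0) ^ 2 * r := by positivity
    calc _ ≤ _ := abs_add_le _ _
      _ ≤ 2 * m * r + 2 * r * m := add_le_add (h1.trans h4) h3
      _ ≤ _ := by nlinarith
  · have h0 : 0 ≤ ((γ.det : ℤ) : ℝ) + 2 * Vd γ z := by
      unfold Vd
      linarith
    have h1 : (‖z‖ ^ 2 + 1) / z.im ≤ (m ^ 2 + 1) / y0 := by gcongr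
    have h1' : 0 ≤ (‖z‖ ^ 2 + 1) / z.im := by positivity
    have h2 : msq γ ≤ 2 * (((γ.det : ℤ) : ℝ) + 2 * Vd γ z) * ((‖z‖ ^ 2 + 1) / z.im) *
        ((‖z‖ ^ 2 + 1) / z.im) := q4
    calc msq γ ≤ 2 * (((γ.det : ℤ) : ℝ) + 2 * Vd γ z) * ((m ^ 2 + 1) / y0) *
        ((m ^ 2 + 1) / y0) := by
          refine h2.trans ?_
          gcongr
      _ = 2 * ((m ^ 2 + 1) / y0) ^ 2 * (((γ.det : ℤ) : ℝ) + 2 * Vd γ z) := by ring
      _ ≤ _ := by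
          apply mul_le_mul_of_nonneg_right _ h0
          linarith
  · rw [q6]
    push_cast
    nlinarith [sq_nonneg (bet γ z)]

end

end Pool.Agent.A54.Av
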