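import Pool.Agent.Lib.MP_a54f13_nt.Av.SpecB

/-!
# Package `Av`, module `I`: the count (dyadic summation)
-/

set_option autoImplicit false

namespace Pool.Agent.A54.Av.IM

open MeasureTheory Filter Topology Set
open scoped ContDiff ComplexConjugate UpperHalfPlane MatrixGroups ENNReal NNReal
open Pool.Agent.A54.Half (H0 qq ff hh)
open Pool.Agent.A54.Av

private lemma sq_add' (a b : ℝ≥0∞) :
    (a + b) ^ 2 ≤ 5 * a ^ 2 + ENNReal.ofReal (5 / 4) * b ^ 2 := by
  rcases eq_or_ne a ⊤ with rfl | ha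
  · simp
  rcases eq_or_ne b ⊤ with rfl | hb
  · have h : ENNReal.ofReal (5 / 4) * (⊤ : ℝ≥0∞) ^ 2 = ⊤ := by
      rw [ENNReal.top_pow (by norm_num), ENNReal.mul_top]
      simp
    rw [h]; simp
  have h0a := ENNReal.ofReal_toReal ha
  have h0b := ENNReal.ofReal_toReal hb
  have ha0 := ENNReal.toReal_nonneg (a := a)
  have hb0 := ENNReal.toReal_nonneg (a := b)
  rw [← h0a, ← h0b]
  generalize a.toReal = x at *
  generalize b.toReal = y at *
  have h5 : (5 : ℝ≥0∞) = ENNReal.ofReal 5 := by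
    rw [ENNReal.ofReal_ofNat]
  rw [h5, ← ENNReal.ofReal_add ha0 hb0, ← ENNReal.ofReal_pow (by positivity),
    ← ENNReal.ofReal_pow (by positivity), ← ENNReal.ofReal_pow (by positivity),
    ← ENNReal.ofReal_mul (by positivity), ← ENNReal.ofReal_mul (by positivity),
    ← ENNReal.ofReal_add (by positivity) (by positivity)]
  apply ENNReal.ofReal_le_ofReal
  nlinarith [sq_nonneg (2 * x - y / 2)]

private lemma sum_sq : ∀ (m : ℕ) (y : ℕ → ℝ≥0∞),
    (∑ k ∈ Finset.range m, y k) ^ 2 ≤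
      5 * ∑ k ∈ Finset.range m, ENNReal.ofReal ((5 / 4) ^ k) * y k ^ 2
  | 0, y => by simp
  | m + 1, y => by
    rw [Finset.sum_range_succ', Finset.sum_range_succ', add_comm]
    refine (sq_add' _ _).trans ?_
    have ih := sum_sq m (fun k => y (k + 1))
    have h1 : ENNReal.ofReal (5 / 4) * (∑ k ∈ Finset.range m, y (k + 1)) ^ 2 ≤
        5 * ∑ k ∈ Finset.range m, ENNReal.ofReal ((5 / 4) ^ (k + 1)) * y (k + 1) ^ 2 := by
      calc ENNReal.ofReal (5 / 4) * (∑ k ∈ Finset.range m, y (k + 1)) ^ 2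
          ≤ ENNReal.ofReal (5 / 4) *
            (5 * ∑ k ∈ Finset.range m, ENNReal.ofReal ((5 / 4) ^ k) * y (k + 1) ^ 2) := by
            gcongr
        _ = 5 * ∑ k ∈ Finset.range m, ENNReal.ofReal ((5 / 4) ^ (k + 1)) * y (k + 1) ^ 2 := by
            rw [mul_left_comm, Finset.mul_sum]
            congr 1
            refine Finset.sum_congr rfl fun k _ => ?_
            rw [← mul_assoc, ← ENNReal.ofReal_mul (by norm_num), pow_succ' (5 / 4 : ℝ) k]
    calc 5 * y 0 ^ 2 + ENNReal.ofReal (5 / 4) * (∑ k ∈ Finset.range m, y (k + 1)) ^ 2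
        ≤ 5 * y 0 ^ 2 +
          5 * ∑ k ∈ Finset.range m, ENNReal.ofReal ((5 / 4) ^ (k + 1)) * y (k + 1) ^ 2 := by
          gcongr
      _ = _ := by
          rw [← mul_add]
          congr 1
          rw [add_comm]
          simp

/-- the functional -/
private noncomputable def J (K : Set ℂ) (f : ℕ → ℂ → ℝ≥0∞) : ℝ≥0∞ := ∫⁻ z in K, ∑' n, f n z

private lemma J_eq (K : Set ℂ) (f : ℕ → ℂ → ℝ≥0∞) (hf : ∀ n, Measurable (f n)) :
    J K f = ∑' n, ∫⁻ z in K, f n z :=
  lintegral_tsum fun n => (hf n).aemeasurable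

private lemma J_add (K : Set ℂ) (f g : ℕ → ℂ → ℝ≥0∞) (hf : ∀ n, Measurable (f n))
    (hg : ∀ n, Measurable (g n)) :
    J K (fun n z => f n z + g n z) = J K f + J K g := by
  rw [J_eq K (fun n z => f n z + g n z) (fun n => (hf n).add (hg n)), J_eq _ _ hf,
    J_eq _ _ hg, ← ENNReal.tsum_add]
  refine tsum_congr fun n => ?_
  exact lintegral_add_left (hf n) _

private lemma J_mul (K : Set ℂ) (c : ℝ≥0∞) (f : ℕ → ℂ → ℝ≥0∞) (hf : ∀ n, Measurable (f n)) :
    J K (fun n z => c * f n z) = c * J K f := by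
  rw [J_eq K (fun n z => c * f n z) (fun n => (hf n).const_mul c), J_eq _ _ hf,
    ← ENNReal.tsum_mul_left]
  refine tsum_congr fun n => ?_
  exact lintegral_const_mul c (hf n)

private lemma J_sum (K : Set ℂ) (s : Finset ℕ) (f : ℕ → ℕ → ℂ → ℝ≥0∞)
    (hf : ∀ i n, Measurable (f i n)) :
    J K (fun n z => ∑ i ∈ s, f i n z) = ∑ i ∈ s, J K (f i) := by
  classical
  induction s using Finset.induction_on with
  | empty => simp [J]
  | insert a s ha ih =>
    simp only [Finset.sum_insert ha]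
    rw [← ih]
    exact J_add K (f a) (fun n z => ∑ i ∈ s, f i n z) (hf a)
      (fun n => Finset.measurable_sum _ fun i _ => hf i n)

private lemma J_mono (K : Set ℂ) (f g : ℕ → ℂ → ℝ≥0∞) (h : ∀ n z, f n z ≤ g n z) :
    J K f ≤ J K g :=
  lintegral_mono fun z => ENNReal.tsum_le_tsum fun n => h n z

private lemma meas_Vd (γ : Mat) : Measurable (Vd γ) := by
  unfold Vd VV
  have hre : Measurable (fun z : ℂ => z.im) := Complex.measurable_im
  refine Measurable.div ?_ ?_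
  · refine (Measurable.norm ?_).pow_const 2
    exact ((measurable_const.mul measurable_id).add measurable_const).sub
      (measurable_id.mul ((measurable_const.mul measurable_id).add measurable_const))
  · exact (measurable_const.mul hre).mul hre

private lemma meas_cnt (β r : ℝ) (n : ℤ) (Q : Mat → Prop) :
    Measurable (fun z : ℂ => cnt (fun γ => Cnd β r n z γ ∧ Q γ)) := by
  classical
  unfold cnt
  have : Countable Mat := inferInstanceAs (Countable (Fin 2 → Fin 2 → ℤ))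
  refine Measurable.ennreal_tsum fun γ => ?_
  refine Measurable.ite ?_ measurable_const measurable_const
  have h1 : MeasurableSet {z : ℂ | ((γ.det : ℤ) : ℝ) + Vd γ z ≤ β ^ 2} :=
    measurableSet_le (measurable_const.add (meas_Vd γ)) measurable_const
  have h2 : MeasurableSet {z : ℂ | Vd γ z ≤ r ^ 2} :=
    measurableSet_le (meas_Vd γ) measurable_const
  have h3 : {z : ℂ | Cnd β r n z γ ∧ Q γ} =
      ({z : ℂ | ((γ.det : ℤ) : ℝ) + Vd γ z ≤ β ^ 2} ∩ {z : ℂ | Vd γ z ≤ r ^ 2}) ∩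
        {_z : ℂ | NonSc γ ∧ γ.det = n ∧ Q γ} := by
    ext z
    simp only [Cnd, mem_setOf_eq, mem_inter_iff]
    tauto
  rw [h3]
  exact (h1.inter h2).inter (MeasurableSet.const _)

private lemma cnt_le (P P0 P1 : Mat → Prop) (s : Finset ℕ) (R : ℕ → Mat → Prop)
    (h : ∀ γ, P γ → P0 γ ∨ P1 γ ∨ ∃ i ∈ s, R i γ) :
    cnt P ≤ cnt P0 + (cnt P1 + ∑ i ∈ s, cnt (R i)) := by
  classical
  unfold cnt
  rw [← Summable.tsum_finsetSum (fun i _ => ENNReal.summable), ← ENNReal.tsum_add,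
    ← ENNReal.tsum_add]
  refine ENNReal.tsum_le_tsum fun γ => ?_
  by_cases hP : P γ
  · rw [if_pos hP]
    rcases h γ hP with h0 | h1 | ⟨i, hi, hR⟩
    · rw [if_pos h0]; exact le_self_add
    · rw [if_pos h1]
      exact le_trans le_self_add le_add_self
    · have h2 : (1 : ℝ≥0∞) ≤ ∑ i ∈ s, (if R i γ then (1 : ℝ≥0∞) else 0) := by
        refine le_trans ?_ (Finset.single_le_sum (f := fun i => if R i γ then (1 : ℝ≥0∞) else 0)
          (fun _ _ => bot_le) hi)
        simp [hR]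
      exact h2.trans (le_trans le_add_self le_add_self)
  · rw [if_neg hP]; exact bot_le

end Pool.Agent.A54.Av.IM

namespace Pool.Agent.A54.Av

open MeasureTheory Filter Topology Set
open scoped ContDiff ComplexConjugate UpperHalfPlane MatrixGroups ENNReal NNReal
open Pool.Agent.A54.Half (H0 qq ff hh)
open IM

theorem stmtI (hI0 : StmtI0) (hI1 : StmtI1) (hI2 : StmtI2) : StmtI := by
  intro K hK hKH
  obtain ⟨C0, M0, hC0, h0⟩ := hI0 K hK hKH
  obtain ⟨A, C2, M2, hA, hC2, h2⟩ := hI2 K hK hKH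
  obtain ⟨C1, M1, hC1, h1⟩ := hI1 K hK hKH (2 * A) (by linarith)
  refine ⟨5 * C0 + 7 * C1 + 100 * C2, M0 + M1 + M2, by positivity, ?_⟩
  intro β r L hβ hr hL
  classical
  set N : ℕ := Nat.log 2 ⌊L⌋₊ with hN
  -- the pieces
  let Q0 : Mat → Prop := fun γ => γ 1 0 = 0
  let Q1 : Mat → Prop := fun γ => 1 ≤ |γ 1 0| ∧ ((|γ 1 0| : ℤ) : ℝ) ≤ 2 * A * (1 + r)
  let cd : ℕ → Prop := fun k => A * (1 + r) ≤ ((2 ^ (N - k) : ℕ) : ℝ) ∧
    ((2 ^ (N - k) : ℕ) : ℝ) * 2 ^ k ≤ L
  let Q2 : ℕ → Mat → Prop := fun k γ => cd k ∧ ((2 ^ (N - k) : ℕ) : ℤ) ≤ |γ 1 0| ∧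
    |γ 1 0| < 2 * ((2 ^ (N - k) : ℕ) : ℤ)
  let x0 : ℕ → ℂ → ℝ≥0∞ := fun n z => cnt (fun γ => Cnd β r (n + 1) z γ ∧ Q0 γ)
  let x1 : ℕ → ℂ → ℝ≥0∞ := fun n z => cnt (fun γ => Cnd β r (n + 1) z γ ∧ Q1 γ)
  let x2 : ℕ → ℕ → ℂ → ℝ≥0∞ := fun k n z => cnt (fun γ => Cnd β r (n + 1) z γ ∧ Q2 k γ)
  have mx0 : ∀ n, Measurable (x0 n) := fun n => meas_cnt _ _ _ _
  have mx1 : ∀ n, Measurable (x1 n) := fun n => meas_cnt _ _ _ _
  have mx2 : ∀ k n, Measurable (x2 k n) := fun k n => meas_cnt _ _ _ _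
  have hcov : ∀ (n : ℕ) (z : ℂ),
      cnt (fun γ => Cnd β r (n + 1) z γ ∧ ((|γ 1 0| : ℤ) : ℝ) ≤ L) ≤
        x0 n z + (x1 n z + ∑ k ∈ Finset.range (N + 1), x2 k n z) := by
    intro n z
    refine cnt_le _ _ _ _ (fun k γ => Cnd β r (n + 1) z γ ∧ Q2 k γ) ?_
    rintro γ ⟨hc, hL'⟩
    by_cases hz : γ 1 0 = 0
    · exact Or.inl ⟨hc, hz⟩
    by_cases hs : ((|γ 1 0| : ℤ) : ℝ) ≤ 2 * A * (1 + r)
    · exact Or.inr (Or.inl ⟨hc, Int.one_le_abs hz, hs⟩)
    push Not at hs
    refine Or.inr (Or.inr ?_)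
    have hcast : ((|γ 1 0| : ℤ) : ℝ) = (((γ 1 0).natAbs : ℕ) : ℝ) := by
      rw [Nat.cast_natAbs]
    have hna : (γ 1 0).natAbs ≠ 0 := by
      intro h; exact hz (Int.natAbs_eq_zero.1 h)
    set a : ℕ := (γ 1 0).natAbs with ha
    set i : ℕ := Nat.log 2 a with hi
    have hi1 : 2 ^ i ≤ a := Nat.pow_log_le_self 2 hna
    have hi2 : a < 2 ^ (i + 1) := Nat.lt_pow_succ_log_self (by norm_num) a
    have haL : a ≤ ⌊L⌋₊ := by
      apply Nat.le_floor
      rw [← hcast]; exact hL'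
    have hiN : i ≤ N := Nat.log_mono_right haL
    have hk : N - (N - i) = i := by omega
    have hfl : ⌊L⌋₊ ≠ 0 := by omega
    have h2N : (2 : ℝ) ^ N ≤ L := by
      have h3 : 2 ^ N ≤ ⌊L⌋₊ := Nat.pow_log_le_self 2 hfl
      have h4 : ((2 ^ N : ℕ) : ℝ) ≤ L := (Nat.cast_le.2 h3).trans (Nat.floor_le hL)
      simpa using h4
    have hi2' : ((a : ℕ) : ℝ) < 2 * ((2 ^ i : ℕ) : ℝ) := by
      have h5 : ((a : ℕ) : ℝ) < ((2 ^ (i + 1) : ℕ) : ℝ) := Nat.cast_lt.2 hi2
      rw [pow_succ] at h5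
      push_cast at h5 ⊢
      linarith
    have habs : |γ 1 0| = (a : ℤ) := by rw [ha]; exact Int.abs_eq_natAbs _
    refine ⟨N - i, by simp only [Finset.mem_range]; omega, hc, ⟨?_, ?_⟩, ?_, ?_⟩
    · rw [hk]
      rw [hcast] at hs
      nlinarith
    · rw [hk]
      have h6 : ((2 ^ i : ℕ) : ℝ) * 2 ^ (N - i) = 2 ^ N := by
        push_cast
        rw [← pow_add]
        congr 1
        omega
      rw [h6]; exact h2N
    · rw [hk, habs]; exact_mod_cast hi1
    · rw [hk, habs]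
      have h7 : a < 2 * 2 ^ i := by rw [pow_succ] at hi2; linarith
      exact_mod_cast h7
  -- the bounds of the pieces
  have b0 : J K (fun n z => x0 n z ^ 2) ≤ ENNReal.ofReal (C0 * r ^ 2 * (1 + r) ^ M0 * β) :=
    h0 β r hβ hr
  have b1 : J K (fun n z => x1 n z ^ 2) ≤ ENNReal.ofReal (C1 * r ^ 2 * (1 + r) ^ M1 * β) :=
    h1 β r hβ hr
  set D : ℝ := C2 * r ^ 2 * (1 + r) ^ M2 * (β * √(L * β)) with hD
  have hD0 : 0 ≤ D := by positivity
  have b2 : ∀ k, J K (fun n z => x2 k n z ^ 2) ≤ ENNReal.ofReal (D * (18 / 25) ^ k) := by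
    intro k
    by_cases hcd : cd k
    · have e1 : J K (fun n z => x2 k n z ^ 2) =
          ∫⁻ z in K, ∑' n : ℕ, cnt (fun γ => Cnd β r (n + 1) z γ ∧
            ((2 ^ (N - k) : ℕ) : ℤ) ≤ |γ 1 0| ∧ |γ 1 0| < 2 * ((2 ^ (N - k) : ℕ) : ℤ)) ^ 2 := by
        simp only [J, x2, Q2, hcd, true_and]
      rw [e1]
      refine (h2 β r (2 ^ (N - k)) hβ hr hcd.1).trans ?_
      apply ENNReal.ofReal_le_ofReal
      have hH : ((2 ^ (N - k) : ℕ) : ℝ) ≤ L * ((18 / 25 : ℝ) ^ k) ^ 2 := by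
        have h3 := hcd.2
        have h4 : ((2 ^ (N - k) : ℕ) : ℝ) ≤ L * (1 / 2) ^ k := by
          have h5 : (0 : ℝ) < 2 ^ k := by positivity
          rw [one_div, inv_pow, ← div_eq_mul_inv, le_div_iff₀ h5]
          exact h3
        refine h4.trans ?_
        have h6 : (1 / 2 : ℝ) ^ k ≤ ((18 / 25 : ℝ) ^ k) ^ 2 := by
          rw [← pow_mul, mul_comm k 2, pow_mul]
          exact pow_le_pow_left₀ (by norm_num) (by norm_num) k
        exact mul_le_mul_of_nonneg_left h6 hL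
      have hs : √(((2 ^ (N - k) : ℕ) : ℝ) * β) ≤ √(L * β) * (18 / 25) ^ k := by
        have h7 : √(L * β) * (18 / 25 : ℝ) ^ k = √(L * β * ((18 / 25 : ℝ) ^ k) ^ 2) := by
          rw [Real.sqrt_mul (show 0 ≤ L * β by positivity) (((18 / 25 : ℝ) ^ k) ^ 2), Real.sqrt_sq (by positivity)]
        rw [h7]
        apply Real.sqrt_le_sqrt
        nlinarith
      rw [hD]
      have h8 : C2 * r ^ 2 * (1 + r) ^ M2 * (β * √(((2 ^ (N - k) : ℕ) : ℝ) * β)) ≤
          C2 * r ^ 2 * (1 + r) ^ M2 * (β * (√(L * β) * (18 / 25) ^ k)) := by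
        gcongr
      refine h8.trans (le_of_eq ?_)
      ring
    · have e1 : J K (fun n z => x2 k n z ^ 2) = 0 := by
        simp [J, x2, Q2, hcd, cnt]
      rw [e1]; exact bot_le
  -- summation
  have msq : ∀ k n, Measurable (fun z => x2 k n z ^ 2) := fun k n => (mx2 k n).pow_const 2
  have bS : J K (fun n z => (∑ k ∈ Finset.range (N + 1), x2 k n z) ^ 2) ≤
      ENNReal.ofReal (50 * D) := by
    calc J K (fun n z => (∑ k ∈ Finset.range (N + 1), x2 k n z) ^ 2)
        ≤ J K (fun n z => 5 * ∑ k ∈ Finset.range (N + 1),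
            ENNReal.ofReal ((5 / 4) ^ k) * x2 k n z ^ 2) :=
          J_mono _ _ _ fun n z => sum_sq (N + 1) (fun k => x2 k n z)
      _ = 5 * ∑ k ∈ Finset.range (N + 1),
            ENNReal.ofReal ((5 / 4) ^ k) * J K (fun n z => x2 k n z ^ 2) := by
          rw [J_mul K 5 (fun n z => ∑ k ∈ Finset.range (N + 1),
            ENNReal.ofReal ((5 / 4) ^ k) * x2 k n z ^ 2)
            (fun n => Finset.measurable_sum _ fun k _ => (msq k n).const_mul _)]
          rw [J_sum K _ (fun k n z => ENNReal.ofReal ((5 / 4) ^ k) * x2 k n z ^ 2)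
            (fun k n => (msq k n).const_mul _)]
          congr 1
          refine Finset.sum_congr rfl fun k _ => ?_
          exact J_mul K _ _ (msq k)
      _ ≤ 5 * ∑ k ∈ Finset.range (N + 1), ENNReal.ofReal (D * (9 / 10) ^ k) := by
          gcongr with k _
          calc ENNReal.ofReal ((5 / 4) ^ k) * J K (fun n z => x2 k n z ^ 2)
              ≤ ENNReal.ofReal ((5 / 4) ^ k) * ENNReal.ofReal (D * (18 / 25) ^ k) := by
                gcongr; exact b2 k
            _ = ENNReal.ofReal (D * (9 / 10) ^ k) := by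
                rw [← ENNReal.ofReal_mul (by positivity)]
                congr 1
                rw [mul_left_comm, ← mul_pow]
                norm_num
      _ ≤ ENNReal.ofReal (50 * D) := by
          rw [← ENNReal.ofReal_sum_of_nonneg (fun k _ => by positivity), ← Finset.mul_sum]
          have h5 : (5 : ℝ≥0∞) = ENNReal.ofReal 5 := by rw [ENNReal.ofReal_ofNat]
          rw [h5, ← ENNReal.ofReal_mul (by norm_num)]
          apply ENNReal.ofReal_le_ofReal
          have hg : ∑ k ∈ Finset.range (N + 1), (9 / 10 : ℝ) ^ k ≤ 10 := by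
            have h6 := Summable.sum_le_tsum (Finset.range (N + 1))
              (fun k _ => by positivity)
              (summable_geometric_of_lt_one (r := (9 / 10 : ℝ)) (by norm_num) (by norm_num))
            rw [tsum_geometric_of_lt_one (by norm_num) (by norm_num)] at h6
            norm_num at h6 ⊢
            exact h6
          nlinarith
  have mS : ∀ n, Measurable (fun z => (∑ k ∈ Finset.range (N + 1), x2 k n z) ^ 2) :=
    fun n => (Finset.measurable_sum _ fun k _ => mx2 k n).pow_const 2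
  have m0 : ∀ n, Measurable (fun z => x0 n z ^ 2) := fun n => (mx0 n).pow_const 2
  have m1 : ∀ n, Measurable (fun z => x1 n z ^ 2) := fun n => (mx1 n).pow_const 2
  set c : ℝ≥0∞ := ENNReal.ofReal (5 / 4) with hc
  have key : ∀ (n : ℕ) (z : ℂ),
      cnt (fun γ => Cnd β r (n + 1) z γ ∧ ((|γ 1 0| : ℤ) : ℝ) ≤ L) ^ 2 ≤
        5 * x0 n z ^ 2 + (c * (5 * x1 n z ^ 2) +
          c * (c * (∑ k ∈ Finset.range (N + 1), x2 k n z) ^ 2)) := by
    intro n z
    calc cnt (fun γ => Cnd β r (n + 1) z γ ∧ ((|γ 1 0| : ℤ) : ℝ) ≤ L) ^ 2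
        ≤ (x0 n z + (x1 n z + ∑ k ∈ Finset.range (N + 1), x2 k n z)) ^ 2 := by
          gcongr; exact hcov n z
      _ ≤ 5 * x0 n z ^ 2 + c * (x1 n z + ∑ k ∈ Finset.range (N + 1), x2 k n z) ^ 2 :=
          sq_add' _ _
      _ ≤ 5 * x0 n z ^ 2 + c * (5 * x1 n z ^ 2 +
            c * (∑ k ∈ Finset.range (N + 1), x2 k n z) ^ 2) := by
          gcongr; exact sq_add' _ _
      _ = _ := by rw [mul_add]
  have step : J K (fun n z => cnt (fun γ => Cnd β r (n + 1) z γ ∧ ((|γ 1 0| : ℤ) : ℝ) ≤ L) ^ 2) ≤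
      5 * J K (fun n z => x0 n z ^ 2) + (c * (5 * J K (fun n z => x1 n z ^ 2)) +
        c * (c * J K (fun n z => (∑ k ∈ Finset.range (N + 1), x2 k n z) ^ 2))) := by
    refine (J_mono K _ _ key).trans (le_of_eq ?_)
    rw [J_add K (fun n z => 5 * x0 n z ^ 2) (fun n z => c * (5 * x1 n z ^ 2) +
        c * (c * (∑ k ∈ Finset.range (N + 1), x2 k n z) ^ 2))
      (fun n => (m0 n).const_mul _)
      (fun n => (((m1 n).const_mul _).const_mul _).add (((mS n).const_mul _).const_mul _)),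
      J_add K (fun n z => c * (5 * x1 n z ^ 2))
        (fun n z => c * (c * (∑ k ∈ Finset.range (N + 1), x2 k n z) ^ 2))
        (fun n => ((m1 n).const_mul _).const_mul _) (fun n => ((mS n).const_mul _).const_mul _),
      J_mul K 5 _ m0, J_mul K c (fun n z => 5 * x1 n z ^ 2) (fun n => (m1 n).const_mul _),
      J_mul K 5 _ m1, J_mul K c
        (fun n z => c * (∑ k ∈ Finset.range (N + 1), x2 k n z) ^ 2)
        (fun n => (mS n).const_mul _), J_mul K c _ mS]
  refine step.trans ?_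
  calc 5 * J K (fun n z => x0 n z ^ 2) + (c * (5 * J K (fun n z => x1 n z ^ 2)) +
        c * (c * J K (fun n z => (∑ k ∈ Finset.range (N + 1), x2 k n z) ^ 2)))
      ≤ 5 * ENNReal.ofReal (C0 * r ^ 2 * (1 + r) ^ M0 * β) +
        (c * (5 * ENNReal.ofReal (C1 * r ^ 2 * (1 + r) ^ M1 * β)) +
          c * (c * ENNReal.ofReal (50 * D))) := by
        gcongr
    _ = ENNReal.ofReal (5 * (C0 * r ^ 2 * (1 + r) ^ M0 * β) +
        (5 / 4 * (5 * (C1 * r ^ 2 * (1 + r) ^ M1 * β)) + 5 / 4 * (5 / 4 * (50 * D)))) := by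
        have h5 : (5 : ℝ≥0∞) = ENNReal.ofReal 5 := by rw [ENNReal.ofReal_ofNat]
        rw [h5, hc]
        rw [← ENNReal.ofReal_mul (by norm_num), ← ENNReal.ofReal_mul (by norm_num),
          ← ENNReal.ofReal_mul (by norm_num), ← ENNReal.ofReal_mul (by norm_num),
          ← ENNReal.ofReal_mul (by norm_num), ← ENNReal.ofReal_add (by positivity) (by positivity),
          ← ENNReal.ofReal_add (by positivity) (by positivity)]
    _ ≤ _ := by
        apply ENNReal.ofReal_le_ofReal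
        have hp0 : (1 + r) ^ M0 ≤ (1 + r) ^ (M0 + M1 + M2) :=
          pow_le_pow_right₀ (by linarith) (by omega)
        have hp1 : (1 + r) ^ M1 ≤ (1 + r) ^ (M0 + M1 + M2) :=
          pow_le_pow_right₀ (by linarith) (by omega)
        have hp2 : (1 + r) ^ M2 ≤ (1 + r) ^ (M0 + M1 + M2) :=
          pow_le_pow_right₀ (by linarith) (by omega)
        set P : ℝ := (1 + r) ^ (M0 + M1 + M2) with hP
        have hs0 : 0 ≤ β * √(L * β) := by positivity
        have t0 : C0 * r ^ 2 * (1 + r) ^ M0 * β ≤ C0 * r ^ 2 * P * (β + β * √(L * β)) := by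
          have : C0 * r ^ 2 * (1 + r) ^ M0 ≤ C0 * r ^ 2 * P := by gcongr
          exact mul_le_mul this (by linarith) hβ.le (by positivity)
        have t1 : C1 * r ^ 2 * (1 + r) ^ M1 * β ≤ C1 * r ^ 2 * P * (β + β * √(L * β)) := by
          have : C1 * r ^ 2 * (1 + r) ^ M1 ≤ C1 * r ^ 2 * P := by gcongr
          exact mul_le_mul this (by linarith) hβ.le (by positivity)
        have t2 : D ≤ C2 * r ^ 2 * P * (β + β * √(L * β)) := by
          rw [hD]
          have : C2 * r ^ 2 * (1 + r) ^ M2 ≤ C2 * r ^ 2 * P := by gcongr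
          exact mul_le_mul this (by linarith) hs0 (by positivity)
        have n0 : 0 ≤ C0 * r ^ 2 * P * (β + β * √(L * β)) := by positivity
        have n1 : 0 ≤ C1 * r ^ 2 * P * (β + β * √(L * β)) := by positivity
        have n2 : 0 ≤ C2 * r ^ 2 * P * (β + β * √(L * β)) := by positivity
        nlinarith

end Pool.Agent.A54.Av
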