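import Pool.Agent.Lib.MP_a54f13_nt.Av.SpecB

set_option autoImplicit false

namespace Pool.Agent.A54.Av

open MeasureTheory Filter Topology Set
open scoped ContDiff ComplexConjugate UpperHalfPlane MatrixGroups ENNReal
open Pool.Agent.A54.Half (H0 qq ff hh)

namespace I0M

lemma cnt_le {α : Type} (P : Mat → Prop) (f : Mat → α) (s : Finset α)
    (hf : ∀ γ, P γ → f γ ∈ s) (inj : ∀ γ γ', P γ → P γ' → f γ = f γ' → γ = γ') :
    cnt P ≤ (s.card : ℝ≥0∞) := by
  classical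
  have hfin : {γ | P γ}.Finite :=
    Set.Finite.of_injOn (f := f) (t := (s : Set α)) (fun γ hγ => hf γ hγ)
      (fun γ hγ γ' hγ' h => inj γ γ' hγ hγ' h) s.finite_toSet
  unfold cnt
  rw [tsum_eq_sum (s := hfin.toFinset)]
  · have h1 : ∑ γ ∈ hfin.toFinset, (if P γ then (1 : ℝ≥0∞) else 0) ≤
        ∑ _γ ∈ hfin.toFinset, (1 : ℝ≥0∞) := by
      refine Finset.sum_le_sum fun γ _ => ?_
      split_ifs <;> simp
    refine (le_of_eq ?_).trans (h1.trans ?_)
    · exact Finset.sum_congr rfl fun γ _ => by congr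
    · rw [Finset.sum_const, nsmul_eq_mul, mul_one]
      have h2 : hfin.toFinset.card ≤ s.card := by
        refine Finset.card_le_card_of_injOn f (fun γ hγ => hf γ ?_) (fun γ hγ γ' hγ' h => ?_)
        · simpa using hγ
        · exact inj γ γ' (by simpa using hγ) (by simpa using hγ') h
      exact_mod_cast h2
  · intro γ hγ
    have : ¬ P γ := by simpa using hγ
    rw [if_neg this]

lemma cnt_zero (P : Mat → Prop) (h : ∀ γ, ¬ P γ) : cnt P = 0 := by
  unfold cnt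
  rw [ENNReal.tsum_eq_zero]
  intro γ
  rw [if_neg (h γ)]

lemma Vd_nonneg (γ : Mat) {z : ℂ} (hz : z ∈ H0) : 0 ≤ Vd γ z := by
  unfold Vd VV
  have h1 : 0 < z.im := hz
  positivity

/-- the sum over `n` of the counts -/
lemma sum_cnt (R : Mat → Prop) :
    ∑' n : ℕ, cnt (fun γ => γ.det = (n : ℤ) + 1 ∧ R γ) ≤ cnt R := by
  classical
  unfold cnt
  rw [ENNReal.tsum_comm]
  refine ENNReal.tsum_le_tsum fun γ => ?_
  by_cases hR : R γ
  · rw [if_pos hR]
    rw [tsum_eq_single (γ.det - 1).toNat]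
    · split_ifs <;> simp
    · intro n hn
      rw [if_neg]
      rintro ⟨h1, -⟩
      apply hn
      rw [h1]
      simp
  · rw [if_neg hR]
    refine le_of_eq ?_
    rw [ENNReal.tsum_eq_zero]
    intro n
    rw [if_neg]
    exact fun h => hR h.2

lemma mem_Icc_of_abs {p : ℤ} {x : ℝ} (hx : 0 ≤ x) (h : |(p : ℝ)| ≤ x) :
    p ∈ Finset.Icc (-(⌊x⌋₊ : ℤ)) (⌊x⌋₊ : ℤ) := by
  have h1 : p.natAbs ≤ ⌊x⌋₊ := by
    apply Nat.le_floor
    have h2 : ((p.natAbs : ℕ) : ℝ) = |(p : ℝ)| := by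
      rw [Nat.cast_natAbs]; push_cast; rfl
    rw [h2]; exact h
  rw [Finset.mem_Icc]
  omega

lemma card_Icc (x : ℝ) (hx : 0 ≤ x) :
    ((Finset.Icc (-(⌊x⌋₊ : ℤ)) (⌊x⌋₊ : ℤ)).card : ℝ) ≤ 2 * x + 1 := by
  rw [Int.card_Icc]
  have h1 : ((⌊x⌋₊ : ℤ) + 1 - -(⌊x⌋₊ : ℤ)).toNat = 2 * ⌊x⌋₊ + 1 := by omega
  rw [h1]
  push_cast
  have := Nat.floor_le hx
  linarith

lemma det_of_c0 {γ : Mat} (h : γ 1 0 = 0) : γ.det = γ 0 0 * γ 1 1 := by
  rw [Matrix.det_fin_two, h, mul_zero, sub_zero]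

lemma ext4 {γ γ' : Mat} (h1 : γ 0 0 = γ' 0 0) (h2 : γ 0 1 = γ' 0 1) (h3 : γ 1 0 = γ' 1 0)
    (h4 : γ 1 1 = γ' 1 1) : γ = γ' := by
  ext i j
  fin_cases i <;> fin_cases j <;> assumption

end I0M

open I0M in
theorem stmtI0 (hGe : StmtGe) : StmtI0 := by
  classical
  intro K hK hKH
  obtain ⟨C, hC1, hGe⟩ := hGe K hK hKH
  have hC0 : 0 < C := by linarith
  have hvol : volume K ≠ ⊤ := hK.measure_lt_top.ne
  refine ⟨2560 * C ^ 4 * (volume K).toReal, 4, by positivity, fun β r hβ hr => ?_⟩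
  have key : ∀ z ∈ K, ∑' n : ℕ, cnt (fun γ => Cnd β r (n + 1) z γ ∧ γ 1 0 = 0) ^ 2 ≤
      ENNReal.ofReal (2560 * C ^ 4 * (r ^ 2 * (1 + r) ^ 4 * β)) := by
    intro z hz
    have hzH := hKH hz
    -- the relation
    obtain ⟨R, hR⟩ : ∃ R : Mat → Prop, R = fun γ => NonSc γ ∧
      ((γ.det : ℤ) : ℝ) + Vd γ z ≤ β ^ 2 ∧ Vd γ z ≤ r ^ 2 ∧ γ 1 0 = 0 ∧ 1 ≤ γ.det := ⟨_, rfl⟩
    have hle : ∀ n : ℕ, cnt (fun γ => Cnd β r (n + 1) z γ ∧ γ 1 0 = 0) ≤
        cnt (fun γ => γ.det = (n : ℤ) + 1 ∧ R γ) := by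
      intro n
      unfold cnt
      refine ENNReal.tsum_le_tsum fun γ => ?_
      by_cases h : Cnd β r (n + 1) z γ ∧ γ 1 0 = 0
      · have h' : γ.det = (n : ℤ) + 1 ∧ R γ := by
          obtain ⟨⟨a1, a2, a3, a4⟩, a5⟩ := h
          rw [hR]
          exact ⟨a2, a1, a3, a4, a5, by omega⟩
        rw [if_pos h, if_pos h']
      · rw [if_neg h]
        exact zero_le
    by_cases hex : ∃ γ, R γ
    · -- bounds for the parameters
      have hfacts : ∀ γ, R γ → |((γ 0 0 - γ 1 1 : ℤ) : ℝ)| ≤ 2 * r ∧ |((γ 0 1 : ℤ) : ℝ)| ≤ C * r ∧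
          |((γ 0 0 + γ 1 1 : ℤ) : ℝ)| ≤ 2 * β := by
        intro γ hγ
        rw [hR] at hγ
        obtain ⟨a1, a2, a3, a4, a5⟩ := hγ
        obtain ⟨g1, g2, -, g4⟩ := hGe z hz γ r hr.le a3
        rw [a4] at g1 g2
        simp only [Int.cast_zero, mul_zero, zero_mul, sub_zero] at g1 g2
        refine ⟨g1, ?_, ?_⟩
        · rwa [abs_neg] at g2
        · apply abs_le_of_sq_le_sq _ (by positivity)
          calc ((γ 0 0 + γ 1 1 : ℤ) : ℝ) ^ 2 ≤ 4 * (((γ.det : ℤ) : ℝ) + Vd γ z) := g4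
            _ ≤ 4 * β ^ 2 := by linarith
            _ = (2 * β) ^ 2 := by ring
      obtain ⟨γ₀, hγ₀⟩ := hex
      have hβ1 : 1 ≤ β := by
        have hγ := hγ₀
        rw [hR] at hγ
        obtain ⟨a1, a2, a3, a4, a5⟩ := hγ
        have h1 : (1 : ℝ) ≤ ((γ₀.det : ℤ) : ℝ) := by exact_mod_cast a5
        have h2 := Vd_nonneg γ₀ hzH
        by_contra h
        push Not at h
        nlinarith
      have hr1 : 1 ≤ 2 * C * r := by
        by_contra h
        push Not at h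
        obtain ⟨b1, b2, -⟩ := hfacts γ₀ hγ₀
        have c1 : |((γ₀ 0 0 - γ₀ 1 1 : ℤ) : ℝ)| < 1 := by nlinarith
        have c2 : |((γ₀ 0 1 : ℤ) : ℝ)| < 1 := by nlinarith
        have d1 : |γ₀ 0 0 - γ₀ 1 1| < 1 := by exact_mod_cast c1
        have d2 : |γ₀ 0 1| < 1 := by exact_mod_cast c2
        rw [Int.abs_lt_one_iff] at d1 d2
        have hγ := hγ₀
        rw [hR] at hγ
        exact hγ.1 ⟨d2, hγ.2.2.2.1, by omega⟩
      -- the counts
      have hn1 : ∀ n : ℕ, cnt (fun γ => γ.det = (n : ℤ) + 1 ∧ R γ) ≤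
          ENNReal.ofReal (16 * C * (1 + r) ^ 2) := by
        intro n
        have h1 := cnt_le (fun γ => γ.det = (n : ℤ) + 1 ∧ R γ)
          (fun γ => ((γ 0 0 - γ 1 1, γ 0 1), decide (0 ≤ γ 0 0 + γ 1 1)))
          (((Finset.Icc (-(⌊2 * r⌋₊ : ℤ)) (⌊2 * r⌋₊ : ℤ)) ×ˢ
            (Finset.Icc (-(⌊C * r⌋₊ : ℤ)) (⌊C * r⌋₊ : ℤ))) ×ˢ (Finset.univ : Finset Bool))
          (by
            intro γ hγ
            obtain ⟨b1, b2, -⟩ := hfacts γ hγ.2
            rw [Finset.mem_product, Finset.mem_product]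
            exact ⟨⟨mem_Icc_of_abs (by positivity) b1, mem_Icc_of_abs (by positivity) b2⟩,
              Finset.mem_univ _⟩)
          (by
            rintro γ γ' ⟨hd, hγ⟩ ⟨hd', hγ'⟩ h
            rw [hR] at hγ hγ'
            obtain ⟨-, -, -, a4, -⟩ := hγ
            obtain ⟨-, -, -, a4', -⟩ := hγ'
            rw [det_of_c0 a4] at hd
            rw [det_of_c0 a4'] at hd'
            simp only [Prod.mk.injEq, decide_eq_decide] at h
            obtain ⟨⟨e1, e2⟩, e3⟩ := h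
            have e4 : (γ 0 0 + γ 1 1) ^ 2 = (γ' 0 0 + γ' 1 1) ^ 2 := by
              have i1 : (γ 0 0 + γ 1 1) ^ 2 = (γ 0 0 - γ 1 1) ^ 2 + 4 * (γ 0 0 * γ 1 1) := by ring
              have i2 : (γ' 0 0 + γ' 1 1) ^ 2 = (γ' 0 0 - γ' 1 1) ^ 2 + 4 * (γ' 0 0 * γ' 1 1) := by
                ring
              rw [i1, i2, e1, hd, hd']
            have e5 : γ 0 0 + γ 1 1 = γ' 0 0 + γ' 1 1 := by
              rcases sq_eq_sq_iff_eq_or_eq_neg.1 e4 with e | e
              · exact e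
              · by_cases hs : 0 ≤ γ 0 0 + γ 1 1
                · have := e3.1 hs
                  omega
                · have : ¬ 0 ≤ γ' 0 0 + γ' 1 1 := fun h => hs (e3.2 h)
                  omega
            exact ext4 (by omega) e2 (by rw [a4, a4']) (by omega))
        refine h1.trans ?_
        rw [← ENNReal.ofReal_natCast]
        apply ENNReal.ofReal_le_ofReal
        rw [Finset.card_product, Finset.card_product, Finset.card_univ, Fintype.card_bool]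
        push_cast
        have i1 := card_Icc (2 * r) (by positivity)
        have i2 := card_Icc (C * r) (by positivity)
        have j1 : ((Finset.Icc (-(⌊2 * r⌋₊ : ℤ)) (⌊2 * r⌋₊ : ℤ)).card : ℝ) ≤ 4 * (1 + r) := by
          linarith
        have j2 : ((Finset.Icc (-(⌊C * r⌋₊ : ℤ)) (⌊C * r⌋₊ : ℤ)).card : ℝ) ≤ 2 * C * (1 + r) := by
          nlinarith
        calc ((Finset.Icc (-(⌊2 * r⌋₊ : ℤ)) (⌊2 * r⌋₊ : ℤ)).card : ℝ) *
              ((Finset.Icc (-(⌊C * r⌋₊ : ℤ)) (⌊C * r⌋₊ : ℤ)).card : ℝ) * 2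
            ≤ (4 * (1 + r)) * (2 * C * (1 + r)) * 2 := by
              refine mul_le_mul_of_nonneg_right ?_ (by norm_num)
              exact mul_le_mul j1 j2 (by positivity) (by positivity)
          _ = 16 * C * (1 + r) ^ 2 := by ring
      have hn2 : cnt R ≤ ENNReal.ofReal (40 * C * (1 + r) ^ 2 * β) := by
        have h1 := cnt_le R
          (fun γ => ((γ 0 0 - γ 1 1, γ 0 1), γ 0 0 + γ 1 1))
          (((Finset.Icc (-(⌊2 * r⌋₊ : ℤ)) (⌊2 * r⌋₊ : ℤ)) ×ˢ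
            (Finset.Icc (-(⌊C * r⌋₊ : ℤ)) (⌊C * r⌋₊ : ℤ))) ×ˢ
              (Finset.Icc (-(⌊2 * β⌋₊ : ℤ)) (⌊2 * β⌋₊ : ℤ)))
          (by
            intro γ hγ
            obtain ⟨b1, b2, b3⟩ := hfacts γ hγ
            rw [Finset.mem_product, Finset.mem_product]
            exact ⟨⟨mem_Icc_of_abs (by positivity) b1, mem_Icc_of_abs (by positivity) b2⟩,
              mem_Icc_of_abs (by positivity) b3⟩)
          (by
            intro γ γ' hγ hγ' h
            rw [hR] at hγ hγ'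
            obtain ⟨-, -, -, a4, -⟩ := hγ
            obtain ⟨-, -, -, a4', -⟩ := hγ'
            simp only [Prod.mk.injEq] at h
            obtain ⟨⟨e1, e2⟩, e3⟩ := h
            exact ext4 (by omega) e2 (by rw [a4, a4']) (by omega))
        refine h1.trans ?_
        rw [← ENNReal.ofReal_natCast]
        apply ENNReal.ofReal_le_ofReal
        rw [Finset.card_product, Finset.card_product]
        push_cast
        have i1 := card_Icc (2 * r) (by positivity)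
        have i2 := card_Icc (C * r) (by positivity)
        have i3 := card_Icc (2 * β) (by positivity)
        have j1 : ((Finset.Icc (-(⌊2 * r⌋₊ : ℤ)) (⌊2 * r⌋₊ : ℤ)).card : ℝ) ≤ 4 * (1 + r) := by
          linarith
        have j2 : ((Finset.Icc (-(⌊C * r⌋₊ : ℤ)) (⌊C * r⌋₊ : ℤ)).card : ℝ) ≤ 2 * C * (1 + r) := by
          nlinarith
        have j3 : ((Finset.Icc (-(⌊2 * β⌋₊ : ℤ)) (⌊2 * β⌋₊ : ℤ)).card : ℝ) ≤ 5 * β := by
          linarith
        calc ((Finset.Icc (-(⌊2 * r⌋₊ : ℤ)) (⌊2 * r⌋₊ : ℤ)).card : ℝ) *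
              ((Finset.Icc (-(⌊C * r⌋₊ : ℤ)) (⌊C * r⌋₊ : ℤ)).card : ℝ) *
              ((Finset.Icc (-(⌊2 * β⌋₊ : ℤ)) (⌊2 * β⌋₊ : ℤ)).card : ℝ)
            ≤ (4 * (1 + r)) * (2 * C * (1 + r)) * (5 * β) := by
              refine mul_le_mul ?_ j3 (by positivity) (by positivity)
              exact mul_le_mul j1 j2 (by positivity) (by positivity)
          _ = 40 * C * (1 + r) ^ 2 * β := by ring
      -- conclusion
      have h5 : ∑' n : ℕ, cnt (fun γ => Cnd β r (n + 1) z γ ∧ γ 1 0 = 0) ^ 2 ≤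
          ENNReal.ofReal (16 * C * (1 + r) ^ 2) *
            ENNReal.ofReal (40 * C * (1 + r) ^ 2 * β) := by
        calc ∑' n : ℕ, cnt (fun γ => Cnd β r (n + 1) z γ ∧ γ 1 0 = 0) ^ 2
            ≤ ∑' n : ℕ, ENNReal.ofReal (16 * C * (1 + r) ^ 2) *
                cnt (fun γ => γ.det = (n : ℤ) + 1 ∧ R γ) := by
              refine ENNReal.tsum_le_tsum fun n => ?_
              rw [sq]
              exact mul_le_mul' ((hle n).trans (hn1 n)) (hle n)
          _ = ENNReal.ofReal (16 * C * (1 + r) ^ 2) *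
                ∑' n : ℕ, cnt (fun γ => γ.det = (n : ℤ) + 1 ∧ R γ) := ENNReal.tsum_mul_left
          _ ≤ _ := mul_le_mul' le_rfl ((sum_cnt R).trans hn2)
      refine h5.trans ?_
      rw [← ENNReal.ofReal_mul (by positivity)]
      apply ENNReal.ofReal_le_ofReal
      have h6 : 1 ≤ (2 * C * r) ^ 2 := one_le_pow₀ hr1
      calc 16 * C * (1 + r) ^ 2 * (40 * C * (1 + r) ^ 2 * β)
          = 640 * C ^ 2 * (1 + r) ^ 4 * β * 1 := by ring
        _ ≤ 640 * C ^ 2 * (1 + r) ^ 4 * β * (2 * C * r) ^ 2 :=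
            mul_le_mul_of_nonneg_left h6 (by positivity)
        _ = 2560 * C ^ 4 * (r ^ 2 * (1 + r) ^ 4 * β) := by ring
    · have h5 : ∑' n : ℕ, cnt (fun γ => Cnd β r (n + 1) z γ ∧ γ 1 0 = 0) ^ 2 = 0 := by
        rw [ENNReal.tsum_eq_zero]
        intro n
        have h6 := hle n
        rw [cnt_zero (fun γ => γ.det = (n : ℤ) + 1 ∧ R γ) (fun γ h => hex ⟨γ, h.2⟩)] at h6
        rw [nonpos_iff_eq_zero.1 h6]
        simp
      rw [h5]
      exact zero_le
  calc ∫⁻ z in K, ∑' n : ℕ, cnt (fun γ => Cnd β r (n + 1) z γ ∧ γ 1 0 = 0) ^ 2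
      ≤ ∫⁻ _z in K, ENNReal.ofReal (2560 * C ^ 4 * (r ^ 2 * (1 + r) ^ 4 * β)) :=
        setLIntegral_mono' hK.measurableSet key
    _ = ENNReal.ofReal (2560 * C ^ 4 * (r ^ 2 * (1 + r) ^ 4 * β)) * volume K := by
        rw [setLIntegral_const]
    _ = ENNReal.ofReal (2560 * C ^ 4 * (volume K).toReal * r ^ 2 * (1 + r) ^ 4 * β) := by
        rw [← ENNReal.ofReal_toReal hvol, ← ENNReal.ofReal_mul (by positivity),
          ENNReal.toReal_ofReal ENNReal.toReal_nonneg]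
        congr 1
        ring

end Pool.Agent.A54.Av
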