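import Pool.Agent.Lib.MP_a54f13_nt.Av.SpecB

/-!
# Package `Av`, module `I1`: the count for small `c ≠ 0`
-/

set_option autoImplicit false

namespace Pool.Agent.A54.Av

open MeasureTheory Filter Topology Set
open scoped ContDiff ComplexConjugate UpperHalfPlane MatrixGroups ENNReal
open Pool.Agent.A54.Half (H0 qq ff hh)

noncomputable section

namespace I1M

theorem cnt_le {α : Type} (P : Mat → Prop) (ψ : Mat → α) (F : Finset α)
    (h1 : ∀ γ, P γ → ψ γ ∈ F) (h2 : ∀ γ γ', P γ → P γ' → ψ γ = ψ γ' → γ = γ') :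
    cnt P ≤ (F.card : ℝ≥0∞) := by
  classical
  have e1 : cnt P = ∑' γ : {γ // P γ}, (1 : ℝ≥0∞) := by
    have e2 : (∑' γ : {γ // P γ}, (1 : ℝ≥0∞)) =
        ∑' γ : Mat, ({γ | P γ} : Set Mat).indicator (fun _ : Mat => (1 : ℝ≥0∞)) γ :=
      tsum_subtype ({γ | P γ} : Set Mat) (fun _ : Mat => (1 : ℝ≥0∞))
    rw [e2]
    unfold cnt
    refine tsum_congr fun γ => ?_
    by_cases h : P γ
    · simp [Set.indicator, h]
    · simp [Set.indicator, h]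
  rw [e1]
  let f : {γ // P γ} → F := fun γ => ⟨ψ γ.1, h1 γ.1 γ.2⟩
  have hf : Function.Injective f := by
    intro x y hxy
    apply Subtype.ext
    exact h2 x.1 y.1 x.2 y.2 (congrArg Subtype.val hxy)
  have e3 := ENNReal.tsum_comp_le_tsum_of_injective hf (fun _ : F => (1 : ℝ≥0∞))
  refine e3.trans ?_
  rw [tsum_fintype]
  simp

/-- `(c, a - d, b, a + d)` -/
def ph (γ : Mat) : ℤ × ℤ × ℤ × ℤ := (γ 1 0, γ 0 0 - γ 1 1, γ 0 1, γ 0 0 + γ 1 1)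

theorem ph_inj : Function.Injective ph := by
  intro γ γ' h
  simp only [ph, Prod.mk.injEq] at h
  obtain ⟨h1, h2, h3, h4⟩ := h
  have h5 : γ 0 0 = γ' 0 0 := by omega
  have h6 : γ 1 1 = γ' 1 1 := by omega
  ext i j
  fin_cases i <;> fin_cases j
  · exact h5
  · exact h3
  · exact h1
  · exact h6

/-- `(c, a - d, b, 0 ≤ a + d)` -/
def ps (γ : Mat) : (ℤ × ℤ × ℤ) × Bool :=
  ((γ 1 0, γ 0 0 - γ 1 1, γ 0 1), decide (0 ≤ γ 0 0 + γ 1 1))

theorem ps_inj (γ γ' : Mat) (hd : γ.det = γ'.det) (h : ps γ = ps γ') : γ = γ' := by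
  simp only [ps, Prod.mk.injEq] at h
  obtain ⟨⟨h1, h2, h3⟩, h4⟩ := h
  rw [Matrix.det_fin_two, Matrix.det_fin_two] at hd
  have h5 : (γ 0 0 + γ 1 1) ^ 2 = (γ' 0 0 + γ' 1 1) ^ 2 := by
    have e1 : (γ 0 0 + γ 1 1) ^ 2 = 4 * (γ 0 0 * γ 1 1 - γ 0 1 * γ 1 0) + (γ 0 0 - γ 1 1) ^ 2 +
        4 * (γ 0 1 * γ 1 0) := by ring
    have e2 : (γ' 0 0 + γ' 1 1) ^ 2 = 4 * (γ' 0 0 * γ' 1 1 - γ' 0 1 * γ' 1 0) +
        (γ' 0 0 - γ' 1 1) ^ 2 + 4 * (γ' 0 1 * γ' 1 0) := by ring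
    rw [e1, e2, hd, h1, h2, h3]
  have h6 : γ 0 0 + γ 1 1 = γ' 0 0 + γ' 1 1 := by
    have h7 : (0 ≤ γ 0 0 + γ 1 1) ↔ (0 ≤ γ' 0 0 + γ' 1 1) := by simpa using h4
    rcases sq_eq_sq_iff_eq_or_eq_neg.1 h5 with h8 | h8
    · exact h8
    · by_cases h9 : 0 ≤ γ 0 0 + γ 1 1
      · have := h7.1 h9
        omega
      · have h10 : ¬ 0 ≤ γ' 0 0 + γ' 1 1 := fun h => h9 (h7.2 h)
        omega
  exact ph_inj (by simp only [ph, h1, h2, h3, h6])

/-- the set of points belonging to `(c, p, b)` -/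
def EE (K : Set ℂ) (C r : ℝ) (t : ℤ × ℤ × ℤ × ℤ) : Set ℂ :=
  {z : ℂ | z ∈ K ∧ |((t.2.1 : ℤ) : ℝ) - 2 * ((t.1 : ℤ) : ℝ) * z.re| ≤ 2 * r ∧
    |-((t.2.2.1 : ℤ) : ℝ) - ((t.1 : ℤ) : ℝ) * ‖z‖ ^ 2| ≤ C * r}

theorem EE_meas {K : Set ℂ} (hK : IsCompact K) (C r : ℝ) (t : ℤ × ℤ × ℤ × ℤ) :
    MeasurableSet (EE K C r t) := by
  have h1 : MeasurableSet {z : ℂ | |((t.2.1 : ℤ) : ℝ) - 2 * ((t.1 : ℤ) : ℝ) * z.re| ≤ 2 * r} :=
    (isClosed_le (by fun_prop) (by fun_prop)).measurableSet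
  have h2 : MeasurableSet {z : ℂ | |-((t.2.2.1 : ℤ) : ℝ) - ((t.1 : ℤ) : ℝ) * ‖z‖ ^ 2| ≤ C * r} :=
    (isClosed_le (by fun_prop) (by fun_prop)).measurableSet
  exact hK.measurableSet.inter (h1.inter h2)

/-- the property counted -/
def QQ (A β r : ℝ) (z : ℂ) (n : ℕ) (γ : Mat) : Prop :=
  Cnd β r (n + 1) z γ ∧ 1 ≤ |γ 1 0| ∧ ((|γ 1 0| : ℤ) : ℝ) ≤ A * (1 + r)

theorem mem_box {x : ℤ} {N : ℕ} {X : ℝ} (h : |((x : ℤ) : ℝ)| ≤ X) (hN : X < N + 1) :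
    x ∈ Finset.Icc (-(N : ℤ)) N := by
  have h1 : |((x : ℤ) : ℝ)| < N + 1 := lt_of_le_of_lt h hN
  have h2 : |x| < N + 1 := by exact_mod_cast h1
  rw [abs_lt] at h2
  rw [Finset.mem_Icc]
  omega

end I1M

open I1M in
theorem stmtI1 (hGe : StmtGe) (hAr : StmtAr) (hQF : StmtQF) : StmtI1 := by
  classical
  intro K hK hKH A hA
  obtain ⟨C1, hC1, hG⟩ := hGe K hK hKH
  obtain ⟨C2, hC2, hAr'⟩ := hAr K hK hKH C1 (by linarith)
  obtain ⟨m1, hm1, hm⟩ : ∃ m1 : ℝ, 1 ≤ m1 ∧ ∀ z ∈ K, ‖z‖ ≤ m1 := by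
    obtain ⟨m, hm⟩ := hK.isBounded.exists_norm_le
    exact ⟨max m 1, le_max_right _ _, fun z hz => (hm z hz).trans (le_max_left _ _)⟩
  set D : ℝ := 2 * A * m1 ^ 2 + 2 * C1 with hD
  have hm2 : m1 ≤ m1 ^ 2 := by nlinarith
  have hAm : 0 ≤ A * m1 ^ 2 := by positivity
  have hAm1 : A ≤ A * m1 ^ 2 := by nlinarith
  have hAm3 : A * m1 ≤ A * m1 ^ 2 := mul_le_mul_of_nonneg_left hm2 (by linarith)
  have hD1 : 1 ≤ D := by nlinarith
  refine ⟨7290 * D ^ 6 * C2, 6, by positivity, ?_⟩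
  intro β r hβ hr
  have hQ : (fun z : ℂ => ∑' n : ℕ, cnt (fun γ => Cnd β r (n + 1) z γ ∧ 1 ≤ |γ 1 0| ∧
      ((|γ 1 0| : ℤ) : ℝ) ≤ A * (1 + r)) ^ 2) = fun z => ∑' n : ℕ, cnt (QQ A β r z n) ^ 2 := rfl
  rw [hQ]
  -- facts about the matrices counted
  have hfact : ∀ z ∈ K, ∀ (n : ℕ) (γ : Mat), QQ A β r z n γ →
      1 ≤ β ∧ |((γ 1 0 : ℤ) : ℝ)| ≤ D * (1 + r) ∧ |((γ 0 0 - γ 1 1 : ℤ) : ℝ)| ≤ D * (1 + r) ∧
      |((γ 0 1 : ℤ) : ℝ)| ≤ D * (1 + r) ∧ |((γ 0 0 + γ 1 1 : ℤ) : ℝ)| ≤ 2 * β ∧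
      z ∈ EE K C1 r (ph γ) ∧ γ.det = (n : ℤ) + 1 ∧ 1 ≤ |((γ 1 0 : ℤ) : ℝ)| := by
    rintro z hz n γ ⟨⟨-, hdet, hV1, hV2⟩, hc1, hc2⟩
    obtain ⟨g1, g2, -, g4⟩ := hG z hz γ r hr.le hV2
    have hzH : z ∈ H0 := hKH hz
    have hV0 : 0 ≤ Vd γ z := (hQF γ z z hzH hzH).1
    have hcr : |((γ 1 0 : ℤ) : ℝ)| ≤ A * (1 + r) := by
      rw [← Int.cast_abs]; exact hc2
    have hc1r : 1 ≤ |((γ 1 0 : ℤ) : ℝ)| := by
      rw [← Int.cast_abs]; exact_mod_cast hc1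
    have hzr : |z.re| ≤ m1 := (Complex.abs_re_le_norm z).trans (hm z hz)
    have hzn : ‖z‖ ^ 2 ≤ m1 ^ 2 := by
      have := hm z hz
      have h0 := norm_nonneg z
      nlinarith
    have hdr : ((γ.det : ℤ) : ℝ) = (n : ℝ) + 1 := by
      rw [hdet]; push_cast; ring
    have hn0 : (0 : ℝ) ≤ n := Nat.cast_nonneg n
    have hβ2 : 1 ≤ β ^ 2 := by
      rw [hdr] at hV1; linarith
    have hβ1 : 1 ≤ β := by nlinarith
    have hr1 : 0 ≤ 1 + r := by linarith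
    refine ⟨hβ1, ?_, ?_, ?_, ?_, ⟨hz, g1, g2⟩, hdet, hc1r⟩
    · refine hcr.trans (mul_le_mul_of_nonneg_right ?_ hr1)
      linarith
    · have h1 : |((γ 0 0 - γ 1 1 : ℤ) : ℝ)| ≤ 2 * r + |2 * ((γ 1 0 : ℤ) : ℝ) * z.re| := by
        have := abs_add_le (((γ 0 0 - γ 1 1 : ℤ) : ℝ) - 2 * ((γ 1 0 : ℤ) : ℝ) * z.re)
          (2 * ((γ 1 0 : ℤ) : ℝ) * z.re)
        rw [sub_add_cancel] at this
        linarith
      have h2 : |2 * ((γ 1 0 : ℤ) : ℝ) * z.re| ≤ 2 * (A * (1 + r)) * m1 := by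
        rw [abs_mul, abs_mul, abs_two]
        gcongr
      have h3 : D * (1 + r) = 2 * (A * m1 ^ 2) * (1 + r) + 2 * C1 * (1 + r) := by rw [hD]; ring
      have h4 : A * m1 * (1 + r) ≤ A * m1 ^ 2 * (1 + r) := mul_le_mul_of_nonneg_right hAm3 hr1
      have h5 : r ≤ C1 * (1 + r) := by nlinarith
      nlinarith
    · have h1 : |((γ 0 1 : ℤ) : ℝ)| ≤ C1 * r + |((γ 1 0 : ℤ) : ℝ) * ‖z‖ ^ 2| := by
        have := abs_add_le (-((γ 0 1 : ℤ) : ℝ) - ((γ 1 0 : ℤ) : ℝ) * ‖z‖ ^ 2)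
          (((γ 1 0 : ℤ) : ℝ) * ‖z‖ ^ 2)
        rw [sub_add_cancel, abs_neg] at this
        linarith
      have h2 : |((γ 1 0 : ℤ) : ℝ) * ‖z‖ ^ 2| ≤ (A * (1 + r)) * m1 ^ 2 := by
        rw [abs_mul, abs_of_nonneg (by positivity : (0 : ℝ) ≤ ‖z‖ ^ 2)]
        gcongr
      have h3 : D * (1 + r) = 2 * (A * m1 ^ 2) * (1 + r) + 2 * C1 * (1 + r) := by rw [hD]; ring
      have h5 : 0 ≤ A * m1 ^ 2 * (1 + r) := mul_nonneg hAm hr1
      nlinarith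
    · have h1 : ((γ 0 0 + γ 1 1 : ℤ) : ℝ) ^ 2 ≤ (2 * β) ^ 2 := by nlinarith
      exact abs_le_of_sq_le_sq h1 (by linarith)
  by_cases hβ1 : 1 ≤ β
  swap
  · have h0 : ∀ z ∈ K, ∑' n : ℕ, cnt (QQ A β r z n) ^ 2 = 0 := by
      intro z hz
      rw [ENNReal.tsum_eq_zero]
      intro n
      have : cnt (QQ A β r z n) = 0 := by
        unfold cnt
        rw [ENNReal.tsum_eq_zero]
        intro γ
        rw [if_neg]
        intro h
        exact hβ1 (hfact z hz n γ h).1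
      rw [this]
      simp
    rw [setLIntegral_congr_fun hK.measurableSet h0]
    simp
  -- the boxes
  set N : ℕ := ⌊D * (1 + r)⌋₊ with hN
  set S : ℕ := ⌊2 * β⌋₊ with hS
  have hDr : 1 ≤ D * (1 + r) := by nlinarith
  have hN1 : D * (1 + r) < N + 1 := Nat.lt_floor_add_one _
  have hS1 : 2 * β < S + 1 := Nat.lt_floor_add_one _
  have hN2 : (N : ℝ) ≤ D * (1 + r) := Nat.floor_le (by linarith)
  have hS2 : (S : ℝ) ≤ 2 * β := Nat.floor_le (by linarith)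
  set I : Finset ℤ := Finset.Icc (-(N : ℤ)) N with hI
  set J : Finset ℤ := Finset.Icc (-(S : ℤ)) S with hJ
  have hIc : I.card = 2 * N + 1 := by
    rw [hI, Int.card_Icc]; omega
  have hJc : J.card = 2 * S + 1 := by
    rw [hJ, Int.card_Icc]; omega
  set F3 : Finset ((ℤ × ℤ × ℤ) × Bool) := (I ×ˢ I ×ˢ I) ×ˢ Finset.univ with hF3
  set F : Finset (ℤ × ℤ × ℤ × ℤ) := (I.filter fun c : ℤ => 1 ≤ |((c : ℤ) : ℝ)|) ×ˢ I ×ˢ I ×ˢ J
    with hF
  have hF3c : F3.card = 2 * (2 * N + 1) ^ 3 := by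
    rw [hF3, Finset.card_product, Finset.card_product, Finset.card_product, hIc, Finset.card_univ,
      Fintype.card_bool]
    ring
  have hFc : F.card ≤ (2 * N + 1) ^ 3 * (2 * S + 1) := by
    rw [hF, Finset.card_product, Finset.card_product, Finset.card_product, hIc, hJc]
    have := Finset.card_filter_le I fun c : ℤ => 1 ≤ |((c : ℤ) : ℝ)|
    rw [hIc] at this
    calc _ ≤ (2 * N + 1) * ((2 * N + 1) * ((2 * N + 1) * (2 * S + 1))) :=
          Nat.mul_le_mul_right _ this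
      _ = _ := by ring
  -- pointwise bound
  have hpt : ∀ z ∈ K, ∑' n : ℕ, cnt (QQ A β r z n) ^ 2 ≤
      (F3.card : ℝ≥0∞) * ∑ t ∈ F, (EE K C1 r t).indicator 1 z := by
    intro z hz
    have h1 : ∀ n : ℕ, cnt (QQ A β r z n) ≤ (F3.card : ℝ≥0∞) := by
      intro n
      refine cnt_le _ ps F3 ?_ ?_
      · intro γ hγ
        obtain ⟨-, f1, f2, f3, -, -, -, -⟩ := hfact z hz n γ hγ
        rw [hF3]
        simp only [ps, Finset.mem_product, Finset.mem_univ, and_true]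
        exact ⟨mem_box f1 hN1, mem_box f2 hN1, mem_box f3 hN1⟩
      · intro γ γ' hγ hγ' h
        refine ps_inj γ γ' ?_ h
        rw [(hfact z hz n γ hγ).2.2.2.2.2.2.1, (hfact z hz n γ' hγ').2.2.2.2.2.2.1]
    have h2 : ∑' n : ℕ, cnt (QQ A β r z n) ^ 2 ≤
        (F3.card : ℝ≥0∞) * ∑' n : ℕ, cnt (QQ A β r z n) := by
      rw [← ENNReal.tsum_mul_left]
      refine ENNReal.tsum_le_tsum fun n => ?_
      rw [pow_two]
      exact mul_le_mul_left (h1 n) _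
    refine h2.trans (mul_le_mul_right ?_ _)
    unfold cnt
    rw [ENNReal.tsum_comm]
    set g : ℤ × ℤ × ℤ × ℤ → ℝ≥0∞ := fun t => if t ∈ F then (EE K C1 r t).indicator 1 z else 0
      with hg
    have h3 : ∀ γ : Mat, (∑' n : ℕ, if QQ A β r z n γ then (1 : ℝ≥0∞) else 0) ≤ g (ph γ) := by
      intro γ
      by_cases hex : ∃ n : ℕ, QQ A β r z n γ
      · obtain ⟨n, hn⟩ := hex
        obtain ⟨-, f1, f2, f3, f4, f5, f6, f7⟩ := hfact z hz n γ hn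
        rw [tsum_eq_single n]
        · rw [if_pos hn, hg]
          simp only
          rw [if_pos, Set.indicator_of_mem f5]
          · rfl
          · rw [hF]
            simp only [ph, Finset.mem_product, Finset.mem_filter]
            exact ⟨⟨mem_box f1 hN1, f7⟩, mem_box f2 hN1, mem_box f3 hN1, mem_box f4 hS1⟩
        · intro n' hn'
          rw [if_neg]
          intro h
          have := (hfact z hz n' γ h).2.2.2.2.2.2.1
          rw [f6] at this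
          omega
      · push Not at hex
        have : (∑' n : ℕ, if QQ A β r z n γ then (1 : ℝ≥0∞) else 0) = 0 := by
          rw [ENNReal.tsum_eq_zero]
          intro n
          rw [if_neg (hex n)]
        rw [this]
        exact zero_le
    calc (∑' γ : Mat, ∑' n : ℕ, if QQ A β r z n γ then (1 : ℝ≥0∞) else 0)
        ≤ ∑' γ : Mat, g (ph γ) := ENNReal.tsum_le_tsum h3
      _ ≤ ∑' t, g t := ENNReal.tsum_comp_le_tsum_of_injective ph_inj g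
      _ = ∑ t ∈ F, g t := tsum_eq_sum fun t ht => by rw [hg]; simp only; rw [if_neg ht]
      _ = ∑ t ∈ F, (EE K C1 r t).indicator 1 z :=
          Finset.sum_congr rfl fun t ht => by rw [hg]; simp only; rw [if_pos ht]
  -- integrate
  calc ∫⁻ z in K, ∑' n : ℕ, cnt (QQ A β r z n) ^ 2
      ≤ ∫⁻ z in K, (F3.card : ℝ≥0∞) * ∑ t ∈ F, (EE K C1 r t).indicator 1 z :=
        setLIntegral_mono' hK.measurableSet hpt
    _ = (F3.card : ℝ≥0∞) * ∑ t ∈ F, ∫⁻ z in K, (EE K C1 r t).indicator 1 z := by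
        rw [lintegral_const_mul' _ _ (ENNReal.natCast_ne_top _), lintegral_finsetSum]
        intro t _
        exact measurable_one.indicator (EE_meas hK C1 r t)
    _ ≤ (F3.card : ℝ≥0∞) * ∑ _t ∈ F, ENNReal.ofReal (C2 * r ^ 2) := by
        refine mul_le_mul_right (Finset.sum_le_sum fun t ht => ?_) _
        rw [lintegral_indicator_one (EE_meas hK C1 r t)]
        refine (Measure.restrict_apply_le _ _).trans ?_
        have ht1 : 1 ≤ |((t.1 : ℤ) : ℝ)| := by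
          rw [hF] at ht
          exact (Finset.mem_filter.1 (Finset.mem_product.1 ht).1).2
        refine (hAr' (t.1 : ℝ) (t.2.1 : ℝ) (-(t.2.2.1 : ℝ)) r ht1 hr.le).trans ?_
        apply ENNReal.ofReal_le_ofReal
        have h5 : 1 ≤ ((t.1 : ℤ) : ℝ) ^ 2 := by
          rw [← sq_abs]; nlinarith
        rw [div_le_iff₀ (by linarith)]
        have h6 : 0 ≤ C2 * r ^ 2 := by positivity
        nlinarith
    _ = (F3.card : ℝ≥0∞) * ((F.card : ℝ≥0∞) * ENNReal.ofReal (C2 * r ^ 2)) := by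
        rw [Finset.sum_const, nsmul_eq_mul]
    _ = ENNReal.ofReal ((F3.card : ℝ) * ((F.card : ℝ) * (C2 * r ^ 2))) := by
        rw [ENNReal.ofReal_mul (p := (F3.card : ℝ)) (Nat.cast_nonneg _),
          ENNReal.ofReal_mul (p := (F.card : ℝ)) (Nat.cast_nonneg _),
          ENNReal.ofReal_natCast, ENNReal.ofReal_natCast]
    _ ≤ ENNReal.ofReal (7290 * D ^ 6 * C2 * r ^ 2 * (1 + r) ^ 6 * β) := by
        apply ENNReal.ofReal_le_ofReal
        have a1 : (2 * (N : ℝ) + 1) ≤ 3 * (D * (1 + r)) := by linarith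
        have a2 : (2 * (S : ℝ) + 1) ≤ 5 * β := by linarith
        have a3 : (2 * (N : ℝ) + 1) ^ 3 ≤ (3 * (D * (1 + r))) ^ 3 :=
          pow_le_pow_left₀ (by positivity) a1 3
        have a4 : (F3.card : ℝ) ≤ 2 * (3 * (D * (1 + r))) ^ 3 := by
          rw [hF3c]; push_cast; linarith
        have a5 : (F.card : ℝ) ≤ (3 * (D * (1 + r))) ^ 3 * (5 * β) := by
          have : (F.card : ℝ) ≤ (2 * (N : ℝ) + 1) ^ 3 * (2 * (S : ℝ) + 1) := by exact_mod_cast hFc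
          refine this.trans ?_
          gcongr
        have h6 : 0 ≤ C2 * r ^ 2 := by positivity
        have hp : 0 ≤ 2 * (3 * (D * (1 + r))) ^ 3 := by
          have : 0 ≤ D * (1 + r) := by linarith
          positivity
        calc (F3.card : ℝ) * ((F.card : ℝ) * (C2 * r ^ 2))
            ≤ (2 * (3 * (D * (1 + r))) ^ 3) * (((3 * (D * (1 + r))) ^ 3 * (5 * β)) *
              (C2 * r ^ 2)) := by gcongr
          _ = 7290 * D ^ 6 * C2 * r ^ 2 * (1 + r) ^ 6 * β := by ring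

end

end Pool.Agent.A54.Av
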