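import Pool.Agent.Lib.MP_a54f13_nt.Av.SpecB

/-!
# Module I2 of the package `Av`: a dyadic range of `c`
-/

set_option autoImplicit false

namespace Pool.Agent.A54.Av.I2M

open MeasureTheory Filter Topology Set
open scoped ContDiff ComplexConjugate UpperHalfPlane MatrixGroups ENNReal
open Pool.Agent.A54.Half (H0 qq ff hh)

noncomputable section

/-- indicator of a proposition -/
def ind (P : Prop) : ℝ≥0∞ := open Classical in if P then 1 else 0

theorem cnt_eq (P : Mat → Prop) : cnt P = ∑' γ, ind (P γ) := rfl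

theorem ind_true {P : Prop} (h : P) : ind P = 1 := by unfold ind; simp [h]

theorem ind_false {P : Prop} (h : ¬P) : ind P = 0 := by unfold ind; simp [h]

theorem ind_mul (P Q : Prop) : ind P * ind Q = ind (P ∧ Q) := by
  by_cases hP : P
  · by_cases hQ : Q
    · rw [ind_true hP, ind_true hQ, ind_true ⟨hP, hQ⟩, one_mul]
    · rw [ind_false hQ, ind_false (P := P ∧ Q) (fun h => hQ h.2), mul_zero]
  · rw [ind_false hP, ind_false (P := P ∧ Q) (fun h => hP h.1), zero_mul]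

theorem countable_Mat : Countable Mat := inferInstanceAs (Countable (Fin 2 → Fin 2 → ℤ))

/-- the involution `(a, b; c, d) ↦ (-d, b; c, -a)` -/
def sg : Mat ≃ Mat where
  toFun γ := !![-γ 1 1, γ 0 1; γ 1 0, -γ 0 0]
  invFun γ := !![-γ 1 1, γ 0 1; γ 1 0, -γ 0 0]
  left_inv γ := by
    ext i j
    fin_cases i <;> fin_cases j <;> simp
  right_inv γ := by
    ext i j
    fin_cases i <;> fin_cases j <;> simp

theorem sg00 (γ : Mat) : sg γ 0 0 = -γ 1 1 := rfl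
theorem sg01 (γ : Mat) : sg γ 0 1 = γ 0 1 := rfl
theorem sg10 (γ : Mat) : sg γ 1 0 = γ 1 0 := rfl
theorem sg11 (γ : Mat) : sg γ 1 1 = -γ 0 0 := rfl

theorem Vd_sg (γ : Mat) (z : ℂ) : Vd (sg γ) z = Vd γ z := by
  unfold Vd VV
  rw [sg00, sg01, sg10, sg11]
  congr 3
  push_cast
  ring

theorem Vd_neg (γ : Mat) (z : ℂ) : Vd (-γ) z = Vd γ z := by
  unfold Vd VV
  simp only [Matrix.neg_apply]
  congr 2
  rw [← norm_neg]
  congr 1
  push_cast
  ring

theorem det_sg (γ : Mat) : (sg γ).det = γ.det := by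
  rw [Matrix.det_fin_two, Matrix.det_fin_two, sg00, sg01, sg10, sg11]
  ring

theorem det_neg' (γ : Mat) : (-γ).det = γ.det := by
  rw [Matrix.det_fin_two, Matrix.det_fin_two]
  simp only [Matrix.neg_apply]
  ring

theorem Cnd_sg (β r : ℝ) (n : ℤ) (z : ℂ) (γ : Mat) (h : Cnd β r n z γ) : Cnd β r n z (sg γ) := by
  obtain ⟨h1, h2, h3, h4⟩ := h
  refine ⟨?_, ?_, ?_, ?_⟩
  · intro hh
    apply h1
    rw [sg00, sg01, sg10, sg11] at hh
    exact ⟨hh.1, hh.2.1, by linarith [hh.2.2]⟩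
  · rw [det_sg]; exact h2
  · rw [det_sg, Vd_sg]; exact h3
  · rw [Vd_sg]; exact h4

theorem Cnd_neg (β r : ℝ) (n : ℤ) (z : ℂ) (γ : Mat) (h : Cnd β r n z γ) : Cnd β r n z (-γ) := by
  obtain ⟨h1, h2, h3, h4⟩ := h
  refine ⟨?_, ?_, ?_, ?_⟩
  · intro hh
    apply h1
    simp only [Matrix.neg_apply] at hh
    exact ⟨by linarith [hh.1], by linarith [hh.2.1], by linarith [hh.2.2]⟩
  · rw [det_neg']; exact h2
  · rw [det_neg', Vd_neg]; exact h3
  · rw [Vd_neg]; exact h4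

/-- the condition with `c > 0` and nonnegative trace -/
def Pp (β r : ℝ) (H : ℕ) (n : ℕ) (z : ℂ) (γ : Mat) : Prop :=
  Cnd β r (n + 1) z γ ∧ (H : ℤ) ≤ γ 1 0 ∧ γ 1 0 < 2 * H ∧ 0 ≤ γ 0 0 + γ 1 1

theorem cnt_le (β r : ℝ) (H : ℕ) (n : ℕ) (z : ℂ) :
    cnt (fun γ => Cnd β r (n + 1) z γ ∧ (H : ℤ) ≤ |γ 1 0| ∧ |γ 1 0| < 2 * H) ≤
      4 * ∑' γ, ind (Pp β r H n z γ) := by
  rw [cnt_eq]
  have key : ∀ γ : Mat, ind (Cnd β r (n + 1) z γ ∧ (H : ℤ) ≤ |γ 1 0| ∧ |γ 1 0| < 2 * H) ≤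
      ind (Pp β r H n z γ) + ind (Pp β r H n z (-γ)) +
        (ind (Pp β r H n z (sg γ)) + ind (Pp β r H n z (-(sg γ)))) := by
    intro γ
    by_cases h : Cnd β r (n + 1) z γ ∧ (H : ℤ) ≤ |γ 1 0| ∧ |γ 1 0| < 2 * H
    · rw [ind_true h]
      obtain ⟨h1, h2, h3⟩ := h
      rcases le_total 0 (γ 1 0) with hc | hc
      · rw [abs_of_nonneg hc] at h2 h3
        rcases le_total 0 (γ 0 0 + γ 1 1) with ht | ht
        · have : Pp β r H n z γ := ⟨h1, h2, h3, ht⟩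
          rw [ind_true this, add_assoc]
          exact le_self_add
        · have : Pp β r H n z (sg γ) := ⟨Cnd_sg _ _ _ _ _ h1, by rw [sg10]; exact h2,
            by rw [sg10]; exact h3, by rw [sg00, sg11]; linarith⟩
          rw [ind_true this]
          exact le_trans le_self_add le_add_self
      · rw [abs_of_nonpos hc] at h2 h3
        rcases le_total 0 (γ 0 0 + γ 1 1) with ht | ht
        · have : Pp β r H n z (-(sg γ)) := ⟨Cnd_neg _ _ _ _ _ (Cnd_sg _ _ _ _ _ h1),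
            by rw [Matrix.neg_apply, sg10]; exact h2,
            by rw [Matrix.neg_apply, sg10]; exact h3,
            by rw [Matrix.neg_apply, Matrix.neg_apply, sg00, sg11]; linarith⟩
          rw [ind_true this]
          exact le_trans le_add_self le_add_self
        · have : Pp β r H n z (-γ) := ⟨Cnd_neg _ _ _ _ _ h1,
            by rw [Matrix.neg_apply]; exact h2,
            by rw [Matrix.neg_apply]; exact h3,
            by rw [Matrix.neg_apply, Matrix.neg_apply]; linarith⟩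
          rw [ind_true this]
          exact le_trans le_add_self le_self_add
    · rw [ind_false h]
      exact zero_le
  refine le_trans (ENNReal.tsum_le_tsum key) ?_
  rw [ENNReal.tsum_add, ENNReal.tsum_add, ENNReal.tsum_add]
  have e1 : ∑' γ : Mat, ind (Pp β r H n z (-γ)) = ∑' γ, ind (Pp β r H n z γ) :=
    (Equiv.neg Mat).tsum_eq (fun γ => ind (Pp β r H n z γ))
  have e2 : ∑' γ : Mat, ind (Pp β r H n z (sg γ)) = ∑' γ, ind (Pp β r H n z γ) :=
    sg.tsum_eq (fun γ => ind (Pp β r H n z γ))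
  have e3 : ∑' γ : Mat, ind (Pp β r H n z (-(sg γ))) = ∑' γ, ind (Pp β r H n z γ) := by
    rw [← e1]
    exact sg.tsum_eq (fun γ => ind (Pp β r H n z (-γ)))
  rw [e1, e2, e3]
  apply le_of_eq
  ring

theorem meas_Vd (γ : Mat) : Measurable (fun z : ℂ => Vd γ z) := by
  have h1 : Measurable fun z : ℂ => ‖((γ 0 0 : ℤ) : ℂ) * z + ((γ 0 1 : ℤ) : ℂ) -
    z * (((γ 1 0 : ℤ) : ℂ) * z + ((γ 1 1 : ℤ) : ℂ))‖ := by fun_prop
  have h2 : Measurable fun z : ℂ => 4 * z.im * z.im :=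
    (measurable_const.mul Complex.measurable_im).mul Complex.measurable_im
  exact (h1.pow_const 2).div h2

theorem meas_Pp (β r : ℝ) (H : ℕ) (n : ℕ) (γ : Mat) : MeasurableSet {z : ℂ | Pp β r H n z γ} := by
  unfold Pp Cnd
  have h1 := meas_Vd γ
  refine MeasurableSet.inter ?_ (MeasurableSet.const _)
  refine MeasurableSet.inter (MeasurableSet.const _) ?_
  refine MeasurableSet.inter (MeasurableSet.const _) ?_
  refine MeasurableSet.inter ?_ ?_
  · exact measurableSet_le (measurable_const.add h1) measurable_const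
  · exact measurableSet_le h1 measurable_const

theorem sq_tsum (f : Mat → ℝ≥0∞) : (∑' γ, f γ) ^ 2 = ∑' x : Mat × Mat, f x.1 * f x.2 := by
  rw [ENNReal.tsum_prod', sq, ← ENNReal.tsum_mul_right]
  exact tsum_congr fun γ => ENNReal.tsum_mul_left.symm

/-- the eight integers of a pair of matrices -/
def toO (x : Mat × Mat) : O8 :=
  ⟨x.1 1 0, x.2 1 0, x.1 1 1, x.2 1 1, x.1 0 0 - x.1 1 1, x.2 0 0 - x.2 1 1, -x.1 0 1, -x.2 0 1⟩

theorem toO_inj (x y : Mat × Mat) (h : toO x = toO y) : x = y := by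
  unfold toO at h
  simp only [O8.mk.injEq] at h
  obtain ⟨h1, h2, h3, h4, h5, h6, h7, h8⟩ := h
  refine Prod.ext ?_ ?_
  · ext i j
    fin_cases i <;> fin_cases j <;> simp <;> linarith
  · ext i j
    fin_cases i <;> fin_cases j <;> simp <;> linarith

/-- the pair occurs at some point -/
def Good (K : Set ℂ) (β r : ℝ) (H : ℕ) (x : ℕ × (Mat × Mat)) : Prop :=
  ∃ z ∈ K, Pp β r H x.1 z x.2.1 ∧ Pp β r H x.1 z x.2.2

theorem main_bound (K : Set ℂ) (hK : MeasurableSet K) (β r : ℝ) (H : ℕ) (N v : ℝ)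
    (hcard : ∀ s : Finset (ℕ × (Mat × Mat)), (∀ x ∈ s, Good K β r H x) → (s.card : ℝ) ≤ N)
    (hvol : ∀ x, Good K β r H x → volume {z : ℂ | z ∈ K ∧ Pp β r H x.1 z x.2.1} ≤
      ENNReal.ofReal v) :
    ∫⁻ z in K, ∑' n : ℕ, cnt (fun γ => Cnd β r (n + 1) z γ ∧ (H : ℤ) ≤ |γ 1 0| ∧
      |γ 1 0| < 2 * H) ^ 2 ≤ 16 * (ENNReal.ofReal N * ENNReal.ofReal v) := by
  have h1 : ∀ z : ℂ, ∑' n : ℕ, cnt (fun γ => Cnd β r (n + 1) z γ ∧ (H : ℤ) ≤ |γ 1 0| ∧
      |γ 1 0| < 2 * H) ^ 2 ≤ 16 * ∑' x : ℕ × (Mat × Mat),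
        ind (Pp β r H x.1 z x.2.1 ∧ Pp β r H x.1 z x.2.2) := by
    intro z
    rw [ENNReal.tsum_prod' (f := fun x : ℕ × (Mat × Mat) =>
      ind (Pp β r H x.1 z x.2.1 ∧ Pp β r H x.1 z x.2.2)), ← ENNReal.tsum_mul_left]
    refine ENNReal.tsum_le_tsum fun n => ?_
    have h2 := cnt_le β r H n z
    have h3 : cnt (fun γ => Cnd β r (n + 1) z γ ∧ (H : ℤ) ≤ |γ 1 0| ∧ |γ 1 0| < 2 * H) ^ 2 ≤
        (4 * ∑' γ, ind (Pp β r H n z γ)) ^ 2 := by gcongr
    refine le_trans h3 ?_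
    rw [mul_pow, sq_tsum]
    have h4 : (4 : ℝ≥0∞) ^ 2 = 16 := by norm_num
    rw [h4]
    gcongr with x
    rw [ind_mul]
  refine le_trans (lintegral_mono fun z => h1 z) ?_
  have := countable_Mat
  have hmeas : ∀ x : ℕ × (Mat × Mat), MeasurableSet {z : ℂ | Pp β r H x.1 z x.2.1 ∧
      Pp β r H x.1 z x.2.2} := fun x => (meas_Pp β r H x.1 x.2.1).inter (meas_Pp β r H x.1 x.2.2)
  have hmf : ∀ x : ℕ × (Mat × Mat), Measurable fun z : ℂ =>
      ind (Pp β r H x.1 z x.2.1 ∧ Pp β r H x.1 z x.2.2) := by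
    intro x
    have : (fun z : ℂ => ind (Pp β r H x.1 z x.2.1 ∧ Pp β r H x.1 z x.2.2)) =
        ({z : ℂ | Pp β r H x.1 z x.2.1 ∧ Pp β r H x.1 z x.2.2}).indicator (fun _ => 1) := by
      funext z
      by_cases h : Pp β r H x.1 z x.2.1 ∧ Pp β r H x.1 z x.2.2
      · rw [ind_true h, Set.indicator_of_mem (by exact h)]
      · rw [ind_false h, Set.indicator_of_notMem (by exact h)]
    rw [this]
    exact measurable_const.indicator (hmeas x)
  rw [lintegral_const_mul]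
  swap
  · exact Measurable.tsum hmf
  gcongr
  rw [lintegral_tsum (fun x => (hmf x).aemeasurable)]
  rw [ENNReal.tsum_eq_iSup_sum]
  refine iSup_le fun s => ?_
  classical
  have hz : ∀ x : ℕ × (Mat × Mat), ¬Good K β r H x →
      ∫⁻ z in K, ind (Pp β r H x.1 z x.2.1 ∧ Pp β r H x.1 z x.2.2) = 0 := by
    intro x hx
    rw [setLIntegral_congr_fun (g := fun _ => 0) hK]
    · simp
    · intro z hz
      exact ind_false fun h => hx ⟨z, hz, h⟩
  have hv : ∀ x : ℕ × (Mat × Mat), Good K β r H x →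
      ∫⁻ z in K, ind (Pp β r H x.1 z x.2.1 ∧ Pp β r H x.1 z x.2.2) ≤ ENNReal.ofReal v := by
    intro x hx
    refine le_trans ?_ (hvol x hx)
    have e : {z : ℂ | z ∈ K ∧ Pp β r H x.1 z x.2.1} = K ∩ {z : ℂ | Pp β r H x.1 z x.2.1} := rfl
    rw [e, Set.inter_comm, ← Measure.restrict_apply (meas_Pp β r H x.1 x.2.1),
      ← lintegral_indicator_one (meas_Pp β r H x.1 x.2.1)]
    refine lintegral_mono fun z => ?_
    by_cases h : Pp β r H x.1 z x.2.1 ∧ Pp β r H x.1 z x.2.2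
    · rw [ind_true h, Set.indicator_of_mem (by exact h.1)]
      simp
    · rw [ind_false h]
      exact zero_le
  rw [← Finset.sum_filter_add_sum_filter_not s (fun x => Good K β r H x)]
  have e0 : ∑ x ∈ s.filter (fun x => ¬Good K β r H x),
      ∫⁻ z in K, ind (Pp β r H x.1 z x.2.1 ∧ Pp β r H x.1 z x.2.2) = 0 :=
    Finset.sum_eq_zero fun x hx => hz x (Finset.mem_filter.mp hx).2
  rw [e0, add_zero]
  refine le_trans (Finset.sum_le_sum fun x hx => hv x (Finset.mem_filter.mp hx).2) ?_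
  rw [Finset.sum_const, nsmul_eq_mul]
  gcongr
  rw [← ENNReal.ofReal_natCast]
  exact ENNReal.ofReal_le_ofReal (hcard _ fun x hx => (Finset.mem_filter.mp hx).2)

theorem sqrt_bound (D h b : ℝ) (hD : 1 ≤ D) :
    √(h * (D * b)) ≤ D * √(h * b) := by
  have e : h * (D * b) = D * (h * b) := by ring
  rw [e, Real.sqrt_mul (by linarith)]
  have h1 : √D ≤ D := by
    rw [Real.sqrt_le_left (by linarith)]
    nlinarith
  exact mul_le_mul_of_nonneg_right h1 (Real.sqrt_nonneg _)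

end

end Pool.Agent.A54.Av.I2M

namespace Pool.Agent.A54.Av

open MeasureTheory Filter Topology Set
open scoped ContDiff ComplexConjugate UpperHalfPlane MatrixGroups ENNReal
open Pool.Agent.A54.Half (H0 qq ff hh)
open I2M

theorem stmtI2 (hPC : StmtPC) (hI2a : StmtI2a) (hGe : StmtGe) (hAr : StmtAr) (hQF : StmtQF) :
    StmtI2 := by
  intro K hK hKH
  obtain ⟨C0, M0, hC0, hPC⟩ := hPC
  obtain ⟨A1, hA1, hI2a⟩ := hI2a K hK hKH
  obtain ⟨C1, hC1, hGe⟩ := hGe K hK hKH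
  obtain ⟨C2, hC2, hAr⟩ := hAr K hK hKH C1 (by linarith)
  refine ⟨A1, 16 * C0 * (2 * A1) ^ M0 * (3 + 2 * C1) ^ 2 * C2, M0, hA1, by positivity, ?_⟩
  intro β r H hβ hr hH
  have hH1 : (1 : ℝ) ≤ H := by
    have : 0 ≤ A1 * r := by positivity
    nlinarith
  have hH1' : 1 ≤ H := by exact_mod_cast hH1
  set B : ℕ := ⌈2 * β⌉₊ with hB
  set ρ : ℕ := ⌈A1 * (1 + r)⌉₊ with hρ
  have hB1 : 2 * β ≤ B := Nat.le_ceil _
  have hρ1 : A1 * (1 + r) ≤ ρ := Nat.le_ceil _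
  have hρ2 : (ρ : ℝ) ≤ 2 * A1 * (1 + r) := by
    have h1 : (ρ : ℝ) < A1 * (1 + r) + 1 := Nat.ceil_lt_add_one (by positivity)
    nlinarith
  have hρ3 : 1 ≤ ρ := by
    have : (1 : ℝ) ≤ ρ := by nlinarith [mul_nonneg (by linarith : (0:ℝ) ≤ A1) hr.le]
    exact_mod_cast this
  have hcard : ∀ s : Finset (ℕ × (Mat × Mat)), (∀ x ∈ s, Good K β r H x) → (s.card : ℝ) ≤
      C0 * (ρ : ℝ) ^ M0 * ((H : ℝ) ^ 2 * (B + H) * √((H : ℝ) * (B + H))) := by
    intro s hs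
    classical
    have hinj : Set.InjOn (fun x : ℕ × (Mat × Mat) => toO x.2) s := by
      intro x hx y hy hxy
      have h2 := toO_inj _ _ hxy
      obtain ⟨z, _, hz1, _⟩ := hs x hx
      obtain ⟨w, _, hw1, _⟩ := hs y hy
      have h3 := hz1.1.2.1
      have h4 := hw1.1.2.1
      rw [h2, h4] at h3
      refine Prod.ext ?_ h2
      have : (y.1 : ℤ) = x.1 := by linarith
      exact_mod_cast this.symm
    rw [← Finset.card_image_of_injOn hinj]
    refine hPC H B ρ hH1' hρ3 _ ?_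
    intro o ho
    rw [Finset.mem_image] at ho
    obtain ⟨x, hx, rfl⟩ := ho
    obtain ⟨z, hzK, hz1, hz2⟩ := hs x hx
    exact hI2a β r H B ρ z (x.1 + 1) x.2.1 x.2.2 hβ hr hH hρ1 hB1 hzK hz1.1 hz2.1 hz1.2.1
      hz1.2.2.1 hz2.2.1 hz2.2.2.1 hz1.2.2.2 hz2.2.2.2
  have hvol : ∀ x, Good K β r H x → volume {z : ℂ | z ∈ K ∧ Pp β r H x.1 z x.2.1} ≤
      ENNReal.ofReal (C2 * r ^ 2 / (H : ℝ) ^ 2) := by
    intro x hx
    obtain ⟨w, hwK, hw1, _⟩ := hx
    have hc : (H : ℝ) ≤ ((x.2.1 1 0 : ℤ) : ℝ) := by exact_mod_cast hw1.2.1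
    have hsub : {z : ℂ | z ∈ K ∧ Pp β r H x.1 z x.2.1} ⊆
        {z : ℂ | z ∈ K ∧ |((x.2.1 0 0 - x.2.1 1 1 : ℤ) : ℝ) -
          2 * ((x.2.1 1 0 : ℤ) : ℝ) * z.re| ≤ 2 * r ∧
          |-((x.2.1 0 1 : ℤ) : ℝ) - ((x.2.1 1 0 : ℤ) : ℝ) * ‖z‖ ^ 2| ≤ C1 * r} := by
      rintro z ⟨hzK, hz⟩
      have h := hGe z hzK x.2.1 r hr.le hz.1.2.2.2
      exact ⟨hzK, h.1, h.2.1⟩
    refine le_trans (measure_mono hsub) (le_trans (hAr _ _ _ r ?_ hr.le) ?_)
    · rw [abs_of_nonneg (by linarith)]; linarith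
    · apply ENNReal.ofReal_le_ofReal
      gcongr
  by_cases hg : ∃ x, Good K β r H x
  · obtain ⟨x, z, hzK, hz1, _⟩ := hg
    have hV := (hQF x.2.1 z z (hKH hzK) (hKH hzK)).1
    have hdet : (((x.2.1).det : ℤ) : ℝ) = (x.1 : ℝ) + 1 := by
      have := hz1.1.2.1
      rw [this]; push_cast; ring
    have h3 := hz1.1.2.2.1
    rw [hdet] at h3
    have hV' : 0 ≤ Vd x.2.1 z := hV
    have hx0 : (0 : ℝ) ≤ (x.1 : ℝ) := Nat.cast_nonneg _
    have hβ1 : 1 ≤ β := by nlinarith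
    have hms := (hGe z hzK x.2.1 r hr.le hz1.1.2.2.2).2.2.1
    rw [hdet] at hms
    have hc : (H : ℝ) ≤ ((x.2.1 1 0 : ℤ) : ℝ) := by exact_mod_cast hz1.2.1
    have hHs : (H : ℝ) ^ 2 ≤ 2 * C1 * β ^ 2 := by
      have h5 : (H : ℝ) ^ 2 ≤ msq x.2.1 := by
        unfold msq
        nlinarith [sq_nonneg ((x.2.1 0 0 : ℤ) : ℝ), sq_nonneg ((x.2.1 0 1 : ℤ) : ℝ),
          sq_nonneg ((x.2.1 1 1 : ℤ) : ℝ)]
      have h6 : C1 * ((x.1 : ℝ) + 1 + 2 * Vd x.2.1 z) ≤ C1 * (2 * β ^ 2) := by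
        apply mul_le_mul_of_nonneg_left _ (by linarith)
        linarith
      linarith
    have hHb : (H : ℝ) ≤ 2 * C1 * β := by
      refine abs_le_of_sq_le_sq' ?_ (by positivity) |>.2
      nlinarith [mul_nonneg (by linarith : (0:ℝ) ≤ C1 - 1) (sq_nonneg β), sq_nonneg β]
    have hB2 : (B : ℝ) ≤ 3 * β := by
      have h1 : (B : ℝ) < 2 * β + 1 := Nat.ceil_lt_add_one (by positivity)
      linarith
    have hBH : (B : ℝ) + H ≤ (3 + 2 * C1) * β := by nlinarith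
    refine le_trans (main_bound K hK.measurableSet β r H _ _ hcard hvol) ?_
    have e16 : (16 : ℝ≥0∞) = ENNReal.ofReal 16 := by
      rw [ENNReal.ofReal_ofNat]
    rw [e16, ← ENNReal.ofReal_mul (by positivity), ← ENNReal.ofReal_mul (by norm_num)]
    apply ENNReal.ofReal_le_ofReal
    have hs : √((H : ℝ) * (B + H)) ≤ (3 + 2 * C1) * √((H : ℝ) * β) := by
      refine le_trans (Real.sqrt_le_sqrt ?_) (sqrt_bound (3 + 2 * C1) H β (by linarith))
      exact mul_le_mul_of_nonneg_left hBH (by positivity)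
    have hp : (ρ : ℝ) ^ M0 ≤ (2 * A1) ^ M0 * (1 + r) ^ M0 := by
      rw [← mul_pow]
      gcongr
    have hfin : C0 * (ρ : ℝ) ^ M0 * ((H : ℝ) ^ 2 * (B + H) * √((H : ℝ) * (B + H))) ≤
        C0 * ((2 * A1) ^ M0 * (1 + r) ^ M0) * ((H : ℝ) ^ 2 * ((3 + 2 * C1) * β) *
          ((3 + 2 * C1) * √((H : ℝ) * β))) := by
      gcongr
    have hv0 : 0 ≤ C2 * r ^ 2 / (H : ℝ) ^ 2 := by positivity
    calc 16 * (C0 * (ρ : ℝ) ^ M0 * ((H : ℝ) ^ 2 * (B + H) * √((H : ℝ) * (B + H))) *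
          (C2 * r ^ 2 / (H : ℝ) ^ 2))
        ≤ 16 * (C0 * ((2 * A1) ^ M0 * (1 + r) ^ M0) * ((H : ℝ) ^ 2 * ((3 + 2 * C1) * β) *
          ((3 + 2 * C1) * √((H : ℝ) * β))) * (C2 * r ^ 2 / (H : ℝ) ^ 2)) := by
          gcongr
      _ = 16 * C0 * (2 * A1) ^ M0 * (3 + 2 * C1) ^ 2 * C2 * r ^ 2 * (1 + r) ^ M0 *
          (β * √((H : ℝ) * β)) := by
          have : (H : ℝ) ≠ 0 := by linarith
          field_simp
  · refine le_trans (main_bound K hK.measurableSet β r H 0 0 ?_ ?_) ?_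
    · intro s hs
      rcases s.eq_empty_or_nonempty with h | ⟨x, hx⟩
      · simp [h]
      · exact absurd ⟨x, hs x hx⟩ hg
    · intro x hx
      exact absurd ⟨x, hx⟩ hg
    · simp

end Pool.Agent.A54.Av
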