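import Pool.Agent.Lib.MP_a54f13_nt.Av.SpecB

/-!
# Package `Av`, module `I2a`: from matrices to the conditions `Pc`
-/

set_option autoImplicit false

namespace Pool.Agent.A54.Av

open MeasureTheory Set Filter Topology
open Pool.Agent.A54.Half (H0 qq ff hh)

namespace I2aM

private lemma single (C R y0 A r H ρ c p q x y : ℝ) (hC : 1 ≤ C) (hR : 1 ≤ R) (hy0 : 0 < y0)
    (hr : 0 < r) (hx : |x| ≤ R) (hxy : x ^ 2 + y ^ 2 ≤ R ^ 2) (hy : y0 ≤ y) (hA1 : 4 * R + 2 ≤ A)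
    (hA2 : 2 * R ^ 2 + C ≤ A) (hA3 : 8 * C + 16 * R + 4 ≤ 2 * y0 ^ 2 * A)
    (hA4 : 1 ≤ 2 * y0 ^ 2 * A) (hH : A * (1 + r) ≤ H) (hρ : A * (1 + r) ≤ ρ) (hc1 : H ≤ c)
    (hc2 : c ≤ 2 * H) (hp : |p - 2 * c * x| ≤ 2 * r) (hq : |q - c * (x ^ 2 + y ^ 2)| ≤ C * r) :
    |p| ≤ ρ * H ∧ |q| ≤ ρ * H ∧ H ^ 2 ≤ ρ * (4 * q * c - p ^ 2) := by
  have hA : 6 ≤ A := by linarith
  have hH1 : 1 ≤ H := by nlinarith
  have hAr : A * r ≤ H := by nlinarith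
  have hAρ : A ≤ ρ := by nlinarith
  have hc0 : 0 < c := by linarith
  have hρH : A * (1 + r) * H ≤ ρ * H := mul_le_mul_of_nonneg_right hρ (by linarith)
  have hρH2 : A * H + A * r ≤ ρ * H := by
    have : A * r * 1 ≤ A * r * H := mul_le_mul_of_nonneg_left hH1 (by positivity)
    nlinarith
  have hcx : |2 * c * x| ≤ 4 * H * R := by
    rw [abs_mul, abs_of_pos (by positivity : 0 < 2 * c)]
    have : 2 * c * |x| ≤ 2 * c * R := mul_le_mul_of_nonneg_left hx (by positivity)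
    nlinarith
  refine ⟨?_, ?_, ?_⟩
  · have h1 : |p| ≤ |p - 2 * c * x| + |2 * c * x| := by
      have := abs_add_le (p - 2 * c * x) (2 * c * x)
      rwa [sub_add_cancel] at this
    have h2 : (4 * R) * H ≤ A * H := mul_le_mul_of_nonneg_right (by linarith) (by linarith)
    have h3 : 2 * r ≤ A * r := mul_le_mul_of_nonneg_right (by linarith) hr.le
    linarith
  · have h1 : |q| ≤ |q - c * (x ^ 2 + y ^ 2)| + |c * (x ^ 2 + y ^ 2)| := by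
      have := abs_add_le (q - c * (x ^ 2 + y ^ 2)) (c * (x ^ 2 + y ^ 2))
      rwa [sub_add_cancel] at this
    have h2 : |c * (x ^ 2 + y ^ 2)| ≤ 2 * H * R ^ 2 := by
      rw [abs_of_nonneg (by positivity)]
      calc c * (x ^ 2 + y ^ 2) ≤ c * R ^ 2 := mul_le_mul_of_nonneg_left hxy hc0.le
        _ ≤ 2 * H * R ^ 2 := mul_le_mul_of_nonneg_right hc2 (by positivity)
    have h3 : (2 * R ^ 2) * H ≤ A * H := mul_le_mul_of_nonneg_right (by linarith) (by linarith)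
    have h4 : C * r ≤ A * r := mul_le_mul_of_nonneg_right (by nlinarith) hr.le
    linarith
  · obtain ⟨e1, he1⟩ : ∃ e, e = p - 2 * c * x := ⟨_, rfl⟩
    obtain ⟨e2, he2⟩ : ∃ e, e = q - c * (x ^ 2 + y ^ 2) := ⟨_, rfl⟩
    rw [← he1] at hp
    rw [← he2] at hq
    have hp' : p = 2 * c * x + e1 := by rw [he1]; ring
    have hq' : q = c * (x ^ 2 + y ^ 2) + e2 := by rw [he2]; ring
    have hid : 4 * q * c - p ^ 2 = 4 * c ^ 2 * y ^ 2 + 4 * c * e2 - 4 * c * (x * e1) - e1 ^ 2 := by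
      rw [hp', hq']
      ring
    have k1 : 4 * H ^ 2 * y0 ^ 2 ≤ 4 * c ^ 2 * y ^ 2 := by
      have a1 : H ^ 2 ≤ c ^ 2 := pow_le_pow_left₀ (by linarith) hc1 2
      have a2 : y0 ^ 2 ≤ y ^ 2 := pow_le_pow_left₀ hy0.le hy 2
      have a3 : H ^ 2 * y0 ^ 2 ≤ c ^ 2 * y ^ 2 := mul_le_mul a1 a2 (by positivity) (by positivity)
      linarith
    have k2 : |4 * c * e2| ≤ 8 * H * (C * r) := by
      rw [abs_mul, abs_of_pos (by positivity : 0 < 4 * c)]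
      calc 4 * c * |e2| ≤ 4 * c * (C * r) := mul_le_mul_of_nonneg_left hq (by positivity)
        _ ≤ 8 * H * (C * r) := mul_le_mul_of_nonneg_right (by linarith) (by positivity)
    have k3 : |4 * c * (x * e1)| ≤ 8 * H * (R * (2 * r)) := by
      rw [abs_mul, abs_of_pos (by positivity : 0 < 4 * c), abs_mul]
      have a1 : |x| * |e1| ≤ R * (2 * r) := mul_le_mul hx hp (abs_nonneg _) (by linarith)
      calc 4 * c * (|x| * |e1|) ≤ 4 * c * (R * (2 * r)) :=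
            mul_le_mul_of_nonneg_left a1 (by positivity)
        _ ≤ 8 * H * (R * (2 * r)) := mul_le_mul_of_nonneg_right (by linarith) (by positivity)
    have k4 : e1 ^ 2 ≤ 4 * r ^ 2 := by
      rw [← sq_abs]
      calc |e1| ^ 2 ≤ (2 * r) ^ 2 := pow_le_pow_left₀ (abs_nonneg _) hp 2
        _ = 4 * r ^ 2 := by ring
    have k2' := (abs_le.1 k2).1
    have k3' := (abs_le.1 k3).2
    -- the error is at most `2 y0² H²`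
    have hrH : r ≤ H := by nlinarith
    have k5 : r * (8 * C + 16 * R + 4) ≤ 2 * y0 ^ 2 * H := by
      calc r * (8 * C + 16 * R + 4) ≤ r * (2 * y0 ^ 2 * A) :=
            mul_le_mul_of_nonneg_left hA3 hr.le
        _ = 2 * y0 ^ 2 * (A * r) := by ring
        _ ≤ 2 * y0 ^ 2 * H := mul_le_mul_of_nonneg_left hAr (by positivity)
    have k6 : 8 * H * (C * r) + 8 * H * (R * (2 * r)) + 4 * r ^ 2 ≤ 2 * y0 ^ 2 * H ^ 2 := by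
      have a1 : 4 * r ^ 2 ≤ 4 * r * H := by nlinarith
      have a2 : r * (8 * C + 16 * R + 4) * H ≤ 2 * y0 ^ 2 * H * H :=
        mul_le_mul_of_nonneg_right k5 (by linarith)
      nlinarith
    have k7 : 2 * y0 ^ 2 * H ^ 2 ≤ 4 * q * c - p ^ 2 := by
      rw [hid]
      linarith
    calc H ^ 2 ≤ (2 * y0 ^ 2 * A) * H ^ 2 := by
          have : 0 ≤ H ^ 2 := by positivity
          nlinarith
      _ = A * (2 * y0 ^ 2 * H ^ 2) := by ring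
      _ ≤ ρ * (2 * y0 ^ 2 * H ^ 2) := mul_le_mul_of_nonneg_right hAρ (by positivity)
      _ ≤ ρ * (4 * q * c - p ^ 2) := mul_le_mul_of_nonneg_left k7 (by linarith)

private lemma double (A E r H ρ c1 c2 p1 p2 m : ℝ) (hE : 0 ≤ E) (hr : 0 < r)
    (hA : 4 * E ≤ A) (hH : 0 ≤ H) (hρ : A * (1 + r) ≤ ρ) (h1 : 0 ≤ c1) (h1' : c1 ≤ 2 * H)
    (h2 : 0 ≤ c2) (h2' : c2 ≤ 2 * H) (hp1 : |p1 - c1 * m| ≤ E * r) (hp2 : |p2 - c2 * m| ≤ E * r) :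
    |p1 * c2 - p2 * c1| ≤ ρ * H := by
  have hid : p1 * c2 - p2 * c1 = (p1 - c1 * m) * c2 - (p2 - c2 * m) * c1 := by ring
  rw [hid]
  have e1 : |(p1 - c1 * m) * c2| ≤ E * r * (2 * H) := by
    rw [abs_mul, abs_of_nonneg h2]
    exact mul_le_mul hp1 h2' h2 (by positivity)
  have e2 : |(p2 - c2 * m) * c1| ≤ E * r * (2 * H) := by
    rw [abs_mul, abs_of_nonneg h1]
    exact mul_le_mul hp2 h1' h1 (by positivity)
  have e4 : |(p1 - c1 * m) * c2 - (p2 - c2 * m) * c1|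
      ≤ |(p1 - c1 * m) * c2| + |(p2 - c2 * m) * c1| := abs_sub _ _
  have e5 : 4 * E * r * H ≤ ρ * H := by
    apply mul_le_mul_of_nonneg_right _ hH
    nlinarith
  nlinarith

private lemma consts (K : Set ℂ) (hK : IsCompact K) (hK0 : K ⊆ H0) :
    ∃ R y0 : ℝ, 1 ≤ R ∧ 0 < y0 ∧ (∀ z ∈ K, ‖z‖ ≤ R) ∧ ∀ z ∈ K, y0 ≤ z.im := by
  obtain ⟨R, hR⟩ := hK.isBounded.exists_norm_le
  rcases K.eq_empty_or_nonempty with h | h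
  · refine ⟨1, 1, le_rfl, one_pos, ?_, ?_⟩ <;> · rw [h]; simp
  · obtain ⟨z₀, hz₀, hmin⟩ := hK.exists_isMinOn h Complex.continuous_im.continuousOn
    refine ⟨max R 1, z₀.im, le_max_right _ _, hK0 hz₀, fun z hz => (hR z hz).trans
      (le_max_left _ _), fun z hz => hmin hz⟩

end I2aM

open I2aM in
theorem stmtI2a (hGe : StmtGe) (_hQF : StmtQF) : StmtI2a := by
  intro K hK hK0
  obtain ⟨C, hC, hGe⟩ := hGe K hK hK0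
  obtain ⟨R, y0, hR, hy0, hRK, hyK⟩ := consts K hK hK0
  obtain ⟨A, hAdef⟩ : ∃ A : ℝ, A = 4 * R + 2 + (2 * R ^ 2 + C) + 4 * C + 8 +
    (8 * C + 16 * R + 4) / (2 * y0 ^ 2) := ⟨_, rfl⟩
  have hfr : 0 ≤ (8 * C + 16 * R + 4) / (2 * y0 ^ 2) := by
    have : 0 ≤ 8 * C + 16 * R + 4 := by linarith
    positivity
  have hR2 : 0 ≤ R ^ 2 := by positivity
  have hA1 : 4 * R + 2 ≤ A := by rw [hAdef]; linarith
  have hA2 : 2 * R ^ 2 + C ≤ A := by rw [hAdef]; linarith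
  have hA8 : 4 * 2 ≤ A := by rw [hAdef]; linarith
  have hAC : 4 * C ≤ A := by rw [hAdef]; linarith
  have hA3 : 8 * C + 16 * R + 4 ≤ 2 * y0 ^ 2 * A := by
    have h1 : (8 * C + 16 * R + 4) / (2 * y0 ^ 2) ≤ A := by rw [hAdef]; linarith
    rw [div_le_iff₀ (by positivity)] at h1
    linarith
  have hA4 : 1 ≤ 2 * y0 ^ 2 * A := by linarith
  have hA0 : 1 ≤ A := by linarith
  refine ⟨A, hA0, ?_⟩
  intro β r H B ρ z n γ₁ γ₂ hβ hr hH hρ hB hz hc₁ hc₂ hl₁ hu₁ hl₂ hu₂ hs₁ hs₂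
  obtain ⟨-, hdet₁, hβ₁, hr₁⟩ := hc₁
  obtain ⟨-, hdet₂, hβ₂, hr₂⟩ := hc₂
  obtain ⟨g1, g2, -, g4⟩ := hGe z hz γ₁ r hr.le hr₁
  obtain ⟨k1, k2, -, k4⟩ := hGe z hz γ₂ r hr.le hr₂
  have hnz : ‖z‖ ^ 2 = z.re ^ 2 + z.im ^ 2 := by
    rw [Complex.sq_norm, Complex.normSq_apply]
    ring
  have hzR := hRK z hz
  have hx : |z.re| ≤ R := (Complex.abs_re_le_norm z).trans hzR
  have hxy : z.re ^ 2 + z.im ^ 2 ≤ R ^ 2 := by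
    rw [← hnz]
    exact pow_le_pow_left₀ (norm_nonneg _) hzR 2
  have hy := hyK z hz
  have hl₁' : (H : ℝ) ≤ ((γ₁ 1 0 : ℤ) : ℝ) := by exact_mod_cast hl₁
  have hu₁' : ((γ₁ 1 0 : ℤ) : ℝ) ≤ 2 * (H : ℝ) := by exact_mod_cast hu₁.le
  have hl₂' : (H : ℝ) ≤ ((γ₂ 1 0 : ℤ) : ℝ) := by exact_mod_cast hl₂
  have hu₂' : ((γ₂ 1 0 : ℤ) : ℝ) ≤ 2 * (H : ℝ) := by exact_mod_cast hu₂.le
  have hH0 : (0 : ℝ) ≤ H := Nat.cast_nonneg _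
  rw [hnz] at g2 k2
  obtain ⟨a1, a2, a3⟩ := single C R y0 A r H ρ ((γ₁ 1 0 : ℤ) : ℝ) ((γ₁ 0 0 - γ₁ 1 1 : ℤ) : ℝ)
    (-((γ₁ 0 1 : ℤ) : ℝ)) z.re z.im hC hR hy0 hr hx hxy hy hA1 hA2 hA3 hA4 hH hρ hl₁' hu₁' g1 g2
  obtain ⟨b1, b2, b3⟩ := single C R y0 A r H ρ ((γ₂ 1 0 : ℤ) : ℝ) ((γ₂ 0 0 - γ₂ 1 1 : ℤ) : ℝ)
    (-((γ₂ 0 1 : ℤ) : ℝ)) z.re z.im hC hR hy0 hr hx hxy hy hA1 hA2 hA3 hA4 hH hρ hl₂' hu₂' k1 k2
  have hpc := double A 2 r H ρ ((γ₁ 1 0 : ℤ) : ℝ) ((γ₂ 1 0 : ℤ) : ℝ)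
    ((γ₁ 0 0 - γ₁ 1 1 : ℤ) : ℝ) ((γ₂ 0 0 - γ₂ 1 1 : ℤ) : ℝ) (2 * z.re) (by norm_num) hr hA8 hH0 hρ
    (hH0.trans hl₁') hu₁' (hH0.trans hl₂') hu₂'
    (by
      have : ((γ₁ 1 0 : ℤ) : ℝ) * (2 * z.re) = 2 * ((γ₁ 1 0 : ℤ) : ℝ) * z.re := by ring
      rw [this]; exact g1)
    (by
      have : ((γ₂ 1 0 : ℤ) : ℝ) * (2 * z.re) = 2 * ((γ₂ 1 0 : ℤ) : ℝ) * z.re := by ring
      rw [this]; exact k1)
  have hqc := double A C r H ρ ((γ₁ 1 0 : ℤ) : ℝ) ((γ₂ 1 0 : ℤ) : ℝ)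
    (-((γ₁ 0 1 : ℤ) : ℝ)) (-((γ₂ 0 1 : ℤ) : ℝ)) (z.re ^ 2 + z.im ^ 2) (by linarith) hr hAC hH0 hρ
    (hH0.trans hl₁') hu₁' (hH0.trans hl₂') hu₂' g2 k2
  have htr : ∀ γ : Mat, ((γ.det : ℤ) : ℝ) + Vd γ z ≤ β ^ 2 →
      ((γ 0 0 + γ 1 1 : ℤ) : ℝ) ^ 2 ≤ 4 * (((γ.det : ℤ) : ℝ) + Vd γ z) →
      2 * γ 1 1 + (γ 0 0 - γ 1 1) ≤ (B : ℤ) := by
    intro γ h1 h2
    have h3 : ((γ 0 0 + γ 1 1 : ℤ) : ℝ) ^ 2 ≤ (2 * β) ^ 2 := by nlinarith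
    have h4 : ((γ 0 0 + γ 1 1 : ℤ) : ℝ) ≤ 2 * β := le_of_sq_le_sq h3 (by linarith)
    have h5 : ((γ 0 0 + γ 1 1 : ℤ) : ℝ) ≤ ((B : ℤ) : ℝ) := by
      push_cast
      push_cast at h4
      linarith
    have h6 : γ 0 0 + γ 1 1 ≤ (B : ℤ) := by exact_mod_cast h5
    linarith
  have hdet : ∀ γ : Mat, γ 1 1 ^ 2 + (γ 0 0 - γ 1 1) * γ 1 1 + (-γ 0 1) * γ 1 0 = γ.det := by
    intro γ
    rw [Matrix.det_fin_two]
    ring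
  refine ⟨hl₁, hu₁, hl₂, hu₂, ?_, htr γ₁ hβ₁ g4, ?_, htr γ₂ hβ₂ k4, ?_, ?_, ?_, ?_, ?_, ?_, ?_, ?_,
    ?_⟩
  · change 0 ≤ 2 * γ₁ 1 1 + (γ₁ 0 0 - γ₁ 1 1)
    linarith
  · change 0 ≤ 2 * γ₂ 1 1 + (γ₂ 0 0 - γ₂ 1 1)
    linarith
  · exact_mod_cast a1
  · exact_mod_cast b1
  · exact_mod_cast a2
  · exact_mod_cast b2
  · exact_mod_cast hpc
  · exact_mod_cast hqc
  · exact_mod_cast a3
  · exact_mod_cast b3
  · change γ₁ 1 1 ^ 2 + (γ₁ 0 0 - γ₁ 1 1) * γ₁ 1 1 + (-γ₁ 0 1) * γ₁ 1 0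
      = γ₂ 1 1 ^ 2 + (γ₂ 0 0 - γ₂ 1 1) * γ₂ 1 1 + (-γ₂ 0 1) * γ₂ 1 0
    rw [hdet, hdet, hdet₁, hdet₂]

end Pool.Agent.A54.Av
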