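import Pool.Agent.Lib.MP_a54f13_nt.Av.SpecA

/-!
# Package `Av`, module `IB2`: raising and lowering are adjoint
-/

set_option autoImplicit false

namespace Pool.Agent.A54.Av

open MeasureTheory Filter Topology Set
open scoped ContDiff ComplexConjugate UpperHalfPlane MatrixGroups ENNReal
open Pool.Agent.A54.Half (H0 qq ff hh)

noncomputable section

namespace IB2M

lemma fderiv_conj_at {g : ℂ → ℂ} {z : ℂ} (hg : DifferentiableAt ℝ g z) :
    HasFDerivAt (fun w => conj (g w))
      ((Complex.conjCLE.toContinuousLinearMap).comp (fderiv ℝ g z)) z :=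
  (Complex.conjCLE.toContinuousLinearMap.hasFDerivAt (x := g z)).comp z hg.hasFDerivAt

lemma dz_conj_at {g : ℂ → ℂ} {z : ℂ} (hg : DifferentiableAt ℝ g z) :
    dz (fun w => conj (g w)) z = conj (dzb g z) := by
  unfold dz dzb
  rw [(fderiv_conj_at hg).fderiv]
  have h1 : ∀ v : ℂ, ((Complex.conjCLE.toContinuousLinearMap).comp (fderiv ℝ g z)) v =
      conj (fderiv ℝ g z v) := fun v => rfl
  rw [h1, h1]
  simp only [map_add, map_mul, Complex.conj_I]
  ring

lemma dz_mul_at {a b : ℂ → ℂ} {z : ℂ} (ha : DifferentiableAt ℝ a z)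
    (hb : DifferentiableAt ℝ b z) :
    dz (fun w => a w * b w) z = dz a z * b z + a z * dz b z := by
  unfold dz
  rw [fderiv_fun_mul ha hb]
  simp only [add_apply, smul_apply, smul_eq_mul]
  ring

/-- the identity of the integrands -/
lemma key {k : ℕ} {G H : ℂ → ℂ} {z : ℂ} (hG : DifferentiableAt ℝ G z)
    (hH : DifferentiableAt ℝ H z) :
    Complex.I * (z.im : ℂ) * dz (fun w => conj (G w) * H w) z - conj (G z) * H z =
      conj (LL (k + 1) G z) * H z + conj (G z) * RR k H z := by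
  rw [dz_mul_at (fderiv_conj_at hG).differentiableAt hH, dz_conj_at hG]
  unfold LL RR
  simp only [map_sub, map_neg, map_mul, Complex.conj_I, Complex.conj_ofReal, map_natCast]
  push_cast
  ring

end IB2M

open IB2M in
/-- **IB2** raising and lowering are adjoint -/
theorem stmtIB2 (hIBP : StmtIBP) : StmtIB2 := by
  intro k G H hG hH hb
  have hdiffG : ∀ z ∈ H0, DifferentiableAt ℝ G z := fun z hz =>
    (hG.smooth.contDiffAt (Half.isOpen_H0.mem_nhds hz)).differentiableAt one_ne_zero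
  have hdiffH : ∀ z ∈ H0, DifferentiableAt ℝ H z := fun z hz =>
    (hH.smooth.contDiffAt (Half.isOpen_H0.mem_nhds hz)).differentiableAt one_ne_zero
  have hkey : ∀ z ∈ H0,
      Complex.I * (z.im : ℂ) * dz (fun w => conj (G w) * H w) z - conj (G z) * H z =
        conj (LL (k + 1) G z) * H z + conj (G z) * RR k H z := fun z hz =>
    key (hdiffG z hz) (hdiffH z hz)
  obtain ⟨C1, hC1⟩ := hG.bdd
  obtain ⟨C2, hC2⟩ := hH.bdd
  obtain ⟨C3, hC3⟩ := hb
  have hmain := hIBP (fun w => conj (G w) * H w) ?_ ?_ ?_ ?_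
  · rw [← hmain]
    apply integral_congr_ae
    filter_upwards with z
    exact (hkey (z : ℂ) z.im_pos).symm
  · exact (Complex.conjCLE.contDiff.comp_contDiffOn hG.smooth).mul hH.smooth
  · intro τ hτ
    show conj (G (τ + 1)) * H (τ + 1) = conj (G τ) * H τ
    rw [hG.T τ hτ, hH.T τ hτ]
  · intro τ hτ
    show conj (G (-τ⁻¹)) * H (-τ⁻¹) = conj τ / τ * (conj (G τ) * H τ)
    rw [hG.S τ hτ, hH.S τ hτ]
    have hτ0 : τ ≠ 0 := by
      rintro rfl
      exact lt_irrefl (0 : ℝ) hτ
    have hτ1 : conj τ ≠ 0 := (map_ne_zero _).2 hτ0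
    rw [map_mul, map_pow, map_div₀, Complex.conj_conj]
    have h1 : (conj τ / τ) ^ k * (τ / conj τ) ^ k = 1 := by
      rw [← mul_pow]
      have : conj τ / τ * (τ / conj τ) = 1 := by field_simp
      rw [this, one_pow]
    calc (conj τ / τ) ^ (k + 1) * conj (G τ) * ((τ / conj τ) ^ k * H τ)
        = ((conj τ / τ) ^ k * (τ / conj τ) ^ k) * (conj τ / τ * (conj (G τ) * H τ)) := by
          rw [pow_succ]; ring
      _ = conj τ / τ * (conj (G τ) * H τ) := by rw [h1, one_mul]
  · refine ⟨C1 * C2 + (C3 * C2 + C1 * C3), fun τ hτ hτ2 => ?_⟩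
    have a1 := hC1 τ hτ hτ2
    have a2 := hC2 τ hτ hτ2
    obtain ⟨a3, a4⟩ := hC3 τ hτ hτ2
    have n1 := norm_nonneg (G τ)
    have n2 := norm_nonneg (H τ)
    have n3 := norm_nonneg (RR k H τ)
    have b1 : ‖conj (G τ) * H τ‖ ≤ C1 * C2 := by
      rw [norm_mul, RCLike.norm_conj]
      exact mul_le_mul a1 a2 n2 (n1.trans a1)
    have b2 : ‖conj (LL (k + 1) G τ) * H τ‖ ≤ C3 * C2 := by
      rw [norm_mul, RCLike.norm_conj]
      exact mul_le_mul a4 a2 n2 (n3.trans a3)
    have b3 : ‖conj (G τ) * RR k H τ‖ ≤ C1 * C3 := by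
      rw [norm_mul, RCLike.norm_conj]
      exact mul_le_mul a1 a3 n3 (n1.trans a1)
    have c1 : 0 ≤ C3 * C2 := (norm_nonneg _).trans b2
    have c2 : 0 ≤ C1 * C3 := (norm_nonneg _).trans b3
    refine ⟨?_, ?_⟩
    · show ‖conj (G τ) * H τ‖ ≤ _
      linarith
    · have e1 : Complex.I * (τ.im : ℂ) * dz (fun w => conj (G w) * H w) τ =
          conj (G τ) * H τ + (conj (LL (k + 1) G τ) * H τ + conj (G τ) * RR k H τ) := by
        rw [← hkey τ hτ]; ring
      have e2 : ‖(τ.im : ℂ) * dz (fun w => conj (G w) * H w) τ‖ =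
          ‖Complex.I * (τ.im : ℂ) * dz (fun w => conj (G w) * H w) τ‖ := by
        rw [mul_assoc, norm_mul Complex.I, Complex.norm_I, one_mul]
      rw [e2, e1]
      exact (norm_add_le _ _).trans (add_le_add b1 ((norm_add_le _ _).trans (add_le_add b2 b3)))

end

end Pool.Agent.A54.Av
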