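import Pool.Agent.Lib.MP_a54f13_nt.Av.SpecA
import Pool.Agent.Lib.MP_a54f13_nt.X
import Pool.Agent.Lib.MP_a54f13_nt.IntLap

/-!
# Package `Av`, module `IBP`: integration by parts on the fundamental domain
-/

set_option autoImplicit false

namespace Pool.Agent.A54.Av

open MeasureTheory Filter Topology Set
open scoped ContDiff ComplexConjugate UpperHalfPlane MatrixGroups ENNReal Interval
open Pool.Agent.A54.Half (H0 qq ff hh)

noncomputable section

namespace IBPM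

/-! ### from the surface to the plane -/

lemma fdo_int (F : ℂ → ℂ) :
    ∫ z in ModularGroup.fdo, F z = ∫ z in X.O, (1 / z.im ^ 2 : ℝ) • F z := by
  rw [← integral_indicator X.measurableSet_fdo]
  have h1 : (ModularGroup.fdo.indicator fun z : ℍ => F z) =
      fun z : ℍ => (X.O.indicator F) (z : ℂ) := by
    funext z
    by_cases hz : z ∈ ModularGroup.fdo
    · rw [indicator_of_mem hz, indicator_of_mem ((X.mem_fdo_iff z).1 hz)]
    · rw [indicator_of_notMem hz, indicator_of_notMem (fun h => hz ((X.mem_fdo_iff z).2 h))]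
  rw [h1, IntLap.int_gen]
  have h2 : (fun z : ℂ => (1 / z.im ^ 2 : ℝ) • X.O.indicator F z) =
      X.O.indicator (fun z : ℂ => (1 / z.im ^ 2 : ℝ) • F z) := by
    funext z
    by_cases hz : z ∈ X.O
    · rw [indicator_of_mem hz, indicator_of_mem hz]
    · rw [indicator_of_notMem hz, indicator_of_notMem hz, smul_zero]
  rw [h2, setIntegral_indicator X.isOpen_O.measurableSet]
  congr 2
  ext z
  exact ⟨fun h => h.2, fun h => ⟨X.O_sub h, h⟩⟩

/-- height of the arc -/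
def yy (x : ℝ) : ℝ := √(1 - x ^ 2)

lemma yy_pos {x : ℝ} (hx : |x| < 1) : 0 < yy x := by
  unfold yy
  apply Real.sqrt_pos.2
  have := abs_lt.1 hx
  nlinarith

lemma yy_sq {x : ℝ} (hx : |x| < 1) : yy x ^ 2 = 1 - x ^ 2 := by
  unfold yy
  rw [Real.sq_sqrt]
  have := abs_lt.1 hx
  nlinarith

lemma yy_neg (x : ℝ) : yy (-x) = yy x := by
  unfold yy
  rw [neg_sq]

lemma continuous_yy : Continuous yy := by
  unfold yy
  fun_prop

lemma half_le_yy {x : ℝ} (hx : |x| ≤ 1 / 2) : 1 / 2 ≤ yy x := by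
  unfold yy
  apply Real.le_sqrt_of_sq_le
  have := abs_le.1 hx
  nlinarith

/-- the region in real coordinates -/
def RR0 : Set (ℝ × ℝ) := {p | |p.1| < 1 / 2 ∧ yy p.1 < p.2}

/-- truncations -/
def Rn (n : ℕ) : Set (ℝ × ℝ) := {p | |p.1| < 1 / 2 ∧ yy p.1 < p.2 ∧ p.2 < yy p.1 + n}

/-- the point `x + i y` -/
def toC (p : ℝ × ℝ) : ℂ := Complex.measurableEquivRealProd.symm p

lemma toC_re (p : ℝ × ℝ) : (toC p).re = p.1 := rfl
lemma toC_im (p : ℝ × ℝ) : (toC p).im = p.2 := rfl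

lemma pre_O : Complex.measurableEquivRealProd.symm ⁻¹' X.O = RR0 := by
  ext p
  have h1 : (Complex.measurableEquivRealProd.symm p) = toC p := rfl
  constructor
  · intro h
    have h2 : toC p ∈ X.O := h
    obtain ⟨a, b, c⟩ := h2
    rw [toC_im] at a
    rw [Complex.normSq_apply, toC_re, toC_im] at b
    rw [toC_re] at c
    refine ⟨c, ?_⟩
    unfold yy
    rw [Real.sqrt_lt' a]
    nlinarith
  · rintro ⟨c, b⟩
    have c' : |p.1| < 1 := by linarith
    have a : 0 < p.2 := (yy_pos c').trans b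
    have d : 1 < p.1 * p.1 + p.2 * p.2 := by
      have := yy_sq c'
      have := yy_pos c'
      nlinarith
    change toC p ∈ X.O
    refine ⟨by rw [toC_im]; exact a, ?_, by rw [toC_re]; exact c⟩
    rw [Complex.normSq_apply, toC_re, toC_im]
    exact d

lemma O_int (F : ℂ → ℂ) : ∫ z in X.O, F z = ∫ p in RR0, F (toC p) := by
  have h := (Complex.volume_preserving_equiv_real_prod.symm).setIntegral_preimage_emb
    (Complex.measurableEquivRealProd.symm.measurableEmbedding) F X.O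
  rw [pre_O] at h
  exact h.symm

lemma measurableSet_Rn (n : ℕ) : MeasurableSet (Rn n) := by
  have h1 : IsOpen (Rn n) := by
    unfold Rn
    apply (isOpen_lt (continuous_abs.comp continuous_fst) continuous_const).inter
    apply (isOpen_lt (continuous_yy.comp continuous_fst) continuous_snd).inter
    exact isOpen_lt continuous_snd ((continuous_yy.comp continuous_fst).add continuous_const)
  exact h1.measurableSet

lemma mono_Rn : Monotone Rn := by
  intro m n hmn p hp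
  obtain ⟨a, b, c⟩ := hp
  have : (m : ℝ) ≤ n := by exact_mod_cast hmn
  exact ⟨a, b, by linarith⟩

lemma iUnion_Rn : ⋃ n, Rn n = RR0 := by
  ext p
  simp only [mem_iUnion]
  constructor
  · rintro ⟨n, a, b, -⟩
    exact ⟨a, b⟩
  · rintro ⟨a, b⟩
    obtain ⟨n, hn⟩ := exists_nat_gt (p.2 - yy p.1)
    exact ⟨n, a, b, by linarith⟩

/-- Fubini on the truncated region -/
lemma Rn_int (n : ℕ) (F : ℝ × ℝ → ℂ) (hF : IntegrableOn F (Rn n)) :
    ∫ p in Rn n, F p = ∫ x in (-(1 / 2) : ℝ)..(1 / 2), ∫ s in (0 : ℝ)..n, F (x, yy x + s) := by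
  rw [← integral_indicator (measurableSet_Rn n)]
  have hi : Integrable ((Rn n).indicator F) (volume.prod volume) :=
    (integrable_indicator_iff (measurableSet_Rn n)).2 hF
  rw [Measure.volume_eq_prod, integral_prod _ hi]
  have h1 : (fun x : ℝ => ∫ y : ℝ, (Rn n).indicator F (x, y)) =
      (Ioo (-(1 / 2) : ℝ) (1 / 2)).indicator
        (fun x => ∫ s in (0 : ℝ)..n, F (x, yy x + s)) := by
    funext x
    by_cases hx : x ∈ Ioo (-(1 / 2) : ℝ) (1 / 2)
    · rw [indicator_of_mem hx]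
      have hx' : |x| < 1 / 2 := abs_lt.2 hx
      have h2 : (fun y : ℝ => (Rn n).indicator F (x, y)) =
          (Ioo (yy x) (yy x + n)).indicator (fun y => F (x, y)) := by
        funext y
        by_cases hy : y ∈ Ioo (yy x) (yy x + n)
        · rw [indicator_of_mem hy, indicator_of_mem (show (x, y) ∈ Rn n from ⟨hx', hy.1, hy.2⟩)]
        · rw [indicator_of_notMem hy, indicator_of_notMem (fun h => hy ⟨h.2.1, h.2.2⟩)]
      rw [h2, integral_indicator measurableSet_Ioo,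
        intervalIntegral.integral_comp_add_left (fun y => F (x, y)) (yy x), add_zero,
        intervalIntegral.integral_of_le (by simp), integral_Ioc_eq_integral_Ioo]
    · rw [indicator_of_notMem hx]
      have h2 : (fun y : ℝ => (Rn n).indicator F (x, y)) = fun _ => 0 := by
        funext y
        exact indicator_of_notMem (fun h => hx (abs_lt.1 h.1)) _
      rw [h2, integral_zero]
  rw [h1, integral_indicator measurableSet_Ioo,
    intervalIntegral.integral_of_le (by norm_num), integral_Ioc_eq_integral_Ioo]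

/-! ### the field -/

variable {V : ℂ → ℂ}

/-- `V / y` -/
def UU (V : ℂ → ℂ) (z : ℂ) : ℂ := (z.im)⁻¹ • V z

lemma contDiffOn_UU (hV : ContDiffOn ℝ 1 V H0) : ContDiffOn ℝ 1 (UU V) H0 := by
  have h1 : ContDiffOn ℝ 1 (fun z : ℂ => (z.im)⁻¹) H0 := by
    apply ContDiffOn.inv
    · exact Complex.imCLM.contDiff.contDiffOn
    · intro z hz
      exact ne_of_gt hz
  exact ContDiffOn.smul h1 hV

lemma contDiffAt_UU (hV : ContDiffOn ℝ 1 V H0) {z : ℂ} (hz : z ∈ H0) : ContDiffAt ℝ 1 (UU V) z :=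
  (contDiffOn_UU hV).contDiffAt (Half.isOpen_H0.mem_nhds hz)

lemma fderiv_UU (hV : ContDiffOn ℝ 1 V H0) {z : ℂ} (hz : z ∈ H0) (v : ℂ) :
    fderiv ℝ (UU V) z v = (z.im)⁻¹ • fderiv ℝ V z v - (v.im / z.im ^ 2) • V z := by
  have h0 : z.im ≠ 0 := ne_of_gt hz
  have hd : HasFDerivAt V (fderiv ℝ V z) z :=
    ((hV.contDiffAt (Half.isOpen_H0.mem_nhds hz)).differentiableAt (by simp)).hasFDerivAt
  have hi : HasFDerivAt (fun w : ℂ => (w.im)⁻¹) (-(z.im ^ 2)⁻¹ • Complex.imCLM) z := by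
    have h1 : HasFDerivAt (fun w : ℂ => w.im) Complex.imCLM z := Complex.imCLM.hasFDerivAt
    have h2 := (hasDerivAt_inv h0).comp_hasFDerivAt z h1
    exact h2
  have h3 : HasFDerivAt (UU V) _ z := hi.smul hd
  rw [h3.fderiv]
  simp only [add_apply, smul_apply, ContinuousLinearMap.smulRight_apply, Complex.imCLM_apply,
    smul_eq_mul]
  rw [sub_eq_add_neg, ← neg_smul]
  congr 2
  field_simp

/-- the integrand -/
def Phi (V : ℂ → ℂ) (z : ℂ) : ℂ := (1 / z.im ^ 2 : ℝ) • (Complex.I * (z.im : ℂ) * dz V z - V z)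

lemma Phi_eq (hV : ContDiffOn ℝ 1 V H0) {z : ℂ} (hz : z ∈ H0) :
    Phi V z = Complex.I * fderiv ℝ (UU V) z 1 + fderiv ℝ (UU V) z Complex.I := by
  have h0 : (z.im : ℂ) ≠ 0 := by
    have : z.im ≠ 0 := ne_of_gt hz
    exact_mod_cast this
  rw [fderiv_UU hV hz, fderiv_UU hV hz]
  unfold Phi dz
  simp only [Complex.real_smul, Complex.one_im, Complex.I_im]
  push_cast
  field_simp
  linear_combination (-(z.im : ℂ) * fderiv ℝ V z Complex.I) * Complex.I_sq

lemma continuousOn_Phi (hV : ContDiffOn ℝ 1 V H0) : ContinuousOn (Phi V) H0 := by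
  have h1 : ContinuousOn (fderiv ℝ (UU V)) H0 :=
    (contDiffOn_UU hV).continuousOn_fderiv_of_isOpen Half.isOpen_H0 le_rfl
  have h2 : ContinuousOn (fun z => Complex.I * fderiv ℝ (UU V) z 1 +
      fderiv ℝ (UU V) z Complex.I) H0 :=
    (continuousOn_const.mul (h1.clm_apply continuousOn_const)).add
      (h1.clm_apply continuousOn_const)
  exact h2.congr fun z hz => Phi_eq hV hz

/-- the coordinates `(x, s) ↦ x + i (yy x + s)` -/
def pp (p : ℝ × ℝ) : ℂ := toC (p.1, yy p.1 + p.2)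

lemma pp_im (p : ℝ × ℝ) : (pp p).im = yy p.1 + p.2 := rfl
lemma pp_re (p : ℝ × ℝ) : (pp p).re = p.1 := rfl

lemma pp_eq (p : ℝ × ℝ) : pp p = (p.1 : ℂ) + ((yy p.1 + p.2 : ℝ) : ℂ) * Complex.I := by
  apply Complex.ext
  · simp [pp_re]
  · simp [pp_im]

lemma hasDerivAt_yy {x : ℝ} (hx : |x| < 1) : HasDerivAt yy (-(x / yy x)) x := by
  have h1 : HasDerivAt (fun t : ℝ => 1 - t ^ 2) (-(2 * x)) x := by
    have := ((hasDerivAt_pow 2 x).const_sub 1)
    simpa using this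
  have h2 : (1 - x ^ 2) ≠ 0 := by
    have := abs_lt.1 hx
    nlinarith
  have h3 := h1.sqrt h2
  have h4 : -(2 * x) / (2 * √(1 - x ^ 2)) = -(x / yy x) := by
    unfold yy
    rw [neg_div, mul_div_mul_left _ _ (two_ne_zero)]
  rw [h4] at h3
  exact h3

lemma contDiffAt_yy {x : ℝ} (hx : |x| < 1) : ContDiffAt ℝ 1 yy x := by
  unfold yy
  have h2 : (1 - x ^ 2) ≠ 0 := by
    have := abs_lt.1 hx
    nlinarith
  exact ContDiffAt.sqrt (by fun_prop) h2

lemma contDiffAt_pp {p : ℝ × ℝ} (hp : |p.1| < 1) : ContDiffAt ℝ 1 pp p := by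
  have h1 : pp = fun p : ℝ × ℝ => (p.1 : ℂ) + ((yy p.1 + p.2 : ℝ) : ℂ) * Complex.I := by
    funext p; exact pp_eq p
  rw [h1]
  have h0 : ContDiffAt ℝ 1 (fun p : ℝ × ℝ => yy p.1) p :=
    ContDiffAt.comp (g := yy) (f := Prod.fst) p (contDiffAt_yy hp) contDiffAt_fst
  have h2 : ContDiffAt ℝ 1 (fun p : ℝ × ℝ => yy p.1 + p.2) p := h0.add contDiffAt_snd
  have h3 : ContDiffAt ℝ 1 (fun p : ℝ × ℝ => ((p.1 : ℝ) : ℂ)) p :=
    Complex.ofRealCLM.contDiff.contDiffAt.comp p contDiffAt_fst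
  have h4 : ContDiffAt ℝ 1 (fun p : ℝ × ℝ => ((yy p.1 + p.2 : ℝ) : ℂ)) p :=
    Complex.ofRealCLM.contDiff.contDiffAt.comp p h2
  exact h3.add (h4.mul contDiffAt_const)

/-- first component of the field -/
def fF (V : ℂ → ℂ) (p : ℝ × ℝ) : ℂ := Complex.I * UU V (pp p)

/-- second component of the field -/
def gF (V : ℂ → ℂ) (p : ℝ × ℝ) : ℂ :=
  (1 + Complex.I * ((p.1 / yy p.1 : ℝ) : ℂ)) * UU V (pp p)

lemma contDiffAt_u (hV : ContDiffOn ℝ 1 V H0) {p : ℝ × ℝ} (hp : |p.1| < 1)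
    (hp2 : 0 < yy p.1 + p.2) : ContDiffAt ℝ 1 (fun q => UU V (pp q)) p := by
  have hz : pp p ∈ H0 := by
    change 0 < (pp p).im
    rw [pp_im]; exact hp2
  exact ContDiffAt.comp p (contDiffAt_UU hV hz) (contDiffAt_pp hp)

lemma contDiffAt_fF (hV : ContDiffOn ℝ 1 V H0) {p : ℝ × ℝ} (hp : |p.1| < 1)
    (hp2 : 0 < yy p.1 + p.2) : ContDiffAt ℝ 1 (fF V) p :=
  contDiffAt_const.mul (contDiffAt_u hV hp hp2)

lemma contDiffAt_gF (hV : ContDiffOn ℝ 1 V H0) {p : ℝ × ℝ} (hp : |p.1| < 1)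
    (hp2 : 0 < yy p.1 + p.2) : ContDiffAt ℝ 1 (gF V) p := by
  have h0 : ContDiffAt ℝ 1 (fun p : ℝ × ℝ => yy p.1) p :=
    ContDiffAt.comp (g := yy) (f := Prod.fst) p (contDiffAt_yy hp) contDiffAt_fst
  have h1 : ContDiffAt ℝ 1 (fun q : ℝ × ℝ => q.1 / yy q.1) p :=
    contDiffAt_fst.div h0 (yy_pos hp).ne'
  have h2 : ContDiffAt ℝ 1 (fun q : ℝ × ℝ => ((q.1 / yy q.1 : ℝ) : ℂ)) p :=
    Complex.ofRealCLM.contDiff.contDiffAt.comp p h1
  exact (contDiffAt_const.add (contDiffAt_const.mul h2)).mul (contDiffAt_u hV hp hp2)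

lemma deriv_s (hV : ContDiffOn ℝ 1 V H0) {x s : ℝ} (hp2 : 0 < yy x + s) :
    HasDerivAt (fun t => UU V (pp (x, t))) (fderiv ℝ (UU V) (pp (x, s)) Complex.I) s := by
  have hz : pp (x, s) ∈ H0 := by
    change 0 < (pp (x, s)).im
    rw [pp_im]; exact hp2
  have h1 : HasDerivAt (fun t : ℝ => pp (x, t)) Complex.I s := by
    have h2 : (fun t : ℝ => pp (x, t)) =
        fun t : ℝ => (x : ℂ) + ((yy x + t : ℝ) : ℂ) * Complex.I := by
      funext t; exact pp_eq (x, t)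
    rw [h2]
    have h3 : HasDerivAt (fun t : ℝ => yy x + t) 1 s := (hasDerivAt_id s).const_add _
    have h4 := (h3.ofReal_comp.mul_const Complex.I).const_add (x : ℂ)
    simpa using h4
  exact (((contDiffAt_UU hV hz).differentiableAt (by simp)).hasFDerivAt).comp_hasDerivAt s h1

lemma deriv_x (hV : ContDiffOn ℝ 1 V H0) {x s : ℝ} (hx : |x| < 1) (hp2 : 0 < yy x + s) :
    HasDerivAt (fun t => UU V (pp (t, s)))
      (fderiv ℝ (UU V) (pp (x, s)) (1 + ((-(x / yy x) : ℝ) : ℂ) * Complex.I)) x := by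
  have hz : pp (x, s) ∈ H0 := by
    change 0 < (pp (x, s)).im
    rw [pp_im]; exact hp2
  have h1 : HasDerivAt (fun t : ℝ => pp (t, s)) (1 + ((-(x / yy x) : ℝ) : ℂ) * Complex.I) x := by
    have h2 : (fun t : ℝ => pp (t, s)) =
        fun t : ℝ => (t : ℂ) + ((yy t + s : ℝ) : ℂ) * Complex.I := by
      funext t; exact pp_eq (t, s)
    rw [h2]
    have h3 : HasDerivAt (fun t : ℝ => yy t + s) (-(x / yy x)) x := (hasDerivAt_yy hx).add_const _
    have h5 : HasDerivAt (fun t : ℝ => (t : ℂ)) 1 x := by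
      simpa using (hasDerivAt_id x).ofReal_comp
    exact h5.add (h3.ofReal_comp.mul_const Complex.I)
  exact (((contDiffAt_UU hV hz).differentiableAt (by simp)).hasFDerivAt).comp_hasDerivAt x h1

lemma div_eq (hV : ContDiffOn ℝ 1 V H0) {x s : ℝ} (hx : |x| < 1) (hp2 : 0 < yy x + s) :
    fderiv ℝ (fF V) (x, s) (1, 0) + fderiv ℝ (gF V) (x, s) (0, 1) = Phi V (pp (x, s)) := by
  have hz : pp (x, s) ∈ H0 := by
    change 0 < (pp (x, s)).im
    rw [pp_im]; exact hp2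
  have hf : fderiv ℝ (fF V) (x, s) (1, 0) = Complex.I *
      fderiv ℝ (UU V) (pp (x, s)) (1 + ((-(x / yy x) : ℝ) : ℂ) * Complex.I) := by
    have h1 : HasFDerivAt (fF V) (fderiv ℝ (fF V) (x, s)) (x, s) :=
      ((contDiffAt_fF (p := (x, s)) hV hx hp2).differentiableAt (by simp)).hasFDerivAt
    have h2 : HasDerivAt (fun t : ℝ => ((t, s) : ℝ × ℝ)) ((1, 0) : ℝ × ℝ) x :=
      (hasDerivAt_id x).prodMk (hasDerivAt_const x s)
    have h3 := h1.comp_hasDerivAt x h2
    have h4 : HasDerivAt (fun t : ℝ => fF V (t, s)) _ x :=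
      (deriv_x hV hx hp2).const_mul Complex.I
    exact h3.unique h4
  have hg : fderiv ℝ (gF V) (x, s) (0, 1) = (1 + Complex.I * ((x / yy x : ℝ) : ℂ)) *
      fderiv ℝ (UU V) (pp (x, s)) Complex.I := by
    have h1 : HasFDerivAt (gF V) (fderiv ℝ (gF V) (x, s)) (x, s) :=
      ((contDiffAt_gF (p := (x, s)) hV hx hp2).differentiableAt (by simp)).hasFDerivAt
    have h2 : HasDerivAt (fun t : ℝ => ((x, t) : ℝ × ℝ)) ((0, 1) : ℝ × ℝ) s :=
      (hasDerivAt_const s x).prodMk (hasDerivAt_id s)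
    have h3 := h1.comp_hasDerivAt s h2
    have h4 : HasDerivAt (fun t : ℝ => gF V (x, t)) _ s :=
      (deriv_s hV hp2).const_mul (1 + Complex.I * ((x / yy x : ℝ) : ℂ))
    exact h3.unique h4
  rw [hf, hg, Phi_eq hV hz, map_add]
  have h5 : fderiv ℝ (UU V) (pp (x, s)) (((-(x / yy x) : ℝ) : ℂ) * Complex.I) =
      ((-(x / yy x) : ℝ) : ℂ) * fderiv ℝ (UU V) (pp (x, s)) Complex.I := by
    rw [← Complex.real_smul, map_smul, Complex.real_smul]
  rw [h5]
  push_cast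
  ring

/-! ### the divergence theorem on the truncated region -/

lemma box_mem {n : ℕ} {p : ℝ × ℝ} (hp : p ∈ [[(-(1 / 2) : ℝ), 1 / 2]] ×ˢ [[(0 : ℝ), (n : ℝ)]]) :
    |p.1| ≤ 1 / 2 ∧ |p.1| < 1 ∧ 0 ≤ p.2 ∧ 0 < yy p.1 + p.2 := by
  rw [uIcc_of_le (by norm_num), uIcc_of_le (by simp)] at hp
  obtain ⟨h1, h2⟩ := hp
  have h3 : |p.1| ≤ 1 / 2 := abs_le.2 h1
  have h4 : |p.1| < 1 := by linarith
  exact ⟨h3, h4, h2.1, by have := yy_pos h4; linarith [h2.1]⟩

lemma divergence (hV : ContDiffOn ℝ 1 V H0) (n : ℕ) :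
    ∫ x in (-(1 / 2) : ℝ)..(1 / 2), ∫ s in (0 : ℝ)..n, Phi V (pp (x, s)) =
      (((∫ x in (-(1 / 2) : ℝ)..(1 / 2), gF V (x, n)) -
        ∫ x in (-(1 / 2) : ℝ)..(1 / 2), gF V (x, 0)) +
        ∫ s in (0 : ℝ)..n, fF V (1 / 2, s)) - ∫ s in (0 : ℝ)..n, fF V (-(1 / 2), s) := by
  have hcont : ContinuousOn (fun p => Phi V (pp p))
      ([[(-(1 / 2) : ℝ), 1 / 2]] ×ˢ [[(0 : ℝ), (n : ℝ)]]) := by
    apply (continuousOn_Phi hV).comp
    · intro p hp
      exact (contDiffAt_pp (box_mem hp).2.1).continuousAt.continuousWithinAt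
    · intro p hp
      change 0 < (pp p).im
      rw [pp_im]
      exact (box_mem hp).2.2.2
  have hK : IsCompact ([[(-(1 / 2) : ℝ), 1 / 2]] ×ˢ [[(0 : ℝ), (n : ℝ)]]) :=
    isCompact_uIcc.prod isCompact_uIcc
  have heq : ∀ p ∈ [[(-(1 / 2) : ℝ), 1 / 2]] ×ˢ [[(0 : ℝ), (n : ℝ)]],
      fderiv ℝ (fF V) p (1, 0) + fderiv ℝ (gF V) p (0, 1) = Phi V (pp p) := by
    rintro ⟨x, s⟩ hp
    obtain ⟨-, h2, -, h4⟩ := box_mem hp
    exact div_eq hV h2 h4
  have hsub : ∀ p ∈ Ioo (min (-(1 / 2) : ℝ) (1 / 2)) (max (-(1 / 2) : ℝ) (1 / 2)) ×ˢ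
      Ioo (min (0 : ℝ) n) (max (0 : ℝ) n) \ (∅ : Set (ℝ × ℝ)),
      p ∈ [[(-(1 / 2) : ℝ), 1 / 2]] ×ˢ [[(0 : ℝ), (n : ℝ)]] := by
    rintro p ⟨⟨h1, h2⟩, -⟩
    exact ⟨Ioo_subset_Icc_self h1, Ioo_subset_Icc_self h2⟩
  have h := integral2_divergence_prod_of_hasFDerivAt_off_countable (fF V) (gF V)
    (fderiv ℝ (fF V)) (fderiv ℝ (gF V)) (-(1 / 2)) 0 (1 / 2) n ∅ countable_empty
    (fun p hp => (contDiffAt_fF hV (box_mem hp).2.1
      (box_mem hp).2.2.2).continuousAt.continuousWithinAt)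
    (fun p hp => (contDiffAt_gF hV (box_mem hp).2.1
      (box_mem hp).2.2.2).continuousAt.continuousWithinAt)
    (fun p hp => ((contDiffAt_fF hV (box_mem (hsub p hp)).2.1
      (box_mem (hsub p hp)).2.2.2).differentiableAt (by simp)).hasFDerivAt)
    (fun p hp => ((contDiffAt_gF hV (box_mem (hsub p hp)).2.1
      (box_mem (hsub p hp)).2.2.2).differentiableAt (by simp)).hasFDerivAt)
    ((hcont.integrableOn_compact hK).congr_fun (fun p hp => (heq p hp).symm)
      hK.isClosed.measurableSet)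
  rw [← h]
  apply intervalIntegral.integral_congr
  intro x hx
  apply intervalIntegral.integral_congr
  intro s hs
  exact (heq (x, s) ⟨hx, hs⟩).symm

/-! ### boundary terms -/

lemma side (hT : ∀ τ ∈ H0, V (τ + 1) = V τ) {s : ℝ} (hs : 0 ≤ s) :
    fF V (1 / 2, s) = fF V (-(1 / 2), s) := by
  have h1 : pp (1 / 2, s) = pp (-(1 / 2), s) + 1 := by
    apply Complex.ext
    · rw [Complex.add_re, pp_re, pp_re, Complex.one_re]; norm_num
    · rw [Complex.add_im, pp_im, pp_im, Complex.one_im]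
      simp only [yy_neg, add_zero]
  have h2 : pp (-(1 / 2), s) ∈ H0 := by
    change 0 < (pp (-(1 / 2), s)).im
    rw [pp_im]
    have : (1 : ℝ) / 2 ≤ yy (-(1 / 2)) := half_le_yy (by rw [abs_neg, abs_of_pos] <;> norm_num)
    change 0 < yy (-(1 / 2)) + s
    linarith
  unfold fF UU
  rw [h1, hT _ h2, Complex.add_im, Complex.one_im, add_zero]

lemma arc_odd (hS : ∀ τ ∈ H0, V (-τ⁻¹) = conj τ / τ * V τ) {x : ℝ} (hx : |x| < 1) :
    gF V (-x, 0) = -gF V (x, 0) := by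
  have hy := yy_pos hx
  have hy2 := yy_sq hx
  set τ : ℂ := pp (x, 0) with hτ
  have hre : τ.re = x := pp_re _
  have him : τ.im = yy x := by rw [hτ, pp_im]; simp
  have hτ0 : τ ∈ H0 := by
    change 0 < τ.im
    rw [him]; exact hy
  have hne : τ ≠ 0 := by
    intro h
    rw [h] at him
    simp at him
    linarith
  have hns : Complex.normSq τ = 1 := by
    rw [Complex.normSq_apply, hre, him]; nlinarith
  have hinv : τ⁻¹ = conj τ := by
    rw [Complex.inv_def, hns]; simp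
  have h1 : pp (-x, 0) = -τ⁻¹ := by
    rw [hinv]
    apply Complex.ext
    · rw [pp_re]; simp [hre]
    · rw [pp_im]; simp [him, yy_neg]
  have h2 : V (pp (-x, 0)) = conj τ / τ * V τ := by rw [h1, hS τ hτ0]
  have him2 : (pp (-x, 0)).im = yy x := by rw [pp_im]; simp [yy_neg]
  have hyc : ((yy x : ℝ) : ℂ) ≠ 0 := by exact_mod_cast hy.ne'
  have hτe : τ = (x : ℂ) + (yy x : ℂ) * Complex.I := by
    apply Complex.ext <;> simp [hre, him]
  have hτc : conj τ = (x : ℂ) - (yy x : ℂ) * Complex.I := by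
    apply Complex.ext <;> simp [hre, him]
  unfold gF UU
  rw [h2, him2]
  simp only [← hτ, him, yy_neg, Complex.real_smul]
  push_cast
  rw [hτc]
  have h3 : (τ : ℂ)⁻¹ = (x : ℂ) - (yy x : ℂ) * Complex.I := by rw [hinv, hτc]
  have h4 : ((x : ℂ) - (yy x : ℂ) * Complex.I) * ((x : ℂ) + (yy x : ℂ) * Complex.I) = 1 := by
    rw [← h3, ← hτe]
    exact inv_mul_cancel₀ hne
  rw [div_eq_mul_inv ((x : ℂ) - (yy x : ℂ) * Complex.I) τ, h3]
  have h5 : (1 + Complex.I * (-(x : ℂ) / (yy x : ℂ))) =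
      -(Complex.I * ((x : ℂ) + (yy x : ℂ) * Complex.I)) / (yy x : ℂ) := by
    field_simp
    linear_combination (yy x : ℂ) * Complex.I_sq
  have h6 : (1 + Complex.I * ((x : ℂ) / (yy x : ℂ))) =
      (Complex.I * ((x : ℂ) - (yy x : ℂ) * Complex.I)) / (yy x : ℂ) := by
    field_simp
    linear_combination ((yy x : ℂ)) * Complex.I_sq
  rw [h5, h6]
  linear_combination (-(Complex.I * ((x : ℂ) - (yy x : ℂ) * Complex.I) / (yy x : ℂ) *
    (yy x : ℂ)⁻¹ * V τ)) * h4

lemma arc_zero (hS : ∀ τ ∈ H0, V (-τ⁻¹) = conj τ / τ * V τ) :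
    ∫ x in (-(1 / 2) : ℝ)..(1 / 2), gF V (x, 0) = 0 := by
  have h1 := intervalIntegral.integral_comp_neg (a := (-(1 / 2) : ℝ)) (b := 1 / 2)
    (fun x => gF V (x, 0))
  rw [neg_neg] at h1
  have h2 : ∫ x in (-(1 / 2) : ℝ)..(1 / 2), gF V (-x, 0) =
      ∫ x in (-(1 / 2) : ℝ)..(1 / 2), -gF V (x, 0) := by
    apply intervalIntegral.integral_congr
    intro x hx
    rw [uIcc_of_le (by norm_num)] at hx
    have : |x| ≤ 1 / 2 := abs_le.2 hx
    exact arc_odd hS (by linarith)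
  rw [h2, intervalIntegral.integral_neg] at h1
  linear_combination (-(1 / 2 : ℂ)) * h1

lemma top_bound {C : ℝ} (hC : ∀ τ ∈ H0, 1 / 2 ≤ τ.im → ‖V τ‖ ≤ C) (n : ℕ) (hn : 1 ≤ n) :
    ‖∫ x in (-(1 / 2) : ℝ)..(1 / 2), gF V (x, n)‖ ≤ 2 * C * (n : ℝ)⁻¹ := by
  have hn' : (1 : ℝ) ≤ n := by exact_mod_cast hn
  have h1 := intervalIntegral.norm_integral_le_of_norm_le_const (a := (-(1 / 2) : ℝ)) (b := 1 / 2)
    (f := fun x => gF V (x, n)) (C := 2 * C * (n : ℝ)⁻¹) (by
      intro x hx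
      rw [uIoc_of_le (by norm_num)] at hx
      have hx1 : |x| ≤ 1 / 2 := abs_le.2 ⟨hx.1.le, hx.2⟩
      have hx2 : |x| < 1 := by linarith
      have hy := half_le_yy hx1
      have him : (pp (x, (n : ℝ))).im = yy x + n := pp_im _
      have hz : pp (x, (n : ℝ)) ∈ H0 := by
        change 0 < (pp (x, (n : ℝ))).im
        rw [him]; linarith
      have hb := hC _ hz (by rw [him]; linarith)
      unfold gF UU
      rw [norm_mul, norm_smul, him]
      have h2 : ‖(1 + Complex.I * ((x / yy x : ℝ) : ℂ))‖ ≤ 2 := by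
        refine (norm_add_le _ _).trans ?_
        rw [norm_one, norm_mul, Complex.norm_I, one_mul, Complex.norm_real, Real.norm_eq_abs,
          abs_div, abs_of_pos (yy_pos hx2)]
        have : |x| / yy x ≤ 1 := by
          rw [div_le_one (yy_pos hx2)]; linarith
        linarith
      have h3 : ‖(yy x + n)⁻¹‖ ≤ (n : ℝ)⁻¹ := by
        rw [Real.norm_eq_abs, abs_of_pos (by positivity)]
        apply inv_anti₀ <;> linarith
      calc ‖(1 + Complex.I * ((x / yy x : ℝ) : ℂ))‖ * (‖(yy x + n)⁻¹‖ * ‖V (pp (x, (n : ℝ)))‖)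
          ≤ 2 * ((n : ℝ)⁻¹ * C) := by
            apply mul_le_mul h2 (mul_le_mul h3 hb (norm_nonneg _) (by positivity))
              (by positivity) (by norm_num)
        _ = 2 * C * (n : ℝ)⁻¹ := by ring)
  refine h1.trans (le_of_eq ?_)
  norm_num

end IBPM

open IBPM in
theorem stmtIBP : StmtIBP := by
  intro V hV hT hS ⟨C, hC⟩
  have h0 : ∫ z in ModularGroup.fdo, (Complex.I * (z.im : ℂ) * dz V z - V z) =
      ∫ z in X.O, Phi V z := fdo_int (fun z => Complex.I * (z.im : ℂ) * dz V z - V z)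
  rw [h0, O_int]
  by_cases hi : IntegrableOn (fun p => Phi V (toC p)) RR0
  · have h1 := tendsto_setIntegral_of_monotone (f := fun p => Phi V (toC p)) measurableSet_Rn
      mono_Rn (by rw [iUnion_Rn]; exact hi)
    rw [iUnion_Rn] at h1
    have h2 : ∀ n : ℕ, ∫ p in Rn n, Phi V (toC p) =
        ∫ x in (-(1 / 2) : ℝ)..(1 / 2), gF V (x, n) := by
      intro n
      have h3 : Rn n ⊆ RR0 := fun p hp => ⟨hp.1, hp.2.1⟩
      rw [Rn_int n _ (hi.mono_set h3)]
      have h4 := divergence hV n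
      have h5 : ∫ s in (0 : ℝ)..n, fF V (1 / 2, s) = ∫ s in (0 : ℝ)..n, fF V (-(1 / 2), s) := by
        apply intervalIntegral.integral_congr
        intro s hs
        rw [uIcc_of_le (by simp)] at hs
        exact side hT hs.1
      rw [arc_zero hS, h5, sub_zero, add_sub_cancel_right] at h4
      exact h4
    have h6 : Tendsto (fun n : ℕ => ∫ x in (-(1 / 2) : ℝ)..(1 / 2), gF V (x, n)) atTop (𝓝 0) := by
      rw [tendsto_zero_iff_norm_tendsto_zero]
      have h7 : Tendsto (fun n : ℕ => 2 * C * (n : ℝ)⁻¹) atTop (𝓝 0) := by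
        have := (tendsto_inv_atTop_nhds_zero_nat (𝕜 := ℝ)).const_mul (2 * C)
        simpa using this
      refine squeeze_zero' (Eventually.of_forall fun n => norm_nonneg _) ?_ h7
      filter_upwards [eventually_ge_atTop 1] with n hn
      exact top_bound (fun τ h1 h2 => (hC τ h1 h2).1) n hn
    simp_rw [h2] at h1
    exact tendsto_nhds_unique h1 h6
  · exact integral_undef hi

end

end Pool.Agent.A54.Av
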