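import Pool.Agent.Lib.MP_a54f13_nt.Av.SpecA

set_option autoImplicit false

namespace Pool.Agent.A54.Av.KBfM

open MeasureTheory Filter Topology Set

noncomputable section

/-- the integrand -/
def Jf (t : ℝ) (n : ℕ) (X u : ℝ) : ℝ :=
  Real.cosh u ^ n * (Real.exp (-(X * Real.cosh u)) * Real.cos (t * u))

/-- the integral -/
def JJ (t : ℝ) (n : ℕ) (X : ℝ) : ℝ := ∫ u in Ioi (0 : ℝ), Jf t n X u

lemma cosh_eq (u : ℝ) : Real.cosh u = 1 + 2 * Real.sinh (u / 2) ^ 2 := by
  have h1 := Real.cosh_two_mul (u / 2)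
  have h2 := Real.cosh_sq (u / 2)
  have h3 : 2 * (u / 2) = u := by ring
  rw [h3] at h1
  linarith

lemma sinh_sq_ge (w : ℝ) : w ^ 2 ≤ Real.sinh w ^ 2 := by
  rcases le_total 0 w with hw | hw
  · exact pow_le_pow_left₀ hw (Real.self_le_sinh_iff.2 hw) 2
  · have h := Real.self_le_sinh_iff.2 (by linarith : 0 ≤ -w)
    rw [Real.sinh_neg] at h
    nlinarith

lemma cosh_ge (u : ℝ) : 1 + u ^ 2 / 2 ≤ Real.cosh u := by
  have h1 := cosh_eq u
  have h2 := sinh_sq_ge (u / 2)
  nlinarith

lemma cosh_ge_self (u : ℝ) : u ≤ Real.cosh u := by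
  nlinarith [cosh_ge u, sq_nonneg (u - 1)]

lemma pow_exp_le (n : ℕ) {X y : ℝ} (hX : 0 < X) (hy : 0 ≤ y) :
    y ^ n * Real.exp (-(X * y)) ≤ n.factorial * (2 / X) ^ n * Real.exp (-(X / 2 * y)) := by
  have h1 : (X / 2 * y) ^ n / n.factorial ≤ Real.exp (X / 2 * y) :=
    Real.pow_div_factorial_le_exp _ (by positivity) n
  have h2 : (0 : ℝ) < n.factorial := by exact_mod_cast n.factorial_pos
  rw [div_le_iff₀ h2] at h1
  have h3 : y ^ n ≤ n.factorial * (2 / X) ^ n * Real.exp (X / 2 * y) := by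
    have h4 : y ^ n = (2 / X) ^ n * (X / 2 * y) ^ n := by
      rw [← mul_pow]
      congr 1
      field_simp
    rw [h4]
    calc (2 / X) ^ n * (X / 2 * y) ^ n
        ≤ (2 / X) ^ n * (Real.exp (X / 2 * y) * n.factorial) :=
          mul_le_mul_of_nonneg_left h1 (by positivity)
      _ = _ := by ring
  calc y ^ n * Real.exp (-(X * y))
      ≤ (n.factorial * (2 / X) ^ n * Real.exp (X / 2 * y)) * Real.exp (-(X * y)) :=
        mul_le_mul_of_nonneg_right h3 (Real.exp_pos _).le
    _ = n.factorial * (2 / X) ^ n * (Real.exp (X / 2 * y) * Real.exp (-(X * y))) := by ring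
    _ = _ := by
        rw [← Real.exp_add]
        congr 2
        ring

lemma Jf_abs_le (t : ℝ) (n : ℕ) (X u : ℝ) :
    |Jf t n X u| ≤ Real.cosh u ^ n * Real.exp (-(X * Real.cosh u)) := by
  unfold Jf
  have h1 : 0 ≤ Real.cosh u ^ n * Real.exp (-(X * Real.cosh u)) := by positivity
  rw [← mul_assoc, abs_mul, abs_of_nonneg h1]
  exact mul_le_of_le_one_right h1 (Real.abs_cos_le_one _)

lemma Jf_bound (t : ℝ) (n : ℕ) {X : ℝ} (hX : 0 < X) (u : ℝ) :
    |Jf t n X u| ≤ n.factorial * (2 / X) ^ n * Real.exp (-(X / 2) * u) := by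
  refine (Jf_abs_le t n X u).trans ((pow_exp_le n hX (Real.cosh_pos u).le).trans ?_)
  refine mul_le_mul_of_nonneg_left (Real.exp_le_exp.2 ?_) (by positivity)
  have := mul_le_mul_of_nonneg_left (cosh_ge_self u) (by positivity : 0 ≤ X / 2)
  linarith

lemma Jf_cont (t : ℝ) (n : ℕ) (X : ℝ) : Continuous (Jf t n X) := by
  unfold Jf
  have := Real.continuous_cosh
  fun_prop

lemma Jf_int (t : ℝ) (n : ℕ) {X : ℝ} (hX : 0 < X) : IntegrableOn (Jf t n X) (Ioi 0) := by
  have h1 : IntegrableOn (fun u : ℝ => n.factorial * (2 / X) ^ n * Real.exp (-(X / 2) * u))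
      (Ioi 0) := (exp_neg_integrableOn_Ioi 0 (by positivity : 0 < X / 2)).const_mul _
  exact Integrable.mono' h1 (Jf_cont t n X).aestronglyMeasurable
    (ae_of_all _ fun u => by
      rw [Real.norm_eq_abs]
      exact Jf_bound t n hX u)

lemma JJ_deriv (t : ℝ) (n : ℕ) {X : ℝ} (hX : 0 < X) :
    HasDerivAt (JJ t n) (-(JJ t (n + 1) X)) X := by
  have hs : Ioi (X / 2) ∈ 𝓝 X := Ioi_mem_nhds (by linarith)
  have key := hasDerivAt_integral_of_dominated_loc_of_deriv_le (μ := volume.restrict (Ioi (0 : ℝ)))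
    (F := fun x u => Jf t n x u) (F' := fun x u => -Jf t (n + 1) x u) (x₀ := X)
    (bound := fun u => Jf 0 (n + 1) (X / 2) u) hs
    (Eventually.of_forall fun x => (Jf_cont t n x).aestronglyMeasurable)
    (Jf_int t n hX) ((Jf_cont t (n + 1) X).neg.aestronglyMeasurable)
    (ae_of_all _ ?_) (Jf_int 0 (n + 1) (by positivity)) (ae_of_all _ ?_)
  · have h := key.2
    rw [integral_neg] at h
    exact h
  · intro u x hx
    rw [norm_neg, Real.norm_eq_abs]
    refine (Jf_abs_le t (n + 1) x u).trans ?_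
    unfold Jf
    rw [zero_mul, Real.cos_zero, mul_one]
    refine mul_le_mul_of_nonneg_left (Real.exp_le_exp.2 ?_) (by positivity)
    have := mul_le_mul_of_nonneg_right (le_of_lt (mem_Ioi.1 hx)) (Real.cosh_pos u).le
    linarith
  · intro u x hx
    have h1 : HasDerivAt (fun x : ℝ => -(x * Real.cosh u)) (-(1 * Real.cosh u)) x :=
      ((hasDerivAt_id x).mul_const _).neg
    have h2 := ((h1.exp).mul_const (Real.cos (t * u))).const_mul (Real.cosh u ^ n)
    refine h2.congr_deriv ?_
    unfold Jf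
    ring

lemma ode (t : ℝ) {X : ℝ} (hX : 0 < X) :
    X ^ 2 * JJ t 2 X + (t ^ 2 - X ^ 2) * JJ t 0 X - X * JJ t 1 X = 0 := by
  have hder : ∀ u ∈ Ici (0 : ℝ), HasDerivAt (fun u : ℝ =>
      -(X * Real.sinh u) * Real.exp (-(X * Real.cosh u)) * Real.cos (t * u) +
        t * Real.exp (-(X * Real.cosh u)) * Real.sin (t * u))
      (X ^ 2 * Jf t 2 X u + (t ^ 2 - X ^ 2) * Jf t 0 X u - X * Jf t 1 X u) u := by
    intro u _
    have hc : HasDerivAt (fun u : ℝ => -(X * Real.cosh u)) (-(X * Real.sinh u)) u :=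
      ((Real.hasDerivAt_cosh u).const_mul X).neg
    have hs : HasDerivAt (fun u : ℝ => -(X * Real.sinh u)) (-(X * Real.cosh u)) u :=
      ((Real.hasDerivAt_sinh u).const_mul X).neg
    have ht : HasDerivAt (fun u : ℝ => t * u) (t * 1) u := (hasDerivAt_id u).const_mul t
    have h1 := (hs.mul hc.exp).mul ht.cos
    have h2 := (hc.exp.const_mul t).mul ht.sin
    refine (h1.add h2).congr_deriv ?_
    unfold Jf
    have h3 : Real.sinh u ^ 2 = Real.cosh u ^ 2 - 1 := by
      have := Real.cosh_sq u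
      linarith
    simp only [Pi.mul_apply]
    linear_combination (X ^ 2 * Real.exp (-(X * Real.cosh u)) * Real.cos (t * u)) * h3
  have hint : IntegrableOn (fun u => X ^ 2 * Jf t 2 X u + (t ^ 2 - X ^ 2) * Jf t 0 X u -
      X * Jf t 1 X u) (Ioi 0) :=
    (((Jf_int t 2 hX).const_mul _).add ((Jf_int t 0 hX).const_mul _)).sub
      ((Jf_int t 1 hX).const_mul _)
  have hlim : Tendsto (fun u : ℝ =>
      -(X * Real.sinh u) * Real.exp (-(X * Real.cosh u)) * Real.cos (t * u) +
        t * Real.exp (-(X * Real.cosh u)) * Real.sin (t * u)) atTop (𝓝 0) := by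
    have h0 : Tendsto (fun u : ℝ => (2 + |t|) * Real.exp (-(X / 2) * u)) atTop (𝓝 0) := by
      have h1 : Tendsto (fun u : ℝ => -(X / 2) * u) atTop atBot :=
        (tendsto_id).const_mul_atTop_of_neg (by linarith)
      have h2 := (Real.tendsto_exp_atBot.comp h1).const_mul (2 + |t|)
      rw [mul_zero] at h2
      exact h2
    refine squeeze_zero_norm (fun u => ?_) h0
    rw [Real.norm_eq_abs]
    have hcp := Real.cosh_pos u
    have hsc : |Real.sinh u| ≤ Real.cosh u := by
      have := Real.cosh_sq u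
      exact abs_le_of_sq_le_sq (by linarith) hcp.le
    have he : Real.exp (-(X * Real.cosh u)) ≤ Real.exp (-(X / 2) * u) := by
      refine Real.exp_le_exp.2 ?_
      have := mul_le_mul_of_nonneg_left (cosh_ge_self u) (by positivity : 0 ≤ X / 2)
      have := mul_pos hX hcp
      linarith
    have he2 : X * Real.cosh u * Real.exp (-(X * Real.cosh u)) ≤
        2 * Real.exp (-(X / 2) * u) := by
      have h1 := pow_exp_le 1 hX hcp.le
      rw [Nat.factorial_one, pow_one, pow_one, Nat.cast_one, one_mul] at h1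
      have h2 : X * Real.cosh u * Real.exp (-(X * Real.cosh u)) ≤
          2 * Real.exp (-(X / 2 * Real.cosh u)) := by
        calc X * Real.cosh u * Real.exp (-(X * Real.cosh u))
            = X * (Real.cosh u * Real.exp (-(X * Real.cosh u))) := by ring
          _ ≤ X * (2 / X * Real.exp (-(X / 2 * Real.cosh u))) :=
              mul_le_mul_of_nonneg_left h1 hX.le
          _ = _ := by field_simp
      refine h2.trans (mul_le_mul_of_nonneg_left (Real.exp_le_exp.2 ?_) (by norm_num))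
      have := mul_le_mul_of_nonneg_left (cosh_ge_self u) (by positivity : 0 ≤ X / 2)
      linarith
    calc |-(X * Real.sinh u) * Real.exp (-(X * Real.cosh u)) * Real.cos (t * u) +
          t * Real.exp (-(X * Real.cosh u)) * Real.sin (t * u)|
        ≤ |-(X * Real.sinh u) * Real.exp (-(X * Real.cosh u)) * Real.cos (t * u)| +
          |t * Real.exp (-(X * Real.cosh u)) * Real.sin (t * u)| := abs_add_le _ _
      _ = X * |Real.sinh u| * Real.exp (-(X * Real.cosh u)) * |Real.cos (t * u)| +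
          |t| * Real.exp (-(X * Real.cosh u)) * |Real.sin (t * u)| := by
            rw [abs_mul, abs_mul, abs_mul, abs_mul, abs_neg, abs_mul, abs_of_pos hX,
              abs_of_pos (Real.exp_pos _)]
      _ ≤ X * Real.cosh u * Real.exp (-(X * Real.cosh u)) * 1 +
          |t| * Real.exp (-(X / 2) * u) * 1 := by
            have hsn := Real.abs_sin_le_one (t * u)
            have hcs := Real.abs_cos_le_one (t * u)
            gcongr
      _ ≤ (2 + |t|) * Real.exp (-(X / 2) * u) := by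
            rw [mul_one, mul_one]
            nlinarith
  have h := integral_Ioi_of_hasDerivAt_of_tendsto' hder hint hlim
  have h01 : IntegrableOn (fun u => X ^ 2 * Jf t 2 X u + (t ^ 2 - X ^ 2) * Jf t 0 X u)
      (Ioi 0) := ((Jf_int t 2 hX).const_mul _).add ((Jf_int t 0 hX).const_mul _)
  rw [integral_sub h01 ((Jf_int t 1 hX).const_mul _), integral_add ((Jf_int t 2 hX).const_mul _)
    ((Jf_int t 0 hX).const_mul _), integral_const_mul, integral_const_mul,
    integral_const_mul] at h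
  unfold JJ
  rw [h]
  simp

lemma KB_eq (t X : ℝ) : KB t X = JJ t 0 X := by
  unfold KB JJ Jf
  simp only [pow_zero, one_mul]

lemma KB1_eq (t X : ℝ) : KB1 t X = -JJ t 1 X := by
  unfold KB1 JJ Jf
  simp only [pow_one]

lemma KB_bound (t : ℝ) {X : ℝ} (hX : 0 < X) :
    |KB t X| ≤ √(Real.pi / (2 * X)) * Real.exp (-X) := by
  rw [KB_eq]
  have h1 : |JJ t 0 X| ≤ ∫ u in Ioi (0 : ℝ), Real.exp (-X) * Real.exp (-(X / 2) * u ^ 2) := by
    unfold JJ
    rw [← Real.norm_eq_abs]
    refine norm_integral_le_of_norm_le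
      ((integrable_exp_neg_mul_sq (by positivity : 0 < X / 2)).integrableOn.const_mul _)
      (ae_of_all _ fun u => ?_)
    rw [Real.norm_eq_abs, ← Real.exp_add]
    refine (Jf_abs_le t 0 X u).trans ?_
    rw [pow_zero, one_mul]
    refine Real.exp_le_exp.2 ?_
    have := mul_le_mul_of_nonneg_left (cosh_ge u) hX.le
    linarith
  refine h1.trans (le_of_eq ?_)
  rw [integral_const_mul, integral_gaussian_Ioi, mul_comm]
  congr 1
  rw [show Real.pi / (X / 2) = (Real.pi / (2 * X)) * 2 ^ 2 by field_simp,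
    Real.sqrt_mul (by positivity), Real.sqrt_sq (by norm_num)]
  ring

lemma KB1_bound (t : ℝ) {X : ℝ} (hX : 0 < X) :
    |KB1 t X| ≤ 2 / X * Real.exp (-(X / 2)) := by
  rw [KB1_eq, abs_neg]
  have hder : ∀ u ∈ Ici (0 : ℝ), HasDerivAt
      (fun u : ℝ => -(2 / X) * Real.exp (-(X / 2 * Real.exp u)))
      (Real.exp u * Real.exp (-(X / 2 * Real.exp u))) u := by
    intro u _
    have h1 : HasDerivAt (fun u : ℝ => -(X / 2 * Real.exp u)) (-(X / 2 * Real.exp u)) u :=
      ((Real.hasDerivAt_exp u).const_mul _).neg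
    refine (h1.exp.const_mul (-(2 / X))).congr_deriv ?_
    field_simp
  have hpos : ∀ u ∈ Ioi (0 : ℝ), 0 ≤ Real.exp u * Real.exp (-(X / 2 * Real.exp u)) :=
    fun u _ => by positivity
  have hlim : Tendsto (fun u : ℝ => -(2 / X) * Real.exp (-(X / 2 * Real.exp u))) atTop
      (𝓝 0) := by
    have h1 : Tendsto (fun u : ℝ => X / 2 * Real.exp u) atTop atTop :=
      Real.tendsto_exp_atTop.const_mul_atTop (by positivity)
    have h2 := (Real.tendsto_exp_neg_atTop_nhds_zero.comp h1).const_mul (-(2 / X))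
    rw [mul_zero] at h2
    exact h2
  have hI := integral_Ioi_of_hasDerivAt_of_nonneg' hder hpos hlim
  have hint := integrableOn_Ioi_deriv_of_nonneg' hder hpos hlim
  have h1 : |JJ t 1 X| ≤ ∫ u in Ioi (0 : ℝ), Real.exp u * Real.exp (-(X / 2 * Real.exp u)) := by
    unfold JJ
    rw [← Real.norm_eq_abs]
    refine norm_integral_le_of_norm_le hint
      ((ae_restrict_iff' measurableSet_Ioi).2 (ae_of_all _ fun u hu => ?_))
    rw [Real.norm_eq_abs]
    refine (Jf_abs_le t 1 X u).trans ?_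
    rw [pow_one]
    have hu0 : 0 < u := hu
    have hc1 : Real.cosh u ≤ Real.exp u := by
      rw [Real.cosh_eq]
      have : Real.exp (-u) ≤ Real.exp u := Real.exp_le_exp.2 (by linarith)
      linarith
    have hc2 : Real.exp u / 2 ≤ Real.cosh u := by
      rw [Real.cosh_eq]
      have := Real.exp_pos (-u)
      linarith
    have he : Real.exp (-(X * Real.cosh u)) ≤ Real.exp (-(X / 2 * Real.exp u)) := by
      refine Real.exp_le_exp.2 ?_
      have := mul_le_mul_of_nonneg_left hc2 hX.le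
      linarith
    have := Real.cosh_pos u
    gcongr
  refine h1.trans (le_of_eq ?_)
  rw [hI, Real.exp_zero, mul_one]
  ring

lemma KB_lim (t : ℝ) :
    Tendsto (fun X => √X * Real.exp X * KB t X) atTop (𝓝 (√(Real.pi / 2))) := by
  have hval : √(Real.pi / 2) = ∫ v in Ioi (0 : ℝ), Real.exp (-(1 / 2) * v ^ 2) := by
    rw [integral_gaussian_Ioi, show Real.pi / (1 / 2) = (Real.pi / 2) * 2 ^ 2 by ring,
      Real.sqrt_mul (by positivity), Real.sqrt_sq (by norm_num)]
    ring
  have heq : ∀ᶠ X : ℝ in atTop, ∫ v in Ioi (0 : ℝ),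
      Real.exp (-(2 * (√X * Real.sinh ((√X)⁻¹ * (v / 2))) ^ 2)) * Real.cos (t * ((√X)⁻¹ * v)) =
      √X * Real.exp X * KB t X := by
    filter_upwards [eventually_gt_atTop 0] with X hX
    have hs : 0 < √X := Real.sqrt_pos.2 hX
    have hcv := integral_comp_mul_left_Ioi
      (fun u : ℝ => Real.exp (-(X * (Real.cosh u - 1))) * Real.cos (t * u)) 0
      (inv_pos.2 hs)
    rw [mul_zero, inv_inv, smul_eq_mul] at hcv
    have h1 : ∫ v in Ioi (0 : ℝ),
        Real.exp (-(2 * (√X * Real.sinh ((√X)⁻¹ * (v / 2))) ^ 2)) *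
          Real.cos (t * ((√X)⁻¹ * v)) =
        ∫ v in Ioi (0 : ℝ), Real.exp (-(X * (Real.cosh ((√X)⁻¹ * v) - 1))) *
          Real.cos (t * ((√X)⁻¹ * v)) := by
      congr 1
      ext v
      congr 3
      rw [cosh_eq, mul_pow, Real.sq_sqrt hX.le, show (√X)⁻¹ * v / 2 = (√X)⁻¹ * (v / 2) by ring]
      ring
    rw [h1, hcv, mul_assoc]
    congr 1
    unfold KB
    rw [← integral_const_mul]
    congr 1
    ext u
    rw [← mul_assoc, ← Real.exp_add]
    congr 2
    ring
  refine Tendsto.congr' heq ?_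
  rw [hval]
  refine tendsto_integral_filter_of_dominated_convergence
    (fun v => Real.exp (-(1 / 2) * v ^ 2)) ?_ ?_
    (integrable_exp_neg_mul_sq (by norm_num)).integrableOn ?_
  · refine Eventually.of_forall fun X => Continuous.aestronglyMeasurable ?_
    have := Real.continuous_sinh
    fun_prop
  · filter_upwards [eventually_gt_atTop 0] with X hX
    refine ae_of_all _ fun v => ?_
    have hs : 0 < √X := Real.sqrt_pos.2 hX
    rw [norm_mul, Real.norm_eq_abs, Real.norm_eq_abs, abs_of_pos (Real.exp_pos _)]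
    refine (mul_le_of_le_one_right (Real.exp_pos _).le (Real.abs_cos_le_one _)).trans ?_
    refine Real.exp_le_exp.2 ?_
    have h1 := sinh_sq_ge ((√X)⁻¹ * (v / 2))
    have h2 : (√X * Real.sinh ((√X)⁻¹ * (v / 2))) ^ 2 =
        √X ^ 2 * Real.sinh ((√X)⁻¹ * (v / 2)) ^ 2 := by ring
    have h3 : √X ^ 2 * ((√X)⁻¹ * (v / 2)) ^ 2 = v ^ 2 / 4 := by
      field_simp
      ring
    have h4 := mul_le_mul_of_nonneg_left h1 (by positivity : 0 ≤ √X ^ 2)
    rw [h3] at h4
    rw [h2]
    linarith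
  · refine ae_of_all _ fun v => ?_
    have hinv : Tendsto (fun X : ℝ => (√X)⁻¹) atTop (𝓝 0) :=
      tendsto_inv_atTop_zero.comp Real.tendsto_sqrt_atTop
    have hcos : Tendsto (fun X : ℝ => Real.cos (t * ((√X)⁻¹ * v))) atTop (𝓝 1) := by
      have h1 : Tendsto (fun X : ℝ => t * ((√X)⁻¹ * v)) atTop (𝓝 (t * (0 * v))) :=
        (hinv.mul_const v).const_mul t
      rw [zero_mul, mul_zero] at h1
      have h2 := (Real.continuous_cos.tendsto 0).comp h1
      rw [Real.cos_zero] at h2
      exact h2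
    have hsinh : Tendsto (fun X : ℝ => √X * Real.sinh ((√X)⁻¹ * (v / 2))) atTop
        (𝓝 (v / 2)) := by
      have hd : HasDerivAt (fun h : ℝ => Real.sinh (h * (v / 2))) (v / 2) 0 := by
        have h1 : HasDerivAt (fun h : ℝ => h * (v / 2)) (1 * (v / 2)) 0 :=
          (hasDerivAt_id 0).mul_const _
        refine h1.sinh.congr_deriv ?_
        simp
      have hsl := hd.tendsto_slope
      have hin : Tendsto (fun X : ℝ => (√X)⁻¹) atTop (𝓝[≠] 0) := by
        refine tendsto_nhdsWithin_iff.2 ⟨hinv, ?_⟩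
        filter_upwards [eventually_gt_atTop 0] with X hX
        exact inv_ne_zero (Real.sqrt_pos.2 hX).ne'
      have h2 := hsl.comp hin
      refine h2.congr fun X => ?_
      simp [slope_def_field, div_eq_mul_inv, mul_comm]
    have hexp : Tendsto (fun X : ℝ =>
        Real.exp (-(2 * (√X * Real.sinh ((√X)⁻¹ * (v / 2))) ^ 2))) atTop
        (𝓝 (Real.exp (-(1 / 2) * v ^ 2))) := by
      have h1 := ((hsinh.pow 2).const_mul 2).neg
      have h2 := (Real.continuous_exp.tendsto _).comp h1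
      refine h2.congr' (Eventually.of_forall fun X => rfl) |>.trans (le_of_eq ?_)
      congr 2
      ring
    have := hexp.mul hcos
    rw [mul_one] at this
    exact this

end

end Pool.Agent.A54.Av.KBfM

namespace Pool.Agent.A54.Av

open KBfM

theorem stmtKBf : StmtKBf := by
  intro t
  have hK : KB t = JJ t 0 := funext fun X => KB_eq t X
  have hK1 : KB1 t = fun X => -JJ t 1 X := funext fun X => KB1_eq t X
  refine ⟨?_, ?_, fun X hX => KB_bound t hX, fun X hX => KB1_bound t hX, KB_lim t⟩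
  · intro X hX
    rw [hK, hK1]
    exact JJ_deriv t 0 hX
  · intro X hX
    rw [hK1, KB_eq]
    refine (JJ_deriv t 1 hX).neg.congr_deriv ?_
    have h := ode t hX
    have hX2 : X ^ 2 ≠ 0 := by positivity
    rw [eq_div_iff hX2]
    norm_num
    linarith
end Pool.Agent.A54.Av
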