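import Pool.Agent.Lib.MP_a54f13_nt.Av.SpecA

/-!
# Package `Av`: Laguerre recurrences (`StmtLg1`)
-/

set_option autoImplicit false

namespace Pool.Agent.A54.Av.Lg1M

open MeasureTheory Filter Topology Set
open scoped ContDiff ComplexConjugate UpperHalfPlane MatrixGroups ENNReal
open Pool.Agent.A54.Half (H0 qq ff hh)

noncomputable section

/-- the derivative of `lag k` -/
def lagd (k : ℕ) (X : ℝ) : ℝ :=
  ∑ j ∈ Finset.range (k + 1), (k.choose j : ℝ) * ((j : ℝ) * (-X) ^ (j - 1) * (-1)) /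
    (j.factorial : ℝ)

theorem hasDerivAt_lag (k : ℕ) (X : ℝ) : HasDerivAt (lag k) (lagd k X) X := by
  unfold lagd
  have h : lag k = fun X : ℝ => ∑ j ∈ Finset.range (k + 1),
      (k.choose j : ℝ) * (-X) ^ j / (j.factorial : ℝ) := by
    funext X
    rfl
  rw [h]
  refine HasDerivAt.fun_sum (fun j _ => ?_)
  have h1 : HasDerivAt (fun X : ℝ => -X) (-1) X := hasDerivAt_neg X
  have h2 := h1.pow j
  exact (h2.const_mul (k.choose j : ℝ)).div_const (j.factorial : ℝ)

theorem contDiff_lag (k : ℕ) : ContDiff ℝ ∞ (lag k) := by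
  have h : lag k = fun X : ℝ => ∑ j ∈ Finset.range (k + 1),
      (k.choose j : ℝ) * (-X) ^ j / (j.factorial : ℝ) := by
    funext X
    rfl
  rw [h]
  refine ContDiff.sum (fun j _ => ?_)
  exact ((contDiff_const.mul (contDiff_neg.pow j)).div_const _)

theorem mul_lagd (k : ℕ) (X : ℝ) :
    X * lagd k X = ((k : ℝ) + 1) * lag (k + 1) X - ((k : ℝ) + 1 - X) * lag k X := by
  have e1 : lag k X = ∑ j ∈ Finset.range (k + 2),
      (k.choose j : ℝ) * ((-X) ^ j / (j.factorial : ℝ)) := by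
    rw [Finset.sum_range_succ, Nat.choose_succ_self]
    unfold lag
    rw [Nat.cast_zero, zero_mul, add_zero]
    refine Finset.sum_congr rfl (fun j _ => ?_)
    ring
  have e2 : X * lagd k X = ∑ j ∈ Finset.range (k + 2),
      (j : ℝ) * (k.choose j : ℝ) * ((-X) ^ j / (j.factorial : ℝ)) := by
    rw [Finset.sum_range_succ, Nat.choose_succ_self]
    unfold lagd
    rw [Nat.cast_zero, mul_zero, zero_mul, add_zero, Finset.mul_sum]
    refine Finset.sum_congr rfl (fun j _ => ?_)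
    rcases j with _ | j
    · simp
    · rw [Nat.add_sub_cancel, pow_succ]
      ring
  have e3 : X * lag k X = - ∑ j ∈ Finset.range (k + 2),
      (j : ℝ) * (k.choose (j - 1) : ℝ) * ((-X) ^ j / (j.factorial : ℝ)) := by
    rw [Finset.sum_range_succ']
    unfold lag
    rw [Finset.mul_sum]
    simp only [Nat.cast_zero, zero_mul, add_zero, Nat.add_sub_cancel]
    rw [← Finset.sum_neg_distrib]
    refine Finset.sum_congr rfl (fun j _ => ?_)
    have hj : ((j.factorial : ℕ) : ℝ) ≠ 0 := by exact_mod_cast j.factorial_ne_zero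
    have hj1 : ((j : ℝ) + 1) ≠ 0 := by positivity
    rw [Nat.factorial_succ, pow_succ]
    push_cast
    field_simp
  have e4 : lag (k + 1) X = ∑ j ∈ Finset.range (k + 2),
      ((k + 1).choose j : ℝ) * ((-X) ^ j / (j.factorial : ℝ)) := by
    unfold lag
    refine Finset.sum_congr rfl (fun j _ => ?_)
    ring
  have e5 : ((k : ℝ) + 1 - X) * lag k X = ((k : ℝ) + 1) * lag k X - X * lag k X := by ring
  rw [e5, e3, e2, e4, e1, Finset.mul_sum, Finset.mul_sum, sub_neg_eq_add,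
    ← Finset.sum_add_distrib, ← Finset.sum_sub_distrib]
  refine Finset.sum_congr rfl (fun j _ => ?_)
  rcases j with _ | j
  · simp
  · have h1 : (((k + 1).choose (j + 1) : ℕ) : ℝ) = (k.choose j : ℝ) + (k.choose (j + 1) : ℝ) := by
      rw [Nat.choose_succ_succ]
      push_cast
      ring
    have h2 : ((k : ℝ) + 1) * (k.choose j : ℝ) = ((k + 1).choose (j + 1) : ℝ) * ((j : ℝ) + 1) := by
      exact_mod_cast Nat.add_one_mul_choose_eq k j
    rw [h1] at h2
    rw [h1, Nat.add_sub_cancel]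
    push_cast
    linear_combination ((-X) ^ (j + 1) / ((j + 1).factorial : ℝ)) * (-h2)

/-- the derivatives of `e(n τ) φ(im τ)` -/
theorem deriv_H (n : ℝ) (φ : ℝ → ℝ) (φ' : ℝ) (z : ℂ) (h : HasDerivAt φ φ' z.im) :
    fderiv ℝ (fun τ : ℂ => ee ((n : ℂ) * τ) * ((φ τ.im : ℝ) : ℂ)) z 1 =
      2 * (Real.pi : ℂ) * Complex.I * n * ee ((n : ℂ) * z) * ((φ z.im : ℝ) : ℂ) ∧
    fderiv ℝ (fun τ : ℂ => ee ((n : ℂ) * τ) * ((φ τ.im : ℝ) : ℂ)) z Complex.I =
      Complex.I * (2 * (Real.pi : ℂ) * Complex.I * n) * ee ((n : ℂ) * z) * ((φ z.im : ℝ) : ℂ) +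
        ee ((n : ℂ) * z) * (φ' : ℂ) := by
  have h1 : HasDerivAt (fun τ : ℂ => ee ((n : ℂ) * τ))
      (ee ((n : ℂ) * z) * (2 * (Real.pi : ℂ) * Complex.I * n)) z := by
    have h2 : HasDerivAt (fun τ : ℂ => 2 * (Real.pi : ℂ) * Complex.I * ((n : ℂ) * τ))
        (2 * (Real.pi : ℂ) * Complex.I * n) z := by
      have h3 := ((hasDerivAt_id z).const_mul (n : ℂ)).const_mul (2 * (Real.pi : ℂ) * Complex.I)
      simpa using h3
    exact h2.cexp
  have h4 := h1.hasFDerivAt.restrictScalars ℝ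
  have h5 : HasFDerivAt (fun τ : ℂ => φ τ.im) (φ' • Complex.imCLM) z :=
    h.comp_hasFDerivAt z Complex.imCLM.hasFDerivAt
  have h6 : HasFDerivAt (fun τ : ℂ => ((φ τ.im : ℝ) : ℂ))
      (Complex.ofRealCLM.comp (φ' • Complex.imCLM)) z :=
    Complex.ofRealCLM.hasFDerivAt.comp z h5
  have h7 := (h4.mul h6).fderiv
  have h8 : fderiv ℝ (fun τ : ℂ => ee ((n : ℂ) * τ) * ((φ τ.im : ℝ) : ℂ)) z = _ := h7
  rw [h8]
  constructor
  · simp
    ring
  · simp
    ring

theorem RR_H (k : ℕ) (n : ℝ) (φ : ℝ → ℝ) (φ' : ℝ) (z : ℂ) (h : HasDerivAt φ φ' z.im) :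
    RR k (fun τ : ℂ => ee ((n : ℂ) * τ) * ((φ τ.im : ℝ) : ℂ)) z =
      ee ((n : ℂ) * z) *
        ((z.im * φ' - 4 * Real.pi * n * z.im * φ z.im + k * φ z.im : ℝ) : ℂ) := by
  obtain ⟨h1, h2⟩ := deriv_H n φ φ' z h
  unfold RR dz
  rw [h1, h2]
  push_cast
  linear_combination (2 * (Real.pi : ℂ) * n * ee ((n : ℂ) * z) * ((φ z.im : ℝ) : ℂ) *
    (z.im : ℂ) * (2 - Complex.I ^ 2) - ee ((n : ℂ) * z) * (φ' : ℂ) * (z.im : ℂ)) * Complex.I_sq

theorem LL_H (k : ℕ) (n : ℝ) (φ : ℝ → ℝ) (φ' : ℝ) (z : ℂ) (h : HasDerivAt φ φ' z.im) :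
    LL k (fun τ : ℂ => ee ((n : ℂ) * τ) * ((φ τ.im : ℝ) : ℂ)) z =
      ee ((n : ℂ) * z) * ((z.im * φ' - k * φ z.im : ℝ) : ℂ) := by
  obtain ⟨h1, h2⟩ := deriv_H n φ φ' z h
  unfold LL dzb
  rw [h1, h2]
  push_cast
  linear_combination (-(2 * (Real.pi : ℂ) * n * ee ((n : ℂ) * z) * ((φ z.im : ℝ) : ℂ) *
    (z.im : ℂ) * Complex.I ^ 2) - ee ((n : ℂ) * z) * (φ' : ℂ) * (z.im : ℂ)) * Complex.I_sq

/-- the function `φ` of `c_k` -/
def phc (k : ℕ) (n V y : ℝ) : ℝ :=
  y * (Real.exp (-(4 * Real.pi * y * V)) * lag k (4 * Real.pi * y * (n + V)))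

/-- the function `φ` of `d_k` -/
def phd (k : ℕ) (n V y : ℝ) : ℝ :=
  y * (Real.exp (-(4 * Real.pi * y * V)) * ((k + 1) *
      ((4 * Real.pi * y * V - 1) * lag (k + 1) (4 * Real.pi * y * (n + V)) +
        lag k (4 * Real.pi * y * (n + V)))))

theorem ck_eq (k : ℕ) (n V : ℝ) :
    ck k n V = fun τ : ℂ => ee ((n : ℂ) * τ) * ((phc k n V τ.im : ℝ) : ℂ) := by
  funext τ
  unfold ck phc
  push_cast
  ring

theorem dk_eq (k : ℕ) (n V : ℝ) :
    dk k n V = fun τ : ℂ => ee ((n : ℂ) * τ) * ((phd k n V τ.im : ℝ) : ℂ) := by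
  funext τ
  unfold dk phd
  push_cast
  ring

theorem contDiff_H (n : ℝ) (φ : ℝ → ℝ) (h : ContDiff ℝ ∞ φ) :
    ContDiff ℝ ∞ (fun τ : ℂ => ee ((n : ℂ) * τ) * ((φ τ.im : ℝ) : ℂ)) := by
  have h1 : ContDiff ℝ ∞ (fun τ : ℂ => ee ((n : ℂ) * τ)) := by
    unfold ee
    exact (contDiff_const.mul (contDiff_const.mul contDiff_id)).cexp
  have h2 : ContDiff ℝ ∞ (fun τ : ℂ => ((φ τ.im : ℝ) : ℂ)) :=
    Complex.ofRealCLM.contDiff.comp (h.comp Complex.imCLM.contDiff)
  exact h1.mul h2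

theorem contDiff_phc (k : ℕ) (n V : ℝ) : ContDiff ℝ ∞ (phc k n V) := by
  have h1 : ContDiff ℝ ∞ (fun y : ℝ => lag k (4 * Real.pi * y * (n + V))) :=
    (contDiff_lag k).comp ((contDiff_const.mul contDiff_id).mul contDiff_const)
  have h2 : ContDiff ℝ ∞ (fun y : ℝ => Real.exp (-(4 * Real.pi * y * V))) :=
    ((contDiff_const.mul contDiff_id).mul contDiff_const).neg.exp
  exact contDiff_id.mul (h2.mul h1)

theorem contDiff_phd (k : ℕ) (n V : ℝ) : ContDiff ℝ ∞ (phd k n V) := by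
  have h1 : ∀ k, ContDiff ℝ ∞ (fun y : ℝ => lag k (4 * Real.pi * y * (n + V))) := fun k =>
    (contDiff_lag k).comp ((contDiff_const.mul contDiff_id).mul contDiff_const)
  have h2 : ContDiff ℝ ∞ (fun y : ℝ => Real.exp (-(4 * Real.pi * y * V))) :=
    ((contDiff_const.mul contDiff_id).mul contDiff_const).neg.exp
  have h3 : ContDiff ℝ ∞ (fun y : ℝ => 4 * Real.pi * y * V - 1) :=
    ((contDiff_const.mul contDiff_id).mul contDiff_const).sub contDiff_const
  exact contDiff_id.mul (h2.mul (contDiff_const.mul ((h3.mul (h1 (k + 1))).add (h1 k))))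

theorem hasDerivAt_exp (V y : ℝ) : HasDerivAt (fun y : ℝ => Real.exp (-(4 * Real.pi * y * V)))
    (Real.exp (-(4 * Real.pi * y * V)) * (-(4 * Real.pi * V))) y := by
  have h1 : HasDerivAt (fun y : ℝ => -(4 * Real.pi * y * V)) (-(4 * Real.pi * V)) y := by
    have h2 : HasDerivAt (fun y : ℝ => -(4 * Real.pi * y * V)) (-(4 * Real.pi * 1 * V)) y :=
      (((hasDerivAt_id y).const_mul (4 * Real.pi)).mul_const V).neg
    rw [mul_one] at h2
    exact h2
  exact h1.exp

theorem hasDerivAt_lagc (k : ℕ) (n V y : ℝ) :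
    HasDerivAt (fun y : ℝ => lag k (4 * Real.pi * y * (n + V)))
      (lagd k (4 * Real.pi * y * (n + V)) * (4 * Real.pi * (n + V))) y := by
  have h1 : HasDerivAt (fun y : ℝ => 4 * Real.pi * y * (n + V)) (4 * Real.pi * (n + V)) y := by
    have h2 := ((hasDerivAt_id y).const_mul (4 * Real.pi)).mul_const (n + V)
    simpa using h2
  exact (hasDerivAt_lag k _).comp y h1

theorem hasDerivAt_phc (k : ℕ) (n V y : ℝ) : HasDerivAt (phc k n V)
    (1 * (Real.exp (-(4 * Real.pi * y * V)) * lag k (4 * Real.pi * y * (n + V))) +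
      y * (Real.exp (-(4 * Real.pi * y * V)) * (-(4 * Real.pi * V)) *
        lag k (4 * Real.pi * y * (n + V)) + Real.exp (-(4 * Real.pi * y * V)) *
        (lagd k (4 * Real.pi * y * (n + V)) * (4 * Real.pi * (n + V))))) y :=
  (hasDerivAt_id y).mul ((hasDerivAt_exp V y).mul (hasDerivAt_lagc k n V y))

theorem hasDerivAt_phd (k : ℕ) (n V y : ℝ) : HasDerivAt (phd k n V)
    (1 * (Real.exp (-(4 * Real.pi * y * V)) * ((k + 1) *
      ((4 * Real.pi * y * V - 1) * lag (k + 1) (4 * Real.pi * y * (n + V)) +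
        lag k (4 * Real.pi * y * (n + V))))) +
      y * (Real.exp (-(4 * Real.pi * y * V)) * (-(4 * Real.pi * V)) * ((k + 1) *
      ((4 * Real.pi * y * V - 1) * lag (k + 1) (4 * Real.pi * y * (n + V)) +
        lag k (4 * Real.pi * y * (n + V)))) + Real.exp (-(4 * Real.pi * y * V)) *
        ((k + 1) * ((4 * Real.pi * V) * lag (k + 1) (4 * Real.pi * y * (n + V)) +
          (4 * Real.pi * y * V - 1) *
            (lagd (k + 1) (4 * Real.pi * y * (n + V)) * (4 * Real.pi * (n + V))) +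
          lagd k (4 * Real.pi * y * (n + V)) * (4 * Real.pi * (n + V)))))) y := by
  have h1 : HasDerivAt (fun y : ℝ => 4 * Real.pi * y * V - 1) (4 * Real.pi * V) y := by
    have h2 := (((hasDerivAt_id y).const_mul (4 * Real.pi)).mul_const V).sub_const 1
    simpa using h2
  exact (hasDerivAt_id y).mul ((hasDerivAt_exp V y).mul
    (((h1.mul (hasDerivAt_lagc (k + 1) n V y)).add (hasDerivAt_lagc k n V y)).const_mul
      ((k : ℝ) + 1)))

end

end Pool.Agent.A54.Av.Lg1M

namespace Pool.Agent.A54.Av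

open MeasureTheory Filter Topology Set
open scoped ContDiff ComplexConjugate UpperHalfPlane MatrixGroups ENNReal
open Pool.Agent.A54.Half (H0 qq ff hh)
open Lg1M

theorem stmtLg1 : StmtLg1 := by
  intro k n V
  refine ⟨?_, ?_, ?_, ?_, ?_⟩
  · rw [ck_eq]
    exact (contDiff_H n _ (contDiff_phc k n V)).contDiffOn
  · rw [dk_eq]
    exact (contDiff_H n _ (contDiff_phd k n V)).contDiffOn
  · intro z _
    rw [ck_eq k, ck_eq (k + 1), RR_H k n _ _ z (hasDerivAt_phc k n V z.im)]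
    have e := mul_lagd k (4 * Real.pi * z.im * (n + V))
    have key : z.im * (1 * (Real.exp (-(4 * Real.pi * z.im * V)) *
          lag k (4 * Real.pi * z.im * (n + V))) +
        z.im * (Real.exp (-(4 * Real.pi * z.im * V)) * (-(4 * Real.pi * V)) *
        lag k (4 * Real.pi * z.im * (n + V)) + Real.exp (-(4 * Real.pi * z.im * V)) *
        (lagd k (4 * Real.pi * z.im * (n + V)) * (4 * Real.pi * (n + V))))) -
        4 * Real.pi * n * z.im * phc k n V z.im + k * phc k n V z.im =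
        ((k : ℝ) + 1) * phc (k + 1) n V z.im := by
      unfold phc
      linear_combination (z.im * Real.exp (-(4 * Real.pi * z.im * V))) * e
    rw [key]
    push_cast
    ring
  · intro z _
    rw [dk_eq k, dk_eq (k + 1), RR_H k n _ _ z (hasDerivAt_phd k n V z.im)]
    have e := mul_lagd k (4 * Real.pi * z.im * (n + V))
    have e' := mul_lagd (k + 1) (4 * Real.pi * z.im * (n + V))
    push_cast at e'
    have key : z.im * (1 * (Real.exp (-(4 * Real.pi * z.im * V)) * ((k + 1) *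
          ((4 * Real.pi * z.im * V - 1) * lag (k + 1) (4 * Real.pi * z.im * (n + V)) +
            lag k (4 * Real.pi * z.im * (n + V))))) +
        z.im * (Real.exp (-(4 * Real.pi * z.im * V)) * (-(4 * Real.pi * V)) * ((k + 1) *
          ((4 * Real.pi * z.im * V - 1) * lag (k + 1) (4 * Real.pi * z.im * (n + V)) +
            lag k (4 * Real.pi * z.im * (n + V)))) + Real.exp (-(4 * Real.pi * z.im * V)) *
        ((k + 1) * ((4 * Real.pi * V) * lag (k + 1) (4 * Real.pi * z.im * (n + V)) +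
          (4 * Real.pi * z.im * V - 1) *
            (lagd (k + 1) (4 * Real.pi * z.im * (n + V)) * (4 * Real.pi * (n + V))) +
          lagd k (4 * Real.pi * z.im * (n + V)) * (4 * Real.pi * (n + V)))))) -
        4 * Real.pi * n * z.im * phd k n V z.im + k * phd k n V z.im =
        ((k : ℝ) + 1) * phd (k + 1) n V z.im := by
      unfold phd
      push_cast
      linear_combination (z.im * Real.exp (-(4 * Real.pi * z.im * V)) * ((k : ℝ) + 1)) * e +
        (z.im * Real.exp (-(4 * Real.pi * z.im * V)) * ((k : ℝ) + 1) *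
          (4 * Real.pi * z.im * V - 1)) * e'
    rw [key]
    push_cast
    ring
  · intro z _
    rw [ck_eq 1, dk_eq 0, LL_H 1 n _ _ z (hasDerivAt_phc 1 n V z.im)]
    have l0 : ∀ X : ℝ, lag 0 X = 1 := by
      intro X
      simp [lag]
    have l1 : ∀ X : ℝ, lag 1 X = 1 - X := by
      intro X
      simp [lag, Finset.sum_range_succ]
      ring
    have l1d : ∀ X : ℝ, lagd 1 X = -1 := by
      intro X
      simp [lagd, Finset.sum_range_succ]
    have key : z.im * (1 * (Real.exp (-(4 * Real.pi * z.im * V)) *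
          lag 1 (4 * Real.pi * z.im * (n + V))) +
        z.im * (Real.exp (-(4 * Real.pi * z.im * V)) * (-(4 * Real.pi * V)) *
        lag 1 (4 * Real.pi * z.im * (n + V)) + Real.exp (-(4 * Real.pi * z.im * V)) *
        (lagd 1 (4 * Real.pi * z.im * (n + V)) * (4 * Real.pi * (n + V))))) -
        ((1 : ℕ) : ℝ) * phc 1 n V z.im = -phd 0 n V z.im := by
      unfold phc phd
      rw [l1d, l1, l0]
      push_cast
      ring
    rw [key]
    push_cast
    ring

end Pool.Agent.A54.Av
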