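import Pool.Agent.Lib.MP_a54f13_nt.Av.SpecA

/-!
# Package `Av`, module Lg2: bounds for the Laguerre functions
-/

set_option autoImplicit false

namespace Pool.Agent.A54.Av.Lg2M

open MeasureTheory Filter Topology Set
open scoped ContDiff ComplexConjugate UpperHalfPlane MatrixGroups ENNReal
open Pool.Agent.A54.Half (H0 qq ff hh)

noncomputable section

lemma lag_bound (k : ℕ) (X : ℝ) (hX : 0 ≤ X) : |lag k X| ≤ 5 ^ k * Real.exp (X / 4) := by
  unfold lag
  refine le_trans (Finset.abs_sum_le_sum_abs _ _) ?_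
  have h1 : ∀ j ∈ Finset.range (k + 1), |(k.choose j : ℝ) * (-X) ^ j / (j.factorial : ℝ)| ≤
      ((1 : ℝ) ^ j * 4 ^ (k - j) * (k.choose j : ℝ)) * 0 + (4 ^ j * (k.choose j : ℝ)) *
        Real.exp (X / 4) := by
    intro j _
    have h2 : (X / 4) ^ j / (j.factorial : ℝ) ≤ Real.exp (X / 4) :=
      Real.pow_div_factorial_le_exp (X / 4) (by positivity) j
    have h3 : |(k.choose j : ℝ) * (-X) ^ j / (j.factorial : ℝ)| =
        (4 ^ j * (k.choose j : ℝ)) * ((X / 4) ^ j / (j.factorial : ℝ)) := by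
      rw [abs_div, abs_mul, abs_pow, abs_neg, abs_of_nonneg hX, abs_of_nonneg (by positivity),
        abs_of_nonneg (by positivity), div_pow]
      field_simp
    rw [h3, mul_zero, zero_add]
    gcongr
  refine le_trans (Finset.sum_le_sum h1) (le_of_eq ?_)
  simp only [mul_zero, zero_add]
  rw [← Finset.sum_mul]
  congr 1
  have h4 := add_pow (4 : ℝ) 1 k
  have h5 : (4 : ℝ) + 1 = 5 := by norm_num
  rw [h5] at h4
  rw [h4]
  refine Finset.sum_congr rfl fun j _ => ?_
  rw [one_pow, mul_one]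

lemma norm_ee (n : ℝ) (z : ℂ) : ‖ee ((n : ℂ) * z)‖ = Real.exp (-(2 * Real.pi * n * z.im)) := by
  unfold ee
  rw [Complex.norm_exp]
  congr 1
  simp
  ring

lemma ck_bound (k : ℕ) (n V : ℝ) (hV : 0 ≤ V) (hnV : 0 ≤ n + V) (z : ℂ) (hz : 0 < z.im) :
    ‖ck k n V z‖ ≤ 5 ^ k * (z.im * Real.exp (-(Real.pi * z.im * (n + 2 * V)))) := by
  have hpi := Real.pi_pos
  unfold ck
  rw [norm_mul, norm_mul, norm_ee, Complex.norm_real, Complex.norm_real, Real.norm_eq_abs,
    Real.norm_eq_abs, abs_of_pos hz, abs_mul, abs_of_pos (Real.exp_pos _)]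
  have h1 := lag_bound k (4 * Real.pi * z.im * (n + V)) (by positivity)
  have hyV : 0 ≤ Real.pi * z.im * V := by positivity
  calc z.im * Real.exp (-(2 * Real.pi * n * z.im)) * (Real.exp (-(4 * Real.pi * z.im * V)) *
        |lag k (4 * Real.pi * z.im * (n + V))|)
      ≤ z.im * Real.exp (-(2 * Real.pi * n * z.im)) * (Real.exp (-(4 * Real.pi * z.im * V)) *
        (5 ^ k * Real.exp (4 * Real.pi * z.im * (n + V) / 4))) := by gcongr
    _ = 5 ^ k * (z.im * (Real.exp (-(2 * Real.pi * n * z.im)) *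
        Real.exp (-(4 * Real.pi * z.im * V)) * Real.exp (4 * Real.pi * z.im * (n + V) / 4))) := by
        ring
    _ ≤ 5 ^ k * (z.im * Real.exp (-(Real.pi * z.im * (n + 2 * V)))) := by
        rw [← Real.exp_add, ← Real.exp_add]
        gcongr
        nlinarith

lemma dk_bound (k : ℕ) (n V : ℝ) (hV : 0 ≤ V) (hnV : 0 ≤ n + V) (z : ℂ) (hz : 0 < z.im) :
    ‖dk k n V z‖ ≤ ((k + 1) * (4 * 5 ^ (k + 1) + 5 ^ k)) *
      (z.im * Real.exp (-(Real.pi * z.im * (n + 2 * V)))) := by
  have hpi := Real.pi_pos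
  unfold dk
  rw [norm_mul, norm_mul, norm_ee, Complex.norm_real, Complex.norm_real, Real.norm_eq_abs,
    Real.norm_eq_abs, abs_of_pos hz, abs_mul, abs_of_pos (Real.exp_pos _)]
  have h1 := lag_bound k (4 * Real.pi * z.im * (n + V)) (by positivity)
  have h2 := lag_bound (k + 1) (4 * Real.pi * z.im * (n + V)) (by positivity)
  have hyV : 0 ≤ Real.pi * z.im * V := by positivity
  set L := lag k (4 * Real.pi * z.im * (n + V)) with hL
  set L' := lag (k + 1) (4 * Real.pi * z.im * (n + V)) with hL'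
  set e := Real.exp (4 * Real.pi * z.im * (n + V) / 4) with he
  have he0 : 0 < e := Real.exp_pos _
  have h3 : |((k : ℝ) + 1) * ((4 * Real.pi * z.im * V - 1) * L' + L)| ≤
      ((k + 1) * (4 * 5 ^ (k + 1) + 5 ^ k)) * (e * Real.exp (Real.pi * z.im * V)) := by
    have hR : ((k : ℝ) + 1) * (4 * 5 ^ (k + 1) + 5 ^ k) * (e * Real.exp (Real.pi * z.im * V)) =
        ((k : ℝ) + 1) * ((4 * 5 ^ (k + 1) + 5 ^ k) * (e * Real.exp (Real.pi * z.im * V))) := by ring
    rw [abs_mul, abs_of_nonneg (show (0 : ℝ) ≤ (k : ℝ) + 1 by positivity), hR]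
    refine mul_le_mul_of_nonneg_left ?_ (show (0 : ℝ) ≤ (k : ℝ) + 1 by positivity)
    refine le_trans (abs_add_le _ _) ?_
    rw [abs_mul]
    have h4 : |4 * Real.pi * z.im * V - 1| ≤ 4 * Real.exp (Real.pi * z.im * V) := by
      have h5 := Real.add_one_le_exp (Real.pi * z.im * V)
      rw [abs_le]
      constructor <;> nlinarith
    have h6 : 1 ≤ Real.exp (Real.pi * z.im * V) := Real.one_le_exp hyV
    have h7 : |4 * Real.pi * z.im * V - 1| * |L'| ≤
        4 * Real.exp (Real.pi * z.im * V) * (5 ^ (k + 1) * e) :=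
      mul_le_mul h4 h2 (abs_nonneg _) (by positivity)
    have h5k : (0 : ℝ) ≤ 5 ^ k * e := by positivity
    have h8 : |L| ≤ 5 ^ k * e * Real.exp (Real.pi * z.im * V) :=
      le_trans h1 (le_mul_of_one_le_right h5k h6)
    calc _ ≤ 4 * Real.exp (Real.pi * z.im * V) * (5 ^ (k + 1) * e) +
          5 ^ k * e * Real.exp (Real.pi * z.im * V) := add_le_add h7 h8
      _ = _ := by ring
  calc z.im * Real.exp (-(2 * Real.pi * n * z.im)) * (Real.exp (-(4 * Real.pi * z.im * V)) *
        |((k : ℝ) + 1) * ((4 * Real.pi * z.im * V - 1) * L' + L)|)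
      ≤ z.im * Real.exp (-(2 * Real.pi * n * z.im)) * (Real.exp (-(4 * Real.pi * z.im * V)) *
        (((k + 1) * (4 * 5 ^ (k + 1) + 5 ^ k)) * (e * Real.exp (Real.pi * z.im * V)))) := by gcongr
    _ = ((k + 1) * (4 * 5 ^ (k + 1) + 5 ^ k)) * (z.im * (Real.exp (-(2 * Real.pi * n * z.im)) *
        Real.exp (-(4 * Real.pi * z.im * V)) * e * Real.exp (Real.pi * z.im * V))) := by
        ring
    _ ≤ _ := by
        rw [he, ← Real.exp_add, ← Real.exp_add, ← Real.exp_add]
        gcongr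
        nlinarith

/-- the derivative from the values -/
lemma deriv_bound (F : ℂ → ℂ) (z G : ℂ) (k : ℕ) (n m C : ℝ) (hz : 0 < z.im) (hC : 0 ≤ C)
    (hd : DifferentiableAt ℝ F z)
    (hs : ∀ s : ℝ, F (z + s) = Complex.exp (2 * Real.pi * Complex.I * n * s) * F z)
    (hR : RR k F z = ((k : ℂ) + 1) * G) (hn : |n| ≤ m)
    (hF : ‖F z‖ ≤ C * (z.im * Real.exp (-(Real.pi * z.im * m))))
    (hG : ‖G‖ ≤ C * (z.im * Real.exp (-(Real.pi * z.im * m)))) :
    ‖fderiv ℝ F z‖ ≤ (2 * k + 9) * C * Real.exp (-(Real.pi / 2 * z.im * m)) := by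
  have hpi := Real.pi_pos
  have hm : 0 ≤ m := le_trans (abs_nonneg _) hn
  set y := z.im with hy
  set ε := Real.exp (-(Real.pi / 2 * y * m)) with hε
  have hε0 : 0 < ε := Real.exp_pos _
  have hε1 : Real.exp (-(Real.pi * y * m)) = ε * ε := by
    rw [hε, ← Real.exp_add]; congr 1; ring
  have hεle : ε ≤ 1 := by
    rw [hε, Real.exp_le_one_iff]
    have : 0 ≤ Real.pi / 2 * y * m := by positivity
    linarith
  set a := fderiv ℝ F z 1 with ha
  set b := fderiv ℝ F z Complex.I with hb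
  -- the derivative in the direction 1
  have ha' : a = 2 * Real.pi * Complex.I * n * F z := by
    have h1 : HasDerivAt (fun s : ℝ => F (z + s)) a 0 := by
      have h2 : HasFDerivAt F (fderiv ℝ F z) (z + ((0 : ℝ) : ℂ)) := by
        rw [Complex.ofReal_zero, add_zero]; exact hd.hasFDerivAt
      have h3 : HasDerivAt (fun s : ℝ => z + (s : ℂ)) 1 0 := by
        have := (Complex.ofRealCLM.hasDerivAt (x := (0 : ℝ))).const_add z
        simpa using this
      exact h2.comp_hasDerivAt (0 : ℝ) h3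
    have h4 : HasDerivAt (fun s : ℝ => Complex.exp (2 * Real.pi * Complex.I * n * s) * F z)
        (2 * Real.pi * Complex.I * n * F z) 0 := by
      have h5 : HasDerivAt (fun s : ℝ => 2 * Real.pi * Complex.I * n * (s : ℂ))
          (2 * Real.pi * Complex.I * n) 0 := by
        have := (Complex.ofRealCLM.hasDerivAt (x := (0 : ℝ))).const_mul
          (2 * Real.pi * Complex.I * n)
        simpa using this
      have h6 := (h5.cexp).mul_const (F z)
      simpa using h6
    have h7 : (fun s : ℝ => F (z + s)) =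
        fun s : ℝ => Complex.exp (2 * Real.pi * Complex.I * n * s) * F z := by
      funext s; exact hs s
    rw [h7] at h1
    exact h1.unique h4
  have hna : ‖a‖ ≤ 4 * C * ε := by
    rw [ha']
    have h1 : ‖2 * Real.pi * Complex.I * n * F z‖ = 2 * Real.pi * |n| * ‖F z‖ := by
      simp [abs_of_pos hpi]
    rw [h1]
    have h2 : y * m * ε ≤ 2 / Real.pi := by
      have h3 := Real.add_one_le_exp (Real.pi / 2 * y * m)
      rw [hε, Real.exp_neg, ← div_eq_mul_inv, div_le_div_iff₀ (Real.exp_pos _) hpi]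
      nlinarith
    calc 2 * Real.pi * |n| * ‖F z‖ ≤ 2 * Real.pi * m * (C * (y * (ε * ε))) := by
          rw [← hε1]; gcongr
      _ = 2 * Real.pi * C * ε * (y * m * ε) := by ring
      _ ≤ 2 * Real.pi * C * ε * (2 / Real.pi) := by gcongr
      _ = 4 * C * ε := by field_simp; ring
  have hyb : (y : ℂ) * b = ((k : ℂ) + 1) * G - k * F z - Complex.I * y * a := by
    have h1 : RR k F z = Complex.I * (y : ℂ) * (a - Complex.I * b) + (k : ℂ) * F z := rfl
    rw [hR] at h1
    have hI : Complex.I * Complex.I = -1 := Complex.I_mul_I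
    linear_combination -h1 + (y : ℂ) * b * hI
  have hnb : ‖b‖ ≤ (2 * k + 1) * C * ε + 4 * C * ε := by
    have h1 : y * ‖b‖ ≤ y * ((2 * k + 1) * C * ε + 4 * C * ε) := by
      have h2 : y * ‖b‖ = ‖(y : ℂ) * b‖ := by
        rw [norm_mul, Complex.norm_real, Real.norm_eq_abs, abs_of_pos hz]
      rw [h2, hyb]
      refine le_trans (norm_sub_le _ _) ?_
      have h3 : ‖Complex.I * y * a‖ ≤ y * (4 * C * ε) := by
        rw [norm_mul, norm_mul, Complex.norm_I, one_mul, Complex.norm_real, Real.norm_eq_abs,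
          abs_of_pos hz]
        gcongr
      have h4 : ‖((k : ℂ) + 1) * G - k * F z‖ ≤ y * ((2 * k + 1) * C * ε) := by
        refine le_trans (norm_sub_le _ _) ?_
        have h5 : ‖((k : ℂ) + 1)‖ = (k : ℝ) + 1 := by
          have : ((k : ℂ) + 1) = (((k : ℝ) + 1 : ℝ) : ℂ) := by push_cast; rfl
          rw [this, Complex.norm_real, Real.norm_eq_abs, abs_of_nonneg (by positivity)]
        rw [norm_mul, norm_mul, h5, Complex.norm_natCast]
        have h6 : C * (y * Real.exp (-(Real.pi * y * m))) ≤ C * (y * ε) := by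
          rw [hε1]
          have : ε * ε ≤ ε := mul_le_of_le_one_left hε0.le hεle
          gcongr
        have h7 := le_trans hG h6
        have h8 := le_trans hF h6
        calc ((k : ℝ) + 1) * ‖G‖ + k * ‖F z‖ ≤ ((k : ℝ) + 1) * (C * (y * ε)) + k * (C * (y * ε)) := by
              gcongr
          _ = _ := by ring
      linarith
    exact le_of_mul_le_mul_left h1 hz
  have hab : ‖a‖ + ‖b‖ ≤ (2 * k + 9) * C * ε := by nlinarith
  refine ContinuousLinearMap.opNorm_le_bound _ (by positivity) fun v => ?_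
  have hv : fderiv ℝ F z v = v.re • a + v.im • b := by
    have h1 : v = v.re • (1 : ℂ) + v.im • Complex.I := by
      simp [Complex.re_add_im]
    conv_lhs => rw [h1]
    rw [map_add, map_smul, map_smul]
  rw [hv]
  refine le_trans (norm_add_le _ _) ?_
  rw [norm_smul, norm_smul, Real.norm_eq_abs, Real.norm_eq_abs]
  have h1 := Complex.abs_re_le_norm v
  have h2 := Complex.abs_im_le_norm v
  calc |v.re| * ‖a‖ + |v.im| * ‖b‖ ≤ ‖v‖ * ‖a‖ + ‖v‖ * ‖b‖ := by gcongr
    _ = (‖a‖ + ‖b‖) * ‖v‖ := by ring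
    _ ≤ _ := by gcongr

lemma ee_shift (n : ℝ) (z : ℂ) (s : ℝ) : ee ((n : ℂ) * (z + s)) =
    Complex.exp (2 * Real.pi * Complex.I * n * s) * ee ((n : ℂ) * z) := by
  unfold ee
  rw [← Complex.exp_add]
  congr 1
  ring

lemma im_shift (z : ℂ) (s : ℝ) : (z + s).im = z.im := by simp

end

end Pool.Agent.A54.Av.Lg2M

namespace Pool.Agent.A54.Av

open scoped ContDiff
open Pool.Agent.A54.Half (H0 qq ff hh)

theorem stmtLg2 (h1 : StmtLg1) : StmtLg2 := by
  intro k
  set C : ℝ := ((k : ℝ) + 2) * (4 * 5 ^ (k + 2) + 5 ^ (k + 1)) with hC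
  have hC0 : 0 ≤ C := by positivity
  have p1 : (5 : ℝ) ^ k ≤ 5 ^ (k + 1) := pow_le_pow_right₀ (by norm_num) (by omega)
  have p2 : (5 : ℝ) ^ (k + 1) ≤ 5 ^ (k + 2) := pow_le_pow_right₀ (by norm_num) (by omega)
  have p0 : (0 : ℝ) < 5 ^ (k + 1) := by positivity
  have hk0 : (0 : ℝ) ≤ k := Nat.cast_nonneg k
  have hCc : (5 : ℝ) ^ (k + 1) ≤ C := by
    rw [hC]; nlinarith
  have hCc0 : (5 : ℝ) ^ k ≤ C := le_trans p1 hCc
  have hCd : ((k : ℝ) + 1) * (4 * 5 ^ (k + 1) + 5 ^ k) ≤ C := by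
    rw [hC]
    apply mul_le_mul
    · linarith
    · linarith
    · positivity
    · positivity
  have hCd1 : (((k + 1 : ℕ) : ℝ) + 1) * (4 * 5 ^ (k + 1 + 1) + 5 ^ (k + 1)) ≤ C := by
    rw [hC]
    push_cast
    apply le_of_eq
    ring
  have hC1 : C ≤ (2 * k + 9) * C := by nlinarith
  refine ⟨(2 * k + 9) * C, ?_⟩
  intro n V hV hnV z hz
  have hz' : 0 < z.im := hz
  obtain ⟨sc, sd, rc, rd, -⟩ := h1 k n V
  have hnhds : H0 ∈ nhds z := Pool.Agent.A54.Half.isOpen_H0.mem_nhds hz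
  have dc : DifferentiableAt ℝ (ck k n V) z := (sc.contDiffAt hnhds).differentiableAt (by simp)
  have dd : DifferentiableAt ℝ (dk k n V) z := (sd.contDiffAt hnhds).differentiableAt (by simp)
  have hn : |n| ≤ n + 2 * V := by rw [abs_le]; constructor <;> linarith
  have hpos : 0 ≤ z.im * Real.exp (-(Real.pi * z.im * (n + 2 * V))) := by positivity
  have b1 := Lg2M.ck_bound k n V hV hnV z hz'
  have b2 := Lg2M.ck_bound (k + 1) n V hV hnV z hz'
  have b3 := Lg2M.dk_bound k n V hV hnV z hz'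
  have b4 := Lg2M.dk_bound (k + 1) n V hV hnV z hz'
  have c1 := le_trans b1 (mul_le_mul_of_nonneg_right hCc0 hpos)
  have c2 := le_trans b2 (mul_le_mul_of_nonneg_right hCc hpos)
  have c3 := le_trans b3 (mul_le_mul_of_nonneg_right hCd hpos)
  have c4 := le_trans b4 (mul_le_mul_of_nonneg_right hCd1 hpos)
  refine ⟨le_trans c1 (mul_le_mul_of_nonneg_right hC1 hpos),
    le_trans c3 (mul_le_mul_of_nonneg_right hC1 hpos), ?_, ?_⟩
  · refine Lg2M.deriv_bound (ck k n V) z (ck (k + 1) n V z) k n (n + 2 * V) C hz' hC0 dc ?_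
      (rc z hz) hn c1 c2
    intro s
    unfold ck
    rw [Lg2M.im_shift, Lg2M.ee_shift]
    ring
  · refine Lg2M.deriv_bound (dk k n V) z (dk (k + 1) n V z) k n (n + 2 * V) C hz' hC0 dd ?_
      (rd z hz) hn c3 c4
    intro s
    unfold dk
    rw [Lg2M.im_shift, Lg2M.ee_shift]
    ring

end Pool.Agent.A54.Av
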