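import Pool.Agent.Lib.MP_a54f13_nt.Av.SpecA

set_option autoImplicit false

namespace Pool.Agent.A54.Av.Lg3M

open MeasureTheory Filter Topology Set
open scoped ContDiff ComplexConjugate UpperHalfPlane MatrixGroups ENNReal Nat

noncomputable section

lemma geo {𝕜 : Type} [RCLike 𝕜] (r : 𝕜) (hr : ‖r‖ < 1) (j : ℕ) :
    HasSum (fun k : ℕ => (((k + 1).choose (j + 1) : ℕ) : 𝕜) * r ^ k)
      (r ^ j / (1 - r) ^ (j + 2)) := by
  rw [← hasSum_nat_add_iff' j]
  have h0 : ∑ i ∈ Finset.range j, (((i + 1).choose (j + 1) : ℕ) : 𝕜) * r ^ i = 0 := by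
    refine Finset.sum_eq_zero fun i hi => ?_
    rw [Finset.mem_range] at hi
    rw [Nat.choose_eq_zero_of_lt (by omega)]
    simp
  rw [h0, sub_zero]
  have h := (hasSum_choose_mul_geometric_of_norm_lt_one (j + 1) hr).mul_left (r ^ j)
  convert! h using 1
  · funext k
    rw [pow_add, show k + j + 1 = k + (j + 1) by ring]
    ring
  · ring

lemma dbl (s : ℂ) (hs : ‖s‖ < 1) (x : ℂ) (b : ℕ → ℂ) (hb : ∀ j, ‖b j‖ ≤ 2 ^ j) (S : ℂ)
    (hS : HasSum (fun j : ℕ => b j * (x * s / (1 - s)) ^ j / (j ! : ℂ)) S) :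
    HasSum (fun k : ℕ => (∑ j ∈ Finset.range (k + 1),
      (((k + 1).choose (j + 1) : ℕ) : ℂ) * (b j * x ^ j / (j ! : ℂ))) * s ^ k)
      ((1 - s)⁻¹ ^ 2 * S) := by
  set f : ℕ × ℕ → ℂ := fun p => (((p.2 + 1).choose (p.1 + 1) : ℕ) : ℂ) *
    (b p.1 * x ^ p.1 / (p.1 ! : ℂ)) * s ^ p.2 with hf
  have h1s : (1 : ℂ) - s ≠ 0 := by
    intro h
    have : s = 1 := by linear_combination -h
    rw [this, norm_one] at hs
    exact lt_irrefl _ hs
  have h1s' : 0 < 1 - ‖s‖ := by linarith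
  have hr : ∀ j : ℕ, HasSum (fun k : ℕ => f (j, k))
      ((1 - s)⁻¹ ^ 2 * (b j * (x * s / (1 - s)) ^ j / (j ! : ℂ))) := by
    intro j
    have h := (geo s hs j).mul_left (b j * x ^ j / (j ! : ℂ))
    convert! h using 1
    · funext k
      simp only [hf]
      ring
    · rw [div_pow, mul_pow, pow_add]
      field_simp
  have hn : ∀ j : ℕ, HasSum (fun k : ℕ => ‖f (j, k)‖)
      (‖b j * x ^ j / (j ! : ℂ)‖ * (‖s‖ ^ j / (1 - ‖s‖) ^ (j + 2))) := by
    intro j
    have h := (geo ‖s‖ (by simpa using hs) j).mul_left ‖b j * x ^ j / (j ! : ℂ)‖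
    convert! h using 1
    funext k
    simp only [hf, norm_mul, norm_pow, Complex.norm_natCast]
    ring
  have hsum : Summable fun p => ‖f p‖ := by
    rw [summable_prod_of_nonneg (fun p => norm_nonneg _)]
    refine ⟨fun j => (hn j).summable, ?_⟩
    simp_rw [fun j => (hn j).tsum_eq]
    have h2 := (Real.summable_pow_div_factorial (2 * ‖x‖ * ‖s‖ / (1 - ‖s‖))).mul_left
      ((1 - ‖s‖)⁻¹ ^ 2)
    refine Summable.of_nonneg_of_le (fun j => by positivity) (fun j => ?_) h2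
    rw [norm_div, norm_mul, norm_pow, Complex.norm_natCast]
    calc ‖b j‖ * ‖x‖ ^ j / (j ! : ℝ) * (‖s‖ ^ j / (1 - ‖s‖) ^ (j + 2))
        ≤ 2 ^ j * ‖x‖ ^ j / (j ! : ℝ) * (‖s‖ ^ j / (1 - ‖s‖) ^ (j + 2)) := by
          gcongr
          exact hb j
      _ = (1 - ‖s‖)⁻¹ ^ 2 * ((2 * ‖x‖ * ‖s‖ / (1 - ‖s‖)) ^ j / (j ! : ℝ)) := by
          rw [div_pow, mul_pow, mul_pow, pow_add]
          field_simp
  have hfs : Summable f := hsum.of_norm
  have ha : ∑' p, f p = (1 - s)⁻¹ ^ 2 * S := by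
    have h3 := hfs.hasSum.prod_fiberwise hr
    exact h3.unique (hS.mul_left _)
  have hsw : HasSum (fun p : ℕ × ℕ => f p.swap) ((1 - s)⁻¹ ^ 2 * S) := by
    rw [← ha]
    exact (Equiv.prodComm ℕ ℕ).hasSum_iff.2 hfs.hasSum
  refine hsw.prod_fiberwise fun k => ?_
  simp only [Prod.swap_prod_mk]
  rw [Finset.sum_mul]
  refine hasSum_sum_of_ne_finset_zero fun j hj => ?_
  rw [Finset.mem_range, not_lt] at hj
  simp only [hf]
  rw [Nat.choose_eq_zero_of_lt (by omega)]
  simp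

/-- `∑ w^j/j! = e^w` -/
lemma hexp (w : ℂ) : HasSum (fun j : ℕ => (1 : ℂ) * w ^ j / (j ! : ℂ)) (Complex.exp w) := by
  have := NormedSpace.expSeries_div_hasSum_exp w
  rw [← Complex.exp_eq_exp_ℂ] at this
  simpa using this

/-- `∑ (j+1) w^j/j! = (1+w) e^w` -/
lemma hexp1 (w : ℂ) : HasSum (fun j : ℕ => ((j : ℂ) + 1) * w ^ j / (j ! : ℂ))
    ((1 + w) * Complex.exp w) := by
  have h1 := hexp w
  have h2 : HasSum (fun j : ℕ => (j : ℂ) * w ^ j / (j ! : ℂ)) (w * Complex.exp w) := by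
    rw [← hasSum_nat_add_iff' 1]
    simp only [Finset.range_one, Finset.sum_singleton, CharP.cast_eq_zero, zero_mul, zero_div,
      sub_zero]
    have h3 := h1.mul_left w
    convert! h3 using 1
    funext j
    rw [Nat.factorial_succ]
    push_cast
    have : (j : ℂ) + 1 ≠ 0 := by exact_mod_cast Nat.succ_ne_zero j
    have : (j ! : ℂ) ≠ 0 := by exact_mod_cast Nat.factorial_ne_zero j
    field_simp
    ring
  convert! h1.add h2 using 1
  · funext j
    ring
  · ring

/-- first Laguerre identity -/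
lemma lagP (k : ℕ) (X : ℝ) : ((k : ℝ) + 1) * lag k X = ∑ j ∈ Finset.range (k + 1),
    (((k + 1).choose (j + 1) : ℕ) : ℝ) * (((j : ℝ) + 1) * (-X) ^ j / (j ! : ℝ)) := by
  unfold lag
  rw [Finset.mul_sum]
  refine Finset.sum_congr rfl fun j _ => ?_
  have h : ((k : ℝ) + 1) * (k.choose j : ℝ) = ((k + 1).choose (j + 1) : ℝ) * ((j : ℝ) + 1) := by
    exact_mod_cast Nat.add_one_mul_choose_eq k j
  calc ((k : ℝ) + 1) * ((k.choose j : ℝ) * (-X) ^ j / (j ! : ℝ))
      = (((k : ℝ) + 1) * (k.choose j : ℝ)) * (-X) ^ j / (j ! : ℝ) := by ring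
    _ = _ := by rw [h]; ring

/-- second Laguerre identity -/
lemma lagQ (k : ℕ) (X : ℝ) : ((k : ℝ) + 1) * lag (k + 1) X = ((k : ℝ) + 1) * lag k X +
    (-X) * ∑ j ∈ Finset.range (k + 1),
    (((k + 1).choose (j + 1) : ℕ) : ℝ) * (1 * (-X) ^ j / (j ! : ℝ)) := by
  have h1 : lag (k + 1) X = lag k X + ∑ j ∈ Finset.range (k + 1),
      (k.choose j : ℝ) * (-X) ^ (j + 1) / ((j + 1)! : ℝ) := by
    unfold lag
    rw [Finset.sum_range_succ']
    have h2 : ∑ j ∈ Finset.range (k + 1), (k.choose j : ℝ) * (-X) ^ j / (j ! : ℝ) =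
        ∑ j ∈ Finset.range (k + 1), (k.choose (j + 1) : ℝ) * (-X) ^ (j + 1) / ((j + 1)! : ℝ) +
          1 := by
      have h3 : ∑ j ∈ Finset.range (k + 2), (k.choose j : ℝ) * (-X) ^ j / (j ! : ℝ) =
          ∑ j ∈ Finset.range (k + 1), (k.choose j : ℝ) * (-X) ^ j / (j ! : ℝ) := by
        rw [Finset.sum_range_succ, Nat.choose_succ_self]
        simp
      rw [← h3, Finset.sum_range_succ']
      simp
    rw [h2]
    have h4 : ∑ j ∈ Finset.range (k + 1),
        ((k + 1).choose (j + 1) : ℝ) * (-X) ^ (j + 1) / ((j + 1)! : ℝ) =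
        ∑ j ∈ Finset.range (k + 1), (k.choose (j + 1) : ℝ) * (-X) ^ (j + 1) / ((j + 1)! : ℝ) +
        ∑ j ∈ Finset.range (k + 1), (k.choose j : ℝ) * (-X) ^ (j + 1) / ((j + 1)! : ℝ) := by
      rw [← Finset.sum_add_distrib]
      refine Finset.sum_congr rfl fun j _ => ?_
      rw [Nat.choose_succ_succ]
      push_cast
      ring
    rw [h4]
    simp
    ring
  rw [h1, mul_add, Finset.mul_sum, Finset.mul_sum]
  congr 1
  refine Finset.sum_congr rfl fun j _ => ?_
  have h : ((k : ℝ) + 1) * (k.choose j : ℝ) = ((k + 1).choose (j + 1) : ℝ) * ((j : ℝ) + 1) := by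
    exact_mod_cast Nat.add_one_mul_choose_eq k j
  have h5 : ((j + 1)! : ℝ) = ((j : ℝ) + 1) * (j ! : ℝ) := by
    rw [Nat.factorial_succ]; push_cast; ring
  have h6 : (j : ℝ) + 1 ≠ 0 := by positivity
  have h7 : (j ! : ℝ) ≠ 0 := by positivity
  calc ((k : ℝ) + 1) * ((k.choose j : ℝ) * (-X) ^ (j + 1) / ((j + 1)! : ℝ))
      = (((k : ℝ) + 1) * (k.choose j : ℝ)) * (-X) ^ (j + 1) / ((j + 1)! : ℝ) := by ring
    _ = _ := by
        rw [h, h5, pow_succ]
        field_simp

/-- the generating function -/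
lemma gen (n V y : ℝ) (s : ℂ) (hs : ‖s‖ < 1) :
    HasSum (fun k : ℕ => dk k n V ((y : ℂ) * Complex.I) * s ^ k) (mm s y n V) := by
  have h1s : (1 : ℂ) - s ≠ 0 := by
    intro h
    have : s = 1 := by linear_combination -h
    rw [this, norm_one] at hs
    exact lt_irrefl _ hs
  set W : ℝ := 4 * Real.pi * y * V with hW
  set X : ℝ := 4 * Real.pi * y * (n + V) with hX
  set x : ℂ := ((-X : ℝ) : ℂ) with hx
  set w : ℂ := x * s / (1 - s) with hw
  have hP := dbl s hs x (fun j => (j : ℂ) + 1) (fun j => by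
    have h2 : (j : ℝ) + 1 ≤ 2 ^ j := by
      have : j + 1 ≤ 2 ^ j := Nat.lt_two_pow_self
      exact_mod_cast this
    have h3 : ‖(j : ℂ) + 1‖ = (j : ℝ) + 1 := by
      have : ((j : ℂ) + 1) = (((j + 1 : ℕ)) : ℂ) := by push_cast; ring
      rw [this, Complex.norm_natCast]
      push_cast
      ring
    rw [h3]
    exact h2) _ (hexp1 w)
  have hQ := dbl s hs x (fun _ => (1 : ℂ)) (fun j => by
    rw [norm_one]
    exact one_le_pow₀ (by norm_num)) _ (hexp w)
  have hS := ((hP.mul_left (W : ℂ)).add (hQ.mul_left (((W : ℂ) - 1) * x))).mul_left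
    ((y : ℂ) * ee ((n : ℂ) * ((y : ℂ) * Complex.I)) * Complex.exp (-(W : ℂ)))
  convert! hS using 1
  · funext k
    unfold dk
    have him : ((y : ℂ) * Complex.I).im = y := by simp
    rw [him, ← hW, ← hX]
    have key : ((k : ℝ) + 1) * ((W - 1) * lag (k + 1) X + lag k X) =
        W * (∑ j ∈ Finset.range (k + 1),
          (((k + 1).choose (j + 1) : ℕ) : ℝ) * (((j : ℝ) + 1) * (-X) ^ j / (j ! : ℝ))) +
        (W - 1) * (-X) * ∑ j ∈ Finset.range (k + 1),
          (((k + 1).choose (j + 1) : ℕ) : ℝ) * (1 * (-X) ^ j / (j ! : ℝ)) := by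
      rw [← lagP]
      have := lagQ k X
      linear_combination (W - 1) * this
    rw [key, hx]
    push_cast
    ring
  · unfold mm ee
    have e1 : Complex.exp (-(2 * (Real.pi : ℂ) * n * y * (1 + s) / (1 - s)) -
        4 * (Real.pi : ℂ) * y * V / (1 - s)) =
        Complex.exp (2 * (Real.pi : ℂ) * Complex.I * ((n : ℂ) * ((y : ℂ) * Complex.I))) *
          Complex.exp (-(W : ℂ)) * Complex.exp w := by
      rw [← Complex.exp_add, ← Complex.exp_add]
      congr 1
      have hI : Complex.I * ((n : ℂ) * ((y : ℂ) * Complex.I)) = -((n : ℂ) * y) := by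
        calc Complex.I * ((n : ℂ) * ((y : ℂ) * Complex.I)) =
            (Complex.I * Complex.I) * ((n : ℂ) * y) := by ring
          _ = _ := by rw [Complex.I_mul_I]; ring
      rw [mul_assoc (2 * (Real.pi : ℂ)) Complex.I, hI, hw, hx, hW, hX]
      push_cast
      field_simp
      ring
    rw [e1, hw, hx, hW, hX]
    push_cast
    field_simp
    ring

lemma qs_pow (q θ : ℝ) (m : ℕ) :
    qs q θ ^ m = (q : ℂ) ^ m * Complex.exp ((m : ℂ) * θ * Complex.I) := by
  unfold qs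
  rw [mul_pow, ← Complex.exp_nat_mul]
  ring_nf

lemma norm_qs (q θ : ℝ) (hq : 0 < q) : ‖qs q θ‖ = q := by
  unfold qs
  rw [norm_mul, Complex.norm_exp_ofReal_mul_I, Complex.norm_real, Real.norm_of_nonneg hq.le,
    mul_one]

/-- orthogonality -/
lemma orth (m k : ℕ) : ∫ θ in Ioc (-Real.pi) Real.pi,
    Complex.exp ((m : ℂ) * θ * Complex.I) * Complex.exp (-((k : ℂ) * θ * Complex.I)) =
    if m = k then ((2 * Real.pi : ℝ) : ℂ) else 0 := by
  have hpi := Real.pi_pos
  rw [← intervalIntegral.integral_of_le (by linarith)]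
  split_ifs with h
  · subst h
    have : ∀ θ : ℝ, Complex.exp ((m : ℂ) * θ * Complex.I) *
        Complex.exp (-((m : ℂ) * θ * Complex.I)) = 1 := by
      intro θ
      rw [← Complex.exp_add]
      simp
    simp_rw [this]
    rw [intervalIntegral.integral_const]
    simp
    ring
  · have hc : ((m : ℂ) - k) * Complex.I ≠ 0 := by
      refine mul_ne_zero ?_ Complex.I_ne_zero
      rw [sub_ne_zero]
      exact_mod_cast h
    have : ∀ θ : ℝ, Complex.exp ((m : ℂ) * θ * Complex.I) *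
        Complex.exp (-((k : ℂ) * θ * Complex.I)) =
        Complex.exp (((m : ℂ) - k) * Complex.I * (θ : ℂ)) := by
      intro θ
      rw [← Complex.exp_add]
      congr 1
      ring
    simp_rw [this]
    rw [integral_exp_mul_complex hc]
    have e : Complex.exp (((m : ℂ) - k) * Complex.I * (Real.pi : ℂ)) =
        Complex.exp (((m : ℂ) - k) * Complex.I * ((-Real.pi : ℝ) : ℂ)) := by
      rw [Complex.exp_eq_exp_iff_exists_int]
      refine ⟨(m : ℤ) - k, ?_⟩
      push_cast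
      ring
    rw [e, sub_self, zero_div]

end

end Pool.Agent.A54.Av.Lg3M

namespace Pool.Agent.A54.Av

open MeasureTheory Filter Topology Set
open scoped ContDiff ComplexConjugate UpperHalfPlane MatrixGroups ENNReal
open Lg3M

theorem stmtLg3 : StmtLg3 := by
  intro n V y hy
  refine ⟨fun s hs => gen n V y s hs, fun q hq0 hq1 k => ?_⟩
  set a : ℕ → ℂ := fun m => dk m n V ((y : ℂ) * Complex.I) with ha
  have hqs : ∀ θ : ℝ, ‖qs q θ‖ < 1 := fun θ => by rw [norm_qs q θ hq0]; exact hq1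
  have hsum : Summable fun m => ‖a m * (q : ℂ) ^ m‖ := by
    have := (gen n V y (q : ℂ) (by
      rw [Complex.norm_real, Real.norm_of_nonneg hq0.le]; exact hq1)).summable
    exact this.norm
  set F : ℕ → ℝ → ℂ := fun m θ => a m * (qs q θ) ^ m * Complex.exp (-((k : ℂ) * θ * Complex.I))
    with hF
  have hFe : ∀ m θ, F m θ = (a m * (q : ℂ) ^ m) * (Complex.exp ((m : ℂ) * θ * Complex.I) *
      Complex.exp (-((k : ℂ) * θ * Complex.I))) := by
    intro m θ
    simp only [hF]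
    rw [qs_pow]
    ring
  have hFn : ∀ m θ, ‖F m θ‖ = ‖a m * (q : ℂ) ^ m‖ := by
    intro m θ
    rw [hFe, norm_mul (a m * (q : ℂ) ^ m), norm_mul (Complex.exp ((m : ℂ) * θ * Complex.I))]
    have h1 : ‖Complex.exp ((m : ℂ) * θ * Complex.I)‖ = 1 := by
      have : (m : ℂ) * θ * Complex.I = (((m : ℝ) * θ : ℝ) : ℂ) * Complex.I := by
        push_cast; ring
      rw [this, Complex.norm_exp_ofReal_mul_I]
    have h2 : ‖Complex.exp (-((k : ℂ) * θ * Complex.I))‖ = 1 := by
      have : -((k : ℂ) * θ * Complex.I) = ((-((k : ℝ) * θ) : ℝ) : ℂ) * Complex.I := by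
        push_cast; ring
      rw [this, Complex.norm_exp_ofReal_mul_I]
    rw [h1, h2, mul_one, mul_one]
  have hint : ∀ m, Integrable (F m) (volume.restrict (Ioc (-Real.pi) Real.pi)) := by
    intro m
    have hc : Continuous (F m) := by
      have : F m = fun θ : ℝ => (a m * (q : ℂ) ^ m) *
          (Complex.exp ((m : ℂ) * θ * Complex.I) *
            Complex.exp (-((k : ℂ) * θ * Complex.I))) := funext fun θ => hFe m θ
      rw [this]
      fun_prop
    exact (hc.integrableOn_Icc (a := -Real.pi) (b := Real.pi)).mono_set Ioc_subset_Icc_self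
  have hs2 : Summable fun m => ∫ θ in Ioc (-Real.pi) Real.pi, ‖F m θ‖ := by
    have : (fun m => ∫ θ in Ioc (-Real.pi) Real.pi, ‖F m θ‖) =
        fun m => (volume.real (Ioc (-Real.pi) Real.pi)) * ‖a m * (q : ℂ) ^ m‖ := by
      funext m
      simp_rw [hFn]
      rw [setIntegral_const, smul_eq_mul]
    rw [this]
    exact hsum.mul_left _
  have h1 := hasSum_integral_of_summable_integral_norm hint hs2
  have h2 : ∀ m, ∫ θ in Ioc (-Real.pi) Real.pi, F m θ =
      if m = k then a k * (q : ℂ) ^ k * ((2 * Real.pi : ℝ) : ℂ) else 0 := by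
    intro m
    simp_rw [hFe]
    rw [integral_const_mul, orth]
    split_ifs with h
    · rw [h]
    · rw [mul_zero]
  simp_rw [h2] at h1
  have h3 := hasSum_ite_eq k (a k * (q : ℂ) ^ k * ((2 * Real.pi : ℝ) : ℂ))
  have h4 := h1.unique h3
  have h5 : (∫ θ in Ioc (-Real.pi) Real.pi, ∑' m, F m θ) = ∫ θ in Ioc (-Real.pi) Real.pi,
      mm (qs q θ) y n V * Complex.exp (-((k : ℂ) * θ * Complex.I)) := by
    refine integral_congr_ae (Eventually.of_forall fun θ => ?_)
    have := (gen n V y (qs q θ) (hqs θ)).mul_right (Complex.exp (-((k : ℂ) * θ * Complex.I)))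
    exact this.tsum_eq
  rw [h5] at h4
  rw [h4]
  have hpi : ((2 * Real.pi : ℝ) : ℂ) ≠ 0 := by
    have := Real.pi_pos
    exact_mod_cast (by positivity : (2 * Real.pi : ℝ) ≠ 0)
  field_simp
  simp only [ha]
  ring

end Pool.Agent.A54.Av
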