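import Pool.Agent.Lib.MP_a54f13_nt.Av.SpecB

/-!
# Package `Av`, module `Mb`: pointwise bound of the kernel
-/

set_option autoImplicit false

namespace Pool.Agent.A54.Av

open MeasureTheory Filter Topology Set
open scoped ContDiff ComplexConjugate UpperHalfPlane MatrixGroups ENNReal
open Pool.Agent.A54.Half (H0 qq ff hh)

noncomputable section

namespace MbM

lemma normSq_qs (T θ : ℝ) (hT : 2 ≤ T) : Complex.normSq (qs (qT T) θ) = 1 - (T ^ 2)⁻¹ := by
  have h1 : ‖Complex.exp ((θ : ℂ) * Complex.I)‖ = 1 := Complex.norm_exp_ofReal_mul_I θ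
  have h2 : (T ^ 2)⁻¹ ≤ 1 := by
    apply inv_le_one_of_one_le₀
    nlinarith
  unfold qs qT
  rw [Complex.normSq_eq_norm_sq, norm_mul, h1, mul_one, Complex.norm_real, Real.norm_eq_abs,
    sq_abs, Real.sq_sqrt (by linarith)]

lemma poly_le (u v : ℝ) (hu : 0 ≤ u) (hv : 0 ≤ v) :
    8 * Real.pi * u + 8 * Real.pi * v + 16 * Real.pi ^ 2 * (u * v) ≤
      16 * Real.exp (Real.pi * (u + v)) := by
  have hpi := Real.pi_pos
  have ht : 0 ≤ Real.pi * (u + v) := by positivity
  have h1 := Real.quadratic_le_exp_of_nonneg ht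
  have h2 : 16 * Real.pi ^ 2 * (u * v) ≤ 4 * (Real.pi * (u + v)) ^ 2 := by
    have : 4 * (Real.pi * (u + v)) ^ 2 - 16 * Real.pi ^ 2 * (u * v) =
        4 * (Real.pi * (u - v)) ^ 2 := by ring
    have h3 : 0 ≤ 4 * (Real.pi * (u - v)) ^ 2 := by positivity
    linarith
  have h4 : 0 ≤ (Real.pi * (u + v)) ^ 2 := sq_nonneg _
  linarith

end MbM

open MbM in
theorem stmtMb (hDl : StmtDl) : StmtMb := by
  refine ⟨16, by norm_num, ?_⟩
  intro T θ y n V hT hθ hy hV hnV
  have hpi := Real.pi_pos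
  have hT0 : 0 < T := by linarith
  obtain ⟨hd1, -, hd2⟩ := hDl.1 T θ hT hθ
  have hδ : 0 < dl T θ := lt_of_lt_of_le (by positivity) hd1
  have hns := normSq_qs T θ hT
  have hδs : ‖1 - qs (qT T) θ‖ = dl T θ := rfl
  generalize hs : qs (qT T) θ = s at *
  generalize hδe : dl T θ = δ at *
  have h1s : (1 - s) ≠ 0 := by
    intro h
    rw [h, norm_zero] at hδs
    linarith
  have hδ2 : Complex.normSq (1 - s) = δ ^ 2 := by
    rw [Complex.normSq_eq_norm_sq, hδs]
  have hre : 1 - s.re = (δ ^ 2 + (T ^ 2)⁻¹) / 2 := by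
    have e1 : Complex.normSq (1 - s) = 1 - 2 * s.re + Complex.normSq s := by
      rw [Complex.normSq_apply, Complex.normSq_apply]
      simp only [Complex.sub_re, Complex.one_re, Complex.sub_im, Complex.one_im]
      ring
    rw [hδ2, hns] at e1
    linarith
  set w : ℂ := (1 - s)⁻¹ with hw
  have hwre : w.re = 1 / 2 + 1 / (2 * T ^ 2 * δ ^ 2) := by
    rw [hw, Complex.inv_re, hδ2]
    simp only [Complex.sub_re, Complex.one_re]
    rw [hre]
    field_simp
  have hwn : ‖w‖ = δ⁻¹ := by rw [hw, norm_inv, hδs]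
  have hE : -(2 * (Real.pi : ℂ) * n * y * (1 + s) / (1 - s)) -
      4 * (Real.pi : ℂ) * y * V / (1 - s) =
      ((-(2 * Real.pi * n * y) : ℝ) : ℂ) * (2 * w - 1) + ((-(4 * Real.pi * y * V) : ℝ) : ℂ) * w := by
    rw [hw]
    push_cast
    field_simp
    ring
  have hEre : (-(2 * (Real.pi : ℂ) * n * y * (1 + s) / (1 - s)) -
      4 * (Real.pi : ℂ) * y * V / (1 - s)).re =
      -(2 * (Real.pi * (yo T θ y * (n + V) + y * V))) := by
    rw [hE, Complex.add_re, Complex.re_ofReal_mul, Complex.re_ofReal_mul, Complex.sub_re,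
      Complex.one_re]
    have : (2 * w).re = 2 * w.re := by simp
    rw [this, hwre]
    unfold yo
    rw [hδe]
    field_simp
    ring
  have hyo : yo T θ y = y / (T ^ 2 * δ ^ 2) := by
    unfold yo
    rw [hδe]
  set u : ℝ := yo T θ y * (n + V) with hu
  have hyo0 : 0 ≤ yo T θ y := by rw [hyo]; positivity
  have hu0 : 0 ≤ u := mul_nonneg hyo0 hnV
  have hv0 : 0 ≤ y * V := by positivity
  -- the polynomial
  have hP : ‖4 * (Real.pi : ℂ) * y * (2 * V + n) / (1 - s) -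
      (4 * (Real.pi : ℂ) * y) ^ 2 * V * (n + V) / (1 - s) ^ 2‖ ≤
      T ^ 2 * (8 * Real.pi * u + 8 * Real.pi * (y * V) + 16 * Real.pi ^ 2 * (u * (y * V))) := by
    have e1 : 4 * (Real.pi : ℂ) * y * (2 * V + n) / (1 - s) =
        ((4 * Real.pi * y * (V + (n + V)) : ℝ) : ℂ) * w := by
      rw [hw]
      push_cast
      field_simp
      ring
    have e2 : (4 * (Real.pi : ℂ) * y) ^ 2 * V * (n + V) / (1 - s) ^ 2 =
        (((4 * Real.pi * y) ^ 2 * (V * (n + V)) : ℝ) : ℂ) * w ^ 2 := by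
      rw [hw]
      push_cast
      field_simp
    rw [e1, e2]
    refine (norm_sub_le _ _).trans ?_
    rw [norm_mul, norm_mul, norm_pow, Complex.norm_real, Complex.norm_real, hwn,
      Real.norm_eq_abs, Real.norm_eq_abs, abs_of_nonneg (by positivity),
      abs_of_nonneg (by positivity)]
    have hd1' : δ⁻¹ ≤ 2 * T ^ 2 := by
      rw [inv_le_comm₀ hδ (by positivity), ← one_div]
      exact hd1
    have a1 : 4 * Real.pi * y * (V + (n + V)) * δ⁻¹ =
        4 * Real.pi * (y * V) * δ⁻¹ + T ^ 2 * (4 * Real.pi * u) * δ := by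
      rw [hu, hyo]
      field_simp
    have a2 : (4 * Real.pi * y) ^ 2 * (V * (n + V)) * δ⁻¹ ^ 2 =
        T ^ 2 * (16 * Real.pi ^ 2 * (u * (y * V))) := by
      rw [hu, hyo]
      field_simp
      ring
    have a3 : 4 * Real.pi * (y * V) * δ⁻¹ ≤ 4 * Real.pi * (y * V) * (2 * T ^ 2) :=
      mul_le_mul_of_nonneg_left hd1' (by positivity)
    have a4 : T ^ 2 * (4 * Real.pi * u) * δ ≤ T ^ 2 * (4 * Real.pi * u) * 2 :=
      mul_le_mul_of_nonneg_left hd2 (by positivity)
    rw [a1, a2]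
    calc 4 * Real.pi * (y * V) * δ⁻¹ + T ^ 2 * (4 * Real.pi * u) * δ +
          T ^ 2 * (16 * Real.pi ^ 2 * (u * (y * V)))
        ≤ 4 * Real.pi * (y * V) * (2 * T ^ 2) + T ^ 2 * (4 * Real.pi * u) * 2 +
          T ^ 2 * (16 * Real.pi ^ 2 * (u * (y * V))) := by linarith
      _ = T ^ 2 * (8 * Real.pi * u + 8 * Real.pi * (y * V) +
            16 * Real.pi ^ 2 * (u * (y * V))) := by ring
  have hP2 : ‖4 * (Real.pi : ℂ) * y * (2 * V + n) / (1 - s) -
      (4 * (Real.pi : ℂ) * y) ^ 2 * V * (n + V) / (1 - s) ^ 2‖ ≤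
      T ^ 2 * (16 * Real.exp (Real.pi * (u + y * V))) :=
    hP.trans (mul_le_mul_of_nonneg_left (poly_le u (y * V) hu0 hv0) (by positivity))
  unfold mm
  rw [norm_mul, norm_mul, norm_mul, Complex.norm_exp, hEre, ← hw, hwn, Complex.norm_real,
    Real.norm_eq_abs, abs_of_pos hy]
  calc y * δ⁻¹ * Real.exp (-(2 * (Real.pi * (u + y * V)))) *
        ‖4 * (Real.pi : ℂ) * y * (2 * V + n) / (1 - s) -
          (4 * (Real.pi : ℂ) * y) ^ 2 * V * (n + V) / (1 - s) ^ 2‖
      ≤ y * δ⁻¹ * Real.exp (-(2 * (Real.pi * (u + y * V)))) *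
        (T ^ 2 * (16 * Real.exp (Real.pi * (u + y * V)))) :=
        mul_le_mul_of_nonneg_left hP2 (by positivity)
    _ = 16 * T ^ 2 * (y / δ) *
        (Real.exp (-(2 * (Real.pi * (u + y * V)))) * Real.exp (Real.pi * (u + y * V))) := by
        rw [div_eq_mul_inv]
        ring
    _ = 16 * T ^ 2 * (y / δ) * Real.exp (-(Real.pi * (u + y * V))) := by
        rw [← Real.exp_add]
        congr 2
        ring

end

end Pool.Agent.A54.Av
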