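import Pool.Agent.Lib.MP_a54f13_nt.Av.SpecN

/-!
# Module N0 of the package `Av`
-/

set_option autoImplicit false

namespace Pool.Agent.A54.Av.N0M

open MeasureTheory Filter Topology Set

noncomputable section

lemma cosh_lower (u : ℝ) (hu : 0 ≤ u) : u ^ 2 / 2 ≤ Real.cosh u - 1 := by
  have h1 : u / 2 ≤ Real.sinh (u / 2) := Real.self_le_sinh_iff.mpr (by linarith)
  have h2 : Real.cosh u = 1 + 2 * Real.sinh (u / 2) ^ 2 := by
    have : u = 2 * (u / 2) := by ring
    conv_lhs => rw [this]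
    rw [Real.cosh_two_mul, Real.cosh_sq]
    ring
  rw [h2]
  have h3 : (u / 2) ^ 2 ≤ Real.sinh (u / 2) ^ 2 := by gcongr
  nlinarith

lemma cosh_upper (u : ℝ) (hu : 0 ≤ u) (hu1 : u ≤ 1) : Real.cosh u - 1 ≤ 53 / 96 * u ^ 2 := by
  have h1 := Real.exp_bound (x := u) (by rw [abs_of_nonneg hu]; exact hu1) (n := 4) (by norm_num)
  have h2 := Real.exp_bound (x := -u) (by rw [abs_neg, abs_of_nonneg hu]; exact hu1) (n := 4)
    (by norm_num)
  rw [abs_neg] at h2
  rw [abs_of_nonneg hu] at h1 h2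
  simp only [Finset.sum_range_succ, Finset.sum_range_zero, Nat.factorial] at h1 h2
  have h3 := (abs_le.mp h1).2
  have h4 := (abs_le.mp h2).2
  rw [Real.cosh_eq]
  have h5 : u ^ 4 ≤ u ^ 2 := by
    have : u ^ 2 ≤ 1 := pow_le_one₀ hu hu1
    nlinarith [sq_nonneg u]
  norm_num at h3 h4
  nlinarith

lemma exp_num : (1115 / 2000 : ℝ) ≤ Real.exp (-(53 / 96)) := by
  have h1 : (1 - 53 / 768 : ℝ) ≤ Real.exp (-(53 / 768)) := by
    have := Real.add_one_le_exp (-(53 / 768) : ℝ)
    linarith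
  have h2 : Real.exp (-(53 / 96)) = Real.exp (-(53 / 768)) ^ 8 := by
    rw [← Real.exp_nat_mul]; congr 1; norm_num
  rw [h2]
  calc (1115 / 2000 : ℝ) ≤ (1 - 53 / 768) ^ 8 := by norm_num
    _ ≤ _ := by gcongr

lemma sqrt_num : √(Real.pi / 2) ≤ 126 / 100 := by
  rw [Real.sqrt_le_left (by norm_num)]
  have := Real.pi_lt_d2
  norm_num at this ⊢
  linarith

lemma mom (X : ℝ) (hX : 0 < X) :
    ∫ u in Ioi (0 : ℝ), u ^ 2 * Real.exp (-(X * u ^ 2 / 2)) = √(Real.pi / 2) / (X * √X) := by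
  have h := integral_rpow_mul_exp_neg_mul_rpow (p := 2) (q := 2) (b := X / 2) (by norm_num)
    (by norm_num) (by positivity)
  have e : ∀ u : ℝ, u ^ (2 : ℝ) * Real.exp (-(X / 2) * u ^ (2 : ℝ)) =
      u ^ 2 * Real.exp (-(X * u ^ 2 / 2)) := by
    intro u
    rw [Real.rpow_two]
    congr 2
    ring
  simp only [e] at h
  rw [h]
  have hG : Real.Gamma ((2 + 1) / 2) = √Real.pi / 2 := by
    have : ((2 : ℝ) + 1) / 2 = 1 / 2 + 1 := by norm_num
    rw [this, Real.Gamma_add_one (by norm_num), Real.Gamma_one_half_eq]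
    ring
  have hp : (X / 2) ^ (-(2 + 1) / 2 : ℝ) = 2 * √2 / (X * √X) := by
    have h1 : (-(2 + 1) / 2 : ℝ) = -(1 + 1 / 2) := by norm_num
    rw [h1, Real.rpow_neg (by positivity), Real.rpow_add (by positivity), Real.rpow_one,
      ← Real.sqrt_eq_rpow, Real.sqrt_div hX.le]
    have := Real.sqrt_pos.mpr hX
    field_simp
  rw [hG, hp, Real.sqrt_div Real.pi_pos.le]
  have h2 : √2 * √2 = 2 := Real.mul_self_sqrt (by norm_num)
  have := Real.sqrt_pos.mpr hX
  have h3 : 0 < √(2 : ℝ) := Real.sqrt_pos.mpr (by norm_num)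
  field_simp
  nlinarith

lemma int0 (X : ℝ) (hX : 0 < X) :
    IntegrableOn (fun u : ℝ => Real.exp (-(X * u ^ 2 / 2))) (Ioi 0) := by
  have := (integrable_exp_neg_mul_sq (b := X / 2) (by positivity)).integrableOn (s := Ioi (0 : ℝ))
  refine this.congr_fun (fun u _ => ?_) measurableSet_Ioi
  simp only
  congr 1
  ring

lemma int2 (X : ℝ) (hX : 0 < X) :
    IntegrableOn (fun u : ℝ => u ^ 2 * Real.exp (-(X * u ^ 2 / 2))) (Ioi 0) := by
  have h := integrableOn_rpow_mul_exp_neg_mul_rpow (p := 2) (s := 2) (b := X / 2) (by norm_num)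
    (by norm_num) (by positivity)
  refine h.congr_fun (fun u _ => ?_) measurableSet_Ioi
  simp only
  rw [Real.rpow_two]
  congr 2
  ring

theorem main (t X : ℝ) (hX : 1 ≤ X) :
    Real.exp (-(53 / 96)) / √X - t ^ 2 / 2 * (√(Real.pi / 2) / (X * √X)) ≤
      Real.exp X * KB t X := by
  have hX0 : 0 < X := by linarith
  have hs : 0 < √X := Real.sqrt_pos.mpr hX0
  have hss : √X * √X = X := Real.mul_self_sqrt hX0.le
  have hs1 : 1 ≤ √X := Real.one_le_sqrt.mpr hX
  unfold KB
  rw [← integral_const_mul]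
  have hA : Integrable (fun u : ℝ => (Ioc (0 : ℝ) (1 / √X)).indicator
      (fun _ => Real.exp (-(53 / 96))) u) (volume.restrict (Ioi 0)) := by
    refine (integrable_indicator_iff measurableSet_Ioc).mpr ?_
    have h1 : IntegrableOn (fun _ : ℝ => Real.exp (-(53 / 96))) (Ioc (0 : ℝ) (1 / √X)) :=
      integrableOn_const (by simp)
    exact h1.mono_measure Measure.restrict_le_self
  have hB := (int2 X hX0).const_mul (t ^ 2 / 2)
  have e1 : Real.exp (-(53 / 96)) / √X = ∫ u in Ioi (0 : ℝ), (Ioc (0 : ℝ) (1 / √X)).indicator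
      (fun _ => Real.exp (-(53 / 96))) u := by
    rw [setIntegral_indicator measurableSet_Ioc]
    have e2 : Ioi (0 : ℝ) ∩ Ioc (0 : ℝ) (1 / √X) = Ioc (0 : ℝ) (1 / √X) := by
      ext u
      simp only [mem_inter_iff, mem_Ioi, mem_Ioc]
      tauto
    rw [e2, setIntegral_const, measureReal_def, Real.volume_Ioc, sub_zero,
      ENNReal.toReal_ofReal (by positivity), smul_eq_mul]
    ring
  have hg : ∀ u : ℝ, Real.exp X * Real.exp (-(X * Real.cosh u)) =
      Real.exp (-(X * (Real.cosh u - 1))) := by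
    intro u
    rw [← Real.exp_add]
    congr 1
    ring
  have hgu : ∀ u : ℝ, 0 ≤ u → Real.exp (-(X * (Real.cosh u - 1))) ≤
      Real.exp (-(X * u ^ 2 / 2)) := by
    intro u hu
    apply Real.exp_le_exp.mpr
    have := mul_le_mul_of_nonneg_left (cosh_lower u hu) hX0.le
    linarith
  rw [← mom X hX0, ← integral_const_mul, e1, ← integral_sub hA hB]
  refine setIntegral_mono_on (hA.sub hB) ?_ measurableSet_Ioi ?_
  · refine (int0 X hX0).mono' (Continuous.aestronglyMeasurable (by fun_prop)) ?_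
    refine (ae_restrict_mem measurableSet_Ioi).mono fun u hu => ?_
    have hu' : 0 < u := hu
    rw [← mul_assoc, hg, norm_mul, Real.norm_of_nonneg (Real.exp_pos _).le]
    calc Real.exp (-(X * (Real.cosh u - 1))) * ‖Real.cos (t * u)‖
        ≤ Real.exp (-(X * (Real.cosh u - 1))) * 1 := by
          gcongr
          exact Real.abs_cos_le_one _
      _ ≤ Real.exp (-(X * u ^ 2 / 2)) := by
          rw [mul_one]
          exact hgu u hu'.le
  · intro u hu
    have hu' : 0 < u := hu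
    rw [← mul_assoc (Real.exp X), hg]
    set g := Real.exp (-(X * (Real.cosh u - 1))) with hgd
    have hg0 : 0 < g := Real.exp_pos _
    have h1 : g * (1 - (t * u) ^ 2 / 2) ≤ g * Real.cos (t * u) :=
      mul_le_mul_of_nonneg_left Real.one_sub_sq_div_two_le_cos hg0.le
    have h2 : g ≤ Real.exp (-(X * u ^ 2 / 2)) := hgu u hu'.le
    have h3 : (Ioc (0 : ℝ) (1 / √X)).indicator (fun _ => Real.exp (-(53 / 96))) u ≤ g := by
      by_cases hm : u ∈ Ioc (0 : ℝ) (1 / √X)
      · rw [Set.indicator_of_mem hm]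
        have hu1 : u ≤ 1 := hm.2.trans ((div_le_one hs).mpr hs1)
        have hu2 : X * u ^ 2 ≤ 1 := by
          have h4 : u * √X ≤ 1 := (le_div_iff₀ hs).mp hm.2
          have h5 : X * u ^ 2 = (u * √X) ^ 2 := by
            rw [mul_pow, sq (√X), hss]; ring
          rw [h5]
          exact pow_le_one₀ (by positivity) h4
        apply Real.exp_le_exp.mpr
        have := mul_le_mul_of_nonneg_left (cosh_upper u hu'.le hu1) hX0.le
        nlinarith
      · rw [Set.indicator_of_notMem hm]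
        exact hg0.le
    have h4 : t ^ 2 / 2 * (u ^ 2 * g) ≤ t ^ 2 / 2 * (u ^ 2 * Real.exp (-(X * u ^ 2 / 2))) := by
      gcongr
    have h5 : g * (1 - (t * u) ^ 2 / 2) = g - t ^ 2 / 2 * (u ^ 2 * g) := by ring
    linarith

end

end Pool.Agent.A54.Av.N0M

namespace Pool.Agent.A54.Av

open N0M

theorem stmtN0 : StmtN0 := by
  intro t X hX ht
  have hX0 : 0 < X := by linarith
  have hs : 0 < √X := Real.sqrt_pos.mpr hX0
  have h := mul_le_mul_of_nonneg_left (main t X hX) hs.le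
  have e : √X * (Real.exp (-(53 / 96)) / √X - t ^ 2 / 2 * (√(Real.pi / 2) / (X * √X))) =
      Real.exp (-(53 / 96)) - t ^ 2 / (2 * X) * √(Real.pi / 2) := by
    field_simp
  rw [e] at h
  have h1 := exp_num
  have h2 := sqrt_num
  have h3 : t ^ 2 / (2 * X) ≤ 1 / 8 := by
    rw [div_le_div_iff₀ (by positivity) (by norm_num)]
    linarith
  have h4 : t ^ 2 / (2 * X) * √(Real.pi / 2) ≤ 1 / 8 * (126 / 100) := by
    apply mul_le_mul h3 h2 (Real.sqrt_nonneg _) (by norm_num)
  rw [mul_assoc]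
  linarith

end Pool.Agent.A54.Av
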