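import Pool.Agent.Lib.MP_a54f13_nt.Av.SpecN
import Pool.Agent.Lib.MP_a54f13_nt.Pl.U1

/-!
# Module N1: upper bound in the local Weyl law
-/

set_option autoImplicit false

namespace Pool.Agent.A54.Av.N1M

open MeasureTheory Filter Topology Set Pool.Agent.A54.Av
open scoped ContDiff ComplexConjugate UpperHalfPlane MatrixGroups ENNReal
open Pool.Agent.A54.Half (H0 qq ff hh)

noncomputable section

/-! ### Bessel's inequality -/

lemma bessel {α : Type} [MeasurableSpace α] {μ : Measure α} {ι : Type} [Fintype ι]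
    (F : ι → α → ℝ) (k : α → ℝ) (hFm : ∀ i, AEStronglyMeasurable (F i) μ)
    (hkm : AEStronglyMeasurable k μ) (hF : ∀ i, Integrable (fun x => F i x ^ 2) μ)
    (hk : Integrable (fun x => k x ^ 2) μ) (A : ℝ) (hA : 0 < A) (hn : ∀ i, ∫ x, F i x ^ 2 ∂μ = A)
    (ho : ∀ i j, i ≠ j → ∫ x, F i x * F j x ∂μ = 0) :
    ∑ i, (∫ x, k x * F i x ∂μ) ^ 2 ≤ A * ∫ x, k x ^ 2 ∂μ := by
  classical
  have hprod : ∀ (f g : α → ℝ), AEStronglyMeasurable f μ → AEStronglyMeasurable g μ →
      Integrable (fun x => f x ^ 2) μ → Integrable (fun x => g x ^ 2) μ →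
      Integrable (fun x => f x * g x) μ := by
    intro f g hf hg hf2 hg2
    refine (hf2.add hg2).mono' (hf.mul hg) (Eventually.of_forall fun x => ?_)
    simp only [Pi.add_apply, Real.norm_eq_abs]
    rw [abs_le]
    constructor <;> nlinarith [sq_nonneg (f x + g x), sq_nonneg (f x - g x)]
  set c : ι → ℝ := fun i => ∫ x, k x * F i x ∂μ with hc
  have hFF : ∀ i j, Integrable (fun x => F i x * F j x) μ := fun i j =>
    hprod _ _ (hFm i) (hFm j) (hF i) (hF j)
  have hkF : ∀ i, Integrable (fun x => k x * F i x) μ := fun i => hprod _ _ hkm (hFm i) hk (hF i)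
  have hexp : ∀ x, (k x - ∑ i, c i / A * F i x) ^ 2 =
      k x ^ 2 - 2 * ∑ i, c i / A * (k x * F i x) +
        ∑ i, ∑ j, c i / A * (c j / A) * (F i x * F j x) := by
    intro x
    have h1 : (∑ i, c i / A * F i x) ^ 2 =
        ∑ i, ∑ j, c i / A * (c j / A) * (F i x * F j x) := by
      rw [sq, Finset.sum_mul_sum]
      refine Finset.sum_congr rfl fun i _ => Finset.sum_congr rfl fun j _ => by ring
    have h2 : k x * ∑ i, c i / A * F i x = ∑ i, c i / A * (k x * F i x) := by
      rw [Finset.mul_sum]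
      exact Finset.sum_congr rfl fun i _ => by ring
    rw [sub_sq, h1, ← h2]
    ring
  have h0 : 0 ≤ ∫ x, (k x - ∑ i, c i / A * F i x) ^ 2 ∂μ :=
    integral_nonneg fun x => sq_nonneg _
  have hI1 : Integrable (fun x => 2 * ∑ i, c i / A * (k x * F i x)) μ :=
    (integrable_finsetSum _ fun i _ => (hkF i).const_mul _).const_mul _
  have hI2 : Integrable (fun x => ∑ i, ∑ j, c i / A * (c j / A) * (F i x * F j x)) μ :=
    integrable_finsetSum _ fun i _ => integrable_finsetSum _ fun j _ => (hFF i j).const_mul _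
  have hval : ∫ x, (k x - ∑ i, c i / A * F i x) ^ 2 ∂μ =
      (∫ x, k x ^ 2 ∂μ) - 2 * ∑ i, c i / A * c i + ∑ i, c i / A * (c i / A) * A := by
    simp only [hexp]
    have hI0 : Integrable (fun x => k x ^ 2 - 2 * ∑ i, c i / A * (k x * F i x)) μ := hk.sub hI1
    rw [integral_add hI0 hI2, integral_sub hk hI1]
    congr 1
    · congr 1
      rw [integral_const_mul, integral_finsetSum _ fun i _ => (hkF i).const_mul _]
      congr 1
      refine Finset.sum_congr rfl fun i _ => ?_
      rw [integral_const_mul]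
    · rw [integral_finsetSum _ fun i _ => integrable_finsetSum _ fun j _ =>
        (hFF i j).const_mul _]
      refine Finset.sum_congr rfl fun i _ => ?_
      rw [integral_finsetSum _ fun j _ => (hFF i j).const_mul _,
        Finset.sum_eq_single i]
      · rw [integral_const_mul]
        congr 1
        rw [← hn i]
        congr 1
        ext x
        ring
      · intro j _ hj
        rw [integral_const_mul, ho i j (Ne.symm hj), mul_zero]
      · intro h
        exact absurd (Finset.mem_univ _) h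
  rw [hval] at h0
  have h3 : ∑ i, c i / A * c i = (∑ i, c i ^ 2) / A := by
    rw [Finset.sum_div]
    exact Finset.sum_congr rfl fun i _ => by ring
  have h4 : ∑ i, c i / A * (c i / A) * A = (∑ i, c i ^ 2) / A := by
    rw [Finset.sum_div]
    refine Finset.sum_congr rfl fun i _ => ?_
    field_simp
  rw [h3, h4] at h0
  have h5 : (∑ i, c i ^ 2) / A ≤ ∫ x, k x ^ 2 ∂μ := by linarith
  rw [div_le_iff₀ hA] at h5
  linarith

lemma alg (a e s x : ℝ) (hs : s ≠ 0) (hx : x = s * s) :
    4 / 5 * a * e / x = 2 * a * (2 / 5 * e / s) / s := by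
  subst hx
  field_simp
  ring

/-! ### The kernel -/

/-- `e^{-X cosh d(τ, z)}` -/
def G0 (X : ℝ) (z τ : ℍ) : ℝ := Real.exp (-(X * Real.cosh (dist τ z)))

lemma G0_pos (X : ℝ) (z τ : ℍ) : 0 < G0 X z τ := Real.exp_pos _

lemma continuous_G0 (X : ℝ) (z : ℍ) : Continuous (G0 X z) := by
  unfold G0
  exact Real.continuous_exp.comp ((continuous_const.mul
    (Real.continuous_cosh.comp (continuous_id.dist continuous_const))).neg)

lemma dist_sl (γ : SL(2, ℤ)) (τ z : ℍ) : dist (γ • τ) z = dist τ (γ⁻¹ • z) := by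
  have h1 : ∀ (g : SL(2, ℤ)) (w : ℍ), ((g : SL(2, ℝ)) • w : ℍ) = g • w := fun _ _ => rfl
  have h2 := dist_smul (γ : SL(2, ℝ)) τ (γ⁻¹ • z)
  rw [h1, h1, smul_inv_smul] at h2
  exact h2

lemma G0_smul (X : ℝ) (z τ : ℍ) (γ : SL(2, ℤ)) : G0 X z (γ • τ) = G0 X (γ⁻¹ • z) τ := by
  unfold G0
  rw [dist_sl]

lemma measurable_smul' (γ : SL(2, ℤ)) : Measurable fun τ : ℍ => γ • τ :=
  (measurePreserving_smul (γ : GL (Fin 2) ℝ) (volume : Measure ℍ)).measurable

/-- the kernel with values in `[0, ∞]` -/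
def ke (X : ℝ) (z τ : ℍ) : ℝ≥0∞ := ∑' γ : SL(2, ℤ), ENNReal.ofReal (G0 X z (γ • τ))

lemma measurable_ke (X : ℝ) (z : ℍ) : Measurable (ke X z) := by
  have := Pl.U1M.countable_sl
  unfold ke
  refine Measurable.tsum fun γ => ?_
  exact ((continuous_G0 X z).measurable.comp (measurable_smul' γ)).ennreal_ofReal

lemma ke_smul (X : ℝ) (z τ : ℍ) (g : SL(2, ℤ)) : ke X z (g • τ) = ke X z τ := by
  unfold ke
  rw [← (Equiv.mulRight g).tsum_eq (fun γ : SL(2, ℤ) => ENNReal.ofReal (G0 X z (γ • τ)))]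
  refine tsum_congr fun γ => ?_
  rw [Equiv.coe_mulRight, mul_smul]

/-- the integral of the product of two terms -/
lemma pair (hEx : StmtExI) {X : ℝ} (hX : 0 < X) (z w : ℍ) :
    ∫⁻ τ : ℍ, ENNReal.ofReal (G0 X z τ) * ENNReal.ofReal (G0 X w τ) ≤
      ENNReal.ofReal (2 * Real.pi * Real.exp (-(2 * X)) / X *
        Real.exp (-(X / 2 * (Real.cosh (dist z w / 2) - 1)))) := by
  set E : ℝ := Real.exp (-(X / 2 * (1 + Real.cosh (dist z w / 2)))) with hE
  have hpt : ∀ τ : ℍ, G0 X z τ * G0 X w τ ≤ E * ((G0 X z τ + G0 X w τ) / 2) := by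
    intro τ
    have hC : 1 + Real.cosh (dist z w / 2) ≤ Real.cosh (dist τ z) + Real.cosh (dist τ w) := by
      have hd : dist z w ≤ dist τ z + dist τ w := by
        rw [dist_comm τ z]
        exact dist_triangle _ _ _
      have hd0 : (0 : ℝ) ≤ dist z w := dist_nonneg
      have h1 := Real.one_le_cosh (dist τ z)
      have h2 := Real.one_le_cosh (dist τ w)
      rcases le_total (dist z w / 2) (dist τ z) with h | h
      · have : Real.cosh (dist z w / 2) ≤ Real.cosh (dist τ z) := by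
          rw [Real.cosh_le_cosh, abs_of_nonneg (by linarith), abs_of_nonneg dist_nonneg]
          exact h
        linarith
      · have : Real.cosh (dist z w / 2) ≤ Real.cosh (dist τ w) := by
          rw [Real.cosh_le_cosh, abs_of_nonneg (by linarith), abs_of_nonneg dist_nonneg]
          linarith
        linarith
    have e1 : G0 X z τ * G0 X w τ =
        Real.exp (-(X / 2 * (Real.cosh (dist τ z) + Real.cosh (dist τ w)))) *
          (Real.exp (-(X / 2 * Real.cosh (dist τ z))) *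
            Real.exp (-(X / 2 * Real.cosh (dist τ w)))) := by
      unfold G0
      rw [← Real.exp_add, ← Real.exp_add, ← Real.exp_add]
      congr 1
      ring
    have e2 : Real.exp (-(X / 2 * (Real.cosh (dist τ z) + Real.cosh (dist τ w)))) ≤ E := by
      rw [hE]
      apply Real.exp_le_exp.mpr
      have := mul_le_mul_of_nonneg_left hC (by linarith : 0 ≤ X / 2)
      linarith
    have e3 : Real.exp (-(X / 2 * Real.cosh (dist τ z))) *
        Real.exp (-(X / 2 * Real.cosh (dist τ w))) ≤ (G0 X z τ + G0 X w τ) / 2 := by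
      have s1 : G0 X z τ = Real.exp (-(X / 2 * Real.cosh (dist τ z))) ^ 2 := by
        unfold G0
        rw [← Real.exp_nat_mul]
        congr 1
        push_cast
        ring
      have s2 : G0 X w τ = Real.exp (-(X / 2 * Real.cosh (dist τ w))) ^ 2 := by
        unfold G0
        rw [← Real.exp_nat_mul]
        congr 1
        push_cast
        ring
      rw [s1, s2]
      nlinarith [sq_nonneg (Real.exp (-(X / 2 * Real.cosh (dist τ z))) -
        Real.exp (-(X / 2 * Real.cosh (dist τ w))))]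
    rw [e1]
    exact mul_le_mul e2 e3 (by positivity) (Real.exp_pos _).le
  have hint : ∀ v : ℍ, Integrable fun τ : ℍ => G0 X v τ := by
    intro v
    have h := (hEx X v hX).1 0
    simp only [pow_zero, one_mul] at h
    exact h
  have hval : ∀ v : ℍ, ∫ τ : ℍ, G0 X v τ = 2 * Real.pi * Real.exp (-X) / X := fun v =>
    (hEx X v hX).2
  have hint2 : Integrable fun τ : ℍ => E * ((G0 X z τ + G0 X w τ) / 2) :=
    (((hint z).add (hint w)).div_const 2).const_mul E
  calc ∫⁻ τ : ℍ, ENNReal.ofReal (G0 X z τ) * ENNReal.ofReal (G0 X w τ)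
      = ∫⁻ τ : ℍ, ENNReal.ofReal (G0 X z τ * G0 X w τ) := by
        refine lintegral_congr fun τ => ?_
        rw [ENNReal.ofReal_mul (G0_pos X z τ).le]
    _ ≤ ∫⁻ τ : ℍ, ENNReal.ofReal (E * ((G0 X z τ + G0 X w τ) / 2)) :=
        lintegral_mono fun τ => ENNReal.ofReal_le_ofReal (hpt τ)
    _ = ENNReal.ofReal (∫ τ : ℍ, E * ((G0 X z τ + G0 X w τ) / 2)) := by
        rw [ofReal_integral_eq_lintegral_ofReal hint2 (Eventually.of_forall fun τ => ?_)]
        have := (G0_pos X z τ).le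
        have := (G0_pos X w τ).le
        positivity
    _ = ENNReal.ofReal (2 * Real.pi * Real.exp (-(2 * X)) / X *
        Real.exp (-(X / 2 * (Real.cosh (dist z w / 2) - 1)))) := by
        congr 1
        rw [integral_const_mul, integral_div, integral_add (hint z) (hint w), hval, hval]
        have e4 : E * Real.exp (-X) = Real.exp (-(2 * X)) *
            Real.exp (-(X / 2 * (Real.cosh (dist z w / 2) - 1))) := by
          rw [hE, ← Real.exp_add, ← Real.exp_add]
          congr 1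
          ring
        calc E * ((2 * Real.pi * Real.exp (-X) / X + 2 * Real.pi * Real.exp (-X) / X) / 2)
            = 2 * Real.pi / X * (E * Real.exp (-X)) := by ring
          _ = _ := by rw [e4]; ring

/-- the square of the kernel -/
lemma sq_le (hUL : StmtUL) (hEx : StmtExI) {C : ℝ} {X : ℝ} (hX : 1 ≤ X) (z : ℍ)
    (h2s : Summable fun γ : SL(2, ℤ) =>
      Real.exp (-(X / 2 * (Real.cosh (dist z (γ • z) / 2) - 1))))
    (h2 : ∑' γ : SL(2, ℤ), Real.exp (-(X / 2 * (Real.cosh (dist z (γ • z) / 2) - 1))) ≤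
      C * (1 + z.im / √X)) :
    ∫⁻ τ in ModularGroup.fdo, ke X z τ ^ 2 ≤
      ENNReal.ofReal (4 * Real.pi * Real.exp (-(2 * X)) / X * (C * (1 + z.im / √X))) := by
  have hcnt := Pl.U1M.countable_sl
  have hX0 : 0 < X := by linarith
  have e1 : ∀ τ : ℍ, ke X z τ ^ 2 =
      ∑' γ : SL(2, ℤ), ENNReal.ofReal (G0 X z (γ • τ)) * ke X z (γ • τ) := by
    intro τ
    simp only [ke_smul]
    rw [ENNReal.tsum_mul_right, sq]
    rfl
  have e2 : ∫⁻ τ in ModularGroup.fdo, ke X z τ ^ 2 =
      2 * ∫⁻ τ : ℍ, ENNReal.ofReal (G0 X z τ) * ke X z τ := by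
    rw [← hUL.1 (fun τ => ENNReal.ofReal (G0 X z τ) * ke X z τ)
      ((continuous_G0 X z).measurable.ennreal_ofReal.mul (measurable_ke X z))]
    exact lintegral_congr fun τ => e1 τ
  have e3 : ∫⁻ τ : ℍ, ENNReal.ofReal (G0 X z τ) * ke X z τ =
      ∑' γ : SL(2, ℤ), ∫⁻ τ : ℍ, ENNReal.ofReal (G0 X z τ) *
        ENNReal.ofReal (G0 X (γ⁻¹ • z) τ) := by
    rw [← lintegral_tsum fun γ => ?_]
    · refine lintegral_congr fun τ => ?_
      unfold ke
      rw [ENNReal.tsum_mul_left]
      simp only [G0_smul]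
    · exact ((continuous_G0 X z).measurable.ennreal_ofReal.mul
        (continuous_G0 X (γ⁻¹ • z)).measurable.ennreal_ofReal).aemeasurable
  have e4 : ∑' γ : SL(2, ℤ), ∫⁻ τ : ℍ, ENNReal.ofReal (G0 X z τ) *
        ENNReal.ofReal (G0 X (γ⁻¹ • z) τ) ≤
      ENNReal.ofReal (2 * Real.pi * Real.exp (-(2 * X)) / X * (C * (1 + z.im / √X))) := by
    calc _ ≤ ∑' γ : SL(2, ℤ), ENNReal.ofReal (2 * Real.pi * Real.exp (-(2 * X)) / X *
          Real.exp (-(X / 2 * (Real.cosh (dist z (γ⁻¹ • z) / 2) - 1)))) :=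
          ENNReal.tsum_le_tsum fun γ => pair hEx hX0 z (γ⁻¹ • z)
      _ = ∑' γ : SL(2, ℤ), ENNReal.ofReal (2 * Real.pi * Real.exp (-(2 * X)) / X *
          Real.exp (-(X / 2 * (Real.cosh (dist z (γ • z) / 2) - 1)))) :=
          (Equiv.inv SL(2, ℤ)).tsum_eq (fun γ : SL(2, ℤ) =>
            ENNReal.ofReal (2 * Real.pi * Real.exp (-(2 * X)) / X *
              Real.exp (-(X / 2 * (Real.cosh (dist z (γ • z) / 2) - 1)))))
      _ = ENNReal.ofReal (∑' γ : SL(2, ℤ), 2 * Real.pi * Real.exp (-(2 * X)) / X *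
          Real.exp (-(X / 2 * (Real.cosh (dist z (γ • z) / 2) - 1)))) := by
          rw [ENNReal.ofReal_tsum_of_nonneg (fun γ => by positivity) (h2s.mul_left _)]
      _ ≤ _ := by
          apply ENNReal.ofReal_le_ofReal
          rw [tsum_mul_left]
          exact mul_le_mul_of_nonneg_left h2 (by positivity)
  rw [e2, e3]
  calc 2 * ∑' γ : SL(2, ℤ), ∫⁻ τ : ℍ, ENNReal.ofReal (G0 X z τ) *
        ENNReal.ofReal (G0 X (γ⁻¹ • z) τ)
      ≤ 2 * ENNReal.ofReal (2 * Real.pi * Real.exp (-(2 * X)) / X *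
        (C * (1 + z.im / √X))) := by gcongr
    _ = ENNReal.ofReal 2 * ENNReal.ofReal (2 * Real.pi * Real.exp (-(2 * X)) / X *
        (C * (1 + z.im / √X))) := by simp
    _ = _ := by
        rw [← ENNReal.ofReal_mul (by norm_num)]
        congr 1
        ring

/-- the real kernel -/
def kr (X : ℝ) (z τ : ℍ) : ℝ := ∑' γ : SL(2, ℤ), G0 X z (γ • τ)

lemma kr_nonneg (X : ℝ) (z τ : ℍ) : 0 ≤ kr X z τ := tsum_nonneg fun _ => (G0_pos _ _ _).le

lemma ofReal_kr_le (X : ℝ) (z τ : ℍ) : ENNReal.ofReal (kr X z τ) ≤ ke X z τ := by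
  by_cases hs : Summable fun γ : SL(2, ℤ) => G0 X z (γ • τ)
  · unfold kr ke
    rw [ENNReal.ofReal_tsum_of_nonneg (fun γ => (G0_pos _ _ _).le) hs]
  · unfold kr
    rw [tsum_eq_zero_of_not_summable hs]
    simp

lemma kr_sq_le (X : ℝ) (z τ : ℍ) : ENNReal.ofReal (kr X z τ ^ 2) ≤ ke X z τ ^ 2 := by
  rw [ENNReal.ofReal_pow (kr_nonneg X z τ)]
  gcongr
  exact ofReal_kr_le X z τ

lemma aesm_kr (X : ℝ) (z : ℍ) : Measurable (kr X z) := by
  have := Pl.U1M.countable_sl
  unfold kr
  exact Measurable.tsum fun γ => (continuous_G0 X z).measurable.comp (measurable_smul' γ)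

/-- the integral against a form -/
lemma against (hUL : StmtUL) (hSel : StmtSel) (hDec : StmtDec) {X : ℝ} (hX : 0 < X) (z : ℍ)
    {f : ℍ → ℝ} {t : ℝ} (hf : IsHeckeMaass f t) :
    ∫ τ in ModularGroup.fdo, kr X z τ * f τ = 2 * (2 * √(2 * Real.pi) * KB t X / √X * f z) := by
  obtain ⟨B, c, _, _, hB⟩ := hDec f t hf
  have hcont : Continuous f := Pool.Agent.A54.X.continuous_of_ext hf.smooth
  obtain ⟨hint, hval⟩ := hSel f t hf.smooth ⟨B, hB⟩ hf.eigen X hX z
  have hG : Integrable fun τ : ℍ => f τ * G0 X z τ :=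
    hint.bdd_mul (c := B) hcont.aestronglyMeasurable (Eventually.of_forall fun τ => by
      rw [Real.norm_eq_abs]
      exact hB τ)
  have h := (hUL.2 (fun τ => ((f τ * G0 X z τ : ℝ) : ℂ)) hG.ofReal).2.2
  have e1 : ∀ τ : ℍ, ∑' γ : SL(2, ℤ), ((f (γ • τ) * G0 X z (γ • τ) : ℝ) : ℂ) =
      ((kr X z τ * f τ : ℝ) : ℂ) := by
    intro τ
    rw [← Complex.ofReal_tsum]
    congr 1
    simp only [hf.invariant]
    rw [tsum_mul_left, mul_comm]
    rfl
  simp only [e1] at h
  rw [integral_complex_ofReal, integral_complex_ofReal] at h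
  have h3 : ((∫ τ in ModularGroup.fdo, kr X z τ * f τ : ℝ) : ℂ) =
      ((2 * ∫ τ : ℍ, f τ * G0 X z τ : ℝ) : ℂ) := by
    push_cast
    exact h
  have h4 := Complex.ofReal_injective h3
  rw [h4]
  congr 1

end

end Pool.Agent.A54.Av.N1M

namespace Pool.Agent.A54.Av

open MeasureTheory Filter Topology Set
open scoped ContDiff ComplexConjugate UpperHalfPlane MatrixGroups ENNReal

theorem stmtN1 (hUL : StmtUL) (hSel : StmtSel) (hEx : StmtExI) (h0 : StmtN0) (h2 : StmtN2)
    (hDec : StmtDec) : StmtN1 := by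
  obtain ⟨C, hC, h2⟩ := h2
  refine ⟨4 * C, by positivity, ?_⟩
  intro ι _ F t T hT hFam z hz
  set X : ℝ := 4 * T ^ 2 with hXdef
  have hX1 : 1 ≤ X := by nlinarith
  have hX0 : 0 < X := by linarith
  have hsq : √X = 2 * T := by
    rw [hXdef, show 4 * T ^ 2 = (2 * T) ^ 2 by ring, Real.sqrt_sq (by linarith)]
  obtain ⟨h2s, h2v⟩ := h2 z hz X hX1
  have hke := N1M.sq_le hUL hEx hX1 z h2s h2v
  set B : ℝ := 4 * Real.pi * Real.exp (-(2 * X)) / X * (C * (1 + z.im / √X)) with hB
  have hB0 : 0 ≤ B := by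
    have := z.im_pos
    positivity
  have hk2 : ∫⁻ τ in ModularGroup.fdo, ENNReal.ofReal (N1M.kr X z τ ^ 2) ≤ ENNReal.ofReal B :=
    (lintegral_mono fun τ => N1M.kr_sq_le X z τ).trans hke
  have hkm : AEStronglyMeasurable (N1M.kr X z) (volume.restrict ModularGroup.fdo) :=
    (N1M.aesm_kr X z).aestronglyMeasurable
  have hkI : Integrable (fun τ => N1M.kr X z τ ^ 2) (volume.restrict ModularGroup.fdo) := by
    refine ⟨hkm.pow 2, ?_⟩
    rw [hasFiniteIntegral_iff_ofReal (Eventually.of_forall fun τ => sq_nonneg _)]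
    exact lt_of_le_of_lt hk2 ENNReal.ofReal_lt_top
  have hkv : ∫ τ in ModularGroup.fdo, N1M.kr X z τ ^ 2 ≤ B := by
    rw [integral_eq_lintegral_of_nonneg_ae (Eventually.of_forall fun τ => sq_nonneg _)
      (hkm.pow 2)]
    exact ENNReal.toReal_le_of_le_ofReal hB0 hk2
  have hFI : ∀ i, Integrable (fun τ => F i τ ^ 2) (volume.restrict ModularGroup.fdo) := by
    intro i
    by_contra hn
    have h3 := (hFam.form i).normalised
    rw [integral_undef hn] at h3
    have := Real.pi_pos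
    linarith
  have hbes := N1M.bessel (μ := volume.restrict ModularGroup.fdo) F (N1M.kr X z)
    (fun i => (Pool.Agent.A54.X.continuous_of_ext (hFam.form i).smooth).aestronglyMeasurable) hkm hFI hkI
    (Real.pi / 3) (by positivity) (fun i => (hFam.form i).normalised) hFam.orth
  have hlow : ∀ i, 4 * ((16 / 25) * (2 * Real.pi) * Real.exp (-(2 * X)) / X ^ 2) * F i z ^ 2 ≤
      (∫ τ in ModularGroup.fdo, N1M.kr X z τ * F i τ) ^ 2 := by
    intro i
    rw [N1M.against hUL hSel hDec hX0 z (hFam.form i)]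
    have ht0 := (hFam.form i).pos
    have htT := hFam.le i
    have hN := h0 (t i) X hX1 (by rw [hXdef]; nlinarith)
    have hsX : 0 < √X := Real.sqrt_pos.mpr hX0
    have hexp : 0 < Real.exp X := Real.exp_pos X
    have hK : 2 / 5 * Real.exp (-X) / √X ≤ KB (t i) X := by
      rw [div_le_iff₀ hsX, Real.exp_neg]
      have h5 : 2 / 5 * (Real.exp X)⁻¹ ≤ √X * Real.exp X * KB (t i) X * (Real.exp X)⁻¹ :=
        mul_le_mul_of_nonneg_right hN (by positivity)
      have h6 : √X * Real.exp X * KB (t i) X * (Real.exp X)⁻¹ = KB (t i) X * √X := by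
        field_simp
      linarith
    have hκ : 4 / 5 * √(2 * Real.pi) * Real.exp (-X) / X ≤
        2 * √(2 * Real.pi) * KB (t i) X / √X := by
      have h7 : 4 / 5 * √(2 * Real.pi) * Real.exp (-X) / X =
          2 * √(2 * Real.pi) * (2 / 5 * Real.exp (-X) / √X) / √X := by
        have h8 : X = √X * √X := (Real.mul_self_sqrt hX0.le).symm
        exact N1M.alg _ _ _ _ hsX.ne' h8
      rw [h7]
      gcongr
    have hκ0 : 0 ≤ 4 / 5 * √(2 * Real.pi) * Real.exp (-X) / X := by positivity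
    have h9 : (4 / 5 * √(2 * Real.pi) * Real.exp (-X) / X) ^ 2 =
        (16 / 25) * (2 * Real.pi) * Real.exp (-(2 * X)) / X ^ 2 := by
      have e1 : √(2 * Real.pi) ^ 2 = 2 * Real.pi := Real.sq_sqrt (by positivity)
      have e2 : Real.exp (-X) ^ 2 = Real.exp (-(2 * X)) := by
        rw [← Real.exp_nat_mul]
        congr 1
        push_cast
        ring
      rw [div_pow, mul_pow, mul_pow, e1, e2]
      ring
    rw [← h9]
    have h10 : (4 / 5 * √(2 * Real.pi) * Real.exp (-X) / X) ^ 2 ≤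
        (2 * √(2 * Real.pi) * KB (t i) X / √X) ^ 2 := by
      gcongr
    have h11 := mul_le_mul_of_nonneg_right h10 (sq_nonneg (F i z))
    calc 4 * (4 / 5 * √(2 * Real.pi) * Real.exp (-X) / X) ^ 2 * F i z ^ 2
        = 4 * ((4 / 5 * √(2 * Real.pi) * Real.exp (-X) / X) ^ 2 * F i z ^ 2) := by ring
      _ ≤ 4 * ((2 * √(2 * Real.pi) * KB (t i) X / √X) ^ 2 * F i z ^ 2) := by linarith
      _ = _ := by ring
  have hsum : 4 * ((16 / 25) * (2 * Real.pi) * Real.exp (-(2 * X)) / X ^ 2) * ∑ i, F i z ^ 2 ≤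
      Real.pi / 3 * B := by
    rw [Finset.mul_sum]
    calc _ ≤ ∑ i, (∫ τ in ModularGroup.fdo, N1M.kr X z τ * F i τ) ^ 2 :=
          Finset.sum_le_sum fun i _ => hlow i
      _ ≤ _ := hbes
      _ ≤ _ := mul_le_mul_of_nonneg_left hkv (by positivity)
  -- final computation
  have hexp2 : 0 < Real.exp (-(2 * X)) := Real.exp_pos _
  have hpi := Real.pi_pos
  have hpi2 : Real.pi < 3.15 := Real.pi_lt_d2
  set S : ℝ := ∑ i, F i z ^ 2 with hS
  have hy := z.im_pos
  have hT0 : 0 < T := by linarith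
  have hq : z.im / √X ≤ z.im / T := by
    rw [hsq]
    gcongr
    linarith
  have h12 : S ≤ X * (25 * Real.pi / 96) * (C * (1 + z.im / √X)) := by
    have h13 : 4 * ((16 / 25) * (2 * Real.pi) * Real.exp (-(2 * X)) / X ^ 2) *
        (X * (25 * Real.pi / 96) * (C * (1 + z.im / √X))) = Real.pi / 3 * B := by
      rw [hB]
      field_simp
      ring
    rw [← h13] at hsum
    exact le_of_mul_le_mul_left hsum (by positivity)
  calc S ≤ X * (25 * Real.pi / 96) * (C * (1 + z.im / √X)) := h12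
    _ ≤ X * 1 * (C * (1 + z.im / T)) := by
        gcongr
        linarith
    _ = 4 * C * T ^ 2 * (1 + z.im / T) := by
        rw [hXdef]
        ring

end Pool.Agent.A54.Av
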