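import Pool.Agent.Lib.MP_a54f13_nt.Av.SpecN

/-!
# Package Av, module N2: counting in SL(2,Z)
-/

set_option autoImplicit false

namespace Pool.Agent.A54.Av

open MeasureTheory Filter Topology Set
open scoped ComplexConjugate UpperHalfPlane MatrixGroups

namespace N2M

/-- the two basic identities for `R = cosh (d(z, γ z) / 2)` -/
theorem formulas (z : ℍ) (γ : SL(2, ℤ)) :
    (2 * z.im * Real.cosh (dist z (γ • z) / 2)) ^ 2 =
      (((γ 1 0 : ℤ) : ℝ) * (z.re ^ 2 + z.im ^ 2) + (((γ 1 1 : ℤ) : ℝ) - ((γ 0 0 : ℤ) : ℝ)) * z.re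
        - ((γ 0 1 : ℤ) : ℝ)) ^ 2 +
      ((((γ 0 0 : ℤ) : ℝ) + ((γ 1 1 : ℤ) : ℝ)) * z.im) ^ 2 := by
  have hy := z.im_pos
  set w := γ • z with hw
  set a : ℝ := ((γ 0 0 : ℤ) : ℝ) with ha
  set b : ℝ := ((γ 0 1 : ℤ) : ℝ) with hb
  set c : ℝ := ((γ 1 0 : ℤ) : ℝ) with hc
  set d : ℝ := ((γ 1 1 : ℤ) : ℝ) with hd
  have hyw := w.im_pos
  set D : ℂ := (c : ℂ) * (z : ℂ) + d with hD
  have hwc : (w : ℂ) = ((a : ℂ) * z + b) / D := by
    rw [hw, UpperHalfPlane.coe_specialLinearGroup_apply, hD, ha, hb, hc, hd]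
    simp
  have hD0 : D ≠ 0 := by
    intro h0
    rw [h0, div_zero] at hwc
    have : (w : ℂ).im = 0 := by rw [hwc]; simp
    rw [UpperHalfPlane.coe_im] at this
    linarith
  have him : w.im = z.im / Complex.normSq D := by
    have h := ModularGroup.im_smul_eq_div_normSq γ z
    rw [ModularGroup.denom_apply] at h
    rw [hw, h]
    congr 2
  have hN : 0 < Complex.normSq D := Complex.normSq_pos.2 hD0
  have hE : (conj (z : ℂ) - w) * D = conj (z : ℂ) * D - (a * z + b) := by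
    rw [hwc]
    field_simp
  rw [UpperHalfPlane.cosh_half_dist, Complex.dist_eq]
  have h1 : ‖(z : ℂ) - conj (w : ℂ)‖ ^ 2 = Complex.normSq (conj (z : ℂ) - w) := by
    rw [Complex.sq_norm, ← Complex.normSq_conj]
    simp
  have h2 : Complex.normSq (conj (z : ℂ) - w) * Complex.normSq D =
      (c * (z.re ^ 2 + z.im ^ 2) + (d - a) * z.re - b) ^ 2 + ((a + d) * z.im) ^ 2 := by
    rw [← map_mul, hE, hD, Complex.normSq_apply]
    simp only [Complex.sub_re, Complex.mul_re, Complex.add_re, Complex.ofReal_re, Complex.ofReal_im,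
      Complex.conj_re, Complex.conj_im, Complex.mul_im, Complex.add_im, Complex.sub_im,
      UpperHalfPlane.coe_re, UpperHalfPlane.coe_im]
    ring
  rw [mul_div_assoc', div_pow, mul_pow, mul_pow, h1, mul_pow, Real.sq_sqrt (by positivity), him]
  rw [← h2]
  field_simp

/-- second identity -/
theorem formulas2 (z : ℍ) (γ : SL(2, ℤ)) :
    (2 * z.im * Real.cosh (dist z (γ • z) / 2)) ^ 2 - (2 * z.im) ^ 2 =
      (((γ 1 0 : ℤ) : ℝ) * (z.re ^ 2 - z.im ^ 2) + (((γ 1 1 : ℤ) : ℝ) - ((γ 0 0 : ℤ) : ℝ)) * z.re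
        - ((γ 0 1 : ℤ) : ℝ)) ^ 2 +
      ((2 * ((γ 1 0 : ℤ) : ℝ) * z.re - (((γ 0 0 : ℤ) : ℝ) - ((γ 1 1 : ℤ) : ℝ))) * z.im) ^ 2 := by
  rw [formulas]
  have hdet : ((γ 0 0 : ℤ) : ℝ) * ((γ 1 1 : ℤ) : ℝ) - ((γ 0 1 : ℤ) : ℝ) * ((γ 1 0 : ℤ) : ℝ) = 1 := by
    have h := γ.det_coe
    rw [Matrix.det_fin_two] at h
    exact_mod_cast h
  linear_combination (4 * z.im ^ 2) * hdet

/-- bounds for the entries -/
theorem bounds (z : ℍ) (γ : SL(2, ℤ)) :
    |((γ 1 0 : ℤ) : ℝ)| * z.im ≤ 2 * Real.cosh (dist z (γ • z) / 2) ∧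
    |((γ 0 0 : ℤ) : ℝ) - ((γ 1 0 : ℤ) : ℝ) * z.re| ≤ 2 * Real.cosh (dist z (γ • z) / 2) ∧
    |((γ 1 1 : ℤ) : ℝ) + ((γ 1 0 : ℤ) : ℝ) * z.re| ≤ 2 * Real.cosh (dist z (γ • z) / 2) := by
  have hy := z.im_pos
  have h1 := formulas z γ
  have h2 := formulas2 z γ
  set R := Real.cosh (dist z (γ • z) / 2) with hR
  have hR1 : 1 ≤ R := Real.one_le_cosh _
  set a : ℝ := ((γ 0 0 : ℤ) : ℝ)
  set b : ℝ := ((γ 0 1 : ℤ) : ℝ)
  set c : ℝ := ((γ 1 0 : ℤ) : ℝ)
  set d : ℝ := ((γ 1 1 : ℤ) : ℝ)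
  have hyR : 0 ≤ 2 * z.im * R := by positivity
  have k1 : |c * (z.re ^ 2 + z.im ^ 2) + (d - a) * z.re - b| ≤ 2 * z.im * R := by
    refine abs_le_of_sq_le_sq ?_ hyR
    nlinarith [sq_nonneg ((a + d) * z.im)]
  have k2 : |(a + d) * z.im| ≤ 2 * z.im * R := by
    refine abs_le_of_sq_le_sq ?_ hyR
    nlinarith [sq_nonneg (c * (z.re ^ 2 + z.im ^ 2) + (d - a) * z.re - b)]
  have k3 : |c * (z.re ^ 2 - z.im ^ 2) + (d - a) * z.re - b| ≤ 2 * z.im * R := by
    refine abs_le_of_sq_le_sq ?_ hyR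
    nlinarith [sq_nonneg ((2 * c * z.re - (a - d)) * z.im), sq_nonneg (2 * z.im)]
  have k4 : |(2 * c * z.re - (a - d)) * z.im| ≤ 2 * z.im * R := by
    refine abs_le_of_sq_le_sq ?_ hyR
    nlinarith [sq_nonneg (c * (z.re ^ 2 - z.im ^ 2) + (d - a) * z.re - b), sq_nonneg (2 * z.im)]
  have m2 : |a + d| ≤ 2 * R := by
    rw [abs_mul, abs_of_pos hy] at k2
    have : |a + d| * z.im ≤ (2 * R) * z.im := by linarith
    exact le_of_mul_le_mul_right this hy
  have m4 : |2 * c * z.re - (a - d)| ≤ 2 * R := by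
    rw [abs_mul, abs_of_pos hy] at k4
    have : |2 * c * z.re - (a - d)| * z.im ≤ (2 * R) * z.im := by linarith
    exact le_of_mul_le_mul_right this hy
  refine ⟨?_, ?_, ?_⟩
  · have e : 2 * (c * z.im) * z.im = (c * (z.re ^ 2 + z.im ^ 2) + (d - a) * z.re - b) -
        (c * (z.re ^ 2 - z.im ^ 2) + (d - a) * z.re - b) := by ring
    have h3 : |2 * (c * z.im) * z.im| ≤ 4 * z.im * R := by
      rw [e]
      refine (abs_sub _ _).trans ?_
      linarith
    rw [abs_mul, abs_mul, abs_mul, abs_of_pos hy, abs_of_pos (by norm_num : (0 : ℝ) < 2)] at h3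
    have : (|c| * z.im) * z.im ≤ (2 * R) * z.im := by linarith
    exact le_of_mul_le_mul_right this hy
  · have e : a - c * z.re = ((a + d) - (2 * c * z.re - (a - d))) / 2 := by ring
    rw [e, abs_div, abs_of_pos (by norm_num : (0 : ℝ) < 2)]
    have := abs_sub (a + d) (2 * c * z.re - (a - d))
    linarith
  · have e : d + c * z.re = ((a + d) + (2 * c * z.re - (a - d))) / 2 := by ring
    rw [e, abs_div, abs_of_pos (by norm_num : (0 : ℝ) < 2)]
    have := abs_add_le (a + d) (2 * c * z.re - (a - d))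
    linarith

/-- geometric sums over the integers -/
theorem geo (l : ℝ) (hl : 0 < l) (J : Finset ℤ) :
    ∑ n ∈ J, Real.exp (-(l * |(n : ℝ)|)) ≤ 1 + 2 / l := by
  set r : ℝ := Real.exp (-l) with hr
  have hr0 : 0 < r := Real.exp_pos _
  have hr1 : r < 1 := by
    rw [hr, Real.exp_lt_one_iff]
    linarith
  have h1 : HasSum (fun n : ℕ => Real.exp (-(l * |((n : ℤ) : ℝ)|))) (1 - r)⁻¹ := by
    have h := hasSum_geometric_of_lt_one hr0.le hr1
    have e : (fun n : ℕ => Real.exp (-(l * |((n : ℤ) : ℝ)|))) = fun n : ℕ => r ^ n := by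
      funext n
      rw [hr, ← Real.exp_nat_mul]
      congr 1
      have : |(((n : ℕ) : ℤ) : ℝ)| = n := by simp
      rw [this]
      ring
    rw [e]
    exact h
  have h2 : HasSum (fun n : ℕ => Real.exp (-(l * |((-((n : ℤ) + 1) : ℤ) : ℝ)|))) (r * (1 - r)⁻¹) := by
    have h := (hasSum_geometric_of_lt_one hr0.le hr1).mul_left r
    have e : (fun n : ℕ => Real.exp (-(l * |((-((n : ℤ) + 1) : ℤ) : ℝ)|))) =
        fun n : ℕ => r * r ^ n := by
      funext n
      rw [hr, ← Real.exp_nat_mul, ← Real.exp_add]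
      congr 1
      have : |((-((n : ℤ) + 1) : ℤ) : ℝ)| = n + 1 := by
        push_cast
        rw [abs_neg, abs_of_nonneg (by positivity)]
      rw [this]
      ring
    rw [e]
    exact h
  have h3 := HasSum.of_nat_of_neg_add_one (f := fun n : ℤ => Real.exp (-(l * |(n : ℝ)|))) h1 h2
  have h4 : ∑ n ∈ J, Real.exp (-(l * |(n : ℝ)|)) ≤ (1 - r)⁻¹ + r * (1 - r)⁻¹ :=
    sum_le_hasSum J (fun _ _ => (Real.exp_pos _).le) h3
  refine h4.trans ?_
  have h5 : (1 + l) * r ≤ 1 := by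
    have := Real.add_one_le_exp l
    calc (1 + l) * r ≤ Real.exp l * r := mul_le_mul_of_nonneg_right (by linarith) hr0.le
      _ = 1 := by rw [hr, ← Real.exp_add]; simp
  have h6 : (0 : ℝ) < 1 - r := by linarith
  have e : (1 - r)⁻¹ + r * (1 - r)⁻¹ = 1 + 2 * r / (1 - r) := by
    field_simp
    ring
  rw [e]
  have h7 : 2 * r / (1 - r) ≤ 2 / l := by
    rw [div_le_div_iff₀ h6 hl]
    linarith
  linarith

/-- shifted sums -/
theorem geoShift (t : ℝ) (J : Finset ℤ) :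
    ∑ n ∈ J, Real.exp (-(1 / 12 * |(n : ℝ) - t|)) ≤ 50 := by
  have h1 : ∑ n ∈ J, Real.exp (-(1 / 12 * |(n : ℝ) - t|)) ≤
      ∑ n ∈ J, 2 * Real.exp (-(1 / 12 * |((n - round t : ℤ) : ℝ)|)) := by
    refine Finset.sum_le_sum fun n _ => ?_
    have h2 : |((n - round t : ℤ) : ℝ)| ≤ |(n : ℝ) - t| + 1 / 2 := by
      have h3 := abs_sub_round t
      have e : ((n - round t : ℤ) : ℝ) = ((n : ℝ) - t) + (t - round t) := by
        push_cast
        ring
      rw [e]
      exact (abs_add_le _ _).trans (by linarith)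
    have h4 : (1 : ℝ) ≤ Real.log 2 * 2 := by
      have := Real.log_two_gt_d9
      linarith
    calc Real.exp (-(1 / 12 * |(n : ℝ) - t|)) ≤
        Real.exp (Real.log 2 + -(1 / 12 * |((n - round t : ℤ) : ℝ)|)) := by
          apply Real.exp_le_exp.2
          linarith
      _ = 2 * Real.exp (-(1 / 12 * |((n - round t : ℤ) : ℝ)|)) := by
          rw [Real.exp_add, Real.exp_log (by norm_num)]
  refine h1.trans ?_
  rw [← Finset.mul_sum]
  have h5 : ∑ n ∈ J, Real.exp (-(1 / 12 * |((n - round t : ℤ) : ℝ)|)) =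
      ∑ n ∈ J.image (fun n => n - round t), Real.exp (-(1 / 12 * |(n : ℝ)|)) := by
    rw [Finset.sum_image]
    intro x _ y _ h
    simpa using h
  rw [h5]
  have h6 := geo (1 / 12) (by norm_num) (J.image (fun n => n - round t))
  calc _ ≤ 2 * (1 + 2 / (1 / 12 : ℝ)) := by linarith
    _ = 50 := by norm_num

theorem geo24 (J : Finset ℤ) : ∑ n ∈ J, Real.exp (-(1 / 24 * |(n : ℝ)|)) ≤ 49 := by
  have h6 := geo (1 / 24) (by norm_num) J
  calc _ ≤ (1 + 2 / (1 / 24 : ℝ)) := h6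
    _ = 49 := by norm_num

/-- the terms with `c ≠ 0` -/
theorem partA (z : ℍ) (hy : 1 / 2 ≤ z.im) (X : ℝ) (hX : 1 ≤ X) (S : Finset SL(2, ℤ))
    (hS : ∀ γ ∈ S, γ 1 0 ≠ 0) :
    ∑ γ ∈ S, Real.exp (-(X / 2 * (Real.cosh (dist z (γ • z) / 2) - 1))) ≤ 245000 := by
  classical
  set g : ℤ × ℤ × ℤ → ℝ := fun p => 2 * (Real.exp (-(1 / 24 * |(p.1 : ℝ)|)) *
    (Real.exp (-(1 / 12 * |(p.2.1 : ℝ) - p.1 * z.re|)) *
      Real.exp (-(1 / 12 * |(p.2.2 : ℝ) - (-(p.1 * z.re))|)))) with hg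
  have hg0 : ∀ p, 0 ≤ g p := fun p => by rw [hg]; positivity
  set i : SL(2, ℤ) → ℤ × ℤ × ℤ := fun γ => (γ 1 0, γ 0 0, γ 1 1) with hi
  have h1 : ∀ γ ∈ S, Real.exp (-(X / 2 * (Real.cosh (dist z (γ • z) / 2) - 1))) ≤ g (i γ) := by
    intro γ _
    obtain ⟨b1, b2, b3⟩ := bounds z γ
    set R := Real.cosh (dist z (γ • z) / 2)
    have hR : 1 ≤ R := Real.one_le_cosh _
    have h2 : (1 : ℝ) / 2 ≤ Real.log 2 := by
      have := Real.log_two_gt_d9
      linarith
    have h3 : 1 / 2 * |((γ 1 0 : ℤ) : ℝ)| ≤ |((γ 1 0 : ℤ) : ℝ)| * z.im := by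
      have := mul_le_mul_of_nonneg_left hy (abs_nonneg ((γ 1 0 : ℤ) : ℝ))
      linarith
    have h4 : 1 / 2 * (R - 1) ≤ X / 2 * (R - 1) := by nlinarith
    calc Real.exp (-(X / 2 * (R - 1))) ≤ Real.exp (Real.log 2 + (-(1 / 24 * |((γ 1 0 : ℤ) : ℝ)|) +
          (-(1 / 12 * |((γ 0 0 : ℤ) : ℝ) - (γ 1 0 : ℤ) * z.re|) +
          -(1 / 12 * |((γ 1 1 : ℤ) : ℝ) + (γ 1 0 : ℤ) * z.re|)))) := by
            apply Real.exp_le_exp.2
            linarith
      _ = g (i γ) := by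
          rw [Real.exp_add, Real.exp_add, Real.exp_add, Real.exp_log (by norm_num), hg, hi]
          simp only [sub_neg_eq_add]
  have hinj : ∀ γ ∈ S, ∀ γ' ∈ S, i γ = i γ' → γ = γ' := by
    intro γ h γ' _ he
    simp only [hi, Prod.mk.injEq] at he
    obtain ⟨e1, e2, e3⟩ := he
    have d1 := γ.det_coe
    have d2 := γ'.det_coe
    rw [Matrix.det_fin_two] at d1 d2
    have hb : γ 0 1 = γ' 0 1 := by
      have h0 := hS γ h
      have : γ 0 1 * γ 1 0 = γ' 0 1 * γ 1 0 := by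
        have t1 : γ 0 1 * γ 1 0 = γ 0 0 * γ 1 1 - 1 := by linarith
        have t2 : γ' 0 1 * γ' 1 0 = γ' 0 0 * γ' 1 1 - 1 := by linarith
        rw [t1, e1, t2, e2, e3]
      exact mul_right_cancel₀ h0 this
    ext x y
    fin_cases x <;> fin_cases y
    · exact e2
    · exact hb
    · exact e1
    · exact e3
  obtain ⟨Ic, hIc⟩ : ∃ I : Finset ℤ, I = S.image (fun γ => γ 1 0) := ⟨_, rfl⟩
  obtain ⟨Ia, hIa⟩ : ∃ I : Finset ℤ, I = S.image (fun γ => γ 0 0) := ⟨_, rfl⟩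
  obtain ⟨Id, hId⟩ : ∃ I : Finset ℤ, I = S.image (fun γ => γ 1 1) := ⟨_, rfl⟩
  calc ∑ γ ∈ S, Real.exp (-(X / 2 * (Real.cosh (dist z (γ • z) / 2) - 1)))
      ≤ ∑ γ ∈ S, g (i γ) := Finset.sum_le_sum h1
    _ = ∑ p ∈ S.image i, g p := (Finset.sum_image (fun x hx y hy h => hinj x hx y hy h)).symm
    _ ≤ ∑ p ∈ Ic ×ˢ (Ia ×ˢ Id), g p := by
          refine Finset.sum_le_sum_of_subset_of_nonneg ?_ (fun p _ _ => hg0 p)
          intro p hp
          obtain ⟨γ, hγ, rfl⟩ := Finset.mem_image.1 hp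
          simp only [hi, Finset.mem_product, hIc, hIa, hId]
          exact ⟨Finset.mem_image_of_mem _ hγ, Finset.mem_image_of_mem _ hγ,
            Finset.mem_image_of_mem _ hγ⟩
    _ = ∑ c ∈ Ic, 2 * (Real.exp (-(1 / 24 * |(c : ℝ)|)) *
        ((∑ a ∈ Ia, Real.exp (-(1 / 12 * |(a : ℝ) - c * z.re|))) *
          (∑ d ∈ Id, Real.exp (-(1 / 12 * |(d : ℝ) - (-(c * z.re))|))))) := by
          rw [Finset.sum_product]
          refine Finset.sum_congr rfl fun c _ => ?_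
          rw [Finset.sum_product, Finset.sum_mul_sum, Finset.mul_sum, Finset.mul_sum]
          refine Finset.sum_congr rfl fun a _ => ?_
          rw [Finset.mul_sum, Finset.mul_sum]
    _ ≤ ∑ c ∈ Ic, 2 * (Real.exp (-(1 / 24 * |(c : ℝ)|)) * (50 * 50)) := by
          refine Finset.sum_le_sum fun c _ => ?_
          refine mul_le_mul_of_nonneg_left ?_ (by norm_num)
          refine mul_le_mul_of_nonneg_left ?_ (Real.exp_pos _).le
          refine mul_le_mul (geoShift _ _) (geoShift _ _)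
            (Finset.sum_nonneg fun _ _ => (Real.exp_pos _).le) (by norm_num)
    _ = 5000 * ∑ c ∈ Ic, Real.exp (-(1 / 24 * |(c : ℝ)|)) := by
          rw [Finset.mul_sum]
          refine Finset.sum_congr rfl fun c _ => ?_
          ring
    _ ≤ 245000 := by
          have := geo24 Ic
          linarith

/-- the terms with `c = 0` -/
theorem partB (z : ℍ) (X : ℝ) (hX : 1 ≤ X) (S : Finset SL(2, ℤ))
    (hS : ∀ γ ∈ S, γ 1 0 = 0) :
    ∑ γ ∈ S, Real.exp (-(X / 2 * (Real.cosh (dist z (γ • z) / 2) - 1))) ≤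
      4 * (1 + 20 * (z.im / √X)) := by
  classical
  have hy := z.im_pos
  have hsX : 1 ≤ √X := Real.one_le_sqrt.2 hX
  have hXX : √X * √X = X := Real.mul_self_sqrt (by linarith)
  set l : ℝ := √X / (10 * z.im) with hl
  have hl0 : 0 < l := by positivity
  set g : ℤ × ℤ → ℝ := fun p => 2 * Real.exp (-(l * |(p.2 : ℝ)|)) with hg
  have hg0 : ∀ p, 0 ≤ g p := fun p => by rw [hg]; positivity
  set i : SL(2, ℤ) → ℤ × ℤ := fun γ => (γ 0 0, γ 0 1) with hi
  have had : ∀ γ ∈ S, (γ 0 0 = 1 ∧ γ 1 1 = 1) ∨ (γ 0 0 = -1 ∧ γ 1 1 = -1) := by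
    intro γ h
    have d1 := γ.det_coe
    rw [Matrix.det_fin_two, hS γ h, mul_zero, sub_zero] at d1
    exact Int.mul_eq_one_iff_eq_one_or_neg_one.1 d1
  have h1 : ∀ γ ∈ S, Real.exp (-(X / 2 * (Real.cosh (dist z (γ • z) / 2) - 1))) ≤ g (i γ) := by
    intro γ h
    have hf := formulas z γ
    have hR : 1 ≤ Real.cosh (dist z (γ • z) / 2) := Real.one_le_cosh _
    set R := Real.cosh (dist z (γ • z) / 2)
    have e0 : ((γ 1 1 : ℤ) : ℝ) - ((γ 0 0 : ℤ) : ℝ) = 0 := by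
      rcases had γ h with ⟨e1, e2⟩ | ⟨e1, e2⟩ <;> rw [e1, e2] <;> simp
    have e3 : (((γ 0 0 : ℤ) : ℝ) + ((γ 1 1 : ℤ) : ℝ)) ^ 2 = 4 := by
      rcases had γ h with ⟨e1, e2⟩ | ⟨e1, e2⟩ <;> rw [e1, e2] <;> norm_num
    rw [hS γ h, e0] at hf
    set b : ℝ := ((γ 0 1 : ℤ) : ℝ) with hb
    have hf2 : 4 * z.im ^ 2 * R ^ 2 = b ^ 2 + 4 * z.im ^ 2 := by
      have t : (((((γ 0 0 : ℤ) : ℝ) + ((γ 1 1 : ℤ) : ℝ)) * z.im) ^ 2) = 4 * z.im ^ 2 := by
        rw [mul_pow, e3]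
      rw [t] at hf
      push_cast at hf
      nlinarith
    set v : ℝ := |b| / (2 * z.im) with hv
    have hv0 : 0 ≤ v := by positivity
    have hRv : R ^ 2 = 1 + v ^ 2 := by
      rw [hv, div_pow, sq_abs]
      field_simp
      linarith
    -- `R - 1 ≥ (2/5) min(v², v)`
    have key : l * |b| ≤ Real.log 2 + X / 2 * (R - 1) := by
      have hlb : l * |b| = √X * v / 5 := by
        rw [hl, hv]
        field_simp
        ring
      rw [hlb]
      have hlog : (1 : ℝ) / 2 ≤ Real.log 2 := by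
        have := Real.log_two_gt_d9
        linarith
      rcases le_total v 1 with h5 | h5
      · have h6 : 2 / 5 * v ^ 2 ≤ R - 1 := by
          have : (R - 1) * (R + 1) = v ^ 2 := by nlinarith
          have hR2 : R ≤ 3 / 2 := by nlinarith
          nlinarith
        have h7 : X / 2 * (2 / 5 * v ^ 2) ≤ X / 2 * (R - 1) :=
          mul_le_mul_of_nonneg_left h6 (by linarith)
        have h8 : √X * v - 1 / 4 ≤ X * v ^ 2 := by
          have : X * v ^ 2 = (√X * v) ^ 2 := by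
            rw [mul_pow, Real.sq_sqrt (by linarith)]
          rw [this]
          nlinarith [sq_nonneg (√X * v - 1 / 2)]
        linarith
      · have h6 : 2 / 5 * v ≤ R - 1 := by
          have : (1 + 2 / 5 * v) ^ 2 ≤ R ^ 2 := by
            rw [hRv]
            nlinarith
          have := abs_le_of_sq_le_sq' this (by linarith)
          linarith [this.2]
        have h7 : X / 2 * (2 / 5 * v) ≤ X / 2 * (R - 1) :=
          mul_le_mul_of_nonneg_left h6 (by linarith)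
        have h8 : √X * v ≤ X * v := by
          refine mul_le_mul_of_nonneg_right ?_ hv0
          nlinarith
        linarith
    calc Real.exp (-(X / 2 * (R - 1))) ≤ Real.exp (Real.log 2 + -(l * |b|)) := by
          apply Real.exp_le_exp.2
          linarith
      _ = g (i γ) := by
          rw [Real.exp_add, Real.exp_log (by norm_num), hg, hi]
  have hinj : ∀ γ ∈ S, ∀ γ' ∈ S, i γ = i γ' → γ = γ' := by
    intro γ h γ' h' he
    simp only [hi, Prod.mk.injEq] at he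
    obtain ⟨e1, e2⟩ := he
    have e3 : γ 1 0 = γ' 1 0 := by rw [hS γ h, hS γ' h']
    have e4 : γ 1 1 = γ' 1 1 := by
      rcases had γ h with ⟨f1, f2⟩ | ⟨f1, f2⟩ <;> rcases had γ' h' with ⟨g1, g2⟩ | ⟨g1, g2⟩ <;>
        rw [f2, g2] <;> rw [f1, g1] at e1 <;> norm_num at e1
    ext x y
    fin_cases x <;> fin_cases y
    · exact e1
    · exact e2
    · exact e3
    · exact e4
  obtain ⟨Ib, hIb⟩ : ∃ I : Finset ℤ, I = S.image (fun γ => γ 0 1) := ⟨_, rfl⟩
  calc ∑ γ ∈ S, Real.exp (-(X / 2 * (Real.cosh (dist z (γ • z) / 2) - 1)))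
      ≤ ∑ γ ∈ S, g (i γ) := Finset.sum_le_sum h1
    _ = ∑ p ∈ S.image i, g p := (Finset.sum_image (fun x hx y hy h => hinj x hx y hy h)).symm
    _ ≤ ∑ p ∈ ({1, -1} : Finset ℤ) ×ˢ Ib, g p := by
          refine Finset.sum_le_sum_of_subset_of_nonneg ?_ (fun p _ _ => hg0 p)
          intro p hp
          obtain ⟨γ, hγ, rfl⟩ := Finset.mem_image.1 hp
          simp only [hi, Finset.mem_product, hIb]
          refine ⟨?_, Finset.mem_image_of_mem _ hγ⟩
          rcases had γ hγ with ⟨e1, -⟩ | ⟨e1, -⟩ <;> rw [e1] <;> simp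
    _ = 4 * ∑ b ∈ Ib, Real.exp (-(l * |(b : ℝ)|)) := by
          rw [Finset.sum_product, Finset.sum_pair (by norm_num)]
          simp only [hg]
          rw [← Finset.mul_sum]
          ring
    _ ≤ 4 * (1 + 20 * (z.im / √X)) := by
          have h2 := geo l hl0 Ib
          have e : 2 / l = 20 * (z.im / √X) := by
            rw [hl]
            field_simp
            norm_num
          rw [e] at h2
          linarith

end N2M

open N2M in
theorem stmtN2 : StmtN2 := by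
  refine ⟨245080, by norm_num, ?_⟩
  intro z hz X hX
  have hy : 1 / 2 ≤ z.im := by
    obtain ⟨h1, h2⟩ := hz
    have hp := z.im_pos
    rw [Complex.normSq_apply, UpperHalfPlane.coe_re, UpperHalfPlane.coe_im] at h1
    have h3 := abs_le.1 h2
    nlinarith
  have hfin : ∀ S : Finset SL(2, ℤ),
      ∑ γ ∈ S, Real.exp (-(X / 2 * (Real.cosh (dist z (γ • z) / 2) - 1))) ≤
        245080 * (1 + z.im / √X) := by
    intro S
    classical
    have hA := partA z hy X hX (S.filter (fun γ => γ 1 0 ≠ 0))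
      (fun γ hγ => (Finset.mem_filter.1 hγ).2)
    have hB := partB z X hX (S.filter (fun γ => ¬ γ 1 0 ≠ 0))
      (fun γ hγ => not_not.1 (Finset.mem_filter.1 hγ).2)
    rw [← Finset.sum_filter_add_sum_filter_not S (fun γ => γ 1 0 ≠ 0)]
    have hq : 0 ≤ z.im / √X := by
      have := z.im_pos
      positivity
    linarith
  exact ⟨summable_of_sum_le (fun _ => (Real.exp_pos _).le) hfin,
    Real.tsum_le_of_sum_le (fun _ => (Real.exp_pos _).le) hfin⟩

end Pool.Agent.A54.Av
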