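import Pool.Agent.Lib.MP_a54f13_nt.Av.SpecN
import Pool.Agent.Lib.MP_a54f13_nt.Av.GI

set_option autoImplicit false

namespace Pool.Agent.A54.Av.N3M

open MeasureTheory Filter Topology Set
open scoped ContDiff ComplexConjugate UpperHalfPlane MatrixGroups ENNReal
open Pool.Agent.A54.Half (H0 qq ff hh)

noncomputable section

lemma ext_mk (f : ℍ → ℝ) {x y : ℝ} (hy : 0 < y) : ext f ⟨x, y⟩ = f ⟨⟨x, y⟩, hy⟩ := by
  unfold ext
  rw [UpperHalfPlane.ofComplex_apply_of_im_pos (z := ⟨x, y⟩) hy]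

lemma per {f : ℍ → ℝ} (hinv : ∀ (γ : SL(2, ℤ)) (z : ℍ), f (γ • z) = f z) {y : ℝ} (hy : 0 < y) :
    Function.Periodic (fun x : ℝ => ext f ⟨x, y⟩) 1 := by
  intro x
  change ext f ⟨x + 1, y⟩ = ext f ⟨x, y⟩
  rw [ext_mk f hy, ext_mk f hy]
  have h := hinv ModularGroup.T ⟨⟨x, y⟩, hy⟩
  rw [UpperHalfPlane.modular_T_smul] at h
  rw [← h]
  congr 1
  apply UpperHalfPlane.ext
  rw [UpperHalfPlane.coe_vadd]
  apply Complex.ext
  · simp [add_comm]
  · simp

lemma cont_x {f : ℍ → ℝ} {t : ℝ} (hf : IsHeckeMaass f t) {y : ℝ} (hy : 0 < y) :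
    Continuous (fun x : ℝ => ext f ⟨x, y⟩) := by
  refine (hf.smooth.continuousOn).comp_continuous ?_ (fun x => hy)
  exact Complex.equivRealProdCLM.symm.continuous.comp (continuous_id.prodMk continuous_const)

lemma mem_fd {x y : ℝ} (hx : |x| ≤ 1 / 2) (hy : 1 ≤ y) :
    (⟨⟨x, y⟩, by linarith⟩ : ℍ) ∈ ModularGroup.fd := by
  refine ⟨?_, hx⟩
  change 1 ≤ Complex.normSq (⟨x, y⟩ : ℂ)
  rw [Complex.normSq_mk]
  nlinarith [sq_nonneg x]

/-- the sum of the squares -/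
def SS {ι : Type} [Fintype ι] (F : ι → ℍ → ℝ) (y x : ℝ) : ℝ := ∑ i, ext (F i) ⟨x, y⟩ ^ 2

variable {ι : Type} [Fintype ι] {F : ι → ℍ → ℝ} {t : ι → ℝ} {T C : ℝ}

lemma SS_per (hF : ∀ i, IsHeckeMaass (F i) (t i)) {y : ℝ} (hy : 0 < y) :
    Function.Periodic (SS F y) 1 := by
  intro x
  unfold SS
  refine Finset.sum_congr rfl fun i _ => ?_
  have h := per (hF i).invariant hy x
  simp only at h
  rw [h]

lemma SS_cont (hF : ∀ i, IsHeckeMaass (F i) (t i)) {y : ℝ} (hy : 0 < y) :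
    Continuous (SS F y) := by
  unfold SS
  exact continuous_finsetSum _ fun i _ => (cont_x (hF i) hy).pow 2

lemma SS_le (hF : ∀ i, IsHeckeMaass (F i) (t i)) (hC : 0 ≤ C) (hT : 1 ≤ T)
    (h1 : ∀ z ∈ ModularGroup.fd, ∑ i, F i z ^ 2 ≤ C * T ^ 2 * (1 + z.im / T)) {y : ℝ}
    (hy1 : 1 ≤ y) (hy2 : y ≤ 2 * T) (x : ℝ) : SS F y x ≤ 3 * C * T ^ 2 := by
  have hy : 0 < y := by linarith
  have hx : SS F y x = SS F y (x - round x) := by
    have h := (SS_per hF hy).sub_zsmul_eq (round x) (x := x)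
    rw [← h]
    simp
  have hr : |x - round x| ≤ 1 / 2 := abs_sub_round x
  rw [hx]
  have h2 := h1 _ (mem_fd hr hy1)
  have h3 : SS F y (x - round x) = ∑ i, F i ⟨⟨x - round x, y⟩, by linarith⟩ ^ 2 := by
    unfold SS
    refine Finset.sum_congr rfl fun i _ => ?_
    rw [ext_mk (F i) hy]
  rw [h3]
  refine h2.trans ?_
  change C * T ^ 2 * (1 + y / T) ≤ 3 * C * T ^ 2
  have h4 : y / T ≤ 2 := by
    rw [div_le_iff₀ (by linarith)]
    exact hy2
  have h5 : 0 ≤ C * T ^ 2 := by positivity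
  nlinarith

lemma E_cont {f : ℍ → ℝ} {s : ℝ} (hf : IsHeckeMaass f s) :
    Continuous (fun v : ℝ => ∫ x in (0 : ℝ)..1, ext f ⟨x, max v 1⟩ ^ 2) := by
  refine intervalIntegral.continuous_parametric_intervalIntegral_of_continuous'
    (f := fun (v x : ℝ) => ext f ⟨x, max v 1⟩ ^ 2) ?_ 0 1
  have h : Continuous (fun p : ℝ × ℝ => ext f ⟨p.2, max p.1 1⟩) := by
    refine hf.smooth.continuousOn.comp_continuous ?_ ?_
    · exact Complex.equivRealProdCLM.symm.continuous.comp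
        (continuous_snd.prodMk (continuous_fst.max continuous_const))
    · intro p
      exact lt_of_lt_of_le (one_pos : (0 : ℝ) < 1) (le_max_right _ _)
  exact h.pow 2

lemma sum_int (hF : ∀ i, IsHeckeMaass (F i) (t i)) {y : ℝ} (hy : 0 < y) (a b : ℝ) :
    ∑ i, ∫ x in a..b, ext (F i) ⟨x, y⟩ ^ 2 = ∫ x in a..b, SS F y x := by
  unfold SS
  rw [intervalIntegral.integral_finsetSum]
  intro i _
  exact ((cont_x (hF i) hy).pow 2).intervalIntegrable _ _

lemma int_le_low (hF : ∀ i, IsHeckeMaass (F i) (t i)) (hC : 0 ≤ C) (hT : 1 ≤ T)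
    (h1 : ∀ z ∈ ModularGroup.fd, ∑ i, F i z ^ 2 ≤ C * T ^ 2 * (1 + z.im / T)) {y : ℝ}
    (hy1 : 1 ≤ y) (hy2 : y ≤ 2 * T) :
    ∑ i, ∫ x in (0 : ℝ)..1, ext (F i) ⟨x, y⟩ ^ 2 ≤ 3 * C * T ^ 2 := by
  have hy : 0 < y := by linarith
  rw [sum_int hF hy]
  have h := intervalIntegral.integral_mono_on zero_le_one
    ((SS_cont hF hy).intervalIntegrable 0 1)
    (continuous_const.intervalIntegrable _ _ : IntervalIntegrable (fun _ : ℝ => 3 * C * T ^ 2) volume _ _)
    (fun x _ => SS_le hF hC hT h1 hy1 hy2 x)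
  simpa using h

lemma int_le (hF : ∀ i, IsHeckeMaass (F i) (t i)) (hC : 0 ≤ C) (hT : 5 / 2 ≤ T)
    (hle : ∀ i, t i ≤ T) (h3 : StmtN3a)
    (h1 : ∀ z ∈ ModularGroup.fd, ∑ i, F i z ^ 2 ≤ C * T ^ 2 * (1 + z.im / T)) {y : ℝ}
    (hy1 : 1 ≤ y) :
    ∫ x in (-(1 / 2) : ℝ)..(1 / 2), SS F y x ≤ 3 * C * T ^ 2 := by
  have hy : 0 < y := by linarith
  have hper := (SS_per hF hy).intervalIntegral_add_eq (-(1 / 2)) 0
  have e1 : (-(1 / 2) : ℝ) + 1 = 1 / 2 := by norm_num
  rw [e1, zero_add] at hper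
  rw [hper, ← sum_int hF hy]
  rcases le_total y (2 * T) with hy2 | hy2
  · exact int_le_low hF hC (by linarith) h1 hy1 hy2
  · have hlow : ∀ v ∈ Icc (2 * T - 1) (2 * T),
        ∑ i, ∫ x in (0 : ℝ)..1, ext (F i) ⟨x, max v 1⟩ ^ 2 ≤ 3 * C * T ^ 2 := by
      intro v hv
      have hv1 : max v 1 = v := max_eq_left (by linarith [hv.1])
      rw [hv1]
      exact int_le_low hF hC (by linarith) h1 (by linarith [hv.1]) hv.2
    have hcongr : ∀ i, ∫ v in (2 * T - 1)..(2 * T), ∫ x in (0 : ℝ)..1, ext (F i) ⟨x, v⟩ ^ 2 =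
        ∫ v in (2 * T - 1)..(2 * T), ∫ x in (0 : ℝ)..1, ext (F i) ⟨x, max v 1⟩ ^ 2 := by
      intro i
      refine intervalIntegral.integral_congr fun v hv => ?_
      rw [uIcc_of_le (by linarith)] at hv
      have hv1 : max v 1 = v := max_eq_left (by linarith [hv.1])
      simp only [hv1]
    have hsum : ∑ i, ∫ v in (2 * T - 1)..(2 * T), ∫ x in (0 : ℝ)..1, ext (F i) ⟨x, v⟩ ^ 2 ≤
        3 * C * T ^ 2 := by
      rw [Finset.sum_congr rfl fun i _ => hcongr i, ← intervalIntegral.integral_finsetSum]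
      · have h := intervalIntegral.integral_mono_on (by linarith : 2 * T - 1 ≤ 2 * T)
          ((continuous_finsetSum Finset.univ fun i _ => E_cont (hF i)).intervalIntegrable _ _)
          (continuous_const.intervalIntegrable _ _ : IntervalIntegrable (fun _ : ℝ => 3 * C * T ^ 2) volume _ _) hlow
        refine h.trans (le_of_eq ?_)
        rw [intervalIntegral.integral_const, smul_eq_mul]
        ring
      · intro i _
        exact (E_cont (hF i)).intervalIntegrable _ _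
    have hexp : Real.exp (-(y - 2 * T)) ≤ 1 := Real.exp_le_one_iff.2 (by linarith)
    have hnn : 0 ≤ 3 * C * T ^ 2 := by positivity
    calc ∑ i, ∫ x in (0 : ℝ)..1, ext (F i) ⟨x, y⟩ ^ 2
        ≤ ∑ i, Real.exp (-(y - 2 * T)) *
          ∫ v in (2 * T - 1)..(2 * T), ∫ x in (0 : ℝ)..1, ext (F i) ⟨x, v⟩ ^ 2 :=
          Finset.sum_le_sum fun i _ => h3 (F i) (t i) T (hF i) (hle i) hT y hy2
      _ = Real.exp (-(y - 2 * T)) *
          ∑ i, ∫ v in (2 * T - 1)..(2 * T), ∫ x in (0 : ℝ)..1, ext (F i) ⟨x, v⟩ ^ 2 := by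
          rw [Finset.mul_sum]
      _ ≤ Real.exp (-(y - 2 * T)) * (3 * C * T ^ 2) :=
          mul_le_mul_of_nonneg_left hsum (Real.exp_pos _).le
      _ ≤ 1 * (3 * C * T ^ 2) := mul_le_mul_of_nonneg_right hexp hnn
      _ = 3 * C * T ^ 2 := one_mul _

lemma inner_le (hF : ∀ i, IsHeckeMaass (F i) (t i)) (hC : 0 ≤ C) (hT : 5 / 2 ≤ T)
    (hle : ∀ i, t i ≤ T) (h3 : StmtN3a)
    (h1 : ∀ z ∈ ModularGroup.fd, ∑ i, F i z ^ 2 ≤ C * T ^ 2 * (1 + z.im / T)) {y : ℝ}
    (hy1 : 1 ≤ y) :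
    ∫⁻ x in Ioc (-(1 / 2) : ℝ) (1 / 2), ENNReal.ofReal (SS F y x) ≤
      ENNReal.ofReal (3 * C * T ^ 2) := by
  have hy : 0 < y := by linarith
  have hint : IntegrableOn (SS F y) (Ioc (-(1 / 2) : ℝ) (1 / 2)) :=
    ((SS_cont hF hy).integrableOn_Icc (a := -(1 / 2)) (b := 1 / 2)).mono_set Ioc_subset_Icc_self
  have hnn : 0 ≤ᵐ[volume.restrict (Ioc (-(1 / 2) : ℝ) (1 / 2))] (SS F y) :=
    Eventually.of_forall fun x => Finset.sum_nonneg fun i _ => sq_nonneg _
  rw [← ofReal_integral_eq_lintegral_ofReal hint hnn]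
  refine ENNReal.ofReal_le_ofReal ?_
  have h := int_le hF hC hT hle h3 h1 hy1
  rw [intervalIntegral.integral_of_le (by norm_num)] at h
  exact h

lemma int_inv_sq {Y : ℝ} (hY : 0 < Y) (c : ℝ) :
    ∫⁻ y in Ioi Y, ENNReal.ofReal ((y ^ 2)⁻¹) * ENNReal.ofReal c = ENNReal.ofReal (c / Y) := by
  have hder : ∀ y ∈ Ici Y, HasDerivAt (fun y : ℝ => -y⁻¹) ((y ^ 2)⁻¹) y := by
    intro y hy
    have hy0 : y ≠ 0 := (lt_of_lt_of_le hY hy).ne'
    refine (hasDerivAt_inv hy0).neg.congr_deriv ?_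
    simp
  have hpos : ∀ y ∈ Ioi Y, (0 : ℝ) ≤ (y ^ 2)⁻¹ := fun y _ => by positivity
  have hlim : Tendsto (fun y : ℝ => -y⁻¹) atTop (𝓝 0) := by
    simpa using tendsto_inv_atTop_zero.neg (G := ℝ)
  have hI := integral_Ioi_of_hasDerivAt_of_nonneg' hder hpos hlim
  have hint := integrableOn_Ioi_deriv_of_nonneg' hder hpos hlim
  have hnn : 0 ≤ᵐ[volume.restrict (Ioi Y)] fun y : ℝ => (y ^ 2)⁻¹ :=
    Eventually.of_forall fun y => by
      change (0 : ℝ) ≤ (y ^ 2)⁻¹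
      positivity
  rw [lintegral_mul_const' _ _ ENNReal.ofReal_ne_top,
    ← ofReal_integral_eq_lintegral_ofReal hint hnn, hI,
    ← ENNReal.ofReal_mul (by simp [hY.le])]
  congr 1
  rw [zero_sub, neg_neg]
  ring

lemma lint_main (hF : ∀ i, IsHeckeMaass (F i) (t i)) (hC : 0 ≤ C) (hT : 5 / 2 ≤ T)
    (hle : ∀ i, t i ≤ T) (h3 : StmtN3a)
    (h1 : ∀ z ∈ ModularGroup.fd, ∑ i, F i z ^ 2 ≤ C * T ^ 2 * (1 + z.im / T)) {Y : ℝ}
    (hY : 1 ≤ Y) :
    ∫⁻ z in ModularGroup.fdo ∩ {z : ℍ | Y < z.im}, ENNReal.ofReal (∑ i, F i z ^ 2) ≤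
      ENNReal.ofReal (3 * C * T ^ 2 / Y) := by
  have hDo : IsOpen {w : ℂ | Y < w.im} := isOpen_lt continuous_const Complex.continuous_im
  have hcon : ContinuousOn (fun w : ℂ => ENNReal.ofReal (∑ i, ext (F i) w ^ 2))
      {w : ℂ | Y < w.im} := by
    refine ENNReal.continuous_ofReal.comp_continuousOn ?_
    refine continuousOn_finsetSum _ fun i _ => ?_
    refine ContinuousOn.pow ((hF i).smooth.continuousOn.mono fun w hw => ?_) 2
    exact lt_trans (by linarith : (0 : ℝ) < Y) hw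
  have hG : Measurable ({w : ℂ | Y < w.im}.indicator
      (fun w : ℂ => ENNReal.ofReal (∑ i, ext (F i) w ^ 2))) := by
    rw [← piecewise_eq_indicator]
    exact hcon.measurable_piecewise continuousOn_const hDo.measurableSet
  have hAm : MeasurableSet (ModularGroup.fdo ∩ {z : ℍ | Y < z.im}) :=
    (GIM.isOpen_fdo.inter (isOpen_lt continuous_const UpperHalfPlane.continuous_im)).measurableSet
  calc ∫⁻ z in ModularGroup.fdo ∩ {z : ℍ | Y < z.im}, ENNReal.ofReal (∑ i, F i z ^ 2)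
      = ∫⁻ z in ModularGroup.fdo, {w : ℂ | Y < w.im}.indicator
        (fun w : ℂ => ENNReal.ofReal (∑ i, ext (F i) w ^ 2)) (z : ℂ) := by
        rw [← lintegral_indicator hAm, ← lintegral_indicator GIM.isOpen_fdo.measurableSet]
        refine lintegral_congr fun z => ?_
        by_cases hz : z ∈ ModularGroup.fdo
        · rw [indicator_of_mem hz]
          by_cases hz2 : Y < z.im
          · have hz3 : (z : ℂ) ∈ {w : ℂ | Y < w.im} := hz2
            rw [indicator_of_mem (show z ∈ ModularGroup.fdo ∩ {z : ℍ | Y < z.im} from ⟨hz, hz2⟩),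
              indicator_of_mem hz3]
            congr 1
            refine Finset.sum_congr rfl fun i _ => ?_
            unfold ext
            rw [UpperHalfPlane.ofComplex_apply]
          · have hz3 : (z : ℂ) ∉ {w : ℂ | Y < w.im} := hz2
            rw [indicator_of_notMem (fun h => hz2 h.2), indicator_of_notMem hz3]
        · rw [indicator_of_notMem hz, indicator_of_notMem (fun h => hz h.1)]
    _ ≤ ∫⁻ y in Ioi (√3 / 2), ENNReal.ofReal ((y ^ 2)⁻¹) *
        ∫⁻ x in Ioc (-(1 / 2) : ℝ) (1 / 2), {w : ℂ | Y < w.im}.indicator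
        (fun w : ℂ => ENNReal.ofReal (∑ i, ext (F i) w ^ 2)) ⟨x, y⟩ := GIM.lint_fdo _ hG
    _ ≤ ∫⁻ y, (Ioi Y).indicator
        (fun y => ENNReal.ofReal ((y ^ 2)⁻¹) * ENNReal.ofReal (3 * C * T ^ 2)) y := by
        refine (setLIntegral_le_lintegral _ _).trans (lintegral_mono fun y => ?_)
        by_cases hy : Y < y
        · have hyI : y ∈ Ioi Y := hy
          rw [indicator_of_mem hyI]
          refine mul_le_mul_right ?_ _
          refine le_trans (le_of_eq ?_) (inner_le hF hC hT hle h3 h1 (by linarith : 1 ≤ y))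
          refine lintegral_congr fun x => ?_
          have h : (⟨x, y⟩ : ℂ) ∈ {w : ℂ | Y < w.im} := hy
          rw [indicator_of_mem h]
          rfl
        · have h : ∀ x : ℝ, (⟨x, y⟩ : ℂ) ∉ {w : ℂ | Y < w.im} := fun x => hy
          simp [indicator_of_notMem (h _)]
    _ = ∫⁻ y in Ioi Y, ENNReal.ofReal ((y ^ 2)⁻¹) * ENNReal.ofReal (3 * C * T ^ 2) :=
        lintegral_indicator measurableSet_Ioi _
    _ = ENNReal.ofReal (3 * C * T ^ 2 / Y) := int_inv_sq (by linarith) _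

end

end Pool.Agent.A54.Av.N3M

namespace Pool.Agent.A54.Av

open MeasureTheory Filter Topology Set
open scoped ContDiff ComplexConjugate UpperHalfPlane MatrixGroups ENNReal
open N3M

theorem stmtN3 (h1 : StmtN1) (h3 : StmtN3a) : StmtN3 := by
  obtain ⟨C, hC, hN1⟩ := h1
  refine ⟨3 * C, by positivity, ?_⟩
  intro ι _ F t T hT hFam Y hY hYT
  have hN := hN1 ι F t T (by linarith) hFam
  have hF := hFam.form
  have hcont : ∀ i, Continuous (F i) := fun i => by
    have h2 : F i = fun z : ℍ => ext (F i) (z : ℂ) := by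
      funext z
      unfold ext
      rw [UpperHalfPlane.ofComplex_apply]
    rw [h2]
    exact (hF i).smooth.continuousOn.comp_continuous UpperHalfPlane.continuous_coe
      (fun z => z.im_pos)
  have hint : ∀ i, IntegrableOn (fun z : ℍ => F i z ^ 2) ModularGroup.fdo := by
    intro i
    by_contra hn
    have h2 := (hF i).normalised
    rw [integral_undef hn] at h2
    have h3 : 0 < Real.pi / 3 := by positivity
    rw [← h2] at h3
    exact lt_irrefl _ h3
  have hint2 : ∀ i, IntegrableOn (fun z : ℍ => F i z ^ 2)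
      (ModularGroup.fdo ∩ {z : ℍ | Y < z.im}) := fun i => (hint i).mono_set inter_subset_left
  have hmain := lint_main hF hC hT hFam.le h3 hN hY
  have hYp : 0 < Y := by linarith
  calc ∑ i, ∫ z in ModularGroup.fdo ∩ {z : ℍ | Y < z.im}, F i z ^ 2
      = ∫ z in ModularGroup.fdo ∩ {z : ℍ | Y < z.im}, ∑ i, F i z ^ 2 :=
        (integral_finsetSum _ fun i _ => hint2 i).symm
    _ = (∫⁻ z in ModularGroup.fdo ∩ {z : ℍ | Y < z.im},
          ENNReal.ofReal (∑ i, F i z ^ 2)).toReal := by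
        refine integral_eq_lintegral_of_nonneg_ae
          (Eventually.of_forall fun z => Finset.sum_nonneg fun i _ => sq_nonneg _) ?_
        exact (continuous_finsetSum _ fun i _ => (hcont i).pow 2).aestronglyMeasurable
    _ ≤ (ENNReal.ofReal (3 * C * T ^ 2 / Y)).toReal :=
        ENNReal.toReal_mono ENNReal.ofReal_ne_top hmain
    _ = 3 * C * T ^ 2 / Y := ENNReal.toReal_ofReal (by positivity)

end Pool.Agent.A54.Av
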