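import Pool.Agent.Lib.MP_a54f13_nt.Av.SpecN

/-!
# Module N3a: decay of the mean square on horizontal lines, high in the cusp
-/

set_option autoImplicit false

namespace Pool.Agent.A54.Av.N3aM

open MeasureTheory Filter Topology Set
open scoped ContDiff ComplexConjugate UpperHalfPlane MatrixGroups ENNReal
open Pool.Agent.A54.Half (H0)

noncomputable section

/-- differential inequality `E'' ≥ E`, `E` bounded above: `E e^y` is nonincreasing -/
private theorem ode {E E1 E2 : ℝ → ℝ} {a B : ℝ} (h1 : ∀ y, a ≤ y → HasDerivAt E (E1 y) y)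
    (h2 : ∀ y, a ≤ y → HasDerivAt E1 (E2 y) y) (h3 : ∀ y, a ≤ y → E y ≤ E2 y)
    (hB : ∀ y, a ≤ y → E y ≤ B) {y1 y2 : ℝ} (hy1 : a ≤ y1) (hy : y1 ≤ y2) :
    E y2 * Real.exp y2 ≤ E y1 * Real.exp y1 := by
  have hGd : ∀ y, a ≤ y → HasDerivAt (fun y => (E1 y + E y) * Real.exp (-y))
      ((E2 y - E y) * Real.exp (-y)) y := by
    intro y hy
    have e1 : HasDerivAt (fun y : ℝ => Real.exp (-y)) (-Real.exp (-y)) y := by
      have := (hasDerivAt_neg y).exp
      simpa using this
    have := ((h2 y hy).add (h1 y hy)).mul e1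
    refine this.congr_deriv ?_
    simp only [Pi.add_apply]
    ring
  have hGm : MonotoneOn (fun y => (E1 y + E y) * Real.exp (-y)) (Ici a) := by
    refine monotoneOn_of_deriv_nonneg (convex_Ici a)
      (fun y hy => (hGd y hy).continuousAt.continuousWithinAt) ?_ ?_
    · intro y hy
      rw [interior_Ici] at hy
      exact (hGd y (le_of_lt hy)).differentiableAt.differentiableWithinAt
    · intro y hy
      rw [interior_Ici] at hy
      rw [(hGd y (le_of_lt hy)).deriv]
      exact mul_nonneg (sub_nonneg.2 (h3 y (le_of_lt hy))) (Real.exp_pos _).le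
  have hG0 : ∀ y0, a ≤ y0 → (E1 y0 + E y0) * Real.exp (-y0) ≤ 0 := by
    intro y0 hy0
    by_contra hcon
    rw [not_le] at hcon
    set κ : ℝ := (E1 y0 + E y0) * Real.exp (-y0) with hκ
    have hHd : ∀ y, a ≤ y → HasDerivAt (fun y => E y * Real.exp y - κ / 2 * Real.exp (2 * y))
        ((E1 y + E y) * Real.exp y - κ * Real.exp (2 * y)) y := by
      intro y hy
      have e1 : HasDerivAt (fun y : ℝ => Real.exp (2 * y)) (Real.exp (2 * y) * (2 * 1)) y :=
        ((hasDerivAt_id y).const_mul 2).exp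
      have := ((h1 y hy).mul (Real.hasDerivAt_exp y)).sub (e1.const_mul (κ / 2))
      refine this.congr_deriv ?_
      ring
    have hHm : MonotoneOn (fun y => E y * Real.exp y - κ / 2 * Real.exp (2 * y)) (Ici y0) := by
      refine monotoneOn_of_deriv_nonneg (convex_Ici y0)
        (fun y hy => (hHd y (hy0.trans hy)).continuousAt.continuousWithinAt) ?_ ?_
      · intro y hy
        rw [interior_Ici] at hy
        exact (hHd y (hy0.trans (le_of_lt hy))).differentiableAt.differentiableWithinAt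
      · intro y hy
        rw [interior_Ici] at hy
        have hy' : y0 ≤ y := le_of_lt hy
        rw [(hHd y (hy0.trans hy')).deriv]
        have e2 : κ ≤ (E1 y + E y) * Real.exp (-y) := hGm hy0 (hy0.trans hy') hy'
        have e3 : Real.exp (-y) * Real.exp (2 * y) = Real.exp y := by
          rw [← Real.exp_add]; ring_nf
        have e4 : (E1 y + E y) * Real.exp y =
            (E1 y + E y) * Real.exp (-y) * Real.exp (2 * y) := by rw [mul_assoc, e3]
        rw [e4]
        have := mul_le_mul_of_nonneg_right e2 (Real.exp_pos (2 * y)).le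
        linarith
    set K : ℝ := |E y0 * Real.exp y0 - κ / 2 * Real.exp (2 * y0)| with hK
    have hK0 : 0 ≤ K := abs_nonneg _
    set Y : ℝ := max (max y0 0) (2 * (|B| + K + 1) / κ) with hY
    have hYy : y0 ≤ Y := (le_max_left _ _).trans (le_max_left _ _)
    have hY0 : 0 ≤ Y := (le_max_right y0 0).trans (le_max_left _ _)
    have hYk : 2 * (|B| + K + 1) / κ ≤ Y := le_max_right _ _
    have e5 := hHm (mem_Ici.2 le_rfl) (mem_Ici.2 hYy) hYy
    simp only at e5
    have e6 : E Y * Real.exp Y ≤ |B| * Real.exp Y :=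
      mul_le_mul_of_nonneg_right ((hB Y (hy0.trans hYy)).trans (le_abs_self B)) (Real.exp_pos _).le
    have e7 : -K ≤ E y0 * Real.exp y0 - κ / 2 * Real.exp (2 * y0) := neg_abs_le _
    have e8 : Real.exp (2 * Y) = Real.exp Y * Real.exp Y := by rw [← Real.exp_add]; ring_nf
    have e9 : 1 ≤ Real.exp Y := Real.one_le_exp hY0
    have e10 : Y + 1 ≤ Real.exp Y := Real.add_one_le_exp Y
    have e11 : 2 * (|B| + K + 1) ≤ Real.exp Y * κ := by
      rw [div_le_iff₀ hcon] at hYk
      nlinarith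
    have e12 : κ / 2 * (Real.exp Y * Real.exp Y) ≤ |B| * Real.exp Y + K := by
      rw [e8] at e5
      linarith
    have e13 : (|B| + K + 1) * Real.exp Y ≤ κ / 2 * (Real.exp Y * Real.exp Y) := by
      have := mul_le_mul_of_nonneg_right e11 (Real.exp_pos Y).le
      linarith
    nlinarith
  have hA : AntitoneOn (fun y => E y * Real.exp y) (Ici a) := by
    have hd : ∀ y, a ≤ y → HasDerivAt (fun y => E y * Real.exp y)
        ((E1 y + E y) * Real.exp y) y := by
      intro y hy
      refine ((h1 y hy).mul (Real.hasDerivAt_exp y)).congr_deriv ?_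
      ring
    refine antitoneOn_of_deriv_nonpos (convex_Ici a)
      (fun y hy => (hd y hy).continuousAt.continuousWithinAt) ?_ ?_
    · intro y hy
      rw [interior_Ici] at hy
      exact (hd y (le_of_lt hy)).differentiableAt.differentiableWithinAt
    · intro y hy
      rw [interior_Ici] at hy
      rw [(hd y (le_of_lt hy)).deriv]
      have e2 := hG0 y (le_of_lt hy)
      have e3 : Real.exp (-y) * Real.exp (2 * y) = Real.exp y := by
        rw [← Real.exp_add]; ring_nf
      have e4 : (E1 y + E y) * Real.exp y =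
          (E1 y + E y) * Real.exp (-y) * Real.exp (2 * y) := by rw [mul_assoc, e3]
      rw [e4]
      exact mul_nonpos_of_nonpos_of_nonneg e2 (Real.exp_pos _).le
  exact hA (mem_Ici.2 hy1) (mem_Ici.2 (hy1.trans hy)) hy

/-- derivative of an integral over the unit interval depending on a positive parameter -/
private theorem par {G G' : ℝ → ℝ → ℝ}
    (hG : ∀ x y : ℝ, 0 < y → HasDerivAt (fun y => G x y) (G' x y) y)
    (cG : ContinuousOn (fun p : ℝ × ℝ => G p.1 p.2) {p | 0 < p.2})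
    (cG' : ContinuousOn (fun p : ℝ × ℝ => G' p.1 p.2) {p | 0 < p.2}) {y : ℝ} (hy : 0 < y) :
    HasDerivAt (fun y => ∫ x in (0 : ℝ)..1, G x y) (∫ x in (0 : ℝ)..1, G' x y) y := by
  have hline : ∀ (H : ℝ → ℝ → ℝ), ContinuousOn (fun p : ℝ × ℝ => H p.1 p.2) {p | 0 < p.2} →
      ∀ v : ℝ, 0 < v → Continuous fun x => H x v := by
    intro H hH v hv
    have e : Continuous fun x : ℝ => ((x, v) : ℝ × ℝ) := by fun_prop
    exact hH.comp_continuous e (fun x => hv)
  have hcpt : IsCompact (Icc (0 : ℝ) 1 ×ˢ Icc (y / 2) (2 * y)) := isCompact_Icc.prod isCompact_Icc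
  obtain ⟨M, hM⟩ := hcpt.exists_bound_of_continuousOn (cG'.mono (by
    rintro ⟨p, q⟩ ⟨_, hq⟩
    have : y / 2 ≤ q := hq.1
    change 0 < q
    linarith))
  have hs : Ioo (y / 2) (2 * y) ∈ 𝓝 y := Ioo_mem_nhds (by linarith) (by linarith)
  refine (intervalIntegral.hasDerivAt_integral_of_dominated_loc_of_deriv_le
    (F := fun v x => G x v) (F' := fun v x => G' x v) (x₀ := y) (s := Ioo (y / 2) (2 * y))
    (bound := fun _ => M) hs ?_ ?_ ?_ ?_ ?_ ?_).2
  · filter_upwards [hs] with v hv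
    exact (hline G cG v (by linarith [hv.1])).aestronglyMeasurable
  · exact (hline G cG y hy).intervalIntegrable _ _
  · exact (hline G' cG' y hy).aestronglyMeasurable
  · refine Filter.Eventually.of_forall fun x hx v hv => ?_
    rw [uIoc_of_le zero_le_one] at hx
    exact hM (x, v) ⟨⟨hx.1.le, hx.2⟩, ⟨hv.1.le, hv.2.le⟩⟩
  · exact intervalIntegrable_const
  · refine Filter.Eventually.of_forall fun x _ v hv => ?_
    exact hG x v (by linarith [hv.1])

/-- the point `x + i y` -/
private def pp (x y : ℝ) : ℂ := ⟨x, y⟩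

private theorem pp_eq (x y : ℝ) : pp x y = (x : ℂ) + (y : ℂ) * Complex.I := by
  apply Complex.ext <;> simp [pp]

private theorem pp_x (x y : ℝ) : HasDerivAt (fun x : ℝ => pp x y) 1 x := by
  have e : (fun x : ℝ => pp x y) = fun x : ℝ => (x : ℂ) + (y : ℂ) * Complex.I := by
    funext x; exact pp_eq x y
  rw [e]
  have h1 : HasDerivAt (fun x : ℝ => (x : ℂ)) 1 x := Complex.ofRealCLM.hasDerivAt
  exact h1.add_const _

private theorem pp_y (x y : ℝ) : HasDerivAt (fun y : ℝ => pp x y) Complex.I y := by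
  have e : (fun y : ℝ => pp x y) = fun y : ℝ => (x : ℂ) + (y : ℂ) * Complex.I := by
    funext y; exact pp_eq x y
  rw [e]
  have h1 : HasDerivAt (fun x : ℝ => (x : ℂ)) 1 y := Complex.ofRealCLM.hasDerivAt
  have h2 := (h1.mul_const Complex.I).const_add (x : ℂ)
  simpa using h2

private theorem pp_cont : Continuous fun p : ℝ × ℝ => pp p.1 p.2 := by
  have e : (fun p : ℝ × ℝ => pp p.1 p.2) =
      fun p : ℝ × ℝ => (p.1 : ℂ) + (p.2 : ℂ) * Complex.I := by
    funext p; exact pp_eq _ _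
  rw [e]
  fun_prop

private theorem isOpen_H : IsOpen {z : ℂ | 0 < z.im} := isOpen_lt continuous_const Complex.continuous_im

variable {F : ℂ → ℝ}

private theorem d1 (hF : ContDiffOn ℝ ∞ F {z : ℂ | 0 < z.im}) {z : ℂ} (hz : 0 < z.im) :
    HasFDerivAt F (fderiv ℝ F z) z :=
  ((hF.contDiffAt (isOpen_H.mem_nhds hz)).differentiableAt (by simp)).hasFDerivAt

private theorem d2 (hF : ContDiffOn ℝ ∞ F {z : ℂ | 0 < z.im}) {z : ℂ} (hz : 0 < z.im) :
    HasFDerivAt (fderiv ℝ F) (fderiv ℝ (fderiv ℝ F) z) z :=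
  (((hF.contDiffAt (isOpen_H.mem_nhds hz)).fderiv_right (m := ∞) (by simp)).differentiableAt
    (by simp)).hasFDerivAt

private theorem c1 (hF : ContDiffOn ℝ ∞ F {z : ℂ | 0 < z.im}) :
    ContinuousOn (fderiv ℝ F) {z : ℂ | 0 < z.im} :=
  fun _ hz => (d2 hF hz).continuousAt.continuousWithinAt

private theorem c2 (hF : ContDiffOn ℝ ∞ F {z : ℂ | 0 < z.im}) :
    ContinuousOn (fderiv ℝ (fderiv ℝ F)) {z : ℂ | 0 < z.im} := by
  intro z hz
  have h1 : ContDiffAt ℝ ∞ (fderiv ℝ F) z :=
    (hF.contDiffAt (isOpen_H.mem_nhds hz)).fderiv_right (m := ∞) (by simp)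
  have h2 : ContDiffAt ℝ ∞ (fderiv ℝ (fderiv ℝ F)) z := h1.fderiv_right (m := ∞) (by simp)
  exact h2.continuousAt.continuousWithinAt

/-- first derivative along a curve -/
private theorem e1 (hF : ContDiffOn ℝ ∞ F {z : ℂ | 0 < z.im}) {γ : ℝ → ℂ} {v : ℂ} {s : ℝ}
    (hγ : HasDerivAt γ v s) (hs : 0 < (γ s).im) :
    HasDerivAt (fun s => F (γ s)) (fderiv ℝ F (γ s) v) s :=
  (d1 hF hs).comp_hasDerivAt s hγ

private theorem e2 (hF : ContDiffOn ℝ ∞ F {z : ℂ | 0 < z.im}) {γ : ℝ → ℂ} {v : ℂ} {s : ℝ}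
    (hγ : HasDerivAt γ v s) (hs : 0 < (γ s).im) (w : ℂ) :
    HasDerivAt (fun s => fderiv ℝ F (γ s) w) (fderiv ℝ (fderiv ℝ F) (γ s) v w) s := by
  have h := (d2 hF hs).comp_hasDerivAt s hγ
  exact ((ContinuousLinearMap.apply ℝ ℝ w).hasFDerivAt.comp_hasDerivAt s h)

/-- mean square on horizontal lines -/
private def EE (F : ℂ → ℝ) (y : ℝ) : ℝ := ∫ x in (0 : ℝ)..1, F (pp x y) ^ 2

private theorem cF (hF : ContDiffOn ℝ ∞ F {z : ℂ | 0 < z.im}) :
    ContinuousOn (fun p : ℝ × ℝ => F (pp p.1 p.2)) {p | 0 < p.2} :=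
  hF.continuousOn.comp pp_cont.continuousOn (fun _ hp => hp)

private theorem cA (hF : ContDiffOn ℝ ∞ F {z : ℂ | 0 < z.im}) (v : ℂ) :
    ContinuousOn (fun p : ℝ × ℝ => fderiv ℝ F (pp p.1 p.2) v) {p | 0 < p.2} :=
  ((c1 hF).comp pp_cont.continuousOn (fun _ hp => hp)).clm_apply continuousOn_const

private theorem cB (hF : ContDiffOn ℝ ∞ F {z : ℂ | 0 < z.im}) (v w : ℂ) :
    ContinuousOn (fun p : ℝ × ℝ => fderiv ℝ (fderiv ℝ F) (pp p.1 p.2) v w) {p | 0 < p.2} :=
  (((c2 hF).comp pp_cont.continuousOn (fun _ hp => hp)).clm_apply continuousOn_const).clm_apply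
    continuousOn_const

private theorem line {H : ℝ → ℝ → ℝ}
    (hH : ContinuousOn (fun p : ℝ × ℝ => H p.1 p.2) {p | 0 < p.2}) {y : ℝ} (hy : 0 < y) :
    Continuous fun x => H x y := by
  have e : Continuous fun x : ℝ => ((x, y) : ℝ × ℝ) := by fun_prop
  exact hH.comp_continuous e (fun x => hy)

private theorem dEE (hF : ContDiffOn ℝ ∞ F {z : ℂ | 0 < z.im}) {y : ℝ} (hy : 0 < y) :
    HasDerivAt (EE F) (∫ x in (0 : ℝ)..1, 2 * F (pp x y) * fderiv ℝ F (pp x y) Complex.I) y := by
  refine par (G := fun x y => F (pp x y) ^ 2)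
    (G' := fun x y => 2 * F (pp x y) * fderiv ℝ F (pp x y) Complex.I) ?_ ?_ ?_ hy
  · intro x y hy
    have := (e1 hF (pp_y x y) hy).pow 2
    refine this.congr_deriv ?_
    simp
  · exact (cF hF).pow 2
  · exact (continuousOn_const.mul (cF hF)).mul (cA hF Complex.I)

private theorem dEE1 (hF : ContDiffOn ℝ ∞ F {z : ℂ | 0 < z.im}) {y : ℝ} (hy : 0 < y) :
    HasDerivAt (fun y => ∫ x in (0 : ℝ)..1, 2 * F (pp x y) * fderiv ℝ F (pp x y) Complex.I)
      (∫ x in (0 : ℝ)..1, (2 * (fderiv ℝ F (pp x y) Complex.I) ^ 2 +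
        2 * F (pp x y) * fderiv ℝ (fderiv ℝ F) (pp x y) Complex.I Complex.I)) y := by
  refine par (G := fun x y => 2 * F (pp x y) * fderiv ℝ F (pp x y) Complex.I)
    (G' := fun x y => 2 * (fderiv ℝ F (pp x y) Complex.I) ^ 2 +
        2 * F (pp x y) * fderiv ℝ (fderiv ℝ F) (pp x y) Complex.I Complex.I) ?_ ?_ ?_ hy
  · intro x y hy
    have := ((e1 hF (pp_y x y) hy).const_mul 2).mul (e2 hF (pp_y x y) hy Complex.I)
    refine this.congr_deriv ?_
    ring
  · exact (continuousOn_const.mul (cF hF)).mul (cA hF Complex.I)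
  · exact (continuousOn_const.mul ((cA hF Complex.I).pow 2)).add
      ((continuousOn_const.mul (cF hF)).mul (cB hF Complex.I Complex.I))

/-- a function of mean zero is bounded by the mean square of its derivative -/
private theorem poinc {g g' : ℝ → ℝ} (hg : ∀ x, HasDerivAt g (g' x) x) (hc : Continuous g')
    (h0 : ∫ x in (0 : ℝ)..1, g x = 0) :
    ∫ x in (0 : ℝ)..1, g x ^ 2 ≤ ∫ x in (0 : ℝ)..1, g' x ^ 2 := by
  have hgc : Continuous g := continuous_iff_continuousAt.2 fun x => (hg x).continuousAt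
  set S : ℝ := ∫ x in (0 : ℝ)..1, |g' x| with hS
  have hS0 : 0 ≤ S := intervalIntegral.integral_nonneg zero_le_one fun _ _ => abs_nonneg _
  have hdiff : ∀ x ∈ Icc (0 : ℝ) 1, ∀ s ∈ Icc (0 : ℝ) 1, |g x - g s| ≤ S := by
    intro x hx s hs
    have a1 : ∫ u in s..x, g' u = g x - g s :=
      intervalIntegral.integral_eq_sub_of_hasDerivAt (fun u _ => hg u)
        (hc.intervalIntegrable _ _)
    rw [← a1]
    refine (intervalIntegral.norm_integral_le_abs_integral_norm (f := g') (a := s) (b := x)).trans ?_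
    simp only [Real.norm_eq_abs]
    rcases le_total s x with h | h
    · rw [abs_of_nonneg (intervalIntegral.integral_nonneg h fun _ _ => abs_nonneg _)]
      exact intervalIntegral.integral_mono_interval hs.1 h hx.2
        (Filter.Eventually.of_forall fun u => abs_nonneg (g' u))
        ((hc.abs).intervalIntegrable _ _)
    · rw [intervalIntegral.integral_symm, abs_neg,
        abs_of_nonneg (intervalIntegral.integral_nonneg h fun _ _ => abs_nonneg _)]
      exact intervalIntegral.integral_mono_interval hx.1 h hs.2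
        (Filter.Eventually.of_forall fun u => abs_nonneg (g' u))
        ((hc.abs).intervalIntegrable _ _)
  have hb : ∀ x ∈ Icc (0 : ℝ) 1, |g x| ≤ S := by
    intro x hx
    have a1 : g x = ∫ s in (0 : ℝ)..1, (g x - g s) := by
      rw [intervalIntegral.integral_sub intervalIntegrable_const (hgc.intervalIntegrable _ _), h0]
      simp
    rw [a1]
    have := intervalIntegral.norm_integral_le_of_norm_le_const (a := (0 : ℝ)) (b := 1)
      (f := fun s => g x - g s) (C := S) ?_
    · simpa using this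
    · intro s hs
      rw [uIoc_of_le zero_le_one] at hs
      exact hdiff x hx s ⟨hs.1.le, hs.2⟩
  have hsq : S ^ 2 ≤ ∫ x in (0 : ℝ)..1, g' x ^ 2 := by
    have a2 : 0 ≤ ∫ x in (0 : ℝ)..1, (|g' x| - S) ^ 2 :=
      intervalIntegral.integral_nonneg zero_le_one fun _ _ => sq_nonneg _
    have a3 : ∫ x in (0 : ℝ)..1, (|g' x| - S) ^ 2 =
        (∫ x in (0 : ℝ)..1, g' x ^ 2) - 2 * S * S + S ^ 2 := by
      have e : (fun x => (|g' x| - S) ^ 2) = fun x => (g' x ^ 2 - 2 * S * |g' x|) + S ^ 2 := by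
        funext x
        rw [sub_sq, sq_abs]
        ring
      rw [e, intervalIntegral.integral_add
        ((by fun_prop : Continuous fun x => g' x ^ 2 - 2 * S * |g' x|).intervalIntegrable _ _)
        intervalIntegrable_const, intervalIntegral.integral_sub
        ((by fun_prop : Continuous fun x => g' x ^ 2).intervalIntegrable _ _)
        ((by fun_prop : Continuous fun x => 2 * S * |g' x|).intervalIntegrable _ _),
        intervalIntegral.integral_const_mul, ← hS]
      simp
    rw [a3] at a2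
    nlinarith
  calc ∫ x in (0 : ℝ)..1, g x ^ 2 ≤ ∫ _x in (0 : ℝ)..1, S ^ 2 := by
        refine intervalIntegral.integral_mono_on zero_le_one
          ((hgc.pow 2).intervalIntegrable _ _) intervalIntegrable_const fun x hx => ?_
        have := hb x hx
        rw [← sq_abs]
        exact pow_le_pow_left₀ (abs_nonneg _) this 2
    _ = S ^ 2 := by simp
    _ ≤ _ := hsq

/-- the differential inequality -/
private theorem ineq (hF : ContDiffOn ℝ ∞ F {z : ℂ | 0 < z.im})
    (hper : ∀ x y : ℝ, 0 < y → F (pp (x + 1) y) = F (pp x y))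
    (h0 : ∀ y : ℝ, 0 < y → ∫ x in (0 : ℝ)..1, F (pp x y) = 0) {lam : ℝ}
    (hlap : ∀ z : ℂ, 0 < z.im → -z.im ^ 2 * (fderiv ℝ (fderiv ℝ F) z 1 1 +
      fderiv ℝ (fderiv ℝ F) z Complex.I Complex.I) = lam * F z) {y : ℝ} (hy : 0 < y) :
    (2 - 2 * lam / y ^ 2) * EE F y ≤ ∫ x in (0 : ℝ)..1, (2 * (fderiv ℝ F (pp x y) Complex.I) ^ 2 +
        2 * F (pp x y) * fderiv ℝ (fderiv ℝ F) (pp x y) Complex.I Complex.I) := by
  have cf : Continuous fun x => F (pp x y) := line (H := fun x y => F (pp x y)) (cF hF) hy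
  have ca1 : Continuous fun x => fderiv ℝ F (pp x y) 1 :=
    line (H := fun x y => fderiv ℝ F (pp x y) 1) (cA hF 1) hy
  have caI : Continuous fun x => fderiv ℝ F (pp x y) Complex.I :=
    line (H := fun x y => fderiv ℝ F (pp x y) Complex.I) (cA hF Complex.I) hy
  have cb1 : Continuous fun x => fderiv ℝ (fderiv ℝ F) (pp x y) 1 1 :=
    line (H := fun x y => fderiv ℝ (fderiv ℝ F) (pp x y) 1 1) (cB hF 1 1) hy
  have hd1 : ∀ x, HasDerivAt (fun x => F (pp x y)) (fderiv ℝ F (pp x y) 1) x := fun x =>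
    e1 hF (pp_x x y) hy
  have hd2 : ∀ x, HasDerivAt (fun x => fderiv ℝ F (pp x y) 1)
      (fderiv ℝ (fderiv ℝ F) (pp x y) 1 1) x := fun x => e2 hF (pp_x x y) hy 1
  -- periodicity of the derivative
  have hp0 : F (pp 1 y) = F (pp 0 y) := by
    have := hper 0 y hy
    rwa [zero_add] at this
  have hp1 : fderiv ℝ F (pp 1 y) 1 = fderiv ℝ F (pp 0 y) 1 := by
    have a1 := (hd1 (0 + 1)).comp_add_const 0 1
    have a2 : (fun x => F (pp (x + 1) y)) = fun x => F (pp x y) := by
      funext x; exact hper x y hy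
    rw [a2] at a1
    have a3 := a1.unique (hd1 0)
    rwa [zero_add] at a3
  have hibp := intervalIntegral.integral_mul_deriv_eq_deriv_mul (a := (0 : ℝ)) (b := 1)
    (fun x _ => hd1 x) (fun x _ => hd2 x) (ca1.intervalIntegrable _ _) (cb1.intervalIntegrable _ _)
  rw [hp0, hp1, sub_self, zero_sub] at hibp
  have hP := poinc hd1 ca1 (h0 y hy)
  have e3 : ∀ x, 2 * (fderiv ℝ F (pp x y) Complex.I) ^ 2 +
        2 * F (pp x y) * fderiv ℝ (fderiv ℝ F) (pp x y) Complex.I Complex.I =
      (2 * (fderiv ℝ F (pp x y) Complex.I) ^ 2 - 2 * lam / y ^ 2 * F (pp x y) ^ 2) -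
        2 * (F (pp x y) * fderiv ℝ (fderiv ℝ F) (pp x y) 1 1) := by
    intro x
    have a4 := hlap (pp x y) hy
    have a5 : (pp x y).im = y := rfl
    rw [a5] at a4
    have a6 : fderiv ℝ (fderiv ℝ F) (pp x y) Complex.I Complex.I =
        -(lam / y ^ 2) * F (pp x y) - fderiv ℝ (fderiv ℝ F) (pp x y) 1 1 := by
      have hy2 : y ^ 2 ≠ 0 := by positivity
      field_simp
      linarith
    rw [a6]
    ring
  have e4 : ∫ x in (0 : ℝ)..1, (2 * (fderiv ℝ F (pp x y) Complex.I) ^ 2 +
        2 * F (pp x y) * fderiv ℝ (fderiv ℝ F) (pp x y) Complex.I Complex.I) =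
      2 * (∫ x in (0 : ℝ)..1, (fderiv ℝ F (pp x y) Complex.I) ^ 2) - 2 * lam / y ^ 2 * EE F y +
        2 * ∫ x in (0 : ℝ)..1, (fderiv ℝ F (pp x y) 1) ^ 2 := by
    rw [intervalIntegral.integral_congr fun x _ => e3 x, intervalIntegral.integral_sub,
      intervalIntegral.integral_sub, intervalIntegral.integral_const_mul,
      intervalIntegral.integral_const_mul, intervalIntegral.integral_const_mul, hibp]
    · unfold EE
      have : ∀ x : ℝ, fderiv ℝ F (pp x y) 1 * fderiv ℝ F (pp x y) 1 =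
          (fderiv ℝ F (pp x y) 1) ^ 2 := fun x => by ring
      rw [intervalIntegral.integral_congr fun x _ => this x]
      ring
    · exact (continuous_const.mul (caI.pow 2)).intervalIntegrable _ _
    · exact (continuous_const.mul (cf.pow 2)).intervalIntegrable _ _
    · exact ((continuous_const.mul (caI.pow 2)).sub
        (continuous_const.mul (cf.pow 2))).intervalIntegrable _ _
    · exact (continuous_const.mul (cf.mul cb1)).intervalIntegrable _ _
  rw [e4]
  have e5 : 0 ≤ ∫ x in (0 : ℝ)..1, (fderiv ℝ F (pp x y) Complex.I) ^ 2 :=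
    intervalIntegral.integral_nonneg zero_le_one fun _ _ => sq_nonneg _
  have e6 : EE F y ≤ ∫ x in (0 : ℝ)..1, (fderiv ℝ F (pp x y) 1) ^ 2 := hP
  nlinarith

private theorem lapl (f : ℍ → ℝ) {t : ℝ} (hf : IsHeckeMaass f t) (z : ℂ) (hz : 0 < z.im) :
    -z.im ^ 2 * (fderiv ℝ (fderiv ℝ (ext f)) z 1 1 +
      fderiv ℝ (fderiv ℝ (ext f)) z Complex.I Complex.I) = (1 / 4 + t ^ 2) * ext f z := by
  have h := hf.eigen ⟨z, hz⟩
  have e0 : ext f z = f ⟨z, hz⟩ := Half.ext_coe f ⟨z, hz⟩
  rw [e0, ← h]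
  rw [InnerProductSpace.laplacian_eq_iteratedFDeriv_complexPlane]
  simp only [iteratedFDeriv_two_apply, Matrix.cons_val_zero, Matrix.cons_val_one]
  rfl

private theorem per (f : ℍ → ℝ) {t : ℝ} (hf : IsHeckeMaass f t) (x y : ℝ) (hy : 0 < y) :
    ext f (pp (x + 1) y) = ext f (pp x y) := by
  let w : ℍ := ⟨⟨x, y⟩, hy⟩
  have h1 : ext f (pp x y) = f w := Half.ext_coe f w
  have h2 : pp (x + 1) y = ((ModularGroup.T • w : ℍ) : ℂ) := by
    rw [UpperHalfPlane.modular_T_smul]
    apply Complex.ext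
    · simp [w, pp, add_comm]
    · simp [w, pp]
  rw [h2, Half.ext_coe, hf.invariant, h1]

theorem main (hDec : StmtDec) : StmtN3a := by
  intro f t T hf htT hT y hy
  have ht := hf.pos
  have hF := hf.smooth
  obtain ⟨C, c, hc, -, hC⟩ := hDec f t hf
  set a : ℝ := 8 / 5 * T with ha
  have ha0 : 0 < a := by linarith
  have hd1 : ∀ v, a ≤ v → HasDerivAt (EE (ext f)) _ v := fun v hv => dEE hF (ha0.trans_le hv)
  have hd2 : ∀ v, a ≤ v → HasDerivAt
      (fun y => ∫ x in (0 : ℝ)..1, 2 * ext f (pp x y) * fderiv ℝ (ext f) (pp x y) Complex.I) _ v :=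
    fun v hv => dEE1 hF (ha0.trans_le hv)
  have hE0 : ∀ v, 0 ≤ EE (ext f) v := fun v =>
    intervalIntegral.integral_nonneg zero_le_one fun _ _ => sq_nonneg _
  have hcusp : ∀ y : ℝ, 0 < y → ∫ x in (0 : ℝ)..1, ext f (pp x y) = 0 := hf.cuspidal
  have hineq : ∀ v, a ≤ v → EE (ext f) v ≤
      ∫ x in (0 : ℝ)..1, (2 * (fderiv ℝ (ext f) (pp x v) Complex.I) ^ 2 +
        2 * ext f (pp x v) * fderiv ℝ (fderiv ℝ (ext f)) (pp x v) Complex.I Complex.I) := by
    intro v hv
    have hv0 := ha0.trans_le hv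
    have h := ineq hF (per f hf) hcusp (lapl f hf) hv0
    refine le_trans ?_ h
    have h3 : 2 * (1 / 4 + t ^ 2) / v ^ 2 ≤ 1 := by
      rw [div_le_one (by positivity)]
      have h4 : a ^ 2 ≤ v ^ 2 := pow_le_pow_left₀ ha0.le hv 2
      have h5 : t ^ 2 ≤ T ^ 2 := pow_le_pow_left₀ ht.le htT 2
      have h6 : a ^ 2 = 64 / 25 * T ^ 2 := by rw [ha]; ring
      nlinarith
    have := hE0 v
    nlinarith
  have hB : ∀ v, a ≤ v → EE (ext f) v ≤ C ^ 2 := by
    intro v hv
    have hv0 := ha0.trans_le hv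
    have cf : Continuous fun x => ext f (pp x v) :=
      line (H := fun x y => ext f (pp x y)) (cF hF) hv0
    calc EE (ext f) v ≤ ∫ _x in (0 : ℝ)..1, C ^ 2 := by
          refine intervalIntegral.integral_mono_on zero_le_one
            ((cf.pow 2).intervalIntegrable _ _) intervalIntegrable_const fun x _ => ?_
          have h1 : ext f (pp x v) = f ⟨⟨x, v⟩, hv0⟩ := Half.ext_coe f ⟨⟨x, v⟩, hv0⟩
          have h2 := hC ⟨⟨x, v⟩, hv0⟩
          rw [h1, ← sq_abs]
          exact pow_le_pow_left₀ (abs_nonneg _) h2 2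
      _ = C ^ 2 := by simp
  have hmono : ∀ v w, a ≤ v → v ≤ w →
      EE (ext f) w * Real.exp w ≤ EE (ext f) v * Real.exp v := fun v w hv hvw =>
    ode hd1 hd2 hineq hB hv hvw
  have haT : a ≤ 2 * T - 1 := by rw [ha]; linarith
  have haT2 : a ≤ 2 * T := by linarith
  have h1 : EE (ext f) y ≤ Real.exp (-(y - 2 * T)) * EE (ext f) (2 * T) := by
    have h := hmono (2 * T) y haT2 hy
    have e : Real.exp (-(y - 2 * T)) = Real.exp (2 * T) * Real.exp (-y) := by
      rw [← Real.exp_add]; ring_nf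
    have e' : Real.exp y * Real.exp (-y) = 1 := by
      rw [← Real.exp_add, add_neg_cancel, Real.exp_zero]
    rw [e]
    have h' := mul_le_mul_of_nonneg_right h (Real.exp_pos (-y)).le
    calc EE (ext f) y = EE (ext f) y * Real.exp y * Real.exp (-y) := by rw [mul_assoc, e', mul_one]
      _ ≤ EE (ext f) (2 * T) * Real.exp (2 * T) * Real.exp (-y) := h'
      _ = _ := by ring
  have h2 : EE (ext f) (2 * T) ≤ ∫ v in (2 * T - 1)..(2 * T), EE (ext f) v := by
    have hcont : ContinuousOn (EE (ext f)) (Icc (2 * T - 1) (2 * T)) := fun v hv =>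
      (hd1 v (haT.trans hv.1)).continuousAt.continuousWithinAt
    have hle : 2 * T - 1 ≤ 2 * T := by linarith
    calc EE (ext f) (2 * T) = ∫ _v in (2 * T - 1)..(2 * T), EE (ext f) (2 * T) := by simp
      _ ≤ ∫ v in (2 * T - 1)..(2 * T), EE (ext f) v := by
          refine intervalIntegral.integral_mono_on hle intervalIntegrable_const
            (hcont.intervalIntegrable_of_Icc hle) fun v hv => ?_
          have h := hmono v (2 * T) (haT.trans hv.1) hv.2
          have h' : EE (ext f) v * Real.exp v ≤ EE (ext f) v * Real.exp (2 * T) :=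
            mul_le_mul_of_nonneg_left (Real.exp_le_exp.2 hv.2) (hE0 v)
          exact le_of_mul_le_mul_right (h.trans h') (Real.exp_pos _)
  exact h1.trans (mul_le_mul_of_nonneg_left h2 (Real.exp_pos _).le)

end

end Pool.Agent.A54.Av.N3aM

namespace Pool.Agent.A54.Av

theorem stmtN3a (hDec : StmtDec) : StmtN3a := N3aM.main hDec

end Pool.Agent.A54.Av
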