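import Pool.Agent.Lib.MP_a54f13_nt.Av.SpecA
import Pool.Agent.Lib.MP_a54f13_nt.Av.GI

/-!
# Package `Av`, module `Nk`: norms and orthogonality of the raised forms
-/

set_option autoImplicit false

namespace Pool.Agent.A54.Av

open MeasureTheory Filter Topology Set
open scoped ContDiff ComplexConjugate UpperHalfPlane MatrixGroups ENNReal
open Pool.Agent.A54.Half (H0 qq ff hh)

namespace NkM

noncomputable section

lemma vol_fdo : volume ModularGroup.fdo < ⊤ := by
  have h1 := GIM.lint_fdo (fun _ => 1) measurable_const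
  simp only [lintegral_const, one_mul, Measure.restrict_apply_univ] at h1
  have hs3 : (0 : ℝ) < √3 / 2 := by positivity
  have h2 : IntegrableOn (fun y : ℝ => y ^ (-2 : ℝ)) (Ioi (√3 / 2)) :=
    integrableOn_Ioi_rpow_of_lt (by norm_num) hs3
  refine lt_of_le_of_lt h1 ?_
  have h3 : ∫⁻ y in Ioi (√3 / 2), ENNReal.ofReal ((y ^ 2)⁻¹) *
      volume (Ioc (-(1 / 2) : ℝ) (1 / 2)) = ∫⁻ y in Ioi (√3 / 2), ‖y ^ (-2 : ℝ)‖ₑ := by
    refine setLIntegral_congr_fun measurableSet_Ioi fun y hy => ?_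
    have hy0 : 0 < y := lt_trans hs3 hy
    have e1 : volume (Ioc (-(1 / 2) : ℝ) (1 / 2)) = 1 := by
      rw [Real.volume_Ioc]; norm_num
    have e2 : y ^ (-2 : ℝ) = (y ^ 2)⁻¹ := by
      rw [Real.rpow_neg hy0.le]
      norm_num
    simp only [e1, mul_one]
    rw [e2, Real.enorm_eq_ofReal (by positivity)]
  rw [h3]
  exact h2.2

instance : IsFiniteMeasure (volume.restrict ModularGroup.fdo) := ⟨by
  rw [Measure.restrict_apply_univ]
  exact vol_fdo⟩

lemma integ {G : ℂ → ℂ} (hG : ContinuousOn G H0) {C : ℝ} (hC : ∀ τ ∈ H0, ‖G τ‖ ≤ C) :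
    Integrable (fun z : ℍ => G z) (volume.restrict ModularGroup.fdo) := by
  have hc : Continuous fun z : ℍ => G z :=
    hG.comp_continuous UpperHalfPlane.continuous_coe fun z => z.im_pos
  exact Integrable.of_bound hc.aestronglyMeasurable C
    (Eventually.of_forall fun τ => hC _ τ.im_pos)

lemma LL_bound (hWf : StmtWf) (hDer : StmtDer) {g : ℍ → ℝ} {t : ℝ} (hg : IsHeckeMaass g t)
    (k : ℕ) : ∃ C : ℝ, ∀ z ∈ H0, ‖LL (k + 1) (fk g (k + 1)) z‖ ≤ C := by
  obtain ⟨C, hC⟩ := hDer g t hg k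
  refine ⟨|mu k t| * C, fun z hz => ?_⟩
  rw [(hWf g t hg k).2.2 z hz, norm_mul, norm_neg, Complex.norm_real, Real.norm_eq_abs]
  exact mul_le_mul_of_nonneg_left (hC z hz) (abs_nonneg _)

lemma step (hIB2 : StmtIB2) (hWf : StmtWf) (hDer : StmtDer) {f g : ℍ → ℝ} {t t' : ℝ}
    (hf : IsHeckeMaass f t) (hg : IsHeckeMaass g t') (k : ℕ) :
    ∫ z in ModularGroup.fdo, fk f (k + 1) z * conj (fk g (k + 1) z) =
      ((mu k t' : ℝ) : ℂ) * ∫ z in ModularGroup.fdo, fk f k z * conj (fk g k z) := by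
  obtain ⟨C1, hC1⟩ := LL_bound hWf hDer hg k
  obtain ⟨C2, hC2⟩ := hDer f t hf (k + 1)
  have h := hIB2 k (fk g (k + 1)) (fk f k) (hWf g t' hg (k + 1)).1 (hWf f t hf k).1
    ⟨max C1 C2, fun τ hτ _ => ⟨(hC2 τ hτ).trans (le_max_right _ _),
      (hC1 τ hτ).trans (le_max_left _ _)⟩⟩
  have hcf : ∀ j, ContinuousOn (fk f j) H0 := fun j => (hWf f t hf j).2.1.continuousOn
  have hcg : ∀ j, ContinuousOn (fk g j) H0 := fun j => (hWf g t' hg j).2.1.continuousOn
  have hI : ∀ j, Integrable (fun z : ℍ => fk f j z * conj (fk g j z))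
      (volume.restrict ModularGroup.fdo) := by
    intro j
    obtain ⟨A, hA⟩ := hDer f t hf j
    obtain ⟨B, hB⟩ := hDer g t' hg j
    refine integ (G := fun z => fk f j z * conj (fk g j z)) (C := A * B)
      ((hcf j).mul (Complex.continuous_conj.comp_continuousOn (hcg j))) fun τ hτ => ?_
    rw [norm_mul, RCLike.norm_conj]
    exact mul_le_mul (hA τ hτ) (hB τ hτ) (norm_nonneg _) ((norm_nonneg _).trans (hA τ hτ))
  have e : ∫ z in ModularGroup.fdo, (conj (LL (k + 1) (fk g (k + 1)) z) * fk f k z +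
      conj (fk g (k + 1) z) * RR k (fk f k) z) =
      ∫ z in ModularGroup.fdo, ((-((mu k t' : ℝ) : ℂ)) * (fk f k z * conj (fk g k z)) +
        fk f (k + 1) z * conj (fk g (k + 1) z)) := by
    refine integral_congr_ae (Eventually.of_forall fun z => ?_)
    have h1 := (hWf g t' hg k).2.2 z z.im_pos
    have h2 : RR k (fk f k) z = fk f (k + 1) z := rfl
    simp only [h1, h2, map_mul, map_neg, Complex.conj_ofReal]
    ring
  rw [e, integral_add ((hI k).const_mul _) (hI (k + 1)), integral_const_mul] at h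
  linear_combination h

end

end NkM

theorem stmtNk (hIB2 : StmtIB2) (hWf : StmtWf) (hDer : StmtDer) : StmtNk := by
  intro f g t t' hf hg k
  induction k with
  | zero =>
    have e : ∀ z : ℍ, fk f 0 z * conj (fk g 0 z) = ((f z * g z : ℝ) : ℂ) := by
      intro z
      have h1 : fk f 0 z = (f z : ℂ) := by
        show ((ext f z : ℝ) : ℂ) = _
        rw [Half.ext_coe]
      have h2 : fk g 0 z = (g z : ℂ) := by
        show ((ext g z : ℝ) : ℂ) = _
        rw [Half.ext_coe]
      rw [h1, h2, Complex.conj_ofReal]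
      push_cast
      ring
    simp only [e, Finset.range_zero, Finset.prod_empty, one_mul]
    exact integral_ofReal
  | succ k ih =>
    rw [NkM.step hIB2 hWf hDer hf hg k, ih, Finset.prod_range_succ]
    push_cast
    ring

end Pool.Agent.A54.Av
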