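import Pool.Agent.Lib.MP_a54f13_nt.Av.SpecC

/-!
# Module `P0`: equal traces

Proof of `StmtP0` from `StmtPd`: the map sending a solution to `(c1, h, p1, p2 - ⌊p1 c2 / c1⌋, q1, s)`
is injective.
-/

set_option autoImplicit false

namespace Pool.Agent.A54.Av.P0M

open Finset

theorem card_Icc_real (a b : ℤ) (h : a ≤ b + 1) :
    ((Icc a b).card : ℝ) = (b : ℝ) + 1 - a := by
  rw [Int.card_Icc]
  have h1 : (((b + 1 - a).toNat : ℤ) : ℝ) = ((b + 1 - a : ℤ) : ℝ) := by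
    rw [Int.toNat_of_nonneg (by linarith)]
  push_cast at h1 ⊢
  linarith

/-- `p2` is at distance at most `ρ` from the integer part of `p1 c2 / c1` -/
theorem near (H ρ c1 c2 p1 p2 : ℤ) (hρ : 0 ≤ ρ) (hc : 0 < c1) (hH : H ≤ c1)
    (h : |p1 * c2 - p2 * c1| ≤ ρ * H) : -ρ ≤ p2 - p1 * c2 / c1 ∧ p2 - p1 * c2 / c1 ≤ ρ := by
  have h1 := Int.ediv_mul_le (p1 * c2) hc.ne'
  have h2 := Int.lt_ediv_add_one_mul_self (p1 * c2) hc
  have h3 : |p1 * c2 - p2 * c1| ≤ ρ * c1 := h.trans (mul_le_mul_of_nonneg_left hH hρ)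
  obtain ⟨h4, h5⟩ := abs_le.mp h3
  constructor
  · by_contra hcon
    push Not at hcon
    have h6 : p2 - p1 * c2 / c1 + ρ + 1 ≤ 0 := by linarith
    have h7 : (p2 - p1 * c2 / c1 + ρ + 1) * c1 ≤ 0 :=
      mul_nonpos_of_nonpos_of_nonneg h6 hc.le
    nlinarith
  · have h6 : (p2 - p1 * c2 / c1) * c1 < (ρ + 1) * c1 := by nlinarith
    have h7 := lt_of_mul_lt_mul_right h6 hc.le
    linarith

/-- the coordinates of a solution -/
def co (x : O8) : ℤ × ℤ × ℤ × ℤ × ℤ × ℤ :=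
  (x.c1, x.c2 - x.c1, x.p1, x.p2 - x.p1 * x.c2 / x.c1, x.q1, 2 * x.d1 + x.p1)

theorem disc_eq (H B ρ : ℕ) (x : O8) (hx : Pc H B ρ x)
    (hs : 2 * x.d1 + x.p1 = 2 * x.d2 + x.p2) :
    4 * x.q1 * x.c1 - x.p1 ^ 2 = 4 * x.q2 * x.c2 - x.p2 ^ 2 := by
  have h1 := hx.eq
  have h2 : (2 * x.d1 + x.p1) ^ 2 = (2 * x.d2 + x.p2) ^ 2 := by rw [hs]
  nlinarith

theorem co_inj (H B ρ : ℕ) (hH : 1 ≤ H) (x y : O8) (hx : Pc H B ρ x) (hy : Pc H B ρ y)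
    (hsx : 2 * x.d1 + x.p1 = 2 * x.d2 + x.p2) (hsy : 2 * y.d1 + y.p1 = 2 * y.d2 + y.p2)
    (h : co x = co y) : x = y := by
  have hHz : (1 : ℤ) ≤ H := by exact_mod_cast hH
  have ex := disc_eq H B ρ x hx hsx
  have ey := disc_eq H B ρ y hy hsy
  have hc2 : 0 < x.c2 := by linarith [hx.l2]
  obtain ⟨c1, c2, d1, d2, p1, p2, q1, q2⟩ := x
  obtain ⟨c1', c2', d1', d2', p1', p2', q1', q2'⟩ := y
  simp only [co, Prod.mk.injEq] at h hsx hsy ex ey hc2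
  obtain ⟨e1, e2, e3, e4, e5, e6⟩ := h
  subst e1
  have e7 : c2 = c2' := by linarith
  subst e7
  subst e3
  have e8 : p2 = p2' := by linarith
  subst e8
  subst e5
  have e9 : d1 = d1' := by linarith
  subst e9
  have e10 : d2 = d2' := by linarith
  subst e10
  have e11 : 4 * q2 * c2 = 4 * q2' * c2 := by linarith
  have e12 : q2 = q2' := by
    have := mul_right_cancel₀ hc2.ne' e11
    linarith
  subst e12
  rfl

end Pool.Agent.A54.Av.P0M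

namespace Pool.Agent.A54.Av

open Finset

theorem stmtP0 (hPd : StmtPd) : StmtP0 := by
  classical
  refine ⟨675, 6, by norm_num, fun H B ρ hH hρ S hS => ?_⟩
  have hHz : (1 : ℤ) ≤ H := by exact_mod_cast hH
  have hρz : (1 : ℤ) ≤ ρ := by exact_mod_cast hρ
  have hBz : (0 : ℤ) ≤ B := Int.natCast_nonneg B
  have hρH : (1 : ℤ) ≤ ρ * H := by nlinarith
  have hρ3 : (1 : ℤ) ≤ (ρ : ℤ) ^ 3 := one_le_pow₀ hρz
  set T : Finset (ℤ × ℤ × ℤ × ℤ × ℤ × ℤ) :=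
    Icc (H : ℤ) (2 * H - 1) ×ˢ Icc (-(12 * (ρ : ℤ) ^ 3)) (12 * (ρ : ℤ) ^ 3) ×ˢ
      Icc (-((ρ : ℤ) * H)) (ρ * H) ×ˢ Icc (-(ρ : ℤ)) ρ ×ˢ Icc (-((ρ : ℤ) * H)) (ρ * H) ×ˢ
      Icc (0 : ℤ) B with hT
  have hle : S.card ≤ T.card := by
    refine card_le_card_of_injOn P0M.co ?_ ?_
    · intro x hx
      obtain ⟨hp, hs⟩ := hS x hx
      have hd := P0M.disc_eq H B ρ x hp hs
      obtain ⟨-, k2, k3, -⟩ := hPd H B ρ x hH hρ hp
      have hc1 : 0 < x.c1 := by linarith [hp.l1]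
      have hn := P0M.near H ρ x.c1 x.c2 x.p1 x.p2 (by linarith) hc1 hp.l1 hp.pc
      have hp1 := abs_le.mp hp.p1
      have hq1 := abs_le.mp hp.q1
      have b1 : -(12 * (ρ : ℤ) ^ 3) ≤ x.c2 - x.c1 := by
        by_contra hcon
        have := k3 (by linarith)
        linarith
      have b2 : x.c2 - x.c1 ≤ 12 * (ρ : ℤ) ^ 3 := by
        by_contra hcon
        have := k2 (by linarith)
        linarith
      rw [hT]
      simp only [P0M.co, coe_product, Set.mem_prod, mem_coe, mem_Icc]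
      refine ⟨⟨hp.l1, by linarith [hp.u1]⟩, ⟨b1, b2⟩, ⟨hp1.1, hp1.2⟩, ⟨hn.1, hn.2⟩,
        ⟨hq1.1, hq1.2⟩, ⟨hp.s1, hp.t1⟩⟩
    · intro x hx y hy hxy
      obtain ⟨hp, hs⟩ := hS x hx
      obtain ⟨hp', hs'⟩ := hS y hy
      exact P0M.co_inj H B ρ hH x y hp hp' hs hs' hxy
  have hTc : (T.card : ℝ) = (H : ℝ) * ((24 * (ρ : ℝ) ^ 3 + 1) * ((2 * (ρ * H) + 1) *
      ((2 * ρ + 1) * ((2 * (ρ * H) + 1) * ((B : ℝ) + 1))))) := by
    rw [hT, card_product, card_product, card_product, card_product, card_product]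
    push_cast
    rw [P0M.card_Icc_real _ _ (by linarith), P0M.card_Icc_real _ _ (by linarith),
      P0M.card_Icc_real _ _ (by linarith), P0M.card_Icc_real _ _ (by linarith),
      P0M.card_Icc_real _ _ (by linarith)]
    push_cast
    ring
  have hHr : (1 : ℝ) ≤ H := by exact_mod_cast hH
  have hρr : (1 : ℝ) ≤ ρ := by exact_mod_cast hρ
  have hB0 : (0 : ℝ) ≤ B := Nat.cast_nonneg B
  have hρHr : (1 : ℝ) ≤ ρ * H := by nlinarith
  have hρ3r : (1 : ℝ) ≤ (ρ : ℝ) ^ 3 := one_le_pow₀ hρr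
  calc (S.card : ℝ) ≤ (T.card : ℝ) := by exact_mod_cast hle
    _ = (H : ℝ) * ((24 * (ρ : ℝ) ^ 3 + 1) * ((2 * (ρ * H) + 1) *
      ((2 * ρ + 1) * ((2 * (ρ * H) + 1) * ((B : ℝ) + 1))))) := hTc
    _ ≤ (H : ℝ) * ((25 * (ρ : ℝ) ^ 3) * ((3 * (ρ * H)) *
      ((3 * ρ) * ((3 * (ρ * H)) * ((B : ℝ) + 1))))) := by
        gcongr <;> linarith
    _ = 675 * (ρ : ℝ) ^ 6 * (H : ℝ) ^ 3 * (B + 1) := by ring

end Pool.Agent.A54.Av
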