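import Pool.Agent.Lib.MP_a54f13_nt.Av.SpecC

/-!
# P1: small `|h|`, different traces
-/

set_option autoImplicit false

namespace Pool.Agent.A54.Av.P1M

open Finset

private lemma quot_bound {a b c1 c2 H ρ : ℤ} (hH : 1 ≤ H) (hρ : 1 ≤ ρ) (hc : H ≤ c1)
    (h : |a * c2 - b * c1| ≤ ρ * H) : |a * c2 / c1 - b| ≤ ρ := by
  have hc0 : 0 < c1 := by linarith
  have h1 := Int.emod_add_mul_ediv (a * c2) c1
  have h2 := Int.emod_nonneg (a * c2) hc0.ne'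
  have h3 := Int.emod_lt_of_pos (a * c2) hc0
  set k := a * c2 / c1
  set r := a * c2 % c1
  rw [abs_le] at h ⊢
  have h4 : a * c2 - b * c1 = c1 * (k - b) + r := by rw [← h1]; ring
  rw [h4] at h
  have h5 : ρ * H ≤ ρ * c1 := mul_le_mul_of_nonneg_left hc (by linarith)
  constructor
  · by_contra hcon
    push Not at hcon
    have h6 : k - b ≤ -ρ - 1 := by linarith
    have h7 := mul_le_mul_of_nonneg_left h6 hc0.le
    linarith [h.1]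
  · by_contra hcon
    push Not at hcon
    have h6 : ρ + 1 ≤ k - b := by linarith
    have h7 := mul_le_mul_of_nonneg_left h6 hc0.le
    linarith [h.2]

/-- the code of a solution -/
private def code (x : O8) : ℤ × ℤ × ℤ × ℤ × ℤ × ℤ × ℤ :=
  (x.c1, x.c2 - x.c1, x.p1, x.p1 * x.c2 / x.c1 - x.p2, x.q1, x.q1 * x.c2 / x.c1 - x.q2,
    (2 * x.d1 + x.p1) - (2 * x.d2 + x.p2))

/-- the set of the codes -/
private noncomputable def T (H ρ : ℕ) : Finset (ℤ × ℤ × ℤ × ℤ × ℤ × ℤ × ℤ) :=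
  Icc (H : ℤ) (2 * H - 1) ×ˢ Icc (-(32 * (ρ : ℤ) ^ 3)) (32 * (ρ : ℤ) ^ 3) ×ˢ
    Icc (-((ρ : ℤ) * H)) ((ρ : ℤ) * H) ×ˢ Icc (-(ρ : ℤ)) (ρ : ℤ) ×ˢ
    Icc (-((ρ : ℤ) * H)) ((ρ : ℤ) * H) ×ˢ Icc (-(ρ : ℤ)) (ρ : ℤ) ×ˢ
    Icc (1 : ℤ) (1035 * (ρ : ℤ) ^ 4 * H)

private lemma card_T (H ρ : ℕ) : (T H ρ).card =
    H * ((64 * ρ ^ 3 + 1) * ((2 * (ρ * H) + 1) * ((2 * ρ + 1) * ((2 * (ρ * H) + 1) *
      ((2 * ρ + 1) * (1035 * ρ ^ 4 * H)))))) := by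
  unfold T
  simp only [Finset.card_product, Int.card_Icc]
  have e1 : ((2 * (H : ℤ) - 1 + 1 - H)).toNat = H := by
    have : (2 * (H : ℤ) - 1 + 1 - H) = (H : ℤ) := by ring
    rw [this]; exact Int.toNat_natCast H
  have e2 : (32 * (ρ : ℤ) ^ 3 + 1 - -(32 * (ρ : ℤ) ^ 3)).toNat = 64 * ρ ^ 3 + 1 := by
    have : (32 * (ρ : ℤ) ^ 3 + 1 - -(32 * (ρ : ℤ) ^ 3)) = ((64 * ρ ^ 3 + 1 : ℕ) : ℤ) := by
      push_cast; ring
    rw [this]; exact Int.toNat_natCast _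
  have e3 : ((ρ : ℤ) * H + 1 - -((ρ : ℤ) * H)).toNat = 2 * (ρ * H) + 1 := by
    have : ((ρ : ℤ) * H + 1 - -((ρ : ℤ) * H)) = ((2 * (ρ * H) + 1 : ℕ) : ℤ) := by
      push_cast; ring
    rw [this]; exact Int.toNat_natCast _
  have e4 : ((ρ : ℤ) + 1 - -(ρ : ℤ)).toNat = 2 * ρ + 1 := by
    have : ((ρ : ℤ) + 1 - -(ρ : ℤ)) = ((2 * ρ + 1 : ℕ) : ℤ) := by
      push_cast; ring
    rw [this]; exact Int.toNat_natCast _
  have e5 : (1035 * (ρ : ℤ) ^ 4 * H + 1 - 1).toNat = 1035 * ρ ^ 4 * H := by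
    have : (1035 * (ρ : ℤ) ^ 4 * H + 1 - 1) = ((1035 * ρ ^ 4 * H : ℕ) : ℤ) := by
      push_cast; ring
    rw [this]; exact Int.toNat_natCast _
  rw [e1, e2, e3, e4, e5]

private lemma card_T_le (H ρ : ℕ) (hH : 1 ≤ H) (hρ : 1 ≤ ρ) :
    (T H ρ).card ≤ 65 * 81 * 1035 * ρ ^ 11 * H ^ 4 := by
  rw [card_T]
  have h1 : 64 * ρ ^ 3 + 1 ≤ 65 * ρ ^ 3 := by
    have : 1 ≤ ρ ^ 3 := Nat.one_le_pow _ _ hρ
    linarith
  have h2 : 2 * (ρ * H) + 1 ≤ 3 * (ρ * H) := by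
    have : 1 ≤ ρ * H := Nat.mul_pos hρ hH
    linarith
  have h3 : 2 * ρ + 1 ≤ 3 * ρ := by linarith
  calc H * ((64 * ρ ^ 3 + 1) * ((2 * (ρ * H) + 1) * ((2 * ρ + 1) * ((2 * (ρ * H) + 1) *
      ((2 * ρ + 1) * (1035 * ρ ^ 4 * H)))))) ≤
      H * ((65 * ρ ^ 3) * ((3 * (ρ * H)) * ((3 * ρ) * ((3 * (ρ * H)) *
      ((3 * ρ) * (1035 * ρ ^ 4 * H)))))) := by gcongr
    _ = 65 * 81 * 1035 * ρ ^ 11 * H ^ 4 := by ring

private lemma trace_eq {H B ρ : ℕ} {x : O8} (h : Pc H B ρ x) :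
    ((2 * x.d1 + x.p1) - (2 * x.d2 + x.p2)) * ((2 * x.d1 + x.p1) + (2 * x.d2 + x.p2)) =
      (4 * x.q2 * x.c2 - x.p2 ^ 2) - (4 * x.q1 * x.c1 - x.p1 ^ 2) := by
  have := h.eq
  linear_combination 4 * this

private lemma code_mem (hPd : StmtPd) {H B ρ : ℕ} (hH : 1 ≤ H) (hρ : 1 ≤ ρ) {x : O8}
    (h : Pc H B ρ x) (ht : 2 * x.d2 + x.p2 < 2 * x.d1 + x.p1)
    (hh : |x.c2 - x.c1| < 32 * (ρ : ℤ) ^ 3) : code x ∈ T H ρ := by
  have hHz : (1 : ℤ) ≤ H := by exact_mod_cast hH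
  have hρz : (1 : ℤ) ≤ ρ := by exact_mod_cast hρ
  have hs := trace_eq h
  obtain ⟨g1, _, _, g4⟩ := hPd H B ρ x hH hρ h
  have hρ2 : (ρ : ℤ) ^ 2 ≤ (ρ : ℤ) ^ 4 := pow_le_pow_right₀ hρz (by norm_num)
  have hm : (4 * x.q2 * x.c2 - x.p2 ^ 2) - (4 * x.q1 * x.c1 - x.p1 ^ 2) ≤
      1035 * (ρ : ℤ) ^ 4 * H := by
    have a1 : 11 * (ρ : ℤ) ^ 2 * H ≤ 11 * (ρ : ℤ) ^ 4 * H := by
      have := mul_le_mul_of_nonneg_right hρ2 (show (0 : ℤ) ≤ H by linarith)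
      linarith
    have a2 : (0 : ℤ) ≤ (ρ : ℤ) ^ 4 * H := by positivity
    rcases le_total 0 (x.c2 - x.c1) with hc | hc
    · have b1 := g1 hc
      rw [abs_of_nonneg hc] at hh
      have b2 : 32 * (ρ : ℤ) * H * (x.c2 - x.c1) ≤ 32 * (ρ : ℤ) * H * (32 * (ρ : ℤ) ^ 3) :=
        mul_le_mul_of_nonneg_left hh.le (by positivity)
      have b3 : 32 * (ρ : ℤ) * H * (32 * (ρ : ℤ) ^ 3) = 1024 * ((ρ : ℤ) ^ 4 * H) := by ring
      linarith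
    · have b1 := g4 hc
      linarith
  have ht' : 1 ≤ (2 * x.d1 + x.p1) - (2 * x.d2 + x.p2) := by linarith
  have hsum : 1 ≤ (2 * x.d1 + x.p1) + (2 * x.d2 + x.p2) := by linarith [h.s2]
  have htm : (2 * x.d1 + x.p1) - (2 * x.d2 + x.p2) ≤ 1035 * (ρ : ℤ) ^ 4 * H := by
    refine le_trans ?_ hm
    rw [← hs]
    have := mul_le_mul_of_nonneg_left hsum (show 0 ≤ (2 * x.d1 + x.p1) - (2 * x.d2 + x.p2) by
      linarith)
    linarith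
  have hp := quot_bound hHz hρz h.l1 h.pc
  have hq := quot_bound hHz hρz h.l1 h.qc
  unfold code T
  simp only [Finset.mem_product, Finset.mem_Icc]
  rw [abs_lt] at hh
  rw [abs_le] at hp hq
  have hp1 := abs_le.1 h.p1
  have hq1 := abs_le.1 h.q1
  have hu := h.u1
  exact ⟨⟨h.l1, by linarith⟩, ⟨hh.1.le, hh.2.le⟩, hp1, hp, hq1, hq, ht', htm⟩

private lemma code_inj {H B ρ : ℕ} {x y : O8} (hx : Pc H B ρ x)
    (hy : Pc H B ρ y) (htx : 2 * x.d2 + x.p2 < 2 * x.d1 + x.p1) (h : code x = code y) :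
    x = y := by
  have hsx := trace_eq hx
  have hsy := trace_eq hy
  unfold code at h
  simp only [Prod.mk.injEq] at h
  obtain ⟨e1, e2, e3, e4, e5, e6, e7⟩ := h
  have c2 : x.c2 = y.c2 := by linarith
  rw [e1, c2, e3] at e4
  rw [e1, c2, e5] at e6
  have p2 : x.p2 = y.p2 := by linarith
  have q2 : x.q2 = y.q2 := by linarith
  rw [e1, c2, e3, e5, p2, q2] at hsx
  rw [← hsx] at hsy
  have hpos : 0 < (2 * x.d1 + x.p1) - (2 * x.d2 + x.p2) := by linarith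
  rw [← e7] at hsy
  rw [e3, p2] at e7 hpos hsy
  have hsum : (2 * y.d1 + y.p1) + (2 * y.d2 + y.p2) = (2 * x.d1 + y.p1) + (2 * x.d2 + y.p2) :=
    mul_left_cancel₀ hpos.ne' hsy
  have d1 : x.d1 = y.d1 := by linarith
  have d2 : x.d2 = y.d2 := by linarith
  cases x
  cases y
  simp_all

end Pool.Agent.A54.Av.P1M

namespace Pool.Agent.A54.Av

theorem stmtP1 (hPd : StmtPd) : StmtP1 := by
  refine ⟨65 * 81 * 1035, 11, by norm_num, ?_⟩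
  intro H B ρ hH hρ S hS
  have h1 : S.card ≤ (P1M.T H ρ).card := by
    refine Finset.card_le_card_of_injOn P1M.code ?_ ?_
    · intro x hx
      obtain ⟨a, b, c⟩ := hS x hx
      exact P1M.code_mem hPd hH hρ a b c
    · intro x hx y hy hxy
      obtain ⟨a, b, _⟩ := hS x hx
      obtain ⟨a', _, _⟩ := hS y hy
      exact P1M.code_inj a a' b hxy
  have h2 := h1.trans (P1M.card_T_le H ρ hH hρ)
  have h3 : (S.card : ℝ) ≤ ((65 * 81 * 1035 * ρ ^ 11 * H ^ 4 : ℕ) : ℝ) := by exact_mod_cast h2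
  push_cast at h3
  linarith

end Pool.Agent.A54.Av
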