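import Pool.Agent.Lib.MP_a54f13_nt.Av.SpecC

/-!
# Module `PI`: different traces, class I

Proof of `StmtPI` from `StmtPb`: split by the dyadic size of `h = c2 - c1`, apply `Pb` with
`δ = η = 2^i`, `E = B + H`, and sum the geometric series.
-/

set_option autoImplicit false

namespace Pool.Agent.A54.Av.PIM

open Finset

theorem sum_two_pow (H : ℕ) (hH : 1 ≤ H) :
    ∑ i ∈ range (Nat.log 2 H + 1), (2 : ℝ) ^ i ≤ 2 * H := by
  have h1 : ∑ i ∈ range (Nat.log 2 H + 1), (2 : ℝ) ^ i = 2 ^ (Nat.log 2 H + 1) - 1 := by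
    rw [geom_sum_eq (by norm_num : (2:ℝ) ≠ 1) (Nat.log 2 H + 1)]
    norm_num
  have h2 : 2 ^ Nat.log 2 H ≤ H := Nat.pow_log_le_self 2 (by omega)
  have h3 : ((2 : ℝ) ^ Nat.log 2 H) ≤ H := by exact_mod_cast h2
  rw [h1, pow_succ]
  linarith

theorem bb_le (H η E : ℕ) (hH : 1 ≤ H) (hη : 1 ≤ η) (hE : H ≤ E) :
    bb H η η E ≤ (H : ℝ) ^ 2 * E * η + 2 * ((H : ℝ) ^ 2 * E) +
      3 * η * ((H : ℝ) * E * √((H : ℝ) * E)) := by
  have hHr : (1 : ℝ) ≤ H := by exact_mod_cast hH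
  have hηr : (1 : ℝ) ≤ η := by exact_mod_cast hη
  have hEr : (H : ℝ) ≤ E := by exact_mod_cast hE
  have hH0 : (0 : ℝ) < H := by linarith
  have hη0 : (0 : ℝ) < η := by linarith
  have hE0 : (0 : ℝ) < E := by linarith
  have hlam : lam H η η E ≤ 2 * E / H := by
    unfold lam
    rw [div_self hη0.ne']
    have h1 : (1 : ℝ) ≤ E / H := by
      rw [le_div_iff₀ hH0]; linarith
    have h2 : 2 * (E : ℝ) / H = E / H + E / H := by ring
    linarith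
  have hlam0 : 0 ≤ lam H η η E := by
    unfold lam
    positivity
  have hsq : √(2 * (E : ℝ) / H) ≤ 3 / 2 * √((H : ℝ) * E) / H := by
    have h1 : 2 * (E : ℝ) / H = 2 * ((H : ℝ) * E) / (H : ℝ) ^ 2 := by
      field_simp
    have h2 : √(2 * (E : ℝ) / H) = √2 * √((H : ℝ) * E) / H := by
      rw [h1, Real.sqrt_div (by positivity), Real.sqrt_mul (by norm_num),
        Real.sqrt_sq hH0.le]
    rw [h2]
    have h3 : √2 ≤ 3 / 2 := by
      rw [show (3 / 2 : ℝ) = √((3 / 2) ^ 2) by rw [Real.sqrt_sq (by norm_num)]]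
      exact Real.sqrt_le_sqrt (by norm_num)
    gcongr
  have hsl : √(lam H η η E) ≤ 3 / 2 * √((H : ℝ) * E) / H :=
    (Real.sqrt_le_sqrt hlam).trans hsq
  have t2 : (H : ℝ) ^ 3 * lam H η η E * η / η ≤ 2 * ((H : ℝ) ^ 2 * E) := by
    rw [mul_div_assoc, div_self hη0.ne', mul_one]
    calc (H : ℝ) ^ 3 * lam H η η E ≤ (H : ℝ) ^ 3 * (2 * E / H) := by gcongr
      _ = 2 * ((H : ℝ) ^ 2 * E) := by field_simp
  have t3 : (η : ℝ) * H ^ 3 * lam H η η E * √(lam H η η E) ≤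
      3 * η * ((H : ℝ) * E * √((H : ℝ) * E)) := by
    calc (η : ℝ) * H ^ 3 * lam H η η E * √(lam H η η E)
        ≤ (η : ℝ) * H ^ 3 * (2 * E / H) * (3 / 2 * √((H : ℝ) * E) / H) := by gcongr
      _ = 3 * η * ((H : ℝ) * E * √((H : ℝ) * E)) := by field_simp
  unfold bb
  linarith

/-- the conditions of `Pb` for a solution in the class with `η = 2^i` -/
theorem cond (H B ρ : ℕ) (hH : 1 ≤ H) (hρ : 1 ≤ ρ) (i : ℕ) (x : O8) (hx : Pc H B ρ x)
    (hs : 2 * x.d2 + x.p2 < 2 * x.d1 + x.p1) (h1 : (2 : ℤ) ^ i ≤ x.c2 - x.c1)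
    (h2 : x.c2 - x.c1 < 2 ^ (i + 1)) (h3 : (2 * x.d1 + x.p1) - (2 * x.d2 + x.p2) ≤ 2 ^ i) :
    Pc H B ρ x ∧ Cc H (2 ^ i) x.c1 x.c2 ∧ |x.d1| ≤ (ρ : ℤ) * ((B + H : ℕ) : ℤ) ∧
      |x.d2| ≤ (ρ : ℤ) * ((B + H : ℕ) : ℤ) ∧
      |x.d1 - x.d2| ≤ 3 * (ρ : ℤ) * ((2 ^ i : ℕ) : ℤ) := by
  have hρz : (1 : ℤ) ≤ ρ := by exact_mod_cast hρ
  have hHz : (1 : ℤ) ≤ H := by exact_mod_cast hH
  have hBz : (0 : ℤ) ≤ B := Int.natCast_nonneg B
  have hcast : (((2 : ℕ) ^ i : ℕ) : ℤ) = (2 : ℤ) ^ i := by push_cast; rfl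
  have hη : (1 : ℤ) ≤ 2 ^ i := one_le_pow₀ (by norm_num)
  have h2' : x.c2 - x.c1 < 2 * 2 ^ i := by rw [pow_succ] at h2; linarith
  have hρB : (B : ℤ) ≤ ρ * B := le_mul_of_one_le_left hBz hρz
  have hp1 := abs_le.mp hx.p1
  have hp2 := abs_le.mp hx.p2
  have e1 : (ρ : ℤ) * ((B + H : ℕ) : ℤ) = ρ * B + ρ * H := by push_cast; ring
  have hρH : (0 : ℤ) ≤ ρ * H := by positivity
  have s1 := hx.s1
  have s2 := hx.s2
  have t1 := hx.t1
  have t2 := hx.t2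
  -- the difference of the p's
  have hpp : |x.p1 - x.p2| ≤ 2 * ρ * 2 ^ i := by
    have hc1 : (0 : ℤ) < x.c1 := by linarith [hx.l1]
    have hid : (x.p1 - x.p2) * x.c1 = (x.p1 * x.c2 - x.p2 * x.c1) - x.p1 * (x.c2 - x.c1) := by
      ring
    have ha : |(x.p1 - x.p2) * x.c1| ≤ ρ * H + ρ * H * (x.c2 - x.c1) := by
      rw [hid]
      refine (abs_sub _ _).trans ?_
      rw [abs_mul x.p1, abs_of_nonneg (by linarith : (0 : ℤ) ≤ x.c2 - x.c1)]
      have := hx.pc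
      have h4 : |x.p1| * (x.c2 - x.c1) ≤ ρ * H * (x.c2 - x.c1) :=
        mul_le_mul_of_nonneg_right hx.p1 (by linarith)
      linarith
    rw [abs_mul, abs_of_pos hc1] at ha
    have hb : |x.p1 - x.p2| * H ≤ (2 * ρ * 2 ^ i) * H := by
      have h5 : |x.p1 - x.p2| * H ≤ |x.p1 - x.p2| * x.c1 :=
        mul_le_mul_of_nonneg_left hx.l1 (abs_nonneg _)
      have h6 : (x.c2 - x.c1) + 1 ≤ 2 * 2 ^ i := by linarith
      have h7 : (ρ : ℤ) * H * ((x.c2 - x.c1) + 1) ≤ ρ * H * (2 * 2 ^ i) :=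
        mul_le_mul_of_nonneg_left h6 hρH
      nlinarith [h5, ha, h7]
    exact le_of_mul_le_mul_right hb (by linarith)
  have hpp' := abs_le.mp hpp
  have hρη : (2 : ℤ) ^ i ≤ ρ * 2 ^ i := le_mul_of_one_le_left (by linarith) hρz
  refine ⟨hx, ⟨hx.l1, hx.u1, hx.l2, hx.u2, ?_, ?_⟩, ?_, ?_, ?_⟩
  · rw [hcast]; exact h1
  · rw [hcast]; exact h2'
  · rw [e1, abs_le]
    constructor <;> linarith
  · rw [e1, abs_le]
    constructor <;> linarith
  · rw [hcast, abs_le]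
    constructor <;> linarith

end Pool.Agent.A54.Av.PIM

namespace Pool.Agent.A54.Av

open Finset

theorem stmtPI (_hPd : StmtPd) (hPb : StmtPb) : StmtPI := by
  classical
  obtain ⟨C, M, hC, hb⟩ := hPb
  refine ⟨10 * C, M, by linarith, fun H B ρ hH hρ S hS => ?_⟩
  have hHr : (1 : ℝ) ≤ H := by exact_mod_cast hH
  have hH0 : (0 : ℝ) < H := by linarith
  have hB0 : (0 : ℝ) ≤ B := Nat.cast_nonneg B
  set F : ℕ → Finset O8 := fun i => S.filter fun x => (2 : ℤ) ^ i ≤ x.c2 - x.c1 ∧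
      x.c2 - x.c1 < 2 ^ (i + 1) ∧ (2 * x.d1 + x.p1) - (2 * x.d2 + x.p2) ≤ 2 ^ i with hF
  have hsub : S ⊆ (range (Nat.log 2 H + 1)).biUnion F := by
    intro x hx
    obtain ⟨hp, -, -, i, h1, h2, h3⟩ := hS x hx
    rw [mem_biUnion]
    refine ⟨i, ?_, ?_⟩
    · rw [mem_range, Nat.lt_succ_iff]
      refine Nat.le_log_of_pow_le (by norm_num) ?_
      have h4 : (2 : ℤ) ^ i ≤ H := by linarith [hp.u2, hp.l1]
      exact_mod_cast h4
    · rw [hF]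
      exact mem_filter.mpr ⟨hx, h1, h2, h3⟩
  set E : ℝ := (B : ℝ) + H with hE
  have hEH : (H : ℝ) ≤ E := by linarith
  have hE0 : 0 < E := by linarith
  have hsq : (H : ℝ) ≤ √((H : ℝ) * E) := by
    refine Real.le_sqrt_of_sq_le ?_
    rw [sq]
    exact mul_le_mul_of_nonneg_left hEH hH0.le
  have hcard : ∀ i ∈ range (Nat.log 2 H + 1), ((F i).card : ℝ) ≤
      C * (ρ : ℝ) ^ M * ((H : ℝ) ^ 2 * E * 2 ^ i + 2 * ((H : ℝ) ^ 2 * E) +
        3 * 2 ^ i * ((H : ℝ) * E * √((H : ℝ) * E))) := by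
    intro i hi
    rw [mem_range, Nat.lt_succ_iff] at hi
    have hiH : 2 ^ i ≤ H :=
      (Nat.pow_le_pow_right (by norm_num) hi).trans (Nat.pow_log_le_self 2 (by omega))
    have hPm : Pm H (2 ^ i) (2 ^ i) (B + H) ρ :=
      ⟨hρ, Nat.one_le_two_pow, hiH, le_rfl, by omega, Or.inl rfl⟩
    have h1 := hb H (2 ^ i) (2 ^ i) (B + H) B ρ hPm (F i) (fun x hx => by
      rw [hF] at hx
      obtain ⟨hxS, h1, h2, h3⟩ := mem_filter.mp hx
      obtain ⟨hp, hs, -, -⟩ := hS x hxS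
      exact PIM.cond H B ρ hH hρ i x hp hs h1 h2 h3)
    refine h1.trans ?_
    have h2 := PIM.bb_le H (2 ^ i) (B + H) hH Nat.one_le_two_pow (by omega)
    have h3 : (((B + H : ℕ)) : ℝ) = E := by rw [hE]; push_cast; ring
    have h4 : (((2 ^ i : ℕ)) : ℝ) = 2 ^ i := by push_cast; ring
    rw [h3, h4] at h2
    exact mul_le_mul_of_nonneg_left h2 (by positivity)
  have hsum := PIM.sum_two_pow H hH
  have hn : ((Nat.log 2 H + 1 : ℕ) : ℝ) ≤ √((H : ℝ) * E) := by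
    refine le_trans ?_ hsq
    have : Nat.log 2 H < H := Nat.log_lt_self 2 (by omega)
    exact_mod_cast this
  have hr : 0 ≤ √((H : ℝ) * E) := Real.sqrt_nonneg _
  calc (S.card : ℝ) ≤ (((range (Nat.log 2 H + 1)).biUnion F).card : ℝ) := by
        exact_mod_cast card_le_card hsub
    _ ≤ ∑ i ∈ range (Nat.log 2 H + 1), ((F i).card : ℝ) := by
        exact_mod_cast card_biUnion_le
    _ ≤ ∑ i ∈ range (Nat.log 2 H + 1), C * (ρ : ℝ) ^ M * ((H : ℝ) ^ 2 * E * 2 ^ i +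
          2 * ((H : ℝ) ^ 2 * E) + 3 * 2 ^ i * ((H : ℝ) * E * √((H : ℝ) * E))) :=
        sum_le_sum hcard
    _ = C * (ρ : ℝ) ^ M * ((H : ℝ) ^ 2 * E * (∑ i ∈ range (Nat.log 2 H + 1), (2 : ℝ) ^ i) +
          2 * ((H : ℝ) ^ 2 * E) * ((Nat.log 2 H + 1 : ℕ) : ℝ) +
          3 * (∑ i ∈ range (Nat.log 2 H + 1), (2 : ℝ) ^ i) *
            ((H : ℝ) * E * √((H : ℝ) * E))) := by
        rw [← mul_sum, sum_add_distrib, sum_add_distrib, ← mul_sum, sum_const, card_range,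
          nsmul_eq_mul, ← sum_mul, ← mul_sum]
        ring
    _ ≤ C * (ρ : ℝ) ^ M * (10 * ((H : ℝ) ^ 2 * E * √((H : ℝ) * E))) := by
        refine mul_le_mul_of_nonneg_left ?_ (by positivity)
        have a1 : (H : ℝ) ^ 2 * E * (∑ i ∈ range (Nat.log 2 H + 1), (2 : ℝ) ^ i) ≤
            (H : ℝ) ^ 2 * E * (2 * √((H : ℝ) * E)) := by
          refine mul_le_mul_of_nonneg_left ?_ (by positivity)
          linarith
        have a2 : 2 * ((H : ℝ) ^ 2 * E) * ((Nat.log 2 H + 1 : ℕ) : ℝ) ≤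
            2 * ((H : ℝ) ^ 2 * E) * √((H : ℝ) * E) :=
          mul_le_mul_of_nonneg_left hn (by positivity)
        have a3 : 3 * (∑ i ∈ range (Nat.log 2 H + 1), (2 : ℝ) ^ i) *
            ((H : ℝ) * E * √((H : ℝ) * E)) ≤
            3 * (2 * H) * ((H : ℝ) * E * √((H : ℝ) * E)) := by
          refine mul_le_mul_of_nonneg_right ?_ (by positivity)
          linarith
        nlinarith [a1, a2, a3]
    _ = 10 * C * (ρ : ℝ) ^ M * ((H : ℝ) ^ 2 * E * √((H : ℝ) * E)) := by ring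

end Pool.Agent.A54.Av
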