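import Pool.Agent.Lib.MP_a54f13_nt.Av.SpecC

/-!
# Package `Av`, module PII: different traces, class II
-/

set_option autoImplicit false

namespace Pool.Agent.A54.Av

noncomputable section

namespace PIIM

/-- the fourth root of two -/
def om : ℝ := √(√2)

theorem om4 : om ^ 4 = 2 := by
  have h1 : om ^ 2 = √2 := Real.sq_sqrt (Real.sqrt_nonneg _)
  have h2 : om ^ 4 = (om ^ 2) ^ 2 := by ring
  rw [h2, h1]
  exact Real.sq_sqrt (by norm_num)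

theorem om_pos : 0 < om := Real.sqrt_pos.mpr (Real.sqrt_pos.mpr (by norm_num))

theorem om_gt : 1 < om := by
  by_contra hcon
  rw [not_lt] at hcon
  have h1 : om ^ 4 ≤ 1 := pow_le_one₀ om_pos.le hcon
  rw [om4] at h1
  norm_num at h1

/-- the constant of a geometric series -/
def gc (q : ℝ) : ℝ := q / (q - 1)

theorem gc_nonneg {q : ℝ} (hq : 1 < q) : 0 ≤ gc q :=
  div_nonneg (by linarith) (by linarith)

theorem geo {q : ℝ} (hq : 1 < q) (K : ℕ) :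
    ∑ a ∈ Finset.range (K + 1), q ^ a ≤ gc q * q ^ K := by
  rw [geom_sum_eq (by linarith) (K + 1)]
  have h1 : 0 < q - 1 := by linarith
  unfold gc
  rw [div_mul_eq_mul_div]
  apply div_le_div_of_nonneg_right _ h1.le
  rw [pow_succ]
  linarith

theorem geoHalf (K : ℕ) : ∑ a ∈ Finset.range (K + 1), ((1 : ℝ) / 2) ^ a ≤ 2 := by
  have h1 := geom_sum_eq (by norm_num : ((1 : ℝ) / 2) ≠ 1) (K + 1)
  rw [h1]
  have h2 : 0 ≤ ((1 : ℝ) / 2) ^ (K + 1) := by positivity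
  have h3 : (((1 : ℝ) / 2) ^ (K + 1) - 1) / (1 / 2 - 1) = 2 * (1 - (1 / 2) ^ (K + 1)) := by
    ring
  rw [h3]
  linarith

/-- the weights -/
def wt (a b : ℕ) : ℝ :=
  34 * (om ^ (2 * a) * om ^ (2 * b)) + 35 * ((1 / 2) ^ a * 2 ^ b) + 210 * (om ^ a * om ^ (3 * b))

/-- the constant of the sum of the weights -/
def DD : ℝ := 34 * gc (om ^ 2) ^ 2 + 140 + 210 * (gc om * gc (om ^ 3))

theorem om2_gt : 1 < om ^ 2 := one_lt_pow₀ om_gt (by norm_num)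

theorem om3_gt : 1 < om ^ 3 := one_lt_pow₀ om_gt (by norm_num)

theorem DD_nonneg : 0 ≤ DD := by
  unfold DD
  have h1 := gc_nonneg om2_gt
  have h2 := gc_nonneg om_gt
  have h3 := gc_nonneg om3_gt
  positivity

theorem sum_wt (K : ℕ) :
    ∑ a ∈ Finset.range (K + 1), ∑ b ∈ Finset.range (K + 1), wt a b ≤ DD * 2 ^ K := by
  have e1 : ∑ a ∈ Finset.range (K + 1), ∑ b ∈ Finset.range (K + 1), wt a b =
      34 * ((∑ a ∈ Finset.range (K + 1), (om ^ 2) ^ a) *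
        (∑ b ∈ Finset.range (K + 1), (om ^ 2) ^ b)) +
      35 * ((∑ a ∈ Finset.range (K + 1), ((1 : ℝ) / 2) ^ a) *
        (∑ b ∈ Finset.range (K + 1), (2 : ℝ) ^ b)) +
      210 * ((∑ a ∈ Finset.range (K + 1), om ^ a) *
        (∑ b ∈ Finset.range (K + 1), (om ^ 3) ^ b)) := by
    rw [Finset.sum_mul_sum, Finset.sum_mul_sum, Finset.sum_mul_sum]
    simp only [Finset.mul_sum, ← Finset.sum_add_distrib]
    refine Finset.sum_congr rfl fun a _ => Finset.sum_congr rfl fun b _ => ?_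
    unfold wt
    rw [pow_mul, pow_mul, pow_mul]
  rw [e1]
  have p1 := geo om2_gt K
  have p2 := geo om_gt K
  have p3 := geo om3_gt K
  have p4 : ∑ b ∈ Finset.range (K + 1), (2 : ℝ) ^ b ≤ 2 * 2 ^ K := by
    have := geo (by norm_num : (1 : ℝ) < 2) K
    have e : gc 2 = 2 := by unfold gc; norm_num
    rw [e] at this
    exact this
  have p5 := geoHalf K
  have n1 : 0 ≤ ∑ a ∈ Finset.range (K + 1), (om ^ 2) ^ a :=
    Finset.sum_nonneg fun _ _ => by have := om_pos; positivity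
  have n2 : 0 ≤ ∑ b ∈ Finset.range (K + 1), (2 : ℝ) ^ b :=
    Finset.sum_nonneg fun _ _ => by positivity
  have n3 : 0 ≤ ∑ b ∈ Finset.range (K + 1), (om ^ 3) ^ b :=
    Finset.sum_nonneg fun _ _ => by have := om_pos; positivity
  have g1 := gc_nonneg om2_gt
  have g2 := gc_nonneg om_gt
  have g3 := gc_nonneg om3_gt
  have k1 : 0 ≤ (om ^ 2) ^ K := by have := om_pos; positivity
  have k2 : 0 ≤ om ^ K := by have := om_pos; positivity
  have q1 : (∑ a ∈ Finset.range (K + 1), (om ^ 2) ^ a) *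
      (∑ b ∈ Finset.range (K + 1), (om ^ 2) ^ b) ≤ gc (om ^ 2) ^ 2 * 2 ^ K := by
    have h1 := mul_le_mul p1 p1 n1 (mul_nonneg g1 k1)
    have h2 : gc (om ^ 2) * (om ^ 2) ^ K * (gc (om ^ 2) * (om ^ 2) ^ K) =
        gc (om ^ 2) ^ 2 * 2 ^ K := by
      rw [← om4]
      ring
    rw [h2] at h1
    exact h1
  have q2 : (∑ a ∈ Finset.range (K + 1), ((1 : ℝ) / 2) ^ a) *
      (∑ b ∈ Finset.range (K + 1), (2 : ℝ) ^ b) ≤ 4 * 2 ^ K := by
    have h1 := mul_le_mul p5 p4 n2 (by norm_num : (0 : ℝ) ≤ 2)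
    linarith
  have q3 : (∑ a ∈ Finset.range (K + 1), om ^ a) *
      (∑ b ∈ Finset.range (K + 1), (om ^ 3) ^ b) ≤ gc om * gc (om ^ 3) * 2 ^ K := by
    have h1 := mul_le_mul p2 p3 n3 (mul_nonneg g2 k2)
    have h2 : gc om * om ^ K * (gc (om ^ 3) * (om ^ 3) ^ K) = gc om * gc (om ^ 3) * 2 ^ K := by
      rw [← om4]
      ring
    rw [h2] at h1
    exact h1
  unfold DD
  nlinarith [q1, q2, q3]

/-- facts about one element -/
theorem facts (hPd : StmtPd) {H B ρ : ℕ} {x : O8} (hH : 1 ≤ H) (hρ : 1 ≤ ρ) (hx : Pc H B ρ x)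
    (hh : 32 * (ρ : ℤ) ^ 3 ≤ x.c2 - x.c1) {η δ : ℕ} (hη : 1 ≤ η) (hηδ : η ≤ δ)
    (h1 : (η : ℤ) ≤ x.c2 - x.c1) (h2 : x.c2 - x.c1 < 2 * η)
    (t1 : (δ : ℤ) ≤ (2 * x.d1 + x.p1) - (2 * x.d2 + x.p2))
    (t2 : (2 * x.d1 + x.p1) - (2 * x.d2 + x.p2) < 2 * δ) :
    (δ : ℤ) * δ ≤ 66 * ρ * H * η ∧ |x.d1| ≤ ρ * ((34 * H : ℕ) : ℤ) ∧
      |x.d2| ≤ ρ * ((34 * H : ℕ) : ℤ) ∧ |x.d1 - x.d2| ≤ 3 * ρ * δ := by
  obtain ⟨a1, -, -, -⟩ := hPd H B ρ x hH hρ hx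
  have hH' : (1 : ℤ) ≤ H := by exact_mod_cast hH
  have hρ' : (1 : ℤ) ≤ ρ := by exact_mod_cast hρ
  have hη' : (1 : ℤ) ≤ η := by exact_mod_cast hη
  have hηδ' : (η : ℤ) ≤ δ := by exact_mod_cast hηδ
  have hρ3 : (ρ : ℤ) ≤ ρ ^ 3 := by
    have : (ρ : ℤ) ^ 1 ≤ ρ ^ 3 := pow_le_pow_right₀ hρ' (by norm_num)
    simpa using this
  have h0 : 0 ≤ x.c2 - x.c1 := by linarith
  have b1 := a1 h0
  have hρH : (1 : ℤ) ≤ ρ * H := by nlinarith
  have b2 : 11 * (ρ : ℤ) ^ 2 * H ≤ ρ * H * (x.c2 - x.c1) := by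
    have e : 11 * (ρ : ℤ) ^ 2 * H = ρ * H * (11 * ρ) := by ring
    rw [e]
    exact mul_le_mul_of_nonneg_left (by linarith) (by linarith)
  have b3 : (ρ : ℤ) * H * (x.c2 - x.c1) ≤ ρ * H * (2 * η) :=
    mul_le_mul_of_nonneg_left h2.le (by linarith)
  have hm : ((2 * x.d1 + x.p1) - (2 * x.d2 + x.p2)) * ((2 * x.d1 + x.p1) + (2 * x.d2 + x.p2)) =
      (4 * x.q2 * x.c2 - x.p2 ^ 2) - (4 * x.q1 * x.c1 - x.p1 ^ 2) := by
    linear_combination 4 * hx.eq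
  have hm2 : ((2 * x.d1 + x.p1) - (2 * x.d2 + x.p2)) *
      ((2 * x.d1 + x.p1) + (2 * x.d2 + x.p2)) ≤ 66 * ρ * H * η := by
    rw [hm]
    have e5 : 32 * (ρ : ℤ) * H * (x.c2 - x.c1) = 32 * (ρ * H * (x.c2 - x.c1)) := by ring
    have e6 : (ρ : ℤ) * H * (2 * η) = 2 * (ρ * H * η) := by ring
    have e7 : 66 * (ρ : ℤ) * H * η = 66 * (ρ * H * η) := by ring
    rw [e6] at b3
    rw [e5] at b1
    rw [e7]
    linarith [b1, b2, b3]
  set s1 := 2 * x.d1 + x.p1 with hs1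
  set s2 := 2 * x.d2 + x.p2 with hs2
  have hs20 : 0 ≤ s2 := hx.s2
  have hs10 : 0 ≤ s1 := hx.s1
  have ht0 : 0 < s1 - s2 := by linarith
  have c1 : s1 + s2 ≤ 66 * ρ * H := by
    by_contra hcon
    rw [not_le] at hcon
    have h3 : (s1 - s2) * (66 * ρ * H) < (s1 - s2) * (s1 + s2) :=
      mul_lt_mul_of_pos_left hcon ht0
    have h4 : (η : ℤ) * (66 * ρ * H) ≤ (s1 - s2) * (66 * ρ * H) :=
      mul_le_mul_of_nonneg_right (by linarith) (by nlinarith)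
    have h5 : (η : ℤ) * (66 * ρ * H) = 66 * ρ * H * η := by ring
    linarith [hm2]
  have c2 : (δ : ℤ) * δ ≤ 66 * ρ * H * η := by
    have h3 : (δ : ℤ) * δ ≤ (s1 - s2) * (s1 - s2) :=
      mul_le_mul t1 t1 (by linarith) ht0.le
    have h4 : (s1 - s2) * (s1 - s2) ≤ (s1 - s2) * (s1 + s2) :=
      mul_le_mul_of_nonneg_left (by linarith) ht0.le
    linarith
  have hp1 := abs_le.mp hx.p1
  have hp2 := abs_le.mp hx.p2
  have c1' : s1 + s2 ≤ 66 * (ρ * H) := by linarith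
  have e34 : (ρ : ℤ) * ((34 * H : ℕ) : ℤ) = 34 * (ρ * H) := by
    push_cast
    ring
  have c3 : |x.d1| ≤ ρ * ((34 * H : ℕ) : ℤ) := by
    rw [e34, abs_le]
    constructor <;> linarith [hp1.1, hp1.2, hs1]
  have c4 : |x.d2| ≤ ρ * ((34 * H : ℕ) : ℤ) := by
    rw [e34, abs_le]
    constructor <;> linarith [hp2.1, hp2.2, hs2]
  have hc1 : (0 : ℤ) < x.c1 := by linarith [hx.l1]
  have c5 : |x.p1 - x.p2| ≤ 2 * ρ * η := by
    have h3 : |(x.p1 - x.p2) * x.c1| ≤ ρ * H + ρ * H * (x.c2 - x.c1) := by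
      have e : (x.p1 - x.p2) * x.c1 = (x.p1 * x.c2 - x.p2 * x.c1) - x.p1 * (x.c2 - x.c1) := by
        ring
      rw [e]
      refine (abs_sub _ _).trans ?_
      refine add_le_add hx.pc ?_
      rw [abs_mul, abs_of_nonneg h0]
      exact mul_le_mul_of_nonneg_right hx.p1 h0
    have h4 : (ρ : ℤ) * H + ρ * H * (x.c2 - x.c1) ≤ ρ * H * (2 * η) := by
      have : x.c2 - x.c1 + 1 ≤ 2 * η := by linarith [Int.add_one_le_iff.mpr h2]
      calc (ρ : ℤ) * H + ρ * H * (x.c2 - x.c1) = ρ * H * (x.c2 - x.c1 + 1) := by ring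
        _ ≤ ρ * H * (2 * η) := mul_le_mul_of_nonneg_left this (by linarith)
    have h5 : (ρ : ℤ) * H * (2 * η) ≤ (2 * ρ * η) * x.c1 := by
      calc (ρ : ℤ) * H * (2 * η) = (2 * ρ * η) * H := by ring
        _ ≤ (2 * ρ * η) * x.c1 := mul_le_mul_of_nonneg_left hx.l1 (by positivity)
    rw [abs_mul, abs_of_pos hc1] at h3
    exact le_of_mul_le_mul_right (h3.trans (h4.trans h5)) hc1
  have c6 : |x.d1 - x.d2| ≤ 3 * ρ * δ := by
    have h3 := abs_le.mp c5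
    have h4 : (ρ : ℤ) * η ≤ ρ * δ := mul_le_mul_of_nonneg_left hηδ' (by linarith)
    have hδ0 : (0 : ℤ) ≤ δ := by positivity
    have h5 : (δ : ℤ) ≤ ρ * δ := le_mul_of_one_le_left hδ0 hρ'
    have h6 : 3 * (ρ : ℤ) * δ = 3 * (ρ * δ) := by ring
    have h7 : 2 * (ρ : ℤ) * η = 2 * (ρ * η) := by ring
    rw [h7] at h3
    rw [h6, abs_le]
    constructor <;> linarith [h3.1, h3.2, hs1, hs2, h4, h5]
  exact ⟨c2, c3, c4, c6⟩

theorem bb_le (H i j : ℕ) (hH : 1 ≤ H) :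
    bb H (2 ^ i) (2 ^ (i + j)) (34 * H) ≤ (H : ℝ) ^ 3 * wt i (i + 2 * j) := by
  have hH0 : (0 : ℝ) < H := by exact_mod_cast hH
  have hr : (1 : ℝ) ≤ 2 ^ j := one_le_pow₀ (by norm_num)
  have hlam : lam H (2 ^ i) (2 ^ (i + j)) (34 * H) = 34 + 2 ^ j := by
    unfold lam
    push_cast
    rw [pow_add]
    field_simp
  have hl2 : (34 : ℝ) + 2 ^ j ≤ 35 * 2 ^ j := by linarith
  have hsq : √((34 : ℝ) + 2 ^ j) ≤ 6 * om ^ (2 * j) := by
    rw [Real.sqrt_le_left (by have := om_pos; positivity)]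
    have e : (6 * om ^ (2 * j)) ^ 2 = 36 * 2 ^ j := by
      rw [← om4]
      ring
    rw [e]
    linarith
  have hprod : ((34 : ℝ) + 2 ^ j) * √((34 : ℝ) + 2 ^ j) ≤ 35 * 2 ^ j * (6 * om ^ (2 * j)) :=
    mul_le_mul hl2 hsq (Real.sqrt_nonneg _) (by positivity)
  unfold bb
  rw [hlam]
  push_cast
  have e1 : (H : ℝ) ^ 2 * (34 * H) * 2 ^ (i + j) =
      H ^ 3 * (34 * (om ^ (2 * i) * om ^ (2 * (i + 2 * j)))) := by
    rw [← om4]
    ring
  have e2 : (H : ℝ) ^ 3 * (34 + 2 ^ j) * 2 ^ (i + j) / 2 ^ i ≤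
      H ^ 3 * (35 * ((1 / 2) ^ i * 2 ^ (i + 2 * j))) := by
    have e3 : (H : ℝ) ^ 3 * (34 + 2 ^ j) * 2 ^ (i + j) / 2 ^ i = H ^ 3 * ((34 + 2 ^ j) * 2 ^ j) := by
      rw [pow_add]
      field_simp
    have e4 : (H : ℝ) ^ 3 * (35 * ((1 / 2) ^ i * 2 ^ (i + 2 * j))) =
        H ^ 3 * ((35 * 2 ^ j) * 2 ^ j) := by
      have : ((1 : ℝ) / 2) ^ i * 2 ^ (i + 2 * j) = 2 ^ j * 2 ^ j := by
        rw [pow_add, ← mul_assoc, ← mul_pow]
        norm_num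
        rw [two_mul, pow_add]
      rw [this]
      ring
    rw [e3, e4]
    refine mul_le_mul_of_nonneg_left ?_ (by positivity)
    exact mul_le_mul_of_nonneg_right hl2 (by positivity)
  have e5 : (2 : ℝ) ^ i * H ^ 3 * (34 + 2 ^ j) * √(34 + 2 ^ j) ≤
      H ^ 3 * (210 * (om ^ i * om ^ (3 * (i + 2 * j)))) := by
    calc (2 : ℝ) ^ i * H ^ 3 * (34 + 2 ^ j) * √(34 + 2 ^ j)
        = 2 ^ i * H ^ 3 * ((34 + 2 ^ j) * √(34 + 2 ^ j)) := by ring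
      _ ≤ 2 ^ i * H ^ 3 * (35 * 2 ^ j * (6 * om ^ (2 * j))) :=
          mul_le_mul_of_nonneg_left hprod (by positivity)
      _ = H ^ 3 * (210 * (om ^ i * om ^ (3 * (i + 2 * j)))) := by
          rw [← om4]
          ring
  unfold wt
  calc (H : ℝ) ^ 2 * (34 * H) * 2 ^ (i + j) + H ^ 3 * (34 + 2 ^ j) * 2 ^ (i + j) / 2 ^ i +
        2 ^ i * H ^ 3 * (34 + 2 ^ j) * √(34 + 2 ^ j)
      ≤ H ^ 3 * (34 * (om ^ (2 * i) * om ^ (2 * (i + 2 * j)))) +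
        H ^ 3 * (35 * ((1 / 2) ^ i * 2 ^ (i + 2 * j))) +
        H ^ 3 * (210 * (om ^ i * om ^ (3 * (i + 2 * j)))) := by
          rw [e1]
          linarith [e2, e5]
    _ = _ := by ring

/-- the conditions on an element of a dyadic class -/
def Cls (a b : ℕ) (x : O8) : Prop :=
  ∃ j : ℕ, b = a + 2 * j ∧ (2 : ℤ) ^ a ≤ x.c2 - x.c1 ∧ x.c2 - x.c1 < 2 ^ (a + 1) ∧
    (2 : ℤ) ^ (a + j) ≤ (2 * x.d1 + x.p1) - (2 * x.d2 + x.p2) ∧
    (2 * x.d1 + x.p1) - (2 * x.d2 + x.p2) < 2 ^ (a + j + 1)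

theorem wt_nonneg (a b : ℕ) : 0 ≤ wt a b := by
  unfold wt
  have := om_pos
  positivity

theorem cls_bound (hPd : StmtPd) {C : ℝ} {M : ℕ} (hC : 0 ≤ C)
    (hPb : ∀ H η δ E B ρ : ℕ, Pm H η δ E ρ →
      ∀ S : Finset O8, (∀ x ∈ S, Pc H B ρ x ∧ Cc H η x.c1 x.c2 ∧ |x.d1| ≤ ρ * E ∧
        |x.d2| ≤ ρ * E ∧ |x.d1 - x.d2| ≤ 3 * ρ * δ) → (S.card : ℝ) ≤ C * (ρ : ℝ) ^ M * bb H η δ E)
    {H B ρ : ℕ} (hH : 1 ≤ H) (hρ : 1 ≤ ρ) (a b : ℕ) (S : Finset O8)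
    (hS : ∀ x ∈ S, Pc H B ρ x ∧ 32 * (ρ : ℤ) ^ 3 ≤ x.c2 - x.c1 ∧ Cls a b x) :
    (S.card : ℝ) ≤ C * (ρ : ℝ) ^ M * ((H : ℝ) ^ 3 * wt a b) := by
  rcases S.eq_empty_or_nonempty with rfl | ⟨y, hy⟩
  · simp only [Finset.card_empty, Nat.cast_zero]
    have := wt_nonneg a b
    positivity
  · obtain ⟨hy1, hy2, j, hj, hy3, hy4, hy5, hy6⟩ := hS y hy
    subst hj
    have hη : 1 ≤ 2 ^ a := Nat.one_le_two_pow
    have hηδ : 2 ^ a ≤ 2 ^ (a + j) := Nat.pow_le_pow_right (by norm_num) (by omega)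
    have hηH : 2 ^ a ≤ H := by
      have h3 := hy1.u2
      have h4 := hy1.l1
      have h5 : (2 : ℤ) ^ a < H := by linarith
      exact_mod_cast h5.le
    have hPm : Pm H (2 ^ a) (2 ^ (a + j)) (34 * H) ρ :=
      { rho := hρ, eta := hη, etaH := hηH, del := hηδ, EH := by omega, alt := Or.inr (by omega) }
    refine (hPb H (2 ^ a) (2 ^ (a + j)) (34 * H) B ρ hPm S ?_).trans
      (mul_le_mul_of_nonneg_left (bb_le H a j hH) (by positivity))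
    intro x hx
    obtain ⟨hx1, hx2, j', hj', hx3, hx4, hx5, hx6⟩ := hS x hx
    have hjj : j' = j := by omega
    subst hjj
    have q1 : ((2 ^ a : ℕ) : ℤ) ≤ x.c2 - x.c1 := by push_cast; exact hx3
    have q2 : x.c2 - x.c1 < 2 * ((2 ^ a : ℕ) : ℤ) := by
      push_cast
      rw [pow_succ] at hx4
      linarith
    have q3 : ((2 ^ (a + j') : ℕ) : ℤ) ≤ (2 * x.d1 + x.p1) - (2 * x.d2 + x.p2) := by
      push_cast
      exact hx5
    have q4 : (2 * x.d1 + x.p1) - (2 * x.d2 + x.p2) < 2 * ((2 ^ (a + j') : ℕ) : ℤ) := by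
      push_cast
      rw [pow_succ] at hx6
      linarith
    obtain ⟨-, f2, f3, f4⟩ := facts hPd hH hρ hx1 hx2 hη hηδ q1 q2 q3 q4
    exact ⟨hx1, ⟨hx1.l1, hx1.u1, hx1.l2, hx1.u2, q1, q2⟩, f2, f3, f4⟩

end PIIM

open PIIM in
theorem stmtPII (hPd : StmtPd) (hPb : StmtPb) : StmtPII := by
  classical
  obtain ⟨C, M, hC, hb⟩ := hPb
  refine ⟨C * (DD * 66), M + 1, mul_nonneg hC (mul_nonneg DD_nonneg (by norm_num)), ?_⟩
  intro H B ρ hH hρ S hS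
  set K := Nat.log 2 (66 * ρ * H) with hK
  have hX0 : 66 * ρ * H ≠ 0 := by positivity
  have hcov : S ⊆ (Finset.range (K + 1) ×ˢ Finset.range (K + 1)).biUnion
      (fun ab => S.filter (fun x => Cls ab.1 ab.2 x)) := by
    intro x hx
    obtain ⟨hx1, hx2, i, hi1, hi2, hi3⟩ := hS x hx
    have ht : 0 < (2 * x.d1 + x.p1) - (2 * x.d2 + x.p2) := lt_trans (by positivity) hi3
    obtain ⟨tn, htn⟩ : ∃ tn : ℕ, (tn : ℤ) = (2 * x.d1 + x.p1) - (2 * x.d2 + x.p2) :=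
      ⟨_, Int.toNat_of_nonneg ht.le⟩
    have htn0 : tn ≠ 0 := by
      intro h
      rw [h] at htn
      simp at htn
      omega
    have hitn : 2 ^ i ≤ tn := by
      have : (2 : ℤ) ^ i ≤ tn := by rw [htn]; exact hi3.le
      exact_mod_cast this
    have hil : i ≤ Nat.log 2 tn := (Nat.le_log_iff_pow_le (by norm_num) htn0).mpr hitn
    obtain ⟨j, hj⟩ := Nat.exists_eq_add_of_le hil
    have u1 : 2 ^ (i + j) ≤ tn := by
      rw [← hj]
      exact Nat.pow_log_le_self 2 htn0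
    have u2 : tn < 2 ^ (i + j + 1) := by
      rw [← hj]
      exact Nat.lt_pow_succ_log_self (by norm_num) tn
    have u1' : (2 : ℤ) ^ (i + j) ≤ (2 * x.d1 + x.p1) - (2 * x.d2 + x.p2) := by
      rw [← htn]
      exact_mod_cast u1
    have u2' : (2 * x.d1 + x.p1) - (2 * x.d2 + x.p2) < (2 : ℤ) ^ (i + j + 1) := by
      rw [← htn]
      exact_mod_cast u2
    have hη : 1 ≤ 2 ^ i := Nat.one_le_two_pow
    have hηδ : 2 ^ i ≤ 2 ^ (i + j) := Nat.pow_le_pow_right (by norm_num) (by omega)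
    have q1 : ((2 ^ i : ℕ) : ℤ) ≤ x.c2 - x.c1 := by push_cast; exact hi1
    have q2 : x.c2 - x.c1 < 2 * ((2 ^ i : ℕ) : ℤ) := by
      push_cast
      rw [pow_succ] at hi2
      linarith
    have q3 : ((2 ^ (i + j) : ℕ) : ℤ) ≤ (2 * x.d1 + x.p1) - (2 * x.d2 + x.p2) := by
      push_cast
      exact u1'
    have q4 : (2 * x.d1 + x.p1) - (2 * x.d2 + x.p2) < 2 * ((2 ^ (i + j) : ℕ) : ℤ) := by
      push_cast
      rw [pow_succ] at u2'
      linarith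
    obtain ⟨f1, -, -, -⟩ := facts hPd hH hρ hx1 hx2 hη hηδ q1 q2 q3 q4
    have f2 : 2 ^ (i + j) * 2 ^ (i + j) ≤ 66 * ρ * H * 2 ^ i := by exact_mod_cast f1
    have f3 : 2 ^ (i + 2 * j) ≤ 66 * ρ * H := by
      have e : 2 ^ (i + j) * 2 ^ (i + j) = 2 ^ (i + 2 * j) * 2 ^ i := by
        rw [← pow_add, ← pow_add]
        congr 1
        ring
      rw [e] at f2
      exact Nat.le_of_mul_le_mul_right f2 (by positivity)
    have f4 : i + 2 * j ≤ K := (Nat.le_log_iff_pow_le (by norm_num) hX0).mpr f3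
    rw [Finset.mem_biUnion]
    refine ⟨(i, i + 2 * j), ?_, ?_⟩
    · rw [Finset.mem_product, Finset.mem_range, Finset.mem_range]
      constructor
      · show i < K + 1
        omega
      · show i + 2 * j < K + 1
        omega
    · rw [Finset.mem_filter]
      exact ⟨hx, j, rfl, hi1, hi2, u1', u2'⟩
  have hcard : (S.card : ℝ) ≤ ∑ ab ∈ Finset.range (K + 1) ×ˢ Finset.range (K + 1),
      ((S.filter (fun x => Cls ab.1 ab.2 x)).card : ℝ) := by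
    have h1 := (Finset.card_le_card hcov).trans Finset.card_biUnion_le
    exact_mod_cast h1
  have hρ0 : (0 : ℝ) ≤ ρ := Nat.cast_nonneg _
  calc (S.card : ℝ) ≤ ∑ ab ∈ Finset.range (K + 1) ×ˢ Finset.range (K + 1),
        ((S.filter (fun x => Cls ab.1 ab.2 x)).card : ℝ) := hcard
    _ ≤ ∑ ab ∈ Finset.range (K + 1) ×ˢ Finset.range (K + 1),
        C * (ρ : ℝ) ^ M * ((H : ℝ) ^ 3 * wt ab.1 ab.2) := by
        refine Finset.sum_le_sum fun ab _ => cls_bound (B := B) hPd hC hb hH hρ ab.1 ab.2 _ ?_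
        intro x hx
        rw [Finset.mem_filter] at hx
        obtain ⟨hx1, hx2, -⟩ := hS x hx.1
        exact ⟨hx1, hx2, hx.2⟩
    _ = C * (ρ : ℝ) ^ M * (H : ℝ) ^ 3 *
        ∑ a ∈ Finset.range (K + 1), ∑ b ∈ Finset.range (K + 1), wt a b := by
        rw [Finset.sum_product]
        simp only [Finset.mul_sum]
        refine Finset.sum_congr rfl fun a _ => Finset.sum_congr rfl fun b _ => ?_
        ring
    _ ≤ C * (ρ : ℝ) ^ M * (H : ℝ) ^ 3 * (DD * 2 ^ K) :=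
        mul_le_mul_of_nonneg_left (sum_wt K) (by positivity)
    _ ≤ C * (ρ : ℝ) ^ M * (H : ℝ) ^ 3 * (DD * (66 * ρ * H)) := by
        refine mul_le_mul_of_nonneg_left (mul_le_mul_of_nonneg_left ?_ DD_nonneg) (by positivity)
        have h1 : 2 ^ K ≤ 66 * ρ * H := Nat.pow_log_le_self 2 hX0
        exact_mod_cast h1
    _ = C * (DD * 66) * (ρ : ℝ) ^ (M + 1) * (H : ℝ) ^ 4 := by ring

end

end Pool.Agent.A54.Av
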