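import Pool.Agent.Lib.MP_a54f13_nt.Av.SpecA

/-!
# Module Pa: pairing of the theta series with a form
-/

set_option autoImplicit false

namespace Pool.Agent.A54.Av.PaM

open Pool.Agent.A54.Av
open MeasureTheory Filter Topology Set
open scoped ContDiff ComplexConjugate UpperHalfPlane MatrixGroups ENNReal
open Pool.Agent.A54.Half (H0 qq ff hh)

noncomputable section

/-- splitting a sum over matrices according to the determinant -/
theorem hasSum_det {E : Type*} [NormedAddCommGroup E] [CompleteSpace E] {f : Mat → E}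
    (hf : Summable f) :
    HasSum (fun n : ℤ => ∑' γ : Mat, if γ.det = n then f γ else 0) (∑' γ, f γ) := by
  have h := hf.hasSum.tsum_fiberwise (fun γ : Mat => γ.det)
  have e : (fun n : ℤ => ∑' γ : Mat, if γ.det = n then f γ else 0) =
      fun n : ℤ => ∑' b : (fun γ : Mat => γ.det) ⁻¹' {n}, f b := by
    funext n
    rw [tsum_subtype]
    refine tsum_congr fun γ => ?_
    by_cases hγ : γ.det = n
    · rw [if_pos hγ, Set.indicator_of_mem]
      exact hγ
    · rw [if_neg hγ, Set.indicator_of_notMem]
      exact hγ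
  rw [e]
  exact h

instance : Countable Mat := by
  unfold Mat Matrix
  infer_instance

theorem cont {f : ℍ → ℝ} {t : ℝ} (hf : IsHeckeMaass f t) : Continuous f := by
  have h3 : Continuous (fun z : ℍ => ext f (z : ℂ)) :=
    hf.smooth.continuousOn.comp_continuous UpperHalfPlane.continuous_coe (fun z => z.im_pos)
  have h4 : (fun z : ℍ => ext f (z : ℂ)) = f := funext (Half.ext_coe f)
  rwa [h4] at h3

/-- continuity of a term -/
theorem cont_kk (γ : Mat) (z w : ℍ) : Continuous fun τ : ℍ => kk γ z w τ := by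
  unfold kk VV
  have h : ∀ τ : ℍ, 4 * (w : ℂ).im * (τ : ℂ).im ≠ 0 := by
    intro τ
    have h1 := w.im_pos
    have h2 := τ.im_pos
    simp only [UpperHalfPlane.coe_im]
    positivity
  have hc : Continuous fun τ : ℍ => (τ : ℂ) := UpperHalfPlane.continuous_coe
  have hi : Continuous fun τ : ℍ => (τ : ℂ).im := Complex.continuous_im.comp hc
  refine continuous_const.mul (Complex.continuous_ofReal.comp (Real.continuous_exp.comp ?_))
  refine (continuous_const.mul (Continuous.div ?_ ?_ h)).neg
  · fun_prop
  · fun_prop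

/-- measurability of a sum over a set of matrices -/
theorem meas_sum (z w : ℍ) (hs : ∀ τ : ℍ, Summable fun γ : Mat => ‖kk γ z w τ‖)
    (p : Mat → Prop) [DecidablePred p] :
    Measurable fun τ : ℍ => ∑' γ : Mat, if p γ then kk γ z w τ else 0 := by
  have hlim : Tendsto (fun (s : Finset Mat) (τ : ℍ) => ∑ γ ∈ s, if p γ then kk γ z w τ else 0) atTop
      (𝓝 fun τ : ℍ => ∑' γ : Mat, if p γ then kk γ z w τ else 0) := by
    rw [tendsto_pi_nhds]
    intro τ
    have : Summable fun γ : Mat => if p γ then kk γ z w τ else 0 := by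
      refine Summable.of_norm_bounded (hs τ) fun γ => ?_
      split_ifs
      · exact le_rfl
      · rw [norm_zero]; exact norm_nonneg _
    exact this.hasSum
  refine measurable_of_tendsto_metrizable' atTop (fun s => ?_) hlim
  refine Finset.measurable_sum s fun γ _ => ?_
  by_cases h : p γ
  · simp only [h, if_true]
    exact (cont_kk γ z w).measurable
  · simp only [h, if_false]
    exact measurable_const

end

end Pool.Agent.A54.Av.PaM

namespace Pool.Agent.A54.Av

open Pool.Agent.A54.Av.PaM
open MeasureTheory Filter Topology Set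
open scoped ContDiff ComplexConjugate UpperHalfPlane MatrixGroups ENNReal
open Pool.Agent.A54.Half (H0 qq ff hh)

/-- **Pa** -/
theorem stmtPa (hPr : StmtPr) (hPp : StmtPp) (hPn : StmtPn) (hZ0 : StmtZ0) (hAbs : StmtAbs)
    (hFo : StmtFo1) : StmtPa := by
  intro f t ε ρ hf hε hρ z w
  obtain ⟨hs, hint⟩ := hAbs f t hf z w
  obtain ⟨hF1, _, hF3, hF4, hF5⟩ := hFo f t hf
  have hfc : Continuous f := cont hf
  have hz0 : 0 < z.im := z.im_pos
  -- the parts
  set A : ℤ → ℍ → ℂ := fun n τ => ∑' γ : Mat, if γ.det = n then kk γ z w τ else 0 with hA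
  set B : ℤ → ℍ → ℝ := fun n τ => ∑' γ : Mat, if γ.det = n then ‖kk γ z w τ‖ else 0 with hB
  have hAB : ∀ n τ, ‖A n τ‖ ≤ B n τ := by
    intro n τ
    have h1 : Summable fun γ : Mat => ‖if γ.det = n then kk γ z w τ else 0‖ := by
      refine Summable.of_nonneg_of_le (fun γ => norm_nonneg _) (fun γ => ?_) (hs τ)
      split_ifs
      · exact le_rfl
      · rw [norm_zero]; exact norm_nonneg _
    refine (norm_tsum_le_tsum_norm h1).trans (le_of_eq ?_)
    refine tsum_congr fun γ => ?_
    split_ifs
    · rfl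
    · exact norm_zero
  have hsumB : ∀ τ, HasSum (fun n => B n τ) (∑' γ : Mat, ‖kk γ z w τ‖) := fun τ => hasSum_det (hs τ)
  have hsumA : ∀ τ : ℍ, HasSum (fun n => A n τ) (Th z w τ) := fun τ =>
    hasSum_det (Summable.of_norm (hs τ))
  have hmeas : ∀ n, Measurable (A n) := fun n => meas_sum z w hs (fun γ => γ.det = n)
  have hfm : Measurable fun τ : ℍ => (f τ : ℂ) :=
    Complex.measurable_ofReal.comp hfc.measurable
  -- the main sum
  have hmain : HasSum (fun n : ℤ => ∫ τ in ModularGroup.fdo, A n τ * (f τ : ℂ))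
      (∫ τ in ModularGroup.fdo, Th z w τ * (f τ : ℂ)) := by
    refine hasSum_integral_of_dominated_convergence (fun n τ => B n τ * |f τ|) (fun n => ?_)
      (fun n => ?_) ?_ ?_ ?_
    · exact ((hmeas n).mul hfm).aestronglyMeasurable
    · refine Filter.Eventually.of_forall fun τ => ?_
      rw [norm_mul, Complex.norm_real, Real.norm_eq_abs]
      exact mul_le_mul_of_nonneg_right (hAB n τ) (abs_nonneg _)
    · exact Filter.Eventually.of_forall fun τ => (hsumB τ).summable.mul_right _
    · have e : (fun τ : ℍ => ∑' n : ℤ, B n τ * |f τ|) =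
          fun τ : ℍ => (∑' γ : Mat, ‖kk γ z w τ‖) * |f τ| := by
        funext τ
        exact ((hsumB τ).mul_right _).tsum_eq
      rw [e]
      exact hint
    · exact Filter.Eventually.of_forall fun τ => (hsumA τ).mul_right _
  -- the terms
  have hterm : ∀ n : ℤ, ∫ τ in ModularGroup.fdo, A n τ * (f τ : ℂ) =
      4 / ρ * (f w : ℂ) * (an f n z.im * ee ((n : ℂ) * z.re)) := by
    have hpos : ∀ m : ℕ, 1 ≤ m → ∀ c : ℝ, IsHk f m c →
        ((4 * c * √(z.im / m) * KB t (2 * Real.pi * m * z.im) * f w : ℝ) : ℂ) =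
          4 / ρ * (f w : ℂ) * an f m z.im := by
      intro m hm c hc
      have hm0 : (0 : ℝ) < m := by exact_mod_cast hm
      have h1 := hF5 m c hm hc z.im hz0
      have h2 := hρ.2 (m * z.im) (by positivity)
      rw [h1, h2]
      have h3 : √((m : ℝ) * z.im) = m * √(z.im / m) := by
        rw [show (m : ℝ) * z.im = m ^ 2 * (z.im / m) by field_simp, Real.sqrt_mul (by positivity),
          Real.sqrt_sq hm0.le]
      rw [h3, show 2 * Real.pi * ((m : ℝ) * z.im) = 2 * Real.pi * m * z.im by ring]
      have hρ0 := hρ.1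
      have hmc : (m : ℂ) ≠ 0 := by exact_mod_cast hm0.ne'
      push_cast
      field_simp
    intro n
    rcases lt_trichotomy n 0 with hn | hn | hn
    · -- negative
      obtain ⟨m, hm⟩ : ∃ m : ℕ, n = -(m : ℤ) := ⟨n.natAbs, by omega⟩
      have hm1 : 1 ≤ m := by omega
      obtain ⟨c, hc⟩ := hf.hecke m hm1
      have h1 := hPn f t hf m c ε hm1 hc hε z w
      have h2 := hF3 ε hε m z.im hz0
      have h3 := hpos m hm1 c hc
      subst hm
      have h4 : ∫ τ in ModularGroup.fdo, A (-(m : ℤ)) τ * (f τ : ℂ) =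
          ((ε * (4 * c * √(z.im / m) * KB t (2 * Real.pi * m * z.im) * f w) : ℝ) : ℂ) *
        ee (-((m : ℂ) * (z.re : ℂ))) := by
        rw [← h1]
      rw [h4, h2, Complex.ofReal_mul, h3]
      push_cast
      rw [show (-(m : ℂ) * (z.re : ℂ)) = -((m : ℂ) * (z.re : ℂ)) by ring]
      ring
    · -- zero
      subst hn
      rw [hF4 z.im hz0, zero_mul, mul_zero]
      have h0 := hPr f t hf z w
      set R : ℍ → ℂ := fun τ => ∑' γ : Mat, open Classical in
        if γ.det = 0 ∧ γ ≠ 0 then kk γ z w τ else 0 with hR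
      have hk0 : ∀ τ : ℍ, kk (0 : Mat) z w τ = (z.im : ℂ) := by
        intro τ
        unfold kk VV ee
        simp
      have hsum0 : ∀ τ, A 0 τ = (z.im : ℂ) + R τ := by
        intro τ
        have s1 : Summable fun γ : Mat => if γ.det = 0 then kk γ z w τ else 0 := by
          refine Summable.of_norm_bounded (hs τ) fun γ => ?_
          split_ifs
          · exact le_rfl
          · rw [norm_zero]; exact norm_nonneg _
        have s2 := s1.tsum_eq_add_tsum_ite (0 : Mat)
        simp only [hA, hR]
        rw [s2]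
        congr 1
        · rw [if_pos (by simp), hk0]
        · refine tsum_congr fun γ => ?_
          by_cases h1 : γ = 0
          · simp [h1]
          · by_cases h2 : γ.det = 0
            · simp [h1, h2]
            · simp [h1, h2]
      have hRb : ∀ τ, ‖R τ‖ ≤ ∑' γ : Mat, ‖kk γ z w τ‖ := by
        intro τ
        have h1 : Summable fun γ : Mat => ‖open Classical in
            if γ.det = 0 ∧ γ ≠ 0 then kk γ z w τ else 0‖ := by
          refine Summable.of_nonneg_of_le (fun γ => norm_nonneg _) (fun γ => ?_) (hs τ)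
          split_ifs
          · exact le_rfl
          · rw [norm_zero]; exact norm_nonneg _
        refine (norm_tsum_le_tsum_norm h1).trans (h1.tsum_le_tsum (fun γ => ?_) (hs τ))
        split_ifs
        · exact le_rfl
        · rw [norm_zero]; exact norm_nonneg _
      have hRm : Measurable R := by
        classical
        exact meas_sum z w hs (fun γ => γ.det = 0 ∧ γ ≠ 0)
      have hRi : IntegrableOn (fun τ => R τ * (f τ : ℂ)) ModularGroup.fdo := by
        refine Integrable.mono' hint (hRm.mul hfm).aestronglyMeasurable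
          (Filter.Eventually.of_forall fun τ => ?_)
        rw [norm_mul, Complex.norm_real, Real.norm_eq_abs]
        exact mul_le_mul_of_nonneg_right (hRb τ) (abs_nonneg _)
      have hfi : IntegrableOn (fun τ : ℍ => (z.im : ℂ) * (f τ : ℂ)) ModularGroup.fdo := by
        refine Integrable.mono' hint (measurable_const.mul hfm).aestronglyMeasurable
          (Filter.Eventually.of_forall fun τ => ?_)
        rw [norm_mul, Complex.norm_real (f τ), Real.norm_eq_abs, ← hk0 τ]
        refine mul_le_mul_of_nonneg_right ?_ (abs_nonneg _)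
        exact (hs τ).le_tsum (0 : Mat) (fun γ _ => norm_nonneg _)
      calc ∫ τ in ModularGroup.fdo, A 0 τ * (f τ : ℂ) =
          ∫ τ in ModularGroup.fdo, ((z.im : ℂ) * (f τ : ℂ) + R τ * (f τ : ℂ)) := by
            refine integral_congr_ae (Filter.Eventually.of_forall fun τ => ?_)
            simp only [hsum0]
            ring
        _ = (∫ τ in ModularGroup.fdo, (z.im : ℂ) * (f τ : ℂ)) +
            ∫ τ in ModularGroup.fdo, R τ * (f τ : ℂ) := integral_add hfi hRi
        _ = 0 := by
            rw [h0, add_zero, integral_const_mul]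
            have : ∫ τ in ModularGroup.fdo, (f τ : ℂ) = ((∫ τ in ModularGroup.fdo, f τ : ℝ) : ℂ) :=
              integral_ofReal
            rw [this, hZ0 f t hf, Complex.ofReal_zero, mul_zero]
    · -- positive
      obtain ⟨m, hm⟩ : ∃ m : ℕ, n = (m : ℤ) := ⟨n.natAbs, by omega⟩
      have hm1 : 1 ≤ m := by omega
      obtain ⟨c, hc⟩ := hf.hecke m hm1
      have h1 := hPp f t hf m c hm1 hc z w
      have h3 := hpos m hm1 c hc
      subst hm
      have h4 : ∫ τ in ModularGroup.fdo, A (m : ℤ) τ * (f τ : ℂ) =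
          ((4 * c * √(z.im / m) * KB t (2 * Real.pi * m * z.im) * f w : ℝ) : ℂ) *
        ee ((m : ℂ) * (z.re : ℂ)) := by
        rw [← h1]
      rw [h4, h3]
      push_cast
      ring
  have h5 := hF1 (z : ℂ) z.im_pos
  rw [Half.ext_coe] at h5
  have h6 : HasSum (fun n : ℤ => ∫ τ in ModularGroup.fdo, A n τ * (f τ : ℂ))
      (4 / ρ * (f w : ℂ) * (f z : ℂ)) := by
    have h7 := h5.mul_left (4 / ρ * (f w : ℂ))
    have e : (fun n : ℤ => ∫ τ in ModularGroup.fdo, A n τ * (f τ : ℂ)) =
        fun n : ℤ => 4 / ρ * (f w : ℂ) * (an f n (z : ℂ).im * ee ((n : ℂ) * (z : ℂ).re)) :=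
      funext fun n => hterm n
    rw [e]
    exact h7
  rw [hmain.unique h6]
  push_cast
  ring

end Pool.Agent.A54.Av
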