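import Pool.Agent.Lib.MP_a54f13_nt.Av.SpecF

/-!
# Package `Av`, module Par: every form is even or odd
-/

set_option autoImplicit false

namespace Pool.Agent.A54.Av.ParM

open MeasureTheory Filter Topology Set
open scoped ContDiff ComplexConjugate UpperHalfPlane MatrixGroups ENNReal
open Pool.Agent.A54.Half (H0 qq ff hh)

noncomputable section

/-- the symmetry of the coefficients gives the symmetry of the form -/
lemma par_of_coeff (f : ℍ → ℝ) (ε : ℝ)
    (hexp : ∀ z ∈ H0, HasSum (fun n : ℤ => an f n z.im * ee ((n : ℂ) * z.re)) (ext f z : ℂ))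
    (hc : ∀ (n : ℤ) (y : ℝ), 0 < y → an f (-n) y = ε * an f n y) (z : ℂ) (hz : z ∈ H0) :
    ext f (-conj z) = ε * ext f z := by
  have hz' : 0 < z.im := hz
  have him : (-conj z).im = z.im := by simp
  have hre : (-conj z).re = -z.re := by simp
  have hmem : -conj z ∈ H0 := by
    change 0 < (-conj z).im
    rw [him]; exact hz'
  have h1 := hexp (-conj z) hmem
  rw [him, hre] at h1
  have h2 : HasSum ((fun n : ℤ => an f n z.im * ee ((n : ℂ) * ((-z.re : ℝ) : ℂ))) ∘
      (Equiv.neg ℤ)) (ext f (-conj z) : ℂ) := (Equiv.hasSum_iff (Equiv.neg ℤ)).2 h1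
  have h3 : HasSum (fun n : ℤ => (ε : ℂ) * (an f n z.im * ee ((n : ℂ) * z.re)))
      ((ε : ℂ) * (ext f z : ℂ)) := (hexp z hz).mul_left _
  have h4 : ((fun n : ℤ => an f n z.im * ee ((n : ℂ) * ((-z.re : ℝ) : ℂ))) ∘ (Equiv.neg ℤ)) =
      fun n : ℤ => (ε : ℂ) * (an f n z.im * ee ((n : ℂ) * z.re)) := by
    funext n
    simp only [Function.comp_apply, Equiv.neg_apply]
    rw [hc n z.im hz']
    have : ((-n : ℤ) : ℂ) * ((-z.re : ℝ) : ℂ) = (n : ℂ) * (z.re : ℂ) := by push_cast; ring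
    rw [this]
    ring
  rw [h4] at h2
  have h5 := h2.unique h3
  exact_mod_cast h5

/-- the coefficients from the first one -/
lemma coeff_sym (f : ℍ → ℝ) (t ε : ℝ) (ρ : ℂ) (hρ : IsRho f t ρ) (hε : conj ρ = ε * ρ)
    (hε2 : ε * ε = 1) (c : ℕ → ℝ)
    (h2 : ∀ (n : ℤ) (y : ℝ), an f (-n) y = conj (an f n y))
    (h4 : ∀ y : ℝ, 0 < y → an f 0 y = 0)
    (h5 : ∀ m : ℕ, 1 ≤ m → ∀ y : ℝ, 0 < y → an f m y = ((c m / m : ℝ) : ℂ) * an f 1 (m * y))
    (n : ℤ) (y : ℝ) (hy : 0 < y) : an f (-n) y = ε * an f n y := by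
  have key : ∀ m : ℕ, 1 ≤ m → conj (an f m y) = ε * an f m y := by
    intro m hm
    have hm0 : (0 : ℝ) < m := by exact_mod_cast hm
    rw [h5 m hm y hy, hρ.2 (m * y) (by positivity)]
    simp only [map_mul, Complex.conj_ofReal]
    rw [hε]
    ring
  obtain ⟨m, rfl | rfl⟩ := n.eq_nat_or_neg
  · rcases Nat.eq_zero_or_pos m with rfl | hm
    · simp only [Nat.cast_zero, neg_zero]
      rw [h4 y hy, mul_zero]
    · rw [h2, key m hm]
  · rcases Nat.eq_zero_or_pos m with rfl | hm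
    · simp only [Nat.cast_zero, neg_zero]
      rw [h4 y hy, mul_zero]
    · rw [neg_neg, h2, key m hm, ← mul_assoc]
      have : (ε : ℂ) * ε = 1 := by exact_mod_cast hε2
      rw [this, one_mul]

lemma exists_ne (f : ℍ → ℝ) (t : ℝ) (hf : IsHeckeMaass f t) : ∃ z, f z ≠ 0 := by
  by_contra h
  push Not at h
  have h1 := hf.normalised
  simp only [h] at h1
  simp at h1
  have := Real.pi_pos
  linarith

lemma c_one (f : ℍ → ℝ) (t : ℝ) (hf : IsHeckeMaass f t) (c : ℝ) (hc : IsHk f 1 c) : c = 1 := by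
  obtain ⟨z, hz⟩ := exists_ne f t hf
  have h1 := hc z
  simp only [Nat.divisors_one, Finset.sum_singleton, Finset.range_one, Nat.div_one, Nat.cast_one,
    Nat.cast_zero, one_mul, add_zero, div_one] at h1
  rw [Pool.Agent.A54.Half.ext_coe] at h1
  have h2 : (c - 1) * f z = 0 := by linarith
  rcases mul_eq_zero.1 h2 with h | h
  · linarith
  · exact absurd h hz

/-- the vanishing of the sum is impossible -/
lemma no_zero (t : ℝ) (c : ℕ → ℝ) (C : ℝ) (hc1 : c 1 = 1) (hC : ∀ n : ℕ, 1 ≤ n → |c n| ≤ C * n)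
    (hK : ∀ X : ℝ, 0 < X → |KB t X| ≤ √(Real.pi / (2 * X)) * Real.exp (-X))
    (hlim : Tendsto (fun X => √X * Real.exp X * KB t X) atTop (𝓝 (√(Real.pi / 2))))
    (h0 : ∀ y : ℝ, 0 < y → HasSum (fun n : ℕ => c (n + 1) / √(n + 1) *
      (√y * KB t (2 * Real.pi * (n + 1) * y))) 0) : False := by
  have hpi := Real.pi_pos
  have hC0 : 0 ≤ C := by
    have := hC 1 le_rfl
    rw [hc1] at this
    norm_num at this
    linarith
  have hb : ∀ X : ℝ, 1 ≤ X → |√X * Real.exp X * KB t X| ≤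
      2 * C * √(Real.pi / 2) * Real.exp (-X) := by
    intro X hX
    have hX0 : 0 < X := by linarith
    set y := X / (2 * Real.pi) with hy
    have hy0 : 0 < y := by positivity
    have hXy : ∀ n : ℝ, 2 * Real.pi * n * y = n * X := by
      intro n; rw [hy]; field_simp
    have h1 := h0 y hy0
    set a : ℕ → ℝ := fun n : ℕ => c (n + 1) / √(n + 1) *
      (√y * KB t (2 * Real.pi * (n + 1) * y)) with ha
    have h2 : a 0 + ∑' n, a (n + 1) = 0 := by
      rw [← h1.summable.tsum_eq_zero_add, h1.tsum_eq]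
    have ha0 : a 0 = √y * KB t X := by
      simp only [ha, Nat.cast_zero, zero_add, hc1, Real.sqrt_one, div_one, one_mul]
      have := hXy 1
      rw [one_mul] at this
      rw [this]
    have hterm : ∀ n : ℕ, ‖a (n + 1)‖ ≤ C * √y * √(Real.pi / (2 * X)) * Real.exp (-X) *
        Real.exp (-X) * Real.exp (-X) ^ n := by
      intro n
      rw [Real.norm_eq_abs]
      simp only [ha]
      have hn0 : (0 : ℝ) < (((n + 1 : ℕ) : ℝ) + 1) := by positivity
      rw [hXy (((n + 1 : ℕ) : ℝ) + 1)]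
      have e1 := hK ((((n + 1 : ℕ) : ℝ) + 1) * X) (by positivity)
      have e2 := hC (n + 1 + 1) (by omega)
      have e3 : |c (n + 1 + 1) / √(((n + 1 : ℕ) : ℝ) + 1)| ≤ C * √(((n + 1 : ℕ) : ℝ) + 1) := by
        rw [abs_div, abs_of_nonneg (Real.sqrt_nonneg _), div_le_iff₀ (Real.sqrt_pos.2 hn0),
          mul_assoc, Real.mul_self_sqrt hn0.le]
        push_cast at e2 ⊢
        exact e2
      have e4 : √(Real.pi / (2 * ((((n + 1 : ℕ) : ℝ) + 1) * X))) * √(((n + 1 : ℕ) : ℝ) + 1) =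
          √(Real.pi / (2 * X)) := by
        rw [← Real.sqrt_mul (by positivity)]
        congr 1
        field_simp
      have e5 : Real.exp (-((((n + 1 : ℕ) : ℝ) + 1) * X)) =
          Real.exp (-X) * Real.exp (-X) * Real.exp (-X) ^ n := by
        rw [← Real.exp_nat_mul, ← Real.exp_add, ← Real.exp_add]
        congr 1
        push_cast
        ring
      rw [abs_mul, abs_mul, abs_of_nonneg (Real.sqrt_nonneg y)]
      calc |c (n + 1 + 1) / √(((n + 1 : ℕ) : ℝ) + 1)| * (√y * |KB t ((((n + 1 : ℕ) : ℝ) + 1) * X)|)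
          ≤ C * √(((n + 1 : ℕ) : ℝ) + 1) * (√y * (√(Real.pi / (2 * ((((n + 1 : ℕ) : ℝ) + 1) * X))) *
            Real.exp (-((((n + 1 : ℕ) : ℝ) + 1) * X)))) := by gcongr
        _ = C * √y * (√(Real.pi / (2 * ((((n + 1 : ℕ) : ℝ) + 1) * X))) *
            √(((n + 1 : ℕ) : ℝ) + 1)) * Real.exp (-((((n + 1 : ℕ) : ℝ) + 1) * X)) := by ring
        _ = _ := by rw [e4, e5]; ring
    have hex : Real.exp (-X) ≤ 1 / 2 := by
      have h3 := Real.add_one_le_exp X
      rw [Real.exp_neg, inv_eq_one_div]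
      exact one_div_le_one_div_of_le (by norm_num) (by linarith)
    have hex0 : 0 < Real.exp (-X) := Real.exp_pos _
    have hgeo := (hasSum_geometric_of_lt_one hex0.le (by linarith)).mul_left
      (C * √y * √(Real.pi / (2 * X)) * Real.exp (-X) * Real.exp (-X))
    have h4 := tsum_of_norm_bounded hgeo hterm
    have h5 : ‖∑' n, a (n + 1)‖ = √y * |KB t X| := by
      have : ∑' n, a (n + 1) = -(a 0) := by linarith
      rw [this, norm_neg, Real.norm_eq_abs, ha0, abs_mul, abs_of_nonneg (Real.sqrt_nonneg y)]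
    rw [h5] at h4
    have h6 : (1 - Real.exp (-X))⁻¹ ≤ 2 := by
      rw [inv_le_comm₀ (by linarith) (by norm_num)]
      linarith
    have hsy : 0 < √y := Real.sqrt_pos.2 hy0
    have h7 : √y * |KB t X| ≤ √y * (C * √(Real.pi / (2 * X)) * Real.exp (-X) * Real.exp (-X) * 2) := by
      refine le_trans h4 ?_
      calc C * √y * √(Real.pi / (2 * X)) * Real.exp (-X) * Real.exp (-X) * (1 - Real.exp (-X))⁻¹
          ≤ C * √y * √(Real.pi / (2 * X)) * Real.exp (-X) * Real.exp (-X) * 2 := by gcongr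
        _ = _ := by ring
    have h8 := le_of_mul_le_mul_left h7 hsy
    have h9 : √X * √(Real.pi / (2 * X)) = √(Real.pi / 2) := by
      rw [← Real.sqrt_mul hX0.le]
      congr 1
      field_simp
    have h10 : Real.exp X * Real.exp (-X) = 1 := by rw [← Real.exp_add]; simp
    rw [abs_mul, abs_mul, abs_of_nonneg (Real.sqrt_nonneg X), abs_of_pos (Real.exp_pos X)]
    calc √X * Real.exp X * |KB t X| ≤ √X * Real.exp X *
          (C * √(Real.pi / (2 * X)) * Real.exp (-X) * Real.exp (-X) * 2) := by gcongr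
      _ = 2 * C * (√X * √(Real.pi / (2 * X))) * (Real.exp X * Real.exp (-X)) * Real.exp (-X) := by
        ring
      _ = _ := by rw [h9, h10]; ring
  have hz : Tendsto (fun X => √X * Real.exp X * KB t X) atTop (𝓝 0) := by
    apply squeeze_zero_norm' (a := fun X => 2 * C * √(Real.pi / 2) * Real.exp (-X))
    · filter_upwards [eventually_ge_atTop (1 : ℝ)] with X hX
      exact hb X hX
    · have h1 : Tendsto (fun X : ℝ => Real.exp (-X)) atTop (𝓝 0) :=
        Real.tendsto_exp_neg_atTop_nhds_zero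
      have := h1.const_mul (2 * C * √(Real.pi / 2))
      rwa [mul_zero] at this
  have h1 := tendsto_nhds_unique hlim hz
  have h2 : 0 < √(Real.pi / 2) := Real.sqrt_pos.2 (by positivity)
  linarith

end

end Pool.Agent.A54.Av.ParM

namespace Pool.Agent.A54.Av

open scoped UpperHalfPlane ComplexConjugate
open Pool.Agent.A54.Half (H0 qq ff hh)

theorem stmtPar (hRho : StmtRho) (hFo : StmtFo1) (hQ2 : StmtQ2) (hQ3 : StmtQ3)
    (hKBf : StmtKBf) : StmtPar := by
  intro f t hf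
  obtain ⟨ρ, hρ⟩ := hRho f t hf
  obtain ⟨fo1, fo2, -, fo4, fo5⟩ := hFo f t hf
  have hch : ∀ m : ℕ, ∃ c : ℝ, 1 ≤ m → IsHk f m c := by
    intro m
    by_cases hm : 1 ≤ m
    · obtain ⟨c, hc⟩ := hf.hecke m hm
      exact ⟨c, fun _ => hc⟩
    · exact ⟨0, fun h => absurd h hm⟩
  choose c hc using hch
  have h5 : ∀ m : ℕ, 1 ≤ m → ∀ y : ℝ, 0 < y →
      an f m y = ((c m / m : ℝ) : ℂ) * an f 1 (m * y) := fun m hm y hy =>
    fo5 m (c m) hm (hc m hm) y hy
  by_cases him : ρ.im = 0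
  · refine ⟨1, Or.inl rfl, fun z hz => ?_⟩
    refine ParM.par_of_coeff f 1 fo1 ?_ z hz
    refine ParM.coeff_sym f t 1 ρ hρ ?_ (by norm_num) c fo2 fo4 h5
    rw [Complex.ofReal_one, one_mul]
    exact Complex.conj_eq_iff_im.2 him
  · by_cases hre : ρ.re = 0
    · refine ⟨-1, Or.inr rfl, fun z hz => ?_⟩
      refine ParM.par_of_coeff f (-1) fo1 ?_ z hz
      refine ParM.coeff_sym f t (-1) ρ hρ ?_ (by norm_num) c fo2 fo4 h5
      apply Complex.ext
      · simp [hre]
      · simp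
    · exfalso
      obtain ⟨-, -, ⟨C, hC⟩, q4⟩ := hQ2 f t ρ c hf hρ hc
      obtain ⟨-, -, k3, -, k5⟩ := hKBf t
      refine ParM.no_zero t c C (ParM.c_one f t hf _ (hc 1 le_rfl)) hC k3 k5 ?_
      intro y hy
      have h1 := (q4 y hy).1
      rw [hQ3 f t ρ hf hρ hre him y hy] at h1
      have h2 := h1.mul_left (2 * ρ.re)⁻¹
      have h3 : (2 * ρ.re) ≠ 0 := mul_ne_zero two_ne_zero hre
      simp only [mul_zero] at h2
      have h4 : (fun n : ℕ => (2 * ρ.re)⁻¹ * (2 * ρ.re * (c (n + 1) / √(n + 1) *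
          (√y * KB t (2 * Real.pi * (n + 1) * y))))) = fun n : ℕ => c (n + 1) / √(n + 1) *
          (√y * KB t (2 * Real.pi * (n + 1) * y)) := by
        funext n
        rw [← mul_assoc, inv_mul_cancel₀ h3, one_mul]
      rw [h4] at h2
      exact h2

end Pool.Agent.A54.Av
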