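import Pool.Agent.Lib.MP_a54f13_nt.Av.SpecC

/-!
# Package `Av`: the difference of the discriminants (`StmtPd`)
-/

set_option autoImplicit false

namespace Pool.Agent.A54.Av.PdM

/-- the remainder is small -/
theorem core (H ρ c1 c2 p1 p2 q1 q2 : ℤ) (hH : 1 ≤ H) (hρ : 1 ≤ ρ) (l1 : H ≤ c1) (l2 : H ≤ c2)
    (u2 : c2 < 2 * H) (hp2 : |p2| ≤ ρ * H) (pc : |p1 * c2 - p2 * c1| ≤ ρ * H)
    (qc : |q1 * c2 - q2 * c1| ≤ ρ * H) :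
    |c1 ^ 2 * ((4 * q2 * c2 - p2 ^ 2) - (4 * q1 * c1 - p1 ^ 2)) -
      (c2 - c1) * (c1 + c2) * (4 * q1 * c1 - p1 ^ 2)| ≤ 11 * ρ ^ 2 * H * c1 ^ 2 := by
  have hc1 : 0 < c1 := by linarith
  have hc2 : 0 < c2 := by linarith
  have hH0 : 0 < H := by linarith
  have hρ0 : 0 < ρ := by linarith
  have e : c1 ^ 2 * ((4 * q2 * c2 - p2 ^ 2) - (4 * q1 * c1 - p1 ^ 2)) -
      (c2 - c1) * (c1 + c2) * (4 * q1 * c1 - p1 ^ 2) =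
      -(4 * (q1 * c2 - q2 * c1) * (c1 * c2)) + (p1 * c2 - p2 * c1) * (2 * p2 * c1) +
        (p1 * c2 - p2 * c1) ^ 2 := by ring
  rw [e]
  have hA : |4 * (q1 * c2 - q2 * c1) * (c1 * c2)| ≤ 8 * ρ * H * c1 ^ 2 := by
    rw [abs_mul, abs_mul, abs_of_pos (mul_pos hc1 hc2), abs_of_pos (by norm_num : (0 : ℤ) < 4)]
    have h1 : 4 * |q1 * c2 - q2 * c1| * (c1 * c2) ≤ 4 * (ρ * H) * (c1 * c2) :=
      mul_le_mul_of_nonneg_right (by linarith) (by positivity)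
    have h2 : c1 * c2 ≤ c1 * (2 * c1) := mul_le_mul_of_nonneg_left (by linarith) hc1.le
    have h3 : 4 * (ρ * H) * (c1 * c2) ≤ 4 * (ρ * H) * (c1 * (2 * c1)) :=
      mul_le_mul_of_nonneg_left h2 (by positivity)
    have h4 : 4 * (ρ * H) * (c1 * (2 * c1)) = 8 * ρ * H * c1 ^ 2 := by ring
    linarith
  have hB : |(p1 * c2 - p2 * c1) * (2 * p2 * c1)| ≤ 2 * ρ ^ 2 * H * c1 ^ 2 := by
    rw [abs_mul, abs_mul, abs_mul, abs_of_pos hc1, abs_of_pos (by norm_num : (0 : ℤ) < 2)]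
    have h1 : 2 * |p2| * c1 ≤ 2 * (ρ * H) * c1 :=
      mul_le_mul_of_nonneg_right (by linarith) hc1.le
    have h2 : |p1 * c2 - p2 * c1| * (2 * |p2| * c1) ≤ (ρ * H) * (2 * (ρ * H) * c1) :=
      mul_le_mul pc h1 (by positivity) (by positivity)
    have h3 : (ρ * H) * (2 * (ρ * H) * c1) = 2 * ρ ^ 2 * H * c1 * H := by ring
    have h4 : 2 * ρ ^ 2 * H * c1 * H ≤ 2 * ρ ^ 2 * H * c1 * c1 :=
      mul_le_mul_of_nonneg_left l1 (by positivity)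
    have h5 : 2 * ρ ^ 2 * H * c1 * c1 = 2 * ρ ^ 2 * H * c1 ^ 2 := by ring
    linarith
  have hC : |(p1 * c2 - p2 * c1) ^ 2| ≤ ρ ^ 2 * H * c1 ^ 2 := by
    rw [abs_pow]
    have h1 : |p1 * c2 - p2 * c1| ^ 2 ≤ (ρ * H) ^ 2 := pow_le_pow_left₀ (abs_nonneg _) pc 2
    have h2 : (ρ * H) ^ 2 = ρ ^ 2 * H * H := by ring
    have h3 : H ≤ c1 ^ 2 := by nlinarith
    have h4 : ρ ^ 2 * H * H ≤ ρ ^ 2 * H * c1 ^ 2 :=
      mul_le_mul_of_nonneg_left h3 (by positivity)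
    linarith
  have hD : 8 * ρ * H * c1 ^ 2 ≤ 8 * ρ ^ 2 * H * c1 ^ 2 := by
    have h1 : 8 * ρ * H * c1 ^ 2 * 1 ≤ 8 * ρ * H * c1 ^ 2 * ρ :=
      mul_le_mul_of_nonneg_left hρ (by positivity)
    have h2 : 8 * ρ * H * c1 ^ 2 * ρ = 8 * ρ ^ 2 * H * c1 ^ 2 := by ring
    linarith
  have h1 := abs_add_le (-(4 * (q1 * c2 - q2 * c1) * (c1 * c2)) +
    (p1 * c2 - p2 * c1) * (2 * p2 * c1)) ((p1 * c2 - p2 * c1) ^ 2)
  have h2 := abs_add_le (-(4 * (q1 * c2 - q2 * c1) * (c1 * c2)))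
    ((p1 * c2 - p2 * c1) * (2 * p2 * c1))
  rw [abs_neg] at h2
  have h3 : 11 * ρ ^ 2 * H * c1 ^ 2 = 8 * ρ ^ 2 * H * c1 ^ 2 + 2 * ρ ^ 2 * H * c1 ^ 2 +
    ρ ^ 2 * H * c1 ^ 2 := by ring
  linarith

/-- the lower bound -/
theorem lower (H ρ c1 c2 p1 p2 q1 q2 : ℤ) (hH : 1 ≤ H) (hρ : 1 ≤ ρ) (l1 : H ≤ c1)
    (u1 : c1 < 2 * H) (l2 : H ≤ c2) (u2 : c2 < 2 * H) (hp2 : |p2| ≤ ρ * H)
    (pc : |p1 * c2 - p2 * c1| ≤ ρ * H) (qc : |q1 * c2 - q2 * c1| ≤ ρ * H)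
    (e1 : H ^ 2 ≤ ρ * (4 * q1 * c1 - p1 ^ 2)) (hh : 12 * ρ ^ 3 ≤ c2 - c1) :
    4 * q1 * c1 - p1 ^ 2 < 4 * q2 * c2 - p2 ^ 2 := by
  have hc := core H ρ c1 c2 p1 p2 q1 q2 hH hρ l1 l2 u2 hp2 pc qc
  have hc1 : 0 < c1 := by linarith
  have hc2 : 0 < c2 := by linarith
  have hH0 : 0 < H := by linarith
  have hρ0 : 0 < ρ := by linarith
  have hh0 : 0 < c2 - c1 := by
    have : 0 < 12 * ρ ^ 3 := by positivity
    linarith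
  have h1 := (abs_le.1 hc).1
  set D1 := 4 * q1 * c1 - p1 ^ 2 with hD1
  set D2 := 4 * q2 * c2 - p2 ^ 2 with hD2
  -- multiply by `ρ`
  have h2 : (c2 - c1) * (c1 + c2) * H ^ 2 ≤ (c2 - c1) * (c1 + c2) * (ρ * D1) :=
    mul_le_mul_of_nonneg_left e1 (by positivity)
  have h3 : c1 ^ 2 ≤ (c1 + c2) * H := by
    have h4 : c1 * c1 ≤ c1 * (2 * H) := mul_le_mul_of_nonneg_left u1.le hc1.le
    have h5 : (2 * c1) * H ≤ (c1 + c2) * H := mul_le_mul_of_nonneg_right (by linarith) hH0.le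
    nlinarith
  have h4 : 12 * ρ ^ 3 * (c1 ^ 2 * H) ≤ (c2 - c1) * ((c1 + c2) * H * H) :=
    mul_le_mul hh (mul_le_mul_of_nonneg_right h3 hH0.le) (by positivity) hh0.le
  have h5 : ρ * (c1 ^ 2 * (D2 - D1)) ≥ ρ * ((c2 - c1) * (c1 + c2) * D1) -
      ρ * (11 * ρ ^ 2 * H * c1 ^ 2) := by
    rw [← mul_sub]
    exact mul_le_mul_of_nonneg_left (by linarith) hρ0.le
  have h6 : 0 < ρ ^ 3 * (c1 ^ 2 * H) := by positivity
  have h7 : 0 < ρ * (c1 ^ 2 * (D2 - D1)) := by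
    have e1 : ρ * ((c2 - c1) * (c1 + c2) * D1) = (c2 - c1) * (c1 + c2) * (ρ * D1) := by ring
    have e2 : ρ * (11 * ρ ^ 2 * H * c1 ^ 2) = 11 * (ρ ^ 3 * (c1 ^ 2 * H)) := by ring
    have e3 : (c2 - c1) * ((c1 + c2) * H * H) = (c2 - c1) * (c1 + c2) * H ^ 2 := by ring
    have e4 : 12 * ρ ^ 3 * (c1 ^ 2 * H) = 12 * (ρ ^ 3 * (c1 ^ 2 * H)) := by ring
    linarith
  have h8 : 0 < c1 ^ 2 * (D2 - D1) := (mul_pos_iff_of_pos_left hρ0).1 h7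
  have h9 : 0 < D2 - D1 := (mul_pos_iff_of_pos_left (by positivity)).1 h8
  linarith

end Pool.Agent.A54.Av.PdM

namespace Pool.Agent.A54.Av

open PdM

theorem stmtPd : StmtPd := by
  intro H B ρ x hH hρ hx
  have hH' : (1 : ℤ) ≤ H := by exact_mod_cast hH
  have hρ' : (1 : ℤ) ≤ ρ := by exact_mod_cast hρ
  have hc := core H ρ x.c1 x.c2 x.p1 x.p2 x.q1 x.q2 hH' hρ' hx.l1 hx.l2 hx.u2 hx.p2 hx.pc hx.qc
  have hc1 : 0 < x.c1 := by have := hx.l1; linarith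
  have hc2 : 0 < x.c2 := by have := hx.l2; linarith
  have hH0 : (0 : ℤ) < H := by linarith
  have hρ0 : (0 : ℤ) < ρ := by linarith
  have hup := (abs_le.1 hc).2
  have hD1 : 0 < 4 * x.q1 * x.c1 - x.p1 ^ 2 := by
    have h1 := hx.e1
    have h2 : (0 : ℤ) < (H : ℤ) ^ 2 := by positivity
    exact (mul_pos_iff_of_pos_left hρ0).1 (lt_of_lt_of_le h2 h1)
  have hc1sq : 0 < x.c1 ^ 2 := by positivity
  refine ⟨?_, ?_, ?_, ?_⟩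
  · intro hh
    have hD1' : 4 * x.q1 * x.c1 - x.p1 ^ 2 ≤ 4 * ρ * H * x.c1 := by
      have h1 : x.q1 ≤ ρ * H := le_trans (le_abs_self _) hx.q1
      have h2 : x.q1 * x.c1 ≤ (ρ * H) * x.c1 := mul_le_mul_of_nonneg_right h1 hc1.le
      nlinarith [sq_nonneg x.p1]
    have h1 : (x.c2 - x.c1) * (x.c1 + x.c2) * (4 * x.q1 * x.c1 - x.p1 ^ 2) ≤
        (x.c2 - x.c1) * (x.c1 + x.c2) * (4 * ρ * H * x.c1) :=
      mul_le_mul_of_nonneg_left hD1' (by positivity)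
    have h2 : (x.c2 - x.c1) * (4 * ρ * H * x.c1) * (x.c1 + x.c2) ≤
        (x.c2 - x.c1) * (4 * ρ * H * x.c1) * (3 * x.c1) := by
      have := hx.u2
      have := hx.l1
      exact mul_le_mul_of_nonneg_left (by linarith) (by positivity)
    have h3 : 0 ≤ (x.c2 - x.c1) * (ρ * H * x.c1 ^ 2) := by positivity
    have h4 : x.c1 ^ 2 * ((4 * x.q2 * x.c2 - x.p2 ^ 2) - (4 * x.q1 * x.c1 - x.p1 ^ 2)) ≤
        x.c1 ^ 2 * (32 * ρ * H * (x.c2 - x.c1) + 11 * ρ ^ 2 * H) := by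
      have e1 : (x.c2 - x.c1) * (x.c1 + x.c2) * (4 * ρ * H * x.c1) =
        (x.c2 - x.c1) * (4 * ρ * H * x.c1) * (x.c1 + x.c2) := by ring
      have e2 : (x.c2 - x.c1) * (4 * ρ * H * x.c1) * (3 * x.c1) =
        12 * ((x.c2 - x.c1) * (ρ * H * x.c1 ^ 2)) := by ring
      have e3 : x.c1 ^ 2 * (32 * ρ * H * (x.c2 - x.c1) + 11 * ρ ^ 2 * H) =
        32 * ((x.c2 - x.c1) * (ρ * H * x.c1 ^ 2)) + 11 * ρ ^ 2 * H * x.c1 ^ 2 := by ring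
      linarith
    exact le_of_mul_le_mul_left h4 hc1sq
  · intro hh
    exact lower H ρ x.c1 x.c2 x.p1 x.p2 x.q1 x.q2 hH' hρ' hx.l1 hx.u1 hx.l2 hx.u2 hx.p2 hx.pc
      hx.qc hx.e1 hh
  · intro hh
    refine lower H ρ x.c2 x.c1 x.p2 x.p1 x.q2 x.q1 hH' hρ' hx.l2 hx.u2 hx.l1 hx.u1 hx.p1 ?_ ?_
      hx.e2 hh
    · rw [abs_sub_comm]
      exact hx.pc
    · rw [abs_sub_comm]
      exact hx.qc
  · intro hh
    have h1 : (x.c2 - x.c1) * (x.c1 + x.c2) * (4 * x.q1 * x.c1 - x.p1 ^ 2) ≤ 0 := by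
      have h2 : 0 ≤ (x.c1 + x.c2) * (4 * x.q1 * x.c1 - x.p1 ^ 2) := by positivity
      have h3 := mul_nonneg (sub_nonneg.2 (sub_nonpos.1 hh)) h2
      nlinarith
    have h4 : x.c1 ^ 2 * ((4 * x.q2 * x.c2 - x.p2 ^ 2) - (4 * x.q1 * x.c1 - x.p1 ^ 2)) ≤
        x.c1 ^ 2 * (11 * ρ ^ 2 * H) := by
      have e3 : x.c1 ^ 2 * (11 * (ρ : ℤ) ^ 2 * H) = 11 * ρ ^ 2 * H * x.c1 ^ 2 := by ring
      linarith
    exact le_of_mul_le_mul_left h4 hc1sq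

end Pool.Agent.A54.Av
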