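import Pool.Agent.Lib.MP_a54f13_nt.Av.GI

/-!
# Package `Av`, module `SI`: Bessel's inequality on the modular surface
-/

set_option autoImplicit false

namespace Pool.Agent.A54.Av.SIM

open MeasureTheory Filter Topology Set
open scoped ContDiff ComplexConjugate UpperHalfPlane MatrixGroups ENNReal InnerProductSpace
open Pool.Agent.A54.Half (H0 qq ff hh)

noncomputable section

lemma vol_fdo : volume ModularGroup.fdo < ⊤ := by
  have h1 := GIM.lint_fdo (fun _ => 1) measurable_const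
  simp only [lintegral_const, one_mul, Measure.restrict_apply_univ] at h1
  have hs3 : (0 : ℝ) < √3 / 2 := by positivity
  have h2 : IntegrableOn (fun y : ℝ => y ^ (-2 : ℝ)) (Ioi (√3 / 2)) :=
    integrableOn_Ioi_rpow_of_lt (by norm_num) hs3
  refine lt_of_le_of_lt h1 ?_
  have h3 : ∫⁻ y in Ioi (√3 / 2), ENNReal.ofReal ((y ^ 2)⁻¹) *
      volume (Ioc (-(1 / 2) : ℝ) (1 / 2)) = ∫⁻ y in Ioi (√3 / 2), ‖y ^ (-2 : ℝ)‖ₑ := by
    refine setLIntegral_congr_fun measurableSet_Ioi fun y hy => ?_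
    have hy0 : 0 < y := lt_trans hs3 hy
    have e1 : volume (Ioc (-(1 / 2) : ℝ) (1 / 2)) = 1 := by
      rw [Real.volume_Ioc]; norm_num
    have e2 : y ^ (-2 : ℝ) = (y ^ 2)⁻¹ := by
      rw [Real.rpow_neg hy0.le]
      norm_num
    simp only [e1, mul_one]
    rw [e2, Real.enorm_eq_ofReal (by positivity)]
  rw [h3]
  exact h2.2

/-- the measure -/
def ν : Measure ℍ := volume.restrict ModularGroup.fdo

instance : IsFiniteMeasure ν := ⟨by
  unfold ν
  rw [Measure.restrict_apply_univ]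
  exact vol_fdo⟩

lemma memLp_of {G : ℂ → ℂ} (hG : ContinuousOn G H0) {C : ℝ}
    (hC : ∀ τ ∈ H0, 1 / 2 ≤ τ.im → ‖G τ‖ ≤ C) : MemLp (fun z : ℍ => G z) 2 ν := by
  have hc : Continuous fun z : ℍ => G z :=
    hG.comp_continuous UpperHalfPlane.continuous_coe fun z => z.im_pos
  refine MemLp.of_bound hc.aestronglyMeasurable C ?_
  unfold ν
  rw [ae_restrict_iff' GIM.isOpen_fdo.measurableSet]
  refine Eventually.of_forall fun τ hτ => hC _ τ.im_pos ?_
  have h2 := ModularGroup.three_lt_four_mul_im_sq_of_mem_fdo hτ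
  change 1 / 2 ≤ τ.im
  have := τ.im_pos
  nlinarith

lemma inner_toLp {f g : ℍ → ℂ} (hf : MemLp f 2 ν) (hg : MemLp g 2 ν) :
    ⟪hf.toLp f, hg.toLp g⟫_ℂ = ∫ z, g z * conj (f z) ∂ν := by
  rw [L2.inner_def]
  refine integral_congr_ae ?_
  filter_upwards [hf.coeFn_toLp, hg.coeFn_toLp] with z h1 h2
  rw [h1, h2]
  rfl

lemma mu_pos (j : ℕ) (t : ℝ) : 0 < mu j t := by
  unfold mu
  positivity

end

end Pool.Agent.A54.Av.SIM

namespace Pool.Agent.A54.Av

open MeasureTheory Filter Topology Set SIM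
open scoped ContDiff ComplexConjugate UpperHalfPlane MatrixGroups ENNReal InnerProductSpace
open Pool.Agent.A54.Half (H0 qq ff hh)

theorem stmtSI (hNk : StmtNk) (hPk : StmtPk1) (hPs : StmtPs) (hDer : StmtDer) (hWf : StmtWf) :
    StmtSI := by
  intro ι _ F t ρ hF g hg k
  classical
  obtain ⟨-, -, -, hPc, -, -, -, CP, hCP⟩ := hPs g hg k
  have hP : MemLp (fun z : ℍ => Pt k g z) 2 ν :=
    memLp_of hPc.continuousOn fun τ h1 h2 => (hCP τ h1 h2).2
  have hu : ∀ i, MemLp (fun z : ℍ => fk (F i) k z) 2 ν := fun i => by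
    obtain ⟨C, hC⟩ := hDer (F i) (t i) (hF.form i) k
    exact memLp_of (hWf (F i) (t i) (hF.form i) k).2.1.continuousOn fun τ h1 _ => hC τ h1
  set A : ι → ℝ := fun i => (∏ j ∈ Finset.range k, mu j (t i)) * (Real.pi / 3) with hA
  have hprod : ∀ i, 0 < ∏ j ∈ Finset.range k, mu j (t i) := fun i =>
    Finset.prod_pos fun j _ => mu_pos j (t i)
  have hApos : ∀ i, 0 < A i := fun i => mul_pos (hprod i) (by positivity)
  have hdiag : ∀ i, ⟪(hu i).toLp _, (hu i).toLp _⟫_ℂ = ((A i : ℝ) : ℂ) := fun i => by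
    rw [inner_toLp]
    have h1 := hNk (F i) (F i) (t i) (t i) (hF.form i) (hF.form i) k
    have h2 : (∫ z in ModularGroup.fdo, F i z * F i z) = Real.pi / 3 := by
      rw [← (hF.form i).normalised]
      congr 1
      funext z
      ring
    rw [h2] at h1
    exact h1
  have hoff : ∀ i j, i ≠ j → ⟪(hu i).toLp _, (hu j).toLp _⟫_ℂ = 0 := fun i j hij => by
    rw [inner_toLp]
    have h1 := hNk (F j) (F i) (t j) (t i) (hF.form j) (hF.form i) k
    rw [hF.orth j i hij.symm, mul_zero, Complex.ofReal_zero] at h1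
    exact h1
  set v : ι → Lp ℂ 2 ν := fun i => (((√(A i))⁻¹ : ℝ) : ℂ) • (hu i).toLp _ with hv
  have hvo : Orthonormal ℂ v := by
    rw [orthonormal_iff_ite]
    intro i j
    rw [hv]
    simp only [inner_smul_left, inner_smul_right, Complex.conj_ofReal]
    by_cases hij : i = j
    · subst hij
      rw [if_pos rfl, hdiag i]
      rw [← Complex.ofReal_mul, ← Complex.ofReal_mul]
      have h1 : √(A i) * √(A i) = A i := Real.mul_self_sqrt (hApos i).le
      have h2 : 0 < √(A i) := Real.sqrt_pos.2 (hApos i)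
      have h3 : (√(A i))⁻¹ * ((√(A i))⁻¹ * A i) = 1 := by
        nth_rewrite 3 [← h1]
        field_simp
      rw [h3]
      norm_num
    · rw [if_neg hij, hoff i j hij, mul_zero, mul_zero]
  have hB := hvo.sum_inner_products_le (s := Finset.univ) (hP.toLp _)
  have hnorm : ‖hP.toLp _‖ ^ 2 = ∫ τ in ModularGroup.fdo, ‖Pt k g τ‖ ^ 2 := by
    have h1 := inner_self_eq_norm_sq_to_K (𝕜 := ℂ) (hP.toLp (fun z : ℍ => Pt k g z))
    rw [inner_toLp] at h1
    have h2 : (∫ z : ℍ, Pt k g z * conj (Pt k g z) ∂ν) =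
        ((∫ z in ModularGroup.fdo, ‖Pt k g z‖ ^ 2 : ℝ) : ℂ) := by
      have e := integral_ofReal (𝕜 := ℂ) (f := fun z : ℍ => ‖Pt k g z‖ ^ 2) (μ := ν)
      refine Eq.trans ?_ e
      congr 1
      funext z
      rw [Complex.mul_conj, Complex.normSq_eq_norm_sq]
      rfl
    rw [h2] at h1
    apply Complex.ofReal_injective
    rw [h1]
    simp
  rw [hnorm] at hB
  refine le_trans (le_of_eq ?_) hB
  refine Finset.sum_congr rfl fun i _ => ?_
  obtain ⟨ε, hε⟩ := hF.par i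
  have h1 := hPk (F i) (t i) ε (ρ i) (hF.form i) hε (hF.rho i) g hg k
  have h2 : ⟪v i, hP.toLp _⟫_ℂ = (((√(A i))⁻¹ : ℝ) : ℂ) *
      ((((∏ j ∈ Finset.range k, mu j (t i)) / (k.factorial : ℝ) * (1 / 4 + t i ^ 2) *
      ∫ z, g z * ext (F i) z ^ 2 : ℝ) : ℂ) * (4 / ρ i)) := by
    rw [hv]
    simp only [inner_smul_left, Complex.conj_ofReal]
    rw [inner_toLp]
    congr 1
  rw [h2, norm_mul, norm_mul, norm_div, Complex.norm_real, Complex.norm_real, mul_pow, mul_pow,
    Real.norm_eq_abs, Real.norm_eq_abs, sq_abs, sq_abs, inv_pow, Real.sq_sqrt (hApos i).le]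
  have hρ : 0 < ‖ρ i‖ := norm_pos_iff.2 (hF.rho i).1
  have hk : (0 : ℝ) < (k.factorial : ℝ) := by exact_mod_cast k.factorial_pos
  have hp := hprod i
  have h4 : ‖(4 : ℂ)‖ = 4 := by norm_num
  rw [h4, hA]
  unfold Pk
  simp only
  field_simp
  ring

end Pool.Agent.A54.Av
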