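import Pool.Agent.Lib.MP_a54f13_nt.Av.SpecA
import Pool.Agent.Lib.MP_a54f13_nt.Av.SI

/-!
# Package `Av`: pairing of `Ph 0 g` with a form (`StmtPf`)
-/

set_option autoImplicit false

namespace Pool.Agent.A54.Av.PfM

open MeasureTheory Filter Topology Set
open scoped ContDiff ComplexConjugate UpperHalfPlane MatrixGroups ENNReal
open Pool.Agent.A54.Half (H0 qq ff hh)

noncomputable section

instance : Countable Mat := by
  unfold Mat Matrix
  infer_instance

theorem cont {f : ℍ → ℝ} {t : ℝ} (hf : IsHeckeMaass f t) : Continuous f := by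
  have h3 : Continuous (fun z : ℍ => ext f (z : ℂ)) :=
    hf.smooth.continuousOn.comp_continuous UpperHalfPlane.continuous_coe (fun z => z.im_pos)
  have h4 : (fun z : ℍ => ext f (z : ℂ)) = f := funext (Half.ext_coe f)
  rwa [h4] at h3

theorem meas_kk (γ : Mat) : Measurable (fun p : ℍ × ℂ => kk γ (p.1 : ℂ) p.2 p.2) := by
  have h1 : Measurable (fun p : ℍ × ℂ => (p.1 : ℂ)) :=
    UpperHalfPlane.continuous_coe.measurable.comp measurable_fst
  have h2 : Measurable (fun p : ℍ × ℂ => VV γ p.2 p.2) := by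
    unfold VV
    fun_prop
  unfold kk ee
  fun_prop

theorem meas_Th : Measurable (fun p : ℍ × ℂ => Th (p.1 : ℂ) p.2 p.2) := by
  unfold Th
  exact Measurable.tsum meas_kk

theorem mul_exp_le {c y : ℝ} (hc : 0 < c) : y * Real.exp (-(c * y)) ≤ c⁻¹ := by
  have h1 : c * y ≤ Real.exp (c * y) := by
    have := Real.add_one_le_exp (c * y)
    linarith
  rw [Real.exp_neg]
  have h2 := Real.exp_pos (c * y)
  rw [← div_eq_mul_inv, div_le_iff₀ h2, inv_mul_eq_div, le_div_iff₀ hc]
  linarith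

theorem im_ge {τ : ℍ} (hτ : τ ∈ ModularGroup.fdo) : 1 / 2 ≤ τ.im := by
  have h2 := ModularGroup.three_lt_four_mul_im_sq_of_mem_fdo hτ
  have := τ.im_pos
  nlinarith

end

end Pool.Agent.A54.Av.PfM

namespace Pool.Agent.A54.Av

open Pool.Agent.A54.Av.PfM
open MeasureTheory Filter Topology Set
open scoped ContDiff ComplexConjugate UpperHalfPlane MatrixGroups ENNReal
open Pool.Agent.A54.Half (H0 qq ff hh)

/-- **Pf** -/
theorem stmtPf (hPa : StmtPa) (hPw : StmtPw) (hThS : StmtThS) (hTri : StmtTri)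
    (hDec : StmtDec) : StmtPf := by
  intro f t ε ρ hf hε hρ g hg
  obtain ⟨Cf, cf, hcf, hdec, -⟩ := hDec f t hf
  obtain ⟨C, c, hC, hc, hb⟩ := hThS.2.1 (tsupport g) hg.cpt hg.sub (1 / 2) (by norm_num)
  have hfc := cont hf
  -- the integrand on the product
  have hmeas : Measurable (fun p : ℍ × ℂ => (g p.2 : ℂ) * Th (p.1 : ℂ) p.2 p.2 * (f p.1 : ℂ)) := by
    have h1 : Measurable (fun p : ℍ × ℂ => (g p.2 : ℂ)) :=
      Complex.measurable_ofReal.comp (hg.cont.measurable.comp measurable_snd)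
    have h2 : Measurable (fun p : ℍ × ℂ => (f p.1 : ℂ)) :=
      Complex.measurable_ofReal.comp (hfc.measurable.comp measurable_fst)
    exact (h1.mul meas_Th).mul h2
  have hbound : ∀ τ ∈ ModularGroup.fdo, ∀ z : ℂ,
      ‖(g z : ℂ) * Th (τ : ℂ) z z * (f τ : ℂ)‖ ≤ (C * |Cf| * cf⁻¹) * |g z| := by
    intro τ hτ z
    have him := im_ge hτ
    by_cases hz : z ∈ tsupport g
    · obtain ⟨hs, hle, -⟩ := hb (τ : ℂ) him z hz z hz
      have h1 : ‖Th (τ : ℂ) z z‖ ≤ C * τ.im := (norm_tsum_le_tsum_norm hs).trans hle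
      have h2 : |f τ| ≤ |Cf| * Real.exp (-(cf * τ.im)) :=
        (hdec τ him).trans (mul_le_mul_of_nonneg_right (le_abs_self _) (Real.exp_pos _).le)
      have h3 := mul_exp_le (y := τ.im) hcf
      rw [norm_mul, norm_mul, Complex.norm_real, Complex.norm_real, Real.norm_eq_abs,
        Real.norm_eq_abs]
      have hτ0 := τ.im_pos
      calc |g z| * ‖Th (τ : ℂ) z z‖ * |f τ|
          ≤ |g z| * (C * τ.im) * (|Cf| * Real.exp (-(cf * τ.im))) := by
            apply mul_le_mul (mul_le_mul_of_nonneg_left h1 (abs_nonneg _)) h2 (abs_nonneg _)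
            positivity
        _ = |g z| * (C * |Cf|) * (τ.im * Real.exp (-(cf * τ.im))) := by ring
        _ ≤ |g z| * (C * |Cf|) * cf⁻¹ := mul_le_mul_of_nonneg_left h3 (by positivity)
        _ = (C * |Cf| * cf⁻¹) * |g z| := by ring
    · rw [image_eq_zero_of_notMem_tsupport hz]
      simp
  have hgi : Integrable (fun z => |g z|) := (hg.cont.integrable_of_hasCompactSupport hg.cpt).abs
  have hfin : IsFiniteMeasure ((volume : Measure ℍ).restrict ModularGroup.fdo) :=
    ⟨by rw [Measure.restrict_apply_univ]; exact SIM.vol_fdo⟩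
  have hae : ∀ᵐ p : ℍ × ℂ ∂(((volume : Measure ℍ).restrict ModularGroup.fdo).prod volume),
      p.1 ∈ ModularGroup.fdo :=
    Measure.quasiMeasurePreserving_fst.ae (ae_restrict_mem GIM.isOpen_fdo.measurableSet)
  have hint : Integrable (fun p : ℍ × ℂ => (g p.2 : ℂ) * Th (p.1 : ℂ) p.2 p.2 * (f p.1 : ℂ))
      (((volume : Measure ℍ).restrict ModularGroup.fdo).prod volume) := by
    refine Integrable.mono' ((hgi.const_mul (C * |Cf| * cf⁻¹)).comp_snd _)
      hmeas.aestronglyMeasurable ?_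
    filter_upwards [hae] with p hp
    exact hbound p.1 hp p.2
  have e1 : ∀ τ : ℍ, Ph 0 g τ * (f τ : ℂ) =
      ∫ z : ℂ, (g z : ℂ) * Th (τ : ℂ) z z * (f τ : ℂ) := by
    intro τ
    rw [(hPw g hg 0).2.2 τ τ.im_pos, integral_mul_const]
  calc ∫ τ in ModularGroup.fdo, Ph 0 g τ * (f τ : ℂ)
      = ∫ τ in ModularGroup.fdo, ∫ z : ℂ, (g z : ℂ) * Th (τ : ℂ) z z * (f τ : ℂ) := by
        simp_rw [e1]
    _ = ∫ z : ℂ, ∫ τ in ModularGroup.fdo, (g z : ℂ) * Th (τ : ℂ) z z * (f τ : ℂ) :=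
        integral_integral_swap hint
    _ = ∫ z : ℂ, 4 / ρ * ((g z * ext f z ^ 2 : ℝ) : ℂ) := by
        congr 1
        funext z
        by_cases hz : z ∈ tsupport g
        · have hz0 : 0 < z.im := hg.sub hz
          have h1 := hPa f t ε ρ hf hε hρ ⟨z, hz0⟩ ⟨z, hz0⟩
          have h2 : ext f z = f ⟨z, hz0⟩ := Half.ext_coe f ⟨z, hz0⟩
          have h3 : ∀ τ : ℍ, (g z : ℂ) * Th (τ : ℂ) z z * (f τ : ℂ) =
              (g z : ℂ) * (Th z z (τ : ℂ) * (f τ : ℂ)) := by
            intro τ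
            rw [hTri (τ : ℂ) z z τ.im_pos hz0 hz0, mul_assoc]
          simp_rw [h3]
          rw [integral_const_mul]
          have h4 : ∫ τ in ModularGroup.fdo, Th z z (τ : ℂ) * (f τ : ℂ) =
              4 / ρ * ((f ⟨z, hz0⟩ * f ⟨z, hz0⟩ : ℝ) : ℂ) := h1
          rw [h4, h2]
          push_cast
          ring
        · rw [image_eq_zero_of_notMem_tsupport hz]
          simp
    _ = 4 / ρ * ((∫ z, g z * ext f z ^ 2 : ℝ) : ℂ) := by
        rw [integral_const_mul, integral_complex_ofReal]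

end Pool.Agent.A54.Av
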