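import Pool.Agent.Lib.MP_a54f13_nt.Av.SpecA
import Pool.Agent.Lib.MP_a54f13_nt.Av.GI

/-!
# Package `Av`, module `Pk1`: pairing of `Pt k g` with `f_k`
-/

set_option autoImplicit false

namespace Pool.Agent.A54.Av.Pk1M

open MeasureTheory Filter Topology Set
open scoped ContDiff ComplexConjugate UpperHalfPlane MatrixGroups ENNReal
open Pool.Agent.A54.Half (H0 qq ff hh)

noncomputable section

lemma vol_lt : (volume : Measure ℍ) ModularGroup.fdo < (⊤ : ℝ≥0∞) := by
  have h1 := GIM.lint_fdo (fun _ => 1) measurable_const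
  rw [setLIntegral_one] at h1
  refine h1.trans_lt ?_
  have h2 : ∫⁻ x in Ioc (-(1 / 2) : ℝ) (1 / 2), (1 : ℝ≥0∞) = 1 := by
    rw [setLIntegral_one, Real.volume_Ioc]
    norm_num
  have h3 : IntegrableOn (fun y : ℝ => (y ^ 2)⁻¹) (Ioi (√3 / 2)) := by
    have h4 := integrableOn_Ioi_rpow_of_lt (a := -2) (by norm_num)
      (c := √3 / 2) (by positivity)
    refine h4.congr_fun (fun y hy => ?_) measurableSet_Ioi
    have hy0 : 0 < y := lt_trans (by positivity) hy
    have h6 : y ^ (-2 : ℝ) = (y ^ 2)⁻¹ := by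
      rw [Real.rpow_neg hy0.le]
      norm_cast
    exact h6
  have h5 := h3.lintegral_lt_top
  rw [h2]
  simp_rw [mul_one]
  exact h5

lemma intOn {F : ℂ → ℂ} (hF : ContinuousOn F H0) {C : ℝ}
    (hC : ∀ τ ∈ H0, 1 / 2 ≤ τ.im → ‖F τ‖ ≤ C) :
    IntegrableOn (fun z : ℍ => F z) ModularGroup.fdo := by
  have hc : Continuous fun z : ℍ => F z :=
    hF.comp_continuous UpperHalfPlane.continuous_coe fun z => z.im_pos
  refine Measure.integrableOn_of_bounded (M := C) vol_lt.ne hc.aestronglyMeasurable ?_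
  rw [ae_restrict_iff' GIM.isOpen_fdo.measurableSet]
  refine Eventually.of_forall fun τ hτ => hC _ τ.im_pos ?_
  have h2 := ModularGroup.three_lt_four_mul_im_sq_of_mem_fdo hτ
  change 1 / 2 ≤ τ.im
  have := τ.im_pos
  nlinarith

lemma step (hIB2 : StmtIB2) {k : ℕ} {G H L R : ℂ → ℂ} (hG : Wt (k + 1) G) (hH : Wt k H)
    (hL : ∀ τ ∈ H0, LL (k + 1) G τ = L τ) (hR : ∀ τ ∈ H0, RR k H τ = R τ)
    (hLc : ContinuousOn L H0) (hRc : ContinuousOn R H0) {CL CR : ℝ}
    (hLb : ∀ τ ∈ H0, 1 / 2 ≤ τ.im → ‖L τ‖ ≤ CL) (hRb : ∀ τ ∈ H0, 1 / 2 ≤ τ.im → ‖R τ‖ ≤ CR) :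
    ∫ z in ModularGroup.fdo, conj (L z) * H z = -∫ z in ModularGroup.fdo, conj (G z) * R z := by
  have h1 := hIB2 k G H hG hH ⟨max CL CR, fun τ hτ hi => by
    rw [hL τ hτ, hR τ hτ]
    exact ⟨(hRb τ hτ hi).trans (le_max_right _ _), (hLb τ hτ hi).trans (le_max_left _ _)⟩⟩
  obtain ⟨CG, hCG⟩ := hG.bdd
  obtain ⟨CH, hCH⟩ := hH.bdd
  have i1 : IntegrableOn (fun z : ℍ => conj (L z) * H z) ModularGroup.fdo := by
    refine intOn (F := fun z => conj (L z) * H z) (C := CL * CH)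
      ((Complex.continuous_conj.comp_continuousOn hLc).mul hH.smooth.continuousOn) ?_
    intro τ hτ hi
    rw [norm_mul, RCLike.norm_conj]
    exact mul_le_mul (hLb τ hτ hi) (hCH τ hτ hi) (norm_nonneg _)
      ((norm_nonneg _).trans (hLb τ hτ hi))
  have i2 : IntegrableOn (fun z : ℍ => conj (G z) * R z) ModularGroup.fdo := by
    refine intOn (F := fun z => conj (G z) * R z) (C := CG * CR)
      ((Complex.continuous_conj.comp_continuousOn hG.smooth.continuousOn).mul hRc) ?_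
    intro τ hτ hi
    rw [norm_mul, RCLike.norm_conj]
    exact mul_le_mul (hCG τ hτ hi) (hRb τ hτ hi) (norm_nonneg _)
      ((norm_nonneg _).trans (hCG τ hτ hi))
  have e1 : (fun z : ℍ => conj (LL (k + 1) G z) * H z + conj (G z) * RR k H z) =
      fun z : ℍ => conj (L z) * H z + conj (G z) * R z := by
    funext z
    rw [hL z z.im_pos, hR z z.im_pos]
  rw [e1, integral_add i1 i2] at h1
  exact eq_neg_of_add_eq_zero_left h1

end

end Pool.Agent.A54.Av.Pk1M

namespace Pool.Agent.A54.Av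

open MeasureTheory Filter Topology Set
open scoped ContDiff ComplexConjugate UpperHalfPlane MatrixGroups ENNReal
open Pool.Agent.A54.Half (H0 qq ff hh)

theorem stmtPk1 (hPf : StmtPf) (hPs : StmtPs) (hPw : StmtPw) (hIB2 : StmtIB2) (hWf : StmtWf)
    (hDer : StmtDer) : StmtPk1 := by
  intro f t ε ρ hf hε hρ g hg k
  -- continuity and bounds
  have fc : ∀ k, ContinuousOn (fk f k) H0 := fun k => (hWf f t hf k).2.1.continuousOn
  have pc : ∀ k, ContinuousOn (Pt k g) H0 := fun k => (hPs g hg k).2.2.2.1.continuousOn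
  have hc : ∀ k, ContinuousOn (Ph k g) H0 := fun k => (hPs g hg k).2.2.1.continuousOn
  have hA : ∀ k, ((mu k t : ℝ) : ℂ) * ∫ τ in ModularGroup.fdo, Pt k g τ * conj (fk f k τ) =
      ((k : ℂ) + 1) * ∫ τ in ModularGroup.fdo, Pt (k + 1) g τ * conj (fk f (k + 1) τ) := by
    intro k
    obtain ⟨Cf, hCf⟩ := hDer f t hf k
    obtain ⟨Cp, hCp⟩ := (hPs g hg (k + 1)).2.2.2.2.2.2.2
    have h1 := Pk1M.step hIB2 (k := k) (G := fk f (k + 1)) (H := Pt k g)
      (L := fun z => -((mu k t : ℝ) : ℂ) * fk f k z)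
      (R := fun z => ((k : ℂ) + 1) * Pt (k + 1) g z)
      (CL := |mu k t| * Cf) (CR := ‖(k : ℂ) + 1‖ * Cp)
      (hWf f t hf (k + 1)).1 (hPw g hg k).2.1 (hWf f t hf k).2.2 (hPs g hg k).2.2.2.2.2.1
      (continuousOn_const.mul (fc k)) (continuousOn_const.mul (pc (k + 1)))
      (fun τ hτ _ => by
        rw [norm_mul, norm_neg, Complex.norm_real, Real.norm_eq_abs]
        exact mul_le_mul_of_nonneg_left (hCf τ hτ) (abs_nonneg _))
      (fun τ hτ hi => by
        rw [norm_mul]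
        exact mul_le_mul_of_nonneg_left (hCp τ hτ hi).2 (norm_nonneg _))
    have e1 : (fun z : ℍ => conj (-((mu k t : ℝ) : ℂ) * fk f k z) * Pt k g z) =
        fun z : ℍ => (-((mu k t : ℝ) : ℂ)) * (Pt k g z * conj (fk f k z)) := by
      funext z
      rw [map_mul, map_neg, Complex.conj_ofReal]
      ring
    have e2 : (fun z : ℍ => conj (fk f (k + 1) z) * (((k : ℂ) + 1) * Pt (k + 1) g z)) =
        fun z : ℍ => ((k : ℂ) + 1) * (Pt (k + 1) g z * conj (fk f (k + 1) z)) := by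
      funext z
      ring
    rw [e1, e2, integral_const_mul, integral_const_mul, neg_mul, neg_inj] at h1
    exact h1
  have hI0 : ∫ τ in ModularGroup.fdo, Pt 0 g τ * conj (fk f 0 τ) =
      ∫ τ in ModularGroup.fdo, Ph 1 g τ * conj (fk f 1 τ) := by
    obtain ⟨Cf, hCf⟩ := hDer f t hf 1
    obtain ⟨Cp, hCp⟩ := (hPs g hg 0).2.2.2.2.2.2.2
    have h1 := Pk1M.step hIB2 (k := 0) (G := Ph 1 g) (H := fk f 0)
      (L := fun z => -Pt 0 g z) (R := fk f 1) (CL := Cp) (CR := Cf)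
      (hPw g hg 1).1 (hWf f t hf 0).1 (hPs g hg 0).2.2.2.2.2.2.1 (fun τ _ => rfl)
      (pc 0).neg (fc 1)
      (fun τ hτ hi => by
        rw [norm_neg]
        exact (hCp τ hτ hi).2)
      (fun τ hτ _ => hCf τ hτ)
    have e1 : (fun z : ℍ => conj (-Pt 0 g z) * fk f 0 z) =
        fun z : ℍ => -conj (Pt 0 g z * conj (fk f 0 z)) := by
      funext z
      rw [map_mul, map_neg, Complex.conj_conj]
      ring
    have e2 : (fun z : ℍ => conj (Ph 1 g z) * fk f 1 z) =
        fun z : ℍ => conj (Ph 1 g z * conj (fk f 1 z)) := by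
      funext z
      rw [map_mul, Complex.conj_conj]
    rw [e1, e2, integral_neg, neg_inj, integral_conj, integral_conj] at h1
    exact star_injective h1
  have hI1 : ∫ τ in ModularGroup.fdo, Ph 1 g τ * conj (fk f 1 τ) =
      ((mu 0 t : ℝ) : ℂ) * ∫ τ in ModularGroup.fdo, Ph 0 g τ * (f τ : ℂ) := by
    obtain ⟨Cf, hCf⟩ := hDer f t hf 0
    obtain ⟨Cp, hCp⟩ := (hPs g hg 1).2.2.2.2.2.2.2
    have h1 := Pk1M.step hIB2 (k := 0) (G := fk f 1) (H := Ph 0 g)
      (L := fun z => -((mu 0 t : ℝ) : ℂ) * fk f 0 z)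
      (R := fun z => Ph 1 g z)
      (CL := |mu 0 t| * Cf) (CR := Cp)
      (hWf f t hf 1).1 (hPw g hg 0).1 (hWf f t hf 0).2.2
      (fun τ hτ => by
        have := (hPs g hg 0).2.2.2.2.1 τ hτ
        rw [Nat.cast_zero, zero_add, one_mul] at this
        exact this)
      (continuousOn_const.mul (fc 0)) (hc 1)
      (fun τ hτ _ => by
        rw [norm_mul, norm_neg, Complex.norm_real, Real.norm_eq_abs]
        exact mul_le_mul_of_nonneg_left (hCf τ hτ) (abs_nonneg _))
      (fun τ hτ hi => (hCp τ hτ hi).1)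
    have e1 : (fun z : ℍ => conj (-((mu 0 t : ℝ) : ℂ) * fk f 0 z) * Ph 0 g z) =
        fun z : ℍ => (-((mu 0 t : ℝ) : ℂ)) * (Ph 0 g z * (f z : ℂ)) := by
      funext z
      have h2 : fk f 0 (z : ℂ) = (f z : ℂ) := by
        change ((ext f (z : ℂ) : ℝ) : ℂ) = (f z : ℂ)
        rw [Half.ext_coe]
      rw [map_mul, map_neg, Complex.conj_ofReal, h2, Complex.conj_ofReal]
      ring
    have e2 : (fun z : ℍ => conj (fk f 1 z) * Ph 1 g z) =
        fun z : ℍ => Ph 1 g z * conj (fk f 1 z) := by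
      funext z
      ring
    rw [e1, e2, integral_const_mul, neg_mul, neg_inj] at h1
    exact h1.symm
  have hf0 := hPf f t ε ρ hf hε hρ g hg
  induction k with
  | zero =>
    rw [hI0, hI1, hf0, Finset.prod_range_zero, Nat.factorial_zero]
    have : mu 0 t = 1 / 4 + t ^ 2 := by
      unfold mu
      norm_num
    rw [this]
    push_cast
    ring
  | succ k ih =>
    have h1 := hA k
    rw [ih] at h1
    have hk : ((k : ℂ) + 1) ≠ 0 := by
      exact_mod_cast Nat.succ_ne_zero k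
    have hfac : ((k.factorial : ℕ) : ℂ) ≠ 0 := by
      exact_mod_cast Nat.factorial_ne_zero k
    refine mul_left_cancel₀ hk ?_
    rw [← h1, Finset.prod_range_succ, Nat.factorial_succ]
    push_cast
    field_simp

end Pool.Agent.A54.Av
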