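import Pool.Agent.Lib.MP_a54f13_nt.Av.SpecA

/-!
# Module Pkl of the package `Av`
-/

set_option autoImplicit false

namespace Pool.Agent.A54.Av.PklM

open Filter Topology Set

noncomputable section

lemma sinh_prod (t : ℝ) : Tendsto (fun n : ℕ => Real.pi * t *
    ∏ j ∈ Finset.range n, (1 + t ^ 2 / ((j : ℝ) + 1) ^ 2)) atTop (𝓝 (Real.sinh (Real.pi * t))) := by
  have h := (Complex.continuous_im.tendsto _).comp (Complex.tendsto_euler_sin_prod (t * Complex.I))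
  have e1 : (Complex.sin ((Real.pi : ℂ) * (t * Complex.I))).im = Real.sinh (Real.pi * t) := by
    rw [← mul_assoc, Complex.sin_mul_I, ← Complex.ofReal_mul, ← Complex.ofReal_sinh,
      Complex.mul_I_im, Complex.ofReal_re]
  rw [e1] at h
  refine h.congr fun n => ?_
  have e2 : (Real.pi : ℂ) * (t * Complex.I) * ∏ j ∈ Finset.range n,
      ((1 : ℂ) - (t * Complex.I) ^ 2 / ((j : ℂ) + 1) ^ 2) =
      ((Real.pi * t * ∏ j ∈ Finset.range n, (1 + t ^ 2 / ((j : ℝ) + 1) ^ 2) : ℝ) : ℂ) *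
        Complex.I := by
    push_cast
    have : ∀ j : ℕ, (1 : ℂ) - (t * Complex.I) ^ 2 / ((j : ℂ) + 1) ^ 2 =
        1 + (t : ℂ) ^ 2 / ((j : ℂ) + 1) ^ 2 := by
      intro j
      rw [mul_pow, Complex.I_sq]
      ring
    simp only [this]
    ring
  rw [Function.comp_apply, e2, Complex.mul_I_im, Complex.ofReal_re]

/-- the product -/
def Q (t : ℝ) (n : ℕ) : ℝ := ∏ j ∈ Finset.range n, (1 + t ^ 2 / ((j : ℝ) + 1 / 2) ^ 2)

lemma prod_two (t : ℝ) (n : ℕ) : ∏ j ∈ Finset.range (2 * n), (1 + (2 * t) ^ 2 / ((j : ℝ) + 1) ^ 2) =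
    Q t n * ∏ j ∈ Finset.range n, (1 + t ^ 2 / ((j : ℝ) + 1) ^ 2) := by
  unfold Q
  induction n with
  | zero => simp
  | succ n ih =>
    rw [Nat.mul_succ, Finset.prod_range_succ, Finset.prod_range_succ, ih, Finset.prod_range_succ,
      Finset.prod_range_succ]
    have h1 : (2 * t) ^ 2 / (((2 * n : ℕ) : ℝ) + 1) ^ 2 = t ^ 2 / ((n : ℝ) + 1 / 2) ^ 2 := by
      push_cast
      field_simp
    have h2 : (2 * t) ^ 2 / (((2 * n + 1 : ℕ) : ℝ) + 1) ^ 2 = t ^ 2 / ((n : ℝ) + 1) ^ 2 := by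
      push_cast
      field_simp
      ring
    rw [h1, h2]
    ring

lemma Q_tendsto (t : ℝ) (ht : 0 < t) : Tendsto (Q t) atTop (𝓝 (Real.cosh (Real.pi * t))) := by
  have h1 := sinh_prod t
  have h2 := (sinh_prod (2 * t)).comp (tendsto_id.const_mul_atTop' (r := 2) two_pos)
  have hs : 0 < Real.sinh (Real.pi * t) := Real.sinh_pos_iff.mpr (by positivity)
  have h3 := h2.div (h1.const_mul 2) (by positivity)
  have e : Real.sinh (Real.pi * (2 * t)) / (2 * Real.sinh (Real.pi * t)) =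
      Real.cosh (Real.pi * t) := by
    have : Real.pi * (2 * t) = 2 * (Real.pi * t) := by ring
    rw [this, Real.sinh_two_mul]
    field_simp
  rw [e] at h3
  refine h3.congr fun n => ?_
  simp only [Function.comp_apply, id, Pi.div_apply]
  rw [prod_two]
  have hp : 0 < ∏ j ∈ Finset.range n, (1 + t ^ 2 / ((j : ℝ) + 1) ^ 2) :=
    Finset.prod_pos fun j _ => by positivity
  field_simp

lemma Q_pos (t : ℝ) (n : ℕ) : 0 < Q t n := Finset.prod_pos fun j _ => by positivity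

lemma Q_le (t : ℝ) (k : ℕ) (hk : 1 ≤ k) (m : ℕ) :
    Q t (k + m) ≤ Q t k * Real.exp (t ^ 2 * (1 / k - 1 / (k + m))) := by
  have hk0 : (0 : ℝ) < k := by exact_mod_cast hk
  induction m with
  | zero => simp
  | succ m ih =>
    have e : Q t (k + (m + 1)) = Q t (k + m) * (1 + t ^ 2 / (((k + m : ℕ) : ℝ) + 1 / 2) ^ 2) := by
      unfold Q
      rw [← add_assoc, Finset.prod_range_succ]
    rw [e]
    have h1 : 1 + t ^ 2 / (((k + m : ℕ) : ℝ) + 1 / 2) ^ 2 ≤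
        Real.exp (t ^ 2 * (1 / (k + m) - 1 / (k + (m + 1)))) := by
      refine le_trans ?_ (Real.add_one_le_exp _)
      rw [add_comm]
      have : t ^ 2 / (((k + m : ℕ) : ℝ) + 1 / 2) ^ 2 ≤
          t ^ 2 * (1 / ((k : ℝ) + m) - 1 / ((k : ℝ) + (m + 1))) := by
        rw [div_eq_mul_one_div]
        apply mul_le_mul_of_nonneg_left _ (sq_nonneg t)
        push_cast
        rw [div_sub_div _ _ (by positivity) (by positivity), div_le_div_iff₀ (by positivity)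
          (by positivity)]
        nlinarith
      linarith
    calc Q t (k + m) * (1 + t ^ 2 / (((k + m : ℕ) : ℝ) + 1 / 2) ^ 2)
        ≤ (Q t k * Real.exp (t ^ 2 * (1 / k - 1 / (k + m)))) *
          Real.exp (t ^ 2 * (1 / (k + m) - 1 / (k + (m + 1)))) := by
          gcongr
          exact (mul_pos (Q_pos t k) (Real.exp_pos _)).le
      _ = Q t k * Real.exp (t ^ 2 * (1 / k - 1 / (k + ((m + 1 : ℕ) : ℝ)))) := by
          rw [mul_assoc, ← Real.exp_add]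
          congr 2
          push_cast
          ring

lemma cosh_le (t : ℝ) (ht : 0 < t) (k : ℕ) (hk : 1 ≤ k) :
    Real.cosh (Real.pi * t) ≤ Q t k * Real.exp (t ^ 2 / k) := by
  refine le_of_tendsto (Q_tendsto t ht) ?_
  filter_upwards [eventually_ge_atTop k] with n hn
  obtain ⟨m, rfl⟩ := Nat.exists_eq_add_of_le hn
  refine le_trans (Q_le t k hk m) ?_
  have hk0 : (0 : ℝ) < k := by exact_mod_cast hk
  apply mul_le_mul_of_nonneg_left _ (Q_pos t k).le
  apply Real.exp_le_exp.mpr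
  rw [div_eq_mul_one_div (t ^ 2)]
  apply mul_le_mul_of_nonneg_left _ (sq_nonneg t)
  have : 0 ≤ 1 / ((k : ℝ) + m) := by positivity
  linarith

lemma pow_lower (T : ℝ) (hT : 2 ≤ T) (k : ℕ) (hk : (k : ℝ) ≤ 2 * T ^ 2) :
    Real.exp (-4) ≤ (1 - (T ^ 2)⁻¹) ^ k := by
  have hT2 : 4 ≤ T ^ 2 := by nlinarith
  have hx1 : 0 < (T ^ 2)⁻¹ := by positivity
  have hx2 : (T ^ 2)⁻¹ ≤ 1 / 4 := by
    rw [inv_le_comm₀ (by positivity) (by norm_num)]; linarith
  set x := (T ^ 2)⁻¹ with hx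
  have h1 : Real.exp (-(2 * x)) ≤ 1 - x := by
    rw [Real.exp_neg, inv_le_comm₀ (Real.exp_pos _) (by linarith)]
    have h2 := Real.add_one_le_exp (2 * x)
    refine le_trans ?_ h2
    rw [inv_le_iff_one_le_mul₀ (by linarith)]
    nlinarith
  calc Real.exp (-4) ≤ Real.exp (-(2 * x)) ^ k := by
        rw [← Real.exp_nat_mul]
        apply Real.exp_le_exp.mpr
        have : (k : ℝ) * x ≤ 2 := by
          calc (k : ℝ) * x ≤ 2 * T ^ 2 * x := by gcongr
            _ = 2 := by rw [hx]; field_simp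
        linarith
    _ ≤ (1 - x) ^ k := by gcongr


lemma Pk_succ (k : ℕ) (t : ℝ) : Pk (k + 1) t = Pk k t * (mu k t / ((k : ℝ) + 1) ^ 2) := by
  unfold Pk
  rw [Finset.prod_range_succ, Nat.factorial_succ]
  push_cast
  have := Nat.factorial_pos k
  field_simp

lemma Pk_nonneg (k : ℕ) (t : ℝ) : 0 ≤ Pk k t := by
  unfold Pk mu
  exact div_nonneg (Finset.prod_nonneg fun j _ => by positivity) (by positivity)

lemma Pk_lower (t : ℝ) (k : ℕ) (hk : 1 ≤ k) : Q t k / (4 * k) ≤ Pk k t := by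
  induction k, hk using Nat.le_induction with
  | base =>
    apply le_of_eq
    unfold Q Pk mu
    simp
    ring
  | succ k hk ih =>
    have hk0 : (0 : ℝ) < k := by exact_mod_cast hk
    rw [Pk_succ]
    have e : Q t (k + 1) = Q t k * (1 + t ^ 2 / ((k : ℝ) + 1 / 2) ^ 2) := by
      unfold Q
      rw [Finset.prod_range_succ]
    have hm : 0 ≤ mu k t / ((k : ℝ) + 1) ^ 2 := by unfold mu; positivity
    refine le_trans ?_ (mul_le_mul_of_nonneg_right ih hm)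
    rw [e]
    unfold mu
    have hQ := Q_pos t k
    have e2 : Q t k * (1 + t ^ 2 / ((k : ℝ) + 1 / 2) ^ 2) / (4 * ((k + 1 : ℕ) : ℝ)) =
        Q t k / (4 * k) * ((((k : ℝ) + 1 / 2) ^ 2 + t ^ 2) / ((k : ℝ) + 1) ^ 2) *
          ((k * (k + 1)) / ((k : ℝ) + 1 / 2) ^ 2) := by
      push_cast
      field_simp
    rw [e2]
    apply mul_le_of_le_one_right
    · positivity
    · rw [div_le_one (by positivity)]
      nlinarith

lemma card_ge (T : ℝ) (hT : 2 ≤ T) :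
    T ^ 2 / 2 ≤ ((Finset.Icc ⌈T ^ 2⌉₊ ⌊2 * T ^ 2⌋₊).card : ℝ) := by
  have hT2 : 4 ≤ T ^ 2 := by nlinarith
  rw [Nat.card_Icc]
  have h1 : (⌈T ^ 2⌉₊ : ℝ) < T ^ 2 + 1 := Nat.ceil_lt_add_one (by positivity)
  have h2 : 2 * T ^ 2 < (⌊2 * T ^ 2⌋₊ : ℝ) + 1 := Nat.lt_floor_add_one _
  have h3 : ⌈T ^ 2⌉₊ ≤ ⌊2 * T ^ 2⌋₊ + 1 := by
    have : (⌈T ^ 2⌉₊ : ℝ) ≤ (⌊2 * T ^ 2⌋₊ : ℝ) + 1 := by linarith
    exact_mod_cast this
  rw [Nat.cast_sub h3]
  push_cast
  linarith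

end

end Pool.Agent.A54.Av.PklM

namespace Pool.Agent.A54.Av

open PklM

theorem stmtPkl : StmtPkl := by
  refine ⟨Real.exp (-5) / 16, by positivity, ?_⟩
  intro T t N hT ht htT hN
  have hT2 : 4 ≤ T ^ 2 := by nlinarith
  have htT2 : t ^ 2 ≤ T ^ 2 := by gcongr
  have hq : 0 ≤ 1 - (T ^ 2)⁻¹ := by
    have : (T ^ 2)⁻¹ ≤ 1 := inv_le_one_of_one_le₀ (by linarith)
    linarith
  have hsub : Finset.Icc ⌈T ^ 2⌉₊ ⌊2 * T ^ 2⌋₊ ⊆ Finset.range N := by
    intro k hk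
    rw [Finset.mem_Icc] at hk
    rw [Finset.mem_range]
    have h1 : (k : ℝ) ≤ 2 * T ^ 2 := (Nat.le_floor_iff (by positivity)).mp hk.2
    have : (k : ℝ) < N := by linarith
    exact_mod_cast this
  have hterm : ∀ k ∈ Finset.Icc ⌈T ^ 2⌉₊ ⌊2 * T ^ 2⌋₊,
      Real.exp (-5) * Real.cosh (Real.pi * t) / (8 * T ^ 2) ≤ (1 - (T ^ 2)⁻¹) ^ k * Pk k t := by
    intro k hk
    rw [Finset.mem_Icc] at hk
    have h1 : (k : ℝ) ≤ 2 * T ^ 2 := (Nat.le_floor_iff (by positivity)).mp hk.2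
    have h2 : T ^ 2 ≤ k := Nat.ceil_le.mp hk.1
    have hk0 : (0 : ℝ) < k := by linarith
    have hk1 : 1 ≤ k := by exact_mod_cast hk0
    have h3 := pow_lower T hT k h1
    have h4 := Pk_lower t k hk1
    have h5 := cosh_le t ht k hk1
    have h6 : Real.exp (t ^ 2 / k) ≤ Real.exp 1 := by
      apply Real.exp_le_exp.mpr
      rw [div_le_one hk0]
      linarith
    have h7 : Real.cosh (Real.pi * t) ≤ Q t k * Real.exp 1 :=
      h5.trans (mul_le_mul_of_nonneg_left h6 (Q_pos t k).le)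
    have h8 : Real.exp (-1) * Real.cosh (Real.pi * t) ≤ Q t k := by
      rw [Real.exp_neg, inv_mul_le_iff₀ (Real.exp_pos _)]
      linarith
    have h9 : Real.exp (-1) * Real.cosh (Real.pi * t) / (8 * T ^ 2) ≤ Pk k t := by
      refine le_trans ?_ h4
      have : 4 * (k : ℝ) ≤ 8 * T ^ 2 := by linarith
      have hQ := Q_pos t k
      gcongr
    have hc := Real.cosh_pos (Real.pi * t)
    calc Real.exp (-5) * Real.cosh (Real.pi * t) / (8 * T ^ 2)
        = Real.exp (-4) * (Real.exp (-1) * Real.cosh (Real.pi * t) / (8 * T ^ 2)) := by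
          have : Real.exp (-5) = Real.exp (-4) * Real.exp (-1) := by
            rw [← Real.exp_add]; norm_num
          rw [this]; ring
      _ ≤ (1 - (T ^ 2)⁻¹) ^ k * Pk k t := by
          gcongr
  have hcard := card_ge T hT
  have hc := Real.cosh_pos (Real.pi * t)
  calc Real.exp (-5) / 16 * Real.cosh (Real.pi * t)
      = T ^ 2 / 2 * (Real.exp (-5) * Real.cosh (Real.pi * t) / (8 * T ^ 2)) := by
        field_simp
        norm_num
    _ ≤ ((Finset.Icc ⌈T ^ 2⌉₊ ⌊2 * T ^ 2⌋₊).card : ℝ) *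
        (Real.exp (-5) * Real.cosh (Real.pi * t) / (8 * T ^ 2)) := by
        apply mul_le_mul_of_nonneg_right hcard
        positivity
    _ = ∑ _k ∈ Finset.Icc ⌈T ^ 2⌉₊ ⌊2 * T ^ 2⌋₊,
        (Real.exp (-5) * Real.cosh (Real.pi * t) / (8 * T ^ 2)) := by
        rw [Finset.sum_const, nsmul_eq_mul]
    _ ≤ ∑ k ∈ Finset.Icc ⌈T ^ 2⌉₊ ⌊2 * T ^ 2⌋₊, (1 - (T ^ 2)⁻¹) ^ k * Pk k t :=
        Finset.sum_le_sum hterm
    _ ≤ ∑ k ∈ Finset.range N, (1 - (T ^ 2)⁻¹) ^ k * Pk k t :=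
        Finset.sum_le_sum_of_subset_of_nonneg hsub fun k _ _ =>
          mul_nonneg (pow_nonneg hq k) (Pk_nonneg k t)

end Pool.Agent.A54.Av
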