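import Pool.Agent.Lib.MP_a54f13_nt.Av.SpecA

/-!
# `Pn`: the pairing of the matrices of negative determinant
-/

set_option autoImplicit false

namespace Pool.Agent.A54.Av

open MeasureTheory Filter Topology Set
open scoped ContDiff ComplexConjugate UpperHalfPlane MatrixGroups ENNReal
open Pool.Agent.A54.Half (H0 qq ff hh)

noncomputable section

namespace PnM

/-- `γ J` -/
def mj (γ : Mat) : Mat := !![-(γ 0 0), γ 0 1; -(γ 1 0), γ 1 1]

lemma mj_mj : Function.Involutive mj := by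
  intro γ
  ext i j
  fin_cases i <;> fin_cases j <;> simp [mj]

lemma det_mj (γ : Mat) : (mj γ).det = -γ.det := by
  rw [Matrix.det_fin_two, Matrix.det_fin_two]
  simp [mj]
  ring

/-- the permutation -/
def ej : Mat ≃ Mat := mj_mj.toPerm

lemma ej_apply (γ : Mat) : ej γ = mj γ := rfl

lemma VV_mj (γ : Mat) (w τ : ℂ) : VV (mj γ) w (-conj τ) =
    ‖((γ 0 0 : ℤ) : ℂ) * τ + ((γ 0 1 : ℤ) : ℂ) -
    conj w * (((γ 1 0 : ℤ) : ℂ) * τ + ((γ 1 1 : ℤ) : ℂ))‖ ^ 2 / (4 * w.im * τ.im) := by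
  unfold VV
  have h1 : (((mj γ) 0 0 : ℤ) : ℂ) * (-conj τ) + (((mj γ) 0 1 : ℤ) : ℂ) -
      w * ((((mj γ) 1 0 : ℤ) : ℂ) * (-conj τ) + (((mj γ) 1 1 : ℤ) : ℂ)) =
      conj (((γ 0 0 : ℤ) : ℂ) * τ + ((γ 0 1 : ℤ) : ℂ) -
    conj w * (((γ 1 0 : ℤ) : ℂ) * τ + ((γ 1 1 : ℤ) : ℂ))) := by
    simp only [map_sub, map_add, map_mul, Complex.conj_conj, map_intCast]
    simp [mj]
  rw [h1, Complex.norm_conj]
  simp

lemma kk_mj (hQF : StmtQF) (γ : Mat) (m : ℕ) (hd : γ.det = -(m : ℤ)) (z w τ : ℂ) (hw : w ∈ H0)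
    (hτ : τ ∈ H0) :
    kk γ z w τ = ee (-(2 * (m : ℂ) * (z.re : ℂ))) * kk (mj γ) z w (-conj τ) := by
  obtain ⟨_, _, h3, _⟩ := hQF γ w τ hw hτ
  have h4 : VV (mj γ) w (-conj τ) = VV γ w τ - m := by
    rw [VV_mj, ← h3, hd]
    push_cast
    ring
  unfold kk
  rw [h4, det_mj, hd]
  unfold ee
  rw [Complex.ofReal_exp, Complex.ofReal_exp]
  have h5 : ∀ a b c d e : ℂ, a * Complex.exp b * Complex.exp c =
      Complex.exp d * (a * Complex.exp e * Complex.exp (b + c - d - e)) := by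
    intro a b c d e
    have : Complex.exp b * Complex.exp c = Complex.exp d * Complex.exp e *
        Complex.exp (b + c - d - e) := by
      rw [← Complex.exp_add, ← Complex.exp_add, ← Complex.exp_add]
      congr 1
      ring
    calc a * Complex.exp b * Complex.exp c = a * (Complex.exp b * Complex.exp c) := by ring
      _ = a * (Complex.exp d * Complex.exp e * Complex.exp (b + c - d - e)) := by rw [this]
      _ = _ := by ring
  rw [h5 _ _ _ (2 * (Real.pi : ℂ) * Complex.I * (-(2 * (m : ℂ) * (z.re : ℂ))))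
    (2 * (Real.pi : ℂ) * Complex.I * (((-(-(m : ℤ)) : ℤ) : ℂ) * z))]
  congr 3
  push_cast
  have hz : z = (z.re : ℂ) + (z.im : ℂ) * Complex.I := (Complex.re_add_im z).symm
  have hI : Complex.I * Complex.I = -1 := Complex.I_mul_I
  rw [show (2 * (Real.pi : ℂ) * Complex.I * (-(m : ℂ) * z)) =
    2 * (Real.pi : ℂ) * Complex.I * (-(m : ℂ) * ((z.re : ℂ) + (z.im : ℂ) * Complex.I)) by
      rw [← hz], show (2 * (Real.pi : ℂ) * Complex.I * (- -(m : ℂ) * z)) =
    2 * (Real.pi : ℂ) * Complex.I * (- -(m : ℂ) * ((z.re : ℂ) + (z.im : ℂ) * Complex.I)) by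
      rw [← hz]]
  linear_combination (-4 * (Real.pi : ℂ) * m * (z.im : ℂ)) * hI

lemma pre_fdo : (fun τ : ℍ => UpperHalfPlane.J • τ) ⁻¹' ModularGroup.fdo = ModularGroup.fdo := by
  ext τ
  simp only [Set.mem_preimage, ModularGroup.fdo, Set.mem_ofPred_eq]
  have h1 : ((UpperHalfPlane.J • τ : ℍ) : ℂ) = -conj (τ : ℂ) := UpperHalfPlane.coe_J_smul τ
  have h2 : (UpperHalfPlane.J • τ : ℍ).re = -τ.re := by
    show ((UpperHalfPlane.J • τ : ℍ) : ℂ).re = -(τ : ℂ).re
    rw [h1]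
    simp
  rw [h1, h2, Complex.normSq_neg, Complex.normSq_conj, abs_neg]

lemma int_J (F : ℍ → ℂ) : ∫ τ in ModularGroup.fdo, F (UpperHalfPlane.J • τ) =
    ∫ τ in ModularGroup.fdo, F τ := by
  have h := (measurePreserving_smul UpperHalfPlane.J (volume : Measure ℍ)).setIntegral_preimage_emb
    (measurableEmbedding_const_smul UpperHalfPlane.J) F ModularGroup.fdo
  rw [pre_fdo] at h
  exact h

end PnM

open PnM in
theorem stmtPn (hPp : StmtPp) (hQF : StmtQF) : StmtPn := by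
  intro f t hf m c ε hm hc hε z w
  classical
  have hp := hPp f t hf m c hm hc z w
  have hε2 : ε * ε = 1 := by
    rcases hε.1 with h | h <;> rw [h] <;> norm_num
  have hfJ : ∀ τ : ℍ, f τ = ε * f (UpperHalfPlane.J • τ) := by
    intro τ
    have h1 := hε.2 (τ : ℂ) τ.im_pos
    unfold ext at h1
    rw [← UpperHalfPlane.J_smul, UpperHalfPlane.ofComplex_apply] at h1
    rw [h1, ← mul_assoc, hε2, one_mul]
  have hsum : ∀ τ : ℍ, (∑' γ : Mat, if γ.det = -(m : ℤ) then kk γ z w τ else 0) =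
      ee (-(2 * (m : ℂ) * (z.re : ℂ))) *
        ∑' γ : Mat, if γ.det = m then kk γ z w (UpperHalfPlane.J • τ : ℍ) else 0 := by
    intro τ
    rw [← tsum_mul_left, ← ej.tsum_eq (fun γ : Mat => ee (-(2 * (m : ℂ) * (z.re : ℂ))) *
      (if γ.det = m then kk γ z w (UpperHalfPlane.J • τ : ℍ) else 0))]
    congr 1
    ext γ
    rw [ej_apply, det_mj]
    by_cases h : γ.det = -(m : ℤ)
    · rw [if_pos h, if_pos (by rw [h]; ring), kk_mj hQF γ m h z w τ w.im_pos τ.im_pos,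
        UpperHalfPlane.coe_J_smul]
      rfl
    · rw [if_neg h, if_neg (fun h' => h (by rw [← h']; ring)), mul_zero]
  have hint : ∀ τ : ℍ, (∑' γ : Mat, if γ.det = -(m : ℤ) then kk γ z w τ else 0) * (f τ : ℂ) =
      (ee (-(2 * (m : ℂ) * (z.re : ℂ))) * (ε : ℂ)) *
        (fun σ : ℍ => (∑' γ : Mat, if γ.det = m then kk γ z w σ else 0) * (f σ : ℂ))
          (UpperHalfPlane.J • τ) := by
    intro τ
    rw [hsum τ, hfJ τ]
    push_cast
    ring
  have e1 : ∫ τ in ModularGroup.fdo, (∑' γ : Mat, if γ.det = -(m : ℤ) then kk γ z w τ else 0) *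
      (f τ : ℂ) = (ee (-(2 * (m : ℂ) * (z.re : ℂ))) * (ε : ℂ)) *
        ∫ τ in ModularGroup.fdo, (∑' γ : Mat, if γ.det = m then kk γ z w τ else 0) *
      (f τ : ℂ) := by
    rw [← int_J (fun σ : ℍ => (∑' γ : Mat, if γ.det = m then kk γ z w σ else 0) * (f σ : ℂ)),
      ← integral_const_mul]
    congr 1
    ext τ
    exact hint τ
  have e2 : ∫ τ in ModularGroup.fdo, (∑' γ : Mat, open Classical in
      if γ.det = -(m : ℤ) then kk γ z w τ else 0) * (f τ : ℂ) =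
      ∫ τ in ModularGroup.fdo, (∑' γ : Mat, if γ.det = -(m : ℤ) then kk γ z w τ else 0) *
      (f τ : ℂ) := by
    congr!
  have e3 : ∫ τ in ModularGroup.fdo, (∑' γ : Mat, open Classical in
      if γ.det = m then kk γ z w τ else 0) * (f τ : ℂ) =
      ∫ τ in ModularGroup.fdo, (∑' γ : Mat, if γ.det = m then kk γ z w τ else 0) *
      (f τ : ℂ) := by
    congr!
  rw [e2, e1, ← e3, hp]
  have h6 : ee (-(2 * (m : ℂ) * (z.re : ℂ))) * ee ((m : ℂ) * (z.re : ℂ)) =
      ee (-((m : ℂ) * (z.re : ℂ))) := by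
    unfold ee
    rw [← Complex.exp_add]
    congr 1
    ring
  rw [← h6]
  push_cast
  ring

end

end Pool.Agent.A54.Av
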