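import Pool.Agent.Lib.MP_a54f13_nt.Av.SpecA

/-!
# Package `Av`: module `Pp`, the pairing with the matrices of positive determinant
-/

set_option autoImplicit false

namespace Pool.Agent.A54.Av

open MeasureTheory Filter Topology Set
open scoped ContDiff ComplexConjugate UpperHalfPlane MatrixGroups ENNReal
open Pool.Agent.A54.Half (H0 qq ff hh ext_coe)

noncomputable section

namespace PpM

/-- the representatives of the matrices of determinant `m` modulo `SL(2, ℤ)` -/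
def del (m : ℕ) (x : Σ _ : ℕ, ℕ) : Mat := !![(x.1 : ℤ), -(x.2 : ℤ); 0, ((m / x.1 : ℕ) : ℤ)]

/-- the index set -/
def SS (m : ℕ) : Finset (Σ _ : ℕ, ℕ) := m.divisors.sigma (fun d => Finset.range d)

lemma mem_SS {m : ℕ} {x : Σ _ : ℕ, ℕ} : x ∈ SS m ↔ (x.1 ∣ m ∧ m ≠ 0) ∧ x.2 < x.1 := by
  unfold SS
  rw [Finset.mem_sigma, Nat.mem_divisors, Finset.mem_range]

lemma SS_mul {m : ℕ} {x : Σ _ : ℕ, ℕ} (hx : x ∈ SS m) : x.1 * (m / x.1) = m :=
  Nat.mul_div_cancel' (mem_SS.1 hx).1.1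

lemma SS_pos {m : ℕ} {x : Σ _ : ℕ, ℕ} (hx : x ∈ SS m) : 0 < x.1 ∧ 0 < m / x.1 := by
  have h1 := SS_mul hx
  have h2 := (mem_SS.1 hx).1.2
  constructor
  · rcases Nat.eq_zero_or_pos x.1 with h | h
    · rw [h, zero_mul] at h1
      exact absurd h1.symm h2
    · exact h
  · rcases Nat.eq_zero_or_pos (m / x.1) with h | h
    · rw [h, mul_zero] at h1
      exact absurd h1.symm h2
    · exact h

lemma det_del {m : ℕ} {x : Σ _ : ℕ, ℕ} (hx : x ∈ SS m) : (del m x).det = m := by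
  unfold del
  rw [Matrix.det_fin_two_of]
  have h1 := SS_mul hx
  have h2 : ((x.1 : ℤ)) * ((m / x.1 : ℕ) : ℤ) = (m : ℤ) := by exact_mod_cast h1
  linarith

/-- the parametrisation of the matrices of determinant `m` -/
def par (m : ℕ) (p : SL(2, ℤ) × {x // x ∈ SS m}) : {γ : Mat // γ.det = (m : ℤ)} :=
  ⟨del m p.2.1 * (p.1 : Mat), by
    rw [Matrix.det_mul, det_del p.2.2, p.1.det_coe, mul_one]⟩

lemma mul_entries (m : ℕ) (x : Σ _ : ℕ, ℕ) (A : Mat) :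
    (del m x * A) 0 0 = (x.1 : ℤ) * A 0 0 - (x.2 : ℤ) * A 1 0 ∧
    (del m x * A) 0 1 = (x.1 : ℤ) * A 0 1 - (x.2 : ℤ) * A 1 1 ∧
    (del m x * A) 1 0 = ((m / x.1 : ℕ) : ℤ) * A 1 0 ∧
    (del m x * A) 1 1 = ((m / x.1 : ℕ) : ℤ) * A 1 1 := by
  unfold del
  refine ⟨?_, ?_, ?_, ?_⟩ <;>
    simp [Matrix.mul_apply, Fin.sum_univ_two] <;> ring

lemma det_sl (A : SL(2, ℤ)) : (A : Mat) 0 0 * (A : Mat) 1 1 - (A : Mat) 0 1 * (A : Mat) 1 0 = 1 := by
  have := A.det_coe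
  rwa [Matrix.det_fin_two] at this

lemma par_inj (m : ℕ) : Function.Injective (par m) := by
  rintro ⟨A, x, hx⟩ ⟨B, y, hy⟩ hxy
  have h0 : del m x * (A : Mat) = del m y * (B : Mat) := congrArg Subtype.val hxy
  obtain ⟨a1, a2, a3, a4⟩ := mul_entries m x (A : Mat)
  obtain ⟨b1, b2, b3, b4⟩ := mul_entries m y (B : Mat)
  rw [h0] at a1 a2 a3 a4
  have dA := det_sl A
  have dB := det_sl B
  have e1 := a1.symm.trans b1
  have e2 := a2.symm.trans b2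
  have e3 := a3.symm.trans b3
  have e4 := a4.symm.trans b4
  obtain ⟨px, qx⟩ := SS_pos hx
  obtain ⟨py, qy⟩ := SS_pos hy
  have mx := SS_mul hx
  have my := SS_mul hy
  -- the lower right entries agree
  have f1 : ((m / y.1 : ℕ) : ℤ) ∣ ((m / x.1 : ℕ) : ℤ) := by
    refine ⟨(B : Mat) 1 1 * (A : Mat) 0 0 - (A : Mat) 0 1 * (B : Mat) 1 0, ?_⟩
    linear_combination (-(((m / x.1 : ℕ) : ℤ))) * dA + (A : Mat) 0 0 * e4 - (A : Mat) 0 1 * e3
  have f2 : ((m / x.1 : ℕ) : ℤ) ∣ ((m / y.1 : ℕ) : ℤ) := by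
    refine ⟨(A : Mat) 1 1 * (B : Mat) 0 0 - (B : Mat) 0 1 * (A : Mat) 1 0, ?_⟩
    linear_combination (-(((m / y.1 : ℕ) : ℤ))) * dB - (B : Mat) 0 0 * e4 + (B : Mat) 0 1 * e3
  have f3 : m / x.1 = m / y.1 :=
    Nat.dvd_antisymm (Int.natCast_dvd_natCast.1 f2) (Int.natCast_dvd_natCast.1 f1)
  have f4 : x.1 = y.1 := by
    have h1 : x.1 * (m / x.1) = y.1 * (m / x.1) := by
      rw [mx]
      rw [f3, my]
    exact Nat.eq_of_mul_eq_mul_right qx h1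
  have g0 : ((m / x.1 : ℕ) : ℤ) ≠ 0 := by
    have : (m / x.1 : ℕ) ≠ 0 := by omega
    exact_mod_cast this
  rw [← f3] at e3 e4
  have g3 : (A : Mat) 1 0 = (B : Mat) 1 0 := mul_left_cancel₀ g0 e3
  have g4 : (A : Mat) 1 1 = (B : Mat) 1 1 := mul_left_cancel₀ g0 e4
  rw [← f4, ← g3] at e1
  rw [← f4, ← g4] at e2
  rw [← g3, ← g4] at dB
  have k1 : ((x.1 : ℕ) : ℤ) ∣ (x.2 : ℤ) - (y.2 : ℤ) := by
    refine ⟨(A : Mat) 1 1 * 0 + (B : Mat) 0 1 * 0 + ((A : Mat) 0 1 - (B : Mat) 0 1) * (A : Mat) 0 0 -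
      ((A : Mat) 0 0 - (B : Mat) 0 0) * (A : Mat) 0 1, ?_⟩
    linear_combination (-((x.2 : ℤ) - (y.2 : ℤ))) * dA - (A : Mat) 0 0 * e2 + (A : Mat) 0 1 * e1
  have k2 : x.2 = y.2 := by
    have hx2 := (mem_SS.1 hx).2
    have hy2 := (mem_SS.1 hy).2
    rw [← f4] at hy2
    have h2 : (x.2 : ℤ) % (x.1 : ℤ) = (y.2 : ℤ) % (x.1 : ℤ) :=
      Int.emod_eq_emod_iff_emod_sub_eq_zero.2 (Int.emod_eq_zero_of_dvd k1)
    rw [Int.emod_eq_of_lt (by omega) (by omega), Int.emod_eq_of_lt (by omega) (by omega)] at h2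
    exact_mod_cast h2
  have d0 : ((x.1 : ℕ) : ℤ) ≠ 0 := by
    have : x.1 ≠ 0 := by omega
    exact_mod_cast this
  rw [← k2] at e1 e2
  have l1 : (A : Mat) 0 0 = (B : Mat) 0 0 := mul_left_cancel₀ d0 (by linarith)
  have l2 : (A : Mat) 0 1 = (B : Mat) 0 1 := mul_left_cancel₀ d0 (by linarith)
  have hAB : A = B := by
    apply Subtype.ext
    ext i j
    fin_cases i <;> fin_cases j
    · exact l1
    · exact l2
    · exact g3
    · exact g4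
  have hxy' : x = y := by
    obtain ⟨x1, x2⟩ := x
    obtain ⟨y1, y2⟩ := y
    simp only at f4 k2
    rw [f4, k2]
  subst hAB
  subst hxy'
  rfl

lemma par_surj (m : ℕ) (hm : 1 ≤ m) : Function.Surjective (par m) := by
  rintro ⟨γ, hγ⟩
  have hdet : γ 0 0 * γ 1 1 - γ 0 1 * γ 1 0 = (m : ℤ) := by
    rwa [Matrix.det_fin_two] at hγ
  have hne : ¬ (γ 1 0 = 0 ∧ γ 1 1 = 0) := by
    rintro ⟨h1, h2⟩
    rw [h1, h2] at hdet
    simp at hdet
    omega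
  have hgpos : 0 < Int.gcd (γ 1 0) (γ 1 1) := by
    rcases Nat.eq_zero_or_pos (Int.gcd (γ 1 0) (γ 1 1)) with h | h
    · exact absurd (Int.gcd_eq_zero_iff.1 h) hne
    · exact h
  obtain ⟨a, ha⟩ : ∃ a : ℕ, a = Int.gcd (γ 1 0) (γ 1 1) := ⟨_, rfl⟩
  obtain ⟨p, hp⟩ : (a : ℤ) ∣ γ 1 0 := by rw [ha]; exact Int.gcd_dvd_left _ _
  obtain ⟨q, hq⟩ : (a : ℤ) ∣ γ 1 1 := by rw [ha]; exact Int.gcd_dvd_right _ _
  rw [← ha] at hgpos
  have ha0 : (a : ℤ) ≠ 0 := by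
    have : a ≠ 0 := by omega
    exact_mod_cast this
  obtain ⟨r, s, hrs⟩ : ∃ r s : ℤ, r * q - s * p = 1 := by
    have h1 := Int.gcd_eq_gcd_ab (γ 1 0) (γ 1 1)
    rw [← ha, hp, hq] at h1
    refine ⟨Int.gcdB (a * p) (a * q), -Int.gcdA (a * p) (a * q), ?_⟩
    apply mul_left_cancel₀ ha0
    linear_combination -h1
  have hD : (a : ℤ) * (γ 0 0 * q - γ 0 1 * p) = m := by
    rw [hp, hq] at hdet
    linear_combination hdet
  have ham : a ∣ m := Int.natCast_dvd_natCast.1 ⟨_, hD.symm⟩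
  have hdm : m / a ∣ m := Nat.div_dvd_of_dvd ham
  have hdpos : 0 < m / a := Nat.div_pos (Nat.le_of_dvd (by omega) ham) hgpos
  have hmda : m / (m / a) = a := Nat.div_div_self ham (by omega)
  have hd : ((m / a : ℕ) : ℤ) = γ 0 0 * q - γ 0 1 * p := by
    apply mul_left_cancel₀ ha0
    rw [hD]
    have : a * (m / a) = m := Nat.mul_div_cancel' ham
    exact_mod_cast this
  obtain ⟨d, hdd⟩ : ∃ d : ℕ, d = m / a := ⟨_, rfl⟩
  rw [← hdd] at hd hdm hdpos hmda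
  have hdZ : (0 : ℤ) < (d : ℤ) := by exact_mod_cast hdpos
  obtain ⟨N, hN⟩ : ∃ N : ℤ, N = γ 0 1 * r - γ 0 0 * s := ⟨_, rfl⟩
  have hb1 := Int.emod_nonneg (-N) hdZ.ne'
  have hb2 := Int.emod_lt_of_pos (-N) hdZ
  have hb3 := Int.emod_add_mul_ediv (-N) d
  obtain ⟨b, hb⟩ := Int.eq_ofNat_of_zero_le hb1
  rw [hb] at hb2 hb3
  obtain ⟨k, hk⟩ : ∃ k : ℤ, k = -N / (d : ℤ) := ⟨_, rfl⟩
  rw [← hk] at hb3
  have hbd : b < d := by exact_mod_cast hb2
  have hx : (⟨d, b⟩ : Σ _ : ℕ, ℕ) ∈ SS m := mem_SS.2 ⟨⟨hdm, by omega⟩, hbd⟩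
  have hAdet : (!![r - k * p, s - k * q; p, q] : Mat).det = 1 := by
    rw [Matrix.det_fin_two_of]
    linear_combination hrs
  refine ⟨⟨⟨!![r - k * p, s - k * q; p, q], hAdet⟩, ⟨⟨d, b⟩, hx⟩⟩, ?_⟩
  apply Subtype.ext
  change del m ⟨d, b⟩ * (!![r - k * p, s - k * q; p, q] : Mat) = γ
  obtain ⟨a1, a2, a3, a4⟩ := mul_entries m ⟨d, b⟩ (!![r - k * p, s - k * q; p, q] : Mat)
  simp only [hmda] at a1 a2 a3 a4
  ext i j
  fin_cases i <;> fin_cases j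
  · refine a1.trans ?_
    simp only [Matrix.of_apply, Matrix.cons_val', Matrix.cons_val_zero, Matrix.cons_val_one,
      Matrix.cons_val_fin_one]
    change (d : ℤ) * (r - k * p) - (b : ℤ) * p = γ 0 0
    linear_combination γ 0 0 * hrs + r * hd - p * hb3 + p * hN
  · refine a2.trans ?_
    change (d : ℤ) * (s - k * q) - (b : ℤ) * q = γ 0 1
    linear_combination γ 0 1 * hrs + s * hd - q * hb3 + q * hN
  · refine a3.trans ?_
    change (a : ℤ) * p = γ 1 0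
    rw [hp]
  · refine a4.trans ?_
    change (a : ℤ) * q = γ 1 1
    rw [hq]

/-- the action of `SL(2, ℤ)` -/
lemma VV_mul (δ : Mat) (A : SL(2, ℤ)) (w : ℂ) (τ : ℍ) :
    VV (δ * (A : Mat)) w τ = VV δ w ((A • τ : ℍ) : ℂ) := by
  have hd := UpperHalfPlane.denom_ne_zero (A : GL (Fin 2) ℝ) τ
  rw [ModularGroup.denom_apply] at hd
  have him := ModularGroup.im_smul_eq_div_normSq A τ
  rw [ModularGroup.denom_apply] at him
  have hco : ((A • τ : ℍ) : ℂ) = (((A 0 0 : ℤ) : ℂ) * τ + ((A 0 1 : ℤ) : ℂ)) /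
      (((A 1 0 : ℤ) : ℂ) * τ + ((A 1 1 : ℤ) : ℂ)) := by
    rw [UpperHalfPlane.coe_specialLinearGroup_apply]
    simp
  obtain ⟨j, hj⟩ : ∃ j : ℂ, j = ((A 1 0 : ℤ) : ℂ) * τ + ((A 1 1 : ℤ) : ℂ) := ⟨_, rfl⟩
  rw [← hj] at hd him hco
  unfold VV
  have e1 : (δ * (A : Mat)) 0 0 = δ 0 0 * A 0 0 + δ 0 1 * A 1 0 := by
    simp [Matrix.mul_apply, Fin.sum_univ_two]
  have e2 : (δ * (A : Mat)) 0 1 = δ 0 0 * A 0 1 + δ 0 1 * A 1 1 := by
    simp [Matrix.mul_apply, Fin.sum_univ_two]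
  have e3 : (δ * (A : Mat)) 1 0 = δ 1 0 * A 0 0 + δ 1 1 * A 1 0 := by
    simp [Matrix.mul_apply, Fin.sum_univ_two]
  have e4 : (δ * (A : Mat)) 1 1 = δ 1 0 * A 0 1 + δ 1 1 * A 1 1 := by
    simp [Matrix.mul_apply, Fin.sum_univ_two]
  have hnum : (((δ * (A : Mat)) 0 0 : ℤ) : ℂ) * τ + (((δ * (A : Mat)) 0 1 : ℤ) : ℂ) -
      w * ((((δ * (A : Mat)) 1 0 : ℤ) : ℂ) * τ + (((δ * (A : Mat)) 1 1 : ℤ) : ℂ)) =
      j * (((δ 0 0 : ℤ) : ℂ) * ((A • τ : ℍ) : ℂ) + ((δ 0 1 : ℤ) : ℂ) -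
        w * (((δ 1 0 : ℤ) : ℂ) * ((A • τ : ℍ) : ℂ) + ((δ 1 1 : ℤ) : ℂ))) := by
    have e5 : j * ((A • τ : ℍ) : ℂ) = ((A 0 0 : ℤ) : ℂ) * τ + ((A 0 1 : ℤ) : ℂ) := by
      rw [hco]
      field_simp
    rw [e1, e2, e3, e4]
    push_cast
    linear_combination (-((δ 0 0 : ℤ) : ℂ) + w * ((δ 1 0 : ℤ) : ℂ)) * e5 -
      (((δ 0 1 : ℤ) : ℂ) - w * ((δ 1 1 : ℤ) : ℂ)) * hj
  have him' : ((A • τ : ℍ) : ℂ).im = τ.im / ‖j‖ ^ 2 := by
    rw [UpperHalfPlane.coe_im, him, Complex.normSq_eq_norm_sq]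
  rw [hnum, norm_mul, mul_pow, him', UpperHalfPlane.coe_im]
  have hj0 : ‖j‖ ≠ 0 := norm_ne_zero_iff.2 hd
  field_simp

lemma kk_mul (δ : Mat) (A : SL(2, ℤ)) (z w : ℂ) (τ : ℍ) :
    kk (δ * (A : Mat)) z w τ = kk δ z w ((A • τ : ℍ) : ℂ) := by
  unfold kk
  rw [VV_mul, Matrix.det_mul, A.det_coe, mul_one]

/-- the matrix `(a, b; 0, d)` -/
def gg (m : ℕ) (x : {x // x ∈ SS m}) : GL (Fin 2) ℝ :=
  Matrix.GeneralLinearGroup.mkOfDetNeZero !![((m / x.1.1 : ℕ) : ℝ), (x.1.2 : ℝ); 0, (x.1.1 : ℝ)] (by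
    rw [Matrix.det_fin_two_of, mul_zero, sub_zero]
    obtain ⟨h1, h2⟩ := SS_pos x.2
    have h3 : ((x.1.1 : ℕ) : ℝ) ≠ 0 := by exact_mod_cast h1.ne'
    have h4 : ((m / x.1.1 : ℕ) : ℝ) ≠ 0 := by exact_mod_cast h2.ne'
    exact mul_ne_zero h4 h3)

lemma gg_smul (m : ℕ) (x : {x // x ∈ SS m}) (σ : ℍ) :
    ((gg m x • σ : ℍ) : ℂ) = (((m / x.1.1 : ℕ) : ℂ) * σ + (x.1.2 : ℂ)) / (x.1.1 : ℂ) := by
  obtain ⟨h1, h2⟩ := SS_pos x.2
  have hdet : 0 < (gg m x).det.val := by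
    change 0 < Matrix.det !![((m / x.1.1 : ℕ) : ℝ), (x.1.2 : ℝ); 0, (x.1.1 : ℝ)]
    rw [Matrix.det_fin_two_of, mul_zero, sub_zero]
    have h3 : (0 : ℝ) < ((x.1.1 : ℕ) : ℝ) := by exact_mod_cast h1
    have h4 : (0 : ℝ) < ((m / x.1.1 : ℕ) : ℝ) := by exact_mod_cast h2
    positivity
  rw [UpperHalfPlane.coe_smul_of_det_pos hdet]
  unfold UpperHalfPlane.num UpperHalfPlane.denom
  have e1 : (gg m x) 0 0 = ((m / x.1.1 : ℕ) : ℝ) := rfl
  have e2 : (gg m x) 0 1 = (x.1.2 : ℝ) := rfl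
  have e3 : (gg m x) 1 0 = 0 := rfl
  have e4 : (gg m x) 1 1 = (x.1.1 : ℝ) := rfl
  rw [e1, e2, e3, e4]
  push_cast
  ring

lemma kk_gg (m : ℕ) (x : {x // x ∈ SS m}) (z w σ : ℍ) :
    kk (del m x.1) z w ((gg m x • σ : ℍ) : ℂ) =
      ((z.im * Real.exp (-(2 * Real.pi * m * z.im * Real.cosh (dist σ w))) : ℝ) : ℂ) *
        ee ((m : ℂ) * (z.re : ℂ)) := by
  obtain ⟨h1, h2⟩ := SS_pos x.2
  have hm := SS_mul x.2
  obtain ⟨d, hd⟩ : ∃ d : ℝ, d = (x.1.1 : ℝ) := ⟨_, rfl⟩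
  obtain ⟨a, ha⟩ : ∃ a : ℝ, a = ((m / x.1.1 : ℕ) : ℝ) := ⟨_, rfl⟩
  obtain ⟨b, hb⟩ : ∃ b : ℝ, b = (x.1.2 : ℝ) := ⟨_, rfl⟩
  have hd0 : 0 < d := by rw [hd]; exact_mod_cast h1
  have ha0 : 0 < a := by rw [ha]; exact_mod_cast h2
  have hda : d * a = m := by rw [hd, ha]; exact_mod_cast hm
  have hg : ((gg m x • σ : ℍ) : ℂ) = ((a : ℂ) * σ + (b : ℂ)) / (d : ℂ) := by
    rw [gg_smul, hd, ha, hb]
    push_cast
    rfl
  have hVV : VV (del m x.1) w ((gg m x • σ : ℍ) : ℂ) =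
      m * ‖(σ : ℂ) - w‖ ^ 2 / (4 * w.im * σ.im) := by
    unfold VV
    have e1 : (((del m x.1) 0 0 : ℤ) : ℂ) = (d : ℂ) := by
      rw [hd]
      change (((x.1.1 : ℤ)) : ℂ) = _
      push_cast
      rfl
    have e2 : (((del m x.1) 0 1 : ℤ) : ℂ) = -(b : ℂ) := by
      rw [hb]
      change (((-(x.1.2 : ℤ) : ℤ)) : ℂ) = _
      push_cast
      rfl
    have e3 : (((del m x.1) 1 0 : ℤ) : ℂ) = 0 := by
      change (((0 : ℤ)) : ℂ) = _
      push_cast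
      rfl
    have e4 : (((del m x.1) 1 1 : ℤ) : ℂ) = (a : ℂ) := by
      rw [ha]
      change ((((m / x.1.1 : ℕ) : ℤ)) : ℂ) = _
      push_cast
      rfl
    have him : ((gg m x • σ : ℍ) : ℂ).im = a * σ.im / d := by
      rw [hg, Complex.div_ofReal_im]
      simp
    have hdC : (d : ℂ) ≠ 0 := by exact_mod_cast hd0.ne'
    have hnum : (((del m x.1) 0 0 : ℤ) : ℂ) * ((gg m x • σ : ℍ) : ℂ) +
        (((del m x.1) 0 1 : ℤ) : ℂ) - (w : ℂ) * ((((del m x.1) 1 0 : ℤ) : ℂ) *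
        ((gg m x • σ : ℍ) : ℂ) + (((del m x.1) 1 1 : ℤ) : ℂ)) = (a : ℂ) * ((σ : ℂ) - w) := by
      rw [e1, e2, e3, e4, hg]
      field_simp
      ring
    rw [hnum, him, norm_mul, Complex.norm_real, Real.norm_of_nonneg ha0.le, mul_pow,
      UpperHalfPlane.coe_im, ← hda]
    have hs := σ.im_pos
    have hw := w.im_pos
    field_simp
  have hdet : (((del m x.1).det : ℤ) : ℂ) = (m : ℂ) := by
    rw [det_del x.2]
    push_cast
    rfl
  unfold kk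
  rw [hVV, hdet, UpperHalfPlane.coe_im]
  have hcosh := UpperHalfPlane.cosh_dist σ w
  rw [hcosh, Complex.dist_eq]
  have hee : ee ((m : ℂ) * (z : ℂ)) = ((Real.exp (-(2 * Real.pi * m * z.im)) : ℝ) : ℂ) *
      ee ((m : ℂ) * (z.re : ℂ)) := by
    unfold ee
    rw [Complex.ofReal_exp, ← Complex.exp_add]
    congr 1
    have hz : (z : ℂ) = (z.re : ℂ) + (z.im : ℂ) * Complex.I := by
      apply Complex.ext
      · simp
      · simp
    rw [hz]
    push_cast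
    linear_combination (2 * (Real.pi : ℂ) * m * z.im) * Complex.I_mul_I
  rw [hee]
  have hexp : Real.exp (-(2 * Real.pi * m * z.im *
      (1 + ‖(σ : ℂ) - w‖ ^ 2 / (2 * σ.im * w.im)))) =
      Real.exp (-(2 * Real.pi * m * z.im)) *
      Real.exp (-(4 * Real.pi * z.im * (m * ‖(σ : ℂ) - w‖ ^ 2 / (4 * w.im * σ.im)))) := by
    rw [← Real.exp_add]
    congr 1
    have hs := σ.im_pos
    have hw := w.im_pos
    field_simp
    ring
  rw [hexp]
  push_cast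
  ring

/-- the sum over the matrices of determinant `m` as a double sum -/
lemma tsum_det (m : ℕ) (hm : 1 ≤ m) (z w : ℂ) (τ : ℍ)
    (hs : Summable fun γ : Mat => ‖kk γ z w τ‖) :
    (∑' γ : Mat, open Classical in if γ.det = m then kk γ z w τ else 0) =
      ∑' A : SL(2, ℤ), ∑ x ∈ SS m, kk (del m x) z w ((A • τ : ℍ) : ℂ) := by
  classical
  have hs1 : Summable fun γ : Mat => kk γ z w τ := hs.of_norm
  have e1 : (∑' γ : Mat, open Classical in if γ.det = m then kk γ z w τ else 0) =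
      ∑' γ : {γ : Mat // γ.det = (m : ℤ)}, kk γ.1 z w τ := by
    have := tsum_subtype {γ : Mat | γ.det = (m : ℤ)} (fun γ => kk γ z w τ)
    refine Eq.trans ?_ this.symm
    refine tsum_congr ?_
    intro γ
    by_cases h : γ.det = (m : ℤ)
    · rw [if_pos h, indicator_of_mem (show γ ∈ {γ : Mat | γ.det = (m : ℤ)} from h)]
    · rw [if_neg h, indicator_of_notMem (show γ ∉ {γ : Mat | γ.det = (m : ℤ)} from h)]
  have e2 : ∑' γ : {γ : Mat // γ.det = (m : ℤ)}, kk γ.1 z w τ =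
      ∑' p : SL(2, ℤ) × {x // x ∈ SS m}, kk (del m p.2.1 * (p.1 : Mat)) z w τ := by
    exact ((Equiv.ofBijective (par m) ⟨par_inj m, par_surj m hm⟩).tsum_eq
      (fun γ : {γ : Mat // γ.det = (m : ℤ)} => kk γ.1 z w τ)).symm
  have hs2 : Summable fun p : SL(2, ℤ) × {x // x ∈ SS m} =>
      kk (del m p.2.1 * (p.1 : Mat)) z w τ := by
    have hinj : Function.Injective fun p : SL(2, ℤ) × {x // x ∈ SS m} =>
        del m p.2.1 * (p.1 : Mat) := by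
      intro p q hpq
      exact par_inj m (Subtype.ext hpq)
    exact hs1.comp_injective hinj
  rw [e1, e2, hs2.tsum_prod]
  refine tsum_congr ?_
  intro A
  rw [tsum_fintype]
  rw [← Finset.sum_coe_sort (SS m) (fun x => kk (del m x) z w ((A • τ : ℍ) : ℂ))]
  refine Finset.sum_congr rfl ?_
  intro x _
  exact kk_mul _ _ _ _ _

variable {f : ℍ → ℝ} {t : ℝ}

lemma continuous_form (hf : IsHeckeMaass f t) : Continuous f := by
  have h1 : Continuous fun z : ℍ => ext f (z : ℂ) :=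
    hf.smooth.continuousOn.comp_continuous UpperHalfPlane.continuous_coe fun z => z.im_pos
  have h2 : (fun z : ℍ => ext f (z : ℂ)) = f := funext (ext_coe f)
  rwa [h2] at h1

/-- integrability of one term -/
lemma term_int (hSel : StmtSel) (hf : IsHeckeMaass f t) (hb : ∃ C : ℝ, ∀ z, |f z| ≤ C) (m : ℕ)
    (hm : 1 ≤ m) (z w : ℍ) (x : {x // x ∈ SS m}) :
    (Integrable fun σ : ℍ => z.im * (ext f ((((m / x.1.1 : ℕ) : ℂ) * σ +
        (x.1.2 : ℂ)) / (x.1.1 : ℂ)) * Real.exp (-(2 * Real.pi * m * z.im *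
          Real.cosh (dist σ w))))) ∧
    Integrable (fun τ : ℍ => kk (del m x.1) z w τ * (f τ : ℂ)) ∧
    ∫ τ : ℍ, kk (del m x.1) z w τ * (f τ : ℂ) =
      ee ((m : ℂ) * (z.re : ℂ)) * ((∫ σ : ℍ, z.im * (ext f ((((m / x.1.1 : ℕ) : ℂ) * σ +
        (x.1.2 : ℂ)) / (x.1.1 : ℂ)) * Real.exp (-(2 * Real.pi * m * z.im *
          Real.cosh (dist σ w)))) : ℝ) : ℂ) := by
  have hX : 0 < 2 * Real.pi * m * z.im := by
    have h1 : (0 : ℝ) < m := by exact_mod_cast (by omega : 0 < m)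
    have h2 := z.im_pos
    positivity
  obtain ⟨hint, -⟩ := hSel f t hf.smooth hb hf.eigen _ hX w
  obtain ⟨C, hC⟩ := hb
  have hcf := continuous_form hf
  have hmp := measurePreserving_smul (gg m x) (volume : Measure ℍ)
  have hme := measurableEmbedding_const_smul (α := ℍ) (gg m x)
  have hcomp : ∀ σ : ℍ, kk (del m x.1) z w ((gg m x • σ : ℍ) : ℂ) * (f (gg m x • σ) : ℂ) =
      ee ((m : ℂ) * (z.re : ℂ)) * ((z.im * (ext f ((((m / x.1.1 : ℕ) : ℂ) * σ +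
        (x.1.2 : ℂ)) / (x.1.1 : ℂ)) * Real.exp (-(2 * Real.pi * m * z.im *
          Real.cosh (dist σ w)))) : ℝ) : ℂ) := by
    intro σ
    rw [kk_gg, ← gg_smul m x σ, ext_coe]
    push_cast
    ring
  have hintR : Integrable fun σ : ℍ => z.im * (ext f ((((m / x.1.1 : ℕ) : ℂ) * σ +
        (x.1.2 : ℂ)) / (x.1.1 : ℂ)) * Real.exp (-(2 * Real.pi * m * z.im *
          Real.cosh (dist σ w)))) := by
    apply Integrable.const_mul
    have hmeas : AEStronglyMeasurable (fun σ : ℍ => ext f ((((m / x.1.1 : ℕ) : ℂ) * σ +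
        (x.1.2 : ℂ)) / (x.1.1 : ℂ))) volume := by
      have h1 : (fun σ : ℍ => ext f ((((m / x.1.1 : ℕ) : ℂ) * σ +
        (x.1.2 : ℂ)) / (x.1.1 : ℂ))) = fun σ : ℍ => f (gg m x • σ) := by
        funext σ
        rw [← gg_smul m x σ, ext_coe]
      rw [h1]
      exact (hcf.measurable.comp hmp.measurable).aestronglyMeasurable
    refine hint.bdd_mul (c := C) hmeas (Eventually.of_forall fun σ => ?_)
    rw [← gg_smul m x σ, ext_coe, Real.norm_eq_abs]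
    exact hC _
  refine ⟨hintR, ?_, ?_⟩
  · rw [← hmp.integrable_comp_emb hme]
    have h2 : ((fun τ : ℍ => kk (del m x.1) z w τ * (f τ : ℂ)) ∘ fun σ : ℍ => gg m x • σ) =
        fun σ : ℍ => ee ((m : ℂ) * (z.re : ℂ)) * ((z.im * (ext f ((((m / x.1.1 : ℕ) : ℂ) * σ +
        (x.1.2 : ℂ)) / (x.1.1 : ℂ)) * Real.exp (-(2 * Real.pi * m * z.im *
          Real.cosh (dist σ w)))) : ℝ) : ℂ) := by
      funext σ
      exact hcomp σ
    rw [h2]
    exact hintR.ofReal.const_mul _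
  · rw [← hmp.integral_comp hme]
    rw [integral_congr_ae (Eventually.of_forall hcomp), integral_const_mul,
      integral_complex_ofReal]

end PpM

open PpM in
theorem stmtPp (hUL : StmtUL) (hAbs : StmtAbs) (hSel : StmtSel) (hDec : StmtDec) : StmtPp := by
  intro f t hf m c hm hc z w
  obtain ⟨C, c0, -, -, hC⟩ := hDec f t hf
  have hb : ∃ C : ℝ, ∀ z, |f z| ≤ C := ⟨C, hC⟩
  have hX : 0 < 2 * Real.pi * m * z.im := by
    have h1 : (0 : ℝ) < m := by exact_mod_cast (by omega : 0 < m)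
    have h2 := z.im_pos
    positivity
  -- the unfolding
  obtain ⟨G, hG⟩ : ∃ G : ℍ → ℂ, G = fun τ : ℍ =>
    ∑ x ∈ SS m, kk (del m x) z w τ * (f τ : ℂ) := ⟨_, rfl⟩
  have hGint : Integrable G := by
    rw [hG]
    refine integrable_finsetSum _ ?_
    intro x hx
    exact (term_int hSel hf hb m hm z w ⟨x, hx⟩).2.1
  have hu := (hUL.2 G hGint).2.2
  have hpt : ∀ τ : ℍ, (∑' γ : Mat, open Classical in
      if γ.det = m then kk γ z w τ else 0) * (f τ : ℂ) = ∑' A : SL(2, ℤ), G (A • τ) := by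
    intro τ
    rw [tsum_det m hm z w τ ((hAbs f t hf z w).1 τ), ← tsum_mul_right]
    refine tsum_congr ?_
    intro A
    rw [hG]
    simp only
    rw [Finset.sum_mul, hf.invariant A τ]
  have e1 : ∫ τ in ModularGroup.fdo, (∑' γ : Mat, open Classical in
      if γ.det = m then kk γ z w τ else 0) * (f τ : ℂ) = 2 * ∫ τ : ℍ, G τ := by
    rw [← hu]
    exact integral_congr_ae (Eventually.of_forall hpt)
  have e2 : ∫ τ : ℍ, G τ = ee ((m : ℂ) * (z.re : ℂ)) * ((∑ x ∈ SS m,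
      ∫ σ : ℍ, z.im * (ext f ((((m / x.1 : ℕ) : ℂ) * σ +
        (x.2 : ℂ)) / (x.1 : ℂ)) * Real.exp (-(2 * Real.pi * m * z.im *
          Real.cosh (dist σ w)))) : ℝ) : ℂ) := by
    rw [hG, integral_finsetSum _ fun x hx => (term_int hSel hf hb m hm z w ⟨x, hx⟩).2.1,
      Complex.ofReal_sum, Finset.mul_sum]
    refine Finset.sum_congr rfl ?_
    intro x hx
    exact (term_int hSel hf hb m hm z w ⟨x, hx⟩).2.2
  have e3 : ∑ x ∈ SS m, ∫ σ : ℍ, z.im * (ext f ((((m / x.1 : ℕ) : ℂ) * σ +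
        (x.2 : ℂ)) / (x.1 : ℂ)) * Real.exp (-(2 * Real.pi * m * z.im *
          Real.cosh (dist σ w)))) = z.im * (c * (2 * √(2 * Real.pi) *
          KB t (2 * Real.pi * m * z.im) / √(2 * Real.pi * m * z.im) * f w)) := by
    rw [← integral_finsetSum _ fun x hx => (term_int hSel hf hb m hm z w ⟨x, hx⟩).1]
    rw [← (hSel f t hf.smooth hb hf.eigen _ hX w).2, ← integral_const_mul, ← integral_const_mul]
    refine integral_congr_ae (Eventually.of_forall fun σ => ?_)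
    simp only
    rw [← Finset.mul_sum, ← Finset.sum_mul]
    congr 1
    have h1 : ∑ x ∈ SS m, ext f ((((m / x.1 : ℕ) : ℂ) * σ + (x.2 : ℂ)) / (x.1 : ℂ)) =
        c * f σ := by
      rw [← hc σ]
      unfold SS
      rw [Finset.sum_sigma]
    rw [h1, mul_assoc]
  rw [e1, e2, e3]
  have hy := z.im_pos
  have hm0 : (0 : ℝ) < m := by exact_mod_cast (by omega : 0 < m)
  have hr1 : √(2 * Real.pi * m * z.im) = √(2 * Real.pi) * √(m * z.im) := by
    rw [mul_assoc, Real.sqrt_mul (by positivity)]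
  have hr2 : √(z.im / m) * √(m * z.im) = z.im := by
    rw [← Real.sqrt_mul (by positivity)]
    have : z.im / m * (m * z.im) = z.im ^ 2 := by
      field_simp
    rw [this, Real.sqrt_sq hy.le]
  have hr3 : √(2 * Real.pi) ≠ 0 := (Real.sqrt_pos.2 (by positivity)).ne'
  have hr4 : √(m * z.im) ≠ 0 := (Real.sqrt_pos.2 (by positivity)).ne'
  have e4 : 2 * (z.im * (c * (2 * √(2 * Real.pi) *
          KB t (2 * Real.pi * m * z.im) / √(2 * Real.pi * m * z.im) * f w))) =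
      4 * c * √(z.im / m) * KB t (2 * Real.pi * m * z.im) * f w := by
    rw [hr1]
    generalize KB t (2 * Real.pi * m * z.im) = K
    generalize √(2 * Real.pi) = s0 at hr3
    generalize √(m * z.im) = s1 at hr2 hr4
    generalize √(z.im / m) = s2 at hr2
    rw [← hr2]
    field_simp
    ring
  rw [← e4]
  push_cast
  ring

end

end Pool.Agent.A54.Av
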