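import Pool.Agent.Lib.MP_a54f13_nt.Av.SpecA
import Pool.Agent.Lib.MP_a54f13_nt.IntLap
import Pool.Agent.Lib.MP_a54f13_nt.Pl.U1

/-!
The pairing of the theta series with a form: matrices of rank one.
-/

set_option autoImplicit false

namespace Pool.Agent.A54.Av

open MeasureTheory Filter Topology Set
open scoped ContDiff ComplexConjugate UpperHalfPlane MatrixGroups ENNReal
open Pool.Agent.A54.Half (H0 qq ff hh)

noncomputable section

namespace PrM

/-- the column matrix -/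
def dl (p : ℤ × ℤ) : Mat := !![0, p.1; 0, p.2]

/-- the product of a column and the bottom row of `A` -/
def Ph' (p : ℤ × ℤ) (A : SL(2, ℤ)) : Mat :=
  !![p.1 * A 1 0, p.1 * A 1 1; p.2 * A 1 0, p.2 * A 1 1]

lemma kk_Ph (p : ℤ × ℤ) (A : SL(2, ℤ)) (z w τ : ℍ) :
    kk (Ph' p A) z w τ = kk (dl p) z w ((A • τ : ℍ) : ℂ) := by
  have h1 : (Ph' p A).det = 0 := by
    simp [Ph', Matrix.det_fin_two]
    ring
  have h2 : (dl p).det = 0 := by
    simp [dl, Matrix.det_fin_two]
  have h3 : VV (Ph' p A) w τ = VV (dl p) w ((A • τ : ℍ) : ℂ) := by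
    have him : (A • τ).im = τ.im / Complex.normSq ((A 1 0 : ℂ) * τ + A 1 1) := by
      rw [ModularGroup.im_smul_eq_div_normSq, ModularGroup.denom_apply]
    have hne : ((A 1 0 : ℂ) * τ + A 1 1) ≠ 0 := by
      have := UpperHalfPlane.denom_ne_zero (A : GL (Fin 2) ℝ) τ
      rwa [ModularGroup.denom_apply] at this
    have hn : Complex.normSq ((A 1 0 : ℂ) * τ + A 1 1) ≠ 0 := by
      rwa [Ne, Complex.normSq_eq_zero]
    unfold VV
    rw [UpperHalfPlane.coe_im, UpperHalfPlane.coe_im, UpperHalfPlane.coe_im, him]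
    have e1 : (((Ph' p A) 0 0 : ℤ) : ℂ) * τ + (((Ph' p A) 0 1 : ℤ) : ℂ) -
        w * ((((Ph' p A) 1 0 : ℤ) : ℂ) * τ + (((Ph' p A) 1 1 : ℤ) : ℂ)) =
        ((p.1 : ℂ) - w * p.2) * ((A 1 0 : ℂ) * τ + A 1 1) := by
      simp [Ph']
      ring
    have e2 : (((dl p) 0 0 : ℤ) : ℂ) * ((A • τ : ℍ) : ℂ) + (((dl p) 0 1 : ℤ) : ℂ) -
        w * ((((dl p) 1 0 : ℤ) : ℂ) * ((A • τ : ℍ) : ℂ) + (((dl p) 1 1 : ℤ) : ℂ)) =
        ((p.1 : ℂ) - w * p.2) := by
      simp [dl]
    rw [e1, e2, norm_mul, mul_pow, ← Complex.normSq_eq_norm_sq ((A 1 0 : ℂ) * τ + A 1 1)]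
    have hw := w.im_ne_zero
    have ht := τ.im_ne_zero
    field_simp
  unfold kk
  rw [h1, h2, h3]

lemma Ph_neg (p : ℤ × ℤ) (A : SL(2, ℤ)) : Ph' (-p) (-A) = Ph' p A := by
  ext i j
  fin_cases i <;> fin_cases j <;> simp [Ph']

lemma Ph_det (p : ℤ × ℤ) (A : SL(2, ℤ)) : (Ph' p A).det = 0 := by
  simp [Ph', Matrix.det_fin_two]
  ring

lemma row_ne (A : SL(2, ℤ)) : A 1 0 ≠ 0 ∨ A 1 1 ≠ 0 := by
  by_contra h
  push Not at h
  have := A.det_coe
  rw [Matrix.det_fin_two] at this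
  have h1 : (A : Mat) 1 0 = 0 := h.1
  have h2 : (A : Mat) 1 1 = 0 := h.2
  rw [h1, h2] at this
  simp at this

lemma Ph_ne {p : ℤ × ℤ} (hp : p ≠ 0) (A : SL(2, ℤ)) : Ph' p A ≠ 0 := by
  intro h
  have h00 := congrFun (congrFun h 0) 0
  have h01 := congrFun (congrFun h 0) 1
  have h10 := congrFun (congrFun h 1) 0
  have h11 := congrFun (congrFun h 1) 1
  simp [Ph'] at h00 h01 h10 h11
  apply hp
  rcases row_ne A with h1 | h1
  · ext
    · simpa [h1] using h00
    · simpa [h1] using h10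
  · ext
    · simpa [h1] using h01
    · simpa [h1] using h11

/-- surjectivity -/
lemma surj (τ : ℍ) {γ : Mat} (h0 : γ.det = 0) (hne : γ ≠ 0) :
    ∃ (p : ℤ × ℤ) (A : SL(2, ℤ)), p ≠ 0 ∧ (A • τ).re ∈ Ico (0 : ℝ) 1 ∧ Ph' p A = γ := by
  -- a primitive vector
  have key : ∃ c d u v p q : ℤ, u * c + v * d = 1 ∧ γ = !![p * c, p * d; q * c, q * d] := by
    rw [Matrix.det_fin_two] at h0
    have hg : (0 < Int.gcd (γ 0 0) (γ 0 1)) ∨ (0 < Int.gcd (γ 1 0) (γ 1 1)) := by
      by_contra hcon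
      push Not at hcon
      have h1 := Int.gcd_eq_zero_iff.mp (Nat.le_zero.mp hcon.1)
      have h2 := Int.gcd_eq_zero_iff.mp (Nat.le_zero.mp hcon.2)
      apply hne
      ext i j
      fin_cases i <;> fin_cases j
      · exact h1.1
      · exact h1.2
      · exact h2.1
      · exact h2.2
    rcases hg with hg | hg
    · obtain ⟨c, d, hcd, hc, hd⟩ := Int.exists_gcd_one hg
      have hcop : IsCoprime c d := Int.isCoprime_iff_gcd_eq_one.mpr hcd
      obtain ⟨u, v, huv⟩ := hcop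
      set g : ℤ := (Int.gcd (γ 0 0) (γ 0 1) : ℤ) with hgdef
      have hg0 : g ≠ 0 := by
        rw [hgdef]
        exact_mod_cast hg.ne'
      have hcross : c * γ 1 1 = d * γ 1 0 := by
        have : g * (c * γ 1 1 - d * γ 1 0) = 0 := by
          linear_combination h0 - hc * γ 1 1 + hd * γ 1 0
        rcases mul_eq_zero.mp this with h | h
        · exact absurd h hg0
        · linarith
      refine ⟨c, d, u, v, g, u * γ 1 0 + v * γ 1 1, huv, ?_⟩
      ext i j
      fin_cases i <;> fin_cases j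
      · simp
        linarith
      · simp
        linarith
      · simp
        linear_combination (-γ 1 0) * huv - v * hcross
      · simp
        linear_combination (-γ 1 1) * huv + u * hcross
    · obtain ⟨c, d, hcd, hc, hd⟩ := Int.exists_gcd_one hg
      have hcop : IsCoprime c d := Int.isCoprime_iff_gcd_eq_one.mpr hcd
      obtain ⟨u, v, huv⟩ := hcop
      set g : ℤ := (Int.gcd (γ 1 0) (γ 1 1) : ℤ) with hgdef
      have hg0 : g ≠ 0 := by
        rw [hgdef]
        exact_mod_cast hg.ne'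
      have hcross : c * γ 0 1 = d * γ 0 0 := by
        have : g * (c * γ 0 1 - d * γ 0 0) = 0 := by
          linear_combination -h0 - hc * γ 0 1 + hd * γ 0 0
        rcases mul_eq_zero.mp this with h | h
        · exact absurd h hg0
        · linarith
      refine ⟨c, d, u, v, u * γ 0 0 + v * γ 0 1, g, huv, ?_⟩
      ext i j
      fin_cases i <;> fin_cases j
      · simp
        linear_combination (-γ 0 0) * huv - v * hcross
      · simp
        linear_combination (-γ 0 1) * huv + u * hcross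
      · simp
        linarith
      · simp
        linarith
  obtain ⟨c, d, u, v, p, q, huv, hγ⟩ := key
  let A0 : SL(2, ℤ) := ⟨!![v, -u; c, d], by rw [Matrix.det_fin_two]; simp; linarith⟩
  let n : ℤ := -⌊(A0 • τ).re⌋
  refine ⟨(p, q), ModularGroup.T ^ n * A0, ?_, ?_, ?_⟩
  · intro h
    have h1 : p = 0 := congrArg Prod.fst h
    have h2 : q = 0 := congrArg Prod.snd h
    apply hne
    rw [hγ, h1, h2]
    ext i j
    fin_cases i <;> fin_cases j <;> simp
  · rw [mul_smul, ModularGroup.re_T_zpow_smul]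
    have h1 := Int.floor_le (A0 • τ).re
    have h2 := Int.lt_floor_add_one (A0 • τ).re
    constructor
    · simp only [n]
      push_cast
      linarith
    · simp only [n]
      push_cast
      linarith
  · have h1 : (ModularGroup.T ^ n * A0) 1 = A0 1 := ModularGroup.T_pow_mul_apply_one n A0
    have h2 : (ModularGroup.T ^ n * A0) 1 0 = c := by rw [h1]; rfl
    have h3 : (ModularGroup.T ^ n * A0) 1 1 = d := by rw [h1]; rfl
    unfold Ph'
    rw [h2, h3, hγ]

/-- uniqueness -/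
lemma uniq (τ : ℍ) {p p' : ℤ × ℤ} {A A' : SL(2, ℤ)} (hp : p ≠ 0)
    (hA : (A • τ).re ∈ Ico (0 : ℝ) 1) (hA' : (A' • τ).re ∈ Ico (0 : ℝ) 1)
    (h : Ph' p' A' = Ph' p A) : (p' = p ∧ A' = A) ∨ (p' = -p ∧ A' = -A) := by
  have h00 := congrFun (congrFun h 0) 0
  have h01 := congrFun (congrFun h 0) 1
  have h10 := congrFun (congrFun h 1) 0
  have h11 := congrFun (congrFun h 1) 1
  simp only [Ph', Matrix.of_apply, Matrix.cons_val', Matrix.cons_val_zero, Matrix.cons_val_one,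
    Matrix.cons_val_fin_one] at h00 h01 h10 h11
  have hcross : A' 1 0 * A 1 1 - A' 1 1 * A 1 0 = 0 := by
    have e1 : p.1 * (A' 1 0 * A 1 1 - A' 1 1 * A 1 0) = 0 := by
      linear_combination (-A' 1 0) * h01 + A' 1 1 * h00
    have e2 : p.2 * (A' 1 0 * A 1 1 - A' 1 1 * A 1 0) = 0 := by
      linear_combination (-A' 1 0) * h11 + A' 1 1 * h10
    by_contra hne
    apply hp
    ext
    · exact (mul_eq_zero.mp e1).resolve_right hne
    · exact (mul_eq_zero.mp e2).resolve_right hne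
  have hdA : A 0 0 * A 1 1 - A 0 1 * A 1 0 = 1 := by
    have := A.det_coe
    rwa [Matrix.det_fin_two] at this
  have hdA' : A' 0 0 * A' 1 1 - A' 0 1 * A' 1 0 = 1 := by
    have := A'.det_coe
    rwa [Matrix.det_fin_two] at this
  -- the quotient
  obtain ⟨a, b, e, hae, q00, q01, q10, q11⟩ : ∃ a b e : ℤ, a * e = 1 ∧
      A' 0 0 = a * A 0 0 + b * A 1 0 ∧ A' 0 1 = a * A 0 1 + b * A 1 1 ∧
      A' 1 0 = e * A 1 0 ∧ A' 1 1 = e * A 1 1 := by
    refine ⟨A' 0 0 * A 1 1 - A' 0 1 * A 1 0, -A' 0 0 * A 0 1 + A' 0 1 * A 0 0,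
      -A' 1 0 * A 0 1 + A' 1 1 * A 0 0, ?_, ?_, ?_, ?_, ?_⟩
    · linear_combination (A 0 0 * A 1 1 - A 0 1 * A 1 0) * hdA' + hdA +
        (-A' 0 0 * A 0 1 + A' 0 1 * A 0 0) * hcross
    · linear_combination (-A' 0 0) * hdA
    · linear_combination (-A' 0 1) * hdA
    · linear_combination (-A' 1 0) * hdA + A 0 0 * hcross
    · linear_combination (-A' 1 1) * hdA + A 0 1 * hcross
  rcases Int.eq_one_or_neg_one_of_mul_eq_one' hae with ⟨ha, he⟩ | ⟨ha, he⟩
  · left
    have hT : A' = ModularGroup.T ^ b * A := by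
      apply Subtype.ext
      rw [Matrix.SpecialLinearGroup.coe_mul, ModularGroup.coe_T_zpow]
      ext i j
      fin_cases i <;> fin_cases j
      · simp [Matrix.mul_apply, Matrix.vecMul, dotProduct, Fin.sum_univ_succ]
        rw [q00, ha, one_mul]
      · simp [Matrix.mul_apply, Matrix.vecMul, dotProduct, Fin.sum_univ_succ]
        rw [q01, ha, one_mul]
      · simp [Matrix.mul_apply, Matrix.vecMul, dotProduct, Fin.sum_univ_succ]
        rw [q10, he, one_mul]
      · simp [Matrix.mul_apply, Matrix.vecMul, dotProduct, Fin.sum_univ_succ]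
        rw [q11, he, one_mul]
    have hre : (A' • τ).re = (A • τ).re + b := by
      rw [hT, mul_smul, ModularGroup.re_T_zpow_smul]
    have hb : b = 0 := by
      have h1 : (b : ℝ) < 1 := by linarith [hA.1, hA'.2]
      have h2 : (-1 : ℝ) < b := by linarith [hA.2, hA'.1]
      have h3 : b < 1 := by exact_mod_cast h1
      have h4 : -1 < b := by exact_mod_cast h2
      omega
    have hAA : A' = A := by
      rw [hT, hb, zpow_zero, one_mul]
    refine ⟨?_, hAA⟩
    rw [hAA] at h00 h01 h10 h11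
    rcases row_ne A with h1 | h1
    · ext
      · exact mul_right_cancel₀ h1 h00
      · exact mul_right_cancel₀ h1 h10
    · ext
      · exact mul_right_cancel₀ h1 h01
      · exact mul_right_cancel₀ h1 h11
  · right
    have hT : A' = -(ModularGroup.T ^ (-b) * A) := by
      apply Subtype.ext
      rw [Matrix.SpecialLinearGroup.coe_neg, Matrix.SpecialLinearGroup.coe_mul,
        ModularGroup.coe_T_zpow]
      ext i j
      fin_cases i <;> fin_cases j
      · simp [Matrix.mul_apply, Matrix.vecMul, dotProduct, Fin.sum_univ_succ]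
        rw [q00, ha]
        ring
      · simp [Matrix.mul_apply, Matrix.vecMul, dotProduct, Fin.sum_univ_succ]
        rw [q01, ha]
        ring
      · simp [Matrix.mul_apply, Matrix.vecMul, dotProduct, Fin.sum_univ_succ]
        rw [q10, he]
        ring
      · simp [Matrix.mul_apply, Matrix.vecMul, dotProduct, Fin.sum_univ_succ]
        rw [q11, he]
        ring
    have hre : (A' • τ).re = (A • τ).re - b := by
      rw [hT, ModularGroup.SL_neg_smul, mul_smul, ModularGroup.re_T_zpow_smul]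
      push_cast
      ring
    have hb : b = 0 := by
      have h1 : (b : ℝ) < 1 := by linarith [hA.2, hA'.1]
      have h2 : (-1 : ℝ) < b := by linarith [hA.1, hA'.2]
      have h3 : b < 1 := by exact_mod_cast h1
      have h4 : -1 < b := by exact_mod_cast h2
      omega
    have hAA : A' = -A := by
      rw [hT, hb, neg_zero, zpow_zero, one_mul]
    refine ⟨?_, hAA⟩
    have n0 : A' 1 0 = -A 1 0 := by rw [hAA]; rfl
    have n1 : A' 1 1 = -A 1 1 := by rw [hAA]; rfl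
    rw [n0] at h00 h10
    rw [n1] at h01 h11
    rcases row_ne A with h1 | h1
    · ext
      · exact mul_right_cancel₀ h1 (by simp; linarith)
      · exact mul_right_cancel₀ h1 (by simp; linarith)
    · ext
      · exact mul_right_cancel₀ h1 (by simp; linarith)
      · exact mul_right_cancel₀ h1 (by simp; linarith)

/-- the parameters -/
abbrev SS (τ : ℍ) : Type :=
  {x : SL(2, ℤ) × (ℤ × ℤ) // x.2 ≠ 0 ∧ (x.1 • τ).re ∈ Ico (0 : ℝ) 1}

/-- matrices of rank one -/
abbrev R1 : Type := {γ : Mat // γ.det = 0 ∧ γ ≠ 0}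

/-- the map to the matrices of rank one -/
def pr (τ : ℍ) (x : SS τ) : R1 := ⟨Ph' x.1.2 x.1.1, Ph_det _ _, Ph_ne x.2.1 _⟩

lemma fib (τ : ℍ) (γ : R1) : ∃ x0 x1 : SS τ, x0 ≠ x1 ∧ ∀ x, pr τ x = γ ↔ x = x0 ∨ x = x1 := by
  obtain ⟨p, A, hp, hA, h⟩ := surj τ γ.2.1 γ.2.2
  have hA' : ((-A) • τ).re ∈ Ico (0 : ℝ) 1 := by
    rw [ModularGroup.SL_neg_smul]
    exact hA
  refine ⟨⟨(A, p), hp, hA⟩, ⟨(-A, -p), neg_ne_zero.mpr hp, hA'⟩, ?_, ?_⟩
  · intro hcon
    have h1 : p = -p := congrArg (fun x : SS τ => x.1.2) hcon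
    apply hp
    have e1 : p.1 = -p.1 := congrArg Prod.fst h1
    have e2 : p.2 = -p.2 := congrArg Prod.snd h1
    ext
    · simp
      omega
    · simp
      omega
  · rintro ⟨⟨B, q⟩, hq, hB⟩
    constructor
    · intro hx
      have h1 : Ph' q B = Ph' p A := by
        rw [h]
        exact congrArg Subtype.val hx
      rcases uniq τ hp hA hB h1 with ⟨e1, e2⟩ | ⟨e1, e2⟩
      · left
        subst e1 e2
        rfl
      · right
        subst e1 e2
        rfl
    · rintro (hx | hx)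
      · rw [hx]
        exact Subtype.ext h
      · rw [hx]
        apply Subtype.ext
        change Ph' (-p) (-A) = γ.1
        rw [Ph_neg, h]

lemma tsum_fib {E : Type*} [AddCommMonoid E] [TopologicalSpace E] [T2Space E] (τ : ℍ) (F : Mat → E)
    (γ : R1) : ∑' c : {x // pr τ x = γ}, F (pr τ c.1).1 = F γ.1 + F γ.1 := by
  classical
  obtain ⟨x0, x1, hne, hx⟩ := fib τ γ
  have hset : {x | pr τ x = γ} = (({x0, x1} : Finset (SS τ)) : Set (SS τ)) := by
    ext x
    simp only [Set.mem_ofPred_eq, Finset.coe_insert, Finset.coe_singleton, mem_insert_iff,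
      mem_singleton_iff]
    exact hx x
  have h1 : ∀ c : {x // pr τ x = γ}, F (pr τ c.1).1 = F γ.1 := fun c => by rw [c.2]
  calc ∑' c : {x // pr τ x = γ}, F (pr τ c.1).1
      = ∑' _c : {x // pr τ x = γ}, F γ.1 := tsum_congr h1
    _ = ∑' c : ({x | pr τ x = γ} : Set (SS τ)), (fun _ => F γ.1) (c : SS τ) := rfl
    _ = ∑' c : ((({x0, x1} : Finset (SS τ)) : Set (SS τ)) : Set (SS τ)),
          (fun _ => F γ.1) (c : SS τ) := by rw [hset]
    _ = ∑ c ∈ ({x0, x1} : Finset (SS τ)), (fun _ => F γ.1) c :=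
        Finset.tsum_subtype' ({x0, x1} : Finset (SS τ)) (fun _ => F γ.1)
    _ = F γ.1 + F γ.1 := Finset.sum_pair hne

lemma main_enn (τ : ℍ) (F : Mat → ℝ≥0∞) :
    ∑' x : SS τ, F (pr τ x).1 = 2 * ∑' γ : R1, F γ.1 := by
  rw [← (Equiv.sigmaFiberEquiv (pr τ)).tsum_eq, ENNReal.tsum_sigma', ← ENNReal.tsum_mul_left]
  refine tsum_congr fun γ => ?_
  rw [two_mul]
  exact tsum_fib τ F γ

lemma main_C (τ : ℍ) (F : Mat → ℂ) (hF : Summable fun γ => ‖F γ‖) :
    Summable (fun x : SS τ => F (pr τ x).1) ∧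
    ∑' x : SS τ, F (pr τ x).1 = 2 * ∑' γ : R1, F γ.1 := by
  have h0 : Summable fun γ : R1 => ‖F γ.1‖ := hF.comp_injective Subtype.val_injective
  have h1 : ∑' x : SS τ, ‖F (pr τ x).1‖ₑ ≠ ⊤ := by
    rw [main_enn τ (fun γ => ‖F γ‖ₑ)]
    exact ENNReal.mul_ne_top (by norm_num) (tsum_enorm_ne_top_iff_summable_norm.mpr h0)
  have h2 : Summable (fun x : SS τ => F (pr τ x).1) :=
    (tsum_enorm_ne_top_iff_summable_norm.mp h1).of_norm
  refine ⟨h2, ?_⟩
  have h3 : Summable (fun x : (Σ γ : R1, {x // pr τ x = γ}) =>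
      F (pr τ (Equiv.sigmaFiberEquiv (pr τ) x)).1) :=
    (Equiv.sigmaFiberEquiv (pr τ)).summable_iff.mpr h2
  rw [← (Equiv.sigmaFiberEquiv (pr τ)).tsum_eq, h3.tsum_sigma, ← tsum_mul_left]
  refine tsum_congr fun γ => ?_
  rw [two_mul]
  exact tsum_fib τ F γ

open Classical in
lemma dbl {E : Type*} [AddCommMonoid E] [TopologicalSpace E] (τ : ℍ) (F : Mat → E) :
    ∑' x : SS τ, F (pr τ x).1 = ∑' x : SL(2, ℤ) × (ℤ × ℤ),
      if x.2 ≠ 0 ∧ (x.1 • τ).re ∈ Ico (0 : ℝ) 1 then F (Ph' x.2 x.1) else 0 := by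
  have e1 := tsum_subtype {x : SL(2, ℤ) × (ℤ × ℤ) | x.2 ≠ 0 ∧ (x.1 • τ).re ∈ Ico (0 : ℝ) 1}
    (fun x => F (Ph' x.2 x.1))
  refine Eq.trans ?_ (e1.trans ?_)
  · rfl
  · refine tsum_congr fun x => ?_
    rw [indicator_apply]
    rfl

/-- the sum over the columns -/
def G0 (z w τ : ℍ) : ℂ := ∑' p : ℤ × ℤ, if p ≠ 0 then kk (dl p) z w τ else 0

open Classical in
/-- the function which is unfolded -/
def GG (f : ℍ → ℝ) (z w τ : ℍ) : ℂ := if τ.re ∈ Ico (0 : ℝ) 1 then G0 z w τ * (f τ : ℂ) else 0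

open Classical in
/-- the norm -/
def gg' (f : ℍ → ℝ) (z w τ : ℍ) : ℝ≥0∞ := if τ.re ∈ Ico (0 : ℝ) 1 then
  (∑' p : ℤ × ℤ, if p ≠ 0 then ‖kk (dl p) z w τ‖ₑ else 0) * ‖f τ‖ₑ else 0

lemma sumG {f : ℍ → ℝ} {t : ℝ} (hf : IsHeckeMaass f t) {z w τ : ℍ}
    (hS : Summable fun γ : Mat => ‖kk γ z w τ‖) :
    ∑' A : SL(2, ℤ), GG f z w (A • τ) =
      2 * ((∑' γ : Mat, open Classical in if γ.det = 0 ∧ γ ≠ 0 then kk γ z w τ else 0) *
        (f τ : ℂ)) := by
  classical
  obtain ⟨h1, h2⟩ := main_C τ (fun γ => kk γ z w τ) hS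
  have h3 : (∑' γ : Mat, if γ.det = 0 ∧ γ ≠ 0 then kk γ z w τ else 0) =
      ∑' γ : R1, kk γ.1 z w τ := by
    have := tsum_subtype {γ : Mat | γ.det = 0 ∧ γ ≠ 0} (fun γ => kk γ z w τ)
    rw [show (∑' γ : R1, kk γ.1 z w τ) = ∑' x : ({γ : Mat | γ.det = 0 ∧ γ ≠ 0} : Set Mat),
      kk x z w τ from rfl, this]
    refine tsum_congr fun γ => ?_
    rw [indicator_apply]
    rfl
  have h4 : ∑' x : SS τ, kk (pr τ x).1 z w τ = ∑' A : SL(2, ℤ), ∑' p : ℤ × ℤ,
      if p ≠ 0 ∧ (A • τ).re ∈ Ico (0 : ℝ) 1 then kk (Ph' p A) z w τ else 0 := by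
    have e1 := tsum_subtype {x : SL(2, ℤ) × (ℤ × ℤ) | x.2 ≠ 0 ∧ (x.1 • τ).re ∈ Ico (0 : ℝ) 1}
      (fun x => kk (Ph' x.2 x.1) z w τ)
    have e2 : Summable ({x : SL(2, ℤ) × (ℤ × ℤ) | x.2 ≠ 0 ∧
        (x.1 • τ).re ∈ Ico (0 : ℝ) 1}.indicator (fun x => kk (Ph' x.2 x.1) z w τ)) :=
      summable_subtype_iff_indicator.mp h1
    rw [show (∑' x : SS τ, kk (pr τ x).1 z w τ) =
      ∑' x : ({x : SL(2, ℤ) × (ℤ × ℤ) | x.2 ≠ 0 ∧ (x.1 • τ).re ∈ Ico (0 : ℝ) 1} :
        Set (SL(2, ℤ) × (ℤ × ℤ))), kk (Ph' x.1.2 x.1.1) z w τ from rfl, e1, e2.tsum_prod]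
    refine tsum_congr fun A => tsum_congr fun p => ?_
    rw [indicator_apply]
    rfl
  rw [h3, ← mul_assoc, ← h2, h4, ← tsum_mul_right]
  refine tsum_congr fun A => ?_
  unfold GG G0
  rw [hf.invariant A τ]
  by_cases hA : (A • τ).re ∈ Ico (0 : ℝ) 1
  · rw [if_pos hA]
    congr 1
    refine tsum_congr fun p => ?_
    by_cases hp : p ≠ 0
    · rw [if_pos hp, if_pos ⟨hp, hA⟩, kk_Ph]
    · rw [if_neg hp, if_neg (fun h => hp h.1)]
  · rw [if_neg hA]
    have : ∀ p : ℤ × ℤ, (if p ≠ 0 ∧ (A • τ).re ∈ Ico (0 : ℝ) 1 then kk (Ph' p A) z w τ else 0) = 0 :=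
      fun p => if_neg (fun h => hA h.2)
    simp_rw [this]
    simp

lemma sumg {f : ℍ → ℝ} {t : ℝ} (hf : IsHeckeMaass f t) {z w τ : ℍ} :
    ∑' A : SL(2, ℤ), gg' f z w (A • τ) =
      2 * ((∑' γ : R1, ‖kk γ.1 z w τ‖ₑ) * ‖f τ‖ₑ) := by
  classical
  have h2 := main_enn τ (fun γ => ‖kk γ z w τ‖ₑ)
  have h4 : ∑' x : SS τ, ‖kk (pr τ x).1 z w τ‖ₑ = ∑' A : SL(2, ℤ), ∑' p : ℤ × ℤ,
      if p ≠ 0 ∧ (A • τ).re ∈ Ico (0 : ℝ) 1 then ‖kk (Ph' p A) z w τ‖ₑ else 0 := by
    rw [dbl τ (fun γ => ‖kk γ z w τ‖ₑ)]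
    exact ENNReal.tsum_prod (f := fun (A : SL(2, ℤ)) (p : ℤ × ℤ) =>
      if p ≠ 0 ∧ (A • τ).re ∈ Ico (0 : ℝ) 1 then ‖kk (Ph' p A) z w τ‖ₑ else 0)
  rw [← mul_assoc, ← h2, h4, ← ENNReal.tsum_mul_right]
  refine tsum_congr fun A => ?_
  unfold gg'
  rw [hf.invariant A τ]
  by_cases hA : (A • τ).re ∈ Ico (0 : ℝ) 1
  · rw [if_pos hA]
    congr 1
    refine tsum_congr fun p => ?_
    by_cases hp : p ≠ 0
    · rw [if_pos hp, if_pos ⟨hp, hA⟩, kk_Ph]
    · rw [if_neg hp, if_neg (fun h => hp h.1)]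
  · rw [if_neg hA]
    have : ∀ p : ℤ × ℤ, (if p ≠ 0 ∧ (A • τ).re ∈ Ico (0 : ℝ) 1 then ‖kk (Ph' p A) z w τ‖ₑ
        else 0) = 0 := fun p => if_neg (fun h => hA h.2)
    simp_rw [this]
    simp

lemma meas_kk (γ : Mat) (z w : ℍ) : Measurable (fun τ : ℍ => kk γ z w (τ : ℂ)) := by
  have h1 : Measurable (fun τ : ℍ => (τ : ℂ)) := UpperHalfPlane.continuous_coe.measurable
  have h2 : Measurable (fun τ : ℍ => VV γ w (τ : ℂ)) := by
    unfold VV
    fun_prop
  unfold kk
  fun_prop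

lemma meas_f {f : ℍ → ℝ} {t : ℝ} (hf : IsHeckeMaass f t) : Measurable f := by
  have h1 : Continuous f := by
    have h2 : f = fun z : ℍ => ext f (z : ℂ) := by
      funext z
      exact (Half.ext_coe f z).symm
    rw [h2]
    exact hf.smooth.continuousOn.comp_continuous UpperHalfPlane.continuous_coe
      (fun z => z.im_pos)
  exact h1.measurable

lemma meas_re : MeasurableSet {τ : ℍ | τ.re ∈ Ico (0 : ℝ) 1} :=
  UpperHalfPlane.continuous_re.measurable measurableSet_Ico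

lemma meas_g {f : ℍ → ℝ} {t : ℝ} (hf : IsHeckeMaass f t) (z w : ℍ) : Measurable (gg' f z w) := by
  classical
  have hfm := meas_f hf
  unfold gg'
  have hterm : ∀ p : ℤ × ℤ, Measurable (fun τ : ℍ => if p ≠ 0 then ‖kk (dl p) z w τ‖ₑ else 0) := by
    intro p
    by_cases hp : p ≠ 0
    · simp only [if_pos hp]
      exact (meas_kk _ z w).enorm
    · simp only [if_neg hp]
      exact measurable_const
  exact Measurable.ite meas_re (Measurable.mul (Measurable.tsum hterm) hfm.enorm)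
    measurable_const

lemma meas_G {f : ℍ → ℝ} {t : ℝ} (hf : IsHeckeMaass f t) (z w : ℍ) : Measurable (GG f z w) := by
  classical
  have hfm := meas_f hf
  unfold GG G0
  have hterm : ∀ p : ℤ × ℤ, Measurable (fun τ : ℍ => if p ≠ 0 then kk (dl p) z w τ else 0) := by
    intro p
    by_cases hp : p ≠ 0
    · simp only [if_pos hp]
      exact meas_kk _ z w
    · simp only [if_neg hp]
      exact measurable_const
  exact Measurable.ite meas_re (Measurable.mul (Measurable.tsum hterm)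
    (Complex.measurable_ofReal.comp hfm)) measurable_const

lemma G_le {f : ℍ → ℝ} (z w τ : ℍ) : ‖GG f z w τ‖ₑ ≤ gg' f z w τ := by
  classical
  unfold GG gg' G0
  by_cases h : τ.re ∈ Ico (0 : ℝ) 1
  · rw [if_pos h, if_pos h, enorm_mul]
    refine mul_le_mul' ?_ ?_
    · refine enorm_tsum_le_tsum_enorm.trans (le_of_eq (tsum_congr fun p => ?_))
      by_cases hp : p ≠ 0
      · rw [if_pos hp, if_pos hp]
      · rw [if_neg hp, if_neg hp, enorm_zero]
    · rw [← ofReal_norm, ← ofReal_norm, Complex.norm_real]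
  · rw [if_neg h, if_neg h, enorm_zero]

/-- the integral vanishes -/
lemma int_zero {f : ℍ → ℝ} {t : ℝ} (hf : IsHeckeMaass f t) (z w : ℍ) :
    ∫ τ : ℍ, GG f z w τ = 0 := by
  classical
  let H : ℝ → ℂ := fun y => ∑' p : ℤ × ℤ, if p ≠ 0 then kk (dl p) z w ((y : ℂ) * Complex.I) else 0
  let Gc : ℂ → ℂ := fun ζ => if ζ.re ∈ Ico (0 : ℝ) 1 then H ζ.im * (ext f ζ : ℂ) else 0
  have hG : ∀ τ : ℍ, GG f z w τ = Gc τ := by
    intro τ
    simp only [GG, Gc, G0, H, UpperHalfPlane.coe_re, Half.ext_coe]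
    have : ∀ p : ℤ × ℤ, kk (dl p) z w τ = kk (dl p) z w (((τ : ℂ).im : ℂ) * Complex.I) := by
      intro p
      simp [kk, VV, dl]
    simp only [this]
  simp_rw [hG]
  rw [IntLap.int_gen Gc, ← integral_indicator (measurableSet_lt measurable_const
    Complex.measurable_im)]
  set F : ℂ → ℂ := {z : ℂ | 0 < z.im}.indicator (fun z => (1 / z.im ^ 2 : ℝ) • Gc z) with hF
  have h1 := (Complex.volume_preserving_equiv_real_prod.symm _).integral_comp
    Complex.measurableEquivRealProd.symm.measurableEmbedding F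
  rw [← h1]
  by_cases hint : Integrable (fun x : ℝ × ℝ => F (Complex.measurableEquivRealProd.symm x))
  · rw [Measure.volume_eq_prod, integral_prod_symm _ hint]
    have h2 : ∀ y : ℝ, ∫ x : ℝ, F (Complex.measurableEquivRealProd.symm (x, y)) = 0 := by
      intro y
      by_cases hy : 0 < y
      · have h3 : (fun x : ℝ => F (Complex.measurableEquivRealProd.symm (x, y))) =
            (Ico (0 : ℝ) 1).indicator (fun x => ((1 / y ^ 2 : ℝ) • H y) *
              ((ext f ⟨x, y⟩ : ℝ) : ℂ)) := by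
          funext x
          have e1 : Complex.measurableEquivRealProd.symm (x, y) = (⟨x, y⟩ : ℂ) := rfl
          rw [e1, hF, indicator_of_mem (by exact hy)]
          simp only [Gc, indicator_apply]
          split_ifs with hx
          · rw [smul_mul_assoc]
          · rw [smul_zero]
        rw [h3, integral_indicator measurableSet_Ico, integral_const_mul]
        have h4 : ∫ x in Ico (0 : ℝ) 1, ((ext f ⟨x, y⟩ : ℝ) : ℂ) = 0 := by
          rw [integral_complex_ofReal, integral_Ico_eq_integral_Ioo, ← integral_Ioc_eq_integral_Ioo,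
            ← intervalIntegral.integral_of_le zero_le_one, hf.cuspidal y hy]
          simp
        rw [h4, mul_zero]
      · have h3 : ∀ x : ℝ, F (Complex.measurableEquivRealProd.symm (x, y)) = 0 := by
          intro x
          have e1 : Complex.measurableEquivRealProd.symm (x, y) = (⟨x, y⟩ : ℂ) := rfl
          rw [e1, hF, indicator_of_notMem (by exact hy)]
        rw [integral_congr_ae (Eventually.of_forall h3)]
        simp
    simp_rw [h2]
    simp
  · exact integral_undef hint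

end PrM

/-- **Pr** matrices of rank one -/
theorem stmtPr (hUL : StmtUL) (hAbs : StmtAbs) : StmtPr := by
  intro f t hf z w
  obtain ⟨hS, hI⟩ := hAbs f t hf z w
  have hSL := Pl.U1M.countable_sl
  -- integrability
  have hint : Integrable (PrM.GG f z w) := by
    refine ⟨(PrM.meas_G hf z w).aestronglyMeasurable, ?_⟩
    have h1 := hUL.1 (PrM.gg' f z w) (PrM.meas_g hf z w)
    simp_rw [PrM.sumg hf] at h1
    have h2 : ∫⁻ τ in ModularGroup.fdo, 2 * ((∑' γ : PrM.R1, ‖kk γ.1 z w τ‖ₑ) * ‖f τ‖ₑ) < ⊤ := by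
      have h3 : ∀ τ : ℍ, 2 * ((∑' γ : PrM.R1, ‖kk γ.1 z w τ‖ₑ) * ‖f τ‖ₑ) ≤
          2 * ‖(∑' γ : Mat, ‖kk γ z w τ‖) * |f τ|‖ₑ := by
        intro τ
        have e1 : ‖(∑' γ : Mat, ‖kk γ z w τ‖) * |f τ|‖ₑ = (∑' γ : Mat, ‖kk γ z w τ‖ₑ) * ‖f τ‖ₑ := by
          rw [enorm_mul]
          congr 1
          · rw [Real.enorm_eq_ofReal (tsum_nonneg fun _ => norm_nonneg _),
              ENNReal.ofReal_tsum_of_nonneg (fun _ => norm_nonneg _) (hS τ)]
            refine tsum_congr fun γ => ?_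
            rw [ofReal_norm]
          · rw [← ofReal_norm, ← ofReal_norm, Real.norm_eq_abs, Real.norm_eq_abs, abs_abs]
        rw [e1]
        refine mul_le_mul' le_rfl (mul_le_mul' ?_ le_rfl)
        exact ENNReal.tsum_comp_le_tsum_of_injective Subtype.val_injective _
      refine (lintegral_mono h3).trans_lt ?_
      rw [lintegral_const_mul' _ _ (by norm_num)]
      exact ENNReal.mul_lt_top (by norm_num) hI.2
    rw [h1] at h2
    have h4 : ∫⁻ τ : ℍ, PrM.gg' f z w τ < ⊤ := by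
      refine lt_of_le_of_lt ?_ h2
      rw [two_mul]
      exact le_self_add
    exact (lintegral_mono (PrM.G_le z w)).trans_lt h4
  have h5 := (hUL.2 (PrM.GG f z w) hint).2.2
  rw [PrM.int_zero hf z w, mul_zero] at h5
  simp_rw [PrM.sumG hf (hS _)] at h5
  rw [integral_const_mul] at h5
  exact (mul_eq_zero.mp h5).resolve_left (by norm_num)


end

end Pool.Agent.A54.Av
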