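import Pool.Agent.Lib.MP_a54f13_nt.Av.SpecA

/-!
# The series `Ph`, `Pt`
-/

set_option autoImplicit false

namespace Pool.Agent.A54.Av

open MeasureTheory Filter Topology Set
open scoped ContDiff ComplexConjugate UpperHalfPlane MatrixGroups ENNReal
open Pool.Agent.A54.Half (H0 qq ff hh)

noncomputable section

namespace PsM

/-- Admissible kernels -/
structure Adm (F : ℝ → ℝ → ℂ → ℂ) : Prop where
  smooth : ∀ n : ℝ, ContDiff ℝ ∞ (fun p : ℝ × ℂ => F n p.1 p.2)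
  bd : ∃ C : ℝ, 0 ≤ C ∧ ∀ (n V : ℝ), 0 ≤ V → 0 ≤ n + V → ∀ z ∈ H0,
    ‖F n V z‖ ≤ C * (z.im * Real.exp (-(Real.pi * z.im * (n + 2 * V)))) ∧
    ‖fderiv ℝ (F n V) z‖ ≤ C * Real.exp (-(Real.pi / 2 * z.im * (n + 2 * V)))

lemma smooth_lag (k : ℕ) : ContDiff ℝ ∞ (lag k) := by
  unfold lag
  refine ContDiff.sum fun j _ => ?_
  fun_prop

lemma smooth_ee : ContDiff ℝ ∞ ee := by
  unfold ee
  fun_prop

lemma smooth_lag' (k : ℕ) (n : ℝ) : ContDiff ℝ ∞
    (fun p : ℝ × ℂ => lag k (4 * Real.pi * p.2.im * (n + p.1))) := by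
  have h1 : ContDiff ℝ ∞ (fun p : ℝ × ℂ => p.2.im) := Complex.imCLM.contDiff.comp contDiff_snd
  exact (smooth_lag k).comp ((contDiff_const.mul h1).mul (contDiff_const.add contDiff_fst))

lemma smooth_exp' : ContDiff ℝ ∞
    (fun p : ℝ × ℂ => Real.exp (-(4 * Real.pi * p.2.im * p.1))) := by
  have h1 : ContDiff ℝ ∞ (fun p : ℝ × ℂ => p.2.im) := Complex.imCLM.contDiff.comp contDiff_snd
  exact Real.contDiff_exp.comp ((contDiff_const.mul h1).mul contDiff_fst).neg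

lemma smooth_pre (n : ℝ) : ContDiff ℝ ∞
    (fun p : ℝ × ℂ => (p.2.im : ℂ) * ee ((n : ℂ) * p.2)) := by
  have h1 : ContDiff ℝ ∞ (fun p : ℝ × ℂ => p.2.im) := Complex.imCLM.contDiff.comp contDiff_snd
  have h2 : ContDiff ℝ ∞ (fun p : ℝ × ℂ => (p.2.im : ℂ)) := Complex.ofRealCLM.contDiff.comp h1
  exact h2.mul (smooth_ee.comp (contDiff_const.mul contDiff_snd))

lemma smooth_ck (k : ℕ) (n : ℝ) : ContDiff ℝ ∞ (fun p : ℝ × ℂ => ck k n p.1 p.2) := by
  unfold ck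
  exact (smooth_pre n).mul (Complex.ofRealCLM.contDiff.comp (smooth_exp'.mul (smooth_lag' k n)))

lemma smooth_dk (k : ℕ) (n : ℝ) : ContDiff ℝ ∞ (fun p : ℝ × ℂ => dk k n p.1 p.2) := by
  unfold dk
  have h1 : ContDiff ℝ ∞ (fun p : ℝ × ℂ => p.2.im) := Complex.imCLM.contDiff.comp contDiff_snd
  have h3 : ContDiff ℝ ∞ (fun p : ℝ × ℂ => 4 * Real.pi * p.2.im * p.1 - 1) :=
    ((contDiff_const.mul h1).mul contDiff_fst).sub contDiff_const
  exact (smooth_pre n).mul (Complex.ofRealCLM.contDiff.comp (smooth_exp'.mul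
    (contDiff_const.mul ((h3.mul (smooth_lag' (k + 1) n)).add (smooth_lag' k n)))))

lemma adm_ck (h2 : StmtLg2) (k : ℕ) : Adm (ck k) := by
  refine ⟨smooth_ck k, ?_⟩
  obtain ⟨C, hC⟩ := h2 k
  refine ⟨|C|, abs_nonneg _, fun n V hV hnV z hz => ?_⟩
  obtain ⟨a, -, b, -⟩ := hC n V hV hnV z hz
  have hz' : 0 < z.im := hz
  refine ⟨a.trans ?_, b.trans ?_⟩
  · exact mul_le_mul_of_nonneg_right (le_abs_self C) (by positivity)
  · exact mul_le_mul_of_nonneg_right (le_abs_self C) (by positivity)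

lemma adm_dk (h2 : StmtLg2) (k : ℕ) : Adm (dk k) := by
  refine ⟨smooth_dk k, ?_⟩
  obtain ⟨C, hC⟩ := h2 k
  refine ⟨|C|, abs_nonneg _, fun n V hV hnV z hz => ?_⟩
  obtain ⟨-, a, -, b⟩ := hC n V hV hnV z hz
  have hz' : 0 < z.im := hz
  refine ⟨a.trans ?_, b.trans ?_⟩
  · exact mul_le_mul_of_nonneg_right (le_abs_self C) (by positivity)
  · exact mul_le_mul_of_nonneg_right (le_abs_self C) (by positivity)

/-! ### geometry -/

/-- a continuous version of `Vd` -/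
def WW (δ : ℝ) (γ : Mat) (z : ℂ) : ℝ :=
  ‖((γ 0 0 : ℤ) : ℂ) * z + ((γ 0 1 : ℤ) : ℂ) -
    z * (((γ 1 0 : ℤ) : ℂ) * z + ((γ 1 1 : ℤ) : ℂ))‖ ^ 2 / (4 * max z.im δ * max z.im δ)

lemma WW_eq {δ : ℝ} {γ : Mat} {z : ℂ} (h : δ ≤ z.im) : WW δ γ z = Vd γ z := by
  unfold WW Vd VV
  rw [max_eq_left h]

lemma WW_cont {δ : ℝ} (h : 0 < δ) (γ : Mat) : Continuous (WW δ γ) := by
  unfold WW
  refine Continuous.div (by fun_prop) (by fun_prop) ?_
  intro z
  have : 0 < max z.im δ := lt_max_of_lt_right h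
  positivity

lemma exists_delta {g : ℂ → ℝ} (hg : TestG g) : ∃ δ : ℝ, 0 < δ ∧ ∀ z ∈ tsupport g, δ ≤ z.im := by
  rcases (tsupport g).eq_empty_or_nonempty with h | h
  · exact ⟨1, one_pos, by simp [h]⟩
  · obtain ⟨x, hx, hmin⟩ := (hg.cpt : IsCompact (tsupport g)).exists_isMinOn h
      Complex.continuous_im.continuousOn
    exact ⟨x.im, hg.sub hx, fun z hz => hmin hz⟩

lemma exists_c0 (hQF : StmtQF) {g : ℂ → ℝ} (hg : TestG g) : ∃ c0 : ℝ, 0 < c0 ∧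
    ∀ γ : Mat, ∀ z ∈ tsupport g, c0 * msq γ ≤ ((γ.det : ℤ) : ℝ) + 2 * Vd γ z := by
  have hc : ContinuousOn (fun z : ℂ => (‖z‖ ^ 2 + 1) / z.im) (tsupport g) := by
    refine ContinuousOn.div (by fun_prop) Complex.continuous_im.continuousOn ?_
    intro z hz
    exact (hg.sub hz : 0 < z.im).ne'
  obtain ⟨R, hR⟩ := (hg.cpt : IsCompact (tsupport g)).exists_bound_of_continuousOn hc
  refine ⟨(2 * (max R 1) ^ 2)⁻¹, by positivity, fun γ z hz => ?_⟩
  have hz0 : z ∈ H0 := hg.sub hz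
  have hz0' : 0 < z.im := hz0
  obtain ⟨h1, h2, -, h4, -, -⟩ := hQF γ z z hz0 hz0
  have e1 : (‖z‖ ^ 2 + 1) / z.im ≤ max R 1 :=
    (le_abs_self _).trans ((hR z hz).trans (le_max_left _ _))
  have e0 : 0 ≤ (‖z‖ ^ 2 + 1) / z.im := by positivity
  have hn : 0 ≤ ((γ.det : ℤ) : ℝ) + 2 * Vd γ z := by unfold Vd; linarith
  have e2 : ((‖z‖ ^ 2 + 1) / z.im) * ((‖z‖ ^ 2 + 1) / z.im) ≤ (max R 1) ^ 2 := by
    rw [sq (max R 1)]
    exact mul_le_mul e1 e1 e0 (e0.trans e1)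
  have h4' : msq γ ≤ 2 * (((γ.det : ℤ) : ℝ) + 2 * Vd γ z) *
      (((‖z‖ ^ 2 + 1) / z.im) * ((‖z‖ ^ 2 + 1) / z.im)) := by
    have : Vd γ z = VV γ z z := rfl
    rw [this]
    linarith
  have e3 : msq γ ≤ 2 * (((γ.det : ℤ) : ℝ) + 2 * Vd γ z) * (max R 1) ^ 2 :=
    h4'.trans (mul_le_mul_of_nonneg_left e2 (by linarith))
  rw [inv_mul_le_iff₀ (by positivity)]
  linarith

/-- the term -/
def IT (F : ℝ → ℝ → ℂ → ℂ) (g : ℂ → ℝ) (γ : Mat) (τ : ℂ) : ℂ :=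
  ∫ z, (g z : ℂ) * F ((γ.det : ℤ) : ℝ) (Vd γ z) τ

/-- its derivative -/
def DT (F : ℝ → ℝ → ℂ → ℂ) (g : ℂ → ℝ) (γ : Mat) (τ : ℂ) : ℂ →L[ℝ] ℂ :=
  ∫ z, g z • fderiv ℝ (F ((γ.det : ℤ) : ℝ) (Vd γ z)) τ

lemma g_zero {g : ℂ → ℝ} {z : ℂ} (h : z ∉ tsupport g) : g z = 0 := image_eq_zero_of_notMem_tsupport h

lemma IT_eq {F : ℝ → ℝ → ℂ → ℂ} {g : ℂ → ℝ} {δ : ℝ} (hδ : ∀ z ∈ tsupport g, δ ≤ z.im)
    (γ : Mat) (τ : ℂ) : IT F g γ τ = ∫ z, g z • F ((γ.det : ℤ) : ℝ) (WW δ γ z) τ := by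
  unfold IT
  congr 1
  ext1 z
  by_cases h : z ∈ tsupport g
  · rw [WW_eq (hδ z h), Complex.real_smul]
  · rw [g_zero h]; simp

lemma DT_eq {F : ℝ → ℝ → ℂ → ℂ} {g : ℂ → ℝ} {δ : ℝ} (hδ : ∀ z ∈ tsupport g, δ ≤ z.im)
    (γ : Mat) (τ : ℂ) :
    DT F g γ τ = ∫ z, g z • fderiv ℝ (F ((γ.det : ℤ) : ℝ) (WW δ γ z)) τ := by
  unfold DT
  congr 1
  ext1 z
  by_cases h : z ∈ tsupport g
  · rw [WW_eq (hδ z h)]
  · rw [g_zero h]; simp

lemma contF {F : ℝ → ℝ → ℂ → ℂ} (hF : Adm F) {δ : ℝ} (hδ : 0 < δ) (γ : Mat) :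
    Continuous (fun p : ℂ × ℂ => F ((γ.det : ℤ) : ℝ) (WW δ γ p.2) p.1) :=
  (hF.smooth _).continuous.comp (((WW_cont hδ γ).comp continuous_snd).prodMk continuous_fst)

lemma contF' {F : ℝ → ℝ → ℂ → ℂ} (hF : Adm F) {δ : ℝ} (hδ : 0 < δ) (γ : Mat) :
    Continuous (fun p : ℂ × ℂ => fderiv ℝ (F ((γ.det : ℤ) : ℝ) (WW δ γ p.2)) p.1) := by
  have h1 : ContDiff ℝ 0 (fun p : ℝ × ℂ => fderiv ℝ (F ((γ.det : ℤ) : ℝ) p.1) p.2) := by
    refine ContDiff.fderiv (m := ∞) (f := fun (p : ℝ × ℂ) (x : ℂ) => F ((γ.det : ℤ) : ℝ) p.1 x)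
      (g := fun p => p.2) ?_ contDiff_snd (by simp)
    exact (hF.smooth _).comp ((contDiff_fst.comp contDiff_fst).prodMk contDiff_snd)
  exact h1.continuous.comp (((WW_cont hδ γ).comp continuous_snd).prodMk continuous_fst)

lemma diffF {F : ℝ → ℝ → ℂ → ℂ} (hF : Adm F) (n V : ℝ) (τ : ℂ) :
    DifferentiableAt ℝ (F n V) τ := by
  have h1 : ContDiff ℝ ∞ (F n V) := (hF.smooth n).comp (contDiff_const.prodMk contDiff_id)
  exact (h1.differentiable (by simp)) τ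

lemma hasI {F : ℝ → ℝ → ℂ → ℂ} (hF : Adm F) {g : ℂ → ℝ} (hg : TestG g) (γ : Mat) (τ : ℂ) :
    HasFDerivAt (IT F g γ) (DT F g γ τ) τ := by
  obtain ⟨δ, hδ0, hδ⟩ := exists_delta hg
  have e1 : IT F g γ = fun τ => ∫ z, g z • F ((γ.det : ℤ) : ℝ) (WW δ γ z) τ :=
    funext fun τ => IT_eq hδ γ τ
  rw [e1, DT_eq hδ]
  have c1 := contF hF hδ0 γ
  have c2 := contF' hF hδ0 γ
  have hcg := hg.cont
  have k1 : IsCompact (Metric.closedBall τ 1 ×ˢ tsupport g) :=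
    (isCompact_closedBall τ 1).prod hg.cpt
  have c3 : Continuous (fun p : ℂ × ℂ => g p.2 • fderiv ℝ (F ((γ.det : ℤ) : ℝ) (WW δ γ p.2)) p.1) :=
    (hcg.comp continuous_snd).smul c2
  obtain ⟨M, hM⟩ := k1.exists_bound_of_continuousOn c3.continuousOn
  have supp : ∀ (E : Type) [NormedAddCommGroup E] [NormedSpace ℝ E] (f : ℂ → E),
      HasCompactSupport (fun z => g z • f z) := by
    intro E _ _ f
    exact hg.cpt.smul_right
  refine hasFDerivAt_integral_of_dominated_of_fderiv_le (𝕜 := ℝ)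
    (F := fun τ z => g z • F ((γ.det : ℤ) : ℝ) (WW δ γ z) τ)
    (F' := fun τ z => g z • fderiv ℝ (F ((γ.det : ℤ) : ℝ) (WW δ γ z)) τ)
    (bound := (tsupport g).indicator fun _ => M) (s := Metric.closedBall τ 1)
    (Metric.closedBall_mem_nhds τ one_pos) ?_ ?_ ?_ ?_ ?_ ?_
  · refine Eventually.of_forall fun x => ?_
    exact (hcg.smul (c1.comp (continuous_const.prodMk continuous_id))).aestronglyMeasurable
  · exact (hcg.smul (c1.comp (continuous_const.prodMk continuous_id))).integrable_of_hasCompactSupport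
      (supp _ _)
  · exact (hcg.smul (c2.comp (continuous_const.prodMk continuous_id))).aestronglyMeasurable
  · refine Eventually.of_forall fun z x hx => ?_
    by_cases h : z ∈ tsupport g
    · rw [indicator_of_mem h]
      exact hM (x, z) ⟨hx, h⟩
    · rw [indicator_of_notMem h, g_zero h]
      simp
  · exact (integrable_indicator_iff (isClosed_tsupport g).measurableSet).2
      (integrableOn_const (hg.cpt : IsCompact (tsupport g)).measure_lt_top.ne)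
  · refine Eventually.of_forall fun z x hx => ?_
    exact (diffF hF _ _ x).hasFDerivAt.const_smul (g z)

lemma contD {F : ℝ → ℝ → ℂ → ℂ} (hF : Adm F) {g : ℂ → ℝ} (hg : TestG g) (γ : Mat) :
    Continuous (DT F g γ) := by
  obtain ⟨δ, hδ0, hδ⟩ := exists_delta hg
  have e1 : DT F g γ = fun τ => ∫ z, g z • fderiv ℝ (F ((γ.det : ℤ) : ℝ) (WW δ γ z)) τ :=
    funext fun τ => DT_eq hδ γ τ
  rw [e1, ← continuousOn_univ]
  refine continuousOn_integral_of_compact_support (k := tsupport g) hg.cpt ?_ ?_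
  · refine Continuous.continuousOn ?_
    exact (hg.cont.comp continuous_snd).smul (contF' hF hδ0 γ)
  · intro p x _ hx
    rw [g_zero hx]; simp

lemma intF {F : ℝ → ℝ → ℂ → ℂ} (hF : Adm F) {g : ℂ → ℝ} (hg : TestG g) (γ : Mat) (τ : ℂ) :
    Integrable (fun z => (g z : ℂ) * F ((γ.det : ℤ) : ℝ) (Vd γ z) τ) ∧
    Integrable (fun z => g z • fderiv ℝ (F ((γ.det : ℤ) : ℝ) (Vd γ z)) τ) := by
  obtain ⟨δ, hδ0, hδ⟩ := exists_delta hg
  have e1 : (fun z => (g z : ℂ) * F ((γ.det : ℤ) : ℝ) (Vd γ z) τ) =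
      fun z => g z • F ((γ.det : ℤ) : ℝ) (WW δ γ z) τ := by
    ext1 z
    by_cases h : z ∈ tsupport g
    · rw [WW_eq (hδ z h), Complex.real_smul]
    · rw [g_zero h]; simp
  have e2 : (fun z => g z • fderiv ℝ (F ((γ.det : ℤ) : ℝ) (Vd γ z)) τ) =
      fun z => g z • fderiv ℝ (F ((γ.det : ℤ) : ℝ) (WW δ γ z)) τ := by
    ext1 z
    by_cases h : z ∈ tsupport g
    · rw [WW_eq (hδ z h)]
    · rw [g_zero h]; simp
  rw [e1, e2]
  have c1 := contF hF hδ0 γ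
  have c2 := contF' hF hδ0 γ
  exact ⟨(hg.cont.smul (c1.comp (continuous_const.prodMk continuous_id))).integrable_of_hasCompactSupport
    hg.cpt.smul_right, (hg.cont.smul
      (c2.comp (continuous_const.prodMk continuous_id))).integrable_of_hasCompactSupport
    hg.cpt.smul_right⟩

lemma int_absg {g : ℂ → ℝ} (hg : TestG g) : Integrable (fun z => |g z|) :=
  (hg.cont.integrable_of_hasCompactSupport hg.cpt).abs

/-- bounds of the terms -/
lemma bounds (hQF : StmtQF) {F : ℝ → ℝ → ℂ → ℂ} (hF : Adm F) {g : ℂ → ℝ} (hg : TestG g) :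
    ∃ M c0 : ℝ, 0 ≤ M ∧ 0 < c0 ∧ ∀ (γ : Mat), ∀ τ ∈ H0,
      (∫ z, |g z| * ‖F ((γ.det : ℤ) : ℝ) (Vd γ z) τ‖) ≤
        M * (τ.im * Real.exp (-(Real.pi * c0 * τ.im * msq γ))) ∧
      ‖IT F g γ τ‖ ≤ M * (τ.im * Real.exp (-(Real.pi * c0 * τ.im * msq γ))) ∧
      ‖DT F g γ τ‖ ≤ M * Real.exp (-(Real.pi / 2 * c0 * τ.im * msq γ)) := by
  obtain ⟨c0, hc0, hc⟩ := exists_c0 hQF hg
  obtain ⟨C, hC0, hC⟩ := hF.bd
  have hM : 0 ≤ ∫ z, |g z| := integral_nonneg fun z => abs_nonneg _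
  have key : ∀ (γ : Mat), ∀ τ ∈ H0, ∀ z ∈ tsupport g,
      ‖F ((γ.det : ℤ) : ℝ) (Vd γ z) τ‖ ≤ C * (τ.im * Real.exp (-(Real.pi * c0 * τ.im * msq γ))) ∧
      ‖fderiv ℝ (F ((γ.det : ℤ) : ℝ) (Vd γ z)) τ‖ ≤
        C * Real.exp (-(Real.pi / 2 * c0 * τ.im * msq γ)) := by
    intro γ τ hτ z hz
    have hτ' : 0 < τ.im := hτ
    obtain ⟨h1, h2, -⟩ := hQF γ z z (hg.sub hz) (hg.sub hz)
    obtain ⟨a, b⟩ := hC ((γ.det : ℤ) : ℝ) (Vd γ z) h1 h2 τ hτ
    have h3 := hc γ z hz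
    have hp := Real.pi_pos
    refine ⟨a.trans ?_, b.trans ?_⟩
    · refine mul_le_mul_of_nonneg_left (mul_le_mul_of_nonneg_left (Real.exp_le_exp.2 ?_) hτ'.le) hC0
      have := mul_le_mul_of_nonneg_left h3 (by positivity : 0 ≤ Real.pi * τ.im)
      linarith
    · refine mul_le_mul_of_nonneg_left (Real.exp_le_exp.2 ?_) hC0
      have := mul_le_mul_of_nonneg_left h3 (by positivity : 0 ≤ Real.pi / 2 * τ.im)
      linarith
  refine ⟨(∫ z, |g z|) * C, c0, mul_nonneg hM hC0, hc0, fun γ τ hτ => ?_⟩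
  have i1 : ∫ z, |g z| * (C * (τ.im * Real.exp (-(Real.pi * c0 * τ.im * msq γ)))) =
      (∫ z, |g z|) * C * (τ.im * Real.exp (-(Real.pi * c0 * τ.im * msq γ))) := by
    rw [integral_mul_const]; ring
  have i2 : ∫ z, |g z| * (C * Real.exp (-(Real.pi / 2 * c0 * τ.im * msq γ))) =
      (∫ z, |g z|) * C * Real.exp (-(Real.pi / 2 * c0 * τ.im * msq γ)) := by
    rw [integral_mul_const]; ring
  have hI := (intF hF hg γ τ).1.norm
  have e1 : (fun z => ‖(g z : ℂ) * F ((γ.det : ℤ) : ℝ) (Vd γ z) τ‖) =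
      fun z => |g z| * ‖F ((γ.det : ℤ) : ℝ) (Vd γ z) τ‖ := by
    ext1 z
    rw [norm_mul, Complex.norm_real, Real.norm_eq_abs]
  rw [e1] at hI
  have b1 : (∫ z, |g z| * ‖F ((γ.det : ℤ) : ℝ) (Vd γ z) τ‖) ≤
      (∫ z, |g z|) * C * (τ.im * Real.exp (-(Real.pi * c0 * τ.im * msq γ))) := by
    rw [← i1]
    refine integral_mono hI ((int_absg hg).mul_const _) fun z => ?_
    by_cases h : z ∈ tsupport g
    · exact mul_le_mul_of_nonneg_left (key γ τ hτ z h).1 (abs_nonneg _)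
    · simp [g_zero h]
  refine ⟨b1, ?_, ?_⟩
  · refine le_trans ?_ b1
    unfold IT
    rw [← e1]
    exact norm_integral_le_integral_norm _
  · rw [← i2]
    unfold DT
    refine norm_integral_le_of_norm_le ((int_absg hg).mul_const _) (Eventually.of_forall fun z => ?_)
    by_cases h : z ∈ tsupport g
    · rw [norm_smul, Real.norm_eq_abs]
      exact mul_le_mul_of_nonneg_left (key γ τ hτ z h).2 (abs_nonneg _)
    · simp [g_zero h]

/-- the series -/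
def Sr (F : ℝ → ℝ → ℂ → ℂ) (g : ℂ → ℝ) (τ : ℂ) : ℂ := ∑' γ : Mat, IT F g γ τ

lemma sum_exp (hGau : StmtGau) {t : ℝ} (ht : 0 < t) (M : ℝ) :
    Summable fun γ : Mat => M * Real.exp (-(t * msq γ)) := (hGau.1 t ht).mul_left M

lemma msq_nonneg (γ : Mat) : 0 ≤ msq γ := by unfold msq; positivity

lemma isOpenY (Y : ℝ) : IsOpen {τ : ℂ | Y < τ.im} := isOpen_lt continuous_const Complex.continuous_im

lemma sum_IT (hQF : StmtQF) (hGau : StmtGau) {F : ℝ → ℝ → ℂ → ℂ} (hF : Adm F) {g : ℂ → ℝ}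
    (hg : TestG g) {τ : ℂ} (hτ : τ ∈ H0) :
    (Summable fun γ : Mat => ∫ z, |g z| * ‖F ((γ.det : ℤ) : ℝ) (Vd γ z) τ‖) ∧
    (Summable fun γ : Mat => IT F g γ τ) ∧ (Summable fun γ : Mat => DT F g γ τ) := by
  obtain ⟨M, c0, hM, hc0, hb⟩ := bounds hQF hF hg
  have hτ' : 0 < τ.im := hτ
  have hp := Real.pi_pos
  have s1 : Summable fun γ : Mat => M * (τ.im * Real.exp (-(Real.pi * c0 * τ.im * msq γ))) := by
    have := sum_exp hGau (t := Real.pi * c0 * τ.im) (by positivity) (M * τ.im)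
    refine this.congr fun γ => ?_
    ring
  have s2 : Summable fun γ : Mat => M * Real.exp (-(Real.pi / 2 * c0 * τ.im * msq γ)) :=
    sum_exp hGau (t := Real.pi / 2 * c0 * τ.im) (by positivity) M
  refine ⟨?_, ?_, ?_⟩
  · refine Summable.of_nonneg_of_le (fun γ => integral_nonneg fun z => by positivity)
      (fun γ => (hb γ τ hτ).1) s1
  · exact Summable.of_norm_bounded s1 fun γ => (hb γ τ hτ).2.1
  · exact Summable.of_norm_bounded s2 fun γ => (hb γ τ hτ).2.2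

lemma key (hQF : StmtQF) (hGau : StmtGau) {F : ℝ → ℝ → ℂ → ℂ} (hF : Adm F) {g : ℂ → ℝ}
    (hg : TestG g) :
    (∀ τ ∈ H0, HasFDerivAt (Sr F g) (∑' γ : Mat, DT F g γ τ) τ) ∧
    ContinuousOn (fun τ => ∑' γ : Mat, DT F g γ τ) H0 := by
  obtain ⟨M, c0, hM, hc0, hb⟩ := bounds hQF hF hg
  have hp := Real.pi_pos
  have hu : ∀ Y : ℝ, 0 < Y → ∀ γ : Mat, ∀ τ ∈ {τ : ℂ | Y < τ.im},
      ‖DT F g γ τ‖ ≤ M * Real.exp (-(Real.pi / 2 * c0 * Y * msq γ)) := by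
    intro Y hY γ τ hτ
    have hτ1 : Y < τ.im := hτ
    have hτ0 : τ ∈ H0 := hY.trans hτ1
    refine (hb γ τ hτ0).2.2.trans (mul_le_mul_of_nonneg_left (Real.exp_le_exp.2 ?_) hM)
    have := mul_le_mul_of_nonneg_left hτ1.le
      (by have := msq_nonneg γ; positivity : 0 ≤ Real.pi / 2 * c0 * msq γ)
    linarith
  have hs : ∀ Y : ℝ, 0 < Y → Summable fun γ : Mat => M * Real.exp (-(Real.pi / 2 * c0 * Y * msq γ)) :=
    fun Y hY => sum_exp hGau (t := Real.pi / 2 * c0 * Y) (by positivity) M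
  refine ⟨fun τ hτ => ?_, fun τ hτ => ?_⟩
  · have hτ' : 0 < τ.im := hτ
    have hY : 0 < τ.im / 2 := by positivity
    have hmem : τ ∈ {τ' : ℂ | τ.im / 2 < τ'.im} := by
      show τ.im / 2 < τ.im
      linarith
    exact hasFDerivAt_tsum_of_isPreconnected (hs _ hY) (isOpenY _)
      (convex_halfSpace_im_gt _).isPreconnected (fun γ x _ => hasI hF hg γ x)
      (fun γ x hx => hu _ hY γ x hx) hmem (sum_IT hQF hGau hF hg hτ).2.1 hmem
  · have hτ' : 0 < τ.im := hτ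
    have hY : 0 < τ.im / 2 := by positivity
    have hmem : τ ∈ {τ' : ℂ | τ.im / 2 < τ'.im} := by
      show τ.im / 2 < τ.im
      linarith
    have := continuousOn_tsum (fun γ => (contD hF hg γ).continuousOn) (hs _ hY)
      (fun γ x hx => hu _ hY γ x hx)
    exact (this.continuousAt ((isOpenY _).mem_nhds hmem)).continuousWithinAt

lemma smooth_Sr (hQF : StmtQF) (hGau : StmtGau) {F : ℝ → ℝ → ℂ → ℂ} (hF : Adm F) {g : ℂ → ℝ}
    (hg : TestG g) : ContDiffOn ℝ 1 (Sr F g) H0 := by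
  obtain ⟨h1, h2⟩ := key hQF hGau hF hg
  have hop : IsOpen H0 := isOpenY 0
  rw [show (1 : ℕ∞ω) = 0 + 1 from rfl, contDiffOn_succ_iff_fderiv_of_isOpen hop]
  refine ⟨fun τ hτ => (h1 τ hτ).differentiableAt.differentiableWithinAt, by simp, ?_⟩
  rw [contDiffOn_zero]
  exact h2.congr fun τ hτ => (h1 τ hτ).fderiv

/-- termwise application of a first order operator -/
lemma op_Sr (hQF : StmtQF) (hGau : StmtGau) {F F1 : ℝ → ℝ → ℂ → ℂ} (hF : Adm F) {g : ℂ → ℝ}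
    (hg : TestG g) {τ : ℂ} (hτ : τ ∈ H0) (a b c d : ℂ)
    (h : ∀ n V : ℝ, a * fderiv ℝ (F n V) τ 1 + b * fderiv ℝ (F n V) τ Complex.I + c * F n V τ =
      d * F1 n V τ) :
    a * fderiv ℝ (Sr F g) τ 1 + b * fderiv ℝ (Sr F g) τ Complex.I + c * Sr F g τ =
      d * Sr F1 g τ := by
  rw [((key hQF hGau hF hg).1 τ hτ).fderiv]
  obtain ⟨-, s1, s2⟩ := sum_IT hQF hGau hF hg hτ
  have t1 : ∀ v : ℂ, (∑' γ : Mat, DT F g γ τ) v = ∑' γ : Mat, DT F g γ τ v := by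
    intro v
    have := (ContinuousLinearMap.apply ℝ ℂ v).map_tsum s2
    simpa using this
  have s3 : ∀ v : ℂ, Summable fun γ : Mat => DT F g γ τ v := by
    intro v
    have := s2.mapL (ContinuousLinearMap.apply ℝ ℂ v)
    simpa using this
  rw [t1, t1]
  unfold Sr
  rw [← tsum_mul_left, ← tsum_mul_left, ← tsum_mul_left, ← tsum_mul_left,
    ← ((s3 1).mul_left a).tsum_add ((s3 Complex.I).mul_left b),
    ← (((s3 1).mul_left a).add ((s3 Complex.I).mul_left b)).tsum_add (s1.mul_left c)]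
  congr 1
  ext1 γ
  obtain ⟨i1, i2⟩ := intF hF hg γ τ
  have e1 : ∀ v : ℂ, DT F g γ τ v = ∫ z, (g z : ℂ) * fderiv ℝ (F ((γ.det : ℤ) : ℝ) (Vd γ z)) τ v := by
    intro v
    unfold DT
    rw [ContinuousLinearMap.integral_apply i2]
    congr 1
  have i3 : ∀ v : ℂ, Integrable fun z => (g z : ℂ) * fderiv ℝ (F ((γ.det : ℤ) : ℝ) (Vd γ z)) τ v := by
    intro v
    have := (ContinuousLinearMap.apply ℝ ℂ v).integrable_comp i2
    refine this.congr (Eventually.of_forall fun z => ?_)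
    simp
  have i4 : Integrable fun z => a * ((g z : ℂ) * fderiv ℝ (F ((γ.det : ℤ) : ℝ) (Vd γ z)) τ 1) +
      b * ((g z : ℂ) * fderiv ℝ (F ((γ.det : ℤ) : ℝ) (Vd γ z)) τ Complex.I) :=
    ((i3 1).const_mul a).add ((i3 Complex.I).const_mul b)
  rw [e1, e1]
  unfold IT
  rw [← integral_const_mul, ← integral_const_mul, ← integral_const_mul, ← integral_const_mul,
    ← integral_add ((i3 1).const_mul a) ((i3 Complex.I).const_mul b),
    ← integral_add i4 (i1.const_mul c)]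
  congr 1
  ext1 z
  have := h ((γ.det : ℤ) : ℝ) (Vd γ z)
  linear_combination (g z : ℂ) * this

lemma mul_exp_le {c y : ℝ} (hc : 0 < c) : y * Real.exp (-(c * y)) ≤ c⁻¹ := by
  have h1 := Real.add_one_le_exp (c * y)
  have h2 : c * y ≤ Real.exp (c * y) := by linarith
  rw [Real.exp_neg, ← div_eq_mul_inv, div_le_iff₀ (Real.exp_pos _), inv_mul_eq_div,
    le_div_iff₀ hc]
  linarith

lemma bd_Sr (hQF : StmtQF) (hGau : StmtGau) {F : ℝ → ℝ → ℂ → ℂ} (hF : Adm F) {g : ℂ → ℝ}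
    (hg : TestG g) : ∃ C : ℝ, ∀ τ ∈ H0, 1 / 2 ≤ τ.im → ‖Sr F g τ‖ ≤ C := by
  classical
  obtain ⟨M, c0, hM, hc0, hb⟩ := bounds hQF hF hg
  have hp := Real.pi_pos
  obtain ⟨C, hC⟩ := hGau.2.2 (Real.pi * c0 * (1 / 2)) (by positivity)
  refine ⟨M * (|C| * (Real.pi * c0 / 2)⁻¹), fun τ hτ h12 => ?_⟩
  have hτ' : 0 < τ.im := hτ
  have z0 : IT F g 0 τ = 0 := by
    unfold IT
    have e : ∀ z : ℂ, Vd (0 : Mat) z = 0 := by
      intro z
      unfold Vd VV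
      simp
    have e' : (fun z : ℂ => (g z : ℂ) * F (((0 : Mat).det : ℤ) : ℝ) (Vd (0 : Mat) z) τ) =
        fun z => (g z : ℂ) * F (((0 : Mat).det : ℤ) : ℝ) 0 τ := by
      ext1 z
      rw [e]
    rw [e', integral_mul_const, integral_complex_ofReal, hg.zero]
    simp
  have ht : Real.pi * c0 * (1 / 2) ≤ Real.pi * c0 * τ.im :=
    mul_le_mul_of_nonneg_left h12 (by positivity)
  have hsum : Summable fun γ : Mat => M * (τ.im *
      (if γ = 0 then (0 : ℝ) else Real.exp (-(Real.pi * c0 * τ.im * msq γ)))) := by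
    refine Summable.mul_left _ (Summable.mul_left _ ?_)
    refine Summable.of_nonneg_of_le (fun γ => ?_) (fun γ => ?_)
      (hGau.1 (Real.pi * c0 * τ.im) (by positivity))
    · split_ifs <;> positivity
    · split_ifs
      · positivity
      · exact le_rfl
  have h1 : ‖Sr F g τ‖ ≤ ∑' γ : Mat, M * (τ.im *
      (if γ = 0 then (0 : ℝ) else Real.exp (-(Real.pi * c0 * τ.im * msq γ)))) := by
    refine tsum_of_norm_bounded hsum.hasSum fun γ => ?_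
    split_ifs with h0
    · rw [h0, z0]; simp
    · exact (hb γ τ hτ).2.1
  refine h1.trans ?_
  rw [tsum_mul_left, tsum_mul_left]
  refine mul_le_mul_of_nonneg_left ?_ hM
  have h2 := hC (Real.pi * c0 * τ.im) ht
  have h3 : ∑' γ : Mat, (if γ = 0 then (0 : ℝ) else Real.exp (-(Real.pi * c0 * τ.im * msq γ))) ≤
      |C| * Real.exp (-(Real.pi * c0 * τ.im / 2)) := by
    refine le_trans (le_of_eq ?_) (h2.trans (mul_le_mul_of_nonneg_right (le_abs_self C)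
      (Real.exp_pos _).le))
    congr 1
  refine (mul_le_mul_of_nonneg_left h3 hτ'.le).trans ?_
  have h4 := mul_exp_le (c := Real.pi * c0 / 2) (y := τ.im) (by positivity)
  have h5 := mul_le_mul_of_nonneg_left h4 (abs_nonneg C)
  have h6 : -(Real.pi * c0 * τ.im / 2) = -(Real.pi * c0 / 2 * τ.im) := by ring
  rw [h6]
  linarith

end PsM

open PsM in
/-- **Ps** -/
theorem stmtPs (hQF : StmtQF) (hGau : StmtGau) (h1 : StmtLg1) (h2 : StmtLg2) : StmtPs := by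
  intro g hg k
  have hPh : ∀ k, Ph k g = Sr (ck k) g := fun k => rfl
  have hPt : ∀ k, Pt k g = Sr (dk k) g := fun k => rfl
  refine ⟨fun τ hτ => (sum_IT hQF hGau (adm_ck h2 k) hg hτ).1,
    fun τ hτ => (sum_IT hQF hGau (adm_dk h2 k) hg hτ).1,
    smooth_Sr hQF hGau (adm_ck h2 k) hg, smooth_Sr hQF hGau (adm_dk h2 k) hg, ?_, ?_, ?_, ?_⟩
  · intro τ hτ
    have := op_Sr hQF hGau (F1 := ck (k + 1)) (adm_ck h2 k) hg hτ (Complex.I * (τ.im : ℂ))
      (-(Complex.I * (τ.im : ℂ) * Complex.I)) (k : ℂ) ((k : ℂ) + 1) (fun n V => by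
        have := (h1 k n V).2.2.1 τ hτ
        unfold RR dz at this
        linear_combination this)
    unfold RR dz
    rw [hPh, hPh]
    linear_combination this
  · intro τ hτ
    have := op_Sr hQF hGau (F1 := dk (k + 1)) (adm_dk h2 k) hg hτ (Complex.I * (τ.im : ℂ))
      (-(Complex.I * (τ.im : ℂ) * Complex.I)) (k : ℂ) ((k : ℂ) + 1) (fun n V => by
        have := (h1 k n V).2.2.2.1 τ hτ
        unfold RR dz at this
        linear_combination this)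
    unfold RR dz
    rw [hPt, hPt]
    linear_combination this
  · intro τ hτ
    have := op_Sr hQF hGau (F1 := dk 0) (adm_ck h2 1) hg hτ (-(Complex.I * (τ.im : ℂ)))
      (-(Complex.I * (τ.im : ℂ) * Complex.I)) (-1) (-1) (fun n V => by
        have := (h1 0 n V).2.2.2.2 τ hτ
        unfold LL dzb at this
        push_cast at this
        linear_combination this)
    unfold LL dzb
    rw [hPh, hPt]
    push_cast
    linear_combination this
  · obtain ⟨C1, hC1⟩ := bd_Sr hQF hGau (adm_ck h2 k) hg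
    obtain ⟨C2, hC2⟩ := bd_Sr hQF hGau (adm_dk h2 k) hg
    exact ⟨max C1 C2, fun τ hτ h12 => ⟨(hC1 τ hτ h12).trans (le_max_left _ _),
      (hC2 τ hτ h12).trans (le_max_right _ _)⟩⟩

end

end Pool.Agent.A54.Av
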