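import Pool.Agent.Lib.MP_a54f13_nt.Av.SpecA

/-!
# Package `Av`, module Pw: weights of `Ph`, `Pt`
-/

set_option autoImplicit false

namespace Pool.Agent.A54.Av

open MeasureTheory Filter Topology Set
open scoped ContDiff ComplexConjugate UpperHalfPlane MatrixGroups ENNReal
open Pool.Agent.A54.Half (H0 qq ff hh)

noncomputable section

namespace PwM

theorem mem_H0 {τ : ℂ} : τ ∈ H0 ↔ 0 < τ.im := Iff.rfl

theorem add_mem {τ : ℂ} (h : τ ∈ H0) : τ + 1 ∈ H0 := by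
  rw [mem_H0] at h ⊢
  simpa using h

theorem inv_mem {τ : ℂ} (h : τ ∈ H0) : -τ⁻¹ ∈ H0 := by
  rw [mem_H0] at h ⊢
  have h1 : τ ≠ 0 := by
    intro h0
    rw [h0] at h
    simp at h
  rw [Complex.neg_im, Complex.inv_im, neg_div, neg_neg]
  exact div_pos h (Complex.normSq_pos.mpr h1)

/-- a multiple of a function of weight `2 k` -/
theorem wt_congr {k : ℕ} {H G : ℂ → ℂ} (c : ℂ) (hH : Wt k H) (hG : ∀ τ ∈ H0, G τ = c * H τ) :
    Wt k G where
  smooth := (contDiffOn_const.mul hH.smooth).congr hG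
  T := fun τ hτ => by rw [hG τ hτ, hG _ (add_mem hτ), hH.T τ hτ]
  S := fun τ hτ => by
    rw [hG τ hτ, hG _ (inv_mem hτ), hH.S τ hτ]
    ring
  bdd := by
    obtain ⟨C, hC⟩ := hH.bdd
    refine ⟨‖c‖ * C, fun τ hτ h1 => ?_⟩
    rw [hG τ hτ, norm_mul]
    exact mul_le_mul_of_nonneg_left (hC τ hτ h1) (norm_nonneg _)

/-- raising -/
theorem wt_up (hWR : StmtWR) {k : ℕ} {H G : ℂ → ℂ} (hH : Wt k H)
    (hG : ContDiffOn ℝ 1 G H0) (hGb : ∃ C : ℝ, ∀ τ ∈ H0, 1 / 2 ≤ τ.im → ‖G τ‖ ≤ C)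
    (h : ∀ τ ∈ H0, RR k H τ = ((k : ℂ) + 1) * G τ) : Wt (k + 1) G := by
  have hk : ((k : ℂ) + 1) ≠ 0 := by exact_mod_cast Nat.succ_ne_zero k
  obtain ⟨C, hC⟩ := hGb
  have h1 := hWR k H hH ((contDiffOn_const.mul hG).congr h)
    ⟨‖(k : ℂ) + 1‖ * C, fun τ hτ hi => by
      rw [h τ hτ, norm_mul]
      exact mul_le_mul_of_nonneg_left (hC τ hτ hi) (norm_nonneg _)⟩
  refine wt_congr ((k : ℂ) + 1)⁻¹ h1 fun τ hτ => ?_
  rw [h τ hτ, ← mul_assoc, inv_mul_cancel₀ hk, one_mul]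

theorem ck_zero (γ : Mat) (τ z : ℂ) :
    ck 0 ((γ.det : ℤ) : ℝ) (Vd γ z) τ = kk γ τ z z := by
  unfold ck kk lag Vd
  simp

theorem cont_kk (γ : Mat) (τ : ℂ) : ContinuousOn (fun z => kk γ τ z z) H0 := by
  unfold kk
  refine ContinuousOn.mul continuousOn_const ?_
  refine Complex.continuous_ofReal.comp_continuousOn ?_
  refine Real.continuous_exp.comp_continuousOn ?_
  refine (ContinuousOn.mul continuousOn_const ?_).neg
  unfold VV
  refine ContinuousOn.div ?_ ?_ ?_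
  · refine Continuous.continuousOn ?_
    fun_prop
  · refine Continuous.continuousOn ?_
    have := Complex.continuous_im
    fun_prop
  · intro z hz
    have : 0 < z.im := hz
    positivity

theorem g_zero {g : ℂ → ℝ} (hg : TestG g) {z : ℂ} (hz : z ∉ H0) : g z = 0 := by
  by_contra hne
  exact hz (hg.sub (subset_tsupport g hne))

theorem int_term {g : ℂ → ℝ} (hg : TestG g) (γ : Mat) (τ : ℂ) :
    Integrable (fun z => (g z : ℂ) * kk γ τ z z) := by
  have hsupp : tsupport (fun z => (g z : ℂ) * kk γ τ z z) ⊆ tsupport g := by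
    refine closure_mono ?_
    intro z hz
    rw [Function.mem_support] at hz ⊢
    intro h0
    apply hz
    rw [h0]
    simp
  have h1 : ContinuousOn (fun z => (g z : ℂ) * kk γ τ z z) H0 :=
    (Complex.continuous_ofReal.comp hg.cont).continuousOn.mul (cont_kk γ τ)
  have h2 : Continuous (fun z => (g z : ℂ) * kk γ τ z z) :=
    h1.continuous_of_tsupport_subset (isOpen_lt continuous_const Complex.continuous_im)
      (hsupp.trans hg.sub)
  exact h2.integrable_of_hasCompactSupport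
    (hg.cpt.of_isClosed_subset (isClosed_tsupport _) hsupp)

theorem ph_zero (hPs : StmtPs) {g : ℂ → ℝ} (hg : TestG g) {τ : ℂ} (hτ : τ ∈ H0) :
    Ph 0 g τ = ∫ z, (g z : ℂ) * Th τ z z := by
  haveI : Countable Mat := inferInstanceAs (Countable (Fin 2 → Fin 2 → ℤ))
  have hs := (hPs g hg 0).1 τ hτ
  have h1 := hasSum_integral_of_summable_integral_norm (μ := (volume : Measure ℂ))
    (F := fun (γ : Mat) (z : ℂ) => (g z : ℂ) * kk γ τ z z) (fun γ => int_term hg γ τ) (by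
      refine hs.congr fun γ => ?_
      congr 1
      funext z
      rw [ck_zero, norm_mul, Complex.norm_real, Real.norm_eq_abs])
  have h2 := h1.tsum_eq
  unfold Ph
  simp_rw [ck_zero]
  rw [h2]
  congr 1
  funext z
  rw [tsum_mul_left]
  rfl

end PwM

open PwM in
theorem stmtPw (hPs : StmtPs) (hThI : StmtThI) (_hThS : StmtThS) (hWR : StmtWR)
    (hWL : StmtWL) : StmtPw := by
  intro g hg
  have hbP : ∀ k, ∃ C : ℝ, ∀ τ ∈ H0, 1 / 2 ≤ τ.im → ‖Ph k g τ‖ ≤ C := fun k => by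
    obtain ⟨-, -, -, -, -, -, -, C, hC⟩ := hPs g hg k
    exact ⟨C, fun τ hτ hi => (hC τ hτ hi).1⟩
  have hbT : ∀ k, ∃ C : ℝ, ∀ τ ∈ H0, 1 / 2 ≤ τ.im → ‖Pt k g τ‖ ≤ C := fun k => by
    obtain ⟨-, -, -, -, -, -, -, C, hC⟩ := hPs g hg k
    exact ⟨C, fun τ hτ hi => (hC τ hτ hi).2⟩
  have hinv : ∀ (τ σ : ℂ), (∀ z ∈ H0, Th σ z z = Th τ z z) → τ ∈ H0 → σ ∈ H0 →
      Ph 0 g σ = Ph 0 g τ := by
    intro τ σ h hτ hσ
    rw [ph_zero hPs hg hτ, ph_zero hPs hg hσ]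
    congr 1
    funext z
    by_cases hz : z ∈ H0
    · rw [h z hz]
    · rw [g_zero hg hz]
      simp
  have hP0 : Wt 0 (Ph 0 g) :=
    { smooth := (hPs g hg 0).2.2.1
      T := fun τ hτ => hinv τ (τ + 1) (fun z hz => (hThI τ z z hτ hz hz).1) hτ (add_mem hτ)
      S := fun τ hτ => by
        rw [pow_zero, one_mul]
        exact hinv τ (-τ⁻¹) (fun z hz => (hThI τ z z hτ hz hz).2.1) hτ (inv_mem hτ)
      bdd := hbP 0 }
  have hP : ∀ k, Wt k (Ph k g) := by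
    intro k
    induction k with
    | zero => exact hP0
    | succ k ih =>
      exact wt_up hWR ih (hPs g hg (k + 1)).2.2.1 (hbP (k + 1)) (hPs g hg k).2.2.2.2.1
  have hT0 : Wt 0 (Pt 0 g) := by
    have h1 := (hPs g hg 0).2.2.2.2.2.2.1
    have h2 : ∀ τ ∈ H0, LL (0 + 1) (Ph 1 g) τ = -1 * Pt 0 g τ := fun τ hτ => by
      rw [neg_one_mul]
      exact h1 τ hτ
    obtain ⟨C, hC⟩ := hbT 0
    have h3 := hWL 0 (Ph 1 g) (hP 1)
      ((contDiffOn_const.mul (hPs g hg 0).2.2.2.1).congr h2)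
      ⟨C, fun τ hτ hi => by
        rw [h2 τ hτ, neg_one_mul, norm_neg]
        exact hC τ hτ hi⟩
    refine wt_congr (-1) h3 fun τ hτ => ?_
    rw [h2 τ hτ]
    ring
  have hT : ∀ k, Wt k (Pt k g) := by
    intro k
    induction k with
    | zero => exact hT0
    | succ k ih =>
      exact wt_up hWR ih (hPs g hg (k + 1)).2.2.2.1 (hbT (k + 1)) (hPs g hg k).2.2.2.2.2.1
  exact fun k => ⟨hP k, hT k, fun τ hτ => ph_zero hPs hg hτ⟩

end

end Pool.Agent.A54.Av
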