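import Pool.Agent.Lib.MP_a54f13_nt.Av.SpecF

/-!
# Package `Av`, module `Q1`: Mellin transform of the Bessel function
-/

set_option autoImplicit false

namespace Pool.Agent.A54.Av

open MeasureTheory Set Filter Topology

namespace Q1M

private lemma half_exp_le_cosh (u : ℝ) : Real.exp u / 2 ≤ Real.cosh u := by
  rw [Real.cosh_eq]
  have := (Real.exp_pos (-u)).le
  linarith

private lemma exp_neg_le (v : ℝ) (hv : 0 < v) : Real.exp (-v) ≤ v ^ (-(1 / 4 : ℝ)) := by
  rw [Real.rpow_neg hv.le, Real.exp_neg]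
  apply inv_anti₀ (Real.rpow_pos_of_pos hv _)
  rcases le_total v 1 with h | h
  · have h1 : v ^ (1 / 4 : ℝ) ≤ 1 := Real.rpow_le_one hv.le h (by norm_num)
    have h2 : 1 ≤ Real.exp v := Real.one_le_exp hv.le
    linarith
  · have h1 : v ^ (1 / 4 : ℝ) ≤ v ^ (1 : ℝ) := Real.rpow_le_rpow_of_exponent_le h (by norm_num)
    rw [Real.rpow_one] at h1
    have h2 := Real.add_one_le_exp v
    linarith

private lemma bound (t : ℝ) : ∃ C : ℝ, ∀ X : ℝ, 0 < X →
    |KB t X| ≤ C * X ^ (-(1 / 4 : ℝ)) * Real.exp (-(X / 2)) := by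
  refine ⟨4 * 4 ^ (1 / 4 : ℝ), ?_⟩
  intro X hX
  have hint : IntegrableOn (fun u : ℝ => Real.exp (-(1 / 4) * u)) (Ioi 0) :=
    exp_neg_integrableOn_Ioi 0 (by norm_num)
  have hint2 : IntegrableOn (fun u : ℝ => (4 ^ (1 / 4 : ℝ) * X ^ (-(1 / 4 : ℝ)) *
      Real.exp (-(X / 2))) * Real.exp (-(1 / 4) * u)) (Ioi 0) := hint.const_mul _
  have hval : ∫ u in Ioi (0 : ℝ), Real.exp (-(1 / 4) * u) = 4 := by
    rw [integral_exp_mul_Ioi (by norm_num)]
    norm_num
  have hb : ∀ u ∈ Ioi (0 : ℝ), ‖Real.exp (-(X * Real.cosh u)) * Real.cos (t * u)‖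
      ≤ (4 ^ (1 / 4 : ℝ) * X ^ (-(1 / 4 : ℝ)) * Real.exp (-(X / 2))) *
        Real.exp (-(1 / 4) * u) := by
    intro u _
    rw [norm_mul, Real.norm_of_nonneg (Real.exp_pos _).le, Real.norm_eq_abs]
    have h1 : |Real.cos (t * u)| ≤ 1 := Real.abs_cos_le_one _
    have h2 : Real.exp (-(X * Real.cosh u)) * |Real.cos (t * u)|
        ≤ Real.exp (-(X * Real.cosh u)) := by
      have := (Real.exp_pos (-(X * Real.cosh u))).le
      nlinarith [abs_nonneg (Real.cos (t * u))]
    refine h2.trans ?_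
    have hv : 0 < X / 4 * Real.exp u := by positivity
    have h3 : Real.exp (-(X * Real.cosh u)) ≤
        Real.exp (-(X / 2)) * Real.exp (-(X / 4 * Real.exp u)) := by
      rw [← Real.exp_add]
      apply Real.exp_le_exp.2
      have h4 := half_exp_le_cosh u
      have h5 := Real.one_le_cosh u
      nlinarith
    refine h3.trans ?_
    have h6 := exp_neg_le _ hv
    have h7 : (X / 4 * Real.exp u) ^ (-(1 / 4 : ℝ))
        = 4 ^ (1 / 4 : ℝ) * X ^ (-(1 / 4 : ℝ)) * Real.exp (-(1 / 4) * u) := by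
      rw [Real.mul_rpow (by positivity) (Real.exp_pos u).le, Real.div_rpow hX.le (by norm_num),
        ← Real.exp_mul, Real.rpow_neg (by norm_num : (0 : ℝ) ≤ 4), div_inv_eq_mul]
      rw [mul_comm u (-(1 / 4))]
      ring
    rw [h7] at h6
    calc Real.exp (-(X / 2)) * Real.exp (-(X / 4 * Real.exp u))
        ≤ Real.exp (-(X / 2)) *
          (4 ^ (1 / 4 : ℝ) * X ^ (-(1 / 4 : ℝ)) * Real.exp (-(1 / 4) * u)) :=
          mul_le_mul_of_nonneg_left h6 (Real.exp_pos _).le
      _ = _ := by ring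
  have hmain := norm_integral_le_of_norm_le (μ := volume.restrict (Ioi (0 : ℝ))) hint2
    ((ae_restrict_iff' measurableSet_Ioi).2 (Eventually.of_forall hb))
  rw [integral_const_mul, hval] at hmain
  unfold KB
  rw [← Real.norm_eq_abs]
  refine hmain.trans (le_of_eq ?_)
  ring

/-! ### The logistic substitution -/

/-- the logistic function -/
private noncomputable def lo (u : ℝ) : ℝ := (1 + Real.exp (-(2 * u)))⁻¹

private lemma lo_pos (u : ℝ) : 0 < lo u := by
  unfold lo
  have := Real.exp_pos (-(2 * u))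
  positivity

private lemma one_sub_lo (u : ℝ) : 1 - lo u = Real.exp (-(2 * u)) * lo u := by
  unfold lo
  have := Real.exp_pos (-(2 * u))
  field_simp
  ring

private lemma one_sub_lo_pos (u : ℝ) : 0 < 1 - lo u := by
  rw [one_sub_lo]
  exact mul_pos (Real.exp_pos _) (lo_pos u)

private lemma lo_deriv (u : ℝ) : HasDerivAt lo (2 * lo u * (1 - lo u)) u := by
  have h1 : HasDerivAt (fun u : ℝ => 1 + Real.exp (-(2 * u))) (Real.exp (-(2 * u)) * (-(2 * 1))) u :=
    ((((hasDerivAt_id u).const_mul 2).neg).exp).const_add 1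
  have h2 := h1.inv (by
    have := Real.exp_pos (-(2 * u))
    positivity)
  have h3 : 2 * lo u * (1 - lo u)
      = -(Real.exp (-(2 * u)) * (-(2 * 1))) / (1 + Real.exp (-(2 * u))) ^ 2 := by
    rw [one_sub_lo]
    unfold lo
    have := Real.exp_pos (-(2 * u))
    field_simp
  rw [h3]
  exact h2

private lemma lo_inj : Function.Injective lo := by
  intro u v h
  unfold lo at h
  have h1 := inv_injective h
  have h2 : Real.exp (-(2 * u)) = Real.exp (-(2 * v)) := by linarith
  have h3 := Real.exp_injective h2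
  linarith

private lemma lo_image : lo '' univ = Ioo 0 1 := by
  ext x
  constructor
  · rintro ⟨u, -, rfl⟩
    exact ⟨lo_pos u, by linarith [one_sub_lo_pos u]⟩
  · rintro ⟨h0, h1⟩
    refine ⟨-(Real.log (x⁻¹ - 1) / 2), mem_univ _, ?_⟩
    have h2 : 0 < x⁻¹ - 1 := by
      have := (one_lt_inv₀ h0).2 h1
      linarith
    unfold lo
    have h3 : -(2 * -(Real.log (x⁻¹ - 1) / 2)) = Real.log (x⁻¹ - 1) := by ring
    rw [h3, Real.exp_log h2]
    rw [add_sub_cancel, inv_inv]

private lemma log_lo (u : ℝ) : Real.log (lo u) = u - Real.log (2 * Real.cosh u) := by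
  have h1 : lo u = Real.exp u / (2 * Real.cosh u) := by
    unfold lo
    rw [Real.cosh_eq]
    have h2 : Real.exp (-(2 * u)) = Real.exp (-u) * Real.exp (-u) := by
      rw [← Real.exp_add]
      congr 1
      ring
    have h3 : Real.exp u * Real.exp (-u) = 1 := by
      rw [← Real.exp_add]
      simp
    have h4 := Real.exp_pos u
    have h5 := Real.exp_pos (-u)
    rw [h2]
    field_simp
    nlinarith
  have h6 := Real.cosh_pos u
  rw [h1, Real.log_div (Real.exp_pos u).ne' (by positivity), Real.log_exp]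

private lemma log_one_sub_lo (u : ℝ) :
    Real.log (1 - lo u) = -u - Real.log (2 * Real.cosh u) := by
  rw [one_sub_lo, Real.log_mul (Real.exp_pos _).ne' (lo_pos u).ne', Real.log_exp, log_lo]
  ring

private lemma pull (s t : ℝ) (u : ℝ) :
    |2 * lo u * (1 - lo u)| • (((lo u : ℝ) : ℂ) ^ (((s / 2 : ℝ) : ℂ) + ((t / 2 : ℝ) : ℂ) * Complex.I - 1) *
      (1 - ((lo u : ℝ) : ℂ)) ^ (((s / 2 : ℝ) : ℂ) - ((t / 2 : ℝ) : ℂ) * Complex.I - 1))
    = ((2 * (2 * Real.cosh u) ^ (-s) : ℝ) : ℂ) * Complex.exp (((t * u : ℝ) : ℂ) * Complex.I) := by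
  have h1 := lo_pos u
  have h2 := one_sub_lo_pos u
  have hc : (1 - ((lo u : ℝ) : ℂ)) = (((1 - lo u : ℝ)) : ℂ) := by push_cast; ring
  have hpos : 0 < 2 * lo u * (1 - lo u) := by positivity
  have hl0 : ((lo u : ℝ) : ℂ) ≠ 0 := by exact_mod_cast h1.ne'
  have hl1 : ((1 - lo u : ℝ) : ℂ) ≠ 0 := by exact_mod_cast h2.ne'
  rw [abs_of_pos hpos, hc, Complex.cpow_sub _ _ hl0, Complex.cpow_sub _ _ hl1,
    Complex.cpow_one, Complex.cpow_one, Complex.real_smul]
  have h3 : (((2 * lo u * (1 - lo u) : ℝ)) : ℂ) = 2 * ((lo u : ℝ) : ℂ) * ((1 - lo u : ℝ) : ℂ) := by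
    push_cast; ring
  rw [h3]
  have h4 : 2 * ((lo u : ℝ) : ℂ) * ((1 - lo u : ℝ) : ℂ) *
      (((lo u : ℝ) : ℂ) ^ (((s / 2 : ℝ) : ℂ) + ((t / 2 : ℝ) : ℂ) * Complex.I) / ((lo u : ℝ) : ℂ) *
      ((((1 - lo u : ℝ) : ℂ)) ^ (((s / 2 : ℝ) : ℂ) - ((t / 2 : ℝ) : ℂ) * Complex.I) /
        ((1 - lo u : ℝ) : ℂ)))
      = 2 * (((lo u : ℝ) : ℂ) ^ (((s / 2 : ℝ) : ℂ) + ((t / 2 : ℝ) : ℂ) * Complex.I) *
      (((1 - lo u : ℝ) : ℂ)) ^ (((s / 2 : ℝ) : ℂ) - ((t / 2 : ℝ) : ℂ) * Complex.I)) := by
    field_simp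
  rw [h4, Complex.cpow_def_of_ne_zero hl0, Complex.cpow_def_of_ne_zero hl1,
    ← Complex.ofReal_log h1.le, ← Complex.ofReal_log h2.le, ← Complex.exp_add, log_lo,
    log_one_sub_lo]
  have h5 : 0 < 2 * Real.cosh u := by
    have := Real.cosh_pos u
    positivity
  have h6 : ((2 * (2 * Real.cosh u) ^ (-s) : ℝ) : ℂ)
      = 2 * Complex.exp (((Real.log (2 * Real.cosh u) * (-s) : ℝ)) : ℂ) := by
    rw [Real.rpow_def_of_pos h5]
    push_cast
    ring
  rw [h6, mul_assoc, ← Complex.exp_add]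
  congr 2
  push_cast
  ring

private lemma beta_re (s t : ℝ) (hs : 0 < s) :
    (Complex.betaIntegral (((s / 2 : ℝ) : ℂ) + ((t / 2 : ℝ) : ℂ) * Complex.I)
      (((s / 2 : ℝ) : ℂ) - ((t / 2 : ℝ) : ℂ) * Complex.I)).re ≠ 0 := by
  set a : ℂ := ((s / 2 : ℝ) : ℂ) + ((t / 2 : ℝ) : ℂ) * Complex.I with ha
  set b : ℂ := ((s / 2 : ℝ) : ℂ) - ((t / 2 : ℝ) : ℂ) * Complex.I with hb
  have hare : a.re = s / 2 := by simp [ha]
  have hbre : b.re = s / 2 := by simp [hb]
  have ha0 : 0 < a.re := by rw [hare]; linarith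
  have hb0 : 0 < b.re := by rw [hbre]; linarith
  have hconj : b = (starRingEnd ℂ) a := by
    rw [ha, hb, map_add, map_mul, Complex.conj_ofReal, Complex.conj_ofReal, Complex.conj_I]
    ring
  have hsum : a + b = ((s : ℝ) : ℂ) := by
    rw [ha, hb]
    push_cast
    ring
  have h1 := Complex.Gamma_mul_Gamma_eq_betaIntegral ha0 hb0
  have h2 : Complex.Gamma a * Complex.Gamma b = ((Complex.normSq (Complex.Gamma a) : ℝ) : ℂ) := by
    rw [hconj, Complex.Gamma_conj, Complex.mul_conj]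
  rw [h2, hsum, Complex.Gamma_ofReal] at h1
  have h3 := congrArg Complex.re h1
  rw [Complex.ofReal_re, Complex.re_ofReal_mul] at h3
  intro h0
  rw [h0, mul_zero, Complex.normSq_eq_zero] at h3
  exact Complex.Gamma_ne_zero_of_re_pos ha0 h3

/-- The cosine transform of `(cosh u)^(-s)` is not zero. -/
private lemma cos_int (s t : ℝ) (hs : 0 < s) :
    ∫ u in Ioi (0 : ℝ), Real.cos (t * u) * (Real.cosh u) ^ (-s) ≠ 0 := by
  set a : ℂ := ((s / 2 : ℝ) : ℂ) + ((t / 2 : ℝ) : ℂ) * Complex.I with ha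
  set b : ℂ := ((s / 2 : ℝ) : ℂ) - ((t / 2 : ℝ) : ℂ) * Complex.I with hb
  have hare : a.re = s / 2 := by simp [ha]
  have hbre : b.re = s / 2 := by simp [hb]
  have ha0 : 0 < a.re := by rw [hare]; linarith
  have hb0 : 0 < b.re := by rw [hbre]; linarith
  set g : ℝ → ℂ := fun x => (x : ℂ) ^ (a - 1) * (1 - (x : ℂ)) ^ (b - 1) with hg
  have hconv : IntegrableOn g (Ioo 0 1) := by
    have h1 := Complex.betaIntegral_convergent ha0 hb0
    rw [intervalIntegrable_iff_integrableOn_Ioo_of_le (by norm_num)] at h1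
    exact h1
  have hbeta : Complex.betaIntegral a b = ∫ x in Ioo (0 : ℝ) 1, g x := by
    unfold Complex.betaIntegral
    rw [intervalIntegral.integral_of_le (by norm_num), integral_Ioc_eq_integral_Ioo]
  have hder : ∀ x ∈ (univ : Set ℝ), HasDerivWithinAt lo (2 * lo x * (1 - lo x)) univ x :=
    fun x _ => (lo_deriv x).hasDerivWithinAt
  have himg := integral_image_eq_integral_abs_deriv_smul MeasurableSet.univ hder
    lo_inj.injOn g
  have hint := (integrableOn_image_iff_integrableOn_abs_deriv_smul MeasurableSet.univ hder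
    lo_inj.injOn g).1 (by rw [lo_image]; exact hconv)
  rw [lo_image, ← hbeta] at himg
  have hpull : (fun u : ℝ => |2 * lo u * (1 - lo u)| • g (lo u))
      = fun u => ((2 * (2 * Real.cosh u) ^ (-s) : ℝ) : ℂ) *
        Complex.exp (((t * u : ℝ) : ℂ) * Complex.I) := by
    funext u
    exact pull s t u
  rw [hpull] at himg hint
  rw [integrableOn_univ] at hint
  rw [setIntegral_univ] at himg
  have hre := integral_re hint
  rw [← himg] at hre
  have hre2 : ∀ u : ℝ, RCLike.re (((2 * (2 * Real.cosh u) ^ (-s) : ℝ) : ℂ) *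
        Complex.exp (((t * u : ℝ) : ℂ) * Complex.I))
      = (fun v : ℝ => (2 * 2 ^ (-s)) * (Real.cos (t * v) * (Real.cosh v) ^ (-s))) |u| := by
    intro u
    change (((2 * (2 * Real.cosh u) ^ (-s) : ℝ) : ℂ) *
        Complex.exp (((t * u : ℝ) : ℂ) * Complex.I)).re = _
    rw [Complex.re_ofReal_mul, Complex.exp_ofReal_mul_I_re,
      Real.mul_rpow (by norm_num) (Real.cosh_pos u).le]
    simp only
    have h1 : Real.cos (t * |u|) = Real.cos (t * u) := by
      rcases abs_choice u with h | h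
      · rw [h]
      · rw [h, mul_neg, Real.cos_neg]
    rw [h1, Real.cosh_abs]
    ring
  have habs := integral_comp_abs
    (f := fun v : ℝ => (2 * 2 ^ (-s)) * (Real.cos (t * v) * (Real.cosh v) ^ (-s)))
  rw [← integral_congr_ae (Eventually.of_forall hre2), hre, integral_const_mul] at habs
  intro h0
  rw [h0, mul_zero, mul_zero] at habs
  exact beta_re s t hs habs

private lemma inner_int (s t u : ℝ) (hs : 0 < s) :
    Integrable (fun y : ℝ => Real.exp (-(y * Real.cosh u)) * Real.cos (t * u) * y ^ (s - 1))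
      (volume.restrict (Ioi 0)) ∧
    ∫ y in Ioi (0 : ℝ), ‖Real.exp (-(y * Real.cosh u)) * Real.cos (t * u) * y ^ (s - 1)‖
      = |Real.cos (t * u)| * ((Real.cosh u) ^ (-s) * Real.Gamma s) ∧
    ∫ y in Ioi (0 : ℝ), Real.exp (-(y * Real.cosh u)) * Real.cos (t * u) * y ^ (s - 1)
      = Real.Gamma s * (Real.cos (t * u) * (Real.cosh u) ^ (-s)) := by
  have hc := Real.cosh_pos u
  have h1 := Real.integral_rpow_mul_exp_neg_mul_Ioi hs hc
  have hG : 0 < Real.Gamma s := Real.Gamma_pos_of_pos hs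
  have h2 : Integrable (fun y : ℝ => y ^ (s - 1) * Real.exp (-(Real.cosh u * y)))
      (volume.restrict (Ioi 0)) := by
    by_contra hn
    rw [integral_undef hn] at h1
    have : 0 < (1 / Real.cosh u) ^ s * Real.Gamma s := by positivity
    linarith
  have h3 : ∀ y : ℝ, Real.exp (-(y * Real.cosh u)) * Real.cos (t * u) * y ^ (s - 1)
      = Real.cos (t * u) * (y ^ (s - 1) * Real.exp (-(Real.cosh u * y))) := by
    intro y
    rw [mul_comm (Real.cosh u) y]
    ring
  have h4 : (1 / Real.cosh u) ^ s = (Real.cosh u) ^ (-s) := by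
    rw [one_div, Real.inv_rpow hc.le, Real.rpow_neg hc.le]
  rw [h4] at h1
  refine ⟨?_, ?_, ?_⟩
  · simp only [h3]
    exact h2.const_mul _
  · have h5 : ∀ y ∈ Ioi (0 : ℝ), ‖Real.exp (-(y * Real.cosh u)) * Real.cos (t * u) * y ^ (s - 1)‖
        = |Real.cos (t * u)| * (y ^ (s - 1) * Real.exp (-(Real.cosh u * y))) := by
      intro y hy
      rw [h3, norm_mul, Real.norm_eq_abs, Real.norm_of_nonneg]
      have : 0 ≤ y := le_of_lt hy
      positivity
    rw [setIntegral_congr_fun measurableSet_Ioi h5, integral_const_mul, h1]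
  · simp only [h3]
    rw [integral_const_mul, h1]
    ring

private lemma mellin (s t : ℝ) (hs : 0 < s) :
    ∫ y in Ioi (0 : ℝ), KB t y * y ^ (s - 1)
      = Real.Gamma s * ∫ u in Ioi (0 : ℝ), Real.cos (t * u) * (Real.cosh u) ^ (-s) := by
  have hmeas : Measurable (Function.uncurry
      (fun y u : ℝ => Real.exp (-(y * Real.cosh u)) * Real.cos (t * u) * y ^ (s - 1))) := by
    have hm1 : Measurable (fun p : ℝ × ℝ => p.1 ^ (s - 1)) :=
      (measurable_id.pow_const (s - 1)).comp measurable_fst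
    have hm2 : Measurable (fun p : ℝ × ℝ => Real.exp (-(p.1 * Real.cosh p.2)) *
        Real.cos (t * p.2)) := by
      apply Continuous.measurable
      have := Real.continuous_cosh
      fun_prop
    exact hm2.mul hm1
  have hint : Integrable (Function.uncurry
      (fun y u : ℝ => Real.exp (-(y * Real.cosh u)) * Real.cos (t * u) * y ^ (s - 1)))
      ((volume.restrict (Ioi (0 : ℝ))).prod (volume.restrict (Ioi (0 : ℝ)))) := by
    rw [integrable_prod_iff' hmeas.aestronglyMeasurable]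
    refine ⟨Eventually.of_forall fun u => (inner_int s t u hs).1, ?_⟩
    have h1 : (fun u : ℝ => ∫ y in Ioi (0 : ℝ), ‖Function.uncurry
        (fun y u : ℝ => Real.exp (-(y * Real.cosh u)) * Real.cos (t * u) * y ^ (s - 1)) (y, u)‖)
        = fun u => |Real.cos (t * u)| * ((Real.cosh u) ^ (-s) * Real.Gamma s) := by
      funext u
      exact (inner_int s t u hs).2.1
    rw [h1]
    have hG : 0 < Real.Gamma s := Real.Gamma_pos_of_pos hs
    have hdom : Integrable (fun u : ℝ => (2 ^ s * Real.Gamma s) * Real.exp (-s * u))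
        (volume.restrict (Ioi 0)) := (exp_neg_integrableOn_Ioi 0 hs).const_mul _
    refine hdom.mono' ?_ ?_
    · apply Measurable.aestronglyMeasurable
      have hm1 : Measurable (fun u : ℝ => |Real.cos (t * u)|) := by
        apply Continuous.measurable
        fun_prop
      have hm2 : Measurable (fun u : ℝ => (Real.cosh u) ^ (-s)) :=
        Real.measurable_cosh.pow_const (-s)
      exact hm1.mul (hm2.mul_const _)
    · refine (ae_restrict_iff' measurableSet_Ioi).2 (Eventually.of_forall ?_)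
      intro u _
      have hc := Real.cosh_pos u
      rw [Real.norm_of_nonneg (by positivity)]
      have h2 : |Real.cos (t * u)| ≤ 1 := Real.abs_cos_le_one _
      have h3 : (Real.cosh u) ^ (-s) ≤ (Real.exp u / 2) ^ (-s) :=
        Real.rpow_le_rpow_of_nonpos (by positivity) (half_exp_le_cosh u) (by linarith)
      have h4 : (Real.exp u / 2) ^ (-s) = 2 ^ s * Real.exp (-s * u) := by
        rw [Real.div_rpow (Real.exp_pos u).le (by norm_num), ← Real.exp_mul,
          Real.rpow_neg (by norm_num : (0 : ℝ) ≤ 2), div_inv_eq_mul]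
        rw [mul_comm u (-s)]
        ring
      rw [h4] at h3
      have h5 : 0 ≤ (Real.cosh u) ^ (-s) * Real.Gamma s := by positivity
      calc |Real.cos (t * u)| * ((Real.cosh u) ^ (-s) * Real.Gamma s)
          ≤ 1 * ((Real.cosh u) ^ (-s) * Real.Gamma s) := mul_le_mul_of_nonneg_right h2 h5
        _ = (Real.cosh u) ^ (-s) * Real.Gamma s := one_mul _
        _ ≤ (2 ^ s * Real.exp (-s * u)) * Real.Gamma s := mul_le_mul_of_nonneg_right h3 hG.le
        _ = _ := by ring
  have h1 : ∀ y : ℝ, KB t y * y ^ (s - 1)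
      = ∫ u in Ioi (0 : ℝ), Real.exp (-(y * Real.cosh u)) * Real.cos (t * u) * y ^ (s - 1) := by
    intro y
    unfold KB
    rw [← integral_mul_const]
  simp only [h1]
  rw [integral_integral_swap hint]
  simp only [(inner_int s t _ hs).2.2]
  rw [integral_const_mul]

end Q1M

theorem stmtQ1 : StmtQ1 := by
  intro t
  refine ⟨Q1M.bound t, ?_⟩
  intro s hs
  rw [Q1M.mellin s t hs]
  exact mul_ne_zero (Real.Gamma_pos_of_pos hs).ne' (Q1M.cos_int s t hs)

end Pool.Agent.A54.Av
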