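import Pool.Agent.Lib.MP_a54f13_nt.Av.SpecF

/-!
# The functions `E` and `G`
-/

set_option autoImplicit false

namespace Pool.Agent.A54.Av

open MeasureTheory Filter Topology Set
open scoped ContDiff ComplexConjugate UpperHalfPlane MatrixGroups ENNReal
open Pool.Agent.A54.Half (H0 qq ff hh)

noncomputable section

namespace Q2M

lemma ext_of_pos (f : ℍ → ℝ) {z : ℂ} (hz : 0 < z.im) : ext f z = f ⟨z, hz⟩ := by
  unfold ext
  rw [UpperHalfPlane.ofComplex_apply_of_im_pos hz]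

lemma ext_S {f : ℍ → ℝ} {t : ℝ} (hf : IsHeckeMaass f t) {z : ℂ} (hz : 0 < z.im) :
    ext f (-z)⁻¹ = ext f z := by
  have h1 := hf.invariant ModularGroup.S ⟨z, hz⟩
  rw [UpperHalfPlane.modular_S_smul] at h1
  rw [ext_of_pos f hz, ← h1, ext_of_pos f]

lemma diff_ext {f : ℍ → ℝ} {t : ℝ} (hf : IsHeckeMaass f t) {z : ℂ} (hz : 0 < z.im) :
    HasFDerivAt (ext f) (fderiv ℝ (ext f) z) z := by
  have ho : IsOpen {z : ℂ | 0 < z.im} := isOpen_lt continuous_const Complex.continuous_im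
  have h1 : ContDiffAt ℝ ∞ (ext f) z := hf.smooth.contDiffAt (ho.mem_nhds hz)
  exact (h1.differentiableAt (by simp)).hasFDerivAt

lemma path (y x : ℝ) : HasDerivAt (fun x : ℝ => (⟨x, y⟩ : ℂ)) 1 x := by
  have e : (fun x : ℝ => (⟨x, y⟩ : ℂ)) = fun x : ℝ => (x : ℂ) + (y : ℂ) * Complex.I := by
    ext1 x
    exact Complex.mk_eq_add_mul_I x y
  rw [e]
  exact (Complex.ofRealCLM.hasDerivAt (x := x)).add_const _

lemma hasD {f : ℍ → ℝ} {t : ℝ} (hf : IsHeckeMaass f t) {y : ℝ} (hy : 0 < y) :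
    HasDerivAt (fun x : ℝ => ext f ⟨x, y⟩) (fderiv ℝ (ext f) ⟨0, y⟩ 1) 0 := by
  have h1 := diff_ext hf (z := ⟨0, y⟩) hy
  exact HasFDerivAt.comp_hasDerivAt (f := fun x : ℝ => (⟨x, y⟩ : ℂ)) 0 h1 (path y 0)

lemma symm {f : ℍ → ℝ} {t : ℝ} (hf : IsHeckeMaass f t) {y : ℝ} (hy : 0 < y) :
    fE f y⁻¹ = fE f y ∧ fG f y⁻¹ = -fG f y := by
  have hyi : 0 < y⁻¹ := inv_pos.2 hy
  have hyC : (y : ℂ) ≠ 0 := by exact_mod_cast hy.ne'
  have e0 : (-(⟨0, y⟩ : ℂ))⁻¹ = ⟨0, y⁻¹⟩ := by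
    rw [Complex.mk_eq_add_mul_I, Complex.mk_eq_add_mul_I]
    push_cast
    have hI := Complex.I_mul_I
    rw [zero_add, zero_add, inv_eq_iff_eq_inv, mul_inv, inv_inv, Complex.inv_I]
    ring
  refine ⟨?_, ?_⟩
  · unfold fE
    rw [← e0]
    exact ext_S hf hy
  · have h1 := diff_ext hf (z := ⟨0, y⁻¹⟩) hyi
    have hne : -(⟨0, y⟩ : ℂ) ≠ 0 := by
      intro h
      have := congrArg Complex.im h
      simp at this
      exact hy.ne' this
    have h2 : HasDerivAt (fun x : ℝ => (-(⟨x, y⟩ : ℂ))⁻¹) (-(-1) / (-(⟨0, y⟩ : ℂ)) ^ 2) 0 :=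
      (path y 0).neg.inv hne
    have h3 : -(-1) / (-(⟨0, y⟩ : ℂ)) ^ 2 = ((-(y ^ 2)⁻¹ : ℝ) : ℂ) := by
      rw [Complex.mk_eq_add_mul_I]
      push_cast
      have hI := Complex.I_sq
      rw [zero_add, neg_sq, mul_pow, hI]
      field_simp
    rw [h3] at h2
    have h4 : HasDerivAt (fun x : ℝ => ext f ((-(⟨x, y⟩ : ℂ))⁻¹))
        (fderiv ℝ (ext f) ⟨0, y⁻¹⟩ ((-(y ^ 2)⁻¹ : ℝ) : ℂ)) 0 := by
      rw [← e0] at h1 ⊢
      exact HasFDerivAt.comp_hasDerivAt (f := fun x : ℝ => (-(⟨x, y⟩ : ℂ))⁻¹) 0 h1 h2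
    have e1 : (fun x : ℝ => ext f ((-(⟨x, y⟩ : ℂ))⁻¹)) = fun x : ℝ => ext f ⟨x, y⟩ := by
      ext1 x
      exact ext_S hf hy
    rw [e1] at h4
    have h5 := h4.unique (hasD hf hy)
    have h6 : (((-(y ^ 2)⁻¹ : ℝ) : ℂ)) = (-(y ^ 2)⁻¹ : ℝ) • (1 : ℂ) := by
      rw [Complex.real_smul, mul_one]
    rw [h6, map_smul, smul_eq_mul] at h5
    unfold fG
    rw [← h5]
    field_simp

lemma kbb (hKBf : StmtKBf) (t : ℝ) {w : ℝ} (hw : 0 < w) :
    |√w * KB t (2 * Real.pi * w)| ≤ 1 / 2 * Real.exp (-(2 * Real.pi * w)) := by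
  have hp := Real.pi_pos
  have h1 := (hKBf t).2.2.1 (2 * Real.pi * w) (by positivity)
  have h2 : √w * √(Real.pi / (2 * (2 * Real.pi * w))) = 1 / 2 := by
    rw [← Real.sqrt_mul hw.le]
    have : w * (Real.pi / (2 * (2 * Real.pi * w))) = (1 / 2) ^ 2 := by
      field_simp
    rw [this, Real.sqrt_sq (by norm_num)]
  rw [abs_mul, abs_of_nonneg (Real.sqrt_nonneg w)]
  have h3 := mul_le_mul_of_nonneg_left h1 (Real.sqrt_nonneg w)
  rw [← mul_assoc, h2] at h3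
  exact h3

lemma norm_ee_real (x : ℝ) : ‖ee (x : ℂ)‖ = 1 := by
  unfold ee
  have : (2 * (Real.pi : ℂ) * Complex.I * (x : ℂ)) = ((2 * Real.pi * x : ℝ) : ℂ) * Complex.I := by
    push_cast; ring
  rw [this, Complex.norm_exp_ofReal_mul_I]

lemma an_le {f : ℍ → ℝ} {B : ℝ} (hB : ∀ z : ℍ, |f z| ≤ B) (n : ℤ) {y : ℝ} (hy : 0 < y) :
    ‖an f n y‖ ≤ B := by
  unfold an
  have := intervalIntegral.norm_integral_le_of_norm_le_const (a := 0) (b := 1) (C := B)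
    (f := fun x : ℝ => (ext f ⟨x, y⟩ : ℂ) * ee (-((n : ℂ) * x))) (fun x _ => by
      have e : -((n : ℂ) * x) = ((-(n * x) : ℝ) : ℂ) := by push_cast; ring
      rw [norm_mul, e, norm_ee_real, mul_one, Complex.norm_real, Real.norm_eq_abs,
        ext_of_pos f (z := ⟨x, y⟩) hy]
      exact hB _)
  simpa using this

lemma c_bound (hDec : StmtDec) (hFo : StmtFo1) (hKBf : StmtKBf) {f : ℍ → ℝ} {t : ℝ} {ρ : ℂ}
    {c : ℕ → ℝ} (hf : IsHeckeMaass f t) (hρ : IsRho f t ρ)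
    (hc : ∀ m : ℕ, 1 ≤ m → IsHk f m (c m)) :
    ∃ C : ℝ, 0 ≤ C ∧ ∀ n : ℕ, 1 ≤ n → |c n| ≤ C * n := by
  have hp := Real.pi_pos
  obtain ⟨B, -, -, -, hB⟩ := hDec f t hf
  have hlim := (hKBf t).2.2.2.2
  have hpos : (0 : ℝ) < √(Real.pi / 2) := Real.sqrt_pos.2 (by positivity)
  obtain ⟨X, hX1, hX2⟩ := ((hlim.eventually (lt_mem_nhds hpos)).and (eventually_ge_atTop 1)).exists
  have hX0 : 0 < X := by linarith
  have hK : KB t X ≠ 0 := by
    intro h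
    rw [h] at hX1
    simp at hX1
  set y0 : ℝ := X / (2 * Real.pi) with hy0
  have hy0p : 0 < y0 := by positivity
  have hX : 2 * Real.pi * y0 = X := by
    rw [hy0]; field_simp
  have ha : an f 1 y0 ≠ 0 := by
    rw [hρ.2 y0 hy0p, hX]
    refine mul_ne_zero hρ.1 ?_
    exact_mod_cast mul_ne_zero (Real.sqrt_pos.2 hy0p).ne' hK
  have ha' : 0 < ‖an f 1 y0‖ := norm_pos_iff.2 ha
  have hB0 : 0 ≤ B := (abs_nonneg _).trans (hB UpperHalfPlane.I)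
  refine ⟨B / ‖an f 1 y0‖, by positivity, fun n hn => ?_⟩
  have hn0 : (0 : ℝ) < n := by exact_mod_cast hn
  have h1 := (hFo f t hf).2.2.2.2 n (c n) hn (hc n hn) (y0 / n) (by positivity)
  have e : (n : ℝ) * (y0 / n) = y0 := by field_simp
  rw [e] at h1
  have h2 := an_le hB (n : ℤ) (y := y0 / n) (by positivity)
  rw [h1, norm_mul, Complex.norm_real, Real.norm_eq_abs, abs_div, abs_of_pos hn0] at h2
  rw [div_mul_eq_mul_div, le_div_iff₀ ha']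
  rw [div_mul_eq_mul_div, div_le_iff₀ hn0] at h2
  exact h2

lemma a_eq (hFo : StmtFo1) {f : ℍ → ℝ} {t : ℝ} {ρ : ℂ}
    {c : ℕ → ℝ} (hf : IsHeckeMaass f t) (hρ : IsRho f t ρ)
    (hc : ∀ m : ℕ, 1 ≤ m → IsHk f m (c m)) {n : ℕ} (hn : 1 ≤ n) {y : ℝ} (hy : 0 < y) :
    an f n y = ((c n / n : ℝ) : ℂ) *
      (ρ * ((√(n * y) * KB t (2 * Real.pi * (n * y)) : ℝ) : ℂ)) := by
  have hn0 : (0 : ℝ) < n := by exact_mod_cast hn
  rw [(hFo f t hf).2.2.2.2 n (c n) hn (hc n hn) y hy, hρ.2 (n * y) (by positivity)]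

lemma a_bd (hFo : StmtFo1) (hKBf : StmtKBf) {f : ℍ → ℝ} {t : ℝ} {ρ : ℂ}
    {c : ℕ → ℝ} (hf : IsHeckeMaass f t) (hρ : IsRho f t ρ)
    (hc : ∀ m : ℕ, 1 ≤ m → IsHk f m (c m)) {C : ℝ} (hC : ∀ n : ℕ, 1 ≤ n → |c n| ≤ C * n)
    {n : ℕ} (hn : 1 ≤ n) {y : ℝ} (hy : 0 < y) :
    ‖an f n y‖ ≤ C * (‖ρ‖ * (1 / 2 * Real.exp (-(2 * Real.pi * (n * y))))) := by
  have hn0 : (0 : ℝ) < n := by exact_mod_cast hn
  rw [a_eq hFo hf hρ hc hn hy, norm_mul, norm_mul, Complex.norm_real, Complex.norm_real,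
    Real.norm_eq_abs, Real.norm_eq_abs, abs_div, abs_of_pos hn0]
  have h1 : |c n| / n ≤ C := by
    rw [div_le_iff₀ hn0]
    exact hC n hn
  have h2 := kbb hKBf t (w := n * y) (by positivity)
  exact mul_le_mul h1 (mul_le_mul_of_nonneg_left h2 (norm_nonneg _)) (by positivity)
    ((by positivity : 0 ≤ |c n| / n).trans h1)

lemma shift {φ : ℤ → ℂ} {s : ℂ} (h : HasSum φ s) (h0 : φ 0 = 0) :
    HasSum (fun n : ℕ => φ ((n + 1 : ℕ) : ℤ) + φ (-((n + 1 : ℕ) : ℤ))) s := by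
  have h1 := h.nat_add_neg
  rw [h0, add_zero] at h1
  have h2 := (hasSum_nat_add_iff' (f := fun n : ℕ => φ n + φ (-n)) 1).2 h1
  simpa [h0] using h2

lemma sumN (hFo : StmtFo1) (hKBf : StmtKBf) {f : ℍ → ℝ} {t : ℝ} {ρ : ℂ}
    {c : ℕ → ℝ} (hf : IsHeckeMaass f t) (hρ : IsRho f t ρ)
    (hc : ∀ m : ℕ, 1 ≤ m → IsHk f m (c m)) {C : ℝ} (hC : ∀ n : ℕ, 1 ≤ n → |c n| ≤ C * n)
    {y : ℝ} (hy : 0 < y) :
    Summable fun n : ℤ => 2 * Real.pi * (|(n : ℝ)| * ‖an f n y‖) := by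
  have hp := Real.pi_pos
  refine Summable.mul_left _ ?_
  have hr : ‖Real.exp (-(2 * Real.pi * y))‖ < 1 := by
    rw [Real.norm_eq_abs, abs_of_pos (Real.exp_pos _), Real.exp_lt_one_iff]
    have : 0 < 2 * Real.pi * y := by positivity
    linarith
  have h1 : Summable fun n : ℕ => (n : ℝ) ^ 1 * Real.exp (-(2 * Real.pi * y)) ^ n :=
    summable_pow_mul_geometric_of_norm_lt_one 1 hr
  have h2 : Summable fun n : ℕ => (n : ℝ) * ‖an f n y‖ := by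
    refine Summable.of_nonneg_of_le (fun n => by positivity) (fun n => ?_)
      (h1.mul_left (C * (‖ρ‖ * (1 / 2))))
    rcases Nat.eq_zero_or_pos n with h | h
    · subst h; simp
    · have h3 := mul_le_mul_of_nonneg_left (a_bd hFo hKBf hf hρ hc hC h hy)
        (Nat.cast_nonneg n : (0 : ℝ) ≤ n)
      have h4 : Real.exp (-(2 * Real.pi * y)) ^ n = Real.exp (-(2 * Real.pi * (n * y))) := by
        rw [← Real.exp_nat_mul]
        congr 1
        ring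
      rw [h4, pow_one]
      refine h3.trans (le_of_eq ?_)
      ring
  refine Summable.of_nat_of_neg ?_ ?_
  · refine h2.congr fun n => ?_
    simp
  · refine h2.congr fun n => ?_
    rw [(hFo f t hf).2.1 n y]
    simp

lemma derivSum (hFo : StmtFo1) (hKBf : StmtKBf) {f : ℍ → ℝ} {t : ℝ} {ρ : ℂ}
    {c : ℕ → ℝ} (hf : IsHeckeMaass f t) (hρ : IsRho f t ρ)
    (hc : ∀ m : ℕ, 1 ≤ m → IsHk f m (c m)) {C : ℝ} (hC : ∀ n : ℕ, 1 ≤ n → |c n| ≤ C * n)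
    {y : ℝ} (hy : 0 < y) :
    HasSum (fun n : ℤ => an f n y * (2 * (Real.pi : ℂ) * Complex.I * n))
      ((fderiv ℝ (ext f) ⟨0, y⟩ 1 : ℝ) : ℂ) := by
  have hp := Real.pi_pos
  have hs := sumN hFo hKBf hf hρ hc hC hy
  have hsum : ∀ x : ℝ, HasSum (fun n : ℤ => an f n y * ee ((n : ℂ) * x)) (ext f ⟨x, y⟩ : ℂ) :=
    fun x => (hFo f t hf).1 ⟨x, y⟩ hy
  have hg : ∀ (n : ℤ) (x : ℝ), HasDerivAt (fun x : ℝ => an f n y * ee ((n : ℂ) * x))
      (an f n y * (ee ((n : ℂ) * x) * (2 * (Real.pi : ℂ) * Complex.I * n))) x := by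
    intro n x
    refine HasDerivAt.const_mul _ ?_
    unfold ee
    have h1 : HasDerivAt (fun x : ℝ => 2 * (Real.pi : ℂ) * Complex.I * ((n : ℂ) * x))
        (2 * (Real.pi : ℂ) * Complex.I * ((n : ℂ) * 1)) x :=
      ((Complex.ofRealCLM.hasDerivAt (x := x)).const_mul (n : ℂ)).const_mul _
    have h2 := h1.cexp
    rw [mul_one] at h2
    exact h2
  have hb : ∀ (n : ℤ) (x : ℝ), ‖an f n y * (ee ((n : ℂ) * x) * (2 * (Real.pi : ℂ) * Complex.I * n))‖ ≤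
      2 * Real.pi * (|(n : ℝ)| * ‖an f n y‖) := by
    intro n x
    have e : ((n : ℂ) * x) = ((n * x : ℝ) : ℂ) := by push_cast; ring
    rw [norm_mul, norm_mul, e, norm_ee_real, one_mul, norm_mul, norm_mul, norm_mul,
      Complex.norm_I, Complex.norm_real, Real.norm_eq_abs, abs_of_pos hp]
    have : ‖(n : ℂ)‖ = |(n : ℝ)| := by
      rw [show (n : ℂ) = ((n : ℝ) : ℂ) by push_cast; rfl, Complex.norm_real, Real.norm_eq_abs]
    rw [this]
    have h2 : ‖(2 : ℂ)‖ = 2 := by simp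
    rw [h2]
    apply le_of_eq
    ring
  have h1 := hasDerivAt_tsum hs hg hb (hsum 0).summable 0
  have e1 : (fun x : ℝ => ∑' n : ℤ, an f n y * ee ((n : ℂ) * x)) = fun x : ℝ =>
      (ext f ⟨x, y⟩ : ℂ) := by
    ext1 x
    exact (hsum x).tsum_eq
  rw [e1] at h1
  have h2 : HasDerivAt (fun x : ℝ => (ext f ⟨x, y⟩ : ℂ)) ((fderiv ℝ (ext f) ⟨0, y⟩ 1 : ℝ) : ℂ) 0 :=
    (hasD hf hy).ofReal_comp
  have h3 := h1.unique h2
  have e2 : (fun n : ℤ => an f n y * (ee ((n : ℂ) * (0 : ℝ)) * (2 * (Real.pi : ℂ) * Complex.I * n))) =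
      fun n : ℤ => an f n y * (2 * (Real.pi : ℂ) * Complex.I * n) := by
    ext1 n
    simp [ee]
  have hs2 : Summable fun n : ℤ => an f n y *
      (ee ((n : ℂ) * (0 : ℝ)) * (2 * (Real.pi : ℂ) * Complex.I * n)) :=
    Summable.of_norm_bounded hs fun n => hb n 0
  rw [← h3, ← e2]
  exact hs2.hasSum

lemma re_aux (x y : ℝ) (ρ : ℂ) : ((x : ℂ) * (ρ * (y : ℂ))).re = x * (ρ.re * y) := by simp

lemma im_aux (x y : ℝ) (ρ : ℂ) : ((x : ℂ) * (ρ * (y : ℂ))).im = x * (ρ.im * y) := by simp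

lemma cast1 (n : ℕ) : ((n + 1 : ℕ) : ℝ) = (n : ℝ) + 1 := by push_cast; rfl

lemma div_sqrt_aux {N c : ℝ} (hN : 0 < N) : c / N * √N = c / √N := by
  have h1 := Real.mul_self_sqrt hN.le
  have h2 := Real.sqrt_pos.2 hN
  rw [div_mul_eq_mul_div, div_eq_div_iff hN.ne' h2.ne', mul_assoc, h1]

lemma sumE (hFo : StmtFo1) {f : ℍ → ℝ} {t : ℝ} {ρ : ℂ}
    {c : ℕ → ℝ} (hf : IsHeckeMaass f t) (hρ : IsRho f t ρ)
    (hc : ∀ m : ℕ, 1 ≤ m → IsHk f m (c m)) {y : ℝ} (hy : 0 < y) :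
    HasSum (fun n : ℕ => 2 * ρ.re * (c (n + 1) / √(n + 1) * (√y * KB t (2 * Real.pi * (n + 1) * y))))
      (fE f y) := by
  have h1 : HasSum (fun n : ℤ => an f n y) (fE f y : ℂ) := by
    have := (hFo f t hf).1 ⟨0, y⟩ hy
    have e : (fun n : ℤ => an f n (⟨0, y⟩ : ℂ).im * ee ((n : ℂ) * ((⟨0, y⟩ : ℂ).re : ℂ))) =
        fun n : ℤ => an f n y := by
      ext1 n
      simp [ee]
    rw [e] at this
    exact this
  have h2 := shift h1 ((hFo f t hf).2.2.2.1 y hy)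
  rw [← Complex.hasSum_ofReal]
  have e0 : (fun n : ℕ => an f ((n + 1 : ℕ) : ℤ) y + an f (-((n + 1 : ℕ) : ℤ)) y) = fun n : ℕ =>
      ((2 * ρ.re * (c (n + 1) / √(n + 1) * (√y * KB t (2 * Real.pi * (n + 1) * y))) : ℝ) : ℂ) := by
    ext1 n
    have hn0 : (0 : ℝ) < (n : ℝ) + 1 := by positivity
    rw [(hFo f t hf).2.1 ((n + 1 : ℕ) : ℤ) y, a_eq hFo hf hρ hc (Nat.le_add_left 1 n) hy]
    have e1 : 2 * Real.pi * (((n + 1 : ℕ) : ℝ) * y) = 2 * Real.pi * (n + 1) * y := by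
      push_cast; ring
    rw [e1, Complex.add_conj]
    congr 1
    rw [re_aux, cast1, Real.sqrt_mul hn0.le, ← div_sqrt_aux hn0]
    ring
  rw [e0] at h2
  exact h2

lemma sumG (hFo : StmtFo1) (hKBf : StmtKBf) {f : ℍ → ℝ} {t : ℝ} {ρ : ℂ}
    {c : ℕ → ℝ} (hf : IsHeckeMaass f t) (hρ : IsRho f t ρ)
    (hc : ∀ m : ℕ, 1 ≤ m → IsHk f m (c m)) {C : ℝ} (hC : ∀ n : ℕ, 1 ≤ n → |c n| ≤ C * n)
    {y : ℝ} (hy : 0 < y) :
    HasSum (fun n : ℕ => -(4 * Real.pi * ρ.im) * (c (n + 1) * √(n + 1) *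
      (y * √y * KB t (2 * Real.pi * (n + 1) * y)))) (fG f y) := by
  have h1 := derivSum hFo hKBf hf hρ hc hC hy
  have h2 := (shift h1 (by simp)).mul_left (y : ℂ)
  rw [← Complex.ofReal_mul] at h2
  rw [← Complex.hasSum_ofReal]
  have e0 : (fun n : ℕ => (y : ℂ) * (an f ((n + 1 : ℕ) : ℤ) y * (2 * (Real.pi : ℂ) * Complex.I *
      (((n + 1 : ℕ) : ℤ) : ℂ)) + an f (-((n + 1 : ℕ) : ℤ)) y * (2 * (Real.pi : ℂ) * Complex.I *
      ((-((n + 1 : ℕ) : ℤ) : ℤ) : ℂ)))) = fun n : ℕ =>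
      ((-(4 * Real.pi * ρ.im) * (c (n + 1) * √(n + 1) *
      (y * √y * KB t (2 * Real.pi * (n + 1) * y))) : ℝ) : ℂ) := by
    ext1 n
    have hn0 : (0 : ℝ) < (n : ℝ) + 1 := by positivity
    rw [(hFo f t hf).2.1 ((n + 1 : ℕ) : ℤ) y, a_eq hFo hf hρ hc (Nat.le_add_left 1 n) hy]
    have e1 : 2 * Real.pi * (((n + 1 : ℕ) : ℝ) * y) = 2 * Real.pi * (n + 1) * y := by
      push_cast; ring
    rw [e1]
    set A : ℂ := ((c (n + 1) / ((n + 1 : ℕ) : ℝ) : ℝ) : ℂ) *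
      (ρ * ((√(((n + 1 : ℕ) : ℝ) * y) * KB t (2 * Real.pi * (n + 1) * y) : ℝ) : ℂ)) with hA
    have e2 : A * (2 * (Real.pi : ℂ) * Complex.I * (((n + 1 : ℕ) : ℤ) : ℂ)) +
        conj A * (2 * (Real.pi : ℂ) * Complex.I * ((-((n + 1 : ℕ) : ℤ) : ℤ) : ℂ)) =
        (2 * (Real.pi : ℂ) * Complex.I * ((n : ℂ) + 1)) * (A - conj A) := by
      push_cast; ring
    have e3 : A.im = c (n + 1) / ((n : ℝ) + 1) * (ρ.im * (√(n + 1) * √y *
        KB t (2 * Real.pi * (n + 1) * y))) := by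
      rw [hA, im_aux, cast1, Real.sqrt_mul hn0.le]
    rw [e2, Complex.sub_conj, e3]
    generalize KB t (2 * Real.pi * (n + 1) * y) = κ
    push_cast
    have hn1 : (n : ℂ) + 1 ≠ 0 := by exact_mod_cast hn0.ne'
    have hI := Complex.I_sq
    field_simp
    linear_combination (4 * (y : ℂ) * (c (n + 1) : ℂ) * (ρ.im : ℂ) * ((√y : ℝ) : ℂ) * (κ : ℂ)) * hI
  rw [e0] at h2
  exact h2

end Q2M

open Q2M in
/-- **Q2** -/
theorem stmtQ2 (hDec : StmtDec) (hFo : StmtFo1) (hKBf : StmtKBf) : StmtQ2 := by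
  intro f t ρ c hf hρ hc
  obtain ⟨C, hC0, hC⟩ := c_bound hDec hFo hKBf hf hρ hc
  have hp := Real.pi_pos
  refine ⟨fun y hy => symm hf hy, ?_, ⟨C, hC⟩, fun y hy =>
    ⟨sumE hFo hf hρ hc hy, sumG hFo hKBf hf hρ hc hC hy⟩⟩
  obtain ⟨B, δ, hδ, hB1, hB2⟩ := hDec f t hf
  have hB0 : 0 ≤ B := (abs_nonneg _).trans (hB2 UpperHalfPlane.I)
  have hsum : Summable fun n : ℕ => Real.exp (-1) ^ n :=
    summable_geometric_of_lt_one (Real.exp_pos _).le (by rw [Real.exp_lt_one_iff]; norm_num)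
  have hs0 : 0 ≤ ∑' n : ℕ, Real.exp (-1) ^ n := tsum_nonneg fun n => by positivity
  refine ⟨max B (2 * Real.pi * ‖ρ‖ * C * ∑' n : ℕ, Real.exp (-1) ^ n), min δ 1, by positivity,
    fun y hy => ⟨?_, ?_⟩⟩
  · have hy0 : 0 < y := by linarith
    have h1 := hB1 ⟨⟨0, y⟩, hy0⟩ (by show (1 : ℝ) / 2 ≤ y; linarith)
    unfold fE
    rw [ext_of_pos f (z := ⟨0, y⟩) hy0]
    refine h1.trans (mul_le_mul (le_max_left _ _) (Real.exp_le_exp.2 ?_) (Real.exp_pos _).le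
      (hB0.trans (le_max_left _ _)))
    have : min δ 1 * y ≤ δ * y := mul_le_mul_of_nonneg_right (min_le_left _ _) hy0.le
    show -(δ * y) ≤ _
    linarith
  · have hy0 : 0 < y := by linarith
    have h1 := sumG hFo hKBf hf hρ hc hC hy0
    have hb : ∀ n : ℕ, ‖-(4 * Real.pi * ρ.im) * (c (n + 1) * √(n + 1) *
        (y * √y * KB t (2 * Real.pi * (n + 1) * y)))‖ ≤
        (2 * Real.pi * ‖ρ‖ * C * Real.exp (-y)) * Real.exp (-1) ^ n := by
      intro n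
      have hn0 : (0 : ℝ) < (n : ℝ) + 1 := by positivity
      have k1 := kbb hKBf t (w := (n + 1) * y) (by positivity)
      have k2 := hC (n + 1) (Nat.le_add_left 1 n)
      push_cast at k2
      have e1 : -(4 * Real.pi * ρ.im) * (c (n + 1) * √(n + 1) *
        (y * √y * KB t (2 * Real.pi * (n + 1) * y))) = -(4 * Real.pi * ρ.im) * (c (n + 1) * (y *
          (√((n + 1) * y) * KB t (2 * Real.pi * ((n + 1) * y))))) := by
        rw [Real.sqrt_mul hn0.le, show 2 * Real.pi * ((n + 1) * y) = 2 * Real.pi * (n + 1) * y by ring]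
        ring
      rw [e1, Real.norm_eq_abs, abs_mul, abs_mul, abs_mul, abs_neg, abs_mul, abs_of_pos hy0,
        abs_of_pos (by positivity : 0 < 4 * Real.pi)]
      have k3 : |ρ.im| ≤ ‖ρ‖ := Complex.abs_im_le_norm ρ
      have k4 : |c (n + 1)| * (y * |√((n + 1) * y) * KB t (2 * Real.pi * ((n + 1) * y))|) ≤
          (C * (n + 1)) * (y * (1 / 2 * Real.exp (-(2 * Real.pi * ((n + 1) * y))))) :=
        mul_le_mul k2 (mul_le_mul_of_nonneg_left k1 hy0.le) (by positivity) (by positivity)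
      have k5 : 4 * Real.pi * |ρ.im| ≤ 4 * Real.pi * ‖ρ‖ :=
        mul_le_mul_of_nonneg_left k3 (by positivity)
      have k6 := mul_le_mul k5 k4 (by positivity) (by positivity)
      refine k6.trans ?_
      have k7 : (n + 1) * y ≤ Real.exp ((n + 1) * y) := by
        have := Real.add_one_le_exp ((n + 1) * y)
        linarith
      have k8 : Real.exp ((n + 1) * y) * Real.exp (-(2 * Real.pi * ((n + 1) * y))) ≤
          Real.exp (-y) * Real.exp (-1) ^ n := by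
        rw [← Real.exp_nat_mul, ← Real.exp_add, ← Real.exp_add]
        refine Real.exp_le_exp.2 ?_
        have hpi := Real.pi_gt_three
        have e5 : (n : ℝ) ≤ n * y := by
          have := mul_le_mul_of_nonneg_left hy (Nat.cast_nonneg n : (0 : ℝ) ≤ n)
          linarith
        have e6 : 0 ≤ (2 * Real.pi - 2) * ((n + 1) * y) := by
          have : 0 ≤ 2 * Real.pi - 2 := by linarith
          positivity
        nlinarith
      have k9 : ((n + 1) * y) * Real.exp (-(2 * Real.pi * ((n + 1) * y))) ≤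
          Real.exp (-y) * Real.exp (-1) ^ n :=
        (mul_le_mul_of_nonneg_right k7 (Real.exp_pos _).le).trans k8
      have k10 := mul_le_mul_of_nonneg_left k9 (by positivity : 0 ≤ 2 * Real.pi * ‖ρ‖ * C)
      linarith
    have h2 := tsum_of_norm_bounded ((hsum.hasSum).mul_left (2 * Real.pi * ‖ρ‖ * C * Real.exp (-y))) hb
    rw [h1.tsum_eq, Real.norm_eq_abs] at h2
    refine h2.trans ?_
    have e7 : 2 * Real.pi * ‖ρ‖ * C * Real.exp (-y) * ∑' n : ℕ, Real.exp (-1) ^ n =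
        (2 * Real.pi * ‖ρ‖ * C * ∑' n : ℕ, Real.exp (-1) ^ n) * Real.exp (-y) := by ring
    rw [e7]
    refine mul_le_mul (le_max_right _ _) (Real.exp_le_exp.2 ?_) (Real.exp_pos _).le
      (hB0.trans (le_max_left _ _))
    have : min δ 1 * y ≤ 1 * y := mul_le_mul_of_nonneg_right (min_le_right _ _) hy0.le
    linarith

end

end Pool.Agent.A54.Av
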