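import Pool.Agent.Lib.MP_a54f13_nt.Av.SpecA

/-!
# Module `QF`: the quadratic form
-/

set_option autoImplicit false

namespace Pool.Agent.A54.Av

open MeasureTheory Filter Topology Set
open scoped ContDiff ComplexConjugate UpperHalfPlane MatrixGroups ENNReal
open Pool.Agent.A54.Half (H0)

noncomputable section

namespace QFM

lemma normP (a b c d : ℝ) (z w : ℂ) :
    ‖(a : ℂ) * w + (b : ℂ) - z * ((c : ℂ) * w + (d : ℂ))‖ ^ 2 =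
      (a * w.re + b - (z.re * (c * w.re + d) - z.im * (c * w.im))) ^ 2 +
      (a * w.im - (z.re * (c * w.im) + z.im * (c * w.re + d))) ^ 2 := by
  rw [Complex.sq_norm, Complex.normSq_apply]
  simp only [Complex.sub_re, Complex.add_re, Complex.mul_re, Complex.ofReal_re, Complex.ofReal_im,
    Complex.sub_im, Complex.add_im, Complex.mul_im]
  ring

lemma step (α β x y : ℝ) (hy : 0 < y) :
    (α + x / y * β) ^ 2 + (β / y) ^ 2 ≤ (α ^ 2 + β ^ 2) * ((x ^ 2 + y ^ 2 + 1) / y ^ 2) := by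
  have h1 : (α ^ 2 + β ^ 2) * ((x ^ 2 + y ^ 2 + 1) / y ^ 2) -
      ((α + x / y * β) ^ 2 + (β / y) ^ 2) = ((x * α - y * β) ^ 2 + α ^ 2) / y ^ 2 := by
    field_simp
    ring
  have h2 : 0 ≤ ((x * α - y * β) ^ 2 + α ^ 2) / y ^ 2 := by positivity
  linarith

lemma ineq (a b c d x y u v : ℝ) (hy : 0 < y) (hv : 0 < v) :
    a ^ 2 + b ^ 2 + c ^ 2 + d ^ 2 ≤
      (((a - x * c) * u + (b - x * d)) ^ 2 + ((a - x * c) * v) ^ 2 +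
        ((y * c * u + y * d) ^ 2 + (y * c * v) ^ 2)) *
        ((u ^ 2 + v ^ 2 + 1) / v ^ 2) * ((x ^ 2 + y ^ 2 + 1) / y ^ 2) := by
  have h1 := step (a - x * c) (y * c) x y hy
  have h2 := step (b - x * d) (y * d) x y hy
  have e1 : (a - x * c) + x / y * (y * c) = a := by field_simp; ring
  have e2 : y * c / y = c := by field_simp
  have e3 : (b - x * d) + x / y * (y * d) = b := by field_simp; ring
  have e4 : y * d / y = d := by field_simp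
  rw [e1, e2] at h1
  rw [e3, e4] at h2
  have h3 := step ((a - x * c) * u + (b - x * d)) ((a - x * c) * v) (-u) v hv
  have h4 := step (y * c * u + y * d) (y * c * v) (-u) v hv
  have e5 : ((a - x * c) * u + (b - x * d)) + -u / v * ((a - x * c) * v) = b - x * d := by
    field_simp; ring
  have e6 : (a - x * c) * v / v = a - x * c := by field_simp
  have e7 : (y * c * u + y * d) + -u / v * (y * c * v) = y * d := by
    field_simp; ring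
  have e8 : y * c * v / v = y * c := by field_simp
  rw [e5, e6] at h3
  rw [e7, e8] at h4
  have e9 : (-u) ^ 2 + v ^ 2 + 1 = u ^ 2 + v ^ 2 + 1 := by ring
  rw [e9] at h3 h4
  have h5 : (0 : ℝ) ≤ (x ^ 2 + y ^ 2 + 1) / y ^ 2 := by positivity
  have h6 : ((a - x * c) ^ 2 + (y * c) ^ 2) + ((b - x * d) ^ 2 + (y * d) ^ 2) ≤
      (((a - x * c) * u + (b - x * d)) ^ 2 + ((a - x * c) * v) ^ 2 +
        ((y * c * u + y * d) ^ 2 + (y * c * v) ^ 2)) * ((u ^ 2 + v ^ 2 + 1) / v ^ 2) := by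
    rw [add_mul]
    linarith
  have h7 := mul_le_mul_of_nonneg_right h6 h5
  rw [add_mul] at h7
  linarith

end QFM

namespace QFM

/-- the polynomial form of the norm -/
lemma normG (γ : Mat) (z w : ℂ) : ‖((γ 0 0 : ℤ) : ℂ) * w + ((γ 0 1 : ℤ) : ℂ) -
      z * (((γ 1 0 : ℤ) : ℂ) * w + ((γ 1 1 : ℤ) : ℂ))‖ ^ 2 =
      (((γ 0 0 : ℤ) : ℝ) * w.re + ((γ 0 1 : ℤ) : ℝ) - (z.re * (((γ 1 0 : ℤ) : ℝ) * w.re +
        ((γ 1 1 : ℤ) : ℝ)) - z.im * (((γ 1 0 : ℤ) : ℝ) * w.im))) ^ 2 +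
      (((γ 0 0 : ℤ) : ℝ) * w.im - (z.re * (((γ 1 0 : ℤ) : ℝ) * w.im) +
        z.im * (((γ 1 0 : ℤ) : ℝ) * w.re + ((γ 1 1 : ℤ) : ℝ)))) ^ 2 := by
  have h := normP ((γ 0 0 : ℤ) : ℝ) ((γ 0 1 : ℤ) : ℝ) ((γ 1 0 : ℤ) : ℝ) ((γ 1 1 : ℤ) : ℝ) z w
  rw [Complex.ofReal_intCast, Complex.ofReal_intCast, Complex.ofReal_intCast,
    Complex.ofReal_intCast] at h
  exact h

lemma detG (γ : Mat) : ((γ.det : ℤ) : ℝ) = ((γ 0 0 : ℤ) : ℝ) * ((γ 1 1 : ℤ) : ℝ) -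
      ((γ 0 1 : ℤ) : ℝ) * ((γ 1 0 : ℤ) : ℝ) := by
  rw [Matrix.det_fin_two]
  push_cast
  rfl

lemma p3 (γ : Mat) (z w : ℂ) (hy : 0 < z.im) (hv : 0 < w.im) :
      ((γ.det : ℤ) : ℝ) + VV γ z w = ‖((γ 0 0 : ℤ) : ℂ) * w + ((γ 0 1 : ℤ) : ℂ) -
      conj z * (((γ 1 0 : ℤ) : ℂ) * w + ((γ 1 1 : ℤ) : ℂ))‖ ^ 2 / (4 * z.im * w.im) := by
  unfold VV
  rw [normG, normG, detG, Complex.conj_re, Complex.conj_im]
  generalize ((γ 0 0 : ℤ) : ℝ) = a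
  generalize ((γ 0 1 : ℤ) : ℝ) = b
  generalize ((γ 1 0 : ℤ) : ℝ) = c
  generalize ((γ 1 1 : ℤ) : ℝ) = d
  field_simp
  ring

lemma p1 (γ : Mat) (z w : ℂ) (hy : 0 < z.im) (hv : 0 < w.im) : 0 ≤ VV γ z w := by
  unfold VV
  positivity

lemma p4 (γ : Mat) (z w : ℂ) (hy : 0 < z.im) (hv : 0 < w.im) :
    msq γ ≤ 2 * (((γ.det : ℤ) : ℝ) + 2 * VV γ z w) * ((‖z‖ ^ 2 + 1) / z.im) *
      ((‖w‖ ^ 2 + 1) / w.im) := by
  unfold msq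
  refine (ineq _ _ _ _ z.re z.im w.re w.im hy hv).trans (le_of_eq ?_)
  unfold VV
  rw [normG, detG, Complex.sq_norm, Complex.sq_norm, Complex.normSq_apply, Complex.normSq_apply]
  generalize ((γ 0 0 : ℤ) : ℝ) = a
  generalize ((γ 0 1 : ℤ) : ℝ) = b
  generalize ((γ 1 0 : ℤ) : ℝ) = c
  generalize ((γ 1 1 : ℤ) : ℝ) = d
  field_simp
  ring

lemma p5 (γ : Mat) (z : ℂ) :
    Vd γ z = ‖((γ 1 0 : ℤ) : ℂ) * z ^ 2 - (((γ 0 0 : ℤ) : ℂ) - ((γ 1 1 : ℤ) : ℂ)) * z -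
    ((γ 0 1 : ℤ) : ℂ)‖ ^ 2 / (4 * z.im ^ 2) := by
  unfold Vd VV
  have h4 : ((γ 0 0 : ℤ) : ℂ) * z + ((γ 0 1 : ℤ) : ℂ) -
      z * (((γ 1 0 : ℤ) : ℂ) * z + ((γ 1 1 : ℤ) : ℂ)) =
      -(((γ 1 0 : ℤ) : ℂ) * z ^ 2 - (((γ 0 0 : ℤ) : ℂ) - ((γ 1 1 : ℤ) : ℂ)) * z -
        ((γ 0 1 : ℤ) : ℂ)) := by ring
  have h5 : 4 * z.im * z.im = 4 * z.im ^ 2 := by ring
  rw [h4, norm_neg, h5]

lemma p6 (γ : Mat) (z : ℂ) (hy : 0 < z.im) :
    ((γ.det : ℤ) : ℝ) + Vd γ z = bet γ z ^ 2 + (((γ 0 0 : ℤ) : ℝ) + ((γ 1 1 : ℤ) : ℝ)) ^ 2 / 4 := by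
  unfold Vd
  rw [p3 γ z z hy hy, normG, Complex.conj_re, Complex.conj_im]
  unfold bet
  rw [Complex.sq_norm, Complex.normSq_apply]
  generalize ((γ 0 0 : ℤ) : ℝ) = a
  generalize ((γ 0 1 : ℤ) : ℝ) = b
  generalize ((γ 1 0 : ℤ) : ℝ) = c
  generalize ((γ 1 1 : ℤ) : ℝ) = d
  field_simp
  ring

end QFM

open QFM in
theorem stmtQF : StmtQF := by
  intro γ z w hz hw
  refine ⟨p1 γ z w hz hw, ?_, p3 γ z w hz hw, p4 γ z w hz hw, p5 γ z, p6 γ z hz⟩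
  rw [p3 γ z w hz hw]
  have hy : 0 < z.im := hz
  have hv : 0 < w.im := hw
  positivity

end

end Pool.Agent.A54.Av
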