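import Pool.Agent.Lib.MP_a54f13_nt.Av.SpecA
import Pool.Agent.Lib.MP_a54f13_nt.IntLap

/-!
# Package `Av`, module RS: the sum of `|ρ|² / cosh (π t)`
-/

set_option autoImplicit false

namespace Pool.Agent.A54.Av

open MeasureTheory Filter Topology Set
open scoped ContDiff ComplexConjugate UpperHalfPlane MatrixGroups ENNReal
open Pool.Agent.A54.Half (H0 qq ff hh)

noncomputable section

namespace RSM

/-- half-open rectangle -/
def U (y0 w : ℝ) : Set ℂ := {z | |z.re| < 1 / 2 ∧ y0 < z.im ∧ z.im ≤ y0 + w}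

theorem rect {E : Type*} [NormedAddCommGroup E] [NormedSpace ℝ E] [CompleteSpace E] (H : ℂ → E)
    (y0 w : ℝ) (hy0 : 0 < y0) (hw : 0 ≤ w) (hH : ContinuousOn H {z : ℂ | 0 < z.im}) :
    ∫ z, (U y0 w).indicator H z =
      ∫ y in y0..(y0 + w), ∫ x in (-(1 / 2 : ℝ))..(1 / 2), H ⟨x, y⟩ := by
  have h1 := (Complex.volume_preserving_equiv_real_prod.symm).integral_comp
    (Complex.measurableEquivRealProd.symm.measurableEmbedding) ((U y0 w).indicator H)
  rw [← h1]
  have h2 : ∀ p : ℝ × ℝ, (U y0 w).indicator H (Complex.measurableEquivRealProd.symm p) =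
      (Ioo (-(1 / 2 : ℝ)) (1 / 2) ×ˢ Ioc y0 (y0 + w)).indicator
        (fun p : ℝ × ℝ => H ⟨p.1, p.2⟩) p := by
    intro p
    rw [Complex.measurableEquivRealProd_symm_apply]
    by_cases hp : p ∈ Ioo (-(1 / 2 : ℝ)) (1 / 2) ×ˢ Ioc y0 (y0 + w)
    · rw [indicator_of_mem hp]
      have : (⟨p.1, p.2⟩ : ℂ) ∈ U y0 w := by
        rw [mem_prod, mem_Ioo, mem_Ioc] at hp
        exact ⟨abs_lt.mpr hp.1, hp.2⟩
      rw [indicator_of_mem this]
    · rw [indicator_of_notMem hp]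
      have : (⟨p.1, p.2⟩ : ℂ) ∉ U y0 w := by
        intro hmem
        apply hp
        rw [mem_prod, mem_Ioo, mem_Ioc]
        exact ⟨abs_lt.mp hmem.1, hmem.2⟩
      rw [indicator_of_notMem this]
  simp_rw [h2]
  rw [integral_indicator (measurableSet_Ioo.prod measurableSet_Ioc)]
  have hcont : ContinuousOn (fun p : ℝ × ℝ => H ⟨p.2, p.1⟩)
      (Icc y0 (y0 + w) ×ˢ Icc (-(1 / 2 : ℝ)) (1 / 2)) := by
    have hc : Continuous (fun p : ℝ × ℝ => (⟨p.2, p.1⟩ : ℂ)) := by
      have : (fun p : ℝ × ℝ => (⟨p.2, p.1⟩ : ℂ)) =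
          fun p : ℝ × ℝ => (p.2 : ℂ) + (p.1 : ℂ) * Complex.I := by
        funext p
        exact (Complex.mk_eq_add_mul_I p.2 p.1)
      rw [this]
      fun_prop
    refine hH.comp hc.continuousOn ?_
    intro p hp
    rw [mem_prod] at hp
    exact lt_of_lt_of_le hy0 hp.1.1
  have hint : IntegrableOn (fun p : ℝ × ℝ => H ⟨p.2, p.1⟩)
      (Ioc y0 (y0 + w) ×ˢ Ioo (-(1 / 2 : ℝ)) (1 / 2)) ((volume : Measure ℝ).prod volume) :=
    (hcont.integrableOn_compact (isCompact_Icc.prod isCompact_Icc)).mono_set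
      (prod_mono Ioc_subset_Icc_self Ioo_subset_Icc_self)
  have h3 := setIntegral_prod_swap (μ := (volume : Measure ℝ)) (ν := (volume : Measure ℝ))
    (Ioo (-(1 / 2 : ℝ)) (1 / 2)) (Ioc y0 (y0 + w)) (fun p : ℝ × ℝ => H ⟨p.1, p.2⟩)
  rw [Measure.volume_eq_prod, ← h3]
  have h4 := setIntegral_prod (fun p : ℝ × ℝ => H ⟨p.2, p.1⟩) hint
  simp only [Prod.fst_swap, Prod.snd_swap] at h3 ⊢
  rw [h4, intervalIntegral.integral_of_le (by linarith)]
  refine setIntegral_congr_fun measurableSet_Ioc fun y _ => ?_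
  show ∫ x in Ioo (-(1 / 2 : ℝ)) (1 / 2), H ⟨x, y⟩ = ∫ x in (-(1 / 2 : ℝ))..(1 / 2), H ⟨x, y⟩
  rw [intervalIntegral.integral_of_le (by norm_num), integral_Ioc_eq_integral_Ioo]

theorem strip {E : Type*} [NormedAddCommGroup E] [NormedSpace ℝ E] [CompleteSpace E] (H : ℂ → E)
    (y0 w : ℝ) (hy0 : 1 ≤ y0) (hw : 0 ≤ w) (hH : ContinuousOn H {z : ℂ | 0 < z.im}) :
    ∫ z in ModularGroup.fdo, (open Classical in
        if y0 < z.im ∧ z.im ≤ y0 + w then (z.im ^ 2 : ℝ) • H (z : ℂ) else 0) =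
      ∫ y in y0..(y0 + w), ∫ x in (-(1 / 2 : ℝ))..(1 / 2), H ⟨x, y⟩ := by
  classical
  rw [← rect H y0 w (by linarith) hw hH, ← integral_indicator ModularGroup.isOpen_fdo.measurableSet]
  have h1 : ∀ z : ℍ, ModularGroup.fdo.indicator (fun z : ℍ =>
      if y0 < z.im ∧ z.im ≤ y0 + w then (z.im ^ 2 : ℝ) • H (z : ℂ) else 0) z =
      (fun z : ℂ => (U y0 w).indicator (fun z : ℂ => (z.im ^ 2 : ℝ) • H z) z) (z : ℂ) := by
    intro z
    show _ = (U y0 w).indicator (fun z : ℂ => (z.im ^ 2 : ℝ) • H z) (z : ℂ)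
    by_cases hy : y0 < z.im ∧ z.im ≤ y0 + w
    · by_cases hx : |z.re| < 1 / 2
      · have hU : (z : ℂ) ∈ U y0 w := ⟨hx, hy.1, hy.2⟩
        have hfdo : z ∈ ModularGroup.fdo := by
          refine ⟨?_, hx⟩
          rw [Complex.normSq_apply]
          have h3 : 1 < z.im := by linarith [hy.1]
          have h4 : (z : ℂ).im = z.im := rfl
          have h5 : (z : ℂ).re = z.re := rfl
          rw [h4, h5]
          nlinarith [sq_nonneg z.re]
        rw [indicator_of_mem hU, indicator_of_mem hfdo, if_pos hy]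
        rfl
      · have hU : (z : ℂ) ∉ U y0 w := fun h => hx h.1
        have hfdo : z ∉ ModularGroup.fdo := fun h => hx h.2
        rw [indicator_of_notMem hU, indicator_of_notMem hfdo]
    · have hU : (z : ℂ) ∉ U y0 w := fun h => hy h.2
      rw [indicator_of_notMem hU]
      by_cases hfdo : z ∈ ModularGroup.fdo
      · rw [indicator_of_mem hfdo, if_neg hy]
      · rw [indicator_of_notMem hfdo]
  simp_rw [h1]
  have h2 := IntLap.int_gen' (fun z : ℂ => (U y0 w).indicator (fun z : ℂ => (z.im ^ 2 : ℝ) • H z) z)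
    (by
      intro z hz
      refine indicator_of_notMem (fun h => ?_) _
      have := h.2.1
      linarith)
  rw [h2]
  congr 1
  funext z
  by_cases hU : z ∈ U y0 w
  · rw [indicator_of_mem hU, indicator_of_mem hU, smul_smul]
    have h3 : 0 < z.im := by have := hU.2.1; linarith
    rw [one_div, inv_mul_cancel₀ (by positivity), one_smul]
  · rw [indicator_of_notMem hU, indicator_of_notMem hU, smul_zero]

/-- Bessel's inequality for real functions -/
theorem bessel {α : Type*} [MeasurableSpace α] (μ : Measure α) {ι : Type} [Fintype ι]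
    (g : ι → α → ℝ) (P : α → ℝ) (N : ℝ) (hN : 0 < N) (hm : ∀ i, AEStronglyMeasurable (g i) μ)
    (hPm : AEStronglyMeasurable P μ) (hg : ∀ i, Integrable (fun x => g i x ^ 2) μ)
    (hP : Integrable (fun x => P x ^ 2) μ) (hn : ∀ i, ∫ x, g i x ^ 2 ∂μ = N)
    (ho : ∀ i j, i ≠ j → ∫ x, g i x * g j x ∂μ = 0) :
    ∑ i, (∫ x, g i x * P x ∂μ) ^ 2 ≤ N * ∫ x, P x ^ 2 ∂μ := by
  classical
  have hgg : ∀ i j, Integrable (fun x => g i x * g j x) μ := by
    intro i j
    refine Integrable.mono' ((hg i).add (hg j)) ((hm i).mul (hm j)) (Eventually.of_forall fun x => ?_)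
    rw [Real.norm_eq_abs, abs_mul]
    simp only [Pi.add_apply]
    nlinarith [sq_nonneg (|g i x| - |g j x|), sq_abs (g i x), sq_abs (g j x), sq_nonneg (g i x),
      sq_nonneg (g j x)]
  have hgP : ∀ i, Integrable (fun x => g i x * P x) μ := by
    intro i
    refine Integrable.mono' ((hg i).add hP) ((hm i).mul hPm) (Eventually.of_forall fun x => ?_)
    rw [Real.norm_eq_abs, abs_mul]
    simp only [Pi.add_apply]
    nlinarith [sq_nonneg (|g i x| - |P x|), sq_abs (g i x), sq_abs (P x), sq_nonneg (g i x),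
      sq_nonneg (P x)]
  set c : ι → ℝ := fun i => ∫ x, g i x * P x ∂μ with hc
  have h0 : 0 ≤ ∫ x, (P x - ∑ i, c i / N * g i x) ^ 2 ∂μ := integral_nonneg fun x => sq_nonneg _
  have h1 : ∀ x, (P x - ∑ i, c i / N * g i x) ^ 2 =
      P x ^ 2 - 2 * ∑ i, c i / N * (g i x * P x) +
        ∑ i, ∑ j, (c i / N * (c j / N)) * (g i x * g j x) := by
    intro x
    have e1 : (∑ i, c i / N * g i x) ^ 2 = ∑ i, ∑ j, (c i / N * (c j / N)) * (g i x * g j x) := by
      rw [sq, Finset.sum_mul_sum]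
      refine Finset.sum_congr rfl fun i _ => Finset.sum_congr rfl fun j _ => ?_
      ring
    have e2 : ∑ i, c i / N * (g i x * P x) = (∑ i, c i / N * g i x) * P x := by
      rw [Finset.sum_mul]
      refine Finset.sum_congr rfl fun i _ => ?_
      ring
    rw [← e1, e2]
    ring
  simp_rw [h1] at h0
  have i1 : Integrable (fun x => ∑ i, c i / N * (g i x * P x)) μ :=
    integrable_finsetSum _ fun i _ => (hgP i).const_mul _
  have i2 : Integrable (fun x => ∑ i, ∑ j, (c i / N * (c j / N)) * (g i x * g j x)) μ :=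
    integrable_finsetSum _ fun i _ => integrable_finsetSum _ fun j _ => (hgg i j).const_mul _
  have e3 : ∫ x, (P x ^ 2 - 2 * ∑ i, c i / N * (g i x * P x) +
        ∑ i, ∑ j, (c i / N * (c j / N)) * (g i x * g j x)) ∂μ =
      (∫ x, P x ^ 2 ∂μ) - 2 * ∑ i, c i / N * c i + ∑ i, c i / N * (c i / N) * N := by
    have i3 : Integrable (fun x => P x ^ 2 - 2 * ∑ i, c i / N * (g i x * P x)) μ :=
      hP.sub (i1.const_mul 2)
    rw [integral_add i3 i2, integral_sub hP (i1.const_mul 2),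
      integral_const_mul, integral_finsetSum _ (fun i _ => (hgP i).const_mul _),
      integral_finsetSum _ (fun i _ => integrable_finsetSum _ fun j _ => (hgg i j).const_mul _)]
    congr 1
    · congr 2
      refine Finset.sum_congr rfl fun i _ => ?_
      rw [integral_const_mul]
    · refine Finset.sum_congr rfl fun i _ => ?_
      rw [integral_finsetSum _ (fun j _ => (hgg i j).const_mul _),
        Finset.sum_eq_single i]
      · rw [integral_const_mul]
        have : ∫ x, g i x * g i x ∂μ = N := by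
          rw [← hn i]
          congr 1
          funext x
          ring
        rw [this]
      · intro j _ hj
        rw [integral_const_mul, ho i j (Ne.symm hj), mul_zero]
      · intro h
        exact absurd (Finset.mem_univ i) h
  rw [e3] at h0
  have e4 : ∑ i, c i / N * c i = (∑ i, c i ^ 2) / N := by
    rw [Finset.sum_div]
    refine Finset.sum_congr rfl fun i _ => ?_
    ring
  have e5 : ∑ i, c i / N * (c i / N) * N = (∑ i, c i ^ 2) / N := by
    rw [Finset.sum_div]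
    refine Finset.sum_congr rfl fun i _ => ?_
    field_simp
  rw [e4, e5] at h0
  have e6 : (∑ i, c i ^ 2) / N ≤ ∫ x, P x ^ 2 ∂μ := by linarith
  rw [div_le_iff₀ hN] at e6
  linarith

/-- Bessel's inequality, complex test function -/
theorem besselC {α : Type*} [MeasurableSpace α] (μ : Measure α) {ι : Type} [Fintype ι]
    (g : ι → α → ℝ) (P : α → ℂ) (N : ℝ) (hN : 0 < N) (hm : ∀ i, AEStronglyMeasurable (g i) μ)
    (hPm : AEStronglyMeasurable P μ) (hg : ∀ i, Integrable (fun x => g i x ^ 2) μ)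
    (hP : Integrable (fun x => ‖P x‖ ^ 2) μ) (hn : ∀ i, ∫ x, g i x ^ 2 ∂μ = N)
    (ho : ∀ i j, i ≠ j → ∫ x, g i x * g j x ∂μ = 0) :
    ∑ i, ‖∫ x, (g i x : ℂ) * P x ∂μ‖ ^ 2 ≤ N * ∫ x, ‖P x‖ ^ 2 ∂μ := by
  have hgm : ∀ i, AEStronglyMeasurable (fun x => (g i x : ℂ)) μ := fun i =>
    Complex.continuous_ofReal.comp_aestronglyMeasurable (hm i)
  have hgP : ∀ i, Integrable (fun x => (g i x : ℂ) * P x) μ := by
    intro i
    refine Integrable.mono' ((hg i).add hP) ((hgm i).mul hPm) (Eventually.of_forall fun x => ?_)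
    rw [norm_mul, Complex.norm_real, Real.norm_eq_abs]
    simp only [Pi.add_apply]
    nlinarith [sq_nonneg (|g i x| - ‖P x‖), sq_abs (g i x), sq_nonneg (g i x),
      sq_nonneg ‖P x‖]
  have mre : AEStronglyMeasurable (fun x => (P x).re) μ :=
    Complex.continuous_re.comp_aestronglyMeasurable hPm
  have mim : AEStronglyMeasurable (fun x => (P x).im) μ :=
    Complex.continuous_im.comp_aestronglyMeasurable hPm
  have hsplit : ∀ x, ‖P x‖ ^ 2 = (P x).re ^ 2 + (P x).im ^ 2 := by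
    intro x
    rw [Complex.sq_norm, Complex.normSq_apply]
    ring
  have ire : Integrable (fun x => (P x).re ^ 2) μ := by
    refine Integrable.mono' hP (mre.pow 2) (Eventually.of_forall fun x => ?_)
    rw [Real.norm_eq_abs, abs_of_nonneg (sq_nonneg _), hsplit]
    nlinarith [sq_nonneg (P x).im]
  have iim : Integrable (fun x => (P x).im ^ 2) μ := by
    refine Integrable.mono' hP (mim.pow 2) (Eventually.of_forall fun x => ?_)
    rw [Real.norm_eq_abs, abs_of_nonneg (sq_nonneg _), hsplit]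
    nlinarith [sq_nonneg (P x).re]
  have b1 := bessel μ g (fun x => (P x).re) N hN hm mre hg ire hn ho
  have b2 := bessel μ g (fun x => (P x).im) N hN hm mim hg iim hn ho
  have e1 : ∀ i, ‖∫ x, (g i x : ℂ) * P x ∂μ‖ ^ 2 =
      (∫ x, g i x * (P x).re ∂μ) ^ 2 + (∫ x, g i x * (P x).im ∂μ) ^ 2 := by
    intro i
    rw [Complex.sq_norm, Complex.normSq_apply]
    have r1 : (∫ x, (g i x : ℂ) * P x ∂μ).re = ∫ x, g i x * (P x).re ∂μ := by
      have := Complex.reCLM.integral_comp_comm (hgP i)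
      simp only [Complex.reCLM_apply] at this
      rw [← this]
      congr 1
      funext x
      simp
    have r2 : (∫ x, (g i x : ℂ) * P x ∂μ).im = ∫ x, g i x * (P x).im ∂μ := by
      have := Complex.imCLM.integral_comp_comm (hgP i)
      simp only [Complex.imCLM_apply] at this
      rw [← this]
      congr 1
      funext x
      simp
    rw [r1, r2]
    ring
  have e2 : ∫ x, ‖P x‖ ^ 2 ∂μ = (∫ x, (P x).re ^ 2 ∂μ) + ∫ x, (P x).im ^ 2 ∂μ := by
    rw [← integral_add ire iim]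
    congr 1
    funext x
    exact hsplit x
  rw [Finset.sum_congr rfl fun i _ => e1 i, Finset.sum_add_distrib, e2]
  linarith

/-- the first coefficient without the factor -/
def bf (t y : ℝ) : ℝ := √y * KB t (2 * Real.pi * y)

/-- the limit of the energy at zero -/
def e0 (t : ℝ) : ℝ := Real.pi * t / Real.sinh (Real.pi * t)

theorem e0_pos {t : ℝ} (ht : 0 < t) : 0 < e0 t :=
  div_pos (mul_pos Real.pi_pos ht) (Real.sinh_pos_iff.mpr (mul_pos Real.pi_pos ht))

theorem bf_deriv (hKBf : StmtKBf) (t : ℝ) {y : ℝ} (hy : 0 < y) :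
    HasDerivAt (bf t) (1 / (2 * √y) * KB t (2 * Real.pi * y) +
      √y * (KB1 t (2 * Real.pi * y) * (2 * Real.pi))) y := by
  have hX : 0 < 2 * Real.pi * y := by have := Real.pi_pos; positivity
  have h1 := (hKBf t).1 (2 * Real.pi * y) hX
  have h2 : HasDerivAt (fun y : ℝ => 2 * Real.pi * y) (2 * Real.pi) y := by
    simpa using (hasDerivAt_id y).const_mul (2 * Real.pi)
  have h3 : HasDerivAt (fun y : ℝ => KB t (2 * Real.pi * y))
      (KB1 t (2 * Real.pi * y) * (2 * Real.pi)) y := HasDerivAt.comp y h1 h2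
  exact (Real.hasDerivAt_sqrt hy.ne').mul h3

theorem bf_bound (hEn : StmtEn) {t : ℝ} (ht : 100 ≤ t) {y : ℝ} (hy1 : 1 ≤ y) (hy3 : y ≤ 3) :
    |1 / (2 * √y) * KB t (2 * Real.pi * y) +
      √y * (KB1 t (2 * Real.pi * y) * (2 * Real.pi))| ≤ 101 / 100 * √(e0 t) := by
  have hpi := Real.pi_pos
  have hX : 0 < 2 * Real.pi * y := by positivity
  obtain ⟨k1, k2⟩ := (hEn t ht).1 (2 * Real.pi * y) hX (by nlinarith)
  have he : 0 < e0 t := e0_pos (by linarith)
  set s := √(e0 t) with hs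
  have hs0 : 0 ≤ s := Real.sqrt_nonneg _
  have hs2 : s ^ 2 = e0 t := Real.sq_sqrt he.le
  have k1' : KB t (2 * Real.pi * y) ^ 2 ≤ (s / 50) ^ 2 := by
    refine k1.trans ?_
    show 2 / t ^ 2 * e0 t ≤ _
    rw [div_pow, hs2]
    have h1 : 2 / t ^ 2 ≤ 1 / 50 ^ 2 := by
      rw [div_le_div_iff₀ (by positivity) (by norm_num)]
      nlinarith
    calc 2 / t ^ 2 * e0 t ≤ 1 / 50 ^ 2 * e0 t := mul_le_mul_of_nonneg_right h1 he.le
      _ = e0 t / 50 ^ 2 := by ring
  have k1a : |KB t (2 * Real.pi * y)| ≤ s / 50 := abs_le_of_sq_le_sq k1' (by positivity)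
  have k2a : |2 * Real.pi * y * KB1 t (2 * Real.pi * y)| ≤ s := by
    refine abs_le_of_sq_le_sq ?_ hs0
    rw [hs2]
    exact k2
  have hsq1 : 1 ≤ √y := by
    rw [Real.one_le_sqrt]
    exact hy1
  have hsqy : √y * √y = y := Real.mul_self_sqrt (by linarith)
  have h2 : |1 / (2 * √y) * KB t (2 * Real.pi * y)| ≤ s / 100 := by
    rw [abs_mul, abs_of_pos (by positivity)]
    have h3 : 1 / (2 * √y) ≤ 1 / 2 := by
      rw [div_le_div_iff₀ (by positivity) (by norm_num)]
      linarith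
    calc 1 / (2 * √y) * |KB t (2 * Real.pi * y)| ≤ 1 / 2 * (s / 50) :=
          mul_le_mul h3 k1a (abs_nonneg _) (by norm_num)
      _ = s / 100 := by ring
  have h4 : |√y * (KB1 t (2 * Real.pi * y) * (2 * Real.pi))| ≤ s := by
    have h5 : 2 * Real.pi * y * KB1 t (2 * Real.pi * y) =
        √y * (√y * (KB1 t (2 * Real.pi * y) * (2 * Real.pi))) := by
      rw [← mul_assoc, hsqy]
      ring
    rw [h5, abs_mul, abs_of_nonneg (by linarith : 0 ≤ √y)] at k2a
    have h6 : |√y * (KB1 t (2 * Real.pi * y) * (2 * Real.pi))| ≤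
        √y * |√y * (KB1 t (2 * Real.pi * y) * (2 * Real.pi))| :=
      le_mul_of_one_le_left (abs_nonneg _) hsq1
    exact h6.trans k2a
  refine (abs_add_le _ _).trans ?_
  linarith

theorem bf_cont (hKBf : StmtKBf) (t : ℝ) : ContinuousOn (bf t) (Ioi 0) := fun _ hy =>
  (bf_deriv hKBf t hy).continuousAt.continuousWithinAt

theorem bf_int (hKBf : StmtKBf) (hEn : StmtEn) {t : ℝ} (ht : 100 ≤ t) {y0 w : ℝ} (h1 : 1 ≤ y0)
    (h2 : y0 ≤ 2) (hw : 0 < w) (hw1 : w ≤ 1) :
    1 / 2 * (w ^ 2 * bf t y0 ^ 2) - 10201 / 10000 * e0 t * w ^ 4 ≤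
      (∫ y in y0..(y0 + w), bf t y) ^ 2 := by
  have he : 0 < e0 t := e0_pos (by linarith)
  have hsub : ∀ y ∈ Icc (1 : ℝ) 3, 0 < y := fun y hy => by linarith [hy.1]
  have hmvt : ∀ y ∈ Icc y0 (y0 + w), ‖bf t y - bf t y0‖ ≤ 101 / 100 * √(e0 t) * w := by
    intro y hy
    have h3 := Convex.norm_image_sub_le_of_norm_hasDerivWithin_le (f := bf t)
      (fun x hx => (bf_deriv hKBf t (hsub x hx)).hasDerivWithinAt)
      (fun x hx => by
        rw [Real.norm_eq_abs]
        exact bf_bound hEn ht hx.1 hx.2)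
      (convex_Icc (1 : ℝ) 3) (x := y0) (y := y) ⟨h1, by linarith⟩
      ⟨by linarith [hy.1], by linarith [hy.2]⟩
    refine h3.trans (mul_le_mul_of_nonneg_left ?_ (by positivity))
    rw [Real.norm_eq_abs, abs_of_nonneg (by linarith [hy.1])]
    linarith [hy.2]
  have hint : IntervalIntegrable (bf t) volume y0 (y0 + w) := by
    refine ContinuousOn.intervalIntegrable ((bf_cont hKBf t).mono ?_)
    intro y hy
    rw [uIcc_of_le (by linarith)] at hy
    exact lt_of_lt_of_le (by linarith) hy.1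
  have hD : |(∫ y in y0..(y0 + w), bf t y) - w * bf t y0| ≤ 101 / 100 * √(e0 t) * w * w := by
    have e1 : (∫ y in y0..(y0 + w), bf t y) - w * bf t y0 =
        ∫ y in y0..(y0 + w), (bf t y - bf t y0) := by
      rw [intervalIntegral.integral_sub hint intervalIntegrable_const,
        intervalIntegral.integral_const, smul_eq_mul]
      ring
    rw [e1, ← Real.norm_eq_abs]
    have h4 := intervalIntegral.norm_integral_le_of_norm_le_const
      (a := y0) (b := y0 + w) (f := fun y => bf t y - bf t y0) (C := 101 / 100 * √(e0 t) * w)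
      (fun y hy => hmvt y (by
        rw [uIoc_of_le (by linarith)] at hy
        exact ⟨hy.1.le, hy.2⟩))
    have e2 : |y0 + w - y0| = w := by
      rw [abs_of_nonneg (by linarith)]
      ring
    rw [e2] at h4
    exact h4
  have hD2 : ((∫ y in y0..(y0 + w), bf t y) - w * bf t y0) ^ 2 ≤
      10201 / 10000 * e0 t * w ^ 4 := by
    have h5 := sq_le_sq' (by linarith [(abs_le.mp hD).1]) (abs_le.mp hD).2
    refine h5.trans (le_of_eq ?_)
    have : √(e0 t) ^ 2 = e0 t := Real.sq_sqrt he.le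
    calc (101 / 100 * √(e0 t) * w * w) ^ 2 = 10201 / 10000 * √(e0 t) ^ 2 * w ^ 4 := by ring
      _ = _ := by rw [this]
  set B := ∫ y in y0..(y0 + w), bf t y with hB
  nlinarith [sq_nonneg (2 * B - w * bf t y0), hD2]

theorem bf_sq (hEn : StmtEn) {t : ℝ} (ht : 100 ≤ t) :
    e0 t / (8 * t ^ 2) ≤ ∫ y in (1 : ℝ)..2, bf t y ^ 2 := by
  have hpi := Real.pi_pos
  have h1 := (hEn t ht).2
  have h2 := intervalIntegral.integral_comp_mul_left (a := (1 : ℝ)) (b := 2)
    (fun X => X * KB t X ^ 2) (c := 2 * Real.pi) (by positivity)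
  have h3 : ∫ y in (1 : ℝ)..2, (2 * Real.pi * y) * KB t (2 * Real.pi * y) ^ 2 =
      2 * Real.pi * ∫ y in (1 : ℝ)..2, bf t y ^ 2 := by
    rw [← intervalIntegral.integral_const_mul]
    refine intervalIntegral.integral_congr fun y hy => ?_
    rw [uIcc_of_le (by norm_num)] at hy
    show (2 * Real.pi * y) * KB t (2 * Real.pi * y) ^ 2 = 2 * Real.pi * (bf t y) ^ 2
    unfold bf
    rw [mul_pow, Real.sq_sqrt (by linarith [hy.1])]
    ring
  rw [h3] at h2
  have e1 : 2 * Real.pi * 1 = 2 * Real.pi := by ring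
  have e2 : 2 * Real.pi * 2 = 4 * Real.pi := by ring
  rw [e1, e2, smul_eq_mul] at h2
  have h4 : (∫ y in (1 : ℝ)..2, bf t y ^ 2) =
      (4 * Real.pi ^ 2)⁻¹ * ∫ X in (2 * Real.pi)..(4 * Real.pi), X * KB t X ^ 2 := by
    have h5 : 2 * Real.pi ≠ 0 := by positivity
    field_simp at h2 ⊢
    linarith
  rw [h4]
  have h6 : (4 * Real.pi ^ 2)⁻¹ * (4 * Real.pi ^ 2 / (8 * t ^ 2) *
      (Real.pi * t / Real.sinh (Real.pi * t))) = e0 t / (8 * t ^ 2) := by
    unfold e0
    have h7 : Real.sinh (Real.pi * t) ≠ 0 :=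
      (Real.sinh_pos_iff.mpr (mul_pos hpi (by linarith))).ne'
    have h8 : t ≠ 0 := by positivity
    field_simp
  rw [← h6]
  exact mul_le_mul_of_nonneg_left h1 (by positivity)

theorem ext_coe' (f : ℍ → ℝ) (z : ℍ) : ext f (z : ℂ) = f z := by
  unfold ext
  rw [UpperHalfPlane.ofComplex_apply]

theorem ext_per {f : ℍ → ℝ} {t : ℝ} (hf : IsHeckeMaass f t) {y : ℝ} (hy : 0 < y) (x : ℝ) :
    ext f ⟨x + 1, y⟩ = ext f ⟨x, y⟩ := by
  have h1 := hf.invariant ModularGroup.T ⟨⟨x, y⟩, hy⟩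
  rw [UpperHalfPlane.modular_T_smul] at h1
  have h2 : ((⟨x + 1, y⟩ : ℂ)) = (((1 : ℝ) +ᵥ (⟨⟨x, y⟩, hy⟩ : ℍ) : ℍ) : ℂ) := by
    rw [UpperHalfPlane.coe_vadd]
    apply Complex.ext
    · simp [add_comm]
    · simp
  rw [h2, ext_coe', h1]
  exact (ext_coe' f ⟨⟨x, y⟩, hy⟩).symm

theorem cont_f {f : ℍ → ℝ} {t : ℝ} (hf : IsHeckeMaass f t) : Continuous f := by
  have h1 : Continuous (fun z : ℍ => ext f (z : ℂ)) :=
    hf.smooth.continuousOn.comp_continuous UpperHalfPlane.continuous_coe fun z => z.im_pos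
  simpa only [ext_coe'] using h1

theorem norm_ee (x : ℝ) : ‖ee (-(((1 : ℤ) : ℂ) * (x : ℂ)))‖ = 1 := by
  unfold ee
  have : 2 * (Real.pi : ℂ) * Complex.I * (-(((1 : ℤ) : ℂ) * (x : ℂ))) =
      ((-(2 * Real.pi * x) : ℝ) : ℂ) * Complex.I := by
    push_cast
    ring
  rw [this, Complex.norm_exp_ofReal_mul_I]

theorem cont_ee : Continuous ee := by
  unfold ee
  fun_prop

/-- the test function -/
def PP (y0 w : ℝ) (z : ℍ) : ℂ := open Classical in
  if y0 < z.im ∧ z.im ≤ y0 + w then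
    (z.im ^ 2 : ℝ) • ee (-(((1 : ℤ) : ℂ) * (((z : ℂ).re : ℝ) : ℂ))) else 0

theorem PP_meas (y0 w : ℝ) : Measurable (PP y0 w) := by
  classical
  have h1 : Measurable (fun z : ℍ => (z.im ^ 2 : ℝ) •
      ee (-(((1 : ℤ) : ℂ) * (((z : ℂ).re : ℝ) : ℂ)))) := by
    refine Continuous.measurable ?_
    refine (UpperHalfPlane.continuous_im.pow 2).smul (cont_ee.comp ?_)
    refine (continuous_const.mul ?_).neg
    exact Complex.continuous_ofReal.comp (Complex.continuous_re.comp UpperHalfPlane.continuous_coe)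
  have h2 : MeasurableSet {z : ℍ | y0 < z.im ∧ z.im ≤ y0 + w} :=
    (measurableSet_lt measurable_const UpperHalfPlane.continuous_im.measurable).inter
      (measurableSet_le UpperHalfPlane.continuous_im.measurable measurable_const)
  exact Measurable.ite h2 h1 measurable_const

theorem int_PP (y0 w : ℝ) (h1 : 1 ≤ y0) (hw : 0 ≤ w) :
    ∫ z in ModularGroup.fdo, ‖PP y0 w z‖ ^ 2 = ((y0 + w) ^ 3 - y0 ^ 3) / 3 := by
  classical
  have h2 := strip (fun z : ℂ => (z.im ^ 2 : ℝ)) y0 w h1 hw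
    (Complex.continuous_im.pow 2).continuousOn
  have h3 : ∀ z : ℍ, ‖PP y0 w z‖ ^ 2 =
      if y0 < z.im ∧ z.im ≤ y0 + w then (z.im ^ 2 : ℝ) • (((z : ℂ).im ^ 2 : ℝ)) else 0 := by
    intro z
    unfold PP
    split_ifs with hz
    · rw [norm_smul, norm_ee, mul_one, Real.norm_eq_abs, abs_of_nonneg (sq_nonneg _), smul_eq_mul,
        UpperHalfPlane.coe_im]
      ring
    · simp
  simp_rw [h3]
  rw [h2]
  have h4 : ∀ y : ℝ, ∫ x in (-(1 / 2 : ℝ))..(1 / 2), ((⟨x, y⟩ : ℂ).im ^ 2 : ℝ) = y ^ 2 := by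
    intro y
    show ∫ _x in (-(1 / 2 : ℝ))..(1 / 2), (y ^ 2 : ℝ) = y ^ 2
    rw [intervalIntegral.integral_const, smul_eq_mul]
    ring
  simp_rw [h4]
  rw [integral_pow]
  norm_num

theorem int_FP {f : ℍ → ℝ} {t : ℝ} {ρ : ℂ} (hf : IsHeckeMaass f t) (hρ : IsRho f t ρ)
    (y0 w : ℝ) (h1 : 1 ≤ y0) (hw : 0 ≤ w) :
    ∫ z in ModularGroup.fdo, (f z : ℂ) * PP y0 w z =
      ρ * ((∫ y in y0..(y0 + w), bf t y : ℝ) : ℂ) := by
  classical
  have hc : ContinuousOn (fun z : ℂ => (ext f z : ℂ) *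
      ee (-(((1 : ℤ) : ℂ) * ((z.re : ℝ) : ℂ)))) {z : ℂ | 0 < z.im} := by
    refine ContinuousOn.mul ?_ ?_
    · exact Complex.continuous_ofReal.comp_continuousOn hf.smooth.continuousOn
    · refine (cont_ee.comp ?_).continuousOn
      exact (continuous_const.mul (Complex.continuous_ofReal.comp Complex.continuous_re)).neg
  have h2 := strip (fun z : ℂ => (ext f z : ℂ) * ee (-(((1 : ℤ) : ℂ) * ((z.re : ℝ) : ℂ)))) y0 w
    h1 hw hc
  have h3 : ∀ z : ℍ, (f z : ℂ) * PP y0 w z =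
      if y0 < z.im ∧ z.im ≤ y0 + w then (z.im ^ 2 : ℝ) •
        ((ext f (z : ℂ) : ℂ) * ee (-(((1 : ℤ) : ℂ) * (((z : ℂ).re : ℝ) : ℂ)))) else 0 := by
    intro z
    unfold PP
    split_ifs with hz
    · rw [ext_coe', mul_smul_comm]
    · simp
  simp_rw [h3]
  rw [h2]
  have h4 : ∀ y ∈ uIcc y0 (y0 + w), ∫ x in (-(1 / 2 : ℝ))..(1 / 2), (ext f ⟨x, y⟩ : ℂ) *
      ee (-(((1 : ℤ) : ℂ) * (((⟨x, y⟩ : ℂ).re : ℝ) : ℂ))) = ρ * ((bf t y : ℝ) : ℂ) := by
    intro y hy
    rw [uIcc_of_le (by linarith)] at hy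
    have hy0 : 0 < y := by linarith [hy.1]
    have hper : Function.Periodic (fun x : ℝ => (ext f ⟨x, y⟩ : ℂ) *
        ee (-(((1 : ℤ) : ℂ) * ((x : ℝ) : ℂ)))) 1 := by
      intro x
      show (ext f ⟨x + 1, y⟩ : ℂ) * ee (-(((1 : ℤ) : ℂ) * ((x + 1 : ℝ) : ℂ))) = _
      rw [ext_per hf hy0 x]
      congr 1
      unfold ee
      rw [Complex.exp_eq_exp_iff_exists_int]
      refine ⟨-1, ?_⟩
      push_cast
      ring
    have h5 := hper.intervalIntegral_add_eq (-(1 / 2 : ℝ)) 0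
    have e1 : -(1 / 2 : ℝ) + 1 = 1 / 2 := by norm_num
    rw [e1, zero_add] at h5
    have h6 := hρ.2 y hy0
    unfold an at h6
    show ∫ x in (-(1 / 2 : ℝ))..(1 / 2), (ext f ⟨x, y⟩ : ℂ) *
      ee (-(((1 : ℤ) : ℂ) * ((x : ℝ) : ℂ))) = _
    rw [h5, h6]
    rfl
  rw [intervalIntegral.integral_congr h4, intervalIntegral.integral_const_mul,
    intervalIntegral.integral_ofReal]

theorem int_sq {f : ℍ → ℝ} {t : ℝ} (hf : IsHeckeMaass f t) :
    Integrable (fun z => f z ^ 2) (volume.restrict ModularGroup.fdo) := by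
  by_contra hcon
  have h1 := integral_undef hcon
  have h2 := hf.normalised
  rw [h1] at h2
  have := Real.pi_pos
  linarith

theorem pointwise (hKBf : StmtKBf) (hEn : StmtEn) {ι : Type} [Fintype ι] {F : ι → ℍ → ℝ}
    {t : ι → ℝ} {ρ : ι → ℂ} (hF : Fam ι F t ρ) (ht : ∀ i, 100 ≤ t i) {y0 w : ℝ} (h1 : 1 ≤ y0)
    (h2 : y0 ≤ 2) (hw : 0 < w) (hw1 : w ≤ 1) :
    ∑ i, ‖ρ i‖ ^ 2 * (1 / 2 * (w ^ 2 * bf (t i) y0 ^ 2) - 10201 / 10000 * e0 (t i) * w ^ 4) ≤
      3 * Real.pi * w := by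
  have hpi := Real.pi_pos
  have hP2 : Integrable (fun z => ‖PP y0 w z‖ ^ 2) (volume.restrict ModularGroup.fdo) := by
    by_contra hcon
    have h3 := integral_undef hcon
    rw [int_PP y0 w h1 hw.le] at h3
    nlinarith [sq_nonneg y0, mul_pos hw hw, mul_pos hw (by linarith : 0 < y0)]
  have hb := besselC (volume.restrict ModularGroup.fdo) F (PP y0 w) (Real.pi / 3) (by positivity)
    (fun i => (cont_f (hF.form i)).aestronglyMeasurable) (PP_meas y0 w).aestronglyMeasurable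
    (fun i => int_sq (hF.form i)) hP2 (fun i => (hF.form i).normalised)
    (fun i j hij => hF.orth i j hij)
  rw [int_PP y0 w h1 hw.le] at hb
  have h4 : Real.pi / 3 * (((y0 + w) ^ 3 - y0 ^ 3) / 3) ≤ 3 * Real.pi * w := by
    have h5 : (y0 + w) ^ 3 - y0 ^ 3 ≤ 27 * w := by
      have e1 : (y0 + w) ^ 3 - y0 ^ 3 = w * (3 * y0 ^ 2 + 3 * y0 * w + w ^ 2) := by ring
      have e2 : 3 * y0 ^ 2 + 3 * y0 * w + w ^ 2 ≤ 27 := by nlinarith
      rw [e1]
      nlinarith
    nlinarith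
  refine le_trans (Finset.sum_le_sum fun i _ => ?_) (hb.trans h4)
  rw [int_FP (hF.form i) (hF.rho i) y0 w h1 hw.le, norm_mul, mul_pow, Complex.norm_real,
    Real.norm_eq_abs, sq_abs]
  exact mul_le_mul_of_nonneg_left (bf_int hKBf hEn (ht i) h1 h2 hw hw1) (sq_nonneg _)

theorem averaged (hKBf : StmtKBf) (hEn : StmtEn) {ι : Type} [Fintype ι] {F : ι → ℍ → ℝ}
    {t : ι → ℝ} {ρ : ι → ℂ} (hF : Fam ι F t ρ) (ht : ∀ i, 100 ≤ t i) {w : ℝ} (hw : 0 < w)
    (hw1 : w ≤ 1) :
    ∑ i, ‖ρ i‖ ^ 2 * (1 / 2 * (w ^ 2 * (e0 (t i) / (8 * t i ^ 2))) -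
      10201 / 10000 * e0 (t i) * w ^ 4) ≤ 3 * Real.pi * w := by
  have hint : ∀ i, IntervalIntegrable (fun y => bf (t i) y ^ 2) volume 1 2 := by
    intro i
    refine ContinuousOn.intervalIntegrable (((bf_cont hKBf (t i)).mono ?_).pow 2)
    intro y hy
    rw [uIcc_of_le (by norm_num)] at hy
    exact lt_of_lt_of_le (by norm_num) hy.1
  have hint2 : ∀ i, IntervalIntegrable (fun y => ‖ρ i‖ ^ 2 * (1 / 2 * (w ^ 2 * bf (t i) y ^ 2) -
      10201 / 10000 * e0 (t i) * w ^ 4)) volume 1 2 := fun i =>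
    ((((hint i).const_mul (w ^ 2)).const_mul (1 / 2)).sub intervalIntegrable_const).const_mul _
  have h1 : ∫ y in (1 : ℝ)..2, ∑ i, ‖ρ i‖ ^ 2 * (1 / 2 * (w ^ 2 * bf (t i) y ^ 2) -
      10201 / 10000 * e0 (t i) * w ^ 4) ≤ ∫ _y in (1 : ℝ)..2, 3 * Real.pi * w := by
    refine intervalIntegral.integral_mono_on (by norm_num) ?_ intervalIntegrable_const ?_
    · have hs := IntervalIntegrable.sum Finset.univ (fun i _ => hint2 i)
      have he : (∑ i, fun y => ‖ρ i‖ ^ 2 * (1 / 2 * (w ^ 2 * bf (t i) y ^ 2) -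
          10201 / 10000 * e0 (t i) * w ^ 4)) = fun y => ∑ i, ‖ρ i‖ ^ 2 *
          (1 / 2 * (w ^ 2 * bf (t i) y ^ 2) - 10201 / 10000 * e0 (t i) * w ^ 4) := by
        funext y
        rw [Finset.sum_apply]
      rw [he] at hs
      exact hs
    · intro y hy
      exact pointwise hKBf hEn hF ht hy.1 hy.2 hw hw1
  rw [intervalIntegral.integral_const, intervalIntegral.integral_finsetSum fun i _ => hint2 i] at h1
  have h2 : (2 - 1 : ℝ) • (3 * Real.pi * w) = 3 * Real.pi * w := by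
    rw [smul_eq_mul]
    ring
  rw [h2] at h1
  refine le_trans (Finset.sum_le_sum fun i _ => ?_) h1
  rw [intervalIntegral.integral_const_mul]
  refine mul_le_mul_of_nonneg_left ?_ (sq_nonneg _)
  rw [intervalIntegral.integral_sub (((hint i).const_mul (w ^ 2)).const_mul (1 / 2))
    intervalIntegrable_const, intervalIntegral.integral_const_mul,
    intervalIntegral.integral_const_mul, intervalIntegral.integral_const, smul_eq_mul]
  have h3 := bf_sq hEn (ht i)
  have h4 : 1 / 2 * (w ^ 2 * (e0 (t i) / (8 * t i ^ 2))) ≤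
      1 / 2 * (w ^ 2 * ∫ y in (1 : ℝ)..2, bf (t i) y ^ 2) :=
    mul_le_mul_of_nonneg_left (mul_le_mul_of_nonneg_left h3 (sq_nonneg _)) (by norm_num)
  linarith

end RSM

open RSM in
theorem stmtRS (hEn : StmtEn) (hKBf : StmtKBf) (_hDec : StmtDec) : StmtRS := by
  intro ι _ F t ρ T hF hT ht
  have hpi := Real.pi_pos
  have hT0 : 0 < T := by linarith
  have ht100 : ∀ i, 100 ≤ t i := fun i => by linarith [(ht i).1]
  set w : ℝ := 1 / (6 * T) with hw
  have hw0 : 0 < w := by positivity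
  have hw1 : w ≤ 1 := by
    rw [hw, div_le_one (by positivity)]
    linarith
  have h1 := averaged hKBf hEn hF ht100 hw0 hw1
  have h2 : ∀ i, w ^ 2 * Real.pi / (32 * T) * (wf (t i) (ρ i))⁻¹ ≤
      ‖ρ i‖ ^ 2 * (1 / 2 * (w ^ 2 * (e0 (t i) / (8 * t i ^ 2))) -
        10201 / 10000 * e0 (t i) * w ^ 4) := by
    intro i
    have hti : 0 < t i := by linarith [ht100 i]
    have htT := (ht i).2
    have he := e0_pos hti
    have hcosh : 0 < Real.cosh (Real.pi * t i) := Real.cosh_pos _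
    have hsinh : 0 < Real.sinh (Real.pi * t i) := Real.sinh_pos_iff.mpr (by positivity)
    have hwt : w ^ 2 ≤ 1 / (36 * t i ^ 2) := by
      have e1 : w ^ 2 = 1 / (36 * T ^ 2) := by
        rw [hw]
        field_simp
        norm_num
      rw [e1]
      apply one_div_le_one_div_of_le (by positivity)
      have : t i ^ 2 ≤ T ^ 2 := pow_le_pow_left₀ hti.le htT 2
      linarith
    have h3 : w ^ 2 * (e0 (t i) / (32 * t i ^ 2)) ≤
        1 / 2 * (w ^ 2 * (e0 (t i) / (8 * t i ^ 2))) - 10201 / 10000 * e0 (t i) * w ^ 4 := by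
      have e1 : 1 / 2 * (w ^ 2 * (e0 (t i) / (8 * t i ^ 2))) -
          10201 / 10000 * e0 (t i) * w ^ 4 - w ^ 2 * (e0 (t i) / (32 * t i ^ 2)) =
          w ^ 2 * e0 (t i) * (1 / (32 * t i ^ 2) - 10201 / 10000 * w ^ 2) := by
        field_simp
        ring
      have e2 : 0 ≤ 1 / (32 * t i ^ 2) - 10201 / 10000 * w ^ 2 := by
        have e3 : 1 / (32 * t i ^ 2) = 36 / 32 * (1 / (36 * t i ^ 2)) := by
          field_simp
        rw [e3]
        nlinarith [sq_nonneg w]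
      have e4 : 0 ≤ w ^ 2 * e0 (t i) * (1 / (32 * t i ^ 2) - 10201 / 10000 * w ^ 2) := by
        positivity
      linarith
    have h4 : Real.pi / (T * Real.cosh (Real.pi * t i)) ≤ e0 (t i) / t i ^ 2 := by
      have e1 : e0 (t i) / t i ^ 2 = Real.pi / (t i * Real.sinh (Real.pi * t i)) := by
        unfold e0
        field_simp
      rw [e1]
      apply div_le_div_of_nonneg_left hpi.le (by positivity)
      exact mul_le_mul htT (Real.sinh_lt_cosh _).le hsinh.le hT0.le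
    have h5 : (wf (t i) (ρ i))⁻¹ = ‖ρ i‖ ^ 2 / Real.cosh (Real.pi * t i) := by
      unfold wf
      rw [inv_div]
    rw [h5]
    calc w ^ 2 * Real.pi / (32 * T) * (‖ρ i‖ ^ 2 / Real.cosh (Real.pi * t i))
        = ‖ρ i‖ ^ 2 * (w ^ 2 * (Real.pi / (T * Real.cosh (Real.pi * t i))) / 32) := by
          field_simp
      _ ≤ ‖ρ i‖ ^ 2 * (w ^ 2 * (e0 (t i) / t i ^ 2) / 32) := by
          refine mul_le_mul_of_nonneg_left ?_ (sq_nonneg _)
          exact div_le_div_of_nonneg_right (mul_le_mul_of_nonneg_left h4 (sq_nonneg _))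
            (by norm_num)
      _ = ‖ρ i‖ ^ 2 * (w ^ 2 * (e0 (t i) / (32 * t i ^ 2))) := by
          field_simp
      _ ≤ _ := mul_le_mul_of_nonneg_left h3 (sq_nonneg _)
  have h6 : w ^ 2 * Real.pi / (32 * T) * ∑ i, (wf (t i) (ρ i))⁻¹ ≤ 3 * Real.pi * w := by
    rw [Finset.mul_sum]
    exact (Finset.sum_le_sum fun i _ => h2 i).trans h1
  have h7 : w ^ 2 * Real.pi / (32 * T) * (576 * T ^ 2) = 3 * Real.pi * w := by
    rw [hw]
    field_simp
    norm_num
  rw [← h7] at h6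
  exact le_of_mul_le_mul_left h6 (by positivity)

end

end Pool.Agent.A54.Av
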