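import Pool.Agent.Lib.MP_a54f13_nt.Av.SpecA

/-!
# Package `Av`: the first Fourier coefficient of a Maass form is a Bessel function
-/

set_option autoImplicit false

namespace Pool.Agent.A54.Av

open MeasureTheory Filter Topology Set
open scoped ContDiff ComplexConjugate UpperHalfPlane MatrixGroups ENNReal
open Pool.Agent.A54.Half (H0 qq ff hh)

noncomputable section

namespace RhoM

/-! ### Linear equations of second order -/

/-- a solution of `b'' = q b` on `(0, ∞)` which vanishes to second order vanishes -/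
lemma ode_unique {b b1 : ℝ → ℂ} {q : ℝ → ℝ} (hq : ContinuousOn q (Ioi 0))
    (h1 : ∀ y, 0 < y → HasDerivAt b (b1 y) y)
    (h2 : ∀ y, 0 < y → HasDerivAt b1 (q y * b y) y) {y0 : ℝ} (hy0 : 0 < y0)
    (e1 : b y0 = 0) (e2 : b1 y0 = 0) (y : ℝ) (hy : 0 < y) : b y = 0 := by
  set l : ℝ := min y y0 / 2 with hl
  set r : ℝ := max y y0 + 1 with hr
  have hl0 : 0 < l := by rw [hl]; exact half_pos (lt_min hy hy0)
  have hmin : l < min y y0 := by rw [hl]; exact half_lt_self (lt_min hy hy0)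
  have hmax : max y y0 < r := by rw [hr]; linarith
  have hyI : y ∈ Ioo l r := ⟨hmin.trans_le (min_le_left _ _), (le_max_left _ _).trans_lt hmax⟩
  have hy0I : y0 ∈ Ioo l r := ⟨hmin.trans_le (min_le_right _ _), (le_max_right _ _).trans_lt hmax⟩
  have hcomp : IsCompact (Icc l r) := isCompact_Icc
  obtain ⟨Q, hQ⟩ := hcomp.exists_bound_of_continuousOn
    (hq.mono fun x hx => lt_of_lt_of_le hl0 hx.1)
  have hQ0 : 0 ≤ Q := (norm_nonneg _).trans (hQ y ⟨hyI.1.le, hyI.2.le⟩)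
  have key : EqOn (fun t => (b t, b1 t)) (fun _ => ((0 : ℂ), (0 : ℂ))) (Ioo l r) := by
    apply ODE_solution_unique_of_mem_Ioo (K := ⟨max 1 Q, le_max_of_le_left zero_le_one⟩)
      (v := fun t (p : ℂ × ℂ) => (p.2, (q t : ℂ) * p.1)) (s := fun _ => univ) (t₀ := y0)
    · intro t ht
      apply LipschitzWith.lipschitzOnWith
      apply LipschitzWith.of_dist_le_mul
      intro p p'
      rw [Prod.dist_eq]
      have hqt : ‖q t‖ ≤ Q := hQ t ⟨ht.1.le, ht.2.le⟩
      have hd1 : dist p.2 p'.2 ≤ dist p p' := by rw [Prod.dist_eq]; exact le_max_right _ _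
      have hd2 : dist p.1 p'.1 ≤ dist p p' := by rw [Prod.dist_eq]; exact le_max_left _ _
      have hd0 : 0 ≤ dist p p' := dist_nonneg
      apply max_le
      · calc dist p.2 p'.2 ≤ 1 * dist p p' := by rw [one_mul]; exact hd1
          _ ≤ max 1 Q * dist p p' := mul_le_mul_of_nonneg_right (le_max_left _ _) hd0
      · calc dist ((q t : ℂ) * p.1) ((q t : ℂ) * p'.1) = ‖q t‖ * dist p.1 p'.1 := by
              rw [dist_eq_norm, ← mul_sub, norm_mul, Complex.norm_real, dist_eq_norm]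
          _ ≤ max 1 Q * dist p p' :=
              mul_le_mul (hqt.trans (le_max_right _ _)) hd2 dist_nonneg
                (le_max_of_le_left zero_le_one)
    · exact hy0I
    · intro t ht
      have ht0 : 0 < t := hl0.trans ht.1
      exact ⟨(h1 t ht0).prodMk (h2 t ht0), mem_univ _⟩
    · intro t ht
      refine ⟨?_, mem_univ _⟩
      have : ((0 : ℂ), (q t : ℂ) * (0 : ℂ)) = (0 : ℂ × ℂ) := by simp
      simp only
      rw [this]
      exact hasDerivAt_const _ _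
    · simp only [e1, e2]
  have := key hyI
  simp only [Prod.mk.injEq] at this
  exact this.1

/-- derivatives tend to zero if the function and its second derivative do -/
lemma deriv_tendsto_zero {a a1 a2 : ℝ → ℂ} (h1 : ∀ y, 0 < y → HasDerivAt a (a1 y) y)
    (h2 : ∀ y, 0 < y → HasDerivAt a1 (a2 y) y) (ha : Tendsto a atTop (𝓝 0))
    (ha2 : Tendsto a2 atTop (𝓝 0)) : Tendsto a1 atTop (𝓝 0) := by
  rw [Metric.tendsto_atTop] at *
  intro ε hε
  obtain ⟨N1, hN1⟩ := ha (ε / 4) (by positivity)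
  obtain ⟨N2, hN2⟩ := ha2 (ε / 4) (by positivity)
  refine ⟨max (max N1 N2) 1, fun y hy => ?_⟩
  have hy0 : 0 < y := lt_of_lt_of_le one_pos ((le_max_right _ _).trans hy)
  have hyN1 : N1 ≤ y := (le_max_left _ _).trans ((le_max_left _ _).trans hy)
  have hyN2 : N2 ≤ y := (le_max_right _ _).trans ((le_max_left _ _).trans hy)
  have hb : ∀ s ∈ Icc y (y + 1), ‖a1 s - a1 y‖ ≤ ε / 4 := by
    intro s hs
    have := Convex.norm_image_sub_le_of_norm_hasDerivWithin_le (f := a1) (f' := a2)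
      (s := Icc y (y + 1)) (C := ε / 4) (x := y) (y := s)
      (fun x hx => (h2 x (hy0.trans_le hx.1)).hasDerivWithinAt)
      (fun x hx => by
        have := hN2 x (hyN2.trans hx.1)
        rw [dist_zero_right] at this
        exact this.le) (convex_Icc _ _) ⟨le_rfl, by linarith⟩ hs
    refine this.trans ?_
    have : ‖s - y‖ ≤ 1 := by
      rw [Real.norm_eq_abs, abs_of_nonneg (by linarith [hs.1])]
      linarith [hs.2]
    nlinarith [norm_nonneg (s - y)]
  have hc : ‖(a (y + 1) - (y + 1 - y : ℝ) • a1 y) - (a y - (y - y : ℝ) • a1 y)‖ ≤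
      ε / 4 * ‖y + 1 - y‖ := by
    apply Convex.norm_image_sub_le_of_norm_hasDerivWithin_le
      (f := fun s => a s - (s - y : ℝ) • a1 y) (f' := fun s => a1 s - a1 y)
      (s := Icc y (y + 1)) (C := ε / 4) (x := y) (y := y + 1)
    · intro x hx
      have e := (h1 x (hy0.trans_le hx.1)).sub
        (((hasDerivAt_id x).sub_const y).smul_const (a1 y))
      rw [one_smul] at e
      exact e.hasDerivWithinAt
    · intro x hx
      exact hb x hx
    · exact convex_Icc _ _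
    · exact ⟨le_rfl, by linarith⟩
    · exact ⟨by linarith, le_rfl⟩
  have e1 : (a (y + 1) - (y + 1 - y : ℝ) • a1 y) - (a y - (y - y : ℝ) • a1 y) =
      a (y + 1) - a y - a1 y := by
    rw [sub_self, zero_smul, sub_zero, show (y + 1 - y : ℝ) = 1 by ring, one_smul]
    ring
  rw [e1, show (y + 1 - y : ℝ) = 1 by ring, norm_one, mul_one] at hc
  have h3 := hN1 y hyN1
  have h4 := hN1 (y + 1) (by linarith)
  rw [dist_zero_right] at *
  have h5 : ‖a1 y‖ ≤ ‖a (y + 1) - a y - a1 y‖ + ‖a (y + 1)‖ + ‖a y‖ := by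
    have : a1 y = -(a (y + 1) - a y - a1 y) + a (y + 1) - a y := by ring
    calc ‖a1 y‖ = ‖-(a (y + 1) - a y - a1 y) + a (y + 1) - a y‖ := by rw [← this]
      _ ≤ ‖-(a (y + 1) - a y - a1 y) + a (y + 1)‖ + ‖a y‖ := norm_sub_le _ _
      _ ≤ ‖-(a (y + 1) - a y - a1 y)‖ + ‖a (y + 1)‖ + ‖a y‖ := by
        gcongr
        exact norm_add_le _ _
      _ = _ := by rw [norm_neg]
  linarith

/-! ### Paths in the half-plane -/

lemma hasDerivAt_ptx (x y : ℝ) : HasDerivAt (fun x : ℝ => (⟨x, y⟩ : ℂ)) 1 x := by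
  have h : (fun x : ℝ => (⟨x, y⟩ : ℂ)) = fun x : ℝ => (x : ℂ) + (y : ℂ) * Complex.I := by
    funext x
    exact Complex.mk_eq_add_mul_I x y
  rw [h]
  exact (Complex.ofRealCLM.hasDerivAt (x := x)).add_const _

lemma hasDerivAt_pty (x y : ℝ) : HasDerivAt (fun y : ℝ => (⟨x, y⟩ : ℂ)) Complex.I y := by
  have h : (fun y : ℝ => (⟨x, y⟩ : ℂ)) = fun y : ℝ => (x : ℂ) + (y : ℂ) * Complex.I := by
    funext y
    exact Complex.mk_eq_add_mul_I x y
  rw [h]
  have := ((Complex.ofRealCLM.hasDerivAt (x := y)).mul_const Complex.I).const_add (x : ℂ)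
  simpa using this

lemma continuous_pt : Continuous fun p : ℝ × ℝ => (⟨p.1, p.2⟩ : ℂ) := by
  have h : (fun p : ℝ × ℝ => (⟨p.1, p.2⟩ : ℂ)) =
      fun p : ℝ × ℝ => (p.1 : ℂ) + (p.2 : ℂ) * Complex.I := by
    funext p
    exact Complex.mk_eq_add_mul_I p.1 p.2
  rw [h]
  fun_prop

lemma diffAt {h : ℂ → ℝ} (hh : ContDiffOn ℝ ∞ h H0) {z : ℂ} (hz : z ∈ H0) :
    DifferentiableAt ℝ h z :=
  (hh.contDiffAt (Half.isOpen_H0.mem_nhds hz)).differentiableAt (by simp)

/-- a partial derivative is smooth -/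
lemma smooth_fd {h : ℂ → ℝ} (hh : ContDiffOn ℝ ∞ h H0) (v : ℂ) :
    ContDiffOn ℝ ∞ (fun z => fderiv ℝ h z v) H0 := by
  have h1 : ContDiffOn ℝ ∞ (fderiv ℝ h) H0 :=
    hh.fderiv_of_isOpen Half.isOpen_H0 (by simp)
  exact h1.clm_apply contDiffOn_const

lemma mem_H0 {x y : ℝ} (hy : 0 < y) : (⟨x, y⟩ : ℂ) ∈ H0 := hy

lemma deriv_x {h : ℂ → ℝ} (hh : ContDiffOn ℝ ∞ h H0) {x y : ℝ} (hy : 0 < y) :
    HasDerivAt (fun x : ℝ => h ⟨x, y⟩) (fderiv ℝ h ⟨x, y⟩ 1) x :=
  (diffAt hh (mem_H0 hy)).hasFDerivAt.comp_hasDerivAt x (hasDerivAt_ptx x y)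

lemma deriv_y {h : ℂ → ℝ} (hh : ContDiffOn ℝ ∞ h H0) {x y : ℝ} (hy : 0 < y) :
    HasDerivAt (fun y : ℝ => h ⟨x, y⟩) (fderiv ℝ h ⟨x, y⟩ Complex.I) y :=
  (diffAt hh (mem_H0 hy)).hasFDerivAt.comp_hasDerivAt y (hasDerivAt_pty x y)

lemma cont_x {h : ℂ → ℝ} (hh : ContDiffOn ℝ ∞ h H0) {y : ℝ} (hy : 0 < y) :
    Continuous fun x : ℝ => h ⟨x, y⟩ := by
  rw [continuous_iff_continuousAt]
  intro x
  exact (deriv_x hh hy).continuousAt

/-- differentiation under the integral sign -/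
lemma par {h : ℂ → ℝ} (hh : ContDiffOn ℝ ∞ h H0) {e : ℝ → ℂ} (he : Continuous e) {y0 : ℝ}
    (hy0 : 0 < y0) :
    HasDerivAt (fun y => ∫ x in (0 : ℝ)..1, (h ⟨x, y⟩ : ℂ) * e x)
      (∫ x in (0 : ℝ)..1, (fderiv ℝ h ⟨x, y0⟩ Complex.I : ℂ) * e x) y0 := by
  have hcI := (smooth_fd hh Complex.I).continuousOn
  have hc2 : ContinuousOn (fun p : ℝ × ℝ => ((fderiv ℝ h ⟨p.1, p.2⟩ Complex.I : ℝ) : ℂ) * e p.1)
      (Icc 0 1 ×ˢ Icc (y0 / 2) (2 * y0)) := by
    apply ContinuousOn.mul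
    · apply Complex.continuous_ofReal.comp_continuousOn
      apply hcI.comp continuous_pt.continuousOn
      intro p hp
      exact mem_H0 (lt_of_lt_of_le (half_pos hy0) hp.2.1)
    · exact (he.comp continuous_fst).continuousOn
  obtain ⟨C, hC⟩ := (isCompact_Icc.prod isCompact_Icc).exists_bound_of_continuousOn hc2
  have hmem : Icc (y0 / 2) (2 * y0) ∈ 𝓝 y0 := Icc_mem_nhds (by linarith) (by linarith)
  refine (intervalIntegral.hasDerivAt_integral_of_dominated_loc_of_deriv_le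
    (F := fun y x => (h ⟨x, y⟩ : ℂ) * e x)
    (F' := fun y x => ((fderiv ℝ h ⟨x, y⟩ Complex.I : ℝ) : ℂ) * e x)
    (bound := fun _ => C) hmem ?_ ?_ ?_ ?_ ?_ ?_).2
  · filter_upwards [hmem] with y hy
    have : Continuous fun x : ℝ => (h ⟨x, y⟩ : ℂ) * e x :=
      (Complex.continuous_ofReal.comp (cont_x hh (lt_of_lt_of_le (half_pos hy0) hy.1))).mul he
    exact this.aestronglyMeasurable
  · have : Continuous fun x : ℝ => (h ⟨x, y0⟩ : ℂ) * e x :=
      (Complex.continuous_ofReal.comp (cont_x hh hy0)).mul he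
    exact this.intervalIntegrable _ _
  · have : Continuous fun x : ℝ => ((fderiv ℝ h ⟨x, y0⟩ Complex.I : ℝ) : ℂ) * e x :=
      (Complex.continuous_ofReal.comp (cont_x (smooth_fd hh Complex.I) hy0)).mul he
    exact this.aestronglyMeasurable
  · refine Filter.Eventually.of_forall fun x hx y hy => ?_
    rw [uIoc_of_le zero_le_one] at hx
    exact hC (x, y) ⟨⟨hx.1.le, hx.2⟩, hy⟩
  · exact intervalIntegrable_const
  · refine Filter.Eventually.of_forall fun x _ y hy => ?_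
    have hy' : 0 < y := lt_of_lt_of_le (half_pos hy0) hy.1
    exact ((deriv_y hh hy').ofReal_comp).mul_const _

/-- the character -/
def e1 (x : ℝ) : ℂ := ee (-(((1 : ℤ) : ℂ) * x))

lemma e1_deriv (x : ℝ) : HasDerivAt e1 (-(2 * (Real.pi : ℂ) * Complex.I) * e1 x) x := by
  have h : HasDerivAt (fun x : ℝ => 2 * (Real.pi : ℂ) * Complex.I * (-(((1 : ℤ) : ℂ) * x)))
      (2 * (Real.pi : ℂ) * Complex.I * (-(((1 : ℤ) : ℂ) * 1))) x :=
    (((Complex.ofRealCLM.hasDerivAt (x := x)).const_mul _).neg).const_mul _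
  have h2 := h.cexp
  unfold e1 ee
  refine h2.congr_deriv ?_
  push_cast
  ring

lemma e1_cont : Continuous e1 := by
  rw [continuous_iff_continuousAt]
  intro x
  exact (e1_deriv x).continuousAt

lemma e1_zero : e1 0 = 1 := by simp [e1, ee]

lemma e1_one : e1 1 = 1 := by
  unfold e1 ee
  rw [Complex.exp_eq_one_iff]
  refine ⟨-1, ?_⟩
  push_cast
  ring

/-- integration by parts in `x` -/
lemma parts {h : ℂ → ℝ} (hh : ContDiffOn ℝ ∞ h H0)
    (hper : ∀ z ∈ H0, h (z + 1) = h z) {y : ℝ} (hy : 0 < y) :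
    ∫ x in (0 : ℝ)..1, (fderiv ℝ h ⟨x, y⟩ 1 : ℂ) * e1 x =
      (2 * (Real.pi : ℂ) * Complex.I) * ∫ x in (0 : ℝ)..1, (h ⟨x, y⟩ : ℂ) * e1 x := by
  have h1 : ∀ x ∈ uIcc (0 : ℝ) 1,
      HasDerivAt (fun x : ℝ => (h ⟨x, y⟩ : ℂ)) ((fderiv ℝ h ⟨x, y⟩ 1 : ℝ) : ℂ) x :=
    fun x _ => (deriv_x hh hy).ofReal_comp
  have c1 : Continuous fun x : ℝ => ((fderiv ℝ h ⟨x, y⟩ 1 : ℝ) : ℂ) :=
    Complex.continuous_ofReal.comp (cont_x (smooth_fd hh 1) hy)
  have c2 : Continuous fun x : ℝ => -(2 * (Real.pi : ℂ) * Complex.I) * e1 x :=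
    continuous_const.mul e1_cont
  have key := intervalIntegral.integral_mul_deriv_eq_deriv_mul h1 (fun x _ => e1_deriv x)
    (c1.intervalIntegrable _ _) (c2.intervalIntegrable _ _)
  have hb : h ⟨1, y⟩ = h ⟨0, y⟩ := by
    have := hper ⟨0, y⟩ (mem_H0 hy)
    rw [← this]
    congr 1
    apply Complex.ext <;> simp
  rw [e1_zero, e1_one, hb, sub_self, zero_sub] at key
  have e2 : ∫ x in (0 : ℝ)..1, (h ⟨x, y⟩ : ℂ) * (-(2 * (Real.pi : ℂ) * Complex.I) * e1 x) =
      -(2 * (Real.pi : ℂ) * Complex.I) * ∫ x in (0 : ℝ)..1, (h ⟨x, y⟩ : ℂ) * e1 x := by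
    rw [← intervalIntegral.integral_const_mul]
    congr 1
    funext x
    ring
  rw [e2] at key
  have := congrArg Neg.neg key
  rw [neg_neg] at this
  rw [← this]
  ring

/-- a partial derivative of a periodic function is periodic -/
lemma per_fd {h : ℂ → ℝ} (hper : ∀ z ∈ H0, h (z + 1) = h z) (v : ℂ) :
    ∀ z ∈ H0, fderiv ℝ h (z + 1) v = fderiv ℝ h z v := by
  intro z hz
  have e : (fun w => h (w + 1)) =ᶠ[𝓝 z] h := by
    filter_upwards [Half.isOpen_H0.mem_nhds hz] with w hw using hper w hw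
  rw [← e.fderiv_eq, fderiv_comp_add_right]

/-- the Laplacian through partial derivatives -/
lemma lap {h : ℂ → ℝ} (hh : ContDiffOn ℝ ∞ h H0) {z : ℂ} (hz : z ∈ H0) :
    Laplacian.laplacian h z = fderiv ℝ (fun w => fderiv ℝ h w 1) z 1 +
      fderiv ℝ (fun w => fderiv ℝ h w Complex.I) z Complex.I := by
  have hd : DifferentiableAt ℝ (fderiv ℝ h) z :=
    ((hh.fderiv_of_isOpen Half.isOpen_H0 (m := ∞) (by simp)).contDiffAt
      (Half.isOpen_H0.mem_nhds hz)).differentiableAt (by simp)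
  rw [InnerProductSpace.laplacian_eq_iteratedFDeriv_complexPlane]
  simp only [iteratedFDeriv_two_apply]
  have e : ∀ v : ℂ, fderiv ℝ (fun w => fderiv ℝ h w v) z v = fderiv ℝ (fderiv ℝ h) z v v := by
    intro v
    rw [fderiv_clm_apply hd (differentiableAt_const _)]
    simp
  rw [e, e]
  simp

/-! ### The coefficient -/

lemma ext_per {f : ℍ → ℝ} (hinv : ∀ (γ : SL(2, ℤ)) (z : ℍ), f (γ • z) = f z) :
    ∀ z ∈ H0, ext f (z + 1) = ext f z := by
  intro z hz
  have hz' : 0 < z.im := hz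
  have hz1 : 0 < (z + 1).im := by simpa using hz'
  unfold ext
  rw [UpperHalfPlane.ofComplex_apply_of_im_pos hz', UpperHalfPlane.ofComplex_apply_of_im_pos hz1]
  rw [← hinv ModularGroup.T ⟨z, hz'⟩, UpperHalfPlane.modular_T_smul]
  congr 1
  apply UpperHalfPlane.ext
  rw [UpperHalfPlane.coe_vadd]
  push_cast
  ring

/-- the coefficient function -/
def qf (t y : ℝ) : ℝ := 4 * Real.pi ^ 2 - (1 / 4 + t ^ 2) / y ^ 2

lemma qf_cont (t : ℝ) : ContinuousOn (qf t) (Ioi 0) := by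
  intro y hy
  have : (y : ℝ) ^ 2 ≠ 0 := pow_ne_zero _ (ne_of_gt hy)
  unfold qf
  exact (continuousAt_const.sub (continuousAt_const.div (continuousAt_id.pow 2)
    this)).continuousWithinAt

/-- first derivative of the coefficient -/
def a1 (f : ℍ → ℝ) (y : ℝ) : ℂ :=
  ∫ x in (0 : ℝ)..1, (fderiv ℝ (ext f) ⟨x, y⟩ Complex.I : ℂ) * e1 x

lemma a_deriv {f : ℍ → ℝ} {t : ℝ} (hf : IsHeckeMaass f t) {y : ℝ} (hy : 0 < y) :
    HasDerivAt (an f 1) (a1 f y) y :=
  par hf.smooth e1_cont hy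

lemma a1_deriv {f : ℍ → ℝ} {t : ℝ} (hf : IsHeckeMaass f t) {y : ℝ} (hy : 0 < y) :
    HasDerivAt (a1 f) ((qf t y : ℂ) * an f 1 y) y := by
  have hs := hf.smooth
  have h := par (smooth_fd hs Complex.I) e1_cont hy
  refine h.congr_deriv ?_
  have hper := ext_per hf.invariant
  have e2 : ∀ x : ℝ, fderiv ℝ (fun w => fderiv ℝ (ext f) w Complex.I) ⟨x, y⟩ Complex.I =
      -((1 / 4 + t ^ 2) / y ^ 2) * ext f ⟨x, y⟩ -
        fderiv ℝ (fun w => fderiv ℝ (ext f) w 1) ⟨x, y⟩ 1 := by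
    intro x
    have h1 := lap hs (mem_H0 (x := x) hy)
    have h2 := hf.eigen ⟨⟨x, y⟩, hy⟩
    have e4 : ((⟨⟨x, y⟩, hy⟩ : ℍ) : ℂ) = ⟨x, y⟩ := rfl
    have e5 : (⟨⟨x, y⟩, hy⟩ : ℍ).im = y := rfl
    have e6 : f ⟨⟨x, y⟩, hy⟩ = ext f ⟨x, y⟩ := by
      unfold ext
      rw [UpperHalfPlane.ofComplex_apply_of_im_pos hy]
    rw [e4, e5, e6] at h2
    have hy2 : y ^ 2 ≠ 0 := pow_ne_zero _ hy.ne'
    have h3 : Laplacian.laplacian (ext f) (⟨x, y⟩ : ℂ) =
        -((1 / 4 + t ^ 2) / y ^ 2) * ext f ⟨x, y⟩ := by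
      field_simp
      linarith
    rw [← h3, h1]
    ring
  have c0 : Continuous fun x : ℝ => (ext f ⟨x, y⟩ : ℂ) * e1 x :=
    (Complex.continuous_ofReal.comp (cont_x hs hy)).mul e1_cont
  have c1 : Continuous fun x : ℝ =>
      ((fderiv ℝ (fun w => fderiv ℝ (ext f) w 1) ⟨x, y⟩ 1 : ℝ) : ℂ) * e1 x :=
    (Complex.continuous_ofReal.comp (cont_x (smooth_fd (smooth_fd hs 1) 1) hy)).mul e1_cont
  have e3 : ∀ x : ℝ, ((fderiv ℝ (fun w => fderiv ℝ (ext f) w Complex.I) ⟨x, y⟩ Complex.I : ℝ) : ℂ) *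
      e1 x = (-((1 / 4 + t ^ 2) / y ^ 2) : ℝ) * ((ext f ⟨x, y⟩ : ℂ) * e1 x) -
        ((fderiv ℝ (fun w => fderiv ℝ (ext f) w 1) ⟨x, y⟩ 1 : ℝ) : ℂ) * e1 x := by
    intro x
    rw [e2 x]
    push_cast
    ring
  have e7 : ∫ x in (0 : ℝ)..1,
      ((fderiv ℝ (fun w => fderiv ℝ (ext f) w Complex.I) ⟨x, y⟩ Complex.I : ℝ) : ℂ) * e1 x =
      (-((1 / 4 + t ^ 2) / y ^ 2) : ℝ) * (∫ x in (0 : ℝ)..1, (ext f ⟨x, y⟩ : ℂ) * e1 x) -
        ∫ x in (0 : ℝ)..1,
          ((fderiv ℝ (fun w => fderiv ℝ (ext f) w 1) ⟨x, y⟩ 1 : ℝ) : ℂ) * e1 x := by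
    have c2 : Continuous fun x : ℝ =>
        ((-((1 / 4 + t ^ 2) / y ^ 2) : ℝ) : ℂ) * ((ext f ⟨x, y⟩ : ℂ) * e1 x) :=
      continuous_const.mul c0
    have e9 := intervalIntegral.integral_sub (μ := MeasureTheory.volume)
      (c2.intervalIntegrable 0 1) (c1.intervalIntegrable 0 1)
    rw [← intervalIntegral.integral_const_mul, ← e9]
    congr 1
    funext x
    exact e3 x
  rw [e7, parts (smooth_fd hs 1) (per_fd hper 1) hy, parts hs hper hy]
  have e8 : an f 1 y = ∫ x in (0 : ℝ)..1, (ext f ⟨x, y⟩ : ℂ) * e1 x := rfl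
  rw [e8]
  have hI : (2 * (Real.pi : ℂ) * Complex.I) * (2 * (Real.pi : ℂ) * Complex.I) =
      -(4 * (Real.pi : ℂ) ^ 2) := by
    calc (2 * (Real.pi : ℂ) * Complex.I) * (2 * (Real.pi : ℂ) * Complex.I) =
        4 * (Real.pi : ℂ) ^ 2 * (Complex.I * Complex.I) := by ring
      _ = _ := by rw [Complex.I_mul_I]; ring
  rw [← mul_assoc, hI]
  unfold qf
  push_cast
  ring

lemma norm_e1 (x : ℝ) : ‖e1 x‖ = 1 := by
  unfold e1 ee
  rw [Complex.norm_exp]
  have : (2 * (Real.pi : ℂ) * Complex.I * -(((1 : ℤ) : ℂ) * (x : ℂ))).re = 0 := by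
    simp
  rw [this, Real.exp_zero]

lemma a_tendsto {f : ℍ → ℝ} {C c : ℝ} (hc : 0 < c)
    (hd : ∀ z : ℍ, 1 / 2 ≤ z.im → |f z| ≤ C * Real.exp (-(c * z.im))) :
    Tendsto (an f 1) atTop (𝓝 0) := by
  have hlim : Tendsto (fun y : ℝ => C * Real.exp (-(c * y))) atTop (𝓝 0) := by
    have h1 : Tendsto (fun y : ℝ => c * y) atTop atTop := tendsto_id.const_mul_atTop hc
    have := (Real.tendsto_exp_neg_atTop_nhds_zero.comp h1).const_mul C
    simpa using this
  apply squeeze_zero_norm' _ hlim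
  filter_upwards [eventually_ge_atTop (1 / 2 : ℝ)] with y hy
  have hy0 : 0 < y := by linarith
  have h1 : ∀ x ∈ Set.uIoc (0 : ℝ) 1, ‖(ext f ⟨x, y⟩ : ℂ) * e1 x‖ ≤ C * Real.exp (-(c * y)) := by
    intro x _
    rw [norm_mul, norm_e1, mul_one, Complex.norm_real, Real.norm_eq_abs]
    have := hd ⟨⟨x, y⟩, hy0⟩ hy
    have e6 : f ⟨⟨x, y⟩, hy0⟩ = ext f ⟨x, y⟩ := by
      unfold ext
      rw [UpperHalfPlane.ofComplex_apply_of_im_pos hy0]
    rw [e6] at this
    exact this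
  have h2 := intervalIntegral.norm_integral_le_of_norm_le_const h1
  rw [sub_zero, abs_one, mul_one] at h2
  exact h2

/-- the Bessel solution -/
def kf (t y : ℝ) : ℝ := √y * KB t (2 * Real.pi * y)

/-- and its derivative -/
def k1 (t y : ℝ) : ℝ :=
  1 / (2 * √y) * KB t (2 * Real.pi * y) + √y * (KB1 t (2 * Real.pi * y) * (2 * Real.pi))

lemma hasDerivAt_lin (y : ℝ) : HasDerivAt (fun y : ℝ => 2 * Real.pi * y) (2 * Real.pi) y := by
  simpa using (hasDerivAt_id y).const_mul (2 * Real.pi)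

lemma kf_deriv (hK : StmtKBf) (t : ℝ) {y : ℝ} (hy : 0 < y) : HasDerivAt (kf t) (k1 t y) y := by
  have h1 := ((hK t).1 (2 * Real.pi * y) (by positivity)).comp y (hasDerivAt_lin y)
  exact (Real.hasDerivAt_sqrt hy.ne').mul h1

lemma k1_deriv (hK : StmtKBf) (t : ℝ) {y : ℝ} (hy : 0 < y) :
    HasDerivAt (k1 t) (qf t y * kf t y) y := by
  have h1 := ((hK t).1 (2 * Real.pi * y) (by positivity)).comp y (hasDerivAt_lin y)
  have h2 := ((hK t).2.1 (2 * Real.pi * y) (by positivity)).comp y (hasDerivAt_lin y)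
  have hs : HasDerivAt (fun y : ℝ => √y) (1 / (2 * √y)) y := Real.hasDerivAt_sqrt hy.ne'
  have hsq : √y ≠ 0 := (Real.sqrt_pos.2 hy).ne'
  have hi : HasDerivAt (fun y : ℝ => 1 / (2 * √y)) (-(2 * (1 / (2 * √y))) / (2 * √y) ^ 2) y := by
    have h0 : HasDerivAt (fun y : ℝ => 2 * √y) (2 * (1 / (2 * √y))) y := hs.const_mul 2
    have h00 := (hasDerivAt_const y (1 : ℝ)).div h0 (by positivity)
    refine h00.congr_deriv ?_
    ring
  have h3 := (hi.mul h1).add (hs.mul (h2.mul_const (2 * Real.pi)))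
  refine h3.congr_deriv ?_
  have hy2 : y = √y ^ 2 := (Real.sq_sqrt hy.le).symm
  unfold qf kf
  simp only [Function.comp]
  set s := √y with hsdef
  have hpi : Real.pi ≠ 0 := Real.pi_ne_zero
  rw [show (2 * Real.pi * y) = 2 * Real.pi * s ^ 2 by rw [← hy2]]
  rw [show y ^ 2 = s ^ 4 by rw [hy2]; ring]
  set K := KB t (2 * Real.pi * s ^ 2)
  set K' := KB1 t (2 * Real.pi * s ^ 2)
  field_simp
  ring

lemma K_bound (hK : StmtKBf) (t : ℝ) {y : ℝ} (hy : 1 ≤ y) :
    |KB t (2 * Real.pi * y)| ≤ Real.exp (-y) := by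
  have hpi := Real.pi_gt_three
  have h := (hK t).2.2.1 (2 * Real.pi * y) (by positivity)
  refine h.trans ?_
  have h1 : √(Real.pi / (2 * (2 * Real.pi * y))) ≤ 1 := by
    rw [Real.sqrt_le_left zero_le_one, one_pow, div_le_one (by positivity)]
    nlinarith [Real.pi_pos]
  calc √(Real.pi / (2 * (2 * Real.pi * y))) * Real.exp (-(2 * Real.pi * y)) ≤
      1 * Real.exp (-y) := by
        apply mul_le_mul h1 _ (Real.exp_pos _).le zero_le_one
        apply Real.exp_le_exp.2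
        nlinarith
    _ = _ := one_mul _

lemma K1_bound (hK : StmtKBf) (t : ℝ) {y : ℝ} (hy : 1 ≤ y) :
    |KB1 t (2 * Real.pi * y)| ≤ Real.exp (-y) := by
  have hpi := Real.pi_gt_three
  have h := (hK t).2.2.2.1 (2 * Real.pi * y) (by positivity)
  refine h.trans ?_
  have h1 : 2 / (2 * Real.pi * y) ≤ 1 := by
    rw [div_le_one (by positivity)]
    nlinarith
  calc 2 / (2 * Real.pi * y) * Real.exp (-(2 * Real.pi * y / 2)) ≤
      1 * Real.exp (-y) := by
        apply mul_le_mul h1 _ (Real.exp_pos _).le zero_le_one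
        apply Real.exp_le_exp.2
        nlinarith
    _ = _ := one_mul _

lemma exp_lim (C : ℝ) : Tendsto (fun y : ℝ => C * (y * Real.exp (-y))) atTop (𝓝 0) := by
  have := (Real.tendsto_pow_mul_exp_neg_atTop_nhds_zero 1).const_mul C
  simpa using this

lemma sqrt_le_self' {y : ℝ} (hy : 1 ≤ y) : √y ≤ y := by
  rw [Real.sqrt_le_left (by linarith)]
  nlinarith

lemma kf_tendsto (hK : StmtKBf) (t : ℝ) : Tendsto (kf t) atTop (𝓝 0) := by
  apply squeeze_zero_norm' _ (exp_lim 1)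
  filter_upwards [eventually_ge_atTop (1 : ℝ)] with y hy
  unfold kf
  rw [norm_mul, Real.norm_eq_abs, Real.norm_eq_abs, abs_of_nonneg (Real.sqrt_nonneg _), one_mul]
  exact mul_le_mul (sqrt_le_self' hy) (K_bound hK t hy) (abs_nonneg _) (by linarith)

lemma k1_tendsto (hK : StmtKBf) (t : ℝ) : Tendsto (k1 t) atTop (𝓝 0) := by
  apply squeeze_zero_norm' _ (exp_lim (1 + 2 * Real.pi))
  filter_upwards [eventually_ge_atTop (1 : ℝ)] with y hy
  have hpi := Real.pi_pos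
  unfold k1
  refine (norm_add_le _ _).trans ?_
  have hs1 : 1 ≤ √y := by rw [Real.one_le_sqrt]; exact hy
  have h1 : ‖1 / (2 * √y) * KB t (2 * Real.pi * y)‖ ≤ y * Real.exp (-y) := by
    rw [norm_mul, Real.norm_eq_abs, Real.norm_eq_abs]
    apply mul_le_mul _ (K_bound hK t hy) (abs_nonneg _) (by linarith)
    rw [abs_of_nonneg (by positivity), div_le_iff₀ (by positivity)]
    nlinarith
  have h2 : ‖√y * (KB1 t (2 * Real.pi * y) * (2 * Real.pi))‖ ≤
      y * (Real.exp (-y) * (2 * Real.pi)) := by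
    rw [norm_mul, norm_mul, Real.norm_eq_abs, Real.norm_eq_abs, Real.norm_eq_abs,
      abs_of_nonneg (Real.sqrt_nonneg _), abs_of_nonneg (by positivity : (0 : ℝ) ≤ 2 * Real.pi)]
    apply mul_le_mul (sqrt_le_self' hy) _ (by positivity) (by linarith)
    exact mul_le_mul_of_nonneg_right (K1_bound hK t hy) (by positivity)
  calc _ ≤ y * Real.exp (-y) + y * (Real.exp (-y) * (2 * Real.pi)) := add_le_add h1 h2
    _ = _ := by ring

lemma kf_pos (hK : StmtKBf) (t : ℝ) : ∃ y : ℝ, 0 < y ∧ kf t y ≠ 0 := by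
  have h := (hK t).2.2.2.2
  have hpos : 0 < √(Real.pi / 2) := Real.sqrt_pos.2 (by positivity)
  have h2 := (h.eventually (lt_mem_nhds hpos)).and (eventually_gt_atTop (0 : ℝ))
  obtain ⟨X, hX1, hX0⟩ := h2.exists
  have hpi := Real.pi_pos
  refine ⟨X / (2 * Real.pi), by positivity, ?_⟩
  unfold kf
  have e : 2 * Real.pi * (X / (2 * Real.pi)) = X := by field_simp
  rw [e]
  apply mul_ne_zero (Real.sqrt_pos.2 (by positivity)).ne'
  intro h0
  rw [h0, mul_zero] at hX1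
  exact lt_irrefl _ hX1

end RhoM

theorem stmtRho (hDec : StmtDec) (hKBf : StmtKBf) (hFo : StmtFo1) : StmtRho := by
  intro f t hf
  obtain ⟨C, c, hc, hd, -⟩ := hDec f t hf
  have hA := fun y hy => RhoM.a_deriv hf (y := y) hy
  have hA1 := fun y hy => RhoM.a1_deriv hf (y := y) hy
  have hk := fun y hy => (RhoM.kf_deriv hKBf t (y := y) hy).ofReal_comp
  have hk1 := fun y hy => (RhoM.k1_deriv hKBf t (y := y) hy).ofReal_comp
  have la := RhoM.a_tendsto hc hd
  -- the second derivative tends to zero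
  have lq : Tendsto (fun y => (RhoM.qf t y : ℂ)) atTop (𝓝 ((4 * Real.pi ^ 2 : ℝ) : ℂ)) := by
    apply (Complex.continuous_ofReal.tendsto _).comp
    unfold RhoM.qf
    have h1 : Tendsto (fun y : ℝ => (1 / 4 + t ^ 2) / y ^ 2) atTop (𝓝 0) :=
      tendsto_const_nhds.div_atTop (tendsto_pow_atTop two_ne_zero)
    have := (tendsto_const_nhds (x := 4 * Real.pi ^ 2)).sub h1
    simpa using this
  have la2 : Tendsto (fun y => (RhoM.qf t y : ℂ) * an f 1 y) atTop (𝓝 0) := by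
    have := lq.mul la
    simpa using this
  have la1 : Tendsto (RhoM.a1 f) atTop (𝓝 0) := RhoM.deriv_tendsto_zero hA hA1 la la2
  have lk : Tendsto (fun y => (RhoM.kf t y : ℂ)) atTop (𝓝 0) := by
    have := (Complex.continuous_ofReal.tendsto _).comp (RhoM.kf_tendsto hKBf t)
    simpa [Function.comp_def] using this
  have lk1 : Tendsto (fun y => (RhoM.k1 t y : ℂ)) atTop (𝓝 0) := by
    have := (Complex.continuous_ofReal.tendsto _).comp (RhoM.k1_tendsto hKBf t)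
    simpa [Function.comp_def] using this
  -- the Wronskian
  set W : ℝ → ℂ := fun y => an f 1 y * (RhoM.k1 t y : ℂ) - RhoM.a1 f y * (RhoM.kf t y : ℂ) with hW
  have dW : ∀ y, 0 < y → HasDerivAt W 0 y := by
    intro y hy
    have h := ((hA y hy).mul (hk1 y hy)).sub ((hA1 y hy).mul (hk y hy))
    refine h.congr_deriv ?_
    push_cast
    ring
  have lW : Tendsto W atTop (𝓝 0) := by
    have := (la.mul lk1).sub (la1.mul lk)
    simpa using this
  have cW : ∀ y, 0 < y → ∀ y', 0 < y' → W y = W y' := by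
    intro y hy y' hy'
    apply isOpen_Ioi.is_const_of_deriv_eq_zero (s := Ioi (0 : ℝ)) isPreconnected_Ioi
      (fun x hx => (dW x hx).differentiableAt.differentiableWithinAt)
      (fun x hx => (dW x hx).deriv) hy hy'
  have W0 : ∀ y, 0 < y → W y = 0 := by
    intro y hy
    have h1 : Tendsto W atTop (𝓝 (W y)) := by
      apply tendsto_const_nhds.congr'
      filter_upwards [eventually_gt_atTop (0 : ℝ)] with y' hy' using cW y hy y' hy'
    exact tendsto_nhds_unique h1 lW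
  obtain ⟨y0, hy0, hk0⟩ := RhoM.kf_pos hKBf t
  have hk0' : (RhoM.kf t y0 : ℂ) ≠ 0 := by exact_mod_cast hk0
  set ρ : ℂ := an f 1 y0 / (RhoM.kf t y0 : ℂ) with hρ
  have hall : ∀ y, 0 < y → an f 1 y = ρ * (RhoM.kf t y : ℂ) := by
    intro y hy
    have := RhoM.ode_unique (b := fun y => an f 1 y - ρ * (RhoM.kf t y : ℂ))
      (b1 := fun y => RhoM.a1 f y - ρ * (RhoM.k1 t y : ℂ)) (RhoM.qf_cont t)
      (fun y hy => (hA y hy).sub ((hk y hy).const_mul ρ))
      (fun y hy => by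
        refine ((hA1 y hy).sub ((hk1 y hy).const_mul ρ)).congr_deriv ?_
        push_cast
        ring) hy0
      (by rw [hρ, div_mul_cancel₀ _ hk0', sub_self])
      (by
        have h := W0 y0 hy0
        simp only [hW] at h
        rw [hρ]
        field_simp
        linear_combination -h) y hy
    exact sub_eq_zero.1 this
  refine ⟨ρ, ?_, fun y hy => hall y hy⟩
  intro hρ0
  obtain ⟨hF1, hF2, -, hF4, hF5⟩ := hFo f t hf
  have z1 : ∀ y : ℝ, 0 < y → an f 1 y = 0 := fun y hy => by rw [hall y hy, hρ0, zero_mul]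
  have zm : ∀ (m : ℕ) (y : ℝ), 0 < y → an f m y = 0 := by
    intro m y hy
    rcases Nat.eq_zero_or_pos m with rfl | hm
    · exact_mod_cast hF4 y hy
    · obtain ⟨c, hc⟩ := hf.hecke m hm
      rw [hF5 m c hm hc y hy, z1 _ (by positivity), mul_zero]
  have zn : ∀ (n : ℤ) (y : ℝ), 0 < y → an f n y = 0 := by
    intro n y hy
    obtain ⟨m, rfl | rfl⟩ := n.eq_nat_or_neg
    · exact zm m y hy
    · rw [hF2, zm m y hy, map_zero]
  have hz : ∀ z : ℍ, f z = 0 := by
    intro z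
    have h := hF1 (z : ℂ) z.im_pos
    have h0 : (fun n : ℤ => an f n (z : ℂ).im * ee ((n : ℂ) * (z : ℂ).re)) = fun _ => 0 := by
      funext n
      have hz0 : 0 < (z : ℂ).im := z.im_pos
      rw [zn n _ hz0, zero_mul]
    rw [h0] at h
    have h1 := h.unique hasSum_zero
    rw [Half.ext_coe] at h1
    exact_mod_cast h1
  have hn := hf.normalised
  have : (fun z : ℍ => f z ^ 2) = fun _ => 0 := by
    funext z
    rw [hz z]
    norm_num
  rw [this, integral_zero] at hn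
  have hpi := Real.pi_pos
  linarith

end

end Pool.Agent.A54.Av
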