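import Pool.Agent.Lib.MP_a54f13_nt.Av.SpecF

/-!
From smooth mean values to mean values over discs.
-/

set_option autoImplicit false

namespace Pool.Agent.A54.Av

open MeasureTheory Filter Topology Set
open scoped ContDiff ComplexConjugate UpperHalfPlane MatrixGroups ENNReal
open Pool.Agent.A54.Half (H0 qq ff hh)
open Pool.Agent.A54.Pl (Ed)

noncomputable section

namespace SDiM

lemma cv (g : ℂ → ℝ) (w : ℂ) {r : ℝ} (hr : 0 < r) :
    ∫ v, g (w + (r : ℂ) * v) = (r ^ 2)⁻¹ * ∫ z, g z := by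
  have h1 := Measure.integral_comp_smul (volume : Measure ℂ) (fun x => g (w + x)) r
  rw [Complex.finrank_real_complex, abs_of_pos (by positivity), smul_eq_mul,
    integral_add_left_eq_self g w] at h1
  rw [← h1]
  refine integral_congr_ae (Eventually.of_forall fun v => ?_)
  simp only [Complex.real_smul]

lemma cvb (g : ℂ → ℝ) (w : ℂ) {r : ℝ} (hr : 0 < r) :
    ∫ v in Metric.ball (0 : ℂ) 1, g (w + (r : ℂ) * v) = (r ^ 2)⁻¹ * ∫ z in Metric.ball w r, g z := by
  rw [← integral_indicator measurableSet_ball, ← integral_indicator measurableSet_ball, ← cv _ w hr]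
  refine integral_congr_ae (Eventually.of_forall fun v => ?_)
  simp only
  have : v ∈ Metric.ball (0 : ℂ) 1 ↔ w + (r : ℂ) * v ∈ Metric.ball w r := by
    rw [mem_ball_zero_iff, Metric.mem_ball, dist_eq_norm, add_sub_cancel_left, norm_mul,
      Complex.norm_real, Real.norm_eq_abs, abs_of_pos hr]
    constructor
    · intro h
      nlinarith
    · intro h
      by_contra h2
      push Not at h2
      nlinarith
  by_cases hv : v ∈ Metric.ball (0 : ℂ) 1
  · rw [indicator_of_mem hv, indicator_of_mem (this.1 hv)]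
  · rw [indicator_of_notMem hv, indicator_of_notMem (fun h => hv (this.2 h))]

lemma eta_zero {η : ℂ → ℝ} (hη : Bump η) {v : ℂ} (hv : v ∉ Metric.closedBall (0 : ℂ) 1) :
    η v = 0 := by
  by_contra h
  exact hv (hη.sub (subset_tsupport _ h))

lemma sm_eq {η : ℂ → ℝ} (hη : Bump η) {r : ℝ} (hr : 0 < r) (F : ℂ → ℝ) (w : ℂ) :
    Sm' η r F w = ∫ v in Metric.closedBall (0 : ℂ) 1, η v * F (w + (r : ℂ) * v) := by
  have hrC : (r : ℂ) ≠ 0 := by exact_mod_cast hr.ne'
  have h1 : ∫ v in Metric.closedBall (0 : ℂ) 1, η v * F (w + (r : ℂ) * v) =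
      ∫ v, η v * F (w + (r : ℂ) * v) := by
    refine setIntegral_eq_integral_of_forall_compl_eq_zero fun v hv => ?_
    rw [eta_zero hη hv, zero_mul]
  have h2 := cv (fun z => η ((r : ℂ)⁻¹ * (z - w)) * F z) w hr
  have h3 : (fun v => η ((r : ℂ)⁻¹ * (w + (r : ℂ) * v - w)) * F (w + (r : ℂ) * v)) =
      fun v => η v * F (w + (r : ℂ) * v) := by
    funext v
    rw [add_sub_cancel_left, ← mul_assoc, inv_mul_cancel₀ hrC, one_mul]
  rw [h3] at h2
  rw [h1, h2]
  unfold Sm' es
  rw [← integral_const_mul]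
  refine integral_congr_ae (Eventually.of_forall fun v => ?_)
  simp only
  ring

lemma eta_int {η : ℂ → ℝ} (hη : Bump η) : ∫ v in Metric.closedBall (0 : ℂ) 1, η v = 1 := by
  have h := hη.one
  rw [← h]
  have h2 := setIntegral_eq_integral_of_forall_compl_eq_zero (μ := (volume : Measure ℂ))
    (s := Metric.closedBall (0 : ℂ) 1) (f := η) fun v hv => eta_zero hη hv
  rw [h] at h2 ⊢
  exact h2

lemma intOn_ball {g : ℂ → ℝ} (hg : Continuous g) (z : ℂ) (R : ℝ) :
    IntegrableOn g (Metric.ball z R) :=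
  (hg.continuousOn.integrableOn_compact (isCompact_closedBall z R)).mono_set
    Metric.ball_subset_closedBall

lemma sm_cont {η : ℂ → ℝ} (hη : Bump η) {r : ℝ} (hr : 0 < r) {F : ℂ → ℝ} (hF : Continuous F) :
    Continuous (Sm' η r F) := by
  have h1 : Sm' η r F = fun w => ∫ v in Metric.closedBall (0 : ℂ) 1, η v * F (w + (r : ℂ) * v) := by
    funext w; exact sm_eq hη hr F w
  rw [h1]
  refine continuous_parametric_integral_of_continuous
    (f := fun w v => η v * F (w + (r : ℂ) * v)) ?_ (isCompact_closedBall (0 : ℂ) 1)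
  have := hη.smooth.continuous
  fun_prop

/-- swapping -/
lemma swap {η : ℂ → ℝ} (hη : Bump η) {r : ℝ} (hr : 0 < r) {F : ℂ → ℝ} (hF : Continuous F)
    (z : ℂ) (R : ℝ) : ∫ w in Metric.ball z R, Sm' η r F w =
      ∫ v in Metric.closedBall (0 : ℂ) 1, η v * ∫ w in Metric.ball (z + (r : ℂ) * v) R, F w := by
  have hηc := hη.smooth.continuous
  have h1 : ∫ w in Metric.ball z R, Sm' η r F w = ∫ w in Metric.ball z R,
      ∫ v in Metric.closedBall (0 : ℂ) 1, η v * F (w + (r : ℂ) * v) := by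
    congr 1
    funext w
    exact sm_eq hη hr F w
  rw [h1, integral_integral_swap]
  · refine integral_congr_ae (Eventually.of_forall fun v => ?_)
    simp only
    rw [integral_const_mul]
    congr 1
    have h2 := integral_add_right_eq_self (μ := (volume : Measure ℂ))
      ((Metric.ball (z + (r : ℂ) * v) R).indicator F) ((r : ℂ) * v)
    rw [integral_indicator measurableSet_ball] at h2
    rw [← h2, ← integral_indicator measurableSet_ball]
    refine integral_congr_ae (Eventually.of_forall fun w => ?_)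
    simp only
    have : w ∈ Metric.ball z R ↔ w + (r : ℂ) * v ∈ Metric.ball (z + (r : ℂ) * v) R := by
      rw [Metric.mem_ball, Metric.mem_ball, dist_add_right]
    by_cases hw : w ∈ Metric.ball z R
    · rw [indicator_of_mem hw, indicator_of_mem (this.1 hw)]
    · rw [indicator_of_notMem hw, indicator_of_notMem (fun h => hw (this.2 h))]
  · rw [Measure.prod_restrict]
    have hc : Continuous (Function.uncurry fun (w v : ℂ) => η v * F (w + (r : ℂ) * v)) := by
      unfold Function.uncurry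
      fun_prop
    exact (hc.continuousOn.integrableOn_compact
      ((isCompact_closedBall z R).prod (isCompact_closedBall (0 : ℂ) 1))).mono_set
      (prod_mono Metric.ball_subset_closedBall subset_rfl)

lemma vol_ball (z : ℂ) {R : ℝ} (hR : 0 ≤ R) :
    (volume (Metric.ball z R)).toReal = Real.pi * R ^ 2 := by
  rw [Complex.volume_ball, ENNReal.toReal_mul, ENNReal.toReal_pow, ENNReal.toReal_ofReal hR]
  simp [mul_comm]

lemma int_const_ball (z : ℂ) {R : ℝ} (hR : 0 ≤ R) (c : ℝ) :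
    ∫ _ in Metric.ball z R, c = Real.pi * R ^ 2 * c := by
  rw [setIntegral_const, Measure.real, vol_ball z hR, smul_eq_mul]

/-- comparison of the integrals of `F` and of its smooth mean values -/
lemma comp_up {η : ℂ → ℝ} (hη : Bump η) {r : ℝ} (hr : 0 < r) {F : ℂ → ℝ} (hF : Continuous F)
    (h0 : ∀ z, 0 ≤ F z) (z : ℂ) (R : ℝ) :
    ∫ w in Metric.ball z R, F w ≤ ∫ w in Metric.ball z (R + r), Sm' η r F w := by
  have hηc := hη.smooth.continuous
  rw [swap hη hr hF z (R + r)]
  have h1 : ∫ w in Metric.ball z R, F w =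
      ∫ v in Metric.closedBall (0 : ℂ) 1, η v * ∫ w in Metric.ball z R, F w := by
    rw [integral_mul_const, eta_int hη, one_mul]
  rw [h1]
  have hcb : Continuous fun v : ℂ => ∫ w in Metric.ball (z + (r : ℂ) * v) (R + r), F w := by
    by_cases hRr : 0 < R + r
    · have e : (fun v : ℂ => ∫ w in Metric.ball (z + (r : ℂ) * v) (R + r), F w) =
          fun v : ℂ => (R + r) ^ 2 * ∫ u in Metric.closedBall (0 : ℂ) 1,
            F (z + (r : ℂ) * v + ((R + r : ℝ) : ℂ) * u) := by
        funext v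
        have := cvb F (z + (r : ℂ) * v) hRr
        rw [Measure.restrict_congr_set Pool.Agent.A54.Pl.ball_ae_closedBall] at this
        rw [this, ← mul_assoc, mul_inv_cancel₀ (by positivity), one_mul]
      rw [e]
      refine continuous_const.mul (continuous_parametric_integral_of_continuous
        (f := fun v u => F (z + (r : ℂ) * v + ((R + r : ℝ) : ℂ) * u)) ?_
        (isCompact_closedBall (0 : ℂ) 1))
      fun_prop
    · have e : (fun v : ℂ => ∫ w in Metric.ball (z + (r : ℂ) * v) (R + r), F w) = fun _ => 0 := by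
        funext v
        rw [Metric.ball_eq_empty.2 (not_lt.1 hRr)]
        simp
      rw [e]
      exact continuous_const
  refine setIntegral_mono_on ?_ ?_ Metric.isClosed_closedBall.measurableSet ?_
  · exact (hηc.mul continuous_const).continuousOn.integrableOn_compact (isCompact_closedBall _ _)
  · exact (hηc.mul hcb).continuousOn.integrableOn_compact (isCompact_closedBall _ _)
  · intro v hv
    refine mul_le_mul_of_nonneg_left ?_ (hη.nonneg v)
    refine setIntegral_mono_set (intOn_ball hF _ _) (Eventually.of_forall fun w => h0 w) ?_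
    refine (Metric.ball_subset_ball' ?_).eventuallyLE
    rw [dist_eq_norm]
    have h2 : ‖z - (z + (r : ℂ) * v)‖ ≤ r := by
      have : z - (z + (r : ℂ) * v) = -((r : ℂ) * v) := by ring
      rw [this, norm_neg, norm_mul, Complex.norm_real, Real.norm_eq_abs, abs_of_pos hr]
      have := mem_closedBall_zero_iff.1 hv
      nlinarith
    linarith

lemma comp_lo {η : ℂ → ℝ} (hη : Bump η) {r : ℝ} (hr : 0 < r) {F : ℂ → ℝ} (hF : Continuous F)
    (h0 : ∀ z, 0 ≤ F z) (z : ℂ) {R : ℝ} (hR : r < R) :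
    ∫ w in Metric.ball z (R - r), Sm' η r F w ≤ ∫ w in Metric.ball z R, F w := by
  have hηc := hη.smooth.continuous
  rw [swap hη hr hF z (R - r)]
  have h1 : ∫ w in Metric.ball z R, F w =
      ∫ v in Metric.closedBall (0 : ℂ) 1, η v * ∫ w in Metric.ball z R, F w := by
    rw [integral_mul_const, eta_int hη, one_mul]
  rw [h1]
  have hRr : 0 < R - r := by linarith
  have hcb : Continuous fun v : ℂ => ∫ w in Metric.ball (z + (r : ℂ) * v) (R - r), F w := by
    have e : (fun v : ℂ => ∫ w in Metric.ball (z + (r : ℂ) * v) (R - r), F w) =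
        fun v : ℂ => (R - r) ^ 2 * ∫ u in Metric.closedBall (0 : ℂ) 1,
          F (z + (r : ℂ) * v + ((R - r : ℝ) : ℂ) * u) := by
      funext v
      have := cvb F (z + (r : ℂ) * v) hRr
      rw [Measure.restrict_congr_set Pool.Agent.A54.Pl.ball_ae_closedBall] at this
      rw [this, ← mul_assoc, mul_inv_cancel₀ (by positivity), one_mul]
    rw [e]
    refine continuous_const.mul (continuous_parametric_integral_of_continuous
      (f := fun v u => F (z + (r : ℂ) * v + ((R - r : ℝ) : ℂ) * u)) ?_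
      (isCompact_closedBall (0 : ℂ) 1))
    fun_prop
  refine setIntegral_mono_on ?_ ?_ Metric.isClosed_closedBall.measurableSet ?_
  · exact (hηc.mul hcb).continuousOn.integrableOn_compact (isCompact_closedBall _ _)
  · exact (hηc.mul continuous_const).continuousOn.integrableOn_compact (isCompact_closedBall _ _)
  · intro v hv
    refine mul_le_mul_of_nonneg_left ?_ (hη.nonneg v)
    refine setIntegral_mono_set (intOn_ball hF _ _) (Eventually.of_forall fun w => h0 w) ?_
    refine (Metric.ball_subset_ball' ?_).eventuallyLE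
    rw [dist_eq_norm]
    have h2 : ‖z + (r : ℂ) * v - z‖ ≤ r := by
      rw [add_sub_cancel_left, norm_mul, Complex.norm_real, Real.norm_eq_abs, abs_of_pos hr]
      have := mem_closedBall_zero_iff.1 hv
      nlinarith
    linarith

lemma first_bound {η : ℂ → ℝ} (hη : Bump η) {r : ℝ} (hr : 0 < r) {F : ℂ → ℝ} (hF : Continuous F)
    (h0 : ∀ z, 0 ≤ F z) (z : ℂ) {R c : ℝ} (hR : r < R) (hc : 0 ≤ c) :
    |(Real.pi * R ^ 2)⁻¹ * (∫ w in Metric.ball z R, F w) - c| ≤
      (Real.pi * R ^ 2)⁻¹ * (∫ w in Metric.ball z (2 * R), |Sm' η r F w - c|) + 3 * (r / R) * c := by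
  have hR0 : 0 < R := by linarith
  have hS := sm_cont hη hr hF
  have hpi := Real.pi_pos
  have hA : 0 < Real.pi * R ^ 2 := by positivity
  have u1 := comp_up hη hr hF h0 z R
  have l1 := comp_lo hη hr hF h0 z hR
  have e1 : ∫ w in Metric.ball z (R + r), Sm' η r F w =
      (∫ w in Metric.ball z (R + r), (Sm' η r F w - c)) + Real.pi * (R + r) ^ 2 * c := by
    rw [integral_sub (intOn_ball hS _ _) (intOn_ball continuous_const _ _),
      int_const_ball z (by linarith) c]
    ring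
  have e2 : ∫ w in Metric.ball z (R - r), Sm' η r F w =
      (∫ w in Metric.ball z (R - r), (Sm' η r F w - c)) + Real.pi * (R - r) ^ 2 * c := by
    rw [integral_sub (intOn_ball hS _ _) (intOn_ball continuous_const _ _),
      int_const_ball z (by linarith) c]
    ring
  have hab : Continuous fun w => |Sm' η r F w - c| := (hS.sub continuous_const).abs
  have b1 : ∫ w in Metric.ball z (R + r), (Sm' η r F w - c) ≤
      ∫ w in Metric.ball z (2 * R), |Sm' η r F w - c| := by
    refine le_trans (setIntegral_mono (intOn_ball (hS.sub continuous_const) _ _)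
      (intOn_ball hab _ _) (fun w => le_abs_self _)) ?_
    exact setIntegral_mono_set (intOn_ball hab _ _) (Eventually.of_forall fun w => abs_nonneg _)
      (Metric.ball_subset_ball (by linarith)).eventuallyLE
  have b2 : -(∫ w in Metric.ball z (2 * R), |Sm' η r F w - c|) ≤
      ∫ w in Metric.ball z (R - r), (Sm' η r F w - c) := by
    have : ∫ w in Metric.ball z (R - r), (-(Sm' η r F w - c)) ≤
        ∫ w in Metric.ball z (2 * R), |Sm' η r F w - c| := by
      refine le_trans (setIntegral_mono (intOn_ball (hS.sub continuous_const).neg _ _)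
        (intOn_ball hab _ _) (fun w => neg_le_abs _)) ?_
      exact setIntegral_mono_set (intOn_ball hab _ _) (Eventually.of_forall fun w => abs_nonneg _)
        (Metric.ball_subset_ball (by linarith)).eventuallyLE
    rw [integral_neg] at this
    linarith
  have hI := mul_inv_cancel₀ hA.ne'
  obtain ⟨I, hI0⟩ : ∃ I, I = ∫ w in Metric.ball z R, F w := ⟨_, rfl⟩
  obtain ⟨J, hJ0⟩ : ∃ J, J = ∫ w in Metric.ball z (2 * R), |Sm' η r F w - c| := ⟨_, rfl⟩
  rw [← hI0] at u1 l1 ⊢
  rw [← hJ0] at b1 b2 ⊢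
  have hup : I - Real.pi * R ^ 2 * c ≤ J + Real.pi * R ^ 2 * (3 * (r / R) * c) := by
    have e3 : Real.pi * R ^ 2 * (3 * (r / R) * c) = 3 * Real.pi * R * r * c := by
      field_simp
    rw [e3]
    have : Real.pi * (R + r) ^ 2 * c ≤ Real.pi * R ^ 2 * c + 3 * Real.pi * R * r * c := by
      have : 0 ≤ Real.pi * c * r * (R - r) := by
        have : 0 ≤ R - r := by linarith
        positivity
      nlinarith
    linarith
  have hlo : -(J + Real.pi * R ^ 2 * (3 * (r / R) * c)) ≤ I - Real.pi * R ^ 2 * c := by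
    have e3 : Real.pi * R ^ 2 * (3 * (r / R) * c) = 3 * Real.pi * R * r * c := by
      field_simp
    rw [e3]
    have : Real.pi * R ^ 2 * c - 3 * Real.pi * R * r * c ≤ Real.pi * (R - r) ^ 2 * c := by
      have : 0 ≤ Real.pi * c * r * (R + r) := by positivity
      nlinarith
    linarith
  have key : (Real.pi * R ^ 2)⁻¹ * I - c = (Real.pi * R ^ 2)⁻¹ * (I - Real.pi * R ^ 2 * c) := by
    field_simp
  have key2 : (Real.pi * R ^ 2)⁻¹ * J + 3 * (r / R) * c =
      (Real.pi * R ^ 2)⁻¹ * (J + Real.pi * R ^ 2 * (3 * (r / R) * c)) := by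
    field_simp
  rw [key, key2, abs_mul, abs_of_pos (inv_pos.2 hA)]
  exact mul_le_mul_of_nonneg_left (abs_le.2 ⟨hlo, hup⟩) (inv_pos.2 hA).le

lemma cs_ball {h : ℂ → ℝ} (hh : Continuous h) (z : ℂ) {R : ℝ} (hR : 0 < R) :
    (∫ w in Metric.ball z R, |h w|) ^ 2 ≤ Real.pi * R ^ 2 * ∫ w in Metric.ball z R, h w ^ 2 := by
  have hV : 0 < Real.pi * R ^ 2 := by have := Real.pi_pos; positivity
  obtain ⟨I, hI⟩ : ∃ I, I = ∫ w in Metric.ball z R, |h w| := ⟨_, rfl⟩
  obtain ⟨J, hJ⟩ : ∃ J, J = ∫ w in Metric.ball z R, h w ^ 2 := ⟨_, rfl⟩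
  rw [← hI, ← hJ]
  have h1 : 0 ≤ ∫ w in Metric.ball z R, (|h w| - I / (Real.pi * R ^ 2)) ^ 2 :=
    integral_nonneg fun w => sq_nonneg _
  have h2 : (fun w => (|h w| - I / (Real.pi * R ^ 2)) ^ 2) = fun w =>
      (h w ^ 2 - 2 * (I / (Real.pi * R ^ 2)) * |h w|) + (I / (Real.pi * R ^ 2)) ^ 2 := by
    funext w
    rw [← sq_abs (h w)]
    ring
  have i1 : IntegrableOn (fun w => h w ^ 2) (Metric.ball z R) := intOn_ball (hh.pow 2) _ _
  have i2 : IntegrableOn (fun w => 2 * (I / (Real.pi * R ^ 2)) * |h w|) (Metric.ball z R) :=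
    intOn_ball (continuous_const.mul hh.abs) _ _
  have i3 : IntegrableOn (fun _ : ℂ => (I / (Real.pi * R ^ 2)) ^ 2) (Metric.ball z R) :=
    intOn_ball continuous_const _ _
  have i4 : IntegrableOn (fun w => h w ^ 2 - 2 * (I / (Real.pi * R ^ 2)) * |h w|)
    (Metric.ball z R) := i1.sub i2
  rw [h2, integral_add i4 i3, integral_sub i1 i2,
    integral_const_mul, int_const_ball z hR.le, ← hI, ← hJ] at h1
  have h3 : J - 2 * (I / (Real.pi * R ^ 2)) * I + Real.pi * R ^ 2 * (I / (Real.pi * R ^ 2)) ^ 2 =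
      J - I ^ 2 / (Real.pi * R ^ 2) := by
    field_simp
    ring
  rw [h3] at h1
  have h4 : I ^ 2 / (Real.pi * R ^ 2) ≤ J := by linarith
  rw [div_le_iff₀ hV] at h4
  linarith

lemma second_bound {η : ℂ → ℝ} (hη : Bump η) {r : ℝ} (hr : 0 < r) {F : ℂ → ℝ} (hF : Continuous F)
    (h0 : ∀ z, 0 ≤ F z) (z : ℂ) {R c : ℝ} (hR : r < R) (hc : 0 ≤ c) :
    ((Real.pi * R ^ 2)⁻¹ * (∫ w in Metric.ball z R, F w) - c) ^ 2 ≤
      8 * (Real.pi * R ^ 2)⁻¹ * (∫ w in Metric.ball z (2 * R), (Sm' η r F w - c) ^ 2) +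
        18 * (r / R) ^ 2 * c ^ 2 := by
  have hR0 : 0 < R := by linarith
  have hS := sm_cont hη hr hF
  have hpi := Real.pi_pos
  have hA : 0 < Real.pi * R ^ 2 := by positivity
  have h1 := first_bound hη hr hF h0 z hR hc
  have hSc : Continuous fun w => Sm' η r F w - c := hS.sub continuous_const
  have h2 := cs_ball hSc z (R := 2 * R) (by positivity)
  obtain ⟨E, hE⟩ : ∃ E, E = (Real.pi * R ^ 2)⁻¹ * (∫ w in Metric.ball z R, F w) - c := ⟨_, rfl⟩
  obtain ⟨I, hI⟩ : ∃ I, I = ∫ w in Metric.ball z (2 * R), |Sm' η r F w - c| := ⟨_, rfl⟩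
  obtain ⟨J, hJ⟩ : ∃ J, J = ∫ w in Metric.ball z (2 * R), (Sm' η r F w - c) ^ 2 := ⟨_, rfl⟩
  rw [← hE, ← hI] at h1
  rw [← hI, ← hJ] at h2
  rw [← hE, ← hJ]
  have hI0 : 0 ≤ I := by rw [hI]; exact integral_nonneg fun w => abs_nonneg _
  have h3 : E ^ 2 ≤ ((Real.pi * R ^ 2)⁻¹ * I + 3 * (r / R) * c) ^ 2 := by
    rw [← sq_abs E]
    exact pow_le_pow_left₀ (abs_nonneg _) h1 2
  have h4 : ((Real.pi * R ^ 2)⁻¹ * I + 3 * (r / R) * c) ^ 2 ≤
      2 * ((Real.pi * R ^ 2)⁻¹ * I) ^ 2 + 2 * (3 * (r / R) * c) ^ 2 := by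
    nlinarith [sq_nonneg ((Real.pi * R ^ 2)⁻¹ * I - 3 * (r / R) * c)]
  have h5 : ((Real.pi * R ^ 2)⁻¹ * I) ^ 2 ≤ 4 * (Real.pi * R ^ 2)⁻¹ * J := by
    have : ((Real.pi * R ^ 2)⁻¹ * I) ^ 2 ≤
        ((Real.pi * R ^ 2)⁻¹) ^ 2 * (Real.pi * (2 * R) ^ 2 * J) := by
      rw [mul_pow]
      exact mul_le_mul_of_nonneg_left h2 (sq_nonneg _)
    refine le_trans this (le_of_eq ?_)
    field_simp
    ring
  calc E ^ 2 ≤ _ := h3
    _ ≤ _ := h4
    _ ≤ 2 * (4 * (Real.pi * R ^ 2)⁻¹ * J) + 2 * (3 * (r / R) * c) ^ 2 := by linarith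
    _ = _ := by ring

lemma ball_int_cont {h : ℂ → ℝ} (hh : Continuous h) {R : ℝ} (hR : 0 < R) :
    Continuous fun z : ℂ => ∫ w in Metric.ball z R, h w := by
  have e : (fun z : ℂ => ∫ w in Metric.ball z R, h w) =
      fun z : ℂ => R ^ 2 * ∫ u in Metric.closedBall (0 : ℂ) 1, h (z + (R : ℂ) * u) := by
    funext z
    have := cvb h z hR
    rw [Measure.restrict_congr_set Pool.Agent.A54.Pl.ball_ae_closedBall] at this
    rw [this, ← mul_assoc, mul_inv_cancel₀ (by positivity), one_mul]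
  rw [e]
  refine continuous_const.mul (continuous_parametric_integral_of_continuous
    (f := fun z u => h (z + (R : ℂ) * u)) ?_ (isCompact_closedBall (0 : ℂ) 1))
  fun_prop

/-- Fubini for the last step -/
lemma fub {h φ ζ : ℂ → ℝ} (hh : Continuous h) (h0 : ∀ z, 0 ≤ h z) (hφ : Continuous φ)
    (hφc : HasCompactSupport φ) (hζ : Continuous ζ) (hζc : HasCompactSupport ζ) {R Φ : ℝ}
    (hR : 0 < R) (hdom : ∀ v ∈ Metric.closedBall (0 : ℂ) 1, ∀ w, φ (w - (R : ℂ) * v) ≤ Φ * ζ w) :
    ∫ z, φ z * ∫ w in Metric.ball z R, h w ≤ Real.pi * R ^ 2 * (Φ * ∫ z, ζ z * h z) := by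
  have e1 : ∀ z, ∫ w in Metric.ball z R, h w =
      R ^ 2 * ∫ u in Metric.closedBall (0 : ℂ) 1, h (z + (R : ℂ) * u) := by
    intro z
    have := cvb h z hR
    rw [Measure.restrict_congr_set Pool.Agent.A54.Pl.ball_ae_closedBall] at this
    rw [this, ← mul_assoc, mul_inv_cancel₀ (by positivity), one_mul]
  have e2 : ∫ z, φ z * ∫ w in Metric.ball z R, h w =
      R ^ 2 * ∫ z in tsupport φ, ∫ u in Metric.closedBall (0 : ℂ) 1,
        φ z * h (z + (R : ℂ) * u) := by
    rw [← integral_const_mul]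
    rw [setIntegral_eq_integral_of_forall_compl_eq_zero]
    · refine integral_congr_ae (Eventually.of_forall fun z => ?_)
      simp only
      rw [e1 z, integral_const_mul]
      ring
    · intro z hz
      rw [integral_const_mul, image_eq_zero_of_notMem_tsupport hz]
      ring
  rw [e2, integral_integral_swap]
  · have e3 : ∀ u ∈ Metric.closedBall (0 : ℂ) 1,
        ∫ z in tsupport φ, φ z * h (z + (R : ℂ) * u) ≤ Φ * ∫ z, ζ z * h z := by
      intro u hu
      rw [setIntegral_eq_integral_of_forall_compl_eq_zero]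
      · have e4 := integral_add_right_eq_self (μ := (volume : Measure ℂ))
          (fun w => φ (w - (R : ℂ) * u) * h w) ((R : ℂ) * u)
        have e5 : (fun z => φ (z + (R : ℂ) * u - (R : ℂ) * u) * h (z + (R : ℂ) * u)) =
            fun z => φ z * h (z + (R : ℂ) * u) := by
          funext z
          rw [add_sub_cancel_right]
        rw [e5] at e4
        rw [e4, ← integral_const_mul]
        refine integral_mono ?_ ?_ fun w => ?_
        · refine Continuous.integrable_of_hasCompactSupport (by fun_prop) ?_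
          refine HasCompactSupport.mul_right ?_
          exact hφc.comp_homeomorph (Homeomorph.subRight ((R : ℂ) * u))
        · refine Continuous.integrable_of_hasCompactSupport (by fun_prop) ?_
          exact (hζc.mul_right).mul_left
        · simp only
          rw [← mul_assoc]
          exact mul_le_mul_of_nonneg_right (hdom u hu w) (h0 w)
      · intro z hz
        rw [image_eq_zero_of_notMem_tsupport hz, zero_mul]
    have e6 : ∫ u in Metric.closedBall (0 : ℂ) 1, ∫ z in tsupport φ,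
        φ z * h (z + (R : ℂ) * u) ≤ ∫ _ in Metric.closedBall (0 : ℂ) 1, Φ * ∫ z, ζ z * h z := by
      refine setIntegral_mono_on ?_ ?_ Metric.isClosed_closedBall.measurableSet e3
      · have hc : Continuous fun u : ℂ => ∫ z in tsupport φ, φ z * h (z + (R : ℂ) * u) := by
          refine continuous_parametric_integral_of_continuous
            (f := fun u z => φ z * h (z + (R : ℂ) * u)) ?_ hφc
          fun_prop
        exact hc.continuousOn.integrableOn_compact (isCompact_closedBall _ _)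
      · exact continuousOn_const.integrableOn_compact (isCompact_closedBall _ _)
    have e7 : ∫ _ in Metric.closedBall (0 : ℂ) 1, Φ * ∫ z, ζ z * h z =
        Real.pi * (Φ * ∫ z, ζ z * h z) := by
      rw [← Measure.restrict_congr_set Pool.Agent.A54.Pl.ball_ae_closedBall,
        int_const_ball _ zero_le_one]
      ring
    rw [e7] at e6
    calc R ^ 2 * ∫ u in Metric.closedBall (0 : ℂ) 1, ∫ z in tsupport φ,
        φ z * h (z + (R : ℂ) * u) ≤ R ^ 2 * (Real.pi * (Φ * ∫ z, ζ z * h z)) :=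
          mul_le_mul_of_nonneg_left e6 (sq_nonneg _)
      _ = _ := by ring
  · rw [Measure.prod_restrict]
    have hc : Continuous (Function.uncurry fun (z u : ℂ) => φ z * h (z + (R : ℂ) * u)) := by
      unfold Function.uncurry
      fun_prop
    exact hc.continuousOn.integrableOn_compact (hφc.isCompact.prod (isCompact_closedBall (0 : ℂ) 1))

lemma ed_eq (F : ℂ → ℝ) {ρ : ℝ} {z : ℂ} (h : 0 < ρ * z.im) :
    Ed ρ F z = (Real.pi * (ρ * z.im) ^ 2)⁻¹ * ∫ w in Metric.ball z (ρ * z.im), F w := by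
  have h1 := cvb F z h
  unfold Pool.Agent.A54.Pl.Ed Pool.Agent.A54.Pl.lin
  rw [h1, smul_eq_mul, mul_inv]
  ring

/-- the inequality for functions continuous on the plane -/
lemma main {η : ℂ → ℝ} (hη : Bump η) {φ ζ : ℂ → ℝ} (hφ : TestR H0 φ) (hφ0 : ∀ z, 0 ≤ φ z)
    (hζ : TestR H0 ζ) {m M Φ : ℝ} (hm : 0 < m) (hmM : m ≤ M) (hK : ∀ z ∈ tsupport φ, m ≤ z.im ∧ z.im ≤ M)
    {F : ℂ → ℝ} (hF : Continuous F) (h0 : ∀ z, 0 ≤ F z) {c ρ r : ℝ} (hc : 0 ≤ c)
    (hr : 0 < r) (hρ : r < ρ * m)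
    (hdom : ∀ v ∈ Metric.closedBall (0 : ℂ) 1, ∀ w, φ (w - ((2 * ρ * M : ℝ) : ℂ) * v) ≤ Φ * ζ w) :
    ∫ z, φ z * (Ed ρ F z - c) ^ 2 ≤ 32 * (M / m) ^ 2 * Φ * (∫ z, ζ z * (Sm' η r F z - c) ^ 2) +
      18 * (m ^ 2)⁻¹ * (∫ z, φ z) * c ^ 2 * (r / ρ) ^ 2 := by
  have hρ0 : 0 < ρ := by
    by_contra h
    push Not at h
    have : ρ * m ≤ 0 := mul_nonpos_of_nonpos_of_nonneg h hm.le
    linarith
  have hM : 0 < M := lt_of_lt_of_le hm hmM
  have hpi := Real.pi_pos
  have hS := sm_cont hη hr hF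
  have hφc := hφ.smooth.continuous
  have hζc := hζ.smooth.continuous
  have hh : Continuous fun w => (Sm' η r F w - c) ^ 2 := (hS.sub continuous_const).pow 2
  have hR : 0 < 2 * ρ * M := by positivity
  have hpt : ∀ z, φ z * (Ed ρ F z - c) ^ 2 ≤
      8 * (Real.pi * (ρ * m) ^ 2)⁻¹ * (φ z * ∫ w in Metric.ball z (2 * ρ * M), (Sm' η r F w - c) ^ 2) +
      18 * (r / (ρ * m)) ^ 2 * c ^ 2 * φ z := by
    intro z
    by_cases hz : z ∈ tsupport φ
    · obtain ⟨hz1, hz2⟩ := hK z hz
      have hy : 0 < z.im := lt_of_lt_of_le hm hz1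
      have hle : ρ * m ≤ ρ * z.im := mul_le_mul_of_nonneg_left hz1 hρ0.le
      have hRr : r < ρ * z.im := lt_of_lt_of_le hρ hle
      have h1 := second_bound hη hr hF h0 z hRr hc
      rw [← ed_eq F (by positivity)] at h1
      have h2 : ∫ w in Metric.ball z (2 * (ρ * z.im)), (Sm' η r F w - c) ^ 2 ≤
          ∫ w in Metric.ball z (2 * ρ * M), (Sm' η r F w - c) ^ 2 := by
        refine setIntegral_mono_set (intOn_ball hh _ _) (Eventually.of_forall fun w => sq_nonneg _) ?_
        refine (Metric.ball_subset_ball ?_).eventuallyLE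
        nlinarith [mul_le_mul_of_nonneg_left hz2 hρ0.le]
      have h3 : 0 ≤ ∫ w in Metric.ball z (2 * (ρ * z.im)), (Sm' η r F w - c) ^ 2 :=
        integral_nonneg fun w => sq_nonneg _
      have h4 : (Real.pi * (ρ * z.im) ^ 2)⁻¹ ≤ (Real.pi * (ρ * m) ^ 2)⁻¹ := by
        apply inv_anti₀ (by positivity)
        gcongr
      have h5 : (r / (ρ * z.im)) ^ 2 ≤ (r / (ρ * m)) ^ 2 := by
        gcongr
      have h6 : (Ed ρ F z - c) ^ 2 ≤ 8 * (Real.pi * (ρ * m) ^ 2)⁻¹ *
          (∫ w in Metric.ball z (2 * ρ * M), (Sm' η r F w - c) ^ 2) +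
          18 * (r / (ρ * m)) ^ 2 * c ^ 2 := by
        refine le_trans h1 ?_
        gcongr
      calc φ z * (Ed ρ F z - c) ^ 2 ≤ φ z * (8 * (Real.pi * (ρ * m) ^ 2)⁻¹ *
          (∫ w in Metric.ball z (2 * ρ * M), (Sm' η r F w - c) ^ 2) +
          18 * (r / (ρ * m)) ^ 2 * c ^ 2) := mul_le_mul_of_nonneg_left h6 (hφ0 z)
        _ = _ := by ring
    · rw [image_eq_zero_of_notMem_tsupport hz]
      simp
  have hEd : Continuous (Ed ρ F) := Pool.Agent.A54.Pl.continuous_Ed hF ρ
  have hJc : Continuous fun z => ∫ w in Metric.ball z (2 * ρ * M), (Sm' η r F w - c) ^ 2 :=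
    ball_int_cont hh hR
  have hint : Integrable fun z => φ z *
      ∫ w in Metric.ball z (2 * ρ * M), (Sm' η r F w - c) ^ 2 :=
    Continuous.integrable_of_hasCompactSupport (hφc.mul hJc) hφ.cpt.mul_right
  have hint2 : Integrable φ := hφc.integrable_of_hasCompactSupport hφ.cpt
  have hint3 : Integrable fun z => φ z * (Ed ρ F z - c) ^ 2 :=
    Continuous.integrable_of_hasCompactSupport (hφc.mul ((hEd.sub continuous_const).pow 2))
      hφ.cpt.mul_right
  have h1 := integral_mono hint3 ((hint.const_mul (8 * (Real.pi * (ρ * m) ^ 2)⁻¹)).add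
    (hint2.const_mul (18 * (r / (ρ * m)) ^ 2 * c ^ 2))) hpt
  simp only [Pi.add_apply] at h1
  rw [integral_add (hint.const_mul _) (hint2.const_mul _), integral_const_mul, integral_const_mul]
    at h1
  have h2 := fub hh (fun z => sq_nonneg _) hφc hφ.cpt hζc hζ.cpt hR hdom
  refine le_trans h1 ?_
  have h3 : 8 * (Real.pi * (ρ * m) ^ 2)⁻¹ * (∫ z, φ z *
      ∫ w in Metric.ball z (2 * ρ * M), (Sm' η r F w - c) ^ 2) ≤
      8 * (Real.pi * (ρ * m) ^ 2)⁻¹ * (Real.pi * (2 * ρ * M) ^ 2 *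
        (Φ * ∫ z, ζ z * (Sm' η r F z - c) ^ 2)) :=
    mul_le_mul_of_nonneg_left h2 (by positivity)
  refine le_trans (add_le_add_left h3 _) (le_of_eq ?_)
  field_simp
  ring

lemma cont_mul {χ F : ℂ → ℝ} (hχ : TestR H0 χ) (hF : ContinuousOn F H0) :
    Continuous fun z => χ z * F z := by
  rw [continuous_iff_continuousAt]
  intro z
  by_cases hz : z ∈ tsupport χ
  · have hzH : z ∈ H0 := hχ.sub hz
    exact hχ.smooth.continuous.continuousAt.mul (hF.continuousAt (Half.isOpen_H0.mem_nhds hzH))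
  · have h1 : ∀ᶠ w in 𝓝 z, w ∉ tsupport χ := (isClosed_tsupport χ).isOpen_compl.mem_nhds hz
    have h2 : (fun w => χ w * F w) =ᶠ[𝓝 z] fun _ => 0 := by
      filter_upwards [h1] with w hw
      rw [image_eq_zero_of_notMem_tsupport hw, zero_mul]
    exact continuousAt_const.congr h2.symm

lemma bounds {K : Set ℂ} (hK : IsCompact K) (hKH : K ⊆ H0) :
    ∃ m M : ℝ, 0 < m ∧ m ≤ M ∧ ∀ z ∈ K, m ≤ z.im ∧ z.im ≤ M := by
  rcases K.eq_empty_or_nonempty with h | h
  · exact ⟨1, 1, one_pos, le_rfl, by simp [h]⟩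
  · obtain ⟨a, ha, ha2⟩ := hK.exists_isMinOn h Complex.continuous_im.continuousOn
    obtain ⟨b, hb, hb2⟩ := hK.exists_isMaxOn h Complex.continuous_im.continuousOn
    exact ⟨a.im, b.im, hKH ha, ha2 hb, fun z hz => ⟨ha2 hz, hb2 hz⟩⟩

end SDiM

open SDiM in
theorem stmtSDi : StmtSDi := by
  intro η hη φ hφ hφ0
  have hK1 : IsCompact (tsupport φ) := hφ.cpt
  obtain ⟨m, M, hm, hmM, hK⟩ := bounds hK1 hφ.sub
  have hM : 0 < M := lt_of_lt_of_le hm hmM
  obtain ⟨δ, hδ, hδH⟩ := hK1.exists_cthickening_subset_open Half.isOpen_H0 hφ.sub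
  have hK2 : IsCompact (Metric.cthickening δ (tsupport φ)) := hK1.cthickening
  obtain ⟨ζ, hζ, hζ01, hζ1⟩ := exists_cutoff hK2 Half.isOpen_H0 hδH
  have hζone : ∀ z ∈ Metric.cthickening δ (tsupport φ), ζ z = 1 := fun z hz =>
    hζ1.self_of_nhdsSet z hz
  have hζc : IsCompact (tsupport ζ) := hζ.cpt
  obtain ⟨δ', hδ', hδH'⟩ := hζc.exists_cthickening_subset_open Half.isOpen_H0 hζ.sub
  have hK3 : IsCompact (Metric.cthickening δ' (tsupport ζ)) := hζc.cthickening
  obtain ⟨χ, hχ, hχ01, hχ1⟩ := exists_cutoff hK3 Half.isOpen_H0 hδH'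
  have hχone : ∀ z ∈ Metric.cthickening δ' (tsupport ζ), χ z = 1 := fun z hz =>
    hχ1.self_of_nhdsSet z hz
  obtain ⟨Φ, hΦ⟩ := hφ.smooth.continuous.bounded_above_of_compact_support hφ.cpt
  have hΦ0 : 0 ≤ Φ := le_trans (norm_nonneg _) (hΦ 0)
  have hφle : ∀ z, φ z ≤ Φ := fun z => le_trans (le_abs_self _) (hΦ z)
  have hφi : 0 ≤ ∫ z, φ z := integral_nonneg hφ0
  refine ⟨ζ, 32 * (M / m) ^ 2 * Φ + 18 * (m ^ 2)⁻¹ * (∫ z, φ z), min (δ / (2 * M)) δ', 1 + 1 / m,
    hζ, fun z => (hζ01 z).1, by positivity, by positivity, ?_, ?_⟩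
  · have : 0 < 1 / m := by positivity
    linarith
  intro F hF h0 c ρ r hc hr hA hρ
  have hρ1 : ρ ≤ δ / (2 * M) := le_trans hρ (min_le_left _ _)
  have hρ2 : ρ ≤ δ' := le_trans hρ (min_le_right _ _)
  have hinv : 0 < 1 / m := by positivity
  have hrρ : r ≤ ρ := by nlinarith
  have hρ0 : 0 < ρ := lt_of_lt_of_le hr hrρ
  have hrm : r < ρ * m := by
    have h1 : (1 + 1 / m) * r * m ≤ ρ * m := mul_le_mul_of_nonneg_right hA hm.le
    have h2 : (1 + 1 / m) * r * m = m * r + r := by field_simp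
    rw [h2] at h1
    have : 0 < m * r := by positivity
    linarith
  have hρM : 2 * ρ * M ≤ δ := by
    rw [le_div_iff₀ (by positivity)] at hρ1
    linarith
  have hsub : Metric.cthickening δ (tsupport φ) ⊆ tsupport ζ := by
    intro z hz
    apply subset_tsupport
    rw [Function.mem_support, hζone z hz]
    exact one_ne_zero
  have hdom : ∀ v ∈ Metric.closedBall (0 : ℂ) 1, ∀ w,
      φ (w - ((2 * ρ * M : ℝ) : ℂ) * v) ≤ Φ * ζ w := by
    intro v hv w
    by_cases hw : w - ((2 * ρ * M : ℝ) : ℂ) * v ∈ tsupport φ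
    · have h1 : w ∈ Metric.cthickening δ (tsupport φ) := by
        refine Metric.mem_cthickening_of_dist_le w _ δ _ hw ?_
        rw [dist_eq_norm, sub_sub_cancel, norm_mul, Complex.norm_real, Real.norm_eq_abs,
          abs_of_pos (by positivity)]
        have := mem_closedBall_zero_iff.1 hv
        have h3 : 0 < 2 * ρ * M := by positivity
        nlinarith
      rw [hζone w h1, mul_one]
      exact hφle _
    · rw [image_eq_zero_of_notMem_tsupport hw]
      exact mul_nonneg hΦ0 (hζ01 w).1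
  have hF' := cont_mul hχ hF
  have h0' : ∀ z, 0 ≤ χ z * F z := fun z => mul_nonneg (hχ01 z).1 (h0 z)
  have key := main hη hφ hφ0 hζ hm hmM hK hF' h0' hc hr hrm hdom
  have hE : ∀ z ∈ tsupport φ, Ed ρ (fun z => χ z * F z) z = Ed ρ F z := by
    intro z hz
    refine Pool.Agent.A54.Pl.Ed_congr fun u hu => ?_
    have h1 : Pool.Agent.A54.Pl.lin ρ u z ∈ Metric.cthickening δ (tsupport φ) := by
      refine Metric.mem_cthickening_of_dist_le _ z δ _ hz ?_
      rw [dist_eq_norm, Pool.Agent.A54.Pl.norm_lin_sub]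
      obtain ⟨k1, k2⟩ := hK z hz
      have hu' := (mem_ball_zero_iff.1 hu).le
      have hz0 : 0 < z.im := lt_of_lt_of_le hm k1
      rw [abs_of_pos hρ0, abs_of_pos hz0]
      have e1 : ρ * z.im ≤ ρ * M := mul_le_mul_of_nonneg_left k2 hρ0.le
      have e2 : ρ * z.im * ‖u‖ ≤ ρ * z.im * 1 := mul_le_mul_of_nonneg_left hu' (by positivity)
      nlinarith [mul_pos hρ0 hM]
    have h2 : Pool.Agent.A54.Pl.lin ρ u z ∈ Metric.cthickening δ' (tsupport ζ) :=
      Metric.self_subset_cthickening _ (hsub h1)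
    rw [hχone _ h2, one_mul]
  have hS : ∀ z ∈ tsupport ζ, Sm' η r (fun z => χ z * F z) z = Sm' η r F z := by
    intro z hz
    rw [sm_eq hη hr, sm_eq hη hr]
    refine setIntegral_congr_fun Metric.isClosed_closedBall.measurableSet fun v hv => ?_
    have h2 : z + (r : ℂ) * v ∈ Metric.cthickening δ' (tsupport ζ) := by
      refine Metric.mem_cthickening_of_dist_le _ z δ' _ hz ?_
      rw [dist_eq_norm, add_sub_cancel_left, norm_mul, Complex.norm_real, Real.norm_eq_abs,
        abs_of_pos hr]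
      have := mem_closedBall_zero_iff.1 hv
      nlinarith
    rw [hχone _ h2, one_mul]
  have e1 : ∫ z, φ z * (Ed ρ (fun z => χ z * F z) z - c) ^ 2 = ∫ z, φ z * (Ed ρ F z - c) ^ 2 := by
    refine integral_congr_ae (Eventually.of_forall fun z => ?_)
    beta_reduce
    by_cases hz : z ∈ tsupport φ
    · rw [hE z hz]
    · rw [image_eq_zero_of_notMem_tsupport hz]
      simp
  have e2 : ∫ z, ζ z * (Sm' η r (fun z => χ z * F z) z - c) ^ 2 =
      ∫ z, ζ z * (Sm' η r F z - c) ^ 2 := by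
    refine integral_congr_ae (Eventually.of_forall fun z => ?_)
    beta_reduce
    by_cases hz : z ∈ tsupport ζ
    · rw [hS z hz]
    · rw [image_eq_zero_of_notMem_tsupport hz]
      simp
  rw [e1, e2] at key
  have hJ0 : 0 ≤ ∫ z, ζ z * (Sm' η r F z - c) ^ 2 :=
    integral_nonneg fun z => mul_nonneg (hζ01 z).1 (sq_nonneg _)
  have hA1 : 0 ≤ 32 * (M / m) ^ 2 * Φ := by positivity
  have hB1 : 0 ≤ 18 * (m ^ 2)⁻¹ * (∫ z, φ z) := by positivity
  have hq : 0 ≤ c ^ 2 * (r / ρ) ^ 2 := by positivity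
  refine le_trans key ?_
  nlinarith [mul_nonneg hB1 hJ0, mul_nonneg hA1 hq]

end

end Pool.Agent.A54.Av
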