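import Pool.Agent.Lib.MP_a54f13_nt.Av.SpecA
import Pool.Agent.Lib.MP_a54f13_nt.IntLap
import Pool.Agent.Lib.MP_a54f13_nt.Half

/-!
The point pair invariant `exp(-X cosh d(z, w))`: its mass, Green's formula, the differential equation
in `X`, and the comparison with the Bessel function.
-/

set_option autoImplicit false

namespace Pool.Agent.A54.Av.SelM

open MeasureTheory Filter Topology Set
open scoped ContDiff ComplexConjugate UpperHalfPlane MatrixGroups ENNReal NNReal
open Pool.Agent.A54.Half (H0 qq ff hh)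

noncomputable section

/-- cosh of the distance, as a function on the plane -/
def cc (w : ℍ) (z : ℂ) : ℝ := ((z.re - w.re) ^ 2 + z.im ^ 2 + w.im ^ 2) / (2 * z.im * w.im)

lemma cosh_eq (z w : ℍ) : Real.cosh (dist z w) = cc w z := by
  rw [UpperHalfPlane.cosh_dist']
  rfl

lemma lint (G : ℂ → ℝ≥0∞) (hG : Measurable G) :
    ∫⁻ z : ℍ, G z = ∫⁻ y in Ioi (0 : ℝ), ∫⁻ x : ℝ, ENNReal.ofReal (1 / y ^ 2) * G ⟨x, y⟩ := by
  have hmeas : Measurable (fun z : ℍ => (1 / NNReal.mk z.im z.im_pos.le : ℝ≥0) ^ 2) := by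
    have h1 : Measurable (fun z : ℍ => NNReal.mk z.im z.im_pos.le) :=
      (UpperHalfPlane.continuous_im.subtype_mk _).measurable
    exact (h1.const_div 1).pow_const 2
  have hGc : Measurable (fun z : ℍ => G (z : ℂ)) :=
    hG.comp UpperHalfPlane.measurableEmbedding_coe.measurable
  rw [UpperHalfPlane.volume_def]
  rw [lintegral_withDensity_eq_lintegral_mul _ (by exact_mod_cast hmeas.coe_nnreal_ennreal) hGc]
  have h2 : ∀ z : ℍ, ((((1 / NNReal.mk z.im z.im_pos.le : ℝ≥0) ^ 2 : ℝ≥0) : ℝ≥0∞)) * G (z : ℂ)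
      = (fun w : ℂ => ENNReal.ofReal (1 / w.im ^ 2) * G w) (z : ℂ) := by
    intro z
    simp only
    congr 1
    rw [ENNReal.ofReal, ENNReal.coe_inj]
    apply NNReal.eq
    rw [Real.coe_toNNReal _ (by positivity)]
    push_cast
    simp
  have h3 : ∀ z : ℍ, ((fun z : ℍ => ((((1 / NNReal.mk z.im z.im_pos.le : ℝ≥0) ^ 2 : ℝ≥0) : ℝ≥0∞))) *
      fun z : ℍ => G (z : ℂ)) z = (fun w : ℂ => ENNReal.ofReal (1 / w.im ^ 2) * G w) (z : ℂ) := h2
  rw [lintegral_congr h3, ← UpperHalfPlane.measurableEmbedding_coe.lintegral_map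
      (fun w : ℂ => ENNReal.ofReal (1 / w.im ^ 2) * G w),
    UpperHalfPlane.measurableEmbedding_coe.map_comap, Pool.Agent.A54.IntLap.range_coe_eq]
  have hmS : MeasurableSet {z : ℂ | 0 < z.im} := measurableSet_lt measurable_const
    Complex.measurable_im
  rw [← lintegral_indicator hmS]
  have hF : Measurable ({z : ℂ | 0 < z.im}.indicator
      fun a : ℂ => ENNReal.ofReal (1 / a.im ^ 2) * G a) := by
    refine Measurable.indicator ?_ hmS
    refine Measurable.mul ?_ hG
    exact ((Complex.measurable_im.pow_const 2).const_div 1).ennreal_ofReal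
  have hQ : Measurable (fun a : ℝ × ℝ => ({z : ℂ | 0 < z.im}.indicator
      fun a : ℂ => ENNReal.ofReal (1 / a.im ^ 2) * G a) (Complex.measurableEquivRealProd.symm a)) :=
    hF.comp Complex.measurableEquivRealProd.symm.measurable
  rw [← Complex.volume_preserving_equiv_real_prod.symm.lintegral_comp hF,
    Measure.volume_eq_prod, lintegral_prod_symm' _ hQ, ← lintegral_indicator
      measurableSet_Ioi]
  refine lintegral_congr fun y => ?_
  by_cases hy : 0 < y
  · rw [Set.indicator_of_mem (show y ∈ Ioi (0 : ℝ) from hy)]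
    refine lintegral_congr fun x => ?_
    have : (Complex.measurableEquivRealProd.symm (x, y)) = (⟨x, y⟩ : ℂ) := rfl
    rw [this, Set.indicator_of_mem (show (⟨x, y⟩ : ℂ) ∈ {z : ℂ | 0 < z.im} from hy)]
  · rw [Set.indicator_of_notMem (show y ∉ Ioi (0 : ℝ) from hy)]
    have : ∀ x : ℝ, ({z : ℂ | 0 < z.im}.indicator
      fun a : ℂ => ENNReal.ofReal (1 / a.im ^ 2) * G a) (Complex.measurableEquivRealProd.symm (x, y))
        = 0 := by
      intro x
      have : (Complex.measurableEquivRealProd.symm (x, y)) = (⟨x, y⟩ : ℂ) := rfl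
      rw [this, Set.indicator_of_notMem (show (⟨x, y⟩ : ℂ) ∉ {z : ℂ | 0 < z.im} from hy)]
    rw [lintegral_congr this, lintegral_zero]

lemma gauss {b c m : ℝ} (hb : 0 < b) (hc : 0 ≤ c) :
    ∫⁻ x : ℝ, ENNReal.ofReal (c * Real.exp (-(b * (x - m) ^ 2))) =
      ENNReal.ofReal (c * √(Real.pi / b)) := by
  have h1 : Integrable (fun x : ℝ => Real.exp (-(b * (x - m) ^ 2))) := by
    have := (integrable_exp_neg_mul_sq hb).comp_sub_right m
    simpa [neg_mul] using this
  have h2 : ∫ x : ℝ, Real.exp (-(b * (x - m) ^ 2)) = √(Real.pi / b) := by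
    have := integral_sub_right_eq_self (fun x : ℝ => Real.exp (-b * x ^ 2)) m (μ := volume)
    rw [integral_gaussian] at this
    simpa [neg_mul] using this
  rw [← ofReal_integral_eq_lintegral_ofReal (h1.const_mul c)
    (Eventually.of_forall fun x => mul_nonneg hc (Real.exp_pos _).le), integral_const_mul, h2]

lemma sinh_bij : Function.Injective Real.sinh ∧ Set.range Real.sinh = Set.univ :=
  ⟨Real.sinh_injective, Real.sinh_surjective.range_eq⟩

lemma one_dim {b : ℝ} (hb : 0 < b) :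
    ∫⁻ s : ℝ, ENNReal.ofReal (Real.exp s * Real.exp (-(b * Real.sinh s ^ 2))) =
      ENNReal.ofReal (√(Real.pi / b)) := by
  have hA := lintegral_image_eq_lintegral_abs_deriv_mul (s := Set.univ) (f := Real.sinh)
    (f' := Real.cosh) MeasurableSet.univ (fun x _ => (Real.hasDerivAt_sinh x).hasDerivWithinAt)
    Real.sinh_injective.injOn (fun u => ENNReal.ofReal (1 * Real.exp (-(b * (u - 0) ^ 2))))
  rw [Set.image_univ, Real.sinh_surjective.range_eq, Measure.restrict_univ,
    gauss hb zero_le_one, one_mul] at hA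
  have hB : ∫⁻ s : ℝ, ENNReal.ofReal (Real.exp s * Real.exp (-(b * Real.sinh s ^ 2))) =
      ∫⁻ s : ℝ, ENNReal.ofReal (Real.exp (-s) * Real.exp (-(b * Real.sinh s ^ 2))) := by
    have h1 := (Measure.measurePreserving_neg (volume : Measure ℝ)).lintegral_comp
      (f := fun s : ℝ => ENNReal.ofReal (Real.exp s * Real.exp (-(b * Real.sinh s ^ 2))))
      (by fun_prop)
    rw [← h1]
    refine lintegral_congr fun s => ?_
    rw [Real.sinh_neg, neg_sq]
  have hC : 2 * ∫⁻ s : ℝ, ENNReal.ofReal (Real.exp s * Real.exp (-(b * Real.sinh s ^ 2))) =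
      2 * ENNReal.ofReal (√(Real.pi / b)) := by
    rw [hA, two_mul]
    conv_lhs => rw [hB]
    conv_lhs => enter [1]; rw [← hB]
    rw [← lintegral_add_left (by fun_prop), ← lintegral_const_mul _ (by fun_prop)]
    refine lintegral_congr fun s => ?_
    rw [← ENNReal.ofReal_add (by positivity) (by positivity), abs_of_pos (Real.cosh_pos s),
      ← ENNReal.ofReal_mul (Real.cosh_pos s).le]
    have h2 : (2 : ℝ≥0∞) = ENNReal.ofReal 2 := by simp
    rw [h2, ← ENNReal.ofReal_mul (by norm_num)]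
    congr 1
    rw [Real.cosh_eq]
    ring_nf
  exact (ENNReal.mul_right_inj (by norm_num) (by norm_num)).1 hC

lemma measurable_cc (w : ℍ) : Measurable (cc w) := by
  unfold cc
  have h1 := Complex.measurable_re
  have h2 := Complex.measurable_im
  exact ((((h1.sub_const _).pow_const 2).add (h2.pow_const 2)).add_const _).div
    ((h2.const_mul 2).mul_const _)

lemma inner_int (w : ℍ) {X y : ℝ} (hX : 0 < X) (hy : 0 < y) :
    ∫⁻ x : ℝ, ENNReal.ofReal (1 / y ^ 2) * ENNReal.ofReal (Real.exp (-(X * cc w ⟨x, y⟩))) =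
      ENNReal.ofReal (1 / y ^ 2 * Real.exp (-(X * ((y ^ 2 + w.im ^ 2) / (2 * y * w.im)))) *
        √(Real.pi / (X / (2 * y * w.im)))) := by
  have hw := w.im_pos
  rw [← gauss (b := X / (2 * y * w.im)) (m := w.re) (by positivity) (by positivity)]
  refine lintegral_congr fun x => ?_
  rw [← ENNReal.ofReal_mul (by positivity)]
  congr 1
  rw [mul_assoc, ← Real.exp_add]
  congr 2
  unfold cc
  simp only
  field_simp
  ring

lemma outer_fun {X y0 : ℝ} (hX : 0 < X) (hy : 0 < y0) (s : ℝ) :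
    |(-2 : ℝ) * (y0 * Real.exp (-2 * s))| * (1 / (y0 * Real.exp (-2 * s)) ^ 2 *
      Real.exp (-(X * (((y0 * Real.exp (-2 * s)) ^ 2 + y0 ^ 2) /
        (2 * (y0 * Real.exp (-2 * s)) * y0)))) *
        √(Real.pi / (X / (2 * (y0 * Real.exp (-2 * s)) * y0)))) =
    (2 * √(2 * Real.pi / X) * Real.exp (-X)) * (Real.exp s *
      Real.exp (-((2 * X) * Real.sinh s ^ 2))) := by
  have he : 0 < Real.exp s := Real.exp_pos s
  have h1 : Real.exp (-2 * s) = (Real.exp s ^ 2)⁻¹ := by
    rw [← Real.exp_nat_mul, ← Real.exp_neg]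
    congr 1
    push_cast
    ring
  have h2 : √(Real.pi / (X / (2 * (y0 * Real.exp (-2 * s)) * y0))) =
      √(2 * Real.pi / X) * (y0 * (Real.exp s)⁻¹) := by
    have e1 : Real.pi / (X / (2 * (y0 * Real.exp (-2 * s)) * y0)) =
        (2 * Real.pi / X) * (y0 * (Real.exp s)⁻¹) ^ 2 := by
      rw [h1]
      field_simp
    rw [e1, Real.sqrt_mul (by positivity), Real.sqrt_sq (by positivity)]
  have h3 : Real.exp (-(X * (((y0 * Real.exp (-2 * s)) ^ 2 + y0 ^ 2) /
        (2 * (y0 * Real.exp (-2 * s)) * y0)))) = Real.exp (-X) *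
        Real.exp (-((2 * X) * Real.sinh s ^ 2)) := by
    rw [← Real.exp_add]
    congr 1
    have e2 : Real.sinh s = (Real.exp s - (Real.exp s)⁻¹) / 2 := by
      rw [Real.sinh_eq, Real.exp_neg]
    rw [e2, h1]
    field_simp
    ring
  rw [h2, h3, abs_of_neg (by have := Real.exp_pos (-2 * s); nlinarith [mul_pos hy this]), h1]
  field_simp

lemma mass (w : ℍ) {X : ℝ} (hX : 0 < X) :
    ∫⁻ z : ℍ, ENNReal.ofReal (Real.exp (-(X * cc w z))) =
      ENNReal.ofReal (2 * Real.pi * Real.exp (-X) / X) := by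
  have hw := w.im_pos
  have hG : Measurable (fun z : ℂ => ENNReal.ofReal (Real.exp (-(X * cc w z)))) :=
    (((measurable_cc w).const_mul X).neg.exp).ennreal_ofReal
  rw [lint _ hG]
  have h1 : ∫⁻ y in Ioi (0 : ℝ), ∫⁻ x : ℝ, ENNReal.ofReal (1 / y ^ 2) *
      ENNReal.ofReal (Real.exp (-(X * cc w ⟨x, y⟩))) =
      ∫⁻ y in Ioi (0 : ℝ), ENNReal.ofReal (1 / y ^ 2 *
        Real.exp (-(X * ((y ^ 2 + w.im ^ 2) / (2 * y * w.im)))) *
        √(Real.pi / (X / (2 * y * w.im)))) :=
    setLIntegral_congr_fun measurableSet_Ioi fun y hy => inner_int w hX hy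
  rw [h1]
  have himg : (fun s : ℝ => w.im * Real.exp (-2 * s)) '' Set.univ = Ioi (0 : ℝ) := by
    ext y
    constructor
    · rintro ⟨s, -, rfl⟩
      exact mul_pos hw (Real.exp_pos _)
    · intro hy
      refine ⟨-(Real.log (y / w.im)) / 2, Set.mem_univ _, ?_⟩
      simp only
      have : (-2 : ℝ) * (-(Real.log (y / w.im)) / 2) = Real.log (y / w.im) := by ring
      rw [this, Real.exp_log (div_pos hy hw)]
      field_simp
  have hcv := lintegral_image_eq_lintegral_abs_deriv_mul (s := Set.univ)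
    (f := fun s : ℝ => w.im * Real.exp (-2 * s))
    (f' := fun s : ℝ => (-2 : ℝ) * (w.im * Real.exp (-2 * s))) MeasurableSet.univ
    (fun s _ => by
      have h : HasDerivAt (fun s : ℝ => w.im * Real.exp (-2 * s))
          (w.im * (Real.exp (-2 * s) * (-2 * 1))) s :=
        (((hasDerivAt_id s).const_mul (-2)).exp).const_mul w.im
      have e : w.im * (Real.exp (-2 * s) * (-2 * 1)) = (-2 : ℝ) * (w.im * Real.exp (-2 * s)) := by
        ring
      rw [e] at h
      exact h.hasDerivWithinAt)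
    (by
      intro a _ b _ hab
      simp only at hab
      have h := mul_left_cancel₀ hw.ne' hab
      have h2 := Real.exp_injective h
      linarith)
    (fun y => ENNReal.ofReal (1 / y ^ 2 *
        Real.exp (-(X * ((y ^ 2 + w.im ^ 2) / (2 * y * w.im)))) *
        √(Real.pi / (X / (2 * y * w.im)))))
  rw [himg, Measure.restrict_univ] at hcv
  rw [hcv]
  have h2 : ∀ s : ℝ, ENNReal.ofReal |(-2 : ℝ) * (w.im * Real.exp (-2 * s))| *
      ENNReal.ofReal (1 / (w.im * Real.exp (-2 * s)) ^ 2 *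
        Real.exp (-(X * (((w.im * Real.exp (-2 * s)) ^ 2 + w.im ^ 2) /
          (2 * (w.im * Real.exp (-2 * s)) * w.im)))) *
        √(Real.pi / (X / (2 * (w.im * Real.exp (-2 * s)) * w.im)))) =
      ENNReal.ofReal (2 * √(2 * Real.pi / X) * Real.exp (-X)) * ENNReal.ofReal (Real.exp s *
        Real.exp (-((2 * X) * Real.sinh s ^ 2))) := by
    intro s
    rw [← ENNReal.ofReal_mul (abs_nonneg _), outer_fun hX hw, ENNReal.ofReal_mul (by positivity)]
  rw [lintegral_congr h2, lintegral_const_mul _ (by fun_prop), one_dim (by linarith),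
    ← ENNReal.ofReal_mul (by positivity)]
  congr 1
  have h3 : √(2 * Real.pi / X) * √(Real.pi / (2 * X)) = Real.pi / X := by
    rw [← Real.sqrt_mul (by positivity)]
    have : 2 * Real.pi / X * (Real.pi / (2 * X)) = (Real.pi / X) ^ 2 := by
      field_simp
    rw [this, Real.sqrt_sq (by positivity)]
  calc 2 * √(2 * Real.pi / X) * Real.exp (-X) * √(Real.pi / (2 * X))
      = 2 * Real.exp (-X) * (√(2 * Real.pi / X) * √(Real.pi / (2 * X))) := by ring
    _ = _ := by rw [h3]; ring

lemma cc_cont (w : ℍ) : Continuous (fun z : ℍ => cc w z) := by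
  have : (fun z : ℍ => cc w z) = fun z : ℍ => Real.cosh (dist z w) := by
    funext z
    rw [cosh_eq]
  rw [this]
  exact Real.continuous_cosh.comp (continuous_id.dist continuous_const)

lemma one_le_cc (w z : ℍ) : 1 ≤ cc w z := by
  rw [← cosh_eq]
  exact Real.one_le_cosh _

lemma int_exp (w : ℍ) {X : ℝ} (hX : 0 < X) :
    Integrable (fun z : ℍ => Real.exp (-(X * cc w z))) := by
  refine ⟨((cc_cont w).const_mul X).neg.rexp.aestronglyMeasurable, ?_⟩
  rw [hasFiniteIntegral_iff_ofReal (Eventually.of_forall fun z => (Real.exp_pos _).le), mass w hX]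
  exact ENNReal.ofReal_lt_top

lemma mass' (w : ℍ) {X : ℝ} (hX : 0 < X) :
    ∫ z : ℍ, Real.exp (-(X * cc w z)) = 2 * Real.pi * Real.exp (-X) / X := by
  have h := ofReal_integral_eq_lintegral_ofReal (int_exp w hX)
    (Eventually.of_forall fun z => (Real.exp_pos _).le)
  rw [mass w hX] at h
  have h1 : 0 ≤ ∫ z : ℍ, Real.exp (-(X * cc w z)) := integral_nonneg fun z => (Real.exp_pos _).le
  exact (ENNReal.ofReal_eq_ofReal_iff h1 (by positivity)).1 h

lemma int_pow (w : ℍ) (k : ℕ) {X : ℝ} (hX : 0 < X) :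
    Integrable (fun z : ℍ => cc w z ^ k * Real.exp (-(X * cc w z))) := by
  have h1 := (int_exp w (X := X / 2) (by linarith)).const_mul ((k.factorial : ℝ) * (2 / X) ^ k)
  refine h1.mono' (((cc_cont w).pow k).mul
    ((cc_cont w).const_mul X).neg.rexp).aestronglyMeasurable (Eventually.of_forall fun z => ?_)
  have hc := one_le_cc w z
  rw [Real.norm_of_nonneg (by positivity)]
  have h2 := Real.pow_div_factorial_le_exp (X / 2 * cc w z) (by positivity) k
  have h3 : cc w z ^ k ≤ (k.factorial : ℝ) * (2 / X) ^ k * Real.exp (X / 2 * cc w z) := by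
    rw [div_le_iff₀ (by positivity)] at h2
    have e1 : cc w z ^ k = (2 / X) ^ k * (X / 2 * cc w z) ^ k := by
      rw [← mul_pow]
      congr 1
      field_simp
    rw [e1]
    calc (2 / X) ^ k * (X / 2 * cc w z) ^ k
        ≤ (2 / X) ^ k * (Real.exp (X / 2 * cc w z) * (k.factorial : ℝ)) :=
          mul_le_mul_of_nonneg_left h2 (by positivity)
      _ = _ := by ring
  calc cc w z ^ k * Real.exp (-(X * cc w z))
      ≤ ((k.factorial : ℝ) * (2 / X) ^ k * Real.exp (X / 2 * cc w z)) *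
        Real.exp (-(X * cc w z)) := mul_le_mul_of_nonneg_right h3 (Real.exp_pos _).le
    _ = (k.factorial : ℝ) * (2 / X) ^ k * Real.exp (-(X / 2 * cc w z)) := by
        rw [mul_assoc, ← Real.exp_add]
        congr 2
        ring

/-- the derivative of a function of two real variables -/
def lin (p q : ℝ) : ℂ →L[ℝ] ℝ := p • Complex.reCLM + q • Complex.imCLM

lemma lin_one (p q : ℝ) : lin p q 1 = p := by simp [lin]

lemma lin_I (p q : ℝ) : lin p q Complex.I = q := by simp [lin]

lemma hd_re (z : ℂ) : HasFDerivAt (fun z : ℂ => z.re) (lin 1 0) z := by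
  have h : HasFDerivAt (fun z : ℂ => z.re) Complex.reCLM z := Complex.reCLM.hasFDerivAt
  have e : lin 1 0 = Complex.reCLM := by simp [lin]
  rwa [e]

lemma hd_im (z : ℂ) : HasFDerivAt (fun z : ℂ => z.im) (lin 0 1) z := by
  have h : HasFDerivAt (fun z : ℂ => z.im) Complex.imCLM z := Complex.imCLM.hasFDerivAt
  have e : lin 0 1 = Complex.imCLM := by simp [lin]
  rwa [e]

lemma hd_comp {F : ℂ → ℝ} {p q : ℝ} {z : ℂ} (h : HasFDerivAt F (lin p q) z) {u : ℝ → ℝ} {u' : ℝ}
    (hu : HasDerivAt u u' (F z)) : HasFDerivAt (fun z => u (F z)) (lin (u' * p) (u' * q)) z := by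
  have h1 := hu.comp_hasFDerivAt z h
  have e : lin (u' * p) (u' * q) = u' • lin p q := by
    simp [lin, smul_smul, smul_add]
  rw [e]
  exact h1

lemma hd_mul {F G : ℂ → ℝ} {p q p' q' : ℝ} {z : ℂ} (h : HasFDerivAt F (lin p q) z)
    (h' : HasFDerivAt G (lin p' q') z) :
    HasFDerivAt (fun z => F z * G z) (lin (F z * p' + G z * p) (F z * q' + G z * q)) z := by
  have h1 := h.mul h'
  have e : lin (F z * p' + G z * p) (F z * q' + G z * q) = F z • lin p' q' + G z • lin p q := by
    simp only [lin, smul_smul, smul_add, add_smul]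
    abel
  rw [e]
  exact h1

lemma hd_add {F G : ℂ → ℝ} {p q p' q' : ℝ} {z : ℂ} (h : HasFDerivAt F (lin p q) z)
    (h' : HasFDerivAt G (lin p' q') z) :
    HasFDerivAt (fun z => F z + G z) (lin (p + p') (q + q')) z := by
  have h1 := h.add h'
  have e : lin (p + p') (q + q') = lin p q + lin p' q' := by
    simp only [lin, add_smul]
    abel
  rw [e]
  exact h1

/-- the derivative of `cc` in the direction `x` -/
def pp (w : ℍ) (z : ℂ) : ℝ := (z.re - w.re) * (z.im⁻¹ * w.im⁻¹)

/-- the derivative of `cc` in the direction `y` -/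
def rr (w : ℍ) (z : ℂ) : ℝ :=
  (2 * w.im)⁻¹ - ((z.re - w.re) ^ 2 + w.im ^ 2) * (z.im ^ 2)⁻¹ * (2 * w.im)⁻¹

lemma hd_sub {z : ℂ} (a : ℝ) : HasFDerivAt (fun z : ℂ => z.re - a) (lin 1 0) z := by
  have := hd_comp (hd_re z) (u := fun x => x - a) (u' := 1) ((hasDerivAt_id _).sub_const a)
  simpa using this

lemma hd_cc (w : ℍ) {z : ℂ} (hz : 0 < z.im) : HasFDerivAt (cc w) (lin (pp w z) (rr w z)) z := by
  have hw := w.im_pos
  have h1 := hd_comp (hd_sub (z := z) w.re) (u := fun x => x ^ 2 + w.im ^ 2)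
    (u' := 2 * (z.re - w.re)) (by
      have := ((hasDerivAt_id (z.re - w.re)).pow 2).add_const (w.im ^ 2)
      simpa using this)
  have h2 := hd_comp (hd_im z) (u := fun y => y⁻¹ * (2 * w.im)⁻¹)
    (u' := -(z.im ^ 2)⁻¹ * (2 * w.im)⁻¹) ((hasDerivAt_inv hz.ne').mul_const _)
  have h3 := hd_comp (hd_im z) (u := fun y => y * (2 * w.im)⁻¹)
    (u' := (2 * w.im)⁻¹) (by simpa using (hasDerivAt_id z.im).mul_const (2 * w.im)⁻¹)
  have h4 := hd_add (hd_mul h1 h2) h3
  have e1 : cc w =ᶠ[𝓝 z] fun z => ((z.re - w.re) ^ 2 + w.im ^ 2) * (z.im⁻¹ * (2 * w.im)⁻¹) +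
      z.im * (2 * w.im)⁻¹ := by
    filter_upwards [(Complex.continuous_im.isOpen_preimage _ isOpen_Ioi).mem_nhds
      (show z ∈ Complex.im ⁻¹' Ioi 0 from hz)] with u hu
    have hu' : (0 : ℝ) < u.im := hu
    unfold cc
    field_simp
    ring
  refine (h4.congr_of_eventuallyEq e1).congr_fderiv ?_
  congr 1
  · unfold pp
    field_simp
    ring
  · unfold rr
    field_simp
    ring

lemma hd_pp (w : ℍ) {z : ℂ} (hz : 0 < z.im) : HasFDerivAt (pp w)
    (lin (z.im⁻¹ * w.im⁻¹) (-(z.re - w.re) * ((z.im ^ 2)⁻¹ * w.im⁻¹))) z := by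
  have h2 := hd_comp (hd_im z) (u := fun y => y⁻¹ * w.im⁻¹)
    (u' := -(z.im ^ 2)⁻¹ * w.im⁻¹) ((hasDerivAt_inv hz.ne').mul_const _)
  refine (hd_mul (hd_sub (z := z) w.re) h2).congr_fderiv ?_
  congr 1
  · ring
  · ring

lemma hd_rr (w : ℍ) {z : ℂ} (hz : 0 < z.im) : HasFDerivAt (rr w)
    (lin (-(z.re - w.re) * ((z.im ^ 2)⁻¹ * w.im⁻¹))
      (((z.re - w.re) ^ 2 + w.im ^ 2) * ((z.im ^ 3)⁻¹ * w.im⁻¹))) z := by
  have hw := w.im_pos
  have h1 := hd_comp (hd_sub (z := z) w.re) (u := fun x => x ^ 2 + w.im ^ 2)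
    (u' := 2 * (z.re - w.re)) (by
      have := ((hasDerivAt_id (z.re - w.re)).pow 2).add_const (w.im ^ 2)
      simpa using this)
  have h2 := hd_comp (hd_im z) (u := fun y => (y ^ 2)⁻¹)
    (u' := -(2 * z.im) / (z.im ^ 2) ^ 2) (by
      have h0 : HasDerivAt (fun y : ℝ => y ^ 2) (2 * z.im) z.im := by
        simpa using hasDerivAt_pow 2 z.im
      exact h0.inv (pow_ne_zero 2 hz.ne'))
  have h3 := hd_comp (hd_mul h1 h2) (u := fun x => (2 * w.im)⁻¹ - x * (2 * w.im)⁻¹)
    (u' := -(2 * w.im)⁻¹) (by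
      have := ((hasDerivAt_id (((z.re - w.re) ^ 2 + w.im ^ 2) * (z.im ^ 2)⁻¹)).mul_const
        (2 * w.im)⁻¹).const_sub (2 * w.im)⁻¹
      simpa using this)
  refine h3.congr_fderiv ?_
  congr 1
  · field_simp
    ring
  · field_simp
    ring

lemma pr_sq (w : ℍ) {z : ℂ} (hz : 0 < z.im) :
    z.im ^ 2 * (pp w z ^ 2 + rr w z ^ 2) = cc w z ^ 2 - 1 := by
  have hw := w.im_pos
  unfold pp rr cc
  field_simp
  ring

lemma pr_lap (w : ℍ) {z : ℂ} (hz : 0 < z.im) :
    z.im ^ 2 * (z.im⁻¹ * w.im⁻¹ + ((z.re - w.re) ^ 2 + w.im ^ 2) * ((z.im ^ 3)⁻¹ * w.im⁻¹)) =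
      2 * cc w z := by
  have hw := w.im_pos
  unfold cc
  field_simp
  ring

/-- the test function -/
def GG (w : ℍ) (h : ℝ → ℝ) (z : ℂ) : ℝ := if 0 < z.im then h (cc w z) else 0

lemma dzb_dz_real {P Q : ℂ → ℝ} {G : ℂ → ℝ} {U : Set ℂ} (hU : IsOpen U)
    (hG : ∀ z ∈ U, HasFDerivAt G (lin (P z) (Q z)) z) {z : ℂ} (hz : z ∈ U) {a b c : ℝ}
    (hP : HasFDerivAt P (lin a b) z) (hQ : HasFDerivAt Q (lin b c) z) :
    dzb (dz (fun u => (G u : ℂ))) z = ((a + c : ℝ) : ℂ) := by
  have h1 : ∀ u ∈ U, dz (fun u => (G u : ℂ)) u = ((P u : ℝ) : ℂ) - Complex.I * ((Q u : ℝ) : ℂ) := by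
    intro u hu
    have h2 : HasFDerivAt (fun u => (G u : ℂ)) (Complex.ofRealCLM.comp (lin (P u) (Q u))) u :=
      Complex.ofRealCLM.hasFDerivAt.comp u (hG u hu)
    unfold dz
    rw [h2.fderiv]
    simp only [ContinuousLinearMap.comp_apply, lin_one, lin_I, Complex.ofRealCLM_apply]
  rw [dzb_congr hU h1 hz]
  have h3 : HasFDerivAt (fun u => ((P u : ℝ) : ℂ) - Complex.I * ((Q u : ℝ) : ℂ))
      (Complex.ofRealCLM.comp (lin a b) - Complex.I • (Complex.ofRealCLM.comp (lin b c))) z :=
    (Complex.ofRealCLM.hasFDerivAt.comp z hP).sub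
      ((Complex.ofRealCLM.hasFDerivAt.comp z hQ).const_mul Complex.I)
  unfold dzb
  rw [h3.fderiv]
  simp only [ContinuousLinearMap.comp_apply, sub_apply, smul_apply,
    lin_one, lin_I, Complex.ofRealCLM_apply, smul_eq_mul]
  push_cast
  linear_combination (-(c : ℂ)) * Complex.I_mul_I

lemma lap_GG (w : ℍ) {h : ℝ → ℝ} (hh : ContDiff ℝ ∞ h) {z : ℂ} (hz : 0 < z.im) :
    (z.im : ℂ) ^ 2 * dzb (dz (fun u => (GG w h u : ℂ))) z =
      (((cc w z ^ 2 - 1) * deriv (deriv h) (cc w z) + 2 * cc w z * deriv h (cc w z) : ℝ) : ℂ) := by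
  have h1 : ∀ v, HasDerivAt h (deriv h v) v := fun v =>
    (hh.differentiable (by simp)).differentiableAt.hasDerivAt
  have hh' : ContDiff ℝ ∞ (deriv h) := by
    exact (contDiff_infty_iff_deriv.1 hh).2
  have h2 : ∀ v, HasDerivAt (deriv h) (deriv (deriv h) v) v := fun v =>
    (hh'.differentiable (by simp)).differentiableAt.hasDerivAt
  have hG : ∀ u ∈ H0, HasFDerivAt (GG w h) (lin (deriv h (cc w u) * pp w u)
      (deriv h (cc w u) * rr w u)) u := by
    intro u hu
    refine (hd_comp (hd_cc w hu) (h1 _)).congr_of_eventuallyEq ?_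
    filter_upwards [Half.isOpen_H0.mem_nhds hu] with v hv
    have hv' : 0 < v.im := hv
    simp [GG, hv']
  have hP := hd_mul (hd_comp (hd_cc w hz) (h2 _)) (hd_pp w hz)
  have hQ := hd_mul (hd_comp (hd_cc w hz) (h2 _)) (hd_rr w hz)
  have key := dzb_dz_real Half.isOpen_H0 hG (show z ∈ H0 from hz)
    (a := deriv h (cc w z) * (z.im⁻¹ * w.im⁻¹) + pp w z * (deriv (deriv h) (cc w z) * pp w z))
    (b := deriv h (cc w z) * (-(z.re - w.re) * ((z.im ^ 2)⁻¹ * w.im⁻¹)) +
      pp w z * (deriv (deriv h) (cc w z) * rr w z))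
    (c := deriv h (cc w z) * (((z.re - w.re) ^ 2 + w.im ^ 2) * ((z.im ^ 3)⁻¹ * w.im⁻¹)) +
      rr w z * (deriv (deriv h) (cc w z) * rr w z)) hP (by
      refine hQ.congr_fderiv ?_
      congr 1
      ring)
  rw [key, ← Complex.ofReal_pow, ← Complex.ofReal_mul]
  congr 1
  linear_combination (deriv (deriv h) (cc w z)) * pr_sq w hz + (deriv h (cc w z)) * pr_lap w hz

lemma cd_cc (w : ℍ) : ContDiffOn ℝ ∞ (cc w) H0 := by
  have hw := w.im_pos
  have h1 : ContDiff ℝ ∞ (fun z : ℂ => z.re) := Complex.reCLM.contDiff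
  have h2 : ContDiff ℝ ∞ (fun z : ℂ => z.im) := Complex.imCLM.contDiff
  unfold cc
  refine ContDiffOn.div ?_ ?_ ?_
  · exact ((((h1.sub contDiff_const).pow 2).add (h2.pow 2)).add contDiff_const).contDiffOn
  · exact ((contDiff_const.mul h2).mul contDiff_const).contDiffOn
  · intro z hz
    have : 0 < z.im := hz
    positivity

lemma compact_cc (w : ℍ) (R : ℝ) : IsCompact {z : ℍ | cc w z ≤ R} := by
  have h1 : {z : ℍ | cc w z ≤ R} ⊆ Metric.closedBall w R := by
    intro z hz
    have h2 : Real.cosh (dist z w) ≤ R := by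
      rw [cosh_eq]
      exact hz
    have h3 : dist z w ≤ Real.sinh (dist z w) := Real.self_le_sinh_iff.2 dist_nonneg
    have h4 := Real.sinh_lt_cosh (dist z w)
    rw [Metric.mem_closedBall]
    linarith
  exact (isCompact_closedBall w _).of_isClosed_subset
    (isClosed_le (cc_cont w) continuous_const) h1

lemma testR_GG (w : ℍ) {h : ℝ → ℝ} (hh : ContDiff ℝ ∞ h) {R : ℝ} (hR : ∀ v, R ≤ v → h v = 0) :
    TestR H0 (GG w h) := by
  have hK : IsCompact (UpperHalfPlane.coe '' {z : ℍ | cc w z ≤ R}) :=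
    (compact_cc w R).image UpperHalfPlane.continuous_coe
  have hz : ∀ z ∉ UpperHalfPlane.coe '' {z : ℍ | cc w z ≤ R}, GG w h z = 0 := by
    intro z hz
    unfold GG
    split_ifs with h0
    · refine hR _ ?_
      by_contra h1
      push Not at h1
      exact hz ⟨⟨z, h0⟩, h1.le, rfl⟩
    · rfl
  have hsub : tsupport (GG w h) ⊆ UpperHalfPlane.coe '' {z : ℍ | cc w z ≤ R} := by
    refine closure_minimal ?_ hK.isClosed
    intro z h1
    by_contra h2
    exact h1 (hz z h2)
  have hH : UpperHalfPlane.coe '' {z : ℍ | cc w z ≤ R} ⊆ H0 := by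
    rintro _ ⟨z, -, rfl⟩
    exact z.im_pos
  refine ⟨?_, hK.of_isClosed_subset (isClosed_tsupport _) hsub, hsub.trans hH⟩
  rw [contDiff_iff_contDiffAt]
  intro z
  by_cases hz0 : z ∈ H0
  · have h1 : ContDiffAt ℝ ∞ (fun z => h (cc w z)) z :=
      hh.contDiffAt.comp z ((cd_cc w).contDiffAt (Half.isOpen_H0.mem_nhds hz0))
    refine h1.congr_of_eventuallyEq ?_
    filter_upwards [Half.isOpen_H0.mem_nhds hz0] with v hv
    have hv' : 0 < v.im := hv
    simp [GG, hv']
  · have h1 : (GG w h) =ᶠ[𝓝 z] fun _ => (0 : ℝ) := by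
      filter_upwards [hK.isClosed.isOpen_compl.mem_nhds (fun h2 => hz0 (hH h2))] with v hv
      exact hz v hv
    exact contDiffAt_const.congr_of_eventuallyEq h1

lemma green {f : ℍ → ℝ} (hf : ContDiffOn ℝ ∞ (ext f) H0) {lam : ℝ}
    (he : ∀ z : ℍ, -z.im ^ 2 * Laplacian.laplacian (ext f) (z : ℂ) = lam * f z) (w : ℍ)
    {h : ℝ → ℝ} (hh : ContDiff ℝ ∞ h) {R : ℝ} (hR : ∀ v, R ≤ v → h v = 0) :
    -lam * ∫ z : ℍ, f z * h (cc w z) = ∫ z : ℍ, f z *
      ((cc w z ^ 2 - 1) * deriv (deriv h) (cc w z) + 2 * cc w z * deriv h (cc w z)) := by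
  have hG := testR_GG w hh hR
  obtain ⟨χ, V, hχ, h01, hV, hVH, h1, hsub⟩ := Half.setup hG
  have hF := Half.ff_smooth hχ hf
  have hFc := contDiff_ofReal hF
  have hGt := hG.toTest
  have i1 := integral_mul_dzb hGt.smooth (contDiff_dz hFc) (Or.inl hGt.cpt)
  have i2 := integral_mul_dz (contDiff_dzb hGt.smooth) hFc
    (Or.inl (hasCompactSupport_dzb hGt.cpt))
  rw [i2, neg_neg] at i1
  have hGV : ∀ z, z ∉ V → GG w h z = 0 := fun z hz =>
    image_eq_zero_of_notMem_tsupport fun h' => hz (hsub h')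
  -- the left side
  have hL : ∫ z : ℂ, (GG w h z : ℂ) * dzb (dz (fun u => (ff χ f u : ℂ))) z =
      ((-lam * ∫ z : ℍ, f z * h (cc w z) : ℝ) : ℂ) := by
    have e1 := stmtInt.2 (fun z : ℂ => (GG w h z : ℂ) * ((z.im : ℂ) ^ 2 *
      dzb (dz (fun u => (ff χ f u : ℂ))) z)) (by
        intro z hz
        simp [GG, not_lt.mpr hz])
    have e2 : ∫ z : ℂ, (GG w h z : ℂ) * dzb (dz (fun u => (ff χ f u : ℂ))) z =
        ∫ z : ℂ, ((GG w h z : ℂ) * ((z.im : ℂ) ^ 2 *
          dzb (dz (fun u => (ff χ f u : ℂ))) z)) / (z.im : ℂ) ^ 2 := by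
      refine integral_congr_ae (Eventually.of_forall fun z => ?_)
      by_cases hz : 0 < z.im
      · have : (z.im : ℂ) ≠ 0 := by exact_mod_cast hz.ne'
        simp only
        field_simp
      · simp [GG, hz]
    rw [e2, ← e1, ← integral_const_mul, ← integral_complex_ofReal]
    refine integral_congr_ae (Eventually.of_forall fun z => ?_)
    simp only
    by_cases hz : (z : ℂ) ∈ V
    · have hc : ∀ u ∈ V, (ff χ f u : ℂ) = (ext f u : ℂ) := by
        intro u hu
        unfold ff
        rw [h1 u hu, one_mul]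
      have e3 : dzb (dz (fun w => (ff χ f w : ℂ))) z = dzb (dz (fun w => (ext f w : ℂ))) z :=
        dzb_congr hV (fun u hu => dz_congr hV hc hu) hz
      rw [e3, ← stmtLap H0 (ext f) Half.isOpen_H0 hf z z.im_pos]
      have e4 := he z
      have e5 : (z : ℂ).im = z.im := rfl
      have e6 : GG w h z = h (cc w z) := by
        unfold GG
        rw [e5, if_pos z.im_pos]
      rw [e5, e6]
      have e7 : h (cc w z) * (z.im ^ 2 * Laplacian.laplacian (ext f) (z : ℂ)) =
          -lam * (f z * h (cc w z)) := by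
        linear_combination (-(h (cc w z))) * e4
      exact_mod_cast e7
    · have e6 : GG w h z = h (cc w z) := by
        unfold GG
        rw [if_pos (show 0 < (z : ℂ).im from z.im_pos)]
      have e7 := hGV z hz
      rw [e7, ← e6, e7]
      simp
  have hRt : ∫ z : ℂ, dz (dzb (fun u => (GG w h u : ℂ))) z * (ff χ f z : ℂ) =
      ((∫ z : ℍ, f z * ((cc w z ^ 2 - 1) * deriv (deriv h) (cc w z) +
        2 * cc w z * deriv h (cc w z)) : ℝ) : ℂ) := by
    have e1 := stmtInt.2 (fun z : ℂ => ((z.im : ℂ) ^ 2 *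
      dz (dzb (fun u => (GG w h u : ℂ))) z) * (ff χ f z : ℂ)) (by
        intro z hz
        have : z ∉ H0 := not_lt.mpr hz
        rw [show ff χ f z = 0 from by unfold ff; rw [hχ.eq_zero this, zero_mul]]
        simp)
    have e2 : ∫ z : ℂ, dz (dzb (fun u => (GG w h u : ℂ))) z * (ff χ f z : ℂ) =
        ∫ z : ℂ, (((z.im : ℂ) ^ 2 *
          dz (dzb (fun u => (GG w h u : ℂ))) z) * (ff χ f z : ℂ)) / (z.im : ℂ) ^ 2 := by
      refine integral_congr_ae (Eventually.of_forall fun z => ?_)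
      by_cases hz : 0 < z.im
      · have : (z.im : ℂ) ≠ 0 := by exact_mod_cast hz.ne'
        simp only
        field_simp
      · have : z ∉ H0 := hz
        simp only
        rw [show ff χ f z = 0 from by unfold ff; rw [hχ.eq_zero this, zero_mul]]
        simp
    rw [e2, ← e1, ← integral_complex_ofReal]
    refine integral_congr_ae (Eventually.of_forall fun z => ?_)
    simp only
    rw [dz_dzb_comm hGt.smooth, lap_GG w hh z.im_pos]
    by_cases hz : (z : ℂ) ∈ V
    · have e8 : ff χ f z = f z := by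
        unfold ff
        rw [h1 _ hz, one_mul, Half.ext_coe]
      rw [e8]
      push_cast
      ring
    · -- outside of `V` the derivatives of `G` vanish
      have e9 : dzb (dz (fun u => (GG w h u : ℂ))) z = 0 := by
        refine dzb_eq_zero_of_notMem fun h' => hz ?_
        exact (tsupport_dz.trans ((tsupport_comp_subset (g := fun x : ℝ => (x : ℂ)) (by simp)
          (GG w h)).trans hsub)) h'
      have e10 := lap_GG w hh (z := z) z.im_pos
      rw [e9, mul_zero] at e10
      have e11 : (cc w z ^ 2 - 1) * deriv (deriv h) (cc w z) + 2 * cc w z * deriv h (cc w z) = 0 := by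
        exact_mod_cast e10.symm
      rw [e11]
      simp
  rw [hL, hRt] at i1
  exact_mod_cast i1

lemma wron {lam : ℝ} {D D1 K K1 : ℝ → ℝ} (hD : ∀ X : ℝ, 0 < X → HasDerivAt D (D1 X) X)
    (hD1 : ∀ X : ℝ, 0 < X → HasDerivAt D1 ((1 - lam / X ^ 2) * D X) X)
    (hK : ∀ X : ℝ, 0 < X → HasDerivAt K (K1 X) X)
    (hK1 : ∀ X : ℝ, 0 < X → HasDerivAt K1 ((1 - lam / X ^ 2) * K X) X)
    {B : ℝ} (hB : ∀ X, 1 ≤ X → |D X| ≤ B) (hB1 : ∀ X, 1 ≤ X → |D1 X| ≤ B)
    (tK : Tendsto K atTop (𝓝 0)) (tK1 : Tendsto K1 atTop (𝓝 0)) {X : ℝ} (hX : 0 < X) :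
    D X * K1 X - D1 X * K X = 0 := by
  have hW : ∀ x : ℝ, 0 < x → HasDerivAt (fun x => D x * K1 x - D1 x * K x) 0 x := by
    intro x hx
    have h := ((hD x hx).mul (hK1 x hx)).sub ((hD1 x hx).mul (hK x hx))
    have e : D1 x * K1 x + D x * ((1 - lam / x ^ 2) * K x) -
        ((1 - lam / x ^ 2) * D x * K x + D1 x * K1 x) = 0 := by ring
    rw [e] at h
    exact h
  have hc : ∀ x ∈ Ioi (0 : ℝ), D x * K1 x - D1 x * K x = D X * K1 X - D1 X * K X := by
    intro x hx
    exact (convex_Ioi (0 : ℝ)).is_const_of_fderivWithin_eq_zero (𝕜 := ℝ)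
      (f := fun x => D x * K1 x - D1 x * K x)
      (fun y hy => (hW y hy).differentiableAt.differentiableWithinAt)
      (fun y hy => by
        have h1 : HasFDerivWithinAt (fun x => D x * K1 x - D1 x * K x) (0 : ℝ →L[ℝ] ℝ)
            (Ioi 0) y := by
          have := (hW y hy).hasFDerivAt.hasFDerivWithinAt (s := Ioi (0 : ℝ))
          simpa using this
        exact h1.fderivWithin (isOpen_Ioi.uniqueDiffWithinAt hy)) hx hX
  have ht : Tendsto (fun x => D x * K1 x - D1 x * K x) atTop (𝓝 0) := by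
    have h1 : Tendsto (fun x => D x * K1 x) atTop (𝓝 0) := by
      refine squeeze_zero_norm' (a := fun x => B * ‖K1 x‖) ?_ (by simpa using tK1.norm.const_mul B)
      filter_upwards [eventually_ge_atTop 1] with x hx
      rw [norm_mul]
      exact mul_le_mul_of_nonneg_right (hB x hx) (norm_nonneg _)
    have h2 : Tendsto (fun x => D1 x * K x) atTop (𝓝 0) := by
      refine squeeze_zero_norm' (a := fun x => B * ‖K x‖) ?_ (by simpa using tK.norm.const_mul B)
      filter_upwards [eventually_ge_atTop 1] with x hx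
      rw [norm_mul]
      exact mul_le_mul_of_nonneg_right (hB1 x hx) (norm_nonneg _)
    simpa using h1.sub h2
  have ht2 : Tendsto (fun _ : ℝ => D X * K1 X - D1 X * K X) atTop (𝓝 0) := by
    refine ht.congr' ?_
    filter_upwards [eventually_gt_atTop 0] with x hx
    exact hc x hx
  exact tendsto_nhds_unique tendsto_const_nhds ht2

lemma ode_zero {lam : ℝ} {D D1 : ℝ → ℝ} (hD : ∀ X : ℝ, 0 < X → HasDerivAt D (D1 X) X)
    (hD1 : ∀ X : ℝ, 0 < X → HasDerivAt D1 ((1 - lam / X ^ 2) * D X) X) {a b : ℝ} (ha : 0 < a)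
    (hab : a ≤ b) (h0 : D b = 0) (h1 : D1 b = 0) : D a = 0 := by
  set M : ℝ := 2 + |lam| / a ^ 2 with hM
  have hE : ∀ x : ℝ, 0 < x → HasDerivAt (fun x => Real.exp (M * x) * (D x ^ 2 + D1 x ^ 2))
      (Real.exp (M * x) * (M * (D x ^ 2 + D1 x ^ 2) +
        2 * D x * D1 x * (2 - lam / x ^ 2))) x := by
    intro x hx
    have e1 : HasDerivAt (fun x => Real.exp (M * x)) (Real.exp (M * x) * (M * 1)) x :=
      ((hasDerivAt_id x).const_mul M).exp
    have e2 : HasDerivAt (fun x => D x ^ 2 + D1 x ^ 2)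
        (((2 : ℕ) : ℝ) * D x ^ (2 - 1) * D1 x +
          ((2 : ℕ) : ℝ) * D1 x ^ (2 - 1) * ((1 - lam / x ^ 2) * D x)) x :=
      ((hD x hx).fun_pow 2).add ((hD1 x hx).fun_pow 2)
    refine (e1.mul e2).congr_deriv ?_
    push_cast
    ring
  have hmono : MonotoneOn (fun x => Real.exp (M * x) * (D x ^ 2 + D1 x ^ 2)) (Icc a b) := by
    refine monotoneOn_of_deriv_nonneg (convex_Icc a b) ?_ ?_ ?_
    · intro x hx
      exact (hE x (ha.trans_le hx.1)).continuousAt.continuousWithinAt
    · intro x hx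
      rw [interior_Icc] at hx
      exact (hE x (ha.trans hx.1)).differentiableAt.differentiableWithinAt
    · intro x hx
      rw [interior_Icc] at hx
      have hx0 : 0 < x := ha.trans hx.1
      rw [(hE x hx0).deriv]
      refine mul_nonneg (Real.exp_pos _).le ?_
      have h2 : |2 - lam / x ^ 2| ≤ M := by
        have h3 : |lam / x ^ 2| ≤ |lam| / a ^ 2 := by
          rw [abs_div, abs_of_pos (show 0 < x ^ 2 by positivity)]
          have : a ^ 2 ≤ x ^ 2 := by
            have := hx.1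
            gcongr
          gcongr
        calc |2 - lam / x ^ 2| ≤ |(2 : ℝ)| + |lam / x ^ 2| := abs_sub _ _
          _ ≤ M := by
            rw [hM]
            have : |(2 : ℝ)| = 2 := by norm_num
            linarith
      have h4 : |2 * D x * D1 x| ≤ D x ^ 2 + D1 x ^ 2 := by
        rw [abs_le]
        constructor
        · nlinarith [sq_nonneg (D x + D1 x)]
        · nlinarith [sq_nonneg (D x - D1 x)]
      have h5 : |2 * D x * D1 x * (2 - lam / x ^ 2)| ≤ M * (D x ^ 2 + D1 x ^ 2) := by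
        rw [abs_mul, mul_comm M]
        exact mul_le_mul h4 h2 (abs_nonneg _) (by positivity)
      have h6 := neg_abs_le (2 * D x * D1 x * (2 - lam / x ^ 2))
      linarith
  have h2 := hmono (left_mem_Icc.2 hab) (right_mem_Icc.2 hab) hab
  simp only [h0, h1] at h2
  have h3 : D a ^ 2 + D1 a ^ 2 ≤ 0 := by
    have h4 := Real.exp_pos (M * a)
    by_contra h5
    push Not at h5
    have := mul_pos h4 h5
    simp at h2
    linarith
  have h4 : D a ^ 2 = 0 := by nlinarith [sq_nonneg (D a), sq_nonneg (D1 a)]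
  exact pow_eq_zero_iff (two_ne_zero) |>.1 h4

lemma unique_zero {lam : ℝ} {D D1 K K1 : ℝ → ℝ} (hD : ∀ X : ℝ, 0 < X → HasDerivAt D (D1 X) X)
    (hD1 : ∀ X : ℝ, 0 < X → HasDerivAt D1 ((1 - lam / X ^ 2) * D X) X)
    (hK : ∀ X : ℝ, 0 < X → HasDerivAt K (K1 X) X)
    (hK1 : ∀ X : ℝ, 0 < X → HasDerivAt K1 ((1 - lam / X ^ 2) * K X) X)
    {B : ℝ} (hB : ∀ X, 1 ≤ X → |D X| ≤ B) (hB1 : ∀ X, 1 ≤ X → |D1 X| ≤ B)
    (tK : Tendsto K atTop (𝓝 0)) (tK1 : Tendsto K1 atTop (𝓝 0))
    {c : ℝ} (hc : 0 < c) (tcK : Tendsto (fun X => Real.exp X * K X) atTop (𝓝 c))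
    (tcD : Tendsto (fun X => Real.exp X * D X) atTop (𝓝 0)) {X : ℝ} (hX : 0 < X) : D X = 0 := by
  have hW := fun x (hx : (0 : ℝ) < x) => wron hD hD1 hK hK1 hB hB1 tK tK1 hx
  obtain ⟨X1, hX1⟩ := eventually_atTop.1 (tcK.eventually (eventually_gt_nhds hc))
  set X0 : ℝ := max X1 (max X 1) with hX0
  have hX0p : 0 < X0 := by
    have : (1 : ℝ) ≤ X0 := (le_max_right _ _).trans (le_max_right _ _)
    linarith
  have hKp : ∀ x ∈ Ici X0, 0 < K x := by
    intro x hx
    have h1 := hX1 x ((le_max_left _ _).trans hx)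
    exact (pos_iff_pos_of_mul_pos h1).1 (Real.exp_pos x)
  -- the quotient is constant
  have hq : ∀ x ∈ Ioi X0, HasDerivAt (fun x => D x / K x) 0 x := by
    intro x hx
    have hx0 : 0 < x := hX0p.trans hx
    have hk := hKp x (Set.mem_Ici.2 (le_of_lt (Set.mem_Ioi.1 hx)))
    have h1 := (hD x hx0).div (hK x hx0) hk.ne'
    refine h1.congr_deriv ?_
    have h2 := hW x hx0
    rw [div_eq_zero_iff]
    left
    linarith
  have hcst : ∀ x ∈ Ioi X0, ∀ y ∈ Ioi X0, D x / K x = D y / K y := by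
    intro x hx y hy
    exact (convex_Ioi X0).is_const_of_fderivWithin_eq_zero (𝕜 := ℝ)
      (f := fun x => D x / K x)
      (fun y hy => (hq y hy).differentiableAt.differentiableWithinAt)
      (fun y hy => by
        have h1 : HasFDerivWithinAt (fun x => D x / K x) (0 : ℝ →L[ℝ] ℝ)
            (Ioi X0) y := by
          have := (hq y hy).hasFDerivAt.hasFDerivWithinAt (s := Ioi X0)
          simpa using this
        exact h1.fderivWithin (isOpen_Ioi.uniqueDiffWithinAt hy)) hx hy
  have hlim : Tendsto (fun x => D x / K x) atTop (𝓝 0) := by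
    have h1 := tcD.div tcK hc.ne'
    rw [zero_div] at h1
    refine h1.congr fun x => ?_
    simp only [Pi.div_apply]
    rw [mul_div_mul_left _ _ (Real.exp_pos x).ne']
  have hz : ∀ x ∈ Ioi X0, D x = 0 := by
    intro x hx
    have h1 : Tendsto (fun _ : ℝ => D x / K x) atTop (𝓝 0) := by
      refine hlim.congr' ?_
      filter_upwards [eventually_gt_atTop X0] with y hy
      exact hcst y hy x hx
    have h2 := tendsto_nhds_unique tendsto_const_nhds h1
    have h3 := hKp x (Set.mem_Ici.2 (le_of_lt (Set.mem_Ioi.1 hx)))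
    rcases div_eq_zero_iff.1 h2 with h4 | h4
    · exact h4
    · exact absurd h4 h3.ne'
  have hb : X0 < X0 + 1 := by linarith
  have hz1 : D1 (X0 + 1) = 0 := by
    have h1 : D =ᶠ[𝓝 (X0 + 1)] fun _ => 0 := by
      filter_upwards [isOpen_Ioi.mem_nhds (show X0 + 1 ∈ Ioi X0 from hb)] with x hx
      exact hz x hx
    have h2 := (hD (X0 + 1) (by linarith)).deriv
    rw [h1.deriv_eq] at h2
    simpa using h2.symm
  have hXX : X ≤ X0 + 1 := by
    have : X ≤ X0 := (le_max_left _ _).trans (le_max_right _ _)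
    linarith
  exact ode_zero hD hD1 hX hXX (hz _ hb) hz1

/-! ### The Bessel side -/

/-- `√X K(X)` -/
def kk0 (t X : ℝ) : ℝ := √X * KB t X

/-- the derivative -/
def kk1 (t X : ℝ) : ℝ := KB t X / (2 * √X) + √X * KB1 t X

lemma kk0_deriv (hK : StmtKBf) (t : ℝ) {X : ℝ} (hX : 0 < X) : HasDerivAt (kk0 t) (kk1 t X) X := by
  have h := (Real.hasDerivAt_sqrt hX.ne').mul ((hK t).1 X hX)
  refine h.congr_deriv ?_
  unfold kk1
  ring

lemma kk1_deriv (hK : StmtKBf) (t : ℝ) {X : ℝ} (hX : 0 < X) :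
    HasDerivAt (kk1 t) ((1 - (1 / 4 + t ^ 2) / X ^ 2) * kk0 t X) X := by
  have hs : 0 < √X := Real.sqrt_pos.2 hX
  have hsq : √X ^ 2 = X := Real.sq_sqrt hX.le
  have h1 := Real.hasDerivAt_sqrt hX.ne'
  have h2 := ((hK t).1 X hX).div (h1.const_mul 2) (by positivity)
  have h3 := h1.mul ((hK t).2.1 X hX)
  refine (h2.add h3).congr_deriv ?_
  unfold kk0
  generalize √X = s at *
  subst hsq
  field_simp
  ring

lemma kk_bound (hK : StmtKBf) (t : ℝ) {X : ℝ} (hX : 1 ≤ X) :
    |kk0 t X| ≤ 4 * Real.exp (-(X / 2)) ∧ |kk1 t X| ≤ 4 * Real.exp (-(X / 2)) := by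
  have hX0 : 0 < X := by linarith
  have hs : 1 ≤ √X := Real.one_le_sqrt.2 hX
  have hsq : √X ^ 2 = X := Real.sq_sqrt hX0.le
  have hpi : √(Real.pi / 2) ≤ 2 := by
    rw [Real.sqrt_le_left (by norm_num)]
    have := Real.pi_lt_four
    linarith
  have h0 : √(Real.pi / (2 * X)) = √(Real.pi / 2) / √X := by
    rw [← Real.sqrt_div (by positivity)]
    congr 1
    field_simp
  have h1 := (hK t).2.2.1 X hX0
  have h2 := (hK t).2.2.2.1 X hX0
  have h3 : Real.exp (-X) ≤ Real.exp (-(X / 2)) := Real.exp_le_exp.2 (by linarith)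
  have he := Real.exp_pos (-(X / 2))
  have h4 : √X * |KB t X| ≤ 2 * Real.exp (-(X / 2)) := by
    calc √X * |KB t X| ≤ √X * (√(Real.pi / (2 * X)) * Real.exp (-X)) := by gcongr
      _ = √(Real.pi / 2) * Real.exp (-X) := by rw [h0]; field_simp
      _ ≤ 2 * Real.exp (-(X / 2)) := by gcongr
  constructor
  · unfold kk0
    rw [abs_mul, abs_of_nonneg (Real.sqrt_nonneg X)]
    linarith
  · unfold kk1
    have h5 : |KB t X / (2 * √X)| ≤ Real.exp (-(X / 2)) := by
      rw [abs_div, abs_of_pos (show 0 < 2 * √X by positivity), div_le_iff₀ (by positivity)]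
      have h6 : |KB t X| ≤ √X * |KB t X| := le_mul_of_one_le_left (abs_nonneg _) hs
      nlinarith
    have h7 : |√X * KB1 t X| ≤ 2 * Real.exp (-(X / 2)) := by
      rw [abs_mul, abs_of_nonneg (Real.sqrt_nonneg X)]
      calc √X * |KB1 t X| ≤ √X * (2 / X * Real.exp (-(X / 2))) := by gcongr
        _ = 2 / √X * Real.exp (-(X / 2)) := by
            rw [← hsq]
            generalize √X = s at *
            have : 0 < s := by linarith
            have e : √(s ^ 2) = s := Real.sqrt_sq this.le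
            field_simp
            rw [e]
        _ ≤ 2 * Real.exp (-(X / 2)) := by
            have : 2 / √X ≤ 2 := div_le_self (by norm_num) hs
            gcongr
    calc _ ≤ |KB t X / (2 * √X)| + |√X * KB1 t X| := abs_add_le _ _
      _ ≤ _ := by linarith

lemma exp_lim : Tendsto (fun X : ℝ => 4 * Real.exp (-(X / 2))) atTop (𝓝 0) := by
  have h1 : Tendsto (fun X : ℝ => X / 2) atTop atTop := tendsto_id.atTop_div_const (by norm_num)
  have h2 := (Real.tendsto_exp_neg_atTop_nhds_zero.comp h1).const_mul 4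
  simpa using h2

lemma kk0_lim (hK : StmtKBf) (t : ℝ) : Tendsto (kk0 t) atTop (𝓝 0) := by
  refine squeeze_zero_norm' ?_ exp_lim
  filter_upwards [eventually_ge_atTop 1] with x hx
  exact (kk_bound hK t hx).1

lemma kk1_lim (hK : StmtKBf) (t : ℝ) : Tendsto (kk1 t) atTop (𝓝 0) := by
  refine squeeze_zero_norm' ?_ exp_lim
  filter_upwards [eventually_ge_atTop 1] with x hx
  exact (kk_bound hK t hx).2

/-- the moments -/
def II (f : ℍ → ℝ) (w : ℍ) (k : ℕ) (X : ℝ) : ℝ :=
  ∫ z : ℍ, f z * (cc w z ^ k * Real.exp (-(X * cc w z)))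

lemma f_cont {f : ℍ → ℝ} (hf : ContDiffOn ℝ ∞ (ext f) H0) : Continuous f := by
  have h3 : Continuous (fun z : ℍ => ext f (z : ℂ)) :=
    hf.continuousOn.comp_continuous UpperHalfPlane.continuous_coe (fun z => z.im_pos)
  have h4 : (fun z : ℍ => ext f (z : ℂ)) = f := funext (Half.ext_coe f)
  rwa [h4] at h3

lemma ce_cont (w : ℍ) (k : ℕ) (X : ℝ) :
    Continuous (fun z : ℍ => cc w z ^ k * Real.exp (-(X * cc w z))) :=
  ((cc_cont w).pow k).mul ((cc_cont w).const_mul X).neg.rexp

lemma int_f {f : ℍ → ℝ} (hc : Continuous f) {C : ℝ} (hC : ∀ z, |f z| ≤ C) (w : ℍ) (k : ℕ) {X : ℝ}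
    (hX : 0 < X) : Integrable (fun z : ℍ => f z * (cc w z ^ k * Real.exp (-(X * cc w z)))) :=
  (int_pow w k hX).bdd_mul (c := C) hc.aestronglyMeasurable (Eventually.of_forall hC)

lemma II_deriv {f : ℍ → ℝ} (hc : Continuous f) {C : ℝ} (hC : ∀ z, |f z| ≤ C) (w : ℍ) (k : ℕ) {X : ℝ}
    (hX : 0 < X) : HasDerivAt (II f w k) (-II f w (k + 1) X) X := by
  have hC0 : 0 ≤ C := (abs_nonneg _).trans (hC w)
  have key := hasDerivAt_integral_of_dominated_loc_of_deriv_le (μ := (volume : Measure ℍ))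
    (F := fun X z => f z * (cc w z ^ k * Real.exp (-(X * cc w z))))
    (F' := fun X z => -(f z * (cc w z ^ (k + 1) * Real.exp (-(X * cc w z)))))
    (x₀ := X) (s := Ioi (X / 2))
    (bound := fun z => C * (cc w z ^ (k + 1) * Real.exp (-(X / 2 * cc w z))))
    (isOpen_Ioi.mem_nhds (show X / 2 < X by linarith))
    (Eventually.of_forall fun x => (hc.mul (ce_cont w k x)).aestronglyMeasurable)
    (int_f hc hC w k hX)
    ((hc.mul (ce_cont w (k + 1) X)).neg.aestronglyMeasurable)
    (Eventually.of_forall fun z x hx => by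
      have hx' : X / 2 < x := hx
      have h1 := one_le_cc w z
      rw [norm_neg, norm_mul, Real.norm_eq_abs, Real.norm_of_nonneg (by positivity)]
      have h2 : Real.exp (-(x * cc w z)) ≤ Real.exp (-(X / 2 * cc w z)) := by
        apply Real.exp_le_exp.2
        nlinarith
      have h3 := hC z
      gcongr)
    ((int_pow w (k + 1) (by linarith)).const_mul C)
    (Eventually.of_forall fun z x hx => by
      have h1 : HasDerivAt (fun x : ℝ => Real.exp (-(x * cc w z)))
          (Real.exp (-(x * cc w z)) * (-(1 * cc w z))) x :=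
        (((hasDerivAt_id x).mul_const (cc w z)).neg).exp
      refine ((h1.const_mul (cc w z ^ k)).const_mul (f z)).congr_deriv ?_
      ring)
  refine key.2.congr_deriv ?_
  rw [integral_neg]
  rfl

lemma abs_int_le {g b : ℍ → ℝ} (hb : Integrable b) (h : ∀ z, |g z| ≤ b z) :
    |∫ z, g z| ≤ ∫ z, b z := by
  rw [← Real.norm_eq_abs]
  exact norm_integral_le_of_norm_le hb (Eventually.of_forall h)

lemma II_bound {f : ℍ → ℝ} {C : ℝ} (hC : ∀ z, |f z| ≤ C) (w : ℍ) {X : ℝ}
    (hX : 1 ≤ X) : X * |II f w 0 X| ≤ 8 * Real.pi * C ∧ X * |II f w 1 X| ≤ 8 * Real.pi * C := by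
  have hC0 : 0 ≤ C := (abs_nonneg _).trans (hC w)
  have hX0 : 0 < X := by linarith
  have hexp : ∀ Y : ℝ, 0 < Y → Real.exp (-Y) ≤ 1 := fun Y hY => by
    rw [Real.exp_le_one_iff]
    linarith
  have hpi := Real.pi_pos
  constructor
  · have h1 : |II f w 0 X| ≤ C * (2 * Real.pi * Real.exp (-X) / X) := by
      unfold II
      rw [← mass' w hX0, ← integral_const_mul]
      refine abs_int_le ((int_exp w hX0).const_mul C) fun z => ?_
      have := hC z
      rw [abs_mul, pow_zero, one_mul, abs_of_nonneg (Real.exp_pos _).le]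
      gcongr
    calc X * |II f w 0 X| ≤ X * (C * (2 * Real.pi * Real.exp (-X) / X)) := by gcongr
      _ = 2 * Real.pi * C * Real.exp (-X) := by field_simp
      _ ≤ 2 * Real.pi * C * 1 := by
          have := hexp X hX0
          gcongr
      _ ≤ _ := by nlinarith [mul_nonneg hpi.le hC0]
  · have h1 : |II f w 1 X| ≤ (C * (2 / X)) * (2 * Real.pi * Real.exp (-(X / 2)) / (X / 2)) := by
      unfold II
      rw [← mass' w (show 0 < X / 2 by linarith), ← integral_const_mul]
      refine abs_int_le ((int_exp w (show 0 < X / 2 by linarith)).const_mul _) fun z => ?_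
      have h2 := hC z
      have h3 := one_le_cc w z
      rw [abs_mul, pow_one, mul_assoc, abs_of_nonneg (show 0 ≤ cc w z * Real.exp (-(X * cc w z)) by
        positivity)]
      have h4 : cc w z * Real.exp (-(X * cc w z)) ≤ 2 / X * Real.exp (-(X / 2 * cc w z)) := by
        have h5 : X / 2 * cc w z ≤ Real.exp (X / 2 * cc w z) :=
          (Real.add_one_le_exp _).trans' (by linarith)
        have h6 : cc w z ≤ 2 / X * Real.exp (X / 2 * cc w z) := by
          rw [div_mul_eq_mul_div, le_div_iff₀ hX0]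
          linarith
        calc cc w z * Real.exp (-(X * cc w z))
            ≤ (2 / X * Real.exp (X / 2 * cc w z)) * Real.exp (-(X * cc w z)) :=
              mul_le_mul_of_nonneg_right h6 (Real.exp_pos _).le
          _ = _ := by
              rw [mul_assoc, ← Real.exp_add]
              congr 2
              ring
      exact mul_le_mul h2 h4 (by positivity) hC0
    calc X * |II f w 1 X| ≤ X * ((C * (2 / X)) * (2 * Real.pi * Real.exp (-(X / 2)) / (X / 2))) := by
          gcongr
      _ = 8 * Real.pi * C / X * Real.exp (-(X / 2)) := by field_simp; ring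
      _ ≤ 8 * Real.pi * C / 1 * 1 := by
          have := hexp (X / 2) (by linarith)
          gcongr
      _ = _ := by ring

/-- the asymptotics -/
lemma asym {f : ℍ → ℝ} (hc : Continuous f) {C : ℝ} (hC : ∀ z, |f z| ≤ C) (w : ℍ) :
    Tendsto (fun X => Real.exp X * (X * II f w 0 X)) atTop (𝓝 (2 * Real.pi * f w)) := by
  have hC0 : 0 ≤ C := (abs_nonneg _).trans (hC w)
  have hpi := Real.pi_pos
  rw [Metric.tendsto_atTop]
  intro ε hε
  obtain ⟨δ, hδ, hδf⟩ := Metric.continuous_iff.1 hc w (ε / (4 * Real.pi)) (by positivity)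
  set η : ℝ := Real.cosh δ - 1 with hη
  have hη0 : 0 < η := by
    have := Real.one_lt_cosh.2 hδ.ne'
    linarith
  have hlim : Tendsto (fun X : ℝ => 8 * Real.pi * C * Real.exp (-(X * (η / 2)))) atTop (𝓝 0) := by
    have h1 : Tendsto (fun X : ℝ => X * (η / 2)) atTop atTop :=
      tendsto_id.atTop_mul_const (by positivity)
    have h2 := (Real.tendsto_exp_neg_atTop_nhds_zero.comp h1).const_mul (8 * Real.pi * C)
    simpa using h2
  obtain ⟨N, hN⟩ := eventually_atTop.1 (hlim.eventually (gt_mem_nhds (show (0 : ℝ) < ε / 2 by positivity)))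
  refine ⟨max N 1, fun X hX => ?_⟩
  have hXN := hN X ((le_max_left _ _).trans hX)
  have hX1 : 1 ≤ X := (le_max_right _ _).trans hX
  have hX0 : 0 < X := by linarith
  have e1 : Real.exp X * (X * II f w 0 X) - 2 * Real.pi * f w =
      Real.exp X * X * ∫ z : ℍ, (f z - f w) * Real.exp (-(X * cc w z)) := by
    have h1 : ∫ z : ℍ, (f z - f w) * Real.exp (-(X * cc w z)) =
        II f w 0 X - f w * (2 * Real.pi * Real.exp (-X) / X) := by
      rw [← mass' w hX0, ← integral_const_mul]
      unfold II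
      rw [← integral_sub (int_f hc hC w 0 hX0) ((int_exp w hX0).const_mul _)]
      refine integral_congr_ae (Eventually.of_forall fun z => ?_)
      simp only [pow_zero, one_mul]
      ring
    rw [h1, Real.exp_neg]
    have := Real.exp_pos X
    field_simp
  have h2 : |∫ z : ℍ, (f z - f w) * Real.exp (-(X * cc w z))| ≤
      (ε / (4 * Real.pi)) * (2 * Real.pi * Real.exp (-X) / X) +
      (2 * C * (Real.exp (-(X * (η / 2))) * Real.exp (-(X / 2)))) *
        (2 * Real.pi * Real.exp (-(X / 2)) / (X / 2)) := by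
    rw [← mass' w hX0, ← mass' w (show 0 < X / 2 by linarith), ← integral_const_mul,
      ← integral_const_mul, ← integral_add ((int_exp w hX0).const_mul _)
        ((int_exp w (show 0 < X / 2 by linarith)).const_mul _)]
    refine abs_int_le (((int_exp w hX0).const_mul _).add
        ((int_exp w (show 0 < X / 2 by linarith)).const_mul _)) fun z => ?_
    rw [abs_mul, abs_of_nonneg (Real.exp_pos _).le]
    by_cases hz : dist z w < δ
    · have h3 : |f z - f w| ≤ ε / (4 * Real.pi) := (hδf z hz).le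
      have h4 : |f z - f w| * Real.exp (-(X * cc w z)) ≤
          ε / (4 * Real.pi) * Real.exp (-(X * cc w z)) := by gcongr
      have h5 : 0 ≤ (2 * C * (Real.exp (-(X * (η / 2))) * Real.exp (-(X / 2)))) *
          Real.exp (-(X / 2 * cc w z)) := by positivity
      linarith
    · have h3 : |f z - f w| ≤ 2 * C := by
        have := abs_sub (f z) (f w)
        have := hC z
        have := hC w
        linarith
      have h4 : 1 + η ≤ cc w z := by
        rw [← cosh_eq, hη]
        have : Real.cosh δ ≤ Real.cosh (dist z w) := by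
          rw [Real.cosh_le_cosh, abs_of_pos hδ, abs_of_nonneg dist_nonneg]
          exact not_lt.1 hz
        linarith
      have h5 : Real.exp (-(X * cc w z)) ≤ (Real.exp (-(X * (η / 2))) * Real.exp (-(X / 2))) *
          Real.exp (-(X / 2 * cc w z)) := by
        rw [← Real.exp_add, ← Real.exp_add]
        apply Real.exp_le_exp.2
        nlinarith
      have h6 : 0 ≤ ε / (4 * Real.pi) * Real.exp (-(X * cc w z)) := by positivity
      calc |f z - f w| * Real.exp (-(X * cc w z)) ≤ 2 * C *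
            ((Real.exp (-(X * (η / 2))) * Real.exp (-(X / 2))) *
          Real.exp (-(X / 2 * cc w z))) := by gcongr
        _ ≤ _ := by linarith
  have h7 : Real.exp X * X * ((ε / (4 * Real.pi)) * (2 * Real.pi * Real.exp (-X) / X) +
      (2 * C * (Real.exp (-(X * (η / 2))) * Real.exp (-(X / 2)))) *
        (2 * Real.pi * Real.exp (-(X / 2)) / (X / 2))) = ε / 2 +
      8 * Real.pi * C * Real.exp (-(X * (η / 2))) := by
    have h8 : Real.exp (-X) = Real.exp (-(X / 2)) * Real.exp (-(X / 2)) := by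
      rw [← Real.exp_add]
      congr 1
      ring
    have h9 : Real.exp X * (Real.exp (-(X / 2)) * Real.exp (-(X / 2))) = 1 := by
      rw [← h8, ← Real.exp_add, add_neg_cancel, Real.exp_zero]
    have h10 : Real.exp X * X * ((ε / (4 * Real.pi)) * (2 * Real.pi * Real.exp (-X) / X) +
      (2 * C * (Real.exp (-(X * (η / 2))) * Real.exp (-(X / 2)))) *
        (2 * Real.pi * Real.exp (-(X / 2)) / (X / 2))) = (ε / 2 +
      8 * Real.pi * C * Real.exp (-(X * (η / 2)))) *
      (Real.exp X * (Real.exp (-(X / 2)) * Real.exp (-(X / 2)))) := by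
      rw [h8]
      field_simp
      ring
    rw [h10, h9, mul_one]
  rw [Real.dist_eq, e1, abs_mul, abs_of_pos (show 0 < Real.exp X * X by positivity)]
  calc Real.exp X * X * |∫ z : ℍ, (f z - f w) * Real.exp (-(X * cc w z))|
      ≤ Real.exp X * X * ((ε / (4 * Real.pi)) * (2 * Real.pi * Real.exp (-X) / X) +
      (2 * C * (Real.exp (-(X * (η / 2))) * Real.exp (-(X / 2)))) *
        (2 * Real.pi * Real.exp (-(X / 2)) / (X / 2))) := by gcongr
    _ < ε := by
      rw [h7]
      linarith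

/-- a cutoff function on the line -/
lemma exists_bump : ∃ φ : ℝ → ℝ, ContDiff ℝ ∞ φ ∧ φ 0 = 1 ∧ (∀ v, 2 ≤ v → φ v = 0) ∧
    ∃ M : ℝ, ∀ v, |φ v| ≤ M ∧ |deriv φ v| ≤ M ∧ |deriv (deriv φ) v| ≤ M := by
  let b : ContDiffBump (0 : ℝ) := ⟨1, 2, by norm_num, by norm_num⟩
  have h1 : ContDiff ℝ ∞ (b : ℝ → ℝ) := b.contDiff
  have h1' : ContDiff ℝ ∞ (deriv b) := (contDiff_infty_iff_deriv.1 h1).2
  have h1'' : ContDiff ℝ ∞ (deriv (deriv b)) := (contDiff_infty_iff_deriv.1 h1').2
  have hc : HasCompactSupport (b : ℝ → ℝ) := b.hasCompactSupport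
  obtain ⟨M0, hM0⟩ := hc.exists_bound_of_continuous h1.continuous
  obtain ⟨M1, hM1⟩ := hc.deriv.exists_bound_of_continuous h1'.continuous
  obtain ⟨M2, hM2⟩ := hc.deriv.deriv.exists_bound_of_continuous h1''.continuous
  refine ⟨b, h1, b.one_of_mem_closedBall (by simp [b]), fun v hv => ?_,
    max M0 (max M1 M2), fun v => ⟨?_, ?_, ?_⟩⟩
  · refine b.zero_of_le_dist ?_
    rw [dist_zero_right, Real.norm_eq_abs]
    exact hv.trans (le_abs_self v)
  · exact (hM0 v).trans (le_max_left _ _)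
  · exact (hM1 v).trans ((le_max_left _ _).trans (le_max_right _ _))
  · exact (hM2 v).trans ((le_max_right _ _).trans (le_max_right _ _))

/-- the test function and its derivatives -/
lemma hs_deriv {φ : ℝ → ℝ} (hφ : ContDiff ℝ ∞ φ) (X s : ℝ) :
    ContDiff ℝ ∞ (fun v => Real.exp (-(X * v)) * φ (s * v)) ∧
    (∀ v, deriv (fun v => Real.exp (-(X * v)) * φ (s * v)) v =
      Real.exp (-(X * v)) * (s * deriv φ (s * v) - X * φ (s * v))) ∧
    (∀ v, deriv (deriv (fun v => Real.exp (-(X * v)) * φ (s * v))) v =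
      Real.exp (-(X * v)) * (s ^ 2 * deriv (deriv φ) (s * v) - 2 * X * (s * deriv φ (s * v)) +
        X ^ 2 * φ (s * v))) := by
  have hφ' : ContDiff ℝ ∞ (deriv φ) := (contDiff_infty_iff_deriv.1 hφ).2
  have d0 : ∀ v, HasDerivAt φ (deriv φ v) v := fun v =>
    (hφ.differentiable (by simp)).differentiableAt.hasDerivAt
  have d1 : ∀ v, HasDerivAt (deriv φ) (deriv (deriv φ) v) v := fun v =>
    (hφ'.differentiable (by simp)).differentiableAt.hasDerivAt
  have hl : ∀ v, HasDerivAt (fun v : ℝ => s * v) s v := fun v => by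
    simpa using (hasDerivAt_id v).const_mul s
  have he : ∀ v, HasDerivAt (fun v : ℝ => Real.exp (-(X * v))) (Real.exp (-(X * v)) * (-X)) v :=
    fun v => by simpa using (((hasDerivAt_id v).const_mul X).neg).exp
  have c0 : ∀ v, HasDerivAt (fun v => φ (s * v)) (deriv φ (s * v) * s) v := fun v =>
    (d0 (s * v)).comp v (hl v)
  have c1 : ∀ v, HasDerivAt (fun v => deriv φ (s * v)) (deriv (deriv φ) (s * v) * s) v := fun v =>
    (d1 (s * v)).comp v (hl v)
  have e1 : ∀ v, deriv (fun v => Real.exp (-(X * v)) * φ (s * v)) v =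
      Real.exp (-(X * v)) * (s * deriv φ (s * v) - X * φ (s * v)) := by
    intro v
    rw [((he v).fun_mul (c0 v)).deriv]
    ring
  refine ⟨?_, e1, ?_⟩
  · exact (Real.contDiff_exp.comp (contDiff_const.mul contDiff_id).neg).mul
      (hφ.comp (contDiff_const.mul contDiff_id))
  · intro v
    have e2 : deriv (fun v => Real.exp (-(X * v)) * φ (s * v)) = fun v =>
      Real.exp (-(X * v)) * (s * deriv φ (s * v) - X * φ (s * v)) := funext e1
    rw [e2, ((he v).fun_mul (((c1 v).const_mul s).fun_sub ((c0 v).const_mul X))).deriv]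
    ring

lemma lim_aux {f : ℍ → ℝ} (hc : Continuous f) {C : ℝ} (hC : ∀ z, |f z| ≤ C) (w : ℍ)
    {X : ℝ} (hX : 0 < X) {a : ℕ → ℝ → ℝ} (ha : ∀ n, Continuous (a n)) {A : ℝ} {k : ℕ}
    (hb : ∀ n v, 1 ≤ v → |a n v| ≤ A * v ^ k) {b : ℝ → ℝ}
    (hl : ∀ v, Tendsto (fun n => a n v) atTop (𝓝 (b v))) :
    Tendsto (fun n => ∫ z : ℍ, f z * (Real.exp (-(X * cc w z)) * a n (cc w z))) atTop
      (𝓝 (∫ z : ℍ, f z * (Real.exp (-(X * cc w z)) * b (cc w z)))) := by
  have hC0 : 0 ≤ C := (abs_nonneg _).trans (hC w)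
  refine tendsto_integral_of_dominated_convergence
    (fun z : ℍ => C * (A * (cc w z ^ k * Real.exp (-(X * cc w z))))) ?_ ?_ ?_ ?_
  · intro n
    exact (hc.mul (((cc_cont w).const_mul X).neg.rexp.mul ((ha n).comp (cc_cont w)))).aestronglyMeasurable
  · exact ((int_pow w k hX).const_mul A).const_mul C
  · intro n
    refine Eventually.of_forall fun z => ?_
    have h1 := hb n (cc w z) (one_le_cc w z)
    have h2 := hC z
    rw [norm_mul, norm_mul, Real.norm_eq_abs, Real.norm_eq_abs, Real.norm_eq_abs,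
      abs_of_nonneg (Real.exp_pos _).le]
    calc |f z| * (Real.exp (-(X * cc w z)) * |a n (cc w z)|)
        ≤ C * (Real.exp (-(X * cc w z)) * (A * cc w z ^ k)) := by gcongr
      _ = _ := by ring
  · refine Eventually.of_forall fun z => ?_
    exact ((hl (cc w z)).const_mul _).const_mul _

/-- the differential equation for the moments -/
lemma moment_eq {f : ℍ → ℝ} (hf : ContDiffOn ℝ ∞ (ext f) H0) {C : ℝ} (hC : ∀ z, |f z| ≤ C) {lam : ℝ}
    (he : ∀ z : ℍ, -z.im ^ 2 * Laplacian.laplacian (ext f) (z : ℂ) = lam * f z) (w : ℍ)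
    {X : ℝ} (hX : 0 < X) :
    -lam * II f w 0 X = X ^ 2 * (II f w 2 X - II f w 0 X) - 2 * X * II f w 1 X := by
  have hc := f_cont hf
  obtain ⟨φ, hφ, hφ0, hφ2, M, hM⟩ := exists_bump
  have hφ' : ContDiff ℝ ∞ (deriv φ) := (contDiff_infty_iff_deriv.1 hφ).2
  have hφ'' : ContDiff ℝ ∞ (deriv (deriv φ)) := (contDiff_infty_iff_deriv.1 hφ').2
  have hM0 : 0 ≤ M := (abs_nonneg _).trans (hM 0).1
  set s : ℕ → ℝ := fun n => 1 / ((n : ℝ) + 1) with hs
  have hs0 : ∀ n, 0 < s n := fun n => by simp only [hs]; positivity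
  have hs1 : ∀ n, s n ≤ 1 := fun n => by
    simp only [hs]
    rw [div_le_one (by positivity)]
    have : (0 : ℝ) ≤ n := Nat.cast_nonneg n
    linarith
  have hsl : Tendsto s atTop (𝓝 0) := tendsto_one_div_add_atTop_nhds_zero_nat
  have hsv : ∀ v : ℝ, Tendsto (fun n => s n * v) atTop (𝓝 0) := fun v => by
    simpa using hsl.mul_const v
  have l0 : ∀ v : ℝ, Tendsto (fun n => φ (s n * v)) atTop (𝓝 1) := fun v => by
    have := (hφ.continuous.tendsto 0).comp (hsv v)
    rwa [hφ0] at this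
  have l1 : ∀ v : ℝ, Tendsto (fun n => s n * deriv φ (s n * v)) atTop (𝓝 0) := fun v => by
    have := hsl.mul ((hφ'.continuous.tendsto 0).comp (hsv v))
    rwa [zero_mul] at this
  have l2 : ∀ v : ℝ, Tendsto (fun n => s n ^ 2 * deriv (deriv φ) (s n * v)) atTop (𝓝 0) :=
    fun v => by
      have := (hsl.pow 2).mul ((hφ''.continuous.tendsto 0).comp (hsv v))
      simpa using this
  -- the equations
  have key : ∀ n, -lam * ∫ z : ℍ, f z * (Real.exp (-(X * cc w z)) * φ (s n * cc w z)) =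
      ∫ z : ℍ, f z * (Real.exp (-(X * cc w z)) *
        ((cc w z ^ 2 - 1) * (s n ^ 2 * deriv (deriv φ) (s n * cc w z) -
          2 * X * (s n * deriv φ (s n * cc w z)) + X ^ 2 * φ (s n * cc w z)) +
          2 * cc w z * (s n * deriv φ (s n * cc w z) - X * φ (s n * cc w z)))) := by
    intro n
    obtain ⟨g1, g2, g3⟩ := hs_deriv hφ X (s n)
    have hR : ∀ v, 2 / s n ≤ v → (fun v => Real.exp (-(X * v)) * φ (s n * v)) v = 0 := by
      intro v hv
      simp only
      rw [hφ2 (s n * v) (by rw [div_le_iff₀ (hs0 n)] at hv; linarith), mul_zero]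
    rw [green hf he w g1 hR]
    refine integral_congr_ae (Eventually.of_forall fun z => ?_)
    simp only [g2, g3]
    ring
  have t1 := (lim_aux hc hC w hX (a := fun n v => φ (s n * v)) (b := fun _ => 1) (A := M) (k := 0)
    (fun n => hφ.continuous.comp (continuous_const.mul continuous_id))
    (fun n v _ => by simpa using (hM (s n * v)).1) l0).const_mul (-lam)
  have t2 := lim_aux hc hC w hX (a := fun n v =>
      (v ^ 2 - 1) * (s n ^ 2 * deriv (deriv φ) (s n * v) -
          2 * X * (s n * deriv φ (s n * v)) + X ^ 2 * φ (s n * v)) +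
          2 * v * (s n * deriv φ (s n * v) - X * φ (s n * v)))
    (b := fun v => (v ^ 2 - 1) * (0 - 2 * X * 0 + X ^ 2 * 1) + 2 * v * (0 - X * 1))
    (A := M * (1 + 2 * X + X ^ 2) + 2 * M * (1 + X)) (k := 2)
    (fun n => by
      have := hφ.continuous
      have := hφ'.continuous
      have := hφ''.continuous
      fun_prop)
    (fun n v hv => by
      have a0 := (hM (s n * v)).1
      have a1 := (hM (s n * v)).2.1
      have a2 := (hM (s n * v)).2.2
      have b1 : |s n * deriv φ (s n * v)| ≤ M := by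
        rw [abs_mul, abs_of_pos (hs0 n)]
        calc s n * |deriv φ (s n * v)| ≤ 1 * M := by
              gcongr
              exact hs1 n
          _ = M := one_mul M
      have b2 : |s n ^ 2 * deriv (deriv φ) (s n * v)| ≤ M := by
        rw [abs_mul, abs_of_pos (pow_pos (hs0 n) 2)]
        calc s n ^ 2 * |deriv (deriv φ) (s n * v)| ≤ 1 * M := by
              gcongr
              exact pow_le_one₀ (hs0 n).le (hs1 n)
          _ = M := one_mul M
      have b3 : |s n ^ 2 * deriv (deriv φ) (s n * v) -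
          2 * X * (s n * deriv φ (s n * v)) + X ^ 2 * φ (s n * v)| ≤ M * (1 + 2 * X + X ^ 2) := by
        calc _ ≤ |s n ^ 2 * deriv (deriv φ) (s n * v)| +
              |2 * X * (s n * deriv φ (s n * v))| + |X ^ 2 * φ (s n * v)| :=
              (abs_add_le _ _).trans (add_le_add (abs_sub _ _) le_rfl)
          _ ≤ M + 2 * X * M + X ^ 2 * M := by
              rw [abs_mul (2 * X), abs_mul (X ^ 2), abs_of_pos (show 0 < 2 * X by positivity),
                abs_of_pos (show 0 < X ^ 2 by positivity)]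
              gcongr
          _ = _ := by ring
      have b4 : |s n * deriv φ (s n * v) - X * φ (s n * v)| ≤ M * (1 + X) := by
        calc _ ≤ |s n * deriv φ (s n * v)| + |X * φ (s n * v)| := abs_sub _ _
          _ ≤ M + X * M := by
              rw [abs_mul X, abs_of_pos hX]
              gcongr
          _ = _ := by ring
      have c1 : |v ^ 2 - 1| ≤ v ^ 2 := by
        rw [abs_le]
        constructor <;> nlinarith
      have c2 : |2 * v| ≤ 2 * v ^ 2 := by
        rw [abs_of_pos (by linarith)]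
        nlinarith
      calc _ ≤ |(v ^ 2 - 1) * (s n ^ 2 * deriv (deriv φ) (s n * v) -
          2 * X * (s n * deriv φ (s n * v)) + X ^ 2 * φ (s n * v))| +
          |2 * v * (s n * deriv φ (s n * v) - X * φ (s n * v))| := abs_add_le _ _
        _ ≤ v ^ 2 * (M * (1 + 2 * X + X ^ 2)) + 2 * v ^ 2 * (M * (1 + X)) := by
            rw [abs_mul, abs_mul (2 * v)]
            gcongr
        _ = _ := by ring)
    (fun v => ((((l2 v).sub ((l1 v).const_mul (2 * X))).add ((l0 v).const_mul (X ^ 2))).const_mul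
      (v ^ 2 - 1)).add (((l1 v).sub ((l0 v).const_mul X)).const_mul (2 * v)))
  have t3 := tendsto_nhds_unique t1 (t2.congr fun n => (key n).symm)
  have e0 : ∫ z : ℍ, f z * (Real.exp (-(X * cc w z)) * 1) = II f w 0 X := by
    unfold II
    refine integral_congr_ae (Eventually.of_forall fun z => ?_)
    simp only
    ring
  have e1 : ∫ z : ℍ, f z * (Real.exp (-(X * cc w z)) *
      ((cc w z ^ 2 - 1) * (0 - 2 * X * 0 + X ^ 2 * 1) + 2 * cc w z * (0 - X * 1))) =
      X ^ 2 * (II f w 2 X - II f w 0 X) - 2 * X * II f w 1 X := by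
    have i2 := (int_f hc hC w 2 hX).const_mul (X ^ 2)
    have i0 := (int_f hc hC w 0 hX).const_mul (X ^ 2)
    have i1 := (int_f hc hC w 1 hX).const_mul (2 * X)
    have i3 : Integrable (fun z : ℍ => X ^ 2 * (f z * (cc w z ^ 2 * Real.exp (-(X * cc w z)))) -
        X ^ 2 * (f z * (cc w z ^ 0 * Real.exp (-(X * cc w z))))) := i2.sub i0
    have e2 : ∫ z : ℍ, f z * (Real.exp (-(X * cc w z)) *
        ((cc w z ^ 2 - 1) * (0 - 2 * X * 0 + X ^ 2 * 1) + 2 * cc w z * (0 - X * 1))) =
        ∫ z : ℍ, ((X ^ 2 * (f z * (cc w z ^ 2 * Real.exp (-(X * cc w z)))) -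
          X ^ 2 * (f z * (cc w z ^ 0 * Real.exp (-(X * cc w z))))) -
          2 * X * (f z * (cc w z ^ 1 * Real.exp (-(X * cc w z))))) := by
      refine integral_congr_ae (Eventually.of_forall fun z => ?_)
      simp only
      ring
    rw [e2, integral_sub i3 i1, integral_sub i2 i0, integral_const_mul, integral_const_mul,
      integral_const_mul]
    unfold II
    ring
  rw [e0, e1] at t3
  exact t3

end

end Pool.Agent.A54.Av.SelM

namespace Pool.Agent.A54.Av

open MeasureTheory Filter Topology Set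
open scoped ContDiff ComplexConjugate UpperHalfPlane MatrixGroups ENNReal NNReal
open Pool.Agent.A54.Half (H0 qq ff hh)
open SelM

/-- the point pair invariant `exp(-X cosh d)` -/
theorem stmtSel (hKBf : StmtKBf) : StmtSel := by
  intro f t hf hb he X hX w
  obtain ⟨C, hC⟩ := hb
  have hc := f_cont hf
  have hpi := Real.pi_pos
  refine ⟨?_, ?_⟩
  · have h1 := int_exp w hX
    refine h1.congr (Eventually.of_forall fun z => ?_)
    simp only [cosh_eq]
  have hI : ∫ z : ℍ, f z * Real.exp (-(X * Real.cosh (dist z w))) = II f w 0 X := by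
    unfold II
    refine integral_congr_ae (Eventually.of_forall fun z => ?_)
    simp only [cosh_eq, pow_zero, one_mul]
  rw [hI]
  set κ : ℝ := 2 * √(2 * Real.pi) * f w with hκ
  have hJ : ∀ x : ℝ, 0 < x → HasDerivAt (fun x => x * II f w 0 x) (II f w 0 x - x * II f w 1 x) x := by
    intro x hx
    refine ((hasDerivAt_id x).fun_mul (II_deriv hc hC w 0 hx)).congr_deriv ?_
    simp only [id]
    ring
  have hJ1 : ∀ x : ℝ, 0 < x → HasDerivAt (fun x => II f w 0 x - x * II f w 1 x)
      ((1 - (1 / 4 + t ^ 2) / x ^ 2) * (x * II f w 0 x)) x := by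
    intro x hx
    refine ((II_deriv hc hC w 0 hx).fun_sub
      ((hasDerivAt_id x).fun_mul (II_deriv hc hC w 1 hx))).congr_deriv ?_
    have h1 := moment_eq hf hC he w hx
    have h2 : x ^ 2 * II f w 2 x = (x ^ 2 - (1 / 4 + t ^ 2)) * II f w 0 x + 2 * x * II f w 1 x := by
      linarith
    have h3 : x * ((1 - (1 / 4 + t ^ 2) / x ^ 2) * (x * II f w 0 x)) =
        x * (-II f w 1 x - (1 * II f w 1 x + x * -II f w 2 x)) := by
      have : x * ((1 - (1 / 4 + t ^ 2) / x ^ 2) * (x * II f w 0 x)) =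
          (x ^ 2 - (1 / 4 + t ^ 2)) * II f w 0 x := by
        field_simp
      rw [this]
      linarith
    exact (mul_left_cancel₀ hx.ne' h3).symm
  have hBJ : ∀ x : ℝ, 1 ≤ x → |x * II f w 0 x| ≤ 8 * Real.pi * C := by
    intro x hx
    rw [abs_mul, abs_of_pos (by linarith)]
    exact (II_bound hC w hx).1
  have hBJ1 : ∀ x : ℝ, 1 ≤ x → |II f w 0 x - x * II f w 1 x| ≤ 16 * Real.pi * C := by
    intro x hx
    have h1 := (II_bound hC w hx).1
    have h2 := (II_bound hC w hx).2
    have h3 : |II f w 0 x| ≤ x * |II f w 0 x| := le_mul_of_one_le_left (abs_nonneg _) hx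
    calc |II f w 0 x - x * II f w 1 x| ≤ |II f w 0 x| + |x * II f w 1 x| := abs_sub _ _
      _ ≤ _ := by
        rw [abs_mul x, abs_of_pos (show 0 < x by linarith)]
        linarith
  have hC0 : 0 ≤ C := (abs_nonneg _).trans (hC w)
  have hlin : ∀ x : ℝ, 1 ≤ x → Real.exp (-(x / 2)) ≤ 1 := fun x hx => by
    rw [Real.exp_le_one_iff]
    linarith
  have key := unique_zero (lam := 1 / 4 + t ^ 2)
    (D := fun x => x * II f w 0 x - κ * kk0 t x)
    (D1 := fun x => (II f w 0 x - x * II f w 1 x) - κ * kk1 t x)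
    (K := kk0 t) (K1 := kk1 t)
    (fun x hx => (hJ x hx).fun_sub ((kk0_deriv hKBf t hx).const_mul κ))
    (fun x hx => by
      refine ((hJ1 x hx).fun_sub ((kk1_deriv hKBf t hx).const_mul κ)).congr_deriv ?_
      ring)
    (fun x hx => kk0_deriv hKBf t hx) (fun x hx => kk1_deriv hKBf t hx)
    (B := 16 * Real.pi * C + |κ| * 4)
    (fun x hx => by
      have h1 := (kk_bound hKBf t hx).1
      have h2 := hBJ x hx
      have h3 := hlin x hx
      calc _ ≤ |x * II f w 0 x| + |κ * kk0 t x| := abs_sub _ _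
        _ ≤ 16 * Real.pi * C + |κ| * 4 := by
          rw [abs_mul κ]
          have h4 : |kk0 t x| ≤ 4 := by linarith
          have h5 : |κ| * |kk0 t x| ≤ |κ| * 4 := by gcongr
          nlinarith [mul_nonneg hpi.le hC0])
    (fun x hx => by
      have h1 := (kk_bound hKBf t hx).2
      have h2 := hBJ1 x hx
      have h3 := hlin x hx
      calc _ ≤ |II f w 0 x - x * II f w 1 x| + |κ * kk1 t x| := abs_sub _ _
        _ ≤ 16 * Real.pi * C + |κ| * 4 := by
          rw [abs_mul κ]
          have h4 : |kk1 t x| ≤ 4 := by linarith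
          have h5 : |κ| * |kk1 t x| ≤ |κ| * 4 := by gcongr
          linarith)
    (kk0_lim hKBf t) (kk1_lim hKBf t) (c := √(Real.pi / 2)) (Real.sqrt_pos.2 (by positivity))
    ((hKBf t).2.2.2.2.congr fun x => by unfold kk0; ring)
    (by
      have h1 := asym hc hC w
      have h2 := (hKBf t).2.2.2.2.const_mul κ
      have h3 := h1.sub h2
      have h4 : 2 * Real.pi * f w - κ * √(Real.pi / 2) = 0 := by
        have h5 : √(2 * Real.pi) * √(Real.pi / 2) = Real.pi := by
          rw [← Real.sqrt_mul (by positivity)]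
          have : 2 * Real.pi * (Real.pi / 2) = Real.pi ^ 2 := by ring
          rw [this, Real.sqrt_sq hpi.le]
        rw [hκ]
        linear_combination (-2 * f w) * h5
      rw [h4] at h3
      refine h3.congr fun x => ?_
      unfold kk0
      ring) hX
  simp only [kk0] at key
  have hs : 0 < √X := Real.sqrt_pos.2 hX
  have hsq : √X ^ 2 = X := Real.sq_sqrt hX.le
  have h1 : X * II f w 0 X = X * (2 * √(2 * Real.pi) * KB t X / √X * f w) := by
    have h2 : X * (2 * √(2 * Real.pi) * KB t X / √X * f w) = κ * (√X * KB t X) := by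
      rw [hκ]
      nth_rewrite 1 [← hsq]
      field_simp
    rw [h2]
    linarith
  exact mul_left_cancel₀ hX.ne' h1

end Pool.Agent.A54.Av
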