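import Pool.Agent.Lib.MP_a54f13_nt.Av.SpecB

/-!
# Module Sm1: the differential equation
-/

set_option autoImplicit false

namespace Pool.Agent.A54.Av

open MeasureTheory Filter Topology Set
open scoped ContDiff ComplexConjugate UpperHalfPlane MatrixGroups ENNReal
open Pool.Agent.A54.Half (H0 qq ff hh)

noncomputable section

namespace Sm1M

/-- the real linear map with Wirtinger derivatives `a`, `b` -/
def Lw (a b : ℂ) : ℂ →L[ℝ] ℂ :=
  (a / 2) • ContinuousLinearMap.id ℝ ℂ + (b / 2) • (Complex.conjCLE : ℂ →L[ℝ] ℂ)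

lemma Lw_apply (a b v : ℂ) : Lw a b v = a / 2 * v + b / 2 * conj v := by
  simp [Lw]

/-- `dz f = a`, `dzb f = b` at `z` -/
def WD (f : ℂ → ℂ) (z a b : ℂ) : Prop := HasFDerivAt f (Lw a b) z

variable {f g : ℂ → ℂ} {z a b a' b' : ℂ}

lemma WD.dz (h : WD f z a b) : dz f z = a := by
  unfold Pool.Agent.A54.dz
  rw [h.fderiv, Lw_apply, Lw_apply]
  simp only [map_one, mul_one, Complex.conj_I]
  have := Complex.I_mul_I
  linear_combination (b / 2 - a / 2) * this

lemma WD.dzb (h : WD f z a b) : dzb f z = b := by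
  unfold Pool.Agent.A54.dzb
  rw [h.fderiv, Lw_apply, Lw_apply]
  simp only [map_one, mul_one, Complex.conj_I]
  have := Complex.I_mul_I
  linear_combination (a / 2 - b / 2) * this

lemma WD.congr (h : WD f z a b) (ha : a = a') (hb : b = b') : WD f z a' b' := by
  subst ha; subst hb; exact h

lemma WD.congrf (h : WD f z a b) (hf : g =ᶠ[𝓝 z] f) : WD g z a b :=
  HasFDerivAt.congr_of_eventuallyEq h hf

lemma WD.add (h : WD f z a b) (h' : WD g z a' b') :
    WD (fun w => f w + g w) z (a + a') (b + b') := by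
  have := HasFDerivAt.fun_add h h'
  refine this.congr_fderiv ?_
  ext v
  simp only [add_apply, Lw_apply]
  ring

lemma WD.mul (h : WD f z a b) (h' : WD g z a' b') :
    WD (fun w => f w * g w) z (f z * a' + g z * a) (f z * b' + g z * b) := by
  have := HasFDerivAt.fun_mul h h'
  refine this.congr_fderiv ?_
  ext v
  simp only [add_apply, smul_apply, smul_eq_mul, Lw_apply]
  ring

lemma WD.const (c : ℂ) : WD (fun _ => c) z 0 0 := by
  have := hasFDerivAt_const (𝕜 := ℝ) c z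
  refine this.congr_fderiv ?_
  ext v
  simp [Lw_apply]

lemma WD.id : WD (fun w => w) z 2 0 := by
  have := hasFDerivAt_id (𝕜 := ℝ) z
  refine this.congr_fderiv ?_
  ext v
  simp [Lw_apply]

lemma WD.conj : WD (fun w => conj w) z 0 2 := by
  have := (Complex.conjCLE : ℂ →L[ℝ] ℂ).hasFDerivAt (x := z)
  refine this.congr_fderiv ?_
  ext v
  simp [Lw_apply]

lemma WD.constmul (c : ℂ) (h : WD f z a b) : WD (fun w => c * f w) z (c * a) (c * b) := by
  refine ((WD.const (z := z) c).mul h).congr ?_ ?_ <;> ring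

lemma WD.comp {φ : ℂ → ℂ} {d : ℂ} (h : WD f z a b) (hφ : HasDerivAt φ d (f z)) :
    WD (fun w => φ (f w)) z (d * a) (d * b) := by
  have h1 := hφ.hasFDerivAt.restrictScalars ℝ
  have h2 := h1.comp z h
  refine HasFDerivAt.congr_fderiv (f := fun w => φ (f w)) h2 ?_
  ext v
  simp only [ContinuousLinearMap.comp_apply, ContinuousLinearMap.coe_restrictScalars', Lw_apply]
  simp
  ring

/-! ### The functions -/

variable (c p q : ℂ)

def Nf (w : ℂ) : ℂ := c * (w * w) + (-p * w + -q)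
def Mf (w : ℂ) : ℂ := c * (conj w * conj w) + (-p * conj w + -q)
def Bf (w : ℂ) : ℂ := c * (w * conj w) + (-(p / 2) * (w + conj w) + -q)
def sf (w : ℂ) : ℂ := w + (-1) * conj w

lemma wN : WD (Nf c p q) z (2 * (2 * c * z - p)) 0 := by
  refine (((WD.id.mul WD.id).constmul c).add ((WD.id.constmul (-p)).add
    (WD.const (-q)))).congr ?_ ?_ <;> ring

lemma wM : WD (Mf c p q) z 0 (2 * (2 * c * conj z - p)) := by
  refine (((WD.conj.mul WD.conj).constmul c).add ((WD.conj.constmul (-p)).add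
    (WD.const (-q)))).congr ?_ ?_ <;> ring

lemma wB : WD (Bf c p q) z (2 * c * conj z - p) (2 * c * z - p) := by
  refine (((WD.id.mul WD.conj).constmul c).add (((WD.id.add WD.conj).constmul (-(p / 2))).add
    (WD.const (-q)))).congr ?_ ?_ <;> ring

lemma ws : WD sf z 2 (-2) := by
  refine (WD.id.add (WD.conj.constmul (-1))).congr ?_ ?_ <;> ring

lemma wsi (hs : sf z ≠ 0) : WD (fun w => (sf w)⁻¹) z (-(sf z ^ 2)⁻¹ * 2) (-(sf z ^ 2)⁻¹ * (-2)) :=
  ws.comp (hasDerivAt_inv hs)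

/-- `V` -/
def Vf (w : ℂ) : ℂ := (-1) * ((Nf c p q w * Mf c p q w) * ((sf w)⁻¹ * (sf w)⁻¹))

lemma wV (hs : sf z ≠ 0) : WD (Vf c p q) z (4 * Mf c p q z * Bf c p q z * (sf z)⁻¹ ^ 3)
    (-4 * Nf c p q z * Bf c p q z * (sf z)⁻¹ ^ 3) := by
  refine ((((wN c p q).mul (wM c p q)).mul ((wsi hs).mul (wsi hs))).constmul (-1)).congr ?_ ?_
  · field_simp
    simp only [Nf, Mf, Bf, sf]
    ring
  · field_simp
    simp only [Nf, Mf, Bf, sf]
    ring

lemma wu (κ : ℂ) (hs : sf z ≠ 0) : WD (fun w => Complex.exp (-κ * Vf c p q w)) z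
    (Complex.exp (-κ * Vf c p q z) * (-κ * (4 * Mf c p q z * Bf c p q z * (sf z)⁻¹ ^ 3)))
    (Complex.exp (-κ * Vf c p q z) * (-κ * (-4 * Nf c p q z * Bf c p q z * (sf z)⁻¹ ^ 3))) :=
  ((wV c p q hs).constmul (-κ)).comp (Complex.hasDerivAt_exp _)

lemma wdV (hs : sf z ≠ 0) : WD (fun w => 4 * (Mf c p q w * Bf c p q w *
      ((sf w)⁻¹ * ((sf w)⁻¹ * (sf w)⁻¹)))) z
    (4 * ((2 * c * conj z - p) * Mf c p q z * (sf z)⁻¹ ^ 3 -
      6 * Mf c p q z * Bf c p q z * (sf z)⁻¹ ^ 4))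
    (4 * (2 * (2 * c * conj z - p) * Bf c p q z * (sf z)⁻¹ ^ 3 +
      Mf c p q z * (2 * c * z - p) * (sf z)⁻¹ ^ 3 + 6 * Mf c p q z * Bf c p q z * (sf z)⁻¹ ^ 4)) := by
  refine ((((wM c p q).mul (wB c p q)).mul ((wsi hs).mul ((wsi hs).mul (wsi hs)))).constmul
    4).congr ?_ ?_
  · field_simp
    ring
  · field_simp
    ring

end Sm1M

open Sm1M in
theorem stmtSm1 : StmtSm1 := by
  intro γ κ z hz hb
  have hz' : (0 : ℝ) < z.im := hz
  set c : ℂ := ((γ 1 0 : ℤ) : ℂ) with hc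
  set p : ℂ := ((γ 0 0 : ℤ) : ℂ) - ((γ 1 1 : ℤ) : ℂ) with hp
  set q : ℂ := ((γ 0 1 : ℤ) : ℂ) with hq
  have hcc : conj c = c := map_intCast _ _
  have hqc : conj q = q := map_intCast _ _
  have hpc : conj p = p := by rw [hp, map_sub, map_intCast, map_intCast]
  have hsf : ∀ w : ℂ, sf w = 2 * Complex.I * w.im := by
    intro w
    unfold sf
    apply Complex.ext <;> simp
    ring
  have hsne : ∀ w ∈ H0, sf w ≠ 0 := by
    intro w hw
    have hw' : (0 : ℝ) < w.im := hw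
    rw [hsf]
    have : (w.im : ℂ) ≠ 0 := by exact_mod_cast hw'.ne'
    simp [Complex.I_ne_zero, this]
  have hV : ∀ w : ℂ, ((Vd γ w : ℝ) : ℂ) = Vf c p q w := by
    intro w
    unfold Vd VV
    have h1 : ((γ 0 0 : ℤ) : ℂ) * w + ((γ 0 1 : ℤ) : ℂ) -
        w * (((γ 1 0 : ℤ) : ℂ) * w + ((γ 1 1 : ℤ) : ℂ)) = -Nf c p q w := by
      simp only [Nf, hc, hp, hq]
      ring
    rw [h1, norm_neg]
    have h2 : Mf c p q w = conj (Nf c p q w) := by
      simp only [Nf, Mf, map_add, map_mul, map_neg, hcc, hqc, hpc]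
    have h3 : ((‖Nf c p q w‖ ^ 2 : ℝ) : ℂ) = Nf c p q w * Mf c p q w := by
      rw [h2, Complex.mul_conj, Complex.normSq_eq_norm_sq]
    unfold Vf
    rw [← h3, hsf]
    push_cast
    by_cases hw0 : (w.im : ℂ) = 0
    · simp [hw0]
    · have hI := Complex.I_sq
      field_simp
      rw [hI]
      ring
  have hfun : (fun w => Complex.exp (-(κ * (Vd γ w : ℝ)))) =
      fun w => Complex.exp (-κ * Vf c p q w) := by
    funext w
    rw [hV]
    congr 1
    ring
  have hdz : ∀ w ∈ H0, dz (fun w => Complex.exp (-κ * Vf c p q w)) w =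
      Complex.exp (-κ * Vf c p q w) * (-κ * (4 * (Mf c p q w * Bf c p q w *
      ((sf w)⁻¹ * ((sf w)⁻¹ * (sf w)⁻¹))))) := by
    intro w hw
    rw [(wu c p q κ (hsne w hw)).dz]
    ring
  have hs := hsne z hz
  have hdd := (((wu c p q κ hs).mul ((wdV c p q hs).constmul (-κ))).congrf
    (Filter.eventually_of_mem (Pool.Agent.A54.Half.isOpen_H0.mem_nhds hz) hdz)).dzb
  rw [hfun, hdd]
  -- the values
  have hbet : ((bet γ z : ℝ) : ℂ) = Complex.I * Bf c p q z * (sf z)⁻¹ := by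
    unfold bet
    rw [hsf]
    have hy : (z.im : ℂ) ≠ 0 := by exact_mod_cast hz'.ne'
    have hI := Complex.I_ne_zero
    push_cast
    have h4 : Bf c p q z = c * (‖z‖ : ℂ) ^ 2 - p * z.re - q := by
      unfold Bf
      rw [Complex.mul_conj, Complex.normSq_eq_norm_sq, Complex.add_conj]
      push_cast
      ring
    rw [h4]
    simp only [hc, hp, hq]
    field_simp
  have him : ((z.im : ℝ) : ℂ) = -(Complex.I / 2) * sf z := by
    rw [hsf]
    have hI := Complex.I_mul_I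
    linear_combination (z.im : ℂ) * hI
  have hB : Bf c p q z ≠ 0 := by
    intro h
    rw [h] at hbet
    simp at hbet
    exact hb hbet
  obtain ⟨d, hd⟩ : ∃ d : ℝ, d = ((γ.det : ℤ) : ℝ) := ⟨_, rfl⟩
  have hAa : ((Aa γ z : ℝ) : ℂ) = (((z.im : ℝ) : ℂ)) ^ 2 * ((d : ℂ) + Vf c p q z) /
      (4 * ((bet γ z : ℝ) : ℂ) ^ 2) := by
    unfold Aa
    rw [← hd]
    push_cast
    rw [hV]
  rw [← hd]
  unfold DD
  push_cast
  rw [hAa, hV, hbet, him]
  have e1 : -(κ * Vf c p q z) = -κ * Vf c p q z := by ring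
  rw [e1]
  set E := Complex.exp (-κ * Vf c p q z) with hE
  -- relations
  have r1 : (2 * c * conj z - p) * sf z = 2 * Bf c p q z - 2 * Mf c p q z := by
    simp only [sf, Bf, Mf]
    ring
  have r2 : (2 * c * z - p) * sf z = 2 * Nf c p q z - 2 * Bf c p q z := by
    simp only [sf, Bf, Nf]
    ring
  have e2 : (2 * c * conj z - p) = (2 * Bf c p q z - 2 * Mf c p q z) * (sf z)⁻¹ := by
    rw [← r1]
    field_simp
  have e3 : (2 * c * z - p) = (2 * Nf c p q z - 2 * Bf c p q z) * (sf z)⁻¹ := by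
    rw [← r2]
    field_simp
  rw [e2, e3]
  unfold Vf
  have hI := Complex.I_sq
  simp only [mul_pow, hI, neg_sq, div_pow]
  generalize Nf c p q z = N at *
  generalize Mf c p q z = M at *
  generalize Bf c p q z = B at *
  generalize sf z = s at *
  field_simp
  ring

end

end Pool.Agent.A54.Av
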