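import Pool.Agent.Lib.MP_a54f13_nt.Av.SpecB

/-!
# Package `Av`, module `Sm2`: bounds for the amplitude

After division by `c` the amplitude is a fixed smooth function of `z` and three bounded real parameters, so
all bounds follow by compactness.
-/

set_option autoImplicit false

namespace Pool.Agent.A54.Av.Sm2M

open MeasureTheory Filter Topology Set
open scoped ContDiff ComplexConjugate UpperHalfPlane MatrixGroups ENNReal
open Pool.Agent.A54.Half (H0 qq ff hh)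

noncomputable section

/-- parameter space -/
abbrev TT : Type := ℝ × ℝ × ℝ

/-- real part of `z² - p z - q` -/
def nrx (x : TT × ℂ) : ℝ := x.2.re ^ 2 - x.2.im ^ 2 - x.1.1 * x.2.re - x.1.2.1

/-- imaginary part of `z² - p z - q` -/
def nix (x : TT × ℂ) : ℝ := 2 * x.2.re * x.2.im - x.1.1 * x.2.im

/-- `V / c²` -/
def vvx (x : TT × ℂ) : ℝ := (nrx x ^ 2 + nix x ^ 2) / (4 * x.2.im * x.2.im)

/-- `β / c` -/
def bbx (x : TT × ℂ) : ℝ := (x.2.re ^ 2 + x.2.im ^ 2 - x.1.1 * x.2.re - x.1.2.1) / (2 * x.2.im)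

/-- `(n + V) / β²` -/
def rax (x : TT × ℂ) : ℝ := (x.1.2.2 + vvx x) / bbx x ^ 2

/-- the amplitude -/
def phx (x : TT × ℂ) : ℝ := x.2.im ^ 2 * (x.1.2.2 + vvx x) / (4 * bbx x ^ 2)

/-- domain of smoothness -/
def UU : Set (TT × ℂ) := {x | 0 < x.2.im} ∩ {x | x.2.re ^ 2 + x.2.im ^ 2 - x.1.1 * x.2.re - x.1.2.1 ≠ 0}

lemma cd_re : ContDiff ℝ ∞ (fun x : TT × ℂ => x.2.re) := Complex.reCLM.contDiff.comp contDiff_snd
lemma cd_im : ContDiff ℝ ∞ (fun x : TT × ℂ => x.2.im) := Complex.imCLM.contDiff.comp contDiff_snd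
lemma cd_p : ContDiff ℝ ∞ (fun x : TT × ℂ => x.1.1) := contDiff_fst.comp contDiff_fst
lemma cd_q : ContDiff ℝ ∞ (fun x : TT × ℂ => x.1.2.1) :=
  contDiff_fst.comp (contDiff_snd.comp contDiff_fst)
lemma cd_n : ContDiff ℝ ∞ (fun x : TT × ℂ => x.1.2.2) :=
  contDiff_snd.comp (contDiff_snd.comp contDiff_fst)

lemma cd_nr : ContDiff ℝ ∞ nrx :=
  (((cd_re.pow 2).sub (cd_im.pow 2)).sub (cd_p.mul cd_re)).sub cd_q

lemma cd_ni : ContDiff ℝ ∞ nix :=
  ((contDiff_const.mul cd_re).mul cd_im).sub (cd_p.mul cd_im)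

lemma cd_bn : ContDiff ℝ ∞ (fun x : TT × ℂ => x.2.re ^ 2 + x.2.im ^ 2 - x.1.1 * x.2.re - x.1.2.1) :=
  (((cd_re.pow 2).add (cd_im.pow 2)).sub (cd_p.mul cd_re)).sub cd_q

lemma open_UU : IsOpen UU := by
  refine IsOpen.inter ?_ ?_
  · exact isOpen_lt continuous_const cd_im.continuous
  · exact isOpen_ne_fun cd_bn.continuous continuous_const

lemma cd_vv : ContDiffOn ℝ ∞ vvx UU := by
  unfold vvx
  refine ContDiffOn.div ((cd_nr.pow 2).add (cd_ni.pow 2)).contDiffOn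
    ((contDiff_const.mul cd_im).mul cd_im).contDiffOn ?_
  intro x hx
  have h : 0 < x.2.im := hx.1
  positivity

lemma cd_bb : ContDiffOn ℝ ∞ bbx UU := by
  unfold bbx
  refine ContDiffOn.div cd_bn.contDiffOn (contDiff_const.mul cd_im).contDiffOn ?_
  intro x hx
  have h : 0 < x.2.im := hx.1
  positivity

lemma bb_ne {x : TT × ℂ} (hx : x ∈ UU) : bbx x ≠ 0 := by
  unfold bbx
  have h : 0 < x.2.im := hx.1
  exact div_ne_zero hx.2 (by positivity)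

lemma cd_ra : ContDiffOn ℝ ∞ rax UU := by
  unfold rax
  refine ContDiffOn.div (cd_n.contDiffOn.add cd_vv) (cd_bb.pow 2) ?_
  intro x hx
  exact pow_ne_zero 2 (bb_ne hx)

lemma cd_ph : ContDiffOn ℝ ∞ phx UU := by
  unfold phx
  refine ContDiffOn.div ((cd_im.pow 2).contDiffOn.mul (cd_n.contDiffOn.add cd_vv))
    (contDiffOn_const.mul (cd_bb.pow 2)) ?_
  intro x hx
  exact mul_ne_zero (by norm_num) (pow_ne_zero 2 (bb_ne hx))

/-- derivative in a direction of the second factor -/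
def ddx (G : TT × ℂ → ℂ) (e : ℂ) (x : TT × ℂ) : ℂ := fderiv ℝ G x (0, e)

lemma cd_dd {G : TT × ℂ → ℂ} (hG : ContDiffOn ℝ ∞ G UU) (e : ℂ) : ContDiffOn ℝ ∞ (ddx G e) UU := by
  unfold ddx
  have h := hG.fderiv_of_isOpen (m := ∞) open_UU (by simp)
  exact h.clm_apply contDiffOn_const

lemma inr_hasFDeriv (t : TT) (w : ℂ) :
    HasFDerivAt (fun w : ℂ => ((t, w) : TT × ℂ)) (ContinuousLinearMap.inr ℝ TT ℂ) w := by
  exact hasFDerivAt_prodMk_right t w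

lemma fderiv_slice {F : Type} [NormedAddCommGroup F] [NormedSpace ℝ F] {G : TT × ℂ → F}
    (hG : ContDiffOn ℝ ∞ G UU) {t : TT} {w : ℂ} (h : (t, w) ∈ UU) (e : ℂ) :
    fderiv ℝ (fun w : ℂ => G (t, w)) w e = fderiv ℝ G (t, w) (0, e) := by
  have h1 : DifferentiableAt ℝ G (t, w) :=
    (hG.contDiffAt (open_UU.mem_nhds h)).differentiableAt (by simp)
  have h2 := h1.hasFDerivAt.comp w (inr_hasFDeriv t w)
  rw [show (fun w : ℂ => G (t, w)) = G ∘ (fun w : ℂ => ((t, w) : TT × ℂ)) from rfl, h2.fderiv]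
  simp

lemma cdAt_slice {F : Type} [NormedAddCommGroup F] [NormedSpace ℝ F] {G : TT × ℂ → F}
    (hG : ContDiffOn ℝ ∞ G UU) {t : TT} {w : ℂ} (h : (t, w) ∈ UU) :
    ContDiffAt ℝ ∞ (fun w : ℂ => G (t, w)) w := by
  have h1 : ContDiffAt ℝ ∞ G (t, w) := hG.contDiffAt (open_UU.mem_nhds h)
  exact h1.comp w (contDiff_const.prodMk contDiff_id).contDiffAt

/-- the complex amplitude -/
def pcx (x : TT × ℂ) : ℂ := (phx x : ℂ)

lemma cd_pc : ContDiffOn ℝ ∞ pcx UU := Complex.ofRealCLM.contDiff.comp_contDiffOn cd_ph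

/-- `∂` of the amplitude -/
def p1 (x : TT × ℂ) : ℂ := ddx pcx 1 x - Complex.I * ddx pcx Complex.I x

lemma cd_p1 : ContDiffOn ℝ ∞ p1 UU :=
  (cd_dd cd_pc 1).sub (contDiffOn_const.mul (cd_dd cd_pc Complex.I))

/-- `Δ` of the amplitude -/
def p2 (x : TT × ℂ) : ℂ := ddx p1 1 x + Complex.I * ddx p1 Complex.I x

lemma cd_p2 : ContDiffOn ℝ ∞ p2 UU :=
  (cd_dd cd_p1 1).add (contDiffOn_const.mul (cd_dd cd_p1 Complex.I))

lemma slice_nhds {t : TT} {w : ℂ} (h : (t, w) ∈ UU) : ∀ᶠ w' in 𝓝 w, (t, w') ∈ UU := by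
  have hc : Continuous (fun w : ℂ => ((t, w) : TT × ℂ)) := by fun_prop
  exact hc.continuousAt.eventually (open_UU.mem_nhds h)

lemma dz_slice {t : TT} {w : ℂ} (h : (t, w) ∈ UU) : dz (fun w => pcx (t, w)) w = p1 (t, w) := by
  unfold dz p1 ddx
  rw [fderiv_slice cd_pc h, fderiv_slice cd_pc h]

lemma dzb_slice {t : TT} {w : ℂ} (h : (t, w) ∈ UU) :
    dzb (dz (fun w => pcx (t, w))) w = p2 (t, w) := by
  have he : dz (fun w => pcx (t, w)) =ᶠ[𝓝 w] fun w => p1 (t, w) := by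
    filter_upwards [slice_nhds h] with w' hw'
    exact dz_slice hw'
  unfold dzb p2 ddx
  rw [he.fderiv_eq, fderiv_slice cd_p1 h, fderiv_slice cd_p1 h]

/-- the compact set of parameters -/
def SS (K : Set ℂ) (P Q E : ℝ) : Set (TT × ℂ) :=
  ((Icc (-P) P ×ˢ Icc (-Q) Q ×ˢ Icc 0 E) ×ˢ K) ∩ {x | 4 * (nrx x ^ 2 + nix x ^ 2) ≤ x.2.im ^ 4}

lemma compact_SS {K : Set ℂ} (hK : IsCompact K) (P Q E : ℝ) : IsCompact (SS K P Q E) := by
  unfold SS
  refine IsCompact.inter_right ?_ ?_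
  · exact (isCompact_Icc.prod (isCompact_Icc.prod isCompact_Icc)).prod hK
  · exact isClosed_le (by
      have h1 := cd_nr.continuous
      have h2 := cd_ni.continuous
      fun_prop) (cd_im.continuous.pow 4)

lemma SS_sub {K : Set ℂ} (hK : K ⊆ H0) (P Q E : ℝ) : SS K P Q E ⊆ UU := by
  intro x hx
  have hy : 0 < x.2.im := hK hx.1.2
  refine ⟨hy, ?_⟩
  have h := hx.2
  simp only [mem_ofPred_eq] at h ⊢
  intro h0
  have h1 : nrx x = -(2 * x.2.im ^ 2) := by unfold nrx; linarith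
  rw [h1] at h
  have h2 : 0 < x.2.im ^ 4 := by positivity
  have h3 : 0 ≤ nix x ^ 2 := sq_nonneg _
  nlinarith

lemma bound_on {K : Set ℂ} (hK : IsCompact K) (hK' : K ⊆ H0) (P Q E : ℝ)
    {F : Type} [NormedAddCommGroup F] {G : TT × ℂ → F} (hG : ContinuousOn G UU) :
    ∃ C : ℝ, 0 ≤ C ∧ ∀ x ∈ SS K P Q E, ‖G x‖ ≤ C := by
  obtain ⟨C, hC⟩ := (compact_SS hK P Q E).exists_bound_of_continuousOn (hG.mono (SS_sub hK' P Q E))
  exact ⟨max C 0, le_max_right _ _, fun x hx => (hC x hx).trans (le_max_left _ _)⟩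

end

end Pool.Agent.A54.Av.Sm2M

namespace Pool.Agent.A54.Av

open MeasureTheory Filter Topology Set
open scoped ContDiff ComplexConjugate UpperHalfPlane MatrixGroups ENNReal
open Pool.Agent.A54.Half (H0 qq ff hh)
open Sm2M

theorem stmtSm2 : StmtSm2 := by
  intro K hK hK' ε hε
  obtain ⟨R, hR0, hR⟩ : ∃ R : ℝ, 0 ≤ R ∧ ∀ z ∈ K, ‖z‖ ≤ R := by
    obtain ⟨R, hR⟩ := hK.isBounded.exists_norm_le
    exact ⟨max R 0, le_max_right _ _, fun z hz => (hR z hz).trans (le_max_left _ _)⟩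
  set P : ℝ := 3 * R with hP
  set Q : ℝ := 6 * R ^ 2 with hQ
  set E : ℝ := (ε ^ 2)⁻¹ with hE
  obtain ⟨C1, hC1, hb1⟩ := bound_on hK hK' P Q E cd_ra.continuousOn
  obtain ⟨C2, hC2, hb2⟩ := bound_on hK hK' P Q E cd_ph.continuousOn
  obtain ⟨C3, hC3, hb3⟩ := bound_on hK hK' P Q E
    (cd_ph.continuousOn_fderiv_of_isOpen open_UU (by simp))
  obtain ⟨C4, hC4, hb4⟩ := bound_on hK hK' P Q E cd_p2.continuousOn
  refine ⟨C1 + C2 + C3 + C4, by positivity, ?_⟩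
  intro z hz γ hn hc hV
  have hy : 0 < z.im := hK' hz
  set c : ℝ := ((γ 1 0 : ℤ) : ℝ) with hcdef
  set n : ℝ := ((γ.det : ℤ) : ℝ) with hndef
  have hn1 : (1 : ℝ) ≤ n := by rw [hndef]; exact_mod_cast hn
  have hc0 : c ≠ 0 := by
    intro h0
    rw [h0] at hc
    have : 0 < ε ^ 2 * n := by positivity
    linarith [show (0:ℝ)^2 = 0 by norm_num]
  have hc2 : 0 < c ^ 2 := by positivity
  set p : ℝ := (((γ 0 0 : ℤ) : ℝ) - ((γ 1 1 : ℤ) : ℝ)) / c with hp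
  set q : ℝ := ((γ 0 1 : ℤ) : ℝ) / c with hq
  set ν : ℝ := n / c ^ 2 with hν
  have hpc : ((γ 0 0 : ℤ) : ℝ) - ((γ 1 1 : ℤ) : ℝ) = c * p := by rw [hp]; field_simp
  have hqc : ((γ 0 1 : ℤ) : ℝ) = c * q := by rw [hq]; field_simp
  have hnc : n = c ^ 2 * ν := by rw [hν]; field_simp
  -- `V` and `β`
  have hVd : ∀ w : ℂ, Vd γ w = c ^ 2 * vvx ((p, q, ν), w) := by
    intro w
    have h1 : ‖((γ 0 0 : ℤ) : ℂ) * w + ((γ 0 1 : ℤ) : ℂ) -
        w * (((γ 1 0 : ℤ) : ℂ) * w + ((γ 1 1 : ℤ) : ℂ))‖ ^ 2 =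
        c ^ 2 * (nrx ((p, q, ν), w) ^ 2 + nix ((p, q, ν), w) ^ 2) := by
      rw [Complex.sq_norm, Complex.normSq_apply]
      have hre : (((γ 0 0 : ℤ) : ℂ) * w + ((γ 0 1 : ℤ) : ℂ) -
          w * (((γ 1 0 : ℤ) : ℂ) * w + ((γ 1 1 : ℤ) : ℂ))).re = -(c * nrx ((p, q, ν), w)) := by
        simp only [Complex.sub_re, Complex.add_re, Complex.mul_re, Complex.intCast_re,
          Complex.intCast_im, Complex.add_im, Complex.mul_im, nrx]
        rw [← hcdef, hqc]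
        have : ((γ 0 0 : ℤ) : ℝ) = c * p + ((γ 1 1 : ℤ) : ℝ) := by linarith
        rw [this]; ring
      have him : (((γ 0 0 : ℤ) : ℂ) * w + ((γ 0 1 : ℤ) : ℂ) -
          w * (((γ 1 0 : ℤ) : ℂ) * w + ((γ 1 1 : ℤ) : ℂ))).im = -(c * nix ((p, q, ν), w)) := by
        simp only [Complex.sub_im, Complex.add_re, Complex.mul_re, Complex.intCast_re,
          Complex.intCast_im, Complex.add_im, Complex.mul_im, nix]
        rw [← hcdef]
        have : ((γ 0 0 : ℤ) : ℝ) = c * p + ((γ 1 1 : ℤ) : ℝ) := by linarith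
        rw [this]; ring
      rw [hre, him]; ring
    unfold Vd VV vvx
    rw [h1, mul_div_assoc]
  have hbet : ∀ w : ℂ, bet γ w = c * bbx ((p, q, ν), w) := by
    intro w
    unfold bet bbx
    rw [← hcdef, hpc, hqc, Complex.sq_norm, Complex.normSq_apply, ← mul_div_assoc]
    ring
  have hAa : Aa γ = fun w => phx ((p, q, ν), w) := by
    funext w
    unfold Aa phx
    rw [← hndef, hVd w, hbet w]
    rw [hnc]
    have h1 : w.im ^ 2 * (c ^ 2 * ν + c ^ 2 * vvx ((p, q, ν), w)) =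
        c ^ 2 * (w.im ^ 2 * (ν + vvx ((p, q, ν), w))) := by ring
    have h2 : 4 * (c * bbx ((p, q, ν), w)) ^ 2 = c ^ 2 * (4 * bbx ((p, q, ν), w) ^ 2) := by ring
    rw [h1, h2, mul_div_mul_left _ _ (ne_of_gt hc2)]
  -- membership
  have hN : 4 * (nrx ((p, q, ν), z) ^ 2 + nix ((p, q, ν), z) ^ 2) ≤ z.im ^ 4 := by
    have h1 : c ^ 2 * vvx ((p, q, ν), z) ≤ c ^ 2 * (z.im / 4) ^ 2 := by
      rw [← hVd z]; calc Vd γ z ≤ (c * z.im / 4) ^ 2 := hV
        _ = c ^ 2 * (z.im / 4) ^ 2 := by ring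
    have h2 : vvx ((p, q, ν), z) ≤ (z.im / 4) ^ 2 := le_of_mul_le_mul_left h1 hc2
    unfold vvx at h2
    rw [div_le_iff₀ (by positivity)] at h2
    nlinarith [h2]
  have hre : |z.re| ≤ R := (Complex.abs_re_le_norm z).trans (hR z hz)
  have him : z.im ≤ R := (le_abs_self _).trans ((Complex.abs_im_le_norm z).trans (hR z hz))
  have hni : |2 * z.re - p| ≤ z.im / 2 := by
    have h1 : 4 * nix ((p, q, ν), z) ^ 2 ≤ z.im ^ 4 := by
      nlinarith [sq_nonneg (nrx ((p, q, ν), z))]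
    have h2 : nix ((p, q, ν), z) = (2 * z.re - p) * z.im := by unfold nix; simp only; ring
    rw [h2] at h1
    have h3 : (2 * z.re - p) ^ 2 ≤ (z.im / 2) ^ 2 := by
      have h4 : (z.im) ^ 2 * (2 * z.re - p) ^ 2 ≤ (z.im) ^ 2 * (z.im / 2) ^ 2 := by nlinarith [h1]
      exact le_of_mul_le_mul_left h4 (by positivity)
    exact abs_le_of_sq_le_sq h3 (by positivity)
  have hnr : |nrx ((p, q, ν), z)| ≤ z.im ^ 2 / 2 := by
    have h1 : nrx ((p, q, ν), z) ^ 2 ≤ (z.im ^ 2 / 2) ^ 2 := by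
      nlinarith [sq_nonneg (nix ((p, q, ν), z)), hN]
    exact abs_le_of_sq_le_sq h1 (by positivity)
  have hpP : |p| ≤ P := by
    rw [abs_le] at hni hre ⊢
    constructor <;> rw [hP] <;> linarith [hni.1, hni.2, hre.1, hre.2]
  have hqQ : |q| ≤ Q := by
    have h1 : q = z.re ^ 2 - z.im ^ 2 - p * z.re - nrx ((p, q, ν), z) := by unfold nrx; simp only; ring
    have h2 : |p * z.re| ≤ 3 * R * R := by
      rw [abs_mul]; exact mul_le_mul hpP hre (abs_nonneg _) (by positivity)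
    have h3 : z.re ^ 2 ≤ R ^ 2 := by
      rw [← sq_abs]; exact pow_le_pow_left₀ (abs_nonneg _) hre 2
    have h4 : z.im ^ 2 ≤ R ^ 2 := pow_le_pow_left₀ hy.le him 2
    have h5 : 0 ≤ z.re ^ 2 := sq_nonneg _
    have h6 : 0 ≤ z.im ^ 2 := sq_nonneg _
    rw [abs_le] at hnr h2 ⊢
    rw [h1, hQ]
    constructor <;> nlinarith [hnr.1, hnr.2, h2.1, h2.2]
  have hνE : ν ≤ E := by
    rw [hν, hE, div_le_iff₀ hc2, inv_mul_eq_div, le_div_iff₀ (by positivity)]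
    linarith [mul_comm n (ε ^ 2)]
  have hν0 : 0 ≤ ν := by rw [hν]; positivity
  have hmem : (((p, q, ν), z) : TT × ℂ) ∈ SS K P Q E := by
    refine ⟨⟨⟨?_, ?_, ?_⟩, hz⟩, hN⟩
    · exact abs_le.mp hpP
    · exact abs_le.mp hqQ
    · exact ⟨hν0, hνE⟩
  have hU := SS_sub hK' P Q E hmem
  have hb0 := bb_ne hU
  refine ⟨?_, ?_, ?_, ?_, ?_, ?_⟩
  · rw [hbet z]; exact mul_ne_zero hc0 hb0
  · have h1 := hb1 _ hmem
    rw [hVd z, hbet z, hnc]
    have h2 : rax ((p, q, ν), z) ≤ C1 := (le_abs_self _).trans h1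
    unfold rax at h2
    have h3 : 0 < bbx ((p, q, ν), z) ^ 2 := by positivity
    rw [div_le_iff₀ h3] at h2
    have h4 : 0 ≤ c ^ 2 * bbx ((p, q, ν), z) ^ 2 := by positivity
    calc c ^ 2 * ν + c ^ 2 * vvx ((p, q, ν), z) = c ^ 2 * (ν + vvx ((p, q, ν), z)) := by ring
      _ ≤ c ^ 2 * (C1 * bbx ((p, q, ν), z) ^ 2) := mul_le_mul_of_nonneg_left h2 hc2.le
      _ = C1 * (c ^ 2 * bbx ((p, q, ν), z) ^ 2) := by ring
      _ ≤ (C1 + C2 + C3 + C4) * (c ^ 2 * bbx ((p, q, ν), z) ^ 2) :=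
          mul_le_mul_of_nonneg_right (by linarith) h4
      _ = (C1 + C2 + C3 + C4) * (c * bbx ((p, q, ν), z)) ^ 2 := by ring
  · rw [hAa]
    have h2 := hb2 _ hmem
    rw [Real.norm_eq_abs] at h2
    simp only
    linarith
  · rw [hAa]; exact cdAt_slice cd_ph hU
  · rw [hAa]
    have h3 := hb3 _ hmem
    refine le_trans ?_ (show C3 ≤ C1 + C2 + C3 + C4 by linarith)
    refine ContinuousLinearMap.opNorm_le_bound _ hC3 ?_
    intro e
    rw [fderiv_slice cd_ph hU e]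
    refine (ContinuousLinearMap.le_opNorm _ _).trans ?_
    have h4 : ‖((0, e) : TT × ℂ)‖ = ‖e‖ := by
      rw [Prod.norm_mk, norm_zero]; exact max_eq_right (norm_nonneg _)
    rw [h4]
    exact mul_le_mul_of_nonneg_right h3 (norm_nonneg _)
  · have h4 := hb4 _ hmem
    have h5 : (fun w => ((Aa γ w : ℝ) : ℂ)) = fun w => pcx ((p, q, ν), w) := by
      rw [hAa]; rfl
    rw [h5, dzb_slice hU]
    linarith

end Pool.Agent.A54.Av
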