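import Pool.Agent.Lib.MP_a54f13_nt.Av.SpecF

/-!
# Package `Av`, module `T2c`: the flat theorem for all `c ≥ 0`, by scaling
-/

set_option autoImplicit false

namespace Pool.Agent.A54.Av.T2cM

open MeasureTheory Filter Topology Set
open scoped ContDiff ComplexConjugate UpperHalfPlane MatrixGroups ENNReal
open Pool.Agent.A54.Half (H0 qq ff hh)
open Pool.Agent.A54.Pl (Ed lin)

noncomputable section

lemma gg_mul {f : ℂ → ℝ} (hf : ContDiff ℝ ∞ f) (a h : ℝ) (n : ℕ) :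
    gg h (fun w => a * f w) n = fun z => (a : ℂ) * gg h f n z := by
  induction n with
  | zero => funext z; simp [gg]
  | succ n ih =>
    funext z
    rw [gg_succ, gg_succ, ih, dz_const_mul _ (contDiff_gg hf h n)]
    ring

lemma sol_mul {V : Set ℂ} {q : ℂ → ℝ} {h : ℝ} {f : ℂ → ℝ} (hs : Sol V q h f) (a : ℝ) :
    Sol V q h (fun w => a * f w) where
  smooth := contDiff_const.mul hs.smooth
  hpos := hs.hpos
  hle := hs.hle
  eq := by
    intro z hz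
    have h1 := hs.eq z hz
    rw [gg_mul hs.smooth, dzb_const_mul _ (contDiff_gg hs.smooth h 1)]
    have h2 : (h : ℂ) * ((a : ℂ) * dzb (gg h f 1) z) = (a : ℂ) * ((h : ℂ) * dzb (gg h f 1) z) := by
      ring
    rw [h2, h1]
    push_cast
    ring

lemma seq_mul {V : Set ℂ} {q : ℂ → ℝ} {h : ℕ → ℝ} {f : ℕ → ℂ → ℝ} (hs : Seq V q h f) (a : ℝ) :
    Seq V q h (fun i w => a * f i w) where
  pot := hs.pot
  sol := fun i => sol_mul (hs.sol i) a
  lim := hs.lim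

lemma l4_mul {V : Set ℂ} {f : ℕ → ℂ → ℝ} (hs : L4Bdd V f) (a : ℝ) :
    L4Bdd V (fun i w => a * f i w) := by
  intro ζ hζ
  obtain ⟨C, hC⟩ := hs ζ hζ
  refine ⟨a ^ 4 * C, fun i => ?_⟩
  have h1 : (∫ z, ζ z ^ 4 * (a * f i z) ^ 4) = a ^ 4 * ∫ z, ζ z ^ 4 * f i z ^ 4 := by
    rw [← integral_const_mul]
    congr 1
    funext z
    ring
  rw [h1]
  exact mul_le_mul_of_nonneg_left (hC i) (by positivity)

lemma sm_inv {V : Set ℂ} {q : ℂ → ℝ} {h : ℕ → ℝ} {f : ℕ → ℂ → ℝ} {r : ℕ → ℂ → ℂ} {a : ℝ}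
    (ha : a ≠ 0) (hs : Sm V q h (fun i w => a * f i w) r) :
    Sm V q h f (fun n z => ((a ^ 2)⁻¹ : ℝ) * r n z) := by
  have hac : (a : ℂ) ≠ 0 := by exact_mod_cast ha
  have hseq : Seq V q h f := by
    have h1 := seq_mul hs.toSeq a⁻¹
    have h2 : (fun (i : ℕ) (w : ℂ) => a⁻¹ * (a * f i w)) = f := by
      funext i w
      rw [inv_mul_cancel_left₀ ha]
    rwa [h2] at h1
  refine { toSeq := hseq, loc := ?_, mode := ?_ }
  · intro n K hK hKV
    exact (hs.loc n K hK hKV).const_mul _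
  · intro n φ hφ
    have h1 := (hs.mode n φ hφ).const_mul (((a ^ 2)⁻¹ : ℝ) : ℂ)
    have e1 : ∀ i, (∫ z, φ z * ((f i z : ℂ) * gg (h i) (f i) n z)) =
        (((a ^ 2)⁻¹ : ℝ) : ℂ) *
          ∫ z, φ z * (((a * f i z : ℝ) : ℂ) * gg (h i) (fun w => a * f i w) n z) := by
      intro i
      rw [← integral_const_mul]
      congr 1
      funext z
      rw [gg_mul (hseq.sol i).smooth]
      push_cast
      field_simp
    have e2 : (∫ z, φ z * ((((a ^ 2)⁻¹ : ℝ) : ℂ) * r n z)) =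
        (((a ^ 2)⁻¹ : ℝ) : ℂ) * ∫ z, φ z * r n z := by
      rw [← integral_const_mul]
      congr 1
      funext z
      ring
    simp_rw [e1]
    rw [e2]
    exact h1

lemma na_mul {V : Set ℂ} {q : ℂ → ℝ} {h : ℕ → ℝ} {f : ℕ → ℂ → ℝ} {a : ℝ} (ha : a ≠ 0)
    (hs : Dyn.NAloc V q h f) : Dyn.NAloc V q h (fun i w => a * f i w) := by
  intro V' τ r hV' hτ hsm w hw hw0
  have h1 := hs V' τ (fun n z => ((a ^ 2)⁻¹ : ℝ) * r n z) hV' hτ (sm_inv ha hsm) w hw hw0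
  have h2 := h1.const_mul (a ^ 4)
  rw [mul_zero] at h2
  refine h2.congr fun N => ?_
  rw [← mul_div_assoc, Finset.mul_sum]
  congr 1
  refine Finset.sum_congr rfl fun n _ => ?_
  rw [← integral_const_mul]
  congr 1
  funext z
  unfold pp
  rw [norm_mul, Complex.norm_real, Real.norm_eq_abs, mul_pow, sq_abs]
  field_simp

lemma Ed_const_mul (r c : ℝ) (W : ℂ → ℝ) (z : ℂ) : Ed r (fun w => c * W w) z = c * Ed r W z := by
  unfold Ed
  rw [integral_const_mul, smul_eq_mul, smul_eq_mul]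
  ring

end

end Pool.Agent.A54.Av.T2cM

namespace Pool.Agent.A54.Av

open MeasureTheory Filter Topology Set T2cM
open scoped ContDiff ComplexConjugate UpperHalfPlane MatrixGroups ENNReal
open Pool.Agent.A54.Half (H0 qq ff hh)
open Pool.Agent.A54.Pl (Ed)

theorem stmtT2c (hT2 : Pl.StmtT2) (h0 : StmtT2z) : StmtT2c := by
  intro V q h f c hV hc hseq hl4 hna hC
  rcases hc.eq_or_lt with hc0 | hcp
  · subst hc0
    have hC' : ∀ φ : ℂ → ℝ, TestR V φ → (∀ z, 0 ≤ φ z) → ∀ ε : ℝ, 0 < ε →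
        ∃ (R : ℝ) (ρ : ℕ → ℝ), ∀ᶠ i in atTop, 0 < ρ i ∧ ρ i ≤ R * h i ∧
          ∫ z, φ z * (Ed (ρ i) (fun w => f i w ^ 2) z) ^ 2 ≤ ε := by
      intro φ hφ hφ0 ε hε
      obtain ⟨R, ρ, hρ⟩ := hC φ hφ hφ0 ε hε
      refine ⟨R, ρ, hρ.mono fun i hi => ?_⟩
      simpa only [sub_zero] using hi
    obtain ⟨h1, h2⟩ := h0 V q h f hV hseq hl4 hC'
    refine ⟨fun φ hφ => ?_, fun φ hφ => ?_⟩
    · simpa using h1 φ hφ
    · simpa using h2 φ hφ
  · set a : ℝ := (√c)⁻¹ with ha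
    have hs : 0 < √c := Real.sqrt_pos.2 hcp
    have hs2 : √c ^ 2 = c := Real.sq_sqrt hc
    have ha0 : a ≠ 0 := inv_ne_zero hs.ne'
    have ha2 : a ^ 2 = c⁻¹ := by rw [ha, inv_pow, hs2]
    have ha4 : a ^ 4 = (c ^ 2)⁻¹ := by
      have : a ^ 4 = (a ^ 2) ^ 2 := by ring
      rw [this, ha2, inv_pow]
    have hC' : ∀ φ : ℂ → ℝ, TestR V φ → (∀ z, 0 ≤ φ z) → ∀ ε : ℝ, 0 < ε →
        ∃ (R : ℝ) (ρ : ℕ → ℝ), ∀ᶠ i in atTop, 0 < ρ i ∧ ρ i ≤ R * h i ∧
          ∫ z, φ z * (Ed (ρ i) (fun w => (a * f i w) ^ 2) z - 1) ^ 2 ≤ ε := by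
      intro φ hφ hφ0 ε hε
      obtain ⟨R, ρ, hρ⟩ := hC φ hφ hφ0 (c ^ 2 * ε) (by positivity)
      refine ⟨R, ρ, hρ.mono fun i hi => ⟨hi.1, hi.2.1, ?_⟩⟩
      have e1 : (∫ z, φ z * (Ed (ρ i) (fun w => (a * f i w) ^ 2) z - 1) ^ 2) =
          (c ^ 2)⁻¹ * ∫ z, φ z * (Ed (ρ i) (fun w => f i w ^ 2) z - c) ^ 2 := by
        rw [← integral_const_mul]
        congr 1
        funext z
        have e2 : (fun w => (a * f i w) ^ 2) = fun w => c⁻¹ * f i w ^ 2 := by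
          funext w
          rw [mul_pow, ha2]
        rw [e2, Ed_const_mul]
        field_simp
      rw [e1, inv_mul_le_iff₀ (by positivity)]
      exact hi.2.2
    obtain ⟨h1, h2⟩ := hT2 V q h (fun i w => a * f i w) hV (seq_mul hseq a) (l4_mul hl4 a)
      (na_mul ha0 hna) hC'
    refine ⟨fun φ hφ => ?_, fun φ hφ => ?_⟩
    · have h3 := (h1 φ hφ).const_mul c
      refine h3.congr fun i => ?_
      rw [← integral_const_mul]
      congr 1
      funext z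
      rw [mul_pow, ha2]
      field_simp
    · have h3 := (h2 φ hφ).const_mul (c ^ 2)
      have e3 : c ^ 2 * (3 * ∫ z, φ z) = 3 * c ^ 2 * ∫ z, φ z := by ring
      rw [e3] at h3
      refine h3.congr fun i => ?_
      rw [← integral_const_mul]
      congr 1
      funext z
      rw [mul_pow, ha4]
      field_simp

end Pool.Agent.A54.Av
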