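import Pool.Agent.Lib.MP_a54f13_nt.Av.SpecF
import Pool.Agent.Lib.MP_a54f13_nt.Pl.T2a
import Pool.Agent.Lib.MP_a54f13_nt.Pl.T2b
import Pool.Agent.Lib.MP_a54f13_nt.Pl.T2

/-!
# T2z: the flat theorem for `c = 0`
-/

set_option autoImplicit false

namespace Pool.Agent.A54.Av.T2zM

open MeasureTheory Filter Topology Set
open scoped ContDiff ComplexConjugate
open Pool.Agent.A54.Half (H0)
open Pool.Agent.A54.Rel Pool.Agent.A54.LocGen Pool.Agent.A54.Pl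

noncomputable section

variable {V : Set ℂ} {q : ℂ → ℝ} {h : ℕ → ℝ} {f : ℕ → ℂ → ℝ} {r : ℕ → ℂ → ℂ}

/-- the second moments, nonnegative test functions -/
lemma pos_case (hE3 : StmtE3) (hV : V ⊆ H0) (hS : Seq V q h f) (hB : L4Bdd V f)
    (hyp : ∀ φ : ℂ → ℝ, TestR V φ → (∀ z, 0 ≤ φ z) → ∀ ε : ℝ, 0 < ε → ∃ (R : ℝ) (ρ : ℕ → ℝ),
      ∀ᶠ i in atTop, 0 < ρ i ∧ ρ i ≤ R * h i ∧
        ∫ z, φ z * (Ed (ρ i) (fun w => f i w ^ 2) z) ^ 2 ≤ ε)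
    {φ : ℂ → ℝ} (hφ : TestR V φ) (hφ0 : ∀ z, 0 ≤ φ z) :
    Tendsto (fun i => ∫ z, φ z * f i z ^ 2) atTop (𝓝 0) := by
  have hVo := hS.pot.isOpen
  have hf : ∀ i, ContDiff ℝ ∞ (f i) := fun i => (hS.sol i).smooth
  obtain ⟨ζ, C, r0, hζ, hC, hr0, hE⟩ := hE3 V hVo hV φ hφ
  obtain ⟨K, hK0, hK⟩ := T2aM.bdd4 hVo hf hB hζ
  set P0 : ℝ := ∫ z, φ z with hP0
  have hP00 : 0 ≤ P0 := integral_nonneg hφ0
  set D : ℝ := C * √K * (√(∫ z, ζ z ^ 2 * ‖fderiv ℝ (fun _ : ℂ => (1:ℝ)) z‖ ^ 2) +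
    √(∫ z, ζ z ^ 2 * (1:ℝ) ^ 2)) with hD
  have hD0 : 0 ≤ D := by positivity
  rw [Metric.tendsto_nhds]
  intro ε' hε'
  set e : ℝ := ε' / (2 * (√P0 + 1)) with he
  have he0 : 0 < e := by positivity
  obtain ⟨R, ρ, hev⟩ := hyp φ hφ hφ0 (e ^ 2) (by positivity)
  have hlim1 : Tendsto (fun i => R * h i) atTop (𝓝 0) := by
    simpa using hS.lim.const_mul R
  have hlim2 : Tendsto (fun i => D * (R * h i)) atTop (𝓝 0) := by
    simpa using hlim1.const_mul D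
  filter_upwards [hev, hlim1.eventually (gt_mem_nhds hr0),
    hlim2.eventually (gt_mem_nhds (half_pos hε'))] with i hi h1 h2
  obtain ⟨hρ0, hρR, hint⟩ := hi
  have hF : ContDiff ℝ ∞ (fun w => f i w ^ 2) := (hf i).pow 2
  have hEdc : Continuous (Ed (ρ i) (fun w => f i w ^ 2)) := continuous_Ed hF.continuous _
  have hEi := hE (ρ i) hρ0 (hρR.trans h1.le) (fun w => f i w ^ 2) (fun _ => 1) hF contDiff_const
  have herr : |(∫ z, φ z * (1 * Ed (ρ i) (fun w => f i w ^ 2) z)) -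
      ∫ z, φ z * (1 * f i z ^ 2)| < ε' / 2 := by
    refine lt_of_le_of_lt (hEi.trans ?_) h2
    calc C * ρ i * √(∫ z, ζ z ^ 2 * (f i z ^ 2) ^ 2) *
          (√(∫ z, ζ z ^ 2 * ‖fderiv ℝ (fun _ : ℂ => (1:ℝ)) z‖ ^ 2) +
            √(∫ z, ζ z ^ 2 * (1:ℝ) ^ 2))
        ≤ C * ρ i * √K * (√(∫ z, ζ z ^ 2 * ‖fderiv ℝ (fun _ : ℂ => (1:ℝ)) z‖ ^ 2) +
            √(∫ z, ζ z ^ 2 * (1:ℝ) ^ 2)) := by
          gcongr
          exact hK i
      _ = D * ρ i := by rw [hD]; ring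
      _ ≤ D * (R * h i) := mul_le_mul_of_nonneg_left hρR hD0
  have hcs : |∫ z, φ z * Ed (ρ i) (fun w => f i w ^ 2) z| ≤ ε' / 2 := by
    have h3 := cs (w := φ) (a := fun z => Ed (ρ i) (fun w => f i w ^ 2) z) (b := fun _ => 1)
      hφ0 (T2aM.integrable_mul hφ (hEdc.pow 2))
      (T2aM.integrable_mul hφ continuous_const)
      (T2aM.integrable_mul hφ (hEdc.mul continuous_const))
    simp only [mul_one, one_pow] at h3
    have h4 : (∫ z, φ z * Ed (ρ i) (fun w => f i w ^ 2) z) ^ 2 ≤ e ^ 2 * P0 :=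
      h3.trans (mul_le_mul_of_nonneg_right hint hP00)
    have h5 : e ^ 2 * P0 = (e * √P0) ^ 2 := by
      rw [mul_pow, Real.sq_sqrt hP00]
    rw [h5] at h4
    have h6 := abs_le_of_sq_le_sq h4 (by positivity)
    have h7 : |∫ z, φ z * Ed (ρ i) (fun w => f i w ^ 2) z| ≤ e * √P0 := h6
    refine h7.trans ?_
    have h8 : e * (2 * (√P0 + 1)) = ε' := by
      rw [he]
      have : (2 * (√P0 + 1)) ≠ 0 := by positivity
      field_simp
    nlinarith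
  have hsplit : (∫ z, φ z * f i z ^ 2) - 0 =
      -((∫ z, φ z * (1 * Ed (ρ i) (fun w => f i w ^ 2) z)) - ∫ z, φ z * (1 * f i z ^ 2)) +
        ∫ z, φ z * Ed (ρ i) (fun w => f i w ^ 2) z := by
    simp only [one_mul]
    ring
  rw [Real.dist_eq, hsplit]
  calc _ ≤ |-((∫ z, φ z * (1 * Ed (ρ i) (fun w => f i w ^ 2) z)) -
        ∫ z, φ z * (1 * f i z ^ 2))| + |∫ z, φ z * Ed (ρ i) (fun w => f i w ^ 2) z| :=
        abs_add_le _ _
    _ < ε' / 2 + ε' / 2 := by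
        rw [abs_neg]
        exact add_lt_add_of_lt_of_le herr hcs
    _ = ε' := add_halves ε'

/-- the second moments -/
lemma second (hE3 : StmtE3) (hV : V ⊆ H0) (hS : Seq V q h f) (hB : L4Bdd V f)
    (hyp : ∀ φ : ℂ → ℝ, TestR V φ → (∀ z, 0 ≤ φ z) → ∀ ε : ℝ, 0 < ε → ∃ (R : ℝ) (ρ : ℕ → ℝ),
      ∀ᶠ i in atTop, 0 < ρ i ∧ ρ i ≤ R * h i ∧
        ∫ z, φ z * (Ed (ρ i) (fun w => f i w ^ 2) z) ^ 2 ≤ ε)
    {φ : ℂ → ℝ} (hφ : TestR V φ) :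
    Tendsto (fun i => ∫ z, φ z * f i z ^ 2) atTop (𝓝 0) := by
  have hVo := hS.pot.isOpen
  obtain ⟨C, hC0, hC⟩ := test_bdd hφ
  obtain ⟨χ, hχ, hχ1, hχe⟩ := exists_cutoff hφ.cpt.isCompact hVo hφ.sub
  have hχφ : ∀ z, χ z * φ z = φ z := by
    intro z
    by_cases hz : z ∈ tsupport φ
    · rw [hχe.self_of_nhdsSet z hz, one_mul]
    · rw [image_eq_zero_of_notMem_tsupport hz, mul_zero]
  have h1 : TestR V (fun z => χ z * (φ z + C)) := hχ.mul_right (hφ.smooth.add contDiff_const)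
  have h2 : TestR V (fun z => χ z * C) := hχ.mul_right contDiff_const
  have t1 := pos_case hE3 hV hS hB hyp h1 (fun z => mul_nonneg (hχ1 z).1
    (by linarith [(abs_le.mp (hC z)).1]))
  have t2 := pos_case hE3 hV hS hB hyp h2 (fun z => mul_nonneg (hχ1 z).1 hC0)
  have t3 := t1.sub t2
  rw [sub_zero] at t3
  refine t3.congr fun i => ?_
  have hfc : Continuous fun z => f i z ^ 2 := ((hS.sol i).smooth.continuous.pow 2)
  rw [← integral_sub (T2aM.integrable_mul h1 hfc) (T2aM.integrable_mul h2 hfc)]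
  refine integral_congr_ae (Eventually.of_forall fun z => ?_)
  have h3 : χ z * (φ z + C) * f i z ^ 2 - χ z * C * f i z ^ 2 = (χ z * φ z) * f i z ^ 2 := by
    ring
  simp only
  rw [h3, hχφ z]

/-- the weak limit of the squares is zero -/
lemma rho_zero (hS : Sm V q h f r)
    (hw : ∀ w : ℂ → ℝ, TestR V w → ∫ z, w z * rho r z = 0) :
    ∀ᵐ z, z ∈ V → rho r z = 0 := by
  have hV := hS.pot.isOpen
  have hint : ∀ K : Set ℂ, IsCompact K → K ⊆ V → IntegrableOn (rho r) K := by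
    intro K hK hKV
    have : IsFiniteMeasure (volume.restrict K : Measure ℂ) :=
      ⟨by rw [Measure.restrict_apply_univ]; exact hK.measure_lt_top⟩
    exact ((L2loc_rho hS K hK hKV).integrable (by norm_num)).re
  have hloc : LocallyIntegrableOn (fun z => rho r z) V := by
    rw [locallyIntegrableOn_iff hV.isLocallyClosed]
    intro K hKV hK
    exact hint K hK hKV
  have h1 := hV.ae_eq_zero_of_integral_contDiff_smul_eq_zero hloc fun g h1 h2 h3 => by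
    have hg : TestR V g := ⟨h1, h2, h3⟩
    simp_rw [smul_eq_mul]
    exact hw g hg
  filter_upwards [h1] with z hz hzV
  exact hz hzV

/-- one step: the inequality for a fixed index -/
lemma step {φ : ℂ → ℝ} (hφ : TestR V φ) (hφ0 : ∀ z, 0 ≤ φ z) {F G : ℂ → ℝ} (hF : Continuous F)
    (hG : Continuous G) {ρ ε D : ℝ}
    (h1 : |(∫ z, φ z * (G z * Ed ρ F z)) - ∫ z, φ z * (G z * F z)| ≤ D)
    (h2 : ∫ z, φ z * (Ed ρ F z) ^ 2 ≤ ε) :
    ∫ z, φ z * (F z * G z) ≤ √(∫ z, φ z * G z ^ 2) * √ε + D := by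
  have cE : Continuous (Ed ρ F) := continuous_Ed hF ρ
  have h3 := cs (w := φ) (a := G) (b := fun z => Ed ρ F z) hφ0
    (integrable_testR hφ (hG.pow 2)) (integrable_testR hφ (cE.pow 2))
    (integrable_testR hφ (hG.mul cE))
  have h4 : ∫ z, φ z * (G z * Ed ρ F z) ≤ √(∫ z, φ z * G z ^ 2) * √ε := by
    have i0 : 0 ≤ ∫ z, φ z * G z ^ 2 :=
      integral_nonneg fun z => mul_nonneg (hφ0 z) (sq_nonneg _)
    rw [← Real.sqrt_mul i0]
    refine Real.le_sqrt_of_sq_le (h3.trans ?_)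
    exact mul_le_mul_of_nonneg_left h2 i0
  have h6 : ∫ z, φ z * (F z * G z) = ∫ z, φ z * (G z * F z) := by
    congr 1; funext z; ring
  have h7 := (abs_le.mp h1).1
  rw [h6]
  linarith

/-- the inequality for fixed `ε` and all `M` -/
lemma main_ineq (hE3 : StmtE3) (hS1 : StmtS1) (hQ1 : Pl.StmtQ1) (hRel : StmtRel) (hOdd : StmtOdd)
    (hOL : StmtOddLim) (hI : StmtIneq) (hL4 : StmtL4) (hVH : V ⊆ H0)
    (hS : Sm V q h f r) (hB : L4Bdd V f) {φ : ℂ → ℝ} (hφ : TestR V φ) (hφ0 : ∀ z, 0 ≤ φ z)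
    (hP0 : PP q r φ 0 = 0) {m4 : ℝ}
    (hm4 : Tendsto (fun i => ∫ z, φ z * f i z ^ 4) atTop (𝓝 m4)) {ε R : ℝ} {ρ : ℕ → ℝ}
    (hρ : ∀ᶠ i in atTop, 0 < ρ i ∧ ρ i ≤ R * h i ∧
      ∫ z, φ z * (Ed (ρ i) (fun w => f i w ^ 2) z) ^ 2 ≤ ε) :
    ∃ D : ℝ, ∀ M : ℕ, 4 / 3 * M * m4 ≤
      4 * M * 0 + √(8 / 3 * M ^ 2 * m4) * √ε + D := by
  obtain ⟨ζ, C, r0, hζ, hC, hr0, hE⟩ := hE3 V hS.pot.isOpen hVH φ hφ
  obtain ⟨C1, hC1, hS1'⟩ := hS1 V q h f r hS hB ζ hζ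
  obtain ⟨B4, hB4, hB4'⟩ := T2bM.four_bdd hL4 hS.toSeq hB hζ
  have hR : 0 < R := by
    obtain ⟨i, hi1, hi2, _⟩ := hρ.exists
    have h1 := (hS.sol i).hpos
    by_contra hcon
    rw [not_lt] at hcon
    have : R * h i ≤ 0 := mul_nonpos_of_nonpos_of_nonneg hcon h1.le
    linarith
  refine ⟨C * √B4 * (R * √C1), fun M => ?_⟩
  obtain ⟨BX, hBX, hBX'⟩ := T2bM.XX_bdd' hL4 hS.toSeq hB (2 * M) hζ
  have hsmall : ∀ᶠ i in atTop, R * h i < r0 := by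
    have h1 : Tendsto (fun i => R * h i) atTop (𝓝 (R * 0)) := hS.lim.const_mul R
    rw [mul_zero] at h1
    exact h1.eventually (gt_mem_nhds hr0)
  have hev : ∀ᶠ i in atTop,
      ∫ z, φ z * (f i z ^ 2 * XX q (h i) (f i) (fun _ => 1) (2 * M) z) ≤
          √(∫ z, φ z * XX q (h i) (f i) (fun _ => 1) (2 * M) z ^ 2) * √ε +
          C * √B4 * (R * √C1 + R * h i * √BX) := by
    filter_upwards [hρ, hsmall, hS1' (2 * M)] with i hi hi2 hi3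
    obtain ⟨hρ0, hρ1, hρ2⟩ := hi
    have hh := (hS.sol i).hpos
    have hf := (hS.sol i).smooth
    have hX := T2bM.contDiff_XX hS.pot hf (h i) (2 * M)
    have h1 := hE (ρ i) hρ0 (hρ1.trans hi2.le) (fun w => f i w ^ 2) _ (hf.pow 2) hX
    refine step hφ hφ0 (hf.continuous.pow 2) hX.continuous (h1.trans ?_) hρ2
    have e1 : √(∫ z, ζ z ^ 2 * (f i z ^ 2) ^ 2) ≤ √B4 := Real.sqrt_le_sqrt (hB4' i)
    have e2 : √(∫ z, ζ z ^ 2 * XX q (h i) (f i) (fun _ => 1) (2 * M) z ^ 2) ≤ √BX :=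
      Real.sqrt_le_sqrt (hBX' i)
    have e3 : ρ i * √(∫ z, ζ z ^ 2 *
        ‖fderiv ℝ (XX q (h i) (f i) (fun _ => 1) (2 * M)) z‖ ^ 2) ≤ R * √C1 := by
      have g1 : h i * √(∫ z, ζ z ^ 2 *
          ‖fderiv ℝ (XX q (h i) (f i) (fun _ => 1) (2 * M)) z‖ ^ 2) ≤ √C1 := by
        have g2 : h i * √(∫ z, ζ z ^ 2 *
            ‖fderiv ℝ (XX q (h i) (f i) (fun _ => 1) (2 * M)) z‖ ^ 2) =
            √(∫ z, ζ z ^ 2 *
              (h i * ‖fderiv ℝ (XX q (h i) (f i) (fun _ => 1) (2 * M)) z‖) ^ 2) := by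
          have g3 : ∫ z, ζ z ^ 2 *
              (h i * ‖fderiv ℝ (XX q (h i) (f i) (fun _ => 1) (2 * M)) z‖) ^ 2 =
              h i ^ 2 * ∫ z, ζ z ^ 2 *
                ‖fderiv ℝ (XX q (h i) (f i) (fun _ => 1) (2 * M)) z‖ ^ 2 := by
            rw [← integral_const_mul]
            congr 1; funext z; ring
          rw [g3, Real.sqrt_mul (sq_nonneg _), Real.sqrt_sq hh.le]
        rw [g2]
        exact Real.sqrt_le_sqrt hi3
      calc _ ≤ R * h i * √(∫ z, ζ z ^ 2 *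
            ‖fderiv ℝ (XX q (h i) (f i) (fun _ => 1) (2 * M)) z‖ ^ 2) :=
            mul_le_mul_of_nonneg_right hρ1 (Real.sqrt_nonneg _)
        _ = R * (h i * √(∫ z, ζ z ^ 2 *
            ‖fderiv ℝ (XX q (h i) (f i) (fun _ => 1) (2 * M)) z‖ ^ 2)) := by ring
        _ ≤ _ := mul_le_mul_of_nonneg_left g1 hR.le
    have e4 : ρ i * √(∫ z, ζ z ^ 2 * XX q (h i) (f i) (fun _ => 1) (2 * M) z ^ 2) ≤
        R * h i * √BX :=
      mul_le_mul hρ1 e2 (Real.sqrt_nonneg _) (by positivity)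
    have e5 : ρ i * (√(∫ z, ζ z ^ 2 *
        ‖fderiv ℝ (XX q (h i) (f i) (fun _ => 1) (2 * M)) z‖ ^ 2) +
        √(∫ z, ζ z ^ 2 * XX q (h i) (f i) (fun _ => 1) (2 * M) z ^ 2)) ≤
        R * √C1 + R * h i * √BX := by
      rw [mul_add]
      exact add_le_add e3 e4
    have e6 : 0 ≤ ρ i * (√(∫ z, ζ z ^ 2 *
        ‖fderiv ℝ (XX q (h i) (f i) (fun _ => 1) (2 * M)) z‖ ^ 2) +
        √(∫ z, ζ z ^ 2 * XX q (h i) (f i) (fun _ => 1) (2 * M) z ^ 2)) := by positivity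
    calc _ = C * √(∫ z, ζ z ^ 2 * (f i z ^ 2) ^ 2) * (ρ i * (√(∫ z, ζ z ^ 2 *
          ‖fderiv ℝ (XX q (h i) (f i) (fun _ => 1) (2 * M)) z‖ ^ 2) +
          √(∫ z, ζ z ^ 2 * XX q (h i) (f i) (fun _ => 1) (2 * M) z ^ 2))) := by ring
      _ ≤ _ := mul_le_mul (mul_le_mul_of_nonneg_left e1 hC) e5 e6 (by positivity)
  have l1 := T2bM.first_lim hQ1 hS hB hφ hm4 M
  have l2 := T2bM.sq_lim hRel hOdd hOL hS hB hφ hm4 M
  have l4 : Tendsto (fun i => C * √B4 * (R * √C1 + R * h i * √BX)) atTop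
      (𝓝 (C * √B4 * (R * √C1 + R * 0 * √BX))) :=
    (((hS.lim.const_mul R).mul_const (√BX)).const_add (R * √C1)).const_mul (C * √B4)
  have l5 := ((Real.continuous_sqrt.continuousAt.tendsto.comp l2).mul_const (√ε)).add l4
  have hlim := le_of_tendsto_of_tendsto l1 l5 hev
  rw [hP0] at hlim
  have hP := T2bM.PP_le hI hS hφ hφ0
  have hps := T2bM.pairSum_le hP M
  rw [hP0] at hps
  have hL2 : √(8 / 3 * M ^ 2 * m4 + (pairSum (PP q r φ) (2 * M) - 4 * M ^ 2 * 0)) ≤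
      √(8 / 3 * M ^ 2 * m4) := Real.sqrt_le_sqrt (by linarith)
  have hL3 := mul_le_mul_of_nonneg_right hL2 (Real.sqrt_nonneg ε)
  have hsum : 0 ≤ ∑ k ∈ Finset.Icc 1 M, PP q r φ (2 * k) :=
    Finset.sum_nonneg fun k _ => T2bM.PP_nonneg hS.pot hφ0 _
  simp only [mul_zero, zero_mul, add_zero, sub_zero, zero_add] at hlim hL3 ⊢
  linarith

/-- upper bound for the limits of the fourth moments -/
lemma upper (hE3 : StmtE3) (hS1 : StmtS1) (hQ1 : Pl.StmtQ1) (hRel : StmtRel) (hOdd : StmtOdd)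
    (hOL : StmtOddLim) (hI : StmtIneq) (hL4 : StmtL4) (hVH : V ⊆ H0)
    (hS : Sm V q h f r) (hB : L4Bdd V f)
    (hC : ∀ φ : ℂ → ℝ, TestR V φ → (∀ z, 0 ≤ φ z) → ∀ ε : ℝ, 0 < ε → ∃ (R : ℝ) (ρ : ℕ → ℝ),
      ∀ᶠ i in atTop, 0 < ρ i ∧ ρ i ≤ R * h i ∧
        ∫ z, φ z * (Ed (ρ i) (fun w => f i w ^ 2) z) ^ 2 ≤ ε)
    {φ : ℂ → ℝ} (hφ : TestR V φ) (hφ0 : ∀ z, 0 ≤ φ z) {m4 : ℝ}
    (hm4 : Tendsto (fun i => ∫ z, φ z * f i z ^ 4) atTop (𝓝 m4)) : m4 ≤ 0 := by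
  have hw : ∀ w : ℂ → ℝ, TestR V w → ∫ z, w z * rho r z = 0 := fun w hw =>
    tendsto_nhds_unique (Ratio.second_lim hI hS hw) (second hE3 hVH hS.toSeq hB hC hw)
  have h1 := rho_zero hS hw
  have hP0 : PP q r φ 0 = 0 := by
    rw [← (integrable_rho_sq hI hS hφ).2, ← integral_zero ℂ ℝ]
    apply integral_congr_ae
    filter_upwards [h1] with z hz
    by_cases hV : z ∈ V
    · show φ z * rho r z ^ 2 = 0
      rw [hz hV]; ring
    · show φ z * rho r z ^ 2 = 0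
      rw [hφ.eq_zero hV]; ring
  have h2 : m4 ≤ 3 * 0 := by
    refine T2bM.concl fun ε hε => ?_
    obtain ⟨R, ρ, hρ⟩ := hC φ hφ hφ0 ε hε
    exact main_ineq hE3 hS1 hQ1 hRel hOdd hOL hI hL4 hVH hS hB hφ hφ0 hP0 hm4 hρ
  linarith

/-- the fourth moments, nonnegative test functions -/
lemma nonneg (hE3 : StmtE3) (hS1 : StmtS1) (hQ1 : Pl.StmtQ1) (hRel : StmtRel) (hOdd : StmtOdd)
    (hOL : StmtOddLim) (hI : StmtIneq) (hL4 : StmtL4) (hComp : StmtComp) (hVH : V ⊆ H0)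
    (hS : Seq V q h f) (hB : L4Bdd V f)
    (hC : ∀ φ : ℂ → ℝ, TestR V φ → (∀ z, 0 ≤ φ z) → ∀ ε : ℝ, 0 < ε → ∃ (R : ℝ) (ρ : ℕ → ℝ),
      ∀ᶠ i in atTop, 0 < ρ i ∧ ρ i ≤ R * h i ∧
        ∫ z, φ z * (Ed (ρ i) (fun w => f i w ^ 2) z) ^ 2 ≤ ε)
    {φ : ℂ → ℝ} (hφ : TestR V φ) (hφ0 : ∀ z, 0 ≤ φ z) :
    Tendsto (fun i => ∫ z, φ z * f i z ^ 4) atTop (𝓝 0) := by
  have hfc : ∀ i, Continuous (f i) := fun i => (hS.sol i).smooth.continuous
  by_contra hcon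
  rw [Metric.tendsto_nhds] at hcon
  push Not at hcon
  obtain ⟨ε, hε, hfr⟩ := hcon
  have hfr' : ∃ᶠ i in atTop, ε ≤ |∫ z, φ z * f i z ^ 4| := by
    refine hfr.mono fun i hi => ?_
    rw [Real.dist_eq, sub_zero] at hi
    exact hi
  obtain ⟨σ, hσ, hσ'⟩ := Filter.extraction_of_frequently_atTop hfr'
  obtain ⟨C, hCb⟩ := T2M.four_bdd hS.pot.isOpen hfc hB hφ
  have hmem : ∀ i, (∫ z, φ z * f (σ i) z ^ 4) ∈ Icc 0 C := fun i =>
    ⟨integral_nonneg fun z => mul_nonneg (hφ0 z) (by positivity), hCb _⟩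
  obtain ⟨m4, hm40, τ, hτ, hm4⟩ := isCompact_Icc.tendsto_subseq hmem
  have hστ : StrictMono (fun i => σ (τ i)) := hσ.comp hτ
  have hS' : Seq V q (fun i => h (σ (τ i))) (fun i => f (σ (τ i))) :=
    Seq.sub hS hS.pot.isOpen subset_rfl (σ := fun i => σ (τ i)) hστ.tendsto_atTop
  have hB' : L4Bdd V (fun i => f (σ (τ i))) := by
    intro ζ hζ
    obtain ⟨C, hC⟩ := hB ζ hζ
    exact ⟨C, fun i => hC _⟩
  obtain ⟨κ, r, hκ, hSm⟩ := hComp V q _ _ hS' hB'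
  have hall : StrictMono (fun i => σ (τ (κ i))) := hστ.comp hκ
  have hB'' : L4Bdd V (fun i => f (σ (τ (κ i)))) := by
    intro ζ hζ
    obtain ⟨C, hC⟩ := hB ζ hζ
    exact ⟨C, fun i => hC _⟩
  have hm4' : Tendsto (fun i => ∫ z, φ z * f (σ (τ (κ i))) z ^ 4) atTop (𝓝 m4) :=
    hm4.comp hκ.tendsto_atTop
  have hup : m4 ≤ 0 := by
    refine upper hE3 hS1 hQ1 hRel hOdd hOL hI hL4 hVH hSm hB'' ?_ hφ hφ0 hm4'
    intro w hw hw0 δ hδ
    obtain ⟨R, ρ, hev⟩ := hC w hw hw0 δ hδ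
    exact ⟨R, fun i => ρ (σ (τ (κ i))), hall.tendsto_atTop.eventually hev⟩
  have heq : m4 = 0 := le_antisymm hup hm40.1
  have h5 : ∀ᶠ i in atTop, |∫ z, φ z * f (σ (τ (κ i))) z ^ 4| < ε := by
    have := hm4'.eventually (Metric.ball_mem_nhds m4 hε)
    filter_upwards [this] with i hi
    have hi' : dist (∫ z, φ z * f (σ (τ (κ i))) z ^ 4) m4 < ε := hi
    rw [Real.dist_eq, heq, sub_zero] at hi'
    exact hi'
  obtain ⟨i, hi⟩ := h5.exists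
  exact absurd (hσ' (τ (κ i))) (not_le.mpr hi)

end

end Pool.Agent.A54.Av.T2zM

namespace Pool.Agent.A54.Av

open MeasureTheory Filter Topology Set
open scoped ContDiff ComplexConjugate
open Pool.Agent.A54.Rel Pool.Agent.A54.LocGen
open Pool.Agent.A54.Half (H0)

theorem stmtT2z (hE3 : Pl.StmtE3) (hS1 : Pl.StmtS1) (hQ1 : Pl.StmtQ1) (hRel : StmtRel)
    (hOdd : StmtOdd) (hOL : StmtOddLim) (_hW : StmtWeak2) (hI : StmtIneq) (hL4 : StmtL4)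
    (hComp : StmtComp) : StmtT2z := by
  intro V q h f hVH hS hB hC
  refine ⟨fun φ hφ => T2zM.second hE3 hVH hS hB hC hφ, fun φ hφ => ?_⟩
  obtain ⟨χ, hχ, hχ01, hχ1⟩ := exists_cutoff hφ.cpt.isCompact hS.pot.isOpen hφ.sub
  obtain ⟨Z, hZ0, hZ⟩ := test_bdd hφ
  have hψ : TestR V (fun z => φ z + Z * χ z) := by
    refine ⟨hφ.smooth.add (contDiff_const.mul hχ.smooth), hφ.cpt.add hχ.cpt.mul_left, ?_⟩
    refine (tsupport_add φ (fun z => Z * χ z)).trans (union_subset hφ.sub ?_)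
    exact (tsupport_mul_subset_right (f := fun _ => Z) (g := χ)).trans hχ.sub
  have hψ0 : ∀ z, 0 ≤ φ z + Z * χ z := by
    intro z
    by_cases hz : z ∈ tsupport φ
    · have e1 : χ z = 1 := hχ1.self_of_nhdsSet z hz
      rw [e1]
      have := (abs_le.mp (hZ z)).1
      linarith
    · rw [image_eq_zero_of_notMem_tsupport hz, zero_add]
      exact mul_nonneg hZ0 (hχ01 z).1
  have k1 := T2zM.nonneg hE3 hS1 hQ1 hRel hOdd hOL hI hL4 hComp hVH hS hB hC hψ hψ0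
  have k2 := (T2zM.nonneg hE3 hS1 hQ1 hRel hOdd hOL hI hL4 hComp hVH hS hB hC hχ
    (fun z => (hχ01 z).1)).const_mul Z
  have k3 := k1.sub k2
  rw [mul_zero, sub_zero] at k3
  refine k3.congr fun i => ?_
  have c4 : Continuous (fun z => f i z ^ 4) := (hS.sol i).smooth.continuous.pow 4
  rw [← integral_const_mul, ← integral_sub (integrable_testR hψ c4)
    ((integrable_testR hχ c4).const_mul Z)]
  congr 1; funext z; ring

end Pool.Agent.A54.Av
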