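import Pool.Agent.Lib.MP_a54f13_nt.Av.SpecA

/-!
# Module ThI: invariance and symmetry of the theta series
-/

set_option autoImplicit false

namespace Pool.Agent.A54.Av.ThIM

open MeasureTheory Filter Topology Set Pool.Agent.A54.Av
open scoped ComplexConjugate
open Pool.Agent.A54.Half (H0 qq ff hh)

noncomputable section

/-- `γ ↦ γ T` -/
def eT : Mat ≃ Mat where
  toFun γ := !![γ 0 0, γ 0 0 + γ 0 1; γ 1 0, γ 1 0 + γ 1 1]
  invFun γ := !![γ 0 0, γ 0 1 - γ 0 0; γ 1 0, γ 1 1 - γ 1 0]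
  left_inv γ := by
    ext i j
    fin_cases i <;> fin_cases j <;> simp
  right_inv γ := by
    ext i j
    fin_cases i <;> fin_cases j <;> simp

/-- `γ ↦ γ S` -/
def eS : Mat ≃ Mat where
  toFun γ := !![γ 0 1, -γ 0 0; γ 1 1, -γ 1 0]
  invFun γ := !![-γ 0 1, γ 0 0; -γ 1 1, γ 1 0]
  left_inv γ := by
    ext i j
    fin_cases i <;> fin_cases j <;> simp
  right_inv γ := by
    ext i j
    fin_cases i <;> fin_cases j <;> simp

/-- the adjugate -/
def eA : Mat ≃ Mat where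
  toFun γ := !![γ 1 1, -γ 0 1; -γ 1 0, γ 0 0]
  invFun γ := !![γ 1 1, -γ 0 1; -γ 1 0, γ 0 0]
  left_inv γ := by
    ext i j
    fin_cases i <;> fin_cases j <;> simp
  right_inv γ := by
    ext i j
    fin_cases i <;> fin_cases j <;> simp

lemma det_eT (γ : Mat) : (eT γ).det = γ.det := by
  simp only [eT, Equiv.coe_fn_mk, Matrix.det_fin_two, Matrix.of_apply, Matrix.cons_val',
    Matrix.cons_val_zero, Matrix.cons_val_one, Matrix.cons_val_fin_one]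
  ring

lemma det_eS (γ : Mat) : (eS γ).det = γ.det := by
  simp only [eS, Equiv.coe_fn_mk, Matrix.det_fin_two, Matrix.of_apply, Matrix.cons_val',
    Matrix.cons_val_zero, Matrix.cons_val_one, Matrix.cons_val_fin_one]
  ring

lemma det_eA (γ : Mat) : (eA γ).det = γ.det := by
  simp only [eA, Equiv.coe_fn_mk, Matrix.det_fin_two, Matrix.of_apply, Matrix.cons_val',
    Matrix.cons_val_zero, Matrix.cons_val_one, Matrix.cons_val_fin_one]
  ring

lemma VV_eT (γ : Mat) (w τ : ℂ) : VV (eT γ) w τ = VV γ w (τ + 1) := by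
  unfold VV eT
  simp only [Equiv.coe_fn_mk, Matrix.of_apply, Matrix.cons_val', Matrix.cons_val_zero,
    Matrix.cons_val_one, Matrix.cons_val_fin_one, Complex.add_im, Complex.one_im, add_zero]
  congr 3
  push_cast
  ring

lemma VV_eS (γ : Mat) (w τ : ℂ) (hτ : τ ∈ H0) : VV (eS γ) w τ = VV γ w (-τ⁻¹) := by
  have hτ0 : τ ≠ 0 := by
    rintro rfl
    simp [H0] at hτ
  have him : 0 < τ.im := hτ
  have hn : 0 < ‖τ‖ ^ 2 := by positivity
  unfold VV eS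
  simp only [Equiv.coe_fn_mk, Matrix.of_apply, Matrix.cons_val', Matrix.cons_val_zero,
    Matrix.cons_val_one, Matrix.cons_val_fin_one]
  have h1 : (-τ⁻¹).im = τ.im / ‖τ‖ ^ 2 := by
    rw [Complex.neg_im, Complex.inv_im, Complex.normSq_eq_norm_sq]
    ring
  have h2 : ((γ 0 0 : ℤ) : ℂ) * -τ⁻¹ + ((γ 0 1 : ℤ) : ℂ) -
      w * (((γ 1 0 : ℤ) : ℂ) * -τ⁻¹ + ((γ 1 1 : ℤ) : ℂ)) =
      τ⁻¹ * (((γ 0 1 : ℤ) : ℂ) * τ + ((-γ 0 0 : ℤ) : ℂ) -
        w * (((γ 1 1 : ℤ) : ℂ) * τ + ((-γ 1 0 : ℤ) : ℂ))) := by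
    push_cast
    field_simp
    ring
  rw [h1, h2, norm_mul, norm_inv, mul_pow, inv_pow]
  by_cases hw : w.im = 0
  · simp [hw]
  field_simp

lemma VV_eA (γ : Mat) (z w : ℂ) : VV (eA γ) z w = VV γ w z := by
  unfold VV eA
  simp only [Equiv.coe_fn_mk, Matrix.of_apply, Matrix.cons_val', Matrix.cons_val_zero,
    Matrix.cons_val_one, Matrix.cons_val_fin_one]
  have h1 : ((γ 1 1 : ℤ) : ℂ) * w + ((-γ 0 1 : ℤ) : ℂ) -
      z * (((-γ 1 0 : ℤ) : ℂ) * w + ((γ 0 0 : ℤ) : ℂ)) =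
      -(((γ 0 0 : ℤ) : ℂ) * z + ((γ 0 1 : ℤ) : ℂ) -
        w * (((γ 1 0 : ℤ) : ℂ) * z + ((γ 1 1 : ℤ) : ℂ))) := by
    push_cast
    ring
  rw [h1, norm_neg]
  congr 1
  ring

lemma Th_eT (z w τ : ℂ) : Th z w (τ + 1) = Th z w τ := by
  unfold Th
  rw [← eT.tsum_eq (fun γ => kk γ z w τ)]
  refine tsum_congr fun γ => ?_
  unfold kk
  rw [det_eT, VV_eT]

lemma Th_eS (z w τ : ℂ) (hτ : τ ∈ H0) : Th z w (-τ⁻¹) = Th z w τ := by
  unfold Th
  rw [← eS.tsum_eq (fun γ => kk γ z w τ)]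
  refine tsum_congr fun γ => ?_
  unfold kk
  rw [det_eS, VV_eS _ _ _ hτ]

lemma Th_eA (τ z w : ℂ) : Th τ z w = Th τ w z := by
  unfold Th
  rw [← eA.tsum_eq (fun γ => kk γ τ z w)]
  refine tsum_congr fun γ => ?_
  unfold kk
  rw [det_eA, VV_eA]

end

end Pool.Agent.A54.Av.ThIM

namespace Pool.Agent.A54.Av

open Pool.Agent.A54.Half (H0 qq ff hh)

theorem stmtThI (hTri : StmtTri) : StmtThI := by
  intro τ z w hτ hz hw
  have h1 : τ + 1 ∈ H0 := by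
    have : 0 < τ.im := hτ
    change 0 < (τ + 1).im
    simpa using this
  have h2 : -τ⁻¹ ∈ H0 := by
    have him : 0 < τ.im := hτ
    have hτ0 : τ ≠ 0 := by
      rintro rfl
      simp at him
    change 0 < (-τ⁻¹).im
    rw [Complex.neg_im, Complex.inv_im, neg_div, neg_neg]
    exact div_pos him (Complex.normSq_pos.mpr hτ0)
  refine ⟨?_, ?_, ThIM.Th_eA τ z w⟩
  · rw [hTri (τ + 1) z w h1 hz hw, hTri τ z w hτ hz hw, ThIM.Th_eT]
  · rw [hTri (-τ⁻¹) z w h2 hz hw, hTri τ z w hτ hz hw, ThIM.Th_eS z w τ hτ]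

end Pool.Agent.A54.Av
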