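import Pool.Agent.Lib.MP_a54f13_nt.Av.SpecA

set_option autoImplicit false

namespace Pool.Agent.A54.Av.TriM

open MeasureTheory Filter Topology Set
open scoped ContDiff ComplexConjugate UpperHalfPlane MatrixGroups ENNReal
open Pool.Agent.A54.Half (H0)
open Pool.Agent.A54.Av

/-- base summability -/
theorem base_sum (α : ℝ) (hα : 0 < α) :
    Summable (fun m : ℤ => Real.exp (-(Real.pi * α * (m : ℝ) ^ 2))) := by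
  have h := ((summable_jacobiTheta₂_term_iff 0 (Complex.I * α)).2 (by simpa using hα)).norm
  refine h.congr fun m => ?_
  rw [jacobiTheta₂_term, Complex.norm_exp]
  congr 1
  have : 2 * (Real.pi : ℂ) * Complex.I * (m : ℂ) * 0 +
      (Real.pi : ℂ) * Complex.I * (m : ℂ) ^ 2 * (Complex.I * α) =
      ((-(Real.pi * α * (m : ℝ) ^ 2) : ℝ) : ℂ) := by
    push_cast
    linear_combination ((Real.pi : ℂ) * α * (m : ℂ) ^ 2) * Complex.I_mul_I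
  rw [this, Complex.ofReal_re]

/-- uniform bound for shifted Gaussian sums -/
theorem gsum (α : ℝ) (hα : 0 < α) : ∃ C : ℝ, 0 ≤ C ∧ ∀ s : ℝ,
    Summable (fun m : ℤ => Real.exp (-(Real.pi * α * ((m : ℝ) + s) ^ 2))) ∧
    ∑' m : ℤ, Real.exp (-(Real.pi * α * ((m : ℝ) + s) ^ 2)) ≤ C := by
  have hb := base_sum (α / 2) (half_pos hα)
  set g : ℤ → ℝ := fun m => Real.exp (Real.pi * α) *
    Real.exp (-(Real.pi * (α / 2) * (m : ℝ) ^ 2)) with hg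
  have hgs : Summable g := hb.mul_left _
  refine ⟨∑' m, g m, tsum_nonneg fun m => by positivity, fun s => ?_⟩
  -- shift
  have hgs' : Summable (fun m : ℤ => g (m + ⌊s⌋)) := hgs.comp_injective (add_left_injective ⌊s⌋)
  have hle : ∀ m : ℤ, Real.exp (-(Real.pi * α * ((m : ℝ) + s) ^ 2)) ≤ g (m + ⌊s⌋) := by
    intro m
    simp only [hg]
    rw [← Real.exp_add]
    apply Real.exp_le_exp.2
    have h1 : (m : ℝ) + s = (((m + ⌊s⌋ : ℤ)) : ℝ) + Int.fract s := by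
      push_cast
      have := Int.floor_add_fract s
      linarith
    rw [h1]
    have hf0 := Int.fract_nonneg s
    have hf1 := (Int.fract_lt_one s).le
    set x : ℝ := (((m + ⌊s⌋ : ℤ)) : ℝ)
    set y : ℝ := Int.fract s
    have h2 : x ^ 2 / 2 - 1 ≤ (x + y) ^ 2 := by nlinarith [sq_nonneg (x + 2 * y)]
    have h3 : 0 < Real.pi * α := by positivity
    nlinarith [mul_le_mul_of_nonneg_left h2 h3.le]
  have hsum : Summable (fun m : ℤ => Real.exp (-(Real.pi * α * ((m : ℝ) + s) ^ 2))) :=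
    Summable.of_nonneg_of_le (fun m => (Real.exp_pos _).le) hle hgs'
  refine ⟨hsum, ?_⟩
  calc ∑' m : ℤ, Real.exp (-(Real.pi * α * ((m : ℝ) + s) ^ 2)) ≤ ∑' m : ℤ, g (m + ⌊s⌋) :=
        hsum.tsum_le_tsum hle hgs'
    _ = ∑' m, g m := (Equiv.addRight ⌊s⌋).tsum_eq g

/-- adding a variable -/
theorem addVar {T : Type} (h : T → ℝ) (hs : Summable h) (h0 : ∀ t, 0 ≤ h t) (A : ℝ) (hA : 0 < A)
    (s : T → ℝ) :
    Summable (fun p : T × ℤ => h p.1 * Real.exp (-(Real.pi * A * ((p.2 : ℝ) + s p.1) ^ 2))) := by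
  obtain ⟨C, hC0, hC⟩ := gsum A hA
  rw [summable_prod_of_nonneg (fun p => mul_nonneg (h0 _) (Real.exp_pos _).le)]
  refine ⟨fun t => ?_, ?_⟩
  · exact (hC (s t)).1.mul_left (h t)
  · refine Summable.of_nonneg_of_le (fun t => tsum_nonneg fun b =>
      mul_nonneg (h0 _) (Real.exp_pos _).le) (fun t => ?_) (hs.mul_right C)
    dsimp only
    rw [tsum_mul_left]
    exact mul_le_mul_of_nonneg_left (hC (s t)).2 (h0 t)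

/-- three variables -/
theorem sum3 (α₁ α₂ α₃ p q : ℝ) (h1 : 0 < α₁) (h2 : 0 < α₂) (h3 : 0 < α₃) :
    Summable (fun t : ℤ × ℤ × ℤ => Real.exp (-(Real.pi * α₃ * (t.2.1 : ℝ) ^ 2)) *
      Real.exp (-(Real.pi * α₂ * ((t.2.2 : ℝ) + q * t.2.1) ^ 2)) *
      Real.exp (-(Real.pi * α₁ * ((t.1 : ℝ) + p * t.2.1) ^ 2))) := by
  have s1 := base_sum α₃ h3
  have s2 := addVar _ s1 (fun t => (Real.exp_pos _).le) α₂ h2 (fun c : ℤ => q * c)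
  have s3 := addVar _ s2 (fun t => by positivity) α₁ h1 (fun c : ℤ × ℤ => p * c.1)
  exact ((Equiv.prodComm ℤ (ℤ × ℤ)).summable_iff.2 s3)

/-- Poisson -/
theorem poisson (A β ξ : ℝ) (hA : 0 < A) :
    ∑' b : ℤ, Complex.exp (((-(Real.pi * A * ((b : ℝ) + β) ^ 2) : ℝ) : ℂ) +
      ((-(2 * Real.pi * b * ξ) : ℝ) : ℂ) * Complex.I) =
    (((√A)⁻¹ : ℝ) : ℂ) * ∑' m : ℤ, Complex.exp (((-(Real.pi * A⁻¹ * ((m : ℝ) + ξ) ^ 2) : ℝ) : ℂ) +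
      ((2 * Real.pi * ((m : ℝ) + ξ) * β : ℝ) : ℂ) * Complex.I) := by
  have hA' : (A : ℂ) ≠ 0 := by exact_mod_cast hA.ne'
  have h := Complex.tsum_exp_neg_quadratic (a := (A : ℂ)) (by simpa using hA)
    (-(A : ℂ) * β - Complex.I * ξ)
  have hsq : (A : ℂ) ^ (1 / 2 : ℂ) = ((√A : ℝ) : ℂ) := by
    rw [Real.sqrt_eq_rpow, Complex.ofReal_cpow hA.le]
    norm_num
  rw [hsq] at h
  have hL : ∀ b : ℤ, Complex.exp (((-(Real.pi * A * ((b : ℝ) + β) ^ 2) : ℝ) : ℂ) +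
      ((-(2 * Real.pi * b * ξ) : ℝ) : ℂ) * Complex.I) =
      Complex.exp (-(Real.pi * A * β ^ 2)) * Complex.exp (-Real.pi * A * (b : ℂ) ^ 2 +
        2 * Real.pi * (-(A : ℂ) * β - Complex.I * ξ) * b) := by
    intro b
    rw [← Complex.exp_add]
    congr 1
    push_cast
    ring
  have hR : ∀ m : ℤ, Complex.exp (((-(Real.pi * A⁻¹ * ((m : ℝ) + ξ) ^ 2) : ℝ) : ℂ) +
      ((2 * Real.pi * ((m : ℝ) + ξ) * β : ℝ) : ℂ) * Complex.I) =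
      Complex.exp (-(Real.pi * A * β ^ 2)) * Complex.exp (-Real.pi / A *
        ((m : ℂ) + Complex.I * (-(A : ℂ) * β - Complex.I * ξ)) ^ 2) := by
    intro m
    rw [← Complex.exp_add]
    congr 1
    push_cast
    field_simp
    ring_nf
    simp only [Complex.I_sq, show Complex.I ^ 3 = -Complex.I by
      rw [pow_succ, Complex.I_sq]; ring, show Complex.I ^ 4 = 1 by
      rw [show (4:ℕ) = 2 * 2 by norm_num, pow_mul, Complex.I_sq]; norm_num]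
    ring
  simp_rw [hL, hR]
  rw [tsum_mul_left, tsum_mul_left, h]
  push_cast
  ring

/-- the exponential of a complex number given by its parts -/
noncomputable def E (x y : ℝ) : ℂ := Complex.exp ((x : ℂ) + (y : ℂ) * Complex.I)

theorem E_add (x y x' y' : ℝ) : E (x + x') (y + y') = E x y * E x' y' := by
  unfold E
  rw [← Complex.exp_add]
  congr 1
  push_cast
  ring

theorem norm_E (x y : ℝ) : ‖E x y‖ = Real.exp x := by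
  unfold E
  rw [Complex.norm_exp]
  simp

theorem norm_sq' (x y : ℝ) (u : ℂ) (h : u = (x : ℂ) + (y : ℂ) * Complex.I) : ‖u‖ ^ 2 = x ^ 2 + y ^ 2 := by
  rw [h, ← Complex.normSq_eq_norm_sq, Complex.normSq_add_mul_I]

/-- explicit form of the term of the theta series, with `A = τ₂ / (z₂ w₂)` -/
theorem kk_eq (a b c d : ℤ) (τ z w : ℂ) (hτ : 0 < τ.im) (hz : 0 < z.im) (hw : 0 < w.im) :
    kk !![a, b; c, d] τ z w = (τ.im : ℂ) *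
      E (-(Real.pi * (τ.im / (z.im * w.im)) * ((b : ℝ) + (a * w.re - z.re * (c * w.re + d))) ^ 2)
        - Real.pi * (τ.im / (z.im * w.im)) * (w.im ^ 2 * (a - z.re * c) ^ 2 +
          z.im ^ 2 * (c * w.re + d) ^ 2 + z.im ^ 2 * w.im ^ 2 * c ^ 2))
        (2 * Real.pi * ((a : ℝ) * d - b * c) * τ.re) := by
  unfold kk VV ee E
  have hdet : ((!![a, b; c, d] : Mat).det : ℤ) = a * d - b * c := by
    rw [Matrix.det_fin_two]; simp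
  rw [hdet]
  rw [norm_sq' (a * w.re + b - z.re * (c * w.re + d) + z.im * (c * w.im))
    (a * w.im - z.re * (c * w.im) - z.im * (c * w.re + d))]
  · rw [mul_assoc, Complex.ofReal_exp, ← Complex.exp_add]
    congr 2
    have hre : -(Real.pi * (τ.im / (z.im * w.im)) * ((b : ℝ) + (a * w.re - z.re * (c * w.re + d))) ^ 2)
        - Real.pi * (τ.im / (z.im * w.im)) * (w.im ^ 2 * (a - z.re * c) ^ 2 +
          z.im ^ 2 * (c * w.re + d) ^ 2 + z.im ^ 2 * w.im ^ 2 * c ^ 2) =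
        -(2 * Real.pi * ((a : ℝ) * d - b * c) * τ.im) +
        -(4 * Real.pi * τ.im * (((a * w.re + b - z.re * (c * w.re + d) + z.im * (c * w.im)) ^ 2 +
          (a * w.im - z.re * (c * w.im) - z.im * (c * w.re + d)) ^ 2) / (4 * z.im * w.im))) := by
      field_simp
      ring
    rw [hre]
    have hτe : τ = (τ.re : ℂ) + (τ.im : ℂ) * Complex.I := (Complex.re_add_im τ).symm
    rw [Complex.ofReal_add]
    have : 2 * (Real.pi : ℂ) * Complex.I * (((a * d - b * c : ℤ) : ℂ) * τ) =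
        ((-(2 * Real.pi * ((a : ℝ) * d - b * c) * τ.im) : ℝ) : ℂ) +
        ((2 * Real.pi * ((a : ℝ) * d - b * c) * τ.re : ℝ) : ℂ) * Complex.I := by
      conv_lhs => rw [hτe]
      push_cast
      linear_combination (2 * (Real.pi : ℂ) * ((a : ℂ) * d - b * c) * τ.im) * Complex.I_mul_I
    rw [this]
    ring
  · apply Complex.ext <;> simp <;> ring

theorem poisson' (A β ξ : ℝ) (hA : 0 < A) :
    ∑' b : ℤ, E (-(Real.pi * A * ((b : ℝ) + β) ^ 2)) (-(2 * Real.pi * b * ξ)) =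
    (((√A)⁻¹ : ℝ) : ℂ) * ∑' m : ℤ, E (-(Real.pi * A⁻¹ * ((m : ℝ) + ξ) ^ 2))
      (2 * Real.pi * ((m : ℝ) + ξ) * β) := poisson A β ξ hA

/-- matrices as `((a, c, d), b)` -/
def eM : (ℤ × ℤ × ℤ) × ℤ ≃ Mat where
  toFun p := !![p.1.1, p.2; p.1.2.1, p.1.2.2]
  invFun γ := ((γ 0 0, γ 1 0, γ 1 1), γ 0 1)
  left_inv p := by
    obtain ⟨⟨a, c, d⟩, b⟩ := p
    rfl
  right_inv γ := by
    ext i j
    fin_cases i <;> fin_cases j <;> rfl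

/-- matrices as `((m, c, d), l)` -/
def eN : (ℤ × ℤ × ℤ) × ℤ ≃ Mat where
  toFun p := !![-p.1.2.2, p.2; p.1.2.1, p.1.1]
  invFun γ := ((γ 1 1, γ 1 0, -γ 0 0), γ 0 1)
  left_inv p := by
    obtain ⟨⟨m, c, d⟩, l⟩ := p
    simp
  right_inv γ := by
    ext i j
    fin_cases i <;> fin_cases j <;> simp

/-- exchange of `a` and `m` -/
def eS : (ℤ × ℤ × ℤ) × ℤ ≃ (ℤ × ℤ × ℤ) × ℤ where
  toFun p := ((p.2, p.1.2.1, p.1.2.2), p.1.1)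
  invFun p := ((p.2, p.1.2.1, p.1.2.2), p.1.1)
  left_inv p := rfl
  right_inv p := rfl

/-- the middle term -/
noncomputable def F2 (A τ₁ τ₂ z₁ z₂ w₁ w₂ : ℝ) (t : ℤ × ℤ × ℤ) (m : ℤ) : ℂ :=
  ((τ₂ * (√A)⁻¹ : ℝ) : ℂ) * (E (-(Real.pi * A * (w₂ ^ 2 * (t.1 - z₁ * t.2.1) ^ 2 +
    z₂ ^ 2 * (t.2.1 * w₁ + t.2.2) ^ 2 + z₂ ^ 2 * w₂ ^ 2 * t.2.1 ^ 2)))
    (2 * Real.pi * t.1 * t.2.2 * τ₁) *
    E (-(Real.pi * A⁻¹ * ((m : ℝ) + t.2.1 * τ₁) ^ 2))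
      (2 * Real.pi * ((m : ℝ) + t.2.1 * τ₁) * (t.1 * w₁ - z₁ * (t.2.1 * w₁ + t.2.2))))

theorem sumH1 (A a₁ b₁ b₂ c₁ c₂ : ℝ) (hA : 0 < A) (h2 : 0 < b₂) (h3 : 0 < c₂) :
    Summable (fun t : ℤ × ℤ × ℤ => Real.exp (-(Real.pi * A * (c₂ ^ 2 * (t.1 - b₁ * t.2.1) ^ 2 +
    b₂ ^ 2 * (t.2.1 * c₁ + t.2.2) ^ 2 + b₂ ^ 2 * c₂ ^ 2 * t.2.1 ^ 2)))) := by
  refine (sum3 (A * c₂ ^ 2) (A * b₂ ^ 2) (A * (b₂ ^ 2 * c₂ ^ 2)) (-b₁) c₁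
    (by positivity) (by positivity) (by positivity)).congr fun t => ?_
  rw [← Real.exp_add, ← Real.exp_add]
  congr 1
  ring

theorem sumH3 (A a₁ b₁ b₂ c₁ c₂ : ℝ) (hA : 0 < A) (h2 : 0 < b₂) (h3 : 0 < c₂) :
    Summable (fun t : ℤ × ℤ × ℤ => Real.exp (-(Real.pi * A * (b₂ ^ 2 *
      (t.2.1 * c₁ + t.2.2) ^ 2 + b₂ ^ 2 * c₂ ^ 2 * t.2.1 ^ 2)) -
      Real.pi * A⁻¹ * (t.1 + t.2.1 * a₁) ^ 2)) := by
  refine (sum3 A⁻¹ (A * b₂ ^ 2) (A * (b₂ ^ 2 * c₂ ^ 2)) a₁ c₁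
    (by positivity) (by positivity) (by positivity)).congr fun t => ?_
  rw [← Real.exp_add, ← Real.exp_add]
  congr 1
  ring

/-- the first term -/
noncomputable def F1 (A a₁ a₂ b₁ b₂ c₁ c₂ : ℝ) (t : ℤ × ℤ × ℤ) (b : ℤ) : ℂ :=
  (a₂ : ℂ) * (E (-(Real.pi * A * (c₂ ^ 2 * (t.1 - b₁ * t.2.1) ^ 2 +
        b₂ ^ 2 * (t.2.1 * c₁ + t.2.2) ^ 2 + b₂ ^ 2 * c₂ ^ 2 * t.2.1 ^ 2)))
        (2 * Real.pi * t.1 * t.2.2 * a₁) *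
      E (-(Real.pi * A * ((b : ℝ) + (t.1 * c₁ - b₁ * (t.2.1 * c₁ + t.2.2))) ^ 2))
        (-(2 * Real.pi * b * (t.2.1 * a₁))))

theorem kk_F1 (τ z w : ℂ) (hτ : 0 < τ.im) (hz : 0 < z.im) (hw : 0 < w.im) (t : ℤ × ℤ × ℤ) (b : ℤ) :
    kk !![t.1, b; t.2.1, t.2.2] τ z w =
    F1 (τ.im / (z.im * w.im)) τ.re τ.im z.re z.im w.re w.im t b := by
  rw [kk_eq _ _ _ _ _ _ _ hτ hz hw, F1, ← E_add]
  congr 2 <;> ring

/-- the last term -/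
noncomputable def F3 (A a₁ a₂ b₁ b₂ c₁ c₂ : ℝ) (s : ℤ × ℤ × ℤ) (l : ℤ) : ℂ :=
  (b₂ : ℂ) * (E (-(Real.pi * A * (b₂ ^ 2 * (s.2.1 * c₁ + s.2.2) ^ 2 +
        b₂ ^ 2 * c₂ ^ 2 * s.2.1 ^ 2)) - Real.pi * A⁻¹ * (s.1 + s.2.1 * a₁) ^ 2)
        (-(2 * Real.pi * (s.1 + s.2.1 * a₁) * b₁ * (s.2.1 * c₁ + s.2.2))) *
      E (-(Real.pi * (A * c₂ ^ 2)⁻¹ * ((l : ℝ) + -(s.2.2 * a₁ + (s.1 + s.2.1 * a₁) * c₁)) ^ 2))
        (2 * Real.pi * ((l : ℝ) + -(s.2.2 * a₁ + (s.1 + s.2.1 * a₁) * c₁)) *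
          (-(b₁ * s.2.1))))

theorem kk_F3 (τ z w : ℂ) (hτ : 0 < τ.im) (hz : 0 < z.im) (hw : 0 < w.im) (s : ℤ × ℤ × ℤ) (l : ℤ) :
    kk !![-s.2.2, l; s.2.1, s.1] z w τ =
    F3 (τ.im / (z.im * w.im)) τ.re τ.im z.re z.im w.re w.im s l := by
  rw [kk_eq _ _ _ _ _ _ _ hz hw hτ, F3, ← E_add]
  congr 2
  · push_cast
    field_simp
    ring
  · push_cast
    ring

theorem sF1 (A a₁ a₂ b₁ b₂ c₁ c₂ : ℝ) (hA : 0 < A) (h1 : 0 < a₂) (h2 : 0 < b₂) (h3 : 0 < c₂) :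
    Summable (fun p : (ℤ × ℤ × ℤ) × ℤ => F1 A a₁ a₂ b₁ b₂ c₁ c₂ p.1 p.2) := by
  refine Summable.of_norm ?_
  refine (addVar _ ((sumH1 A a₁ b₁ b₂ c₁ c₂ hA h2 h3).mul_left a₂) (fun t => by positivity) A hA
    (fun t => (t.1 * c₁ - b₁ * (t.2.1 * c₁ + t.2.2)))).congr fun p => ?_
  rw [F1, norm_mul, norm_mul, norm_E, norm_E, Complex.norm_real, Real.norm_of_nonneg h1.le]
  ring

theorem sF2 (A a₁ a₂ b₁ b₂ c₁ c₂ : ℝ) (hA : 0 < A) (h1 : 0 < a₂) (h2 : 0 < b₂) (h3 : 0 < c₂) :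
    Summable (fun p : (ℤ × ℤ × ℤ) × ℤ => F2 A a₁ a₂ b₁ b₂ c₁ c₂ p.1 p.2) := by
  refine Summable.of_norm ?_
  refine (addVar _ ((sumH1 A a₁ b₁ b₂ c₁ c₂ hA h2 h3).mul_left (a₂ * (√A)⁻¹))
    (fun t => by positivity) A⁻¹ (by positivity) (fun t => t.2.1 * a₁)).congr fun p => ?_
  rw [F2, norm_mul, norm_mul, norm_E, norm_E, Complex.norm_real,
    Real.norm_of_nonneg (by positivity)]
  ring

theorem sF3 (A a₁ a₂ b₁ b₂ c₁ c₂ : ℝ) (hA : 0 < A) (h1 : 0 < a₂) (h2 : 0 < b₂) (h3 : 0 < c₂) :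
    Summable (fun p : (ℤ × ℤ × ℤ) × ℤ => F3 A a₁ a₂ b₁ b₂ c₁ c₂ p.1 p.2) := by
  refine Summable.of_norm ?_
  refine (addVar _ ((sumH3 A a₁ b₁ b₂ c₁ c₂ hA h2 h3).mul_left b₂) (fun t => by positivity)
    (A * c₂ ^ 2)⁻¹ (by positivity) (fun s => -(s.2.2 * a₁ + (s.1 + s.2.1 * a₁) * c₁))).congr
    fun p => ?_
  rw [F3, norm_mul, norm_mul, norm_E, norm_E, Complex.norm_real, Real.norm_of_nonneg h2.le]
  ring

theorem hP1 (A a₁ a₂ b₁ b₂ c₁ c₂ : ℝ) (hA : 0 < A) (t : ℤ × ℤ × ℤ) :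
    ∑' b : ℤ, F1 A a₁ a₂ b₁ b₂ c₁ c₂ t b = ∑' m : ℤ, F2 A a₁ a₂ b₁ b₂ c₁ c₂ t m := by
  simp_rw [F1, F2]
  rw [tsum_mul_left, tsum_mul_left, tsum_mul_left, tsum_mul_left, poisson' _ _ _ hA]
  push_cast
  ring

theorem hF2' (A a₁ a₂ b₁ b₂ c₁ c₂ : ℝ) (s : ℤ × ℤ × ℤ) (a : ℤ) :
    F2 A a₁ a₂ b₁ b₂ c₁ c₂ (a, s.2.1, s.2.2) s.1 =
      ((a₂ * (√A)⁻¹ : ℝ) : ℂ) * (E (-(Real.pi * A * (b₂ ^ 2 * (s.2.1 * c₁ + s.2.2) ^ 2 +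
        b₂ ^ 2 * c₂ ^ 2 * s.2.1 ^ 2)) - Real.pi * A⁻¹ * (s.1 + s.2.1 * a₁) ^ 2)
        (-(2 * Real.pi * (s.1 + s.2.1 * a₁) * b₁ * (s.2.1 * c₁ + s.2.2))) *
      E (-(Real.pi * (A * c₂ ^ 2) * ((a : ℝ) + -(b₁ * s.2.1)) ^ 2))
        (-(2 * Real.pi * a * -(s.2.2 * a₁ + (s.1 + s.2.1 * a₁) * c₁)))) := by
  rw [F2, ← E_add, ← E_add]
  congr 2 <;> ring

theorem hP2 (A a₁ a₂ b₁ b₂ c₁ c₂ : ℝ) (hA : 0 < A) (h3 : 0 < c₂)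
    (hconst : a₂ * (√A)⁻¹ * (√(A * c₂ ^ 2))⁻¹ = b₂) (s : ℤ × ℤ × ℤ) :
    ∑' a : ℤ, F2 A a₁ a₂ b₁ b₂ c₁ c₂ (a, s.2.1, s.2.2) s.1 =
      ∑' l : ℤ, F3 A a₁ a₂ b₁ b₂ c₁ c₂ s l := by
  simp_rw [hF2' A a₁ a₂ b₁ b₂ c₁ c₂ s, F3]
  rw [tsum_mul_left, tsum_mul_left, tsum_mul_left, tsum_mul_left,
    poisson' _ _ _ (by positivity : 0 < A * c₂ ^ 2)]
  rw [show ((b₂ : ℝ) : ℂ) = ((a₂ * (√A)⁻¹ * (√(A * c₂ ^ 2))⁻¹ : ℝ) : ℂ) by rw [hconst]]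
  push_cast
  ring

theorem chain_abs (f g h : ℤ × ℤ × ℤ → ℤ → ℂ)
    (sf : Summable (fun p : (ℤ × ℤ × ℤ) × ℤ => f p.1 p.2))
    (sg : Summable (fun p : (ℤ × ℤ × ℤ) × ℤ => g p.1 p.2))
    (sh : Summable (fun p : (ℤ × ℤ × ℤ) × ℤ => h p.1 p.2))
    (h1 : ∀ t, ∑' b, f t b = ∑' m, g t m)
    (h2 : ∀ s : ℤ × ℤ × ℤ, ∑' a, g (a, s.2.1, s.2.2) s.1 = ∑' l, h s l) :
    ∑' p : (ℤ × ℤ × ℤ) × ℤ, f p.1 p.2 = ∑' p : (ℤ × ℤ × ℤ) × ℤ, h p.1 p.2 := by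
  have hs : Summable (fun p : (ℤ × ℤ × ℤ) × ℤ => g (p.2, p.1.2.1, p.1.2.2) p.1.1) :=
    (eS.summable_iff (f := fun p : (ℤ × ℤ × ℤ) × ℤ => g p.1 p.2)).2 sg
  calc ∑' p : (ℤ × ℤ × ℤ) × ℤ, f p.1 p.2 = ∑' t : ℤ × ℤ × ℤ, ∑' b : ℤ, f t b := sf.tsum_prod
    _ = ∑' t : ℤ × ℤ × ℤ, ∑' m : ℤ, g t m := tsum_congr h1
    _ = ∑' p : (ℤ × ℤ × ℤ) × ℤ, g p.1 p.2 := sg.tsum_prod.symm
    _ = ∑' p : (ℤ × ℤ × ℤ) × ℤ, g (p.2, p.1.2.1, p.1.2.2) p.1.1 :=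
        (eS.tsum_eq (fun p : (ℤ × ℤ × ℤ) × ℤ => g p.1 p.2)).symm
    _ = ∑' s : ℤ × ℤ × ℤ, ∑' a : ℤ, g (a, s.2.1, s.2.2) s.1 := hs.tsum_prod
    _ = ∑' s : ℤ × ℤ × ℤ, ∑' l : ℤ, h s l := tsum_congr h2
    _ = ∑' p : (ℤ × ℤ × ℤ) × ℤ, h p.1 p.2 := sh.tsum_prod.symm

theorem chain (A a₁ a₂ b₁ b₂ c₁ c₂ : ℝ) (hA : 0 < A) (h1 : 0 < a₂) (h2 : 0 < b₂) (h3 : 0 < c₂)
    (hconst : a₂ * (√A)⁻¹ * (√(A * c₂ ^ 2))⁻¹ = b₂) :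
    ∑' p : (ℤ × ℤ × ℤ) × ℤ, F1 A a₁ a₂ b₁ b₂ c₁ c₂ p.1 p.2 =
    ∑' p : (ℤ × ℤ × ℤ) × ℤ, F3 A a₁ a₂ b₁ b₂ c₁ c₂ p.1 p.2 :=
  chain_abs _ _ _ (sF1 A a₁ a₂ b₁ b₂ c₁ c₂ hA h1 h2 h3) (sF2 A a₁ a₂ b₁ b₂ c₁ c₂ hA h1 h2 h3)
    (sF3 A a₁ a₂ b₁ b₂ c₁ c₂ hA h1 h2 h3) (hP1 A a₁ a₂ b₁ b₂ c₁ c₂ hA)
    (hP2 A a₁ a₂ b₁ b₂ c₁ c₂ hA h3 hconst)

theorem stmtTri' (τ z w : ℂ) (hτ : 0 < τ.im) (hz : 0 < z.im) (hw : 0 < w.im) :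
    Th τ z w = Th z w τ := by
  have hA : 0 < τ.im / (z.im * w.im) := by positivity
  have hconst : τ.im * (√(τ.im / (z.im * w.im)))⁻¹ *
      (√((τ.im / (z.im * w.im)) * w.im ^ 2))⁻¹ = z.im := by
    rw [Real.sqrt_mul hA.le, Real.sqrt_sq hw.le, mul_inv, mul_assoc, ← mul_assoc (√_)⁻¹,
      ← mul_inv, Real.mul_self_sqrt hA.le]
    field_simp
  have h1 := chain _ τ.re τ.im z.re z.im w.re w.im hA hτ hz hw hconst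
  have h2 : Th τ z w = ∑' p : (ℤ × ℤ × ℤ) × ℤ,
      F1 (τ.im / (z.im * w.im)) τ.re τ.im z.re z.im w.re w.im p.1 p.2 := by
    unfold Th
    rw [← eM.tsum_eq]
    refine tsum_congr fun p => ?_
    rw [← kk_F1 τ z w hτ hz hw]
    rfl
  have h3 : Th z w τ = ∑' p : (ℤ × ℤ × ℤ) × ℤ,
      F3 (τ.im / (z.im * w.im)) τ.re τ.im z.re z.im w.re w.im p.1 p.2 := by
    unfold Th
    rw [← eN.tsum_eq]
    refine tsum_congr fun p => ?_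
    rw [← kk_F3 τ z w hτ hz hw]
    rfl
  rw [h2, h3, h1]

end Pool.Agent.A54.Av.TriM

namespace Pool.Agent.A54.Av

theorem stmtTri (_hQF : StmtQF) (_hGau : StmtGau) : StmtTri :=
  fun τ z w hτ hz hw => TriM.stmtTri' τ z w hτ hz hw

end Pool.Agent.A54.Av
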