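import Pool.Agent.Lib.MP_a54f13_nt.Av.SpecA
import Pool.Agent.Lib.MP_a54f13_nt.Pl.U1

/-!
# Module `UL`: unfolding
-/

set_option autoImplicit false

namespace Pool.Agent.A54.Av

open MeasureTheory Filter Topology Set
open scoped ContDiff ComplexConjugate UpperHalfPlane MatrixGroups ENNReal

noncomputable section

namespace ULM

/-- the action preserves the measure -/
lemma mp (γ : SL(2, ℤ)) : MeasurePreserving (fun z : ℍ => γ • z) (volume : Measure ℍ) volume :=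
  measurePreserving_smul (γ : GL (Fin 2) ℝ) (volume : Measure ℍ)

/-- the action is a measurable embedding -/
lemma me (γ : SL(2, ℤ)) : MeasurableEmbedding (fun z : ℍ => γ • z) :=
  measurableEmbedding_const_smul (γ : GL (Fin 2) ℝ)

/-- one term -/
lemma term (G : ℍ → ℝ≥0∞) (γ : SL(2, ℤ)) :
    ∫⁻ z in ModularGroup.fdo, G (γ • z) =
      ∫⁻ w : ℍ, ModularGroup.fdo.indicator (fun _ => (1 : ℝ≥0∞)) (γ⁻¹ • w) * G w := by
  rw [← lintegral_indicator X.measurableSet_fdo]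
  rw [← (mp γ).lintegral_comp_emb (me γ)
    (fun w : ℍ => ModularGroup.fdo.indicator (fun _ => (1 : ℝ≥0∞)) (γ⁻¹ • w) * G w)]
  refine lintegral_congr fun z => ?_
  simp only [inv_smul_smul]
  by_cases hz : z ∈ ModularGroup.fdo
  · rw [indicator_of_mem hz, indicator_of_mem hz, one_mul]
  · rw [indicator_of_notMem hz, indicator_of_notMem hz, zero_mul]

/-- an element is not its negative -/
lemma ne_neg (γ0 : SL(2, ℤ)) : γ0 ≠ -γ0 := by
  intro h
  have h3 := congrArg (fun γ : SL(2, ℤ) => γ.1 0 0) h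
  have h4 := congrArg (fun γ : SL(2, ℤ) => γ.1 0 1) h
  have h5 := γ0.det_coe
  rw [Matrix.det_fin_two] at h5
  simp only [Matrix.SpecialLinearGroup.coe_neg, Matrix.neg_apply] at h3 h4
  have h6 : (γ0 0 0 : ℤ) = 0 := by
    have : (γ0.1 0 0 : ℤ) = -γ0.1 0 0 := h3
    have h7 : (γ0.1 0 0 : ℤ) = 0 := by omega
    exact h7
  have h8 : (γ0 0 1 : ℤ) = 0 := by
    have : (γ0.1 0 1 : ℤ) = -γ0.1 0 1 := h4
    have h7 : (γ0.1 0 1 : ℤ) = 0 := by omega
    exact h7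
  rw [h6, h8] at h5
  simp at h5

/-- the count -/
lemma cnt (w : ℍ) (γ0 : SL(2, ℤ))
    (h : ∀ γ : SL(2, ℤ), γ⁻¹ • w ∈ ModularGroup.fdo ↔ γ = γ0 ∨ γ = -γ0) :
    ∑' γ : SL(2, ℤ), ModularGroup.fdo.indicator (fun _ => (1 : ℝ≥0∞)) (γ⁻¹ • w) = 2 := by
  rw [tsum_eq_sum (s := ({γ0, -γ0} : Finset SL(2, ℤ))), Finset.sum_pair (ne_neg γ0),
    indicator_of_mem ((h γ0).mpr (Or.inl rfl)), indicator_of_mem ((h (-γ0)).mpr (Or.inr rfl))]
  · norm_num
  · intro γ hγ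
    rw [Finset.mem_insert, Finset.mem_singleton] at hγ
    exact indicator_of_notMem (fun h' => hγ ((h γ).mp h')) _

lemma ind_meas (γ : SL(2, ℤ)) :
    Measurable fun w : ℍ => ModularGroup.fdo.indicator (fun _ => (1 : ℝ≥0∞)) (γ⁻¹ • w) :=
  (measurable_const.indicator X.measurableSet_fdo).comp (mp γ⁻¹).measurable

/-- the sum of the terms -/
lemma sum_term (G : ℍ → ℝ≥0∞) (hG : AEMeasurable G) :
    ∑' γ : SL(2, ℤ), ∫⁻ z in ModularGroup.fdo, G (γ • z) = 2 * ∫⁻ z, G z := by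
  have := Pl.U1M.countable_sl
  have h0 : ∀ γ : SL(2, ℤ), AEMeasurable (fun w : ℍ =>
      ModularGroup.fdo.indicator (fun _ => (1 : ℝ≥0∞)) (γ⁻¹ • w) * G w) := fun γ =>
    (ind_meas γ).aemeasurable.mul hG
  rw [tsum_congr fun γ => term G γ, ← lintegral_tsum h0, ← lintegral_const_mul'' 2 hG]
  refine lintegral_congr_ae ?_
  filter_upwards [Pl.U1M.ae_two] with w hw
  obtain ⟨γ0, hγ0⟩ := hw
  rw [ENNReal.tsum_mul_right, cnt w γ0 hγ0]

/-- first part -/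
lemma part1 (G : ℍ → ℝ≥0∞) (hG : Measurable G) :
    ∫⁻ z in ModularGroup.fdo, ∑' γ : SL(2, ℤ), G (γ • z) = 2 * ∫⁻ z, G z := by
  have := Pl.U1M.countable_sl
  have h0 : ∀ γ : SL(2, ℤ), AEMeasurable (fun z : ℍ => G (γ • z))
      ((volume : Measure ℍ).restrict ModularGroup.fdo) := fun γ =>
    (hG.comp (mp γ).measurable).aemeasurable
  rw [lintegral_tsum h0, sum_term G hG.aemeasurable]

/-- the sum of the translates of the measure on the fundamental domain -/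
lemma sum_meas : Measure.sum (fun γ : SL(2, ℤ) =>
    ((volume : Measure ℍ).restrict ModularGroup.fdo).map (fun z : ℍ => γ • z)) =
      (2 : ℝ≥0∞) • (volume : Measure ℍ) := by
  refine Measure.ext_of_lintegral _ fun f hf => ?_
  rw [lintegral_sum_measure, lintegral_smul_measure, smul_eq_mul, ← sum_term f hf.aemeasurable]
  exact tsum_congr fun γ => lintegral_map hf (mp γ).measurable

/-- second part -/
lemma part2 (G : ℍ → ℂ) (hG : Integrable G) :
    (∀ᵐ z : ℍ, Summable fun γ : SL(2, ℤ) => ‖G (γ • z)‖) ∧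
    IntegrableOn (fun z => ∑' γ : SL(2, ℤ), G (γ • z)) ModularGroup.fdo ∧
    ∫ z in ModularGroup.fdo, ∑' γ : SL(2, ℤ), G (γ • z) = 2 * ∫ z, G z := by
  have hcount := Pl.U1M.countable_sl
  have hm : ∀ γ : SL(2, ℤ), AEStronglyMeasurable (fun z : ℍ => G (γ • z)) := fun γ =>
    hG.aestronglyMeasurable.comp_measurePreserving (mp γ)
  have hm' : ∀ γ : SL(2, ℤ), AEStronglyMeasurable (fun z : ℍ => G (γ • z))
      ((volume : Measure ℍ).restrict ModularGroup.fdo) := fun γ => (hm γ).restrict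
  have hfin : 2 * ∫⁻ z, ‖G z‖ₑ ≠ ⊤ := ENNReal.mul_ne_top (by norm_num) hG.2.ne
  have hs : ∑' γ : SL(2, ℤ), ∫⁻ z in ModularGroup.fdo, ‖G (γ • z)‖ₑ = 2 * ∫⁻ z, ‖G z‖ₑ :=
    sum_term (fun z => ‖G z‖ₑ) hG.aestronglyMeasurable.enorm
  have hI : ∫⁻ z in ModularGroup.fdo, ∑' γ : SL(2, ℤ), ‖G (γ • z)‖ₑ = 2 * ∫⁻ z, ‖G z‖ₑ := by
    rw [lintegral_tsum fun γ => (hm' γ).enorm, hs]
  -- almost everywhere on the fundamental domain
  have hae : ∀ᵐ z ∂((volume : Measure ℍ).restrict ModularGroup.fdo),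
      ∑' γ : SL(2, ℤ), ‖G (γ • z)‖ₑ < ⊤ := by
    refine ae_lt_top' (AEMeasurable.tsum fun γ => (hm' γ).enorm) ?_
    rw [hI]
    exact hfin
  have hae2 : ∀ᵐ z : ℍ, z ∈ ModularGroup.fdo → ∑' γ : SL(2, ℤ), ‖G (γ • z)‖ₑ < ⊤ :=
    (ae_restrict_iff' X.measurableSet_fdo).1 hae
  have hae3 : ∀ᵐ z : ℍ, ∀ δ : SL(2, ℤ), δ • z ∈ ModularGroup.fdo →
      ∑' γ : SL(2, ℤ), ‖G (γ • (δ • z))‖ₑ < ⊤ := by
    rw [ae_all_iff]
    intro δ
    exact (mp δ).quasiMeasurePreserving.ae hae2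
  have hsum : ∀ z : ℍ, ∑' γ : SL(2, ℤ), ‖G (γ • z)‖ₑ < ⊤ →
      Summable fun γ : SL(2, ℤ) => ‖G (γ • z)‖ := by
    intro z hz
    have h1 := ENNReal.summable_toReal hz.ne
    simpa only [toReal_enorm] using h1
  have hall : ∀ᵐ z : ℍ, Summable fun γ : SL(2, ℤ) => ‖G (γ • z)‖ := by
    filter_upwards [hae3, Pl.U1M.ae_two] with z hz hz2
    obtain ⟨γ0, hγ0⟩ := hz2
    have h1 := hz γ0⁻¹ ((hγ0 γ0).mpr (Or.inl rfl))
    refine hsum z ?_
    have h2 : ∑' γ : SL(2, ℤ), ‖G (γ • (γ0⁻¹ • z))‖ₑ = ∑' γ : SL(2, ℤ), ‖G (γ • z)‖ₑ := by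
      have h3 := Equiv.tsum_eq (Equiv.mulRight γ0⁻¹) (fun γ : SL(2, ℤ) => ‖G (γ • z)‖ₑ)
      rw [← h3]
      refine tsum_congr fun γ => ?_
      rw [← mul_smul]
      rfl
    rw [← h2]
    exact h1
  have hmt : AEStronglyMeasurable (fun z : ℍ => ∑' γ : SL(2, ℤ), G (γ • z))
      ((volume : Measure ℍ).restrict ModularGroup.fdo) := by
    refine aestronglyMeasurable_of_tendsto_ae (atTop : Filter (Finset SL(2, ℤ)))
      (f := fun s z => ∑ γ ∈ s, G (γ • z)) (fun s => ?_) ?_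
    · exact Finset.aestronglyMeasurable_fun_sum s fun γ _ => hm' γ
    · filter_upwards [hae] with z hz
      exact (hsum z hz).of_norm.hasSum
  refine ⟨hall, ⟨hmt, ?_⟩, ?_⟩
  · rw [hasFiniteIntegral_iff_enorm]
    refine lt_of_le_of_lt (lintegral_mono fun z => enorm_tsum_le_tsum_enorm) ?_
    rw [hI]
    exact hfin.lt_top
  · rw [integral_tsum hm' (by rw [hs]; exact hfin)]
    have h1 : Integrable G (Measure.sum (fun γ : SL(2, ℤ) =>
        ((volume : Measure ℍ).restrict ModularGroup.fdo).map (fun z : ℍ => γ • z))) := by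
      rw [sum_meas]
      exact hG.smul_measure (by norm_num)
    have h2 := integral_sum_measure h1
    rw [sum_meas, integral_smul_measure] at h2
    have h3 : ∀ γ : SL(2, ℤ), ∫ z, G z
        ∂(((volume : Measure ℍ).restrict ModularGroup.fdo).map (fun z : ℍ => γ • z)) =
        ∫ z in ModularGroup.fdo, G (γ • z) := fun γ => (me γ).integral_map G
    rw [← tsum_congr h3, ← h2]
    simp

end ULM

theorem stmtUL : StmtUL := ⟨ULM.part1, ULM.part2⟩

end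

end Pool.Agent.A54.Av
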