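import Pool.Agent.Lib.MP_a54f13_nt.Av.SpecB

/-!
# Module `W3`: exponential weights, `n ≤ 0`
-/

set_option autoImplicit false

namespace Pool.Agent.A54.Av

open MeasureTheory Filter Topology Set
open scoped ENNReal
open Pool.Agent.A54.Half (H0)

namespace W3M

noncomputable section

theorem gauss (b A : ℝ) (hb : 0 < b) :
    ∫⁻ y : ℝ, ENNReal.ofReal (Real.exp (-(b * (y - A) ^ 2))) =
      ENNReal.ofReal (√(Real.pi / b)) := by
  have h1 : ∫⁻ y : ℝ, ENNReal.ofReal (Real.exp (-(b * (y - A) ^ 2))) =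
      ∫⁻ y : ℝ, ENNReal.ofReal (Real.exp (-(b * y ^ 2))) :=
    lintegral_sub_right_eq_self (fun y => ENNReal.ofReal (Real.exp (-(b * y ^ 2)))) A
  rw [h1]
  have h2 := integrable_exp_neg_mul_sq hb
  rw [← integral_gaussian b, ofReal_integral_eq_lintegral_ofReal h2
    (ae_of_all _ fun x => (Real.exp_pos _).le)]
  simp_rw [neg_mul]

theorem toProd (h : ℝ × ℝ → ℝ≥0∞) (hm : Measurable h) :
    ∫⁻ z : ℂ, h (z.re, z.im) = ∫⁻ x : ℝ, ∫⁻ y : ℝ, h (x, y) := by
  have h1 : ∫⁻ z : ℂ, h (z.re, z.im) = ∫⁻ p : ℝ × ℝ, h p := by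
    rw [← Complex.volume_preserving_equiv_real_prod.lintegral_comp hm]
    rfl
  rw [h1, Measure.volume_eq_prod, lintegral_prod _ hm.aemeasurable]

theorem Vd_nonneg (γ : Mat) (z : ℂ) : 0 ≤ Vd γ z := by
  unfold Vd VV
  apply div_nonneg (sq_nonneg _)
  have : 0 ≤ z.im * z.im := mul_self_nonneg _
  nlinarith

theorem measurable_Vd (γ : Mat) : Measurable (Vd γ) := by
  unfold Vd VV
  fun_prop

theorem exp_le_inv_sqrt (x : ℝ) (hx : 0 < x) : Real.exp (-x) ≤ 1 / √x := by
  have h1 : √x ≤ Real.exp x := by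
    apply Real.sqrt_le_iff.mpr
    refine ⟨(Real.exp_pos _).le, ?_⟩
    rw [← Real.exp_nat_mul]
    have := Real.add_one_le_exp ((2 : ℕ) * x)
    push_cast at this ⊢
    linarith
  rw [Real.exp_neg, ← one_div]
  exact one_div_le_one_div_of_le (Real.sqrt_pos.mpr hx) h1

theorem bounds (K : Set ℂ) (hK : IsCompact K) (hKH : K ⊆ H0) :
    ∃ R m0 : ℝ, 0 < m0 ∧ 1 ≤ R ∧ ∀ z ∈ K, ‖z‖ ≤ R ∧ m0 ≤ z.im := by
  obtain ⟨R, hR⟩ := hK.isBounded.exists_norm_le
  rcases K.eq_empty_or_nonempty with h | h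
  · refine ⟨1, 1, one_pos, le_rfl, ?_⟩
    intro z hz
    rw [h] at hz
    exact absurd hz (Set.notMem_empty z)
  · obtain ⟨z0, hz0, hmin⟩ := hK.exists_isMinOn h Complex.continuous_im.continuousOn
    refine ⟨max R 1, z0.im, hKH hz0, le_max_right _ _, ?_⟩
    intro z hz
    exact ⟨(hR z hz).trans (le_max_left _ _), hmin hz⟩

/-- the integral of one term, a box in the first coordinate -/
theorem caseB (K : Set ℂ) (hK : MeasurableSet K) (R κ : ℝ) (hR : 0 ≤ R) (hκ : 0 < κ)
    (hKR : ∀ z ∈ K, ‖z‖ ≤ R) (f : ℂ → ℝ≥0∞) (A : ℝ → ℝ) (hA : Measurable A)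
    (hf : ∀ z ∈ K, f z ≤ ENNReal.ofReal (Real.exp (-(κ * (z.im - A z.re) ^ 2)))) :
    ∫⁻ z in K, f z ≤ ENNReal.ofReal (2 * R * √(Real.pi / κ)) := by
  set h : ℝ × ℝ → ℝ≥0∞ := fun p => (Icc (-R) R).indicator (fun _ => (1 : ℝ≥0∞)) p.1 *
    ENNReal.ofReal (Real.exp (-(κ * (p.2 - A p.1) ^ 2))) with hh
  have hm1 : Measurable fun p : ℝ × ℝ => (Icc (-R) R).indicator (fun _ => (1 : ℝ≥0∞)) p.1 :=
    (measurable_const.indicator measurableSet_Icc).comp measurable_fst
  have hm2 : Measurable fun p : ℝ × ℝ => ENNReal.ofReal (Real.exp (-(κ * (p.2 - A p.1) ^ 2))) := by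
    apply Measurable.ennreal_ofReal
    apply Real.measurable_exp.comp
    exact (((measurable_snd.sub (hA.comp measurable_fst)).pow_const 2).const_mul κ).neg
  have hm : Measurable h := hm1.mul hm2
  have h1 : ∫⁻ z in K, f z ≤ ∫⁻ z : ℂ, h (z.re, z.im) := by
    refine (setLIntegral_mono' hK (g := fun z : ℂ => h (z.re, z.im)) ?_).trans
      (setLIntegral_le_lintegral _ _)
    intro z hz
    have h2 : z.re ∈ Icc (-R) R := by
      have := (Complex.abs_re_le_norm z).trans (hKR z hz)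
      rw [abs_le] at this
      exact this
    rw [hh]
    simp only [Set.indicator_of_mem h2, one_mul]
    exact hf z hz
  refine h1.trans ?_
  rw [toProd h hm]
  have h3 : ∀ x : ℝ, ∫⁻ y : ℝ, h (x, y) =
      (Icc (-R) R).indicator (fun _ => (1 : ℝ≥0∞)) x * ENNReal.ofReal (√(Real.pi / κ)) := by
    intro x
    rw [hh]
    simp only
    rw [lintegral_const_mul, gauss κ (A x) hκ]
    apply Measurable.ennreal_ofReal
    apply Real.measurable_exp.comp
    fun_prop
  simp_rw [h3]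
  rw [lintegral_mul_const _ (measurable_const.indicator measurableSet_Icc),
    lintegral_indicator_const measurableSet_Icc, Real.volume_Icc, one_mul,
    ← ENNReal.ofReal_mul (by linarith)]
  apply ENNReal.ofReal_le_ofReal
  apply le_of_eq
  ring

/-- the integral of one term, a box in the second coordinate -/
theorem caseC (K : Set ℂ) (hK : MeasurableSet K) (R κ x0 : ℝ) (hR : 0 ≤ R) (hκ : 0 < κ)
    (hKR : ∀ z ∈ K, ‖z‖ ≤ R) (f : ℂ → ℝ≥0∞)
    (hf : ∀ z ∈ K, f z ≤ ENNReal.ofReal (Real.exp (-(κ * (z.re - x0) ^ 2)))) :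
    ∫⁻ z in K, f z ≤ ENNReal.ofReal (2 * R * √(Real.pi / κ)) := by
  set h : ℝ × ℝ → ℝ≥0∞ := fun p => ENNReal.ofReal (Real.exp (-(κ * (p.1 - x0) ^ 2))) *
    (Icc (-R) R).indicator (fun _ => (1 : ℝ≥0∞)) p.2 with hh
  have hm1 : Measurable fun p : ℝ × ℝ => (Icc (-R) R).indicator (fun _ => (1 : ℝ≥0∞)) p.2 :=
    (measurable_const.indicator measurableSet_Icc).comp measurable_snd
  have hm3 : Measurable fun x : ℝ => ENNReal.ofReal (Real.exp (-(κ * (x - x0) ^ 2))) := by
    apply Measurable.ennreal_ofReal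
    apply Real.measurable_exp.comp
    fun_prop
  have hm2 : Measurable fun p : ℝ × ℝ => ENNReal.ofReal (Real.exp (-(κ * (p.1 - x0) ^ 2))) :=
    hm3.comp measurable_fst
  have hm : Measurable h := hm2.mul hm1
  have h1 : ∫⁻ z in K, f z ≤ ∫⁻ z : ℂ, h (z.re, z.im) := by
    refine (setLIntegral_mono' hK (g := fun z : ℂ => h (z.re, z.im)) ?_).trans
      (setLIntegral_le_lintegral _ _)
    intro z hz
    have h2 : z.im ∈ Icc (-R) R := by
      have := (Complex.abs_im_le_norm z).trans (hKR z hz)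
      rw [abs_le] at this
      exact this
    rw [hh]
    simp only [Set.indicator_of_mem h2, mul_one]
    exact hf z hz
  refine h1.trans ?_
  rw [toProd h hm]
  have h3 : ∀ x : ℝ, ∫⁻ y : ℝ, h (x, y) =
      ENNReal.ofReal (Real.exp (-(κ * (x - x0) ^ 2))) * ENNReal.ofReal (2 * R) := by
    intro x
    rw [hh]
    simp only
    rw [lintegral_const_mul _ (measurable_const.indicator measurableSet_Icc),
      lintegral_indicator_const measurableSet_Icc, Real.volume_Icc, one_mul]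
    congr 2
    ring
  simp_rw [h3]
  rw [lintegral_mul_const _ hm3, gauss κ x0 hκ, ← ENNReal.ofReal_mul (Real.sqrt_nonneg _)]
  apply ENNReal.ofReal_le_ofReal
  apply le_of_eq
  ring

/-- the integral of one term -/
theorem one (hQF : StmtQF) (K : Set ℂ) (hK : IsCompact K) (hKH : K ⊆ H0) :
    ∃ C : ℝ, 0 ≤ C ∧ ∀ y1 : ℝ, 0 < y1 → ∀ γ : Mat, NonSc γ →
      ∫⁻ z in K, ENNReal.ofReal (Real.exp (-(Real.pi * (y1 * (((γ.det : ℤ) : ℝ) + Vd γ z))))) ≤
        ENNReal.ofReal (C / √y1) := by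
  obtain ⟨R, m0, hm0, hR, hb⟩ := bounds K hK hKH
  have hR0 : 0 < R := by linarith
  have hKm := hK.measurableSet
  set v0 : ℝ := (volume K).toReal with hv0
  have hv0' : volume K = ENNReal.ofReal v0 := by
    rw [hv0, ENNReal.ofReal_toReal hK.measure_lt_top.ne]
  have hv0n : 0 ≤ v0 := ENNReal.toReal_nonneg
  refine ⟨v0 * (2 * R) + 4 * R ^ 2 / m0 + 2 * R ^ 2, by positivity, ?_⟩
  intro y1 hy1 γ hγ
  have hpi := Real.pi_pos
  have hsy : 0 < √y1 := Real.sqrt_pos.mpr hy1
  -- the formula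
  have hform : ∀ z ∈ K, ((γ.det : ℤ) : ℝ) + Vd γ z =
      bet γ z ^ 2 + (((γ 0 0 : ℤ) : ℝ) + ((γ 1 1 : ℤ) : ℝ)) ^ 2 / 4 := fun z hz =>
    (hQF γ z z (hKH hz) (hKH hz)).2.2.2.2.2
  have him : ∀ z ∈ K, 0 < z.im := fun z hz => hKH hz
  have himR : ∀ z ∈ K, z.im ≤ R := fun z hz =>
    ((le_abs_self _).trans (Complex.abs_im_le_norm z)).trans (hb z hz).1
  -- bounded below by a constant
  have hconst : (∀ z ∈ K, 1 / (4 * R ^ 2) ≤ ((γ.det : ℤ) : ℝ) + Vd γ z) →
      ∫⁻ z in K, ENNReal.ofReal (Real.exp (-(Real.pi * (y1 * (((γ.det : ℤ) : ℝ) + Vd γ z))))) ≤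
        ENNReal.ofReal ((v0 * (2 * R) + 4 * R ^ 2 / m0 + 2 * R ^ 2) / √y1) := by
    intro h1
    have h2 : ∀ z ∈ K, ENNReal.ofReal (Real.exp (-(Real.pi * (y1 * (((γ.det : ℤ) : ℝ) +
        Vd γ z))))) ≤ ENNReal.ofReal (2 * R / √y1) := by
      intro z hz
      apply ENNReal.ofReal_le_ofReal
      have h3 : y1 * (1 / (4 * R ^ 2)) ≤ Real.pi * (y1 * (((γ.det : ℤ) : ℝ) + Vd γ z)) := by
        have h4 := mul_le_mul_of_nonneg_left (h1 z hz) hy1.le
        have h5 : 0 ≤ y1 * (1 / (4 * R ^ 2)) := by positivity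
        have h6 := Real.pi_gt_three
        nlinarith
      calc Real.exp (-(Real.pi * (y1 * (((γ.det : ℤ) : ℝ) + Vd γ z))))
          ≤ Real.exp (-(y1 * (1 / (4 * R ^ 2)))) := Real.exp_le_exp.mpr (by linarith)
        _ ≤ 1 / √(y1 * (1 / (4 * R ^ 2))) := exp_le_inv_sqrt _ (by positivity)
        _ = 2 * R / √y1 := by
            rw [Real.sqrt_mul hy1.le, Real.sqrt_div zero_le_one, Real.sqrt_one,
              show (4 : ℝ) * R ^ 2 = (2 * R) ^ 2 by ring, Real.sqrt_sq (by positivity)]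
            field_simp
    refine (setLIntegral_mono' hKm h2).trans ?_
    rw [setLIntegral_const, hv0', ← ENNReal.ofReal_mul (by positivity)]
    apply ENNReal.ofReal_le_ofReal
    have h7 : 2 * R / √y1 * v0 = (v0 * (2 * R)) / √y1 := by ring
    rw [h7]
    apply div_le_div_of_nonneg_right _ hsy.le
    have h8 : 0 ≤ 4 * R ^ 2 / m0 := by positivity
    nlinarith [sq_nonneg R]
  by_cases hs : γ 0 0 + γ 1 1 = 0
  · have hs' : (((γ 0 0 : ℤ) : ℝ) + ((γ 1 1 : ℤ) : ℝ)) = 0 := by exact_mod_cast hs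
    have hd : ((γ 1 1 : ℤ) : ℝ) = -((γ 0 0 : ℤ) : ℝ) := by linarith
    have hform' : ∀ z ∈ K, ((γ.det : ℤ) : ℝ) + Vd γ z = bet γ z ^ 2 := by
      intro z hz
      rw [hform z hz, hs']
      ring
    by_cases hc : γ 1 0 = 0
    · by_cases ha : γ 0 0 = 0
      · -- only `b`
        apply hconst
        intro z hz
        have hd0 : γ 1 1 = 0 := by omega
        have hb0 : γ 0 1 ≠ 0 := by
          intro h
          exact hγ ⟨h, hc, by rw [ha, hd0]⟩
        rw [hform' z hz]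
        unfold bet
        rw [hc, ha, hd0]
        have h1 : (1 : ℝ) ≤ ((γ 0 1 : ℤ) : ℝ) ^ 2 := by
          have : (1 : ℤ) ≤ (γ 0 1) ^ 2 := by
            have := sq_pos_of_ne_zero hb0
            omega
          exact_mod_cast this
        have h2 := him z hz
        have h3 := himR z hz
        have h4 : (((0 : ℤ) : ℝ) * ‖z‖ ^ 2 - (((0 : ℤ) : ℝ) - ((0 : ℤ) : ℝ)) * z.re -
            ((γ 0 1 : ℤ) : ℝ)) / (2 * z.im) = -(((γ 0 1 : ℤ) : ℝ) / (2 * z.im)) := by
          push_cast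
          ring
        rw [h4, neg_sq, div_pow]
        apply div_le_div₀ (sq_nonneg _) h1 (by positivity)
        nlinarith
      · -- `c = 0`, `a ≠ 0`
        have hκ : 0 < Real.pi * y1 / R ^ 2 := by positivity
        have haR : (((γ 0 0 : ℤ)) : ℝ) ≠ 0 := by exact_mod_cast ha
        have h0 := caseC K hKm R (Real.pi * y1 / R ^ 2)
          (-(((γ 0 1 : ℤ) : ℝ) / (2 * ((γ 0 0 : ℤ) : ℝ)))) hR0.le hκ (fun z hz => (hb z hz).1)
          (fun z => ENNReal.ofReal (Real.exp (-(Real.pi * (y1 * (((γ.det : ℤ) : ℝ) + Vd γ z)))))) (by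
            intro z hz
            apply ENNReal.ofReal_le_ofReal
            apply Real.exp_le_exp.mpr
            rw [hform' z hz]
            have h2 := him z hz
            have h3 := himR z hz
            have h4 : bet γ z = -(((γ 0 0 : ℤ) : ℝ) *
                (z.re - -(((γ 0 1 : ℤ) : ℝ) / (2 * ((γ 0 0 : ℤ) : ℝ)))) / z.im) := by
              unfold bet
              rw [hc, hd]
              push_cast
              field_simp
              ring
            have h5 : (1 : ℝ) ≤ ((γ 0 0 : ℤ) : ℝ) ^ 2 := by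
              have : (1 : ℤ) ≤ (γ 0 0) ^ 2 := by
                have := sq_pos_of_ne_zero ha
                omega
              exact_mod_cast this
            have h6 : (z.re - -(((γ 0 1 : ℤ) : ℝ) / (2 * ((γ 0 0 : ℤ) : ℝ)))) ^ 2 / R ^ 2 ≤
                bet γ z ^ 2 := by
              rw [h4, neg_sq, div_pow, mul_pow]
              apply div_le_div₀ (by positivity) _ (by positivity) (by nlinarith)
              nlinarith [sq_nonneg (z.re - -(((γ 0 1 : ℤ) : ℝ) / (2 * ((γ 0 0 : ℤ) : ℝ))))]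
            have h7 := mul_le_mul_of_nonneg_left h6 (mul_pos hpi hy1).le
            have h8 : Real.pi * y1 / R ^ 2 *
                (z.re - -(((γ 0 1 : ℤ) : ℝ) / (2 * ((γ 0 0 : ℤ) : ℝ)))) ^ 2 = Real.pi * y1 *
                ((z.re - -(((γ 0 1 : ℤ) : ℝ) / (2 * ((γ 0 0 : ℤ) : ℝ)))) ^ 2 / R ^ 2) := by ring
            rw [h8]
            linarith)
        refine h0.trans (ENNReal.ofReal_le_ofReal ?_)
        have h9 : √(Real.pi / (Real.pi * y1 / R ^ 2)) = R / √y1 := by
          have : Real.pi / (Real.pi * y1 / R ^ 2) = R ^ 2 / y1 := by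
            field_simp
          rw [this, Real.sqrt_div (sq_nonneg _), Real.sqrt_sq hR0.le]
        rw [h9]
        have h10 : 2 * R * (R / √y1) = (2 * R ^ 2) / √y1 := by ring
        rw [h10]
        apply div_le_div_of_nonneg_right _ hsy.le
        have h11 : 0 ≤ 4 * R ^ 2 / m0 := by positivity
        have h12 : 0 ≤ v0 * (2 * R) := by positivity
        linarith
    · -- `c ≠ 0`
      have hcR : (((γ 1 0 : ℤ)) : ℝ) ≠ 0 := by exact_mod_cast hc
      have hκ : 0 < Real.pi * y1 * m0 ^ 2 / (4 * R ^ 2) := by positivity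
      set A : ℝ → ℝ := fun x => √(-x ^ 2 + (2 * ((γ 0 0 : ℤ) : ℝ) * x + ((γ 0 1 : ℤ) : ℝ)) /
        ((γ 1 0 : ℤ) : ℝ)) with hA
      have hAm : Measurable A := by
        rw [hA]
        fun_prop
      have h0 := caseB K hKm R (Real.pi * y1 * m0 ^ 2 / (4 * R ^ 2)) hR0.le hκ
        (fun z hz => (hb z hz).1)
        (fun z => ENNReal.ofReal (Real.exp (-(Real.pi * (y1 * (((γ.det : ℤ) : ℝ) + Vd γ z))))))
        A hAm (by
          intro z hz
          apply ENNReal.ofReal_le_ofReal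
          apply Real.exp_le_exp.mpr
          rw [hform' z hz]
          have h2 := him z hz
          have h3 := himR z hz
          have h3' := (hb z hz).2
          set a0 : ℝ := -z.re ^ 2 + (2 * ((γ 0 0 : ℤ) : ℝ) * z.re + ((γ 0 1 : ℤ) : ℝ)) /
            ((γ 1 0 : ℤ) : ℝ) with ha0
          have hAz : A z.re = √a0 := rfl
          have h4 : bet γ z = ((γ 1 0 : ℤ) : ℝ) * (z.im ^ 2 - a0) / (2 * z.im) := by
            unfold bet
            rw [hd, ha0, Complex.sq_norm, Complex.normSq_apply]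
            field_simp
            ring
          have h5 : (1 : ℝ) ≤ ((γ 1 0 : ℤ) : ℝ) ^ 2 := by
            have : (1 : ℤ) ≤ (γ 1 0) ^ 2 := by
              have := sq_pos_of_ne_zero hc
              omega
            exact_mod_cast this
          -- `|y² - a0| ≥ m0 |y - √a0|`
          have h6 : m0 ^ 2 * (z.im - √a0) ^ 2 ≤ (z.im ^ 2 - a0) ^ 2 := by
            rcases le_total 0 a0 with h | h
            · have h7 : √a0 ^ 2 = a0 := Real.sq_sqrt h
              have h8 : (z.im ^ 2 - a0) = (z.im + √a0) * (z.im - √a0) := by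
                rw [← h7]
                simp only [Real.sqrt_sq (Real.sqrt_nonneg a0)]
                ring
              rw [h8, mul_pow]
              apply mul_le_mul_of_nonneg_right _ (sq_nonneg _)
              have h9 := Real.sqrt_nonneg a0
              nlinarith
            · rw [Real.sqrt_eq_zero_of_nonpos h, sub_zero]
              have h9 : m0 * z.im ≤ z.im ^ 2 - a0 := by nlinarith
              have h10 : 0 ≤ m0 * z.im := by positivity
              nlinarith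
          have h11 : m0 ^ 2 * (z.im - √a0) ^ 2 / (4 * R ^ 2) ≤ bet γ z ^ 2 := by
            rw [h4, div_pow, mul_pow]
            apply div_le_div₀ (by positivity) _ (by positivity) (by nlinarith)
            nlinarith [sq_nonneg (z.im ^ 2 - a0)]
          have h12 := mul_le_mul_of_nonneg_left h11 (mul_pos hpi hy1).le
          rw [hAz]
          have h13 : Real.pi * y1 * m0 ^ 2 / (4 * R ^ 2) * (z.im - √a0) ^ 2 =
              Real.pi * y1 * (m0 ^ 2 * (z.im - √a0) ^ 2 / (4 * R ^ 2)) := by ring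
          rw [h13]
          linarith)
      refine h0.trans (ENNReal.ofReal_le_ofReal ?_)
      have h9 : √(Real.pi / (Real.pi * y1 * m0 ^ 2 / (4 * R ^ 2))) = (2 * R / m0) / √y1 := by
        have : Real.pi / (Real.pi * y1 * m0 ^ 2 / (4 * R ^ 2)) = (2 * R / m0) ^ 2 / y1 := by
          field_simp
          ring
        rw [this, Real.sqrt_div (sq_nonneg _), Real.sqrt_sq (by positivity)]
      rw [h9]
      have h10 : 2 * R * (2 * R / m0 / √y1) = (4 * R ^ 2 / m0) / √y1 := by ring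
      rw [h10]
      apply div_le_div_of_nonneg_right _ hsy.le
      have h11 : 0 ≤ 2 * R ^ 2 := by positivity
      have h12 : 0 ≤ v0 * (2 * R) := by positivity
      linarith
  · apply hconst
    intro z hz
    rw [hform z hz]
    have h1 : (1 : ℝ) ≤ (((γ 0 0 : ℤ) : ℝ) + ((γ 1 1 : ℤ) : ℝ)) ^ 2 := by
      have : (1 : ℤ) ≤ (γ 0 0 + γ 1 1) ^ 2 := by
        have := sq_pos_of_ne_zero hs
        omega
      exact_mod_cast this
    have h2 : 1 / (4 * R ^ 2) ≤ 1 / 4 := by
      apply div_le_div_of_nonneg_left zero_le_one (by norm_num)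
      nlinarith
    nlinarith [sq_nonneg (bet γ z)]

/-- the integral of one term, with the exponent `-1/4` -/
theorem one' (hQF : StmtQF) (K : Set ℂ) (hK : IsCompact K) (hKH : K ⊆ H0) :
    ∃ C : ℝ, 0 ≤ C ∧ ∀ y1 : ℝ, 0 < y1 → ∀ γ : Mat, NonSc γ →
      ∫⁻ z in K, ENNReal.ofReal (Real.exp (-(Real.pi * (y1 * (((γ.det : ℤ) : ℝ) + Vd γ z))))) ≤
        ENNReal.ofReal (C * y1 ^ (-(1 / 4 : ℝ))) := by
  obtain ⟨C, hC, h⟩ := one hQF K hK hKH
  set v0 : ℝ := (volume K).toReal with hv0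
  have hv0' : volume K = ENNReal.ofReal v0 := by
    rw [hv0, ENNReal.ofReal_toReal hK.measure_lt_top.ne]
  have hv0n : 0 ≤ v0 := ENNReal.toReal_nonneg
  refine ⟨C + v0, by positivity, ?_⟩
  intro y1 hy1 γ hγ
  rcases le_total 1 y1 with h1 | h1
  · refine (h y1 hy1 γ hγ).trans (ENNReal.ofReal_le_ofReal ?_)
    have h2 : C / √y1 = C * y1 ^ (-(1 / 2 : ℝ)) := by
      rw [Real.sqrt_eq_rpow, Real.rpow_neg hy1.le]
      rfl
    rw [h2]
    have h3 : y1 ^ (-(1 / 2 : ℝ)) ≤ y1 ^ (-(1 / 4 : ℝ)) :=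
      Real.rpow_le_rpow_of_exponent_le h1 (by norm_num)
    have h4 : 0 ≤ y1 ^ (-(1 / 4 : ℝ)) := Real.rpow_nonneg hy1.le _
    nlinarith [mul_le_mul_of_nonneg_left h3 hC, mul_nonneg hv0n h4]
  · have h2 : ∀ z ∈ K, ENNReal.ofReal (Real.exp (-(Real.pi * (y1 * (((γ.det : ℤ) : ℝ) +
        Vd γ z))))) ≤ 1 := by
      intro z hz
      rw [← ENNReal.ofReal_one]
      apply ENNReal.ofReal_le_ofReal
      rw [Real.exp_le_one_iff]
      have h3 := (hQF γ z z (hKH hz) (hKH hz)).2.1
      have h4 : 0 ≤ Real.pi * (y1 * (((γ.det : ℤ) : ℝ) + Vd γ z)) :=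
        mul_nonneg Real.pi_pos.le (mul_nonneg hy1.le h3)
      linarith
    refine (setLIntegral_mono' hK.measurableSet h2).trans ?_
    rw [setLIntegral_const, hv0', one_mul]
    apply ENNReal.ofReal_le_ofReal
    have h5 : 1 ≤ y1 ^ (-(1 / 4 : ℝ)) :=
      Real.one_le_rpow_of_pos_of_le_one_of_nonpos hy1 h1 (by norm_num)
    nlinarith

end

end W3M

open W3M

theorem stmtW3 (hQF : StmtQF) (hGau : StmtGau) : StmtW3 := by
  classical
  intro K hK hKH
  obtain ⟨C2, hC2, hone⟩ := one' hQF K hK hKH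
  obtain ⟨R, m0, hm0, hR, hb⟩ := bounds K hK hKH
  have hR0 : 0 < R := by linarith
  have hpi := Real.pi_pos
  set B : ℝ := (R ^ 2 + 1) / m0 with hB
  have hBp : 0 < B := by positivity
  set c0 : ℝ := 1 / (4 * B ^ 2) with hc0
  have hc0p : 0 < c0 := by positivity
  obtain ⟨Cg, hCg⟩ := hGau.2.2 (Real.pi * c0 / 2) (by positivity)
  refine ⟨Cg ^ 2 / (Real.pi * c0) * C2, by positivity, ?_⟩
  intro y1 y hy1 hy
  have hy0 : 0 < y := by linarith
  set t : ℝ := Real.pi * c0 * y with ht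
  have htp : 0 < t := by positivity
  have ht0 : Real.pi * c0 / 2 ≤ t := by
    rw [ht]
    have : 0 < Real.pi * c0 := by positivity
    nlinarith
  -- the Gaussian sum
  set e : Mat → ℝ := fun γ => if γ = 0 then (0 : ℝ) else Real.exp (-(t * msq γ)) with he
  have hen : ∀ γ, 0 ≤ e γ := by
    intro γ
    rw [he]
    simp only
    split_ifs
    · exact le_rfl
    · exact (Real.exp_pos _).le
  have hes : Summable e := by
    refine Summable.of_nonneg_of_le hen ?_ (hGau.1 t htp)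
    intro γ
    rw [he]
    simp only
    split_ifs
    · exact (Real.exp_pos _).le
    · exact le_rfl
  have hT : ∑' γ, ENNReal.ofReal (e γ) ≤ ENNReal.ofReal (Cg * Real.exp (-(t / 2))) := by
    rw [← ENNReal.ofReal_tsum_of_nonneg hen hes]
    apply ENNReal.ofReal_le_ofReal
    have h1 := hCg t ht0
    convert h1
  set X : Mat → ℂ → ℝ≥0∞ := fun γ z =>
    ENNReal.ofReal (Real.exp (-(Real.pi * (y1 * (((γ.det : ℤ) : ℝ) + Vd γ z))))) with hX
  have hXm : ∀ γ, Measurable (X γ) := by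
    intro γ
    apply Measurable.ennreal_ofReal
    apply Real.measurable_exp.comp
    exact ((((measurable_Vd γ).const_add _).const_mul y1).const_mul _).neg
  have hX1 : ∀ γ, ∀ z ∈ K, X γ z ≤ 1 := by
    intro γ z hz
    rw [hX, ← ENNReal.ofReal_one]
    apply ENNReal.ofReal_le_ofReal
    rw [Real.exp_le_one_iff]
    have h3 := (hQF γ z z (hKH hz) (hKH hz)).2.1
    have h4 : 0 ≤ Real.pi * (y1 * (((γ.det : ℤ) : ℝ) + Vd γ z)) :=
      mul_nonneg Real.pi_pos.le (mul_nonneg hy1.le h3)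
    linarith
  -- the set of indices
  set Y : Mat → ℂ → ℝ≥0∞ := fun γ z => if NonSc γ then X γ z else 0 with hY
  have hYm : ∀ γ, Measurable (Y γ) := by
    intro γ
    rw [hY]
    by_cases hγ : NonSc γ
    · simp only [hγ, if_true]
      exact hXm γ
    · simp only [hγ, if_false]
      exact measurable_const
  have hYX : ∀ γ z, Y γ z ≤ X γ z := by
    intro γ z
    rw [hY]
    simp only
    split_ifs
    · exact le_rfl
    · exact zero_le
  have hS : ∀ z ∈ K, sW (fun γ => γ.det ≤ 0 ∧ NonSc γ) y1 y z ≤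
      ∑' γ, ENNReal.ofReal (e γ) * Y γ z := by
    intro z hz
    unfold sW
    refine ENNReal.tsum_le_tsum fun γ => ?_
    by_cases hγ : γ.det ≤ 0 ∧ NonSc γ
    · rw [if_pos hγ]
      obtain ⟨hd, hns⟩ := hγ
      have hg0 : γ ≠ 0 := by
        intro h
        apply hns
        rw [h]
        exact ⟨rfl, rfl, rfl⟩
      have h1 : e γ = Real.exp (-(t * msq γ)) := by
        rw [he]
        simp only [if_neg hg0]
      have h2 : Y γ z = X γ z := by
        rw [hY]
        simp only [if_pos hns]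
      rw [h1, h2, hX]
      simp only
      rw [← ENNReal.ofReal_mul (Real.exp_pos _).le, ← Real.exp_add]
      unfold WW
      apply ENNReal.ofReal_le_ofReal
      apply Real.exp_le_exp.mpr
      have hV := Vd_nonneg γ z
      have hdr : ((γ.det : ℤ) : ℝ) ≤ 0 := by exact_mod_cast hd
      have h4 := (hQF γ z z (hKH hz) (hKH hz)).2.2.2.1
      have him : 0 < z.im := hKH hz
      have hq : (‖z‖ ^ 2 + 1) / z.im ≤ B := by
        rw [hB]
        apply div_le_div₀ (by positivity) _ hm0 (hb z hz).2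
        have := (hb z hz).1
        have h5 := norm_nonneg z
        nlinarith
      have hq0 : 0 ≤ (‖z‖ ^ 2 + 1) / z.im := by positivity
      have h5 : msq γ ≤ 4 * Vd γ z * B ^ 2 := by
        have h6 : 2 * (((γ.det : ℤ) : ℝ) + 2 * VV γ z z) * ((‖z‖ ^ 2 + 1) / z.im) *
            ((‖z‖ ^ 2 + 1) / z.im) ≤ 4 * Vd γ z * ((‖z‖ ^ 2 + 1) / z.im) ^ 2 := by
          have h7 : 2 * (((γ.det : ℤ) : ℝ) + 2 * VV γ z z) ≤ 4 * Vd γ z := by
            unfold Vd
            linarith
          have h8 := mul_le_mul_of_nonneg_right h7 (sq_nonneg ((‖z‖ ^ 2 + 1) / z.im))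
          calc 2 * (((γ.det : ℤ) : ℝ) + 2 * VV γ z z) * ((‖z‖ ^ 2 + 1) / z.im) *
            ((‖z‖ ^ 2 + 1) / z.im) = 2 * (((γ.det : ℤ) : ℝ) + 2 * VV γ z z) *
              ((‖z‖ ^ 2 + 1) / z.im) ^ 2 := by ring
            _ ≤ _ := h8
        have h9 : ((‖z‖ ^ 2 + 1) / z.im) ^ 2 ≤ B ^ 2 := pow_le_pow_left₀ hq0 hq 2
        have h10 := mul_le_mul_of_nonneg_left h9 (by linarith : (0 : ℝ) ≤ 4 * Vd γ z)
        linarith
      have h11 : c0 * msq γ ≤ Vd γ z := by
        rw [hc0, one_div, inv_mul_le_iff₀ (by positivity)]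
        linarith
      have h12 : t * msq γ ≤ Real.pi * (y * Vd γ z) := by
        have h13 := mul_le_mul_of_nonneg_left h11 (mul_pos hpi hy0).le
        rw [ht]
        linarith
      have h14 : Real.pi * (y1 * (((γ.det : ℤ) : ℝ) + Vd γ z) + y * Vd γ z) =
          Real.pi * (y1 * (((γ.det : ℤ) : ℝ) + Vd γ z)) + Real.pi * (y * Vd γ z) := by ring
      rw [h14]
      linarith
    · rw [if_neg hγ]
      exact zero_le
  have hS1 : ∀ z ∈ K, sW (fun γ => γ.det ≤ 0 ∧ NonSc γ) y1 y z ≤ ∑' γ, ENNReal.ofReal (e γ) := by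
    intro z hz
    refine (hS z hz).trans (ENNReal.tsum_le_tsum fun γ => ?_)
    calc ENNReal.ofReal (e γ) * Y γ z ≤ ENNReal.ofReal (e γ) * 1 :=
          mul_le_mul_right ((hYX γ z).trans (hX1 γ z hz)) _
      _ = _ := mul_one _
  have hS2 : ∀ z ∈ K, sW (fun γ => γ.det ≤ 0 ∧ NonSc γ) y1 y z ^ 2 ≤
      (∑' γ, ENNReal.ofReal (e γ)) * ∑' γ, ENNReal.ofReal (e γ) * Y γ z := by
    intro z hz
    rw [sq]
    exact mul_le_mul' (hS1 z hz) (hS z hz)
  have hcount : Countable Mat := inferInstanceAs (Countable (Fin 2 → Fin 2 → ℤ))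
  refine (setLIntegral_mono' hK.measurableSet hS2).trans ?_
  have hm1 : Measurable fun z => ∑' γ, ENNReal.ofReal (e γ) * Y γ z :=
    Measurable.ennreal_tsum fun γ => (hYm γ).const_mul _
  rw [lintegral_const_mul _ hm1, lintegral_tsum fun γ => ((hYm γ).const_mul _).aemeasurable]
  have hY2 : ∀ γ, ∫⁻ z in K, ENNReal.ofReal (e γ) * Y γ z ≤
      ENNReal.ofReal (e γ) * ENNReal.ofReal (C2 * y1 ^ (-(1 / 4 : ℝ))) := by
    intro γ
    rw [lintegral_const_mul _ (hYm γ)]
    refine mul_le_mul_right ?_ _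
    by_cases hγ : NonSc γ
    · refine le_trans ?_ (hone y1 hy1 γ hγ)
      exact lintegral_mono fun z => hYX γ z
    · have : ∀ z, Y γ z = 0 := by
        intro z
        rw [hY]
        simp only [if_neg hγ]
      simp_rw [this]
      simp
  have h20 := ENNReal.tsum_le_tsum hY2
  rw [ENNReal.tsum_mul_right] at h20
  refine (mul_le_mul_right h20 _).trans ?_
  have hCn : 0 ≤ Cg * Real.exp (-(t / 2)) := by
    have h21 := hCg t ht0
    refine le_trans ?_ h21
    apply tsum_nonneg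
    intro γ
    split_ifs
    · exact le_rfl
    · exact (Real.exp_pos _).le
  have hrp : 0 ≤ y1 ^ (-(1 / 4 : ℝ)) := Real.rpow_nonneg hy1.le _
  calc (∑' γ, ENNReal.ofReal (e γ)) * ((∑' γ, ENNReal.ofReal (e γ)) *
        ENNReal.ofReal (C2 * y1 ^ (-(1 / 4 : ℝ))))
      ≤ ENNReal.ofReal (Cg * Real.exp (-(t / 2))) * (ENNReal.ofReal (Cg * Real.exp (-(t / 2))) *
        ENNReal.ofReal (C2 * y1 ^ (-(1 / 4 : ℝ)))) :=
        mul_le_mul' hT (mul_le_mul' hT le_rfl)
    _ = ENNReal.ofReal (Cg * Real.exp (-(t / 2)) * (Cg * Real.exp (-(t / 2)) *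
        (C2 * y1 ^ (-(1 / 4 : ℝ))))) := by
        rw [← ENNReal.ofReal_mul hCn, ← ENNReal.ofReal_mul hCn]
    _ ≤ _ := by
        apply ENNReal.ofReal_le_ofReal
        have h22 : Real.exp (-(t / 2)) * Real.exp (-(t / 2)) = Real.exp (-t) := by
          rw [← Real.exp_add]
          congr 1
          ring
        have h23 : Real.exp (-t) ≤ 1 / t := by
          rw [Real.exp_neg, ← one_div]
          exact one_div_le_one_div_of_le htp ((by linarith [Real.add_one_le_exp t]))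
        have h24 : Cg * Real.exp (-(t / 2)) * (Cg * Real.exp (-(t / 2)) *
            (C2 * y1 ^ (-(1 / 4 : ℝ)))) =
            (Cg ^ 2 * C2 * y1 ^ (-(1 / 4 : ℝ))) * Real.exp (-t) := by
          rw [← h22]
          ring
        have h25 : Cg ^ 2 / (Real.pi * c0) * C2 / y * y1 ^ (-(1 / 4 : ℝ)) =
            (Cg ^ 2 * C2 * y1 ^ (-(1 / 4 : ℝ))) * (1 / t) := by
          rw [ht]
          field_simp
        rw [h24, h25]
        exact mul_le_mul_of_nonneg_left h23 (by positivity)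

end Pool.Agent.A54.Av
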