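import Pool.Agent.Lib.MP_a54f13_nt.Av.SpecA

/-!
# Package `Av`: lowering the weight
-/

set_option autoImplicit false

namespace Pool.Agent.A54.Av

open MeasureTheory Filter Topology Set
open scoped ContDiff ComplexConjugate UpperHalfPlane MatrixGroups ENNReal
open Pool.Agent.A54.Half (H0 qq ff hh)

noncomputable section

namespace WLM

lemma isOpen_H0 : IsOpen H0 := by
  have : H0 = Complex.im ⁻¹' (Ioi 0) := rfl
  rw [this]
  exact isOpen_Ioi.preimage Complex.continuous_im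

lemma differentiableAt {G : ℂ → ℂ} (h : ContDiffOn ℝ 1 G H0) {τ : ℂ} (hτ : τ ∈ H0) :
    DifferentiableAt ℝ G τ :=
  (h.differentiableOn (by norm_num)).differentiableAt (isOpen_H0.mem_nhds hτ)

lemma neg_inv_mem {τ : ℂ} (hτ : τ ∈ H0) : -τ⁻¹ ∈ H0 := by
  have h : 0 < τ.im := hτ
  have hn : 0 < Complex.normSq τ := by
    refine Complex.normSq_pos.mpr ?_
    rintro rfl
    simp at h
  show 0 < (-τ⁻¹).im
  rw [Complex.neg_im, Complex.inv_im, neg_div, neg_neg]
  exact div_pos h hn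

/-- the key identity: the derivative of the transformation law in the direction `v` -/
lemma key {G : ℂ → ℂ} {k : ℕ} (h : ContDiffOn ℝ 1 G H0)
    (hS : ∀ τ ∈ H0, G (-τ⁻¹) = (τ / conj τ) ^ k * G τ) {τ : ℂ} (hτ : τ ∈ H0) (v : ℂ) :
    fderiv ℝ G (-τ⁻¹) (v / τ ^ 2) =
      (k : ℂ) * (τ / conj τ) ^ (k - 1) * ((v * conj τ - τ * conj v) / (conj τ) ^ 2) * G τ +
        (τ / conj τ) ^ k * fderiv ℝ G τ v := by
  have him : 0 < τ.im := hτ
  have hτ0 : τ ≠ 0 := by
    rintro rfl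
    simp at him
  have hc0 : conj τ ≠ 0 := by simpa using hτ0
  have hp : HasDerivAt (fun s : ℝ => τ + (s : ℂ) * v) v 0 := by
    have h1 : HasDerivAt (fun s : ℝ => (s : ℂ)) 1 0 := Complex.ofRealCLM.hasDerivAt
    simpa using (h1.mul_const v).const_add τ
  have hcp : HasDerivAt (fun s : ℝ => conj (τ + (s : ℂ) * v)) (conj v) 0 := by
    have := (Complex.conjCLE : ℂ →L[ℝ] ℂ).hasFDerivAt (x := τ + ((0 : ℝ) : ℂ) * v)
    exact this.comp_hasDerivAt 0 hp
  have e0 : τ + ((0 : ℝ) : ℂ) * v = τ := by simp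
  have hu : HasDerivAt (fun s : ℝ => (τ + (s : ℂ) * v) / conj (τ + (s : ℂ) * v))
      ((v * conj τ - τ * conj v) / (conj τ) ^ 2) 0 := by
    have := hp.fun_div hcp (by rw [e0]; exact hc0)
    rwa [e0] at this
  have huk := hu.fun_pow k
  have hG1 : HasDerivAt (fun s : ℝ => G (τ + (s : ℂ) * v)) (fderiv ℝ G τ v) 0 := by
    have h1 : HasFDerivAt G (fderiv ℝ G τ) (τ + ((0 : ℝ) : ℂ) * v) := by
      rw [e0]
      exact (differentiableAt h hτ).hasFDerivAt
    exact h1.comp_hasDerivAt 0 hp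
  have hR := huk.fun_mul hG1
  have hinv : HasDerivAt (fun s : ℝ => -(τ + (s : ℂ) * v)⁻¹) (v / τ ^ 2) 0 := by
    have := (hp.fun_inv (by rw [e0]; exact hτ0)).fun_neg
    rw [e0, neg_div, neg_neg] at this
    exact this
  have hG2 : HasDerivAt (fun s : ℝ => G (-(τ + (s : ℂ) * v)⁻¹))
      (fderiv ℝ G (-τ⁻¹) (v / τ ^ 2)) 0 := by
    have h1 : HasFDerivAt G (fderiv ℝ G (-τ⁻¹)) (-(τ + ((0 : ℝ) : ℂ) * v)⁻¹) := by
      rw [e0]
      exact (differentiableAt h (neg_inv_mem hτ)).hasFDerivAt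
    exact h1.comp_hasDerivAt 0 hinv
  have hev : ∀ᶠ s : ℝ in 𝓝 0, τ + (s : ℂ) * v ∈ H0 := by
    have hc : ContinuousAt (fun s : ℝ => τ + (s : ℂ) * v) 0 := hp.continuousAt
    refine hc.eventually_mem (isOpen_H0.mem_nhds ?_)
    simpa using hτ
  have heq : (fun s : ℝ => G (-(τ + (s : ℂ) * v)⁻¹)) =ᶠ[𝓝 0] fun s : ℝ =>
      ((τ + (s : ℂ) * v) / conj (τ + (s : ℂ) * v)) ^ k * G (τ + (s : ℂ) * v) := by
    filter_upwards [hev] with s hs
    exact hS _ hs
  have := (hR.congr_of_eventuallyEq heq).unique hG2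
  rw [← this]
  simp only [e0]

lemma fderiv_shift {G : ℂ → ℂ} (hT : ∀ τ ∈ H0, G (τ + 1) = G τ) {τ : ℂ} (hτ : τ ∈ H0) :
    fderiv ℝ G (τ + 1) = fderiv ℝ G τ := by
  rw [← fderiv_comp_add_right]
  refine Filter.EventuallyEq.fderiv_eq ?_
  filter_upwards [isOpen_H0.mem_nhds hτ] with x hx
  exact hT x hx

/-- expansion of a real linear map -/
lemma lin (L : ℂ →L[ℝ] ℂ) (c : ℂ) : L c = (c.re : ℂ) * L 1 + (c.im : ℂ) * L Complex.I := by
  have h : c = c.re • (1 : ℂ) + c.im • Complex.I := by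
    rw [Complex.real_smul, Complex.real_smul, mul_one]
    exact (Complex.re_add_im c).symm
  conv_lhs => rw [h]
  rw [map_add, map_smul, map_smul, Complex.real_smul, Complex.real_smul]

lemma lin_dzb (L : ℂ →L[ℝ] ℂ) (c : ℂ) :
    L c + Complex.I * L (Complex.I * c) = conj c * (L 1 + Complex.I * L Complex.I) := by
  rw [lin L c, lin L (Complex.I * c)]
  have h1 : (Complex.I * c).re = -c.im := by simp
  have h2 : (Complex.I * c).im = c.re := by simp
  have h3 : conj c = (c.re : ℂ) - (c.im : ℂ) * Complex.I := by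
    apply Complex.ext <;> simp
  rw [h1, h2, h3]
  push_cast
  have hI := Complex.I_mul_I
  linear_combination ((c.im : ℂ) * L Complex.I) * hI

end WLM

open WLM in
theorem stmtWL : StmtWL := by
  intro k G hG hL hb
  refine ⟨hL, fun τ hτ => ?_, fun τ hτ => ?_, hb⟩
  · unfold LL dzb
    rw [fderiv_shift hG.T hτ, hG.T τ hτ]
    simp
  · have him : 0 < τ.im := hτ
    have hτ0 : τ ≠ 0 := by
      rintro rfl
      simp at him
    have hc0 : conj τ ≠ 0 := by simpa using hτ0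
    have k1 := key hG.smooth hG.S hτ 1
    have k2 := key hG.smooth hG.S hτ Complex.I
    have k3 := lin_dzb (fderiv ℝ G (-τ⁻¹)) (1 / τ ^ 2)
    rw [show Complex.I * (1 / τ ^ 2) = Complex.I / τ ^ 2 by ring, k1, k2] at k3
    have e1 : conj (1 / τ ^ 2) = 1 / (conj τ) ^ 2 := by simp
    have e2 : conj (1 : ℂ) = 1 := by simp
    have e3 : conj Complex.I = -Complex.I := by simp
    rw [e1, e2, e3] at k3
    simp only [Nat.add_sub_cancel] at k3
    have e4 : ((-τ⁻¹).im : ℂ) = (τ.im : ℂ) / (τ * conj τ) := by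
      rw [Complex.mul_conj, Complex.neg_im, Complex.inv_im, neg_div, neg_neg]
      push_cast
      rfl
    have e5 : (τ.im : ℂ) = (τ - conj τ) / (2 * Complex.I) := by
      rw [Complex.sub_conj]
      field_simp
      push_cast
      ring
    unfold LL dzb
    rw [hG.S τ hτ, e4]
    set D1 := fderiv ℝ G τ 1
    set D2 := fderiv ℝ G τ Complex.I
    set E := fderiv ℝ G (-τ⁻¹) 1 + Complex.I * fderiv ℝ G (-τ⁻¹) Complex.I with hE
    set y : ℂ := (τ.im : ℂ)
    set c := conj τ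
    set g := G τ
    have hI : Complex.I ≠ 0 := Complex.I_ne_zero
    have hI2 : Complex.I ^ 2 = -1 := Complex.I_sq
    have k4 : E = c ^ 2 * ((τ / c) ^ k * (-(2 * ((k : ℂ) + 1)) * (τ / c ^ 2) * g +
        (τ / c) * (D1 + Complex.I * D2))) := by
      have : E = c ^ 2 * (1 / c ^ 2 * E) := by field_simp
      rw [this, ← k3, pow_succ (τ / c) k]
      generalize (τ / c) ^ k = q
      push_cast
      field_simp
      ring_nf
      simp only [hI2]
      ring
    rw [k4, e5, pow_succ (τ / c) k]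
    generalize (τ / c) ^ k = q
    push_cast
    field_simp
    ring

end

end Pool.Agent.A54.Av
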