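import Pool.Agent.Lib.MP_a54f13_nt.Av.SpecA

set_option autoImplicit false

namespace Pool.Agent.A54.Av.WRM

open MeasureTheory Filter Topology Set
open scoped ContDiff ComplexConjugate UpperHalfPlane MatrixGroups ENNReal
open Pool.Agent.A54.Half (H0)
open Pool.Agent.A54 Pool.Agent.A54.Av

theorem fderiv_apply (H : ℂ → ℂ) (z a : ℂ) :
    fderiv ℝ H z a = (dz H z * a + dzb H z * conj a) / 2 := by
  have h1 : fderiv ℝ H z a = (a.re : ℂ) * fderiv ℝ H z 1 + (a.im : ℂ) * fderiv ℝ H z Complex.I := by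
    have : a = a.re • (1 : ℂ) + a.im • Complex.I := by
      simp [Complex.re_add_im]
    conv_lhs => rw [this]
    rw [map_add, map_smul, map_smul, Complex.real_smul, Complex.real_smul]
  rw [h1]
  unfold dz dzb
  have h2 : conj a = (a.re : ℂ) - (a.im : ℂ) * Complex.I := by
    apply Complex.ext <;> simp
  have h3 : a = (a.re : ℂ) + (a.im : ℂ) * Complex.I := (Complex.re_add_im a).symm
  rw [h2]
  conv_rhs => rw [show a = (a.re : ℂ) + (a.im : ℂ) * Complex.I from h3]
  simp only [Complex.add_re, Complex.ofReal_re, Complex.mul_re, Complex.I_re, Complex.ofReal_im,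
    Complex.I_im, Complex.add_im, Complex.mul_im]
  push_cast
  linear_combination ((a.im : ℂ) * fderiv ℝ H z Complex.I) * Complex.I_mul_I

theorem dz_comp (H σ : ℂ → ℂ) (τ s : ℂ) (hH : DifferentiableAt ℝ H (σ τ)) (hσ : HasDerivAt σ s τ) :
    dz (fun w => H (σ w)) τ = dz H (σ τ) * s := by
  have hσ' : HasFDerivAt σ (s • (1 : ℂ →L[ℝ] ℂ)) τ := hσ.complexToReal_fderiv
  have h := (hH.hasFDerivAt.comp τ hσ').fderiv
  have h' : fderiv ℝ (fun w => H (σ w)) τ = (fderiv ℝ H (σ τ)).comp (s • (1 : ℂ →L[ℝ] ℂ)) := h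
  conv_lhs => unfold dz
  rw [h']
  simp only [ContinuousLinearMap.comp_apply, ContinuousLinearMap.smul_apply,
    ContinuousLinearMap.one_apply, smul_eq_mul]
  rw [fderiv_apply, fderiv_apply]
  simp only [map_mul, Complex.conj_I, map_one]
  linear_combination (-(dz H (σ τ) * s) / 2 + (dzb H (σ τ) * conj s) / 2) * Complex.I_mul_I

theorem dz_mul' (a b : ℂ → ℂ) (τ : ℂ) (ha : DifferentiableAt ℝ a τ) (hb : DifferentiableAt ℝ b τ) :
    dz (fun w => a w * b w) τ = dz a τ * b τ + a τ * dz b τ := by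
  unfold dz
  rw [fderiv_fun_mul ha hb]
  simp only [ContinuousLinearMap.add_apply, ContinuousLinearMap.smul_apply, smul_eq_mul]
  ring

theorem dz_hol (f : ℂ → ℂ) (τ s : ℂ) (h : HasDerivAt f s τ) : dz f τ = 2 * s := by
  have h' := h.complexToReal_fderiv.fderiv
  unfold dz
  rw [h']
  simp only [ContinuousLinearMap.smul_apply, ContinuousLinearMap.one_apply, smul_eq_mul]
  linear_combination (-s) * Complex.I_mul_I

theorem diff_conj_pow (k : ℕ) (τ : ℂ) : DifferentiableAt ℝ (fun w : ℂ => conj w ^ k) τ :=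
  (Complex.conjCLE.differentiableAt).pow k

theorem dz_conj_pow (k : ℕ) (τ : ℂ) : dz (fun w : ℂ => conj w ^ k) τ = 0 := by
  induction k with
  | zero => unfold dz; simp
  | succ k ih =>
    have h1 : (fun w : ℂ => conj w ^ (k + 1)) = fun w => conj w ^ k * conj w := by
      ext w; ring
    have hc : DifferentiableAt ℝ (fun w : ℂ => conj w) τ := Complex.conjCLE.differentiableAt
    rw [h1, dz_mul' _ _ τ (diff_conj_pow k τ) hc, ih]
    have h2 : dz (fun w : ℂ => conj w) τ = 0 := by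
      unfold dz
      have : fderiv ℝ (fun w : ℂ => conj w) τ = (Complex.conjCLE : ℂ →L[ℝ] ℂ) :=
        Complex.conjCLE.hasFDerivAt.fderiv
      rw [this]
      simp
    rw [h2]
    ring

theorem ne_zero_of_mem {τ : ℂ} (h : τ ∈ H0) : τ ≠ 0 := by
  rintro rfl
  simp [H0] at h

theorem neg_inv_mem {τ : ℂ} (h : τ ∈ H0) : -τ⁻¹ ∈ H0 := by
  have h' : 0 < τ.im := h
  have h0 := ne_zero_of_mem h
  show 0 < (-τ⁻¹).im
  rw [Complex.neg_im, Complex.inv_im]
  have : 0 < Complex.normSq τ := Complex.normSq_pos.2 h0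
  have := div_pos h' this
  rw [neg_div, neg_neg]
  exact this

theorem dA {H : ℂ → ℂ} (hH : ContDiffOn ℝ 1 H H0) {τ : ℂ} (h : τ ∈ H0) :
    DifferentiableAt ℝ H τ :=
  ((hH.differentiableOn (by norm_num)) τ h).differentiableAt (Half.isOpen_H0.mem_nhds h)

end Pool.Agent.A54.Av.WRM

namespace Pool.Agent.A54.Av

open MeasureTheory Filter Topology Set
open scoped ContDiff ComplexConjugate UpperHalfPlane MatrixGroups ENNReal
open Pool.Agent.A54.Half (H0)

open WRM in
theorem stmtWR : StmtWR := by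
  intro k H hH hR hb
  have hd : ∀ τ ∈ H0, DifferentiableAt ℝ H τ := fun τ h => dA hH.smooth h
  refine ⟨hR, ?_, ?_, hb⟩
  · intro τ hτ
    have h1 : dz H (τ + 1) = dz H τ := by
      have hc := dz_comp H (fun w => w + 1) τ 1
        (hd _ (by show 0 < (τ + 1).im; have hτ' : 0 < τ.im := hτ; simpa using hτ')) ((hasDerivAt_id τ).add_const 1)
      rw [mul_one] at hc
      rw [← hc]
      exact dz_congr Half.isOpen_H0 (fun w hw => hH.T w hw) hτ
    unfold RR
    rw [h1, hH.T τ hτ]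
    simp
  · intro τ hτ
    have h0 := ne_zero_of_mem hτ
    have hc0 : conj τ ≠ 0 := (map_ne_zero _).2 h0
    -- the relation between the derivatives
    have hσ : HasDerivAt (fun w : ℂ => -w⁻¹) ((τ ^ 2)⁻¹) τ := by
      have := (hasDerivAt_inv h0).fun_neg
      rwa [neg_neg] at this
    have hdσ := hd _ (neg_inv_mem hτ)
    have hcomp := dz_comp H (fun w => -w⁻¹) τ _ hdσ hσ
    have hL : dz (fun w => conj w ^ k * H (-w⁻¹)) τ = conj τ ^ k * (dz H (-τ⁻¹) * (τ ^ 2)⁻¹) := by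
      have hdc : DifferentiableAt ℝ (fun w : ℂ => H (-w⁻¹)) τ :=
        DifferentiableAt.comp τ hdσ hσ.complexToReal_fderiv.differentiableAt
      rw [dz_mul' _ _ τ (diff_conj_pow k τ) hdc, dz_conj_pow, hcomp]
      ring
    have hRt : dz (fun w => w ^ k * H w) τ = 2 * ((k : ℂ) * τ ^ (k - 1)) * H τ + τ ^ k * dz H τ := by
      rw [dz_mul' _ _ τ (by fun_prop) (hd τ hτ), dz_hol _ τ _ (hasDerivAt_pow k τ)]
    have heq : dz (fun w => conj w ^ k * H (-w⁻¹)) τ = dz (fun w => w ^ k * H w) τ := by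
      refine dz_congr Half.isOpen_H0 (fun w hw => ?_) hτ
      have hw0 := ne_zero_of_mem hw
      have hwc : conj w ≠ 0 := (map_ne_zero _).2 hw0
      rw [hH.S w hw, div_pow]
      field_simp
    rw [hL, hRt] at heq
    have hpow : τ ^ (k - 1) * (k : ℂ) * τ = (k : ℂ) * τ ^ k := by
      rcases k with _ | k
      · simp
      · simp only [Nat.add_sub_cancel]
        ring
    have hdz : dz H (-τ⁻¹) * conj τ ^ k = τ * (2 * ((k : ℂ) * τ ^ k) * H τ + τ ^ (k + 1) * dz H τ) := by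
      have : dz H (-τ⁻¹) * conj τ ^ k = τ ^ 2 * (conj τ ^ k * (dz H (-τ⁻¹) * (τ ^ 2)⁻¹)) := by
        field_simp
      rw [this, heq, ← hpow]
      ring
    have him : ((-τ⁻¹ : ℂ).im : ℂ) * (τ * conj τ) = (τ.im : ℂ) := by
      rw [Complex.mul_conj, Complex.neg_im, Complex.inv_im]
      have hn : Complex.normSq τ ≠ 0 := (Complex.normSq_pos.2 h0).ne'
      push_cast
      have hn' : (Complex.normSq τ : ℂ) ≠ 0 := by exact_mod_cast hn
      field_simp
    have hsub : τ - conj τ = 2 * (τ.im : ℂ) * Complex.I := by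
      rw [Complex.sub_conj]; push_cast; ring
    have hHS := hH.S τ hτ
    unfold RR
    rw [hHS, div_pow, div_pow]
    have hck : conj τ ^ k ≠ 0 := pow_ne_zero _ hc0
    have hck1 : conj τ ^ (k + 1) ≠ 0 := pow_ne_zero _ hc0
    rw [div_mul_eq_mul_div (τ ^ (k + 1)), eq_div_iff hck1]
    have e1 : (Complex.I * ((-τ⁻¹ : ℂ).im : ℂ) * dz H (-τ⁻¹) + (k : ℂ) * (τ ^ k / conj τ ^ k * H τ)) *
        conj τ ^ (k + 1) = Complex.I * (((-τ⁻¹ : ℂ).im : ℂ) * (dz H (-τ⁻¹) * conj τ ^ k) * conj τ) +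
        (k : ℂ) * τ ^ k * H τ * conj τ := by
      field_simp
      ring
    rw [e1, hdz]
    linear_combination (Complex.I * (2 * ((k : ℂ) * τ ^ k) * H τ + τ ^ (k + 1) * dz H τ)) * him +
      (-(k : ℂ) * τ ^ k * H τ) * hsub

end Pool.Agent.A54.Av
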