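import Pool.Agent.Lib.MP_a54f13_nt.Av.SpecA

/-!
# The mean value of a Maass form is zero
-/

set_option autoImplicit false

namespace Pool.Agent.A54.Av

open MeasureTheory Filter Topology Set
open scoped ContDiff ComplexConjugate UpperHalfPlane MatrixGroups ENNReal
open Pool.Agent.A54.Half (H0 qq ff hh)

namespace Z0M

theorem RR_one (z : ℂ) : RR 0 (fun _ => (1 : ℂ)) z = 0 := by
  simp [RR, dz]

theorem wt_one : Wt 0 (fun _ : ℂ => (1 : ℂ)) where
  smooth := contDiffOn_const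
  T := fun _ _ => rfl
  S := fun _ _ => by simp
  bdd := ⟨1, fun _ _ _ => by simp⟩

end Z0M

theorem stmtZ0 (hIB2 : StmtIB2) (hWf : StmtWf) (hDer : StmtDer) : StmtZ0 := by
  intro f t hf
  obtain ⟨C, hC⟩ := hDer f t hf 0
  have hL : ∀ z ∈ H0, LL (0 + 1) (fk f (0 + 1)) z = -((mu 0 t : ℝ) : ℂ) * fk f 0 z :=
    (hWf f t hf 0).2.2
  have hW1 : Wt (0 + 1) (fk f 1) := (hWf f t hf 1).1
  have hmu : 0 < mu 0 t := by
    unfold mu
    positivity
  have h1 := hIB2 0 (fk f 1) (fun _ => 1) hW1 Z0M.wt_one ⟨max 0 (mu 0 t * C), fun τ hτ _ => by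
    constructor
    · rw [Z0M.RR_one, norm_zero]
      exact le_max_left _ _
    · have h2 : LL (0 + 1) (fk f 1) τ = -((mu 0 t : ℝ) : ℂ) * fk f 0 τ := hL τ hτ
      rw [h2, norm_mul, norm_neg, Complex.norm_real, Real.norm_of_nonneg hmu.le]
      exact (mul_le_mul_of_nonneg_left (hC τ hτ) hmu.le).trans (le_max_right _ _)⟩
  have h3 : ∀ z : ℍ, conj (LL (0 + 1) (fk f 1) z) * (1 : ℂ) + conj (fk f 1 z) * RR 0 (fun _ => 1) z =
      ((-(mu 0 t) * f z : ℝ) : ℂ) := by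
    intro z
    have hz : (z : ℂ) ∈ H0 := z.2
    have h2 : LL (0 + 1) (fk f 1) z = -((mu 0 t : ℝ) : ℂ) * fk f 0 z := hL z hz
    have h4 : fk f 0 (z : ℂ) = ((f z : ℝ) : ℂ) := by
      show ((ext f (z : ℂ) : ℝ) : ℂ) = _
      rw [Half.ext_coe]
    rw [h2, h4, Z0M.RR_one]
    simp
  simp only [h3] at h1
  rw [integral_complex_ofReal, integral_const_mul] at h1
  have h5 : -(mu 0 t) * ∫ z in ModularGroup.fdo, f z = 0 := by exact_mod_cast h1
  rcases mul_eq_zero.mp h5 with h6 | h6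
  · linarith
  · exact h6

end Pool.Agent.A54.Av
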