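import Pool.Agent.Lib.MP_a54f13_nt.Pl.Main
import Pool.Agent.Lib.MP_a54f13_nt.Av.Fin3
import Pool.Agent.Lib.MP_a54f13_nt.Av.Ca
import Pool.Agent.Lib.MP_a54f13_nt.Av.Cb
import Pool.Agent.Lib.MP_a54f13_nt.Av.Cf
import Pool.Agent.Lib.MP_a54f13_nt.Av.Cd
import Pool.Agent.Lib.MP_a54f13_nt.Av.Cg
import Pool.Agent.Lib.MP_a54f13_nt.Av.Cr1
import Pool.Agent.Lib.MP_a54f13_nt.Av.Cr2
import Pool.Agent.Lib.MP_a54f13_nt.Av.Cr3
import Pool.Agent.Lib.MP_a54f13_nt.Av.Cr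
import Pool.Agent.Lib.MP_a54f13_nt.Av.Cs
import Pool.Agent.Lib.MP_a54f13_nt.Av.Pb
import Pool.Agent.Lib.MP_a54f13_nt.Av.Pd
import Pool.Agent.Lib.MP_a54f13_nt.Av.P0
import Pool.Agent.Lib.MP_a54f13_nt.Av.P1
import Pool.Agent.Lib.MP_a54f13_nt.Av.PI
import Pool.Agent.Lib.MP_a54f13_nt.Av.PII
import Pool.Agent.Lib.MP_a54f13_nt.Av.PC
import Pool.Agent.Lib.MP_a54f13_nt.Av.QF
import Pool.Agent.Lib.MP_a54f13_nt.Av.Gau
import Pool.Agent.Lib.MP_a54f13_nt.Av.ThS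
import Pool.Agent.Lib.MP_a54f13_nt.Av.Tri
import Pool.Agent.Lib.MP_a54f13_nt.Av.ThI
import Pool.Agent.Lib.MP_a54f13_nt.Av.UL
import Pool.Agent.Lib.MP_a54f13_nt.Av.IBP
import Pool.Agent.Lib.MP_a54f13_nt.Av.IB2
import Pool.Agent.Lib.MP_a54f13_nt.Av.WR
import Pool.Agent.Lib.MP_a54f13_nt.Av.WL
import Pool.Agent.Lib.MP_a54f13_nt.Av.Dec
import Pool.Agent.Lib.MP_a54f13_nt.Av.KBf
import Pool.Agent.Lib.MP_a54f13_nt.Av.Sel
import Pool.Agent.Lib.MP_a54f13_nt.Av.Der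
import Pool.Agent.Lib.MP_a54f13_nt.Av.Wf
import Pool.Agent.Lib.MP_a54f13_nt.Av.Nk
import Pool.Agent.Lib.MP_a54f13_nt.Av.Z0
import Pool.Agent.Lib.MP_a54f13_nt.Av.Fo1
import Pool.Agent.Lib.MP_a54f13_nt.Av.Rho
import Pool.Agent.Lib.MP_a54f13_nt.Av.Pr
import Pool.Agent.Lib.MP_a54f13_nt.Av.Abs
import Pool.Agent.Lib.MP_a54f13_nt.Av.Pp
import Pool.Agent.Lib.MP_a54f13_nt.Av.Pn
import Pool.Agent.Lib.MP_a54f13_nt.Av.Pa
import Pool.Agent.Lib.MP_a54f13_nt.Av.Orth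
import Pool.Agent.Lib.MP_a54f13_nt.Av.Lg1
import Pool.Agent.Lib.MP_a54f13_nt.Av.Lg2
import Pool.Agent.Lib.MP_a54f13_nt.Av.Lg3
import Pool.Agent.Lib.MP_a54f13_nt.Av.Ps
import Pool.Agent.Lib.MP_a54f13_nt.Av.Pw
import Pool.Agent.Lib.MP_a54f13_nt.Av.Pf
import Pool.Agent.Lib.MP_a54f13_nt.Av.Pk1
import Pool.Agent.Lib.MP_a54f13_nt.Av.SI
import Pool.Agent.Lib.MP_a54f13_nt.Av.GI
import Pool.Agent.Lib.MP_a54f13_nt.Av.Pkl
import Pool.Agent.Lib.MP_a54f13_nt.Av.Bet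
import Pool.Agent.Lib.MP_a54f13_nt.Av.En
import Pool.Agent.Lib.MP_a54f13_nt.Av.RS
import Pool.Agent.Lib.MP_a54f13_nt.Av.Av1
import Pool.Agent.Lib.MP_a54f13_nt.Av.Ge
import Pool.Agent.Lib.MP_a54f13_nt.Av.Ar
import Pool.Agent.Lib.MP_a54f13_nt.Av.I0
import Pool.Agent.Lib.MP_a54f13_nt.Av.I1
import Pool.Agent.Lib.MP_a54f13_nt.Av.I2a
import Pool.Agent.Lib.MP_a54f13_nt.Av.I2
import Pool.Agent.Lib.MP_a54f13_nt.Av.I
import Pool.Agent.Lib.MP_a54f13_nt.Av.W1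
import Pool.Agent.Lib.MP_a54f13_nt.Av.W3
import Pool.Agent.Lib.MP_a54f13_nt.Av.Dl
import Pool.Agent.Lib.MP_a54f13_nt.Av.Mb
import Pool.Agent.Lib.MP_a54f13_nt.Av.Sm1
import Pool.Agent.Lib.MP_a54f13_nt.Av.Sm2
import Pool.Agent.Lib.MP_a54f13_nt.Av.Sm3
import Pool.Agent.Lib.MP_a54f13_nt.Av.Far
import Pool.Agent.Lib.MP_a54f13_nt.Av.Avg
import Pool.Agent.Lib.MP_a54f13_nt.Av.G1
import Pool.Agent.Lib.MP_a54f13_nt.Av.G2
import Pool.Agent.Lib.MP_a54f13_nt.Av.BP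
import Pool.Agent.Lib.MP_a54f13_nt.Av.GN
import Pool.Agent.Lib.MP_a54f13_nt.Av.F1
import Pool.Agent.Lib.MP_a54f13_nt.Av.F2
import Pool.Agent.Lib.MP_a54f13_nt.Av.SDi
import Pool.Agent.Lib.MP_a54f13_nt.Av.Fa1
import Pool.Agent.Lib.MP_a54f13_nt.Av.T2z
import Pool.Agent.Lib.MP_a54f13_nt.Av.T2c
import Pool.Agent.Lib.MP_a54f13_nt.Av.Fc
import Pool.Agent.Lib.MP_a54f13_nt.Av.Q1
import Pool.Agent.Lib.MP_a54f13_nt.Av.Q2
import Pool.Agent.Lib.MP_a54f13_nt.Av.Q3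
import Pool.Agent.Lib.MP_a54f13_nt.Av.Par
import Pool.Agent.Lib.MP_a54f13_nt.Av.ExI
import Pool.Agent.Lib.MP_a54f13_nt.Av.N0
import Pool.Agent.Lib.MP_a54f13_nt.Av.N1
import Pool.Agent.Lib.MP_a54f13_nt.Av.N2
import Pool.Agent.Lib.MP_a54f13_nt.Av.N3a
import Pool.Agent.Lib.MP_a54f13_nt.Av.N3
import Pool.Agent.Lib.MP_a54f13_nt.Av.Vol
import Pool.Agent.Lib.MP_a54f13_nt.Av.Fd2
import Pool.Agent.Lib.MP_a54f13_nt.Av.Fin2

/-!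
Assembly of package `Av`.
-/

set_option autoImplicit false

namespace Pool.Agent.A54.Av

open MeasureTheory Filter Topology Set
open scoped ContDiff ComplexConjugate UpperHalfPlane MatrixGroups

/-! part C -/
theorem pCf : StmtCf := stmtCf
theorem pCd : StmtCd := stmtCd pCf
theorem pCs : StmtCs := stmtCs (stmtCg pCf pCd) (stmtCr pCf pCd stmtCr1 stmtCr2 stmtCr3)
theorem pPb : StmtPb := stmtPb stmtCa stmtCb pCs
theorem pPC : StmtPC :=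
  stmtPC stmtPd (stmtP0 stmtPd) (stmtP1 stmtPd) (stmtPI stmtPd pPb) (stmtPII stmtPd pPb)

/-! part A -/
theorem pQF : StmtQF := stmtQF
theorem pGau : StmtGau := stmtGau
theorem pThS : StmtThS := stmtThS pQF pGau
theorem pTri : StmtTri := stmtTri pQF pGau
theorem pThI : StmtThI := stmtThI pTri
theorem pUL : StmtUL := stmtUL
theorem pIB2 : StmtIB2 := stmtIB2 stmtIBP
theorem pDec : StmtDec := stmtDec
theorem pKBf : StmtKBf := stmtKBf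
theorem pSel : StmtSel := stmtSel pKBf
theorem pDer : StmtDer := stmtDer pDec pKBf pSel
theorem pWf : StmtWf := stmtWf stmtWR pDer
theorem pNk : StmtNk := stmtNk pIB2 pWf pDer
theorem pZ0 : StmtZ0 := stmtZ0 pIB2 pWf pDer
theorem pFo1 : StmtFo1 := stmtFo1
theorem pRho : StmtRho := stmtRho pDec pKBf pFo1
theorem pAbs : StmtAbs := stmtAbs pThS pTri pThI pDec
theorem pPr : StmtPr := stmtPr pUL pAbs
theorem pPp : StmtPp := stmtPp pUL pAbs pSel pDec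
theorem pPn : StmtPn := stmtPn pPp pQF
theorem pPa : StmtPa := stmtPa pPr pPp pPn pZ0 pAbs pFo1
theorem pOrth : StmtOrth := stmtOrth pPa pRho pThI pThS pDec
theorem pLg2 : StmtLg2 := stmtLg2 stmtLg1
theorem pPs : StmtPs := stmtPs pQF pGau stmtLg1 pLg2
theorem pPw : StmtPw := stmtPw pPs pThI pThS stmtWR stmtWL
theorem pPf : StmtPf := stmtPf pPa pPw pThS pTri pDec
theorem pPk1 : StmtPk1 := stmtPk1 pPf pPs pPw pIB2 pWf pDer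
theorem pSI : StmtSI := stmtSI pNk pPk1 pPs pDer pWf
theorem pGI : StmtGI := stmtGI pPs stmtLg1 pLg2 stmtLg3 pQF pGau
theorem pRS : StmtRS := stmtRS (stmtEn pKBf (stmtBet pKBf)) pKBf pDec
theorem pAv1 : StmtAv1 := stmtAv1 pSI pGI stmtPkl

/-! part B -/
theorem pGe : StmtGe := stmtGe pQF
theorem pI : StmtI := stmtI (stmtI0 pGe) (stmtI1 pGe stmtAr pQF)
  (stmtI2 pPC (stmtI2a pGe pQF) pGe stmtAr pQF)
theorem pW1 : StmtW1 := stmtW1 pI pGe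
theorem pW3 : StmtW3 := stmtW3 pQF pGau
theorem pMb : StmtMb := stmtMb stmtDl
theorem pSm3 : StmtSm3 := stmtSm3 stmtSm1 stmtSm2
theorem pG1 : StmtG1 := stmtG1 pMb pW1 pW3 stmtAvg stmtDl pQF
theorem pG2 : StmtG2 := stmtG2 pMb pW1 pW3 stmtAvg stmtDl pSm3 (stmtFar pQF) pQF pGau
theorem pBP : StmtBP := stmtBP pG1 pG2 stmtDl

/-! part F -/
theorem pF2 : StmtF2 := stmtF2 (stmtF1 pAv1 (stmtGN pQF pGau) pBP) pRS
theorem pT2z : StmtT2z := stmtT2z Pl.pE3 Pl.pS1 Pl.pQ1 pRel pOdd pOddLim pWeak2 pIneq pL4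
  (stmtComp pL4)
theorem pT2c : StmtT2c := stmtT2c Pl.pT2 pT2z
theorem pFc : StmtFc := stmtFc stmtInt stmtLap Dyn.pNAf stmtSDi pT2c Pl.pT3
theorem pFd2 : StmtFd2 := stmtFd2 pFc stmtFa1 stmtVol Pl.stmtU1 Pl.stmtU2
theorem pQ2 : StmtQ2 := stmtQ2 pDec pFo1 pKBf
theorem pPar : StmtPar := stmtPar pRho pFo1 pQ2 (stmtQ3 stmtQ1 pQ2) pKBf

/-! part N -/
theorem pN3 : StmtN3 := stmtN3 (stmtN1 pUL pSel stmtExI stmtN0 stmtN2 pDec) (stmtN3a pDec)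

theorem main2 : StmtMain2 := stmtFin2 pF2 pN3 pFd2 pOrth pRho pPar

end Pool.Agent.A54.Av
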