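import Pool.Agent.Lib.MP_a54f13_nt.Av.SpecB

set_option autoImplicit false

namespace Pool.Agent.A54.Av.BPM

open MeasureTheory Filter Topology Set
open scoped ContDiff ComplexConjugate UpperHalfPlane MatrixGroups ENNReal
open Pool.Agent.A54.Half (H0 qq ff hh)

noncomputable section

lemma countMat : Countable Mat := inferInstanceAs (Countable (Fin 2 → Fin 2 → ℤ))

/-- measurability of the kernel integral -/
lemma meas_int (η : ℂ → ℝ) (hη : Continuous η) (r q : ℝ) (n : ℤ) (γ : Mat) :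
    Measurable (fun p : ℂ × ℝ × ℝ =>
      ∫ z, (es η r p.1 z : ℂ) * mm (qs q p.2.2) p.2.1 n (Vd γ z)) := by
  have hη' : Measurable η := hη.measurable
  refine (StronglyMeasurable.integral_prod_right
    (f := fun (p : ℂ × ℝ × ℝ) (z : ℂ) =>
      (es η r p.1 z : ℂ) * mm (qs q p.2.2) p.2.1 n (Vd γ z)) ?_).measurable
  refine Measurable.stronglyMeasurable ?_
  unfold es mm qs Vd VV Function.uncurry
  fun_prop

lemma meas_MN (η : ℂ → ℝ) (hη : Continuous η) (r q : ℝ) (n : ℤ) :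
    Measurable (fun p : ℂ × ℝ × ℝ => MN (es η r p.1) (qs q p.2.2) p.2.1 n) := by
  have := countMat
  unfold MN
  refine Measurable.tsum fun γ => ?_
  split_ifs
  · exact meas_int η hη r q n γ
  · exact measurable_const

lemma meas_G (η : ℂ → ℝ) (hη : Continuous η) (r q : ℝ) :
    Measurable (fun p : ℂ × ℝ × ℝ =>
      ∑' n : ℤ, ‖MN (es η r p.1) (qs q p.2.2) p.2.1 n‖ₑ ^ 2 *
        ENNReal.ofReal (p.2.1 ^ 2)⁻¹) := by
  refine Measurable.tsum fun n => ?_
  have := (meas_MN η hη r q n).enorm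
  fun_prop

/-- Tonelli -/
lemma swap (η : ℂ → ℝ) (hη : Continuous η) (r q : ℝ) (K : Set ℂ) :
    ∫⁻ z0 in K, RN q (es η r z0) = ∫⁻ y in Ioi (√3 / 2), ∫⁻ θ in Ioc (-Real.pi) Real.pi,
      (∫⁻ z0 in K, ∑' n : ℤ, ‖MN (es η r z0) (qs q θ) y n‖ₑ ^ 2) *
        ENNReal.ofReal (y ^ 2)⁻¹ := by
  have hG := meas_G η hη r q
  unfold RN
  rw [lintegral_lintegral_swap]
  · refine lintegral_congr fun y => ?_
    rw [lintegral_lintegral_swap]
    · refine lintegral_congr fun θ => ?_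
      rw [← lintegral_mul_const' _ _ ENNReal.ofReal_ne_top]
      refine lintegral_congr fun z0 => ?_
      rw [ENNReal.tsum_mul_right]
    · have : Measurable (fun p : ℂ × ℝ => ((p.1, y, p.2) : ℂ × ℝ × ℝ)) := by fun_prop
      exact (hG.comp this).aemeasurable
  · refine Measurable.aemeasurable ?_
    have h2 : Measurable (fun p : (ℂ × ℝ) × ℝ => ((p.1.1, p.1.2, p.2) : ℂ × ℝ × ℝ)) := by
      fun_prop
    exact (hG.comp h2).lintegral_prod_right'

/-- `∫_c^∞ y⁻² = 1/c` -/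
lemma int_sq (c : ℝ) (hc : 0 < c) :
    ∫⁻ y in Ioi c, ENNReal.ofReal (y ^ 2)⁻¹ = ENNReal.ofReal (1 / c) := by
  have h1 : ∀ y ∈ Ioi c, (y ^ 2)⁻¹ = y ^ (-2 : ℝ) := by
    intro y hy
    have hy0 : 0 < y := hc.trans hy
    rw [Real.rpow_neg hy0.le]
    norm_num
  have h2 : ∫⁻ y in Ioi c, ENNReal.ofReal (y ^ 2)⁻¹ =
      ∫⁻ y in Ioi c, ENNReal.ofReal (y ^ (-2 : ℝ)) := by
    refine setLIntegral_congr_fun measurableSet_Ioi fun y hy => ?_
    rw [h1 y hy]
  rw [h2, ← ofReal_integral_eq_lintegral_ofReal]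
  · rw [integral_Ioi_rpow_of_lt (by norm_num) hc]
    congr 1
    rw [show (-2 : ℝ) + 1 = -1 by norm_num, Real.rpow_neg_one]
    field_simp
  · exact integrableOn_Ioi_rpow_of_lt (by norm_num) hc
  · refine (ae_restrict_iff' measurableSet_Ioi).2 (Eventually.of_forall fun y hy => ?_)
    have hy0 : 0 < y := hc.trans hy
    positivity

lemma sqrt3 : (1 : ℝ) / 2 < √3 / 2 := by
  have : (1 : ℝ) < √3 := by
    rw [show (1 : ℝ) = √1 by simp]
    exact Real.sqrt_lt_sqrt (by norm_num) (by norm_num)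
  linarith

lemma int_w : ∫⁻ y in Ioi (√3 / 2), ENNReal.ofReal (y ^ 2)⁻¹ ≤ ENNReal.ofReal 2 := by
  rw [int_sq _ (by have := sqrt3; linarith)]
  refine ENNReal.ofReal_le_ofReal ?_
  rw [div_le_iff₀ (by have := sqrt3; linarith)]
  have := sqrt3
  linarith

lemma int_34 : ∃ C : ℝ, 0 ≤ C ∧
    ∫⁻ y in Ioi (√3 / 2), ENNReal.ofReal (y ^ (3 / 4 : ℝ)) * ENNReal.ofReal (y ^ 2)⁻¹ ≤
      ENNReal.ofReal C := by
  have hc : (0 : ℝ) < √3 / 2 := by have := sqrt3; linarith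
  have h2 : ∫⁻ y in Ioi (√3 / 2), ENNReal.ofReal (y ^ (3 / 4 : ℝ)) * ENNReal.ofReal (y ^ 2)⁻¹ =
      ∫⁻ y in Ioi (√3 / 2), ENNReal.ofReal (y ^ (-(5 / 4) : ℝ)) := by
    refine setLIntegral_congr_fun measurableSet_Ioi fun y hy => ?_
    have hy0 : 0 < y := hc.trans hy
    rw [← ENNReal.ofReal_mul (by positivity)]
    congr 1
    have : (y ^ 2)⁻¹ = y ^ (-2 : ℝ) := by
      rw [Real.rpow_neg hy0.le]
      norm_num
    rw [this, ← Real.rpow_add hy0]
    norm_num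
  refine ⟨(∫⁻ y in Ioi (√3 / 2), ENNReal.ofReal (y ^ (-(5 / 4) : ℝ))).toReal,
    ENNReal.toReal_nonneg, ?_⟩
  rw [h2, ENNReal.ofReal_toReal]
  have := (integrableOn_Ioi_rpow_of_lt (a := (-(5 / 4) : ℝ)) (by norm_num) hc)
  exact (Integrable.lintegral_lt_top this).ne

lemma int_pi : ∫⁻ _θ in Ioc (-Real.pi) Real.pi, (1 : ℝ≥0∞) ≤ ENNReal.ofReal 7 := by
  rw [lintegral_const, one_mul, Measure.restrict_apply_univ, Real.volume_Ioc]
  refine ENNReal.ofReal_le_ofReal ?_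
  have := Real.pi_lt_d2
  linarith

/-- indicator of `|θ| < 4 d` -/
def i2 (d C θ : ℝ) : ℝ≥0∞ := {t : ℝ | |t| < 4 * d}.indicator (fun _ => ENNReal.ofReal C) θ

/-- indicator of `y > Y` -/
def i1 (Y C y : ℝ) : ℝ≥0∞ := (Ioi Y).indicator (fun _ => ENNReal.ofReal C) y

lemma meas_i2 (d C : ℝ) : Measurable (i2 d C) := by
  unfold i2
  refine Measurable.indicator measurable_const ?_
  exact measurableSet_lt (by fun_prop) measurable_const

lemma meas_i1 (d C : ℝ) : Measurable (i1 d C) := by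
  unfold i1
  exact Measurable.indicator measurable_const measurableSet_Ioi

lemma int_ind (d C : ℝ) (hC : 0 ≤ C) :
    ∫⁻ θ in Ioc (-Real.pi) Real.pi, i2 d C θ ≤ ENNReal.ofReal (8 * d * C) := by
  calc ∫⁻ θ in Ioc (-Real.pi) Real.pi, i2 d C θ ≤ ∫⁻ θ, i2 d C θ :=
        setLIntegral_le_lintegral _ _
    _ ≤ ENNReal.ofReal C * volume {t : ℝ | |t| < 4 * d} := lintegral_indicator_const_le _ _
    _ ≤ ENNReal.ofReal (8 * d * C) := by
        have : {t : ℝ | |t| < 4 * d} = Ioo (-(4 * d)) (4 * d) := by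
          ext θ; simp [abs_lt]
        rw [this, Real.volume_Ioo, ← ENNReal.ofReal_mul hC]
        refine ENNReal.ofReal_le_ofReal ?_
        ring_nf
        exact le_refl _

lemma int_Y (Y C : ℝ) (hY : 1 ≤ Y) (hC : 0 ≤ C) :
    ∫⁻ y in Ioi (√3 / 2), i1 Y C y * ENNReal.ofReal (y ^ 2)⁻¹ ≤ ENNReal.ofReal (C / Y) := by
  calc ∫⁻ y in Ioi (√3 / 2), i1 Y C y * ENNReal.ofReal (y ^ 2)⁻¹ ≤
        ∫⁻ y, i1 Y C y * ENNReal.ofReal (y ^ 2)⁻¹ := setLIntegral_le_lintegral _ _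
    _ = ∫⁻ y, (Ioi Y).indicator (fun y => ENNReal.ofReal C * ENNReal.ofReal (y ^ 2)⁻¹) y := by
        refine lintegral_congr fun y => ?_
        unfold i1
        by_cases h : y ∈ Ioi Y
        · rw [indicator_of_mem h, indicator_of_mem h]
        · rw [indicator_of_notMem h, indicator_of_notMem h, zero_mul]
    _ = ∫⁻ y in Ioi Y, ENNReal.ofReal C * ENNReal.ofReal (y ^ 2)⁻¹ :=
        lintegral_indicator measurableSet_Ioi _
    _ = ENNReal.ofReal C * ENNReal.ofReal (1 / Y) := by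
        rw [lintegral_const_mul' _ _ ENNReal.ofReal_ne_top, int_sq _ (by linarith)]
    _ ≤ ENNReal.ofReal (C / Y) := by
        rw [← ENNReal.ofReal_mul hC]
        refine ENNReal.ofReal_le_ofReal ?_
        ring_nf
        exact le_refl _

/-- the integral over `θ` of `y₁^{3/4}` -/
lemma int_yo (Cd T y C : ℝ) (hT : 2 ≤ T) (hy : 0 < y) (hC : 0 ≤ C) (hCd : 0 ≤ Cd)
    (hD : ∀ θ : ℝ, |θ| ≤ Real.pi → 0 < dl T θ)
    (h : ∫⁻ θ in Ioc (-Real.pi) Real.pi, ENNReal.ofReal (dl T θ ^ (-(3 / 2 : ℝ))) ≤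
      ENNReal.ofReal (Cd * T)) :
    ∫⁻ θ in Ioc (-Real.pi) Real.pi, ENNReal.ofReal (C * yo T θ y ^ (3 / 4 : ℝ)) ≤
      ENNReal.ofReal (C * Cd * (√T)⁻¹) * ENNReal.ofReal (y ^ (3 / 4 : ℝ)) := by
  have hT0 : 0 < T := by linarith
  have h1 : ∀ θ ∈ Ioc (-Real.pi) Real.pi, ENNReal.ofReal (C * yo T θ y ^ (3 / 4 : ℝ)) =
      ENNReal.ofReal (C * y ^ (3 / 4 : ℝ) * T ^ (-(3 / 2) : ℝ)) *
        ENNReal.ofReal (dl T θ ^ (-(3 / 2 : ℝ))) := by
    intro θ hθ
    have hd : 0 < dl T θ := hD θ (abs_le.2 ⟨hθ.1.le, hθ.2⟩)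
    rw [← ENNReal.ofReal_mul (by positivity)]
    congr 1
    unfold yo
    rw [Real.div_rpow hy.le (by positivity), Real.mul_rpow (by positivity) (by positivity),
      ← Real.rpow_natCast, ← Real.rpow_natCast, ← Real.rpow_mul hT0.le, ← Real.rpow_mul hd.le,
      Real.rpow_neg hT0.le, Real.rpow_neg hd.le]
    norm_num
    field_simp
  rw [setLIntegral_congr_fun measurableSet_Ioc h1,
    lintegral_const_mul' _ _ ENNReal.ofReal_ne_top]
  calc ENNReal.ofReal (C * y ^ (3 / 4 : ℝ) * T ^ (-(3 / 2) : ℝ)) *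
        ∫⁻ θ in Ioc (-Real.pi) Real.pi, ENNReal.ofReal (dl T θ ^ (-(3 / 2 : ℝ)))
      ≤ ENNReal.ofReal (C * y ^ (3 / 4 : ℝ) * T ^ (-(3 / 2) : ℝ)) *
        ENNReal.ofReal (Cd * T) := by gcongr
    _ = ENNReal.ofReal (C * Cd * (√T)⁻¹) * ENNReal.ofReal (y ^ (3 / 4 : ℝ)) := by
        rw [← ENNReal.ofReal_mul (by positivity), ← ENNReal.ofReal_mul (by positivity)]
        congr 1
        have : T ^ (-(3 / 2) : ℝ) * T = (√T)⁻¹ := by
          rw [Real.sqrt_eq_rpow, ← Real.rpow_neg hT0.le]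
          nth_rewrite 2 [← Real.rpow_one T]
          rw [← Real.rpow_add hT0]
          norm_num
        rw [← this]
        ring

/-- the inner integral -/
lemma inner (B : ℝ → ℝ≥0∞) (Cd T y C E Y d : ℝ) (hT : 2 ≤ T) (hy : 0 < y) (hC : 0 ≤ C)
    (hCd : 0 ≤ Cd) (hE : 0 ≤ E) (hD : ∀ θ : ℝ, |θ| ≤ Real.pi → 0 < dl T θ)
    (h : ∫⁻ θ in Ioc (-Real.pi) Real.pi, ENNReal.ofReal (dl T θ ^ (-(3 / 2 : ℝ))) ≤
      ENNReal.ofReal (Cd * T))
    (hB : ∀ θ ∈ Ioc (-Real.pi) Real.pi, B θ ≤ ENNReal.ofReal (T ^ 6) *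
      (ENNReal.ofReal E + i1 Y C y + i2 d C θ + ENNReal.ofReal (C * yo T θ y ^ (3 / 4 : ℝ)))) :
    ∫⁻ θ in Ioc (-Real.pi) Real.pi, B θ * ENNReal.ofReal (y ^ 2)⁻¹ ≤
      ENNReal.ofReal (T ^ 6) * (ENNReal.ofReal (7 * E) * ENNReal.ofReal (y ^ 2)⁻¹ +
        ENNReal.ofReal 7 * (i1 Y C y * ENNReal.ofReal (y ^ 2)⁻¹) +
        ENNReal.ofReal (8 * d * C) * ENNReal.ofReal (y ^ 2)⁻¹ +
        ENNReal.ofReal (C * Cd * (√T)⁻¹) *
          (ENNReal.ofReal (y ^ (3 / 4 : ℝ)) * ENNReal.ofReal (y ^ 2)⁻¹)) := by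
  rw [lintegral_mul_const' _ _ ENNReal.ofReal_ne_top]
  have h1 : ∫⁻ θ in Ioc (-Real.pi) Real.pi, B θ ≤ ENNReal.ofReal (T ^ 6) *
      (ENNReal.ofReal (7 * E) + ENNReal.ofReal 7 * i1 Y C y + ENNReal.ofReal (8 * d * C) +
        ENNReal.ofReal (C * Cd * (√T)⁻¹) * ENNReal.ofReal (y ^ (3 / 4 : ℝ))) := by
    calc ∫⁻ θ in Ioc (-Real.pi) Real.pi, B θ
        ≤ ∫⁻ θ in Ioc (-Real.pi) Real.pi, ENNReal.ofReal (T ^ 6) *
          (ENNReal.ofReal E + i1 Y C y + i2 d C θ +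
            ENNReal.ofReal (C * yo T θ y ^ (3 / 4 : ℝ))) :=
          setLIntegral_mono' measurableSet_Ioc hB
      _ = ENNReal.ofReal (T ^ 6) * ∫⁻ θ in Ioc (-Real.pi) Real.pi,
          (ENNReal.ofReal E + i1 Y C y + i2 d C θ +
            ENNReal.ofReal (C * yo T θ y ^ (3 / 4 : ℝ))) :=
          lintegral_const_mul' _ _ ENNReal.ofReal_ne_top
      _ ≤ _ := by
          gcongr
          have m2 := meas_i2 d C
          rw [lintegral_add_left (by fun_prop), lintegral_add_left (by fun_prop)]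
          gcongr
          · rw [lintegral_const, Measure.restrict_apply_univ, Real.volume_Ioc]
            have h7 : ENNReal.ofReal (Real.pi - -Real.pi) ≤ ENNReal.ofReal 7 := by
              refine ENNReal.ofReal_le_ofReal ?_
              have := Real.pi_lt_d2
              linarith
            calc (ENNReal.ofReal E + i1 Y C y) * ENNReal.ofReal (Real.pi - -Real.pi)
                ≤ (ENNReal.ofReal E + i1 Y C y) * ENNReal.ofReal 7 := by gcongr
              _ = ENNReal.ofReal (7 * E) + ENNReal.ofReal 7 * i1 Y C y := by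
                  rw [ENNReal.ofReal_mul (by norm_num)]
                  ring
          · exact int_ind d C hC
          · exact int_yo Cd T y C hT hy hC hCd hD h
  calc (∫⁻ θ in Ioc (-Real.pi) Real.pi, B θ) * ENNReal.ofReal (y ^ 2)⁻¹
      ≤ (ENNReal.ofReal (T ^ 6) *
      (ENNReal.ofReal (7 * E) + ENNReal.ofReal 7 * i1 Y C y + ENNReal.ofReal (8 * d * C) +
        ENNReal.ofReal (C * Cd * (√T)⁻¹) * ENNReal.ofReal (y ^ (3 / 4 : ℝ)))) *
        ENNReal.ofReal (y ^ 2)⁻¹ := by gcongr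
    _ = _ := by ring

/-- the outer integral -/
lemma outer (B : ℝ → ℝ → ℝ≥0∞) (Cd T C E Y d C5 : ℝ) (hT : 2 ≤ T) (hC : 0 ≤ C)
    (hCd : 0 ≤ Cd) (hE : 0 ≤ E) (hY : 1 ≤ Y) (hd : 0 < d) (hC5 : 0 ≤ C5)
    (hD : ∀ θ : ℝ, |θ| ≤ Real.pi → 0 < dl T θ)
    (h : ∫⁻ θ in Ioc (-Real.pi) Real.pi, ENNReal.ofReal (dl T θ ^ (-(3 / 2 : ℝ))) ≤
      ENNReal.ofReal (Cd * T))
    (h5 : ∫⁻ y in Ioi (√3 / 2), ENNReal.ofReal (y ^ (3 / 4 : ℝ)) * ENNReal.ofReal (y ^ 2)⁻¹ ≤
      ENNReal.ofReal C5)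
    (hB : ∀ y ∈ Ioi (√3 / 2), ∀ θ ∈ Ioc (-Real.pi) Real.pi, B y θ ≤ ENNReal.ofReal (T ^ 6) *
      (ENNReal.ofReal E + i1 Y C y + i2 d C θ + ENNReal.ofReal (C * yo T θ y ^ (3 / 4 : ℝ)))) :
    ∫⁻ y in Ioi (√3 / 2), ∫⁻ θ in Ioc (-Real.pi) Real.pi, B y θ * ENNReal.ofReal (y ^ 2)⁻¹ ≤
      ENNReal.ofReal (T ^ 6 * (14 * E + 7 * (C / Y) + 16 * d * C +
        C * Cd * C5 * (√T)⁻¹)) := by
  have h3 := sqrt3
  have hT0 : 0 < T := by linarith
  calc ∫⁻ y in Ioi (√3 / 2), ∫⁻ θ in Ioc (-Real.pi) Real.pi,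
        B y θ * ENNReal.ofReal (y ^ 2)⁻¹
      ≤ ∫⁻ y in Ioi (√3 / 2), ENNReal.ofReal (T ^ 6) *
        (ENNReal.ofReal (7 * E) * ENNReal.ofReal (y ^ 2)⁻¹ +
        ENNReal.ofReal 7 * (i1 Y C y * ENNReal.ofReal (y ^ 2)⁻¹) +
        ENNReal.ofReal (8 * d * C) * ENNReal.ofReal (y ^ 2)⁻¹ +
        ENNReal.ofReal (C * Cd * (√T)⁻¹) *
          (ENNReal.ofReal (y ^ (3 / 4 : ℝ)) * ENNReal.ofReal (y ^ 2)⁻¹)) := by
        refine setLIntegral_mono' measurableSet_Ioi fun y hy => ?_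
        have hy0 : 0 < y := by
          have : √3 / 2 < y := hy
          linarith
        exact inner (B y) Cd T y C E Y d hT hy0 hC hCd hE hD h (hB y hy)
    _ = ENNReal.ofReal (T ^ 6) *
        (ENNReal.ofReal (7 * E) * (∫⁻ y in Ioi (√3 / 2), ENNReal.ofReal (y ^ 2)⁻¹) +
        ENNReal.ofReal 7 * (∫⁻ y in Ioi (√3 / 2), i1 Y C y * ENNReal.ofReal (y ^ 2)⁻¹) +
        ENNReal.ofReal (8 * d * C) * (∫⁻ y in Ioi (√3 / 2), ENNReal.ofReal (y ^ 2)⁻¹) +
        ENNReal.ofReal (C * Cd * (√T)⁻¹) * (∫⁻ y in Ioi (√3 / 2),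
          ENNReal.ofReal (y ^ (3 / 4 : ℝ)) * ENNReal.ofReal (y ^ 2)⁻¹)) := by
        have m1 := meas_i1 Y C
        rw [lintegral_const_mul' _ _ ENNReal.ofReal_ne_top, lintegral_add_left (by fun_prop),
          lintegral_add_left (by fun_prop), lintegral_add_left (by fun_prop),
          lintegral_const_mul' _ _ ENNReal.ofReal_ne_top,
          lintegral_const_mul' _ _ ENNReal.ofReal_ne_top,
          lintegral_const_mul' _ _ ENNReal.ofReal_ne_top,
          lintegral_const_mul' _ _ ENNReal.ofReal_ne_top]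
    _ ≤ ENNReal.ofReal (T ^ 6) *
        (ENNReal.ofReal (7 * E) * ENNReal.ofReal 2 +
        ENNReal.ofReal 7 * ENNReal.ofReal (C / Y) +
        ENNReal.ofReal (8 * d * C) * ENNReal.ofReal 2 +
        ENNReal.ofReal (C * Cd * (√T)⁻¹) * ENNReal.ofReal C5) := by
        gcongr
        · exact int_w
        · exact int_Y Y C hY hC
        · exact int_w
    _ = _ := by
        have hY0 : 0 < Y := by linarith
        rw [← ENNReal.ofReal_mul (by positivity), ← ENNReal.ofReal_mul (by positivity),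
          ← ENNReal.ofReal_mul (by positivity), ← ENNReal.ofReal_mul (by positivity),
          ← ENNReal.ofReal_add (by positivity) (by positivity),
          ← ENNReal.ofReal_add (by positivity) (by positivity),
          ← ENNReal.ofReal_add (by positivity) (by positivity),
          ← ENNReal.ofReal_mul (by positivity)]
        congr 1
        ring

end

end Pool.Agent.A54.Av.BPM

namespace Pool.Agent.A54.Av

open MeasureTheory Filter Topology Set
open scoped ContDiff ComplexConjugate UpperHalfPlane MatrixGroups ENNReal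
open BPM

theorem stmtBP (hG1 : StmtG1) (hG2 : StmtG2) (hDl : StmtDl) : StmtBP := by
  intro η hη K hK hKH ε hε
  obtain ⟨C1, r1, hC1, hr1, hG1⟩ := hG1 η hη K hK hKH
  obtain ⟨C2, hC2, hG2⟩ := hG2 η hη K hK hKH
  obtain ⟨hD, Cd, hCd, hDi⟩ := hDl
  obtain ⟨C5, hC5, h5⟩ := int_34
  -- parameters
  set Y : ℝ := max 1 (42 * C1 / ε) with hYdef
  have hY1 : 1 ≤ Y := le_max_left _ _
  have hY0 : 0 < Y := by linarith
  have hY : 7 * (C1 / Y) ≤ ε / 6 := by
    have : 42 * C1 / ε ≤ Y := le_max_right _ _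
    rw [div_le_iff₀ hε] at this
    rw [← mul_div_assoc, div_le_iff₀ hY0]
    nlinarith
  set d : ℝ := ε / (96 * (C1 + 1)) with hddef
  have hd0 : 0 < d := by positivity
  have hd : 16 * d * C1 ≤ ε / 6 := by
    rw [hddef]
    have : 16 * (ε / (96 * (C1 + 1))) * C1 = ε / 6 * (C1 / (C1 + 1)) := by
      field_simp
      ring
    rw [this]
    have h1 : C1 / (C1 + 1) ≤ 1 := by
      rw [div_le_one (by positivity)]
      linarith
    nlinarith
  set e0 : ℝ := min 1 (ε / (96 * (C2 + 1))) with he0def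
  have he0 : 0 < e0 := lt_min one_pos (by positivity)
  have he1 : e0 ≤ 1 := min_le_left _ _
  have he : 14 * (C2 * e0) ≤ ε / 6 := by
    have h0 : e0 ≤ ε / (96 * (C2 + 1)) := min_le_right _ _
    rw [le_div_iff₀ (by positivity)] at h0
    nlinarith [mul_nonneg hC2 he0.le]
  obtain ⟨C', hC', hG2⟩ := hG2 (e0 ^ 2) Y d (by positivity) (by nlinarith) hY1 hd0
  rw [Real.sqrt_sq he0.le] at hG2
  refine ⟨max 1 (84 * C' / ε), le_max_left _ _, fun R hR => ?_⟩
  have hR1 : 1 ≤ R := (le_max_left _ _).trans hR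
  have hR0 : 0 < R := by linarith
  have hRb : 14 * (C' * (R ^ 4)⁻¹) ≤ ε / 6 := by
    have h1 : 84 * C' / ε ≤ R := (le_max_right _ _).trans hR
    rw [div_le_iff₀ hε] at h1
    have h2 : R ≤ R ^ 4 := by
      calc R = R ^ 1 := (pow_one R).symm
        _ ≤ R ^ 4 := pow_le_pow_right₀ hR1 (by norm_num)
    rw [← div_eq_mul_inv, ← mul_div_assoc, div_le_iff₀ (by positivity)]
    nlinarith
  obtain ⟨T1, hT1, hG2⟩ := hG2 R hR1
  set A : ℝ := 14 * C' + C1 * Cd * C5 with hA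
  have hA0 : 0 ≤ A := by positivity
  refine ⟨max T1 (max (R / r1) ((3 * A / ε) ^ 2)), hT1.trans (le_max_left _ _), fun T hT => ?_⟩
  have hTT1 : T1 ≤ T := (le_max_left _ _).trans hT
  have hT2 : 2 ≤ T := hT1.trans hTT1
  have hT0 : 0 < T := by linarith
  have hTr : R / r1 ≤ T := ((le_max_left _ _).trans (le_max_right _ _)).trans hT
  have hTA : (3 * A / ε) ^ 2 ≤ T := ((le_max_right _ _).trans (le_max_right _ _)).trans hT
  have hsT : 0 < √T := Real.sqrt_pos.2 hT0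
  have hAT : A * (√T)⁻¹ ≤ ε / 3 := by
    have h1 : 3 * A / ε ≤ √T := Real.le_sqrt_of_sq_le hTA
    rw [div_le_iff₀ hε] at h1
    rw [← div_eq_mul_inv, div_le_iff₀ hsT]
    nlinarith
  have hrT0 : 0 < R / T := by positivity
  have hrT1 : R / T ≤ r1 := by
    rw [div_le_iff₀ hT0]
    rw [div_le_iff₀ hr1] at hTr
    linarith
  have hcont : Continuous η := hη.smooth.continuous
  rw [swap η hcont (R / T) (qT T) K]
  set E : ℝ := C2 * e0 + C' * ((R ^ 4)⁻¹ + (√T)⁻¹) with hE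
  have hE0 : 0 ≤ E := by positivity
  have hDpos : ∀ θ : ℝ, |θ| ≤ Real.pi → 0 < dl T θ := by
    intro θ hθ
    exact lt_of_lt_of_le (by positivity) (hD T θ hT2 hθ).1
  refine (outer (fun y θ => ∫⁻ z0 in K, ∑' n : ℤ,
    ‖MN (es η (R / T) z0) (qs (qT T) θ) y n‖ₑ ^ 2) Cd T C1 E Y d C5 hT2 hC1 hCd hE0 hY1 hd0 hC5
    hDpos (hDi T hT2) h5 ?_).trans ?_
  · intro y hy θ hθ
    have hyh : 1 / 2 ≤ y := by
      have : √3 / 2 < y := hy
      have := sqrt3
      linarith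
    have hy0 : 0 < y := by linarith
    have hθ' : |θ| ≤ Real.pi := abs_le.2 ⟨hθ.1.le, hθ.2⟩
    have hdpos := hDpos θ hθ'
    have hyo : 0 ≤ yo T θ y := by
      unfold yo
      positivity
    have hyo' : 0 ≤ yo T θ y ^ (3 / 4 : ℝ) := Real.rpow_nonneg hyo _
    have key : ENNReal.ofReal (C1 * T ^ 6 * (1 + yo T θ y ^ (3 / 4 : ℝ))) =
        ENNReal.ofReal (T ^ 6) * (ENNReal.ofReal C1 +
          ENNReal.ofReal (C1 * yo T θ y ^ (3 / 4 : ℝ))) := by
      rw [← ENNReal.ofReal_add hC1 (by positivity), ← ENNReal.ofReal_mul (by positivity)]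
      congr 1
      ring
    by_cases h1 : Y < y
    · have b := hG1 T (R / T) y θ hT2 hrT0 hrT1 hyh hθ'
      rw [key] at b
      refine b.trans ?_
      gcongr
      have : i1 Y C1 y = ENNReal.ofReal C1 := by
        unfold i1
        exact indicator_of_mem h1 _
      rw [this, add_comm (ENNReal.ofReal E), add_assoc]
      exact le_self_add
    · by_cases h2 : dl T θ < d
      · have b := hG1 T (R / T) y θ hT2 hrT0 hrT1 hyh hθ'
        rw [key] at b
        refine b.trans ?_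
        gcongr
        have : i2 d C1 θ = ENNReal.ofReal C1 := by
          unfold i2
          refine indicator_of_mem ?_ _
          have := (hD T θ hT2 hθ').2.1
          simp only [Set.mem_ofPred_eq]
          linarith
        rw [this]
        exact le_add_self
      · have b := hG2 T hTT1 y θ hyh (not_lt.1 h1) hθ' (not_lt.1 h2)
        refine b.trans ?_
        rw [← hE, ENNReal.ofReal_mul (by positivity)]
        gcongr
        rw [add_assoc, add_assoc]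
        exact le_self_add
  · refine ENNReal.ofReal_le_ofReal ?_
    rw [mul_comm ε]
    refine mul_le_mul_of_nonneg_left ?_ (by positivity)
    have : 14 * E + 7 * (C1 / Y) + 16 * d * C1 + C1 * Cd * C5 * (√T)⁻¹ =
        14 * (C2 * e0) + 14 * (C' * (R ^ 4)⁻¹) + 7 * (C1 / Y) + 16 * d * C1 + A * (√T)⁻¹ := by
      rw [hE, hA]
      ring
    rw [this]
    linarith

end Pool.Agent.A54.Av
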