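import Mathlib

/-!
From exceptional sets for every test to one exceptional set of density zero (abstract version).
-/

set_option autoImplicit false

namespace Pool.Agent.A54.Av

open Filter Topology Set

namespace DensM

variable {F : Type*}

/-- the least `k` with `T ≤ 2 ^ k` -/
lemma exists_k (T : ℝ) : ∃ k : ℕ, T ≤ 2 ^ k := by
  obtain ⟨n, hn⟩ := pow_unbounded_of_one_lt T (one_lt_two)
  exact ⟨n, hn.le⟩

open Classical in
noncomputable def kk (T : ℝ) : ℕ := Nat.find (exists_k T)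

lemma le_kk (T : ℝ) : T ≤ 2 ^ kk T := by
  classical
  exact Nat.find_spec (exists_k T)

lemma lt_of_lt_kk {T : ℝ} {m : ℕ} (h : m < kk T) : (2 : ℝ) ^ m < T := by
  classical
  have := Nat.find_min (exists_k T) h
  exact not_le.mp this

lemma lt_kk_of_lt {T : ℝ} {m : ℕ} (h : (2 : ℝ) ^ m < T) : m < kk T := by
  by_contra hm
  have h1 : kk T ≤ m := not_lt.mp hm
  have h2 : (2 : ℝ) ^ kk T ≤ 2 ^ m := pow_le_pow_right₀ (by norm_num) h1
  linarith [le_kk T]

lemma kk_tendsto : Tendsto kk atTop atTop := by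
  rw [tendsto_atTop]
  intro b
  filter_upwards [eventually_gt_atTop ((2 : ℝ) ^ b)] with T hT
  exact (lt_kk_of_lt hT).le

lemma pow_kk_le {T : ℝ} (hT : 1 ≤ T) : (4 : ℝ) ^ kk T ≤ 4 * T ^ 2 := by
  rcases Nat.eq_zero_or_pos (kk T) with h | h
  · rw [h, pow_zero]
    nlinarith
  · obtain ⟨m, hm⟩ : ∃ m, kk T = m + 1 := ⟨kk T - 1, by omega⟩
    have h1 : (2 : ℝ) ^ m < T := lt_of_lt_kk (by omega)
    rw [hm, pow_succ]
    have h2 : (4 : ℝ) ^ m = (2 ^ m) ^ 2 := by
      rw [← pow_mul, mul_comm m 2, pow_mul]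
      norm_num
    rw [h2]
    have h3 : (0 : ℝ) < 2 ^ m := by positivity
    nlinarith

lemma sum_pow_le (k : ℕ) : ∑ m ∈ Finset.range k, (4 : ℝ) ^ m ≤ 4 ^ k := by
  induction k with
  | zero => simp
  | succ k ih =>
    rw [Finset.sum_range_succ, pow_succ]
    have : (0 : ℝ) < 4 ^ k := by positivity
    linarith

/-- a weighted geometric sum with weights tending to zero -/
lemma sum_small {g : ℕ → ℝ} (hg0 : ∀ m, 0 ≤ g m) (hg1 : ∀ m, g m ≤ 1)
    (hg : Tendsto g atTop (𝓝 0)) :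
    Tendsto (fun T : ℝ => (∑ m ∈ Finset.range (kk T), g m * 4 ^ m) / T ^ 2) atTop (𝓝 0) := by
  rw [Metric.tendsto_nhds]
  intro ε hε
  obtain ⟨m0, hm0⟩ := (Metric.tendsto_atTop.mp hg) (ε / 16) (by positivity)
  have hlim : Tendsto (fun T : ℝ => (4 : ℝ) ^ m0 / T ^ 2) atTop (𝓝 0) :=
    tendsto_const_nhds.div_atTop (tendsto_pow_atTop two_ne_zero)
  filter_upwards [eventually_ge_atTop (1 : ℝ), (Metric.tendsto_nhds.mp hlim) (ε / 2)
    (by positivity)] with T hT hT2
  have hTpos : 0 < T ^ 2 := by positivity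
  rw [Real.dist_eq, sub_zero] at hT2 ⊢
  have hnn : 0 ≤ ∑ m ∈ Finset.range (kk T), g m * 4 ^ m :=
    Finset.sum_nonneg fun m _ => mul_nonneg (hg0 m) (by positivity)
  rw [abs_of_nonneg (div_nonneg hnn hTpos.le)]
  have h1 : ∑ m ∈ Finset.range (kk T), g m * 4 ^ m ≤ 4 ^ m0 + ε / 16 * 4 ^ kk T := by
    calc ∑ m ∈ Finset.range (kk T), g m * 4 ^ m
        ≤ ∑ m ∈ Finset.range (kk T), ((if m < m0 then 4 ^ m else 0) + ε / 16 * 4 ^ m) := by
          refine Finset.sum_le_sum fun m _ => ?_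
          have hp : (0 : ℝ) < 4 ^ m := by positivity
          split_ifs with h
          · have := mul_le_mul_of_nonneg_right (hg1 m) hp.le
            have h2 : 0 ≤ ε / 16 * 4 ^ m := by positivity
            linarith
          · have h3 := hm0 m (not_lt.mp h)
            rw [Real.dist_eq, sub_zero, abs_of_nonneg (hg0 m)] at h3
            have := mul_le_mul_of_nonneg_right h3.le hp.le
            linarith
      _ = ∑ m ∈ Finset.range (kk T), (if m < m0 then (4 : ℝ) ^ m else 0) +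
            ε / 16 * ∑ m ∈ Finset.range (kk T), (4 : ℝ) ^ m := by
          rw [Finset.sum_add_distrib, Finset.mul_sum]
      _ ≤ 4 ^ m0 + ε / 16 * 4 ^ kk T := by
          apply add_le_add
          · rw [← Finset.sum_filter]
            refine le_trans ?_ (sum_pow_le m0)
            apply Finset.sum_le_sum_of_subset_of_nonneg
            · intro m hm
              exact Finset.mem_range.mpr (Finset.mem_filter.mp hm).2
            · intro m _ _
              positivity
          · exact mul_le_mul_of_nonneg_left (sum_pow_le _) (by positivity)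
  have h2 := pow_kk_le hT
  have h3 : (∑ m ∈ Finset.range (kk T), g m * 4 ^ m) / T ^ 2 ≤ 4 ^ m0 / T ^ 2 + ε / 4 := by
    rw [div_add' _ _ _ hTpos.ne']
    apply div_le_div_of_nonneg_right _ hTpos.le
    have : ε / 16 * 4 ^ kk T ≤ ε / 16 * (4 * T ^ 2) := mul_le_mul_of_nonneg_left h2 (by positivity)
    linarith
  have h4 : (4 : ℝ) ^ m0 / T ^ 2 ≤ |(4 : ℝ) ^ m0 / T ^ 2| := le_abs_self _
  linarith

/-- a set all of whose finite subsets are small -/
lemma finite_of_bound {A : Set F} {c : ℝ} (h : ∀ S : Finset F, (∀ f ∈ S, f ∈ A) → (S.card : ℝ) ≤ c) :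
    A.Finite ∧ (A.ncard : ℝ) ≤ c := by
  classical
  have hfin : A.Finite := by
    by_contra hinf
    obtain ⟨n, hn⟩ := exists_nat_gt c
    obtain ⟨S, hS, hSn⟩ := Set.Infinite.exists_subset_card_eq hinf n
    have := h S fun f hf => hS hf
    rw [hSn] at this
    linarith
  refine ⟨hfin, ?_⟩
  rw [Set.ncard_eq_toFinset_card A hfin]
  exact h _ fun f hf => hfin.mem_toFinset.mp hf

end DensM

/-- one exceptional set of density zero for countably many conditions -/
theorem exists_density {F : Type*} (P : F → ℝ → Prop) (huniq : ∀ f t t', P f t → P f t' → t = t')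
    (B : ℕ → ℝ → F → Prop) (hmono : ∀ j ε ε' f, ε' ≤ ε → B j ε f → B j ε' f)
    (hB : ∀ j : ℕ, ∀ ε : ℝ, 0 < ε → ∃ T0 : ℝ, ∀ T : ℝ, T0 ≤ T → ∀ S : Finset F,
      (∀ f ∈ S, (∃ t : ℝ, P f t ∧ T < t ∧ t ≤ 2 * T) ∧ B j ε f) → (S.card : ℝ) ≤ ε * T ^ 2) :
    ∃ E : Set F, (∀ T : ℝ, {f | f ∈ E ∧ ∃ t : ℝ, t ≤ T ∧ P f t}.Finite) ∧
      Tendsto (fun T : ℝ => ({f | f ∈ E ∧ ∃ t : ℝ, t ≤ T ∧ P f t}.ncard : ℝ) / T ^ 2) atTop
        (𝓝 0) ∧
      ∀ (f : ℕ → F) (t : ℕ → ℝ), (∀ i, P (f i) (t i)) → (∀ i, f i ∉ E) →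
        Tendsto t atTop atTop → ∀ j : ℕ, ∀ ε : ℝ, 0 < ε → ∀ᶠ i in atTop, ¬ B j ε (f i) := by
  classical
  choose! T0 hT0 using hB
  -- the accuracy at level `J`
  set e : ℕ → ℝ := fun J => 1 / ((J : ℝ) + 1) ^ 2 with he
  have hepos : ∀ J, 0 < e J := fun J => by positivity
  set τ : ℕ → ℝ := fun J => ∑ j ∈ Finset.range J, |T0 j (e J)| with hτ
  have hτle : ∀ J j, j < J → T0 j (e J) ≤ τ J := by
    intro J j hj
    refine (le_abs_self _).trans ?_
    exact Finset.single_le_sum (f := fun j => |T0 j (e J)|) (fun i _ => abs_nonneg _)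
      (Finset.mem_range.mpr hj)
  set J : ℕ → ℕ := fun m => Nat.findGreatest (fun J => τ J ≤ 2 ^ m) m with hJ
  have hJspec : ∀ m, τ (J m) ≤ 2 ^ m := by
    intro m
    have h0 : τ 0 ≤ 2 ^ m := by
      simp only [hτ, Finset.range_zero, Finset.sum_empty]
      positivity
    exact Nat.findGreatest_spec (P := fun J => τ J ≤ 2 ^ m) (Nat.zero_le m) h0
  have hJlim : Tendsto J atTop atTop := by
    rw [tendsto_atTop]
    intro b
    have h1 : Tendsto (fun m : ℕ => (2 : ℝ) ^ m) atTop atTop :=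
      tendsto_pow_atTop_atTop_of_one_lt one_lt_two
    filter_upwards [eventually_ge_atTop b, h1.eventually_ge_atTop (τ b)] with m hm hm2
    exact Nat.le_findGreatest hm hm2
  -- the blocks
  set A : ℕ → Set F := fun m => {f | (∃ t : ℝ, P f t ∧ 2 ^ m < t ∧ t ≤ 2 * 2 ^ m) ∧
    ∃ j < J m, B j (e (J m)) f} with hA
  have hAfin : ∀ m, (A m).Finite ∧ ((A m).ncard : ℝ) ≤ 1 / ((J m : ℝ) + 1) * 4 ^ m := by
    intro m
    apply DensM.finite_of_bound
    intro S hS
    have hsub : S ⊆ (Finset.range (J m)).biUnion fun j => S.filter fun f => B j (e (J m)) f := by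
      intro f hf
      obtain ⟨-, j, hj, hb⟩ := hS f hf
      exact Finset.mem_biUnion.mpr ⟨j, Finset.mem_range.mpr hj, Finset.mem_filter.mpr ⟨hf, hb⟩⟩
    have h1 : (S.card : ℝ) ≤ ∑ j ∈ Finset.range (J m),
        ((S.filter fun f => B j (e (J m)) f).card : ℝ) := by
      exact_mod_cast (Finset.card_le_card hsub).trans Finset.card_biUnion_le
    have h2 : ∀ j ∈ Finset.range (J m), ((S.filter fun f => B j (e (J m)) f).card : ℝ) ≤
        e (J m) * (2 ^ m) ^ 2 := by
      intro j hj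
      refine hT0 j (e (J m)) (hepos _) (2 ^ m) ?_ _ fun f hf => ?_
      · exact (hτle (J m) j (Finset.mem_range.mp hj)).trans (hJspec m)
      · obtain ⟨h3, h4⟩ := Finset.mem_filter.mp hf
        exact ⟨(hS f h3).1, h4⟩
    calc (S.card : ℝ) ≤ ∑ j ∈ Finset.range (J m),
          ((S.filter fun f => B j (e (J m)) f).card : ℝ) := h1
      _ ≤ ∑ _j ∈ Finset.range (J m), e (J m) * (2 ^ m) ^ 2 := Finset.sum_le_sum h2
      _ = (J m : ℝ) * (e (J m) * 4 ^ m) := by
          rw [Finset.sum_const, Finset.card_range, nsmul_eq_mul, ← pow_mul, mul_comm m 2, pow_mul]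
          norm_num
      _ ≤ 1 / ((J m : ℝ) + 1) * 4 ^ m := by
          rw [← mul_assoc]
          apply mul_le_mul_of_nonneg_right _ (by positivity)
          simp only [he]
          rw [mul_one_div, div_le_div_iff₀ (by positivity) (by positivity)]
          have : (0 : ℝ) ≤ J m := Nat.cast_nonneg _
          nlinarith
  refine ⟨⋃ m, A m, ?_, ?_, ?_⟩
  · intro T
    have hsub : {f | f ∈ ⋃ m, A m ∧ ∃ t : ℝ, t ≤ T ∧ P f t} ⊆
        ⋃ m ∈ (Finset.range (DensM.kk T) : Set ℕ), A m := by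
      rintro f ⟨hf, t, htT, hft⟩
      obtain ⟨m, hm⟩ := Set.mem_iUnion.mp hf
      have hm2 := hm
      obtain ⟨⟨t', hft', ht', -⟩, -⟩ := hm2
      rw [huniq f t' t hft' hft] at ht'
      refine Set.mem_biUnion (Finset.mem_coe.mpr (Finset.mem_range.mpr
        (DensM.lt_kk_of_lt (ht'.trans_le htT)))) ?_
      exact hm
    exact (Set.Finite.biUnion (Finset.finite_toSet _) fun m _ => (hAfin m).1).subset hsub
  · have hg : Tendsto (fun m : ℕ => 1 / ((J m : ℝ) + 1)) atTop (𝓝 0) :=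
      (tendsto_one_div_add_atTop_nhds_zero_nat (𝕜 := ℝ)).comp hJlim
    have hlim := DensM.sum_small (g := fun m => 1 / ((J m : ℝ) + 1)) (fun m => by positivity)
      (fun m => by
        rw [div_le_one (by positivity)]
        have : (0 : ℝ) ≤ J m := Nat.cast_nonneg _
        linarith) hg
    refine squeeze_zero' (Eventually.of_forall fun T => by positivity) ?_ hlim
    refine Eventually.of_forall fun T => ?_
    apply div_le_div_of_nonneg_right _ (sq_nonneg _)
    have hsub : {f | f ∈ ⋃ m, A m ∧ ∃ t : ℝ, t ≤ T ∧ P f t} ⊆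
        ⋃ m ∈ Finset.range (DensM.kk T), A m := by
      rintro f ⟨hf, t, htT, hft⟩
      obtain ⟨m, hm⟩ := Set.mem_iUnion.mp hf
      have hm2 := hm
      obtain ⟨⟨t', hft', ht', -⟩, -⟩ := hm2
      rw [huniq f t' t hft' hft] at ht'
      exact Set.mem_biUnion (Finset.mem_coe.mpr (Finset.mem_range.mpr
        (DensM.lt_kk_of_lt (ht'.trans_le htT)))) hm
    have hfinU : (⋃ m ∈ Finset.range (DensM.kk T), A m).Finite :=
      Set.Finite.biUnion (Finset.finite_toSet _) fun m _ => (hAfin m).1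
    have h1 : ({f | f ∈ ⋃ m, A m ∧ ∃ t : ℝ, t ≤ T ∧ P f t}.ncard : ℝ) ≤
        ((⋃ m ∈ Finset.range (DensM.kk T), A m).ncard : ℝ) := by
      exact_mod_cast Set.ncard_le_ncard hsub hfinU
    have h2 : (⋃ m ∈ Finset.range (DensM.kk T), A m).ncard ≤
        ∑ m ∈ Finset.range (DensM.kk T), (A m).ncard :=
      Finset.set_ncard_biUnion_le _ _
    have h3 : ((⋃ m ∈ Finset.range (DensM.kk T), A m).ncard : ℝ) ≤
        ∑ m ∈ Finset.range (DensM.kk T), ((A m).ncard : ℝ) := by exact_mod_cast h2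
    exact h1.trans (h3.trans (Finset.sum_le_sum fun m _ => (hAfin m).2))
  · intro f t hft hfE htlim j ε hε
    have hk : Tendsto (fun i => DensM.kk (t i)) atTop atTop := DensM.kk_tendsto.comp htlim
    have hk1 : Tendsto (fun i => DensM.kk (t i) - 1) atTop atTop :=
      (tendsto_sub_atTop_nat 1).comp hk
    have hJk := hJlim.comp hk1
    have hel : Tendsto e atTop (𝓝 0) := by
      have h1 := (tendsto_one_div_add_atTop_nhds_zero_nat (𝕜 := ℝ)).pow 2
      simp only [ne_eq, OfNat.ofNat_ne_zero, not_false_eq_true, zero_pow] at h1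
      refine h1.congr fun n => ?_
      simp only [he, one_div, inv_pow]
    filter_upwards [hk.eventually_ge_atTop 1, hJk.eventually_gt_atTop j,
      (hel.comp hJk).eventually (gt_mem_nhds hε)] with i h1 h2 h3 hb
    apply hfE i
    obtain ⟨m, hm⟩ : ∃ m, DensM.kk (t i) = m + 1 := ⟨DensM.kk (t i) - 1, by omega⟩
    have hm' : DensM.kk (t i) - 1 = m := by omega
    simp only [Function.comp, hm'] at h2 h3
    refine Set.mem_iUnion.mpr ⟨m, ⟨t i, hft i, ?_, ?_⟩, j, h2, ?_⟩
    · exact DensM.lt_of_lt_kk (by omega)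
    · have h4 := DensM.le_kk (t i)
      rw [hm, pow_succ] at h4
      linarith
    · exact hmono j ε (e (J m)) (f i) h3.le hb

end Pool.Agent.A54.Av
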