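import Pool.Agent.Lib.MP_a54f13_nt.Av.SpecA

/-!
# Package Av, module Bet: the second moment of the Bessel function
-/

set_option autoImplicit false

namespace Pool.Agent.A54.Av

open MeasureTheory Filter Topology Set

namespace BetM

theorem cosh_ge (u : ℝ) : u ^ 2 / 4 ≤ Real.cosh u := by
  have h1 := Real.quadratic_le_exp_of_nonneg (abs_nonneg u)
  have h2 : Real.cosh u = Real.cosh |u| := (Real.cosh_abs u).symm
  rw [h2, Real.cosh_eq]
  have h3 : 0 < Real.exp (-|u|) := Real.exp_pos _
  have h4 : |u| ^ 2 = u ^ 2 := sq_abs u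
  nlinarith [abs_nonneg u]

/-- the integrand -/
noncomputable def F (t x u : ℝ) : ℝ := Real.exp (-(x * Real.cosh u)) * Real.cos (t * u)

theorem F_abs (t x u : ℝ) : F t x |u| = F t x u := by
  unfold F
  rw [Real.cosh_abs]
  congr 1
  rcases abs_choice u with h | h
  · rw [h]
  · rw [h, mul_neg, Real.cos_neg]

theorem F_cont (t x : ℝ) : Continuous (F t x) := by
  unfold F
  fun_prop

theorem F_norm (t x u : ℝ) : ‖F t x u‖ ≤ Real.exp (-(x * Real.cosh u)) := by
  unfold F
  rw [norm_mul, Real.norm_of_nonneg (Real.exp_pos _).le]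
  calc _ ≤ Real.exp (-(x * Real.cosh u)) * 1 := by
        gcongr
        exact Real.abs_cos_le_one _
    _ = _ := mul_one _

theorem G_int {x : ℝ} (hx : 0 < x) : Integrable (fun u : ℝ => Real.exp (-(x * Real.cosh u))) := by
  have h1 : Integrable (fun u : ℝ => Real.exp (-(x / 4) * u ^ 2)) :=
    integrable_exp_neg_mul_sq (by positivity)
  refine h1.mono' (by fun_prop) (Eventually.of_forall fun u => ?_)
  rw [Real.norm_of_nonneg (Real.exp_pos _).le, Real.exp_le_exp]
  have := mul_le_mul_of_nonneg_left (cosh_ge u) hx.le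
  linarith

theorem F_int (t : ℝ) {x : ℝ} (hx : 0 < x) : Integrable (F t x) :=
  (G_int hx).mono' (F_cont t x).aestronglyMeasurable (Eventually.of_forall fun u => F_norm t x u)

theorem KB_eq (t x : ℝ) : 2 * KB t x = ∫ u, F t x u := by
  have h1 := integral_comp_abs (f := F t x)
  simp only [F_abs] at h1
  rw [h1]
  rfl

theorem prod_le (p q : ℝ) : (Real.cosh p + Real.cosh q) / 2 ≤ Real.cosh p * Real.cosh q := by
  have h1 := Real.one_le_cosh p
  have h2 := Real.one_le_cosh q
  nlinarith

theorem E_int {x : ℝ} (hx : 0 < x) :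
    Integrable (fun z : ℝ × ℝ => Real.exp (-(2 * x * Real.cosh z.1 * Real.cosh z.2))) := by
  have h1 : Integrable (fun z : ℝ × ℝ =>
      Real.exp (-(x * Real.cosh z.1)) * Real.exp (-(x * Real.cosh z.2))) :=
    (G_int hx).mul_prod (G_int hx)
  refine h1.mono' (by fun_prop) (Eventually.of_forall fun z => ?_)
  rw [Real.norm_of_nonneg (Real.exp_pos _).le, ← Real.exp_add, Real.exp_le_exp]
  have := mul_le_mul_of_nonneg_left (prod_le z.1 z.2) hx.le
  linarith

theorem EC_int (f : ℝ × ℝ → ℝ) (hf : Continuous f) (hf1 : ∀ z, |f z| ≤ 1) {x : ℝ} (hx : 0 < x) :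
    Integrable (fun z : ℝ × ℝ => Real.exp (-(2 * x * Real.cosh z.1 * Real.cosh z.2)) * f z) := by
  refine (E_int hx).mono' (by fun_prop) (Eventually.of_forall fun z => ?_)
  rw [norm_mul, Real.norm_of_nonneg (Real.exp_pos _).le]
  calc _ ≤ Real.exp (-(2 * x * Real.cosh z.1 * Real.cosh z.2)) * 1 := by
        gcongr
        exact hf1 z
    _ = _ := mul_one _

/-- change of variables -/
theorem change {F : ℝ → ℝ} (hF : Integrable F) (hc : Continuous F) :
    (∫ u, F u) * (∫ v, F v) = 2 * ∫ q, ∫ p, F (p + q) * F (p - q) := by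
  have h1 : ∀ v : ℝ, (∫ u, F u) = 2 * ∫ q, F (v + 2 * q) := by
    intro v
    have e1 := Measure.integral_comp_mul_left (fun y => F (v + y)) 2
    have e2 := integral_add_left_eq_self (μ := volume) F v
    rw [e1, e2]
    simp
  have h2 : (∫ u, F u) * (∫ v, F v) = ∫ v, ∫ q, 2 * (F (v + 2 * q) * F v) := by
    rw [← integral_const_mul]
    refine integral_congr_ae (Eventually.of_forall fun v => ?_)
    simp only
    rw [integral_const_mul, integral_mul_const, ← mul_assoc, ← h1 v]
  have hint : Integrable (Function.uncurry fun v q : ℝ => 2 * (F (v + 2 * q) * F v))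
      (volume.prod volume) := by
    have hcont : Continuous (Function.uncurry fun v q : ℝ => 2 * (F (v + 2 * q) * F v)) := by
      unfold Function.uncurry
      fun_prop
    rw [integrable_prod_iff hcont.aestronglyMeasurable]
    have hI : ∀ v : ℝ, Integrable (fun q => F (v + 2 * q)) := by
      intro v
      have e1 : Integrable (fun y => F (v + y)) := hF.comp_add_left v
      exact e1.comp_mul_left' (by norm_num : (2 : ℝ) ≠ 0)
    refine ⟨Eventually.of_forall fun v => ?_, ?_⟩
    · exact ((hI v).mul_const (F v)).const_mul 2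
    · have h3 : ∀ v : ℝ, (∫ u, ‖F u‖) = 2 * ∫ q, ‖F (v + 2 * q)‖ := by
        intro v
        have e1 := Measure.integral_comp_mul_left (fun y => ‖F (v + y)‖) 2
        have e2 := integral_add_left_eq_self (μ := volume) (fun y => ‖F y‖) v
        rw [e1, e2]
        simp
      have h4 : (fun v : ℝ => ∫ q : ℝ, ‖Function.uncurry (fun v q : ℝ =>
          2 * (F (v + 2 * q) * F v)) (v, q)‖) = fun v => (∫ u, ‖F u‖) * ‖F v‖ := by
        funext v
        have h5 : (fun q : ℝ => ‖Function.uncurry (fun v q : ℝ =>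
            2 * (F (v + 2 * q) * F v)) (v, q)‖) = fun q => 2 * (‖F (v + 2 * q)‖ * ‖F v‖) := by
          funext q
          simp [Function.uncurry]
        rw [h5, integral_const_mul, integral_mul_const, ← mul_assoc, ← h3 v]
      rw [h4]
      exact hF.norm.const_mul _
  rw [h2, integral_integral_swap hint, ← integral_const_mul]
  refine integral_congr_ae (Eventually.of_forall fun q => ?_)
  simp only
  rw [integral_const_mul]
  congr 1
  have e3 := integral_sub_right_eq_self (μ := volume) (fun v => F (v + 2 * q) * F v) q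
  rw [← e3]
  refine integral_congr_ae (Eventually.of_forall fun p => ?_)
  simp only
  congr 2
  ring

theorem sqK (t : ℝ) {x : ℝ} (hx : 0 < x) : KB t x ^ 2 =
    1 / 2 * ∫ z : ℝ × ℝ, Real.exp (-(2 * x * Real.cosh z.1 * Real.cosh z.2)) *
      Real.cos (2 * t * z.1) := by
  have h1 : (2 * KB t x) * (2 * KB t x) = 2 * ∫ q, ∫ p, F t x (p + q) * F t x (p - q) := by
    rw [KB_eq]
    exact change (F_int t hx) (F_cont t x)
  have h2 : ∀ p q : ℝ, F t x (p + q) * F t x (p - q) =
      1 / 2 * (Real.exp (-(2 * x * Real.cosh p * Real.cosh q)) * Real.cos (2 * t * p)) +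
      1 / 2 * (Real.exp (-(2 * x * Real.cosh p * Real.cosh q)) * Real.cos (2 * t * q)) := by
    intro p q
    unfold F
    have e1 : Real.exp (-(x * Real.cosh (p + q))) * Real.exp (-(x * Real.cosh (p - q))) =
        Real.exp (-(2 * x * Real.cosh p * Real.cosh q)) := by
      rw [← Real.exp_add, Real.cosh_add, Real.cosh_sub]
      congr 1
      ring
    have e2 : Real.cos (t * (p + q)) * Real.cos (t * (p - q)) =
        1 / 2 * (Real.cos (2 * t * p) + Real.cos (2 * t * q)) := by
      have a1 : 2 * t * p = t * (p + q) + t * (p - q) := by ring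
      have a2 : 2 * t * q = t * (p + q) - t * (p - q) := by ring
      rw [a1, a2, Real.cos_add, Real.cos_sub]
      ring
    calc _ = (Real.exp (-(x * Real.cosh (p + q))) * Real.exp (-(x * Real.cosh (p - q)))) *
          (Real.cos (t * (p + q)) * Real.cos (t * (p - q))) := by ring
      _ = _ := by rw [e1, e2]; ring
  have i1 := EC_int (fun z => Real.cos (2 * t * z.1)) (by fun_prop)
    (fun z => Real.abs_cos_le_one _) hx
  have i2 := EC_int (fun z => Real.cos (2 * t * z.2)) (by fun_prop)
    (fun z => Real.abs_cos_le_one _) hx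
  have i3 : Integrable (fun z : ℝ × ℝ =>
      1 / 2 * (Real.exp (-(2 * x * Real.cosh z.1 * Real.cosh z.2)) * Real.cos (2 * t * z.1)) +
      1 / 2 * (Real.exp (-(2 * x * Real.cosh z.1 * Real.cosh z.2)) * Real.cos (2 * t * z.2))) :=
    (i1.const_mul _).add (i2.const_mul _)
  have h3 : (∫ q, ∫ p, F t x (p + q) * F t x (p - q)) =
      ∫ z : ℝ × ℝ, (1 / 2 * (Real.exp (-(2 * x * Real.cosh z.1 * Real.cosh z.2)) *
        Real.cos (2 * t * z.1)) + 1 / 2 * (Real.exp (-(2 * x * Real.cosh z.1 * Real.cosh z.2)) *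
        Real.cos (2 * t * z.2))) := by
    simp_rw [h2]
    exact (integral_prod_symm _ i3).symm
  have h4 : (∫ z : ℝ × ℝ, Real.exp (-(2 * x * Real.cosh z.1 * Real.cosh z.2)) *
      Real.cos (2 * t * z.2)) = ∫ z : ℝ × ℝ,
        Real.exp (-(2 * x * Real.cosh z.1 * Real.cosh z.2)) * Real.cos (2 * t * z.1) := by
    have e := integral_prod_swap (μ := (volume : Measure ℝ)) (ν := (volume : Measure ℝ))
      (fun z : ℝ × ℝ => Real.exp (-(2 * x * Real.cosh z.1 * Real.cosh z.2)) *
        Real.cos (2 * t * z.1))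
    rw [← Measure.volume_eq_prod] at e
    rw [← e]
    refine integral_congr_ae (Eventually.of_forall fun z => ?_)
    simp only [Prod.fst_swap, Prod.snd_swap]
    congr 2
    ring
  rw [h3, integral_add (i1.const_mul _) (i2.const_mul _), integral_const_mul, integral_const_mul,
    h4] at h1
  linarith

/-! ### the Beta integral -/

/-- the substitution -/
noncomputable def sg (p : ℝ) : ℝ := Real.exp p / (2 * Real.cosh p)

theorem one_sub_sg (p : ℝ) : 1 - sg p = Real.exp (-p) / (2 * Real.cosh p) := by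
  unfold sg
  have := Real.cosh_pos p
  rw [eq_div_iff (by positivity), sub_mul, div_mul_cancel₀ _ (by positivity), Real.cosh_eq]
  ring

theorem sg_pos (p : ℝ) : 0 < sg p := by
  have := Real.cosh_pos p
  have := Real.exp_pos p
  unfold sg
  positivity

theorem sg_lt (p : ℝ) : sg p < 1 := by
  have h1 := one_sub_sg p
  have := Real.cosh_pos p
  have h2 : 0 < Real.exp (-p) / (2 * Real.cosh p) := by positivity
  linarith

theorem sg_deriv (p : ℝ) : HasDerivAt sg (1 / (2 * Real.cosh p ^ 2)) p := by
  have hc := Real.cosh_pos p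
  have h1 : HasDerivAt (fun p => 2 * Real.cosh p) (2 * Real.sinh p) p :=
    (Real.hasDerivAt_cosh p).const_mul 2
  have h2 := (Real.hasDerivAt_exp p).div h1 (by positivity)
  refine h2.congr_deriv ?_
  have e1 : Real.exp p = Real.cosh p + Real.sinh p := by rw [Real.cosh_eq, Real.sinh_eq]; ring
  have e2 := Real.cosh_sq p
  rw [e1]
  field_simp
  nlinarith

theorem sg_div (p : ℝ) : sg p / (1 - sg p) = Real.exp (2 * p) := by
  rw [one_sub_sg]
  unfold sg
  have hc := Real.cosh_pos p
  rw [div_div_div_cancel_right₀ (by positivity), ← Real.exp_sub]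
  congr 1
  ring

theorem sg_inj : Function.Injective sg := by
  intro p q h
  have h1 : Real.exp (2 * p) = Real.exp (2 * q) := by rw [← sg_div, ← sg_div, h]
  have := Real.exp_injective h1
  linarith

theorem sg_image : sg '' univ = Ioo 0 1 := by
  ext x
  constructor
  · rintro ⟨p, _, rfl⟩
    exact ⟨sg_pos p, sg_lt p⟩
  · rintro ⟨h0, h1⟩
    refine ⟨Real.log (x / (1 - x)) / 2, mem_univ _, ?_⟩
    have h2 : 0 < x / (1 - x) := div_pos h0 (by linarith)
    set y := sg (Real.log (x / (1 - x)) / 2) with hy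
    have h3 : y / (1 - y) = x / (1 - x) := by
      rw [hy, sg_div, mul_div_cancel₀ _ (two_ne_zero), Real.exp_log h2]
    have h4 : y < 1 := sg_lt _
    have h5 : 1 - y ≠ 0 := by linarith
    have h6 : 1 - x ≠ 0 := by linarith
    rw [div_eq_div_iff h5 h6] at h3
    linarith

theorem beta_eq (t : ℝ) :
    (Integrable fun p : ℝ => (((1 / (2 * Real.cosh p ^ 2) : ℝ)) : ℂ) *
      Complex.exp ((2 * t * p : ℝ) * Complex.I)) ∧
    ∫ p : ℝ, (((1 / (2 * Real.cosh p ^ 2) : ℝ)) : ℂ) * Complex.exp ((2 * t * p : ℝ) * Complex.I) =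
      Complex.betaIntegral (1 + t * Complex.I) (1 - t * Complex.I) := by
  set g : ℝ → ℂ := fun x => (x : ℂ) ^ ((1 + t * Complex.I : ℂ) - 1) *
    (1 - (x : ℂ)) ^ ((1 - t * Complex.I : ℂ) - 1) with hg
  have hgs : ∀ p : ℝ, g (sg p) = Complex.exp ((2 * t * p : ℝ) * Complex.I) := by
    intro p
    rw [hg]
    simp only
    have h0 := sg_pos p
    have h1 := sg_lt p
    have e1 : (1 + t * Complex.I : ℂ) - 1 = t * Complex.I := by ring
    have e2 : (1 - t * Complex.I : ℂ) - 1 = -(t * Complex.I) := by ring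
    have e3 : (1 - ((sg p : ℝ) : ℂ)) = ((1 - sg p : ℝ) : ℂ) := by push_cast; ring
    rw [e1, e2, e3, Complex.cpow_neg, ← div_eq_mul_inv,
      Complex.cpow_def_of_ne_zero (by exact_mod_cast h0.ne'),
      Complex.cpow_def_of_ne_zero (by exact_mod_cast (by linarith : (1 - sg p : ℝ) ≠ 0)),
      ← Complex.exp_sub, ← Complex.ofReal_log h0.le, ← Complex.ofReal_log (by linarith)]
    congr 1
    have e4 : Real.log (sg p) - Real.log (1 - sg p) = 2 * p := by
      rw [← Real.log_div h0.ne' (by linarith), sg_div, Real.log_exp]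
    rw [← sub_mul, ← Complex.ofReal_sub, e4]
    push_cast
    ring
  have hd : ∀ x ∈ (univ : Set ℝ), HasDerivWithinAt sg (1 / (2 * Real.cosh x ^ 2)) univ x :=
    fun x _ => (sg_deriv x).hasDerivWithinAt
  have habs : ∀ p : ℝ, |1 / (2 * Real.cosh p ^ 2)| = 1 / (2 * Real.cosh p ^ 2) := by
    intro p
    have := Real.cosh_pos p
    exact abs_of_pos (by positivity)
  have hfun : (fun p : ℝ => |1 / (2 * Real.cosh p ^ 2)| • g (sg p)) = fun p : ℝ =>
      (((1 / (2 * Real.cosh p ^ 2) : ℝ)) : ℂ) * Complex.exp ((2 * t * p : ℝ) * Complex.I) := by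
    funext p
    rw [habs, hgs, Complex.real_smul]
  have hre1 : 0 < (1 + t * Complex.I : ℂ).re := by simp
  have hre2 : 0 < (1 - t * Complex.I : ℂ).re := by simp
  have hconv := Complex.betaIntegral_convergent hre1 hre2
  have hconv' : IntegrableOn g (Ioo 0 1) := by
    rw [intervalIntegrable_iff_integrableOn_Ioo_of_le zero_le_one] at hconv
    exact hconv
  constructor
  · have h1 := (integrableOn_image_iff_integrableOn_abs_deriv_smul MeasurableSet.univ hd
      sg_inj.injOn g).1 (by rw [sg_image]; exact hconv')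
    rw [hfun, integrableOn_univ] at h1
    exact h1
  · have h1 := integral_image_eq_integral_abs_deriv_smul MeasurableSet.univ hd sg_inj.injOn g
    rw [hfun, sg_image, setIntegral_univ] at h1
    rw [← h1, Complex.betaIntegral, intervalIntegral.integral_of_le zero_le_one,
      integral_Ioc_eq_integral_Ioo]

theorem sech_eq (t : ℝ) :
    (Integrable fun p : ℝ => 1 / (2 * Real.cosh p ^ 2) * Real.cos (2 * t * p)) ∧
    ∫ p : ℝ, 1 / (2 * Real.cosh p ^ 2) * Real.cos (2 * t * p) =
      (Complex.betaIntegral (1 + t * Complex.I) (1 - t * Complex.I)).re := by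
  obtain ⟨h1, h2⟩ := beta_eq t
  have e : ∀ p : ℝ, RCLike.re ((((1 / (2 * Real.cosh p ^ 2) : ℝ)) : ℂ) *
      Complex.exp ((2 * t * p : ℝ) * Complex.I)) =
        1 / (2 * Real.cosh p ^ 2) * Real.cos (2 * t * p) := by
    intro p
    show (_ : ℂ).re = _
    rw [Complex.re_ofReal_mul, Complex.exp_ofReal_mul_I_re]
  constructor
  · have := h1.re
    simp only [e] at this
    exact this
  · have h3 := integral_re h1
    simp only [e] at h3
    rw [h3, h2]
    rfl

theorem beta_val {t : ℝ} (ht : 0 < t) :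
    Complex.betaIntegral (1 + t * Complex.I) (1 - t * Complex.I) =
      ((Real.pi * t / Real.sinh (Real.pi * t) : ℝ) : ℂ) := by
  have hre1 : 0 < (1 + t * Complex.I : ℂ).re := by simp
  have hre2 : 0 < (1 - t * Complex.I : ℂ).re := by simp
  have h1 := Complex.Gamma_mul_Gamma_eq_betaIntegral hre1 hre2
  have e1 : (1 + t * Complex.I : ℂ) + (1 - t * Complex.I) = 2 := by ring
  have h2 := Complex.Gamma_mul_Gamma_one_sub (t * Complex.I)
  have hti : (t * Complex.I : ℂ) ≠ 0 :=
    mul_ne_zero (by exact_mod_cast ht.ne') Complex.I_ne_zero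
  have h3 : Complex.Gamma (1 + t * Complex.I) =
      (t * Complex.I) * Complex.Gamma (t * Complex.I) := by
    rw [add_comm, Complex.Gamma_add_one _ hti]
  have hG2 : Complex.Gamma 2 = 1 := by
    have := Complex.Gamma_nat_eq_factorial 1
    have e5 : ((1 : ℕ) : ℂ) + 1 = 2 := by norm_num
    rw [e5] at this
    rw [this]
    simp
  rw [e1, hG2, one_mul, h3, mul_assoc, h2] at h1
  rw [← h1]
  have h4 : Complex.sin (Real.pi * (t * Complex.I)) =
      ((Real.sinh (Real.pi * t) : ℝ) : ℂ) * Complex.I := by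
    rw [← mul_assoc, Complex.sin_mul_I]
    push_cast
    ring
  rw [h4]
  have hs : Real.sinh (Real.pi * t) ≠ 0 := by
    have : 0 < Real.sinh (Real.pi * t) := Real.sinh_pos_iff.2 (by positivity)
    exact this.ne'
  have hs' : ((Real.sinh (Real.pi * t) : ℝ) : ℂ) ≠ 0 := by exact_mod_cast hs
  push_cast at hs' ⊢
  have hI := Complex.I_ne_zero
  field_simp

theorem sech_zero :
    (Integrable fun p : ℝ => 1 / (2 * Real.cosh p ^ 2)) ∧
    ∫ p : ℝ, 1 / (2 * Real.cosh p ^ 2) = 1 := by
  obtain ⟨h1, h2⟩ := sech_eq 0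
  simp only [mul_zero, zero_mul, Real.cos_zero, mul_one, Complex.ofReal_zero, add_zero,
    sub_zero] at h1 h2
  refine ⟨h1, ?_⟩
  rw [h2]
  have h3 := Complex.Gamma_mul_Gamma_eq_betaIntegral (s := 1) (t := 1) (by simp) (by simp)
  have hG2 : Complex.Gamma (1 + 1) = 1 := by
    have := Complex.Gamma_nat_eq_factorial 1
    rw [Nat.cast_one] at this
    rw [this]
    simp
  rw [hG2, Complex.Gamma_one, one_mul, one_mul] at h3
  rw [← h3]
  simp

theorem lap {a : ℝ} (ha : 0 < a) :
    IntegrableOn (fun x : ℝ => x * Real.exp (-(a * x))) (Ioi 0) ∧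
    ∫ x in Ioi (0 : ℝ), x * Real.exp (-(a * x)) = 1 / a ^ 2 := by
  have h1 := integrableOn_rpow_mul_exp_neg_mul_rpow (s := 1) (p := 1) (b := a) (by norm_num)
    one_pos ha
  have h2 := integral_rpow_mul_exp_neg_mul_rpow (p := 1) (q := 1) (b := a) one_pos (by norm_num) ha
  simp only [Real.rpow_one, neg_mul] at h1 h2
  refine ⟨h1, ?_⟩
  rw [h2]
  have hG : Real.Gamma ((1 + 1) / 1) = 1 := by
    have := Real.Gamma_nat_eq_factorial 1
    rw [Nat.cast_one] at this
    rw [div_one, this]
    simp
  rw [hG]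
  have e : -(1 + 1 : ℝ) / 1 = -((2 : ℕ) : ℝ) := by norm_num
  rw [e, Real.rpow_neg ha.le, Real.rpow_natCast]
  field_simp

end BetM

open BetM in
theorem stmtBet (_hKBf : StmtKBf) : StmtBet := by
  intro t ht
  set H : ℝ × (ℝ × ℝ) → ℝ := fun w => w.1 *
    (Real.exp (-(2 * w.1 * Real.cosh w.2.1 * Real.cosh w.2.2)) * Real.cos (2 * t * w.2.1)) with hH
  have hHc : Continuous H := by
    rw [hH]
    fun_prop
  have hform : ∀ (x : ℝ) (z : ℝ × ℝ), H (x, z) =
      (x * Real.exp (-((2 * Real.cosh z.1 * Real.cosh z.2) * x))) * Real.cos (2 * t * z.1) := by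
    intro x z
    rw [hH]
    simp only
    rw [← mul_assoc]
    congr 4
    ring
  have hapos : ∀ z : ℝ × ℝ, 0 < 2 * Real.cosh z.1 * Real.cosh z.2 := by
    intro z
    have := Real.cosh_pos z.1
    have := Real.cosh_pos z.2
    positivity
  have hval : ∀ z : ℝ × ℝ, 1 / (2 * Real.cosh z.1 * Real.cosh z.2) ^ 2 =
      1 / (2 * Real.cosh z.1 ^ 2) * (1 / (2 * Real.cosh z.2 ^ 2)) := by
    intro z
    have := (Real.cosh_pos z.1).ne'
    have := (Real.cosh_pos z.2).ne'
    field_simp
  have hint : Integrable H ((volume.restrict (Ioi (0 : ℝ))).prod volume) := by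
    rw [integrable_prod_iff' hHc.aestronglyMeasurable]
    constructor
    · refine Eventually.of_forall fun z => ?_
      simp only [hform]
      exact (lap (hapos z)).1.mul_const _
    · have e1 : ∀ z : ℝ × ℝ, (∫ x in Ioi (0 : ℝ), ‖H (x, z)‖) =
          (1 / (2 * Real.cosh z.1 ^ 2) * (1 / (2 * Real.cosh z.2 ^ 2))) *
            |Real.cos (2 * t * z.1)| := by
        intro z
        have e2 : (∫ x in Ioi (0 : ℝ), ‖H (x, z)‖) =
            ∫ x in Ioi (0 : ℝ), (x * Real.exp (-((2 * Real.cosh z.1 * Real.cosh z.2) * x))) *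
              |Real.cos (2 * t * z.1)| := by
          refine setIntegral_congr_fun measurableSet_Ioi fun x hx => ?_
          have hx' : (0 : ℝ) < x := hx
          show ‖H (x, z)‖ = _
          rw [hform, norm_mul, Real.norm_of_nonneg (by positivity)]
          rfl
        rw [e2, integral_mul_const, (lap (hapos z)).2, hval]
      simp only [e1]
      have h0 := sech_zero.1.mul_prod sech_zero.1
      refine h0.mono' ?_ (Eventually.of_forall fun z => ?_)
      · refine Continuous.aestronglyMeasurable ?_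
        have hc : Continuous fun p : ℝ => 1 / (2 * Real.cosh p ^ 2) := by
          refine Continuous.div continuous_const (by fun_prop) fun p => ?_
          have := Real.cosh_pos p
          positivity
        exact ((hc.comp continuous_fst).mul (hc.comp continuous_snd)).mul (by fun_prop)
      · have p1 := Real.cosh_pos z.1
        have p2 := Real.cosh_pos z.2
        rw [norm_mul, Real.norm_of_nonneg (by positivity), Real.norm_of_nonneg (abs_nonneg _)]
        calc _ ≤ (1 / (2 * Real.cosh z.1 ^ 2) * (1 / (2 * Real.cosh z.2 ^ 2))) * 1 := by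
              gcongr
              exact Real.abs_cos_le_one _
          _ = _ := mul_one _
  have hKB : ∀ x ∈ Ioi (0 : ℝ), x * KB t x ^ 2 = 1 / 2 * ∫ z : ℝ × ℝ, H (x, z) := by
    intro x hx
    rw [sqK t hx, hH]
    simp only
    rw [integral_const_mul]
    ring
  constructor
  · have h1 : Integrable (fun x => 1 / 2 * ∫ z : ℝ × ℝ, H (x, z)) (volume.restrict (Ioi 0)) :=
      hint.integral_prod_left.const_mul _
    exact (integrableOn_congr_fun hKB measurableSet_Ioi).2 h1
  · rw [setIntegral_congr_fun measurableSet_Ioi hKB, integral_const_mul,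
      integral_integral_swap (f := fun x z => H (x, z)) hint]
    have h2 : ∀ z : ℝ × ℝ, (∫ x in Ioi (0 : ℝ), H (x, z)) =
        (1 / (2 * Real.cosh z.1 ^ 2) * Real.cos (2 * t * z.1)) *
          (1 / (2 * Real.cosh z.2 ^ 2)) := by
      intro z
      simp only [hform]
      rw [integral_mul_const, (lap (hapos z)).2, hval]
      ring
    simp only [h2]
    have h3 := integral_prod_mul (μ := (volume : Measure ℝ)) (ν := (volume : Measure ℝ))
      (fun p : ℝ => 1 / (2 * Real.cosh p ^ 2) * Real.cos (2 * t * p))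
      (fun q : ℝ => 1 / (2 * Real.cosh q ^ 2))
    rw [← Measure.volume_eq_prod] at h3
    rw [h3, sech_zero.2, (sech_eq t).2, beta_val ht, Complex.ofReal_re]
    ring

end Pool.Agent.A54.Av
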