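import Pool.Agent.Lib.MP_a54f13_nt.Av.SpecC

/-!
# Module Cr: refined bound for the main class
-/

set_option autoImplicit false

namespace Pool.Agent.A54.Av.CrM

open Pool.Agent.A54.Av

noncomputable section

/-- counting by fibres, with a weight -/
theorem card_le_sum {α β : Type*} [DecidableEq α] [DecidableEq β] (S : Finset α) (f : α → β)
    (w : β → ℝ) (h : ∀ b ∈ S.image f, ((S.filter (fun x => f x = b)).card : ℝ) ≤ w b) :
    (S.card : ℝ) ≤ ∑ b ∈ S.image f, w b := by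
  rw [Finset.card_eq_sum_card_image f S]
  push_cast
  exact Finset.sum_le_sum h

/-- counting by fibres, constant bound -/
theorem card_le_mul {α β : Type*} [DecidableEq α] [DecidableEq β] (S : Finset α) (f : α → β)
    (k : ℝ) (h : ∀ b ∈ S.image f, ((S.filter (fun x => f x = b)).card : ℝ) ≤ k) :
    (S.card : ℝ) ≤ k * ((S.image f).card : ℝ) := by
  have h1 := card_le_sum S f (fun _ => k) h
  rw [Finset.sum_const, nsmul_eq_mul] at h1
  linarith

/-- the quotients `a`, `b` -/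
def qa (g : ℕ) (x : O8) : ℤ := x.p1 / g
def qb (g : ℕ) (x : O8) : ℤ := x.p2 / g

/-- everything we need about one element -/
structure Info (H η δ E ρ g : ℕ) (x : O8) : Prop where
  h1 : x.p1 = g * qa g x
  h2 : x.p2 = g * qb g x
  cop : IsCoprime (qa g x) (qb g x)
  a0 : qa g x ≠ 0
  ne : qa g x ≠ qb g x
  ad : qa g x + qb g x ≠ 0
  ga : (g : ℤ) * |qa g x| ≤ 2 * ρ * H
  u2 : |qb g x - qa g x| * H ≤ 3 * |qa g x| * η
  ac : |qa g x * x.c2 - qb g x * x.c1| * g ≤ 2 * ρ * H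
  q1 : ((|x.q1| : ℤ) : ℝ) ≤ 4 * ρ * g * |(qa g x : ℝ)| * lam H η δ E
  dv : (g : ℤ) ∣ x.q1 * x.c1 - x.q2 * x.c2

theorem info (hCf : StmtCf) {H η δ E ρ g : ℕ} {x : O8} (hP : Pm H η δ E ρ) (hg : 1 ≤ g)
    (hx : BlkG H η δ E ρ g x) : Info H η δ E ρ g x := by
  obtain ⟨a, b, h1, h2, h3, h4, h5, h6, h7, _, h9, h10, h11, h12⟩ := hCf H η δ E ρ g x hP hg hx
  have hg0 : (g : ℤ) ≠ 0 := by exact_mod_cast (by omega : g ≠ 0)
  have ha : qa g x = a := by
    unfold qa; rw [h1]; exact Int.mul_ediv_cancel_left a hg0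
  have hb : qb g x = b := by
    unfold qb; rw [h2]; exact Int.mul_ediv_cancel_left b hg0
  refine ⟨?_, ?_, ?_, ?_, ?_, ?_, ?_, ?_, ?_, ?_, h12⟩
  · rw [ha, h1]
  · rw [hb, h2]
  · rw [ha, hb]; exact h3
  · rw [ha]; exact h4
  · rw [ha, hb]; exact h5
  · rw [ha, hb]; exact h6
  · rw [ha]; exact h7
  · rw [ha, hb]; exact h9
  · rw [ha, hb]; exact h10
  · rw [ha]; exact h11

/-- `λ ≥ 2` -/
theorem two_le_lam {H η δ E ρ : ℕ} (hP : Pm H η δ E ρ) : 2 ≤ lam H η δ E := by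
  unfold lam
  have h1 : (1 : ℝ) ≤ η := by exact_mod_cast hP.eta
  have h2 : (η : ℝ) ≤ H := by exact_mod_cast hP.etaH
  have h3 : (η : ℝ) ≤ δ := by exact_mod_cast hP.del
  have h4 : (H : ℝ) ≤ E := by exact_mod_cast hP.EH
  have h5 : 1 ≤ (E : ℝ) / H := by rw [le_div_iff₀ (by linarith)]; linarith
  have h6 : 1 ≤ (δ : ℝ) / η := by rw [le_div_iff₀ (by linarith)]; linarith
  linarith

/-- the bound for a fibre over `(a, b, c)` -/
theorem fibre (hCf : StmtCf) (hCd : StmtCd) (h1 : StmtCr1) {H η δ E ρ g : ℕ}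
    (hP : Pm H η δ E ρ) (hg : 1 ≤ g) (N : ℝ) (hN : 0 < N) (F : Finset O8)
    (hF : ∀ x ∈ F, BlkG H η δ E ρ g x) (hFN : ∀ x ∈ F, N ≤ |(qa g x : ℝ)| ∧ |(qa g x : ℝ)| ≤ 2 * N)
    (a b c1 c2 : ℤ)
    (hy : ∀ x ∈ F, qa g x = a ∧ qb g x = b ∧ x.c1 = c1 ∧ x.c2 = c2) :
    (F.card : ℝ) ≤ (202 * ρ * H / N) * (450 * (ρ : ℝ) ^ 3 * lam H η δ E ^ 2 * N) *
      (Int.gcd g (a * c1 - b * c2) : ℝ) := by
  have hρ : (1 : ℝ) ≤ ρ := by exact_mod_cast hP.rho
  have hgr : (1 : ℝ) ≤ g := by exact_mod_cast hg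
  have hH1 : 1 ≤ H := le_trans hP.eta hP.etaH
  have hH : (1 : ℝ) ≤ H := by exact_mod_cast hH1
  have hl := two_le_lam hP
  rcases F.eq_empty_or_nonempty with rfl | ⟨x0, hx0⟩
  · simp only [Finset.card_empty, Nat.cast_zero]; positivity
  -- the fibres of `q`
  have hA : (F.card : ℝ) ≤ (202 * ρ * H / N) * ((F.image (fun x => (x.q1, x.q2))).card : ℝ) := by
    refine card_le_mul F (fun x => (x.q1, x.q2)) _ fun q hq => ?_
    obtain ⟨x1, hx1, hx1q⟩ := Finset.mem_image.mp hq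
    have hmem : x1 ∈ F.filter (fun x => (x.q1, x.q2) = q) := Finset.mem_filter.mpr ⟨hx1, hx1q⟩
    have hB := hCd H η δ E ρ g hP hg (F.filter (fun x => (x.q1, x.q2) = q))
      (fun x hx => hF x (Finset.mem_filter.mp hx).1) (by
        intro x hx y hyy
        obtain ⟨hx, hxq⟩ := Finset.mem_filter.mp hx
        obtain ⟨hyy, hyq⟩ := Finset.mem_filter.mp hyy
        have e1 := hy x hx
        have e2 := hy y hyy
        have i1 := info hCf hP hg (hF x hx)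
        have i2 := info hCf hP hg (hF y hyy)
        have e3 : (x.q1, x.q2) = (y.q1, y.q2) := hxq.trans hyq.symm
        refine ⟨e1.2.2.1.trans e2.2.2.1.symm, e1.2.2.2.trans e2.2.2.2.symm, ?_, ?_,
          (Prod.ext_iff.mp e3).1, (Prod.ext_iff.mp e3).2⟩
        · rw [i1.h1, i2.h1, e1.1, e2.1]
        · rw [i1.h2, i2.h2, e1.2.1, e2.2.1]) x1 hmem
    refine hB.trans ?_
    have i1 := info hCf hP hg (hF x1 hx1)
    have hp : |(x1.p1 : ℝ)| = g * |(qa g x1 : ℝ)| := by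
      have : (x1.p1 : ℝ) = (g : ℝ) * (qa g x1 : ℝ) := by exact_mod_cast i1.h1
      rw [this, abs_mul, abs_of_nonneg (by linarith : (0 : ℝ) ≤ g)]
    have hn := (hFN x1 hx1).1
    rw [hp]
    have ha0 : 0 < |(qa g x1 : ℝ)| := by linarith
    have : 202 * (ρ : ℝ) * H * g / (g * |(qa g x1 : ℝ)|) = 202 * ρ * H / |(qa g x1 : ℝ)| := by
      field_simp
    rw [this]
    exact div_le_div_of_nonneg_left (by positivity) hN hn
  have i0 := info hCf hP hg (hF x0 hx0)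
  obtain ⟨ea, eb, ec1, ec2⟩ := hy x0 hx0
  have hb0 := (hF x0 hx0).blk
  have hcop := i0.cop
  have ha0 := i0.a0
  have hac := i0.ac
  rw [ea, eb] at hcop hac
  rw [ea] at ha0
  rw [ec1, ec2] at hac
  have hc1 : (H : ℤ) ≤ c1 := by rw [← ec1]; exact hb0.cc.l1
  have hn := hFN x0 hx0
  rw [ea] at hn
  have hapos : 0 < |(a : ℝ)| := by linarith [hn.1]
  have hB := h1 H ρ g a b c1 c2 (4 * ρ * g * |(a : ℝ)| * lam H η δ E) hH1 hP.rho hg
    (by positivity) hcop ha0 hc1 hac (F.image (fun x => (x.q1, x.q2))) (by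
      intro q hq
      obtain ⟨x1, hx1, rfl⟩ := Finset.mem_image.mp hq
      have i1 := info hCf hP hg (hF x1 hx1)
      obtain ⟨fa, fb, fc1, fc2⟩ := hy x1 hx1
      refine ⟨?_, ?_, ?_⟩
      · have := i1.q1
        rw [fa] at this
        exact this
      · have := (hF x1 hx1).blk.qc
        rw [fc1, fc2] at this
        exact this
      · have := i1.dv
        rw [fc1, fc2] at this
        exact this)
  have hG : (0 : ℝ) ≤ (Int.gcd g (a * c1 - b * c2) : ℝ) := by positivity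
  have hfac : 5 * (ρ : ℝ) * ((4 * ρ * g * |(a : ℝ)| * lam H η δ E) / g + |(a : ℝ)|) *
      (1 + 2 * (4 * ρ * g * |(a : ℝ)| * lam H η δ E) / (|(a : ℝ)| * g)) ≤
      450 * (ρ : ℝ) ^ 3 * lam H η δ E ^ 2 * N := by
    have e1 : (4 * (ρ : ℝ) * g * |(a : ℝ)| * lam H η δ E) / g = 4 * ρ * |(a : ℝ)| * lam H η δ E := by
      field_simp
    have e2 : 2 * (4 * (ρ : ℝ) * g * |(a : ℝ)| * lam H η δ E) / (|(a : ℝ)| * g) =
        8 * ρ * lam H η δ E := by
      field_simp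
      ring
    rw [e1, e2]
    set L := lam H η δ E
    have hrl : 1 ≤ (ρ : ℝ) * L := by nlinarith
    have s1 : 4 * (ρ : ℝ) * |(a : ℝ)| * L + |(a : ℝ)| ≤ 5 * (ρ * L) * |(a : ℝ)| := by nlinarith
    have s2 : 1 + 8 * (ρ : ℝ) * L ≤ 9 * (ρ * L) := by nlinarith
    calc 5 * (ρ : ℝ) * (4 * ρ * |(a : ℝ)| * L + |(a : ℝ)|) * (1 + 8 * ρ * L) ≤
        5 * (ρ : ℝ) * (5 * (ρ * L) * |(a : ℝ)|) * (9 * (ρ * L)) := by gcongr
      _ = 225 * (ρ : ℝ) ^ 3 * L ^ 2 * |(a : ℝ)| := by ring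
      _ ≤ 225 * (ρ : ℝ) ^ 3 * L ^ 2 * (2 * N) := by
          have := hn.2
          gcongr
      _ = _ := by ring
  calc (F.card : ℝ) ≤ (202 * ρ * H / N) * ((F.image (fun x => (x.q1, x.q2))).card : ℝ) := hA
    _ ≤ (202 * ρ * H / N) * ((450 * (ρ : ℝ) ^ 3 * lam H η δ E ^ 2 * N) *
      (Int.gcd g (a * c1 - b * c2) : ℝ)) := by
        refine mul_le_mul_of_nonneg_left (hB.trans ?_) (by positivity)
        exact mul_le_mul_of_nonneg_right hfac hG
    _ = _ := by ring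

/-- one dyadic class -/
theorem dyadic (hCf : StmtCf) (hCd : StmtCd) (h1 : StmtCr1) (h2 : StmtCr2) (h3 : StmtCr3)
    {H η δ E ρ g : ℕ} (hP : Pm H η δ E ρ) (hg : 1 ≤ g) (N : ℝ) (hN : 0 < N) (S : Finset O8)
    (hS : ∀ x ∈ S, BlkG H η δ E ρ g x)
    (hSN : ∀ x ∈ S, N ≤ |(qa g x : ℝ)| ∧ |(qa g x : ℝ)| ≤ 2 * N) :
    (S.card : ℝ) ≤ (202 * 450 * 18 * 240) * (ρ : ℝ) ^ 6 * lam H η δ E ^ 2 * H ^ 2 * η *
      (g.divisors.card : ℝ) ^ 3 * N / g := by
  have hρ : (1 : ℝ) ≤ ρ := by exact_mod_cast hP.rho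
  have hgr : (1 : ℝ) ≤ g := by exact_mod_cast hg
  have hH1 : 1 ≤ H := le_trans hP.eta hP.etaH
  have hH : (1 : ℝ) ≤ H := by exact_mod_cast hH1
  have hη : (1 : ℝ) ≤ η := by exact_mod_cast hP.eta
  have hηH : (η : ℝ) ≤ H := by exact_mod_cast hP.etaH
  have hl := two_le_lam hP
  set W : ℝ := (202 * ρ * H / N) * (450 * (ρ : ℝ) ^ 3 * lam H η δ E ^ 2 * N) with hW
  have hW0 : 0 ≤ W := by positivity
  let f : O8 → (ℤ × ℤ) × (ℤ × ℤ) := fun x => ((qa g x, qb g x), (x.c1, x.c2))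
  let G : (ℤ × ℤ) × (ℤ × ℤ) → ℝ := fun y => (Int.gcd g (y.1.1 * y.2.1 - y.1.2 * y.2.2) : ℝ)
  have hA : (S.card : ℝ) ≤ ∑ y ∈ S.image f, W * G y := by
    refine card_le_sum S f _ fun y hy => ?_
    refine fibre hCf hCd h1 hP hg N hN (S.filter (fun x => f x = y))
      (fun x hx => hS x (Finset.mem_filter.mp hx).1) (fun x hx => hSN x (Finset.mem_filter.mp hx).1)
      y.1.1 y.1.2 y.2.1 y.2.2 fun x hx => ?_
    have hxy := (Finset.mem_filter.mp hx).2
    rw [← hxy]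
    exact ⟨rfl, rfl, rfl, rfl⟩
  rw [← Finset.mul_sum] at hA
  -- the sum over `c`
  have hB : ∑ y ∈ S.image f, G y ≤ ∑ p ∈ (S.image f).image Prod.fst,
      (18 * (ρ : ℝ) ^ 2 * H ^ 2 * g.divisors.card / (g * N)) *
        (Int.gcd g (p.1 ^ 2 - p.2 ^ 2) : ℝ) := by
    rw [← Finset.sum_fiberwise_of_maps_to (s := S.image f) (t := (S.image f).image Prod.fst)
      (g := Prod.fst) (fun y hy => Finset.mem_image_of_mem _ hy)]
    refine Finset.sum_le_sum fun p hp => ?_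
    obtain ⟨y0, hy0, hy0p⟩ := Finset.mem_image.mp hp
    obtain ⟨x0, hx0, hx0y⟩ := Finset.mem_image.mp hy0
    have i0 := info hCf hP hg (hS x0 hx0)
    have ep : p = (qa g x0, qb g x0) := by rw [← hy0p, ← hx0y]
    have hinj : Set.InjOn (Prod.snd : (ℤ × ℤ) × (ℤ × ℤ) → ℤ × ℤ)
        ((S.image f).filter (fun y => y.1 = p) : Finset _) := by
      intro y hy z hz hyz
      have hy' := (Finset.mem_filter.mp (Finset.mem_coe.mp hy)).2
      have hz' := (Finset.mem_filter.mp (Finset.mem_coe.mp hz)).2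
      exact Prod.ext (hy'.trans hz'.symm) hyz
    have e1 : ∑ y ∈ (S.image f).filter (fun y => y.1 = p), G y =
        ∑ c ∈ ((S.image f).filter (fun y => y.1 = p)).image Prod.snd,
          (Int.gcd g (p.1 * c.1 - p.2 * c.2) : ℝ) := by
      rw [Finset.sum_image hinj]
      refine Finset.sum_congr rfl fun y hy => ?_
      have hy' := (Finset.mem_filter.mp hy).2
      rw [← hy']
    rw [e1]
    have hn := hSN x0 hx0
    have hga := i0.ga
    have hcop := i0.cop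
    have ha0 := i0.a0
    have hp1 : p.1 = qa g x0 := by rw [ep]
    have hp2 : p.2 = qb g x0 := by rw [ep]
    refine (h2 H ρ g p.1 p.2 hH1 hP.rho hg (by rw [hp1, hp2]; exact hcop)
      (by rw [hp1]; exact ha0) (by rw [hp1]; exact hga) _ ?_).trans ?_
    · intro c hc
      obtain ⟨y, hy, rfl⟩ := Finset.mem_image.mp hc
      obtain ⟨hy, hyp⟩ := Finset.mem_filter.mp hy
      obtain ⟨x, hx, rfl⟩ := Finset.mem_image.mp hy
      have hb := (hS x hx).blk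
      have i1 := info hCf hP hg (hS x hx)
      refine ⟨hb.cc.l1, hb.cc.u1, ?_⟩
      rw [← hyp]
      exact i1.ac
    · have hapos : 0 < |(p.1 : ℝ)| := by rw [hp1]; linarith [hn.1]
      have hG : (0 : ℝ) ≤ (Int.gcd g (p.1 ^ 2 - p.2 ^ 2) : ℝ) := by positivity
      have hNa : N ≤ |(p.1 : ℝ)| := by rw [hp1]; exact hn.1
      rw [show (18 * (ρ : ℝ) ^ 2 * H ^ 2 * g.divisors.card / (g * N)) *
        (Int.gcd g (p.1 ^ 2 - p.2 ^ 2) : ℝ) = 18 * (ρ : ℝ) ^ 2 * H ^ 2 * g.divisors.card *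
        (Int.gcd g (p.1 ^ 2 - p.2 ^ 2) : ℝ) / (g * N) by ring]
      refine div_le_div_of_nonneg_left (by positivity) (by positivity) ?_
      gcongr
  rw [← Finset.mul_sum] at hB
  -- the sum over `(a, b)`
  have hC := h3 g (2 * N) (6 * N * η / H) hg (by positivity) (by positivity) (by
      rw [div_le_iff₀ (by linarith)]
      nlinarith) ((S.image f).image Prod.fst) (by
      intro p hp
      obtain ⟨y0, hy0, rfl⟩ := Finset.mem_image.mp hp
      obtain ⟨x0, hx0, rfl⟩ := Finset.mem_image.mp hy0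
      have i0 := info hCf hP hg (hS x0 hx0)
      have hn := hSN x0 hx0
      refine ⟨hn.2, i0.ne, i0.ad, ?_⟩
      have hu : (|((qb g x0 - qa g x0 : ℤ) : ℝ)|) * H ≤ 3 * |(qa g x0 : ℝ)| * η := by
        exact_mod_cast i0.u2
      change |((qb g x0 - qa g x0 : ℤ) : ℝ)| ≤ _
      rw [le_div_iff₀ (by linarith)]
      refine hu.trans ?_
      have := hn.2
      have h6 : 3 * |(qa g x0 : ℝ)| * η ≤ 3 * (2 * N) * η := by gcongr
      linarith)
  have hg0 : (0 : ℝ) ≤ (g.divisors.card : ℝ) := by positivity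
  calc (S.card : ℝ) ≤ W * ∑ y ∈ S.image f, G y := hA
    _ ≤ W * ((18 * (ρ : ℝ) ^ 2 * H ^ 2 * g.divisors.card / (g * N)) *
        (20 * (6 * N * η / H) * (2 * N) * (g.divisors.card : ℝ) ^ 2)) := by
        refine mul_le_mul_of_nonneg_left (hB.trans ?_) hW0
        exact mul_le_mul_of_nonneg_left hC (by positivity)
    _ = _ := by
        rw [hW]
        field_simp
        ring

/-- the geometric sum -/
theorem geo (n : ℕ) : ∑ i ∈ Finset.range (n + 1), (2 : ℝ) ^ i ≤ 2 * 2 ^ n := by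
  induction n with
  | zero => simp
  | succ n ih =>
    rw [Finset.sum_range_succ]
    have : (2 : ℝ) ^ (n + 1) = 2 * 2 ^ n := by ring
    linarith

end

end Pool.Agent.A54.Av.CrM

namespace Pool.Agent.A54.Av

open Pool.Agent.A54.Av.CrM

/-- **Cr** -/
theorem stmtCr (hCf : StmtCf) (hCd : StmtCd) (h1 : StmtCr1) (h2 : StmtCr2) (h3 : StmtCr3) :
    StmtCr := by
  refine ⟨(202 * 450 * 18 * 240) * 4, 7, by norm_num, ?_⟩
  intro H η δ E ρ g hP hg S hS
  have hρ : (1 : ℝ) ≤ ρ := by exact_mod_cast hP.rho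
  have hgr : (1 : ℝ) ≤ g := by exact_mod_cast hg
  have hH1 : 1 ≤ H := le_trans hP.eta hP.etaH
  have hH : (1 : ℝ) ≤ H := by exact_mod_cast hH1
  have hη : (1 : ℝ) ≤ η := by exact_mod_cast hP.eta
  have hl := two_le_lam hP
  rcases S.eq_empty_or_nonempty with rfl | hne
  · simp only [Finset.card_empty, Nat.cast_zero]; positivity
  let L : O8 → ℕ := fun x => Nat.log 2 (qa g x).natAbs
  -- dyadic bounds
  have hdy : ∀ x ∈ S, (2 : ℝ) ^ (L x) ≤ |(qa g x : ℝ)| ∧ |(qa g x : ℝ)| ≤ 2 * 2 ^ (L x) := by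
    intro x hx
    have i0 := info hCf hP hg (hS x hx)
    have hna : (qa g x).natAbs ≠ 0 := Int.natAbs_ne_zero.mpr i0.a0
    have e1 : 2 ^ (L x) ≤ (qa g x).natAbs := Nat.pow_log_le_self 2 hna
    have e2 : (qa g x).natAbs < 2 ^ (L x + 1) := Nat.lt_pow_succ_log_self (by norm_num) _
    have e3 : |(qa g x : ℝ)| = ((qa g x).natAbs : ℝ) := by
      rw [Nat.cast_natAbs]; push_cast; rfl
    rw [e3]
    refine ⟨by exact_mod_cast e1, ?_⟩
    have e4 : ((qa g x).natAbs : ℝ) < 2 ^ (L x + 1) := by exact_mod_cast e2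
    have e5 : (2 : ℝ) ^ (L x + 1) = 2 * 2 ^ (L x) := by ring
    linarith
  obtain ⟨xm, hxm, hmax⟩ := S.exists_max_image L hne
  have hA : (S.card : ℝ) ≤ ∑ i ∈ S.image L, ((202 * 450 * 18 * 240) * (ρ : ℝ) ^ 6 *
      lam H η δ E ^ 2 * H ^ 2 * η * (g.divisors.card : ℝ) ^ 3 / g) * (2 : ℝ) ^ i := by
    refine card_le_sum S L _ fun i hi => ?_
    refine (dyadic hCf hCd h1 h2 h3 hP hg ((2 : ℝ) ^ i) (by positivity)
      (S.filter (fun x => L x = i)) (fun x hx => hS x (Finset.mem_filter.mp hx).1)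
      (fun x hx => ?_)).trans (le_of_eq (by ring))
    obtain ⟨hx1, hx2⟩ := Finset.mem_filter.mp hx
    rw [← hx2]
    exact hdy x hx1
  rw [← Finset.mul_sum] at hA
  have hB : ∑ i ∈ S.image L, (2 : ℝ) ^ i ≤ 2 * 2 ^ (L xm) := by
    refine le_trans ?_ (geo (L xm))
    refine Finset.sum_le_sum_of_subset_of_nonneg ?_ (fun i _ _ => by positivity)
    intro i hi
    obtain ⟨x, hx, rfl⟩ := Finset.mem_image.mp hi
    exact Finset.mem_range.mpr (Nat.lt_succ_of_le (hmax x hx))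
  have hC : (2 : ℝ) ^ (L xm) ≤ 2 * ρ * H / g := by
    have i0 := info hCf hP hg (hS xm hxm)
    have hga : (g : ℝ) * |(qa g xm : ℝ)| ≤ 2 * ρ * H := by exact_mod_cast i0.ga
    rw [le_div_iff₀ (by linarith)]
    have := (hdy xm hxm).1
    calc (2 : ℝ) ^ (L xm) * g ≤ |(qa g xm : ℝ)| * g := by gcongr
      _ = (g : ℝ) * |(qa g xm : ℝ)| := by ring
      _ ≤ _ := hga
  calc (S.card : ℝ) ≤ ((202 * 450 * 18 * 240) * (ρ : ℝ) ^ 6 *
      lam H η δ E ^ 2 * H ^ 2 * η * (g.divisors.card : ℝ) ^ 3 / g) *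
        ∑ i ∈ S.image L, (2 : ℝ) ^ i := hA
    _ ≤ ((202 * 450 * 18 * 240) * (ρ : ℝ) ^ 6 *
      lam H η δ E ^ 2 * H ^ 2 * η * (g.divisors.card : ℝ) ^ 3 / g) * (2 * (2 * ρ * H / g)) := by
        refine mul_le_mul_of_nonneg_left (hB.trans ?_) (by positivity)
        linarith
    _ = _ := by
        field_simp
        ring

end Pool.Agent.A54.Av
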