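import Pool.Agent.Lib.MP_a54f13_nt.Pl.Spec

/-!
# Package `Av`: the fourth moment of almost all Maass forms, definitions

Everything on the half-plane is written with complex numbers in `H0 = {im > 0}`; `dz = ∂_x - i ∂_y`,
`dzb = ∂_x + i ∂_y` (library). `n = det γ`, `V = V_γ`.
-/

set_option autoImplicit false

namespace Pool.Agent.A54.Av

open MeasureTheory Filter Topology Set
open scoped ContDiff ComplexConjugate UpperHalfPlane MatrixGroups ENNReal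
open Pool.Agent.A54.Half (H0 qq ff hh)

noncomputable section

/-- integral matrices -/
abbrev Mat : Type := Matrix (Fin 2) (Fin 2) ℤ

/-- `e(x) = exp(2 π i x)` -/
def ee (x : ℂ) : ℂ := Complex.exp (2 * (Real.pi : ℂ) * Complex.I * x)

/-- `V_γ(z, w) = |a w + b - z (c w + d)|² / (4 im z im w)` -/
def VV (γ : Mat) (z w : ℂ) : ℝ :=
  ‖((γ 0 0 : ℤ) : ℂ) * w + ((γ 0 1 : ℤ) : ℂ) -
    z * (((γ 1 0 : ℤ) : ℂ) * w + ((γ 1 1 : ℤ) : ℂ))‖ ^ 2 / (4 * z.im * w.im)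

/-- `V_γ(z) = V_γ(z, z)` -/
def Vd (γ : Mat) (z : ℂ) : ℝ := VV γ z z

/-- `a² + b² + c² + d²` -/
def msq (γ : Mat) : ℝ :=
  ((γ 0 0 : ℤ) : ℝ) ^ 2 + ((γ 0 1 : ℤ) : ℝ) ^ 2 + ((γ 1 0 : ℤ) : ℝ) ^ 2 + ((γ 1 1 : ℤ) : ℝ) ^ 2

/-- `β_γ(z) = (c |z|² - (a - d) x - b) / (2 y)` -/
def bet (γ : Mat) (z : ℂ) : ℝ :=
  (((γ 1 0 : ℤ) : ℝ) * ‖z‖ ^ 2 - (((γ 0 0 : ℤ) : ℝ) - ((γ 1 1 : ℤ) : ℝ)) * z.re -
    ((γ 0 1 : ℤ) : ℝ)) / (2 * z.im)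

/-- `γ` is not a scalar matrix -/
def NonSc (γ : Mat) : Prop := ¬(γ 0 1 = 0 ∧ γ 1 0 = 0 ∧ γ 0 0 = γ 1 1)

/-- the term of the theta series -/
def kk (γ : Mat) (τ z w : ℂ) : ℂ :=
  (τ.im : ℂ) * ee (((γ.det : ℤ) : ℂ) * τ) *
    ((Real.exp (-(4 * Real.pi * τ.im * VV γ z w)) : ℝ) : ℂ)

/-- Siegel theta series of the determinant form -/
def Th (τ z w : ℂ) : ℂ := ∑' γ : Mat, kk γ τ z w

/-- `K_{it}(X)` -/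
def KB (t X : ℝ) : ℝ := ∫ u in Ioi (0 : ℝ), Real.exp (-(X * Real.cosh u)) * Real.cos (t * u)

/-- the derivative of `K_{it}` -/
def KB1 (t X : ℝ) : ℝ :=
  -∫ u in Ioi (0 : ℝ), Real.cosh u * (Real.exp (-(X * Real.cosh u)) * Real.cos (t * u))

/-- Laguerre polynomials -/
def lag (k : ℕ) (X : ℝ) : ℝ :=
  ∑ j ∈ Finset.range (k + 1), (k.choose j : ℝ) * (-X) ^ j / (j.factorial : ℝ)

/-- `c_k(τ; n, V)` -/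
def ck (k : ℕ) (n V : ℝ) (τ : ℂ) : ℂ :=
  (τ.im : ℂ) * ee ((n : ℂ) * τ) *
    ((Real.exp (-(4 * Real.pi * τ.im * V)) * lag k (4 * Real.pi * τ.im * (n + V)) : ℝ) : ℂ)

/-- `d_k(τ; n, V)` -/
def dk (k : ℕ) (n V : ℝ) (τ : ℂ) : ℂ :=
  (τ.im : ℂ) * ee ((n : ℂ) * τ) *
    ((Real.exp (-(4 * Real.pi * τ.im * V)) * ((k + 1) *
      ((4 * Real.pi * τ.im * V - 1) * lag (k + 1) (4 * Real.pi * τ.im * (n + V)) +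
        lag k (4 * Real.pi * τ.im * (n + V)))) : ℝ) : ℂ)

/-- `m(s, y; n, V) = ∑_k d_k(i y; n, V) s^k` -/
def mm (s : ℂ) (y n V : ℝ) : ℂ :=
  (y : ℂ) * (1 - s)⁻¹ *
    Complex.exp (-(2 * (Real.pi : ℂ) * n * y * (1 + s) / (1 - s)) -
      4 * (Real.pi : ℂ) * y * V / (1 - s)) *
    (4 * (Real.pi : ℂ) * y * (2 * V + n) / (1 - s) -
      (4 * (Real.pi : ℂ) * y) ^ 2 * V * (n + V) / (1 - s) ^ 2)

/-- weight raising, `R_k = i y (∂_x - i ∂_y) + k` -/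
def RR (k : ℕ) (H : ℂ → ℂ) (z : ℂ) : ℂ := Complex.I * (z.im : ℂ) * dz H z + (k : ℂ) * H z

/-- weight lowering, `L_k = - i y (∂_x + i ∂_y) - k` -/
def LL (k : ℕ) (H : ℂ → ℂ) (z : ℂ) : ℂ := -(Complex.I * (z.im : ℂ) * dzb H z) - (k : ℂ) * H z

/-- `f_k = R_{k-1} ⋯ R_0 f` -/
def fk (f : ℍ → ℝ) : ℕ → ℂ → ℂ
  | 0 => fun z => (ext f z : ℂ)
  | k + 1 => RR k (fk f k)

/-- `μ_k = (k + 1/2)² + t²` -/
def mu (k : ℕ) (t : ℝ) : ℝ := ((k : ℝ) + 1 / 2) ^ 2 + t ^ 2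

/-- `P_k(t) = ∏_{j < k} μ_j / (k!)²` -/
def Pk (k : ℕ) (t : ℝ) : ℝ := (∏ j ∈ Finset.range k, mu j t) / ((k.factorial : ℝ)) ^ 2

/-- `C¹` functions of weight `2 k` which are bounded on `im ≥ 1/2` -/
structure Wt (k : ℕ) (H : ℂ → ℂ) : Prop where
  smooth : ContDiffOn ℝ 1 H H0
  T : ∀ τ ∈ H0, H (τ + 1) = H τ
  S : ∀ τ ∈ H0, H (-τ⁻¹) = (τ / conj τ) ^ k * H τ
  bdd : ∃ C : ℝ, ∀ τ ∈ H0, 1 / 2 ≤ τ.im → ‖H τ‖ ≤ C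

/-- test functions in the variable `z`, of mean zero -/
structure TestG (g : ℂ → ℝ) : Prop where
  cont : Continuous g
  cpt : HasCompactSupport g
  sub : tsupport g ⊆ H0
  zero : ∫ z, g z = 0

/-- `∫ g(z) ∑_γ c_k(τ; det γ, V_γ(z)) dz` -/
def Ph (k : ℕ) (g : ℂ → ℝ) (τ : ℂ) : ℂ :=
  ∑' γ : Mat, ∫ z, (g z : ℂ) * ck k ((γ.det : ℤ) : ℝ) (Vd γ z) τ

/-- `∫ g(z) ∑_γ d_k(τ; det γ, V_γ(z)) dz` -/
def Pt (k : ℕ) (g : ℂ → ℝ) (τ : ℂ) : ℂ :=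
  ∑' γ : Mat, ∫ z, (g z : ℂ) * dk k ((γ.det : ℤ) : ℝ) (Vd γ z) τ

/-- the part of determinant `n` of the generating function -/
def MM (g : ℂ → ℝ) (s : ℂ) (y : ℝ) (n : ℤ) : ℂ :=
  ∑' γ : Mat, open Classical in if γ.det = n then ∫ z, (g z : ℂ) * mm s y n (Vd γ z) else 0

/-- the same without scalar matrices -/
def MN (g : ℂ → ℝ) (s : ℂ) (y : ℝ) (n : ℤ) : ℂ :=
  ∑' γ : Mat, open Classical in
    if γ.det = n ∧ NonSc γ then ∫ z, (g z : ℂ) * mm s y n (Vd γ z) else 0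

/-- the point `q exp(i θ)` -/
def qs (q θ : ℝ) : ℂ := (q : ℂ) * Complex.exp ((θ : ℂ) * Complex.I)

/-- the geometric side -/
def GR (q : ℝ) (g : ℂ → ℝ) : ℝ≥0∞ :=
  ∫⁻ y in Ioi (√3 / 2), ∫⁻ θ in Ioc (-Real.pi) Real.pi,
    ∑' n : ℤ, ‖MM g (qs q θ) y n‖ₑ ^ 2 * ENNReal.ofReal (y ^ 2)⁻¹

/-- the geometric side without scalar matrices -/
def RN (q : ℝ) (g : ℂ → ℝ) : ℝ≥0∞ :=
  ∫⁻ y in Ioi (√3 / 2), ∫⁻ θ in Ioc (-Real.pi) Real.pi,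
    ∑' n : ℤ, ‖MN g (qs q θ) y n‖ₑ ^ 2 * ENNReal.ofReal (y ^ 2)⁻¹

/-- `q_T² = 1 - T⁻²` -/
def qT (T : ℝ) : ℝ := √(1 - (T ^ 2)⁻¹)

/-- a bump function on the unit disc -/
structure Bump (η : ℂ → ℝ) : Prop where
  smooth : ContDiff ℝ ∞ η
  sub : tsupport η ⊆ Metric.closedBall 0 1
  nonneg : ∀ z, 0 ≤ η z
  one : ∫ z, η z = 1

/-- `η_r(z - z0) = r⁻² η((z - z0) / r)` -/
def es (η : ℂ → ℝ) (r : ℝ) (z0 z : ℂ) : ℝ := (r ^ 2)⁻¹ * η ((r : ℂ)⁻¹ * (z - z0))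

/-- smooth mean value -/
def Sm' (η : ℂ → ℝ) (r : ℝ) (F : ℂ → ℝ) (z0 : ℂ) : ℝ := ∫ z, es η r z0 z * F z

/-- the coefficient `a_n(y)` -/
def an (f : ℍ → ℝ) (n : ℤ) (y : ℝ) : ℂ :=
  ∫ x in (0 : ℝ)..1, (ext f ⟨x, y⟩ : ℂ) * ee (-((n : ℂ) * x))

/-- `ρ` is the first coefficient: `a_1(y) = ρ √y K_{it}(2 π y)` -/
def IsRho (f : ℍ → ℝ) (t : ℝ) (ρ : ℂ) : Prop :=
  ρ ≠ 0 ∧ ∀ y : ℝ, 0 < y → an f 1 y = ρ * ((√y * KB t (2 * Real.pi * y) : ℝ) : ℂ)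

/-- `f(- conj z) = ε f(z)` -/
def IsPar (f : ℍ → ℝ) (ε : ℝ) : Prop :=
  (ε = 1 ∨ ε = -1) ∧ ∀ z ∈ H0, ext f (-conj z) = ε * ext f z

/-- the Hecke eigenvalue -/
def IsHk (f : ℍ → ℝ) (m : ℕ) (c : ℝ) : Prop := ∀ z : ℍ,
  ∑ d ∈ m.divisors, ∑ b ∈ Finset.range d, ext f ((((m / d : ℕ) : ℂ) * z + b) / d) = c * f z

/-- a finite orthogonal family of forms with parity and first coefficient -/
structure Fam (ι : Type) (F : ι → ℍ → ℝ) (t : ι → ℝ) (ρ : ι → ℂ) : Prop where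
  form : ∀ i, IsHeckeMaass (F i) (t i)
  rho : ∀ i, IsRho (F i) (t i) (ρ i)
  par : ∀ i, ∃ ε : ℝ, IsPar (F i) ε
  orth : ∀ i j, i ≠ j → ∫ z in ModularGroup.fdo, F i z * F j z = 0

/-- the weight `w_f = cosh(π t) / |ρ|²` -/
def wf (t : ℝ) (ρ : ℂ) : ℝ := Real.cosh (Real.pi * t) / ‖ρ‖ ^ 2

end

end Pool.Agent.A54.Av
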