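import Pool.Agent.Lib.MP_a54f13_nt.Av.SpecA

/-!
# Module `Der`: the raised forms `f_k` are bounded
-/

set_option autoImplicit false

namespace Pool.Agent.A54.Av.DerM

open MeasureTheory Filter Topology Set
open scoped ContDiff ComplexConjugate UpperHalfPlane MatrixGroups ENNReal
open Pool.Agent.A54.Half (H0)

noncomputable section

/-- `C(z, w) = cosh d(z, w)` -/
def CC (z w : ℂ) : ℝ := 1 + ‖z - w‖ ^ 2 / (2 * z.im * w.im)

/-- the common factor -/
def av (z w : ℂ) : ℂ := (((w.im)⁻¹ : ℝ) : ℂ) * (((2 * z.im)⁻¹ : ℝ) : ℂ)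

/-- `u = C - 1` as a complex number -/
def uu (z w : ℂ) : ℂ := (z - w) * (conj z - conj w) * av z w

/-- `B = R_0 C` -/
def BB (z w : ℂ) : ℂ := -((conj z - conj w) * (z - conj w) * av z w)

/-- the kernels -/
def Kr (X : ℝ) (k : ℕ) (z w : ℂ) : ℂ :=
  (-(X : ℂ) * BB z w) ^ k * Complex.exp (-((X : ℂ) * (1 + uu z w)))

lemma uu_eq (z w : ℂ) : 1 + uu z w = (CC z w : ℂ) := by
  unfold uu av CC
  have h : (z - w) * (conj z - conj w) = ((‖z - w‖ ^ 2 : ℝ) : ℂ) := by
    rw [← map_sub, Complex.mul_conj, Complex.normSq_eq_norm_sq]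
  rw [h]
  push_cast
  rw [div_eq_mul_inv, mul_inv, mul_inv]
  ring

/-- linear maps -/
def cjL : ℂ →L[ℝ] ℂ := (Complex.conjCLE : ℂ →L[ℝ] ℂ)
def imL : ℂ →L[ℝ] ℂ := Complex.ofRealCLM.comp Complex.imCLM

lemma cjL_apply (v : ℂ) : cjL v = conj v := rfl
lemma imL_apply (v : ℂ) : imL v = (v.im : ℂ) := rfl

lemma has_av (z w : ℂ) (hw : w ∈ H0) :
    HasFDerivAt (av z) (-(av z w * (((w.im)⁻¹ : ℝ) : ℂ)) • imL) w := by
  have hw' : w.im ≠ 0 := ne_of_gt hw
  have h1 : HasFDerivAt (fun w : ℂ => w.im) Complex.imCLM w := Complex.imCLM.hasFDerivAt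
  have h2 : HasFDerivAt (fun w : ℂ => (w.im)⁻¹) ((-(w.im ^ 2)⁻¹) • Complex.imCLM) w :=
    (hasDerivAt_inv hw').comp_hasFDerivAt w h1
  have h3 : HasFDerivAt (fun w : ℂ => (((w.im)⁻¹ : ℝ) : ℂ))
      (Complex.ofRealCLM.comp ((-(w.im ^ 2)⁻¹) • Complex.imCLM)) w :=
    Complex.ofRealCLM.hasFDerivAt.comp w h2
  have h4 := h3.mul_const (((2 * z.im)⁻¹ : ℝ) : ℂ)
  refine (h4.congr_fderiv (ContinuousLinearMap.ext fun v => ?_))
  simp only [av, smul_apply, ContinuousLinearMap.comp_apply, Complex.ofRealCLM_apply,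
    Complex.imCLM_apply, imL_apply, smul_eq_mul, neg_mul]
  push_cast
  ring

/-- the coefficients of the derivative -/
def c1 (X : ℝ) (k : ℕ) (z w : ℂ) : ℂ :=
  Kr X k z w * ((X : ℂ) * ((conj z - conj w) * av z w))

def c2 (X : ℝ) (k : ℕ) (z w : ℂ) : ℂ :=
  (k : ℂ) * (Kr X (k - 1) z w * (-(X : ℂ) * (((z - conj w) + (conj z - conj w)) * av z w))) +
    Kr X k z w * ((X : ℂ) * ((z - w) * av z w))

def c3 (X : ℝ) (k : ℕ) (z w : ℂ) : ℂ :=
  (((w.im)⁻¹ : ℝ) : ℂ) * (-(k : ℂ) * Kr X k z w + Kr X k z w * ((X : ℂ) * uu z w))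

/-- the derivative -/
def DD (X : ℝ) (k : ℕ) (z w : ℂ) : ℂ →L[ℝ] ℂ :=
  c1 X k z w • ContinuousLinearMap.id ℝ ℂ + c2 X k z w • cjL + c3 X k z w • imL

lemma has_Kr (X : ℝ) (k : ℕ) (z w : ℂ) (hw : w ∈ H0) :
    HasFDerivAt (Kr X k z) (DD X k z w) w := by
  have hp : HasFDerivAt (fun w : ℂ => z - w) (-(ContinuousLinearMap.id ℝ ℂ)) w :=
    (hasFDerivAt_id w).const_sub z
  have hq : HasFDerivAt (fun w : ℂ => conj z - conj w) (-cjL) w :=
    cjL.hasFDerivAt.const_sub (conj z)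
  have hs : HasFDerivAt (fun w : ℂ => z - conj w) (-cjL) w :=
    cjL.hasFDerivAt.const_sub z
  have ha := has_av z w hw
  have hu := (hp.mul hq).mul ha
  have hB := ((hq.mul hs).mul ha).neg
  have hBp := (hB.const_mul (-(X : ℂ))).pow k
  have he1 := ((hu.const_add 1).const_mul (X : ℂ)).neg
  have he2 := ((Complex.hasDerivAt_exp (-((X : ℂ) * (1 + uu z w)))).hasFDerivAt.restrictScalars
    ℝ).comp w he1
  have hK := hBp.mul he2
  refine (hK.congr_fderiv (ContinuousLinearMap.ext fun v => ?_))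
  simp only [DD, smul_apply, add_apply, neg_apply, ContinuousLinearMap.comp_apply, smul_eq_mul,
    cjL_apply, imL_apply, ContinuousLinearMap.id_apply, Pi.mul_apply, Pi.neg_apply,
    ContinuousLinearMap.coe_restrictScalars', ContinuousLinearMap.toSpanSingleton_apply,
    nsmul_eq_mul, Function.comp, c1, c2, c3, Kr, BB, uu]
  rcases k with _ | n
  · simp only [pow_zero, Nat.cast_zero]
    ring
  · simp only [Nat.add_sub_cancel, pow_succ]
    ring


/-- raising the kernel -/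
lemma RR_Kr (X : ℝ) (k : ℕ) (z w : ℂ) (hw : w ∈ H0) :
    Complex.I * (w.im : ℂ) * (DD X k z w 1 - Complex.I * DD X k z w Complex.I) +
      (k : ℂ) * Kr X k z w = Kr X (k + 1) z w := by
  have hw' : (w.im : ℂ) ≠ 0 := by exact_mod_cast ne_of_gt (show 0 < w.im from hw)
  have e1 : DD X k z w 1 - Complex.I * DD X k z w Complex.I =
      2 * c1 X k z w - Complex.I * c3 X k z w := by
    simp only [DD, smul_apply, add_apply, smul_eq_mul, cjL_apply, imL_apply,
      ContinuousLinearMap.id_apply, map_one, Complex.conj_I, Complex.one_im, Complex.I_im,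
      Complex.ofReal_zero, Complex.ofReal_one]
    linear_combination (-(c1 X k z w) + c2 X k z w) * Complex.I_mul_I
  have e2 : (w.im : ℂ) * c3 X k z w = -(k : ℂ) * Kr X k z w + Kr X k z w * ((X : ℂ) * uu z w) := by
    unfold c3
    rw [← mul_assoc, Complex.ofReal_inv, mul_inv_cancel₀ hw', one_mul]
  have e3 : 2 * Complex.I * (w.im : ℂ) = w - conj w := by
    rw [Complex.sub_conj]; push_cast; ring
  have e4 : Kr X (k + 1) z w = Kr X k z w * (-(X : ℂ) * BB z w) := by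
    unfold Kr; rw [pow_succ]; ring
  rw [e1, e4]
  have e5 : Complex.I * (w.im : ℂ) * (2 * c1 X k z w - Complex.I * c3 X k z w) =
      2 * Complex.I * (w.im : ℂ) * c1 X k z w + (w.im : ℂ) * c3 X k z w := by
    linear_combination (-((w.im : ℂ) * c3 X k z w)) * Complex.I_mul_I
  rw [e5, e2, e3]
  unfold c1 uu BB
  ring

/-! ### bounds -/

lemma one_le_CC {z w : ℂ} (hz : z ∈ H0) (hw : w ∈ H0) : 1 ≤ CC z w := by
  have hz' : 0 < z.im := hz
  have hw' : 0 < w.im := hw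
  unfold CC
  have : 0 ≤ ‖z - w‖ ^ 2 / (2 * z.im * w.im) := by positivity
  linarith

lemma nsq (z w : ℂ) : ‖z - w‖ ^ 2 = (z.re - w.re) ^ 2 + (z.im - w.im) ^ 2 := by
  rw [← Complex.normSq_eq_norm_sq, Complex.normSq_apply, Complex.sub_re, Complex.sub_im]; ring

lemma msq' (z w : ℂ) : ‖z - conj w‖ ^ 2 = (z.re - w.re) ^ 2 + (z.im + w.im) ^ 2 := by
  rw [← Complex.normSq_eq_norm_sq, Complex.normSq_apply, Complex.sub_re, Complex.sub_im,
    Complex.conj_re, Complex.conj_im]; ring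

lemma CC_eq {z w : ℂ} (hz : z ∈ H0) (hw : w ∈ H0) :
    CC z w * (2 * z.im * w.im) = (z.re - w.re) ^ 2 + z.im ^ 2 + w.im ^ 2 := by
  have hz' : 0 < z.im := hz
  have hw' : 0 < w.im := hw
  unfold CC
  rw [nsq, add_mul, div_mul_cancel₀ _ (by positivity)]
  ring

lemma CC_ge {z w : ℂ} (hz : z ∈ H0) (hw : w ∈ H0) : w.im ≤ 2 * z.im * CC z w := by
  have hz' : 0 < z.im := hz
  have hw' : 0 < w.im := hw
  have h := CC_eq hz hw
  have h1 : w.im * w.im ≤ 2 * z.im * CC z w * w.im := by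
    nlinarith [sq_nonneg (z.re - w.re), sq_nonneg z.im]
  exact le_of_mul_le_mul_right h1 hw'

lemma norm_av {z w : ℂ} (hz : z ∈ H0) (hw : w ∈ H0) : ‖av z w‖ = (2 * z.im * w.im)⁻¹ := by
  have hz' : 0 < z.im := hz
  have hw' : 0 < w.im := hw
  unfold av
  rw [norm_mul, Complex.norm_real, Complex.norm_real, Real.norm_eq_abs, Real.norm_eq_abs,
    abs_of_pos (by positivity), abs_of_pos (by positivity), ← mul_inv]
  congr 1; ring

lemma sq_bd {n c w2 z2 A : ℝ} (_hn : 0 ≤ n) (hz : 0 < z2) (hw : 0 < w2) (hc : 1 ≤ c)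
    (h1 : w2 ≤ 2 * z2 * c) (h2 : n ^ 2 ≤ A ^ 2 * (2 * z2 * w2 * c)) (hA : 0 ≤ A) :
    n * (2 * z2 * w2)⁻¹ ≤ A * (c / w2) := by
  have h3 : n ^ 2 ≤ (A * (c * (2 * z2))) ^ 2 := by
    have : A ^ 2 * (2 * z2 * w2 * c) ≤ A ^ 2 * (2 * z2 * (2 * z2 * c) * c) := by gcongr
    calc n ^ 2 ≤ _ := h2
      _ ≤ _ := this
      _ = _ := by ring
  have h4 : n ≤ A * (c * (2 * z2)) := abs_le_of_sq_le_sq' h3 (by positivity) |>.2
  calc n * (2 * z2 * w2)⁻¹ ≤ A * (c * (2 * z2)) * (2 * z2 * w2)⁻¹ := by gcongr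
    _ = A * (c / w2) := by field_simp

lemma bd_p {z w : ℂ} (hz : z ∈ H0) (hw : w ∈ H0) : ‖(z - w) * av z w‖ ≤ 2 * (CC z w / w.im) := by
  have hz' : 0 < z.im := hz
  have hw' : 0 < w.im := hw
  rw [norm_mul, norm_av hz hw]
  have h := CC_eq hz hw
  refine sq_bd (norm_nonneg _) hz' hw' (one_le_CC hz hw) (CC_ge hz hw) ?_ (by norm_num)
  rw [nsq]
  nlinarith [sq_nonneg (z.re - w.re), sq_nonneg z.im, mul_pos hz' hw']

lemma bd_q {z w : ℂ} (hz : z ∈ H0) (hw : w ∈ H0) :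
    ‖(conj z - conj w) * av z w‖ ≤ 2 * (CC z w / w.im) := by
  have e : ‖(conj z - conj w) * av z w‖ = ‖(z - w) * av z w‖ := by
    rw [norm_mul, norm_mul, ← map_sub, RCLike.norm_conj]
  rw [e]; exact bd_p hz hw

lemma bd_s {z w : ℂ} (hz : z ∈ H0) (hw : w ∈ H0) :
    ‖(z - conj w) * av z w‖ ≤ 2 * (CC z w / w.im) := by
  have hz' : 0 < z.im := hz
  have hw' : 0 < w.im := hw
  rw [norm_mul, norm_av hz hw]
  have h := CC_eq hz hw
  refine sq_bd (norm_nonneg _) hz' hw' (one_le_CC hz hw) (CC_ge hz hw) ?_ (by norm_num)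
  rw [msq']
  nlinarith [sq_nonneg (z.re - w.re), sq_nonneg (z.im - w.im), mul_pos hz' hw']

lemma bd_B {z w : ℂ} (hz : z ∈ H0) (hw : w ∈ H0) : ‖BB z w‖ ≤ CC z w := by
  have hz' : 0 < z.im := hz
  have hw' : 0 < w.im := hw
  have hC := one_le_CC hz hw
  have h := CC_eq hz hw
  have e : ‖conj z - conj w‖ = ‖z - w‖ := by rw [← map_sub, RCLike.norm_conj]
  unfold BB
  rw [norm_neg, norm_mul, norm_mul, norm_av hz hw, e]
  have hpos : 0 < 2 * z.im * w.im := by positivity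
  rw [← div_eq_mul_inv, div_le_iff₀ hpos, h]
  refine abs_le_of_sq_le_sq' ?_ (by positivity) |>.2
  rw [mul_pow, nsq, msq']
  nlinarith [sq_nonneg (z.re - w.re), sq_nonneg (z.im * w.im)]

lemma bd_u {z w : ℂ} (hz : z ∈ H0) (hw : w ∈ H0) : ‖uu z w‖ ≤ CC z w := by
  have h1 : uu z w = ((CC z w - 1 : ℝ) : ℂ) := by
    have := uu_eq z w
    push_cast
    rw [← this]; ring
  rw [h1, Complex.norm_real, Real.norm_eq_abs, abs_of_nonneg (by linarith [one_le_CC hz hw])]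
  linarith

lemma norm_exp' (X : ℝ) (z w : ℂ) :
    ‖Complex.exp (-((X : ℂ) * (1 + uu z w)))‖ = Real.exp (-(X * CC z w)) := by
  rw [uu_eq, ← Complex.ofReal_mul, ← Complex.ofReal_neg, ← Complex.ofReal_exp, Complex.norm_real,
    Real.norm_eq_abs, abs_of_pos (Real.exp_pos _)]

lemma bd_K {X : ℝ} (hX : 0 < X) (k : ℕ) {z w : ℂ} (hz : z ∈ H0) (hw : w ∈ H0) :
    ‖Kr X k z w‖ ≤ X ^ k * CC z w ^ k * Real.exp (-(X * CC z w)) := by
  unfold Kr
  rw [norm_mul, norm_exp', norm_pow, norm_mul, norm_neg, Complex.norm_real, Real.norm_eq_abs,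
    abs_of_pos hX, mul_pow]
  have := bd_B hz hw
  have h0 := norm_nonneg (BB z w)
  gcongr

lemma bd_D {X : ℝ} (hX : 0 < X) (k : ℕ) {z w : ℂ} (hz : z ∈ H0) (hw : w ∈ H0) :
    ‖DD X k z w‖ ≤ 5 * X ^ k * (X + k) * (CC z w ^ (k + 1) * Real.exp (-(X * CC z w)) / w.im) := by
  have hz' : 0 < z.im := hz
  have hw' : 0 < w.im := hw
  have hC := one_le_CC hz hw
  set c := CC z w with hc
  set E := Real.exp (-(X * c)) with hE
  have hE0 : 0 < E := Real.exp_pos _
  have hK := bd_K hX k hz hw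
  rw [← hc, ← hE] at hK
  have hp := bd_p hz hw
  have hq := bd_q hz hw
  have hs := bd_s hz hw
  have hu := bd_u hz hw
  rw [← hc] at hp hq hs hu
  have nX : ‖(X : ℂ)‖ = X := by rw [Complex.norm_real, Real.norm_eq_abs, abs_of_pos hX]
  have h1 : ‖c1 X k z w‖ ≤ 2 * (X ^ (k + 1) * (c ^ (k + 1) * E / w.im)) := by
    unfold c1
    rw [norm_mul, norm_mul, nX]
    calc ‖Kr X k z w‖ * (X * ‖(conj z - conj w) * av z w‖)
        ≤ (X ^ k * c ^ k * E) * (X * (2 * (c / w.im))) := by gcongr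
      _ = _ := by ring
  have h2 : ‖c2 X k z w‖ ≤ 4 * (k * (X ^ k * (c ^ (k + 1) * E / w.im))) +
      2 * (X ^ (k + 1) * (c ^ (k + 1) * E / w.im)) := by
    unfold c2
    refine (norm_add_le _ _).trans (add_le_add ?_ ?_)
    · rcases k with _ | n
      · simp
      · rw [norm_mul, norm_mul, norm_mul, norm_neg, nX, Complex.norm_natCast, Nat.add_sub_cancel]
        have hK' := bd_K hX n hz hw
        rw [← hc, ← hE] at hK'
        have hss : ‖(z - conj w + (conj z - conj w)) * av z w‖ ≤ 4 * (c / w.im) := by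
          rw [add_mul]
          refine (norm_add_le _ _).trans ?_
          linarith
        have hcc : c ^ n * c ≤ c ^ (n + 1 + 1) := by
          rw [← pow_succ]
          exact pow_le_pow_right₀ hC (by omega)
        calc ((n + 1 : ℕ) : ℝ) * (‖Kr X n z w‖ * (X * ‖(z - conj w + (conj z - conj w)) * av z w‖))
            ≤ ((n + 1 : ℕ) : ℝ) * ((X ^ n * c ^ n * E) * (X * (4 * (c / w.im)))) := by gcongr
          _ = 4 * (((n + 1 : ℕ) : ℝ) * (X ^ (n + 1) * ((c ^ n * c) * E / w.im))) := by ring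
          _ ≤ _ := by gcongr
    · rw [norm_mul, norm_mul, nX]
      calc ‖Kr X k z w‖ * (X * ‖(z - w) * av z w‖)
          ≤ (X ^ k * c ^ k * E) * (X * (2 * (c / w.im))) := by gcongr
        _ = _ := by ring
  have h3 : ‖c3 X k z w‖ ≤ k * (X ^ k * (c ^ (k + 1) * E / w.im)) +
      X ^ (k + 1) * (c ^ (k + 1) * E / w.im) := by
    unfold c3
    rw [norm_mul, Complex.norm_real, Real.norm_eq_abs, abs_of_pos (by positivity)]
    have hcc : c ^ k ≤ c ^ (k + 1) := pow_le_pow_right₀ hC (by omega)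
    have e1 : ‖-(k : ℂ) * Kr X k z w + Kr X k z w * ((X : ℂ) * uu z w)‖ ≤
        k * (X ^ k * c ^ (k + 1) * E) + X ^ k * c ^ k * E * (X * c) := by
      refine (norm_add_le _ _).trans (add_le_add ?_ ?_)
      · rw [norm_mul, norm_neg, Complex.norm_natCast]
        have : X ^ k * c ^ k * E ≤ X ^ k * c ^ (k + 1) * E := by gcongr
        have h5 := hK.trans this
        gcongr
      · rw [norm_mul, norm_mul, nX]
        gcongr
    calc (w.im)⁻¹ * ‖-(k : ℂ) * Kr X k z w + Kr X k z w * ((X : ℂ) * uu z w)‖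
        ≤ (w.im)⁻¹ * (k * (X ^ k * c ^ (k + 1) * E) + X ^ k * c ^ k * E * (X * c)) := by gcongr
      _ = _ := by ring
  have n1 : ‖ContinuousLinearMap.id ℝ ℂ‖ ≤ 1 := ContinuousLinearMap.norm_id_le
  have n2 : ‖cjL‖ ≤ 1 := Complex.conjCLE_norm.le
  have n3 : ‖imL‖ ≤ 1 := by
    unfold imL
    refine (ContinuousLinearMap.opNorm_comp_le _ _).trans ?_
    rw [Complex.ofRealCLM_norm, Complex.imCLM_norm, one_mul]
  have hD : ‖DD X k z w‖ ≤ ‖c1 X k z w‖ * 1 + ‖c2 X k z w‖ * 1 + ‖c3 X k z w‖ * 1 := by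
    unfold DD
    refine (norm_add_le _ _).trans (add_le_add ((norm_add_le _ _).trans (add_le_add ?_ ?_)) ?_)
    · rw [norm_smul]; gcongr
    · rw [norm_smul]; gcongr
    · rw [norm_smul]; gcongr
  have e : 5 * X ^ k * (X + k) * (c ^ (k + 1) * E / w.im) =
      5 * (X ^ (k + 1) * (c ^ (k + 1) * E / w.im)) + 5 * (k * (X ^ k * (c ^ (k + 1) * E / w.im))) := by
    ring
  rw [e]
  linarith

lemma CC_ball {z w w0 : ℂ} (hz : z ∈ H0) (hw0 : w0 ∈ H0) (hw : w ∈ Metric.ball w0 (w0.im / 2)) :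
    w ∈ H0 ∧ w0.im ≤ 2 * w.im ∧ CC z w0 ≤ 4 * CC z w := by
  have hz' : 0 < z.im := hz
  have hw0' : 0 < w0.im := hw0
  have hd : ‖w - w0‖ < w0.im / 2 := by rwa [← dist_eq_norm]
  have him : |w.im - w0.im| < w0.im / 2 := by
    have := Complex.abs_im_le_norm (w - w0)
    rw [Complex.sub_im] at this
    linarith
  obtain ⟨h1, h2⟩ := abs_lt.mp him
  have hwH : w ∈ H0 := show 0 < w.im by linarith
  have hw' : 0 < w.im := hwH
  refine ⟨hwH, by linarith, ?_⟩
  have e0 := CC_eq hz hw0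
  have e1 := CC_eq hz hwH
  have hpos : 0 < 2 * z.im * w0.im := by positivity
  refine le_of_mul_le_mul_right ?_ hpos
  rw [e0]
  have hsq : (w.re - w0.re) ^ 2 + (w.im - w0.im) ^ 2 ≤ (w0.im / 2) ^ 2 := by
    have := nsq w w0
    have h3 : ‖w - w0‖ ^ 2 ≤ (w0.im / 2) ^ 2 := by gcongr
    linarith
  have hA : 4 * CC z w * (2 * z.im * w0.im) * w.im =
      4 * w0.im * ((z.re - w.re) ^ 2 + z.im ^ 2 + w.im ^ 2) := by
    rw [← e1]; ring
  refine le_of_mul_le_mul_right ?_ hw'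
  rw [hA]
  -- `x² = (z - w0)² ≤ 2 (z - w)² + 2 (w - w0)²`
  have h4 : (z.re - w0.re) ^ 2 ≤ 2 * (z.re - w.re) ^ 2 + 2 * (w.re - w0.re) ^ 2 := by
    nlinarith [sq_nonneg ((z.re - w.re) - (w.re - w0.re))]
  have h5 : (z.re - w0.re) ^ 2 + z.im ^ 2 + w0.im ^ 2 ≤
      2 * (z.re - w.re) ^ 2 + z.im ^ 2 + w0.im ^ 2 * (3 / 2) := by
    nlinarith [sq_nonneg (w.im - w0.im)]
  have h6 : w.im ≤ 3 / 2 * w0.im := by linarith
  have h7 : w0.im ≤ 2 * w.im := by linarith
  calc ((z.re - w0.re) ^ 2 + z.im ^ 2 + w0.im ^ 2) * w.im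
      ≤ (2 * (z.re - w.re) ^ 2 + z.im ^ 2 + w0.im ^ 2 * (3 / 2)) * w.im := by gcongr
    _ = 2 * (z.re - w.re) ^ 2 * w.im + z.im ^ 2 * w.im + 3 / 2 * w0.im * (w0.im * w.im) := by ring
    _ ≤ 2 * (z.re - w.re) ^ 2 * (3 / 2 * w0.im) + z.im ^ 2 * (3 / 2 * w0.im) +
        3 / 2 * w0.im * ((2 * w.im) * w.im) := by gcongr
    _ ≤ 4 * w0.im * ((z.re - w.re) ^ 2 + z.im ^ 2 + w.im ^ 2) := by
      nlinarith [mul_nonneg hw0'.le (sq_nonneg (z.re - w.re)), mul_nonneg hw0'.le (sq_nonneg z.im),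
        mul_nonneg hw0'.le (sq_nonneg w.im)]

/-- powers against exponentials -/
lemma pow_exp {X : ℝ} (hX : 0 < X) (n : ℕ) : ∃ M : ℝ, 0 ≤ M ∧ ∀ t : ℝ, 0 ≤ t →
    t ^ n * Real.exp (-(X * t)) ≤ M * Real.exp (-(X / 2 * t)) := by
  refine ⟨(2 / X) ^ n * n.factorial, by positivity, fun t ht => ?_⟩
  have h1 := Real.pow_div_factorial_le_exp (X / 2 * t) (by positivity) n
  rw [div_le_iff₀ (by positivity)] at h1
  have h2 : t ^ n = (2 / X) ^ n * (X / 2 * t) ^ n := by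
    rw [← mul_pow]; congr 1; field_simp
  have h3 : Real.exp (-(X / 2 * t)) = Real.exp (X / 2 * t) * Real.exp (-(X * t)) := by
    rw [← Real.exp_add]; congr 1; ring
  rw [h2, h3]
  calc (2 / X) ^ n * (X / 2 * t) ^ n * Real.exp (-(X * t))
      ≤ (2 / X) ^ n * (Real.exp (X / 2 * t) * n.factorial) * Real.exp (-(X * t)) := by gcongr
    _ = _ := by ring

/-! ### the integrals -/

lemma cont_av (w : ℂ) : Continuous fun z : ℍ => av (z : ℂ) w := by
  unfold av
  refine continuous_const.mul (Complex.continuous_ofReal.comp ?_)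
  refine Continuous.inv₀ (continuous_const.mul UpperHalfPlane.continuous_im) fun z => ?_
  have := z.im_pos
  positivity

lemma cont_cj : Continuous fun z : ℍ => conj (z : ℂ) :=
  Complex.continuous_conj.comp UpperHalfPlane.continuous_coe

lemma cont_uu (w : ℂ) : Continuous fun z : ℍ => uu (z : ℂ) w := by
  unfold uu
  exact ((UpperHalfPlane.continuous_coe.sub continuous_const).mul
    (cont_cj.sub continuous_const)).mul (cont_av w)

lemma cont_BB (w : ℂ) : Continuous fun z : ℍ => BB (z : ℂ) w := by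
  unfold BB
  exact (((cont_cj.sub continuous_const).mul
    (UpperHalfPlane.continuous_coe.sub continuous_const)).mul (cont_av w)).neg

lemma cont_Kr (X : ℝ) (k : ℕ) (w : ℂ) : Continuous fun z : ℍ => Kr X k (z : ℂ) w := by
  unfold Kr
  exact ((continuous_const.mul (cont_BB w)).pow k).mul
    (Complex.continuous_exp.comp (continuous_const.mul (continuous_const.add (cont_uu w))).neg)

lemma cont_c1 (X : ℝ) (k : ℕ) (w : ℂ) : Continuous fun z : ℍ => c1 X k (z : ℂ) w := by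
  unfold c1
  exact (cont_Kr X k w).mul (continuous_const.mul ((cont_cj.sub continuous_const).mul (cont_av w)))

lemma cont_c2 (X : ℝ) (k : ℕ) (w : ℂ) : Continuous fun z : ℍ => c2 X k (z : ℂ) w := by
  unfold c2
  exact (continuous_const.mul ((cont_Kr X (k - 1) w).mul (continuous_const.mul
    (((UpperHalfPlane.continuous_coe.sub continuous_const).add
      (cont_cj.sub continuous_const)).mul (cont_av w))))).add
    ((cont_Kr X k w).mul (continuous_const.mul
      ((UpperHalfPlane.continuous_coe.sub continuous_const).mul (cont_av w))))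

lemma cont_c3 (X : ℝ) (k : ℕ) (w : ℂ) : Continuous fun z : ℍ => c3 X k (z : ℂ) w := by
  unfold c3
  exact continuous_const.mul ((continuous_const.mul (cont_Kr X k w)).add
    ((cont_Kr X k w).mul (continuous_const.mul (cont_uu w))))

lemma cont_DD (X : ℝ) (k : ℕ) (w : ℂ) : Continuous fun z : ℍ => DD X k (z : ℂ) w := by
  unfold DD
  exact (((cont_c1 X k w).smul continuous_const).add ((cont_c2 X k w).smul continuous_const)).add
    ((cont_c3 X k w).smul continuous_const)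

lemma CC_cosh (z w : ℍ) : CC (z : ℂ) (w : ℂ) = Real.cosh (dist z w) := by
  rw [UpperHalfPlane.cosh_dist, dist_eq_norm]
  rfl

/-- the integrability hypothesis -/
def Hint : Prop := ∀ X : ℝ, 0 < X → ∀ w : ℍ,
  Integrable fun z : ℍ => Real.exp (-(X * Real.cosh (dist z w)))

lemma int_CC (h : Hint) {X : ℝ} (hX : 0 < X) {w : ℂ} (hw : w ∈ H0) :
    Integrable fun z : ℍ => Real.exp (-(X * CC (z : ℂ) w)) := by
  have h1 := h X hX ⟨w, hw⟩
  refine h1.congr (Eventually.of_forall fun z => ?_)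
  simp only
  rw [← CC_cosh]

/-- the functions `∫ f Kr` -/
def GG (f : ℍ → ℝ) (X : ℝ) (k : ℕ) (w : ℂ) : ℂ := ∫ z : ℍ, (f z : ℂ) * Kr X k (z : ℂ) w

lemma int_GG (h : Hint) {f : ℍ → ℝ} (hf : Continuous f) {C : ℝ} (hC : ∀ z, |f z| ≤ C) {X : ℝ}
    (hX : 0 < X) (k : ℕ) {w : ℂ} (hw : w ∈ H0) :
    Integrable fun z : ℍ => (f z : ℂ) * Kr X k (z : ℂ) w := by
  obtain ⟨M, hM0, hM⟩ := pow_exp hX k
  have hi := (int_CC h (half_pos hX) hw).const_mul (C * (X ^ k * M))
  refine hi.mono' ((Complex.continuous_ofReal.comp hf).mul (cont_Kr X k w)).aestronglyMeasurable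
    (Eventually.of_forall fun z => ?_)
  have hz : (z : ℂ) ∈ H0 := z.im_pos
  rw [norm_mul, Complex.norm_real, Real.norm_eq_abs]
  have h1 := bd_K hX k hz hw
  have h2 := hM (CC z w) (by linarith [one_le_CC hz hw])
  have hC0 : 0 ≤ C := (abs_nonneg _).trans (hC z)
  calc |f z| * ‖Kr X k z w‖ ≤ C * (X ^ k * (CC z w ^ k * Real.exp (-(X * CC z w)))) := by
        refine mul_le_mul (hC z) (h1.trans (le_of_eq (by ring))) (norm_nonneg _) hC0
    _ ≤ C * (X ^ k * (M * Real.exp (-(X / 2 * CC z w)))) := by gcongr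
    _ = _ := by ring

lemma has_GG (h : Hint) {f : ℍ → ℝ} (hf : Continuous f) {C : ℝ} (hC : ∀ z, |f z| ≤ C) {X : ℝ}
    (hX : 0 < X) (k : ℕ) {w0 : ℂ} (hw0 : w0 ∈ H0) :
    (Integrable fun z : ℍ => (f z : ℂ) • DD X k (z : ℂ) w0) ∧
    HasFDerivAt (GG f X k) (∫ z : ℍ, (f z : ℂ) • DD X k (z : ℂ) w0) w0 := by
  have hw0' : 0 < w0.im := hw0
  obtain ⟨M, hM0, hM⟩ := pow_exp hX (k + 1)
  have hX8 : 0 < X / 8 := by positivity
  set K : ℝ := C * (5 * X ^ k * (X + k) * (M * (2 / w0.im))) with hK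
  have hb : ∀ z : ℍ, ∀ w ∈ Metric.ball w0 (w0.im / 2), ‖(f z : ℂ) • DD X k (z : ℂ) w‖ ≤
      K * Real.exp (-(X / 8 * CC (z : ℂ) w0)) := by
    intro z w hw
    have hz : (z : ℂ) ∈ H0 := z.im_pos
    obtain ⟨hwH, hwi, hcc⟩ := CC_ball hz hw0 hw
    have hw' : 0 < w.im := hwH
    have hC0 : 0 ≤ C := (abs_nonneg _).trans (hC z)
    rw [norm_smul, Complex.norm_real, Real.norm_eq_abs]
    have h1 := bd_D hX k hz hwH
    have h2 := hM (CC z w) (by linarith [one_le_CC hz hwH])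
    have h3 : Real.exp (-(X / 2 * CC z w)) ≤ Real.exp (-(X / 8 * CC z w0)) := by
      apply Real.exp_le_exp.mpr
      have : X / 8 * CC z w0 ≤ X / 8 * (4 * CC z w) := by gcongr
      linarith
    have h4 : CC (z : ℂ) w ^ (k + 1) * Real.exp (-(X * CC z w)) / w.im ≤
        M * Real.exp (-(X / 8 * CC z w0)) * (2 / w0.im) := by
      have h5 : CC (z : ℂ) w ^ (k + 1) * Real.exp (-(X * CC z w)) ≤
          M * Real.exp (-(X / 8 * CC z w0)) := h2.trans (by gcongr)
      have h6 : 1 / w.im ≤ 2 / w0.im := by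
        rw [div_le_div_iff₀ hw' hw0']; linarith
      rw [div_eq_mul_one_div]
      have h7 : 0 ≤ CC (z : ℂ) w ^ (k + 1) * Real.exp (-(X * CC z w)) := by
        have := one_le_CC hz hwH
        positivity
      exact mul_le_mul h5 h6 (by positivity) (h7.trans h5)
    calc |f z| * ‖DD X k z w‖ ≤ C * (5 * X ^ k * (X + k) *
          (M * Real.exp (-(X / 8 * CC z w0)) * (2 / w0.im))) := by
          refine mul_le_mul (hC z) (h1.trans ?_) (norm_nonneg _) hC0
          gcongr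
      _ = _ := by rw [hK]; ring
  have hbi : Integrable fun z : ℍ => K * Real.exp (-(X / 8 * CC (z : ℂ) w0)) :=
    (int_CC h hX8 hw0).const_mul K
  have hmeas : AEStronglyMeasurable (fun z : ℍ => (f z : ℂ) • DD X k (z : ℂ) w0) volume :=
    ((Complex.continuous_ofReal.comp hf).smul (cont_DD X k w0)).aestronglyMeasurable
  refine ⟨hbi.mono' hmeas (Eventually.of_forall fun z => hb z w0
    (Metric.mem_ball_self (by positivity))), ?_⟩
  refine hasFDerivAt_integral_of_dominated_of_fderiv_le (𝕜 := ℝ)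
    (F := fun w (z : ℍ) => (f z : ℂ) * Kr X k (z : ℂ) w)
    (F' := fun w (z : ℍ) => (f z : ℂ) • DD X k (z : ℂ) w)
    (bound := fun z : ℍ => K * Real.exp (-(X / 8 * CC (z : ℂ) w0)))
    (Metric.ball_mem_nhds w0 (by positivity : 0 < w0.im / 2)) ?_ (int_GG h hf hC hX k hw0)
    hmeas (Eventually.of_forall hb) hbi ?_
  · exact Eventually.of_forall fun w =>
      ((Complex.continuous_ofReal.comp hf).mul (cont_Kr X k w)).aestronglyMeasurable
  · refine Eventually.of_forall fun z w hw => ?_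
    have hz : (z : ℂ) ∈ H0 := z.im_pos
    exact (has_Kr X k z w (CC_ball hz hw0 hw).1).const_mul (f z : ℂ)

lemma RR_GG (h : Hint) {f : ℍ → ℝ} (hf : Continuous f) {C : ℝ} (hC : ∀ z, |f z| ≤ C) {X : ℝ}
    (hX : 0 < X) (k : ℕ) {w : ℂ} (hw : w ∈ H0) : RR k (GG f X k) w = GG f X (k + 1) w := by
  obtain ⟨hi, hd⟩ := has_GG h hf hC hX k hw
  have h1 := ContinuousLinearMap.integral_apply hi 1
  have h2 := ContinuousLinearMap.integral_apply hi Complex.I
  have i1 : Integrable fun z : ℍ => ((f z : ℂ) • DD X k (z : ℂ) w) 1 :=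
    (ContinuousLinearMap.apply ℝ ℂ (1 : ℂ)).integrable_comp hi
  have i2 : Integrable fun z : ℍ => ((f z : ℂ) • DD X k (z : ℂ) w) Complex.I :=
    (ContinuousLinearMap.apply ℝ ℂ Complex.I).integrable_comp hi
  have i3 := int_GG h hf hC hX k hw
  unfold RR dz
  rw [hd.fderiv, h1, h2]
  unfold GG
  have i4 : Integrable fun z : ℍ => Complex.I * (w.im : ℂ) *
      (((f z : ℂ) • DD X k (z : ℂ) w) 1 - Complex.I * ((f z : ℂ) • DD X k (z : ℂ) w) Complex.I) :=
    (i1.sub (i2.const_mul _)).const_mul _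
  rw [← integral_const_mul, ← integral_sub i1 (i2.const_mul _), ← integral_const_mul,
    ← integral_const_mul, ← integral_add i4 (i3.const_mul _)]
  refine integral_congr_ae (Eventually.of_forall fun z => ?_)
  simp only [smul_apply, smul_eq_mul]
  rw [← RR_Kr X k z w hw]
  ring

lemma fk_eq (h : Hint) {f : ℍ → ℝ} (hf : Continuous f) {C : ℝ} (hC : ∀ z, |f z| ≤ C) {X : ℝ}
    (hX : 0 < X) (κ : ℂ) (h0 : ∀ w ∈ H0, fk f 0 w = κ * GG f X 0 w) (k : ℕ) :
    ∀ w ∈ H0, fk f k w = κ * GG f X k w := by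
  induction k with
  | zero => exact h0
  | succ k ih =>
    intro w hw
    have hev : fk f k =ᶠ[𝓝 w] fun w => κ * GG f X k w :=
      eventually_of_mem (Half.isOpen_H0.mem_nhds hw) ih
    have hd := (has_GG h hf hC hX k hw).2
    have e1 : fderiv ℝ (fk f k) w = κ • fderiv ℝ (GG f X k) w := by
      rw [hev.fderiv_eq, (hd.const_mul κ).fderiv, hd.fderiv]
    rw [← RR_GG h hf hC hX k hw]
    show RR k (fk f k) w = _
    unfold RR dz
    rw [e1, ih w hw]
    simp only [smul_apply, smul_eq_mul]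
    ring

/-- integrals of functions of the distance do not depend on the centre -/
lemma int_dist (φ : ℝ → ℝ) (w : ℍ) : ∫ z : ℍ, φ (dist z w) = ∫ z : ℍ, φ (dist z UpperHalfPlane.I) := by
  set g : GL (Fin 2) ℝ := (w.toSL2R : GL (Fin 2) ℝ) with hg
  have h1 := integral_smul_eq_self (μ := (volume : Measure ℍ)) (fun z : ℍ => φ (dist z w)) (g := g)
  rw [← h1]
  refine integral_congr_ae (Eventually.of_forall fun z => ?_)
  have h2 : g • z = w.toSL2R • z := rfl
  have h3 : w.toSL2R • UpperHalfPlane.I = w := UpperHalfPlane.toSL2R_smul_I w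
  have h4 : dist (w.toSL2R • z) w = dist z UpperHalfPlane.I := by
    rw [← dist_smul w.toSL2R z UpperHalfPlane.I, h3]
  simp only
  rw [h2, h4]

/-- the bound -/
lemma bd_GG (h : Hint) {f : ℍ → ℝ} {C : ℝ} (hC : ∀ z, |f z| ≤ C) {X : ℝ}
    (hX : 0 < X) (k : ℕ) : ∃ K : ℝ, ∀ w ∈ H0, ‖GG f X k w‖ ≤ K := by
  obtain ⟨M, hM0, hM⟩ := pow_exp hX k
  refine ⟨C * (X ^ k * M) * ∫ z : ℍ, Real.exp (-(X / 2 * Real.cosh (dist z UpperHalfPlane.I))),
    fun w hw => ?_⟩
  have h1 : ∫ z : ℍ, Real.exp (-(X / 2 * CC (z : ℂ) w)) =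
      ∫ z : ℍ, Real.exp (-(X / 2 * Real.cosh (dist z UpperHalfPlane.I))) := by
    rw [← int_dist (fun x => Real.exp (-(X / 2 * Real.cosh x))) ⟨w, hw⟩]
    refine integral_congr_ae (Eventually.of_forall fun z => ?_)
    simp only
    rw [← CC_cosh]
  rw [← h1, ← integral_const_mul]
  unfold GG
  refine norm_integral_le_of_norm_le ((int_CC h (half_pos hX) hw).const_mul _)
    (Eventually.of_forall fun z => ?_)
  have hz : (z : ℂ) ∈ H0 := z.im_pos
  rw [norm_mul, Complex.norm_real, Real.norm_eq_abs]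
  have h1 := bd_K hX k hz hw
  have h2 := hM (CC z w) (by linarith [one_le_CC hz hw])
  have hC0 : 0 ≤ C := (abs_nonneg _).trans (hC z)
  calc |f z| * ‖Kr X k z w‖ ≤ C * (X ^ k * (CC z w ^ k * Real.exp (-(X * CC z w)))) := by
        refine mul_le_mul (hC z) (h1.trans (le_of_eq (by ring))) (norm_nonneg _) hC0
    _ ≤ C * (X ^ k * (M * Real.exp (-(X / 2 * CC z w)))) := by gcongr
    _ = _ := by ring

end

end Pool.Agent.A54.Av.DerM

namespace Pool.Agent.A54.Av

open MeasureTheory Filter Topology Set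
open scoped ContDiff ComplexConjugate UpperHalfPlane MatrixGroups ENNReal
open Pool.Agent.A54.Half (H0)
open DerM

theorem stmtDer (hDec : StmtDec) (hKBf : StmtKBf) (hSel : StmtSel) : StmtDer := by
  intro f t hf k
  obtain ⟨C, -, -, -, hC⟩ := hDec f t hf
  have hfc : Continuous f := by
    have h1 : Continuous fun z : ℍ => ext f (z : ℂ) :=
      hf.smooth.continuousOn.comp_continuous UpperHalfPlane.continuous_coe fun z => z.im_pos
    have h2 : (fun z : ℍ => ext f (z : ℂ)) = f := funext fun z => Half.ext_coe f z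
    rwa [h2] at h1
  have hS := hSel f t hf.smooth ⟨C, hC⟩ hf.eigen
  have hint : Hint := fun X hX w => (hS X hX w).1
  -- choice of `X`
  obtain ⟨X, hX, hKB⟩ : ∃ X : ℝ, 0 < X ∧ KB t X ≠ 0 := by
    have h1 := (hKBf t).2.2.2.2
    have hpos : 0 < √(Real.pi / 2) := Real.sqrt_pos.mpr (by positivity)
    have h2 := h1.eventually (lt_mem_nhds hpos)
    obtain ⟨X, h3, h4⟩ := (h2.and (eventually_gt_atTop 0)).exists
    refine ⟨X, h4, fun e => ?_⟩
    rw [e, mul_zero] at h3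
    exact lt_irrefl _ h3
  set κ : ℝ := (2 * √(2 * Real.pi) * KB t X / √X)⁻¹ with hκ
  have hne : 2 * √(2 * Real.pi) * KB t X / √X ≠ 0 := by
    have h1 : 0 < √(2 * Real.pi) := Real.sqrt_pos.mpr (by positivity)
    have h2 : 0 < √X := Real.sqrt_pos.mpr hX
    exact div_ne_zero (mul_ne_zero (by positivity) hKB) h2.ne'
  have h0 : ∀ w ∈ H0, fk f 0 w = (κ : ℂ) * GG f X 0 w := by
    intro w hw
    have hw' : 0 < w.im := hw
    have h1 := (hS X hX ⟨w, hw'⟩).2
    have h2 : GG f X 0 w = ((∫ z : ℍ, f z * Real.exp (-(X * Real.cosh (dist z ⟨w, hw'⟩))) : ℝ) : ℂ) := by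
      unfold GG
      rw [← integral_complex_ofReal]
      refine integral_congr_ae (Eventually.of_forall fun z => ?_)
      simp only [Kr, pow_zero, one_mul]
      rw [uu_eq, ← CC_cosh]
      push_cast
      rfl
    rw [h2, h1]
    show ((ext f w : ℝ) : ℂ) = _
    have h3 : f ⟨w, hw'⟩ = ext f w := (Half.ext_coe f ⟨w, hw'⟩).symm
    rw [h3, ← Complex.ofReal_mul, hκ, ← mul_assoc, inv_mul_cancel₀ hne, one_mul]
  obtain ⟨K, hK⟩ := bd_GG hint hC hX k
  refine ⟨|κ| * K, fun w hw => ?_⟩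
  rw [fk_eq hint hfc hC hX (κ : ℂ) h0 k w hw, norm_mul, Complex.norm_real, Real.norm_eq_abs]
  exact mul_le_mul_of_nonneg_left (hK w hw) (abs_nonneg _)

end Pool.Agent.A54.Av
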