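import Pool.Agent.Lib.MP_a54f13_nt.Av.Fin3
import Pool.Agent.Lib.MP_a54f13_nt.Av.Dens

/-!
One exceptional set of density zero for all test functions.
-/

set_option autoImplicit false

namespace Pool.Agent.A54.Av

open MeasureTheory Filter Topology Set
open scoped ContDiff ComplexConjugate UpperHalfPlane MatrixGroups ENNReal
open Pool.Agent.A54.Half (H0 qq ff hh)

noncomputable section

namespace FamM

/-- the truncated fundamental domain -/
abbrev KY (Y : ℕ) : Set ℍ := ModularGroup.truncatedFundamentalDomain (Y : ℝ)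

/-- test functions which vanish above height `Y` -/
def TY (Y : ℕ) (ψ : ℍ → ℝ) : Prop :=
  TestX ψ ∧ ∀ z ∈ ModularGroup.fd, (Y : ℝ) < z.im → ψ z = 0

lemma testX_zero : TestX (fun _ : ℍ => (0 : ℝ)) where
  smooth := by
    have : ext (fun _ : ℍ => (0 : ℝ)) = fun _ => 0 := rfl
    rw [this]
    exact contDiffOn_const
  invariant := fun _ _ => rfl
  cusp := ⟨0, fun _ _ _ => rfl⟩

/-- countable dense families in sup norm -/
lemma dense (Y : ℕ) : ∃ D : ℕ → ℍ → ℝ, (∀ j, TY Y (D j)) ∧ ∀ ψ, TY Y ψ → ∀ δ : ℝ, 0 < δ →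
    ∃ j, ∀ z ∈ ModularGroup.fd, |ψ z - D j z| ≤ δ := by
  classical
  have : CompactSpace (KY Y) :=
    isCompact_iff_compactSpace.mp (ModularGroup.isCompact_truncatedFundamentalDomain Y)
  -- restrictions
  let R : {ψ : ℍ → ℝ // TY Y ψ} → C(KY Y, ℝ) := fun ψ =>
    ⟨fun z => ψ.1 z, (X.continuous_of_ext ψ.2.1.smooth).comp continuous_subtype_val⟩
  obtain ⟨s, hs, hsd⟩ := TopologicalSpace.exists_countable_dense (Set.range R)
  have hne : Nonempty s := by
    have : Nonempty (Set.range R) :=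
      ⟨⟨R ⟨fun _ => 0, testX_zero, fun _ _ _ => rfl⟩, Set.mem_range_self _⟩⟩
    exact hsd.nonempty.to_subtype
  have : Countable s := hs.to_subtype
  obtain ⟨φ, hφ⟩ := exists_surjective_nat s
  choose g hg using fun a : Set.range R => a.2
  refine ⟨fun j => (g (φ j).1).1, fun j => (g (φ j).1).2, fun ψ hψ δ hδ => ?_⟩
  obtain ⟨a, has, had⟩ := hsd.exists_dist_lt ⟨R ⟨ψ, hψ⟩, Set.mem_range_self _⟩ hδ
  obtain ⟨j, hj⟩ := hφ ⟨a, has⟩
  refine ⟨j, fun z hz => ?_⟩
  show |ψ z - (g (φ j).1).1 z| ≤ δ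
  have hga : R (g (φ j).1) = a.1 := by rw [hg, hj]
  by_cases hY : (Y : ℝ) < z.im
  · rw [hψ.2 z hz hY, (g (φ j).1).2.2 z hz hY]
    simp [hδ.le]
  · have hzK : z ∈ KY Y := ⟨hz, not_lt.mp hY⟩
    have h1 : dist (R ⟨ψ, hψ⟩) a.1 < δ := had
    have h2 := (ContinuousMap.dist_apply_le_dist (f := R ⟨ψ, hψ⟩) (g := a.1) ⟨z, hzK⟩)
    rw [← hga] at h2 h1
    have h3 : dist (R ⟨ψ, hψ⟩ ⟨z, hzK⟩) (R (g (φ j).1) ⟨z, hzK⟩) =
        |ψ z - (g (φ j).1).1 z| := Real.dist_eq _ _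
    rw [h3] at h2
    linarith

/-- the countable family of test functions -/
lemma family : ∃ Ψ : ℕ → ℍ → ℝ, (∀ j, TestX (Ψ j)) ∧
    (∀ Y : ℕ, ∃ j, ∀ (f : ℍ → ℝ) (t : ℝ), IsHeckeMaass f t →
      ∫ z in KY Y, f z ^ 4 ≤ ∫ z in ModularGroup.fdo, Ψ j z * f z ^ 4) ∧
    ∀ ψ, TestX ψ → ∃ Y : ℕ, TY Y ψ ∧ ∀ δ : ℝ, 0 < δ → ∃ j, TY Y (Ψ j) ∧
      ∀ z ∈ ModularGroup.fd, |ψ z - Ψ j z| ≤ δ := by
  choose D hD hDd using dense
  choose c hc hcc using fun Y : ℕ =>
    Fin3M.control (KY Y) (ModularGroup.isCompact_truncatedFundamentalDomain Y)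
  -- index type
  obtain ⟨φ, hφ⟩ := exists_surjective_nat ((ℕ × ℕ) ⊕ ℕ)
  let G : (ℕ × ℕ) ⊕ ℕ → ℍ → ℝ := fun x => Sum.elim (fun p => D p.1 p.2) c x
  refine ⟨fun j => G (φ j), fun j => ?_, fun Y => ?_, fun ψ hψ => ?_⟩
  · rcases h : φ j with p | Y
    · simp only [G, h, Sum.elim_inl]
      exact (hD p.1 p.2).1
    · simp only [G, h, Sum.elim_inr]
      exact hc Y
  · obtain ⟨j, hj⟩ := hφ (Sum.inr Y)
    refine ⟨j, ?_⟩
    simp only [G, hj, Sum.elim_inr]
    exact hcc Y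
  · obtain ⟨Y0, hY0⟩ := hψ.cusp
    obtain ⟨Y, hY⟩ := exists_nat_ge Y0
    have hT : TY Y ψ := ⟨hψ, fun z hz h => hY0 z hz (hY.trans_lt h)⟩
    refine ⟨Y, hT, fun δ hδ => ?_⟩
    obtain ⟨k, hk⟩ := hDd Y ψ hT δ hδ
    obtain ⟨j, hj⟩ := hφ (Sum.inl (Y, k))
    refine ⟨j, ?_⟩
    simp only [G, hj, Sum.elim_inl]
    exact ⟨hD Y k, hk⟩

/-- the spectral parameter is determined by the form -/
lemma unique {f : ℍ → ℝ} {t t' : ℝ} (h : IsHeckeMaass f t) (h' : IsHeckeMaass f t') : t = t' := by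
  obtain ⟨z, hz⟩ : ∃ z, f z ≠ 0 := by
    by_contra hno
    push Not at hno
    have h1 := h.normalised
    simp only [hno] at h1
    have := Real.pi_pos
    simp at h1
    linarith
  have h1 := h.eigen z
  rw [h'.eigen z] at h1
  have h2 := mul_right_cancel₀ hz h1
  have h3 : t' ^ 2 = t ^ 2 := by linarith
  exact ((pow_left_inj₀ h'.pos.le h.pos.le two_ne_zero).mp h3).symm

end FamM

/-- the first four moments along every sequence outside a set of density zero -/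
theorem stmtDens (h2 : StmtMain2) : ∃ E : Set (ℍ → ℝ),
    (∀ T : ℝ, {f | f ∈ E ∧ ∃ t : ℝ, t ≤ T ∧ IsHeckeMaass f t}.Finite) ∧
    Tendsto (fun T : ℝ => ({f | f ∈ E ∧ ∃ t : ℝ, t ≤ T ∧ IsHeckeMaass f t}.ncard : ℝ) / T ^ 2)
      atTop (𝓝 0) ∧
    ∀ (f : ℕ → ℍ → ℝ) (t : ℕ → ℝ), (∀ i, IsHeckeMaass (f i) (t i)) → (∀ i, f i ∉ E) →
      Tendsto t atTop atTop → ∀ ψ : ℍ → ℝ, TestX ψ → ∀ n : ℕ, 1 ≤ n → n ≤ 4 →
        Tendsto (fun i => ∫ z in ModularGroup.fdo, ψ z * f i z ^ n) atTop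
          (𝓝 (1 / √(2 * Real.pi) * (∫ x : ℝ, x ^ n * Real.exp (-x ^ 2 / 2)) *
            ∫ z in ModularGroup.fdo, ψ z)) := by
  classical
  obtain ⟨Ψ, hΨ, hctl, happ⟩ := FamM.family
  obtain ⟨E, hE1, hE2, hE3⟩ := exists_density (F := ℍ → ℝ) (fun f t => IsHeckeMaass f t)
    (fun f t t' h h' => FamM.unique h h')
    (fun j ε f => ∃ n : ℕ, 1 ≤ n ∧ n ≤ 4 ∧ ε < |(∫ z in ModularGroup.fdo, Ψ j z * f z ^ n) -
          1 / √(2 * Real.pi) * (∫ x : ℝ, x ^ n * Real.exp (-x ^ 2 / 2)) *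
            ∫ z in ModularGroup.fdo, Ψ j z|)
    (fun j ε ε' f hle ⟨n, h1, h2, h3⟩ => ⟨n, h1, h2, hle.trans_lt h3⟩)
    (fun j ε hε => stmtFin3 h2 (Ψ j) (hΨ j) ε hε)
  refine ⟨E, hE1, hE2, fun f t hf hfE ht ψ hψ n hn1 hn4 => ?_⟩
  -- convergence for the family
  set C : ℝ := 1 / √(2 * Real.pi) * (∫ x : ℝ, x ^ n * Real.exp (-x ^ 2 / 2)) with hC
  have hfam : ∀ j m, 1 ≤ m → m ≤ 4 → ∀ ε : ℝ, 0 < ε → ∀ᶠ i in atTop,
      |(∫ z in ModularGroup.fdo, Ψ j z * f i z ^ m) -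
          1 / √(2 * Real.pi) * (∫ x : ℝ, x ^ m * Real.exp (-x ^ 2 / 2)) *
            ∫ z in ModularGroup.fdo, Ψ j z| ≤ ε := by
    intro j m hm1 hm4 ε hε
    filter_upwards [hE3 f t hf hfE ht j ε hε] with i hi
    by_contra hlt
    exact hi ⟨m, hm1, hm4, not_le.mp hlt⟩
  obtain ⟨Y, hTY, hδ⟩ := happ ψ hψ
  -- the bound for the fourth moments
  obtain ⟨jc, hjc⟩ := hctl Y
  set K : Set ℍ := FamM.KY Y with hK
  have hKc : IsCompact K := ModularGroup.isCompact_truncatedFundamentalDomain Y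
  have hKm : MeasurableSet K := hKc.measurableSet
  set V : ℝ := (volume : Measure ℍ).real K with hV
  have hV0 : 0 ≤ V := measureReal_nonneg
  set B : ℝ := |1 / √(2 * Real.pi) * (∫ x : ℝ, x ^ 4 * Real.exp (-x ^ 2 / 2)) *
      ∫ z in ModularGroup.fdo, Ψ jc z| + 1 with hB
  have hB0 : 0 < B := by positivity
  have hBev : ∀ᶠ i in atTop, ∫ z in K, f i z ^ 4 ≤ B := by
    filter_upwards [hfam jc 4 (by norm_num) le_rfl 1 one_pos] with i hi
    have h3 := hjc (f i) (t i) (hf i)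
    have h4 := (abs_le.mp hi).2
    have h5 := le_abs_self (1 / √(2 * Real.pi) * (∫ x : ℝ, x ^ 4 * Real.exp (-x ^ 2 / 2)) *
      ∫ z in ModularGroup.fdo, Ψ jc z)
    linarith
  have hfc : ∀ i, Continuous (f i) := fun i => X.continuous_of_ext (hf i).smooth
  -- comparison of test functions
  have hcomp : ∀ (g : ℍ → ℝ), Continuous g → ∀ δ : ℝ, 0 ≤ δ → ∀ j, FamM.TY Y (Ψ j) →
      (∀ z ∈ ModularGroup.fd, |ψ z - Ψ j z| ≤ δ) →
      |(∫ z in ModularGroup.fdo, ψ z * g z) - ∫ z in ModularGroup.fdo, Ψ j z * g z| ≤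
        δ * ∫ z in K, |g z| := by
    intro g hg δ hδ0 j hj hjδ
    have hψc : Continuous ψ := X.continuous_of_ext hψ.smooth
    have hjc' : Continuous (Ψ j) := X.continuous_of_ext hj.1.smooth
    have i1 : IntegrableOn (fun z => ψ z * g z) ModularGroup.fdo :=
      X.integrableOn_fdo (Y := Y) (hψc.mul hg) (fun z hz h => by
        rw [hTY.2 z (ModularGroup.fdo_subset_fd hz) h, zero_mul])
    have i2 : IntegrableOn (fun z => Ψ j z * g z) ModularGroup.fdo :=
      X.integrableOn_fdo (Y := Y) (hjc'.mul hg) (fun z hz h => by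
        rw [hj.2 z (ModularGroup.fdo_subset_fd hz) h, zero_mul])
    rw [← integral_sub i1 i2, ← integral_const_mul]
    refine (abs_integral_le_integral_abs).trans ?_
    rw [← integral_indicator X.measurableSet_fdo, ← integral_indicator hKm]
    apply integral_mono_of_nonneg
    · refine Eventually.of_forall fun z => ?_
      exact indicator_nonneg (fun z _ => abs_nonneg _) z
    · rw [integrable_indicator_iff hKm]
      exact (continuous_const.mul hg.abs).continuousOn.integrableOn_compact hKc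
    · refine Eventually.of_forall fun z => ?_
      by_cases hz : z ∈ ModularGroup.fdo
      · have hzfd := ModularGroup.fdo_subset_fd hz
        rw [indicator_of_mem hz]
        by_cases h : (Y : ℝ) < z.im
        · rw [hTY.2 z hzfd h, hj.2 z hzfd h, zero_mul, sub_zero, abs_zero]
          exact indicator_nonneg (fun z _ => mul_nonneg hδ0 (abs_nonneg _)) z
        · rw [indicator_of_mem (show z ∈ K from ⟨hzfd, not_lt.mp h⟩), ← sub_mul, abs_mul]
          exact mul_le_mul_of_nonneg_right (hjδ z hzfd) (abs_nonneg _)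
      · rw [indicator_of_notMem hz]
        exact indicator_nonneg (fun z _ => mul_nonneg hδ0 (abs_nonneg _)) z
  rw [Metric.tendsto_nhds]
  intro ε hε
  set δ : ℝ := ε / (4 * (V + B + |C| * V + 1)) with hδdef
  have hden : 0 < 4 * (V + B + |C| * V + 1) := by positivity
  have hδ0 : 0 < δ := by positivity
  obtain ⟨j, hj, hjδ⟩ := hδ δ hδ0
  filter_upwards [hBev, hfam j n hn1 hn4 (ε / 4) (by positivity)] with i hi1 hi2
  rw [Real.dist_eq]
  -- first comparison
  have hpow : ∀ z, |f i z ^ n| ≤ 1 + f i z ^ 4 := by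
    intro z
    rw [abs_pow]
    have h4 : f i z ^ 4 = |f i z| ^ 4 := by
      rw [← abs_pow, abs_of_nonneg (Even.pow_nonneg ⟨2, rfl⟩ _)]
    rw [h4]
    rcases le_total (|f i z|) 1 with h | h
    · have := pow_le_one₀ (n := n) (abs_nonneg (f i z)) h
      have h0 : 0 ≤ |f i z| ^ 4 := by positivity
      linarith
    · have := pow_le_pow_right₀ h hn4
      linarith
  have hI1 : ∫ z in K, |f i z ^ n| ≤ V + B := by
    calc ∫ z in K, |f i z ^ n| ≤ ∫ z in K, (1 + f i z ^ 4) := by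
          apply setIntegral_mono_on
          · exact ((hfc i).pow n).abs.continuousOn.integrableOn_compact hKc
          · exact (continuous_const.add ((hfc i).pow 4)).continuousOn.integrableOn_compact hKc
          · exact hKm
          · exact fun z _ => hpow z
      _ = V + ∫ z in K, f i z ^ 4 := by
          have a1 : Integrable (fun _ : ℍ => (1 : ℝ)) (volume.restrict K) :=
            continuous_const.continuousOn.integrableOn_compact hKc
          have a2 : Integrable (fun z : ℍ => f i z ^ 4) (volume.restrict K) :=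
            ((hfc i).pow 4).continuousOn.integrableOn_compact hKc
          rw [integral_add a1 a2]
          congr 1
          rw [setIntegral_const, smul_eq_mul, mul_one]
      _ ≤ V + B := by linarith
  have c1 := hcomp (fun z => f i z ^ n) ((hfc i).pow n) δ hδ0.le j hj hjδ
  have c2 := hcomp (fun _ => 1) continuous_const δ hδ0.le j hj hjδ
  simp only [mul_one, abs_one] at c2
  rw [setIntegral_const, smul_eq_mul, mul_one] at c2
  have c1' : |(∫ z in ModularGroup.fdo, ψ z * f i z ^ n) -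
      ∫ z in ModularGroup.fdo, Ψ j z * f i z ^ n| ≤ δ * (V + B) :=
    c1.trans (mul_le_mul_of_nonneg_left hI1 hδ0.le)
  have c3 : |C * (∫ z in ModularGroup.fdo, Ψ j z) - C * ∫ z in ModularGroup.fdo, ψ z| ≤
      |C| * (δ * V) := by
    rw [← mul_sub, abs_mul, abs_sub_comm]
    exact mul_le_mul_of_nonneg_left c2 (abs_nonneg _)
  have hsum : δ * (V + B) + |C| * (δ * V) ≤ ε / 4 := by
    have e1 : δ * (V + B) + |C| * (δ * V) = δ * (V + B + |C| * V) := by ring
    have e2 : δ * (V + B + |C| * V) ≤ δ * (V + B + |C| * V + 1) :=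
      mul_le_mul_of_nonneg_left (by linarith) hδ0.le
    have e3 : δ * (V + B + |C| * V + 1) = ε / 4 := by
      rw [hδdef]
      field_simp
    linarith
  have htri : |(∫ z in ModularGroup.fdo, ψ z * f i z ^ n) - C * ∫ z in ModularGroup.fdo, ψ z| ≤
      |(∫ z in ModularGroup.fdo, ψ z * f i z ^ n) - ∫ z in ModularGroup.fdo, Ψ j z * f i z ^ n| +
      |(∫ z in ModularGroup.fdo, Ψ j z * f i z ^ n) - C * ∫ z in ModularGroup.fdo, Ψ j z| +
      |C * (∫ z in ModularGroup.fdo, Ψ j z) - C * ∫ z in ModularGroup.fdo, ψ z| := by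
    have := abs_add_three
      ((∫ z in ModularGroup.fdo, ψ z * f i z ^ n) - ∫ z in ModularGroup.fdo, Ψ j z * f i z ^ n)
      ((∫ z in ModularGroup.fdo, Ψ j z * f i z ^ n) - C * ∫ z in ModularGroup.fdo, Ψ j z)
      (C * (∫ z in ModularGroup.fdo, Ψ j z) - C * ∫ z in ModularGroup.fdo, ψ z)
    refine le_trans (le_of_eq ?_) this
    congr 1
    ring
  linarith

end

end Pool.Agent.A54.Av
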