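import Pool.Agent.Lib.MP_a54f13_nt.Av.SpecF

/-!
# Package `Av`, module `Fin`: conclusion, choice of sequences
-/

set_option autoImplicit false

namespace Pool.Agent.A54.Av

open MeasureTheory Filter Topology Set
open scoped ContDiff ComplexConjugate UpperHalfPlane MatrixGroups ENNReal
open Pool.Agent.A54.Half (H0 qq ff hh)

noncomputable section

namespace FinM

open Classical in
/-- one form from each pair `f, -f` -/
lemma select (S : Finset (ℍ → ℝ)) (h : ∀ f ∈ S, f ≠ -f) :
    ∃ S' ⊆ S, (∀ f ∈ S', ∀ g ∈ S', g ≠ -f) ∧ S.card ≤ 2 * S'.card := by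
  suffices H : ∃ S' ⊆ S, (∀ f ∈ S', ∀ g ∈ S', g ≠ -f) ∧ S ⊆ S' ∪ S'.image (fun f => -f) by
    obtain ⟨S', h1, h2, h3⟩ := H
    refine ⟨S', h1, h2, ?_⟩
    calc S.card ≤ (S' ∪ S'.image (fun f => -f)).card := Finset.card_le_card h3
      _ ≤ S'.card + (S'.image (fun f => -f)).card := Finset.card_union_le _ _
      _ ≤ S'.card + S'.card := Nat.add_le_add_left Finset.card_image_le _
      _ = 2 * S'.card := by ring
  induction S using Finset.induction_on with
  | empty => exact ⟨∅, subset_rfl, by simp, by simp⟩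
  | insert f S hf ih =>
    obtain ⟨S', h1, h2, h3⟩ := ih fun g hg => h g (Finset.mem_insert_of_mem hg)
    by_cases hfS : f ∈ S' ∪ S'.image (fun f => -f)
    · refine ⟨S', h1.trans (Finset.subset_insert _ _), h2, ?_⟩
      intro g hg
      rcases Finset.mem_insert.1 hg with rfl | hg
      · exact hfS
      · exact h3 hg
    · rw [Finset.mem_union, not_or] at hfS
      obtain ⟨hf1, hf2⟩ := hfS
      refine ⟨insert f S', Finset.insert_subset_insert _ h1, ?_, ?_⟩
      · intro a ha b hb hab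
        rcases Finset.mem_insert.1 ha with ha | ha
        · rcases Finset.mem_insert.1 hb with hb | hb
          · rw [ha, hb] at hab
            exact h f (Finset.mem_insert_self _ _) hab
          · apply hf2
            rw [Finset.mem_image]
            exact ⟨b, hb, by rw [hab, neg_neg, ha]⟩
        · rcases Finset.mem_insert.1 hb with hb | hb
          · apply hf2
            rw [Finset.mem_image]
            exact ⟨a, ha, by rw [← hab, hb]⟩
          · exact h2 a ha b hb hab
      · intro g hg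
        rcases Finset.mem_insert.1 hg with rfl | hg
        · exact Finset.mem_union_left _ (Finset.mem_insert_self _ _)
        · rcases Finset.mem_union.1 (h3 hg) with h4 | h4
          · exact Finset.mem_union_left _ (Finset.mem_insert_of_mem h4)
          · exact Finset.mem_union_right _
              (Finset.image_subset_image (Finset.subset_insert _ _) h4)

lemma exists_bump : ∃ η : ℂ → ℝ, Bump η := by
  let B : ContDiffBump (0 : ℂ) := ⟨1 / 2, 1, by norm_num, by norm_num⟩
  refine ⟨B.normed volume, B.contDiff_normed, ?_, fun z => B.nonneg_normed z,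
    B.integral_normed⟩
  rw [B.tsupport_normed_eq]

lemma bump_zero {η : ℂ → ℝ} (hη : Bump η) {z : ℂ} (hz : 1 < ‖z‖) : η z = 0 := by
  by_contra h
  have h1 : z ∈ tsupport η := subset_tsupport _ h
  have h2 := hη.sub h1
  rw [mem_closedBall_zero_iff] at h2
  linarith

/-- moves a point up to `im z ≥ c` -/
def up (c : ℝ) (z : ℂ) : ℂ := ⟨z.re, max z.im c⟩

lemma up_cont (c : ℝ) : Continuous (up c) := by
  have : up c = fun z => ((z.re : ℂ) + ((max z.im c : ℝ) : ℂ) * Complex.I) := by
    funext z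
    apply Complex.ext <;> simp [up]
  rw [this]
  fun_prop

lemma up_eq {c : ℝ} {z : ℂ} (h : c ≤ z.im) : up c z = z := by
  apply Complex.ext
  · rfl
  · exact max_eq_left h

lemma Sm_eq {η : ℂ → ℝ} (hη : Bump η) {F : ℂ → ℝ} {c r : ℝ} (hr : 0 < r) (hrc : r ≤ c) {z0 : ℂ}
    (hz : 2 * c ≤ z0.im) :
    Sm' η r F z0 = ∫ u in Metric.closedBall (0 : ℂ) r,
      (r ^ 2)⁻¹ * η ((r : ℂ)⁻¹ * u) * F (up c (z0 + u)) := by
  unfold Sm'
  rw [← integral_add_left_eq_self (μ := (volume : Measure ℂ)) (fun z => es η r z0 z * F z) z0]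
  symm
  rw [← integral_indicator Metric.isClosed_closedBall.measurableSet]
  congr 1
  funext u
  by_cases hu : u ∈ Metric.closedBall (0 : ℂ) r
  · rw [Set.indicator_of_mem hu]
    unfold es
    rw [add_sub_cancel_left]
    rw [mem_closedBall_zero_iff] at hu
    have h1 : |u.im| ≤ r := (Complex.abs_im_le_norm u).trans hu
    rw [abs_le] at h1
    rw [up_eq]
    rw [Complex.add_im]
    linarith [h1.1]
  · rw [Set.indicator_of_notMem hu]
    unfold es
    rw [add_sub_cancel_left]
    rw [mem_closedBall_zero_iff, not_le] at hu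
    rw [bump_zero hη]
    · simp
    · rw [norm_mul, norm_inv, Complex.norm_real, Real.norm_eq_abs, abs_of_pos hr]
      rw [inv_mul_eq_div, lt_div_iff₀ hr]
      linarith

lemma Sm_cont {η : ℂ → ℝ} (hη : Bump η) {F : ℂ → ℝ} (hF : ContinuousOn F H0) {c r : ℝ}
    (hr : 0 < r) (hrc : r ≤ c) : ContinuousOn (Sm' η r F) {z : ℂ | 2 * c ≤ z.im} := by
  have hc : 0 < c := hr.trans_le hrc
  have h1 : Continuous fun z => F (up c z) := by
    apply hF.comp_continuous (up_cont c)
    intro z
    change 0 < max z.im c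
    exact lt_max_of_lt_right hc
  have h2 : Continuous fun z0 : ℂ => ∫ u in Metric.closedBall (0 : ℂ) r,
      (r ^ 2)⁻¹ * η ((r : ℂ)⁻¹ * u) * F (up c (z0 + u)) := by
    apply continuous_parametric_integral_of_continuous
    · have h3 : Continuous η := hη.smooth.continuous
      have h4 : Continuous fun p : ℂ × ℂ => F (up c (p.1 + p.2)) :=
        h1.comp (continuous_fst.add continuous_snd)
      have h5 : Continuous fun p : ℂ × ℂ => η ((r : ℂ)⁻¹ * p.2) :=
        h3.comp (continuous_const.mul continuous_snd)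
      exact (continuous_const.mul h5).mul h4
    · exact isCompact_closedBall _ _
  apply h2.continuousOn.congr
  intro z hz
  exact Sm_eq hη hr hrc hz

/-- monotonicity of the double mean square -/
lemma dmono {S : ℂ → ℝ} {K K' : Set ℂ} (hK : MeasurableSet K) (hK' : IsCompact K') (h : K ⊆ K')
    (hS : ContinuousOn S K') :
    ∫ z in K, ∫ z' in K, (S z - S z') ^ 2 ≤ ∫ z in K', ∫ z' in K', (S z - S z') ^ 2 := by
  have hI : IntegrableOn S K' := hS.integrableOn_compact hK'
  have hI2 : IntegrableOn (fun z => S z ^ 2) K' := (hS.pow 2).integrableOn_compact hK'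
  have hfin : volume K' < ⊤ := hK'.measure_lt_top
  have key : ∀ L : Set ℂ, L ⊆ K' → ∀ z, ∫ z' in L, (S z - S z') ^ 2 =
      S z ^ 2 * volume.real L - 2 * S z * (∫ z' in L, S z') + ∫ z' in L, S z' ^ 2 := by
    intro L hL z
    have h1 : IntegrableOn S L := hI.mono_set hL
    have h2 : IntegrableOn (fun z => S z ^ 2) L := hI2.mono_set hL
    have h3 : IntegrableOn (fun _ : ℂ => S z ^ 2) L :=
      integrableOn_const ((measure_mono hL).trans_lt hfin).ne
    have h4 : (fun z' => (S z - S z') ^ 2) = fun z' => (S z ^ 2 - 2 * S z * S z') + S z' ^ 2 := by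
      funext z'
      ring
    have h5 : IntegrableOn (fun z' => 2 * S z * S z') L := h1.const_mul _
    have h6 : IntegrableOn (fun z' => S z ^ 2 - 2 * S z * S z') L := h3.sub h5
    have h7 : ∫ z' in L, (S z ^ 2 - 2 * S z * S z') + S z' ^ 2 =
        (∫ z' in L, (S z ^ 2 - 2 * S z * S z')) + ∫ z' in L, S z' ^ 2 := integral_add h6 h2
    have h8 : ∫ z' in L, (S z ^ 2 - 2 * S z * S z') =
        (∫ _z' in L, S z ^ 2) - ∫ z' in L, 2 * S z * S z' := integral_sub h3 h5
    rw [h4, h7, h8, integral_const_mul, setIntegral_const, smul_eq_mul]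
    ring
  have hcont : ∀ L : Set ℂ, L ⊆ K' →
      ContinuousOn (fun z => ∫ z' in L, (S z - S z') ^ 2) K' := by
    intro L hL
    simp only [key L hL]
    exact (((hS.pow 2).mul continuousOn_const).sub
      ((continuousOn_const.mul hS).mul continuousOn_const)).add continuousOn_const
  have hnn : ∀ (L : Set ℂ) (z : ℂ), 0 ≤ ∫ z' in L, (S z - S z') ^ 2 := fun L z =>
    integral_nonneg fun z' => sq_nonneg _
  have hInt : ∀ L : Set ℂ, L ⊆ K' → IntegrableOn (fun z => ∫ z' in L, (S z - S z') ^ 2) K' :=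
    fun L hL => (hcont L hL).integrableOn_compact hK'
  calc ∫ z in K, ∫ z' in K, (S z - S z') ^ 2 ≤ ∫ z in K, ∫ z' in K', (S z - S z') ^ 2 := by
        apply setIntegral_mono_on ((hInt K h).mono_set h) ((hInt K' subset_rfl).mono_set h) hK
        intro z hz
        have h5 : IntegrableOn (fun z' => (S z - S z') ^ 2) K' :=
          ((continuousOn_const.sub hS).pow 2).integrableOn_compact hK'
        exact setIntegral_mono_set h5 (ae_of_all _ fun _ => sq_nonneg _) (h.eventuallyLE)
    _ ≤ ∫ z in K', ∫ z' in K', (S z - S z') ^ 2 :=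
        setIntegral_mono_set (hInt K' subset_rfl) (ae_of_all _ fun z => hnn K' z) h.eventuallyLE

/-- the compact exhaustion -/
def Kj (j : ℕ) : Set ℂ := Metric.closedBall 0 ((j : ℝ) + 1) ∩ {z : ℂ | 1 / ((j : ℝ) + 1) ≤ z.im}

lemma Kj_compact (j : ℕ) : IsCompact (Kj j) :=
  (isCompact_closedBall _ _).inter_right (isClosed_le continuous_const Complex.continuous_im)

lemma Kj_sub (j : ℕ) : Kj j ⊆ H0 := by
  intro z hz
  have h1 : 1 / ((j : ℝ) + 1) ≤ z.im := hz.2
  have h2 : 0 < 1 / ((j : ℝ) + 1) := by positivity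
  exact h2.trans_le h1

lemma Kj_exh {K : Set ℂ} (hK : IsCompact K) (hK' : K ⊆ H0) (ε : ℝ) (hε : 0 < ε) :
    ∃ j : ℕ, K ⊆ Kj j ∧ 1 / ((j : ℝ) + 1) ≤ ε := by
  obtain ⟨R, hR⟩ := hK.isBounded.subset_closedBall (0 : ℂ)
  obtain ⟨c, hc, hcK⟩ : ∃ c > 0, ∀ z ∈ K, c ≤ z.im := by
    rcases K.eq_empty_or_nonempty with rfl | hne
    · exact ⟨1, one_pos, by simp⟩
    · obtain ⟨z, hz, hz'⟩ := hK.exists_isMinOn hne Complex.continuous_im.continuousOn
      exact ⟨z.im, hK' hz, fun w hw => hz' hw⟩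
  obtain ⟨j1, hj1⟩ := exists_nat_gt R
  obtain ⟨j2, hj2⟩ := exists_nat_one_div_lt hc
  obtain ⟨j3, hj3⟩ := exists_nat_one_div_lt hε
  have hle : ∀ {a b : ℕ}, a ≤ b → 1 / ((b : ℝ) + 1) ≤ 1 / ((a : ℝ) + 1) := by
    intro a b hab
    have : (a : ℝ) ≤ b := by exact_mod_cast hab
    exact one_div_le_one_div_of_le (by positivity) (by linarith)
  refine ⟨max j1 (max j2 j3), ?_, ?_⟩
  · intro z hz
    refine ⟨Metric.closedBall_subset_closedBall ?_ (hR hz), ?_⟩
    · have : (j1 : ℝ) ≤ ((max j1 (max j2 j3) : ℕ) : ℝ) := by exact_mod_cast le_max_left _ _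
      linarith
    · have h1 := hle (a := j2) (b := max j1 (max j2 j3)) ((le_max_left _ _).trans (le_max_right _ _))
      exact (h1.trans hj2.le).trans (hcK z hz)
  · have h1 := hle (a := j3) (b := max j1 (max j2 j3)) ((le_max_right _ _).trans (le_max_right _ _))
    exact h1.trans hj3.le

lemma ne_neg {f : ℍ → ℝ} {t : ℝ} (hf : IsHeckeMaass f t) : f ≠ -f := by
  intro h
  have h1 : ∀ z, f z ^ 2 = 0 := by
    intro z
    have h2 : f z = -f z := congrFun h z
    have h3 : f z = 0 := by linarith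
    rw [h3]
    norm_num
  have h2 := hf.normalised
  simp only [h1, integral_zero] at h2
  have := Real.pi_pos
  linarith

end FinM

open FinM in
theorem stmtFin (hF2 : StmtF2) (hFd : StmtFd) (hOrth : StmtOrth) (hRho : StmtRho)
    (hPar : StmtPar) : StmtMain := by
  classical
  intro ψ hψ ε hε
  by_contra hcon
  push Not at hcon
  obtain ⟨η, hη⟩ := exists_bump
  -- choice of the parameters
  have hch : ∀ j : ℕ, ∃ R0 T0 : ℝ, 0 < R0 ∧ ∀ T : ℝ, T0 ≤ T →
      ∀ (ι : Type) [Fintype ι] (F : ι → ℍ → ℝ) (t : ι → ℝ) (ρ : ι → ℂ), Fam ι F t ρ →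
      (∀ i, T / 2 < t i ∧ t i ≤ T) → (∀ i, 1 / ((j : ℝ) + 1) < XX2 η (R0 / T) (Kj j) (F i)) →
        (Fintype.card ι : ℝ) ≤ (ε / 16 * (1 / 2) ^ j) * T ^ 2 := by
    intro j
    obtain ⟨R0, hR0, h1⟩ := hF2 η hη (Kj j) (Kj_compact j) (Kj_sub j) (ε / 16 * (1 / 2) ^ j)
      (1 / ((j : ℝ) + 1)) (by positivity) (by positivity)
    obtain ⟨T0, -, h2⟩ := h1 R0 le_rfl
    exact ⟨R0, T0, by linarith, h2⟩
  choose R T0 hR hRT using hch
  have hseq : ∀ m : ℕ, ∃ T : ℝ, (m : ℝ) + 1 ≤ T ∧ (∀ j ≤ m, T0 j ≤ 2 * T) ∧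
      ∃ f, Bad ψ ε T f ∧ ∀ j ≤ m, XX2 η (R j / (2 * T)) (Kj j) f ≤ 1 / ((j : ℝ) + 1) := by
    intro m
    obtain ⟨B, hB⟩ : ∃ B : ℝ, ∀ j ≤ m, T0 j ≤ B := by
      refine ⟨∑ j ∈ Finset.range (m + 1), |T0 j|, fun j hj => ?_⟩
      exact (le_abs_self _).trans (Finset.single_le_sum (f := fun j => |T0 j|)
        (fun i _ => abs_nonneg _) (Finset.mem_range.2 (by omega)))
    obtain ⟨T, hT, S, hS, hcard⟩ := hcon (max ((m : ℝ) + 1) B)
    have hT1 : (m : ℝ) + 1 ≤ T := (le_max_left _ _).trans hT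
    have hm0 : (0 : ℝ) ≤ m := Nat.cast_nonneg _
    have hTpos : 0 < T := by linarith
    have hT2 : ∀ j ≤ m, T0 j ≤ 2 * T := fun j hj => by
      have := (hB j hj).trans ((le_max_right _ _).trans hT)
      linarith
    refine ⟨T, hT1, hT2, ?_⟩
    obtain ⟨S', hS'S, hS', hcard'⟩ := select S fun f hf => by
      obtain ⟨⟨t, ht, -⟩, -⟩ := hS f hf
      exact ne_neg ht
    by_contra hno
    push Not at hno
    -- every element of `S'` violates some condition
    have hcov : S' ⊆ (Finset.range (m + 1)).biUnion fun j =>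
        S'.filter fun f => 1 / ((j : ℝ) + 1) < XX2 η (R j / (2 * T)) (Kj j) f := by
      intro f hf
      obtain ⟨j, hj, hj'⟩ := hno f (hS f (hS'S hf))
      rw [Finset.mem_biUnion]
      exact ⟨j, Finset.mem_range.2 (by omega), Finset.mem_filter.2 ⟨hf, hj'⟩⟩
    have hbd : ∀ j ∈ Finset.range (m + 1),
        ((S'.filter fun f => 1 / ((j : ℝ) + 1) < XX2 η (R j / (2 * T)) (Kj j) f).card : ℝ) ≤
          (ε / 16 * (1 / 2) ^ j) * (2 * T) ^ 2 := by
      intro j hj
      have hj' : j ≤ m := by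
        have := Finset.mem_range.1 hj
        omega
      obtain ⟨B, hBdef⟩ : ∃ B, B = S'.filter fun f =>
        1 / ((j : ℝ) + 1) < XX2 η (R j / (2 * T)) (Kj j) f := ⟨_, rfl⟩
      have hmem : ∀ g ∈ B, g ∈ S' ∧ 1 / ((j : ℝ) + 1) < XX2 η (R j / (2 * T)) (Kj j) g := by
        intro g hg
        rw [hBdef, Finset.mem_filter] at hg
        exact hg
      have hBad : ∀ i : {f // f ∈ B}, Bad ψ ε T i.1 := fun i =>
        hS _ (hS'S (hmem _ i.2).1)
      have ht : ∀ i : {f // f ∈ B}, ∃ t : ℝ, IsHeckeMaass i.1 t ∧ T < t ∧ t ≤ 2 * T :=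
        fun i => (hBad i).1
      choose t ht1 ht2 ht3 using ht
      have hρ : ∀ i : {f // f ∈ B}, ∃ ρ : ℂ, IsRho i.1 (t i) ρ := fun i => hRho _ _ (ht1 i)
      choose ρ hρ' using hρ
      have hfam : Fam {f // f ∈ B} (fun i => i.1) t ρ :=
        { form := ht1
          rho := hρ'
          par := fun i => hPar _ _ (ht1 i)
          orth := by
            intro i i' hii'
            by_contra hne
            have hi := hmem _ i.2
            have hi' := hmem _ i'.2
            rcases hOrth i.1 i'.1 (t i) (t i') (ht1 i) (ht1 i') (hPar _ _ (ht1 i))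
              (hPar _ _ (ht1 i')) hne with h | h
            · exact hii' (Subtype.ext (funext fun z => (h z).symm))
            · exact hS' i.1 hi.1 i'.1 hi'.1 (funext h) }
      have h1 := hRT j (2 * T) (hT2 j hj') {f // f ∈ B} (fun i => i.1) t ρ hfam
        (fun i => ⟨by linarith [ht2 i], ht3 i⟩) (fun i => (hmem _ i.2).2)
      rw [Fintype.card_coe, hBdef] at h1
      exact h1
    have h1 : (S'.card : ℝ) ≤ ∑ j ∈ Finset.range (m + 1), (ε / 16 * (1 / 2) ^ j) * (2 * T) ^ 2 := by
      calc (S'.card : ℝ) ≤ (((Finset.range (m + 1)).biUnion fun j =>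
            S'.filter fun f => 1 / ((j : ℝ) + 1) < XX2 η (R j / (2 * T)) (Kj j) f).card : ℝ) := by
            exact_mod_cast Finset.card_le_card hcov
        _ ≤ ∑ j ∈ Finset.range (m + 1),
            ((S'.filter fun f => 1 / ((j : ℝ) + 1) < XX2 η (R j / (2 * T)) (Kj j) f).card : ℝ) := by
            exact_mod_cast Finset.card_biUnion_le
        _ ≤ _ := Finset.sum_le_sum hbd
    have h2 : ∑ j ∈ Finset.range (m + 1), (1 / 2 : ℝ) ^ j ≤ 2 := sum_geometric_two_le (m + 1)
    have h3 : ∑ j ∈ Finset.range (m + 1), (ε / 16 * (1 / 2) ^ j) * (2 * T) ^ 2 =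
        ε / 4 * T ^ 2 * ∑ j ∈ Finset.range (m + 1), (1 / 2 : ℝ) ^ j := by
      rw [Finset.mul_sum]
      apply Finset.sum_congr rfl
      intro j _
      ring
    have h4 : ε / 4 * T ^ 2 * ∑ j ∈ Finset.range (m + 1), (1 / 2 : ℝ) ^ j ≤ ε / 4 * T ^ 2 * 2 :=
      mul_le_mul_of_nonneg_left h2 (by positivity)
    have h5 : (S.card : ℝ) ≤ 2 * S'.card := by exact_mod_cast hcard'
    linarith
  choose T hT1 hT2 f hf hXX using hseq
  choose t ht htT htT' using fun m => (hf m).1
  have hTtop : Tendsto (fun m => 2 * T m) atTop atTop := by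
    apply tendsto_atTop_mono (f := fun m : ℕ => (m : ℝ)) _ tendsto_natCast_atTop_atTop
    intro m
    have h1 := hT1 m
    have h2 : (0 : ℝ) ≤ m := Nat.cast_nonneg _
    linarith
  have hlim := hFd η hη f t (fun m => 2 * T m) ht hTtop
    (fun m => ⟨by linarith [htT m], htT' m⟩) (by
      intro K hK hK' ε' hε'
      obtain ⟨j, hj, hj'⟩ := Kj_exh hK hK' ε' hε'
      refine ⟨R j, hR j, ?_⟩
      have hc : 0 < 1 / ((j : ℝ) + 1) / 2 := by positivity
      have h1 : Tendsto (fun m => R j / (2 * T m)) atTop (𝓝 0) := hTtop.const_div_atTop (R j)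
      filter_upwards [eventually_ge_atTop j, h1.eventually_lt_const hc] with m hm hm'
      have hTm : 0 < T m := by
        have h2 := hT1 m
        have h3 : (0 : ℝ) ≤ m := Nat.cast_nonneg _
        linarith
      have h2 : 0 < R j / (2 * T m) := div_pos (hR j) (by linarith)
      have hF : ContinuousOn (fun w => ext (f m) w ^ 2) H0 := (ht m).smooth.continuousOn.pow 2
      have h3 : ContinuousOn (Sm' η (R j / (2 * T m)) (fun w => ext (f m) w ^ 2)) (Kj j) := by
        apply (Sm_cont hη hF h2 hm'.le).mono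
        intro z hz
        have h4 : 1 / ((j : ℝ) + 1) ≤ z.im := hz.2
        change 2 * (1 / ((j : ℝ) + 1) / 2) ≤ z.im
        linarith
      exact (dmono hK.measurableSet (Kj_compact j) hj h3).trans ((hXX m j hm).trans hj')) ψ hψ
  have h1 := (Metric.tendsto_nhds.1 hlim) ε hε
  obtain ⟨m, hm⟩ := h1.exists
  rw [Real.dist_eq, sub_zero] at hm
  exact absurd (hf m).2 (not_lt.2 hm.le)

end

end Pool.Agent.A54.Av
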