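import Pool.Agent.Lib.MP_a54f13_nt.Av.SpecA
import Pool.Agent.Lib.MP_a54f13_nt.Av.GI

/-!
# Module `Orth`: orthogonality, multiplicity one
-/

set_option autoImplicit false

namespace Pool.Agent.A54.Av.OrthM

open MeasureTheory Filter Topology Set
open scoped ContDiff ComplexConjugate UpperHalfPlane MatrixGroups ENNReal
open Pool.Agent.A54.Half (H0 qq ff hh)

noncomputable section

lemma cont {f : ℍ → ℝ} {t : ℝ} (hf : IsHeckeMaass f t) : Continuous f := by
  have h1 : Continuous fun z : ℍ => ext f (z : ℂ) :=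
    hf.smooth.continuousOn.comp_continuous UpperHalfPlane.continuous_coe fun z => z.im_pos
  have h2 : (fun z : ℍ => ext f (z : ℂ)) = f := by
    funext z
    exact Half.ext_coe f z
  rwa [h2] at h1

lemma fdo_half {z : ℍ} (hz : z ∈ ModularGroup.fdo) :
    1 / 2 ≤ (z : ℂ).im ∧ |(z : ℂ).re| ≤ 1 / 2 := by
  have h1 := ModularGroup.three_lt_four_mul_im_sq_of_mem_fdo hz
  have h2 : |z.re| < (1 : ℝ) / 2 := hz.2
  have h3 := z.im_pos
  refine ⟨?_, h2.le⟩
  change 1 / 2 ≤ z.im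
  nlinarith

lemma vol_lt : (volume : Measure ℍ) ModularGroup.fdo < (⊤ : ℝ≥0∞) := by
  have h1 := GIM.lint_fdo (fun _ => 1) measurable_const
  rw [setLIntegral_one] at h1
  refine h1.trans_lt ?_
  have h2 : ∫⁻ x in Ioc (-(1 / 2) : ℝ) (1 / 2), (1 : ℝ≥0∞) = 1 := by
    rw [setLIntegral_one, Real.volume_Ioc]
    norm_num
  have h3 : IntegrableOn (fun y : ℝ => (y ^ 2)⁻¹) (Ioi (√3 / 2)) := by
    have h4 := integrableOn_Ioi_rpow_of_lt (a := -2) (by norm_num)
      (c := √3 / 2) (by positivity)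
    refine h4.congr_fun (fun y hy => ?_) measurableSet_Ioi
    have hy0 : 0 < y := lt_trans (by positivity) hy
    have h6 : y ^ (-2 : ℝ) = (y ^ 2)⁻¹ := by
      rw [Real.rpow_neg hy0.le]
      norm_cast
    exact h6
  have h5 := h3.lintegral_lt_top
  rw [h2]
  simp_rw [mul_one]
  exact h5

/-- `x² e^{-c x}` is bounded -/
lemma sq_exp {c x : ℝ} (hc : 0 < c) (hx : 0 ≤ x) : x ^ 2 * Real.exp (-(c * x)) ≤ 2 / c ^ 2 := by
  have h1 := Real.pow_div_factorial_le_exp (c * x) (by positivity) 2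
  have h2 : (Nat.factorial 2 : ℝ) = 2 := by norm_num [Nat.factorial]
  rw [h2] at h1
  rw [Real.exp_neg, ← div_eq_mul_inv, div_le_div_iff₀ (Real.exp_pos _) (by positivity)]
  nlinarith

lemma continuous_VV (γ : Mat) : Continuous fun p : ℍ × ℍ => VV γ (p.1 : ℂ) (p.2 : ℂ) := by
  unfold VV
  refine Continuous.div ?_ ?_ ?_
  · have h1 : Continuous fun p : ℍ × ℍ => (p.1 : ℂ) :=
      UpperHalfPlane.continuous_coe.comp continuous_fst
    have h2 : Continuous fun p : ℍ × ℍ => (p.2 : ℂ) :=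
      UpperHalfPlane.continuous_coe.comp continuous_snd
    fun_prop
  · have h1 : Continuous fun p : ℍ × ℍ => (p.1 : ℂ).im :=
      Complex.continuous_im.comp (UpperHalfPlane.continuous_coe.comp continuous_fst)
    have h2 : Continuous fun p : ℍ × ℍ => (p.2 : ℂ).im :=
      Complex.continuous_im.comp (UpperHalfPlane.continuous_coe.comp continuous_snd)
    fun_prop
  · intro p
    have h1 : 0 < (p.1 : ℂ).im := p.1.im_pos
    have h2 : 0 < (p.2 : ℂ).im := p.2.im_pos
    positivity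

lemma continuous_kk (γ : Mat) (z : ℂ) :
    Continuous fun p : ℍ × ℍ => kk γ z (p.1 : ℂ) (p.2 : ℂ) := by
  unfold kk
  refine continuous_const.mul (Complex.continuous_ofReal.comp ?_)
  exact Real.continuous_exp.comp ((continuous_const.mul (continuous_VV γ)).neg)

/-- the main integrability statement -/
lemma integrable_main (hThS : StmtThS) (hDec : StmtDec) {f g : ℍ → ℝ} {t t' : ℝ}
    (hf : IsHeckeMaass f t) (hg : IsHeckeMaass g t') (z : ℍ) :
    Integrable (fun p : ℍ × ℍ => Th z p.1 p.2 * (f p.2 : ℂ) * (g p.1 : ℂ))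
      (((volume : Measure ℍ).restrict ModularGroup.fdo).prod
        ((volume : Measure ℍ).restrict ModularGroup.fdo)) := by
  obtain ⟨C, hC, hb⟩ := hThS.2.2 z z.im_pos
  obtain ⟨C1, c1, hc1, hf1, -⟩ := hDec f t hf
  obtain ⟨C2, c2, hc2, hg1, -⟩ := hDec g t' hg
  have hms : MeasurableSet ModularGroup.fdo := GIM.isOpen_fdo.measurableSet
  have hfin : IsFiniteMeasure ((volume : Measure ℍ).restrict ModularGroup.fdo) :=
    isFiniteMeasure_restrict.mpr vol_lt.ne
  have hae : ∀ᵐ p : ℍ × ℍ ∂(((volume : Measure ℍ).restrict ModularGroup.fdo).prod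
      ((volume : Measure ℍ).restrict ModularGroup.fdo)),
      p.1 ∈ ModularGroup.fdo ∧ p.2 ∈ ModularGroup.fdo := by
    rw [Measure.prod_restrict]
    filter_upwards [ae_restrict_mem (hms.prod hms)] with p hp
    exact hp
  have hC1 : 0 ≤ C1 := by
    have h1 := hf1 UpperHalfPlane.I (by simp; norm_num)
    have h2 := (abs_nonneg _).trans h1
    exact nonneg_of_mul_nonneg_left h2 (Real.exp_pos _)
  have hC2 : 0 ≤ C2 := by
    have h1 := hg1 UpperHalfPlane.I (by simp; norm_num)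
    have h2 := (abs_nonneg _).trans h1
    exact nonneg_of_mul_nonneg_left h2 (Real.exp_pos _)
  have hcount : Countable Mat := inferInstanceAs (Countable (Fin 2 → Fin 2 → ℤ))
  have hmeas : AEStronglyMeasurable (fun p : ℍ × ℍ => Th z p.1 p.2)
      (((volume : Measure ℍ).restrict ModularGroup.fdo).prod
        ((volume : Measure ℍ).restrict ModularGroup.fdo)) := by
    refine aestronglyMeasurable_of_tendsto_ae (atTop : Filter (Finset Mat))
      (f := fun s p => ∑ γ ∈ s, kk γ z (p.1 : ℂ) (p.2 : ℂ)) (fun s => ?_) ?_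
    · exact (continuous_finsetSum s fun γ _ => continuous_kk γ z).aestronglyMeasurable
    · filter_upwards [hae] with p hp
      obtain ⟨a1, a2⟩ := fdo_half hp.1
      obtain ⟨b1, b2⟩ := fdo_half hp.2
      obtain ⟨hs, -⟩ := hb p.1 p.2 a1 b1 a2 b2
      exact hs.of_norm.hasSum
  refine Integrable.of_bound (C := C * (C1 * (2 / c1 ^ 2)) * (C2 * (2 / c2 ^ 2))) ?_ ?_
  · refine (hmeas.mul ?_).mul ?_
    · exact (Complex.continuous_ofReal.comp
        ((cont hf).comp continuous_snd)).aestronglyMeasurable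
    · exact (Complex.continuous_ofReal.comp
        ((cont hg).comp continuous_fst)).aestronglyMeasurable
  · filter_upwards [hae] with p hp
    obtain ⟨a1, a2⟩ := fdo_half hp.1
    obtain ⟨b1, b2⟩ := fdo_half hp.2
    obtain ⟨hs, hle⟩ := hb p.1 p.2 a1 b1 a2 b2
    have h1 : ‖Th z p.1 p.2‖ ≤ C * (((p.1 : ℂ).im) * ((p.2 : ℂ).im)) ^ 2 :=
      (norm_tsum_le_tsum_norm hs).trans hle
    have h2 : |f p.2| ≤ C1 * Real.exp (-(c1 * p.2.im)) := hf1 p.2 b1
    have h3 : |g p.1| ≤ C2 * Real.exp (-(c2 * p.1.im)) := hg1 p.1 a1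
    rw [norm_mul, norm_mul, Complex.norm_real, Complex.norm_real, Real.norm_eq_abs,
      Real.norm_eq_abs]
    have h4 := sq_exp hc1 p.2.im_pos.le
    have h5 := sq_exp hc2 p.1.im_pos.le
    have e1 : ((p.1 : ℂ).im) = p.1.im := rfl
    have e2 : ((p.2 : ℂ).im) = p.2.im := rfl
    rw [e1, e2] at h1
    calc ‖Th z p.1 p.2‖ * |f p.2| * |g p.1|
        ≤ (C * (p.1.im * p.2.im) ^ 2) * (C1 * Real.exp (-(c1 * p.2.im))) *
          (C2 * Real.exp (-(c2 * p.1.im))) := by gcongr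
      _ = C * (C1 * (p.2.im ^ 2 * Real.exp (-(c1 * p.2.im)))) *
          (C2 * (p.1.im ^ 2 * Real.exp (-(c2 * p.1.im)))) := by ring
      _ ≤ C * (C1 * (2 / c1 ^ 2)) * (C2 * (2 / c2 ^ 2)) := by gcongr

/-- both ways of integrating -/
lemma key (hPa : StmtPa) (hThI : StmtThI) (hThS : StmtThS) (hDec : StmtDec)
    {f g : ℍ → ℝ} {t t' ε ε' : ℝ} {ρ ρ' : ℂ}
    (hf : IsHeckeMaass f t) (hg : IsHeckeMaass g t') (hε : IsPar f ε) (hε' : IsPar g ε')
    (hρ : IsRho f t ρ) (hρ' : IsRho g t' ρ') (z : ℍ) :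
    4 / ρ * (f z : ℂ) * ((∫ w in ModularGroup.fdo, f w * g w : ℝ) : ℂ) =
      4 / ρ' * (g z : ℂ) * ((∫ w in ModularGroup.fdo, f w * g w : ℝ) : ℂ) := by
  have hint := integrable_main hThS hDec hf hg z
  have hfin : IsFiniteMeasure ((volume : Measure ℍ).restrict ModularGroup.fdo) :=
    isFiniteMeasure_restrict.mpr vol_lt.ne
  have hsw := integral_integral_swap
    (f := fun w τ : ℍ => Th z w τ * (f τ : ℂ) * (g w : ℂ)) hint
  have hL : ∫ w in ModularGroup.fdo, (∫ τ in ModularGroup.fdo,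
      Th z w τ * (f τ : ℂ) * (g w : ℂ)) =
      4 / ρ * (f z : ℂ) * ((∫ w in ModularGroup.fdo, f w * g w : ℝ) : ℂ) := by
    have h1 : ∀ w : ℍ, (∫ τ in ModularGroup.fdo, Th z w τ * (f τ : ℂ) * (g w : ℂ)) =
        4 / ρ * (f z : ℂ) * ((f w * g w : ℝ) : ℂ) := by
      intro w
      rw [integral_mul_const, hPa f t ε ρ hf hε hρ z w]
      push_cast
      ring
    simp_rw [h1]
    rw [integral_const_mul]
    congr 1
    exact integral_ofReal
  have hR : ∫ τ in ModularGroup.fdo, (∫ w in ModularGroup.fdo,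
      Th z w τ * (f τ : ℂ) * (g w : ℂ)) =
      4 / ρ' * (g z : ℂ) * ((∫ w in ModularGroup.fdo, f w * g w : ℝ) : ℂ) := by
    have h1 : ∀ τ : ℍ, (∫ w in ModularGroup.fdo, Th z w τ * (f τ : ℂ) * (g w : ℂ)) =
        4 / ρ' * (g z : ℂ) * ((f τ * g τ : ℝ) : ℂ) := by
      intro τ
      have h2 : ∀ w : ℍ, Th z w τ * (f τ : ℂ) * (g w : ℂ) =
          (f τ : ℂ) * (Th z τ w * (g w : ℂ)) := by
        intro w
        rw [(hThI z w τ z.im_pos w.im_pos τ.im_pos).2.2]
        ring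
      simp_rw [h2]
      rw [integral_const_mul, hPa g t' ε' ρ' hg hε' hρ' z τ]
      push_cast
      ring
    simp_rw [h1]
    rw [integral_const_mul]
    congr 1
    exact integral_ofReal
  rw [← hL, ← hR]
  exact hsw

end

end Pool.Agent.A54.Av.OrthM

namespace Pool.Agent.A54.Av

open MeasureTheory Filter Topology Set
open scoped ContDiff ComplexConjugate UpperHalfPlane MatrixGroups ENNReal

theorem stmtOrth (hPa : StmtPa) (hRho : StmtRho) (hThI : StmtThI) (hThS : StmtThS)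
    (hDec : StmtDec) : StmtOrth := by
  intro f g t t' hf hg hpf hpg hI
  obtain ⟨ε, hε⟩ := hpf
  obtain ⟨ε', hε'⟩ := hpg
  obtain ⟨ρ, hρ⟩ := hRho f t hf
  obtain ⟨ρ', hρ'⟩ := hRho g t' hg
  have hk := OrthM.key hPa hThI hThS hDec hf hg hε hε' hρ hρ'
  have hρ0 : ρ ≠ 0 := hρ.1
  have hρ0' : ρ' ≠ 0 := hρ'.1
  have hIc : ((∫ w in ModularGroup.fdo, f w * g w : ℝ) : ℂ) ≠ 0 := by
    exact_mod_cast hI
  have hk2 : ∀ z : ℍ, (g z : ℂ) = ρ' / ρ * (f z : ℂ) := by
    intro z
    have h1 := mul_right_cancel₀ hIc (hk z)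
    field_simp at h1 ⊢
    linear_combination -h1
  obtain ⟨z0, hz0⟩ : ∃ z0 : ℍ, f z0 ≠ 0 := by
    by_contra hcon
    push Not at hcon
    exact hI (by simp [hcon])
  set κ : ℝ := g z0 / f z0 with hκ
  have hκc : ρ' / ρ = (κ : ℂ) := by
    have h1 := hk2 z0
    have h2 : (f z0 : ℂ) ≠ 0 := by exact_mod_cast hz0
    rw [hκ]
    push_cast
    rw [h1]
    field_simp
  have hgf : ∀ z : ℍ, g z = κ * f z := by
    intro z
    have h1 := hk2 z
    rw [hκc] at h1
    exact_mod_cast h1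
  have hn : Real.pi / 3 = κ ^ 2 * (Real.pi / 3) := by
    have h1 := hg.normalised
    have h2 : (fun z : ℍ => g z ^ 2) = fun z : ℍ => κ ^ 2 * f z ^ 2 := by
      funext z
      rw [hgf z]
      ring
    rw [h2, integral_const_mul, hf.normalised] at h1
    exact h1.symm
  have hκ2 : κ ^ 2 = 1 := by
    have hp : 0 < Real.pi / 3 := by positivity
    have h1 : κ ^ 2 * (Real.pi / 3) = 1 * (Real.pi / 3) := by rw [one_mul]; exact hn.symm
    exact mul_right_cancel₀ hp.ne' h1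
  rcases mul_self_eq_one_iff.mp (show κ * κ = 1 by rw [← sq]; exact hκ2) with h | h
  · left
    intro z
    rw [hgf z, h, one_mul]
  · right
    intro z
    rw [hgf z, h]
    ring

end Pool.Agent.A54.Av
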