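import Pool.Agent.Lib.MP_a54f13_nt.Av.SpecF

/-!
# Package `Av`, module Q3: two functional equations
-/

set_option autoImplicit false

namespace Pool.Agent.A54.Av

open MeasureTheory Filter Topology Set Asymptotics
open scoped ContDiff ComplexConjugate UpperHalfPlane MatrixGroups ENNReal

namespace Q3M

/-! ### Decay -/

/-- Exponential decay at infinity. -/
theorem bigO_top {f : ℝ → ℂ} {C δ : ℝ} (h : ∀ y : ℝ, 1 ≤ y → ‖f y‖ ≤ C * Real.exp (-(δ * y))) :
    f =O[atTop] fun y => Real.exp (-δ * y) := by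
  refine IsBigO.of_bound C ?_
  filter_upwards [eventually_ge_atTop (1 : ℝ)] with y hy
  have h1 := h y hy
  rw [Real.norm_eq_abs, abs_of_pos (Real.exp_pos _), neg_mul]
  exact h1

/-- Functions with a symmetry decay rapidly at zero. -/
theorem bigO_zero {f : ℝ → ℂ} {C δ : ℝ} (hδ : 0 < δ)
    (h : ∀ y : ℝ, 1 ≤ y → ‖f y‖ ≤ C * Real.exp (-(δ * y)))
    (hinv : ∀ y : ℝ, 0 < y → ‖f y⁻¹‖ = ‖f y‖) (b : ℝ) : f =O[𝓝[>] 0] (· ^ (-b)) := by
  have h1 : f =O[atTop] (fun y : ℝ => y ^ b) :=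
    (bigO_top h).trans (isLittleO_exp_neg_mul_rpow_atTop hδ _).isBigO
  have h2 : (fun y => f y⁻¹) =O[𝓝[>] 0] (fun y : ℝ => (y⁻¹) ^ b) :=
    h1.comp_tendsto tendsto_inv_nhdsGT_zero
  have h3 : f =O[𝓝[>] 0] (fun y => f y⁻¹) := by
    refine IsBigO.of_bound 1 ?_
    filter_upwards [self_mem_nhdsWithin] with y hy
    rw [hinv y hy, one_mul]
  refine (h3.trans h2).congr' (Eventually.of_forall fun _ => rfl) ?_
  filter_upwards [self_mem_nhdsWithin] with y hy
  rw [Real.inv_rpow (le_of_lt hy), Real.rpow_neg (le_of_lt hy)]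

/-- The Mellin transform of a rapidly decaying function with a symmetry is entire. -/
theorem entire {f : ℝ → ℂ} {C δ : ℝ} (hδ : 0 < δ) (hc : ContinuousOn f (Ioi 0))
    (h : ∀ y : ℝ, 1 ≤ y → ‖f y‖ ≤ C * Real.exp (-(δ * y)))
    (hinv : ∀ y : ℝ, 0 < y → ‖f y⁻¹‖ = ‖f y‖) (s : ℂ) :
    DifferentiableAt ℂ (mellin f) s ∧ MellinConvergent f s := by
  have hloc : LocallyIntegrableOn f (Ioi 0) := hc.locallyIntegrableOn measurableSet_Ioi
  have h1 := bigO_top h
  have h2 := bigO_zero hδ h hinv (s.re - 1)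
  exact ⟨mellin_differentiableAt_of_isBigO_rpow_exp hδ hloc h1 h2 (by linarith),
    mellinConvergent_of_isBigO_rpow_exp hδ hloc h1 h2 (by linarith)⟩

/-! ### The Bessel function -/

section K

variable {K : ℝ → ℝ} {C : ℝ}

theorem kLoc (hKm : Measurable K)
    (hK : ∀ X : ℝ, 0 < X → |K X| ≤ C * X ^ (-(1 / 4 : ℝ)) * Real.exp (-(X / 2))) :
    LocallyIntegrableOn (fun x => (K x : ℂ)) (Ioi 0) := by
  rw [locallyIntegrableOn_iff (isOpen_Ioi.isLocallyClosed)]
  intro k hk hkc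
  have hcont : ContinuousOn (fun X : ℝ => C * X ^ (-(1 / 4 : ℝ)) * Real.exp (-(X / 2))) k := by
    intro x hx
    have hx0 : x ≠ 0 := (hk hx).ne'
    refine ContinuousAt.continuousWithinAt ?_
    refine ContinuousAt.mul (continuousAt_const.mul
      (Real.continuousAt_rpow_const x _ (Or.inl hx0))) ?_
    fun_prop
  obtain ⟨B, hB⟩ := hkc.exists_bound_of_continuousOn hcont
  refine Measure.integrableOn_of_bounded (M := B) hkc.measure_lt_top.ne
    (Complex.measurable_ofReal.comp hKm).aestronglyMeasurable ?_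
  rw [ae_restrict_iff' hkc.measurableSet]
  refine Eventually.of_forall fun x hx => ?_
  rw [Complex.norm_real, Real.norm_eq_abs]
  refine (hK x (hk hx)).trans ((le_abs_self _).trans ?_)
  have := hB x hx
  rwa [Real.norm_eq_abs] at this

theorem kTop (hC : 0 ≤ C)
    (hK : ∀ X : ℝ, 0 < X → |K X| ≤ C * X ^ (-(1 / 4 : ℝ)) * Real.exp (-(X / 2))) :
    (fun x => (K x : ℂ)) =O[atTop] fun y => Real.exp (-(1 / 2) * y) := by
  apply bigO_top (C := C)
  intro y hy
  rw [Complex.norm_real, Real.norm_eq_abs]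
  refine (hK y (by linarith)).trans ?_
  have h1 : y ^ (-(1 / 4 : ℝ)) ≤ 1 := Real.rpow_le_one_of_one_le_of_nonpos hy (by norm_num)
  have h2 : -(y / 2) = -(1 / 2 * y) := by ring
  rw [h2]
  apply mul_le_mul_of_nonneg_right _ (Real.exp_pos _).le
  calc C * y ^ (-(1 / 4 : ℝ)) ≤ C * 1 := mul_le_mul_of_nonneg_left h1 hC
    _ = C := mul_one C

theorem kZero (hC : 0 ≤ C)
    (hK : ∀ X : ℝ, 0 < X → |K X| ≤ C * X ^ (-(1 / 4 : ℝ)) * Real.exp (-(X / 2))) :
    (fun x => (K x : ℂ)) =O[𝓝[>] 0] (· ^ (-(1 / 4 : ℝ))) := by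
  refine IsBigO.of_bound C ?_
  filter_upwards [self_mem_nhdsWithin] with y hy
  have hy' : (0 : ℝ) < y := hy
  rw [Complex.norm_real, Real.norm_eq_abs, Real.norm_eq_abs,
    abs_of_nonneg (Real.rpow_nonneg hy'.le _)]
  refine (hK y hy').trans ?_
  have h1 : Real.exp (-(y / 2)) ≤ 1 := Real.exp_le_one_iff.2 (by linarith)
  have h2 : 0 ≤ C * y ^ (-(1 / 4 : ℝ)) := mul_nonneg hC (Real.rpow_nonneg hy'.le _)
  calc C * y ^ (-(1 / 4 : ℝ)) * Real.exp (-(y / 2)) ≤ C * y ^ (-(1 / 4 : ℝ)) * 1 :=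
        mul_le_mul_of_nonneg_left h1 h2
    _ = _ := mul_one _

theorem kMellin (hC : 0 ≤ C) (hKm : Measurable K)
    (hK : ∀ X : ℝ, 0 < X → |K X| ≤ C * X ^ (-(1 / 4 : ℝ)) * Real.exp (-(X / 2))) {s : ℂ}
    (hs : 1 / 4 < s.re) :
    DifferentiableAt ℂ (mellin fun x => (K x : ℂ)) s ∧ MellinConvergent (fun x => (K x : ℂ)) s :=
  ⟨mellin_differentiableAt_of_isBigO_rpow_exp (by norm_num) (kLoc hKm hK) (kTop hC hK)
    (kZero hC hK) hs,
    mellinConvergent_of_isBigO_rpow_exp (by norm_num) (kLoc hKm hK) (kTop hC hK)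
    (kZero hC hK) hs⟩

/-- Termwise Mellin transform. -/
theorem termwise (hC : 0 ≤ C) (hKm : Measurable K)
    (hK : ∀ X : ℝ, 0 < X → |K X| ≤ C * X ^ (-(1 / 4 : ℝ)) * Real.exp (-(X / 2)))
    (a : ℕ → ℂ) (κ A : ℝ) (hκ : 0 ≤ κ) (hA : 0 ≤ A)
    (ha : ∀ n : ℕ, ‖a n‖ ≤ A * ((n : ℝ) + 1) ^ κ) (F : ℝ → ℂ)
    (hF : ∀ y : ℝ, 0 < y → HasSum (fun n : ℕ => a n * ((y : ℂ) ^ (κ : ℂ) *
      (K (2 * Real.pi * (n + 1) * y) : ℂ))) (F y)) (w : ℂ) (hw : 3 < w.re) :
    HasSum (fun n : ℕ => a n * ((2 * Real.pi * (n + 1) : ℝ) : ℂ) ^ (-(w + κ)) *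
      mellin (fun x => (K x : ℂ)) (w + κ)) (mellin F w) := by
  have hpi : (1 : ℝ) ≤ 2 * Real.pi := by linarith [Real.pi_gt_three]
  have hb : ∀ n : ℕ, 0 < 2 * Real.pi * ((n : ℝ) + 1) := fun n => by positivity
  have hre : (w + (κ : ℂ)).re = w.re + κ := by simp
  -- the terms
  set T : ℕ → ℝ → ℂ := fun n y => (y : ℂ) ^ (w - 1) • (a n * ((y : ℂ) ^ (κ : ℂ) *
    (K (2 * Real.pi * (n + 1) * y) : ℂ))) with hT
  have hconv : MellinConvergent (fun x => (K x : ℂ)) (w + κ) :=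
    (kMellin hC hKm hK (by rw [hre]; linarith)).2
  have hTfun : ∀ n : ℕ, (fun y : ℝ => a n * ((y : ℂ) ^ (κ : ℂ) *
      (K (2 * Real.pi * (n + 1) * y) : ℂ))) = fun y : ℝ => a n • ((y : ℂ) ^ (κ : ℂ) •
      (fun x => (K x : ℂ)) (2 * Real.pi * (n + 1) * y)) := fun n => rfl
  have hTint : ∀ n : ℕ, Integrable (T n) (volume.restrict (Ioi 0)) := by
    intro n
    have h1 : MellinConvergent (fun y : ℝ => (fun x => (K x : ℂ)) (2 * Real.pi * (n + 1) * y))
        (w + κ) := (MellinConvergent.comp_mul_left (hb n)).2 hconv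
    have h2 := (MellinConvergent.cpow_smul (s := w) (a := (κ : ℂ))).2 h1
    have h3 := h2.const_smul (a n)
    exact h3
  have hTval : ∀ n : ℕ, ∫ y in Ioi (0 : ℝ), T n y =
      a n * ((2 * Real.pi * (n + 1) : ℝ) : ℂ) ^ (-(w + κ)) *
        mellin (fun x => (K x : ℂ)) (w + κ) := by
    intro n
    have h1 : ∫ y in Ioi (0 : ℝ), T n y = mellin (fun y : ℝ => a n • ((y : ℂ) ^ (κ : ℂ) •
      (fun x => (K x : ℂ)) (2 * Real.pi * (n + 1) * y))) w := rfl
    have h2 := mellin_comp_mul_left (fun x => (K x : ℂ)) (w + κ) (hb n)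
    rw [h1, mellin_const_smul, mellin_cpow_smul]
    refine (congrArg (fun z => a n • z) h2).trans ?_
    simp only [smul_eq_mul, mul_assoc]
  -- norms
  set J : ℝ := ∫ x in Ioi (0 : ℝ), x ^ (w.re - 1 + κ) * |K x| with hJ
  have hTnorm : ∀ n : ℕ, ∫ y in Ioi (0 : ℝ), ‖T n y‖ =
      ‖a n‖ * ((2 * Real.pi * (n + 1)) ^ (-(w.re + κ)) * J) := by
    intro n
    set b : ℝ := 2 * Real.pi * (n + 1) with hbdef
    have hbn : 0 < b := hb n
    have h1 : ∀ y ∈ Ioi (0 : ℝ), ‖T n y‖ = ‖a n‖ * (b ^ (-(w.re - 1 + κ)) *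
        ((fun x : ℝ => x ^ (w.re - 1 + κ) * |K x|) (b * y))) := by
      intro y hy
      have hy' : (0 : ℝ) < y := hy
      simp only [hT, norm_smul, norm_mul, Complex.norm_cpow_eq_rpow_re_of_pos hy',
        Complex.norm_real, Real.norm_eq_abs, Complex.sub_re, Complex.one_re, Complex.ofReal_re]
      rw [← hbdef]
      generalize |K (b * y)| = k0
      rw [Real.mul_rpow hbn.le hy'.le, Real.rpow_neg hbn.le, Real.rpow_add hy']
      have h2 : b ^ (w.re - 1 + κ) ≠ 0 := (Real.rpow_pos_of_pos hbn _).ne'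
      field_simp
    rw [setIntegral_congr_fun measurableSet_Ioi h1, integral_const_mul, integral_const_mul,
      integral_comp_mul_left_Ioi (fun x : ℝ => x ^ (w.re - 1 + κ) * |K x|) 0 hbn, mul_zero,
      smul_eq_mul, ← mul_assoc (b ^ (-(w.re - 1 + κ)))]
    congr 2
    have h3 : -(w.re + κ) = -(w.re - 1 + κ) + (-1) := by ring
    rw [h3, Real.rpow_add hbn, Real.rpow_neg_one]
  have hJ0 : 0 ≤ J := by
    rw [hJ]
    refine setIntegral_nonneg measurableSet_Ioi fun x hx => ?_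
    exact mul_nonneg (Real.rpow_nonneg (le_of_lt hx) _) (abs_nonneg _)
  have hsum : Summable fun n : ℕ => ∫ y in Ioi (0 : ℝ), ‖T n y‖ := by
    have h1 : Summable fun n : ℕ => A * J * ((n : ℝ) + 1) ^ (-w.re) := by
      apply Summable.mul_left
      have h2 : Summable fun n : ℕ => (n : ℝ) ^ (-w.re) :=
        Real.summable_nat_rpow.2 (by linarith)
      have h3 := (summable_nat_add_iff 1).2 h2
      simpa using h3
    refine Summable.of_nonneg_of_le (fun n => ?_) (fun n => ?_) h1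
    · exact integral_nonneg fun y => norm_nonneg _
    · rw [hTnorm n]
      have hn : (0 : ℝ) < (n : ℝ) + 1 := by positivity
      have h2 : (2 * Real.pi * ((n : ℝ) + 1)) ^ (-(w.re + κ)) ≤ ((n : ℝ) + 1) ^ (-(w.re + κ)) := by
        apply Real.rpow_le_rpow_of_nonpos hn _ (by linarith)
        nlinarith
      have h3 : ((n : ℝ) + 1) ^ κ * ((n : ℝ) + 1) ^ (-(w.re + κ)) = ((n : ℝ) + 1) ^ (-w.re) := by
        rw [← Real.rpow_add hn]
        congr 1
        ring
      calc ‖a n‖ * ((2 * Real.pi * ((n : ℝ) + 1)) ^ (-(w.re + κ)) * J) ≤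
            (A * ((n : ℝ) + 1) ^ κ) * (((n : ℝ) + 1) ^ (-(w.re + κ)) * J) := by
              apply mul_le_mul (ha n) (mul_le_mul_of_nonneg_right h2 hJ0) _ (by positivity)
              positivity
        _ = A * J * (((n : ℝ) + 1) ^ κ * ((n : ℝ) + 1) ^ (-(w.re + κ))) := by ring
        _ = A * J * ((n : ℝ) + 1) ^ (-w.re) := by rw [h3]
  have key := hasSum_integral_of_summable_integral_norm hTint hsum
  have hval : ∫ y in Ioi (0 : ℝ), ∑' n, T n y = mellin F w := by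
    refine setIntegral_congr_fun measurableSet_Ioi fun y hy => ?_
    have h1 := (hF y hy).const_smul ((y : ℂ) ^ (w - 1))
    exact h1.tsum_eq
  rw [hval] at key
  simpa only [hTval] using key

end K

/-- The Mellin transform at a real point. -/
theorem mellin_real (K : ℝ → ℝ) (s : ℝ) :
    mellin (fun x => (K x : ℂ)) (s : ℂ) = ((∫ y in Ioi (0 : ℝ), K y * y ^ (s - 1) : ℝ) : ℂ) := by
  rw [← integral_complex_ofReal]
  refine setIntegral_congr_fun measurableSet_Ioi fun y hy => ?_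
  have hy' : (0 : ℝ) < y := hy
  simp only [smul_eq_mul]
  rw [Complex.ofReal_mul, Complex.ofReal_cpow hy'.le, mul_comm]
  push_cast
  rfl

theorem core {K E G : ℝ → ℝ} {C : ℝ} (hC : 0 ≤ C) (hKm : Measurable K)
    (hK : ∀ X : ℝ, 0 < X → |K X| ≤ C * X ^ (-(1 / 4 : ℝ)) * Real.exp (-(X / 2)))
    (hKne : ∀ s : ℝ, 0 < s → ∫ y in Ioi (0 : ℝ), K y * y ^ (s - 1) ≠ 0)
    (hEc : ContinuousOn E (Ioi 0)) (hGc : ContinuousOn G (Ioi 0))
    (hinv : ∀ y : ℝ, 0 < y → E y⁻¹ = E y ∧ G y⁻¹ = -G y) {C' δ : ℝ} (hδ : 0 < δ)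
    (hdec : ∀ y : ℝ, 1 ≤ y → |E y| ≤ C' * Real.exp (-(δ * y)) ∧
      |G y| ≤ C' * Real.exp (-(δ * y)))
    (c : ℕ → ℝ) {A : ℝ} (hA : ∀ n : ℕ, 1 ≤ n → |c n| ≤ A * n) {u v : ℝ} (hv : v ≠ 0)
    (hsumE : ∀ y : ℝ, 0 < y → HasSum (fun n : ℕ => 2 * u * (c (n + 1) / √(n + 1) *
      (√y * K (2 * Real.pi * (n + 1) * y)))) (E y))
    (hsumG : ∀ y : ℝ, 0 < y → HasSum (fun n : ℕ => -(4 * Real.pi * v) * (c (n + 1) * √(n + 1) *
      (y * √y * K (2 * Real.pi * (n + 1) * y)))) (G y)) :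
    ∀ y : ℝ, 0 < y → E y = 0 := by
  set M : ℂ → ℂ := mellin fun x => (K x : ℂ) with hM
  set Ec : ℝ → ℂ := fun y => (E y : ℂ) with hEcdef
  set Gc : ℝ → ℂ := fun y => (G y : ℂ) with hGcdef
  have hpi := Real.pi_pos
  have hA0 : 0 ≤ A := by
    have := hA 1 le_rfl
    simp only [Nat.cast_one, mul_one] at this
    exact (abs_nonneg _).trans this
  have hEent : ∀ s : ℂ, DifferentiableAt ℂ (mellin Ec) s ∧ MellinConvergent Ec s := by
    refine entire (C := C') hδ (Complex.continuous_ofReal.comp_continuousOn hEc) (fun y hy => ?_) ?_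
    · simp only [hEcdef, Complex.norm_real, Real.norm_eq_abs]
      exact (hdec y hy).1
    · intro y hy
      simp only [hEcdef, (hinv y hy).1]
  have hGent : ∀ s : ℂ, DifferentiableAt ℂ (mellin Gc) s ∧ MellinConvergent Gc s := by
    refine entire (C := C') hδ (Complex.continuous_ofReal.comp_continuousOn hGc) (fun y hy => ?_) ?_
    · simp only [hGcdef, Complex.norm_real, Real.norm_eq_abs]
      exact (hdec y hy).2
    · intro y hy
      simp only [hGcdef, (hinv y hy).2, Complex.ofReal_neg, norm_neg]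
  have symE : ∀ w : ℂ, mellin Ec (-w) = mellin Ec w := by
    intro w
    rw [← mellin_comp_inv]
    refine setIntegral_congr_fun measurableSet_Ioi fun y hy => ?_
    simp only [hEcdef, (hinv y hy).1]
  have symG : ∀ w : ℂ, mellin Gc (-w) = -mellin Gc w := by
    intro w
    rw [← mellin_comp_inv]
    have h1 : -mellin Gc w = mellin (fun y => (-1 : ℂ) • Gc y) w := by
      rw [mellin_const_smul, neg_one_smul]
    rw [h1]
    refine setIntegral_congr_fun measurableSet_Ioi fun y hy => ?_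
    simp only [hGcdef, (hinv y hy).2, Complex.ofReal_neg, neg_one_smul]
  -- the identity in the half-plane of convergence
  have hid : ∀ w : ℂ, 3 < w.re → (u : ℂ) * mellin Gc w * M (w + ((1 / 2 : ℝ) : ℂ)) +
      (v : ℂ) * mellin Ec w * M (w + ((3 / 2 : ℝ) : ℂ)) = 0 := by
    intro w hw
    have hE := termwise hC hKm hK (fun n => ((2 * u * (c (n + 1) / √(n + 1)) : ℝ) : ℂ)) (1 / 2)
      (2 * |u| * A) (by norm_num) (by positivity) (fun n => by
        have hn : (0 : ℝ) < (n : ℝ) + 1 := by positivity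
        have h1 := hA (n + 1) (by omega)
        push_cast at h1
        rw [Complex.norm_real, Real.norm_eq_abs, abs_mul, abs_mul, abs_div,
          abs_of_nonneg (Real.sqrt_nonneg _), abs_two, ← Real.sqrt_eq_rpow]
        have h2 : |c (n + 1)| / √((n : ℝ) + 1) ≤ A * √((n : ℝ) + 1) := by
          rw [div_le_iff₀ (Real.sqrt_pos.2 hn), mul_assoc, Real.mul_self_sqrt hn.le]
          exact h1
        calc 2 * |u| * (|c (n + 1)| / √((n : ℝ) + 1)) ≤ 2 * |u| * (A * √((n : ℝ) + 1)) :=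
              mul_le_mul_of_nonneg_left h2 (by positivity)
          _ = 2 * |u| * A * √((n : ℝ) + 1) := by ring) Ec (fun y hy => by
        have h1 := Complex.hasSum_ofReal.2 (hsumE y hy)
        have e : (fun n : ℕ => ((2 * u * (c (n + 1) / √(n + 1)) : ℝ) : ℂ) *
            ((y : ℂ) ^ ((1 / 2 : ℝ) : ℂ) * (K (2 * Real.pi * (n + 1) * y) : ℂ))) =
            fun n : ℕ => ((2 * u * (c (n + 1) / √(n + 1) *
              (√y * K (2 * Real.pi * (n + 1) * y))) : ℝ) : ℂ) := by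
          funext n
          rw [← Complex.ofReal_cpow hy.le, ← Real.sqrt_eq_rpow]
          push_cast
          ring
        rw [e]
        exact h1) w hw
    have hG := termwise hC hKm hK (fun n => ((-(4 * Real.pi * v) * (c (n + 1) * √(n + 1)) : ℝ) : ℂ))
      (3 / 2) (4 * Real.pi * |v| * A) (by norm_num) (by positivity) (fun n => by
        have hn : (0 : ℝ) < (n : ℝ) + 1 := by positivity
        have h1 := hA (n + 1) (by omega)
        push_cast at h1
        have h3 : ((n : ℝ) + 1) ^ (3 / 2 : ℝ) = ((n : ℝ) + 1) * √((n : ℝ) + 1) := by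
          rw [Real.sqrt_eq_rpow]
          nth_rw 2 [← Real.rpow_one ((n : ℝ) + 1)]
          rw [← Real.rpow_add hn]
          norm_num
        rw [Complex.norm_real, Real.norm_eq_abs, abs_mul, abs_neg, abs_mul, abs_mul, abs_mul,
          abs_of_nonneg (Real.sqrt_nonneg _), abs_of_pos hpi, h3,
          abs_of_pos (by norm_num : (0 : ℝ) < 4)]
        calc 4 * Real.pi * |v| * (|c (n + 1)| * √((n : ℝ) + 1)) ≤
              4 * Real.pi * |v| * ((A * ((n : ℝ) + 1)) * √((n : ℝ) + 1)) := by gcongr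
          _ = 4 * Real.pi * |v| * A * (((n : ℝ) + 1) * √((n : ℝ) + 1)) := by ring) Gc
      (fun y hy => by
        have h1 := Complex.hasSum_ofReal.2 (hsumG y hy)
        have h3 : y ^ (3 / 2 : ℝ) = y * √y := by
          rw [Real.sqrt_eq_rpow]
          nth_rw 2 [← Real.rpow_one y]
          rw [← Real.rpow_add hy]
          norm_num
        have e : (fun n : ℕ => ((-(4 * Real.pi * v) * (c (n + 1) * √(n + 1)) : ℝ) : ℂ) *
            ((y : ℂ) ^ ((3 / 2 : ℝ) : ℂ) * (K (2 * Real.pi * (n + 1) * y) : ℂ))) =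
            fun n : ℕ => ((-(4 * Real.pi * v) * (c (n + 1) * √(n + 1) *
              (y * √y * K (2 * Real.pi * (n + 1) * y))) : ℝ) : ℂ) := by
          funext n
          rw [← Complex.ofReal_cpow hy.le, h3]
          push_cast
          ring
        rw [e]
        exact h1) w hw
    have hE' := (hE.mul_left (v : ℂ)).mul_right (M (w + ((3 / 2 : ℝ) : ℂ)))
    have hG' := (hG.mul_left (u : ℂ)).mul_right (M (w + ((1 / 2 : ℝ) : ℂ)))
    have hterm : ∀ n : ℕ, (u : ℂ) * (((-(4 * Real.pi * v) * (c (n + 1) * √(n + 1)) : ℝ) : ℂ) *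
        ((2 * Real.pi * (n + 1) : ℝ) : ℂ) ^ (-(w + ((3 / 2 : ℝ) : ℂ))) *
          M (w + ((3 / 2 : ℝ) : ℂ))) * M (w + ((1 / 2 : ℝ) : ℂ)) =
        -((v : ℂ) * (((2 * u * (c (n + 1) / √(n + 1)) : ℝ) : ℂ) *
        ((2 * Real.pi * (n + 1) : ℝ) : ℂ) ^ (-(w + ((1 / 2 : ℝ) : ℂ))) *
          M (w + ((1 / 2 : ℝ) : ℂ))) * M (w + ((3 / 2 : ℝ) : ℂ))) := by
      intro n
      have hn : (0 : ℝ) < (n : ℝ) + 1 := by positivity
      have hb : ((2 * Real.pi * (n + 1) : ℝ) : ℂ) ≠ 0 := by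
        rw [Complex.ofReal_ne_zero]
        positivity
      have e1 : -(w + ((3 / 2 : ℝ) : ℂ)) = -(w + ((1 / 2 : ℝ) : ℂ)) + (-1) := by
        push_cast
        ring
      rw [e1, Complex.cpow_add _ _ hb, Complex.cpow_neg_one]
      have e2 : (u : ℂ) * (((-(4 * Real.pi * v) * (c (n + 1) * √(n + 1)) : ℝ) : ℂ) *
          ((2 * Real.pi * (n + 1) : ℝ) : ℂ)⁻¹) =
          -((v : ℂ) * ((2 * u * (c (n + 1) / √(n + 1)) : ℝ) : ℂ)) := by
        rw [← Complex.ofReal_inv, ← Complex.ofReal_mul, ← Complex.ofReal_mul, ← Complex.ofReal_mul,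
          ← Complex.ofReal_neg]
        congr 1
        have h1 : √((n : ℝ) + 1) ≠ 0 := (Real.sqrt_pos.2 hn).ne'
        have h2 : (n : ℝ) + 1 = √((n : ℝ) + 1) * √((n : ℝ) + 1) := (Real.mul_self_sqrt hn.le).symm
        have h3 : √((n : ℝ) + 1) * (2 * Real.pi * ((n : ℝ) + 1))⁻¹ =
            (2 * Real.pi * √((n : ℝ) + 1))⁻¹ := by
          nth_rw 2 [h2]
          field_simp
        calc u * (-(4 * Real.pi * v) * (c (n + 1) * √((n : ℝ) + 1)) *
              (2 * Real.pi * ((n : ℝ) + 1))⁻¹) =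
              u * (-(4 * Real.pi * v) * (c (n + 1) * (√((n : ℝ) + 1) *
                (2 * Real.pi * ((n : ℝ) + 1))⁻¹))) := by ring
          _ = -(v * (2 * u * (c (n + 1) / √((n : ℝ) + 1)))) := by
              rw [h3]
              field_simp
              ring
      linear_combination (((2 * Real.pi * (n + 1) : ℝ) : ℂ) ^ (-(w + ((1 / 2 : ℝ) : ℂ))) *
        M (w + ((3 / 2 : ℝ) : ℂ)) * M (w + ((1 / 2 : ℝ) : ℂ))) * e2
    have hG'' := hE'.neg
    have e3 := (funext hterm ▸ hG').unique hG''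
    linear_combination e3
  -- analytic continuation
  have hMd : ∀ s : ℂ, 1 / 4 < s.re → DifferentiableAt ℂ M s := fun s hs =>
    (kMellin hC hKm hK hs).1
  set U : Set ℂ := {w | -(1 / 4 : ℝ) < w.re} with hU
  have hUo : IsOpen U := isOpen_lt continuous_const Complex.continuous_re
  have hMs : ∀ (κ : ℝ) (w : ℂ), 1 / 2 ≤ κ → w ∈ U →
      DifferentiableAt ℂ (fun z => M (z + (κ : ℂ))) w := by
    intro κ w hκ hw
    have h1 : 1 / 4 < (w + (κ : ℂ)).re := by
      have : -(1 / 4 : ℝ) < w.re := hw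
      simp only [Complex.add_re, Complex.ofReal_re]
      linarith
    exact DifferentiableAt.comp (g := M) (f := fun z : ℂ => z + (κ : ℂ)) w (hMd _ h1)
      (differentiableAt_id.add_const _)
  set Φ : ℂ → ℂ := fun w => (u : ℂ) * mellin Gc w * M (w + ((1 / 2 : ℝ) : ℂ)) +
      (v : ℂ) * mellin Ec w * M (w + ((3 / 2 : ℝ) : ℂ)) with hΦ
  have hΦd : DifferentiableOn ℂ Φ U := by
    intro w hw
    refine DifferentiableAt.differentiableWithinAt ?_
    exact (((hGent w).1.const_mul (u : ℂ)).mul (hMs (1 / 2) w (by norm_num) hw)).add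
      (((hEent w).1.const_mul (v : ℂ)).mul (hMs (3 / 2) w (by norm_num) hw))
  have hΦa : AnalyticOnNhd ℂ Φ U := hΦd.analyticOnNhd hUo
  have hUp : IsPreconnected U := (convex_halfSpace_re_gt (-(1 / 4 : ℝ))).isPreconnected
  have h4 : (4 : ℂ) ∈ U := by
    show -(1 / 4 : ℝ) < (4 : ℂ).re
    norm_num
  have hev : Φ =ᶠ[𝓝 (4 : ℂ)] 0 := by
    have h5 : {w : ℂ | 3 < w.re} ∈ 𝓝 (4 : ℂ) :=
      (isOpen_lt continuous_const Complex.continuous_re).mem_nhds (by
        show (3 : ℝ) < (4 : ℂ).re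
        norm_num)
    filter_upwards [h5] with w hw
    exact hid w hw
  have hΦ0 : EqOn Φ 0 U := hΦa.eqOn_zero_of_preconnected_of_eventuallyEq_zero hUp h4 hev
  -- the strip
  set B : ℂ → ℂ := fun w => M (w + ((3 / 2 : ℝ) : ℂ)) * M (-w + ((1 / 2 : ℝ) : ℂ)) +
      M (-w + ((3 / 2 : ℝ) : ℂ)) * M (w + ((1 / 2 : ℝ) : ℂ)) with hB
  have hstrip : ∀ w : ℂ, w ∈ U → -w ∈ U → mellin Ec w * B w = 0 := by
    intro w hw hw'
    have e1 : (u : ℂ) * mellin Gc w * M (w + ((1 / 2 : ℝ) : ℂ)) +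
      (v : ℂ) * mellin Ec w * M (w + ((3 / 2 : ℝ) : ℂ)) = 0 := hΦ0 hw
    have e2 : (u : ℂ) * mellin Gc (-w) * M (-w + ((1 / 2 : ℝ) : ℂ)) +
      (v : ℂ) * mellin Ec (-w) * M (-w + ((3 / 2 : ℝ) : ℂ)) = 0 := hΦ0 hw'
    rw [symE, symG] at e2
    have hv' : (v : ℂ) ≠ 0 := Complex.ofReal_ne_zero.2 hv
    apply mul_left_cancel₀ hv'
    rw [hB]
    simp only
    linear_combination M (-w + ((1 / 2 : ℝ) : ℂ)) * e1 + M (w + ((1 / 2 : ℝ) : ℂ)) * e2
  have hUne : ∀ᶠ w in 𝓝 (0 : ℂ), w ∈ U := hUo.mem_nhds (by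
    show -(1 / 4 : ℝ) < (0 : ℂ).re
    norm_num)
  have hUne' : ∀ᶠ w in 𝓝 (0 : ℂ), -w ∈ U := by
    have h5 : Tendsto (fun w : ℂ => -w) (𝓝 0) (𝓝 0) := by
      have := (continuous_neg (G := ℂ)).tendsto 0
      rwa [neg_zero] at this
    exact h5.eventually hUne
  have hMc : ∀ s : ℝ, 1 / 2 ≤ s → ContinuousAt M (s : ℂ) := fun s hs =>
    (hMd _ (by rw [Complex.ofReal_re]; linarith)).continuousAt
  have hMne : ∀ s : ℝ, 0 < s → M (s : ℂ) ≠ 0 := by
    intro s hs
    rw [hM, mellin_real]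
    exact Complex.ofReal_ne_zero.2 (hKne s hs)
  have hBc : ContinuousAt B 0 := by
    have f1 : ∀ s : ℝ, 1 / 2 ≤ s → ContinuousAt (fun w : ℂ => M (w + (s : ℂ))) 0 := by
      intro s hs
      have g1 : ContinuousAt (fun w : ℂ => w + (s : ℂ)) 0 := by fun_prop
      exact ContinuousAt.comp (g := M) (f := fun w : ℂ => w + (s : ℂ)) (by
        rw [zero_add]; exact hMc s hs) g1
    have f2 : ∀ s : ℝ, 1 / 2 ≤ s → ContinuousAt (fun w : ℂ => M (-w + (s : ℂ))) 0 := by
      intro s hs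
      have g1 : ContinuousAt (fun w : ℂ => -w + (s : ℂ)) 0 := by fun_prop
      exact ContinuousAt.comp (g := M) (f := fun w : ℂ => -w + (s : ℂ)) (by
        rw [neg_zero, zero_add]; exact hMc s hs) g1
    exact ((f1 (3 / 2) (by norm_num)).mul (f2 (1 / 2) le_rfl)).add
      ((f2 (3 / 2) (by norm_num)).mul (f1 (1 / 2) le_rfl))
  have hB0 : B 0 ≠ 0 := by
    rw [hB]
    simp only [neg_zero, zero_add]
    have h5 := hMne (3 / 2) (by norm_num)
    have h6 := hMne (1 / 2) (by norm_num)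
    have h7 : M ((3 / 2 : ℝ) : ℂ) * M ((1 / 2 : ℝ) : ℂ) +
        M ((3 / 2 : ℝ) : ℂ) * M ((1 / 2 : ℝ) : ℂ) = 2 * (M ((3 / 2 : ℝ) : ℂ) * M ((1 / 2 : ℝ) : ℂ)) := by
      ring
    rw [h7]
    exact mul_ne_zero two_ne_zero (mul_ne_zero h5 h6)
  have hEz : mellin Ec =ᶠ[𝓝 (0 : ℂ)] 0 := by
    filter_upwards [hUne, hUne', hBc.eventually_ne hB0] with w hw hw' hBw
    exact (mul_eq_zero.1 (hstrip w hw hw')).resolve_right hBw
  have hEall : mellin Ec = 0 := by
    have h5 : AnalyticOnNhd ℂ (mellin Ec) univ :=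
      (show DifferentiableOn ℂ (mellin Ec) univ from fun s _ =>
        (hEent s).1.differentiableWithinAt).analyticOnNhd isOpen_univ
    exact h5.eq_of_eventuallyEq (analyticOnNhd_const (v := (0 : ℂ))) hEz
  -- inversion
  intro y hy
  have h5 := mellinInv_mellin_eq 0 Ec hy (by
      have := (hEent ((0 : ℝ) : ℂ)).2
      exact this) (by
      rw [hEall]
      unfold Complex.VerticalIntegrable
      simp) (by
      have h6 : ContinuousAt E y := hEc.continuousAt (isOpen_Ioi.mem_nhds hy)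
      exact Complex.continuous_ofReal.continuousAt.comp h6)
  rw [hEall] at h5
  have h6 : Ec y = 0 := by
    rw [← h5]
    unfold mellinInv
    simp
  exact Complex.ofReal_eq_zero.1 h6

/-- The Bessel function is measurable. -/
theorem kb_measurable (t : ℝ) : Measurable (KB t) := by
  have h1 : StronglyMeasurable (fun p : ℝ × ℝ =>
      Real.exp (-(p.1 * Real.cosh p.2)) * Real.cos (t * p.2)) := by
    apply Continuous.stronglyMeasurable
    fun_prop
  exact (h1.integral_prod_right (ν := volume.restrict (Ioi (0 : ℝ)))).measurable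

theorem vert_eq : (fun y : ℝ => (⟨0, y⟩ : ℂ)) = fun y : ℝ => (y : ℂ) * Complex.I := by
  funext y
  apply Complex.ext <;> simp

theorem vert_cont : Continuous (fun y : ℝ => (⟨0, y⟩ : ℂ)) := by
  rw [vert_eq]
  fun_prop

end Q3M

open Q3M in
theorem stmtQ3 (hQ1 : StmtQ1) (hQ2 : StmtQ2) : StmtQ3 := by
  intro f t ρ hf hρ hre him
  have hex : ∀ m : ℕ, ∃ c : ℝ, 1 ≤ m → IsHk f m c := by
    intro m
    by_cases hm : 1 ≤ m
    · obtain ⟨c, hc⟩ := hf.hecke m hm
      exact ⟨c, fun _ => hc⟩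
    · exact ⟨0, fun h => absurd h hm⟩
  choose c hc using hex
  obtain ⟨hinv, ⟨C', δ, hδ, hdec⟩, ⟨A, hA⟩, hsum⟩ := hQ2 f t ρ c hf hρ hc
  obtain ⟨⟨C, hK⟩, hKne⟩ := hQ1 t
  have hsm := hf.smooth
  have hopen : IsOpen {z : ℂ | 0 < z.im} := isOpen_lt continuous_const Complex.continuous_im
  have hEc : ContinuousOn (fE f) (Ioi 0) :=
    hsm.continuousOn.comp vert_cont.continuousOn fun y hy => hy
  have hGc : ContinuousOn (fG f) (Ioi 0) := by
    have h1 : ContinuousOn (fderiv ℝ (ext f)) {z : ℂ | 0 < z.im} :=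
      hsm.continuousOn_fderiv_of_isOpen hopen (by simp)
    have h2 : ContinuousOn (fun y : ℝ => fderiv ℝ (ext f) (⟨0, y⟩ : ℂ)) (Ioi 0) :=
      h1.comp vert_cont.continuousOn fun y hy => hy
    exact continuousOn_id.mul (h2.clm_apply continuousOn_const)
  refine core (K := KB t) (C := max C 0) (le_max_right _ _) (kb_measurable t) (fun X hX => ?_) hKne
    hEc hGc hinv hδ hdec c hA him (fun y hy => (hsum y hy).1) (fun y hy => (hsum y hy).2)
  refine (hK X hX).trans ?_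
  have h1 : 0 ≤ X ^ (-(1 / 4 : ℝ)) := Real.rpow_nonneg hX.le _
  exact mul_le_mul_of_nonneg_right (mul_le_mul_of_nonneg_right (le_max_left _ _) h1)
    (Real.exp_pos _).le

end Pool.Agent.A54.Av
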