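import Mathlib

/-!
# Package `Av`, part C: pairs of matrices of equal determinant almost fixing a point

GOAL of this part: `StmtPC`. A matrix `(A, -Q; C, D)` with `A = D + P` has trace `s = 2 D + P` and
`4 det = s² + Δ`, `Δ = 4 Q C - P²`. Pure finite combinatorics of integers.

CONVENTIONS. `x : O8` stands for the vectors `c = (c1, c2)`, `d`, `p`, `q`. Write
`v × w = v1 w2 - v2 w1`, `[v, w] = v1 w1 - v2 w2`, `h = c2 - c1`. In every statement `S` is an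
arbitrary finite set, so nothing has to be decidable; count with
`Finset.card_le_mul_card_image` (`card S ≤ k · card (image)` if all fibres have at most `k` elements),
`Finset.card_eq_sum_card_fiberwise`, and `card_int_le` below.
`λ = E / H + δ / η ≥ 2`.

Every module: file `Pool/Agent/Lib/MP_a54f13_nt/Av/<Name>.lean`, importing
`Pool.Agent.Lib.MP_a54f13_nt.Av.SpecC` and what is named in the task, private names in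
`namespace Pool.Agent.A54.Av.<Name>M`, final theorem `Pool.Agent.A54.Av.stmt<Name>`, the other Props
used are hypotheses of the theorem.
-/

set_option autoImplicit false

namespace Pool.Agent.A54.Av

noncomputable section

/-- a finite set of integers in which all differences are at most `L` has at most `L + 1`
elements -/
theorem card_int_le (s : Finset ℤ) (L : ℝ) (hL : 0 ≤ L)
    (h : ∀ x ∈ s, ∀ y ∈ s, ((|x - y| : ℤ) : ℝ) ≤ L) : (s.card : ℝ) ≤ L + 1 := by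
  rcases s.eq_empty_or_nonempty with rfl | hne
  · simp; linarith
  · have h1 : s ⊆ Finset.Icc (s.min' hne) (s.max' hne) := fun x hx =>
      Finset.mem_Icc.mpr ⟨s.min'_le x hx, s.le_max' x hx⟩
    have h2 := Finset.card_le_card h1
    rw [Int.card_Icc] at h2
    have h3 := h _ (s.max'_mem hne) _ (s.min'_mem hne)
    have h4 : s.min' hne ≤ s.max' hne := s.min'_le _ (s.max'_mem hne)
    rw [abs_of_nonneg (by linarith)] at h3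
    have h5 : ((s.max' hne + 1 - s.min' hne).toNat : ℝ) = ((s.max' hne - s.min' hne : ℤ) : ℝ) + 1 := by
      have h6 : ((s.max' hne + 1 - s.min' hne).toNat : ℤ) = s.max' hne + 1 - s.min' hne :=
        Int.toNat_of_nonneg (by linarith)
      have h7 : (((s.max' hne + 1 - s.min' hne).toNat : ℤ) : ℝ) =
          ((s.max' hne + 1 - s.min' hne : ℤ) : ℝ) := by rw [h6]
      push_cast at h7 ⊢
      linarith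
    calc (s.card : ℝ) ≤ ((s.max' hne + 1 - s.min' hne).toNat : ℝ) := by exact_mod_cast h2
      _ ≤ L + 1 := by rw [h5]; linarith

/-- the same for integers in an interval `[-L, L]` -/
theorem card_int_le' (s : Finset ℤ) (L : ℝ) (hL : 0 ≤ L)
    (h : ∀ x ∈ s, ((|x| : ℤ) : ℝ) ≤ L) : (s.card : ℝ) ≤ 2 * L + 1 := by
  refine card_int_le s (2 * L) (by linarith) fun x hx y hy => ?_
  have h1 := h x hx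
  have h2 := h y hy
  have h3 : ((|x - y| : ℤ) : ℝ) ≤ ((|x| : ℤ) : ℝ) + ((|y| : ℤ) : ℝ) := by
    exact_mod_cast abs_sub x y
  linarith

/-- eight integers -/
structure O8 where
  c1 : ℤ
  c2 : ℤ
  d1 : ℤ
  d2 : ℤ
  p1 : ℤ
  p2 : ℤ
  q1 : ℤ
  q2 : ℤ
  deriving DecidableEq

/-- the parameters of a block -/
structure Pm (H η δ E ρ : ℕ) : Prop where
  rho : 1 ≤ ρ
  eta : 1 ≤ η
  etaH : η ≤ H
  del : η ≤ δ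
  EH : H ≤ E
  alt : δ = η ∨ E ≤ 100 * H

/-- `λ = E / H + δ / η` -/
def lam (H η δ E : ℕ) : ℝ := (E : ℝ) / H + (δ : ℝ) / η

/-- the conditions on `c` -/
structure Cc (H η : ℕ) (c1 c2 : ℤ) : Prop where
  l1 : (H : ℤ) ≤ c1
  u1 : c1 < 2 * H
  l2 : (H : ℤ) ≤ c2
  u2 : c2 < 2 * H
  hl : (η : ℤ) ≤ c2 - c1
  hu : c2 - c1 < 2 * η

/-- the conditions on `x` in a block: differences of solutions -/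
structure Blk (H η δ E ρ : ℕ) (x : O8) : Prop where
  cc : Cc H η x.c1 x.c2
  d1 : |x.d1| ≤ ρ * E
  d2 : |x.d2| ≤ ρ * E
  dd : |x.d1 - x.d2| ≤ 3 * ρ * δ
  p1 : |x.p1| ≤ 2 * ρ * H
  p2 : |x.p2| ≤ 2 * ρ * H
  q1 : |x.q1| ≤ 2 * ρ * H
  q2 : |x.q2| ≤ 2 * ρ * H
  pc : |x.p1 * x.c2 - x.p2 * x.c1| ≤ 2 * ρ * H
  qc : |x.q1 * x.c2 - x.q2 * x.c1| ≤ 2 * ρ * H
  eq : x.p1 * x.d1 - x.p2 * x.d2 + x.q1 * x.c1 - x.q2 * x.c2 = 0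

/-- **Ca** the differences with `p1 = p2`. Proof. Here `p × c = p1 h`, so `|p1| ≤ 2 ρ H / η`; at most
`5 ρ H / η` values (`η ≤ H`, `ρ ≥ 1`). At most `H` values of `c1`, `η` values of `h`,
`2 ρ E + 1 ≤ 3 ρ E` values of `d2`, `6 ρ δ + 1 ≤ 7 ρ δ` values of `d1 - d2`. Given `p, c, d`: two
solutions `q, q'` have a difference `w` with `[w, c] = 0` and `|w × c| ≤ 4 ρ H`. If `g0 = gcd(c1, c2)`,
`w = t (c2, c1) / g0` with an integer `t`, `w × c = t (c2² - c1²) / g0 = t h (c1 + c2) / g0`, and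
`g0 ∣ h`, `g0 ≤ h`, so `|t| (c1 + c2) ≤ 4 ρ H`, `|t| ≤ 2 ρ`, at most `2 ρ + 1 ≤ 3 ρ` values (differences
of values of `t` are at most `2 ρ`: `card_int_le`). Total at most
`5 ρ H/η · H η · 21 ρ² E δ · 3 ρ`. -/
def StmtCa : Prop := ∃ (C : ℝ) (M : ℕ), 0 ≤ C ∧ ∀ H η δ E ρ : ℕ, Pm H η δ E ρ → ∀ S : Finset O8,
  (∀ x ∈ S, Blk H η δ E ρ x ∧ x.p1 = x.p2) →
    (S.card : ℝ) ≤ C * (ρ : ℝ) ^ M * ((H : ℝ) ^ 2 * E * δ)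

/-- **Cb** the differences with `p1 ≠ p2` and `|p1| η < 4 ρ H`. Proof. Let `u = p2 - p1 ≠ 0`.
`u c1 = p1 h - p × c`, `|p1| h ≤ 2 |p1| η < 8 ρ H`, so `|u| ≤ 10 ρ`. Number of `(c, p)`:
`H η · 9 ρ H / η · 21 ρ`. `[p, d] = p1 (d1 - d2) - u d2`, so
`|[q, c]| = |[p, d]| ≤ (4 ρ H / η) 3 ρ δ + 10 ρ² E ≤ 12 ρ² H λ`; the identity
`q1 (c2² - c1²) = c2 (q × c) - c1 [q, c]` gives
`|q1| ≤ (|q × c| + |[q, c]|) / h ≤ (2 ρ H + 12 ρ² H λ) / η ≤ 14 ρ² H λ / η`, at most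
`29 ρ² H λ / η` values (`H λ ≥ η`); given `q1`, `|q2 c1 - q1 c2| ≤ 2 ρ H`, `c1 ≥ H`: at most `5 ρ` values of `q2`.
Given `c, p, q`: two solutions `d, d'` differ by `w` with `p1 w1 = p2 w2`, so `w = t (p2, p1) / g`,
`g = gcd(p1, p2)`, `w1 - w2 = t u / g`, `|u| / g ≥ 1` an integer, `|w1 - w2| ≤ 6 ρ δ`: at most `7 ρ δ` values. -/
def StmtCb : Prop := ∃ (C : ℝ) (M : ℕ), 0 ≤ C ∧ ∀ H η δ E ρ : ℕ, Pm H η δ E ρ → ∀ S : Finset O8,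
  (∀ x ∈ S, Blk H η δ E ρ x ∧ x.p1 ≠ x.p2 ∧ |x.p1| * η < 4 * ρ * H) →
    (S.card : ℝ) ≤ C * (ρ : ℝ) ^ M * ((H : ℝ) ^ 3 * lam H η δ E * δ / η)

/-- the main class, with `g = gcd(p1, p2)` -/
structure BlkG (H η δ E ρ g : ℕ) (x : O8) : Prop where
  blk : Blk H η δ E ρ x
  ne : x.p1 ≠ x.p2
  big : 4 * (ρ : ℤ) * H ≤ |x.p1| * η
  gcd : Int.gcd x.p1 x.p2 = g

/-- **Cf** consequences of `BlkG` used by `Cg` and `Cr`. Here `p = g (a, b)`, `u = b - a`. Proof.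
(1) existence of `a, b`: definition of the gcd. `a ≠ 0` as `p1 ≠ 0`.
(2) `g |a| = |p1| ≤ 2 ρ H`.
(3), (4) `g u c1 = p1 h - p × c`, `|p × c| ≤ 2 ρ H ≤ |p1| η / 2 ≤ |p1| h / 2`, so
`|p1| h / 2 ≤ g |u| c1 ≤ (3/2) |p1| h`; with `H ≤ c1 < 2 H`, `η ≤ h < 2 η`: `|a| η ≤ 4 H |u|`,
`|u| H ≤ 3 |a| η`. (5) from `|u| c1 ≤ (3/2) |a| h` and `h < H ≤ c1`: `|u| < 2 |a|`, so `b ≠ -a`.
(6) `p × c = g (a c2 - b c1)`.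
(7) `[q, c] = - g (a d1 - b d2) = - g (a (d1 - d2) - u d2)`,
`|[q, c]| ≤ g (3 ρ |a| δ + (3 |a| η / H) ρ E) = 3 ρ g |a| η λ`;
`|q1| ≤ (|q × c| + |[q, c]|) / h ≤ (2 ρ H + 3 ρ g |a| η λ) / η ≤ g |a| / 2 + 3 ρ g |a| λ ≤ 4 ρ g |a| λ`
(identity `q1 (c2² - c1²) = c2 (q × c) - c1 [q, c]`, and `2 ρ H ≤ g |a| η / 2`). (8) from the equation. -/
def StmtCf : Prop := ∀ (H η δ E ρ g : ℕ) (x : O8), Pm H η δ E ρ → 1 ≤ g → BlkG H η δ E ρ g x →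
  ∃ a b : ℤ, x.p1 = g * a ∧ x.p2 = g * b ∧ IsCoprime a b ∧ a ≠ 0 ∧ a ≠ b ∧ a + b ≠ 0 ∧
    (g : ℤ) * |a| ≤ 2 * ρ * H ∧ |a| * η ≤ 4 * H * |b - a| ∧ |b - a| * H ≤ 3 * |a| * η ∧
    |a * x.c2 - b * x.c1| * g ≤ 2 * ρ * H ∧ ((|x.q1| : ℤ) : ℝ) ≤ 4 * ρ * g * |(a : ℝ)| * lam H η δ E ∧
    (g : ℤ) ∣ x.q1 * x.c1 - x.q2 * x.c2

/-- **Cd** the number of `d` for given `c, p, q` in the main class. Proof. Let `p = g (a, b)` as in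
`Cf`. Two solutions differ by `w` with `a w1 = b w2`, `w = t (b, a)`; `|w1 - w2| = |t| |b - a| ≤ 6 ρ δ` and
`|w2| = |t| |a| ≤ 2 ρ E`. So the number is at most `1 + min (6 ρ δ / |b - a|) (2 ρ E / |a|)`. If `δ = η`, then
`6 ρ η / |b - a| ≤ 24 ρ H / |a|`; if `E ≤ 100 H`, then `2 ρ E / |a| ≤ 200 ρ H / |a|`. And
`1 ≤ 2 ρ H / |a|`. (Here `|p1| = g |a|`, so `1 / |a| = g / |p1|`.) -/
def StmtCd : Prop := ∀ H η δ E ρ g : ℕ, Pm H η δ E ρ → 1 ≤ g → ∀ S : Finset O8,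
  (∀ x ∈ S, BlkG H η δ E ρ g x) →
  (∀ x ∈ S, ∀ y ∈ S, x.c1 = y.c1 ∧ x.c2 = y.c2 ∧ x.p1 = y.p1 ∧ x.p2 = y.p2 ∧ x.q1 = y.q1 ∧
    x.q2 = y.q2) → ∀ x ∈ S, (S.card : ℝ) ≤ 202 * ρ * H * g / |(x.p1 : ℝ)|

/-- **Cg** crude bound for the main class. Proof (with `Cf`, `Cd`). Count `x = (c, d, g a, g b, q)` by
`a`: `0 < |a| ≤ 2 ρ H / g`, at most `4 ρ H / g` values. Given `a`: `u = b - a`, `0 < |u| ≤ 3 |a| η / H`, at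
most `6 |a| η / H` values (nonzero integers in `[-L, L]`: at most `2 L`); `c1`: `H` values; given
`a, u, c1`: `|a h - u c1| = |a c2 - b c1| ≤ 2 ρ H / g`, so `h` lies in an interval of length
`4 ρ H / (g |a|)`, at most `1 + 4 ρ H / (g |a|) ≤ 6 ρ H / (g |a|)` values. Given `a, b, c`:
`|q1| ≤ 4 ρ g |a| λ`, at most `9 ρ g |a| λ` values, and then at most `5 ρ` values of `q2`
(`|q1 c2 - q2 c1| ≤ 2 ρ H`, `c1 ≥ H`). Given these, at most `202 ρ H / |a|` values of `d`. Product for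
fixed `a`: `6 |a| η / H · H · 6 ρ H / (g |a|) · 45 ρ² g |a| λ · 202 ρ H / |a| = C ρ⁴ η H² λ`. Times
`4 ρ H / g`. -/
def StmtCg : Prop := ∃ (C : ℝ) (M : ℕ), 0 ≤ C ∧ ∀ H η δ E ρ g : ℕ, Pm H η δ E ρ → 1 ≤ g →
  ∀ S : Finset O8, (∀ x ∈ S, BlkG H η δ E ρ g x) →
    (S.card : ℝ) ≤ C * (ρ : ℝ) ^ M * ((η : ℝ) * H ^ 3 * lam H η δ E) / g

/-- **Cr1** the number of `q`, using the divisibility. Proof. Let `e = a c2 - b c1`,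
`f = a q2 - b q1`, `v = q × c`. Then `f c1 = q1 e - a v`, so `|f| ≤ (Z · 2 ρ H / g + |a| 2 ρ H) / H =
2 ρ (Z / g + |a|)`: at most `4 ρ (Z / g + |a|) + 1 ≤ 5 ρ (Z / g + |a|)` values of `f`. For fixed `f` two
elements `q, q'` of `Q` differ by `w` with `a w2 = b w1`, so `w = k (a, b)` (`a, b` coprime),
`|k| |a| ≤ 2 Z`, and `g ∣ k (a c1 - b c2)`, so `k` is a multiple of `g / G`, `G = gcd(g, a c1 - b c2)`: at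
most `1 + 2 Z G / (|a| g) ≤ G (1 + 2 Z / (|a| g))` values of `k`. -/
def StmtCr1 : Prop := ∀ (H ρ g : ℕ) (a b c1 c2 : ℤ) (Z : ℝ), 1 ≤ H → 1 ≤ ρ → 1 ≤ g → 0 ≤ Z →
  IsCoprime a b → a ≠ 0 → (H : ℤ) ≤ c1 → |a * c2 - b * c1| * g ≤ 2 * ρ * H →
  ∀ Q : Finset (ℤ × ℤ), (∀ q ∈ Q, ((|q.1| : ℤ) : ℝ) ≤ Z ∧ |q.1 * c2 - q.2 * c1| ≤ 2 * ρ * H ∧
    (g : ℤ) ∣ q.1 * c1 - q.2 * c2) →
    (Q.card : ℝ) ≤ 5 * ρ * (Z / g + |(a : ℝ)|) * (1 + 2 * Z / (|(a : ℝ)| * g)) *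
      (Int.gcd g (a * c1 - b * c2) : ℝ)

/-- **Cr2** the sum of the gcds over `c`. Proof. `e = a c2 - b c1` takes at most
`1 + 4 ρ H / g ≤ 6 ρ H / g` values (`g ≤ g |a| ≤ 2 ρ H`). For fixed `e` the elements of `A` are
`c0 + j (a, b)` with integers `j`, any two `j` differ by at most `H / |a|` (`H ≤ c1 < 2 H`), and
`a c1 - b c2 = X + j (a² - b²)`. `gcd(g, n) ≤ ∑_{G ∣ g, G ∣ n} G`, so
`∑_j gcd(g, X + j (a² - b²)) ≤ ∑_{G ∣ g} G · #{j : G ∣ X + j (a² - b²)}`. Two such `j` differ by a multiple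
of `G / G'`, `G' = gcd(G, a² - b²)`, so their number is at most `1 + H G' / (|a| G) ≤
3 ρ H G' / (|a| G)` (as `|a| G ≤ |a| g ≤ 2 ρ H`), `G' ≤ gcd(g, a² - b²)`. So
`∑_j ≤ τ(g) gcd(g, a² - b²) 3 ρ H / |a|`. -/
def StmtCr2 : Prop := ∀ (H ρ g : ℕ) (a b : ℤ), 1 ≤ H → 1 ≤ ρ → 1 ≤ g → IsCoprime a b → a ≠ 0 →
  (g : ℤ) * |a| ≤ 2 * ρ * H →
  ∀ A : Finset (ℤ × ℤ), (∀ c ∈ A, (H : ℤ) ≤ c.1 ∧ c.1 < 2 * H ∧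
    |a * c.2 - b * c.1| * g ≤ 2 * ρ * H) →
    ∑ c ∈ A, (Int.gcd g (a * c.1 - b * c.2) : ℝ) ≤
      18 * (ρ : ℝ) ^ 2 * H ^ 2 * g.divisors.card * (Int.gcd g (a ^ 2 - b ^ 2) : ℝ) /
        (g * |(a : ℝ)|)

/-- **Cr3** the sum of the gcds over `(a, b)`. Proof. `u = b - a`, `v = a + b` determine `a, b`;
`1 ≤ |u| ≤ U`, `1 ≤ |v| ≤ 2 N + U ≤ 5 N`, `gcd(g, a² - b²) = gcd(g, u v) ≤ gcd(g, u) gcd(g, v)`; and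
`∑_{1 ≤ u ≤ U} gcd(g, u) ≤ ∑_{G ∣ g} G ⌊U / G⌋ ≤ τ(g) U`. So the sum is at most
`2 U τ(g) · 2 · 5 N τ(g)`. -/
def StmtCr3 : Prop := ∀ (g : ℕ) (N U : ℝ), 1 ≤ g → 0 ≤ N → 0 ≤ U → U ≤ 3 * N →
  ∀ P : Finset (ℤ × ℤ), (∀ p ∈ P, |(p.1 : ℝ)| ≤ N ∧ p.1 ≠ p.2 ∧ p.1 + p.2 ≠ 0 ∧
    |((p.2 - p.1 : ℤ) : ℝ)| ≤ U) →
    ∑ p ∈ P, (Int.gcd g (p.1 ^ 2 - p.2 ^ 2) : ℝ) ≤ 20 * U * N * (g.divisors.card : ℝ) ^ 2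

/-- **Cr** refined bound for the main class. Proof (with `Cf`, `Cd`, `Cr1`, `Cr2`, `Cr3`). Split by
dyadic `N = 2^i ≤ |a| < 2 N`, `N ≤ 2 ρ H / g`. Given `(a, b, c, q)` at most `202 ρ H / N` values of `d`. Given
`(a, b, c)`, by `Cr1` with `Z = 4 ρ g |a| λ`, the number of `q` is at most
`5 ρ (4 ρ λ |a| + |a|) (1 + 8 ρ λ) G ≤ 225 ρ³ λ² |a| G ≤ 450 ρ³ λ² N G`, `G = gcd(g, a c1 - b c2)`. By
`Cr2`, `∑_c G ≤ 18 ρ² H² τ(g) gcd(g, a² - b²) / (g N)`, and by `Cr3` (`N' = 2 N`, `U = 6 N η / H ≤ 3 N'`)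
`∑_{(a,b)} gcd(g, a² - b²) ≤ 240 N² (η / H) τ(g)²`. Product:
`C ρ⁶ λ² H² η τ(g)³ N / g`; sum over the dyadic `N ≤ 2 ρ H / g` (`∑ 2^i ≤ 2 max`). -/
def StmtCr : Prop := ∃ (C : ℝ) (M : ℕ), 0 ≤ C ∧ ∀ H η δ E ρ g : ℕ, Pm H η δ E ρ → 1 ≤ g →
  ∀ S : Finset O8, (∀ x ∈ S, BlkG H η δ E ρ g x) →
    (S.card : ℝ) ≤ C * (ρ : ℝ) ^ M * ((η : ℝ) * H ^ 3 * lam H η δ E ^ 2) *
      (g.divisors.card : ℝ) ^ 3 / (g : ℝ) ^ 2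

/-- **Cs** the main class. Proof. Let `X = η H³ λ`. The part of `S` with `gcd(p1, p2) = g` has by `Cg`,
`Cr` at most `min (C ρ^M X / g) (C ρ^M X λ τ(g)³ / g²) ≤ C ρ^M X √λ τ(g)^{3/2} g^{-3/2}` elements
(`min a b ≤ √(a b)`; take the same `C, M` for both). With `τ(g) ≤ C' g^{1/4}`
(`Pool.Agent.Lib.MP_640417_ag.All.divisor_bound` in `Lib/MP_640417_ag/All/Divisor.lean`) this is at most
`C'' ρ^M X √λ g^{-9/8}`, and `∑_g g^{-9/8}` converges. -/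
def StmtCs : Prop := ∃ (C : ℝ) (M : ℕ), 0 ≤ C ∧ ∀ H η δ E ρ : ℕ, Pm H η δ E ρ → ∀ S : Finset O8,
  (∀ x ∈ S, Blk H η δ E ρ x ∧ x.p1 ≠ x.p2 ∧ 4 * (ρ : ℤ) * H ≤ |x.p1| * η) →
    (S.card : ℝ) ≤ C * (ρ : ℝ) ^ M * ((η : ℝ) * H ^ 3 * lam H η δ E * √(lam H η δ E))

/-- the bound for a block -/
def bb (H η δ E : ℕ) : ℝ :=
  (H : ℝ) ^ 2 * E * δ + (H : ℝ) ^ 3 * lam H η δ E * δ / η +
    (η : ℝ) * H ^ 3 * lam H η δ E * √(lam H η δ E)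

/-- conditions for the pairs of matrices: `(D_i + P_i, -Q_i; C_i, D_i)` -/
structure Pc (H B ρ : ℕ) (x : O8) : Prop where
  l1 : (H : ℤ) ≤ x.c1
  u1 : x.c1 < 2 * H
  l2 : (H : ℤ) ≤ x.c2
  u2 : x.c2 < 2 * H
  s1 : 0 ≤ 2 * x.d1 + x.p1
  t1 : 2 * x.d1 + x.p1 ≤ B
  s2 : 0 ≤ 2 * x.d2 + x.p2
  t2 : 2 * x.d2 + x.p2 ≤ B
  p1 : |x.p1| ≤ ρ * H
  p2 : |x.p2| ≤ ρ * H
  q1 : |x.q1| ≤ ρ * H
  q2 : |x.q2| ≤ ρ * H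
  pc : |x.p1 * x.c2 - x.p2 * x.c1| ≤ ρ * H
  qc : |x.q1 * x.c2 - x.q2 * x.c1| ≤ ρ * H
  e1 : (H : ℤ) ^ 2 ≤ ρ * (4 * x.q1 * x.c1 - x.p1 ^ 2)
  e2 : (H : ℤ) ^ 2 ≤ ρ * (4 * x.q2 * x.c2 - x.p2 ^ 2)
  eq : x.d1 ^ 2 + x.p1 * x.d1 + x.q1 * x.c1 = x.d2 ^ 2 + x.p2 * x.d2 + x.q2 * x.c2

/-- **Pb** from solutions to differences. Proof. For every `(c, d)` which occurs in `S` choose one
solution `(P⁰, Q⁰)`. The map `x ↦ (c, d, p - P⁰, q - Q⁰)` is injective on `S` and its values satisfy `Blk`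
(for fixed `c, d` the equation is linear in `(p, q)`). The image splits into the classes of `Ca`, `Cb`,
`Cs`. -/
def StmtPb : Prop := ∃ (C : ℝ) (M : ℕ), 0 ≤ C ∧ ∀ H η δ E B ρ : ℕ, Pm H η δ E ρ →
  ∀ S : Finset O8, (∀ x ∈ S, Pc H B ρ x ∧ Cc H η x.c1 x.c2 ∧ |x.d1| ≤ ρ * E ∧ |x.d2| ≤ ρ * E ∧
    |x.d1 - x.d2| ≤ 3 * ρ * δ) → (S.card : ℝ) ≤ C * (ρ : ℝ) ^ M * bb H η δ E

/-- **Pd** the difference of the discriminants, `Δ_i = 4 q_i c_i - p_i²`. Proof.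
`|q2 - q1 c2 / c1| ≤ ρ H / c1 ≤ ρ`, `|p2 - p1 c2 / c1| ≤ ρ`, so
`|Δ2 - (c2/c1)² Δ1| ≤ 4 c2 ρ + ρ (2 ρ H + ρ) ≤ 11 ρ² H`, and
`(c2/c1)² Δ1 - Δ1 = Δ1 h (c1 + c2) / c1²`. (1) `Δ1 ≤ 8 ρ H²`, `h (c1 + c2) / c1² ≤ 4 h / H` for `h ≥ 0`.
(4) for `h ≤ 0` this term is `≤ 0`, as `Δ1 > 0`. (2) `Δ1 ≥ H² / ρ` and, for `h ≥ 0`, `(c1 + c2) / c1² ≥ 1 / H`. For (3) exchange the roles of the two
indices in (2). -/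
def StmtPd : Prop := ∀ (H B ρ : ℕ) (x : O8), 1 ≤ H → 1 ≤ ρ → Pc H B ρ x →
  (0 ≤ x.c2 - x.c1 → (4 * x.q2 * x.c2 - x.p2 ^ 2) - (4 * x.q1 * x.c1 - x.p1 ^ 2) ≤
    32 * ρ * H * (x.c2 - x.c1) + 11 * ρ ^ 2 * H) ∧
  (12 * (ρ : ℤ) ^ 3 ≤ x.c2 - x.c1 →
    4 * x.q1 * x.c1 - x.p1 ^ 2 < 4 * x.q2 * x.c2 - x.p2 ^ 2) ∧
  (12 * (ρ : ℤ) ^ 3 ≤ x.c1 - x.c2 →
    4 * x.q2 * x.c2 - x.p2 ^ 2 < 4 * x.q1 * x.c1 - x.p1 ^ 2) ∧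
  (x.c2 - x.c1 ≤ 0 → (4 * x.q2 * x.c2 - x.p2 ^ 2) - (4 * x.q1 * x.c1 - x.p1 ^ 2) ≤
    11 * ρ ^ 2 * H)

/-- **P0** equal traces. Proof. `4 det = s² + Δ`, so `Δ1 = Δ2` and by `Pd` `|h| < 12 ρ³`. Values:
`c1`: `H`; `h`: `24 ρ³`; `p1`: `3 ρ H`; `p2` given `p1, c`: `3 ρ`; `q1`: `3 ρ H`; `q2` is determined by
`Δ2 = Δ1` (`c2 > 0`); `s`: `B + 1`; `d1, d2` are determined by `s` and `p`. -/
def StmtP0 : Prop := ∃ (C : ℝ) (M : ℕ), 0 ≤ C ∧ ∀ H B ρ : ℕ, 1 ≤ H → 1 ≤ ρ →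
  ∀ S : Finset O8, (∀ x ∈ S, Pc H B ρ x ∧ 2 * x.d1 + x.p1 = 2 * x.d2 + x.p2) →
    (S.card : ℝ) ≤ C * (ρ : ℝ) ^ M * (H : ℝ) ^ 3 * (B + 1)

/-- **P1** small `|h|`, different traces. Proof. `m = s1² - s2² = Δ2 - Δ1 > 0`, and
`m ≤ 32 ρ H · 32 ρ³ + 11 ρ² H ≤ C ρ⁴ H` by `Pd` (1), (4). Values of
`(c, p, q)`: `H · 64 ρ³ · 3 ρ H · 3 ρ · 3 ρ H · 3 ρ`. Given these, `m` is known, and `t = s1 - s2 > 0`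
divides `m`, `t² ≤ (s1 - s2)(s1 + s2) = m`, and `t` determines `s1, s2`: at most `√m ≤ C ρ² √H` values. Total
at most `C ρ^M H³ √H`. -/
def StmtP1 : Prop := ∃ (C : ℝ) (M : ℕ), 0 ≤ C ∧ ∀ H B ρ : ℕ, 1 ≤ H → 1 ≤ ρ →
  ∀ S : Finset O8, (∀ x ∈ S, Pc H B ρ x ∧ 2 * x.d2 + x.p2 < 2 * x.d1 + x.p1 ∧
    |x.c2 - x.c1| < 32 * (ρ : ℤ) ^ 3) → (S.card : ℝ) ≤ C * (ρ : ℝ) ^ M * (H : ℝ) ^ 4

/-- **PI** different traces, class I. Here `η = 2^i ≤ h < 2 η` and `s1 - s2 ≤ η`. Proof. For fixed `i`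
use `Pb` with `δ = η`, `E = B + H`: `|d_j| = |s_j - p_j| / 2 ≤ (B + ρ H) / 2 ≤ ρ E`;
`|p1 - p2| c1 ≤ |p1| h + ρ H ≤ ρ H (h + 1)`, so `|p1 - p2| ≤ 3 ρ η` and
`|d1 - d2| ≤ (η + 3 ρ η) / 2 ≤ 3 ρ η`. `λ = (B + H) / H + 1 ≤ 2 (B + H) / H`, so
`bb ≤ H² (B + H) η + 2 H² (B + H) + 3 η H^{3/2} (B + H)^{3/2}`; sum over the `i` with `2^i ≤ h < H`
(at most `log₂ H + 1 ≤ 2 √H` values, `∑ 2^i ≤ 2 H`). Result `≤ C ρ^M H^{5/2} (B + H)^{3/2}`, written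
with the square root `√(H (B + H))`: `H² (B + H) √(H (B + H))`. -/
def StmtPI : Prop := ∃ (C : ℝ) (M : ℕ), 0 ≤ C ∧ ∀ H B ρ : ℕ, 1 ≤ H → 1 ≤ ρ →
  ∀ S : Finset O8, (∀ x ∈ S, Pc H B ρ x ∧ 2 * x.d2 + x.p2 < 2 * x.d1 + x.p1 ∧
    32 * (ρ : ℤ) ^ 3 ≤ x.c2 - x.c1 ∧ ∃ i : ℕ, (2 : ℤ) ^ i ≤ x.c2 - x.c1 ∧
      x.c2 - x.c1 < 2 ^ (i + 1) ∧ (2 * x.d1 + x.p1) - (2 * x.d2 + x.p2) ≤ 2 ^ i) →
    (S.card : ℝ) ≤ C * (ρ : ℝ) ^ M * ((H : ℝ) ^ 2 * (B + H) * √((H : ℝ) * (B + H)))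

/-- **PII** different traces, class II: `η = 2^i ≤ h < 2 η`, `s1 - s2 > η`. Proof. `m = s1² - s2² =
Δ2 - Δ1 ≤ 32 ρ H h + 11 ρ² H ≤ 33 ρ H h ≤ 66 ρ H η` (`Pd`, `h ≥ 32 ρ³`). Let `t = s1 - s2`,
`δ = 2^j η ≤ t < 2 δ`, `j ≥ 0`. `s_k ≤ s1 + s2 = m / t ≤ 66 ρ H`, `δ² ≤ t² ≤ m ≤ 66 ρ H η`. Use `Pb`
with `E = 34 H`: `|d_k| ≤ (66 ρ H + ρ H)/2 ≤ 34 ρ H`, `|d1 - d2| ≤ (2 δ + 3 ρ η) / 2 ≤ 3 ρ δ`
(`|p1 - p2| ≤ 3 ρ η` as in `PI`). `λ = 34 + δ/η ≤ 35 δ/η`, so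
`bb ≤ C (H³ δ + H³ (δ/η)² + H³ δ^{3/2} η^{-1/2})`. Sum over `j` with `δ = 2^j η ≤ 9 √(ρ H η)` (geometric
sums): `≤ C ρ (H³ √(H η) + H⁴ / η + H^{15/4} η^{1/4})`; sum over `i`, `η = 2^i ≤ H`: `≤ C ρ H⁴`. -/
def StmtPII : Prop := ∃ (C : ℝ) (M : ℕ), 0 ≤ C ∧ ∀ H B ρ : ℕ, 1 ≤ H → 1 ≤ ρ →
  ∀ S : Finset O8, (∀ x ∈ S, Pc H B ρ x ∧
    32 * (ρ : ℤ) ^ 3 ≤ x.c2 - x.c1 ∧ ∃ i : ℕ, (2 : ℤ) ^ i ≤ x.c2 - x.c1 ∧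
      x.c2 - x.c1 < 2 ^ (i + 1) ∧ 2 ^ i < (2 * x.d1 + x.p1) - (2 * x.d2 + x.p2)) →
    (S.card : ℝ) ≤ C * (ρ : ℝ) ^ M * (H : ℝ) ^ 4

/-- **PC** the count. Proof. If `s1 = s2` use `P0`: `H³ (B + 1) ≤ H² (B + H) √(H (B + H))`. The cases
`s1 > s2` and `s1 < s2` are exchanged by the symmetry of the indices. Let `s1 > s2`: then
`Δ2 - Δ1 = s1² - s2² > 0`, so `h > -12 ρ³` by `Pd`. If `|h| < 32 ρ³` use `P1`; otherwise `h ≥ 32 ρ³ ≥ 1`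
and with `2^i ≤ h < 2^{i+1}` either `PI` or `PII` applies. `H⁴ ≤ H² (B + H) √(H (B + H))`. -/
def StmtPC : Prop := ∃ (C : ℝ) (M : ℕ), 0 ≤ C ∧ ∀ H B ρ : ℕ, 1 ≤ H → 1 ≤ ρ →
  ∀ S : Finset O8, (∀ x ∈ S, Pc H B ρ x) →
    (S.card : ℝ) ≤ C * (ρ : ℝ) ^ M * ((H : ℝ) ^ 2 * (B + H) * √((H : ℝ) * (B + H)))

end

end Pool.Agent.A54.Av
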