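import Pool.Agent.Lib.MP_a54f13_nt.Av.SpecA
import Pool.Agent.Lib.MP_a54f13_nt.Av.SpecC

/-!
# Package `Av`, part B: the geometric side

GOAL of part B: `StmtBP`. Notation: `γ = (a, b; c, d)`, `n = det γ`, `V = V_γ(z)`, `n + V = |a_γ|²`,
`β = bet γ z`; `s = q exp(i θ)`, `q² = 1 - T⁻²`, `δ = |1 - s|`, `y₁ = y / (T² δ²)`.

Every module: file `Pool/Agent/Lib/MP_a54f13_nt/Av/<Name>.lean`, importing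
`Pool.Agent.Lib.MP_a54f13_nt.Av.SpecB` and what is named in the task, private names in
`namespace Pool.Agent.A54.Av.<Name>M`, final theorem `Pool.Agent.A54.Av.stmt<Name>`; the other Props
used are hypotheses of the theorem.
-/

set_option autoImplicit false

namespace Pool.Agent.A54.Av

open MeasureTheory Filter Topology Set
open scoped ContDiff ComplexConjugate UpperHalfPlane MatrixGroups ENNReal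
open Pool.Agent.A54.Half (H0 qq ff hh)

noncomputable section

/-- the number of matrices with the property `P` -/
def cnt (P : Mat → Prop) : ℝ≥0∞ := ∑' γ : Mat, open Classical in if P γ then 1 else 0

/-- the matrices counted: nonscalar, `det γ = n`, `n + V ≤ β²`, `V ≤ r²` -/
def Cnd (β r : ℝ) (n : ℤ) (z : ℂ) (γ : Mat) : Prop :=
  NonSc γ ∧ γ.det = n ∧ ((γ.det : ℤ) : ℝ) + Vd γ z ≤ β ^ 2 ∧ Vd γ z ≤ r ^ 2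

/-- `exp(-π (y₁ (n + V) + y V))` -/
def WW (y1 y : ℝ) (γ : Mat) (z : ℂ) : ℝ≥0∞ :=
  ENNReal.ofReal (Real.exp (-(Real.pi * (y1 * (((γ.det : ℤ) : ℝ) + Vd γ z) + y * Vd γ z))))

/-- the sum of the weights over the matrices with the property `P` -/
def sW (P : Mat → Prop) (y1 y : ℝ) (z : ℂ) : ℝ≥0∞ :=
  ∑' γ : Mat, open Classical in if P γ then WW y1 y γ z else 0

/-- `δ = |1 - s|` -/
def dl (T θ : ℝ) : ℝ := ‖1 - qs (qT T) θ‖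

/-- `y₁ = y / (T² δ²)` -/
def yo (T θ y : ℝ) : ℝ := y / (T ^ 2 * dl T θ ^ 2)

/-! ### Counting -/

/-- **Ge** geometry of `V ≤ r²` (uses `QF`). Proof. `N = c z² - (a - d) z - b`, `V = |N|²/(4y²) ≤ r²`, so
`|N| ≤ 2 y r`. `im N = 2 c x y - (a - d) y` gives (1). `re N = c (x² - y²) - (a - d) x - b`, and
`-b - c |z|² = re N + (a - d) x - 2 c x²`, i.e. `|-b - c |z|²| ≤ 2 y r + 2 r |x|`: (2). (3) from `QF` (4) on the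
compact set. (4) from `QF` (6). -/
def StmtGe : Prop := ∀ K : Set ℂ, IsCompact K → K ⊆ H0 → ∃ C : ℝ, 1 ≤ C ∧ ∀ z ∈ K, ∀ (γ : Mat)
  (r : ℝ), 0 ≤ r → Vd γ z ≤ r ^ 2 →
  |((γ 0 0 - γ 1 1 : ℤ) : ℝ) - 2 * ((γ 1 0 : ℤ) : ℝ) * z.re| ≤ 2 * r ∧
  |-((γ 0 1 : ℤ) : ℝ) - ((γ 1 0 : ℤ) : ℝ) * ‖z‖ ^ 2| ≤ C * r ∧
  msq γ ≤ C * (((γ.det : ℤ) : ℝ) + 2 * Vd γ z) ∧
  ((γ 0 0 + γ 1 1 : ℤ) : ℝ) ^ 2 ≤ 4 * (((γ.det : ℤ) : ℝ) + Vd γ z)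

/-- **Ar** the area. Proof. For `z = x + i y` in the set: `x` lies in an interval of length `2 r / |c|`,
and for given `x` the number `y²` lies in an interval of length `2 A r / |c|`, so, as
`y ≥ m0 > 0` on `K`, `y` lies in an interval of length `2 A r / (2 m0 |c|)`. The set is contained in the
measurable set of all `z` with `im z ≥ m0` and the two conditions; Fubini (`Complex.measurableEquivRealProd`,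
`Complex.volume_preserving_equiv_real_prod`). -/
def StmtAr : Prop := ∀ K : Set ℂ, IsCompact K → K ⊆ H0 → ∀ A : ℝ, 0 ≤ A → ∃ C : ℝ, 0 ≤ C ∧
  ∀ (c p q r : ℝ), 1 ≤ |c| → 0 ≤ r →
    volume {z : ℂ | z ∈ K ∧ |p - 2 * c * z.re| ≤ 2 * r ∧ |q - c * ‖z‖ ^ 2| ≤ A * r} ≤
      ENNReal.ofReal (C * r ^ 2 / c ^ 2)

/-- **I0** the matrices with `c = 0` (uses `Ge`, `QF`). Proof. Put `p = a - d`. By `Ge` (1), (2), `|p| ≤ 2 r`,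
`|b| ≤ C r`; `(p, b) ≠ (0, 0)` (nonscalar), so the set is empty unless `r ≥ r0 := 1/(2 C)`. Given `p, b, n`:
`d² + p d = n` has at most two solutions, so the count is at most `2 (4r+1)(2Cr+1) ≤ C' (1+r)²`; and the
sum over `n` of the counts is at most the number of `(p, b, d)`, `|a + d| ≤ 2 β` (`Ge` (4)), i.e.
`≤ C' (1+r)² (2β + 1)`, and it vanishes if `β < 1` (`1 ≤ n ≤ n + V ≤ β²`). So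
`∑_n cnt² ≤ C'' (1+r)⁴ β`, and `(1+r)⁴ ≤ r0⁻² r² (1+r)⁴` for `r ≥ r0`. Multiply by the area of `K`. -/
def StmtI0 : Prop := ∀ K : Set ℂ, IsCompact K → K ⊆ H0 → ∃ (C : ℝ) (M : ℕ), 0 ≤ C ∧
  ∀ β r : ℝ, 0 < β → 0 < r →
    ∫⁻ z in K, ∑' n : ℕ, cnt (fun γ => Cnd β r (n + 1) z γ ∧ γ 1 0 = 0) ^ 2 ≤
      ENNReal.ofReal (C * r ^ 2 * (1 + r) ^ M * β)

/-- **I1** small `c ≠ 0` (uses `Ge`, `Ar`, `QF`). Proof. For given `z, n` the number of `(c, p, b)` is at most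
`C (1+r)³` by `Ge` (1), (2), and given these `4 n = s² + 4 (-b) c - p²` with `s = a + d` has at most
two solutions `s`; so `cnt ≤ C (1+r)³` and `∑_n cnt² ≤ C (1+r)³ ∑_n cnt`. `∑_n cnt` is the number of `γ`;
`|s| ≤ 2 β`, so at most `4 β + 1 ≤ 5 β` values (`β ≥ 1`, otherwise everything is `0`), and
`∫_K ∑_n cnt ≤ 5 β ∑_{(c,p,b)} vol{z ∈ K : ...} ≤ 5 β C (1+r)³ C r²` by `Ar`; the number of possible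
`(c, p, b)` is `≤ C (1+r)³` as `|p| ≤ 2 |c| |x| + 2 r`, `|b| ≤ |c| |z|² + C r`. -/
def StmtI1 : Prop := ∀ K : Set ℂ, IsCompact K → K ⊆ H0 → ∀ A : ℝ, 1 ≤ A → ∃ (C : ℝ) (M : ℕ),
  0 ≤ C ∧ ∀ β r : ℝ, 0 < β → 0 < r →
    ∫⁻ z in K, ∑' n : ℕ, cnt (fun γ => Cnd β r (n + 1) z γ ∧ 1 ≤ |γ 1 0| ∧
      ((|γ 1 0| : ℤ) : ℝ) ≤ A * (1 + r)) ^ 2 ≤ ENNReal.ofReal (C * r ^ 2 * (1 + r) ^ M * β)

/-- **I2a** from matrices to the conditions `Pc` (uses `Ge`, `QF`). Here `x` is made of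
`(C_i, D_i, P_i, Q_i) = (c, d, a - d, -b)` for `γ₁, γ₂`. Proof. Let `C` be as in `Ge`, `y0 = min im`,
`m1 = max |z|` on `K`. By `Ge`: `|P| ≤ 2 |c| m1 + 2 r`, `|Q| ≤ |c| m1² + C r`;
`|P₁ C₂ - P₂ C₁| ≤ |P₁ - 2 C₁ x| C₂ + |P₂ - 2 C₂ x| C₁ ≤ 8 r H`, in the same way
`|Q₁ C₂ - Q₂ C₁| ≤ 4 C r H`; `4 Q C - P² = 4 C² y² + O(C (r H + r²))`, where
`4 C² y² = 4 C² |z|² - 4 C² x²`, so for `H ≥ A (1 + r)`, `A` large, it is `≥ 2 y0² H²`. All conditions hold for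
`ρ ≥ A (1 + r)` with `A` large. Traces: `0 ≤ a + d ≤ 2 β ≤ B` by `Ge` (4). `det = D² + P D + Q C`. -/
def StmtI2a : Prop := ∀ K : Set ℂ, IsCompact K → K ⊆ H0 → ∃ A : ℝ, 1 ≤ A ∧
  ∀ (β r : ℝ) (H B ρ : ℕ) (z : ℂ) (n : ℤ) (γ₁ γ₂ : Mat), 0 < β → 0 < r → A * (1 + r) ≤ H →
  A * (1 + r) ≤ ρ → 2 * β ≤ B → z ∈ K → Cnd β r n z γ₁ → Cnd β r n z γ₂ →
  (H : ℤ) ≤ γ₁ 1 0 → γ₁ 1 0 < 2 * H → (H : ℤ) ≤ γ₂ 1 0 → γ₂ 1 0 < 2 * H →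
  0 ≤ γ₁ 0 0 + γ₁ 1 1 → 0 ≤ γ₂ 0 0 + γ₂ 1 1 →
  Pc H B ρ ⟨γ₁ 1 0, γ₂ 1 0, γ₁ 1 1, γ₂ 1 1, γ₁ 0 0 - γ₁ 1 1, γ₂ 0 0 - γ₂ 1 1,
    -γ₁ 0 1, -γ₂ 0 1⟩

/-- **I2** a dyadic range of `c` (uses `PC`, `I2a`, `Ge`, `Ar`). Proof. Let `cnt⁺` count the `γ` with
`H ≤ c < 2 H` and `a + d ≥ 0`. The maps `γ ↦ -γ` and `γ ↦ (-d, b; c, -a)` preserve `Cnd` (`V` depends on
`c, a - d, b` only, up to sign), so `cnt ≤ 4 cnt⁺`. `∫_K ∑_n (cnt⁺)² = ∑_{(γ₁, γ₂)} vol{z ∈ K : both satisfy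
Cnd}`, the sum over pairs of equal determinant; if the set is not empty then `Pc` holds (`I2a`) with
`B = ⌈2β⌉`, `ρ = ⌈A (1 + r)⌉`, and by `Ge`, `Ar` the volume is at most `C r²/H²`. So by `PC` (every finite set of
such pairs has at most `C ρ^M H² (B + H) √(H (B + H))` elements; the map from pairs to `O8` is injective) the integral is
`≤ C (1+r)^M r² (B+H) √(H (B+H))`. If there is any `γ`, then `H² ≤ msq γ ≤ C (n + 2V) ≤ 2 C β²`, so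
`H ≤ C' β`, and `β ≥ 1`, `B ≤ 3 β`: the bound is `C (1+r)^M r² β √(H β)`. -/
def StmtI2 : Prop := ∀ K : Set ℂ, IsCompact K → K ⊆ H0 → ∃ (A C : ℝ) (M : ℕ), 1 ≤ A ∧ 0 ≤ C ∧
  ∀ (β r : ℝ) (H : ℕ), 0 < β → 0 < r → A * (1 + r) ≤ H →
    ∫⁻ z in K, ∑' n : ℕ, cnt (fun γ => Cnd β r (n + 1) z γ ∧ (H : ℤ) ≤ |γ 1 0| ∧
      |γ 1 0| < 2 * H) ^ 2 ≤ ENNReal.ofReal (C * r ^ 2 * (1 + r) ^ M * (β * √(H * β)))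

/-- **I** the count (uses `I0`, `I1`, `I2`). Proof. Let `A` be as in `I2`, `A' = 2 A`. The matrices with
`|c| ≤ L` have `c = 0`, or `1 ≤ |c| ≤ A' (1+r)`, or `H_i ≤ |c| < 2 H_i`, `H_i = 2^i`, `A (1 + r) ≤ H_i ≤ L`. So
`cnt ≤ x + x' + ∑_i x_i`, `(..)² ≤ 3 x² + 3 x'² + 3 (∑ x_i)²`, and by Cauchy–Schwarz
`(∑_i x_i)² ≤ (∑_i H_i^{1/4}) (∑_i H_i^{-1/4} x_i²) ≤ C L^{1/4} ∑_i H_i^{-1/4} x_i²`; integrated: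
`≤ C L^{1/4} ∑_i H_i^{-1/4} H_i^{1/2} r² (1+r)^M β^{3/2} ≤ C' L^{1/2} r² (1+r)^M β^{3/2}` (geometric sums; if
there is such an `i` then `L ≥ 1`). -/
def StmtI : Prop := ∀ K : Set ℂ, IsCompact K → K ⊆ H0 → ∃ (C : ℝ) (M : ℕ), 0 ≤ C ∧
  ∀ β r L : ℝ, 0 < β → 0 < r → 0 ≤ L →
    ∫⁻ z in K, ∑' n : ℕ, cnt (fun γ => Cnd β r (n + 1) z γ ∧ ((|γ 1 0| : ℤ) : ℝ) ≤ L) ^ 2 ≤
      ENNReal.ofReal (C * r ^ 2 * (1 + r) ^ M * (β + β * √(L * β)))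

/-- **W1** exponential weights, `n ≥ 1` (uses `I`, `Ge`). Proof. For `t ≥ 0`,
`e^{-π t} ≤ ∑_{j ≥ 1} e^{-π (j-1)} 1(t ≤ j)`. So (`sW P y1 y z` is the sum of `WW` over `P`) `WW ≤ ∑_{j,k ≥ 1} e^{-π (j+k-2)} 1(n + V ≤ j/y₁)
1(V ≤ k/y)`, and by Cauchy–Schwarz `(∑_γ WW)² ≤ (∑ e^{-π(j+k-2)}) ∑_{j,k} e^{-π(j+k-2)} cnt_{jk}²`. Apply `I`
with `β = √(j/y₁)`, `r = √(k/y)`, and (1) `L = C β`: as `c² ≤ msq γ ≤ C (n + 2 V) ≤ 2 C β²` the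
condition on `c` is automatic, `β + β √(L β) ≤ C β²` for `β ≥ 1` and for `β < 1` there is no `γ`; so the
bound is `∑_{jk} e^{-π(j+k-2)} C (k/y) (1 + √(k/y))^M j/y₁ ≤ C'/(y y₁)` (`y ≥ 1/2`). (2) `L = ε β`
(`c² ≤ ε² n ≤ ε² β²`): `r² (β + √ε β²) ≤ (k/y) (√(j/y₁) + √ε j/y₁)`. -/
def StmtW1 : Prop := ∀ K : Set ℂ, IsCompact K → K ⊆ H0 → ∃ C : ℝ, 0 ≤ C ∧
  ∀ y1 y : ℝ, 0 < y1 → 1 / 2 ≤ y →
    (∫⁻ z in K, ∑' n : ℕ, sW (fun γ => γ.det = (n : ℤ) + 1 ∧ NonSc γ) y1 y z ^ 2 ≤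
        ENNReal.ofReal (C / (y * y1))) ∧
    ∀ ε : ℝ, 0 < ε → ε ≤ 1 →
    ∫⁻ z in K, ∑' n : ℕ, sW (fun γ => γ.det = (n : ℤ) + 1 ∧ NonSc γ ∧
      ((γ 1 0 : ℤ) : ℝ) ^ 2 ≤ ε ^ 2 * ((γ.det : ℤ) : ℝ)) y1 y z ^ 2 ≤
        ENNReal.ofReal (C / y * (1 / √y1 + √ε / y1))

/-- **W3** exponential weights, `n ≤ 0` (uses `QF`, `Gau`). Proof. `QF` (4) on `K` and `n ≤ 0` give
`V ≥ c0 |γ|²`. So `S(z) = ∑_γ WW ≤ ∑_{γ ≠ 0} e^{-π c0 y |γ|²/2} e^{-π c0 y |γ|²/2} e^{-π y₁ (n+V)}`, and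
`S² ≤ (sup S) S`, `sup S ≤ C e^{-c y}`. `∫_K e^{-π y₁ (n + V)} dz ≤ C min(1, y₁^{-1/2})` for every nonscalar
`γ`: `n + V = β² + s²/4`, `s = a + d` (`QF` (6)). If `s ≠ 0` it is `≥ 1/4` and `e^{-π y₁/4} ≤ C y₁^{-1/2}`. If
`s = 0`: `n + V = F²/(4y²)`, `F = c |z|² - 2 a x - b`; if `c ≠ 0` then `|∂_y F| ≥ 2 y` and for fixed `x` the
integral over `y` is `≤ C y₁^{-1/2}` (`F` is strictly monotone in `y > 0`, substitution or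
`e^{-π y₁ F²/(4y²)} ≤ e^{-c' y₁ F²}`, `∫ e^{-c' y₁ F²} |∂_y F| dy ≤ C y₁^{-1/2}`); if `c = 0`, `a ≠ 0` the same with
`∂_x F = -2 a`; if `c = a = 0`, `|F| = |b| ≥ 1`. So `∫_K S² ≤ C e^{-c y} ∑_{γ≠0} e^{-π c0 y|γ|²/2}
min(1, y₁^{-1/2}) ≤ C y⁻¹ y₁^{-1/4}`. -/
def StmtW3 : Prop := ∀ K : Set ℂ, IsCompact K → K ⊆ H0 → ∃ C : ℝ, 0 ≤ C ∧
  ∀ y1 y : ℝ, 0 < y1 → 1 / 2 ≤ y →
    ∫⁻ z in K, sW (fun γ => γ.det ≤ 0 ∧ NonSc γ) y1 y z ^ 2 ≤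
        ENNReal.ofReal (C / y * y1 ^ (-(1 / 4 : ℝ)))

/-! ### The kernel -/

/-- **Dl** the size of `δ`. Proof. `|1 - q e^{iθ}|² = (1-q)² + 4 q sin²(θ/2)`;
`1 - q = (1 - q²)/(1 + q) ≥ 1/(2T²)`; `|sin(θ/2)| ≥ |θ|/π` for `|θ| ≤ π`, `q ≥ √(3/4)`. The integral:
`δ ≥ max(1/(2T²), |θ|/4)`, split at `|θ| = T⁻²`. -/
def StmtDl : Prop := (∀ T θ : ℝ, 2 ≤ T → |θ| ≤ Real.pi →
    1 / (2 * T ^ 2) ≤ dl T θ ∧ |θ| / 4 ≤ dl T θ ∧ dl T θ ≤ 2) ∧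
  ∃ C : ℝ, 0 ≤ C ∧ ∀ T : ℝ, 2 ≤ T →
    ∫⁻ θ in Ioc (-Real.pi) Real.pi, ENNReal.ofReal (dl T θ ^ (-(3 / 2 : ℝ))) ≤
      ENNReal.ofReal (C * T)

/-- **Mb** pointwise bound (uses `Dl`). Proof. `Re((1+s)/(1-s)) = (1-|s|²)/δ² = 1/(T²δ²)`,
`Re(1/(1-s)) = 1/2 + 1/(2T²δ²)`, so the exponential in `mm` has absolute value
`exp(-2π y₁ (n+V) - 2π y V)`. Put `u = y₁ (n+V)`, `v = y V`. The last factor is at most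
`(4π y/δ)((n+V) + V) + (4π y/δ)² V (n+V)`; `y²/δ² = T² y y₁`, so the second part is `16 π² T² u v`;
`(y/δ)(n+V) = T √(y/y₁) u = T² δ u ≤ 2 T² u`, `(y/δ) V = v/δ ≤ 2 T² v` (`Dl`). Finally
`8π (u+v) + 16π² u v ≤ C e^{π(u+v)}`. -/
def StmtMb : Prop := ∃ C : ℝ, 0 ≤ C ∧ ∀ (T θ y n V : ℝ), 2 ≤ T → |θ| ≤ Real.pi → 0 < y → 0 ≤ V →
  0 ≤ n + V → ‖mm (qs (qT T) θ) y n V‖ ≤ C * T ^ 2 * (y / dl T θ) *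
    Real.exp (-(Real.pi * (yo T θ y * (n + V) + y * V)))

/-- `D_n` applied to `exp(-κ V)` -/
def DD (κ : ℂ) (n V : ℝ) : ℂ :=
  (κ * (2 * V + n) - κ ^ 2 * V * (n + V)) * Complex.exp (-(κ * V))

/-- the amplitude `y² (n + V) / (4 β²)` -/
def Aa (γ : Mat) (z : ℂ) : ℝ :=
  z.im ^ 2 * (((γ.det : ℤ) : ℝ) + Vd γ z) / (4 * bet γ z ^ 2)

/-- **Sm1** the differential equation. Proof. `N = c z² - (a-d) z - b`, `V = |N|²/(4y²)`,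
`β = re N/(2y) + c y`. One checks `y² |∇V|² = 4 V β²`, `y² ΔV = 2 V + 4 β²` (with `bb = N/(2y)`, `V = |bb|²`:
`∂_x bb = (2 c z - (a-d))/(2y)`, `∂_y bb = i (2 c z - (a-d))/(2y) - bb/y`, `im bb = (2 c x - (a-d))/2`, so
`(2 c z - (a - d))/2 = im bb + i c y`). Hence for `φ(V) = e^{-κV}`,
`y² Δ(φ(V)) = 4 V β² φ'' + (2V + 4β²) φ'`, and
`-[V (n+V) φ'' + (2V + n) φ'] = -((n+V)/(4β²)) y² Δ(φ(V)) + V ((n+V)/(2β²) - 1) φ'`; `φ' = -κ φ`. -/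
def StmtSm1 : Prop := ∀ (γ : Mat) (κ : ℂ) (z : ℂ), z ∈ H0 → bet γ z ≠ 0 →
  DD κ ((γ.det : ℤ) : ℝ) (Vd γ z) =
    -((Aa γ z : ℝ) : ℂ) * dzb (dz (fun w => Complex.exp (-(κ * (Vd γ w : ℝ))))) z -
      κ * ((Vd γ z * ((((γ.det : ℤ) : ℝ) + Vd γ z) / (2 * bet γ z ^ 2) - 1) : ℝ) : ℂ) *
        Complex.exp (-(κ * (Vd γ z : ℝ)))

/-- **Sm2** bounds for the amplitude. Proof. On `K`: `|N| = 2 y √V ≤ |c| y²/2`; `im N = 2cxy - (a-d) y` and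
`re N` give `|a - d|, |b| ≤ C |c|`; `β = re N/(2y) + c y`, so `|β| ≥ |c| y - |c| y/4`. So with
`γ = |c| γ'` (real matrix) all entries of `γ'` that occur (`c, a-d, b` divided by `|c|`) are bounded,
`n/c² ≤ ε⁻²`, and `Aa` is a quotient of functions whose derivatives up to the second order are bounded by
`C c²` with denominator `4 β² ≥ c' c²`. Smoothness: `β ≠ 0` near `z`. -/
def StmtSm2 : Prop := ∀ K : Set ℂ, IsCompact K → K ⊆ H0 → ∀ ε : ℝ, 0 < ε → ∃ C : ℝ, 0 ≤ C ∧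
  ∀ z ∈ K, ∀ γ : Mat, 1 ≤ γ.det → ε ^ 2 * ((γ.det : ℤ) : ℝ) ≤ ((γ 1 0 : ℤ) : ℝ) ^ 2 →
    Vd γ z ≤ (((γ 1 0 : ℤ) : ℝ) * z.im / 4) ^ 2 →
    bet γ z ≠ 0 ∧ ((γ.det : ℤ) : ℝ) + Vd γ z ≤ C * bet γ z ^ 2 ∧ |Aa γ z| ≤ C ∧
    ContDiffAt ℝ ∞ (Aa γ) z ∧ ‖fderiv ℝ (Aa γ) z‖ ≤ C ∧
    ‖dzb (dz (fun w => (Aa γ w : ℂ))) z‖ ≤ C

/-- **Sm3** smoothing (uses `Sm1`, `Sm2`). Proof. Let `K'` be a compact neighbourhood of `K` in `H0`, `r0 ≤ 1`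
so small that the closed discs with centre in `K` and radius `r0` are in `K'`. By `Sm1` the integral is
`-∫ w Δ(e^{-κV}) - κ ∫ η_r V ((n+V)/(2β²) - 1) e^{-κV}`, `w = η_r Aa`, a smooth function with
support in the closed disc (extend by zero; on the disc `β ≠ 0` by `Sm2`). Green: `∫ w Δu = ∫ (Δw) u`
(multiply `u = e^{-κV}` by a cutoff function equal to one near the disc; library `integral_mul_dz`, `integral_mul_dzb`).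
`|η_r| ≤ C r⁻²`, `|∇η_r| ≤ C r⁻³`, `|Δη_r| ≤ C r⁻⁴`, so `|Δw| ≤ C r⁻⁴` by `Sm2`. Second term:
`V |κ| e^{-Re κ V} ≤ (|κ|/Re κ) e^{-Re κ V/2}` (`u e^{-u} ≤ e^{-u/2}`). -/
def StmtSm3 : Prop := ∀ η : ℂ → ℝ, Bump η → ∀ K : Set ℂ, IsCompact K → K ⊆ H0 → ∀ ε : ℝ, 0 < ε →
  ∃ C r0 : ℝ, 0 ≤ C ∧ 0 < r0 ∧ ∀ z0 ∈ K, ∀ r : ℝ, 0 < r → r ≤ r0 → ∀ γ : Mat, 1 ≤ γ.det →
    ε ^ 2 * ((γ.det : ℤ) : ℝ) ≤ ((γ 1 0 : ℤ) : ℝ) ^ 2 →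
    (∀ z ∈ Metric.closedBall z0 r, Vd γ z ≤ (((γ 1 0 : ℤ) : ℝ) * z.im / 4) ^ 2) →
    ∀ κ : ℂ, 0 < κ.re →
      ‖∫ z, (es η r z0 z : ℂ) * DD κ ((γ.det : ℤ) : ℝ) (Vd γ z)‖ ≤
        C * ((r ^ 2)⁻¹ + ‖κ‖ / κ.re) * ((r ^ 2)⁻¹ *
          ∫ z in Metric.closedBall z0 r, Real.exp (-(κ.re / 2 * Vd γ z)))

/-- **Far** the other matrices (uses `QF`). Proof. Let `K'` be a compact neighbourhood of `K` as in `Sm3`.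
At the given point `z1` of the disc: `c² ≤ 16 V(z1)/im²`, `n ≤ c²/ε²`, so by `QF` (4)
`|γ|² ≤ C (n + 2V(z1)) ≤ C' V(z1)`. `√V_γ` is Lipschitz on `K'` with constant `C |γ|`
(`√V = |N|/(2y)`, `N` has coefficients bounded by `2 |γ|`). So for `z` in the disc
`√V(z) ≥ √V(z1) - 2 C |γ| r ≥ |γ| (C'^{-1/2} - 2 C r) ≥ |γ| C'^{-1/2}/2` for `r ≤ r0`. -/
def StmtFar : Prop := ∀ K : Set ℂ, IsCompact K → K ⊆ H0 → ∀ ε : ℝ, 0 < ε → ∃ c r0 : ℝ,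
  0 < c ∧ 0 < r0 ∧ ∀ z0 ∈ K, ∀ r : ℝ, 0 < r → r ≤ r0 → ∀ γ : Mat, 1 ≤ γ.det →
    ε ^ 2 * ((γ.det : ℤ) : ℝ) ≤ ((γ 1 0 : ℤ) : ℝ) ^ 2 →
    (∃ z ∈ Metric.closedBall z0 r, (((γ 1 0 : ℤ) : ℝ) * z.im / 4) ^ 2 < Vd γ z) →
    ∀ z ∈ Metric.closedBall z0 r, c * msq γ ≤ Vd γ z

/-- **Av** averages are bounded in mean square. Proof. `(∫ η_r(z-z0) F(z) dz)² ≤ ∫ η_r(z-z0) F(z)² dz`
(Jensen or Cauchy–Schwarz, `∫ η_r = 1`) and `(r⁻² ∫_{B(z0,r)} F)² ≤ π r⁻² ∫_{B(z0,r)} F²`; integrate over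
`z0 ∈ K` (Tonelli); the discs are contained in `K'`. `F` takes values in `[0, ∞]`. -/
def StmtAvg : Prop := ∀ η : ℂ → ℝ, Bump η → ∀ K K' : Set ℂ, IsCompact K → MeasurableSet K' →
  ∀ r : ℝ, 0 < r → (∀ z ∈ K, Metric.closedBall z r ⊆ K') → ∀ F : ℂ → ℝ≥0∞, Measurable F →
    ∫⁻ z0 in K, (∫⁻ z, ENNReal.ofReal (es η r z0 z) * F z) ^ 2 ≤ ∫⁻ z in K', F z ^ 2 ∧
    ∫⁻ z0 in K, (ENNReal.ofReal (r ^ 2)⁻¹ * ∫⁻ z in Metric.closedBall z0 r, F z) ^ 2 ≤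
      10 * ∫⁻ z in K', F z ^ 2

/-- **G1** crude bound (uses `Mb`, `W1`, `W3`, `Avg`, `Dl`). Proof. Let `K'` be a compact neighbourhood of `K`,
`r1` small. For `n ≥ 1` and `n ≤ 0`: by `Mb`
`‖MN (es η r z0) s y n‖ ≤ C T² (y/δ) ∫ η_r(z - z0) ∑_{det γ = n, nonscalar} WW(y₁, y, γ, z) dz`
(`ENNReal`; `enorm_tsum_le`-type inequality, Tonelli). Square, sum over `n`; for `n ≤ 0` use
`∑_n (∑_γ)² ≤ (∑_{n≤0} ∑_γ)²`; by `Avg` (for every `n ≥ 1` separately, then sum, `lintegral_tsum`) and `W1` (1), `W3`: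
`≤ C T⁴ (y/δ)² [1/(y y₁) + y⁻¹ y₁^{-1/4}]` and `T⁴ (y/δ)² = T⁶ y y₁`. -/
def StmtG1 : Prop := ∀ η : ℂ → ℝ, Bump η → ∀ K : Set ℂ, IsCompact K → K ⊆ H0 → ∃ C r1 : ℝ,
  0 ≤ C ∧ 0 < r1 ∧ ∀ T r y θ : ℝ, 2 ≤ T → 0 < r → r ≤ r1 → 1 / 2 ≤ y → |θ| ≤ Real.pi →
    ∫⁻ z0 in K, ∑' n : ℤ, ‖MN (es η r z0) (qs (qT T) θ) y n‖ₑ ^ 2 ≤
      ENNReal.ofReal (C * T ^ 6 * (1 + yo T θ y ^ (3 / 4 : ℝ)))

/-- **G2** refined bound (uses `Mb`, `W1`, `W3`, `Avg`, `Dl`, `Sm3`, `Far`, `QF`, `Gau`). Proof. Let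
`r = R/T`, `y ≤ Y`, `δ ≥ δ0`, so `y₁ ≤ Y/(T²δ0²) ≤ 1`. Split the `γ` in `MN` into: (A) `n ≤ 0`; (B) `n ≥ 1`,
`c² ≤ ε² n`; (C) `n ≥ 1`, `c² > ε² n` and `V ≤ (c y/4)²` on the closed disc; (D) the rest. `‖MN‖² ≤ 4 (..)`.
(A), (B) as in `G1` with `W3`, `W1` (2): `≤ C T⁶ y y₁ [y⁻¹ y₁^{-1/4} + y⁻¹ (y₁^{-1/2} + √ε/y₁)]
≤ C T⁶ (y₁^{3/4} + y₁^{1/2} + √ε)`. (C): with `κ = 4π y/(1-s)`,
`mm s y n V = y (1-s)⁻¹ exp(-2π n y (1+s)/(1-s)) DD κ n V`, `Re κ = 2π (y + y₁)`, `|κ|/Re κ ≤ 2/δ0`; by `Sm3`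
the term of `γ` is `≤ (y/δ) e^{-2π n y₁} C ((T/R)² + 2/δ0) r⁻² ∫_disc e^{-π (y + y₁) V}
≤ C' T² (y/δ) (R⁻² + T⁻²) r⁻² ∫_disc WW`; so by `Avg` (2), `W1` (1) the contribution is
`≤ C' T⁴ (y/δ)² (R⁻⁴ + T⁻⁴)/(y y₁) = C' T⁶ (R⁻⁴ + T⁻⁴)`. (D): by `Far`, `Mb` the term is
`≤ C T² (y/δ) e^{-π y c |γ|²}`, the sum over all `γ` is bounded (`Gau`): contribution
`≤ C' T⁴ (y/δ)² = C' T⁶ y y₁`. Finally `y₁ ≤ C'/T²`, `T ≥ T0`. -/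
def StmtG2 : Prop := ∀ η : ℂ → ℝ, Bump η → ∀ K : Set ℂ, IsCompact K → K ⊆ H0 → ∃ C : ℝ, 0 ≤ C ∧
  ∀ ε Y δ0 : ℝ, 0 < ε → ε ≤ 1 → 1 ≤ Y → 0 < δ0 → ∃ C' : ℝ, 0 ≤ C' ∧ ∀ R : ℝ, 1 ≤ R →
    ∃ T0 : ℝ, 2 ≤ T0 ∧ ∀ T : ℝ, T0 ≤ T → ∀ y θ : ℝ, 1 / 2 ≤ y → y ≤ Y → |θ| ≤ Real.pi →
      δ0 ≤ dl T θ →
        ∫⁻ z0 in K, ∑' n : ℤ, ‖MN (es η (R / T) z0) (qs (qT T) θ) y n‖ₑ ^ 2 ≤
          ENNReal.ofReal (T ^ 6 * (C * √ε + C' * ((R ^ 4)⁻¹ + (√T)⁻¹)))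

/-- **BP** the geometric side (uses `G1`, `G2`, `Dl`). Proof. Tonelli: the left side is
`∫_{y > √3/2} ∫_θ y⁻² ∫_{z0 ∈ K} ∑_n ‖MN‖²` (`MN` is measurable in `(z0, y, θ)`: countable sum of continuous functions; or only
`≤` by `lintegral_lintegral_swap` for the measurable integrand). On the set
`{y ≥ Y} ∪ {δ < δ0}` use `G1`: `≤ C T⁶ ∫∫ (1 + y₁^{3/4}) y⁻² dθ dy`; the first part is
`≤ C T⁶ (2π/Y + 16 δ0)` (`δ < δ0` implies `|θ| < 4 δ0`, `∫_{√3/2}^∞ y⁻² ≤ 2`), and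
`y₁^{3/4} = y^{3/4} T^{-3/2} δ^{-3/2}`, `∫ δ^{-3/2} dθ ≤ C T` (`Dl`), `∫ y^{-5/4} dy < ∞`: `≤ C T⁶ T^{-1/2}`. On the rest use
`G2`: `≤ C T⁶ (√ε' + C' (R⁻⁴ + T^{-1/2}))`. Choose `Y, δ0, ε'`, then `R0`, then `T0` (also `R/T ≤ r1`). -/
def StmtBP : Prop := ∀ η : ℂ → ℝ, Bump η → ∀ K : Set ℂ, IsCompact K → K ⊆ H0 → ∀ ε : ℝ, 0 < ε →
  ∃ R0 : ℝ, 1 ≤ R0 ∧ ∀ R : ℝ, R0 ≤ R → ∃ T0 : ℝ, 2 ≤ T0 ∧ ∀ T : ℝ, T0 ≤ T →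
    ∫⁻ z0 in K, RN (qT T) (es η (R / T) z0) ≤ ENNReal.ofReal (ε * T ^ 6)

end

end Pool.Agent.A54.Av
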