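import Pool.Agent.Lib.MP_a54f13_nt.Av.Defs

/-!
# Package `Av`: the integral of `e^{-X cosh d}`
-/

set_option autoImplicit false

namespace Pool.Agent.A54.Av

open MeasureTheory Filter Topology Set
open scoped UpperHalfPlane

noncomputable section

/-- **ExI** Proof. `cosh d(z, w) = 1 + |z - w|²/(2 im z im w)` (`UpperHalfPlane.cosh_dist`). By the change of variables
`z = im w · z' + re w` (which preserves the measure) let `w = i`. Then (`IntLap.int_gen` or `stmtInt`) the integral is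
`e^{-X} ∫_0^∞ e^{-X (y-1)²/(2y)} ∫_ℝ e^{-X x²/(2y)} dx dy/y² = e^{-X} √(2π/X) ∫_0^∞ y^{-3/2} e^{-X (y-1)²/(2y)} dy`
(Tonelli). The substitution `y ↦ 1/y` turns the last integral into the same with `y^{-1/2}`, so it is
`∫_0^∞ (1/2)(y^{-1/2} + y^{-3/2}) e^{-X u²/2} dy` with `u = √y - 1/√y`, `du = (1/2)(y^{-1/2} + y^{-3/2}) dy`, i.e.
`∫_ℝ e^{-X u²/2} du = √(2π/X)`. Moments: `v^k e^{-X v} ≤ C_k e^{-X v/2}`. -/
def StmtExI : Prop := ∀ (X : ℝ) (w : ℍ), 0 < X →
  (∀ k : ℕ, Integrable fun z : ℍ => Real.cosh (dist z w) ^ k * Real.exp (-(X * Real.cosh (dist z w)))) ∧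
  ∫ z : ℍ, Real.exp (-(X * Real.cosh (dist z w))) = 2 * Real.pi * Real.exp (-X) / X

end

end Pool.Agent.A54.Av
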