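import Pool.Agent.Lib.MP_a54f13_nt.Av.SpecB
import Pool.Agent.Lib.MP_a54f13_nt.Dyn.Half3
import Pool.Agent.Lib.MP_a54f13_nt.Half2

/-!
# Package `Av`, part F: conclusion, and parity of Maass forms

Every module: file `Pool/Agent/Lib/MP_a54f13_nt/Av/<Name>.lean`, importing
`Pool.Agent.Lib.MP_a54f13_nt.Av.SpecF` and what is named in the task, private names in
`namespace Pool.Agent.A54.Av.<Name>M`, final theorem `Pool.Agent.A54.Av.stmt<Name>`; the other Props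
used are hypotheses of the theorem.
-/

set_option autoImplicit false

namespace Pool.Agent.A54.Av

open MeasureTheory Filter Topology Set
open scoped ContDiff ComplexConjugate UpperHalfPlane MatrixGroups ENNReal
open Pool.Agent.A54.Half (H0 qq ff hh)
open Pool.Agent.A54.Pl (Ed)

noncomputable section

/-! ### Averages over the forms -/

/-- **GN** removing the scalar matrices (uses `QF`, `Gau`). Proof. For scalar `γ`, `Vd γ z = 0` for all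
`z ∈ H0`, so `mm s y n (Vd γ z)` is constant and `∫ (φ - φ') mm = 0`. For `|s| = q < 1`, `y > 0` the series
converge absolutely: `Re(1/(1-s)) ≥ 1/2`, `|mm(s, y, n, V)| ≤ C (1 + |n| + V)² e^{-2π n y₁' - 2π y V - 2π y₁' V}`
with `y₁' = y Re((1+s)/(1-s)) > 0`, i.e. `≤ C' e^{-c (n + 2V)}`, and `QF` (4), `Gau`. So
`MM (φ - φ') = MN φ - MN φ'`, and `‖a - b‖² ≤ 2 ‖a‖² + 2 ‖b‖²`; integrate (measurability: `MN` is a countable sum of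
functions which are continuous in `(y, θ)`, `y > 0`). -/
def StmtGN : Prop := ∀ (q : ℝ) (φ φ' : ℂ → ℝ), 0 < q → q < 1 → Continuous φ → Continuous φ' →
  HasCompactSupport φ → HasCompactSupport φ' → tsupport φ ⊆ H0 → tsupport φ' ⊆ H0 →
  ∫ z, φ z = ∫ z, φ' z → GR q (fun z => φ z - φ' z) ≤ 2 * (RN q φ + RN q φ')

/-- **F1** (uses `Av1`, `GN`, `BP`). Proof. For `z, z' ∈ K` and `R/T` small, `g = η_{R/T}(· - z) -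
η_{R/T}(· - z')` is a `TestG` and `∫ g F_i² = S(z) - S(z')`, `S = Sm' η (R/T) (ext F_i ²)`. By `Av1` and `GN`
`ofReal(∑_i w_i (..)²) ≤ ofReal(C/T⁴) 2 (RN(z) + RN(z'))`. Integrate over `K × K`: `≤ ofReal(C/T⁴) 4 |K|
∫_K RN ≤ C' T⁻⁴ ε' T⁶` by `BP`. -/
def StmtF1 : Prop := ∀ η : ℂ → ℝ, Bump η → ∀ K : Set ℂ, IsCompact K → K ⊆ H0 → ∀ ε : ℝ, 0 < ε →
  ∃ R0 : ℝ, 1 ≤ R0 ∧ ∀ R : ℝ, R0 ≤ R → ∃ T0 : ℝ, 2 ≤ T0 ∧ ∀ T : ℝ, T0 ≤ T →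
    ∀ (ι : Type) [Fintype ι] (F : ι → ℍ → ℝ) (t : ι → ℝ) (ρ : ι → ℂ), Fam ι F t ρ →
      (∀ i, T / 2 < t i ∧ t i ≤ T) →
      ∫⁻ z in K, ∫⁻ z' in K, ENNReal.ofReal (∑ i, wf (t i) (ρ i) *
        (Sm' η (R / T) (fun w => ext (F i) w ^ 2) z - Sm' η (R / T) (fun w => ext (F i) w ^ 2) z') ^ 2) ≤
          ENNReal.ofReal (ε * T ^ 2)

/-- the double mean square -/
def XX2 (η : ℂ → ℝ) (r : ℝ) (K : Set ℂ) (f : ℍ → ℝ) : ℝ :=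
  ∫ z in K, ∫ z' in K, (Sm' η r (fun w => ext f w ^ 2) z - Sm' η r (fun w => ext f w ^ 2) z') ^ 2

/-- **F2** most forms are good (uses `F1`, `RS`, `Rho`). Proof. Let `ι' = {i : ε' < X_i}`,
`X_i = XX2 η (R/T) K (F i)`. `F1` for `ε1`: `∑_{i ∈ ι'} w_i ε' ≤ ∑_i w_i X_i ≤ ε1 T²` (`Sm'` of the continuous
function `ext F²` is continuous near `K` for small `R/T`, so the integrals over `K × K` are finite and `∫⁻ ofReal = ofReal ∫`;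
`wf > 0`). `RS` for the family `ι'`: `∑_{ι'} w_i⁻¹ ≤ 576 T²`. Cauchy–Schwarz: `(#ι')² ≤ (∑ w_i)(∑ w_i⁻¹) ≤
576 ε1 T⁴ / ε'`; choose `ε1` with `576 ε1/ε' ≤ ε²`. -/
def StmtF2 : Prop := ∀ η : ℂ → ℝ, Bump η → ∀ K : Set ℂ, IsCompact K → K ⊆ H0 → ∀ ε ε' : ℝ,
  0 < ε → 0 < ε' → ∃ R0 : ℝ, 1 ≤ R0 ∧ ∀ R : ℝ, R0 ≤ R → ∃ T0 : ℝ, 2 ≤ T0 ∧ ∀ T : ℝ, T0 ≤ T →
    ∀ (ι : Type) [Fintype ι] (F : ι → ℍ → ℝ) (t : ι → ℝ) (ρ : ι → ℂ), Fam ι F t ρ →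
      (∀ i, T / 2 < t i ∧ t i ≤ T) → (∀ i, ε' < XX2 η (R / T) K (F i)) →
        (Fintype.card ι : ℝ) ≤ ε * T ^ 2

/-! ### From smooth means to the fourth moment -/

/-- **SDi** from smooth means to means over discs. Proof. Let `z ∈ tsupport φ`, `ϱ = ρ im z`,
`S = Sm' η r' F`. For `w' ∈ ℂ`, `∫_{w ∈ B(z, ϱ + r')} η_{r'}(w' - w) dw` is `1` for `w' ∈ B(z, ϱ)`, and
`∫_{w ∈ B(z, ϱ - r')} η_{r'}(w' - w) dw ≤ 1`, `= 0` for `w' ∉ B(z, ϱ)`; so, as `F ≥ 0`,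
`∫_{B(z, ϱ - r')} S ≤ ∫_{B(z, ϱ)} F ≤ ∫_{B(z, ϱ + r')} S`. `Ed ρ F z = (π ϱ²)⁻¹ ∫_{B(z, ϱ)} F`. With
`κ = r'/ϱ ≤ 1/4` and `M_±` the mean of `S` over `B(z, ϱ ± r')`: `(1 - κ)² M_- ≤ Ed ρ F z ≤ (1 + κ)² M_+`, so
`|Ed ρ F z - c| ≤ 4 |M_+ - c| + |M_- - c| + 3 κ c`. And `(M_± - c)² ≤` mean of `(S - c)²`; Fubini: for fixed
`w` the `z` with `|w - z| ≤ (5/4) ρ im z` form a set of measure `≤ C ρ²`, while `(ϱ ± r')² ≥ c ρ²`; `ζ ≥ 1` on a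
neighbourhood of `tsupport φ` which contains all the discs (`exists_cutoff`). `A0 = 4 / min im`. -/
def StmtSDi : Prop := ∀ η : ℂ → ℝ, Bump η → ∀ φ : ℂ → ℝ, TestR H0 φ → (∀ z, 0 ≤ φ z) →
  ∃ (ζ : ℂ → ℝ) (C r0 A0 : ℝ), TestR H0 ζ ∧ (∀ z, 0 ≤ ζ z) ∧ 0 ≤ C ∧ 0 < r0 ∧ 1 ≤ A0 ∧
    ∀ F : ℂ → ℝ, ContinuousOn F H0 → (∀ z, 0 ≤ F z) → ∀ c ρ r' : ℝ, 0 ≤ c → 0 < r' →
      A0 * r' ≤ ρ → ρ ≤ r0 →
      ∫ z, φ z * (Ed ρ F z - c) ^ 2 ≤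
        C * (∫ z, ζ z * (Sm' η r' F z - c) ^ 2) + C * c ^ 2 * (r' / ρ) ^ 2

/-- **Fa1** the mean value. Proof. `K` a compact subset of `H0` with `tsupport φ ∪ tsupport φ0 ⊆ K` and
`R` as in the hypothesis for `K` and `ε'`. `S_i = Sm' η (R/T_i) F_i`, `s_i = ∫ φ0 S_i`. As `∫ φ0 = 1`,
`(S_i(z) - s_i)² ≤ ∫ φ0(z') (S_i(z) - S_i(z'))² dz' ≤ sup φ0 ∫_K (..)²`, so
`∫ φ (S_i - s_i)² ≤ sup φ sup φ0 ε'`. `s_i - ∫ φ0 F_i = ∫ F_i(w) (∫ φ0(z) η_r(w - z) dz - φ0(w)) dw`, at most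
`Lip(φ0) r ∫_{K'} F_i ≤ C r → 0` (`r = R/T_i`). So `s_i → c`, and
`∫ φ (S_i - c)² ≤ 2 ∫ φ (S_i - s_i)² + 2 (s_i - c)² ∫ φ`. (`S_i` is continuous near `K` for large `i`.) -/
def StmtFa1 : Prop := ∀ η : ℂ → ℝ, Bump η → ∀ (F : ℕ → ℂ → ℝ) (T : ℕ → ℝ),
  (∀ i, ContinuousOn (F i) H0) → (∀ i z, 0 ≤ F i z) → Tendsto T atTop atTop →
  (∀ K : Set ℂ, IsCompact K → K ⊆ H0 → ∃ B : ℝ, ∀ i, ∫ z in K, F i z ≤ B) →
  (∀ K : Set ℂ, IsCompact K → K ⊆ H0 → ∀ ε : ℝ, 0 < ε → ∃ R : ℝ, 0 < R ∧ ∀ᶠ i in atTop,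
    ∫ z in K, ∫ z' in K, (Sm' η (R / T i) (F i) z - Sm' η (R / T i) (F i) z') ^ 2 ≤ ε) →
  ∀ (φ0 : ℂ → ℝ) (c : ℝ), TestR H0 φ0 → (∀ z, 0 ≤ φ0 z) → ∫ z, φ0 z = 1 →
    Tendsto (fun i => ∫ z, φ0 z * F i z) atTop (𝓝 c) →
  ∀ φ : ℂ → ℝ, TestR H0 φ → (∀ z, 0 ≤ φ z) → ∀ ε : ℝ, 0 < ε → ∃ R : ℝ, 0 < R ∧
    ∀ᶠ i in atTop, ∫ z, φ z * (Sm' η (R / T i) (F i) z - c) ^ 2 ≤ ε

/-- **T2z** the flat theorem for `c = 0` (copy `Pl/T2a.lean` and `Pl/T2b.lean`). Proof. First,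
`∫ φ f_i² → 0` for `φ ≥ 0` (hence for all `φ`): `∫ φ F = (∫ φ F - ∫ φ Ed F) + ∫ φ Ed F`, `F = f_i²`; the first
term tends to zero by `Pl.StmtE3` with `G = 1`, the second is at most `√(∫ φ) √ε`. Second: let `φ ≥ 0` and suppose
`∫ φ f_i⁴` does not tend to `0`; by `Pool.Agent.A54.StmtComp` choose a subsequence with `Sm V q h f r` and
`∫ φ f_i⁴ → m4 > 0`. As in `T2bM.rho_one`, `rho r = 0` a.e. on `V`, so `PP q r φ n = 0` for all `n`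
(`PP_le`). `T2bM.main_ineq` with `1` replaced by `0`: `∫ φ F S ≤ ∫ φ S Ed F + D`,
`|∫ φ S Ed F| ≤ √(∫ φ S²) √ε`, `S = XX_{2M}`; limits `first_lim`, `sq_lim`: `(4/3) M m4 ≤ √((8/3) M² m4) √ε + D` for
all `M`, so `(4/3) m4 ≤ √(8 m4/3) √ε` for all `ε`, `m4 ≤ 0`. General `φ = (φ + C ζ) - C ζ`. -/
def StmtT2z : Prop := ∀ (V : Set ℂ) (q : ℂ → ℝ) (h : ℕ → ℝ) (f : ℕ → ℂ → ℝ), V ⊆ H0 →
  Seq V q h f → L4Bdd V f →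
  (∀ φ : ℂ → ℝ, TestR V φ → (∀ z, 0 ≤ φ z) → ∀ ε : ℝ, 0 < ε → ∃ (R : ℝ) (ρ : ℕ → ℝ),
    ∀ᶠ i in atTop, 0 < ρ i ∧ ρ i ≤ R * h i ∧
      ∫ z, φ z * (Ed (ρ i) (fun w => f i w ^ 2) z) ^ 2 ≤ ε) →
  (∀ φ : ℂ → ℝ, TestR V φ → Tendsto (fun i => ∫ z, φ z * f i z ^ 2) atTop (𝓝 0)) ∧
  ∀ φ : ℂ → ℝ, TestR V φ → Tendsto (fun i => ∫ z, φ z * f i z ^ 4) atTop (𝓝 0)

/-- **T2c** the flat theorem for all `c ≥ 0` (uses `Pl.StmtT2`, `T2z`). Proof. `c = 0`: `T2z`. `c > 0`: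
apply `Pl.StmtT2` to `f'_i = c^{-1/2} f_i`; `Seq`, `L4Bdd`, `Dyn.NAloc` are invariant under multiplication by a
nonzero constant (`gg h (a f) n = a gg h f n`; if `Sm V' q h (a f) r` then `Sm V' q h f (a⁻² r)`, and
`pp q (a⁻² r) n = a⁻⁴ pp q r n`), `Ed ρ (f'²) - 1 = c⁻¹ (Ed ρ (f²) - c)`. -/
def StmtT2c : Prop := ∀ (V : Set ℂ) (q : ℂ → ℝ) (h : ℕ → ℝ) (f : ℕ → ℂ → ℝ) (c : ℝ), V ⊆ H0 →
  0 ≤ c → Seq V q h f → L4Bdd V f → Dyn.NAloc V q h f →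
  (∀ φ : ℂ → ℝ, TestR V φ → (∀ z, 0 ≤ φ z) → ∀ ε : ℝ, 0 < ε → ∃ (R : ℝ) (ρ : ℕ → ℝ),
    ∀ᶠ i in atTop, 0 < ρ i ∧ ρ i ≤ R * h i ∧
      ∫ z, φ z * (Ed (ρ i) (fun w => f i w ^ 2) z - c) ^ 2 ≤ ε) →
  (∀ φ : ℂ → ℝ, TestR V φ → Tendsto (fun i => ∫ z, φ z * f i z ^ 2) atTop (𝓝 (c * ∫ z, φ z))) ∧
  ∀ φ : ℂ → ℝ, TestR V φ → Tendsto (fun i => ∫ z, φ z * f i z ^ 4) atTop
    (𝓝 (3 * c ^ 2 * ∫ z, φ z))

/-- **Fc** on the half-plane (uses `SDi`, `T2c`, `Pl.StmtT3`, `Dyn.StmtNAf`, `StmtInt`, `StmtLap`; model: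
`Pl/FC.lean`). Proof. `χ, V` from `Half.setup` for `φ`, `Seq` from `Half2.seq` (indices shifted by `N`), `NAloc` from
`Dyn.Half3M.naloc`. For `φ' ∈ TestR V`, `φ' ≥ 0`, `ε > 0`: `SDi` gives `ζ, C, r0, A0`; the hypothesis for `ζ` and
`ε/(4(C+1))` gives `R'`; put `ρ_i = A R'/T_i`, `r' = R'/T_i`, `A ≥ A0` with `C c² A⁻² ≤ ε/4`; then for large
`i` `∫ φ' (Ed ρ_i (ext f_i ²) - c)² ≤ ε/2`; for small `ρ_i` the discs lie in `V`, where `ff χ f = ext f`. With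
`h_i = hh(t_i)`, `(2/3)/T_i ≤ h_i ≤ 2/T_i` (`T_i/2 < t_i ≤ T_i`): `ρ_i ≤ (3/2) A R' h_i` and, with
`R = A R'/2`, `R h_i ≤ ρ_i ≤ 4 R h_i`. So `L4Bdd` follows from `Pl.StmtT3` as in `FCM.l4bdd` (`ε = 1`), and `T2c`
gives the limits for `ff χ f_i` and test functions in `V`; translate by `Half.int_eq`, `Half.int_eq_one`,
`Half.testR_weight` as at the end of `Pl/FC.lean`. -/
def StmtFc : Prop := ∀ η : ℂ → ℝ, Bump η → ∀ (f : ℕ → ℍ → ℝ) (t T : ℕ → ℝ) (c : ℝ),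
  (∀ i, IsHeckeMaass (f i) (t i)) → Tendsto T atTop atTop → (∀ i, T i / 2 < t i ∧ t i ≤ T i) →
  0 ≤ c → (∀ φ : ℂ → ℝ, TestR H0 φ → (∀ z, 0 ≤ φ z) → ∀ ε : ℝ, 0 < ε → ∃ R : ℝ, 0 < R ∧
    ∀ᶠ i in atTop, ∫ z, φ z * (Sm' η (R / T i) (fun w => ext (f i) w ^ 2) z - c) ^ 2 ≤ ε) →
  ∀ φ : ℂ → ℝ, TestR H0 φ →
    Tendsto (fun i => ∫ z : ℍ, φ z * f i z ^ 2) atTop (𝓝 (c * ∫ z : ℍ, φ z)) ∧
    Tendsto (fun i => ∫ z : ℍ, φ z * f i z ^ 4) atTop (𝓝 (3 * c ^ 2 * ∫ z : ℍ, φ z))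

/-- **Fd** sequences (uses `Fc`, `Fa1`, `Pl.StmtU1`, `Pl.StmtU2`). Proof. If not, along a subsequence the
expression stays away from `0` by some `ε0 > 0`. `φ0 ≥ 0` in `TestR H0` with `∫ φ0 = 1`; the numbers
`∫ φ0 (ext f_i)²` are bounded (for compact `K ⊆ H0`, `∫_K (ext f_i)² ≤ B`: a finite number of translates of `fd` covers
`K`, or `Pl.StmtU1` applied to a test function `≥ 1` on `K` times `im²`, with `normalised`), so along a further subsequence they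
converge to some `c ≥ 0`. `Fa1` gives the hypothesis of `Fc`; then `Pl.StmtU2` for `f_i²` (constant `c`) and `f_i⁴`
(constant `3c²`): `∫ ψ f_i² → c ∫ ψ`, `∫ ψ f_i⁴ → 3 c² ∫ ψ`, so the expression tends to
`3 c² (∫ ψ)² - 3 (c ∫ ψ)² = 0`, contradiction. -/
def StmtFd : Prop := ∀ η : ℂ → ℝ, Bump η → ∀ (f : ℕ → ℍ → ℝ) (t T : ℕ → ℝ),
  (∀ i, IsHeckeMaass (f i) (t i)) → Tendsto T atTop atTop → (∀ i, T i / 2 < t i ∧ t i ≤ T i) →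
  (∀ K : Set ℂ, IsCompact K → K ⊆ H0 → ∀ ε : ℝ, 0 < ε → ∃ R : ℝ, 0 < R ∧ ∀ᶠ i in atTop,
    XX2 η (R / T i) K (f i) ≤ ε) →
  ∀ ψ : ℍ → ℝ, TestX ψ → Tendsto (fun i => (∫ z in ModularGroup.fdo, ψ z) *
    (∫ z in ModularGroup.fdo, ψ z * f i z ^ 4) -
      3 * (∫ z in ModularGroup.fdo, ψ z * f i z ^ 2) ^ 2) atTop (𝓝 0)

/-- the exceptional forms -/
def Bad (ψ : ℍ → ℝ) (ε T : ℝ) (f : ℍ → ℝ) : Prop :=
  (∃ t : ℝ, IsHeckeMaass f t ∧ T < t ∧ t ≤ 2 * T) ∧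
  ε < |(∫ z in ModularGroup.fdo, ψ z) * (∫ z in ModularGroup.fdo, ψ z * f z ^ 4) -
    3 * (∫ z in ModularGroup.fdo, ψ z * f z ^ 2) ^ 2|

/-- every form is even or odd -/
def StmtPar : Prop := ∀ (f : ℍ → ℝ) (t : ℝ), IsHeckeMaass f t → ∃ ε : ℝ, IsPar f ε

/-- the main theorem -/
def StmtMain : Prop := ∀ ψ : ℍ → ℝ, TestX ψ → ∀ ε : ℝ, 0 < ε → ∃ T0 : ℝ, ∀ T : ℝ, T0 ≤ T →
  ∀ S : Finset (ℍ → ℝ), (∀ f ∈ S, Bad ψ ε T f) → (S.card : ℝ) ≤ ε * T ^ 2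

/-- **Fin** conclusion (uses `F2`, `Fd`, `Orth`, `Rho`, `Par`). Proof. If the theorem is false for `ψ, ε`, there
are `T_m → ∞` and finite sets `S_m` of bad forms for `T_m` with more than `ε T_m²` elements. Choose from every
pair `f, -f` in `S_m` one element: `S'_m ⊆ S_m` with at least `(ε/2) T_m²` elements and without such pairs
(`f = 0` is impossible); by `Orth`, `Par`, `Rho` the forms in `S'_m` are a family `Fam` (index type the subtype) with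
`T/2 < t ≤ T` for `T = 2 T_m`. Let `K_j` be a compact exhaustion of `H0`, `η` a `Bump`, and
by `F2` choose `R_j` and `T0(j)` with: for `T ≥ T0(j)` at most `(ε/8) 2^{-j-2} T²` forms of a family satisfy
`1/(j+1) < XX2 η (R_j/T) K_j f`. For given `m` let `J(m)` be the largest `J ≤ m` such that `2 T_m ≥ T0(j)` for all
`j < J`; `J(m) → ∞`. The number of `f ∈ S'_m` which violate one of the conditions `j < J(m)` is at most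
`(ε/8) (2 T_m)² ∑_j 2^{-j-2} ≤ (ε/4) T_m² < card S'_m`, so there is `f_m ∈ S'_m` which satisfies
`XX2 η (R_j/(2 T_m)) K_j f_m ≤ 1/(j+1)` for all `j < J(m)`. `XX2` is monotone in `K`. `Fd` applies to the sequence
`f_m` (every compact `K ⊆ H0` is contained in some `K_j` with `1/(j+1) ≤ ε`): contradiction to `Bad`. -/
def StmtFin : Prop := StmtMain

/-! ### Parity -/

/-- **Q1** Mellin transform of the Bessel function. Proof. Bound: `e^{-v} ≤ C v^{-1/4} e^{-v/2}` for `v > 0`, so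
`|K(X)| ≤ C X^{-1/4} e^{-X/2} ∫ (cosh u)^{-1/4} du`. For real `s > 0`:
`∫ K(y) y^{s-1} dy = Γ(s) ∫_0^∞ cos(tu) (cosh u)^{-s} du` (Fubini) `= Γ(s) (1/2) ∫_ℝ e^{itu} (cosh u)^{-s} du`, and with
`x = e^{2u}/(1+e^{2u})`, `(cosh u)⁻² = 4 x (1-x)`, `du = dx/(2x(1-x))`: `= 2^{s-2} Γ((s+it)/2) Γ((s-it)/2)`
(`Complex.betaIntegral`), which is not zero (`Complex.Gamma_ne_zero`). -/
def StmtQ1 : Prop := ∀ t : ℝ, (∃ C : ℝ, ∀ X : ℝ, 0 < X →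
    |KB t X| ≤ C * X ^ (-(1 / 4 : ℝ)) * Real.exp (-(X / 2))) ∧
  ∀ s : ℝ, 0 < s → ∫ y in Ioi (0 : ℝ), KB t y * y ^ (s - 1) ≠ 0

/-- `E(y) = f(i y)` -/
def fE (f : ℍ → ℝ) (y : ℝ) : ℝ := ext f ⟨0, y⟩

/-- `G(y) = y ∂_x f(i y)` -/
def fG (f : ℍ → ℝ) (y : ℝ) : ℝ := y * fderiv ℝ (ext f) ⟨0, y⟩ 1

/-- **Q2** the functions `E`, `G` (uses `Dec`, `Fo1`, `KBf`, `Der`). Here `ρ = u + i v`, `c(n)` are the Hecke
eigenvalues. Proof. (1) `f(-1/τ) = f(τ)` at `τ = i y`, and its derivative in `x` at `τ = i y` (`(-1/τ)' = τ⁻² = -y⁻²`).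
(2) `Dec` (with the bound for `F_x`, or `Der` for `k = 1`: `i y dz f = f_1` bounded gives only boundedness; for the decay of
`F_x` see the proof of `Dec`, or use the expansion (4)) and the symmetry `y ↔ 1/y`. (3) `|a_n(y)| ≤ sup |f|` and
`a_n(y0/n) = (c(n)/n) a_1(y0)` with `a_1(y0) ≠ 0`. (4) `Fo1` at `x = 0`, `a_{-n} = conj a_n`,
`a_n(y) = (c(n)/n) a_1(n y) = ρ c(n) n^{-1/2} √y K(2π n y)`; differentiate the expansion termwise in `x`. -/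
def StmtQ2 : Prop := ∀ (f : ℍ → ℝ) (t : ℝ) (ρ : ℂ) (c : ℕ → ℝ), IsHeckeMaass f t → IsRho f t ρ →
  (∀ m : ℕ, 1 ≤ m → IsHk f m (c m)) →
  (∀ y : ℝ, 0 < y → fE f y⁻¹ = fE f y ∧ fG f y⁻¹ = -fG f y) ∧
  (∃ C δ : ℝ, 0 < δ ∧ ∀ y : ℝ, 1 ≤ y → |fE f y| ≤ C * Real.exp (-(δ * y)) ∧
    |fG f y| ≤ C * Real.exp (-(δ * y))) ∧
  (∃ C : ℝ, ∀ n : ℕ, 1 ≤ n → |c n| ≤ C * n) ∧
  ∀ y : ℝ, 0 < y →
    HasSum (fun n : ℕ => 2 * ρ.re * (c (n + 1) / √(n + 1) * (√y * KB t (2 * Real.pi * (n + 1) * y))))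
      (fE f y) ∧
    HasSum (fun n : ℕ => -(4 * Real.pi * ρ.im) * (c (n + 1) * √(n + 1) *
      (y * √y * KB t (2 * Real.pi * (n + 1) * y)))) (fG f y)

/-- **Q3** (uses `Q1`, `Q2`). Proof. Let `ρ = u + i v` with `u, v ≠ 0`, `M(s) = mellin K s` (analytic for
`Re s > 1/4` by the bound of `Q1`, `mellin_differentiableAt_of_isBigO_rpow`), `Λ_E = mellin E`, `Λ_G = mellin G` entire
(rapid decay at `0` and `∞`), `Λ_E(-w) = Λ_E(w)`, `Λ_G(-w) = -Λ_G(w)`. For `Re w > 3` termwise integration (`|c(n)| ≤ C n`)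
gives `Λ_E(w) = 2 u D(w) M(w + 1/2)` and `Λ_G(w) = -4π v (2π)⁻¹ D(w) M(w + 3/2)`,
`D(w) = ∑ c(n) n^{-1/2} (2πn)^{-w-1/2}` (as `n^{1/2} (2πn)^{-w-3/2} = (2π)⁻¹ n^{-1/2} (2πn)^{-w-1/2}`). So
`Λ_G(w) M(w + 1/2) u = - v Λ_E(w) M(w + 3/2)`, by analytic continuation for `Re w > -1/4`. For `|Re w| < 1/4` use
it also for `-w`: `-Λ_G(w) M(1/2 - w) u = -v Λ_E(w) M(3/2 - w)`. Multiply the first by `M(1/2 - w)`, the second by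
`M(w + 1/2)` and add: `0 = -v Λ_E(w) [M(w+3/2) M(1/2-w) + M(3/2-w) M(w+1/2)]`; the bracket at `w = 0` is
`2 M(3/2) M(1/2) ≠ 0` (`Q1`), so `Λ_E = 0` near `0`, hence everywhere, and `E = 0` on `(0, ∞)` (`Λ_E(iξ)` is the Fourier transform
of the continuous integrable function `x ↦ E(e^x)`; Fourier inversion or `mellin_inversion`). -/
def StmtQ3 : Prop := ∀ (f : ℍ → ℝ) (t : ℝ) (ρ : ℂ), IsHeckeMaass f t → IsRho f t ρ →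
  ρ.re ≠ 0 → ρ.im ≠ 0 → ∀ y : ℝ, 0 < y → fE f y = 0

/-- **Par** (uses `Rho`, `Fo1`, `Q2`, `Q3`, `KBf`). Proof. Let `ρ = u + i v`. If `u, v ≠ 0`, then by `Q3`, `Q2` (4)
`0 = ∑_n c(n) n^{-1/2} K(2π n y)` for all `y > 0`, `c(1) = 1`; multiply by `e^{2πy} √(2πy)` and let `y → ∞`: by `KBf` (6) the
term `n = 1` tends to `√(π/2)`, and by `KBf` (4), `|c(n)| ≤ C n` the others are at most
`C n^{1/2} √(π/2) e^{-2π(n-1)y} √(1/n)`, sum tends to `0`: contradiction. (`c(1) = 1` from `IsHk f 1`, `f ≠ 0`.) If `v = 0`, `a_n` is real for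
`n ≥ 1` (`a_n(y) = (c(n)/n) a_1(ny)`), so `a_{-n} = conj a_n = a_n` and `f(-z̄) = f(z)` by the expansion `Fo1` (1); if `u = 0`,
`a_n` is imaginary, `a_{-n} = -a_n`, `f(-z̄) = -f(z)`. -/
def StmtPar' : Prop := StmtPar

end

end Pool.Agent.A54.Av
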