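import Pool.Agent.Lib.MP_a54f13_nt.Av.SpecF
import Pool.Agent.Lib.MP_a54f13_nt.Av.SpecE

/-!
# Package `Av`, part N: no escape of mass for almost all forms

With this part the main theorem becomes: for every `ψ ∈ TestX`, `ε > 0` and all large `T`, all but `ε T²`
of the forms with `T < t ≤ 2 T` satisfy `|∫ ψ f² - ∫ ψ| ≤ ε` and `|∫ ψ f⁴ - 3 ∫ ψ| ≤ ε`.

Every module: file `Pool/Agent/Lib/MP_a54f13_nt/Av/<Name>.lean`, importing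
`Pool.Agent.Lib.MP_a54f13_nt.Av.SpecN` and what is named in the task, private names in
`namespace Pool.Agent.A54.Av.<Name>M`, final theorem `Pool.Agent.A54.Av.stmt<Name>`; the other Props
used are hypotheses of the theorem.
-/

set_option autoImplicit false

namespace Pool.Agent.A54.Av

open MeasureTheory Filter Topology Set
open scoped ContDiff ComplexConjugate UpperHalfPlane MatrixGroups ENNReal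
open Pool.Agent.A54.Half (H0 qq ff hh)
open Pool.Agent.A54.Pl (Ed)

noncomputable section

/-- a finite orthogonal family of forms with `t ≤ T` -/
structure Fam' (ι : Type) (F : ι → ℍ → ℝ) (t : ι → ℝ) (T : ℝ) : Prop where
  form : ∀ i, IsHeckeMaass (F i) (t i)
  le : ∀ i, t i ≤ T
  orth : ∀ i j, i ≠ j → ∫ z in ModularGroup.fdo, F i z * F j z = 0

/-- **N0** lower bound for the Bessel function. Proof. Substitute `u = v/√X`: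
`√X e^X K(X) = ∫_0^∞ e^{-φ(v)} cos(a v) dv`, `φ(v) = X (cosh(v/√X) - 1)`, `a = t/√X`, `a² ≤ 1/4`.
`cos(a v) ≥ 1 - a² v²/2 ≥ 1 - v²/8`, so it is `≥ ∫ e^{-φ} - (1/8) ∫ v² e^{-φ}`. As `φ(v) ≥ v²/2`,
`∫ v² e^{-φ} ≤ √(π/2) ≤ 1.26`; for `v ≤ 1` (`v/√X ≤ 1`, `X ≥ 1`), `cosh x - 1 ≤ 0.55 x²`, so
`∫ e^{-φ} ≥ e^{-0.55} ≥ 0.57`. `0.57 - 0.16 ≥ 2/5`. -/
def StmtN0 : Prop := ∀ t X : ℝ, 1 ≤ X → 4 * t ^ 2 ≤ X → 2 / 5 ≤ √X * Real.exp X * KB t X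

/-- **N2** counting in `SL(2, ℤ)`. Here `D = d(z, γ z)`. Proof. Let `z = x + i y ∈ fd`, `y ≥ √3/2`, `|x| ≤ 1/2`.
For `γ = (a, b; c, d) ∈ SL(2, ℤ)`, `cosh D = 1 + 2 V`, `V = |c z² - (a - d) z - b|²/(4y²)`, and
`1 + V = β² + (a + d)²/4` (these are in `QF`). `c ≠ 0`: if `cosh(D/2) ≤ R` (`R ≥ 1`), then `V ≤ R²`, so
`|a + d| ≤ 2√2 R`, `|β| ≤ 2 R`, and `β = re N/(2y) + c y` gives `|c| y ≤ 3 R`, `|a - d - 2 c x| ≤ 2R`; so there are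
at most `C R³` triples `(c, a, d)`, and `b = (ad - 1)/c`. So the sum over `c ≠ 0` of
`exp(-(X/2)(cosh(D/2) - 1))` is at most `∑_{R ≥ 1} C (R + 1)³ e^{-(R - 1)/2} ≤ C'` (sum over `R ≤ cosh(D/2) < R + 1`,
`X ≥ 1`). `c = 0`: `γ = ± T^j`, `cosh(D/2) = √(1 + j²/(4y²))`; with `w = j²/(4y²)`, `√(1+w) - 1 ≥ (2/5) min(w, √w)`. The
terms with `|j| ≤ 2y` are at most `e^{-c X j²/y²}`, sum `≤ 1 + C y/√X`; the others at most `e^{-c X |j|/y}`, sum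
`≤ C (1 + y/X)`. -/
def StmtN2 : Prop := ∃ C : ℝ, 0 ≤ C ∧ ∀ z ∈ ModularGroup.fd, ∀ X : ℝ, 1 ≤ X →
  (Summable fun γ : SL(2, ℤ) =>
    Real.exp (-(X / 2 * (Real.cosh (dist z (γ • z) / 2) - 1)))) ∧
  ∑' γ : SL(2, ℤ), Real.exp (-(X / 2 * (Real.cosh (dist z (γ • z) / 2) - 1))) ≤
    C * (1 + z.im / √X)

/-- **N1** upper bound in the local Weyl law (uses `UL`, `Sel`, `ExI`, `N0`, `N2`, `Dec`). Proof. `X = 4 T² ≥ 1`,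
`k(τ) = ∑_{γ ∈ SL(2,ℤ)} e^{-X cosh d(γ τ, z)}`, an invariant function. By `UL` (`G(τ) = e^{-X cosh d(τ, z)} F_i(τ)`) and
`Sel`: `∫_{fdo} k F_i = 2 κ_i F_i(z)`, `κ_i = 2 √(2π) KB(t_i, X)/√X ≥ (4/5) √(2π) e^{-X}/X` by `N0`. Bessel's inequality
(`∫ F_i² = π/3`): `∑ (3/π) 4 κ_i² F_i(z)² ≤ ∫_{fdo} k²`. By `UL` again (`k` invariant)
`∫_{fdo} k² = 2 ∫_ℍ e^{-X cosh d(τ,z)} k(τ) dμ = 2 ∑_γ ∫_ℍ e^{-X (C₁ + C₂)} dμ(τ)`, `C₁ = cosh d(τ, z)`,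
`C₂ = cosh d(τ, γ⁻¹ z)`. With `D = d(z, γ⁻¹ z)`, `max(d₁, d₂) ≥ D/2`, so `C₁ + C₂ ≥ 1 + cosh(D/2)` and
`e^{-X(C₁+C₂)} ≤ e^{-(X/2)(1 + cosh(D/2))} e^{-(X/2)(C₁ + C₂)}`; by Cauchy–Schwarz and `∫_ℍ e^{-X cosh d(τ,z)} dμ = 2π e^{-X}/X` (`ExI`):
`∫ ≤ (2π/X) e^{-2X} e^{-(X/2)(cosh(D/2) - 1)}`. `N2` (`D = d(z, γ⁻¹z)`): `∑ F_i(z)² ≤ C X (1 + y/√X)`. -/
def StmtN1 : Prop := ∃ C : ℝ, 0 ≤ C ∧ ∀ (ι : Type) [Fintype ι] (F : ι → ℍ → ℝ) (t : ι → ℝ) (T : ℝ),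
  1 ≤ T → Fam' ι F t T → ∀ z ∈ ModularGroup.fd, ∑ i, F i z ^ 2 ≤ C * T ^ 2 * (1 + z.im / T)

/-- **N3a** decay high in the cusp. Proof. See `Dec`: `E(y) = ∫_0^1 F(x + i y)² dx` satisfies
`E'' ≥ (2 - 2 λ/y²) E`, `λ = 1/4 + t² ≤ (5/4) T²`; so `E'' ≥ 0` for `y ≥ (3/2) T` and, with
`2 λ/y² ≤ 1` for `y ≥ √(5/2) T`, `E'' ≥ E` for `y ≥ (8/5) T`. As in `Dec`, `E' ≤ 0` for `y ≥ (8/5) T` (convexity and
`∫ E dy/y² < ∞`) and `E(y) ≤ E(y₁) e^{-(y - y₁)}` for `y ≥ y₁ ≥ (8/5) T`. If `T ≥ 5/2` then `2 T - 1 ≥ (8/5) T` and `E` is decreasing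
on `[2T - 1, 2T]`, so `E(2T) ≤ ∫_{2T-1}^{2T} E`. -/
def StmtN3a : Prop := ∀ (f : ℍ → ℝ) (t T : ℝ), IsHeckeMaass f t → t ≤ T → 5 / 2 ≤ T → ∀ y : ℝ,
  2 * T ≤ y → ∫ x in (0 : ℝ)..1, ext f ⟨x, y⟩ ^ 2 ≤
    Real.exp (-(y - 2 * T)) * ∫ v in (2 * T - 1)..(2 * T), ∫ x in (0 : ℝ)..1, ext f ⟨x, v⟩ ^ 2

/-- **N3** the mass in the cusp (uses `N1`, `N3a`). Proof. For `y > 1`, `fdo` is the strip `|x| < 1/2`.
`∑_i ∫_{Y < y ≤ 2T} F_i² dx dy/y² ≤ ∫_Y^∞ C T² · 3 dy/y² = 3 C T²/Y` by `N1` (`y/T ≤ 2`). For `y ≥ 2T` by `N3a` and `N1`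
`∑_i E_i(y) ≤ e^{-(y - 2T)} 3 C T²`, so `∫_{2T}^∞ ∑ E_i dy/y² ≤ C' T²/T² ≤ C' T²/Y`. -/
def StmtN3 : Prop := ∃ C : ℝ, 0 ≤ C ∧ ∀ (ι : Type) [Fintype ι] (F : ι → ℍ → ℝ) (t : ι → ℝ) (T : ℝ),
  5 / 2 ≤ T → Fam' ι F t T → ∀ Y : ℝ, 1 ≤ Y → Y ≤ T →
    ∑ i, ∫ z in ModularGroup.fdo ∩ {z : ℍ | Y < z.im}, F i z ^ 2 ≤ C * T ^ 2 / Y

/-- **Vol** the volume. Proof. `∫_{-1/2}^{1/2} ∫_{√(1-x²)}^∞ dy/y² dx = ∫_{-1/2}^{1/2} dx/√(1-x²) = 2 arcsin(1/2) = π/3`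
(`IntLap.int_gen` or `stmtInt`; Fubini for nonnegative functions). -/
def StmtVol : Prop := volume ModularGroup.fdo = ENNReal.ofReal (Real.pi / 3)

/-- **Fd2** sequences without escape of mass (uses `Fc`, `Fa1`, `Vol`, `Pl.StmtU1`, `Pl.StmtU2`). Proof. It suffices
that every subsequence has a further subsequence with the two limits. As in `Fd` choose a subsequence with
`∫ φ0 (ext f_i)² → c`; `Fa1`, `Fc` give `∫_ℍ φ f_i² → c ∫_ℍ φ`, `∫_ℍ φ f_i⁴ → 3c² ∫_ℍ φ` for all `φ ∈ TestR H0`.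
`c ≤ 1`: for `0 ≤ φ ≤ 1` with support in the open set `fdo`, `c ∫ φ = lim ∫ φ f_i² ≤ ∫_{fdo} f_i² = π/3`, and
`∫_ℍ φ dμ` can be arbitrarily close to `μ(fdo) = π/3` (inner regularity, `exists_cutoff`). `c ≥ 1`: given `κ > 0` choose
`Y` from the hypothesis; the closure `K` of `fdo ∩ {im ≤ Y}` is compact with `μ(K) ≤ π/3` (`fd \ fdo` is a null set,
`Dyn.LB.null`), so there is `φ ∈ TestR H0`, `0 ≤ φ`, `φ ≥ 1` on `K`, `∫_ℍ φ ≤ π/3 + κ` (outer regularity, `exists_cutoff`);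
`π/3 - κ ≤ ∫_{fdo ∩ {im ≤ Y}} f_i² ≤ ∫ φ f_i² → c ∫ φ ≤ c (π/3 + κ)`. So `c = 1`; now `Pl.StmtU2`. -/
def StmtFd2 : Prop := ∀ η : ℂ → ℝ, Bump η → ∀ (f : ℕ → ℍ → ℝ) (t T : ℕ → ℝ),
  (∀ i, IsHeckeMaass (f i) (t i)) → Tendsto T atTop atTop → (∀ i, T i / 2 < t i ∧ t i ≤ T i) →
  (∀ K : Set ℂ, IsCompact K → K ⊆ H0 → ∀ ε : ℝ, 0 < ε → ∃ R : ℝ, 0 < R ∧ ∀ᶠ i in atTop,
    XX2 η (R / T i) K (f i) ≤ ε) →
  (∀ κ : ℝ, 0 < κ → ∃ Y : ℝ, ∀ᶠ i in atTop,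
    ∫ z in ModularGroup.fdo ∩ {z : ℍ | Y < z.im}, f i z ^ 2 ≤ κ) →
  ∀ ψ : ℍ → ℝ, TestX ψ →
    Tendsto (fun i => ∫ z in ModularGroup.fdo, ψ z * f i z ^ 2) atTop
      (𝓝 (∫ z in ModularGroup.fdo, ψ z)) ∧
    Tendsto (fun i => ∫ z in ModularGroup.fdo, ψ z * f i z ^ 4) atTop
      (𝓝 (3 * ∫ z in ModularGroup.fdo, ψ z))

/-- the exceptional forms -/
def Bad2 (ψ : ℍ → ℝ) (ε T : ℝ) (f : ℍ → ℝ) : Prop :=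
  (∃ t : ℝ, IsHeckeMaass f t ∧ T < t ∧ t ≤ 2 * T) ∧
  (ε < |(∫ z in ModularGroup.fdo, ψ z * f z ^ 2) - ∫ z in ModularGroup.fdo, ψ z| ∨
    ε < |(∫ z in ModularGroup.fdo, ψ z * f z ^ 4) - 3 * ∫ z in ModularGroup.fdo, ψ z|)

/-- the main theorem: the cases `n = 2` and `n = 4` for almost all forms -/
def StmtMain2 : Prop := ∀ ψ : ℍ → ℝ, TestX ψ → ∀ ε : ℝ, 0 < ε → ∃ T0 : ℝ, ∀ T : ℝ, T0 ≤ T →
  ∀ S : Finset (ℍ → ℝ), (∀ f ∈ S, Bad2 ψ ε T f) → (S.card : ℝ) ≤ ε * T ^ 2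

/-- **Fin2** conclusion (uses `F2`, `N3`, `Fd2`, `Orth`, `Rho`, `Par`). Proof. As `Fin`, with additional conditions: let `C` be as
in `N3`; for every `j` let `Y_j ≥ 1` be such that `C/Y_j ≤ (ε/16) 2^{-j-2}/(j+1)`; for `T = 2 T_m ≥ Y_j` the number of forms in
`S'_m` with `∫_{fdo ∩ {im > Y_j}} f² > 1/(j+1)` is at most `(j+1) C T²/Y_j ≤ (ε/16) 2^{-j-2} T²` (`Fam` gives `Fam'` with
`t ≤ T = 2 T_m`). Take `J(m)` also with `2 T_m ≥ Y_j` and `2 T_m ≥ 5/2` for `j < J(m)`; the number of `f ∈ S'_m` violating one of the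
conditions is at most `(ε/4 + ε/8) T_m² < (ε/2) T_m² ≤ card S'_m`. The sequence of the chosen forms satisfies the hypotheses
of `Fd2`, whose conclusion contradicts `Bad2` (for infinitely many `m` the same alternative of `Bad2` holds). -/
def StmtFin2 : Prop := StmtMain2

end

end Pool.Agent.A54.Av
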