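import Pool.Agent.Lib.MP_a54f13_nt.Av.SpecA

/-!
# Package `Av`: size of the theta series
-/

set_option autoImplicit false

namespace Pool.Agent.A54.Av.ThSM

open MeasureTheory Filter Topology Set
open scoped ContDiff ComplexConjugate UpperHalfPlane MatrixGroups ENNReal
open Pool.Agent.A54.Half (H0 qq ff hh)

lemma msq_nonneg (γ : Mat) : 0 ≤ msq γ := by
  unfold msq; positivity

lemma norm_ee (x : ℂ) : ‖ee x‖ = Real.exp (-(2 * Real.pi * x.im)) := by
  unfold ee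
  rw [Complex.norm_exp]
  congr 1
  simp

lemma norm_kk (γ : Mat) (τ z w : ℂ) (hτ : 0 < τ.im) :
    ‖kk γ τ z w‖ = τ.im * Real.exp (-(2 * Real.pi * τ.im * (((γ.det : ℤ) : ℝ) + 2 * VV γ z w))) := by
  unfold kk
  rw [norm_mul, norm_mul, norm_ee, Complex.norm_real, Complex.norm_real, Real.norm_of_nonneg hτ.le,
    Real.norm_of_nonneg (Real.exp_pos _).le, mul_assoc, ← Real.exp_add]
  congr 2
  have h1 : ((((γ.det : ℤ) : ℂ)) * τ).im = ((γ.det : ℤ) : ℝ) * τ.im := by simp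
  rw [h1]
  ring

lemma kk_zero (τ z w : ℂ) : kk 0 τ z w = (τ.im : ℂ) := by
  unfold kk VV ee
  have h1 : ((0 : Mat).det : ℤ) = 0 := by simp
  rw [h1]
  simp

/-- termwise bound from a bound of the quadratic form -/
lemma kk_le (γ : Mat) (τ z w : ℂ) (hτ : 0 < τ.im) (B : ℝ) (hB : 0 < B)
    (hQ : msq γ ≤ B * (((γ.det : ℤ) : ℝ) + 2 * VV γ z w)) :
    ‖kk γ τ z w‖ ≤ τ.im * Real.exp (-(2 * Real.pi * τ.im / B * msq γ)) := by
  rw [norm_kk γ τ z w hτ]
  apply mul_le_mul_of_nonneg_left _ hτ.le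
  apply Real.exp_le_exp.2
  apply neg_le_neg
  have h1 : 0 ≤ 2 * Real.pi * τ.im / B := by positivity
  have h2 := mul_le_mul_of_nonneg_left hQ h1
  have h3 : 2 * Real.pi * τ.im / B * (B * (((γ.det : ℤ) : ℝ) + 2 * VV γ z w)) =
      2 * Real.pi * τ.im * (((γ.det : ℤ) : ℝ) + 2 * VV γ z w) := by
    field_simp
  rw [h3] at h2
  exact h2

end Pool.Agent.A54.Av.ThSM

namespace Pool.Agent.A54.Av

open MeasureTheory Filter Topology Set
open scoped ContDiff ComplexConjugate UpperHalfPlane MatrixGroups ENNReal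
open Pool.Agent.A54.Half (H0 qq ff hh)
open ThSM

theorem stmtThS (hQF : StmtQF) (hGau : StmtGau) : StmtThS := by
  obtain ⟨hG1, ⟨C2, hG2⟩, hG3⟩ := hGau
  refine ⟨fun γ τ z w hτ _ _ => norm_kk γ τ z w hτ, ?_, ?_⟩
  · -- compact sets
    intro K hK hKH Y0 hY0
    obtain ⟨B0, hB0⟩ : ∃ B0 : ℝ, ∀ z ∈ K, (‖z‖ ^ 2 + 1) / z.im ≤ B0 := by
      have hc : ContinuousOn (fun z : ℂ => (‖z‖ ^ 2 + 1) / z.im) K := by
        apply ContinuousOn.div
        · fun_prop
        · exact Complex.continuous_im.continuousOn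
        · intro z hz
          exact ne_of_gt (hKH hz)
      obtain ⟨B0, hB0⟩ := hK.exists_bound_of_continuousOn hc
      exact ⟨B0, fun z hz => (le_abs_self _).trans (hB0 z hz)⟩
    set B1 := max B0 1 with hB1
    have hB1pos : 0 < B1 := lt_of_lt_of_le one_pos (le_max_right _ _)
    set B := 2 * B1 * B1 with hB
    have hBpos : 0 < B := by positivity
    set c1 := 2 * Real.pi / B with hc1
    have hc1pos : 0 < c1 := by positivity
    obtain ⟨C3, hC3⟩ := hG3 (c1 * Y0) (by positivity)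
    set S0 := ∑' γ : Mat, Real.exp (-(c1 * Y0 * msq γ)) with hS0
    have hS0nn : 0 ≤ S0 := tsum_nonneg fun γ => (Real.exp_pos _).le
    -- termwise bound
    have hterm : ∀ τ : ℂ, 0 < τ.im → ∀ z ∈ K, ∀ w ∈ K, ∀ γ : Mat,
        ‖kk γ τ z w‖ ≤ τ.im * Real.exp (-(c1 * τ.im * msq γ)) := by
      intro τ hτ z hz w hw γ
      have hzH := hKH hz
      have hwH := hKH hw
      obtain ⟨q1, q2, q3, q4, -, -⟩ := hQF γ z w hzH hwH
      have hnV : 0 ≤ ((γ.det : ℤ) : ℝ) + 2 * VV γ z w := by linarith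
      have hz0 : 0 ≤ (‖z‖ ^ 2 + 1) / z.im := div_nonneg (by positivity) (le_of_lt hzH)
      have hw0 : 0 ≤ (‖w‖ ^ 2 + 1) / w.im := div_nonneg (by positivity) (le_of_lt hwH)
      have hz1 : (‖z‖ ^ 2 + 1) / z.im ≤ B1 := (hB0 z hz).trans (le_max_left _ _)
      have hw1 : (‖w‖ ^ 2 + 1) / w.im ≤ B1 := (hB0 w hw).trans (le_max_left _ _)
      have hQ : msq γ ≤ B * (((γ.det : ℤ) : ℝ) + 2 * VV γ z w) := by
        refine q4.trans ?_
        have p1 : ((‖z‖ ^ 2 + 1) / z.im) * ((‖w‖ ^ 2 + 1) / w.im) ≤ B1 * B1 :=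
          mul_le_mul hz1 hw1 hw0 hB1pos.le
        have p2 := mul_le_mul_of_nonneg_left p1 (show 0 ≤ 2 * (((γ.det : ℤ) : ℝ) + 2 * VV γ z w) by
          linarith)
        calc 2 * (((γ.det : ℤ) : ℝ) + 2 * VV γ z w) * ((‖z‖ ^ 2 + 1) / z.im) *
            ((‖w‖ ^ 2 + 1) / w.im) = 2 * (((γ.det : ℤ) : ℝ) + 2 * VV γ z w) *
              (((‖z‖ ^ 2 + 1) / z.im) * ((‖w‖ ^ 2 + 1) / w.im)) := by ring
          _ ≤ 2 * (((γ.det : ℤ) : ℝ) + 2 * VV γ z w) * (B1 * B1) := p2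
          _ = B * (((γ.det : ℤ) : ℝ) + 2 * VV γ z w) := by rw [hB]; ring
      have h1 := kk_le γ τ z w hτ B hBpos hQ
      have h2 : 2 * Real.pi * τ.im / B * msq γ = c1 * τ.im * msq γ := by
        rw [hc1]; ring
      rw [h2] at h1
      exact h1
    refine ⟨max S0 (|C3| * (4 / c1)), c1 / 4, hS0nn.trans (le_max_left _ _), by positivity, ?_⟩
    intro τ hτ z hz w hw
    have hτ0 : 0 < τ.im := lt_of_lt_of_le hY0 hτ
    have ht := hterm τ hτ0 z hz w hw
    have hsum1 : Summable fun γ : Mat => τ.im * Real.exp (-(c1 * τ.im * msq γ)) :=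
      (hG1 (c1 * τ.im) (by positivity)).mul_left _
    have hs : Summable fun γ : Mat => ‖kk γ τ z w‖ :=
      Summable.of_nonneg_of_le (fun _ => norm_nonneg _) ht hsum1
    refine ⟨hs, ?_, ?_⟩
    · have h1 : ∑' γ : Mat, ‖kk γ τ z w‖ ≤ ∑' γ : Mat, τ.im * Real.exp (-(c1 * Y0 * msq γ)) := by
        refine hs.tsum_le_tsum (fun γ => (ht γ).trans ?_)
          ((hG1 (c1 * Y0) (by positivity)).mul_left _)
        apply mul_le_mul_of_nonneg_left _ hτ0.le
        apply Real.exp_le_exp.2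
        apply neg_le_neg
        exact mul_le_mul_of_nonneg_right (mul_le_mul_of_nonneg_left hτ hc1pos.le) (msq_nonneg γ)
      rw [tsum_mul_left] at h1
      refine h1.trans ?_
      rw [mul_comm]
      exact mul_le_mul_of_nonneg_right (le_max_left _ _) hτ0.le
    · classical
      have hsk : Summable fun γ : Mat => kk γ τ z w := hs.of_norm
      have e1 : Th τ z w - (τ.im : ℂ) = ∑' γ : Mat, if γ = 0 then (0 : ℂ) else kk γ τ z w := by
        have h1 := hsk.tsum_eq_add_tsum_ite (0 : Mat)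
        unfold Th
        rw [h1, kk_zero, add_sub_cancel_left]
      have hb1 : ∀ γ : Mat, ‖(if γ = 0 then (0 : ℂ) else kk γ τ z w)‖ ≤
          τ.im * (if γ = 0 then (0 : ℝ) else Real.exp (-(c1 * τ.im * msq γ))) := by
        intro γ
        by_cases h : γ = 0
        · simp [h]
        · simp only [if_neg h]
          exact ht γ
      have hsum2 : Summable fun γ : Mat => τ.im *
          (if γ = 0 then (0 : ℝ) else Real.exp (-(c1 * τ.im * msq γ))) := by
        apply Summable.mul_left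
        refine Summable.of_nonneg_of_le (fun γ => ?_) (fun γ => ?_)
          (hG1 (c1 * τ.im) (by positivity))
        · split_ifs
          · exact le_rfl
          · exact (Real.exp_pos _).le
        · split_ifs
          · exact (Real.exp_pos _).le
          · exact le_rfl
      have h3 : ‖Th τ z w - (τ.im : ℂ)‖ ≤
          τ.im * ∑' γ : Mat, (if γ = 0 then (0 : ℝ) else Real.exp (-(c1 * τ.im * msq γ))) := by
        rw [e1, ← tsum_mul_left]
        exact tsum_of_norm_bounded hsum2.hasSum hb1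
      have h4 : ∑' γ : Mat, (if γ = 0 then (0 : ℝ) else Real.exp (-(c1 * τ.im * msq γ))) ≤
          C3 * Real.exp (-(c1 * τ.im / 2)) := by
        have h5 := hC3 (c1 * τ.im) (mul_le_mul_of_nonneg_left hτ hc1pos.le)
        convert h5 using 3
      have h5 : τ.im * Real.exp (-(c1 * τ.im / 2)) ≤ 4 / c1 * Real.exp (-(c1 / 4 * τ.im)) := by
        have h6 : c1 * τ.im / 4 ≤ Real.exp (c1 * τ.im / 4) := by
          have := Real.add_one_le_exp (c1 * τ.im / 4)
          linarith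
        have h7 : τ.im ≤ 4 / c1 * Real.exp (c1 * τ.im / 4) := by
          have h8 : τ.im = 4 / c1 * (c1 * τ.im / 4) := by field_simp
          calc τ.im = 4 / c1 * (c1 * τ.im / 4) := h8
            _ ≤ _ := mul_le_mul_of_nonneg_left h6 (by positivity)
        calc τ.im * Real.exp (-(c1 * τ.im / 2)) ≤
            4 / c1 * Real.exp (c1 * τ.im / 4) * Real.exp (-(c1 * τ.im / 2)) :=
              mul_le_mul_of_nonneg_right h7 (Real.exp_pos _).le
          _ = 4 / c1 * Real.exp (-(c1 / 4 * τ.im)) := by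
              rw [mul_assoc, ← Real.exp_add]
              congr 2
              ring
      calc ‖Th τ z w - (τ.im : ℂ)‖ ≤ τ.im * (C3 * Real.exp (-(c1 * τ.im / 2))) :=
            h3.trans (mul_le_mul_of_nonneg_left h4 hτ0.le)
        _ ≤ τ.im * (|C3| * Real.exp (-(c1 * τ.im / 2))) := by
            apply mul_le_mul_of_nonneg_left _ hτ0.le
            exact mul_le_mul_of_nonneg_right (le_abs_self _) (Real.exp_pos _).le
        _ = |C3| * (τ.im * Real.exp (-(c1 * τ.im / 2))) := by ring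
        _ ≤ |C3| * (4 / c1 * Real.exp (-(c1 / 4 * τ.im))) :=
            mul_le_mul_of_nonneg_left h5 (abs_nonneg _)
        _ = |C3| * (4 / c1) * Real.exp (-(c1 / 4 * τ.im)) := by ring
        _ ≤ max S0 (|C3| * (4 / c1)) * Real.exp (-(c1 / 4 * τ.im)) :=
            mul_le_mul_of_nonneg_right (le_max_right _ _) (Real.exp_pos _).le
  · -- the strip
    intro z hz
    have hz0 : 0 < z.im := hz
    set S1 := ∑' γ : Mat, Real.exp (-(1 * msq γ)) with hS1
    have hS1nn : 0 ≤ S1 := tsum_nonneg fun γ => (Real.exp_pos _).le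
    set κ := 2 * Real.pi * z.im / 128 with hκ
    have hκ0 : 0 < κ := by positivity
    refine ⟨z.im * (|C2| * (κ ^ 2)⁻¹ + 16 * S1), by positivity, ?_⟩
    intro w τ hw hτ hwr hτr
    have hw0 : 0 < w.im := by linarith
    have hτ0 : 0 < τ.im := by linarith
    have hquot : ∀ v : ℂ, 1 / 2 ≤ v.im → |v.re| ≤ 1 / 2 → (‖v‖ ^ 2 + 1) / v.im ≤ 8 * v.im := by
      intro v hv hvr
      have hv0 : 0 < v.im := by linarith
      rw [div_le_iff₀ hv0]
      have h1 : ‖v‖ ^ 2 = v.re ^ 2 + v.im ^ 2 := by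
        rw [← Complex.normSq_eq_norm_sq, Complex.normSq_apply]; ring
      have h2 : v.re ^ 2 ≤ (1 / 2) ^ 2 := by
        rw [← sq_abs v.re]
        exact pow_le_pow_left₀ (abs_nonneg _) hvr 2
      have h3 : (1 / 2) ^ 2 ≤ v.im ^ 2 := pow_le_pow_left₀ (by norm_num) hv 2
      rw [h1]
      nlinarith
    set t := κ / (w.im * τ.im) with ht
    have hwτ : 0 < w.im * τ.im := mul_pos hw0 hτ0
    have ht0 : 0 < t := by positivity
    have hterm : ∀ γ : Mat, ‖kk γ z w τ‖ ≤ z.im * Real.exp (-(t * msq γ)) := by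
      intro γ
      obtain ⟨q1, q2, q3, q4, -, -⟩ := hQF γ w τ hw0 hτ0
      have hnV : 0 ≤ ((γ.det : ℤ) : ℝ) + 2 * VV γ w τ := by linarith
      have hw2 : 0 ≤ (‖w‖ ^ 2 + 1) / w.im := div_nonneg (by positivity) hw0.le
      have hτ2 : 0 ≤ (‖τ‖ ^ 2 + 1) / τ.im := div_nonneg (by positivity) hτ0.le
      have hQ : msq γ ≤ (128 * (w.im * τ.im)) * (((γ.det : ℤ) : ℝ) + 2 * VV γ w τ) := by
        refine q4.trans ?_
        have p1 : ((‖w‖ ^ 2 + 1) / w.im) * ((‖τ‖ ^ 2 + 1) / τ.im) ≤ (8 * w.im) * (8 * τ.im) :=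
          mul_le_mul (hquot w hw hwr) (hquot τ hτ hτr) hτ2 (by positivity)
        have p2 := mul_le_mul_of_nonneg_left p1 (show 0 ≤ 2 * (((γ.det : ℤ) : ℝ) + 2 * VV γ w τ) by
          linarith)
        calc 2 * (((γ.det : ℤ) : ℝ) + 2 * VV γ w τ) * ((‖w‖ ^ 2 + 1) / w.im) *
            ((‖τ‖ ^ 2 + 1) / τ.im) = 2 * (((γ.det : ℤ) : ℝ) + 2 * VV γ w τ) *
              (((‖w‖ ^ 2 + 1) / w.im) * ((‖τ‖ ^ 2 + 1) / τ.im)) := by ring
          _ ≤ 2 * (((γ.det : ℤ) : ℝ) + 2 * VV γ w τ) * ((8 * w.im) * (8 * τ.im)) := p2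
          _ = (128 * (w.im * τ.im)) * (((γ.det : ℤ) : ℝ) + 2 * VV γ w τ) := by ring
      have h1 := kk_le γ z w τ hz0 (128 * (w.im * τ.im)) (by positivity) hQ
      have h2 : 2 * Real.pi * z.im / (128 * (w.im * τ.im)) * msq γ = t * msq γ := by
        rw [ht, hκ]
        field_simp
      rw [h2] at h1
      exact h1
    have hsum1 : Summable fun γ : Mat => z.im * Real.exp (-(t * msq γ)) :=
      (hG1 t ht0).mul_left _
    have hs : Summable fun γ : Mat => ‖kk γ z w τ‖ :=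
      Summable.of_nonneg_of_le (fun _ => norm_nonneg _) hterm hsum1
    refine ⟨hs, ?_⟩
    have h1 : ∑' γ : Mat, ‖kk γ z w τ‖ ≤ z.im * ∑' γ : Mat, Real.exp (-(t * msq γ)) := by
      rw [← tsum_mul_left]
      exact hs.tsum_le_tsum hterm hsum1
    refine h1.trans ?_
    rw [mul_assoc]
    apply mul_le_mul_of_nonneg_left _ hz0.le
    rcases le_total t 1 with h | h
    · refine (hG2 t ht0 h).trans ?_
      have e1 : (t ^ 2)⁻¹ = (κ ^ 2)⁻¹ * (w.im * τ.im) ^ 2 := by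
        rw [ht]; field_simp
      rw [e1]
      have p1 : C2 * ((κ ^ 2)⁻¹ * (w.im * τ.im) ^ 2) ≤ |C2| * ((κ ^ 2)⁻¹ * (w.im * τ.im) ^ 2) :=
        mul_le_mul_of_nonneg_right (le_abs_self _) (by positivity)
      have p2 : 0 ≤ 16 * S1 * (w.im * τ.im) ^ 2 := by positivity
      calc C2 * ((κ ^ 2)⁻¹ * (w.im * τ.im) ^ 2) ≤ _ := p1
        _ ≤ |C2| * ((κ ^ 2)⁻¹ * (w.im * τ.im) ^ 2) + 16 * S1 * (w.im * τ.im) ^ 2 := by linarith
        _ = (|C2| * (κ ^ 2)⁻¹ + 16 * S1) * (w.im * τ.im) ^ 2 := by ring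
    · have h2 : ∑' γ : Mat, Real.exp (-(t * msq γ)) ≤ S1 := by
        refine (hG1 t ht0).tsum_le_tsum (fun γ => ?_) (hG1 1 one_pos)
        apply Real.exp_le_exp.2
        apply neg_le_neg
        exact mul_le_mul_of_nonneg_right h (msq_nonneg γ)
      have h3 : (1 : ℝ) / 4 ≤ w.im * τ.im := by nlinarith
      have h4 : (1 : ℝ) / 16 ≤ (w.im * τ.im) ^ 2 := by nlinarith
      have h5 : S1 ≤ 16 * S1 * (w.im * τ.im) ^ 2 := by nlinarith
      have h6 : 0 ≤ |C2| * (κ ^ 2)⁻¹ * (w.im * τ.im) ^ 2 := by positivity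
      calc ∑' γ : Mat, Real.exp (-(t * msq γ)) ≤ S1 := h2
        _ ≤ 16 * S1 * (w.im * τ.im) ^ 2 := h5
        _ ≤ |C2| * (κ ^ 2)⁻¹ * (w.im * τ.im) ^ 2 + 16 * S1 * (w.im * τ.im) ^ 2 := by linarith
        _ = (|C2| * (κ ^ 2)⁻¹ + 16 * S1) * (w.im * τ.im) ^ 2 := by ring

end Pool.Agent.A54.Av
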