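import Pool.Agent.Lib.MP_a54f13_nt.Av.SpecB

/-!
# Module `W1`: exponential weights, `n ≥ 1`
-/

set_option autoImplicit false

namespace Pool.Agent.A54.Av

open MeasureTheory Filter Topology Set
open scoped ENNReal
open Pool.Agent.A54.Half (H0)

namespace W1M

noncomputable section

/-- the weights `exp(-π j)` -/
def aw (j : ℕ) : ℝ≥0∞ := ENNReal.ofReal (Real.exp (-(Real.pi * j)))

/-- `∑ exp(-π j) (j + 1)^m` -/
def sumw (m : ℕ) : ℝ≥0∞ := ∑' j : ℕ, aw j * ENNReal.ofReal (((j : ℝ) + 1) ^ m)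

theorem sumw_ne_top (m : ℕ) : sumw m ≠ ∞ := by
  have h1 : Summable fun n : ℕ => ((n : ℝ)) ^ m * Real.exp (-Real.pi * n) :=
    Real.summable_pow_mul_exp_neg_nat_mul m Real.pi_pos
  have h2 := (summable_nat_add_iff 1).mpr h1
  have h3 : Summable fun j : ℕ => Real.exp (-(Real.pi * j)) * ((j : ℝ) + 1) ^ m := by
    refine (h2.mul_left (Real.exp Real.pi)).congr ?_
    intro j
    have h4 : Real.exp (-(Real.pi * j)) = Real.exp Real.pi * Real.exp (-Real.pi * ((j + 1 : ℕ) : ℝ)) := by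
      rw [← Real.exp_add]
      congr 1
      push_cast
      ring
    rw [h4]
    push_cast
    ring
  have h5 : sumw m = ∑' j : ℕ, ENNReal.ofReal (Real.exp (-(Real.pi * j)) * ((j : ℝ) + 1) ^ m) := by
    unfold sumw aw
    congr 1
    ext j
    rw [ENNReal.ofReal_mul (Real.exp_pos _).le]
  rw [h5]
  exact h3.tsum_ofReal_ne_top

theorem exp_le_aw (t : ℝ) (ht : 0 ≤ t) :
    ENNReal.ofReal (Real.exp (-(Real.pi * t))) ≤ aw ⌊t⌋₊ := by
  unfold aw
  apply ENNReal.ofReal_le_ofReal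
  apply Real.exp_le_exp.mpr
  have := Nat.floor_le ht
  have := mul_le_mul_of_nonneg_left this Real.pi_pos.le
  linarith

theorem young (a b : ℝ≥0∞) : 2 * (a * b) ≤ a ^ 2 + b ^ 2 := by
  rcases le_total a b with h | h
  · obtain ⟨c, rfl⟩ := exists_add_of_le h
    have : a ^ 2 + (a + c) ^ 2 = 2 * (a * (a + c)) + c ^ 2 := by ring
    rw [this]
    exact le_self_add
  · obtain ⟨c, rfl⟩ := exists_add_of_le h
    have : (b + c) ^ 2 + b ^ 2 = 2 * ((b + c) * b) + c ^ 2 := by ring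
    rw [this]
    exact le_self_add

/-- Cauchy–Schwarz with weights -/
theorem cs {ι : Type} (w x : ι → ℝ≥0∞) :
    (∑' i, w i * x i) ^ 2 ≤ (∑' i, w i) * ∑' i, w i * x i ^ 2 := by
  have h1 : 2 * (∑' i, w i * x i) ^ 2 = ∑' i, ∑' j, 2 * ((w i * x i) * (w j * x j)) := by
    rw [sq, ← ENNReal.tsum_mul_right, ← ENNReal.tsum_mul_left]
    congr 1
    ext i
    rw [← ENNReal.tsum_mul_left, ← ENNReal.tsum_mul_left]
  have h2 : ∑' i, ∑' j, 2 * ((w i * x i) * (w j * x j)) ≤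
      ∑' i, ∑' j, (w j * (w i * x i ^ 2) + w i * (w j * x j ^ 2)) := by
    refine ENNReal.tsum_le_tsum fun i => ENNReal.tsum_le_tsum fun j => ?_
    calc 2 * ((w i * x i) * (w j * x j)) = (w i * w j) * (2 * (x i * x j)) := by ring
      _ ≤ (w i * w j) * (x i ^ 2 + x j ^ 2) := mul_le_mul_right (young _ _) _
      _ = w j * (w i * x i ^ 2) + w i * (w j * x j ^ 2) := by ring
  have h3 : ∑' i, ∑' j, (w j * (w i * x i ^ 2) + w i * (w j * x j ^ 2)) =
      2 * ((∑' i, w i) * ∑' i, w i * x i ^ 2) := by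
    have h4 : ∀ i, ∑' j, (w j * (w i * x i ^ 2) + w i * (w j * x j ^ 2)) =
        (∑' j, w j) * (w i * x i ^ 2) + w i * ∑' j, w j * x j ^ 2 := by
      intro i
      rw [ENNReal.tsum_add, ENNReal.tsum_mul_right, ENNReal.tsum_mul_left]
    simp_rw [h4]
    rw [ENNReal.tsum_add, ENNReal.tsum_mul_left, ENNReal.tsum_mul_right]
    ring
  have h5 : 2 * (∑' i, w i * x i) ^ 2 ≤ 2 * ((∑' i, w i) * ∑' i, w i * x i ^ 2) := by
    rw [h1, ← h3]
    exact h2
  exact (ENNReal.mul_le_mul_iff_right (by norm_num) (by norm_num)).mp h5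

theorem Vd_nonneg (γ : Mat) (z : ℂ) : 0 ≤ Vd γ z := by
  unfold Vd VV
  apply div_nonneg (sq_nonneg _)
  have : 0 ≤ z.im * z.im := mul_self_nonneg _
  nlinarith

theorem measurable_Vd (γ : Mat) : Measurable (Vd γ) := by
  unfold Vd VV
  fun_prop

theorem meas_cnt (β r L : ℝ) (n : ℤ) : Measurable fun z : ℂ =>
    cnt (fun γ => Cnd β r n z γ ∧ ((|γ 1 0| : ℤ) : ℝ) ≤ L) := by
  classical
  haveI : Countable Mat := inferInstanceAs (Countable (Fin 2 → Fin 2 → ℤ))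
  unfold cnt
  refine Measurable.ennreal_tsum fun γ => ?_
  refine Measurable.ite ?_ measurable_const measurable_const
  have h1 : MeasurableSet {z : ℂ | ((γ.det : ℤ) : ℝ) + Vd γ z ≤ β ^ 2} :=
    measurableSet_le ((measurable_Vd γ).const_add _) measurable_const
  have h2 : MeasurableSet {z : ℂ | Vd γ z ≤ r ^ 2} :=
    measurableSet_le (measurable_Vd γ) measurable_const
  exact ((MeasurableSet.const (NonSc γ)).inter ((MeasurableSet.const (γ.det = n)).inter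
    (h1.inter h2))).inter (MeasurableSet.const _)

theorem WW_le (y1 y : ℝ) (hy1 : 0 < y1) (hy : 0 < y) (γ : Mat) (z : ℂ)
    (hd : 0 ≤ ((γ.det : ℤ) : ℝ)) :
    WW y1 y γ z ≤ aw ⌊y1 * (((γ.det : ℤ) : ℝ) + Vd γ z)⌋₊ * aw ⌊y * Vd γ z⌋₊ := by
  have hV := Vd_nonneg γ z
  unfold WW
  have h1 : -(Real.pi * (y1 * (((γ.det : ℤ) : ℝ) + Vd γ z) + y * Vd γ z)) =
      -(Real.pi * (y1 * (((γ.det : ℤ) : ℝ) + Vd γ z))) + -(Real.pi * (y * Vd γ z)) := by ring
  rw [h1, Real.exp_add, ENNReal.ofReal_mul (Real.exp_pos _).le]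
  exact mul_le_mul' (exp_le_aw _ (by positivity)) (exp_le_aw _ (by positivity))

theorem sW_le (P : Mat → Prop) (y1 y : ℝ) (z : ℂ) (hy1 : 0 < y1) (hy : 0 < y)
    (hP : ∀ γ, P γ → 0 ≤ ((γ.det : ℤ) : ℝ)) :
    sW P y1 y z ≤ ∑' p : ℕ × ℕ, (aw p.1 * aw p.2) *
      cnt (fun γ => P γ ∧ y1 * (((γ.det : ℤ) : ℝ) + Vd γ z) ≤ (p.1 : ℝ) + 1 ∧
        y * Vd γ z ≤ (p.2 : ℝ) + 1) := by
  classical
  unfold sW cnt
  simp_rw [← ENNReal.tsum_mul_left]
  rw [ENNReal.tsum_comm]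
  refine ENNReal.tsum_le_tsum fun γ => ?_
  by_cases hγ : P γ
  · rw [if_pos hγ]
    refine le_trans (WW_le y1 y hy1 hy γ z (hP γ hγ)) ?_
    refine le_trans ?_ (ENNReal.le_tsum
      (⌊y1 * (((γ.det : ℤ) : ℝ) + Vd γ z)⌋₊, ⌊y * Vd γ z⌋₊))
    rw [if_pos]
    · rw [mul_one]
    · exact ⟨hγ, (Nat.lt_floor_add_one _).le, (Nat.lt_floor_add_one _).le⟩
  · rw [if_neg hγ]
    exact zero_le

theorem cnt_mono {P Q : Mat → Prop} (h : ∀ γ, P γ → Q γ) : cnt P ≤ cnt Q := by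
  classical
  unfold cnt
  refine ENNReal.tsum_le_tsum fun γ => ?_
  by_cases hγ : P γ
  · rw [if_pos hγ, if_pos (h γ hγ)]
  · rw [if_neg hγ]
    exact zero_le

theorem cnt_zero {P : Mat → Prop} (h : ∀ γ, ¬ P γ) : cnt P = 0 := by
  classical
  unfold cnt
  rw [ENNReal.tsum_eq_zero]
  intro γ
  rw [if_neg (h γ)]

/-- the main estimate -/
theorem key (K : Set ℂ) (hK : IsCompact K) (CI : ℝ) (M : ℕ) (hCI : 0 ≤ CI)
    (hI : ∀ β r L : ℝ, 0 < β → 0 < r → 0 ≤ L →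
      ∫⁻ z in K, ∑' n : ℕ, cnt (fun γ => Cnd β r (n + 1) z γ ∧ ((|γ 1 0| : ℤ) : ℝ) ≤ L) ^ 2 ≤
        ENNReal.ofReal (CI * r ^ 2 * (1 + r) ^ M * (β + β * √(L * β))))
    (y1 y s F0 : ℝ) (hy1 : 0 < y1) (hy : 1 / 2 ≤ y) (hs : 0 ≤ s) (hF0 : 0 ≤ F0)
    (hF : ∀ j : ℕ, 1 ≤ √(((j : ℝ) + 1) / y1) →
      √(((j : ℝ) + 1) / y1) + √s * (((j : ℝ) + 1) / y1) ≤ F0 * ((j : ℝ) + 1))
    (P : ℕ → Mat → Prop)
    (hP : ∀ n γ, P n γ → NonSc γ ∧ γ.det = (n : ℤ) + 1 ∧
      ∀ z ∈ K, ((γ 1 0 : ℤ) : ℝ) ^ 2 ≤ s ^ 2 * (((γ.det : ℤ) : ℝ) + Vd γ z)) :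
    ∫⁻ z in K, ∑' n : ℕ, sW (P n) y1 y z ^ 2 ≤
      ENNReal.ofReal (CI * 3 ^ M / y * F0) * ((sumw 0) ^ 2 * sumw 1 * sumw (M + 1)) := by
  have hy0 : 0 < y := by linarith
  set bt : ℕ → ℝ := fun j => √(((j : ℝ) + 1) / y1) with hbt
  set rr : ℕ → ℝ := fun k => √(((k : ℝ) + 1) / y) with hrr
  have hbt2 : ∀ j, bt j ^ 2 = ((j : ℝ) + 1) / y1 := fun j => Real.sq_sqrt (by positivity)
  have hrr2 : ∀ k, rr k ^ 2 = ((k : ℝ) + 1) / y := fun k => Real.sq_sqrt (by positivity)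
  have hbtp : ∀ j, 0 < bt j := fun j => Real.sqrt_pos.mpr (by positivity)
  have hrrp : ∀ k, 0 < rr k := fun k => Real.sqrt_pos.mpr (by positivity)
  set G : ℕ × ℕ → ℕ → ℂ → ℝ≥0∞ := fun p n z =>
    cnt (fun γ => Cnd (bt p.1) (rr p.2) (n + 1) z γ ∧ ((|γ 1 0| : ℤ) : ℝ) ≤ s * bt p.1) with hG
  have hdet : ∀ n γ, P n γ → ((γ.det : ℤ) : ℝ) = (n : ℝ) + 1 := by
    intro n γ h
    rw [(hP n γ h).2.1]
    push_cast
    ring
  -- pointwise estimate
  have hpt : ∀ z ∈ K, ∑' n : ℕ, sW (P n) y1 y z ^ 2 ≤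
      (sumw 0) ^ 2 * ∑' p : ℕ × ℕ, (aw p.1 * aw p.2) * ∑' n : ℕ, G p n z ^ 2 := by
    intro z hz
    have h1 : ∀ n, sW (P n) y1 y z ^ 2 ≤
        (sumw 0) ^ 2 * ∑' p : ℕ × ℕ, (aw p.1 * aw p.2) * G p n z ^ 2 := by
      intro n
      have h2 := sW_le (P n) y1 y z hy1 hy0 (fun γ h => by rw [hdet n γ h]; positivity)
      have h3 : sW (P n) y1 y z ≤ ∑' p : ℕ × ℕ, (aw p.1 * aw p.2) * G p n z := by
        refine h2.trans (ENNReal.tsum_le_tsum fun p => mul_le_mul_right (cnt_mono ?_) _)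
        rintro γ ⟨hγ, hu, hv⟩
        obtain ⟨hns, hdt, hc⟩ := hP n γ hγ
        have hu' : ((γ.det : ℤ) : ℝ) + Vd γ z ≤ bt p.1 ^ 2 := by
          rw [hbt2, le_div_iff₀ hy1]
          linarith
        refine ⟨⟨hns, hdt, hu', ?_⟩, ?_⟩
        · rw [hrr2, le_div_iff₀ hy0]
          linarith
        · rw [Int.cast_abs]
          apply abs_le_of_sq_le_sq _ (mul_nonneg hs (hbtp _).le)
          rw [mul_pow]
          exact (hc z hz).trans (mul_le_mul_of_nonneg_left hu' (sq_nonneg s))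
      have h4 : (∑' p : ℕ × ℕ, aw p.1 * aw p.2) = (sumw 0) ^ 2 := by
        rw [ENNReal.tsum_prod (f := fun j k => aw j * aw k)]
        simp_rw [ENNReal.tsum_mul_left]
        rw [ENNReal.tsum_mul_right, sq]
        have : (∑' j, aw j) = sumw 0 := by
          unfold sumw
          simp
        rw [this]
      calc sW (P n) y1 y z ^ 2 ≤ (∑' p : ℕ × ℕ, (aw p.1 * aw p.2) * G p n z) ^ 2 :=
            pow_le_pow_left' h3 2
        _ ≤ (∑' p : ℕ × ℕ, aw p.1 * aw p.2) *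
            ∑' p : ℕ × ℕ, (aw p.1 * aw p.2) * G p n z ^ 2 := cs _ _
        _ = _ := by rw [h4]
    refine (ENNReal.tsum_le_tsum h1).trans ?_
    rw [ENNReal.tsum_mul_left, ENNReal.tsum_comm]
    simp_rw [ENNReal.tsum_mul_left]
    exact le_rfl
  -- integration
  have hmeas : ∀ p n, Measurable (G p n) := fun p n => meas_cnt _ _ _ _
  have hm2 : ∀ p, Measurable fun z => ∑' n : ℕ, G p n z ^ 2 := fun p =>
    Measurable.ennreal_tsum fun n => (hmeas p n).pow_const 2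
  have hint : ∫⁻ z in K, ∑' n : ℕ, sW (P n) y1 y z ^ 2 ≤
      (sumw 0) ^ 2 * ∑' p : ℕ × ℕ, (aw p.1 * aw p.2) * ∫⁻ z in K, ∑' n : ℕ, G p n z ^ 2 := by
    refine (setLIntegral_mono' hK.measurableSet hpt).trans ?_
    rw [lintegral_const_mul _ (Measurable.ennreal_tsum fun p => (hm2 p).const_mul _),
      lintegral_tsum fun p => ((hm2 p).const_mul _).aemeasurable]
    refine mul_le_mul_right (ENNReal.tsum_le_tsum fun p => ?_) _
    rw [lintegral_const_mul _ (hm2 p)]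
  refine hint.trans ?_
  -- each integral
  have hone : ∀ p : ℕ × ℕ, ∫⁻ z in K, ∑' n : ℕ, G p n z ^ 2 ≤
      ENNReal.ofReal (CI * 3 ^ M / y * F0) * (ENNReal.ofReal (((p.1 : ℝ) + 1) ^ 1) *
        ENNReal.ofReal (((p.2 : ℝ) + 1) ^ (M + 1))) := by
    intro p
    by_cases hb : 1 ≤ bt p.1
    · refine (hI (bt p.1) (rr p.2) (s * bt p.1) (hbtp _) (hrrp _)
        (mul_nonneg hs (hbtp _).le)).trans ?_
      have hA : 0 ≤ CI * 3 ^ M / y * F0 := by positivity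
      rw [← ENNReal.ofReal_mul (by positivity), ← ENNReal.ofReal_mul hA]
      apply ENNReal.ofReal_le_ofReal
      have h1 : √(s * bt p.1 * bt p.1) = √s * bt p.1 := by
        rw [mul_assoc, Real.sqrt_mul hs, Real.sqrt_mul_self (hbtp _).le]
      rw [h1]
      have h2 : bt p.1 + bt p.1 * (√s * bt p.1) ≤ F0 * ((p.1 : ℝ) + 1) := by
        have h3 : bt p.1 + bt p.1 * (√s * bt p.1) = bt p.1 + √s * bt p.1 ^ 2 := by ring
        rw [h3, hbt2]
        exact hF p.1 hb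
      have h4 : 1 + rr p.2 ≤ 3 * ((p.2 : ℝ) + 1) := by
        have h5 : rr p.2 ≤ 2 * ((p.2 : ℝ) + 1) := by
          apply Real.sqrt_le_iff.mpr
          refine ⟨by positivity, ?_⟩
          rw [div_le_iff₀ hy0]
          have h6 : (0 : ℝ) ≤ (p.2 : ℝ) := Nat.cast_nonneg _
          nlinarith [mul_nonneg h6 h6, mul_nonneg h6 hy0.le]
        have h6 : (0 : ℝ) ≤ (p.2 : ℝ) := Nat.cast_nonneg _
        linarith
      have h7 : (1 + rr p.2) ^ M ≤ (3 * ((p.2 : ℝ) + 1)) ^ M :=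
        pow_le_pow_left₀ (by have := (hrrp p.2).le; linarith) h4 M
      rw [hrr2]
      have h8 : CI * (((p.2 : ℝ) + 1) / y) * (1 + rr p.2) ^ M ≤
          CI * (((p.2 : ℝ) + 1) / y) * (3 * ((p.2 : ℝ) + 1)) ^ M :=
        mul_le_mul_of_nonneg_left h7 (by positivity)
      calc CI * (((p.2 : ℝ) + 1) / y) * (1 + rr p.2) ^ M * (bt p.1 + bt p.1 * (√s * bt p.1))
          ≤ CI * (((p.2 : ℝ) + 1) / y) * (3 * ((p.2 : ℝ) + 1)) ^ M * (F0 * ((p.1 : ℝ) + 1)) :=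
            mul_le_mul h8 h2 (by have := (hbtp p.1).le; positivity) (by positivity)
        _ = CI * 3 ^ M / y * F0 * (((p.1 : ℝ) + 1) ^ 1 * ((p.2 : ℝ) + 1) ^ (M + 1)) := by
            rw [mul_pow]
            ring
    · have hzero : ∫⁻ z in K, ∑' n : ℕ, G p n z ^ 2 = 0 := by
        have : ∀ z, ∑' n : ℕ, G p n z ^ 2 = 0 := by
          intro z
          rw [ENNReal.tsum_eq_zero]
          intro n
          have h1 : G p n z = 0 := by
            apply cnt_zero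
            rintro γ ⟨⟨hns, hdt, hu, hv⟩, -⟩
            apply hb
            have hV := Vd_nonneg γ z
            have h2 : (1 : ℝ) ≤ ((γ.det : ℤ) : ℝ) := by
              rw [hdt]
              push_cast
              have : (0 : ℝ) ≤ (n : ℝ) := Nat.cast_nonneg _
              linarith
            have h3 : 1 ≤ bt p.1 ^ 2 := by linarith
            have h4 := (hbtp p.1).le
            nlinarith
          rw [h1]
          simp
        simp_rw [this]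
        simp
      rw [hzero]
      exact zero_le
  calc (sumw 0) ^ 2 * ∑' p : ℕ × ℕ, (aw p.1 * aw p.2) * ∫⁻ z in K, ∑' n : ℕ, G p n z ^ 2
      ≤ (sumw 0) ^ 2 * ∑' p : ℕ × ℕ, (aw p.1 * aw p.2) *
        (ENNReal.ofReal (CI * 3 ^ M / y * F0) * (ENNReal.ofReal (((p.1 : ℝ) + 1) ^ 1) *
          ENNReal.ofReal (((p.2 : ℝ) + 1) ^ (M + 1)))) :=
        mul_le_mul_right (ENNReal.tsum_le_tsum fun p => mul_le_mul_right (hone p) _) _
    _ = (sumw 0) ^ 2 * (ENNReal.ofReal (CI * 3 ^ M / y * F0) * (sumw 1 * sumw (M + 1))) := by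
        congr 1
        have h1 : ∀ p : ℕ × ℕ, (aw p.1 * aw p.2) *
            (ENNReal.ofReal (CI * 3 ^ M / y * F0) * (ENNReal.ofReal (((p.1 : ℝ) + 1) ^ 1) *
              ENNReal.ofReal (((p.2 : ℝ) + 1) ^ (M + 1)))) =
            ENNReal.ofReal (CI * 3 ^ M / y * F0) *
              ((aw p.1 * ENNReal.ofReal (((p.1 : ℝ) + 1) ^ 1)) *
                (aw p.2 * ENNReal.ofReal (((p.2 : ℝ) + 1) ^ (M + 1)))) := by
          intro p; ring
        simp_rw [h1]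
        rw [ENNReal.tsum_mul_left]
        congr 1
        rw [ENNReal.tsum_prod (f := fun j k => (aw j * ENNReal.ofReal (((j : ℝ) + 1) ^ 1)) *
                (aw k * ENNReal.ofReal (((k : ℝ) + 1) ^ (M + 1))))]
        simp_rw [ENNReal.tsum_mul_left]
        rw [ENNReal.tsum_mul_right]
        rfl
    _ = _ := by ring

end

end W1M

open W1M

theorem stmtW1 (hI : StmtI) (hGe : StmtGe) : StmtW1 := by
  intro K hK hKH
  obtain ⟨CI, M, hCI, hI'⟩ := hI K hK hKH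
  obtain ⟨Cg, hCg, hGe'⟩ := hGe K hK hKH
  set s1 : ℝ := √(2 * Cg) with hs1
  have hs1n : 0 ≤ s1 := Real.sqrt_nonneg _
  have hs1sq : s1 ^ 2 = 2 * Cg := Real.sq_sqrt (by linarith)
  set c0 : ℝ := ((sumw 0) ^ 2 * sumw 1 * sumw (M + 1)).toReal with hc0
  have hc0n : 0 ≤ c0 := ENNReal.toReal_nonneg
  have hfin : (sumw 0) ^ 2 * sumw 1 * sumw (M + 1) = ENNReal.ofReal c0 := by
    rw [hc0, ENNReal.ofReal_toReal]
    exact ENNReal.mul_ne_top (ENNReal.mul_ne_top (ENNReal.pow_ne_top (sumw_ne_top 0))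
      (sumw_ne_top 1)) (sumw_ne_top _)
  refine ⟨CI * 3 ^ M * (1 + √s1) * c0, by positivity, ?_⟩
  intro y1 y hy1 hy
  have hy0 : 0 < y := by linarith
  constructor
  · have h1 := key K hK CI M hCI hI' y1 y s1 ((1 + √s1) / y1) hy1 hy hs1n (by positivity)
      (by
        intro j hj
        have h2 : √(((j : ℝ) + 1) / y1) ≤ ((j : ℝ) + 1) / y1 := by
          have h3 : √(((j : ℝ) + 1) / y1) ^ 2 = ((j : ℝ) + 1) / y1 := Real.sq_sqrt (by positivity)
          nlinarith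
        have h4 : (1 + √s1) / y1 * ((j : ℝ) + 1) = (((j : ℝ) + 1) / y1) + √s1 * (((j : ℝ) + 1) / y1) := by
          ring
        rw [h4]
        linarith)
      (fun n γ => γ.det = (n : ℤ) + 1 ∧ NonSc γ) (by
        rintro n γ ⟨hd, hns⟩
        refine ⟨hns, hd, ?_⟩
        intro z hz
        have hV := Vd_nonneg γ z
        have h5 := (hGe' z hz γ √(Vd γ z) (Real.sqrt_nonneg _) (by rw [Real.sq_sqrt hV])).2.2.1
        rw [hs1sq]
        have h6 : ((γ 1 0 : ℤ) : ℝ) ^ 2 ≤ msq γ := by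
          unfold msq
          nlinarith [sq_nonneg ((γ 0 0 : ℤ) : ℝ), sq_nonneg ((γ 0 1 : ℤ) : ℝ),
            sq_nonneg ((γ 1 1 : ℤ) : ℝ)]
        have h7 : (0 : ℝ) ≤ ((γ.det : ℤ) : ℝ) := by
          rw [hd]
          push_cast
          positivity
        nlinarith)
    refine h1.trans ?_
    rw [hfin, ← ENNReal.ofReal_mul (by positivity)]
    apply ENNReal.ofReal_le_ofReal
    apply le_of_eq
    field_simp
  · intro ε hε hε1
    have h1 := key K hK CI M hCI hI' y1 y ε (1 / √y1 + √ε / y1) hy1 hy hε.le (by positivity)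
      (by
        intro j hj
        have hj0 : (0 : ℝ) ≤ (j : ℝ) := Nat.cast_nonneg _
        have h2 : √(((j : ℝ) + 1) / y1) ≤ ((j : ℝ) + 1) / √y1 := by
          rw [Real.sqrt_div (by positivity)]
          apply div_le_div_of_nonneg_right _ (Real.sqrt_nonneg _)
          apply Real.sqrt_le_iff.mpr
          constructor
          · positivity
          · nlinarith
        have h4 : (1 / √y1 + √ε / y1) * ((j : ℝ) + 1) =
            (((j : ℝ) + 1) / √y1) + √ε * (((j : ℝ) + 1) / y1) := by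
          ring
        rw [h4]
        linarith)
      (fun n γ => γ.det = (n : ℤ) + 1 ∧ NonSc γ ∧
        ((γ 1 0 : ℤ) : ℝ) ^ 2 ≤ ε ^ 2 * ((γ.det : ℤ) : ℝ)) (by
        rintro n γ ⟨hd, hns, hc⟩
        refine ⟨hns, hd, ?_⟩
        intro z hz
        have hV := Vd_nonneg γ z
        nlinarith [mul_nonneg (sq_nonneg ε) hV])
    refine h1.trans ?_
    rw [hfin, ← ENNReal.ofReal_mul (by positivity)]
    apply ENNReal.ofReal_le_ofReal
    have h8 : CI * 3 ^ M / y * (1 / √y1 + √ε / y1) * c0 =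
        (CI * 3 ^ M * 1 * c0) / y * (1 / √y1 + √ε / y1) := by ring
    rw [h8]
    apply mul_le_mul_of_nonneg_right _ (by positivity)
    apply div_le_div_of_nonneg_right _ hy0.le
    apply mul_le_mul_of_nonneg_right _ hc0n
    apply mul_le_mul_of_nonneg_left _ (by positivity)
    have := Real.sqrt_nonneg s1
    linarith

end Pool.Agent.A54.Av
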